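import Pool.Agent.H11.CL3

set_option autoImplicit false

namespace Pool.Agent.Lead.Nae
open Pool.Agent.H11.PT

/-- positive NAE-3-SAT, repeated variables allowed -/
def NAE (φ : List (ℕ × ℕ × ℕ)) : Prop :=
  ∃ σ : ℕ → Bool, ∀ c ∈ φ, ¬ (σ c.1 = σ c.2.1 ∧ σ c.2.1 = σ c.2.2)

def lv (l : Lit) : ℕ := 4 * l.1 + (bif l.2 then 1 else 2)
def lv' (l : Lit) : ℕ := 4 * l.1 + (bif l.2 then 2 else 1)

def toN (φ : List (Lit × Lit × Lit)) : List (ℕ × ℕ × ℕ) :=
  φ.zipIdx.flatMap fun p =>
    [(lv p.1.1, lv' p.1.1, lv' p.1.1), (lv p.1.2.1, lv' p.1.2.1, lv' p.1.2.1),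
     (lv p.1.2.2, lv' p.1.2.2, lv' p.1.2.2), (4 * p.2 + 3, 4 * p.2 + 4, 4 * p.2 + 4),
     (lv p.1.1, lv p.1.2.1, 4 * p.2 + 3), (4 * p.2 + 4, lv p.1.2.2, 0)]

theorem hard_NAE : Hard NAE := by
  refine hard_SAT3.red toN (by unfold toN lv lv'; fun_prop) fun φ => ⟨?_, ?_⟩
  · rintro ⟨σ, hσ⟩
    let y : ℕ → Bool := fun j => let c := φ.getD j ((0, true), (0, true), (0, true))
      (σ c.1.1 == c.1.2) || (σ c.2.1.1 == c.2.1.2)
    let τ : ℕ → Bool := fun v => if v = 0 then false else if v % 4 = 1 then σ (v / 4)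
      else if v % 4 = 2 then !σ (v / 4) else if v % 4 = 3 then !y (v / 4) else y (v / 4 - 1)
    have h1 : ∀ l : Lit, τ (lv l) = (σ l.1 == l.2) := by
      rintro ⟨v, b⟩
      cases b <;> simp only [τ, lv, cond_true, cond_false]
      · rw [if_neg (by omega), if_neg (by omega), if_pos (by omega),
          show (4 * v + 2) / 4 = v by omega]; simp
      · rw [if_neg (by omega), if_pos (by omega), show (4 * v + 1) / 4 = v by omega]; simp
    have h2 : ∀ l : Lit, τ (lv' l) = !(σ l.1 == l.2) := by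
      rintro ⟨v, b⟩
      cases b <;> simp only [τ, lv', cond_true, cond_false]
      · rw [if_neg (by omega), if_pos (by omega), show (4 * v + 1) / 4 = v by omega]; simp
      · rw [if_neg (by omega), if_neg (by omega), if_pos (by omega),
          show (4 * v + 2) / 4 = v by omega]; simp
    have h3 : ∀ j, τ (4 * j + 3) = !y j := by
      intro j; simp only [τ]
      rw [if_neg (by omega), if_neg (by omega), if_neg (by omega), if_pos (by omega),
        show (4 * j + 3) / 4 = j by omega]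
    have h4 : ∀ j, τ (4 * j + 4) = y j := by
      intro j; simp only [τ]
      rw [if_neg (by omega), if_neg (by omega), if_neg (by omega), if_neg (by omega),
        show (4 * j + 4) / 4 - 1 = j by omega]
    have h0 : τ 0 = false := by simp [τ]
    refine ⟨τ, fun c hc => ?_⟩
    simp only [toN, List.mem_flatMap, List.mem_cons, List.not_mem_nil, or_false] at hc
    obtain ⟨⟨cl, j⟩, hp, hc⟩ := hc
    rw [List.mem_zipIdx_iff_getElem?] at hp
    simp only at hp hc
    have hg : y j = ((σ cl.1.1 == cl.1.2) || (σ cl.2.1.1 == cl.2.1.2)) := by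
      simp [y, List.getD_eq_getElem?_getD, hp]
    have := hσ cl (List.mem_of_getElem? hp)
    simp only [← beq_iff_eq (a := σ _)] at this
    rcases hc with rfl | rfl | rfl | rfl | rfl | rfl <;> simp only [h0, h1, h2, h3, h4, hg] <;>
      revert this <;> generalize (σ cl.1.1 == cl.1.2) = a <;>
      generalize (σ cl.2.1.1 == cl.2.1.2) = b <;> generalize (σ cl.2.2.1 == cl.2.2.2) = c <;>
      revert a b c <;> decide
  · rintro ⟨τ, hτ⟩
    refine ⟨fun v => τ (4 * v + 1) ^^ τ 0, fun cl hcl => ?_⟩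
    obtain ⟨j, hj, rfl⟩ := List.getElem_of_mem hcl
    have hm : (φ[j], j) ∈ φ.zipIdx := by rw [List.mem_zipIdx_iff_getElem?]; simp [hj]
    have key : ∀ c ∈ [(lv φ[j].1, lv' φ[j].1, lv' φ[j].1), (lv φ[j].2.1, lv' φ[j].2.1, lv' φ[j].2.1),
     (lv φ[j].2.2, lv' φ[j].2.2, lv' φ[j].2.2), (4 * j + 3, 4 * j + 4, 4 * j + 4),
     (lv φ[j].1, lv φ[j].2.1, 4 * j + 3), (4 * j + 4, lv φ[j].2.2, 0)],
       ¬ (τ c.1 = τ c.2.1 ∧ τ c.2.1 = τ c.2.2) := fun c hc =>
      hτ c (List.mem_flatMap.2 ⟨_, hm, hc⟩)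
    have hl : ∀ l : Lit, τ (lv l) ≠ τ (lv' l) →
        ((τ (4 * l.1 + 1) ^^ τ 0) = l.2 ↔ τ (lv l) ≠ τ 0) := by
      rintro ⟨v, b⟩
      cases b <;> simp only [lv, lv', cond_true, cond_false] <;>
        generalize τ (4 * v + 1) = a <;> generalize τ (4 * v + 2) = b <;> generalize τ 0 = c <;>
        revert a b c <;> decide
    simp only [List.forall_mem_cons, and_true, List.not_mem_nil, false_imp_iff, implies_true] at key
    obtain ⟨k1, k2, k3, k4, k5, k6⟩ := key
    simp only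
    rw [hl _ k1, hl _ k2, hl _ k3]
    revert k4 k5 k6
    generalize τ (lv φ[j].1) = a
    generalize τ (lv φ[j].2.1) = b
    generalize τ (lv φ[j].2.2) = c
    generalize τ (4 * j + 3) = d
    generalize τ (4 * j + 4) = e
    generalize τ 0 = f
    revert a b c d e f
    decide

end Pool.Agent.Lead.Nae
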