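import Pool.Agent.Lead.POG1

open MvPolynomial

namespace Pool.Agent.Lead.POG

variable {K : Type} [Field K]

/-- cross product -/
def cross {R : Type} [CommRing R] (p q : Fin 3 → R) : Fin 3 → R :=
  ![p 1 * q 2 - p 2 * q 1, p 2 * q 0 - p 0 * q 2, p 0 * q 1 - p 1 * q 0]

lemma eq_of_hyp_le (a b : Fin 3 → K) (h : hyp a ≤ hyp b) : cross a b = 0 := by
  have h0 := h (x := cross a ![1, 0, 0]) (by rw [mem_hyp3]; simp [cross]; ring)
  have h1 := h (x := cross a ![0, 1, 0]) (by rw [mem_hyp3]; simp [cross]; ring)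
  have h2 := h (x := cross a ![0, 0, 1]) (by rw [mem_hyp3]; simp [cross]; ring)
  rw [mem_hyp3] at h0 h1 h2
  simp [cross] at h0 h1 h2
  funext i
  fin_cases i <;> simp [cross]
  · linear_combination -h0
  · linear_combination -h1
  · linear_combination -h2

lemma le_iff_closure {ι : Type} (b : ι → Fin 3 → K) (hb : ∀ i, b i ≠ 0)
    (hc : ∀ i j, cross (b i) (b j) = 0 → i = j) (S : Set ι) (j : ι) :
    (⨅ i ∈ S, hyp (b i)) ≤ hyp (b j) ↔
      j ∈ S ∨ (∃ i ∈ S, ∃ k ∈ S, i ≠ k ∧ det3 (b i) (b k) (b j) = 0) ∨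
        (∃ i ∈ S, ∃ k ∈ S, ∃ m ∈ S, det3 (b i) (b k) (b m) ≠ 0) := by
  constructor
  · intro h
    by_contra hn
    push Not at hn
    obtain ⟨h1, h2, h3⟩ := hn
    by_cases hS : ∃ i ∈ S, ∃ k ∈ S, i ≠ k
    · obtain ⟨i, hi, k, hk, hik⟩ := hS
      apply h2 i hi k hk hik
      have hv : cross (b i) (b k) ∈ ⨅ i ∈ S, hyp (b i) := by
        simp only [Submodule.mem_iInf]
        intro m hm
        have := h3 i hi k hk m hm
        rw [mem_hyp3]
        simp only [det3] at this
        simp [cross]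
        linear_combination this
      have := h hv
      rw [mem_hyp3] at this
      simp [cross] at this
      simp only [det3]
      linear_combination this
    · push Not at hS
      by_cases hne : S.Nonempty
      · obtain ⟨i, hi⟩ := hne
        have : hyp (b i) ≤ hyp (b j) := by
          refine le_trans ?_ h
          refine le_iInf₂ fun m hm => ?_
          rw [hS m hm i hi]
        have := hc _ _ (eq_of_hyp_le _ _ this)
        exact h1 (this ▸ hi)
      · rw [Set.not_nonempty_iff_eq_empty] at hne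
        subst hne
        simp only [Set.mem_empty_iff_false, iInf_false, iInf_top, top_le_iff] at h
        apply hb j
        have h0 : (![1, 0, 0] : Fin 3 → K) ∈ hyp (b j) := by rw [h]; trivial
        have h1 : (![0, 1, 0] : Fin 3 → K) ∈ hyp (b j) := by rw [h]; trivial
        have h2 : (![0, 0, 1] : Fin 3 → K) ∈ hyp (b j) := by rw [h]; trivial
        rw [mem_hyp3] at h0 h1 h2
        simp at h0 h1 h2
        funext i
        fin_cases i <;> simpa
  · rintro (h | ⟨i, hi, k, hk, hik, hd⟩ | ⟨i, hi, k, hk, m, hm, hd⟩)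
    · exact iInf₂_le j h
    · intro v hv
      simp only [Submodule.mem_iInf] at hv
      have h1 := hv i hi
      have h2 := hv k hk
      rw [mem_hyp3] at h1 h2 ⊢
      simp only [det3] at hd
      by_contra hne
      apply hik
      apply hc
      funext t
      apply mul_left_cancel₀ hne
      fin_cases t <;> simp [cross, -mul_eq_zero]
      · linear_combination v 0 * hd + (b k 1 * b j 2 - b k 2 * b j 1) * (-h1)
          + (b i 1 * b j 2 - b i 2 * b j 1) * h2
      · linear_combination v 1 * hd + (b k 2 * b j 0 - b k 0 * b j 2) * (-h1)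
          + (b i 2 * b j 0 - b i 0 * b j 2) * h2
      · linear_combination v 2 * hd + (b k 0 * b j 1 - b k 1 * b j 0) * (-h1)
          + (b i 0 * b j 1 - b i 1 * b j 0) * h2
    · intro v hv
      simp only [Submodule.mem_iInf] at hv
      have h1 := hv i hi
      have h2 := hv k hk
      have h3 := hv m hm
      rw [mem_hyp3] at h1 h2 h3 ⊢
      have e0 : v 0 = 0 := by
        apply mul_left_cancel₀ hd
        simp only [det3]
        linear_combination (b k 1 * b m 2 - b k 2 * b m 1) * h1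
          - (b i 1 * b m 2 - b i 2 * b m 1) * h2 + (b i 1 * b k 2 - b i 2 * b k 1) * h3
      have e1 : v 1 = 0 := by
        apply mul_left_cancel₀ hd
        simp only [det3]
        linear_combination (b k 2 * b m 0 - b k 0 * b m 2) * h1
          - (b i 2 * b m 0 - b i 0 * b m 2) * h2 + (b i 2 * b k 0 - b i 0 * b k 2) * h3
      have e2 : v 2 = 0 := by
        apply mul_left_cancel₀ hd
        simp only [det3]
        linear_combination (b k 0 * b m 1 - b k 1 * b m 0) * h1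
          - (b i 0 * b m 1 - b i 1 * b m 0) * h2 + (b i 0 * b k 1 - b i 1 * b k 0) * h3
      rw [e0, e1, e2]; ring

lemma mem_lattice_iff {M : Type} [CompleteLattice M] {ι : Type} (a : ι → M) (Y : M) :
    (∃ T : Set M, T ⊆ Set.range a ∧ Y = sInf T) ↔ ∃ S : Set ι, Y = ⨅ i ∈ S, a i := by
  constructor
  · rintro ⟨T, hT, rfl⟩
    refine ⟨a ⁻¹' T, ?_⟩
    rw [← sInf_image, Set.image_preimage_eq_of_subset hT]
  · rintro ⟨S, rfl⟩
    exact ⟨a '' S, Set.image_subset_range _ _, by rw [sInf_image]⟩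

lemma lattice_iso {M : Type} [CompleteLattice M] {ι : Type} (a b : ι → M)
    (h : ∀ (S : Set ι) (j : ι), (⨅ i ∈ S, a i) ≤ a j ↔ (⨅ i ∈ S, b i) ≤ b j) :
    Nonempty ({Y | ∃ T : Set M, T ⊆ Set.range a ∧ Y = sInf T} ≃o
      {Y | ∃ T : Set M, T ⊆ Set.range b ∧ Y = sInf T}) := by
  have hle : ∀ S T : Set ι, (⨅ i ∈ S, a i) ≤ (⨅ i ∈ T, a i) ↔ (⨅ i ∈ S, b i) ≤ (⨅ i ∈ T, b i) := by
    intro S T
    simp only [le_iInf₂_iff, h]
  choose sa hsa using fun Y : {Y | ∃ T : Set M, T ⊆ Set.range a ∧ Y = sInf T} =>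
    (mem_lattice_iff a Y.1).1 Y.2
  let F : {Y | ∃ T : Set M, T ⊆ Set.range a ∧ Y = sInf T} →
      {Y | ∃ T : Set M, T ⊆ Set.range b ∧ Y = sInf T} :=
    fun Y => ⟨⨅ i ∈ sa Y, b i, (mem_lattice_iff b _).2 ⟨sa Y, rfl⟩⟩
  have hF : ∀ Y Z, F Y ≤ F Z ↔ Y ≤ Z := by
    intro Y Z
    change (⨅ i ∈ sa Y, b i) ≤ (⨅ i ∈ sa Z, b i) ↔ Y.1 ≤ Z.1
    rw [← hle, ← hsa, ← hsa]
  have hs : Function.Surjective F := by
    rintro ⟨Z, hZ⟩
    obtain ⟨S, rfl⟩ := (mem_lattice_iff b Z).1 hZ
    let Y : {Y | ∃ T : Set M, T ⊆ Set.range a ∧ Y = sInf T} :=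
      ⟨⨅ i ∈ S, a i, (mem_lattice_iff a _).2 ⟨S, rfl⟩⟩
    refine ⟨Y, Subtype.ext ?_⟩
    change (⨅ i ∈ sa Y, b i) = ⨅ i ∈ S, b i
    apply le_antisymm
    · rw [← hle, ← hsa]
    · rw [← hle, ← hsa]
  exact ⟨RelIso.ofSurjective (OrderEmbedding.ofMapLEIff F hF) hs⟩

/-- integer vectors viewed over K -/
def cst (K : Type) [Field K] (v : Fin 3 → ℤ) : Fin 3 → K := fun i => (v i : K)

lemma cst_ne_zero [CharZero K] (v : Fin 3 → ℤ) (h : v ≠ 0) : cst K v ≠ 0 := by
  intro hh
  apply h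
  funext i
  have := congrFun hh i
  simpa [cst] using this

lemma det3_cst [CharZero K] (u v w : Fin 3 → ℤ) :
    det3 (cst K u) (cst K v) (cst K w) = 0 ↔ det3 u v w = 0 := by
  have : det3 (cst K u) (cst K v) (cst K w) = ((det3 u v w : ℤ) : K) := by
    simp [det3, cst]
  rw [this, Int.cast_eq_zero]

lemma cross_cst [CharZero K] (u v : Fin 3 → ℤ) (h : cross (cst K u) (cst K v) = 0) :
    cross u v = 0 := by
  funext i
  have := congrFun h i
  have e : cross (cst K u) (cst K v) i = ((cross u v i : ℤ) : K) := by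
    fin_cases i <;> simp [cross, cst]
  rw [e] at this
  simpa using this

/-- additive realisation -/
def vA : Fin 10 → Fin 3 → ℤ :=
  ![![1, 0, 1], ![1, 0, 0], ![1, 0, -1], ![0, 1, 1], ![0, 1, 0], ![0, 1, -1],
    ![-1, 1, 2], ![-1, 1, 1], ![-1, 1, 0], ![-1, 1, -1]]

/-- multiplicative realisation -/
def vB : Fin 10 → Fin 3 → ℤ :=
  ![![2, 0, -1], ![1, 0, -1], ![1, 0, -2], ![0, 2, -1], ![0, 1, -1], ![0, 1, -2],
    ![-1, 4, 0], ![-1, 2, 0], ![-1, 1, 0], ![-2, 1, 0]]

lemma vA_ne : ∀ i, vA i ≠ 0 := by decide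
lemma vB_ne : ∀ i, vB i ≠ 0 := by decide
lemma vA_cross : ∀ i j, cross (vA i) (vA j) = 0 → i = j := by decide +kernel
lemma vB_cross : ∀ i j, cross (vB i) (vB j) = 0 → i = j := by decide +kernel
lemma det_same : ∀ i j k, det3 (vA i) (vA j) (vA k) = 0 ↔ det3 (vB i) (vB j) (vB k) = 0 := by
  decide +kernel

/-- the two arrangements -/
def arrA (K : Type) [Field K] : Set (Submodule K (Fin 3 → K)) :=
  Set.range fun i => hyp (cst K (vA i))

/-- the two arrangements -/
def arrB (K : Type) [Field K] : Set (Submodule K (Fin 3 → K)) :=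
  Set.range fun i => hyp (cst K (vB i))

lemma iso_AB [CharZero K] : Nonempty (interLattice (arrA K) ≃o interLattice (arrB K)) := by
  apply lattice_iso
  intro S j
  rw [le_iff_closure (fun i => cst K (vA i)) (fun i => cst_ne_zero _ (vA_ne i))
      (fun i j h => vA_cross i j (cross_cst _ _ h)),
    le_iff_closure (fun i => cst K (vB i)) (fun i => cst_ne_zero _ (vB_ne i))
      (fun i j h => vB_cross i j (cross_cst _ _ h))]
  simp only [ne_eq, det3_cst, det_same]

lemma isArr_of [CharZero K] (v : Fin 10 → Fin 3 → ℤ) (hv : ∀ i, v i ≠ 0)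
    (hd : det3 (v 0) (v 3) (v 6) ≠ 0) :
    IsArrangement (Set.range fun i => hyp (cst K (v i))) := by
  refine ⟨Set.finite_range _, ?_, ?_⟩
  · rintro H ⟨i, rfl⟩
    exact ⟨_, cst_ne_zero _ (hv i), rfl⟩
  · rw [eq_bot_iff]
    intro x hx
    rw [Submodule.mem_sInf] at hx
    have h1 := hx _ ⟨0, rfl⟩
    have h2 := hx _ ⟨3, rfl⟩
    have h3 := hx _ ⟨6, rfl⟩
    have hd' : det3 (cst K (v 0)) (cst K (v 3)) (cst K (v 6)) ≠ 0 := by
      rwa [ne_eq, det3_cst]
    rw [mem_hyp3] at h1 h2 h3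
    generalize cst K (v 0) = p at *
    generalize cst K (v 3) = q at *
    generalize cst K (v 6) = r at *
    rw [Submodule.mem_bot]
    funext t
    apply mul_left_cancel₀ hd'
    fin_cases t <;> simp only [det3, Pi.zero_apply, Fin.zero_eta, Fin.mk_one, Fin.reduceFinMk]
    · linear_combination (q 1 * r 2 - q 2 * r 1) * h1
          - (p 1 * r 2 - p 2 * r 1) * h2 + (p 1 * q 2 - p 2 * q 1) * h3
    · linear_combination (q 2 * r 0 - q 0 * r 2) * h1
          - (p 2 * r 0 - p 0 * r 2) * h2 + (p 2 * q 0 - p 0 * q 2) * h3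
    · linear_combination (q 0 * r 1 - q 1 * r 0) * h1
          - (p 0 * r 1 - p 1 * r 0) * h2 + (p 0 * q 1 - p 1 * q 0) * h3

lemma isArr_A [CharZero K] : IsArrangement (arrA K) := isArr_of vA vA_ne (by decide)
lemma isArr_B [CharZero K] : IsArrangement (arrB K) := isArr_of vB vB_ne (by decide)

end Pool.Agent.Lead.POG
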