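import Pool.Agent.H11.CL3

set_option autoImplicit false

namespace Pool.Agent.Lead.NPc
open Pool.Agent.H11.PT

variable {α β : Type} [Enc α] [Enc β]

def decL (c : List ℕ) : List (List ℕ) :=
  c.foldr (fun x acc => bif x == 0 then [] :: acc else ((x - 1) :: acc.headD []) :: acc.tail) []

def encL (L : List (List ℕ)) : List ℕ := L.flatMap fun r => r.map (· + 1) ++ [0]

theorem decL_encL (L : List (List ℕ)) : decL (encL L) = L := by
  induction L with
  | nil => rfl
  | cons r L ih =>
    have : ∀ (r : List ℕ) (u : List ℕ), decL (r.map (· + 1) ++ 0 :: u) = r :: decL u := by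
      intro r u
      induction r with
      | nil => rfl
      | cons a r ih =>
        simp only [decL, List.map_cons, List.cons_append, List.foldr_cons] at ih ⊢
        rw [ih]; simp
    simp only [encL, List.flatMap_cons, List.append_assoc, List.cons_append, List.nil_append] at ih ⊢
    rw [this, ih]

@[fun_prop] theorem PT_decL {f : α → List ℕ} (hf : PT f) : PT fun x => decL (f x) :=
  PT.foldr_add (g := fun _ (x : ℕ) (acc : List (List ℕ)) =>
      bif x == 0 then [] :: acc else ((x - 1) :: acc.headD []) :: acc.tail) hf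
    (PT.const []) (by fun_prop) (fun _ x => x) 6 (by fun_prop) (fun _ c b => by
      cases h : b == 0 <;> cases c <;> simp <;> omega)

theorem encL_bound (L : List (List ℕ)) (k w : ℕ) (h1 : L.length ≤ k)
    (h2 : ∀ r ∈ L, r.length ≤ w ∧ ∀ x ∈ r, x ≤ w) :
    (encL L).length + (encL L).sum ≤ k * (w * (w + 2) + 1) := by
  induction L generalizing k with
  | nil => simp [encL]
  | cons r L ih =>
    obtain ⟨k, rfl⟩ : ∃ k', k = k' + 1 := ⟨k - 1, by simp at h1; omega⟩
    have a := ih k (by simpa using h1) fun r hr => h2 r (List.mem_cons_of_mem _ hr)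
    obtain ⟨b1, b2⟩ := h2 r List.mem_cons_self
    have b3 : (r.map (· + 1)).sum ≤ (r.map (· + 1)).length • (w + 1) :=
      List.sum_le_card_nsmul _ _ (by
        intro x hx; obtain ⟨y, hy, rfl⟩ := List.mem_map.1 hx; have := b2 y hy; omega)
    simp only [encL, List.flatMap_cons, List.length_append, List.sum_append, List.length_map,
      smul_eq_mul, List.length_cons, List.length_nil, List.sum_cons, List.sum_nil] at a b3 ⊢
    have : r.length * (w + 1) ≤ w * (w + 1) := Nat.mul_le_mul_right _ b1
    nlinarith

/-- NP membership with a table of naturals as certificate -/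
theorem inNP_lists {L : α → Prop} {V : α → List (List ℕ) → Bool}
    (h : PT fun p : α × List (List ℕ) => V p.1 p.2) (k w : α → ℕ) (hk : PT k) (hw : PT w)
    (e1 : ∀ x c, V x c = true → L x)
    (e2 : ∀ x, L x → ∃ c : List (List ℕ), c.length ≤ k x ∧
      (∀ r ∈ c, r.length ≤ w x ∧ ∀ y ∈ r, y ≤ w x) ∧ V x c = true) : InNP L := by
  refine PT.inNP_nats (V := fun x c => V x (decL c))
    (h.comp (g := fun p : α × List ℕ => (p.1, decL p.2)) (by fun_prop))
    (fun x => k x * (w x * (w x + 2) + 1)) (by fun_prop) (fun x c hc => e1 x _ hc) fun x hx => ?_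
  obtain ⟨c, h1, h2, h3⟩ := e2 x hx
  exact ⟨encL c, encL_bound c _ _ h1 h2, by rw [decL_encL]; exact h3⟩

theorem InNP.red {X : α → Prop} {Y : β → Prop} (hY : InNP Y) (f : α → β) (hf : PT f)
    (e : ∀ x, X x ↔ Y (f x)) : InNP X := by
  obtain ⟨g, hg, eg⟩ := cook_gen Y hY
  have hgf : PT fun x => g (f x) := hg.comp hf
  refine inNP_lists (V := fun x c => (g (f x)).all fun cl => cl.any fun l =>
      ((c.headD []).contains l.1) == l.2) (by fun_prop) (fun _ => 1) (fun x => sz (g (f x)))
      (by fun_prop) (by fun_prop) (fun x c hc => ?_) fun x hx => ?_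
  · rw [e, eg]
    refine ⟨fun v => (c.headD []).contains v, fun cl hcl => ?_⟩
    simp only [List.all_eq_true, List.any_eq_true, beq_iff_eq] at hc
    exact hc cl hcl
  · rw [e, eg] at hx
    obtain ⟨σ, hσ⟩ := hx
    refine ⟨[(List.range (sz (g (f x)))).filter σ], le_rfl, ?_, ?_⟩
    · intro r hr
      rw [List.mem_singleton.1 hr]
      refine ⟨(List.length_filter_le _ _).trans (by simp), fun y hy => ?_⟩
      have := List.mem_range.1 (List.mem_of_mem_filter hy); omega
    · simp only [List.all_eq_true, List.any_eq_true, beq_iff_eq]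
      intro cl hcl
      obtain ⟨l, hl, h⟩ := hσ cl hcl
      refine ⟨l, hl, ?_⟩
      have h1 := sz_mem hcl
      have h2 := sz_mem hl
      have h3 : sz l = sz l.1 + sz l.2 + 1 := sz_pair l.1 l.2
      rw [sz_nat] at h3
      rw [← h, Bool.eq_iff_iff]
      simp only [List.headD_cons, List.contains_iff_mem, List.mem_filter, List.mem_range]
      exact ⟨fun h => h.2, fun h => ⟨by omega, h⟩⟩

theorem sat_np : InNP SAT := by
  refine inNP_lists (V := fun x c => x.all fun cl => cl.any fun l =>
      ((c.headD []).contains l.1) == l.2) (by fun_prop) (fun _ => 1) (fun x => sz x)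
      (by fun_prop) (by fun_prop) (fun x c hc => ?_) fun x hx => ?_
  · refine ⟨fun v => (c.headD []).contains v, fun cl hcl => ?_⟩
    simp only [List.all_eq_true, List.any_eq_true, beq_iff_eq] at hc
    exact hc cl hcl
  · obtain ⟨σ, hσ⟩ := hx
    refine ⟨[(List.range (sz x)).filter σ], le_rfl, ?_, ?_⟩
    · intro r hr
      rw [List.mem_singleton.1 hr]
      refine ⟨(List.length_filter_le _ _).trans (by simp), fun y hy => ?_⟩
      have := List.mem_range.1 (List.mem_of_mem_filter hy); omega
    · simp only [List.all_eq_true, List.any_eq_true, beq_iff_eq]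
      intro cl hcl
      obtain ⟨l, hl, h⟩ := hσ cl hcl
      refine ⟨l, hl, ?_⟩
      have h1 := sz_mem hcl
      have h2 := sz_mem hl
      have h3 : sz l = sz l.1 + sz l.2 + 1 := sz_pair l.1 l.2
      rw [sz_nat] at h3
      rw [← h, Bool.eq_iff_iff]
      simp only [List.headD_cons, List.contains_iff_mem, List.mem_filter, List.mem_range]
      exact ⟨fun h => h.2, fun h => ⟨by omega, h⟩⟩

def decC (w : List Bool) : List (List Lit) :=
  (decL (decN w)).map fun r => r.map fun x => (x / 2, x % 2 == 1)

def encC (φ : List (List Lit)) : List Bool :=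
  encN (encL (φ.map fun c => c.map fun l => 2 * l.1 + (bif l.2 then 1 else 0)))

theorem decC_encC (φ : List (List Lit)) : decC (encC φ) = φ := by
  have := decN_encN (encL (φ.map fun c => c.map fun l => 2 * l.1 + (bif l.2 then 1 else 0))) []
  simp only [List.append_nil, show decN [] = [] from rfl] at this
  rw [decC, encC, this, decL_encL, List.map_map]
  conv_rhs => rw [← List.map_id φ]
  refine List.map_congr_left fun c _ => ?_
  simp only [Function.comp, List.map_map, id]
  conv_rhs => rw [← List.map_id c]
  refine List.map_congr_left fun l _ => ?_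
  obtain ⟨v, b⟩ := l
  cases b <;> simp <;> omega

/-- an NP-complete problem is in co-NP exactly when NP is closed under complement -/
theorem conp_iff {X : α → Prop} (h1 : InNP X) (h2 : Hard X) :
    InNP (fun y => ¬ X y) ↔ ∀ L : List Bool → Prop, InNP L → InNP (fun w => ¬ L w) := by
  constructor
  · intro h L hL
    obtain ⟨f, hf, e⟩ := h2 L hL
    exact InNP.red h f hf fun x => not_congr (e x)
  · intro h
    have h0 : InNP fun w => SAT (decC w) :=
      InNP.red sat_np decC (by unfold decC; fun_prop) fun _ => Iff.rfl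
    obtain ⟨g, hg, eg⟩ := cook_gen X h1
    refine InNP.red (h _ h0) (fun y => encC (g y)) (by unfold encC encN encL; fun_prop) fun y => ?_
    rw [decC_encC, eg]

end Pool.Agent.Lead.NPc
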