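import Pool.Agent.Lead.GroDefs

namespace Pool.Agent.Lead.Gro

open Set Topology Filter

def RCC {Z : Type} [TopologicalSpace Z] (W A : Set Z) : Prop :=
  ∀ a : ℕ → Z, (∀ n, a n ∈ A) → ∃ g ∈ W, MapClusterPt g atTop a

def G {X : Type} (W : Set (X → ℝ)) : Prop := ∀ A ⊆ W, RCC W A → closure A ⊆ W

theorem ccin_iff {Z : Type} [TopologicalSpace Z] [T1Space Z] {A : Set Z} :
    CCIn A ↔ RCC univ A := by
  constructor
  · intro h x hx
    rw [← Nat.cofinite_eq_atTop]
    by_cases hfin : (Set.range x).Finite
    · obtain ⟨a, -, ha⟩ := hfin.isCompact.exists_mapClusterPt_of_frequently (l := cofinite) (f := x)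
        (Frequently.of_forall fun n => mem_range_self n)
      exact ⟨a, trivial, ha⟩
    · obtain ⟨a, hacc⟩ := h (Set.range x) (by rintro _ ⟨n, rfl⟩; exact hx n) hfin
      refine ⟨a, trivial, ?_⟩
      simp_rw [mapClusterPt_iff_frequently, frequently_cofinite_iff_infinite]
      exact fun s hs ↦ Infinite.of_accPt (hacc.nhds_inter hs) |>.mono (by grind) |>.of_image x
  · intro h B hBA hB
    let f := hB.natEmbedding
    have hinj : Function.Injective fun n => (f n).1 := Subtype.val_injective.comp f.injective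
    obtain ⟨a, -, hac⟩ := h (fun n => (f n).1) (fun n => hBA (f n).2)
    refine ⟨a, accPt_iff_clusterPt.2 <| ClusterPt.mono hac <| le_inf ?_ ?_⟩
    · exact tendsto_principal.mpr <| Nat.cofinite_eq_atTop ▸
        ((Set.finite_singleton a).preimage hinj.injOn).compl_mem_cofinite
    · exact tendsto_principal.mpr <| Eventually.of_forall fun n => (f n).2

theorem RCC.compact_closure {X : Type} {W A : Set (X → ℝ)} (h : RCC W A) :
    IsCompact (closure A) := by
  have hb : ∀ x, ∃ M : ℝ, ∀ g ∈ A, |g x| ≤ M := by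
    intro x
    by_contra hn
    push Not at hn
    choose a ha1 ha2 using fun n : ℕ => hn n
    obtain ⟨g, -, hg⟩ := h a ha1
    have h1 : {f : X → ℝ | |f x| < |g x| + 1} ∈ 𝓝 g :=
      (isOpen_lt (continuous_apply x).abs continuous_const).mem_nhds (by simp)
    have h2 := mapClusterPt_iff_frequently.1 hg _ h1
    have h3 : ∀ᶠ n : ℕ in atTop, |g x| + 1 ≤ n := tendsto_natCast_atTop_atTop.eventually_ge_atTop _
    obtain ⟨n, h4, h5⟩ := (h2.and_eventually h3).exists
    have := ha2 n
    simp only [Set.mem_ofPred_eq] at h4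
    linarith
  choose M hM using hb
  have hK : IsCompact (univ.pi fun x => Icc (-M x) (M x)) := isCompact_univ_pi fun x => isCompact_Icc
  refine hK.of_isClosed_subset isClosed_closure (closure_minimal ?_ hK.isClosed)
  intro g hg x _
  exact abs_le.1 (hM x g hg)

theorem gspace_iff {X Z : Type} [TopologicalSpace Z] {j : Z → (X → ℝ)} (hj : IsEmbedding j) :
    GSpace Z ↔ G (range j) := by
  have := hj.t1Space
  constructor
  · intro h A hA hR
    have h1 : CCIn (j ⁻¹' A) := by
      rw [ccin_iff]
      intro a ha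
      obtain ⟨_, ⟨z, rfl⟩, hz⟩ := hR (fun n => j (a n)) ha
      refine ⟨z, trivial, ?_⟩
      have h2 := (hj.isInducing.mapClusterPt_iff (x := z) (l := map a atTop)).1
        (by simpa [MapClusterPt, Filter.map_map, Function.comp_def] using hz)
      exact h2
    have h2 := (h _ h1).image hj.continuous
    refine (closure_minimal ?_ h2.isClosed).trans (image_subset_range _ _)
    intro g hg
    obtain ⟨z, rfl⟩ := hA hg
    exact ⟨z, subset_closure hg, rfl⟩
  · intro h A hA
    rw [ccin_iff] at hA
    have h1 : RCC (range j) (j '' A) := by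
      intro a ha
      choose b hb1 hb2 using ha
      obtain ⟨z, -, hz⟩ := hA b hb1
      refine ⟨j z, mem_range_self _, ?_⟩
      have := hz.continuousAt_comp hj.continuous.continuousAt
      rwa [show j ∘ b = a from funext hb2] at this
    rw [hj.isInducing.closure_eq_preimage_closure_image]
    exact (hj.isInducing.isCompact_preimage_iff (h _ (image_subset_range _ _) h1)).2
      h1.compact_closure

variable {X : Type} [TopologicalSpace X]

theorem wg_iff : WeaklyGroth X ↔ G {f : X → ℝ | Continuous f} := by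
  unfold WeaklyGroth
  rw [gspace_iff (IsEmbedding.subtypeVal), Subtype.range_coe_subtype]

theorem groth_iff : Groth X ↔ ∀ W ⊆ {f : X → ℝ | Continuous f}, G W := by
  unfold Groth
  have key : ∀ W : Set (Cp X), GSpace W ↔ G (Subtype.val '' W) := by
    intro W
    rw [gspace_iff (IsEmbedding.subtypeVal.comp IsEmbedding.subtypeVal), range_comp,
      Subtype.range_coe]
  constructor
  · intro h W hW
    have := (key (Subtype.val ⁻¹' W)).1 (h _)
    rwa [image_preimage_eq_of_subset (by rw [Subtype.range_coe_subtype]; exact hW)] at this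
  · intro h W
    rw [key]
    apply h
    rintro _ ⟨g, -, rfl⟩
    exact g.2

theorem push {P Q : Type} {W A : Set (P → ℝ)} {W' : Set (Q → ℝ)} (hG : G W')
    {T : (P → ℝ) → (Q → ℝ)} (hT : Continuous T) (hW : ∀ g ∈ W, T g ∈ W') (hA : A ⊆ W)
    (hR : RCC W A) {f : P → ℝ} (hf : f ∈ closure A) : T f ∈ W' := by
  refine hG (T '' A) ?_ ?_ (image_closure_subset_closure_image hT ⟨f, hf, rfl⟩)
  · rintro _ ⟨g, hg, rfl⟩
    exact hW g (hA hg)
  · intro a ha
    choose b hb1 hb2 using ha
    obtain ⟨g, hg, hc⟩ := hR b hb1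
    refine ⟨T g, hW g hg, ?_⟩
    have := hc.continuousAt_comp hT.continuousAt
    rwa [show T ∘ b = a from funext hb2] at this

theorem RCC.mono {Z : Type} [TopologicalSpace Z] {W W' A : Set Z} (h : RCC W A) (hW : W ⊆ W') :
    RCC W' A := fun a ha => (h a ha).imp fun _ hg => ⟨hW hg.1, hg.2⟩

theorem cluster_mem_closed {Z : Type} [TopologicalSpace Z] {a : ℕ → Z} {g : Z}
    (h : MapClusterPt g atTop a) {C : Set Z} (hC : IsClosed C) (ha : ∀ᶠ n in atTop, a n ∈ C) :
    g ∈ C := by
  by_contra hn
  obtain ⟨n, h1, h2⟩ :=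
    ((mapClusterPt_iff_frequently.1 h _ (hC.isOpen_compl.mem_nhds hn)).and_eventually ha).exists
  exact h1 h2

/-- agreement on a sequence of points -/
theorem agree {P : Type} {W A : Set (P → ℝ)} (hR : RCC W A) {f : P → ℝ} (hf : f ∈ closure A)
    (e : ℕ → P) : ∃ g ∈ W, ∀ i, g (e i) = f (e i) := by
  have h1 : ∀ n : ℕ, ∃ a ∈ A, ∀ i ∈ Finset.range n, |a (e i) - f (e i)| < 1 / ((n : ℝ) + 1) := by
    intro n
    have ho : IsOpen {a : P → ℝ | ∀ i ∈ Finset.range n, |a (e i) - f (e i)| < 1 / ((n : ℝ) + 1)} := by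
      simp only [Set.ofPred_forall]
      exact isOpen_biInter_finset fun i _ =>
        isOpen_lt ((continuous_apply _).sub continuous_const).abs continuous_const
    obtain ⟨a, h2, h3⟩ := mem_closure_iff.1 hf _ ho (fun i _ => by simp; positivity)
    exact ⟨a, h3, h2⟩
  choose a ha1 ha2 using h1
  obtain ⟨g, hg, hc⟩ := hR a ha1
  refine ⟨g, hg, fun i => ?_⟩
  have h4 : ∀ ε > 0, |g (e i) - f (e i)| ≤ ε := by
    intro ε hε
    refine cluster_mem_closed hc (C := {a : P → ℝ | |a (e i) - f (e i)| ≤ ε})
      (isClosed_le ((continuous_apply _).sub continuous_const).abs continuous_const) ?_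
    filter_upwards [eventually_gt_atTop i,
      tendsto_one_div_add_atTop_nhds_zero_nat.eventually_lt_const hε] with n h5 h6
    exact ((ha2 n i (Finset.mem_range.2 h5)).trans h6).le
  have := le_of_forall_pos_le_add (a := |g (e i) - f (e i)|) (b := 0) (by simpa using h4)
  exact sub_eq_zero.1 (abs_nonpos_iff.1 this)

theorem groth_of_separable [TopologicalSpace.SeparableSpace X] [Nonempty X] :
    ∀ W ⊆ {f : X → ℝ | Continuous f}, G W := by
  intro W hW A _ hR f hf
  obtain ⟨d, hd⟩ := TopologicalSpace.exists_dense_seq X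
  obtain ⟨g, hg, h1⟩ := agree hR hf d
  have : f = g := by
    funext y
    obtain ⟨g', hg', h2⟩ := agree hR hf (fun n => Nat.casesOn n y d)
    have h3 : g' = g := hd.equalizer (hW hg') (hW hg) (funext fun n => (h2 (n + 1)).trans (h1 n).symm)
    rw [← h3]
    exact (h2 0).symm
  rwa [this]

theorem wg_compact [CompactSpace X] : G {f : X → ℝ | Continuous f} := by
  intro A hA hR f hf
  by_contra hn
  simp only [Set.mem_ofPred_eq, continuous_iff_continuousAt, not_forall] at hn
  obtain ⟨k0, hk0⟩ := hn
  rw [Metric.continuousAt_iff'] at hk0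
  push Not at hk0
  obtain ⟨ε, hε, hfr⟩ := hk0
  have hfr' : ∃ᶠ k in 𝓝 k0, ε ≤ |f k - f k0| := by simpa [Real.dist_eq] using hfr
  -- state: finite lists of functions and points
  have s1 : ∀ (F : Finset X) (n : ℕ), ∃ a ∈ A, ∀ k ∈ F, |a k - f k| < 1 / ((n : ℝ) + 1) := by
    intro F n
    have ho : IsOpen {a : X → ℝ | ∀ k ∈ F, |a k - f k| < 1 / ((n : ℝ) + 1)} := by
      simp only [Set.ofPred_forall]
      exact isOpen_biInter_finset fun i _ =>
        isOpen_lt ((continuous_apply _).sub continuous_const).abs continuous_const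
    obtain ⟨a, h2, h3⟩ := mem_closure_iff.1 hf _ ho (fun i _ => by simp; positivity)
    exact ⟨a, h3, h2⟩
  have s2 : ∀ (L : Finset (X → ℝ)) (n : ℕ), ∃ k, ε ≤ |f k - f k0| ∧
      ∀ a ∈ L, a ∈ A → |a k - a k0| < 1 / ((n : ℝ) + 1) := by
    intro L n
    have : ∀ᶠ k in 𝓝 k0, ∀ a ∈ L, a ∈ A → |a k - a k0| < 1 / ((n : ℝ) + 1) := by
      rw [Finset.eventually_all]
      intro a _
      by_cases ha : a ∈ A
      · have hc : Continuous a := hA ha
        have := (isOpen_lt ((hc.sub continuous_const).abs (f := fun k => a k - a k0))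
          (continuous_const (y := 1 / ((n : ℝ) + 1)))).mem_nhds (x := k0) (by simp; positivity)
        filter_upwards [this] with k hk _ using hk
      · exact Eventually.of_forall fun _ h => absurd h ha
    exact (hfr'.and_eventually this).exists
  classical
  choose α hα1 hα2 using s1
  choose κ hκ1 hκ2 using s2
  let st : ℕ → Finset X × Finset (X → ℝ) := fun n => Nat.rec ({k0}, ∅)
    (fun n s => (insert (κ s.2 n) s.1, insert (α s.1 n) s.2)) n
  have hst : ∀ n, st (n + 1) = (insert (κ (st n).2 n) (st n).1, insert (α (st n).1 n) (st n).2) :=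
    fun n => rfl
  have m1 : Monotone fun n => (st n).1 := monotone_nat_of_le_succ fun n => by
    rw [hst]; exact Finset.subset_insert _ _
  have m2 : Monotone fun n => (st n).2 := monotone_nat_of_le_succ fun n => by
    rw [hst]; exact Finset.subset_insert _ _
  let a : ℕ → X → ℝ := fun n => α (st n).1 n
  let k : ℕ → X := fun n => κ (st n).2 n
  obtain ⟨g, hg, hgc⟩ := hR a fun n => hα1 _ _
  obtain ⟨k', hk'⟩ := exists_clusterPt_of_compactSpace (map k atTop)
  have hlim : ∀ {Z : Type} [TopologicalSpace Z] {u : ℕ → Z} {z : Z} (φ : Z → ℝ),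
      MapClusterPt z atTop u → Continuous φ → (∀ᶠ n in atTop, |φ (u n)| < 1 / ((n : ℝ) + 1)) →
      φ z = 0 := by
    intro Z _ u z φ hz hφ hev
    have h4 : ∀ ε > 0, |φ z| ≤ ε := by
      intro ε hε
      refine cluster_mem_closed hz (C := {y | |φ y| ≤ ε}) (isClosed_le hφ.abs continuous_const) ?_
      filter_upwards [hev, tendsto_one_div_add_atTop_nhds_zero_nat.eventually_lt_const hε]
        with n h5 h6
      exact (h5.trans h6).le
    exact abs_nonpos_iff.1 (le_of_forall_pos_le_add (by simpa using h4))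
  have h1 : ∀ i, ∀ y ∈ (st i).1, g y = f y := by
    intro i y hy
    refine sub_eq_zero.1 (hlim (fun a : X → ℝ => a y - f y) hgc
      ((continuous_apply y).sub continuous_const) ?_)
    filter_upwards [eventually_ge_atTop i] with n hn
    exact hα2 _ _ y (m1 hn hy)
  have h2 : ∀ j, a j k' = a j k0 := by
    intro j
    have hc : Continuous (a j) := hA (hα1 _ _)
    refine sub_eq_zero.1 (hlim (fun y => a j y - a j k0) hk' (hc.sub continuous_const) ?_)
    filter_upwards [eventually_ge_atTop (j + 1)] with n hn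
    refine hκ2 _ _ _ (m2 hn ?_) (hα1 _ _)
    show a j ∈ (st (j + 1)).2
    rw [hst]; exact Finset.mem_insert_self _ _
  have h3 : g k' = g k0 :=
    cluster_mem_closed hgc (C := {a : X → ℝ | a k' = a k0})
      (isClosed_eq (continuous_apply _) (continuous_apply _)) (Eventually.of_forall h2)
  have hgc' : Continuous g := hg
  have h4 : ε ≤ |g k' - g k0| := by
    refine cluster_mem_closed hk' (C := {y | ε ≤ |g y - g k0|})
      (isClosed_le continuous_const (hgc'.sub continuous_const).abs) (Eventually.of_forall fun n => ?_)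
    have e1 : g (k n) = f (k n) := h1 (n + 1) _ (by rw [hst]; exact Finset.mem_insert_self _ _)
    have e2 : g k0 = f k0 := h1 0 _ (Finset.mem_singleton_self _)
    simp only [Set.mem_ofPred_eq, e1, e2]
    exact hκ1 _ _
  rw [h3] at h4
  simp at h4
  linarith

/-- countably supported 0-1 families -/
theorem cc_family {I P : Type} {T : (I → Bool) → (P → ℝ)} (hT : Continuous T) :
    RCC (T '' {s | {i | s i = true}.Countable}) (T '' {s | {i | s i = true}.Countable}) ∧
    T (fun _ => true) ∈ closure (T '' {s | {i | s i = true}.Countable}) := by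
  classical
  constructor
  · intro a ha
    choose s hs1 hs2 using ha
    obtain ⟨t, ht⟩ := exists_clusterPt_of_compactSpace (map s atTop)
    have ht' : MapClusterPt t atTop s := ht
    refine ⟨T t, ⟨t, ?_, rfl⟩, ?_⟩
    · refine (countable_iUnion hs1).mono fun i hi => ?_
      have h1 : {u : I → Bool | u i = true} ∈ 𝓝 t :=
        IsOpen.mem_nhds ((isOpen_discrete ({true} : Set Bool)).preimage
          (continuous_apply (A := fun _ : I => Bool) i)) hi
      obtain ⟨n, hn⟩ := (mapClusterPt_iff_frequently.1 ht' _ h1).exists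
      exact mem_iUnion.2 ⟨n, hn⟩
    · have := ht'.continuousAt_comp hT.continuousAt
      rwa [show T ∘ s = a from funext hs2] at this
  · refine image_closure_subset_closure_image hT ⟨_, ?_, rfl⟩
    refine mem_closure_of_tendsto (f := fun F : Finset I => fun i => decide (i ∈ F)) (b := atTop)
      ?_ (Eventually.of_forall fun F => ?_)
    · rw [tendsto_pi_nhds]
      intro i
      refine tendsto_const_nhds.congr' ?_
      filter_upwards [eventually_ge_atTop {i}] with F hF
      simp [hF (Finset.mem_singleton_self i)]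
    · simpa using F.countable_toSet

end Pool.Agent.Lead.Gro
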