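import Pool.Agent.Lead.Iso1

namespace Pool.Agent.Lead.AL

open Set Topology Filter Cardinal Pool.Agent.Lead.Gro

section clo
variable {I : Type} (Γ : Finset I → Set I)

def Cl (M : Set I) : Prop := ∀ G : Finset I, ↑G ⊆ M → Γ G ⊆ M

def cl (S : Set I) : Set I := ⋂₀ {M | S ⊆ M ∧ Cl Γ M}

theorem subset_cl (S : Set I) : S ⊆ cl Γ S := subset_sInter fun _ h => h.1

theorem cl_min {S M : Set I} (h : S ⊆ M) (hM : Cl Γ M) : cl Γ S ⊆ M :=
  sInter_subset_of_mem ⟨h, hM⟩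

theorem cl_Cl (S : Set I) : Cl Γ (cl Γ S) := fun G hG =>
  subset_sInter fun _ h => h.2 G (hG.trans (sInter_subset_of_mem h))

theorem cl_mono {S S' : Set I} (h : S ⊆ S') : cl Γ S ⊆ cl Γ S' :=
  cl_min Γ (h.trans (subset_cl Γ _)) (cl_Cl Γ _)

theorem Cl_iUnion {A : Type} [Nonempty A] {N : A → Set I} (hd : Directed (· ⊆ ·) N)
    (hN : ∀ a, Cl Γ (N a)) : Cl Γ (⋃ a, N a) := fun G hG => by
  obtain ⟨a, ha⟩ := hd.exists_mem_subset_of_finset_subset_biUnion hG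
  exact (hN a G ha).trans (subset_iUnion N a)

theorem cl_fin {S : Set I} {x : I} (hx : x ∈ cl Γ S) :
    ∃ F : Finset I, ↑F ⊆ S ∧ x ∈ cl Γ F := by
  classical
  have : Nonempty {F : Finset I // ↑F ⊆ S} := ⟨⟨∅, by simp⟩⟩
  have h := cl_min Γ (S := S) (M := ⋃ F : {F : Finset I // ↑F ⊆ S}, cl Γ F.1)
    (fun y hy => mem_iUnion.2 ⟨⟨{y}, by simpa using hy⟩, subset_cl Γ _ (by simp)⟩)
    (Cl_iUnion Γ (fun F F' => ⟨⟨F.1 ∪ F'.1, by simp [F.2, F'.2]⟩, cl_mono Γ (by simp),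
      cl_mono Γ (by simp)⟩) fun F => cl_Cl Γ _) hx
  obtain ⟨F, hF⟩ := mem_iUnion.1 h
  exact ⟨F.1, F.2, hF⟩

theorem cl_cnt (hΓ : ∀ G, (Γ G).Countable) {S : Set I} (hS : S.Countable) :
    (cl Γ S).Countable := by
  obtain ⟨M, h1, h2, h3⟩ := closing Γ hΓ hS
  exact h1.mono (cl_min Γ h2 h3)

theorem cl_card (hΓ : ∀ G, (Γ G).Countable) {S : Set I} {κ : Cardinal} (hκ : ℵ₀ < κ)
    (hS : #S < κ) : #(cl Γ S) < κ := by
  classical
  by_cases hfin : S.Finite
  · exact (le_aleph0_iff_set_countable.2 (cl_cnt Γ hΓ hfin.countable)).trans_lt hκ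
  have : Infinite S := infinite_coe_iff.2 hfin
  have h1 : cl Γ S ⊆ ⋃ F : Finset S, cl Γ (Subtype.val '' (F : Set S)) := by
    intro x hx
    obtain ⟨F, hF, h⟩ := cl_fin Γ hx
    refine mem_iUnion.2 ⟨F.subtype (· ∈ S), cl_mono Γ ?_ h⟩
    intro y hy
    exact ⟨⟨y, hF hy⟩, by simpa using hy, rfl⟩
  refine (mk_le_mk_of_subset h1).trans_lt ((mk_iUnion_le _).trans_lt ?_)
  refine mul_lt_of_lt hκ.le (by rwa [mk_finset_of_infinite]) (lt_of_le_of_lt ?_ hκ)
  exact ciSup_le' fun F =>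
    le_aleph0_iff_set_countable.2 (cl_cnt Γ hΓ (F.countable_toSet.image _))

end clo

theorem fip {K A : Type} [TopologicalSpace K] [CompactSpace K] {S : Set K} {B : Set A}
    {P : A → K → Prop} (hP : ∀ a, IsClosed {k | P a k})
    (h : ∀ G : Finset A, ↑G ⊆ B → ∃ k ∈ closure S, ∀ a ∈ G, P a k) :
    ∃ k ∈ closure S, ∀ a ∈ B, P a k := by
  classical
  obtain ⟨k, h1, h2⟩ := (isClosed_closure (s := S)).isCompact.inter_iInter_nonempty
    (fun a : B => {k | P a.1 k}) (fun a => hP a.1) (fun u => by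
      obtain ⟨k, h1, h2⟩ := h (u.image Subtype.val) (by
        intro a ha
        obtain ⟨b, -, rfl⟩ := Finset.mem_image.1 ha
        exact b.2)
      exact ⟨k, h1, mem_iInter₂.2 fun a ha => h2 _ (Finset.mem_image_of_mem _ ha)⟩)
  exact ⟨k, h1, fun a ha => mem_iInter.1 h2 ⟨a, ha⟩⟩

theorem onto {Z J : Type} [TopologicalSpace Z] [CompactSpace Z] {φ : J → Z → ℝ}
    (hφ : ∀ j, Continuous (φ j)) {H : Set J} (hH : H.Countable) :
    ∃ D : Set Z, D.Countable ∧ ∀ z, ∃ z' ∈ closure D, ∀ j ∈ H, φ j z' = φ j z := by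
  have := hH.to_subtype
  let π : Z → (H → ℝ) := fun k h => φ h.1 k
  have hπ : Continuous π := continuous_pi fun h => hφ _
  obtain ⟨t, ht1, ht2, ht3⟩ :=
    (TopologicalSpace.IsSeparable.of_separableSpace (range π)).exists_countable_dense_subset
  obtain ⟨D, hD1, hD2⟩ : ∃ D : Set Z, D.Countable ∧ π '' D = t := by
    choose c hc using fun y : t => ht1 y.2
    have := ht2.to_subtype
    refine ⟨range c, countable_range c, ?_⟩
    rw [← range_comp, show π ∘ c = Subtype.val from funext hc, Subtype.range_coe]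
  refine ⟨D, hD1, fun k => ?_⟩
  have h2 : closure t ⊆ π '' closure D :=
    closure_minimal (hD2 ▸ image_mono subset_closure)
      (isClosed_closure.isCompact.image hπ).isClosed
  obtain ⟨k', hk1, hk2⟩ := h2 (ht3 (mem_range_self k))
  exact ⟨k', hk1, fun j hj => congrFun hk2 ⟨j, hj⟩⟩

section main
variable {Z I J : Type} [TopologicalSpace Z] (ι : Z → I) (μ : J → I) (φ : J → Z → ℝ)

def R (M : Set I) (z z' : Z) : Prop :=
  z' ∈ closure (ι ⁻¹' M) ∧ ∀ j, μ j ∈ M → φ j z' = φ j z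

variable [CompactSpace Z]

theorem onto_ext (hμ : Function.Injective μ) (hφ : ∀ j, Continuous (φ j))
    (Γ : Finset I → Set I) (hΓ : ∀ G, (Γ G).Countable) :
    ∃ Γ' : Finset I → Set I, (∀ G, (Γ' G).Countable) ∧ (∀ M, Cl Γ' M → Cl Γ M) ∧
      ∀ M, Cl Γ' M → ∀ z, ∃ z', R ι μ φ M z z' := by
  classical
  choose D hD hD' using fun G : Finset I =>
    onto hφ (H := μ ⁻¹' G) (G.countable_toSet.preimage hμ)
  refine ⟨fun G => Γ G ∪ ι '' D G, fun G => (hΓ G).union ((hD G).image _),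
    fun M hM G hG => subset_union_left.trans (hM G hG), fun M hM z => ?_⟩
  refine fip (S := ι ⁻¹' M) (B := μ ⁻¹' M) (P := fun j z' => φ j z' = φ j z)
    (fun j => isClosed_eq (hφ j) continuous_const) fun G hG => ?_
  obtain ⟨z', h1, h2⟩ := hD' (G.image μ) z
  refine ⟨z', closure_mono ?_ h1, fun j hj => h2 j (Finset.mem_image_of_mem _ hj)⟩
  rw [← image_subset_iff]
  refine subset_union_right.trans (hM (G.image μ) ?_)
  intro x hx
  obtain ⟨j, hj, rfl⟩ := Finset.mem_image.1 hx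
  exact hG hj

theorem retr (hφ : ∀ j, Continuous (φ j)) {M : Set I}
    (H1 : ∀ z ∈ closure (ι ⁻¹' M), ∀ w ∈ closure (ι ⁻¹' M),
      (∀ j, μ j ∈ M → φ j z = φ j w) → z = w)
    (H2 : ∀ z, ∃ z', R ι μ φ M z z') : ∃ r : Z → Z, Continuous r ∧ ∀ z, R ι μ φ M z (r z) := by
  choose r hr using H2
  refine ⟨r, continuous_iff_isClosed.2 fun C hC => ?_, hr⟩
  let q : Z → (μ ⁻¹' M → ℝ) := fun z j => φ j.1 z
  have hq : Continuous q := continuous_pi fun j => hφ _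
  have : r ⁻¹' C = q ⁻¹' (q '' (C ∩ closure (ι ⁻¹' M))) := by
    ext z
    constructor
    · intro hz
      exact ⟨r z, ⟨hz, (hr z).1⟩, funext fun j => (hr z).2 j.1 j.2⟩
    · rintro ⟨c, ⟨h1, h2⟩, h3⟩
      have : r z = c := H1 _ (hr z).1 _ h2 fun j hj =>
        ((hr z).2 j hj).trans (congrFun h3 ⟨j, hj⟩).symm
      show r z ∈ C
      rwa [this]
  rw [this]
  exact ((hC.inter isClosed_closure).isCompact.image hq).isClosed.preimage hq

theorem al (hμ : Function.Injective μ) (hφ : ∀ j, Continuous (φ j))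
    (Γ : Finset I → Set I) (hΓ : ∀ G, (Γ G).Countable) {κ0 : Cardinal} (hκ : κ0.IsRegular)
    (D : Z → Z → ℝ → Prop)
    (H1 : ∀ M, Cl Γ M → ∀ z ∈ closure (ι ⁻¹' M), ∀ w ∈ closure (ι ⁻¹' M),
      (∀ j, μ j ∈ M → φ j z = φ j w) → z = w)
    (H2 : ∀ M, Cl Γ M → ∀ z, ∃ z', R ι μ φ M z z')
    (Ha : ∀ z w ε j, D z w ε → |φ j z - φ j w| ≤ ε)
    (Hb : ∀ M, Cl Γ M → ∀ z z' w w' ε, R ι μ φ M z z' → R ι μ φ M w w' → D z w ε → D z' w' ε)
    (Hc : ∀ (W : Type) [LinearOrder W] [WellFoundedLT W] (N N' : W → Set I),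
      (∀ i, Cl Γ (N i)) → (∀ i, Cl Γ (N' i)) → (∀ i, N i ⊆ N' i) → (∀ i j, i < j → N' i ⊆ N j) →
      ∀ (z : Z) (u u' : W → Z), (∀ i, R ι μ φ (N i) z (u i)) → (∀ i, R ι μ φ (N' i) z (u' i)) →
      ∀ ε > 0, #{i | ¬ D (u' i) (u i) ε} < κ0)
    (Hd : ∀ z (f : ℕ → J), ∀ ε > 0, #{n : ℕ | ε ≤ |φ (f n) z / 2 ^ n|} < κ0) (M : Set I)
    (hM : Cl Γ M) :
    ∃ (Λ : Type) (e : Z → Λ → ℝ), Continuous e ∧ InjOn e (closure (ι ⁻¹' M)) ∧
      (∀ z w ε γ, D z w ε → |e z γ - e w γ| ≤ ε) ∧ ∀ z, ∀ ε > 0, #{γ | ε ≤ |e z γ|} < κ0 := by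
  classical
  have hr : ∀ M : {M // Cl Γ M}, ∃ r : Z → Z, Continuous r ∧ ∀ z, R ι μ φ M.1 z (r z) :=
    fun M => retr ι μ φ hφ (H1 M.1 M.2) (H2 M.1 M.2)
  choose r hrc hrR using hr
  have hreq : ∀ (M : {M // Cl Γ M}) z w, (∀ j, μ j ∈ M.1 → φ j z = φ j w) → r M z = r M w :=
    fun M z w h => H1 M.1 M.2 _ (hrR M z).1 _ (hrR M w).1 fun j hj =>
      ((hrR M z).2 j hj).trans ((h j hj).trans ((hrR M w).2 j hj).symm)
  have hreq' : ∀ (M : {M // Cl Γ M}) z w, r M z = r M w → ∀ j, μ j ∈ M.1 → φ j z = φ j w :=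
    fun M z w h j hj => by rw [← (hrR M z).2 j hj, h, (hrR M w).2 j hj]
  generalize hc : #M = κ
  induction κ using WellFoundedLT.induction generalizing M with
  | ind κ ih =>
  by_cases hcnt : M.Countable
  · rcases (μ ⁻¹' M).eq_empty_or_nonempty with he | hne
    · refine ⟨Empty, fun _ => Empty.elim, continuous_const, fun z hz w hw _ => H1 M hM z hz w hw
        fun j hj => absurd (show j ∈ μ ⁻¹' M from hj) (by rw [he]; simp), fun _ _ _ γ => γ.elim,
        fun z ε _ => ?_⟩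
      exact (Set.toFinite _).lt_aleph0.trans_le hκ.aleph0_le
    obtain ⟨f, hf⟩ := (hcnt.preimage hμ).exists_eq_range hne
    refine ⟨ℕ, fun z n => φ (f n) z / 2 ^ n, continuous_pi fun n => (hφ _).div_const _,
      fun z hz w hw h => H1 M hM z hz w hw fun j hj => ?_, fun z w ε n h => ?_,
      fun z => Hd z f⟩
    · obtain ⟨n, rfl⟩ : j ∈ range f := hf ▸ (show j ∈ μ ⁻¹' M from hj)
      have := congrFun h n
      simpa using this
    · rw [← sub_div, abs_div]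
      refine (div_le_self (abs_nonneg _) ?_).trans (Ha z w ε _ h)
      rw [abs_of_pos (by positivity)]
      exact one_le_pow₀ one_le_two
  have hκ0 : ℵ₀ < κ := by
    rw [← hc]
    exact not_le.1 fun h => hcnt (le_aleph0_iff_set_countable.1 h)
  let W := κ.ord.ToType
  obtain ⟨en⟩ : Nonempty (W ≃ M) := Cardinal.eq.1 (by rw [mk_ord_toType, hc])
  let b : W → I := fun i => (en i).1
  let N0 : {M // Cl Γ M} := ⟨cl Γ ∅, cl_Cl Γ _⟩
  let N : W → {M // Cl Γ M} := fun i => ⟨cl Γ (b '' Iio i), cl_Cl Γ _⟩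
  let N' : W → {M // Cl Γ M} := fun i => ⟨cl Γ (b '' Iic i), cl_Cl Γ _⟩
  obtain ⟨Λ0, e0, c0, i0, l0, s0⟩ := ih _ (cl_card Γ hΓ hκ0 (S := ∅) (by simpa using
    (aleph0_pos.trans hκ0))) N0.1 N0.2 rfl
  have hlt : ∀ i : W, #(b '' Iic i) < κ := fun i => by
    refine mk_image_le.trans_lt ?_
    rw [← Iio_insert]
    exact mk_insert_le.trans_lt (add_lt_of_lt hκ0.le (mk_Iio_toType_ord_lt i)
      (one_lt_aleph0.trans hκ0))
  choose Λ e ce ie le se using fun i : W => ih _ (cl_card Γ hΓ hκ0 (hlt i)) (N' i).1 (N' i).2 rfl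
  have hNN : ∀ i, (N i).1 ⊆ (N' i).1 := fun i => cl_mono Γ (image_mono Iio_subset_Iic_self)
  refine ⟨Λ0 ⊕ (Σ i, Λ i), fun z => Sum.elim (e0 (r N0 z))
    fun p => (e p.1 (r (N' p.1) z) p.2 - e p.1 (r (N p.1) z) p.2) / 2, ?_, ?_, ?_, ?_⟩
  · refine continuous_pi fun γ => ?_
    rcases γ with γ | ⟨i, γ⟩
    · exact (continuous_apply γ).comp (c0.comp (hrc _))
    · exact (((continuous_apply γ).comp ((ce i).comp (hrc _))).sub
        ((continuous_apply γ).comp ((ce i).comp (hrc _)))).div_const _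
  · intro z hz w hw h
    have h0 : r N0 z = r N0 w :=
      i0 (hrR N0 z).1 (hrR N0 w).1 (funext fun γ => congrFun h (Sum.inl γ))
    have h1 : ∀ i, r (N' i) z = r (N' i) w := by
      intro i
      induction i using WellFoundedLT.induction with
      | ind i ihi =>
      have h2 : r (N i) z = r (N i) w := by
        refine hreq _ _ _ fun j hj => ?_
        obtain ⟨F, hF, hjF⟩ := cl_fin Γ hj
        obtain ⟨s, hs, rfl⟩ := Finset.subset_set_image_iff.1 hF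
        rcases s.eq_empty_or_nonempty with rfl | hne
        · exact hreq' N0 z w h0 j (by simpa using hjF)
        · refine hreq' _ z w (ihi (s.max' hne) (hs (s.max'_mem hne))) j (cl_mono Γ ?_ hjF)
          rw [Finset.coe_image]
          exact image_mono fun x hx => s.le_max' x hx
      refine ie i (hrR _ z).1 (hrR _ w).1 (funext fun γ => ?_)
      have := congrFun h (Sum.inr ⟨i, γ⟩)
      simp only [Sum.elim_inr, h2] at this
      linarith
    refine H1 M hM z hz w hw fun j hj => hreq' _ z w (h1 (en.symm ⟨_, hj⟩)) j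
      (subset_cl Γ _ ⟨_, mem_Iic.2 le_rfl, by simp [b]⟩)
  · intro z w ε γ h
    rcases γ with γ | ⟨i, γ⟩
    · exact l0 _ _ _ _ (Hb _ N0.2 _ _ _ _ _ (hrR N0 z) (hrR N0 w) h)
    · have a1 := abs_le.1 (le i _ _ _ γ (Hb _ (N i).2 _ _ _ _ _ (hrR _ z) (hrR _ w) h))
      have a2 := abs_le.1 (le i _ _ _ γ (Hb _ (N' i).2 _ _ _ _ _ (hrR _ z) (hrR _ w) h))
      simp only [Sum.elim_inr]
      rw [abs_le]
      constructor <;> linarith [a1.1, a1.2, a2.1, a2.2]
  · intro z ε hε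
    have hS := Hc W (fun i => (N i).1) (fun i => (N' i).1) (fun i => (N i).2) (fun i => (N' i).2)
      hNN (fun i j hij => cl_mono Γ (image_mono (Iic_subset_Iio.2 hij))) z
      (fun i => r (N i) z) (fun i => r (N' i) z) (fun i => hrR _ z) (fun i => hrR _ z) ε hε
    refine lt_of_le_of_lt (mk_le_mk_of_subset (t := Sum.inl '' {γ | ε ≤ |e0 (r N0 z) γ|} ∪
      ⋃ i ∈ {i | ¬ D (r (N' i) z) (r (N i) z) ε}, (fun γ => Sum.inr ⟨i, γ⟩) ''
        ({γ | ε ≤ |e i (r (N' i) z) γ|} ∪ {γ | ε ≤ |e i (r (N i) z) γ|})) ?_) ?_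
    · rintro (γ | ⟨i, γ⟩) hγ
      · exact Or.inl ⟨γ, hγ, rfl⟩
      · simp only [mem_ofPred_eq, Sum.elim_inr, abs_div, abs_two] at hγ
        refine Or.inr (mem_iUnion₂.2 ⟨i, fun h => ?_, γ, ?_, rfl⟩)
        · have := le i _ _ _ γ h
          linarith
        · by_contra hn
          simp only [mem_union, mem_ofPred_eq, not_or, not_le] at hn
          have := abs_sub (e i (r (N' i) z) γ) (e i (r (N i) z) γ)
          linarith [hn.1, hn.2]
    · refine (mk_union_le _ _).trans_lt (add_lt_of_lt hκ.aleph0_le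
        (mk_image_le.trans_lt (s0 _ ε hε)) ?_)
      rw [card_biUnion_lt_iff_forall_of_isRegular hκ hS]
      intro i _
      exact mk_image_le.trans_lt ((mk_union_le _ _).trans_lt
        (add_lt_of_lt hκ.aleph0_le (se i _ ε hε) (se i _ ε hε)))

end main

end Pool.Agent.Lead.AL
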