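import Pool.Agent.Lead.Gro3

namespace Pool.Agent.Lead.Gro

open Set Topology Filter

def CTG (X : Type) [TopologicalSpace X] : Prop :=
  ∀ Z ⊆ {f : X → ℝ | Continuous f}, IsCompact Z → ∀ A ⊆ Z, ∀ f ∈ closure A,
    ∃ A0 ⊆ A, A0.Countable ∧ f ∈ closure A0

def FUG (X : Type) [TopologicalSpace X] : Prop :=
  ∀ Z ⊆ {f : X → ℝ | Continuous f}, IsCompact Z → ∀ A ⊆ Z, ∀ f ∈ closure A,
    ∃ u : ℕ → X → ℝ, (∀ n, u n ∈ A) ∧ Tendsto u atTop (𝓝 f)

variable {X K : Type} [TopologicalSpace X] [TopologicalSpace K]

theorem FUG.ctg (h : FUG X) : CTG X := by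
  intro Z h1 h2 A h3 f hf
  obtain ⟨u, h4, h5⟩ := h Z h1 h2 A h3 f hf
  exact ⟨range u, range_subset_iff.2 h4, countable_range u,
    mem_closure_of_tendsto h5 (Eventually.of_forall mem_range_self)⟩

theorem sep_range' {M : Type} [MetricSpace M] (hG : CTG X)
    {Φ : X → M} (hΦ : Continuous Φ) : TopologicalSpace.IsSeparable (range Φ) := by
  classical
  have key : ∀ ε > (0 : ℝ), ∃ N : Set M, N.Countable ∧ ∀ y ∈ range Φ, ∃ z ∈ N, dist y z < ε := by
    intro ε hε
    obtain ⟨N, hN⟩ := zorn_subset {N : Set M | N ⊆ range Φ ∧ N.Pairwise fun a b => ε ≤ dist a b}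
      (fun c hc hch => ⟨⋃₀ c, ⟨sUnion_subset fun s hs => (hc hs).1, by
        rw [pairwise_sUnion hch.directedOn]; exact fun s hs => (hc hs).2⟩,
        fun s hs => subset_sUnion_of_mem hs⟩)
    refine ⟨N, ?_, ?_⟩
    · let v : N → X → ℝ := fun i x => max (ε / 4 - dist (Φ x) i.1) 0
      have hv0 : ∀ i x, 0 ≤ v i x := fun i x => le_max_right _ _
      have hvc : ∀ i, Continuous (v i) := fun i =>
        (continuous_const.sub (hΦ.dist continuous_const)).max continuous_const
      have hpos : ∀ i x, v i x ≠ 0 → dist (Φ x) i.1 < ε / 4 := by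
        intro i x h
        by_contra hn
        exact h (max_eq_right (by linarith [not_lt.1 hn]))
      have huniq : ∀ (y : M) (i j : N), dist y i.1 < ε / 2 → dist y j.1 < ε / 2 → i = j := by
        intro y i j h1 h2
        by_contra hne
        have h3 := hN.prop.2 i.2 j.2 fun h => hne (Subtype.ext h)
        have h4 := dist_triangle_left i.1 j.1 y
        linarith
      have hlf : LocallyFinite fun i => Function.support (v i) := by
        intro x0
        refine ⟨{x | dist (Φ x) (Φ x0) < ε / 4},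
          (isOpen_lt (hΦ.dist continuous_const) continuous_const).mem_nhds (by simp; positivity), ?_⟩
        refine Set.Subsingleton.finite ?_
        rintro i ⟨x, hx1, hx2⟩ j ⟨y, hy1, hy2⟩
        have a1 := hpos i x hx1
        have a2 := hpos j y hy1
        have a3 : dist (Φ x) (Φ x0) < ε / 4 := hx2
        have a4 : dist (Φ y) (Φ x0) < ε / 4 := hy2
        refine huniq (Φ x0) i j ?_ ?_
        · linarith [dist_triangle_left (Φ x0) i.1 (Φ x)]
        · linarith [dist_triangle_left (Φ x0) j.1 (Φ y)]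
      have hfin : ∀ x, (Function.support fun i => v i x).Finite := fun x => hlf.point_finite x
      have hs : ∀ x, Summable fun i => v i x := fun x => summable_of_hasFiniteSupport (hfin x)
      have htot : Continuous fun x => ∑' i, v i x := by
        simp only [fun x => tsum_eq_finsum (L := SummationFilter.unconditional _) (hfin x)]
        exact continuous_finsum hvc hlf
      have hT := sumT_cont hv0 hs
      obtain ⟨-, h2⟩ := cc_family hT
      have h3 : range (fun (s : N → Bool) (x : X) => ∑' i, (if s i = true then v i x else 0))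
           ⊆ {f : X → ℝ | Continuous f} := by
        rintro _ ⟨s, rfl⟩
        refine dom (v := v) ?_ ?_ ?_ hvc hs htot
        · intro i x; split_ifs; exacts [hv0 _ _, le_rfl]
        · intro i x; split_ifs; exacts [le_rfl, hv0 _ _]
        · intro i; split_ifs; exacts [hvc i, continuous_const]
      obtain ⟨A0, a1, a2, a3⟩ := hG _ h3 (isCompact_range hT) _ (image_subset_range _ _) _ h2
      choose s hs1 hs2 using fun a : A0 => a1 a.2
      have := a2.to_subtype
      have hs1 : (⋃ a, {i | s a i = true}).Countable := countable_iUnion hs1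
      have h4 : ∀ i, i ∈ ⋃ a, {i | s a i = true} := by
        intro i
        by_contra hi
        obtain ⟨x, hx⟩ := hN.prop.1 i.2
        have h5 : A0 ⊆ {g : X → ℝ | g x = 0} := by
          intro g hg
          have h6 : ∀ j, (if s ⟨g, hg⟩ j = true then v j x else 0) = 0 := by
            intro j
            split_ifs with hj
            · by_contra hne
              have := huniq (Φ x) i j (by rw [hx]; simp; positivity) (by linarith [hpos j x hne])
              exact hi (mem_iUnion.2 ⟨⟨g, hg⟩, this ▸ hj⟩)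
            · rfl
          have h9 := congrFun (hs2 ⟨g, hg⟩) x
          simp only [h6, tsum_zero] at h9
          exact h9.symm
        have h5 := closure_minimal h5 (isClosed_eq (continuous_apply _) continuous_const) a3
        simp only [Set.mem_ofPred_eq, if_true] at h5
        have h7 := (hs x).le_tsum i fun j _ => hv0 j x
        have h8 : ε / 4 ≤ v i x := by
          refine le_trans ?_ (le_max_left _ _)
          rw [hx]; simp
        linarith
      have : (univ : Set N).Countable := hs1.mono fun i _ => h4 i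
      exact countable_coe_iff.1 (countable_univ_iff.1 this)
    · intro y hy
      by_contra hn
      push Not at hn
      have h1 : insert y N ∈ {N : Set M | N ⊆ range Φ ∧ N.Pairwise fun a b => ε ≤ dist a b} := by
        refine ⟨insert_subset hy hN.prop.1, ?_⟩
        refine hN.prop.2.insert fun z hz _ => ⟨hn z hz, ?_⟩
        rw [dist_comm]; exact hn z hz
      have h2 := hN.le_of_ge h1 (subset_insert _ _) (mem_insert _ _)
      have := hn y h2
      simp at this
      linarith
  choose N hN1 hN2 using fun n : ℕ => key (1 / ((n : ℝ) + 1)) (by positivity)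
  refine ⟨⋃ n, N n, countable_iUnion hN1, fun y hy => ?_⟩
  rw [Metric.mem_closure_iff]
  intro ε hε
  obtain ⟨n, hn⟩ := exists_nat_one_div_lt hε
  obtain ⟨z, hz1, hz2⟩ := hN2 n y hy
  exact ⟨z, mem_iUnion.2 ⟨n, hz1⟩, hz2.trans hn⟩

theorem dense_for' [CompactSpace K] (hG : CTG X)
    {Gs : Set (X × K → ℝ)} (hc : Gs.Countable) (hGs : Gs ⊆ {f | Continuous f}) :
    ∃ D : Set K, D.Countable ∧ ∀ k, ∃ k' ∈ closure D, ∀ g ∈ Gs, ∀ x, g (x, k') = g (x, k) := by
  have := hc.to_subtype
  let Φ : Gs → X → C(K, ℝ) := fun g => ContinuousMap.curry ⟨g.1, hGs g.2⟩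
  have h1 : TopologicalSpace.IsSeparable (⋃ g, range (Φ g)) :=
    TopologicalSpace.IsSeparable.iUnion fun g => sep_range' hG (ContinuousMap.continuous _)
  obtain ⟨H, hH1, hH2⟩ := h1
  have := hH1.to_subtype
  let π : K → (H → ℝ) := fun k h => h.1 k
  have hπ : Continuous π := continuous_pi fun h => h.1.continuous
  obtain ⟨t, ht1, ht2, ht3⟩ :=
    (TopologicalSpace.IsSeparable.of_separableSpace (range π)).exists_countable_dense_subset
  obtain ⟨D, hD1, hD2⟩ : ∃ D : Set K, D.Countable ∧ π '' D = t := by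
    choose c hc using fun y : t => ht1 y.2
    have := ht2.to_subtype
    refine ⟨range c, countable_range c, ?_⟩
    ext y
    constructor
    · rintro ⟨_, ⟨z, rfl⟩, rfl⟩
      rw [hc]; exact z.2
    · intro hy
      exact ⟨_, ⟨⟨y, hy⟩, rfl⟩, hc _⟩
  refine ⟨D, hD1, fun k => ?_⟩
  have h2 : closure t ⊆ π '' closure D :=
    closure_minimal (hD2 ▸ image_mono subset_closure)
      (isClosed_closure.isCompact.image hπ).isClosed
  obtain ⟨k', hk1, hk2⟩ := h2 (ht3 (mem_range_self k))
  refine ⟨k', hk1, fun g hg x => ?_⟩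
  have h3 : closure H ⊆ {h : C(K, ℝ) | h k' = h k} :=
    closure_minimal (fun h hh => congrFun hk2 ⟨h, hh⟩)
      (isClosed_eq (continuous_eval_const _) (continuous_eval_const _))
  exact h3 (hH2 (mem_iUnion.2 ⟨⟨g, hg⟩, mem_range_self x⟩))

theorem ctg_prod [CompactSpace K] (hG : CTG X) : CTG (X × K) := by
  classical
  intro Z hZ0 hZ1 A hA f hf
  rcases isEmpty_or_nonempty K with hK | hK
  · exact ⟨A, subset_rfl, to_countable _, hf⟩
  have hAZ : closure A ⊆ Z := closure_minimal hA hZ1.isClosed
  have hZ : closure A ⊆ {f | Continuous f} := hAZ.trans hZ0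
  have hZc : IsCompact (closure A) := hZ1.of_isClosed_subset isClosed_closure hAZ
  have hfc : Continuous f := hZ hf
  have sl : ∀ {g : X × K → ℝ}, Continuous g → ∀ k, Continuous fun x => g (x, k) :=
    fun hg k => hg.comp (Continuous.prodMk_left k)
  have enum : ∀ D : Set K, D.Countable → ∃ d : ℕ → K, D ⊆ range d := by
    intro D hD
    obtain ⟨d, hd⟩ := (hD.insert hK.some).exists_eq_range (insert_nonempty _ _)
    exact ⟨d, hd ▸ subset_insert _ _⟩
  let B : Set (X × K → ℝ) := {g | ∃ A0 ⊆ A, A0.Countable ∧ g ∈ closure A0}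
  have hBZ : B ⊆ closure A := by
    rintro g ⟨A0, h1, -, h2⟩
    exact closure_mono h1 h2
  have hAB : A ⊆ B := fun g hg =>
    ⟨{g}, singleton_subset_iff.2 hg, countable_singleton g, subset_closure rfl⟩
  have hBB : RCC B B := by
    intro a ha
    choose A0 h1 h2 h3 using ha
    obtain ⟨g, -, hg⟩ := hZc.exists_mapClusterPt_of_frequently (l := atTop) (f := a)
      (Frequently.of_forall fun n => closure_mono (h1 n) (h3 n))
    refine ⟨g, ⟨⋃ n, A0 n, iUnion_subset h1, countable_iUnion h2, ?_⟩, hg⟩
    exact cluster_mem_closed hg isClosed_closure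
      (Eventually.of_forall fun n => closure_mono (subset_iUnion A0 n) (h3 n))
  have hb : ∀ D : Set K, ∃ g ∈ B, D.Countable → ∀ x, ∀ k ∈ D, g (x, k) = f (x, k) := by
    intro D
    by_cases hD : D.Countable
    swap
    · obtain ⟨g, hg⟩ := closure_nonempty_iff.1 ⟨f, hf⟩
      exact ⟨g, hAB hg, fun h => absurd h hD⟩
    obtain ⟨d, hd⟩ := enum D hD
    obtain ⟨A1, b1, b2, b3⟩ := hG (Td f d '' closure A) (by
        rintro _ ⟨g, hg, rfl⟩
        exact Td_cont' d (sl hfc) (sl (hZ hg))) (hZc.image (Td_cont f d)) (Td f d '' A)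
      (image_mono subset_closure) _ (image_closure_subset_closure_image (Td_cont f d) ⟨f, hf, rfl⟩)
    obtain ⟨A0, c1, c2, rfl⟩ : ∃ A0 ⊆ A, A0.Countable ∧ Td f d '' A0 = A1 := by
      choose c hc1 hc2 using fun y : A1 => b1 y.2
      have := b2.to_subtype
      refine ⟨range c, range_subset_iff.2 hc1, countable_range c, ?_⟩
      rw [← range_comp, show Td f d ∘ c = Subtype.val from funext hc2, Subtype.range_coe]
    obtain ⟨g, hg0, h2⟩ := closure_minimal (image_mono subset_closure)
      ((hZc.of_isClosed_subset isClosed_closure (closure_mono c1)).image (Td_cont f d)).isClosed b3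
    have hg : g ∈ B := ⟨A0, c1, c2, hg0⟩
    rw [Td_self] at h2
    refine ⟨g, hg, fun _ x k hk => ?_⟩
    obtain ⟨j, rfl⟩ := hd hk
    exact Td_zero h2 x j
  have ha : ∀ Gs : Set (X × K → ℝ), ∃ D : Set K, D.Countable ∧ (Gs.Countable → Gs ⊆ B →
      ∀ k, ∃ k' ∈ closure D, (fun x => f (x, k')) = (fun x => f (x, k)) ∧ ∀ g ∈ Gs, ∀ x, g (x, k') = g (x, k)) := by
    intro Gs
    by_cases h : Gs.Countable ∧ Gs ⊆ B
    · obtain ⟨D, h1, h2⟩ := dense_for' hG (h.1.insert f)
        (insert_subset hfc (h.2.trans (hBZ.trans hZ)))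
      refine ⟨D, h1, fun _ _ k => ?_⟩
      obtain ⟨k', h3, h4⟩ := h2 k
      exact ⟨k', h3, funext (h4 f (mem_insert _ _)), fun g hg => h4 g (mem_insert_of_mem _ hg)⟩
    · exact ⟨∅, countable_empty, fun h1 h2 => absurd ⟨h1, h2⟩ h⟩
  choose γ hγ1 hγ2 using hb
  choose Δ hΔ1 hΔ2 using ha
  have hfB : f ∈ B := by
    let st : ℕ → Set (X × K → ℝ) × Set K := fun n => Nat.rec (∅, ∅)
      (fun _ s => (insert (γ (s.2 ∪ Δ s.1)) s.1, s.2 ∪ Δ s.1)) n
    have hst : ∀ n, st (n + 1) = (insert (γ ((st n).2 ∪ Δ (st n).1)) (st n).1,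
      (st n).2 ∪ Δ (st n).1) := fun n => rfl
    have hinv : ∀ n, (st n).1.Countable ∧ (st n).1 ⊆ B ∧ (st n).2.Countable := by
      intro n
      induction n with
      | zero => exact ⟨countable_empty, empty_subset _, countable_empty⟩
      | succ n ih =>
        rw [hst]
        exact ⟨ih.1.insert _, insert_subset (hγ1 _) ih.2.1, ih.2.2.union (hΔ1 _)⟩
    have m1 : Monotone fun n => (st n).1 := monotone_nat_of_le_succ fun n => by
      rw [hst]; exact subset_insert _ _
    have m2 : Monotone fun n => (st n).2 := monotone_nat_of_le_succ fun n => by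
      rw [hst]; exact subset_union_left
    let a : ℕ → X × K → ℝ := fun n => γ ((st n).2 ∪ Δ (st n).1)
    obtain ⟨g, hg, hgc⟩ := hBB a fun n => hγ1 _
    have hE : ∀ x, ∀ k ∈ ⋃ n, (st n).2, g (x, k) = f (x, k) := by
      intro x k hk
      obtain ⟨n, hn⟩ := mem_iUnion.1 hk
      refine cluster_mem_closed hgc (C := {g | g (x, k) = f (x, k)})
        (isClosed_eq (continuous_apply _) continuous_const) ?_
      filter_upwards [eventually_ge_atTop n] with m hm
      exact hγ2 _ ((hinv m).2.2.union (hΔ1 _)) x k (Or.inl (m2 hm hn))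
    have : g = f := by
      funext ⟨x, k⟩
      choose κ hκ1 hκ2 hκ3 using fun n => hΔ2 (st n).1 (hinv n).1 (hinv n).2.1 k
      obtain ⟨k', hk'⟩ := exists_clusterPt_of_compactSpace (map κ atTop)
      have hk'' : MapClusterPt k' atTop κ := hk'
      have e1 : k' ∈ closure (⋃ n, (st n).2) := by
        refine cluster_mem_closed hk'' isClosed_closure (Eventually.of_forall fun n => ?_)
        refine closure_mono (subset_iUnion_of_subset (n + 1) ?_) (hκ1 n)
        rw [hst]; exact subset_union_right
      have e2 : f (x, k') = f (x, k) :=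
        cluster_mem_closed hk'' (C := {y | f (x, y) = f (x, k)})
          (isClosed_eq (hfc.comp (Continuous.prodMk_right x)) continuous_const)
          (Eventually.of_forall fun n => congrFun (hκ2 n) x)
      have e3 : ∀ j, a j (x, k') = a j (x, k) := by
        intro j
        have hc : Continuous (a j) := hZ (hBZ (hγ1 _))
        refine cluster_mem_closed hk'' (C := {y | a j (x, y) = a j (x, k)})
          (isClosed_eq (hc.comp (Continuous.prodMk_right x)) continuous_const) ?_
        filter_upwards [eventually_ge_atTop (j + 1)] with n hn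
        refine hκ3 n _ (m1 hn ?_) x
        show a j ∈ (st (j + 1)).1
        rw [hst]; exact mem_insert _ _
      have e4 : g (x, k') = g (x, k) :=
        cluster_mem_closed hgc (C := {g | g (x, k') = g (x, k)})
          (isClosed_eq (continuous_apply _) (continuous_apply _)) (Eventually.of_forall e3)
      rw [← e4, ← e2]
      exact eq_of_agree (hZ (hBZ hg)) hfc hE x k' e1
    rwa [← this]
  exact hfB

theorem fug_prod [CompactSpace K] (hG : FUG X) : FUG (X × K) := by
  classical
  intro Z hZ0 hZ1 A hA f hf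
  rcases isEmpty_or_nonempty K with hK | hK
  · obtain ⟨g, hg⟩ := closure_nonempty_iff.1 ⟨f, hf⟩
    exact ⟨fun _ => g, fun _ => hg, by rw [Subsingleton.elim f g]; exact tendsto_const_nhds⟩
  obtain ⟨A0, h1, h2, h3⟩ := ctg_prod hG.ctg Z hZ0 hZ1 A hA f hf
  have hAZ : closure A0 ⊆ Z := closure_minimal (h1.trans hA) hZ1.isClosed
  have hZ : closure A0 ⊆ {f | Continuous f} := hAZ.trans hZ0
  have hZc : IsCompact (closure A0) := hZ1.of_isClosed_subset isClosed_closure hAZ
  have hfc : Continuous f := hZ h3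
  have sl : ∀ {g : X × K → ℝ}, Continuous g → ∀ k, Continuous fun x => g (x, k) :=
    fun hg k => hg.comp (Continuous.prodMk_left k)
  obtain ⟨D, hD1, hD2⟩ := dense_for' hG.ctg h2 (subset_closure.trans hZ)
  obtain ⟨d, hd⟩ := (hD1.insert hK.some).exists_eq_range (insert_nonempty _ _)
  obtain ⟨u, b1, b2⟩ := hG (Td f d '' closure A0) (by
      rintro _ ⟨g, hg, rfl⟩
      exact Td_cont' d (sl hfc) (sl (hZ hg))) (hZc.image (Td_cont f d)) (Td f d '' A0)
    (image_mono subset_closure) _ (image_closure_subset_closure_image (Td_cont f d) ⟨f, h3, rfl⟩)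
  choose a c1 c2 using b1
  refine ⟨a, fun n => h1 (c1 n), hZc.tendsto_nhds_of_unique_mapClusterPt
    (Eventually.of_forall fun n => subset_closure (c1 n)) fun g hg hc => ?_⟩
  have e0 : Td f d g = 0 := by
    have e1 := hc.continuousAt_comp (Td_cont f d).continuousAt
    rw [show Td f d ∘ a = u from funext c2] at e1
    rw [← Td_self f d]
    exact eq_of_nhds_neBot (e1.clusterPt.mono b2)
  funext ⟨x, k⟩
  obtain ⟨k', e1, e3⟩ := hD2 k
  have e4 : ∀ g ∈ closure A0, g (x, k') = g (x, k) := fun g hg =>
    closure_minimal (t := {g : X × K → ℝ | g (x, k') = g (x, k)}) (fun g hg => e3 g hg x)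
      (isClosed_eq (continuous_apply _) (continuous_apply _)) hg
  rw [← e4 g hg, ← e4 f h3]
  refine eq_of_agree (hZ hg) hfc (fun x k hk => ?_) x k' e1
  obtain ⟨j, rfl⟩ : k ∈ range d := hd ▸ mem_insert_of_mem _ hk
  exact Td_zero e0 x j

end Pool.Agent.Lead.Gro
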