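import Pool.Agent.Lead.AL1
import Pool.Agent.Lead.Gro5

namespace Pool.Agent.Lead.AL

open Set Topology Filter Cardinal Pool.Agent.Lead.Gro

theorem corson_of {Z I J : Type} [TopologicalSpace Z] [CompactSpace Z]
    (ι : Z → I) (μ : J → I) (φ : J → Z → ℝ)
    (hμ : Function.Injective μ) (hφ : ∀ j, Continuous (φ j))
    (Γ0 : Finset I → Set I) (hΓ0 : ∀ G, (Γ0 G).Countable)
    (H0 : ∀ M, Cl Γ0 M → ∀ z ∈ closure (ι ⁻¹' M), ∀ w ∈ closure (ι ⁻¹' M),
      (∀ j, μ j ∈ M → φ j z = φ j w) → z = w)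
    (hct : ∀ A : Set Z, ∀ z ∈ closure A, ∃ A0 ⊆ A, A0.Countable ∧ z ∈ closure A0) :
    ∃ (Λ : Type) (e : Z → (Λ → ℝ)), IsEmbedding e ∧ ∀ s, (Function.support (e s)).Countable := by
  obtain ⟨Γ, hΓ, hcl, H2⟩ := onto_ext ι μ φ hμ hφ Γ0 hΓ0
  have H1 := fun M (hM : Cl Γ M) => H0 M (hcl M hM)
  have huniq : ∀ M, Cl Γ M → ∀ z u v, R ι μ φ M z u → R ι μ φ M z v → u = v :=
    fun M hM z u v hu hv => H1 M hM u hu.1 v hv.1 fun j hj => (hu.2 j hj).trans (hv.2 j hj).symm
  obtain ⟨Λ, e, h1, h2, -, h4⟩ := al ι μ φ hμ hφ Γ hΓ isRegular_aleph_one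
    (fun z w ε => z = w ∧ 0 ≤ ε) H1 H2 (by rintro z w ε j ⟨rfl, h⟩; simpa using h)
    (by
      rintro M hM z z' w w' ε h1 h2 ⟨rfl, h⟩
      exact ⟨huniq M hM z _ _ h1 h2, h⟩)
    (by
      intro W _ _ N N' hN hN' hNN hlt z u u' hu hu' ε hε
      rw [← countable_iff_lt_aleph_one]
      by_contra hS
      set S := {i | ¬ (u' i = u i ∧ 0 ≤ ε)} with hSdef
      let L : Set W := {i | (S ∩ Iio i).Countable}
      have hSL : ¬ (S ∩ L).Countable := by
        intro h
        by_cases hL : ∀ i, i ∈ L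
        · exact hS (h.mono fun i hi => And.intro hi (hL i))
        · push Not at hL
          have hm := wellFounded_lt.min_mem {i | i ∉ L} hL
          refine hm (h.mono fun i hi => And.intro hi.1 ?_)
          by_contra hn
          exact wellFounded_lt.not_lt_min {i | i ∉ L} hn hi.2
      have hne : Nonempty L := by
        by_contra hn
        exact hSL ((not_nonempty_iff_eq_empty.1 fun h =>
          hn ⟨⟨h.some, h.some_mem.2⟩⟩ : S ∩ L = ∅) ▸ countable_empty)
      have hmono : ∀ i j, i ≤ j → N' i ⊆ N' j := fun i j h => by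
        rcases h.eq_or_lt with rfl | h
        · exact subset_rfl
        · exact (hlt i j h).trans (hNN j)
      have hclU : Cl Γ (⋃ i : L, N' i.1) := Cl_iUnion Γ (fun i j => by
        rcases le_total i j with h | h
        · exact ⟨j, hmono _ _ h, subset_rfl⟩
        · exact ⟨i, subset_rfl, hmono _ _ h⟩) fun i => hN' i.1
      obtain ⟨w, hw⟩ := H2 _ hclU z
      obtain ⟨A0, a1, a2, a3⟩ := hct _ w hw.1
      choose k hk using fun a : A0 => mem_iUnion.1 (a1 a.2)
      have := a2.to_subtype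
      have hc : (⋃ a : A0, insert (k a).1 (S ∩ Iio (k a).1)).Countable :=
        countable_iUnion fun a => Countable.insert _ (k a).2
      obtain ⟨s, ⟨hs1, hs2⟩, hs3⟩ := not_subset.1 fun h => hSL (hc.mono h)
      have hks : ∀ a, (k a).1 < s := fun a => by
        by_contra hn
        refine hs3 (mem_iUnion.2 ⟨a, ?_⟩)
        rcases (not_lt.1 hn).eq_or_lt with h | h
        · exact Or.inl h
        · exact Or.inr ⟨hs1, h⟩
      have hwc : w ∈ closure (ι ⁻¹' N s) :=
        closure_mono (fun a ha => hlt _ _ (hks ⟨a, ha⟩) (hk ⟨a, ha⟩)) a3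
      have hsub : N' s ⊆ ⋃ i : L, N' i.1 := subset_iUnion (fun i : L => N' i.1) ⟨s, hs2⟩
      have e1 : u s = w := huniq _ (hN s) z _ _ (hu s) ⟨hwc, fun j hj => hw.2 j (hsub (hNN s hj))⟩
      have e2 : u' s = w := huniq _ (hN' s) z _ _ (hu' s)
        ⟨closure_mono (preimage_mono (hNN s)) hwc, fun j hj => hw.2 j (hsub hj)⟩
      exact hs1 ⟨e2.trans e1.symm, hε.le⟩)
    (fun z f ε _ => (countable_iff_lt_aleph_one _).1 (to_countable _)) univ
    (fun _ _ => subset_univ _)
  refine ⟨Λ, e, (h1.isClosedEmbedding fun z w h => h2 (by simp) (by simp) h).isEmbedding,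
    fun s => ?_⟩
  refine (countable_iUnion fun n : ℕ =>
    (countable_iff_lt_aleph_one _).2 (h4 s (1 / ((n : ℝ) + 1)) (by positivity))).mono ?_
  intro γ hγ
  obtain ⟨n, hn⟩ := exists_nat_one_div_lt (abs_pos.2 hγ)
  exact mem_iUnion.2 ⟨n, hn.le⟩

theorem tight_of_corson {Z Λ : Type} [TopologicalSpace Z] {e : Z → (Λ → ℝ)} (he : IsEmbedding e)
    (hs : ∀ s, (Function.support (e s)).Countable) (A : Set Z) (z : Z) (hz : z ∈ closure A) :
    ∃ A0 ⊆ A, A0.Countable ∧ z ∈ closure A0 := by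
  classical
  have h1 : ∀ (G : Finset Λ) (n : ℕ), ∃ a ∈ A, ∀ γ ∈ G, |e a γ - e z γ| < 1 / ((n : ℝ) + 1) := by
    intro G n
    have ho : IsOpen {a | ∀ γ ∈ G, |e a γ - e z γ| < 1 / ((n : ℝ) + 1)} := by
      simp only [Set.ofPred_forall]
      exact isOpen_biInter_finset fun γ _ => isOpen_lt
        (((continuous_apply γ).comp he.continuous).sub continuous_const).abs continuous_const
    obtain ⟨a, h2, h3⟩ := mem_closure_iff.1 hz _ ho (fun i _ => by simp; positivity)
    exact ⟨a, h3, h2⟩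
  choose a ha ha' using h1
  obtain ⟨T, hT, hT1, hT2⟩ := closing (fun G => ⋃ n, Function.support (e (a G n)))
    (fun G => countable_iUnion fun n => hs _) (hs z)
  refine ⟨⋃ G ∈ {G : Finset Λ | ↑G ⊆ T}, range (a G), ?_,
    (fin_cnt hT).biUnion fun G _ => countable_range _, ?_⟩
  · exact iUnion₂_subset fun G _ => range_subset_iff.2 (ha G)
  rw [he.closure_eq_preimage_closure_image, mem_preimage, mem_closure_iff]
  intro O hO hzO
  obtain ⟨H, u, h1, h2⟩ := isOpen_pi_iff.1 hO _ hzO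
  have : ∀ᶠ n : ℕ in atTop, ∀ γ ∈ H, ∀ t, |t - e z γ| < 1 / ((n : ℝ) + 1) → t ∈ u γ := by
    rw [Finset.eventually_all]
    intro γ hγ
    obtain ⟨δ, hδ, h⟩ := Metric.isOpen_iff.1 (h1 γ hγ).1 _ (h1 γ hγ).2
    filter_upwards [(tendsto_one_div_add_atTop_nhds_zero_nat (𝕜 := ℝ)).eventually
      (gt_mem_nhds hδ)] with n hn t ht
    exact h (by rw [Metric.mem_ball, Real.dist_eq]; linarith)
  obtain ⟨n, hn⟩ := this.exists
  have hG : (↑(H.filter (· ∈ T)) : Set Λ) ⊆ T := fun γ hγ => (Finset.mem_filter.1 hγ).2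
  refine ⟨e (a (H.filter (· ∈ T)) n), h2 fun γ hγ => hn γ hγ _ ?_, _,
    mem_iUnion₂.2 ⟨_, hG, mem_range_self n⟩, rfl⟩
  by_cases hγT : γ ∈ T
  · exact ha' _ _ γ (Finset.mem_filter.2 ⟨hγ, hγT⟩)
  · have e1 : e z γ = 0 := by
      by_contra h
      exact hγT (hT1 h)
    have e2 : e (a (H.filter (· ∈ T)) n) γ = 0 := by
      by_contra h
      exact hγT (hT2 _ hG (mem_iUnion.2 ⟨n, h⟩))
    rw [e1, e2]
    simp
    positivity

theorem corson_prod {X K : Type} [TopologicalSpace X] [TopologicalSpace K] [CompactSpace K]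
    (H : ∀ S : Set (X → ℝ), (∀ f ∈ S, Continuous f) → IsCompact S →
        ∃ (Γ : Type) (e : S → (Γ → ℝ)), Topology.IsEmbedding e ∧
          ∀ s, (Function.support (e s)).Countable)
    (S : Set (X × K → ℝ)) (hS : ∀ f ∈ S, Continuous f) (hK : IsCompact S) :
    ∃ (Γ : Type) (e : S → (Γ → ℝ)), Topology.IsEmbedding e ∧
      ∀ s, (Function.support (e s)).Countable := by
  classical
  have hG : CTG X := by
    intro Z h1 h2 A hA f hf
    obtain ⟨Λ, e, he, hs⟩ := H Z h1 h2
    have hfZ : f ∈ Z := closure_minimal hA h2.isClosed hf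
    obtain ⟨A0, a1, a2, a3⟩ := tight_of_corson he hs (Subtype.val ⁻¹' A) ⟨f, hfZ⟩ (by
      rw [closure_subtype, Subtype.image_preimage_coe, inter_eq_right.2 hA]
      exact hf)
    exact ⟨Subtype.val '' A0, image_subset_iff.2 a1, a2.image _, closure_subtype.1 a3⟩
  have : CompactSpace S := isCompact_iff_compactSpace.1 hK
  let T : K → (X × K → ℝ) → (X → ℝ) := fun k g x => g (x, k)
  have hT : ∀ k, Continuous (T k) := fun k => continuous_pi fun _ => continuous_apply _
  choose Λ e he hs using fun k => H (T k '' S)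
    (by rintro _ ⟨g, hg, rfl⟩; exact (hS g hg).comp (Continuous.prodMk_left k))
    (hK.image (hT k))
  let t : ∀ k, S → T k '' S := fun k z => ⟨T k z.1, z.1, z.2, rfl⟩
  have ht : ∀ k, Continuous (t k) := fun k => ((hT k).comp continuous_subtype_val).subtype_mk _
  let I := S ⊕ K ⊕ (Σ k, Λ k)
  choose D hD hD' using fun G : Finset I => dense_for' (K := K) hG
    (Gs := Subtype.val '' ((Sum.inl : S → I) ⁻¹' G))
    ((G.countable_toSet.preimage Sum.inl_injective).image _)
    (by rintro _ ⟨z, -, rfl⟩; exact hS _ z.2)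
  refine corson_of (I := I) (J := Σ k, Λ k) Sum.inl (Sum.inr ∘ Sum.inr)
    (fun j z => e j.1 (t j.1 z) j.2) (Sum.inr_injective.comp Sum.inr_injective)
    (fun j => (continuous_apply _).comp ((he _).continuous.comp (ht _)))
    (fun G => (Sum.inr ∘ Sum.inl) '' D G ∪ ⋃ z ∈ (Sum.inl : S → I) ⁻¹' G,
      ⋃ k ∈ (Sum.inr ∘ Sum.inl : K → I) ⁻¹' G,
        (fun γ => Sum.inr (Sum.inr ⟨k, γ⟩)) '' Function.support (e k (t k z)))
    (fun G => ((hD G).image _).union ((G.countable_toSet.preimage Sum.inl_injective).biUnion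
      fun z _ => (G.countable_toSet.preimage (Sum.inr_injective.comp Sum.inl_injective)).biUnion
        fun k _ => (hs _ _).image _)) ?_ ?_
  · intro M hM z hz w hw h
    have h1 : ∀ k : K, (Sum.inr (Sum.inl k) : I) ∈ M → ∀ x, z.1 (x, k) = w.1 (x, k) := by
      intro k hk
      have h2 : ∀ γ, (Sum.inr (Sum.inr ⟨k, γ⟩) : I) ∉ M →
          ∀ g ∈ closure ((Sum.inl : S → I) ⁻¹' M), e k (t k g) γ = 0 := by
        intro γ hγ
        refine closure_minimal (t := {g | e k (t k g) γ = 0}) (fun g hg => ?_)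
          (isClosed_eq ((continuous_apply _).comp ((he _).continuous.comp (ht _))) continuous_const)
        by_contra hn
        refine hγ (hM {Sum.inl g, Sum.inr (Sum.inl k)} ?_ (Or.inr ?_))
        · intro y hy
          simp only [Finset.coe_insert, Finset.coe_singleton, mem_insert_iff,
            mem_singleton_iff] at hy
          rcases hy with rfl | rfl
          exacts [hg, hk]
        · refine mem_iUnion₂.2 ⟨g, by simp, mem_iUnion₂.2 ⟨k, by simp, γ, hn, rfl⟩⟩
      have h3 : e k (t k z) = e k (t k w) := by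
        funext γ
        by_cases hγ : (Sum.inr (Sum.inr ⟨k, γ⟩) : I) ∈ M
        · exact h ⟨k, γ⟩ hγ
        · rw [h2 γ hγ z hz, h2 γ hγ w hw]
      exact fun x => congrFun (congrArg Subtype.val ((he k).injective h3)) x
    apply Subtype.ext
    funext ⟨x, k⟩
    obtain ⟨k', h2, h3⟩ := fip (S := (Sum.inr ∘ Sum.inl : K → I) ⁻¹' M)
      (B := (Sum.inl : S → I) ⁻¹' M) (P := fun g k' => g.1 (x, k') = g.1 (x, k))
      (fun g => isClosed_eq ((hS _ g.2).comp (Continuous.prodMk_right x)) continuous_const)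
      (fun G hG => by
        obtain ⟨k', a1, a2⟩ := hD' (G.image Sum.inl) k
        refine ⟨k', closure_mono ?_ a1, fun g hg => a2 _ ⟨g, Finset.mem_image_of_mem _ hg, rfl⟩ x⟩
        rw [← image_subset_iff]
        refine subset_union_left.trans (hM (G.image Sum.inl) ?_)
        intro y hy
        obtain ⟨g, hg, rfl⟩ := Finset.mem_image.1 hy
        exact hG hg)
    have h4 : ∀ g ∈ closure ((Sum.inl : S → I) ⁻¹' M), g.1 (x, k') = g.1 (x, k) :=
      closure_minimal h3 (isClosed_eq ((continuous_apply _).comp continuous_subtype_val)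
        ((continuous_apply _).comp continuous_subtype_val))
    rw [← h4 z hz, ← h4 w hw]
    exact eq_of_agree (hS _ z.2) (hS _ w.2) (fun x k hk => h1 k hk x) x k' h2
  · intro A z hz
    obtain ⟨A0, a1, a2, a3⟩ := ctg_prod hG S hS hK (Subtype.val '' A)
      (by rintro _ ⟨g, -, rfl⟩; exact g.2) z.1 (closure_subtype.1 hz)
    refine ⟨Subtype.val ⁻¹' A0, fun g hg => ?_, a2.preimage Subtype.val_injective, ?_⟩
    · obtain ⟨g', h1, h2⟩ := a1 hg
      rwa [← Subtype.ext h2]
    · rw [closure_subtype, Subtype.image_preimage_coe, inter_eq_right.2]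
      · exact a3
      · exact a1.trans (by rintro _ ⟨g, -, rfl⟩; exact g.2)

end Pool.Agent.Lead.AL
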