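import Pool.Agent.Lead.Gro2

namespace Pool.Agent.Lead.Gro

open Set Topology Filter

variable {X K : Type} [TopologicalSpace X] [TopologicalSpace K]

theorem sep_left (hG : G {f : X → ℝ | Continuous f}) {A : Set (X × K → ℝ)}
    (hA : A ⊆ {f | Continuous f}) (hR : RCC {f | Continuous f} A) {f : X × K → ℝ}
    (hf : f ∈ closure A) (k : K) : Continuous fun x => f (x, k) :=
  push (T := fun g x => g (x, k)) hG (continuous_pi fun _ => continuous_apply _)
    (fun _ hg => Continuous.comp hg (Continuous.prodMk_left k)) hA hR hf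

theorem sep_right [CompactSpace K] {A : Set (X × K → ℝ)}
    (hA : A ⊆ {f | Continuous f}) (hR : RCC {f | Continuous f} A) {f : X × K → ℝ}
    (hf : f ∈ closure A) (x : X) : Continuous fun k => f (x, k) :=
  push (T := fun g k => g (x, k)) wg_compact (continuous_pi fun _ => continuous_apply _)
    (fun _ hg => Continuous.comp hg (Continuous.prodMk_right x)) hA hR hf

theorem lemA [CompactSpace K] (hG : G {f : X → ℝ | Continuous f}) {A : Set (X × K → ℝ)}
    (hA : A ⊆ {f | Continuous f}) (hR : RCC {f | Continuous f} A) {f : X × K → ℝ}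
    (hf : f ∈ closure A) {h : K → ℝ} (hh : Continuous h) (d : ℕ → K) :
    Continuous fun x => U (fun j => |f (x, d j) - h (d j)|) univ := by
  have hl := sep_left hG hA hR hf
  have hr := sep_right hA hR hf
  have hbf : ∀ x, BddAbove (range fun j => |f (x, d j) - h (d j)|) := fun x =>
    bdd_comp ((hr x).sub hh).abs d
  have hVf : ∀ j, Continuous fun x => V (fun j => |f (x, d j) - h (d j)|) univ j := fun j =>
    V_cont ((hl _).sub continuous_const).abs fun _ =>
      U_cont_fin (fun i => ((hl _).sub continuous_const).abs)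
        ((finite_Iio j).subset inter_subset_right)
  have h1 := push (T := fun (g : X × K → ℝ) (x : X) => ∑' j,
    min (V (fun j => |g (x, d j) - h (d j)|) univ j) (V (fun j => |f (x, d j) - h (d j)|) univ j))
    hG ?_ ?_ hA hR hf
  · simpa [tsum_V (hbf _)] using h1
  · refine continuous_pi fun x => continuous_tsum (fun j => ?_) (summable_V (hbf x) univ)
      fun j g => ?_
    · refine Continuous.min (V_cont ((continuous_apply _).sub continuous_const).abs fun _ =>
        U_cont_fin (fun i => ((continuous_apply _).sub continuous_const).abs)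
          ((finite_Iio j).subset inter_subset_right)) continuous_const
    · rw [Real.norm_eq_abs, abs_of_nonneg (le_min (V_nonneg _ _ _) (V_nonneg _ _ _))]
      exact min_le_right _ _
  · intro g hg
    have hg' : Continuous g := hg
    have hgl : ∀ k, Continuous fun x => g (x, k) := fun k => hg'.comp (Continuous.prodMk_left k)
    have hbg : ∀ x, BddAbove (range fun j => |g (x, d j) - h (d j)|) := fun x =>
      bdd_comp ((hg'.comp (Continuous.prodMk_right x)).sub hh).abs d
    have hVg : ∀ j, Continuous fun x => V (fun j => |g (x, d j) - h (d j)|) univ j := fun j =>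
      V_cont ((hgl _).sub continuous_const).abs fun _ =>
        U_cont_fin (fun i => ((hgl _).sub continuous_const).abs)
          ((finite_Iio j).subset inter_subset_right)
    refine dom (v := fun j x => V (fun j => |g (x, d j) - h (d j)|) univ j)
      (fun j x => le_min (V_nonneg _ _ _) (V_nonneg _ _ _)) (fun j x => min_le_left _ _)
      (fun j => (hVg j).min (hVf j)) hVg (fun x => summable_V (hbg x) _) ?_
    simp only [tsum_V (hbg _)]
    exact U_cont_joint (F := fun p : X × K => |g p - h p.2|)
      (hg'.sub (hh.comp continuous_snd)).abs d univ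

theorem wg_prod [CompactSpace K] (hG : G {f : X → ℝ | Continuous f}) :
    G {f : X × K → ℝ | Continuous f} := by
  intro A hA hR f hf
  have hl := sep_left hG hA hR hf
  have hr := sep_right hA hR hf
  show Continuous f
  rw [continuous_iff_continuousAt]
  rintro ⟨x0, k0⟩
  have hb : ∀ x, BddAbove (range fun k => |f (x, k) - f (x0, k)|) := fun x =>
    bdd_comp ((hr x).sub (hr x0)).abs id
  have hu : Continuous fun x => U (fun k => |f (x, k) - f (x0, k)|) univ := by
    refine lemB hG (fun k => ((hl k).sub continuous_const).abs) hb fun S hS => ?_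
    rcases S.eq_empty_or_nonempty with rfl | hne
    · simp only [U, image_empty]; exact continuous_const
    · obtain ⟨d, rfl⟩ := hS.exists_eq_range hne
      have := lemA hG hA hR hf (hr x0) d
      simpa only [U, image_univ, ← range_comp, Function.comp_def] using this
  have h0 : U (fun k => |f (x0, k) - f (x0, k)|) univ = 0 :=
    le_antisymm (U_le le_rfl fun i _ => by simp) (U_nonneg (hb x0) _)
  rw [ContinuousAt, tendsto_iff_dist_tendsto_zero]
  have h1 : Tendsto (fun p : X × K => U (fun k => |f (p.1, k) - f (x0, k)|) univ +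
      |f (x0, p.2) - f (x0, k0)|) (𝓝 (x0, k0)) (𝓝 0) := by
    have h5 : Continuous (fun p : X × K => U (fun k => |f (p.1, k) - f (x0, k)|) univ +
      |f (x0, p.2) - f (x0, k0)|) := (hu.comp continuous_fst).add
      (((hr x0).comp continuous_snd).sub (continuous_const (y := f (x0, k0)))).abs
    have := h5.tendsto (x0, k0)
    simp only [h0] at this
    simpa using this
  refine squeeze_zero (fun _ => dist_nonneg) (fun p => ?_) h1
  have h2 := le_U (hb p.1) (mem_univ p.2)
  rw [Real.dist_eq]
  have h3 := abs_sub_le (f (p.1, p.2)) (f (x0, p.2)) (f (x0, k0))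
  exact h3.trans (by linarith)

/-- the comparison map -/
noncomputable def Td {X K : Type} (f : X × K → ℝ) (d : ℕ → K) (g : X × K → ℝ) (x : X) : ℝ :=
  ∑' j, min |g (x, d j) - f (x, d j)| ((1 / 2 : ℝ) ^ j)

theorem Td_bound (a : ℝ) (j : ℕ) : ‖min |a| ((1 / 2 : ℝ) ^ j)‖ ≤ (1 / 2 : ℝ) ^ j := by
  rw [Real.norm_eq_abs, abs_of_nonneg (le_min (abs_nonneg _) (by positivity))]
  exact min_le_right _ _

theorem Td_cont {X K : Type} (f : X × K → ℝ) (d : ℕ → K) : Continuous (Td f d) :=
  continuous_pi fun _ => continuous_tsum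
    (fun _ => ((continuous_apply _).sub continuous_const).abs.min continuous_const)
    summable_geometric_two fun j _ => Td_bound _ j

theorem Td_cont' {K : Type} {f g : X × K → ℝ} (d : ℕ → K) (hf : ∀ k, Continuous fun x => f (x, k))
    (hg : ∀ k, Continuous fun x => g (x, k)) : Continuous (Td f d g) :=
  continuous_tsum (fun _ => ((hg _).sub (hf _)).abs.min continuous_const)
    summable_geometric_two fun j _ => Td_bound _ j

theorem Td_self {X K : Type} (f : X × K → ℝ) (d : ℕ → K) : Td f d f = 0 := by
  funext x; simp [Td]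

theorem Td_zero {X K : Type} {f g : X × K → ℝ} {d : ℕ → K} (h : Td f d g = 0) (x : X) (j : ℕ) :
    g (x, d j) = f (x, d j) := by
  have hs : Summable fun j => min |g (x, d j) - f (x, d j)| ((1 / 2 : ℝ) ^ j) :=
    Summable.of_norm_bounded summable_geometric_two fun j => Td_bound _ j
  have h1 := hs.le_tsum j fun i _ => le_min (abs_nonneg _) (by positivity)
  have h2 : Td f d g x = 0 := congrFun h x
  unfold Td at h2
  rw [h2, min_le_iff] at h1
  rcases h1 with h1 | h1
  · exact sub_eq_zero.1 (abs_nonpos_iff.1 h1)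
  · exact absurd h1 (not_le.2 (by positivity))

theorem groth_countable {Y : Type} [TopologicalSpace Y] [Countable Y]
    (hG : ∀ W ⊆ {f : X → ℝ | Continuous f}, G W) :
    ∀ W ⊆ {f : X × Y → ℝ | Continuous f}, G W := by
  intro W hW A hA hR f hf
  rcases isEmpty_or_nonempty Y with hY | hY
  · obtain ⟨g, hg⟩ := closure_nonempty_iff.1 ⟨f, hf⟩
    rw [Subsingleton.elim f g]; exact hA hg
  obtain ⟨d, hd⟩ := exists_surjective_nat Y
  have hl := sep_left (hG _ subset_rfl) (hA.trans hW) (hR.mono hW) hf
  by_contra hn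
  have := push (T := Td f d) (hG {h | Continuous h ∧ h ≠ 0} fun _ h => h.1) (Td_cont f d) ?_ hA hR hf
  · exact this.2 (Td_self f d)
  · intro g hg
    refine ⟨Td_cont' d hl fun k => Continuous.comp (hW hg) (Continuous.prodMk_left k), fun h0 => hn ?_⟩
    have : g = f := by
      funext ⟨x, y⟩
      obtain ⟨j, rfl⟩ := hd y
      exact Td_zero h0 x j
    rwa [← this]

theorem sep_range {M : Type} [MetricSpace M] (hG : ∀ W ⊆ {f : X → ℝ | Continuous f}, G W)
    {Φ : X → M} (hΦ : Continuous Φ) : TopologicalSpace.IsSeparable (range Φ) := by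
  classical
  have key : ∀ ε > (0 : ℝ), ∃ N : Set M, N.Countable ∧ ∀ y ∈ range Φ, ∃ z ∈ N, dist y z < ε := by
    intro ε hε
    obtain ⟨N, hN⟩ := zorn_subset {N : Set M | N ⊆ range Φ ∧ N.Pairwise fun a b => ε ≤ dist a b}
      (fun c hc hch => ⟨⋃₀ c, ⟨sUnion_subset fun s hs => (hc hs).1, by
        rw [pairwise_sUnion hch.directedOn]; exact fun s hs => (hc hs).2⟩,
        fun s hs => subset_sUnion_of_mem hs⟩)
    refine ⟨N, ?_, ?_⟩
    · let v : N → X → ℝ := fun i x => max (ε / 4 - dist (Φ x) i.1) 0
      have hv0 : ∀ i x, 0 ≤ v i x := fun i x => le_max_right _ _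
      have hvc : ∀ i, Continuous (v i) := fun i =>
        (continuous_const.sub (hΦ.dist continuous_const)).max continuous_const
      have hpos : ∀ i x, v i x ≠ 0 → dist (Φ x) i.1 < ε / 4 := by
        intro i x h
        by_contra hn
        exact h (max_eq_right (by linarith [not_lt.1 hn]))
      have huniq : ∀ (y : M) (i j : N), dist y i.1 < ε / 2 → dist y j.1 < ε / 2 → i = j := by
        intro y i j h1 h2
        by_contra hne
        have h3 := hN.prop.2 i.2 j.2 fun h => hne (Subtype.ext h)
        have h4 := dist_triangle_left i.1 j.1 y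
        linarith
      have hlf : LocallyFinite fun i => Function.support (v i) := by
        intro x0
        refine ⟨{x | dist (Φ x) (Φ x0) < ε / 4},
          (isOpen_lt (hΦ.dist continuous_const) continuous_const).mem_nhds (by simp; positivity), ?_⟩
        refine Set.Subsingleton.finite ?_
        rintro i ⟨x, hx1, hx2⟩ j ⟨y, hy1, hy2⟩
        have a1 := hpos i x hx1
        have a2 := hpos j y hy1
        have a3 : dist (Φ x) (Φ x0) < ε / 4 := hx2
        have a4 : dist (Φ y) (Φ x0) < ε / 4 := hy2
        refine huniq (Φ x0) i j ?_ ?_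
        · linarith [dist_triangle_left (Φ x0) i.1 (Φ x)]
        · linarith [dist_triangle_left (Φ x0) j.1 (Φ y)]
      have hfin : ∀ x, (Function.support fun i => v i x).Finite := fun x => hlf.point_finite x
      have hs : ∀ x, Summable fun i => v i x := fun x => summable_of_hasFiniteSupport (hfin x)
      have htot : Continuous fun x => ∑' i, v i x := by
        simp only [fun x => tsum_eq_finsum (L := SummationFilter.unconditional _) (hfin x)]
        exact continuous_finsum hvc hlf
      obtain ⟨h1, h2⟩ := cc_family (sumT_cont hv0 hs)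
      have h3 : (fun (s : N → Bool) (x : X) => ∑' i, (if s i = true then v i x else 0)) ''
          {s | {i | s i = true}.Countable} ⊆ {f : X → ℝ | Continuous f} := by
        rintro _ ⟨s, -, rfl⟩
        refine dom (v := v) ?_ ?_ ?_ hvc hs htot
        · intro i x; split_ifs; exacts [hv0 _ _, le_rfl]
        · intro i x; split_ifs; exacts [le_rfl, hv0 _ _]
        · intro i; split_ifs; exacts [hvc i, continuous_const]
      obtain ⟨s, hs1, hs2⟩ := hG _ h3 _ subset_rfl h1 h2
      have h4 : ∀ i, s i = true := by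
        intro i
        by_contra hi
        obtain ⟨x, hx⟩ := hN.prop.1 i.2
        have h5 := congrFun hs2 x
        simp only [if_true] at h5
        have h6 : ∀ j, (if s j = true then v j x else 0) = 0 := by
          intro j
          split_ifs with hj
          · by_contra hne
            have := huniq (Φ x) i j (by rw [hx]; simp; positivity) (by linarith [hpos j x hne])
            exact hi (this ▸ hj)
          · rfl
        simp only [h6, tsum_zero] at h5
        have h7 := (hs x).le_tsum i fun j _ => hv0 j x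
        have h8 : ε / 4 ≤ v i x := by
          refine le_trans ?_ (le_max_left _ _)
          rw [hx]; simp
        linarith
      have : (univ : Set N).Countable := hs1.mono fun i _ => h4 i
      exact countable_coe_iff.1 (countable_univ_iff.1 this)
    · intro y hy
      by_contra hn
      push Not at hn
      have h1 : insert y N ∈ {N : Set M | N ⊆ range Φ ∧ N.Pairwise fun a b => ε ≤ dist a b} := by
        refine ⟨insert_subset hy hN.prop.1, ?_⟩
        refine hN.prop.2.insert fun z hz _ => ⟨hn z hz, ?_⟩
        rw [dist_comm]; exact hn z hz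
      have h2 := hN.le_of_ge h1 (subset_insert _ _) (mem_insert _ _)
      have := hn y h2
      simp at this
      linarith
  choose N hN1 hN2 using fun n : ℕ => key (1 / ((n : ℝ) + 1)) (by positivity)
  refine ⟨⋃ n, N n, countable_iUnion hN1, fun y hy => ?_⟩
  rw [Metric.mem_closure_iff]
  intro ε hε
  obtain ⟨n, hn⟩ := exists_nat_one_div_lt hε
  obtain ⟨z, hz1, hz2⟩ := hN2 n y hy
  exact ⟨z, mem_iUnion.2 ⟨n, hz1⟩, hz2.trans hn⟩

theorem dense_for [CompactSpace K] (hG : ∀ W ⊆ {f : X → ℝ | Continuous f}, G W)
    {Gs : Set (X × K → ℝ)} (hc : Gs.Countable) (hGs : Gs ⊆ {f | Continuous f}) :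
    ∃ D : Set K, D.Countable ∧ ∀ k, ∃ k' ∈ closure D, ∀ g ∈ Gs, ∀ x, g (x, k') = g (x, k) := by
  have := hc.to_subtype
  let Φ : Gs → X → C(K, ℝ) := fun g => ContinuousMap.curry ⟨g.1, hGs g.2⟩
  have h1 : TopologicalSpace.IsSeparable (⋃ g, range (Φ g)) :=
    TopologicalSpace.IsSeparable.iUnion fun g => sep_range hG (ContinuousMap.continuous _)
  obtain ⟨H, hH1, hH2⟩ := h1
  have := hH1.to_subtype
  let π : K → (H → ℝ) := fun k h => h.1 k
  have hπ : Continuous π := continuous_pi fun h => h.1.continuous
  obtain ⟨t, ht1, ht2, ht3⟩ :=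
    (TopologicalSpace.IsSeparable.of_separableSpace (range π)).exists_countable_dense_subset
  obtain ⟨D, hD1, hD2⟩ : ∃ D : Set K, D.Countable ∧ π '' D = t := by
    choose c hc using fun y : t => ht1 y.2
    have := ht2.to_subtype
    refine ⟨range c, countable_range c, ?_⟩
    ext y
    constructor
    · rintro ⟨_, ⟨z, rfl⟩, rfl⟩
      rw [hc]; exact z.2
    · intro hy
      exact ⟨_, ⟨⟨y, hy⟩, rfl⟩, hc _⟩
  refine ⟨D, hD1, fun k => ?_⟩
  have h2 : closure t ⊆ π '' closure D :=
    closure_minimal (hD2 ▸ image_mono subset_closure)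
      (isClosed_closure.isCompact.image hπ).isClosed
  obtain ⟨k', hk1, hk2⟩ := h2 (ht3 (mem_range_self k))
  refine ⟨k', hk1, fun g hg x => ?_⟩
  have h3 : closure H ⊆ {h : C(K, ℝ) | h k' = h k} :=
    closure_minimal (fun h hh => congrFun hk2 ⟨h, hh⟩)
      (isClosed_eq (continuous_eval_const _) (continuous_eval_const _))
  exact h3 (hH2 (mem_iUnion.2 ⟨⟨g, hg⟩, mem_range_self x⟩))

theorem eq_of_agree {g f : X × K → ℝ} (hg : Continuous g) (hf : Continuous f) {D : Set K}
    (h : ∀ x, ∀ k ∈ D, g (x, k) = f (x, k)) (x : X) : ∀ k ∈ closure D, g (x, k) = f (x, k) :=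
  closure_minimal (h x) (isClosed_eq (hg.comp (Continuous.prodMk_right x))
    (hf.comp (Continuous.prodMk_right x)))

theorem groth_prod [CompactSpace K] (hG : ∀ W ⊆ {f : X → ℝ | Continuous f}, G W) :
    ∀ W ⊆ {f : X × K → ℝ | Continuous f}, G W := by
  classical
  intro W hW A hA hR f hf
  rcases isEmpty_or_nonempty K with hK | hK
  · obtain ⟨g, hg⟩ := closure_nonempty_iff.1 ⟨f, hf⟩
    rw [Subsingleton.elim f g]; exact hA hg
  have hZ : closure A ⊆ {f | Continuous f} :=
    wg_prod (hG _ subset_rfl) A (hA.trans hW) (hR.mono hW)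
  have hZc := hR.compact_closure
  have hfc : Continuous f := hZ hf
  have sl : ∀ {g : X × K → ℝ}, Continuous g → ∀ k, Continuous fun x => g (x, k) :=
    fun hg k => hg.comp (Continuous.prodMk_left k)
  have enum : ∀ D : Set K, D.Countable → ∃ d : ℕ → K, D ⊆ range d := by
    intro D hD
    obtain ⟨d, hd⟩ := (hD.insert hK.some).exists_eq_range (insert_nonempty _ _)
    exact ⟨d, hd ▸ subset_insert _ _⟩
  let B : Set (X × K → ℝ) := {g | ∃ A0 ⊆ A, A0.Countable ∧ g ∈ closure A0}
  have hBZ : B ⊆ closure A := by
    rintro g ⟨A0, h1, -, h2⟩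
    exact closure_mono h1 h2
  have hAB : A ⊆ B := fun g hg =>
    ⟨{g}, singleton_subset_iff.2 hg, countable_singleton g, subset_closure rfl⟩
  have hBB : RCC B B := by
    intro a ha
    choose A0 h1 h2 h3 using ha
    obtain ⟨g, -, hg⟩ := hZc.exists_mapClusterPt_of_frequently (l := atTop) (f := a)
      (Frequently.of_forall fun n => closure_mono (h1 n) (h3 n))
    refine ⟨g, ⟨⋃ n, A0 n, iUnion_subset h1, countable_iUnion h2, ?_⟩, hg⟩
    exact cluster_mem_closed hg isClosed_closure
      (Eventually.of_forall fun n => closure_mono (subset_iUnion A0 n) (h3 n))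
  have hb : ∀ D : Set K, ∃ g ∈ B, D.Countable → ∀ x, ∀ k ∈ D, g (x, k) = f (x, k) := by
    intro D
    by_cases hD : D.Countable
    swap
    · obtain ⟨g, hg⟩ := closure_nonempty_iff.1 ⟨f, hf⟩
      exact ⟨g, hAB hg, fun h => absurd h hD⟩
    obtain ⟨d, hd⟩ := enum D hD
    have h1 := push (T := Td f d) (W := B) (hG (Td f d '' B) (by
        rintro _ ⟨g, hg, rfl⟩
        exact Td_cont' d (sl hfc) (sl (hZ (hBZ hg))))) (Td_cont f d)
      (fun g hg => mem_image_of_mem _ hg) hAB (fun a ha => hBB a fun n => hAB (ha n)) hf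
    obtain ⟨g, hg, h2⟩ := h1
    rw [Td_self] at h2
    refine ⟨g, hg, fun _ x k hk => ?_⟩
    obtain ⟨j, rfl⟩ := hd hk
    exact Td_zero h2 x j
  have ha : ∀ Gs : Set (X × K → ℝ), ∃ D : Set K, D.Countable ∧ (Gs.Countable → Gs ⊆ B →
      ∀ k, ∃ k' ∈ closure D, (fun x => f (x, k')) = (fun x => f (x, k)) ∧ ∀ g ∈ Gs, ∀ x, g (x, k') = g (x, k)) := by
    intro Gs
    by_cases h : Gs.Countable ∧ Gs ⊆ B
    · obtain ⟨D, h1, h2⟩ := dense_for hG (h.1.insert f)
        (insert_subset hfc (h.2.trans (hBZ.trans hZ)))
      refine ⟨D, h1, fun _ _ k => ?_⟩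
      obtain ⟨k', h3, h4⟩ := h2 k
      exact ⟨k', h3, funext (h4 f (mem_insert _ _)), fun g hg => h4 g (mem_insert_of_mem _ hg)⟩
    · exact ⟨∅, countable_empty, fun h1 h2 => absurd ⟨h1, h2⟩ h⟩
  choose γ hγ1 hγ2 using hb
  choose Δ hΔ1 hΔ2 using ha
  have hfB : f ∈ B := by
    let st : ℕ → Set (X × K → ℝ) × Set K := fun n => Nat.rec (∅, ∅)
      (fun _ s => (insert (γ (s.2 ∪ Δ s.1)) s.1, s.2 ∪ Δ s.1)) n
    have hst : ∀ n, st (n + 1) = (insert (γ ((st n).2 ∪ Δ (st n).1)) (st n).1,
      (st n).2 ∪ Δ (st n).1) := fun n => rfl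
    have hinv : ∀ n, (st n).1.Countable ∧ (st n).1 ⊆ B ∧ (st n).2.Countable := by
      intro n
      induction n with
      | zero => exact ⟨countable_empty, empty_subset _, countable_empty⟩
      | succ n ih =>
        rw [hst]
        exact ⟨ih.1.insert _, insert_subset (hγ1 _) ih.2.1, ih.2.2.union (hΔ1 _)⟩
    have m1 : Monotone fun n => (st n).1 := monotone_nat_of_le_succ fun n => by
      rw [hst]; exact subset_insert _ _
    have m2 : Monotone fun n => (st n).2 := monotone_nat_of_le_succ fun n => by
      rw [hst]; exact subset_union_left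
    let a : ℕ → X × K → ℝ := fun n => γ ((st n).2 ∪ Δ (st n).1)
    obtain ⟨g, hg, hgc⟩ := hBB a fun n => hγ1 _
    have hE : ∀ x, ∀ k ∈ ⋃ n, (st n).2, g (x, k) = f (x, k) := by
      intro x k hk
      obtain ⟨n, hn⟩ := mem_iUnion.1 hk
      refine cluster_mem_closed hgc (C := {g | g (x, k) = f (x, k)})
        (isClosed_eq (continuous_apply _) continuous_const) ?_
      filter_upwards [eventually_ge_atTop n] with m hm
      exact hγ2 _ ((hinv m).2.2.union (hΔ1 _)) x k (Or.inl (m2 hm hn))
    have : g = f := by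
      funext ⟨x, k⟩
      choose κ hκ1 hκ2 hκ3 using fun n => hΔ2 (st n).1 (hinv n).1 (hinv n).2.1 k
      obtain ⟨k', hk'⟩ := exists_clusterPt_of_compactSpace (map κ atTop)
      have hk'' : MapClusterPt k' atTop κ := hk'
      have e1 : k' ∈ closure (⋃ n, (st n).2) := by
        refine cluster_mem_closed hk'' isClosed_closure (Eventually.of_forall fun n => ?_)
        refine closure_mono (subset_iUnion_of_subset (n + 1) ?_) (hκ1 n)
        rw [hst]; exact subset_union_right
      have e2 : f (x, k') = f (x, k) :=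
        cluster_mem_closed hk'' (C := {y | f (x, y) = f (x, k)})
          (isClosed_eq (hfc.comp (Continuous.prodMk_right x)) continuous_const)
          (Eventually.of_forall fun n => congrFun (hκ2 n) x)
      have e3 : ∀ j, a j (x, k') = a j (x, k) := by
        intro j
        have hc : Continuous (a j) := hZ (hBZ (hγ1 _))
        refine cluster_mem_closed hk'' (C := {y | a j (x, y) = a j (x, k)})
          (isClosed_eq (hc.comp (Continuous.prodMk_right x)) continuous_const) ?_
        filter_upwards [eventually_ge_atTop (j + 1)] with n hn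
        refine hκ3 n _ (m1 hn ?_) x
        show a j ∈ (st (j + 1)).1
        rw [hst]; exact mem_insert _ _
      have e4 : g (x, k') = g (x, k) :=
        cluster_mem_closed hgc (C := {g | g (x, k') = g (x, k)})
          (isClosed_eq (continuous_apply _) (continuous_apply _)) (Eventually.of_forall e3)
      rw [← e4, ← e2]
      exact eq_of_agree (hZ (hBZ hg)) hfc hE x k' e1
    rwa [← this]
  obtain ⟨A0, h1, h2, h3⟩ := hfB
  obtain ⟨d, hd⟩ := enum (Δ A0) (hΔ1 _)
  by_contra hn
  have := push (T := Td f d) (W := W ∩ closure A0)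
    (hG {h | Continuous h ∧ h ≠ 0} fun _ h => h.1) (Td_cont f d) ?_
    (subset_inter (h1.trans hA) subset_closure) ?_ h3
  · exact this.2 (Td_self f d)
  · intro g hg
    have hgc : Continuous g := hW hg.1
    refine ⟨Td_cont' d (sl hfc) (sl hgc), fun h0 => hn ?_⟩
    have : g = f := by
      funext ⟨x, k⟩
      obtain ⟨k', e1, e2, e3⟩ := hΔ2 A0 h2 (h1.trans hAB) k
      have e4 : g (x, k') = g (x, k) :=
        closure_minimal (t := {g : X × K → ℝ | g (x, k') = g (x, k)}) (fun g hg => e3 g hg x)
          (isClosed_eq (continuous_apply _) (continuous_apply _)) hg.2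
      rw [← e4, ← congrFun e2 x]
      refine eq_of_agree hgc hfc (fun x k hk => ?_) x k' e1
      obtain ⟨j, rfl⟩ := hd hk
      exact Td_zero h0 x j
    rw [← this]; exact hg.1
  · intro a ha
    obtain ⟨g, hg, hc⟩ := hR a fun n => h1 (ha n)
    exact ⟨g, ⟨hg, cluster_mem_closed hc isClosed_closure
      (Eventually.of_forall fun n => subset_closure (ha n))⟩, hc⟩

end Pool.Agent.Lead.Gro
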