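import Pool.Agent.Lead.AL1
import Pool.Agent.Lead.Gro3

namespace Pool.Agent.Lead.AL

open Set Topology Filter Cardinal Pool.Agent.Lead.Gro

theorem amir {Z K : Type} [TopologicalSpace Z] [CompactSpace Z] [TopologicalSpace K]
    [CompactSpace K] (φ : K → Z → ℝ) (hφ : ∀ k, Continuous (φ k))
    (hφ' : ∀ z, Continuous fun k => φ k z) :
    ∃ (Λ : Type) (e : Z → (Λ → ℝ)), Continuous e ∧
      (∀ z w, e z = e w → ∀ k, φ k z = φ k w) ∧ ∀ z, ∀ ε > 0, {γ | ε ≤ |e z γ|}.Finite := by
  classical
  let q : Z → (K → ℝ) := fun z k => φ k z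
  have hq : Continuous q := continuous_pi hφ
  let Y := range q
  have : CompactSpace Y := isCompact_iff_compactSpace.1 (isCompact_range hq)
  have hY : ∀ y : Y, Continuous y.1 := by
    rintro ⟨_, z, rfl⟩
    exact hφ' z
  let ψ : K → Y → ℝ := fun k y => y.1 k
  have hψ : ∀ k, Continuous (ψ k) := fun k => (continuous_apply k).comp continuous_subtype_val
  obtain ⟨Γ0, hΓ0, -, H0⟩ := onto_ext (Z := K) (I := Y ⊕ K) (J := Y) Sum.inr Sum.inl
    (fun y => y.1) Sum.inl_injective hY (fun _ => ∅) (fun _ => countable_empty)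
  obtain ⟨Γ, hΓ, hcl, H2⟩ := onto_ext (Z := Y) (I := Y ⊕ K) (J := K) Sum.inl Sum.inr ψ
    Sum.inr_injective hψ Γ0 hΓ0
  have dual : ∀ M, Cl Γ M → ∀ k, ∃ k' ∈ closure ((Sum.inr : K → Y ⊕ K) ⁻¹' M),
      ∀ g ∈ closure ((Sum.inl : Y → Y ⊕ K) ⁻¹' M), g.1 k' = g.1 k := by
    intro M hM k
    obtain ⟨k', h1, h2⟩ := H0 M (hcl M hM) k
    exact ⟨k', h1, closure_minimal (t := {g : Y | g.1 k' = g.1 k}) h2 (isClosed_eq (hψ _) (hψ _))⟩
  have agr : ∀ (M : Set (Y ⊕ K)) (z w : Y), (∀ k, Sum.inr k ∈ M → z.1 k = w.1 k) →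
      ∀ k ∈ closure ((Sum.inr : K → Y ⊕ K) ⁻¹' M), z.1 k = w.1 k := fun M z w h =>
    closure_minimal (t := {k | z.1 k = w.1 k}) h (isClosed_eq (hY z) (hY w))
  obtain ⟨Λ, e, h1, h2, -, h4⟩ := al (Z := Y) (I := Y ⊕ K) (J := K) Sum.inl Sum.inr ψ
    Sum.inr_injective hψ Γ hΓ isRegular_aleph0 (fun z w ε => ∀ k, |z.1 k - w.1 k| ≤ ε)
    (by
      intro M hM z hz w hw h
      apply Subtype.ext
      funext k
      obtain ⟨k', a1, a2⟩ := dual M hM k
      rw [← a2 z hz, ← a2 w hw]
      exact agr M z w h k' a1)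
    H2 (fun z w ε j h => h j)
    (by
      intro M hM z z' w w' ε hz hw h k
      obtain ⟨k', a1, a2⟩ := dual M hM k
      rw [← a2 z' hz.1, ← a2 w' hw.1, agr M z' z hz.2 k' a1, agr M w' w hw.2 k' a1]
      exact h k')
    (by
      intro W _ _ N N' hN hN' hNN hlt z u u' hu hu' ε hε
      rw [lt_aleph0_iff_set_finite]
      by_contra hS
      have hS' : {i | ¬ ∀ k, |(u' i).1 k - (u i).1 k| ≤ ε}.Infinite := hS
      obtain ⟨g, hg⟩ := wellQuasiOrdered_le.exists_monotone_subseq
        (fun n => (hS'.natEmbedding _ n).1)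
      let s : ℕ → W := fun n => (hS'.natEmbedding _ (g n)).1
      have hsm : StrictMono s := fun m n h => lt_of_le_of_ne (hg m n h.le) fun h' =>
        h.ne (g.injective ((hS'.natEmbedding _).injective (Subtype.ext h')))
      have hmono : Monotone fun n => N (s n) := monotone_nat_of_le_succ fun n =>
        (hNN _).trans (hlt _ _ (hsm (Nat.lt_succ_self n)))
      have hclU : Cl Γ (⋃ n, N (s n)) := Cl_iUnion Γ hmono.directed_le fun n => hN _
      obtain ⟨w, hw⟩ := H2 _ hclU z
      have hC : IsCompact {p : K × K | ε / 2 ≤ |w.1 p.1 - w.1 p.2|} :=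
        (isClosed_le continuous_const
          (((hY w).comp continuous_fst).sub ((hY w).comp continuous_snd)).abs).isCompact
      obtain ⟨F, hF⟩ := hC.elim_finite_subcover
        (fun g : ((Sum.inl : Y → Y ⊕ K) ⁻¹' ⋃ n, N (s n)) => {p : K × K | g.1.1 p.1 ≠ g.1.1 p.2})
        (fun g => isOpen_ne_fun ((hY _).comp continuous_fst) ((hY _).comp continuous_snd))
        (by
          intro p hp
          by_contra hn
          simp only [mem_iUnion, mem_ofPred_eq, not_exists, not_not] at hn
          have := closure_minimal (t := {g : Y | g.1 p.1 = g.1 p.2}) (fun g hg => hn ⟨g, hg⟩)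
            (isClosed_eq (hψ _) (hψ _)) hw.1
          have h0 : w.1 p.1 = w.1 p.2 := this
          simp only [mem_ofPred_eq, h0, sub_self, abs_zero] at hp
          linarith)
      have : ∀ᶠ n in atTop, ∀ g ∈ F, (Sum.inl g.1 : Y ⊕ K) ∈ N (s n) := by
        rw [Finset.eventually_all]
        intro g _
        obtain ⟨m, hm⟩ := mem_iUnion.1 g.2
        filter_upwards [eventually_ge_atTop m] with n hn using hmono hn hm
      obtain ⟨n, hn⟩ := this.exists
      have key : ∀ M, Cl Γ M → N (s n) ⊆ M → M ⊆ ⋃ n, N (s n) → ∀ v, R Sum.inl Sum.inr ψ M z v →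
          ∀ k, |v.1 k - w.1 k| < ε / 2 := by
        intro M hM b1 b2 v hv k
        obtain ⟨k', a1, a2⟩ := dual M hM k
        rw [← a2 v hv.1, agr M v z hv.2 k' a1,
          ← agr _ w z hw.2 k' (closure_mono (preimage_mono b2) a1)]
        by_contra hlt'
        obtain ⟨g, hg, h⟩ := mem_iUnion₂.1 (hF (show (k', k) ∈ _ from not_lt.1 hlt'))
        exact h (a2 g.1 (subset_closure (b1 (hn g hg))))
      refine (hS'.natEmbedding _ (g n)).2 fun k => ?_
      have c1 := abs_lt.1 (key _ (hN _) subset_rfl (subset_iUnion (fun n => N (s n)) n) _ (hu _) k)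
      have c2 := abs_lt.1 (key _ (hN' _) (hNN _) ((hlt _ _ (hsm (Nat.lt_succ_self n))).trans
        (subset_iUnion (fun n => N (s n)) (n + 1))) _ (hu' _) k)
      rw [abs_le]
      constructor <;> linarith [c1.1, c1.2, c2.1, c2.2])
    (by
      intro z f ε hε
      rw [lt_aleph0_iff_set_finite]
      obtain ⟨C, hC⟩ := (isCompact_range (hY z).abs).bddAbove
      have h0 : Tendsto (fun n : ℕ => C / 2 ^ n) atTop (𝓝 0) :=
        tendsto_const_nhds.div_atTop (tendsto_pow_atTop_atTop_of_one_lt one_lt_two)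
      have h1 := h0.eventually (gt_mem_nhds hε)
      rw [← Nat.cofinite_eq_atTop] at h1
      refine Set.Finite.subset h1 fun n hn h => ?_
      simp only [mem_ofPred_eq, abs_div] at hn h
      rw [abs_of_pos (show (0 : ℝ) < 2 ^ n by positivity)] at hn
      have : |ψ (f n) z| / 2 ^ n ≤ C / 2 ^ n :=
        div_le_div_of_nonneg_right (hC (mem_range_self (f n))) (by positivity)
      linarith)
    univ (fun _ _ => subset_univ _)
  refine ⟨Λ, fun z => e ⟨q z, mem_range_self z⟩, h1.comp (hq.subtype_mk _), fun z w h k => ?_,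
    fun z ε hε => lt_aleph0_iff_set_finite.1 (h4 _ ε hε)⟩
  exact congrFun (congrArg Subtype.val (h2 (by simp) (by simp) h)) k

theorem amir_sigma {Z K : Type} [TopologicalSpace Z] [CompactSpace Z] [TopologicalSpace K]
    [CompactSpace K] (φ : ℕ → K → Z → ℝ) (hφ : ∀ n k, Continuous (φ n k))
    (hφ' : ∀ n z, Continuous fun k => φ n k z) (hinj : ∀ z w, (∀ n k, φ n k z = φ n k w) → z = w) :
    ∃ (Λ : Type) (e : Z → (Λ → ℝ)), IsEmbedding e ∧
      ∀ z, ∀ ε : ℝ, 0 < ε → {γ | ε ≤ |e z γ|}.Finite := by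
  choose Λ e h1 h2 h3 using fun n => amir (φ n) (hφ n) (hφ' n)
  refine ⟨Σ n, Λ n, fun z p => Real.sin (Real.arctan (e p.1 z p.2)) / 2 ^ p.1,
    (Continuous.isClosedEmbedding (continuous_pi fun p => ?_) fun z w h => ?_).isEmbedding,
    fun z ε hε => ?_⟩
  · exact (Real.continuous_sin.comp (Real.continuous_arctan.comp
      ((continuous_apply _).comp (h1 _)))).div_const _
  · refine hinj z w fun n => h2 n z w (funext fun γ => ?_)
    have := congrFun h ⟨n, γ⟩
    rw [div_left_inj' (by positivity)] at this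
    exact Real.sin_arctan_strictMono.injective this
  · have h0 : Tendsto (fun n : ℕ => (1 : ℝ) / 2 ^ n) atTop (𝓝 0) :=
      tendsto_const_nhds.div_atTop (tendsto_pow_atTop_atTop_of_one_lt one_lt_two)
    have h1 := h0.eventually (gt_mem_nhds hε)
    rw [← Nat.cofinite_eq_atTop] at h1
    refine (Set.Finite.biUnion h1 fun n _ => (h3 n z ε hε).image (Sigma.mk n)).subset ?_
    rintro ⟨n, γ⟩ hp
    simp only [mem_ofPred_eq, abs_div] at hp
    rw [abs_of_pos (show (0 : ℝ) < 2 ^ n by positivity)] at hp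
    refine mem_iUnion₂.2 ⟨n, fun h => ?_, γ, ?_, rfl⟩
    · have : |Real.sin (Real.arctan (e n z γ))| / 2 ^ n ≤ 1 / 2 ^ n :=
        div_le_div_of_nonneg_right (Real.abs_sin_le_one _) (by positivity)
      have h' : (1 : ℝ) / 2 ^ n < ε := h
      linarith
    · refine hp.trans ((div_le_self (abs_nonneg _) (one_le_pow₀ one_le_two)).trans ?_)
      rw [Real.sin_arctan, abs_div]
      refine div_le_self (abs_nonneg _) ?_
      rw [abs_of_nonneg (Real.sqrt_nonneg _), Real.one_le_sqrt]
      nlinarith [sq_nonneg (e n z γ)]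

section ups
variable (X : Type) [TopologicalSpace X]

def ev (x : X) : Cp X → ℝ := fun f => f.1 x

abbrev Ups : Type := ↥(closure (range (ev X)))

variable {X}

theorem gdelta (y : Ups X) (f : ℕ → Cp X) : ∃ x, ∀ n, (f n).1 x = y.1 (f n) := by
  let H : (Cp X → ℝ) → ℝ := fun u => ∑' n, min |u (f n) - y.1 (f n)| ((1 / 2 : ℝ) ^ n)
  have hH : Continuous H := continuous_tsum
    (fun _ => ((continuous_apply _).sub continuous_const).abs.min continuous_const)
    summable_geometric_two fun j _ => Td_bound _ j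
  have hev : Continuous (ev X) := continuous_pi fun f => f.2
  by_contra hn
  push Not at hn
  have hpos : ∀ x, H (ev X x) ≠ 0 := by
    intro x h0
    obtain ⟨n, hn⟩ := hn x
    have hs : Summable fun j => min |ev X x (f j) - y.1 (f j)| ((1 / 2 : ℝ) ^ j) :=
      Summable.of_norm_bounded summable_geometric_two fun j => Td_bound _ j
    have h1 := hs.le_tsum n fun i _ => le_min (abs_nonneg _) (by positivity)
    have h2 : ∑' j, min |ev X x (f j) - y.1 (f j)| ((1 / 2 : ℝ) ^ j) = 0 := h0
    rw [h2] at h1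
    exact absurd h1 (not_le.2 (lt_min (abs_pos.2 (sub_ne_zero.2 hn)) (by positivity)))
  let g : Cp X := ⟨fun x => (H (ev X x))⁻¹, (hH.comp hev).inv₀ hpos⟩
  have : y.1 ∈ {u : Cp X → ℝ | H u * u g = 1} := by
    refine closure_minimal ?_ (isClosed_eq (hH.mul (continuous_apply g)) continuous_const) y.2
    rintro _ ⟨x, rfl⟩
    exact mul_inv_cancel₀ (hpos x)
  simp [H] at this

theorem sigma_bdd (A : ℕ → Set X)
    (hA : ∀ n, ∀ f : X → ℝ, Continuous f → ∃ C : ℝ, ∀ x ∈ A n, |f x| ≤ C) (hd : Dense (⋃ n, A n))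
    (K : Set (X → ℝ)) (hK : ∀ f ∈ K, Continuous f) (hR : RCC K K) :
    IsCompact K ∧ ∃ (Γ : Type) (e : K → (Γ → ℝ)), Topology.IsEmbedding e ∧
      ∀ k : K, ∀ ε : ℝ, 0 < ε → {γ : Γ | ε ≤ |e k γ|}.Finite := by
  classical
  rcases isEmpty_or_nonempty X with hX | hX
  · have : CompactSpace K := inferInstance
    exact ⟨(toFinite K).isCompact, amir_sigma (K := PUnit) (fun _ _ _ => 0)
      (fun _ _ => continuous_const) (fun _ _ => continuous_const)
      fun z w _ => Subsingleton.elim _ _⟩
  have hev : Continuous (ev X) := continuous_pi fun f => f.2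
  let j : X → Ups X := fun x => ⟨ev X x, subset_closure (mem_range_self x)⟩
  let L : K → Ups X → ℝ := fun f y => y.1 ⟨f.1, hK _ f.2⟩
  have hL : ∀ f, Continuous (L f) := fun f => (continuous_apply _).comp continuous_subtype_val
  have hRL : RCC (range L) (range L) := by
    intro a ha
    choose b hb using ha
    obtain ⟨g, hg, hc⟩ := hR (fun n => (b n).1) fun n => (b n).2
    refine ⟨_, mem_range_self ⟨g, hg⟩, mapClusterPt_iff_frequently.2 fun U hU => ?_⟩
    obtain ⟨O, hO, hO', hx⟩ := mem_nhds_iff.1 hU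
    obtain ⟨G, u, h1, h2⟩ := isOpen_pi_iff.1 hO' _ hx
    choose x hx using fun y : Ups X =>
      gdelta y fun n => Nat.casesOn n ⟨g, hK g hg⟩ fun m => ⟨(b m).1, hK _ (b m).2⟩
    have ho : IsOpen {h : X → ℝ | ∀ y ∈ G, h (x y) ∈ u y} := by
      simp only [Set.ofPred_forall]
      exact isOpen_biInter_finset fun y hy => (h1 y hy).1.preimage (continuous_apply _)
    refine (mapClusterPt_iff_frequently.1 hc _ (ho.mem_nhds fun y hy => ?_)).mono
      fun n hn => hO (h2 fun y hy => ?_)
    · have : g (x y) = L ⟨g, hg⟩ y := hx y 0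
      rw [this]
      exact (h1 y hy).2
    · have : (b n).1 (x y) = L (b n) y := hx y (n + 1)
      rw [← hb n, ← this]
      exact hn y hy
  have hC : ∀ n, IsCompact (closure (j '' A n)) := by
    intro n
    choose C hC using fun f : Cp X => hA n f.1 f.2
    refine ((isClosed_closure.isClosedEmbedding_subtypeVal).isCompact_preimage
      (isCompact_univ_pi fun f => isCompact_Icc (a := -C f) (b := C f))).closure_of_subset ?_
    rintro _ ⟨x, hx, rfl⟩ f _
    exact abs_le.1 (hC f x hx)
  have hdet : ∀ f g : K, (∀ n, ∀ y ∈ j '' A n, L f y = L g y) → f = g := fun f g h =>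
    Subtype.ext (Continuous.ext_on hd (hK _ f.2) (hK _ g.2) fun x hx => by
      obtain ⟨n, hn⟩ := mem_iUnion.1 hx
      exact h n _ ⟨x, hn, rfl⟩)
  have hcs : ∀ (y : Ups X) n, CompactSpace (insert y (closure (j '' A n)) : Set (Ups X)) :=
    fun y n => isCompact_iff_compactSpace.1 ((hC n).insert y)
  have hpt : ∀ (y : Ups X) n, ∀ v ∈ (insert y (closure (j '' A n)) : Set (Ups X)),
      ∃ k : ∀ m, (insert y (closure (j '' A m)) : Set (Ups X)), (k n).1 = v := fun y n v hv =>
    ⟨Function.update (fun m => ⟨y, mem_insert _ _⟩) n ⟨v, hv⟩, by simp⟩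
  have hcl : closure (range L) ⊆ range L := by
    intro f hf
    have h1 : ∀ y : Ups X, ∃ g : K, L g y = f y ∧ ∀ n, ∀ v ∈ j '' A n, L g v = f v := by
      intro y
      let P := ∀ n, (insert y (closure (j '' A n)) : Set (Ups X))
      let T : (Ups X → ℝ) → (ℕ × P → ℝ) := fun g p => g (p.2 p.1).1
      have hp : Continuous fun p : ℕ × P => (p.2 p.1).1 := by
        rw [continuous_prod_of_discrete_left]
        intro n
        show Continuous fun k : P => (k n).1
        exact continuous_subtype_val.comp (continuous_apply n)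
      obtain ⟨_, ⟨g, rfl⟩, hg⟩ := push (W' := T '' range L) (T := T)
        (groth_prod groth_of_separable _ (by
          rintro _ ⟨_, ⟨g, rfl⟩, rfl⟩
          exact (hL g).comp hp))
        (continuous_pi fun _ => continuous_apply _) (fun g hg => mem_image_of_mem _ hg)
        subset_rfl hRL hf
      have h2 : ∀ n, ∀ v ∈ (insert y (closure (j '' A n)) : Set (Ups X)), L g v = f v := by
        intro n v hv
        obtain ⟨k, rfl⟩ := hpt y n v hv
        exact congrFun hg (n, k)
      exact ⟨g, h2 0 y (mem_insert _ _), fun n v hv => h2 n v (Or.inr (subset_closure hv))⟩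
    obtain ⟨g, -, hg⟩ := h1 (j hX.some)
    refine ⟨g, funext fun y => ?_⟩
    obtain ⟨g', h2, h3⟩ := h1 y
    rw [hdet g g' fun n v hv => (hg n v hv).trans (h3 n v hv).symm, h2]
  have hLc : IsCompact (range L) := by
    rw [← subset_antisymm hcl subset_closure]
    exact hRL.compact_closure
  let res : (Ups X → ℝ) → (X → ℝ) := fun g x => g (j x)
  have hres : Continuous res := continuous_pi fun _ => continuous_apply _
  have hKc : IsCompact K := by
    have : res '' range L = K := by
      rw [← range_comp]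
      exact Subtype.range_coe
    exact this ▸ hLc.image hres
  have : CompactSpace K := isCompact_iff_compactSpace.1 hKc
  have hLcont : Continuous L := by
    rw [continuous_iff_isClosed]
    intro C hC'
    have : L ⁻¹' C = Subtype.val ⁻¹' (res '' (range L ∩ C)) := by
      ext f
      constructor
      · intro hf
        exact ⟨L f, ⟨mem_range_self f, hf⟩, rfl⟩
      · rintro ⟨_, ⟨⟨g, rfl⟩, hg⟩, h⟩
        have : g = f := Subtype.ext h
        rwa [← this]
    rw [this]
    exact ((hLc.inter_right hC').image hres).isClosed.preimage continuous_subtype_val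
  refine ⟨hKc, amir_sigma (K := ∀ n, (insert (j hX.some) (closure (j '' A n)) : Set (Ups X)))
    (fun n k f => L f (k n).1) (fun n k => (continuous_apply _).comp hLcont)
    (fun n f => (hL f).comp (continuous_subtype_val.comp (continuous_apply n)))
    fun f g h => hdet f g fun n v hv => ?_⟩
  obtain ⟨k, rfl⟩ := hpt (j hX.some) n v (Or.inr (subset_closure hv))
  exact h n k

end ups

theorem rcc_of_cover {Z : Type} [TopologicalSpace Z] {K : Set Z}
    (h : ∀ U : ℕ → Set Z, (∀ n, IsOpen (U n)) → K ⊆ ⋃ n, U n →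
      ∃ N : ℕ, K ⊆ ⋃ n ∈ Finset.range N, U n) : RCC K K := by
  intro a ha
  by_contra hn
  push Not at hn
  obtain ⟨N, hN⟩ := h (fun n => (closure (a '' Ici n))ᶜ) (fun n => isClosed_closure.isOpen_compl)
    (fun g hg => by
      have := hn g hg
      rw [mapClusterPt_iff_frequently] at this
      push Not at this
      obtain ⟨U, hU, h⟩ := this
      obtain ⟨n, hn⟩ := eventually_atTop.1 h
      refine mem_iUnion.2 ⟨n, fun hc => ?_⟩
      obtain ⟨_, h1, m, hm, rfl⟩ := mem_closure_iff_nhds.1 hc U hU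
      exact hn m hm h1)
  obtain ⟨n, hn, h⟩ := mem_iUnion₂.1 (hN (ha N))
  exact h (subset_closure ⟨N, (Finset.mem_range.1 hn).le, rfl⟩)

end Pool.Agent.Lead.AL
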