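import Mathlib

namespace Pool.Agent.Lead.Ak

open Set Topology Filter

def DR : Type := ℝ

instance : TopologicalSpace DR := ⊥
instance : DiscreteTopology DR := ⟨rfl⟩

theorem DR_unc : ¬ (univ : Set DR).Countable := Cardinal.not_countable_real

open Classical in
noncomputable def sg {Γ : Type} (p : OnePoint Γ) : Γ → ℝ := fun γ => if p = ↑γ then 1 else 0

theorem sg_cont {Γ : Type} [TopologicalSpace Γ] [DiscreteTopology Γ] :
    Continuous (sg : OnePoint Γ → Γ → ℝ) := by
  refine continuous_pi fun γ => (OnePoint.continuous_iff_from_discrete _).2 ?_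
  refine tendsto_const_nhds.congr' ?_
  filter_upwards [(finite_singleton γ).compl_mem_cofinite] with δ hδ
  have : δ ≠ γ := hδ
  simp [sg, this]

def Fin0 (Γ : Type) : Set (Γ → ℝ) := {y | (∀ γ, 0 ≤ y γ) ∧ (Function.support y).Finite}

theorem Fin0_sigma (Γ : Type) : IsSigmaCompact (Fin0 Γ) := by
  classical
  have : Fin0 Γ = ⋃ n : ℕ, (pi univ fun _ => Icc (0 : ℝ) n) ∩
      ⋂ s ∈ {s : Finset Γ | s.card = n + 1}, ⋃ γ ∈ s, {y | y γ = 0} := by
    ext y
    constructor
    · rintro ⟨h1, h2⟩
      obtain ⟨C, hC⟩ := (h2.image y).bddAbove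
      obtain ⟨n, hn⟩ := exists_nat_ge (max (max C 0) h2.toFinset.card)
      refine mem_iUnion.2 ⟨n, fun γ _ => ⟨h1 γ, ?_⟩, mem_iInter₂.2 fun s hs => ?_⟩
      · by_cases h : y γ = 0
        · rw [h]; positivity
        · exact (hC ⟨γ, h, rfl⟩).trans ((le_max_left _ _).trans ((le_max_left _ _).trans hn))
      · by_contra hc
        simp only [mem_iUnion, mem_ofPred_eq, not_exists] at hc
        have h3 : s ⊆ h2.toFinset := fun γ hγ => h2.mem_toFinset.2 (hc γ hγ)
        have h4 := Finset.card_le_card h3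
        have h5 : h2.toFinset.card ≤ n := by exact_mod_cast (le_max_right _ _).trans hn
        have : s.card = n + 1 := hs
        omega
    · intro h
      obtain ⟨n, h1, h2⟩ := mem_iUnion.1 h
      refine ⟨fun γ => (h1 γ trivial).1, ?_⟩
      by_contra hinf
      obtain ⟨s, hs, hs'⟩ := Set.Infinite.exists_subset_card_eq hinf (n + 1)
      obtain ⟨γ, h3, h4⟩ := mem_iUnion₂.1 (mem_iInter₂.1 h2 s hs')
      exact hs h3 h4
  rw [this]
  exact isSigmaCompact_iUnion_of_isCompact _ fun n =>
    (isCompact_univ_pi fun _ => isCompact_Icc).inter_right (isClosed_biInter fun s _ =>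
      isClosed_biUnion_finset fun γ _ => isClosed_eq (continuous_apply γ) continuous_const)

theorem s13188 : ∃ φ : {f : range (sg : OnePoint DR → DR → ℝ) → ℝ // Continuous f} → Fin0 DR,
    Continuous φ ∧ Function.Surjective φ := by
  classical
  let s : OnePoint DR → range (sg : OnePoint DR → DR → ℝ) := rangeFactorization sg
  have hs : Continuous s := sg_cont.subtype_mk _
  refine ⟨fun f => ⟨fun γ => max 0 (f.1 (s γ) - f.1 (s OnePoint.infty) - 1),
    fun γ => le_max_left _ _, ?_⟩, ?_, ?_⟩
  · have h := (OnePoint.continuous_iff_from_discrete _).1 (f.2.comp hs)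
    have := h.eventually (gt_mem_nhds (lt_add_one (f.1 (s OnePoint.infty))))
    refine Set.Finite.subset this fun γ hγ h' => hγ (max_eq_left ?_)
    have h'' : f.1 (s γ) < f.1 (s OnePoint.infty) + 1 := h'
    linarith
  · refine Continuous.subtype_mk (continuous_pi fun γ => continuous_const.max ?_) _
    have h : ∀ x, Continuous
        fun f : {f : range (sg : OnePoint DR → DR → ℝ) → ℝ // Continuous f} => f.1 x :=
      fun x => (continuous_apply x).comp continuous_subtype_val
    exact ((h _).sub (h _)).sub continuous_const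
  · rintro ⟨y, h1, h2⟩
    refine ⟨⟨fun x => ∑ γ ∈ h2.toFinset, (y γ + 1) * x.1 γ, continuous_finsetSum _ fun γ _ =>
      continuous_const.mul ((continuous_apply γ).comp continuous_subtype_val)⟩, Subtype.ext ?_⟩
    funext γ
    by_cases h : y γ = 0
    · simp [s, sg, h]
    · simp [s, sg, h, h1]

theorem Fin0_not_cosmic : ¬ ∃ N : Set (Set (Fin0 DR)), N.Countable ∧
    ∀ U : Set (Fin0 DR), IsOpen U → ∀ y ∈ U, ∃ A ∈ N, y ∈ A ∧ A ⊆ U := by
  classical
  rintro ⟨N, hN, h⟩
  let e : DR → Fin0 DR := fun γ => ⟨sg ↑γ, fun δ => by unfold sg; split_ifs <;> norm_num,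
    (finite_singleton γ).subset fun δ hδ => by
      by_contra hn
      exact hδ (by simp [sg, Ne.symm hn])⟩
  choose A h1 h2 h3 using fun γ => h {y | 0 < y.1 γ}
    (isOpen_lt continuous_const ((continuous_apply γ).comp continuous_subtype_val)) (e γ)
    (by simp [e, sg])
  refine DR_unc ((hN.preimage_of_injOn (f := A) fun a _ b _ hab => ?_).mono fun γ _ => h1 γ)
  have := h3 b (hab ▸ h2 a)
  by_contra hn
  simp [e, sg, hn] at this

end Pool.Agent.Lead.Ak
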