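import Pool.Agent.Lead.BrDefs

set_option autoImplicit false

namespace Pool.Agent.Lead.Br
variable {ι S : Type}

lemma size_pos (T : BT) : 0 < T.size := by
  induction T with
  | leaf => simp [BT.size]
  | node l r ih _ => simp only [BT.size]; omega

lemma box_mono {A B A' B' : Set (ι → S)} (h1 : A ⊆ A') (h2 : B ⊆ B') : box A B ⊆ box A' B' := by
  rintro x ⟨K, L, h, a, b⟩
  exact ⟨K, L, h, fun y hy => h1 (a y hy), fun y hy => h2 (b y hy)⟩

lemma box_comm {A B : Set (ι → S)} : box A B ⊆ box B A := by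
  rintro x ⟨K, L, h, a, b⟩
  exact ⟨L, K, h.symm, b, a⟩

lemma box_left {A B : Set (ι → S)} : box A B ⊆ A := by
  rintro x ⟨K, L, h, a, b⟩
  exact a x (fun _ _ => rfl)

lemma box_right {A B : Set (ι → S)} : box A B ⊆ B := fun _ h => box_left (box_comm h)

lemma box_univ {A : Set (ι → S)} : A ⊆ box A Set.univ := by
  intro x hx
  refine ⟨Set.univ, ∅, by simp, fun y hy => ?_, fun _ _ => trivial⟩
  have : y = x := funext fun i => hy i trivial
  rw [this]; exact hx

lemma box_iff {A B : Set (ι → S)} {x : ι → S} : x ∈ box A B ↔ ∃ K : ι → Bool,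
    (∀ y : ι → S, (∀ i, K i = true → y i = x i) → y ∈ A) ∧
    (∀ y : ι → S, (∀ i, K i = false → y i = x i) → y ∈ B) := by
  classical
  constructor
  · rintro ⟨K, L, h, a, b⟩
    refine ⟨fun i => decide (i ∈ K), fun y hy => a y (fun i hi => hy i (by simpa using hi)),
      fun y hy => b y (fun i hi => hy i ?_)⟩
    simpa using fun hk => Set.disjoint_left.1 h hk hi
  · rintro ⟨K, a, b⟩
    refine ⟨{i | K i = true}, {i | K i = false}, ?_, a, b⟩
    rw [Set.disjoint_left]
    intro i h1 h2
    simp only [Set.mem_ofPred_eq] at h1 h2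
    rw [h1] at h2; cases h2

/-- simultaneous witnesses give a cylinder inside every bracketing -/
lemma sim_cyl (A : ℕ → Set (ι → S)) (T : BT) : ∀ (n : ℕ) (x : ι → S) (K : ℕ → Set ι),
    (∀ a b, n ≤ a → a < n + T.size → n ≤ b → b < n + T.size → a ≠ b → Disjoint (K a) (K b)) →
    (∀ a, n ≤ a → a < n + T.size → ∀ y : ι → S, (∀ i ∈ K a, y i = x i) → y ∈ A a) →
    ∀ y : ι → S, (∀ a, n ≤ a → a < n + T.size → ∀ i ∈ K a, y i = x i) → y ∈ ev A T n := by
  induction T with
  | leaf =>
    intro n x K _ h y hy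
    exact h n le_rfl (by simp [BT.size]) y (hy n le_rfl (by simp [BT.size]))
  | node l r ihl ihr =>
    intro n x K hd h y hy
    simp only [BT.size] at hd h hy
    refine ⟨{i | ∃ a, n ≤ a ∧ a < n + l.size ∧ i ∈ K a},
      {i | ∃ a, n + l.size ≤ a ∧ a < n + l.size + r.size ∧ i ∈ K a}, ?_, ?_, ?_⟩
    · rw [Set.disjoint_left]
      rintro i ⟨a, a1, a2, a3⟩ ⟨b, b1, b2, b3⟩
      exact Set.disjoint_left.1 (hd a b a1 (by omega) (by omega) (by omega) (by omega)) a3 b3
    · intro z hz
      apply ihl n x K (fun a b a1 a2 b1 b2 => hd a b a1 (by omega) b1 (by omega))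
        (fun a a1 a2 => h a a1 (by omega))
      intro a a1 a2 i hi
      rw [hz i ⟨a, a1, a2, hi⟩]
      exact hy a a1 (by omega) i hi
    · intro z hz
      apply ihr (n + l.size) x K (fun a b a1 a2 b1 b2 => hd a b (by omega) (by omega) (by omega) (by omega))
        (fun a a1 a2 => h a (by omega) (by omega))
      intro a a1 a2 i hi
      rw [hz i ⟨a, a1, a2, hi⟩]
      exact hy a (by omega) (by omega) i hi

lemma ev_univ (A : ℕ → Set (ι → S)) (T : BT) (n : ℕ)
    (h : ∀ a, n ≤ a → a < n + T.size → A a = Set.univ) : Set.univ ⊆ ev A T n := by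
  intro x _
  refine sim_cyl A T n x (fun _ => ∅) (by simp) ?_ x (by simp)
  intro a a1 a2 y _
  rw [h a a1 a2]; trivial

lemma ev_one (A : ℕ → Set (ι → S)) (T : BT) (n : ℕ) (p : ℕ)
    (h : ∀ a, n ≤ a → a < n + T.size → a ≠ p → A a = Set.univ) : A p ⊆ ev A T n := by
  classical
  intro x hx
  refine sim_cyl A T n x (fun a => if a = p then Set.univ else ∅) ?_ ?_ x (by simp)
  · intro a b _ _ _ _ hab
    by_cases h1 : a = p
    · have : b ≠ p := fun h => hab (h1.trans h.symm)
      simp [this]
    · simp [h1]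
  · intro a a1 a2 y hy
    by_cases h1 : a = p
    · subst h1
      have : y = x := funext fun i => hy i (by simp)
      rw [this]; exact hx
    · rw [h a a1 a2 h1]; trivial

lemma ev_two (A : ℕ → Set (ι → S)) (T : BT) (n : ℕ) (p q : ℕ) (hpq : p ≠ q)
    (h : ∀ a, n ≤ a → a < n + T.size → a ≠ p → a ≠ q → A a = Set.univ) :
    box (A p) (A q) ⊆ ev A T n := by
  classical
  rintro x ⟨K, L, hd, hK, hL⟩
  refine sim_cyl A T n x (fun a => if a = p then K else if a = q then L else ∅) ?_ ?_ x (by simp)
  · intro a b _ _ _ _ hab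
    by_cases h1 : a = p
    · have : b ≠ p := fun h => hab (h1.trans h.symm)
      by_cases h2 : b = q
      · simp [h1, h2, hpq.symm, hd]
      · simp [this, h2]
    · by_cases h2 : a = q
      · have : b ≠ q := fun h => hab (h2.trans h.symm)
        by_cases h3 : b = p
        · simp [h2, h3, hpq.symm, hd.symm]
        · simp [this, h3]
      · simp [h1, h2]
  · intro a a1 a2 y hy
    by_cases h1 : a = p
    · subst h1
      exact hK y (by simpa using hy)
    · by_cases h2 : a = q
      · subst h2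
        exact hL y (by simpa [h1] using hy)
      · rw [h a a1 a2 h1 h2]; trivial

lemma ev_sub_one (A : ℕ → Set (ι → S)) (T : BT) : ∀ (n p : ℕ), n ≤ p → p < n + T.size →
    ev A T n ⊆ A p := by
  induction T with
  | leaf =>
    intro n p h1 h2
    have : p = n := by simp only [BT.size] at h2; omega
    subst this; exact fun _ h => h
  | node l r ihl ihr =>
    intro n p h1 h2
    simp only [BT.size] at h2
    by_cases h : p < n + l.size
    · exact box_left.trans (ihl n p h1 h)
    · exact box_right.trans (ihr _ p (by omega) (by omega))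

lemma ev_sub_two (A : ℕ → Set (ι → S)) (T : BT) : ∀ (n p q : ℕ), n ≤ p → p < n + T.size →
    n ≤ q → q < n + T.size → p ≠ q → ev A T n ⊆ box (A p) (A q) := by
  induction T with
  | leaf =>
    intro n p q h1 h2 h3 h4 h5
    simp only [BT.size] at h2 h4; omega
  | node l r ihl ihr =>
    intro n p q h1 h2 h3 h4 h5
    simp only [BT.size] at h2 h4
    by_cases h : p < n + l.size
    · by_cases h' : q < n + l.size
      · exact box_left.trans (ihl n p q h1 h h3 h' h5)
      · exact box_mono (ev_sub_one A l n p h1 h) (ev_sub_one A r _ q (by omega) (by omega))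
    · by_cases h' : q < n + l.size
      · exact (box_mono (ev_sub_one A l n q h3 h') (ev_sub_one A r _ p (by omega) (by omega))).trans
          box_comm
      · exact box_right.trans (ihr _ p q (by omega) (by omega) (by omega) (by omega) h5)

/-- products over blocks -/
def prd {β κ : Type} (V : β → Set (κ → S)) : Set (β × κ → S) :=
  {x | ∀ b, (fun j => x (b, j)) ∈ V b}

lemma box_prd {β κ : Type} (V W : β → Set (κ → S)) :
    box (prd V) (prd W) = prd (fun b => box (V b) (W b)) := by
  classical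
  ext x
  constructor
  · rintro ⟨K, L, hd, hK, hL⟩ b
    refine ⟨{j | (b, j) ∈ K}, {j | (b, j) ∈ L}, ?_, ?_, ?_⟩
    · rw [Set.disjoint_left]
      intro j h1 h2
      exact Set.disjoint_left.1 hd h1 h2
    · intro z hz
      have := hK (fun p => if p.1 = b then z p.2 else x p) (by
        rintro ⟨b', j⟩ hp
        by_cases h : b' = b
        · subst h; simpa using hz j hp
        · simp [h]) b
      simpa using this
    · intro z hz
      have := hL (fun p => if p.1 = b then z p.2 else x p) (by
        rintro ⟨b', j⟩ hp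
        by_cases h : b' = b
        · subst h; simpa using hz j hp
        · simp [h]) b
      simpa using this
  · intro h
    choose K L hd hK hL using h
    refine ⟨{p | p.2 ∈ K p.1}, {p | p.2 ∈ L p.1}, ?_, ?_, ?_⟩
    · rw [Set.disjoint_left]
      intro p h1 h2
      exact Set.disjoint_left.1 (hd p.1) h1 h2
    · intro y hy b
      exact hK b _ (fun j hj => hy (b, j) hj)
    · intro y hy b
      exact hL b _ (fun j hj => hy (b, j) hj)

lemma ev_prd {β κ : Type} (R : β → ℕ → Set (κ → S)) (T : BT) : ∀ n,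
    ev (fun a => prd (fun b => R b a)) T n = prd (fun b => ev (R b) T n) := by
  induction T with
  | leaf => intro n; rfl
  | node l r ihl ihr =>
    intro n
    simp only [ev, ihl, ihr, box_prd]

/-- transport along a bijection of coordinates -/
def tr {κ : Type} (e : ι ≃ κ) (A : Set (ι → S)) : Set (κ → S) := {x | (fun i => x (e i)) ∈ A}

lemma box_tr {κ : Type} (e : ι ≃ κ) (A B : Set (ι → S)) :
    box (tr e A) (tr e B) = tr e (box A B) := by
  ext x
  constructor
  · rintro ⟨K, L, hd, hK, hL⟩
    refine ⟨e ⁻¹' K, e ⁻¹' L, hd.preimage e, ?_, ?_⟩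
    · intro y hy
      have := hK (fun k => y (e.symm k)) (fun k hk => by
        rw [hy (e.symm k) (by simpa using hk)]; simp)
      simpa [tr] using this
    · intro y hy
      have := hL (fun k => y (e.symm k)) (fun k hk => by
        rw [hy (e.symm k) (by simpa using hk)]; simp)
      simpa [tr] using this
  · rintro ⟨K, L, hd, hK, hL⟩
    refine ⟨e.symm ⁻¹' K, e.symm ⁻¹' L, hd.preimage e.symm, ?_, ?_⟩
    · intro y hy
      exact hK _ (fun i hi => hy (e i) (by simpa using hi))
    · intro y hy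
      exact hL _ (fun i hi => hy (e i) (by simpa using hi))

lemma ev_tr {κ : Type} (e : ι ≃ κ) (A : ℕ → Set (ι → S)) (T : BT) : ∀ n,
    ev (fun a => tr e (A a)) T n = tr e (ev A T n) := by
  induction T with
  | leaf => intro n; rfl
  | node l r ihl ihr => intro n; simp only [ev, ihl, ihr, box_tr]

lemma pw_tr {κ : Type} (e : ι ≃ κ) (A : Set (ι → S)) (T : BT) :
    pw (tr e A) T = tr e (pw A T) := by
  induction T with
  | leaf => rfl
  | node l r ihl ihr => simp only [pw, ihl, ihr, box_tr]

lemma tr_inj {κ : Type} (e : ι ≃ κ) {A B : Set (ι → S)} (h : tr e A = tr e B) : A = B := by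
  ext x
  have := Set.ext_iff.1 h (fun k => x (e.symm k))
  simpa [tr] using this

lemma ev_sub_pw (A : ℕ → Set (ι → S)) (B : Set (ι → S)) (T : BT) : ∀ n,
    (∀ a, n ≤ a → a < n + T.size → A a ⊆ B) → ev A T n ⊆ pw B T := by
  induction T with
  | leaf => intro n h; exact h n le_rfl (by simp [BT.size])
  | node l r ihl ihr =>
    intro n h
    simp only [BT.size] at h
    exact box_mono (ihl n (fun a a1 a2 => h a a1 (by omega)))
      (ihr _ (fun a a1 a2 => h a (by omega) (by omega)))

/-! the gadget -/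
def g1 (z : Fin 3 → Fin 3) : Bool := decide (z 0 = 2 ∨ (z 0 = 1 ∧ z 2 ≠ 1) ∨ (z 1 = 1 ∧ z 2 = 1))
def g2 (z : Fin 3 → Fin 3) : Bool := decide (z 1 = 2 ∨ z 0 = 1 ∨ z 1 = 1)
def g3 (z : Fin 3 → Fin 3) : Bool := decide (z 2 ≠ 1)
def G1 : Set (Fin 3 → Fin 3) := {z | g1 z = true}
def G2 : Set (Fin 3 → Fin 3) := {z | g2 z = true}
def G3 : Set (Fin 3 → Fin 3) := {z | g3 z = true}
def gp : Fin 3 → Fin 3 := ![1, 1, 0]

lemma g_yes : gp ∈ box (box G1 G2) G3 := by
  simp only [box_iff, G1, G2, G3, Set.mem_ofPred_eq]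
  decide +kernel

lemma g_no1 : gp ∉ box (box G1 G3) G2 := by
  simp only [box_iff, G1, G2, G3, Set.mem_ofPred_eq]
  decide +kernel

lemma g_no2 : gp ∉ box G1 (box G2 G3) := by
  simp only [box_iff, G1, G2, G3, Set.mem_ofPred_eq]
  decide +kernel

lemma two_G1 (z : Fin 3 → Fin 3) (h : z 0 = 2) : z ∈ G1 := by simp [G1, g1, h]
lemma two_G2 (z : Fin 3 → Fin 3) (h : z 1 = 2) : z ∈ G2 := by simp [G2, g2, h]
lemma two_G3 (z : Fin 3 → Fin 3) (h : z 2 = 2) : z ∈ G3 := by simp [G3, g3, h]

end Pool.Agent.Lead.Br
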