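import Pool.Agent.Lead.Br1

set_option autoImplicit false

namespace Pool.Agent.Lead.Br
open Classical

def role (i j k : ℕ) (a : ℕ) : Set (Fin 3 → Fin 3) :=
  if a = i then G1 else if a = j then G2 else if a = k then G3 else Set.univ

def trip : BT → ℕ → ℕ → ℕ → ℕ → Prop
  | .leaf, _, _, _, _ => False
  | .node l r, n, i, j, k =>
    (i ≠ j ∧ n ≤ i ∧ i < n + l.size ∧ n ≤ j ∧ j < n + l.size ∧ n + l.size ≤ k ∧
      k < n + l.size + r.size) ∨
    (i ≠ j ∧ n + l.size ≤ i ∧ i < n + l.size + r.size ∧ n + l.size ≤ j ∧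
      j < n + l.size + r.size ∧ n ≤ k ∧ k < n + l.size) ∨
    trip l n i j k ∨ trip r (n + l.size) i j k

lemma trip_range (T : BT) : ∀ n i j k, trip T n i j k →
    n ≤ i ∧ i < n + T.size ∧ n ≤ j ∧ j < n + T.size ∧ n ≤ k ∧ k < n + T.size := by
  induction T with
  | leaf => intro n i j k h; exact h.elim
  | node l r ihl ihr =>
    intro n i j k h
    simp only [BT.size]
    rcases h with h | h | h | h
    · omega
    · omega
    · have := ihl _ _ _ _ h; omega
    · have := ihr _ _ _ _ h; omega

lemma role1 (i j k : ℕ) : role i j k i = G1 := by simp [role]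
lemma role2 (i j k : ℕ) (h : i ≠ j) : role i j k j = G2 := by simp [role, h.symm]
lemma role3 (i j k : ℕ) (h : i ≠ k) (h' : j ≠ k) : role i j k k = G3 := by
  simp [role, h.symm, h'.symm]
lemma role0 (i j k a : ℕ) (h1 : a ≠ i) (h2 : a ≠ j) (h3 : a ≠ k) : role i j k a = Set.univ := by
  simp [role, h1, h2, h3]

lemma trip_yes (T : BT) : ∀ n i j k, trip T n i j k → gp ∈ ev (role i j k) T n := by
  induction T with
  | leaf => intro n i j k h; exact h.elim
  | node l r ihl ihr =>
    intro n i j k h
    rcases h with h | h | h | h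
    · refine box_mono ?_ ?_ g_yes
      · have := ev_two (role i j k) l n i j h.1 (fun a a1 a2 a3 a4 => role0 _ _ _ _ a3 a4 (by omega))
        rwa [role1, role2 _ _ _ h.1] at this
      · have := ev_one (role i j k) r (n + l.size) k
          (fun a a1 a2 a3 => role0 _ _ _ _ (by omega) (by omega) a3)
        rwa [role3 _ _ _ (by omega) (by omega)] at this
    · refine box_comm (box_mono ?_ ?_ g_yes)
      · have := ev_two (role i j k) r (n + l.size) i j h.1
          (fun a a1 a2 a3 a4 => role0 _ _ _ _ a3 a4 (by omega))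
        rwa [role1, role2 _ _ _ h.1] at this
      · have := ev_one (role i j k) l n k
          (fun a a1 a2 a3 => role0 _ _ _ _ (by omega) (by omega) a3)
        rwa [role3 _ _ _ (by omega) (by omega)] at this
    · have hr := trip_range _ _ _ _ _ h
      exact box_mono (fun _ h => h) (ev_univ _ r (n + l.size)
        (fun a a1 a2 => role0 _ _ _ _ (by omega) (by omega) (by omega))) (box_univ (ihl _ _ _ _ h))
    · have hr := trip_range _ _ _ _ _ h
      exact box_comm (box_mono (fun _ h => h) (ev_univ _ l n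
        (fun a a1 a2 => role0 _ _ _ _ (by omega) (by omega) (by omega))) (box_univ (ihr _ _ _ _ h)))

lemma two_mem (i j k : ℕ) (T : BT) (n : ℕ) : (fun _ => 2) ∈ ev (role i j k) T n := by
  refine sim_cyl _ T n (fun _ => 2)
    (fun a => if a = i then {0} else if a = j then {1} else if a = k then {2} else ∅) ?_ ?_ _
    (by simp)
  · intro a b _ _ _ _ hab
    split_ifs <;> first | omega | simp
  · intro a _ _ y hy
    unfold role
    split_ifs with h1 h2 h3
    · exact two_G1 y (hy 0 (by simp [h1]))
    · exact two_G2 y (hy 1 (by rw [if_neg h1, if_pos h2]; rfl))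
    · exact two_G3 y (hy 2 (by rw [if_neg h1, if_neg h2, if_pos h3]; rfl))
    · trivial

abbrev Bk (r : ℕ) : Type := Fin r ⊕ (Fin r × Fin r × Fin r)

def RR {r : ℕ} : Bk r → ℕ → Set (Fin 3 → Fin 3)
  | .inl i, a => if a = i then {z | z 0 = 1} else Set.univ
  | .inr t, a => role t.1 t.2.1 t.2.2 a

def AA (r : ℕ) (a : ℕ) : Set (Bk r × Fin 3 → Fin 3) := prd (fun b => RR b a)

noncomputable def xT (r : ℕ) (T : BT) : Bk r × Fin 3 → Fin 3
  | (.inl _, _) => 1
  | (.inr t, j) => if trip T 0 t.1 t.2.1 t.2.2 then gp j else 2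

lemma xT_mem (r : ℕ) (T : BT) : xT r T ∈ ev (AA r) T 0 := by
  have := ev_prd (S := Fin 3) (RR (r := r)) T 0
  unfold AA
  rw [this]
  intro b
  rcases b with i | t
  · apply ev_one _ T 0 i
    · intro a _ _ h; simp [RR, h]
    · simp [RR, xT]
  · by_cases h : trip T 0 t.1 t.2.1 t.2.2
    · have : (fun j => xT r T (.inr t, j)) = gp := by funext j; simp [xT, h]
      rw [this]
      exact trip_yes T 0 _ _ _ h
    · have : (fun j => xT r T (.inr t, j)) = fun _ => 2 := by funext j; simp [xT, h]
      rw [this]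
      exact two_mem _ _ _ T 0

lemma size_one {T : BT} (h : T.size = 1) : T = .leaf := by
  cases T with
  | leaf => rfl
  | node l r =>
    have := size_pos l; have := size_pos r
    simp only [BT.size] at h; omega

lemma ord (T : BT) : ∀ (T' : BT) (n : ℕ), T'.size = T.size →
    (∀ i j k, trip T n i j k → gp ∈ ev (role i j k) T' n) → T' = T := by
  induction T with
  | leaf => intro T' n h _; exact size_one h
  | node l r ihl ihr =>
    intro T' n hs h
    have p1 := size_pos l; have p2 := size_pos r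
    cases T' with
    | leaf => simp only [BT.size] at hs; omega
    | node l' r' =>
      have q1 := size_pos l'; have q2 := size_pos r'
      simp only [BT.size] at hs
      rcases lt_trichotomy l.size l'.size with hl | hl | hl
      · exfalso
        have := h (n + l.size) (n + l.size + r.size - 1) n (Or.inr (Or.inl (by omega)))
        apply g_no1
        refine box_mono ?_ ?_ this
        · have := ev_sub_two (role (n + l.size) (n + l.size + r.size - 1) n) l' n (n + l.size) n
            (by omega) (by omega) (by omega) (by omega) (by omega)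
          rwa [role1, role3 _ _ _ (by omega) (by omega)] at this
        · have := ev_sub_one (role (n + l.size) (n + l.size + r.size - 1) n) r' (n + l'.size)
            (n + l.size + r.size - 1) (by omega) (by omega)
          rwa [role2 _ _ _ (by omega)] at this
      · have e1 : l' = l := ihl l' n hl.symm (fun i j k ht => box_left (h i j k (Or.inr (Or.inr (Or.inl ht)))))
        have e2 : r' = r := ihr r' (n + l.size) (by omega) (fun i j k ht => by
          have := box_right (h i j k (Or.inr (Or.inr (Or.inr ht))))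
          rwa [← hl] at this)
        rw [e1, e2]
      · exfalso
        have := h n (n + l'.size) (n + l.size + r.size - 1) (Or.inl (by omega))
        apply g_no2
        refine box_mono ?_ ?_ this
        · have := ev_sub_one (role n (n + l'.size) (n + l.size + r.size - 1)) l' n n
            (by omega) (by omega)
          rwa [role1] at this
        · have := ev_sub_two (role n (n + l'.size) (n + l.size + r.size - 1)) r' (n + l'.size)
            (n + l'.size) (n + l.size + r.size - 1) (by omega) (by omega) (by omega) (by omega)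
            (by omega)
          rwa [role2 _ _ _ (by omega), role3 _ _ _ (by omega) (by omega)] at this

theorem ordered (r : ℕ) (T T' : BT) (h1 : T.size = r) (h2 : T'.size = r)
    (h : ev (AA r) T 0 = ev (AA r) T' 0) : T = T' := by
  have hx := xT_mem r T
  rw [h] at hx
  have := ev_prd (S := Fin 3) (RR (r := r)) T' 0
  unfold AA at hx
  rw [this] at hx
  symm
  apply ord T T' 0 (by omega)
  intro i j k ht
  have hr := trip_range _ _ _ _ _ ht
  have := hx (.inr (⟨i, by omega⟩, ⟨j, by omega⟩, ⟨k, by omega⟩))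
  have e : (fun c => xT r T (.inr (⟨i, by omega⟩, ⟨j, by omega⟩, ⟨k, by omega⟩), c)) = gp := by
    funext c; simp [xT, ht]
  rw [e] at this
  exact this

/-! the unordered case -/

def AU (r : ℕ) : Set (Bk r × Fin 3 → Fin 3) := {y | ∃ a : Fin r, y ∈ AA r a}

noncomputable def lab {r : ℕ} (y : Bk r × Fin 3 → Fin 3) : Finset (Fin r) :=
  Finset.univ.filter (fun a => y (.inl a, 0) = 1)

noncomputable def cut {r : ℕ} (y : Bk r × Fin 3 → Fin 3) (P : Set (Fin r)) : Bk r × Fin 3 → Fin 3
  | (.inl a, j) => if j = 0 ∧ a ∉ P then 0 else y (.inl a, j)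
  | (.inr t, j) => y (.inr t, j)

noncomputable def upd {r : ℕ} (y : Bk r × Fin 3 → Fin 3) (t : Fin r × Fin r × Fin r)
    (z : Fin 3 → Fin 3) : Bk r × Fin 3 → Fin 3 :=
  fun p => if p.1 = .inr t then z p.2 else y p

def gad {r : ℕ} (y : Bk r × Fin 3 → Fin 3) (t : Fin r × Fin r × Fin r) : Fin 3 → Fin 3 :=
  fun j => y (.inr t, j)

lemma lab_cut {r : ℕ} (y : Bk r × Fin 3 → Fin 3) (P : Set (Fin r)) :
    lab (cut y P) = (lab y).filter (· ∈ P) := by
  ext a
  by_cases h : a ∈ P <;> simp [lab, cut, h]

lemma lab_upd {r : ℕ} (y : Bk r × Fin 3 → Fin 3) (t : Fin r × Fin r × Fin r)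
    (z : Fin 3 → Fin 3) : lab (upd y t z) = lab y := by
  ext a; simp [lab, upd]

lemma gad_cut {r : ℕ} (y : Bk r × Fin 3 → Fin 3) (P : Set (Fin r)) (t : Fin r × Fin r × Fin r) :
    gad (cut y P) t = gad y t := rfl

lemma gad_upd {r : ℕ} (y : Bk r × Fin 3 → Fin 3) (t : Fin r × Fin r × Fin r)
    (z : Fin 3 → Fin 3) : gad (upd y t z) t = z := by
  funext j; simp [gad, upd]

lemma split {r : ℕ} {V W : Set (Bk r × Fin 3 → Fin 3)} {y : Bk r × Fin 3 → Fin 3}
    (h : y ∈ box V W) : ∃ P Q : Set (Fin r), Disjoint P Q ∧ cut y P ∈ V ∧ cut y Q ∈ W ∧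
      ∀ t, gad y t ∈ box {z | cut (upd y t z) P ∈ V} {z | cut (upd y t z) Q ∈ W} := by
  obtain ⟨K, L, hd, hK, hL⟩ := h
  have c1 : ∀ (M : Set (Bk r × Fin 3)), ∀ p ∈ M, cut y {a | (Sum.inl a, 0) ∈ M} p = y p := by
    rintro M ⟨b, j⟩ hp
    rcases b with a | t
    · simp only [cut]
      rw [if_neg]
      rintro ⟨rfl, h2⟩
      exact h2 hp
    · rfl
  have c2 : ∀ (M : Set (Bk r × Fin 3)) (t : Fin r × Fin r × Fin r) (z : Fin 3 → Fin 3),
      (∀ j ∈ {j | (Sum.inr t, j) ∈ M}, z j = gad y t j) →
      ∀ p ∈ M, cut (upd y t z) {a | (Sum.inl a, 0) ∈ M} p = y p := by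
    rintro M t z hz ⟨b, j⟩ hp
    rcases b with a | t'
    · simp only [cut]
      rw [if_neg]
      · simp [upd]
      · rintro ⟨rfl, h2⟩
        exact h2 hp
    · simp only [cut, upd]
      by_cases e : t' = t
      · subst e
        rw [if_pos rfl]
        exact hz j hp
      · rw [if_neg (by simpa using e)]
  refine ⟨{a | (Sum.inl a, 0) ∈ K}, {a | (Sum.inl a, 0) ∈ L}, ?_, hK _ (c1 K), hL _ (c1 L), ?_⟩
  · rw [Set.disjoint_left]
    intro a h1 h2
    exact Set.disjoint_left.1 hd h1 h2
  · intro t
    refine ⟨{j | (Sum.inr t, j) ∈ K}, {j | (Sum.inr t, j) ∈ L}, ?_,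
      fun z hz => hK _ (c2 K t z hz), fun z hz => hL _ (c2 L t z hz)⟩
    rw [Set.disjoint_left]
    intro a h1 h2
    exact Set.disjoint_left.1 hd h1 h2

lemma card_split {r : ℕ} (s : Finset (Fin r)) {P Q : Set (Fin r)} (h : Disjoint P Q) :
    (s.filter (· ∈ P)).card + (s.filter (· ∈ Q)).card +
      (s.filter (fun a => a ∉ P ∧ a ∉ Q)).card = s.card := by
  simp only [Finset.card_filter]
  rw [← Finset.sum_add_distrib, ← Finset.sum_add_distrib, Finset.card_eq_sum_ones]
  apply Finset.sum_congr rfl
  intro a _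
  have : a ∈ P → a ∉ Q := fun h' => Set.disjoint_left.1 h h'
  by_cases h1 : a ∈ P <;> by_cases h2 : a ∈ Q <;> simp_all

lemma cnt {r : ℕ} (T : BT) : ∀ y, y ∈ pw (AU r) T → T.size ≤ (lab y).card := by
  induction T with
  | leaf =>
    rintro y ⟨a, ha⟩
    have := ha (.inl a)
    simp only [RR, if_true] at this
    exact Finset.card_pos.2 ⟨a, by simpa [lab] using this⟩
  | node l r' ihl ihr =>
    intro y hy
    obtain ⟨P, Q, hd, h1, h2, -⟩ := split hy
    have a1 := ihl _ h1
    have a2 := ihr _ h2
    rw [lab_cut] at a1 a2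
    have := card_split (lab y) hd
    simp only [BT.size]; omega

lemma tsplit {r : ℕ} {l r' : BT} {y : Bk r × Fin 3 → Fin 3} (hy : y ∈ pw (AU r) (.node l r'))
    (ht : (lab y).card = (BT.node l r').size) :
    ∃ P Q : Set (Fin r), Disjoint P Q ∧ cut y P ∈ pw (AU r) l ∧ cut y Q ∈ pw (AU r) r' ∧
      ((lab y).filter (· ∈ P)).card = l.size ∧ ((lab y).filter (· ∈ Q)).card = r'.size ∧
      (∀ a ∈ lab y, a ∈ P ∨ a ∈ Q) ∧
      ∀ t, gad y t ∈ box {z | cut (upd y t z) P ∈ pw (AU r) l}
        {z | cut (upd y t z) Q ∈ pw (AU r) r'} := by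
  obtain ⟨P, Q, hd, h1, h2, h3⟩ := split hy
  have a1 := cnt _ _ h1
  have a2 := cnt _ _ h2
  rw [lab_cut] at a1 a2
  have := card_split (lab y) hd
  simp only [BT.size] at ht
  refine ⟨P, Q, hd, h1, h2, by omega, by omega, ?_, h3⟩
  intro a ha
  by_contra hn
  have : 0 < ((lab y).filter (fun a => a ∉ P ∧ a ∉ Q)).card :=
    Finset.card_pos.2 ⟨a, Finset.mem_filter.2 ⟨ha, not_or.1 hn⟩⟩
  omega

lemma tight1 {r : ℕ} (T : BT) : ∀ y, y ∈ pw (AU r) T → (lab y).card = T.size →
    ∀ a ∈ lab y, ∀ t, gad y t ∈ role t.1 t.2.1 t.2.2 a := by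
  induction T with
  | leaf =>
    rintro y ⟨b, hb⟩ hc a ha t
    have h1 := hb (.inl b)
    simp only [RR, if_true] at h1
    have hb' : b ∈ lab y := by simpa [lab] using h1
    have : a = b := Finset.card_le_one.1 hc.le a ha b hb'
    subst this
    exact hb (.inr t)
  | node l r' ihl ihr =>
    intro y hy hc a ha t
    obtain ⟨P, Q, hd, h1, h2, c1, c2, hpq, -⟩ := tsplit hy hc
    rcases hpq a ha with h | h
    · exact ihl _ h1 (by rw [lab_cut, c1]) a (by rw [lab_cut]; exact Finset.mem_filter.2 ⟨ha, h⟩) t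
    · exact ihr _ h2 (by rw [lab_cut, c2]) a (by rw [lab_cut]; exact Finset.mem_filter.2 ⟨ha, h⟩) t

lemma sub1 {r : ℕ} (T : BT) (y : Bk r × Fin 3 → Fin 3) (P : Set (Fin r))
    (c : ((lab y).filter (· ∈ P)).card = T.size) (a : Fin r) (ha : a ∈ lab y) (hp : a ∈ P)
    (t : Fin r × Fin r × Fin r) :
    {z | cut (upd y t z) P ∈ pw (AU r) T} ⊆ role t.1 t.2.1 t.2.2 a := by
  intro z hz
  have := tight1 T _ hz (by rw [lab_cut, lab_upd, c]) a
    (by rw [lab_cut, lab_upd]; exact Finset.mem_filter.2 ⟨ha, hp⟩) t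
  rwa [gad_cut, gad_upd] at this

lemma tight2 {r : ℕ} (T : BT) : ∀ y, y ∈ pw (AU r) T → (lab y).card = T.size →
    ∀ a ∈ lab y, ∀ b ∈ lab y, a ≠ b → ∀ t,
      gad y t ∈ box (role t.1 t.2.1 t.2.2 a) (role t.1 t.2.1 t.2.2 b) := by
  induction T with
  | leaf =>
    intro y _ hc a ha b hb hab
    exact absurd (Finset.card_le_one.1 hc.le a ha b hb) hab
  | node l r' ihl ihr =>
    intro y hy hc a ha b hb hab t
    obtain ⟨P, Q, hd, h1, h2, c1, c2, hpq, h3⟩ := tsplit hy hc
    rcases hpq a ha with h | h <;> rcases hpq b hb with h' | h'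
    · exact ihl _ h1 (by rw [lab_cut, c1]) a (by rw [lab_cut]; exact Finset.mem_filter.2 ⟨ha, h⟩)
        b (by rw [lab_cut]; exact Finset.mem_filter.2 ⟨hb, h'⟩) hab t
    · exact box_mono (sub1 l y P c1 a ha h t) (sub1 r' y Q c2 b hb h' t) (h3 t)
    · exact box_comm (box_mono (sub1 l y P c1 b hb h' t) (sub1 r' y Q c2 a ha h t) (h3 t))
    · exact ihr _ h2 (by rw [lab_cut, c2]) a (by rw [lab_cut]; exact Finset.mem_filter.2 ⟨ha, h⟩)
        b (by rw [lab_cut]; exact Finset.mem_filter.2 ⟨hb, h'⟩) hab t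

lemma sub2 {r : ℕ} (T : BT) (y : Bk r × Fin 3 → Fin 3) (P : Set (Fin r))
    (c : ((lab y).filter (· ∈ P)).card = T.size) (a : Fin r) (ha : a ∈ lab y) (hp : a ∈ P)
    (b : Fin r) (hb : b ∈ lab y) (hp' : b ∈ P) (hab : a ≠ b)
    (t : Fin r × Fin r × Fin r) :
    {z | cut (upd y t z) P ∈ pw (AU r) T} ⊆
      box (role t.1 t.2.1 t.2.2 a) (role t.1 t.2.1 t.2.2 b) := by
  intro z hz
  have := tight2 T _ hz (by rw [lab_cut, lab_upd, c]) a
    (by rw [lab_cut, lab_upd]; exact Finset.mem_filter.2 ⟨ha, hp⟩) b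
    (by rw [lab_cut, lab_upd]; exact Finset.mem_filter.2 ⟨hb, hp'⟩) hab t
  rwa [gad_cut, gad_upd] at this

/-- two labels forming a cherry over a third are not separated at the root -/
lemma nosep {r : ℕ} {l r' : BT} {y : Bk r × Fin 3 → Fin 3} {P Q : Set (Fin r)}
    (c1 : ((lab y).filter (· ∈ P)).card = l.size) (c2 : ((lab y).filter (· ∈ Q)).card = r'.size)
    (hpq : ∀ a ∈ lab y, a ∈ P ∨ a ∈ Q)
    (h3 : ∀ t, gad y t ∈ box {z | cut (upd y t z) P ∈ pw (AU r) l}
        {z | cut (upd y t z) Q ∈ pw (AU r) r'})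
    (i j k : Fin r) (hi : i ∈ lab y) (hj : j ∈ lab y) (hk : k ∈ lab y) (hij : i ≠ j) (hik : i ≠ k)
    (hjk : j ≠ k) (hg : gad y (i, j, k) = gp) (hP : i ∈ P) (hQ : j ∈ Q) : False := by
  have h := h3 (i, j, k)
  rw [hg] at h
  have e1 : (i:ℕ) ≠ j := fun e => hij (Fin.ext e)
  have e2 : (i:ℕ) ≠ k := fun e => hik (Fin.ext e)
  have e3 : (j:ℕ) ≠ k := fun e => hjk (Fin.ext e)
  rcases hpq k hk with hk' | hk'
  · have := box_mono (sub2 l y P c1 i hi hP k hk hk' hik (i, j, k))
      (sub1 r' y Q c2 j hj hQ (i, j, k)) h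
    simp only [role1, role2 _ _ _ e1, role3 _ _ _ e2 e3] at this
    exact g_no1 this
  · have := box_mono (sub1 l y P c1 i hi hP (i, j, k))
      (sub2 r' y Q c2 j hj hQ k hk hk' hjk (i, j, k)) h
    simp only [role1, role2 _ _ _ e1, role3 _ _ _ e2 e3] at this
    exact g_no2 this

lemma card_rng {r : ℕ} (s : Finset (Fin r)) (n m : ℕ) (hm : n + m ≤ r)
    (h : ∀ a : Fin r, a ∈ s ↔ n ≤ a ∧ (a:ℕ) < n + m) : s.card = m := by
  have : s.map Fin.valEmbedding = Finset.Ico n (n + m) := by
    ext x
    simp only [Finset.mem_map, Fin.valEmbedding_apply, Finset.mem_Ico]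
    constructor
    · rintro ⟨a, ha, rfl⟩; exact (h a).1 ha
    · intro hx; exact ⟨⟨x, by omega⟩, (h _).2 hx, rfl⟩
  rw [← Finset.card_map Fin.valEmbedding, this]; simp

lemma unord {r : ℕ} (T0 : BT) : ∀ (T : BT) (n : ℕ) (y : Bk r × Fin 3 → Fin 3),
    n + T0.size ≤ r → T.size = T0.size → y ∈ pw (AU r) T →
    (∀ a : Fin r, a ∈ lab y ↔ n ≤ a ∧ (a:ℕ) < n + T0.size) →
    (∀ i j k : Fin r, trip T0 n i j k → gad y (i, j, k) = gp) → Iso T0 T := by
  induction T0 with
  | leaf => intro T n y _ hs _ _ _; rw [size_one hs]; exact Iso.leaf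
  | node l0 r0 ihl ihr =>
    intro T n y hn hs hy hl hg
    have p1 := size_pos l0; have p2 := size_pos r0
    cases T with
    | leaf => simp only [BT.size] at hs; omega
    | node l r' =>
      have q1 := size_pos l; have q2 := size_pos r'
      have hc := card_rng _ _ _ hn hl
      obtain ⟨P, Q, hd, h1, h2, c1, c2, hpq, h3⟩ := tsplit hy (by rw [hc, hs])
      simp only [BT.size] at hn hs hl
      have hdis : ∀ a, a ∈ P → a ∉ Q := fun a h' => Set.disjoint_left.1 hd h'
      -- same side labels are not separated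
      have sL : ∀ i j : Fin r, n ≤ i → (i:ℕ) < n + l0.size → n ≤ j → (j:ℕ) < n + l0.size →
          i ∈ P → j ∈ Q → False := by
        intro i j i1 i2 j1 j2 hP hQ
        have hij : i ≠ j := fun e => hdis i hP (e ▸ hQ)
        have e1 : (i:ℕ) ≠ j := fun e => hij (Fin.ext e)
        let k : Fin r := ⟨n + l0.size, by omega⟩
        exact nosep c1 c2 hpq h3 i j k ((hl i).2 (by omega)) ((hl j).2 (by omega))
          ((hl k).2 (by simp only [k]; omega)) hij
          (fun e => by have := congrArg Fin.val e; simp only [k] at this; omega)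
          (fun e => by have := congrArg Fin.val e; simp only [k] at this; omega)
          (hg i j k (Or.inl (by simp only [k]; omega))) hP hQ
      have sR : ∀ i j : Fin r, n + l0.size ≤ i → (i:ℕ) < n + l0.size + r0.size →
          n + l0.size ≤ j → (j:ℕ) < n + l0.size + r0.size → i ∈ P → j ∈ Q → False := by
        intro i j i1 i2 j1 j2 hP hQ
        have hij : i ≠ j := fun e => hdis i hP (e ▸ hQ)
        have e1 : (i:ℕ) ≠ j := fun e => hij (Fin.ext e)
        let k : Fin r := ⟨n, by omega⟩
        exact nosep c1 c2 hpq h3 i j k ((hl i).2 (by omega)) ((hl j).2 (by omega))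
          ((hl k).2 (by simp only [k]; omega)) hij
          (fun e => by have := congrArg Fin.val e; simp only [k] at this; omega)
          (fun e => by have := congrArg Fin.val e; simp only [k] at this; omega)
          (hg i j k (Or.inr (Or.inl (by simp only [k]; omega)))) hP hQ
      obtain ⟨u, hu⟩ := Finset.card_pos.1 (c1 ▸ q1)
      obtain ⟨v, hv⟩ := Finset.card_pos.1 (c2 ▸ q2)
      obtain ⟨hu1, hu2⟩ := Finset.mem_filter.1 hu
      obtain ⟨hv1, hv2⟩ := Finset.mem_filter.1 hv
      have hu3 := (hl u).1 hu1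
      have hv3 := (hl v).1 hv1
      by_cases hul : (u:ℕ) < n + l0.size
      · have hvr : n + l0.size ≤ v := by
          by_contra hh
          exact sL u v (by omega) hul (by omega) (by omega) hu2 hv2
        have eP : ∀ a : Fin r, a ∈ lab (cut y P) ↔ n ≤ a ∧ (a:ℕ) < n + l0.size := by
          intro a
          rw [lab_cut, Finset.mem_filter, hl]
          constructor
          · rintro ⟨a1, a2⟩
            refine ⟨a1.1, ?_⟩
            by_contra hh
            exact sR a v (by omega) (by omega) hvr (by omega) a2 hv2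
          · intro a1
            refine ⟨by omega, ?_⟩
            rcases hpq a ((hl a).2 (by omega)) with h | h
            · exact h
            · exact (sL u a (by omega) hul a1.1 a1.2 hu2 h).elim
        have eQ : ∀ a : Fin r, a ∈ lab (cut y Q) ↔
            n + l0.size ≤ a ∧ (a:ℕ) < n + l0.size + r0.size := by
          intro a
          rw [lab_cut, Finset.mem_filter, hl]
          constructor
          · rintro ⟨a1, a2⟩
            refine ⟨?_, by omega⟩
            by_contra hh
            exact sL u a (by omega) hul (by omega) (by omega) hu2 a2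
          · intro a1
            refine ⟨by omega, ?_⟩
            rcases hpq a ((hl a).2 (by omega)) with h | h
            · exact (sR a v a1.1 a1.2 hvr (by omega) h hv2).elim
            · exact h
        have s1 := card_rng _ _ _ (by omega) eP
        have s2 := card_rng _ _ _ (by omega) eQ
        rw [lab_cut] at s1 s2
        exact Iso.keep
          (ihl l n _ (by omega) (by omega) h1 eP
            (fun i j k ht => hg i j k (Or.inr (Or.inr (Or.inl ht)))))
          (ihr r' (n + l0.size) _ (by omega) (by omega) h2 eQ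
            (fun i j k ht => hg i j k (Or.inr (Or.inr (Or.inr ht)))))
      · have hvl : (v:ℕ) < n + l0.size := by
          by_contra hh
          exact sR u v (by omega) (by omega) (by omega) (by omega) hu2 hv2
        have eQ : ∀ a : Fin r, a ∈ lab (cut y Q) ↔ n ≤ a ∧ (a:ℕ) < n + l0.size := by
          intro a
          rw [lab_cut, Finset.mem_filter, hl]
          constructor
          · rintro ⟨a1, a2⟩
            refine ⟨a1.1, ?_⟩
            by_contra hh
            exact sR u a (by omega) (by omega) (by omega) (by omega) hu2 a2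
          · intro a1
            refine ⟨by omega, ?_⟩
            rcases hpq a ((hl a).2 (by omega)) with h | h
            · exact (sL a v a1.1 a1.2 (by omega) hvl h hv2).elim
            · exact h
        have eP : ∀ a : Fin r, a ∈ lab (cut y P) ↔
            n + l0.size ≤ a ∧ (a:ℕ) < n + l0.size + r0.size := by
          intro a
          rw [lab_cut, Finset.mem_filter, hl]
          constructor
          · rintro ⟨a1, a2⟩
            refine ⟨?_, by omega⟩
            by_contra hh
            exact sL a v (by omega) (by omega) (by omega) hvl a2 hv2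
          · intro a1
            refine ⟨by omega, ?_⟩
            rcases hpq a ((hl a).2 (by omega)) with h | h
            · exact h
            · exact (sR u a (by omega) (by omega) a1.1 a1.2 hu2 h).elim
        have s1 := card_rng _ _ _ (by omega) eP
        have s2 := card_rng _ _ _ (by omega) eQ
        rw [lab_cut] at s1 s2
        exact Iso.swap
          (ihl r' n _ (by omega) (by omega) h2 eQ
            (fun i j k ht => hg i j k (Or.inr (Or.inr (Or.inl ht)))))
          (ihr l (n + l0.size) _ (by omega) (by omega) h1 eP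
            (fun i j k ht => hg i j k (Or.inr (Or.inr (Or.inr ht)))))

theorem unordered (r : ℕ) (T T' : BT) (h1 : T.size = r) (h2 : T'.size = r)
    (h : pw (AU r) T = pw (AU r) T') : Iso T T' := by
  have hx : xT r T ∈ pw (AU r) T := ev_sub_pw (AA r) (AU r) T 0
    (fun a _ a2 y hy => ⟨⟨a, by omega⟩, hy⟩) (xT_mem r T)
  rw [h] at hx
  apply unord T T' 0 (xT r T) (by omega) (by omega) hx
  · intro a
    have := a.2
    simp only [lab, xT, Finset.mem_filter, Finset.mem_univ, true_and, true_iff]
    omega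
  · intro i j k ht
    funext c
    simp [gad, xT, ht]

end Pool.Agent.Lead.Br
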