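import Mathlib

set_option autoImplicit false

namespace Pool.Agent.Lead.Br

/-- The binary BKR product of `A, B ⊆ S^ι`: points `x` with disjoint coordinate sets `K, L`
such that `[x]_K ⊆ A` and `[x]_L ⊆ B`. -/
def box {ι S : Type} (A B : Set (ι → S)) : Set (ι → S) :=
  {x | ∃ K L : Set ι, Disjoint K L ∧ (∀ y : ι → S, (∀ i ∈ K, y i = x i) → y ∈ A) ∧
    (∀ y : ι → S, (∀ i ∈ L, y i = x i) → y ∈ B)}

/-- Bracketings: full binary trees. -/
inductive BT : Type
  | leaf : BT
  | node : BT → BT → BT

/-- Number of leaves (factors). -/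
def BT.size : BT → ℕ
  | .leaf => 1
  | .node l r => l.size + r.size

/-- Value of a bracketing on the word `A n, A (n+1), …` (factors kept in this order). -/
def ev {ι S : Type} (A : ℕ → Set (ι → S)) : BT → ℕ → Set (ι → S)
  | .leaf, n => A n
  | .node l r, n => box (ev A l n) (ev A r (n + l.size))

/-- Value of a bracketing with every leaf labelled `A`. -/
def pw {ι S : Type} (A : Set (ι → S)) : BT → Set (ι → S)
  | .leaf => A
  | .node l r => box (pw A l) (pw A r)

/-- Equivalence of bracketings: obtained from each other by swapping subtrees at some nodes. -/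
inductive Iso : BT → BT → Prop
  | leaf : Iso .leaf .leaf
  | keep {l r l' r' : BT} : Iso l l' → Iso r r' → Iso (.node l r) (.node l' r')
  | swap {l r l' r' : BT} : Iso l r' → Iso r l' → Iso (.node l r) (.node l' r')

/-- The simultaneous `r`-fold BKR product of `A 0, …, A (r-1)`. -/
def simul {ι S : Type} (r : ℕ) (A : ℕ → Set (ι → S)) : Set (ι → S) :=
  {x | ∃ K : Fin r → Set ι, (∀ a b, a ≠ b → Disjoint (K a) (K b)) ∧
    ∀ a : Fin r, ∀ y : ι → S, (∀ i ∈ K a, y i = x i) → y ∈ A a}

end Pool.Agent.Lead.Br
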