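import Mathlib

set_option autoImplicit false

open Set Topology Filter

namespace Pool.Agent.CC

abbrev Bt : Type := (n : ℕ) × Fin (n + 1)

open Classical in
noncomputable def dens (A : Set Bt) (n : ℕ) : ℝ :=
  (∑ j : Fin (n + 1), if (⟨n, j⟩ : Bt) ∈ A then (1 : ℝ) else 0) / (n + 1)

theorem dens_nonneg (A : Set Bt) (n : ℕ) : 0 ≤ dens A n := by
  unfold dens
  refine div_nonneg (Finset.sum_nonneg fun j _ => ?_) (by positivity)
  split_ifs <;> norm_num

theorem dens_le (A B C : Set Bt) (n : ℕ)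
    (h : ∀ j : Fin (n + 1), (⟨n, j⟩ : Bt) ∈ A → (⟨n, j⟩ : Bt) ∈ B ∨ (⟨n, j⟩ : Bt) ∈ C) :
    dens A n ≤ dens B n + dens C n := by
  unfold dens
  rw [← add_div, ← Finset.sum_add_distrib]
  refine div_le_div_of_nonneg_right (Finset.sum_le_sum fun j _ => ?_) (by positivity)
  have := h j
  split_ifs <;> simp_all

theorem dens_empty (n : ℕ) : dens ∅ n = 0 := by simp [dens]

def Small (A : Set Bt) : Prop := Tendsto (dens A) atTop (𝓝 0)

theorem small_empty : Small ∅ := by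
  unfold Small
  rw [show dens ∅ = fun _ => 0 from funext dens_empty]
  exact tendsto_const_nhds

theorem Small.union {A B : Set Bt} (hA : Small A) (hB : Small B) : Small (A ∪ B) := by
  refine squeeze_zero (dens_nonneg _) (fun n => dens_le _ A B n fun j h => h) ?_
  simpa using hA.add hB

theorem small_biUnion {ι : Type} {I : Set ι} (hI : I.Finite) (A : ι → Set Bt)
    (h : ∀ i ∈ I, Small (A i)) : Small (⋃ i ∈ I, A i) := by
  induction I, hI using Set.Finite.induction_on with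
  | empty => simpa using small_empty
  | insert _ _ ih =>
    rw [biUnion_insert]
    exact (h _ (mem_insert _ _)).union (ih fun i hi => h i (mem_insert_of_mem _ hi))

theorem small_sel (A : Set Bt) (h : ∀ a ∈ A, ∀ b ∈ A, a.1 = b.1 → a = b) : Small A := by
  classical
  refine squeeze_zero (dens_nonneg _) (fun n => ?_) tendsto_one_div_add_atTop_nhds_zero_nat
  unfold dens
  refine div_le_div_of_nonneg_right ?_ (by positivity)
  rw [Finset.sum_boole]
  have : (Finset.univ.filter fun j : Fin (n + 1) => (⟨n, j⟩ : Bt) ∈ A).card ≤ 1 := by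
    refine Finset.card_le_one.2 fun a ha b hb => ?_
    have := h _ (Finset.mem_filter.1 ha).2 _ (Finset.mem_filter.1 hb).2 rfl
    simpa using this
  exact_mod_cast this

theorem blocks_fin (m : ℕ) : {b : Bt | b.1 < m}.Finite := by
  refine ((finite_Iio m).biUnion fun n _ =>
    finite_range fun j : Fin (n + 1) => (⟨n, j⟩ : Bt)).subset fun b hb => ?_
  exact mem_biUnion hb ⟨b.2, rfl⟩

theorem diag (a : ℕ → ℕ → ℝ) (h0 : ∀ k n, 0 ≤ a k n) (h : ∀ k, Tendsto (a k) atTop (𝓝 0)) :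
    ∃ k : ℕ → ℕ, Tendsto k atTop atTop ∧ Tendsto (fun n => a (k n) n) atTop (𝓝 0) := by
  classical
  have key : ∀ K : ℕ, ∀ᶠ n in atTop,
      K ≤ Nat.findGreatest (fun k => a k n < 1 / ((k : ℝ) + 1)) n ∧
      a (Nat.findGreatest (fun k => a k n < 1 / ((k : ℝ) + 1)) n) n <
        1 / ((Nat.findGreatest (fun k => a k n < 1 / ((k : ℝ) + 1)) n : ℝ) + 1) := fun K => by
    have h1 : ∀ᶠ n in atTop, a K n < 1 / ((K : ℝ) + 1) :=
      (h K).eventually (gt_mem_nhds (by positivity))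
    filter_upwards [h1, eventually_ge_atTop K] with n hn hK
    exact ⟨Nat.le_findGreatest hK hn,
      Nat.findGreatest_spec (P := fun k => a k n < 1 / ((k : ℝ) + 1)) hK hn⟩
  have ht : Tendsto (fun n => Nat.findGreatest (fun k => a k n < 1 / ((k : ℝ) + 1)) n)
      atTop atTop := tendsto_atTop.2 fun K => (key K).mono fun n hn => hn.1
  refine ⟨_, ht, ?_⟩
  refine squeeze_zero' (Eventually.of_forall fun n => h0 _ _) ((key 0).mono fun n hn => hn.2.le) ?_
  exact tendsto_one_div_add_atTop_nhds_zero_nat.comp ht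

abbrev Z0 : Type := {A : Set Bt // Small A}

theorem pideal (A : ℕ → Z0) : ∃ B : Z0, ∀ k, ((A k).1 \ B.1).Finite := by
  obtain ⟨k, hk, hk'⟩ := diag (fun k n => dens (⋃ i ∈ Iic k, (A i).1) n)
    (fun _ _ => dens_nonneg _ _) fun k => small_biUnion (finite_Iic k) _ fun i _ => (A i).2
  refine ⟨⟨{b | b ∈ ⋃ i ∈ Iic (k b.1), (A i).1}, ?_⟩, fun i => ?_⟩
  · refine squeeze_zero (dens_nonneg _) (fun n => ?_) hk'
    have := dens_le {b : Bt | b ∈ ⋃ i ∈ Iic (k b.1), (A i).1} (⋃ i ∈ Iic (k n), (A i).1) ∅ n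
      fun j h => Or.inl h
    rwa [dens_empty, add_zero] at this
  · obtain ⟨m, hm⟩ := eventually_atTop.1 (tendsto_atTop.1 hk i)
    refine (blocks_fin m).subset fun b hb => ?_
    by_contra hb'
    exact hb.2 (mem_biUnion (hm b.1 (not_lt.1 hb')) hb.1)

theorem avoid {U : Set Bt} (hU : Small U) : ∃ A : Z0, (A.1 \ U).Infinite := by
  classical
  obtain ⟨m, hm⟩ := eventually_atTop.1 (hU.eventually (gt_mem_nhds one_pos))
  have h1 : ∀ n, ∃ j : Fin (n + m + 1), (⟨n + m, j⟩ : Bt) ∉ U := fun n => by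
    by_contra h
    push Not at h
    have := hm (n + m) (Nat.le_add_left _ _)
    unfold dens at this
    simp only [h, if_true, Finset.sum_const, Finset.card_univ, Fintype.card_fin, nsmul_eq_mul,
      mul_one] at this
    rw [div_lt_one (by positivity)] at this
    push_cast at this
    linarith
  choose j hj using h1
  have hinj : Function.Injective fun n => (⟨n + m, j n⟩ : Bt) := fun a b h => by
    have := congrArg Sigma.fst h
    simpa using this
  refine ⟨⟨range fun n => (⟨n + m, j n⟩ : Bt), small_sel _ ?_⟩, ?_⟩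
  · rintro _ ⟨a, rfl⟩ _ ⟨b, rfl⟩ h
    have : a = b := by simpa using h
    rw [this]
  · refine (infinite_range_of_injective hinj).mono ?_
    rintro _ ⟨n, rfl⟩
    exact ⟨⟨n, rfl⟩, hj n⟩

abbrev Cube : Type := Z0 → Bool

def KA (A : Z0) : Set Cube := {x | ∀ A' : Z0, (A.1 \ A'.1).Finite → x A' = true}

theorem KA_closed (A : Z0) : IsClosed (KA A) := by
  have : KA A = ⋂ A' : Z0, ⋂ _ : (A.1 \ A'.1).Finite, {x : Cube | x A' = true} := by
    ext x; simp [KA]
  rw [this]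
  exact isClosed_iInter fun A' => isClosed_iInter fun _ =>
    isClosed_eq (continuous_apply A') continuous_const

def X' : Set Cube := {x | ∃ A, x ∈ KA A}

theorem bdd (u : ℕ → Cube) : ∃ A, ∀ k, u k ∈ X' → u k ∈ KA A := by
  have : ∀ k, ∃ A, u k ∈ X' → u k ∈ KA A := fun k => by
    by_cases h : u k ∈ X'
    · exact ⟨h.choose, fun _ => h.choose_spec⟩
    · exact ⟨⟨∅, small_empty⟩, fun h' => absurd h' h⟩
  choose A hA using this
  obtain ⟨B, hB⟩ := pideal A
  refine ⟨B, fun k hk A' hA' => hA k hk A' (((hB k).union hA').subset fun b hb => ?_)⟩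
  by_cases h : b ∈ B.1
  · exact Or.inr ⟨h, hb.2⟩
  · exact Or.inl ⟨hb.1, h⟩

open Classical in
noncomputable def pt (b : Bt) : Cube := fun A => decide (b ∈ A.1)

def zero : Cube := fun _ => false

theorem nhds_cube {x : Cube} {V : Set Cube} (hV : V ∈ 𝓝 x) :
    ∃ I : Set Z0, I.Finite ∧ ∀ y : Cube, (∀ i ∈ I, y i = x i) → y ∈ V := by
  rw [nhds_pi, Filter.mem_pi] at hV
  obtain ⟨I, hI, t, ht, hs⟩ := hV
  exact ⟨I, hI, fun y hy => hs fun i hi => by rw [hy i hi]; exact mem_of_mem_nhds (ht i)⟩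

theorem zero_cl {V : Set Cube} (hV : V ∈ 𝓝 zero) : ∃ s ∈ X', s ∈ V := by
  classical
  obtain ⟨I, hI, h⟩ := nhds_cube hV
  obtain ⟨A, hA⟩ := avoid (small_biUnion hI (fun i : Z0 => i.1) fun i _ => i.2)
  refine ⟨fun A' => decide (A.1 \ A'.1).Finite, ⟨A, fun A' h => by simpa using h⟩, h _ ?_⟩
  intro i hi
  have : ¬ (A.1 \ i.1).Finite := fun h' =>
    hA (h'.subset fun b hb => ⟨hb.1, fun h => hb.2 (mem_biUnion hi h)⟩)
  simp [zero, this]

abbrev X : Type := {x : Cube // x ∈ X' ∨ ∃ b, x = pt b}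
abbrev S : Type := {x : Cube // x ∈ X' ∨ x = zero}

theorem X_ne_zero (x : X) : x.1 ≠ zero := by
  intro h
  rcases x.2 with ⟨A, hA⟩ | ⟨b, hb⟩
  · have := hA A (by simp)
    rw [h] at this
    simp [zero] at this
  · have := congrFun (hb.symm.trans h) ⟨{b}, small_sel _ fun a ha c hc _ => ha.trans hc.symm⟩
    simp [pt, zero] at this

theorem ulim (𝒰 : Ultrafilter ℕ) (u : ℕ → Cube) : ∃ x, Tendsto u 𝒰 (𝓝 x) := by
  obtain ⟨x, -, hx⟩ := isCompact_univ.ultrafilter_le_nhds (𝒰.map u) (by simp)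
  exact ⟨x, hx⟩

theorem ulim_X' (𝒰 : Ultrafilter ℕ) (u : ℕ → Cube) (hu : ∀ᶠ k in 𝒰, u k ∈ X') :
    ∃ x ∈ X', Tendsto u 𝒰 (𝓝 x) := by
  obtain ⟨x, hx⟩ := ulim 𝒰 u
  obtain ⟨A, hA⟩ := bdd u
  exact ⟨x, ⟨A, (KA_closed A).mem_of_tendsto hx (hu.mono hA)⟩, hx⟩

theorem cluster_of_ultra {Y : Type} [TopologicalSpace Y] {u : ℕ → Y} {y : Y}
    (𝒰 : Ultrafilter ℕ) (h : (𝒰 : Filter ℕ) ≤ atTop) (hy : Tendsto u 𝒰 (𝓝 y)) :
    MapClusterPt y atTop u :=
  (hy.mapClusterPt).mono h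

theorem X_cc (u : ℕ → X) : ∃ x, MapClusterPt x atTop u := by
  by_cases h1 : ∃ᶠ k in atTop, (u k).1 ∈ X'
  · have := frequently_iff_neBot.1 h1
    obtain ⟨x, hx, hx'⟩ := ulim_X' (Ultrafilter.of (atTop ⊓ 𝓟 {k | (u k).1 ∈ X'}))
      (fun k => (u k).1) ((Ultrafilter.of_le _).trans inf_le_right (mem_principal_self _))
    exact ⟨⟨x, Or.inl hx⟩, cluster_of_ultra _ ((Ultrafilter.of_le _).trans inf_le_left)
      (tendsto_subtype_rng.2 hx')⟩
  have h2 : ∀ k, ∃ b, (u k).1 ∉ X' → (u k).1 = pt b := fun k => by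
    rcases (u k).2 with h | ⟨b, hb⟩
    · exact ⟨⟨0, 0⟩, fun h' => absurd h h'⟩
    · exact ⟨b, fun _ => hb⟩
  choose b hb using h2
  have h3 : ∀ᶠ k in atTop, (u k).1 = pt (b k) := (not_frequently.1 h1).mono hb
  by_cases h4 : ∃ c, ∃ᶠ k in atTop, b k = c
  · obtain ⟨c, hc⟩ := h4
    refine ⟨⟨pt c, Or.inr ⟨c, rfl⟩⟩, mapClusterPt_iff_frequently.2 fun V hV => ?_⟩
    refine (hc.and_eventually h3).mono fun k hk => ?_
    have : u k = ⟨pt c, Or.inr ⟨c, rfl⟩⟩ := Subtype.ext (by rw [hk.2, hk.1])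
    rw [this]; exact mem_of_mem_nhds hV
  have h5 : ∀ F : Set Bt, F.Finite → ∀ᶠ k in atTop, b k ∉ F := fun F hF => by
    have : ∀ᶠ k in atTop, ∀ c ∈ F, b k ≠ c :=
      (eventually_all_finite hF).2 fun c _ => not_frequently.1 fun h => h4 ⟨c, h⟩
    exact this.mono fun k hk h => hk _ h rfl
  let N : Set ℕ := {k | ∀ k' < k, (b k').1 ≠ (b k).1}
  have hN : ∃ᶠ k in atTop, k ∈ N := by
    classical
    refine frequently_atTop.2 fun m => ?_
    obtain ⟨M, hM⟩ := ((finite_Iio m).image fun k => (b k).1).bddAbove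
    obtain ⟨k, hk⟩ := (h5 _ (blocks_fin (M + 1))).exists
    have hex : ∃ k', (b k').1 = (b k).1 := ⟨k, rfl⟩
    refine ⟨Nat.find hex, ?_, fun k' hk' h => Nat.find_min hex hk' (h.trans (Nat.find_spec hex))⟩
    by_contra hlt
    have := hM ⟨_, not_le.1 hlt, Nat.find_spec hex⟩
    exact hk (Nat.lt_succ_of_le this)
  have := frequently_iff_neBot.1 hN
  let 𝒰 := Ultrafilter.of (atTop ⊓ 𝓟 {k | k ∈ N})
  have hU1 : (𝒰 : Filter ℕ) ≤ atTop := (Ultrafilter.of_le _).trans inf_le_left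
  have hU2 : ∀ᶠ k in (𝒰 : Filter ℕ), k ∈ N :=
    (Ultrafilter.of_le _).trans inf_le_right (mem_principal_self _)
  obtain ⟨x, hx⟩ := ulim 𝒰 fun k => (u k).1
  have hsel : Small (b '' N) := by
    refine small_sel _ ?_
    rintro _ ⟨k, hk, rfl⟩ _ ⟨k', hk', rfl⟩ h
    rcases lt_trichotomy k k' with h' | rfl | h'
    · exact absurd h (hk' k h')
    · rfl
    · exact absurd h.symm (hk k' h')
  refine ⟨⟨x, Or.inl ⟨⟨_, hsel⟩, fun A' hA' => ?_⟩⟩,
    cluster_of_ultra 𝒰 hU1 (tendsto_subtype_rng.2 hx)⟩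
  refine (isClosed_eq (continuous_apply A') continuous_const).mem_of_tendsto hx ?_
  filter_upwards [hU2, hU1 h3, hU1 (h5 _ hA')] with k h1 h2 h3
  show (u k).1 A' = true
  rw [h2]
  have : b k ∈ A'.1 := by
    by_contra h
    exact h3 ⟨⟨k, h1, rfl⟩, h⟩
  simp [pt, this]

theorem S_ulim (𝒰 : Ultrafilter ℕ) (s : ℕ → S) : ∃ x, Tendsto s 𝒰 (𝓝 x) := by
  by_cases h : ∀ᶠ k in (𝒰 : Filter ℕ), (s k).1 ∈ X'
  · obtain ⟨x, hx, hx'⟩ := ulim_X' 𝒰 (fun k => (s k).1) h
    exact ⟨⟨x, Or.inl hx⟩, tendsto_subtype_rng.2 hx'⟩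
  · refine ⟨⟨zero, Or.inr rfl⟩, tendsto_const_nhds.congr' ?_⟩
    refine (Ultrafilter.eventually_not.2 h).mono fun k hk => ?_
    exact Subtype.ext ((s k).2.resolve_left hk).symm

end Pool.Agent.CC
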