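import Mathlib

set_option autoImplicit false

open Set Topology

universe u

namespace Pool.Agent.LExt

/-- finite linear combinations of point evaluations -/
inductive FS {X : Type u} [TopologicalSpace X] : (C(X, ℝ) → ℝ) → Prop
  | ev (c : ℝ) (x : X) : FS fun f => c * f x
  | zero : FS fun _ => 0
  | add {φ ψ : C(X, ℝ) → ℝ} : FS φ → FS ψ → FS fun f => φ f + ψ f

section gen
variable {X Y : Type u} [TopologicalSpace X] [TopologicalSpace Y]

theorem FS.congr {φ ψ : C(X, ℝ) → ℝ} (h : FS φ) (e : ∀ f, ψ f = φ f) : FS ψ := by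
  rw [show ψ = φ from funext e]; exact h

theorem FS.eval (x : X) : FS fun f : C(X, ℝ) => f x := (FS.ev 1 x).congr fun f => by simp

theorem FS.smul {φ : C(X, ℝ) → ℝ} (h : FS φ) (a : ℝ) : FS fun f => a * φ f := by
  induction h with
  | ev c x => exact (FS.ev (a * c) x).congr fun f => by ring
  | zero => exact FS.zero.congr fun f => by simp
  | add _ _ h1 h2 => exact (h1.add h2).congr fun f => by ring

theorem FS.sub {φ ψ : C(X, ℝ) → ℝ} (h : FS φ) (h' : FS ψ) : FS fun f => φ f - ψ f :=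
  (h.add (h'.smul (-1))).congr fun f => by ring

theorem FS.sum {ι : Type} (s : Finset ι) {φ : ι → C(X, ℝ) → ℝ} (h : ∀ i ∈ s, FS (φ i)) :
    FS fun f => ∑ i ∈ s, φ i f := by
  classical
  induction s using Finset.induction_on with
  | empty => exact FS.zero.congr fun f => by simp
  | insert a s ha ih =>
    exact ((h a (Finset.mem_insert_self _ _)).add
      (ih fun i hi => h i (Finset.mem_insert_of_mem hi))).congr fun f => by
        rw [Finset.sum_insert ha]

theorem FS.precomp {φ : C(X, ℝ) → ℝ} (h : FS φ) (j : C(X, Y)) :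
    FS fun f : C(Y, ℝ) => φ (f.comp j) := by
  induction h with
  | ev c x => exact FS.ev c (j x)
  | zero => exact FS.zero
  | add _ _ h1 h2 => exact h1.add h2

theorem FS.lin {φ : C(X, ℝ) → ℝ} (h : FS φ) (a : ℝ) (f g : C(X, ℝ)) :
    φ (a • f + g) = a * φ f + φ g := by
  induction h with
  | ev c x => simp only [ContinuousMap.add_apply, ContinuousMap.smul_apply, smul_eq_mul]; ring
  | zero => simp
  | add _ _ h1 h2 => simp only [h1, h2]; ring

theorem FS.map_zero {φ : C(X, ℝ) → ℝ} (h : FS φ) : φ 0 = 0 := by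
  induction h with
  | ev c x => simp
  | zero => rfl
  | add _ _ h1 h2 => simp only [h1, h2]; ring

theorem FS.ucont {φ : C(X, ℝ) → ℝ} (h : FS φ) :
    UniformContinuous fun f : {f : X → ℝ // Continuous f} => φ ⟨f.1, f.2⟩ := by
  induction h with
  | ev c x =>
    exact (uniformContinuous_const_smul (M := ℝ) c).comp
      ((Pi.uniformContinuous_proj (fun _ : X => ℝ) x).comp uniformContinuous_subtype_val)
  | zero => exact uniformContinuous_const
  | add _ _ h1 h2 => exact h1.add h2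

theorem FS.cont {φ : C(X, ℝ) → ℝ} (h : FS φ) :
    @Continuous C(X, ℝ) ℝ
      (TopologicalSpace.induced (fun g : C(X, ℝ) => (g : X → ℝ)) inferInstance) inferInstance φ := by
  let _ : TopologicalSpace C(X, ℝ) :=
    TopologicalSpace.induced (fun g : C(X, ℝ) => (g : X → ℝ)) inferInstance
  have hev : ∀ x : X, Continuous fun g : C(X, ℝ) => g x := fun x =>
    (continuous_apply x).comp continuous_induced_dom
  induction h with
  | ev c x => exact continuous_const.mul (hev x)
  | zero => exact continuous_const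
  | add _ _ h1 h2 => exact h1.add h2

/-- every value of `Φ` is a finite combination of point evaluations -/
def Rep (Φ : C(X, ℝ) → C(Y, ℝ)) : Prop := ∀ y, FS fun f => Φ f y

theorem Rep.cont_fun {Φ : C(X, ℝ) → C(Y, ℝ)} (h : Rep Φ) :
    @Continuous C(X, ℝ) (Y → ℝ)
      (TopologicalSpace.induced (fun g : C(X, ℝ) => (g : X → ℝ)) inferInstance)
      inferInstance (fun g => ((Φ g : C(Y, ℝ)) : Y → ℝ)) :=
  @continuous_pi _ _ _ (TopologicalSpace.induced (fun g : C(X, ℝ) => (g : X → ℝ)) inferInstance)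
    _ _ fun y => (h y).cont

theorem Rep.cont_ind {Φ : C(X, ℝ) → C(Y, ℝ)} (h : Rep Φ) :
    @Continuous C(X, ℝ) C(Y, ℝ)
      (TopologicalSpace.induced (fun g : C(X, ℝ) => (g : X → ℝ)) inferInstance)
      (TopologicalSpace.induced (fun g : C(Y, ℝ) => (g : Y → ℝ)) inferInstance) Φ :=
  continuous_induced_rng.2 h.cont_fun

theorem Rep.lin {Φ : C(X, ℝ) → C(Y, ℝ)} (h : Rep Φ) (a : ℝ) (f g : C(X, ℝ)) :
    Φ (a • f + g) = a • Φ f + Φ g := by
  ext y
  exact (h y).lin a f g

/-- linear equivalence from a represented bijection -/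
def toLin (E : C(X, ℝ) ≃ C(Y, ℝ)) (h : Rep E) : C(X, ℝ) ≃ₗ[ℝ] C(Y, ℝ) where
  toEquiv := E
  map_add' f g := by
    have := h.lin 1 f g
    simpa using this
  map_smul' a f := by
    have h0 : E 0 = 0 := by ext y; exact (h y).map_zero
    have := h.lin a f 0
    simpa [h0] using this

/-- uniform equivalence of the subtypes -/
def toUnif (E : C(X, ℝ) ≃ C(Y, ℝ)) (h : Rep E) (h' : Rep E.symm) :
    UniformEquiv {f : X → ℝ // Continuous f} {g : Y → ℝ // Continuous g} where
  toFun f := ⟨E ⟨f.1, f.2⟩, (E ⟨f.1, f.2⟩).continuous⟩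
  invFun g := ⟨E.symm ⟨g.1, g.2⟩, (E.symm ⟨g.1, g.2⟩).continuous⟩
  left_inv f := by
    apply Subtype.ext
    show ⇑(E.symm (E ⟨f.1, f.2⟩)) = f.1
    rw [E.symm_apply_apply]; rfl
  right_inv g := by
    apply Subtype.ext
    show ⇑(E (E.symm ⟨g.1, g.2⟩)) = g.1
    rw [E.apply_symm_apply]; rfl
  uniformContinuous_toFun :=
    UniformContinuous.subtype_mk (uniformContinuous_pi.2 fun y => (h y).ucont) _
  uniformContinuous_invFun :=
    UniformContinuous.subtype_mk (uniformContinuous_pi.2 fun x => (h' x).ucont) _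

theorem toUnif_lin (E : C(X, ℝ) ≃ C(Y, ℝ)) (h : Rep E) (h' : Rep E.symm) (a : ℝ)
    (f g k : {f : X → ℝ // Continuous f}) (hk : k.1 = a • f.1 + g.1) :
    ((toUnif E h h').toHomeomorph k).1 =
      a • ((toUnif E h h').toHomeomorph f).1 + ((toUnif E h h').toHomeomorph g).1 := by
  show ⇑(E ⟨k.1, k.2⟩) = a • ⇑(E ⟨f.1, f.2⟩) + ⇑(E ⟨g.1, g.2⟩)
  have : (⟨k.1, k.2⟩ : C(X, ℝ)) = a • (⟨f.1, f.2⟩ : C(X, ℝ)) + ⟨g.1, g.2⟩ := by
    ext x; exact congrFun hk x
  rw [this, h.lin]; rfl

/-- sums of Tychonoff spaces are Tychonoff -/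
theorem t35_sum {X Y : Type*} [TopologicalSpace X] [TopologicalSpace Y] [T35Space X]
    [T35Space Y] : T35Space (X ⊕ Y) := by
  have hcr : CompletelyRegularSpace (X ⊕ Y) := by
    refine ⟨fun x C hC hx => ?_⟩
    rcases x with x | y
    · obtain ⟨f, hf, h0, h1⟩ := CompletelyRegularSpace.completely_regular x (Sum.inl ⁻¹' C)
        (hC.preimage continuous_inl) hx
      refine ⟨Sum.elim f (fun _ => 1), hf.sumElim continuous_const, h0, ?_⟩
      rintro (a | a) ha
      · exact h1 ha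
      · rfl
    · obtain ⟨f, hf, h0, h1⟩ := CompletelyRegularSpace.completely_regular y (Sum.inr ⁻¹' C)
        (hC.preimage continuous_inr) hx
      refine ⟨Sum.elim (fun _ => 1) f, continuous_const.sumElim hf, h0, ?_⟩
      rintro (a | a) ha
      · rfl
      · exact h1 ha
  exact {}

end gen

/-- a subspace with a pointwise continuous linear extender -/
structure Data (K Z : Type u) [TopologicalSpace K] [TopologicalSpace Z] where
  i : C(K, Z)
  e : C(K, ℝ) → C(Z, ℝ)
  ei : ∀ g k, e g (i k) = g k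
  rep : Rep e
  k0 : K

variable {K Z : Type u} [TopologicalSpace K] [TopologicalSpace Z] (D : Data K Z)

namespace Data

abbrev C0 : Type u := {f : C(Z, ℝ) // ∀ k, f (D.i k) = 0}
def q (z : Z) : D.C0 → ℝ := fun f => f.1 z
abbrev P : Type u := Set.range D.q

theorem cont_q : Continuous D.q := continuous_pi fun f => f.1.continuous

def qq : C(Z, D.P) := ⟨fun z => ⟨D.q z, mem_range_self z⟩, D.cont_q.subtype_mk _⟩

theorem qq_surj (y : D.P) : ∃ z, D.qq z = y := by
  obtain ⟨y, z, rfl⟩ := y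
  exact ⟨z, rfl⟩

def star : D.P := D.qq (D.i D.k0)

theorem star_val (f : D.C0) : D.star.1 f = 0 := f.2 _

theorem qq_i (k : K) : D.qq (D.i k) = D.star := by
  apply Subtype.ext
  funext f
  show f.1 _ = f.1 _
  rw [f.2, f.2]

def j1 : C(Z, Z ⊕ PUnit.{u + 1}) := ⟨Sum.inl, continuous_inl⟩
def j2 : C(K, K ⊕ D.P) := ⟨Sum.inl, continuous_inl⟩

def dif (f : C(Z ⊕ PUnit.{u + 1}, ℝ)) : D.C0 :=
  ⟨f.comp j1 - D.e (f.comp (j1.comp D.i)), fun k => by
    rw [ContinuousMap.sub_apply, D.ei]; exact sub_self _⟩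

def T (f : C(Z ⊕ PUnit.{u + 1}, ℝ)) : C(K ⊕ D.P, ℝ) :=
  ⟨Sum.elim (fun k => f (Sum.inl (D.i k))) (fun y => y.1 (D.dif f) + f (Sum.inr PUnit.unit)),
    Continuous.sumElim (by fun_prop)
      (((continuous_apply _).comp continuous_subtype_val).add continuous_const)⟩

def S (g : C(K ⊕ D.P, ℝ)) : C(Z ⊕ PUnit.{u + 1}, ℝ) :=
  ⟨Sum.elim (fun z => D.e (g.comp D.j2) z - g (Sum.inr D.star) + g (Sum.inr (D.qq z)))
      (fun _ => g (Sum.inr D.star)),
    Continuous.sumElim (by fun_prop) continuous_const⟩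

theorem T_inl (f : C(Z ⊕ PUnit.{u + 1}, ℝ)) (k : K) :
    D.T f (Sum.inl k) = f (Sum.inl (D.i k)) := rfl

theorem T_inr (f : C(Z ⊕ PUnit.{u + 1}, ℝ)) (z : Z) :
    D.T f (Sum.inr (D.qq z)) =
      f (Sum.inl z) - D.e (f.comp (j1.comp D.i)) z + f (Sum.inr PUnit.unit) := rfl

theorem T_star (f : C(Z ⊕ PUnit.{u + 1}, ℝ)) :
    D.T f (Sum.inr D.star) = f (Sum.inr PUnit.unit) := by
  show D.star.1 (D.dif f) + _ = _
  rw [star_val, zero_add]

theorem S_inl (g : C(K ⊕ D.P, ℝ)) (z : Z) :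
    D.S g (Sum.inl z) =
      D.e (g.comp D.j2) z - g (Sum.inr D.star) + g (Sum.inr (D.qq z)) := rfl

theorem S_inr (g : C(K ⊕ D.P, ℝ)) (v : PUnit.{u + 1}) :
    D.S g (Sum.inr v) = g (Sum.inr D.star) := rfl

def E : C(Z ⊕ PUnit.{u + 1}, ℝ) ≃ C(K ⊕ D.P, ℝ) where
  toFun := D.T
  invFun := D.S
  left_inv f := by
    ext x
    rcases x with z | v
    · rw [S_inl, T_star, T_inr]
      have : (D.T f).comp D.j2 = f.comp (j1.comp D.i) := by ext k; rfl
      rw [this]; ring
    · rw [S_inr, T_star]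
  right_inv g := by
    have key : (D.S g).comp (j1.comp D.i) = g.comp D.j2 := by
      ext k
      show D.S g (Sum.inl (D.i k)) = _
      rw [S_inl, D.ei, qq_i]; ring
    ext y
    rcases y with k | y
    · exact congrArg (fun f : C(K, ℝ) => f k) key
    · obtain ⟨z, rfl⟩ := D.qq_surj y
      rw [T_inr, key, S_inl, S_inr]; ring

theorem E_rep : Rep D.E := by
  rintro (k | y)
  · exact FS.eval _
  · obtain ⟨z, rfl⟩ := D.qq_surj y
    exact (((FS.eval _).sub ((D.rep z).precomp (j1.comp D.i))).add (FS.eval _)).congr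
      fun f => D.T_inr f z

theorem Es_rep : Rep D.E.symm := by
  rintro (z | v)
  · exact ((((D.rep z).precomp D.j2).sub (FS.eval _)).add (FS.eval _)).congr
      fun g => D.S_inl g z
  · exact FS.eval _

end Data

end Pool.Agent.LExt
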