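import Pool.Agent.Lead.CC1
import Pool.Agent.Lead.LExt

set_option autoImplicit false

open Set Topology Filter

namespace Pool.Agent.CC

noncomputable def jn (b : Bt) (s : S) : X :=
  ⟨fun A => pt b A || s.1 A, by
    rcases s.2 with ⟨A, hA⟩ | h
    · exact Or.inl ⟨A, fun A' h => by simp [hA A' h]⟩
    · exact Or.inr ⟨b, by funext A; simp [h, zero]⟩⟩

theorem cont_jn (b : Bt) : Continuous (jn b) := by
  refine Continuous.subtype_mk (continuous_pi fun A => ?_) _
  exact (continuous_of_discreteTopology (f := fun c : Bool => pt b A || c)).comp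
    ((continuous_apply A).comp continuous_subtype_val)

noncomputable def avg (g : C(X, ℝ)) (n : ℕ) (s : S) : ℝ :=
  (1 / ((n : ℝ) + 1)) * ∑ j : Fin (n + 1), g (jn ⟨n, j⟩ s)

def Y : Type := X ⊕ (ℕ × S)

noncomputable def emb : Y → (C(X, ℝ) → ℝ) × OnePoint ℕ × Cube :=
  Sum.elim (fun x => (fun g => g x, OnePoint.infty, x.1))
    (fun p => (fun g => avg g p.1 p.2, (p.1 : OnePoint ℕ), p.2.1))

noncomputable instance : TopologicalSpace Y := TopologicalSpace.induced emb inferInstance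

theorem emb_inj : Function.Injective emb := by
  rintro (x | p) (y | q) h
  · exact congrArg Sum.inl (Subtype.ext (congrArg (fun t => t.2.2) h))
  · exact absurd (congrArg (fun t => t.2.1) h) (OnePoint.infty_ne_coe _)
  · exact absurd (congrArg (fun t => t.2.1) h) (OnePoint.coe_ne_infty _)
  · refine congrArg Sum.inr (Prod.ext ?_ (Subtype.ext (congrArg (fun t => t.2.2) h)))
    exact OnePoint.coe_injective (congrArg (fun t => t.2.1) h)

theorem emb_emb : IsEmbedding emb := ⟨⟨rfl⟩, emb_inj⟩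

instance : T35Space Y := emb_emb.t35Space

def ii (x : X) : Y := Sum.inl x
def w (n : ℕ) (s : S) : Y := Sum.inr (n, s)

theorem cont_ii : Continuous ii :=
  emb_emb.continuous_iff.2 ((continuous_pi fun g => g.continuous).prodMk
    (continuous_const.prodMk continuous_subtype_val))

theorem cont_w (n : ℕ) : Continuous (w n) := by
  refine emb_emb.continuous_iff.2 ?_
  show Continuous fun s : S => ((fun g => avg g n s, (n : OnePoint ℕ), s.1) :
    (C(X, ℝ) → ℝ) × OnePoint ℕ × Cube)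
  refine Continuous.prodMk (continuous_pi fun g => ?_)
    (continuous_const.prodMk continuous_subtype_val)
  exact continuous_const.mul (continuous_finsetSum _ fun j _ => g.continuous.comp (cont_jn _))

noncomputable def D : LExt.Data X Y where
  i := ⟨ii, cont_ii⟩
  e g := ⟨fun y => (emb y).1 g, (continuous_apply g).comp emb_emb.continuous.fst⟩
  ei _ _ := rfl
  rep := by
    rintro (x | p)
    · exact LExt.FS.eval x
    · exact (LExt.FS.sum Finset.univ fun j _ => LExt.FS.eval (jn ⟨p.1, j⟩ p.2)).smul _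
  k0 := ⟨pt ⟨0, 0⟩, Or.inr ⟨_, rfl⟩⟩

theorem conv (l : Filter ℕ) (n : ℕ → ℕ) (hn : Tendsto n l atTop) (s : ℕ → S)
    (hs : ∀ k, (s k).1 ∈ X') (x : X) (hx : Tendsto (fun k => (s k).1) l (𝓝 x.1)) :
    Tendsto (fun k => w (n k) (s k)) l (𝓝 (ii x)) := by
  classical
  refine emb_emb.tendsto_nhds_iff.2 (Tendsto.prodMk_nhds (tendsto_pi_nhds.2 fun g => ?_)
    (Tendsto.prodMk_nhds ?_ hx))
  swap
  · have : Tendsto (fun m : ℕ => (m : OnePoint ℕ)) atTop (𝓝 OnePoint.infty) := by
      have := OnePoint.tendsto_coe_infty (X := ℕ)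
      rwa [coclosedCompact_eq_cocompact, cocompact_eq_cofinite, Nat.cofinite_eq_atTop] at this
    exact this.comp hn
  show Tendsto (fun k => avg g (n k) (s k)) l (𝓝 (g x))
  obtain ⟨A, hA⟩ := bdd fun k => (s k).1
  have hc : IsCompact {y : X | y.1 ∈ KA A} := by
    rw [Subtype.isCompact_iff]
    have : Subtype.val '' {y : X | y.1 ∈ KA A} = KA A := by
      ext y
      constructor
      · rintro ⟨z, hz, rfl⟩; exact hz
      · intro hy; exact ⟨⟨y, Or.inl ⟨A, hy⟩⟩, hy, rfl⟩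
    rw [this]
    exact (KA_closed A).isCompact
  obtain ⟨M, hM⟩ := hc.exists_bound_of_continuousOn
    (f := fun y => g y - g x) (by fun_prop)
  refine Metric.tendsto_nhds.2 fun ε hε => ?_
  have hV : {y : X | |g y - g x| < ε / 2} ∈ 𝓝 x := by
    have : IsOpen {y : X | |g y - g x| < ε / 2} := isOpen_lt (by fun_prop) continuous_const
    exact this.mem_nhds (by simpa using hε)
  obtain ⟨V, hV1, hV2⟩ := (mem_nhds_subtype _ _ _).1 hV
  obtain ⟨I, hI, hIV⟩ := nhds_cube hV1
  have hU := small_biUnion hI (fun i : Z0 => i.1) fun i _ => i.2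
  have h1 : ∀ᶠ k in l, |M| * dens (⋃ i ∈ I, i.1) (n k) < ε / 2 := by
    have := (hU.comp hn).const_mul |M|
    rw [mul_zero] at this
    exact this.eventually (gt_mem_nhds (by positivity))
  have h2 : ∀ᶠ k in l, ∀ i ∈ I, (s k).1 i = x.1 i := by
    refine (eventually_all_finite hI).2 fun i _ => ?_
    have := tendsto_pi_nhds.1 hx i
    rwa [nhds_discrete, tendsto_pure] at this
  filter_upwards [h1, h2] with k h1 h2
  have hb : ∀ j : Fin (n k + 1), |g (jn ⟨n k, j⟩ (s k)) - g x| ≤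
      ε / 2 + |M| * if (⟨n k, j⟩ : Bt) ∈ ⋃ i ∈ I, i.1 then (1 : ℝ) else 0 := fun j => by
    split_ifs with h
    · have := hM (jn ⟨n k, j⟩ (s k)) fun A' hA' => by
        show (pt _ A' || (s k).1 A') = true
        simp [hA k (hs k) A' hA']
      rw [Real.norm_eq_abs] at this
      have := le_abs_self M
      linarith
    · have : jn ⟨n k, j⟩ (s k) ∈ {y : X | |g y - g x| < ε / 2} := by
        refine hV2 (hIV _ fun i hi => ?_)
        show (pt _ i || (s k).1 i) = _
        have : (⟨n k, j⟩ : Bt) ∉ i.1 := fun h' => h (mem_biUnion hi h')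
        simp [pt, this, h2 i hi]
      have : |g (jn ⟨n k, j⟩ (s k)) - g x| < ε / 2 := this
      linarith
  have hpos : (0 : ℝ) < (n k : ℝ) + 1 := by positivity
  have e1 : avg g (n k) (s k) - g x =
      (∑ j : Fin (n k + 1), (g (jn ⟨n k, j⟩ (s k)) - g x)) / ((n k : ℝ) + 1) := by
    unfold avg
    rw [Finset.sum_sub_distrib]
    simp only [Finset.sum_const, Finset.card_univ, Fintype.card_fin, nsmul_eq_mul]
    push_cast
    field_simp
  rw [Real.dist_eq, e1, abs_div, abs_of_pos hpos, div_lt_iff₀ hpos]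
  refine ((Finset.abs_sum_le_sum_abs _ _).trans (Finset.sum_le_sum fun j _ => hb j)).trans_lt ?_
  rw [Finset.sum_add_distrib, ← Finset.mul_sum]
  simp only [Finset.sum_const, Finset.card_univ, Fintype.card_fin, nsmul_eq_mul]
  unfold dens at h1
  rw [← mul_div_assoc, div_lt_iff₀ hpos] at h1
  push_cast
  linarith

theorem P_cc (u : ℕ → D.P) : ∃ y, MapClusterPt y atTop u := by
  choose z hz using fun k => D.qq_surj (u k)
  let 𝒰 : Ultrafilter ℕ := Ultrafilter.of atTop
  have hU : (𝒰 : Filter ℕ) ≤ atTop := Ultrafilter.of_le _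
  suffices ∃ y, Tendsto u 𝒰 (𝓝 y) from
    this.imp fun y hy => cluster_of_ultra 𝒰 hU hy
  by_cases h1 : ∀ᶠ k in (𝒰 : Filter ℕ), ∃ x, z k = ii x
  · refine ⟨D.star, tendsto_const_nhds.congr' (h1.mono fun k ⟨x, hx⟩ => ?_)⟩
    rw [← hz k, hx]
    exact (D.qq_i x).symm
  have h2 : ∀ k, ∃ p : ℕ × S, (¬ ∃ x, z k = ii x) → z k = w p.1 p.2 := fun k => by
    rcases h : z k with x | p
    · exact ⟨(0, ⟨zero, Or.inr rfl⟩), fun h' => absurd ⟨x, rfl⟩ h'⟩
    · exact ⟨p, fun _ => rfl⟩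
  choose p hp using h2
  have h3 : ∀ᶠ k in (𝒰 : Filter ℕ), D.qq (w (p k).1 (p k).2) = u k :=
    (Ultrafilter.eventually_not.2 h1).mono fun k hk => by rw [← hp k hk, hz]
  suffices ∃ y, Tendsto (fun k => D.qq (w (p k).1 (p k).2)) 𝒰 (𝓝 y) from
    this.imp fun y hy => hy.congr' h3
  by_cases h4 : ∃ m, ∀ᶠ k in (𝒰 : Filter ℕ), (p k).1 = m
  · obtain ⟨m, hm⟩ := h4
    obtain ⟨s, hs⟩ := S_ulim 𝒰 fun k => (p k).2
    refine ⟨D.qq (w m s), ?_⟩
    have := ((D.qq.continuous.comp (cont_w m)).tendsto s).comp hs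
    exact this.congr' (hm.mono fun k hk => by simp [hk])
  have h5 : Tendsto (fun k => (p k).1) 𝒰 atTop := by
    refine tendsto_atTop.2 fun m => ?_
    have : ∀ᶠ k in (𝒰 : Filter ℕ), ∀ i ∈ Iio m, ¬ (p k).1 = i :=
      (eventually_all_finite (finite_Iio m)).2 fun i _ =>
        Ultrafilter.eventually_not.2 fun h => h4 ⟨i, h⟩
    exact this.mono fun k hk => not_lt.1 fun h => hk _ h rfl
  refine ⟨D.star, tendsto_subtype_rng.2 (tendsto_pi_nhds.2 fun f => ?_)⟩
  rw [D.star_val]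
  show Tendsto (fun k => f.1 (w (p k).1 (p k).2)) 𝒰 (𝓝 0)
  refine Metric.tendsto_nhds.2 fun ε hε => ?_
  by_contra h6
  have h7 := Ultrafilter.eventually_not.2 h6
  have h8 : ∀ k, ∃ s : S, s.1 ∈ X' ∧
      (ε ≤ |f.1 (w (p k).1 (p k).2)| → ε / 2 ≤ |f.1 (w (p k).1 s)|) := fun k => by
    by_cases hk : ε ≤ |f.1 (w (p k).1 (p k).2)|
    · rcases (p k).2.2 with h | h
      · exact ⟨(p k).2, h, fun h => by linarith⟩
      · have ho : IsOpen {s : S | ε / 2 < |f.1 (w (p k).1 s)|} :=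
          isOpen_lt continuous_const (f.1.continuous.comp (cont_w _)).abs
        obtain ⟨V, hV1, hV2⟩ := (mem_nhds_subtype _ _ _).1
          (ho.mem_nhds (show ε / 2 < |f.1 (w (p k).1 (p k).2)| by linarith))
        rw [h] at hV1
        obtain ⟨s, hs, hs'⟩ := zero_cl hV1
        exact ⟨⟨s, Or.inl hs⟩, hs, fun _ => le_of_lt (hV2 (a := ⟨s, Or.inl hs⟩) hs')⟩
    · obtain ⟨s, hs, -⟩ := zero_cl (V := univ) univ_mem
      exact ⟨⟨s, Or.inl hs⟩, hs, fun h => absurd h hk⟩
  choose s hs hs' using h8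
  obtain ⟨x, hx, hx'⟩ := ulim_X' 𝒰 (fun k => (s k).1) (Eventually.of_forall hs)
  have h9 := (f.1.continuous.tendsto _).comp (conv 𝒰 _ h5 s hs ⟨x, Or.inl hx⟩ hx')
  have h10 : f.1 (ii ⟨x, Or.inl hx⟩) = 0 := f.2 _
  rw [h10] at h9
  have := ge_of_tendsto h9.abs (h7.mono fun k hk => hs' k (by simpa using hk))
  simp at this
  linarith

theorem sum_cc (u : ℕ → X ⊕ D.P) : ∃ y, MapClusterPt y atTop u := by
  by_cases h : ∃ᶠ k in atTop, ∃ x, u k = Sum.inl x
  · obtain ⟨φ, hφ, hφ'⟩ := extraction_of_frequently_atTop h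
    choose x hx using hφ'
    obtain ⟨y, hy⟩ := X_cc x
    refine ⟨Sum.inl y, MapClusterPt.of_comp hφ.tendsto_atTop ?_⟩
    rw [show u ∘ φ = Sum.inl ∘ x from funext hx]
    exact hy.continuousAt_comp continuous_inl.continuousAt
  · have h' : ∃ᶠ k in atTop, ∃ x, u k = Sum.inr x := by
      refine ((not_frequently.1 h).mono fun k hk => ?_).frequently
      rcases h : u k with x | x
      · exact absurd ⟨x, h⟩ hk
      · exact ⟨x, rfl⟩
    obtain ⟨φ, hφ, hφ'⟩ := extraction_of_frequently_atTop h'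
    choose x hx using hφ'
    obtain ⟨y, hy⟩ := P_cc x
    refine ⟨Sum.inr y, MapClusterPt.of_comp hφ.tendsto_atTop ?_⟩
    rw [show u ∘ φ = Sum.inr ∘ x from funext hx]
    exact hy.continuousAt_comp continuous_inr.continuousAt

theorem not_cc : ¬ ∃ y : Y ⊕ PUnit.{1},
    MapClusterPt y atTop fun n => Sum.inl (w n ⟨zero, Or.inr rfl⟩) := by
  rintro ⟨y, hy⟩
  let h : Y ⊕ PUnit.{1} → OnePoint ℕ × Cube :=
    Sum.elim (fun y => (emb y).2) fun _ => (((0 : ℕ) : OnePoint ℕ), zero)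
  have hc : Continuous h := emb_emb.continuous.snd.sumElim continuous_const
  have h1 := hy.continuousAt_comp hc.continuousAt
  have h2 : Tendsto (h ∘ fun n => Sum.inl (w n ⟨zero, Or.inr rfl⟩)) atTop
      (𝓝 (OnePoint.infty, zero)) := by
    refine Tendsto.prodMk_nhds ?_ tendsto_const_nhds
    have := OnePoint.tendsto_coe_infty (X := ℕ)
    rwa [coclosedCompact_eq_cocompact, cocompact_eq_cofinite, Nat.cofinite_eq_atTop] at this
  have h3 : h y = (OnePoint.infty, zero) := eq_of_nhds_neBot (h1.clusterPt.mono h2)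
  rcases y with (x | p) | v
  · exact X_ne_zero x (congrArg Prod.snd h3)
  · exact OnePoint.coe_ne_infty _ (congrArg Prod.fst h3)
  · exact OnePoint.coe_ne_infty _ (congrArg Prod.fst h3)

end Pool.Agent.CC
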