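import Pool.Agent.Lead.FSp

set_option autoImplicit false

open Set Topology Filter

universe u

namespace Pool.Agent.CCl

open FSp

abbrev S : Type u := ULift.{u} ℝ
abbrev M : Type u := Bool × ℕ × S.{u} × S.{u}
abbrev J : Type u := (Bool × ℕ) ⊕ S.{u}

noncomputable def G : J.{u} → Filter M.{u}
  | Sum.inl p => cocountable ⊓ (comap (fun m => m.2.2.1) cofinite ⊓ 𝓟 {m | m.1 = p.1 ∧ m.2.1 = p.2})
  | Sum.inr s => cocountable ⊓ (comap (fun m => m.2.1) atTop ⊓ 𝓟 {m | m.2.2.1 = s})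

theorem G_le (j : J.{u}) : G j ≤ cocountable := by
  rcases j with p | s <;> exact inf_le_left

def B : J.{u} → Set M.{u}
  | Sum.inl p => {m | m.1 = p.1 ∧ m.2.1 = p.2}
  | Sum.inr s => {m | m.2.2.1 = s}

theorem B_mem (j : J.{u}) : B j ∈ G j := by
  rcases j with p | s <;>
    exact mem_inf_of_right (mem_inf_of_right (mem_principal_self _))

theorem B_compl (j j' : J.{u}) (h : j ≠ j') : (B j)ᶜ ∈ G j' := by
  rcases j with p | s <;> rcases j' with p' | s'
  · refine mem_of_superset (B_mem _) fun m hm hm' => h ?_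
    rw [Prod.ext (hm'.1.symm.trans hm.1) (hm'.2.symm.trans hm.2)]
  · refine mem_inf_of_right (mem_inf_of_left ?_)
    refine mem_of_superset (preimage_mem_comap (Ioi_mem_atTop p.2)) fun m hm hm' => ?_
    have h1 : p.2 < m.2.1 := hm
    have h2 : m.2.1 = p.2 := hm'.2
    omega
  · refine mem_inf_of_right (mem_inf_of_left ?_)
    exact mem_of_superset (preimage_mem_comap ((finite_singleton s).compl_mem_cofinite))
      fun m hm hm' => hm hm'
  · refine mem_of_superset (B_mem _) fun m hm hm' => h ?_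
    rw [hm'.symm.trans hm]

abbrev Z : Type u := Sp G.{u}

instance : T35Space Z.{u} :=
  t35 G (fun j m => G_le j (mem_cocountable.2 (by simp))) B B_mem B_compl

theorem cnt_closed (A : Set Z.{u}) (hA : A.Countable) : IsClosed A := by
  rw [closed_iff]
  intro j _
  refine G_le j (mem_cocountable.2 ?_)
  rw [compl_compl]
  exact hA.preimage (pt_inj G)

def rM (m : M.{u}) : M.{u} := (false, m.2)
def rJ : J.{u} → J.{u}
  | Sum.inl p => Sum.inl (false, p.2)
  | Sum.inr s => Sum.inr s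

theorem rM_cc : Tendsto rM.{u} cocountable cocountable := by
  intro W hW
  rw [mem_map, mem_cocountable]
  rw [mem_cocountable] at hW
  refine ((countable_univ (α := Bool)).prod (hW.image Prod.snd)).mono fun m hm => ?_
  exact ⟨trivial, rM m, hm, rfl⟩

theorem rM_tendsto (j : J.{u}) : Tendsto rM (G j) (G (rJ j)) := by
  rcases j with p | s
  · refine tendsto_inf.2 ⟨rM_cc.mono_left inf_le_left, tendsto_inf.2 ⟨?_, ?_⟩⟩
    · exact tendsto_comap_iff.2 (tendsto_comap.mono_left (inf_le_right.trans inf_le_left))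
    · exact tendsto_principal.2 (mem_of_superset (B_mem _) fun m hm => ⟨rfl, hm.2⟩)
  · refine tendsto_inf.2 ⟨rM_cc.mono_left inf_le_left, tendsto_inf.2 ⟨?_, ?_⟩⟩
    · exact tendsto_comap_iff.2 (tendsto_comap.mono_left (inf_le_right.trans inf_le_left))
    · exact tendsto_principal.2 (mem_of_superset (B_mem _) fun m hm => hm)

noncomputable def rho0 : Z.{u} → Z.{u} := Sum.elim (fun m => pt G (rM m)) (fun j => lim G (rJ j))

noncomputable def rho : C(Z.{u}, Z.{u}) :=
  ⟨rho0, ⟨fun U hU => (open_iff G _).2 fun j hj => rM_tendsto j ((open_iff G U).1 hU (rJ j) hj)⟩⟩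

theorem rho_idem (z : Z.{u}) : rho (rho z) = rho z := by
  rcases cases G z with ⟨m, rfl⟩ | ⟨j, rfl⟩
  · rfl
  · rcases j with p | s <;> rfl

noncomputable def D := LExt.ofRetr rho.{u} rho_idem (lim G (Sum.inr ⟨0⟩))

theorem meet (U V : Set Z.{u}) (hU : IsOpen U) (hV : IsOpen V)
    (h1 : ∀ s, lim G (Sum.inr s) ∈ U) (h2 : ∀ n, lim G (Sum.inl (true, n)) ∈ V) :
    (U ∩ V).Nonempty := by
  have hV' : ∀ n, ∃ C : Set M.{u}, C.Countable ∧ ∃ F : Set S.{u}, F.Finite ∧
      ∀ s t, s ∉ F → (true, n, s, t) ∉ C → pt G (true, n, s, t) ∈ V := fun n => by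
    obtain ⟨A, hA, A', hA', he⟩ := mem_inf_iff.1 ((open_iff G V).1 hV _ (h2 n))
    obtain ⟨A1, hA1, A2, hA2, he'⟩ := mem_inf_iff.1 hA'
    obtain ⟨F, hF, hF'⟩ := mem_comap.1 hA1
    refine ⟨Aᶜ, mem_cocountable.1 hA, Fᶜ, mem_cofinite.1 hF, fun s t hs ht => ?_⟩
    have : (true, n, s, t) ∈ pt G ⁻¹' V := by
      rw [he, he']
      exact ⟨not_not.1 ht, hF' (not_not.1 hs), hA2 ⟨rfl, rfl⟩⟩
    exact this
  choose C hC F hF hCF using hV'
  obtain ⟨s, hs⟩ : ∃ s, s ∉ ⋃ n, F n := by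
    by_contra h
    push Not at h
    have : (univ : Set S.{u}).Countable :=
      (countable_iUnion fun n => (hF n).countable).mono fun s _ => h s
    exact not_countable_univ this
  obtain ⟨A, hA, A', hA', he⟩ := mem_inf_iff.1 ((open_iff G U).1 hU _ (h1 s))
  obtain ⟨A1, hA1, A2, hA2, he'⟩ := mem_inf_iff.1 hA'
  obtain ⟨W, hW, hW'⟩ := mem_comap.1 hA1
  obtain ⟨n, hn⟩ := Filter.nonempty_of_mem hW
  have hinj : Function.Injective fun t : S.{u} => ((true, n, s, t) : M.{u}) := fun a b h =>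
    congrArg (fun m : M.{u} => m.2.2.2) h
  obtain ⟨t, ht⟩ : ∃ t : S.{u}, (true, n, s, t) ∉ C n ∪ Aᶜ := by
    by_contra h
    push Not at h
    have : (univ : Set S.{u}).Countable :=
      (((hC n).union (mem_cocountable.1 hA)).preimage hinj).mono fun t _ => h t
    exact not_countable_univ this
  refine ⟨pt G (true, n, s, t), ?_, hCF n s t (fun h => hs (mem_iUnion.2 ⟨n, h⟩))
    fun h => ht (Or.inl h)⟩
  have : (true, n, s, t) ∈ pt G ⁻¹' U := by
    rw [he, he']
    exact ⟨not_not.1 fun h => ht (Or.inr h), hW' hn, hA2 rfl⟩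
  exact this

theorem not_closed :
    ¬ IsClosed (range fun n : ℕ => D.{u}.qq (lim G (Sum.inl (true, n)))) := by
  intro h
  have hst : D.{u}.star ∈ (range fun n : ℕ => D.{u}.qq (lim G (Sum.inl (true, n))))ᶜ := by
    rintro ⟨n, hn⟩
    refine D.qq_ne_star {z | rho z = z} (isClosed_eq rho.continuous continuous_id)
      (fun k => k.2) _ ?_ hn
    intro h'
    have := lim_inj G h'
    simp [rJ] at this
  obtain ⟨C, hC, hCc, hCs⟩ := exists_mem_nhds_isClosed_subset (h.isOpen_compl.mem_nhds hst)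
  obtain ⟨z, hz1, hz2⟩ := meet (D.qq ⁻¹' interior C) (D.qq ⁻¹' Cᶜ)
    (isOpen_interior.preimage D.qq.continuous) (hCc.isOpen_compl.preimage D.qq.continuous)
    (fun s => by
      have : D.qq (lim G (Sum.inr s)) = D.star := D.qq_i ⟨lim G (Sum.inr s), rfl⟩
      show D.qq _ ∈ interior C
      rw [this]
      exact mem_interior_iff_mem_nhds.2 hC)
    (fun n hn => hCs hn ⟨n, rfl⟩)
  exact hz2 (interior_subset hz1)

theorem cnt_closed_sum (A : Set (Z.{u} ⊕ PUnit.{u + 1})) (hA : A.Countable) : IsClosed A :=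
  isClosed_sum_iff.2 ⟨cnt_closed _ (hA.preimage Sum.inl_injective), isClosed_discrete _⟩

end Pool.Agent.CCl
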