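import Pool.Agent.Lead.CKDefs

namespace Pool.Agent.Lead.CK

open F

variable {A : Set F}

lemma tr {a b c} (h : Thm A (imp a b)) (h' : Thm A (imp b c)) : Thm A (imp a c) :=
  .mp _ _ (.mp _ _ (.s _ _ _) (.mp _ _ (.k _ _) h')) h

lemma rf (a) : Thm A (imp a a) := .mp _ _ (.mp _ _ (.s a (imp a a) a) (.k _ _)) (.k a a)

lemma bc (a b c) : Thm A (imp (imp b c) (imp (imp a b) (imp a c))) := tr (.k _ _) (.s _ _ _)

lemma sw {a b c} (h : Thm A (imp a (imp b c))) : Thm A (imp b (imp a c)) :=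
  tr (.k b a) (.mp _ _ (.s _ _ _) h)

lemma post {a b c} (h : Thm A (imp b c)) : Thm A (imp (imp a b) (imp a c)) := .mp _ _ (bc _ _ _) h

lemma pre {a b c} (h : Thm A (imp a b)) : Thm A (imp (imp b c) (imp a c)) :=
  .mp _ _ (sw (bc _ _ _)) h

lemma rm {a b} (h : Thm A (imp a b)) : Thm A (imp (box a) (box b)) :=
  .mp _ _ (.kbox _ _) (.nec _ h)

lemma inst2 {x : F} (h : x ∈ A) (a b : F) :
    Thm A (x.subst fun n => if n = 0 then a else b) := .us _ _ (.ax _ h)

lemma dia_le (h1 : Kdia ∈ A) (h2 : Ndia ∈ A) (b : F) :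
    Thm A (imp (dia b) (box b.neg).neg) := by
  have := inst2 h1 b bot
  simp only [Kdia, F.subst, if_true, one_ne_zero, if_false] at this
  exact sw (tr this (post (.ax _ h2)))

end Pool.Agent.Lead.CK
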