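import Mathlib

/-! The intuitionistic modal logics `CK_□`, `CK` and their extensions. -/

namespace Pool.Agent.Lead.CK

inductive F : Type
  | var : ℕ → F
  | bot : F
  | and : F → F → F
  | or : F → F → F
  | imp : F → F → F
  | box : F → F
  | dia : F → F

open F

def F.neg (a : F) : F := imp a bot

def F.subst (s : ℕ → F) : F → F
  | var n => s n
  | bot => bot
  | and a b => and (a.subst s) (b.subst s)
  | or a b => or (a.subst s) (b.subst s)
  | imp a b => imp (a.subst s) (b.subst s)
  | box a => box (a.subst s)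
  | dia a => dia (a.subst s)

/-- No `◇` occurs. -/
def F.DiaFree : F → Prop
  | var _ => True
  | bot => True
  | and a b => a.DiaFree ∧ b.DiaFree
  | or a b => a.DiaFree ∧ b.DiaFree
  | imp a b => a.DiaFree ∧ b.DiaFree
  | box a => a.DiaFree
  | dia _ => False

/-- `CK_□ ⊕ A`: the standard Hilbert axioms of intuitionistic logic, `K_□`, all substitution
instances of members of `A`, modus ponens, necessitation and uniform substitution. -/
inductive Thm (A : Set F) : F → Prop
  | k (a b) : Thm A (imp a (imp b a))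
  | s (a b c) : Thm A (imp (imp a (imp b c)) (imp (imp a b) (imp a c)))
  | andI (a b) : Thm A (imp a (imp b (and a b)))
  | andL (a b) : Thm A (imp (and a b) a)
  | andR (a b) : Thm A (imp (and a b) b)
  | orL (a b) : Thm A (imp a (or a b))
  | orR (a b) : Thm A (imp b (or a b))
  | orE (a b c) : Thm A (imp (imp a c) (imp (imp b c) (imp (or a b) c)))
  | efq (a) : Thm A (imp bot a)
  | kbox (a b) : Thm A (imp (box (imp a b)) (imp (box a) (box b)))
  | ax (a) : a ∈ A → Thm A a
  | mp (a b) : Thm A (imp a b) → Thm A a → Thm A b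
  | nec (a) : Thm A a → Thm A (box a)
  | us (s) (a : F) : Thm A a → Thm A (a.subst s)

def Kdia : F := imp (box (imp (var 0) (var 1))) (imp (dia (var 0)) (dia (var 1)))
def Ndia : F := imp (dia bot) bot
def Cdia : F := imp (dia (or (var 0) (var 1))) (or (dia (var 0)) (dia (var 1)))
def wCD : F := imp (box (or (var 0) (var 1))) (imp (imp (dia (var 0)) (box (var 1))) (box (var 1)))

/-- `L₁ = CK ⊕ N_◇ ⊕ wCD`. -/
def L1 : F → Prop := Thm {Kdia, Ndia, wCD}
/-- `L₂ = L₁ ⊕ C_◇`. -/
def L2 : F → Prop := Thm {Kdia, Ndia, wCD, Cdia}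

end Pool.Agent.Lead.CK
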