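import Mathlib

set_option autoImplicit false

namespace Pool.Agent.Lead.CRate
open Finset
open scoped ENNReal

variable {β : Type} [DecidableEq β]

lemma sum_pow (y : Finset β) (m : ℝ≥0∞) : ∑ x ∈ y.powerset, m ^ x.card = (m + 1) ^ y.card := by
  have := Finset.sum_pow_mul_eq_add_pow m 1 y
  simpa using this

lemma sum_pow' (i : β) (y : Finset β) (m : ℝ≥0∞) :
    ∑ x ∈ y.powerset, (if i ∈ x then m ^ (x.card - 1) else 0) =
      if i ∈ y then (m + 1) ^ (y.card - 1) else 0 := by
  by_cases h : i ∈ y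
  · rw [if_pos h, ← Finset.insert_erase h, Finset.sum_powerset_insert (Finset.notMem_erase i y)]
    have h1 : ∑ x ∈ (y.erase i).powerset, (if i ∈ x then m ^ (x.card - 1) else 0) = 0 := by
      apply Finset.sum_eq_zero
      intro x hx
      rw [if_neg]
      intro hi
      exact Finset.notMem_erase i y (mem_powerset.1 hx hi)
    have h2 : ∑ x ∈ (y.erase i).powerset, (if i ∈ insert i x then m ^ ((insert i x).card - 1) else 0)
        = ∑ x ∈ (y.erase i).powerset, m ^ x.card := by
      apply Finset.sum_congr rfl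
      intro x hx
      have : i ∉ x := fun hi => Finset.notMem_erase i y (mem_powerset.1 hx hi)
      rw [if_pos (mem_insert_self _ _), card_insert_of_notMem this]; simp
    rw [h1, h2, zero_add, sum_pow, card_insert_of_notMem (Finset.notMem_erase i y)]; simp
  · rw [if_neg h]
    apply Finset.sum_eq_zero
    intro x hx
    rw [if_neg]
    intro hi
    exact h (mem_powerset.1 hx hi)

lemma swap (g w : Finset β → ℝ≥0∞) (a : ℝ≥0∞)
    (h : ∀ x, g x = a * ∑' y, if x ⊆ y then g y else 0) :
    a * ∑' y, (∑ x ∈ y.powerset, w x) * g y = ∑' x, w x * g x := by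
  have h1 : ∀ y, (∑ x ∈ y.powerset, w x) * g y = ∑' x, w x * (if x ⊆ y then g y else 0) := by
    intro y
    rw [tsum_eq_sum (s := y.powerset), Finset.sum_mul]
    · apply Finset.sum_congr rfl
      intro x hx
      rw [if_pos (mem_powerset.1 hx)]
    · intro x hx
      rw [if_neg (fun h' => hx (mem_powerset.2 h')), mul_zero]
  simp only [h1]
  rw [ENNReal.tsum_comm, ← ENNReal.tsum_mul_left]
  apply tsum_congr
  intro x
  rw [ENNReal.tsum_mul_left, h x]
  conv_rhs => rw [← h x]
  rw [mul_left_comm, ← h x]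

theorem ennreal (i : β) (g : Finset β → ℝ≥0∞) (a : ℝ≥0∞) (hs : ∑' x, g x = 1)
    (h : ∀ x, g x = a * ∑' y, if x ⊆ y then g y else 0) : g {i} = 0 := by
  let A : ℕ → ℝ≥0∞ := fun m => ∑' x, ((m:ℝ≥0∞) + 1) ^ x.card * g x
  let B : ℕ → ℝ≥0∞ := fun m => ∑' x, (if i ∈ x then ((m:ℝ≥0∞) + 1) ^ (x.card - 1) else 0) * g x
  have hA : ∀ m, a * A (m + 1) = A m := by
    intro m
    have := swap g (fun x => ((m:ℝ≥0∞) + 1) ^ x.card) a h
    simp only [sum_pow] at this
    simp only [A]
    push_cast
    exact this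
  have hB : ∀ m, a * B (m + 1) = B m := by
    intro m
    have := swap g (fun x => if i ∈ x then ((m:ℝ≥0∞) + 1) ^ (x.card - 1) else 0) a h
    simp only [sum_pow'] at this
    simp only [B]
    push_cast
    exact this
  have hA' : ∀ m, a ^ m * A m = 1 := by
    intro m
    induction m with
    | zero => simp [A, hs]
    | succ m ih => rw [pow_succ, mul_assoc, hA, ih]
  have hB' : ∀ m, a ^ m * B m = B 0 := by
    intro m
    induction m with
    | zero => simp
    | succ m ih => rw [pow_succ, mul_assoc, hB, ih]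
  have hle : ∀ m : ℕ, ((m:ℝ≥0∞) + 1) * B m ≤ A m := by
    intro m
    simp only [A, B]
    rw [← ENNReal.tsum_mul_left]
    apply ENNReal.tsum_le_tsum
    intro x
    rw [← mul_assoc]
    apply mul_le_mul_left
    split_ifs with hi
    · have : 0 < x.card := card_pos.2 ⟨i, hi⟩
      rw [← pow_succ', Nat.sub_add_cancel this]
    · simp
  have hfin : ∀ m : ℕ, ((m:ℝ≥0∞) + 1) * B 0 ≤ 1 := by
    intro m
    rw [← hB' m, mul_left_comm]
    exact (mul_le_mul_right (hle m) _).trans (hA' m).le
  have hB0 : B 0 = 0 := by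
    by_contra hne
    obtain ⟨m, hm⟩ := ENNReal.exists_nat_mul_gt hne (b := 1) (by simp)
    have := hfin m
    have h2 : (m:ℝ≥0∞) * B 0 ≤ ((m:ℝ≥0∞) + 1) * B 0 := mul_le_mul_left le_self_add _
    exact absurd (h2.trans this) (not_le.2 hm)
  have := ENNReal.le_tsum (f := fun x => (if i ∈ x then (((0:ℕ):ℝ≥0∞) + 1) ^ (x.card - 1) else 0) * g x) {i}
  have e : B 0 = ∑' x, (if i ∈ x then (((0:ℕ):ℝ≥0∞) + 1) ^ (x.card - 1) else 0) * g x := rfl
  rw [← e, hB0] at this
  simpa using this

theorem real (i : β) (f : Finset β → ℝ) (a : ℝ) (h0 : ∀ x, 0 ≤ f x) (hs : HasSum f 1)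
    (h : ∀ x, f x = a * ∑' y, if x ⊆ y then f y else 0) : f {i} = 0 := by
  have hsum : ∀ x : Finset β, Summable (fun y : Finset β => if x ⊆ y then f y else 0) := by
    intro x
    refine Summable.of_nonneg_of_le (fun y => ?_) (fun y => ?_) hs.summable
    · split_ifs
      · exact h0 y
      · exact le_rfl
    · split_ifs
      · exact le_rfl
      · exact h0 y
  have ha : 0 ≤ a := by
    have := h ∅
    simp only [Finset.empty_subset, if_true, hs.tsum_eq, mul_one] at this
    rw [← this]; exact h0 _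
  have := ennreal i (fun x => ENNReal.ofReal (f x)) (ENNReal.ofReal a) (by
    rw [← ENNReal.ofReal_tsum_of_nonneg h0 hs.summable, hs.tsum_eq]; simp) (by
    intro x
    rw [h x, ENNReal.ofReal_mul ha, ENNReal.ofReal_tsum_of_nonneg _ (hsum x)]
    · congr 1
      apply tsum_congr
      intro y
      split_ifs <;> simp
    · intro y
      split_ifs
      · exact h0 y
      · exact le_rfl)
  have h2 := ENNReal.ofReal_eq_zero.1 this
  exact le_antisymm h2 (h0 _)

end Pool.Agent.Lead.CRate
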