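import Pool.Agent.H11.Base1

set_option autoImplicit false

namespace Pool.Agent.Lead.Prm
open Pool.Agent.H11.PT

def prs (N : ℕ) : List ℕ := (List.range N).filter fun p =>
  decide (2 ≤ p) && (List.range p).all fun d => decide (d ≤ 1) || !decide (p % d = 0)

theorem mem_prs {N p : ℕ} : p ∈ prs N ↔ p < N ∧ p.Prime := by
  simp only [prs, List.mem_filter, List.mem_range, Bool.and_eq_true, decide_eq_true_eq,
    List.all_eq_true, Bool.or_eq_true, Bool.not_eq_true', decide_eq_false_iff_not,
    Nat.prime_def_lt]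
  refine and_congr_right fun _ => and_congr_right fun h2 => forall₂_congr fun d hd => ?_
  rw [← Nat.dvd_iff_mod_eq_zero]
  constructor
  · rintro (h | h) h'
    · rcases Nat.eq_zero_or_pos d with rfl | h0
      · have := Nat.eq_zero_of_zero_dvd h'
        omega
      · omega
    · exact absurd h' h
  · intro h
    by_cases h' : d ∣ p
    · exact .inl (h h').le
    · exact .inr h'

theorem nodup_prs (N : ℕ) : (prs N).Nodup := List.nodup_range.filter _

theorem len_prs (t : ℕ) : t ≤ (prs (2 * (t + 2) ^ 2 + 1)).length := by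
  set n := (t + 2) ^ 2 with hn
  have h4 : 4 ≤ n := by rw [hn]; nlinarith [Nat.zero_le (t * t)]
  have h1 := Nat.four_pow_lt_mul_centralBinom n h4
  have h2 := Nat.prod_pow_factorization_centralBinom n
  set S := (Finset.range (2 * n + 1)).filter Nat.Prime with hS
  have hc : S.card = (prs (2 * n + 1)).length := by
    rw [← List.toFinset_card_of_nodup (nodup_prs _)]
    congr 1
    ext p
    simp [hS, mem_prs]
  have h3 : n.centralBinom ≤ (2 * n) ^ S.card := by
    rw [← h2, ← Finset.prod_filter_mul_prod_filter_not _ Nat.Prime, Finset.prod_eq_one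
      (s := Finset.filter (fun x => ¬ Nat.Prime x) _) fun p hp => by
        rw [Nat.factorization_eq_zero_of_not_prime _ (Finset.mem_filter.1 hp).2, pow_zero], mul_one]
    exact Finset.prod_le_pow_card _ _ _ fun p _ => Nat.pow_factorization_choose_le (by omega)
  by_contra h
  have h5 : S.card + 1 ≤ t + 2 := by omega
  have h6 : 2 * n ≤ 4 ^ (t + 2) := by
    have : t + 2 < 2 ^ (t + 1) := by
      have := @Nat.lt_two_pow_self t
      rw [pow_succ]
      omega
    calc 2 * n ≤ 4 * (2 ^ (t + 1)) ^ 2 := by rw [hn]; nlinarith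
      _ = 4 ^ (t + 2) := by rw [← pow_mul, mul_comm (t + 1), pow_mul]; ring
  have : n * n.centralBinom ≤ 4 ^ n :=
    calc n * n.centralBinom ≤ (2 * n) * (2 * n) ^ S.card := by gcongr; omega
      _ = (2 * n) ^ (S.card + 1) := by ring
      _ ≤ (2 * n) ^ (t + 2) := Nat.pow_le_pow_right (by omega) h5
      _ ≤ (4 ^ (t + 2)) ^ (t + 2) := by gcongr
      _ = 4 ^ n := by rw [← pow_mul, hn, sq]
  omega

/-- the `i`-th prime, for `i < t` -/
def pr (t i : ℕ) : ℕ := (prs (2 * (t + 2) ^ 2 + 1)).getD i 2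

@[fun_prop] theorem pr_pt {α : Type} [Enc α] {f g : α → ℕ} (hf : PT f) (hg : PT g) :
    PT fun x => pr (f x) (g x) := by unfold pr prs; fun_prop

theorem pr_prime (t i : ℕ) : (pr t i).Prime ∧ pr t i ≤ 2 * (t + 2) ^ 2 := by
  unfold pr
  by_cases h : i < (prs (2 * (t + 2) ^ 2 + 1)).length
  · rw [List.getD_eq_getElem _ _ h]
    have := mem_prs.1 (List.getElem_mem h)
    exact ⟨this.2, by omega⟩
  · rw [List.getD_eq_default _ _ (not_lt.1 h)]
    exact ⟨Nat.prime_two, by nlinarith [Nat.zero_le (t * t)]⟩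

theorem pr_inj {t i j : ℕ} (hi : i < t) (hj : j < t) (h : pr t i = pr t j) : i = j := by
  have := len_prs t
  unfold pr at h
  rw [List.getD_eq_getElem _ _ (by omega), List.getD_eq_getElem _ _ (by omega)] at h
  exact (List.Nodup.getElem_inj_iff (nodup_prs _)).1 h

theorem exists_k (t : ℕ) (σ : ℕ → Bool) : ∃ k, ∀ i < t, (pr t i ∣ k ↔ σ i = true) := by
  refine ⟨∏ i ∈ (Finset.range t).filter fun i => σ i = true, pr t i, fun i hi => ⟨fun h => ?_,
    fun h => Finset.dvd_prod_of_mem _ (by simp [hi, h])⟩⟩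
  obtain ⟨j, hj, h⟩ := (Prime.dvd_finsetProd_iff (pr_prime t i).1.prime _).1 h
  simp only [Finset.mem_filter, Finset.mem_range] at hj
  rw [pr_inj hi hj.1 ((Nat.prime_dvd_prime_iff_eq (pr_prime t i).1 (pr_prime t j).1).1 h)]
  exact hj.2

end Pool.Agent.Lead.Prm
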