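import Pool.Agent.Lead.ChipDefs
import Pool.Agent.Lead.Prm

set_option autoImplicit false

namespace Pool.Agent.Lead.Chip
open Pool.Agent.H11.PT Finset

open Classical in
noncomputable def st {V : Type} [Fintype V] (A : V → V → Prop) (x : V → ℤ) (f : V → ℕ) (w : V) :
    ℤ := x w - ({u | A w u} : Set V).ncard * f w + ∑ u, if A u w then (f u : ℤ) else 0

open Classical in
theorem st_fire {V : Type} [Fintype V] (A : V → V → Prop) (x : V → ℤ) (f : V → ℕ) (v : V) :
    st A x (f + Pi.single v 1) = fire A v (st A x f) := by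
  funext w
  have : ∀ u, (if A u w then (((f + Pi.single v 1 : V → ℕ) u : ℕ) : ℤ) else 0) =
      (if A u w then (f u : ℤ) else 0) + if u = v then (if A v w then 1 else 0) else 0 := by
    intro u
    by_cases h : u = v
    · subst h; by_cases h : A u w <;> simp [h]
    · simp [h]
  simp only [st, fire, this, sum_add_distrib, sum_ite_eq', mem_univ, if_true]
  by_cases h : w = v
  · subst h; simp; ring
  · simp [h]; ring

theorem term_iff {V : Type} [Fintype V] (A : V → V → Prop) (hA : ∀ v, ¬ A v v) (x : V → ℤ) :
    Terminating A x ↔ ∃ f : V → ℕ, ∀ w, st A x f w < ({u | A w u} : Set V).ncard := by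
  classical
  have h0 : st A x 0 = x := by funext w; simp [st]
  constructor
  · intro h
    by_contra h'
    push Not at h'
    choose v hv using h'
    let c : ℕ → V → ℕ := fun i => (fun f => f + Pi.single (v f) 1)^[i] 0
    have e : ∀ i, st A x (c (i + 1)) = fire A (v (c i)) (st A x (c i)) := fun i => by
      simp only [c, Function.iterate_succ_apply']
      exact st_fire _ _ _ _
    refine h ⟨fun i => st A x (c i), fun i => v (c i), h0, fun i => ⟨e i, ?_⟩⟩
    have := hv (c i)
    simp only [e, fire, hA, if_true, if_false]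
    omega
  · rintro ⟨f, hf⟩ ⟨s, v, e0, hs⟩
    have : ∀ i, ∃ c : V → ℕ, ∑ u, c u = i ∧ (∀ u, c u ≤ f u) ∧ s i = st A x c := by
      intro i
      induction i with
      | zero => exact ⟨0, by simp, by simp, by rw [h0, e0]⟩
      | succ i ih =>
        obtain ⟨c, c1, c2, c3⟩ := ih
        refine ⟨c + Pi.single (v i) 1, by simp [sum_add_distrib, c1], fun u => ?_,
          by rw [st_fire, ← c3, (hs i).1]⟩
        by_cases h : u = v i
        · subst h
          have h1 := (hs i).2
          have h2 := hf (v i)
          rw [(hs i).1, c3] at h1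
          simp only [fire, hA, if_true, if_false, st] at h1 h2
          have h3 : (∑ u, if A u (v i) then (c u : ℤ) else 0) ≤
              ∑ u, if A u (v i) then (f u : ℤ) else 0 :=
            sum_le_sum fun u _ => by split_ifs <;> simp [c2]
          simp only [Pi.add_apply, Pi.single_eq_same]
          refine Nat.succ_le_of_lt (lt_of_le_of_ne (c2 _) fun e => ?_)
          rw [e] at h1
          omega
        · simp [h, c2]
    obtain ⟨c, c1, c2, -⟩ := this (∑ u, f u + 1)
    have : ∑ u, c u ≤ ∑ u, f u := sum_le_sum fun u _ => c2 u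
    omega

theorem hermite (m k : ℕ) (hm : 0 < m) : ∑ x ∈ range m, (k + x) / m = k := by
  induction k with
  | zero => exact sum_eq_zero fun x hx => by simpa using .inr (mem_range.1 hx)
  | succ k ih =>
    have h1 := sum_range_succ' (fun x => (k + x) / m) m
    have h2 := sum_range_succ (fun x => (k + x) / m) m
    simp only [add_zero, Nat.add_div_right _ hm, ih] at h1 h2
    have : ∀ x, k + 1 + x = k + (x + 1) := fun x => by ring
    simp only [this]
    omega

theorem hermite' (m k : ℕ) (hm : 0 < m) (b : ℕ → Bool) :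
    ∑ x ∈ range m, (x + (b x).toNat + k) / m =
      k + ∑ x ∈ range m, if b x = true ∧ m ∣ k + x + 1 then 1 else 0 := by
  refine Eq.trans ?_ (congrArg (· + _) (hermite m k hm))
  rw [← sum_add_distrib]
  refine sum_congr rfl fun x _ => ?_
  cases b x
  · simp [add_comm]
  · rw [show x + true.toNat + k = k + x + 1 by simp; ring, Nat.succ_div]
    simp

theorem sum_mul (J M : ℕ) (g : ℕ → ℕ) :
    ∑ c ∈ range (J * M), g c = ∑ j ∈ range J, ∑ x ∈ range M, g (j * M + x) := by
  induction J with
  | zero => simp
  | succ J ih => rw [add_mul, one_mul, sum_range_add, sum_range_succ, ih]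

theorem sum_split (J M : ℕ) (g : ℕ → ℕ) : ∑ u ∈ range (M + 1 + J * M), g u =
    g 0 + ∑ y ∈ range M, g (y + 1) + ∑ j ∈ range J, ∑ x ∈ range M, g (M + 1 + (j * M + x)) := by
  rw [sum_range_add, sum_range_succ', sum_mul J M fun c => g (M + 1 + c)]
  ring

theorem sum_lt (M m a : ℕ) (h : m ≤ M) : (∑ y ∈ range M, if y < m then a else 0) = m * a := by
  rw [← sum_filter, show (range M).filter (· < m) = range m by ext; simp; omega]
  simp

/-- natural-number form of the stability condition -/
theorem term_nat (n : ℕ) (a : ℕ → ℕ → Prop) [DecidableRel a] (ha : ∀ v, ¬ a v v) (x : ℕ → ℕ) :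
    Terminating (fun u v : Fin n => a u v) (fun v => x v) ↔ ∃ f : ℕ → ℕ, ∀ w < n,
      x w + (∑ u ∈ range n, if a u w then f u else 0) <
        (∑ u ∈ range n, if a w u then 1 else 0) * (f w + 1) := by
  classical
  have e : ∀ (f : ℕ → ℕ) (w : Fin n), st (fun u v : Fin n => a u v) (fun v => x v) (fun u => f u) w <
      ({u : Fin n | a w u} : Set (Fin n)).ncard ↔ x w + (∑ u ∈ range n, if a u w then f u else 0) <
        (∑ u ∈ range n, if a w u then 1 else 0) * (f w + 1) := by
    intro f w
    have h1 : ({u : Fin n | a w u} : Set (Fin n)).ncard =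
        ∑ u ∈ range n, if a w u then 1 else 0 := by
      rw [← Fin.sum_univ_eq_sum_range (fun u => if a w u then 1 else 0), ← card_filter,
        ← Set.ncard_coe_finset]
      simp
    have h2 : (∑ u : Fin n, @ite _ (a u w) (Classical.propDecidable _) (f u : ℤ) 0) =
        ((∑ u ∈ range n, if a u w then f u else 0 : ℕ) : ℤ) := by
      rw [← Fin.sum_univ_eq_sum_range (fun u => if a u w then f u else 0), Nat.cast_sum]
      refine sum_congr rfl fun u _ => ?_
      by_cases h : a u w <;> simp [h]
    unfold st
    rw [h1, h2]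
    generalize (∑ u ∈ range n, if a w u then 1 else 0) = d
    generalize (∑ u ∈ range n, if a u w then f u else 0) = s
    rw [← Nat.cast_lt (α := ℤ)]
    push_cast
    constructor <;> intro h <;> linarith
  rw [term_iff (fun u v : Fin n => a u v) fun v => ha v]
  constructor
  · rintro ⟨f, h⟩
    refine ⟨fun u => if h : u < n then f ⟨u, h⟩ else 0, fun w hw => (e _ ⟨w, hw⟩).1 ?_⟩
    simpa using h ⟨w, hw⟩
  · rintro ⟨f, h⟩
    exact ⟨fun u => f u, fun w => (e f w).2 (h w w.2)⟩

end Pool.Agent.Lead.Chip
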