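import Pool.Agent.Lead.Chip1

set_option autoImplicit false

namespace Pool.Agent.Lead.Chip
open Pool.Agent.H11.PT Finset Prm

def A (M : ℕ) (md : ℕ → ℕ) (u w : ℕ) : Prop :=
  (u = 0 ∧ (w = 1 ∨ (M + 1 ≤ w ∧ (w - (M + 1)) % M < md ((w - (M + 1)) / M)))) ∨
  (1 ≤ u ∧ u ≤ M ∧ w = 0) ∨ (M + 1 ≤ u ∧ 1 ≤ w ∧ w ≤ md ((u - (M + 1)) / M))

instance (M : ℕ) (md : ℕ → ℕ) : DecidableRel (A M md) := fun _ _ => by unfold A; infer_instance

def X (J M : ℕ) (md : ℕ → ℕ) (b : ℕ → ℕ → Bool) (v : ℕ) : ℕ :=
  if v = 0 then ((List.range J).map md).sum else if v ≤ M then 0 else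
    if (v - (M + 1)) % M < md ((v - (M + 1)) / M) then
      (v - (M + 1)) % M + (b ((v - (M + 1)) / M) ((v - (M + 1)) % M)).toNat else 0

theorem gadget (J M : ℕ) (md : ℕ → ℕ) (b : ℕ → ℕ → Bool) (h1 : ∀ j, 1 ≤ md j)
    (h2 : ∀ j, md j ≤ M) :
    Terminating (fun u v : Fin (M + 1 + J * M) => A M md u v) (fun v => X J M md b v) ↔
      ∃ k, ∀ j < J, ∀ x < md j, md j ∣ k + x + 1 → b j x = false := by
  have hM : 0 < M := (h1 0).trans (h2 0)
  have cd : ∀ j, ∀ x < M, (M + 1 + (j * M + x) - (M + 1)) / M = j := fun j x hx => by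
    rw [Nat.add_sub_cancel_left, code_div hx]
  have cm : ∀ j, ∀ x < M, (M + 1 + (j * M + x) - (M + 1)) % M = x := fun j x hx => by
    rw [Nat.add_sub_cancel_left, code_mod hx]
  have a00 : ¬ A M md 0 0 := by simp [A]
  have a01 : ∀ y ∈ range M, A M md 0 (y + 1) ↔ y < 1 := fun y hy => by
    have := mem_range.1 hy
    unfold A; omega
  have a02 : ∀ j, ∀ x ∈ range M, A M md 0 (M + 1 + (j * M + x)) ↔ x < md j := fun j x hx => by
    unfold A; rw [cd j x (mem_range.1 hx), cm j x (mem_range.1 hx)]; omega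
  have a10 : ∀ y ∈ range M, A M md (y + 1) 0 := fun y hy => by
    have := mem_range.1 hy
    unfold A; omega
  have a1 : ∀ y ∈ range M, ∀ w, ¬ A M md (y + 1) (w + 1) := fun y hy w => by
    have := mem_range.1 hy
    unfold A; omega
  have a12 : ∀ y ∈ range M, ∀ c, ¬ A M md (y + 1) (M + 1 + c) := fun y hy c => by
    have := mem_range.1 hy
    unfold A; omega
  have a20 : ∀ c, ¬ A M md (M + 1 + c) 0 := fun c => by unfold A; omega
  have a21 : ∀ j, ∀ x ∈ range M, ∀ y, A M md (M + 1 + (j * M + x)) (y + 1) ↔ y < md j :=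
    fun j x hx y => by unfold A; rw [cd j x (mem_range.1 hx)]; omega
  have a22 : ∀ c c', ¬ A M md (M + 1 + c) (M + 1 + c') := fun c c' => by
    have := h2 ((M + 1 + c - (M + 1)) / M)
    unfold A; omega
  have x0 : X J M md b 0 = ∑ j ∈ range J, md j := rfl
  have x1 : ∀ y ∈ range M, X J M md b (y + 1) = 0 := fun y hy => by
    have := mem_range.1 hy
    simp [X]; omega
  have x2 : ∀ j, ∀ x ∈ range M, X J M md b (M + 1 + (j * M + x)) =
      if x < md j then x + (b j x).toNat else 0 := fun j x hx => by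
    unfold X
    rw [cd j x (mem_range.1 hx), cm j x (mem_range.1 hx), if_neg (by omega), if_neg (by omega)]
  rw [term_nat _ _ fun v => by have := h2 ((v - (M + 1)) / M); unfold A; omega]
  have key : ∀ f : ℕ → ℕ, (∀ w < M + 1 + J * M, X J M md b w +
      (∑ u ∈ range (M + 1 + J * M), if A M md u w then f u else 0) <
        (∑ u ∈ range (M + 1 + J * M), if A M md w u then 1 else 0) * (f w + 1)) ↔
      (∑ j ∈ range J, md j + ∑ y ∈ range M, f (y + 1) < (1 + ∑ j ∈ range J, md j) * (f 0 + 1)) ∧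
      (∀ y ∈ range M, (if y < 1 then f 0 else 0) + (∑ j ∈ range J, if y < md j then
        ∑ x ∈ range M, f (M + 1 + (j * M + x)) else 0) ≤ f (y + 1)) ∧
      ∀ j ∈ range J, ∀ x ∈ range M, (if x < md j then x + (b j x).toNat + f 0 else 0) <
        md j * (f (M + 1 + (j * M + x)) + 1) := by
    intro f
    have split : ∀ P : ℕ → Prop, (∀ w < M + 1 + J * M, P w) ↔ P 0 ∧ (∀ y ∈ range M, P (y + 1)) ∧
        ∀ j ∈ range J, ∀ x ∈ range M, P (M + 1 + (j * M + x)) := by
      intro P
      simp only [mem_range]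
      refine ⟨fun h => ⟨h 0 (by omega), fun y hy => h _ (by omega), fun j hj x hx => h _ ?_⟩,
        fun ⟨p0, p1, p2⟩ w hw => ?_⟩
      · have := Nat.mul_le_mul_right M (Nat.succ_le_of_lt hj)
        rw [Nat.succ_mul] at this
        omega
      · rcases w with _ | w
        · exact p0
        by_cases h : w < M
        · exact p1 w h
        · have := p2 ((w - M) / M) ((Nat.div_lt_iff_lt_mul hM).2 (by omega)) _
            (Nat.mod_lt (w - M) hM)
          rw [Nat.div_add_mod'] at this
          convert this using 1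
          omega
    rw [split]
    simp only [sum_split]
    refine and_congr ?_ (and_congr (forall₂_congr fun y hy => ?_)
      (forall₂_congr fun j hj => forall₂_congr fun x hx => ?_))
    · rw [sum_congr rfl fun y hy => if_pos (a10 y hy),
        sum_congr rfl fun y hy => if_congr (a01 y hy) rfl rfl, sum_lt _ _ _ hM,
        sum_congr rfl fun j _ => (sum_congr rfl fun x hx => if_congr (a02 j x hx) rfl rfl).trans
          (sum_lt _ _ _ (h2 j))]
      simp [a00, a20, x0]
    · rw [sum_congr rfl fun j _ => sum_congr rfl fun x hx => if_congr (a21 j x hx y) rfl rfl,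
        sum_eq_zero fun y' hy' => if_neg (a1 y' hy' y), if_congr (a01 y hy) rfl rfl]
      simp [a10 y hy, a1 y hy, a12 y hy, x1 y hy, Nat.lt_succ_iff]
    · rw [sum_eq_zero fun y' hy' => if_neg (a12 y' hy' _), if_congr (a02 j x hx) rfl rfl,
        sum_congr rfl fun y _ => if_congr (a21 j x hx y) rfl rfl, sum_lt _ _ _ (h2 j), x2 j x hx]
      by_cases h : x < md j <;> simp [a20, a22, h]
  simp only [key]
  have sw : ∀ (k : ℕ) (G : ℕ → ℕ), ∑ y ∈ range M, ((if y < 1 then k else 0) +
      ∑ j ∈ range J, if y < md j then G j else 0) = k + ∑ j ∈ range J, md j * G j := by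
    intro k G
    rw [sum_add_distrib, sum_comm, sum_lt _ 1 _ hM, one_mul,
      sum_congr rfl fun j _ => sum_lt _ _ _ (h2 j)]
  have sr : ∀ j (g : ℕ → ℕ), (∑ x ∈ range M, if x < md j then g x else 0) =
      ∑ x ∈ range (md j), g x := fun j g => by
    have := h2 j
    rw [← sum_filter, show (range M).filter (· < md j) = range (md j) by ext; simp; omega]
  constructor
  · rintro ⟨f, r, c, k⟩
    refine ⟨f 0, fun j hj x hx hd => ?_⟩
    by_contra hb
    have e1 := sum_le_sum c
    rw [sw] at e1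
    have e2 : ∀ j ∈ range J, f 0 + (∑ x ∈ range (md j),
        if b j x = true ∧ md j ∣ f 0 + x + 1 then 1 else 0) ≤
          ∑ x ∈ range M, f (M + 1 + (j * M + x)) := fun j hj => by
      rw [← hermite' _ _ (h1 j), ← sr]
      refine sum_le_sum fun x hx => ?_
      have := k j hj x hx
      split_ifs at this ⊢
      · exact Nat.lt_succ_iff.1 ((Nat.div_lt_iff_lt_mul (h1 j)).2 (by rwa [mul_comm]))
      · exact Nat.zero_le _
    have e3 : ∑ j ∈ range J, md j * f 0 <
        ∑ j ∈ range J, md j * ∑ x ∈ range M, f (M + 1 + (j * M + x)) := by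
      refine sum_lt_sum (fun j hj => Nat.mul_le_mul_left _ (le_of_add_le_left (e2 j hj)))
        ⟨j, mem_range.2 hj, Nat.mul_lt_mul_of_pos_left (lt_of_lt_of_le ?_ (e2 j (mem_range.2 hj)))
          (h1 j)⟩
      refine Nat.lt_add_of_pos_right (sum_pos' (by simp) ⟨x, mem_range.2 hx, ?_⟩)
      rw [if_pos ⟨by simpa using hb, hd⟩]; exact one_pos
    rw [← Finset.sum_mul] at e3
    nlinarith
  · rintro ⟨k, h⟩
    let g : ℕ → ℕ → ℕ := fun j x => if x < md j then (x + (b j x).toNat + k) / md j else 0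
    let G : ℕ → ℕ := fun j => ∑ x ∈ range M, g j x
    let f : ℕ → ℕ := fun v => if v = 0 then k else if v ≤ M then (if v - 1 < 1 then k else 0) +
      ∑ j ∈ range J, if v - 1 < md j then G j else 0
      else g ((v - (M + 1)) / M) ((v - (M + 1)) % M)
    have f0 : f 0 = k := by simp [f]
    have f1 : ∀ y ∈ range M, f (y + 1) = (if y < 1 then k else 0) +
        ∑ j ∈ range J, if y < md j then G j else 0 := fun y hy => by
      have := mem_range.1 hy
      simp only [f]
      rw [if_neg (by omega), if_pos (by omega), Nat.add_sub_cancel]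
    have f2 : ∀ j, ∀ x ∈ range M, f (M + 1 + (j * M + x)) = g j x := fun j x hx => by
      simp only [f]
      rw [cd j x (mem_range.1 hx), cm j x (mem_range.1 hx), if_neg (by omega), if_neg (by omega)]
    have hG : ∀ j ∈ range J, md j * G j = md j * k := fun j hj => by
      simp only [G, g]
      rw [sr, hermite' _ _ (h1 j), sum_eq_zero fun x hx => if_neg fun hb => by
        simpa [hb.1] using h j (mem_range.1 hj) x (mem_range.1 hx) hb.2, add_zero]
    refine ⟨f, ?_, fun y hy => ?_, fun j hj x hx => ?_⟩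
    · rw [sum_congr rfl f1, sw, sum_congr rfl hG, ← Finset.sum_mul, f0]
      nlinarith
    · rw [f1 y hy, f0, sum_congr rfl fun j _ => if_congr Iff.rfl (sum_congr rfl (f2 j)) rfl]
    · rw [f2 j x hx, f0]
      simp only [g]
      split_ifs
      · exact Nat.lt_mul_div_succ _ (h1 j)
      · rw [zero_add, mul_one]; exact h1 j

end Pool.Agent.Lead.Chip
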