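import Pool.Agent.Lead.Chip2

set_option autoImplicit false

namespace Pool.Agent.Lead.Chip
open Pool.Agent.H11.PT Finset Prm

abbrev F := List (ℕ × ℕ × ℕ)

def nv (φ : F) : ℕ := (φ.map fun c => c.1 + c.2.1 + c.2.2).sum + 1
def bM (φ : F) : ℕ := (2 * (nv φ + 2) ^ 2) ^ 3
def md (φ : F) (j : ℕ) : ℕ := pr (nv φ) (φ.getD j (0, 0, 0)).1 *
  pr (nv φ) (φ.getD j (0, 0, 0)).2.1 * pr (nv φ) (φ.getD j (0, 0, 0)).2.2
def sg (φ : F) (k v : ℕ) : Bool := decide (k % pr (nv φ) v = 0)
def bad (φ : F) (j x : ℕ) : Bool := !decide ((sg φ (x + 1) (φ.getD j (0, 0, 0)).1).toNat +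
  (sg φ (x + 1) (φ.getD j (0, 0, 0)).2.1).toNat +
    (sg φ (x + 1) (φ.getD j (0, 0, 0)).2.2).toNat = 1)
def nn (φ : F) : ℕ := bM φ + 1 + φ.length * bM φ

def red (φ : F) : Inst :=
  (nn φ, (List.range (nn φ) ×ˢ List.range (nn φ)).filter
      fun p => decide (A (bM φ) (md φ) p.1 p.2),
    (List.range (nn φ)).map fun v => (false, toBits (X φ.length (bM φ) (md φ) (bad φ) v)))

section
variable {α : Type} [Enc α] {f : α → F} {g h : α → ℕ}
@[fun_prop] theorem toNat_pt {f : α → Bool} (hf : PT f) : PT fun x => (f x).toNat :=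
  PT.of_eq (f := fun x => bif f x then 1 else 0) (by fun_prop) fun x => by cases f x <;> rfl
@[fun_prop] theorem nv_pt : PT nv := by unfold nv; fun_prop
@[fun_prop] theorem bM_pt : PT bM := by
  unfold bM; exact PT.pow 3 (PT.mul (by fun_prop) (PT.pow 2 (by fun_prop)))
@[fun_prop] theorem nn_pt : PT nn := by unfold nn; fun_prop
@[fun_prop] theorem md_pt (hf : PT f) (hg : PT g) : PT fun x => md (f x) (g x) := by
  unfold md; fun_prop
@[fun_prop] theorem sg_pt (hf : PT f) (hg : PT g) (hh : PT h) :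
    PT fun x => sg (f x) (g x) (h x) :=
  PT.decEq (PT.mod hg (pr_pt (nv_pt.comp hf) hh)) (PT.const 0)
attribute [local irreducible] pr nv bM md sg
@[fun_prop] theorem bad_pt (hf : PT f) (hg : PT g) (hh : PT h) :
    PT fun x => bad (f x) (g x) (h x) := by unfold bad; fun_prop
attribute [local irreducible] bad
theorem X_pt (hf : PT f) (hg : PT g) :
    PT fun x => X (f x).length (bM (f x)) (md (f x)) (bad (f x)) (g x) := by unfold X; fun_prop
theorem A_pt (hf : PT f) (hg : PT g) (hh : PT h) :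
    PT fun x => decide (A (bM (f x)) (md (f x)) (g x) (h x)) :=
  PT.of_eq (f := fun x => decide ((g x = 0 ∧ (h x = 1 ∨ (bM (f x) + 1 ≤ h x ∧
    (h x - (bM (f x) + 1)) % bM (f x) < md (f x) ((h x - (bM (f x) + 1)) / bM (f x))))) ∨
    (1 ≤ g x ∧ g x ≤ bM (f x) ∧ h x = 0) ∨ (bM (f x) + 1 ≤ g x ∧ 1 ≤ h x ∧
      h x ≤ md (f x) ((g x - (bM (f x) + 1)) / bM (f x))))) (by fun_prop) fun _ => rfl
end

theorem red_pt : PT red := by
  unfold red
  refine PT.pair nn_pt (PT.pair (PT.filter (by fun_prop) (A_pt (by fun_prop) (by fun_prop)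
    (by fun_prop))) (PT.map (by fun_prop) (PT.pair (by fun_prop)
      (PT.toBits (X_pt (by fun_prop) (by fun_prop))))))

theorem md_pos (φ : F) (j : ℕ) : 1 ≤ md φ j :=
  Nat.mul_pos (Nat.mul_pos (pr_prime _ _).1.pos (pr_prime _ _).1.pos) (pr_prime _ _).1.pos

theorem md_le (φ : F) (j : ℕ) : md φ j ≤ bM φ := by
  unfold md bM
  rw [pow_three']
  exact Nat.mul_le_mul (Nat.mul_le_mul (pr_prime _ _).2 (pr_prime _ _).2) (pr_prime _ _).2

theorem bad_iff (φ : F) (j : ℕ) (hj : j < φ.length) (k x : ℕ) (h : md φ j ∣ k + x + 1) :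
    bad φ j x = false ↔ (sg φ k φ[j].1).toNat + (sg φ k φ[j].2.1).toNat +
      (sg φ k φ[j].2.2).toNat = 1 := by
  have e : ∀ v, pr (nv φ) v ∣ md φ j → sg φ (x + 1) v = sg φ k v := fun v hv => by
    simp only [sg, ← Nat.dvd_iff_mod_eq_zero, decide_eq_decide]
    have := hv.trans h
    rw [add_assoc] at this
    exact ⟨fun h => (Nat.dvd_add_left h).1 this, fun h => (Nat.dvd_add_right h).1 this⟩
  unfold bad
  rw [e _ (Dvd.dvd.mul_right (Dvd.intro _ rfl) _), e _ (Dvd.dvd.mul_right (Dvd.intro_left _ rfl) _),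
    e _ (Dvd.intro_left _ rfl), List.getD_eq_getElem _ _ hj]
  simp

theorem one_iff (φ : F) : ONE3 φ ↔
    ∃ k, ∀ j < φ.length, ∀ x < md φ j, md φ j ∣ k + x + 1 → bad φ j x = false := by
  constructor
  · rintro ⟨σ, h⟩
    obtain ⟨k, hk⟩ := exists_k (nv φ) σ
    refine ⟨k, fun j hj x _ hd => (bad_iff φ j hj k x hd).2 ?_⟩
    have e : ∀ v < nv φ, sg φ k v = σ v := fun v hv => by
      simp only [sg, ← Nat.dvd_iff_mod_eq_zero, hk v hv]
      simp
    have : φ[j].1 + φ[j].2.1 + φ[j].2.2 < nv φ := Nat.lt_succ_of_le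
      (List.single_le_sum (by simp) _ (List.mem_map_of_mem (List.getElem_mem hj)))
    rw [e _ (by omega), e _ (by omega), e _ (by omega)]
    exact h _ (List.getElem_mem hj)
  · rintro ⟨k, h⟩
    refine ⟨sg φ k, List.forall_mem_iff_forall_getElem.2 fun j hj => ?_⟩
    have h1 := md_pos φ j
    have h2 := Nat.mod_lt k h1
    have hd : md φ j ∣ k + (md φ j - 1 - k % md φ j) + 1 := ⟨k / md φ j + 1, by
      have := Nat.div_add_mod k (md φ j)
      rw [mul_add]
      omega⟩
    exact (bad_iff φ j hj k _ hd).1 (h j hj _ (by omega) hd)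

theorem hard : NPHard HALT := by
  refine (hard_ONE3.red (Val' := Valid) (Y := fun I => Terminating (arc I) (chips I)) red red_pt
    fun φ _ => ⟨⟨(List.nodup_range.product List.nodup_range).filter _, ?_, by simp [red]⟩, ?_⟩).npHard
  · rintro ⟨u, v⟩ h
    simp only [red, List.mem_filter, List.mem_product, List.mem_range, decide_eq_true_eq] at h
    refine ⟨h.1.1, h.1.2, fun e : u = v => ?_⟩
    have := md_le φ ((u - (bM φ + 1)) / bM φ)
    have := h.2
    unfold A at this
    omega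
  · rw [one_iff, ← gadget _ _ _ _ (md_pos φ) (md_le φ)]
    have e1 : arc (red φ) = fun u v : Fin (nn φ) => A (bM φ) (md φ) u v := by
      funext u v
      have := u.2
      have := v.2
      simp_all [arc, red]
    have e2 : chips (red φ) = fun v : Fin (nn φ) => (X φ.length (bM φ) (md φ) (bad φ) v : ℤ) := by
      funext v
      have : v.val < nn φ := v.2
      simp [chips, red, this, bin, ofDigits_toBits]
    rw [e1, e2]
    rfl

end Pool.Agent.Lead.Chip
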