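import Pool.Agent.H11.GDefs

set_option autoImplicit false

namespace Pool.Agent.Lead.Chip
open Pool.Agent.H11.PT

open Classical in
/-- firing `v` in the digraph with arc relation `A`: `v` loses its out-degree many chips and
every out-neighbour of `v` gains one chip -/
noncomputable def fire {V : Type} (A : V → V → Prop) (v : V) (x : V → ℤ) : V → ℤ := fun w =>
  x w - (if w = v then (({u | A v u} : Set V).ncard : ℤ) else 0) + (if A v w then 1 else 0)

/-- there is no infinite legal game from `x` (a firing of `v` is legal when the count at `v`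
is still nonnegative after the move) -/
def Terminating {V : Type} (A : V → V → Prop) (x : V → ℤ) : Prop :=
  ¬ ∃ (s : ℕ → V → ℤ) (v : ℕ → V), s 0 = x ∧
    ∀ i, s (i + 1) = fire A (v i) (s i) ∧ 0 ≤ s (i + 1) (v i)

/-- number `n` of vertices, list of arcs, chip counts as (sign, binary digits) -/
abbrev Inst := ℕ × List (ℕ × ℕ) × List (Bool × List Bool)

/-- simple digraph on `0, …, n-1` (no repeated arc, no loop) and one chip count per vertex -/
def Valid (I : Inst) : Prop :=
  I.2.1.Nodup ∧ (∀ e ∈ I.2.1, e.1 < I.1 ∧ e.2 < I.1 ∧ e.1 ≠ e.2) ∧ I.2.2.length = I.1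

def arc (I : Inst) (u v : Fin I.1) : Prop := (u.val, v.val) ∈ I.2.1

def chips (I : Inst) (v : Fin I.1) : ℤ :=
  bif (I.2.2.getD v (false, [])).1 then -(bin (I.2.2.getD v (false, [])).2 : ℤ)
  else bin (I.2.2.getD v (false, [])).2

/-- the halting problem for simple digraphs -/
def HALT (I : Inst) : Prop := Valid I ∧ Terminating (arc I) (chips I)

end Pool.Agent.Lead.Chip
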