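import Mathlib

namespace Pool.Agent.Lead.Clr1
open Set Filter Topology MeasureTheory

abbrev N := ℕ → ℕ

def CG (A : Set N) : Prop :=
  ∃ u : N → N, Measurable u ∧ IsClosed {q : N × N | q.2 = u q.1} ∧ ∀ p, p ∈ A ↔ u p 0 = 0

theorem clo_eq {Z : Type} [TopologicalSpace Z] {f : Z → ℕ} (hf : Continuous f) (P : ℕ → Prop) :
    IsClosed {z | P (f z)} := (isClosed_discrete {n | P n}).preimage hf

theorem meas_nat {Ω : Type} [MeasurableSpace Ω] (u : Ω → ℕ) (hu : Measurable u) (P : ℕ → Prop) :
    Measurable fun ω => P (u ω) := (Measurable.of_discrete (f := P)).comp hu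

theorem meas_of {Ω : Type} [MeasurableSpace Ω] (u : Ω → ℕ) (hu : ∀ j, Measurable fun ω => u ω = j) :
    Measurable u := measurable_to_countable' fun j => measurableSet_setOfPred.2 (hu j)

theorem meas_sInf {Ω : Type} [MeasurableSpace Ω] (P : Ω → ℕ → Prop)
    (hP : ∀ e, Measurable fun ω => P ω e) : Measurable fun ω => sInf {e | P ω e} := by
  refine meas_of _ fun j => ?_
  have : (fun ω => sInf {e | P ω e} = j) = fun ω =>
      (P ω j ∧ ∀ i, i < j → ¬ P ω i) ∨ (j = 0 ∧ ∀ e, ¬ P ω e) := by
    funext ω
    apply propext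
    by_cases h : ∃ e, P ω e
    · have h1 : P ω (sInf {e | P ω e}) := Nat.sInf_mem (s := {e | P ω e}) h
      constructor
      · rintro rfl
        exact Or.inl ⟨h1, fun i hi => Nat.notMem_of_lt_sInf hi⟩
      · rintro (⟨h2, h3⟩ | ⟨-, h3⟩)
        · exact le_antisymm (Nat.sInf_le h2) (not_lt.1 fun hh => h3 _ hh h1)
        · exact absurd h1 (h3 _)
    · have : {e | P ω e} = ∅ := eq_empty_of_forall_notMem fun e he => h ⟨e, he⟩
      push Not at h
      simp [this, h, eq_comm]
  rw [this]
  exact ((hP j).and (Measurable.forall fun i => measurable_const.imp (hP i).not)).or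
    (measurable_const.and (Measurable.forall fun e => (hP e).not))

theorem cg_clopen (i : ℕ) (s : Set ℕ) : CG {p | p i ∈ s} := by
  classical
  have hc : Continuous fun (p : N) (_ : ℕ) => if p i ∈ s then 0 else 1 :=
    continuous_pi fun _ => (continuous_of_discreteTopology
      (f := fun a : ℕ => if a ∈ s then 0 else 1)).comp (continuous_apply i)
  exact ⟨_, hc.measurable, isClosed_eq continuous_snd (hc.comp continuous_fst), fun p => by simp⟩

theorem cg_union (A : ℕ → Set N) (h : ∀ i, CG (A i)) (c : Bool) :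
    CG (if c then ⋃ i, A i else (⋃ i, A i)ᶜ) := by
  classical
  choose u hm hc hA using h
  let U : N → N := fun p k => match k with
    | 0 => if (∃ i, u i p 0 = 0) ↔ c then 0 else 1
    | 1 => sInf {i | u i p 0 = 0}
    | k + 2 => u k.unpair.1 p k.unpair.2
  refine ⟨U, measurable_pi_lambda _ fun k => ?_, ?_, fun p => ?_⟩
  · match k with
    | 0 =>
      exact (Measurable.of_discrete (f := fun P : Prop => if P ↔ c then 0 else 1)).comp
        (Measurable.exists fun i => meas_nat _ ((measurable_pi_apply 0).comp (hm i)) (· = 0))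
    | 1 => exact meas_sInf _ fun i => meas_nat _ ((measurable_pi_apply 0).comp (hm i)) (· = 0)
    | k + 2 => exact (measurable_pi_apply _).comp (hm _)
  · have : {q : N × N | q.2 = U q.1} = (⋂ i, (fun q : N × N =>
        (q.1, fun j => q.2 (Nat.pair i j + 2))) ⁻¹' {q | q.2 = u i q.1}) ∩
        (({q | q.2 0 = if c then 1 else 0} ∩ {q | q.2 1 = 0} ∩
          ⋂ i, {q | q.2 (Nat.pair i 0 + 2) ≠ 0}) ∪ ({q | q.2 0 = if c then 0 else 1} ∩
          ⋂ j, ({q | q.2 1 ≠ j} ∪ ({q | q.2 (Nat.pair j 0 + 2) = 0} ∩
            ⋂ i, ⋂ (_ : i < j), {q | q.2 (Nat.pair i 0 + 2) ≠ 0})))) := by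
      ext ⟨p, v⟩
      simp only [mem_ofPred_eq, mem_inter_iff, mem_iInter, mem_preimage, mem_union]
      constructor
      · rintro rfl
        refine ⟨fun i => by funext j; simp [U], ?_⟩
        by_cases h : ∃ i, u i p 0 = 0
        · refine Or.inr ⟨by cases c <;> simp [U, h], fun j => ?_⟩
          by_cases hj : U p 1 = j
          · subst hj
            refine Or.inr ⟨?_, fun i hi => ?_⟩
            · simpa [U] using Nat.sInf_mem (s := {i | u i p 0 = 0}) h
            · simpa [U] using Nat.notMem_of_lt_sInf hi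
          · exact Or.inl hj
        · have h2 : {i | u i p 0 = 0} = ∅ := eq_empty_of_forall_notMem fun e he => h ⟨e, he⟩
          refine Or.inl ⟨⟨by cases c <;> simp [U, h], by simp [U, h2]⟩, fun i hi => h ⟨i, ?_⟩⟩
          simpa [U] using hi
      · rintro ⟨h1, h2⟩
        have h3 : ∀ i j, v (Nat.pair i j + 2) = u i p j := fun i j => congrFun (h1 i) j
        simp only [h3] at h2
        funext k
        match k with
        | 0 =>
          rcases h2 with ⟨⟨a, -⟩, b⟩ | ⟨a, b⟩
          · have : ¬ ∃ i, u i p 0 = 0 := fun ⟨i, hi⟩ => b i hi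
            simp only [U, this]
            cases c <;> simpa using a
          · have : ∃ i, u i p 0 = 0 := ⟨_, ((b _).resolve_left fun h => h rfl).1⟩
            simp only [U, this]
            cases c <;> simpa using a
        | 1 =>
          rcases h2 with ⟨⟨-, a⟩, b⟩ | ⟨-, b⟩
          · have h2 : {i | u i p 0 = 0} = ∅ := eq_empty_of_forall_notMem b
            simp [U, h2, a]
          · obtain ⟨b1, b2⟩ := (b _).resolve_left fun h => h rfl
            exact le_antisymm (not_lt.1 fun hh => b2 _ hh
              (Nat.sInf_mem (s := {i | u i p 0 = 0}) ⟨_, b1⟩)) (Nat.sInf_le b1)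
        | k + 2 => simp only [U, ← h3, Nat.pair_unpair]
    rw [this]
    have cq : ∀ i, Continuous fun q : N × N => q.2 i := fun i => by fun_prop
    refine (isClosed_iInter fun i => (hc i).preimage (by fun_prop)).inter (IsClosed.union
      (((clo_eq (cq _) (· = _)).inter (clo_eq (cq _) (· = _))).inter
        (isClosed_iInter fun i => clo_eq (cq _) (· ≠ _))) ((clo_eq (cq _) (· = _)).inter
      (isClosed_iInter fun j => (clo_eq (cq _) (· ≠ _)).union ((clo_eq (cq _) (· = _)).inter
        (isClosed_iInter fun i => isClosed_iInter fun _ => clo_eq (cq _) (· ≠ _))))))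
  · cases c <;> simp [U, hA]

theorem cg_meas (A : Set N) (hA : MeasurableSet A) : CG A := by
  let m : MeasurableSpace N :=
    { MeasurableSet' := CG
      measurableSet_empty := by simpa using cg_clopen 0 ∅
      measurableSet_compl := fun s hs => by simpa [iUnion_const] using cg_union (fun _ => s) (fun _ => hs) false
      measurableSet_iUnion := fun f hf => by simpa using cg_union f hf true }
  exact @measurable_pi_lambda N ℕ (fun _ => ℕ) m _ id (fun i s _ => cg_clopen i s) A hA

theorem cg_fun {κ : Type} [Countable κ] [Nonempty κ] (β : N → κ → ℕ)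
    (hβ : ∀ k, Measurable fun p => β p k) :
    ∃ (u : N → N) (ι : κ → ℕ), Measurable u ∧ IsClosed {q : N × N | q.2 = u q.1} ∧
      ∀ p k, u p (ι k) = β p k := by
  choose u hm hc hA using fun (t : κ × ℕ) => cg_meas {p | β p t.1 = t.2}
    (measurableSet_setOfPred.2 (meas_nat _ (hβ t.1) (· = t.2)))
  obtain ⟨e⟩ := nonempty_equiv_of_countable (α := κ ⊕ (κ × ℕ) × ℕ) (β := ℕ)
  let U : N → N := fun p n => Sum.elim (β p) (fun t => u t.1 p t.2) (e.symm n)
  refine ⟨U, fun k => e (Sum.inl k), measurable_pi_lambda _ fun n => ?_, ?_,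
    fun p k => by simp [U]⟩
  · simp only [U]
    rcases e.symm n with k | t
    · exact hβ k
    · exact (measurable_pi_apply _).comp (hm _)
  · have : {q : N × N | q.2 = U q.1} = ⋂ t : κ × ℕ, ((fun q : N × N =>
        (q.1, fun j => q.2 (e (Sum.inr (t, j))))) ⁻¹' {q | q.2 = u t q.1} ∩
        ({q | q.2 (e (Sum.inl t.1)) ≠ t.2} ∪ {q | q.2 (e (Sum.inr (t, 0))) = 0})) := by
      ext ⟨p, v⟩
      simp only [mem_ofPred_eq, mem_inter_iff, mem_iInter, mem_preimage, mem_union]
      constructor
      · rintro rfl t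
        refine ⟨by funext j; simp [U], ?_⟩
        by_cases h : β p t.1 = t.2
        · exact Or.inr (by simpa [U] using (hA t p).1 h)
        · exact Or.inl (by simpa [U] using h)
      · intro h
        funext n
        obtain ⟨n, rfl⟩ := e.surjective n
        rcases n with k | ⟨t, j⟩
        · have := (h (k, v (e (Sum.inl k)))).2.resolve_left fun h => h rfl
          rw [congrFun (h _).1 0, ← hA] at this
          simpa [U] using this.symm
        · simpa [U] using congrFun (h t).1 j
    rw [this]
    have cq : ∀ i, Continuous fun q : N × N => q.2 i := fun i => by fun_prop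
    exact isClosed_iInter fun t => ((hc t).preimage (by fun_prop)).inter
      ((clo_eq (cq _) (· ≠ _)).union (clo_eq (cq _) (· = _)))

end Pool.Agent.Lead.Clr1
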