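import Mathlib
import Pool.Agent.Lead.Clr1

namespace Pool.Agent.Lead.Clr2
open Set Filter Topology MeasureTheory Pool.Agent.Lead.Clr1

def Ext (s : List ℕ) (x : N) : Prop := ∀ i (h : i < s.length), x i = s[i]

theorem Ext.mono {s s' : List ℕ} {x : N} (h : Ext s' x) (hp : s <+: s') : Ext s x :=
  fun i hi => (h i (lt_of_lt_of_le hi hp.length_le)).trans (hp.getElem hi).symm

def res (x : N) (l : ℕ) : List ℕ := List.ofFn fun i : Fin l => x i

theorem ext_res (x : N) (l : ℕ) (y : N) : Ext (res x l) y ↔ ∀ i < l, y i = x i := by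
  simp [Ext, res]

theorem prefix_res {s : List ℕ} {x : N} (h : Ext s x) {l : ℕ} (hl : s.length ≤ l) :
    s <+: res x l := by
  rw [List.prefix_iff_getElem]
  exact ⟨by simpa [res] using hl, fun i hi => by simp [res, h i hi]⟩

theorem ext_ex (s : List ℕ) : ∃ x, Ext s x := ⟨fun i => s.getD i 0, fun i h => by simp [h]⟩

theorem loc {f : N → ℕ} (hf : Continuous f) (x : N) :
    ∀ᶠ l in atTop, ∀ y, Ext (res x l) y → f y = f x := by
  obtain ⟨_, ⟨z, n, rfl⟩, h4, h5⟩ :=
    (PiNat.isTopologicalBasis_cylinders (fun _ : ℕ => ℕ)).exists_subset_of_mem_open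
      (show x ∈ f ⁻¹' {f x} from rfl) ((isOpen_discrete _).preimage hf)
  filter_upwards [eventually_ge_atTop n] with l hl y hy
  refine h5 fun i hi => ?_
  rw [(ext_res x l y).1 hy i (lt_of_lt_of_le hi hl), h4 i hi]

theorem ext_nhds {s : List ℕ} : IsOpen {x | Ext s x} := by
  have : {x | Ext s x} = ⋂ i : Fin s.length, (fun x : N => x i) ⁻¹' {s[i]} := by
    ext x; simp [Ext, Fin.forall_iff]
  rw [this]
  exact isOpen_iInter_of_finite fun i => (isOpen_discrete _).preimage (continuous_apply _)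

def Sep (f : N → N) (s : List ℕ) (g : N → N) (t : List ℕ) : Prop :=
  ∃ i, ∀ x y, Ext s x → Ext t y → f x i ≠ g y i

theorem Sep.symm {f g s t} (h : Sep f s g t) : Sep g t f s :=
  let ⟨i, h⟩ := h; ⟨i, fun x y hx hy e => h y x hy hx e.symm⟩

theorem Sep.mono {f g s t s' t'} (h : Sep f s g t) (hs : s <+: s') (ht : t <+: t') :
    Sep f s' g t' := let ⟨i, h⟩ := h; ⟨i, fun x y hx hy => h x y (hx.mono hs) (hy.mono ht)⟩

theorem sep_of {f g : N → N} (hf : Continuous f) (hg : Continuous g) {x y : N} (h : f x ≠ g y) :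
    ∀ᶠ l in atTop, Sep f (res x l) g (res y l) := by
  obtain ⟨i, hi⟩ := Function.ne_iff.1 h
  filter_upwards [loc ((continuous_apply i).comp hf) x, loc ((continuous_apply i).comp hg) y]
    with l h1 h2
  exact ⟨i, fun x' y' hx hy e => hi ((h1 x' hx).symm.trans (e.trans (h2 y' hy)))⟩

theorem sep_ext {f g : N → N} (hf : Continuous f) (hg : Continuous g) {x y : N} (h : f x ≠ g y)
    {s t} (hs : Ext s x) (ht : Ext t y) : ∃ s' t', s <+: s' ∧ t <+: t' ∧ Sep f s' g t' := by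
  obtain ⟨l, h1, h2, h3⟩ := ((sep_of hf hg h).and ((eventually_ge_atTop s.length).and
    (eventually_ge_atTop t.length))).exists
  exact ⟨_, _, prefix_res hs h2, prefix_res ht h3, h1⟩

def pick (bit : Bool) (a1 a2 : List ℕ) : List ℕ :=
  if bit = true ∨ a2.length ≠ a1.length then a1 else a2

theorem pick_len (bit a1 a2) : (pick bit a1 a2).length = a1.length := by
  unfold pick; split_ifs with h
  · rfl
  · push Not at h; exact h.2

theorem lemR {f g : N → N} (hf : Continuous f) (hg : Continuous g) {s t : List ℕ}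
    (h : ∀ t1, t <+: t1 → ∃ s' t', s <+: s' ∧ t1 <+: t' ∧ Sep f s' g t') :
    ∃ a1 a2, ∀ t1, t <+: t1 → ∃ bit d, Sep f (s ++ pick bit a1 a2) g (t1 ++ d) := by
  by_cases hc : ∀ x1 x2, Ext s x1 → Ext s x2 → f x1 = f x2
  · refine ⟨[], [], fun t1 ht => ?_⟩
    obtain ⟨s', _, h1, ⟨d, rfl⟩, i, h3⟩ := h t1 ht
    obtain ⟨x0, hx0⟩ := ext_ex s'
    refine ⟨true, d, i, fun x y hx hy => ?_⟩
    rw [hc x x0 (by simpa [pick] using hx) (hx0.mono h1)]
    exact h3 x0 y hx0 hy
  · push Not at hc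
    obtain ⟨x1, x2, h1, h2, hne⟩ := hc
    obtain ⟨i, hi⟩ := Function.ne_iff.1 hne
    obtain ⟨l, l1, l2, l3⟩ := ((loc ((continuous_apply i).comp hf) x1).and
      ((loc ((continuous_apply i).comp hf) x2).and (eventually_ge_atTop s.length))).exists
    obtain ⟨a1, e1⟩ := prefix_res h1 l3
    obtain ⟨a2, e2⟩ := prefix_res h2 l3
    have hl : a2.length = a1.length := by
      have b1 := congrArg List.length e1
      have b2 := congrArg List.length e2
      simp [res] at b1 b2; omega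
    refine ⟨a1, a2, fun t1 _ => ?_⟩
    obtain ⟨y, hy⟩ := ext_ex t1
    obtain ⟨l', k1, k2⟩ := ((loc ((continuous_apply i).comp hg) y).and
      (eventually_ge_atTop t1.length)).exists
    obtain ⟨d, e3⟩ := prefix_res hy k2
    by_cases hh : f x1 i = g y i
    · refine ⟨false, d, i, fun x' y' hx' hy' e => hi ?_⟩
      have : pick false a1 a2 = a2 := by simp [pick, hl]
      rw [this, e2] at hx'
      rw [e3] at hy'
      exact hh.trans ((k1 y' hy').symm.trans (e.symm.trans (l2 x' hx')))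
    · refine ⟨true, d, i, fun x' y' hx' hy' e => hh ?_⟩
      have : pick true a1 a2 = a1 := by simp [pick]
      rw [this, e1] at hx'
      rw [e3] at hy'
      exact (l1 x' hx').symm.trans (e.trans (k1 y' hy'))

abbrev SR := ℕ → List ℕ → ℕ → List ℕ → Prop

def Good (S : SR) (n : ℕ) (s t : List ℕ) : Prop :=
  ∀ m s' t', s <+: s' → t <+: t' → ∃ s'' t'', s' <+: s'' ∧ t' <+: t'' ∧ S n s'' m t''

def GoodB (S : SR) (b : Bool) (n : ℕ) (s t : List ℕ) : Prop :=
  (b = true → Good S n s t) ∧ (b = false → Good S n t s)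

def SB (S : SR) (b : Bool) (n m : ℕ) (s t : List ℕ) : Prop :=
  (b = true → S n s m t) ∧ (b = false → S n t m s)

theorem Good.mono {S n s t s' t'} (h : Good S n s t) (hs : s <+: s') (ht : t <+: t') :
    Good S n s' t' := fun m a b ha hb => h m a b (hs.trans ha) (ht.trans hb)

theorem GoodB.mono {S b n s t s' t'} (h : GoodB S b n s t) (hs : s <+: s') (ht : t <+: t') :
    GoodB S b n s' t' := ⟨fun e => (h.1 e).mono hs ht, fun e => (h.2 e).mono ht hs⟩

abbrev St := List ℕ × List ℕ × ℕ × Bool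
abbrev Mv := Bool × List ℕ × ℕ × Bool

def OK2 (S : SR) (k : ℕ) (st : St) (a : List ℕ × List ℕ) (c : ℕ) (mv : Mv) : Prop :=
  (k = 0 → GoodB S mv.2.2.2 mv.2.2.1 (st.1 ++ pick mv.1 a.1 a.2) (st.2.1 ++ [c] ++ mv.2.1)) ∧
  ∀ m, k = m + 1 → mv.2.2 = st.2.2 ∧
    SB S st.2.2.2 st.2.2.1 m (st.1 ++ pick mv.1 a.1 a.2) (st.2.1 ++ [c] ++ mv.2.1)

def OK1 (S : SR) (k : ℕ) (st : St) (a : List ℕ × List ℕ) : Prop := ∀ c, ∃ mv, OK2 S k st a c mv

variable {F : ℕ → N → N} (hF : ∀ n, Continuous (F n))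

def SF (F : ℕ → N → N) : SR := fun n s m t => Sep (F n) s (F m) t

include hF

theorem E1 (m : ℕ) (st : St) (h : GoodB (SF F) st.2.2.2 st.2.2.1 st.1 st.2.1) :
    ∃ a, OK1 (SF F) (m + 1) st a := by
  obtain ⟨s, t, n, b⟩ := st
  cases b
  · obtain ⟨a1, a2, h2⟩ := lemR (hF m) (hF n) (s := s) (t := t) fun t1 ht => by
      obtain ⟨t', s', h1, h2, h3⟩ := h.2 rfl m t1 s ht (List.prefix_refl _)
      exact ⟨s', t', h2, h1, h3.symm⟩
    refine ⟨(a1, a2), fun c => ?_⟩
    obtain ⟨bit, d, h3⟩ := h2 (t ++ [c]) (List.prefix_append _ _)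
    refine ⟨(bit, d, n, false), by simp, fun m' hm => ⟨rfl, by simp, fun _ => ?_⟩⟩
    obtain rfl : m = m' := by omega
    exact h3.symm
  · obtain ⟨a1, a2, h2⟩ := lemR (hF n) (hF m) (s := s) (t := t) fun t1 ht =>
      h.1 rfl m s t1 (List.prefix_refl _) ht
    refine ⟨(a1, a2), fun c => ?_⟩
    obtain ⟨bit, d, h3⟩ := h2 (t ++ [c]) (List.prefix_append _ _)
    refine ⟨(bit, d, n, true), by simp, fun m' hm => ⟨rfl, fun _ => ?_, by simp⟩⟩
    obtain rfl : m = m' := by omega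
    exact h3

theorem notgood {n s t} (h : ¬ Good (SF F) n s t) : ∃ m s' t', s <+: s' ∧ t <+: t' ∧
    ∀ x y, Ext s' x → Ext t' y → F n x = F m y := by
  unfold Good at h
  push Not at h
  obtain ⟨m, s', t', h1, h2, h3⟩ := h
  refine ⟨m, s', t', h1, h2, fun x y hx hy => ?_⟩
  by_contra hne
  obtain ⟨a, b, k1, k2, k3⟩ := sep_ext (hF n) (hF m) hne hx hy
  exact h3 a b k1 k2 k3

theorem E0 (st : St) (h0 : st.1 = []) {n s t} (h : Good (SF F) n s t) :
    ∃ a, OK1 (SF F) 0 st a := by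
  by_cases hc : ∃ s', s <+: s' ∧ ∀ x1 x2, Ext s' x1 → Ext s' x2 → F n x1 = F n x2
  · obtain ⟨s', h1, h2⟩ := hc
    obtain ⟨x0, hx0⟩ := ext_ex s'
    obtain ⟨y0, hy0⟩ := ext_ex t
    let l := max s'.length t.length
    have p1 : s' <+: res x0 l := prefix_res hx0 (le_max_left _ _)
    have p2 : t <+: res y0 l := prefix_res hy0 (le_max_right _ _)
    refine ⟨(res x0 l, res y0 l), fun c => ?_⟩
    by_cases hg : Good (SF F) n (res x0 l) (st.2.1 ++ [c])
    · exact ⟨(true, [], n, true), fun _ => ⟨fun _ => by simpa [h0, pick] using hg, by simp⟩,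
        by simp⟩
    · obtain ⟨m, s2, _, k1, ⟨d, rfl⟩, k3⟩ := notgood hF hg
      refine ⟨(false, d, m, false), fun _ => ⟨by simp, fun _ => ?_⟩, by simp⟩
      have : pick false (res x0 l) (res y0 l) = res y0 l := by simp [pick, res]
      simp only [h0, this, List.nil_append]
      intro m' t' s3 ht' hs3
      obtain ⟨a, b, k4, k5, i, k6⟩ := h m' s2 s3 (h1.trans (p1.trans k1)) (p2.trans hs3)
      obtain ⟨x1, hx1⟩ := ext_ex a
      refine ⟨t', b, List.prefix_refl _, k5, i, fun y x hy hx => ?_⟩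
      rw [← k3 x1 y (hx1.mono k4) (hy.mono ht')]
      exact k6 x1 x hx1 hx
  · push Not at hc
    refine ⟨(s, s), fun c => ⟨(true, [], n, true), fun _ => ⟨fun _ => ?_, by simp⟩, by simp⟩⟩
    simp only [h0, pick, true_or, if_true, List.nil_append, List.append_nil]
    intro m s' t' hs' _
    obtain ⟨x1, x2, k1, k2, k3⟩ := hc s' hs'
    obtain ⟨y, hy⟩ := ext_ex t'
    by_cases e : F n x1 = F m y
    · exact sep_ext (hF n) (hF m) (fun e' => k3 (e.trans e'.symm)) k2 hy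
    · exact sep_ext (hF n) (hF m) e k1 hy

theorem collide (h : ∀ n s t, ¬ Good (SF F) n s t) (a b : ℕ) :
    ∃ x y : N, x 0 = a ∧ y 0 = b ∧ range (fun n => F n x) = range (fun n => F n y) := by
  let U : ℕ → Set (N × N) := fun n => {q | ∃ m s t, Ext s q.1 ∧ Ext t q.2 ∧
    ∀ x y, Ext s x → Ext t y → F n x = F m y}
  have hU : ∀ n, IsOpen (U n) := by
    intro n
    rw [isOpen_iff_mem_nhds]
    rintro q ⟨m, s, t, h1, h2, h3⟩
    filter_upwards [((ext_nhds.preimage continuous_fst).inter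
      (ext_nhds.preimage continuous_snd)).mem_nhds (show q ∈ _ ∩ _ from ⟨h1, h2⟩)] with q' hq'
    exact ⟨m, s, t, hq'.1, hq'.2, h3⟩
  have hD : ∀ n, Dense (U n) := by
    intro n q
    have : ∀ l, ∃ q' ∈ U n, Ext (res q.1 l) q'.1 ∧ Ext (res q.2 l) q'.2 := by
      intro l
      obtain ⟨m, s, t, k1, k2, k3⟩ := notgood hF (h n (res q.1 l) (res q.2 l))
      obtain ⟨x, hx⟩ := ext_ex s
      obtain ⟨y, hy⟩ := ext_ex t
      exact ⟨(x, y), ⟨m, s, t, hx, hy, k3⟩, hx.mono k1, hy.mono k2⟩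
    choose z hz h1 h2 using this
    refine mem_closure_of_tendsto (f := z) (b := atTop) ?_ (Eventually.of_forall hz)
    have t : ∀ (w : ℕ → N) (x : N), (∀ l, Ext (res x l) (w l)) → Tendsto w atTop (𝓝 x) := by
      intro w x hw
      refine tendsto_pi_nhds.2 fun i => tendsto_const_nhds.congr' ?_
      filter_upwards [eventually_gt_atTop i] with k hk
      exact ((ext_res _ _ _).1 (hw k) i hk).symm
    exact (t _ _ h1).prodMk_nhds (t _ _ h2)
  have hd := dense_iInter_of_isOpen (f := fun n => U n ∩ Prod.swap ⁻¹' U n)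
    (fun n => (hU n).inter ((hU n).preimage continuous_swap))
    (fun n => (hD n).inter_of_isOpen_left
      ((hD n).preimage (Homeomorph.prodComm N N).isOpenMap) (hU n))
  obtain ⟨⟨x, y⟩, ⟨h1, h2⟩, h3⟩ := hd.inter_open_nonempty
    (Prod.fst ⁻¹' {x | Ext [a] x} ∩ Prod.snd ⁻¹' {x | Ext [b] x})
    ((ext_nhds.preimage continuous_fst).inter (ext_nhds.preimage continuous_snd))
    ⟨(fun _ => a, fun _ => b), by simp [Ext], by simp [Ext]⟩
  refine ⟨x, y, h1 0 (by simp), h2 0 (by simp), Subset.antisymm ?_ ?_⟩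
  · rintro _ ⟨n, rfl⟩
    obtain ⟨m, s, t, k1, k2, k3⟩ := (mem_iInter.1 h3 n).1
    exact ⟨m, (k3 x y k1 k2).symm⟩
  · rintro _ ⟨n, rfl⟩
    obtain ⟨m, s, t, k1, k2, k3⟩ := (mem_iInter.1 h3 n).2
    exact ⟨m, (k3 y x k1 k2).symm⟩

end Pool.Agent.Lead.Clr2
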