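import Mathlib
import Pool.Agent.Lead.Clr2

namespace Pool.Agent.Lead.Clr3
open Set Filter Topology MeasureTheory Pool.Agent.Lead.Clr1 Pool.Agent.Lead.Clr2

noncomputable def d1 : ℕ → List ℕ × List ℕ := (exists_surjective_nat _).choose
theorem d1_surj : Function.Surjective d1 := (exists_surjective_nat _).choose_spec
noncomputable def d2 : ℕ → Mv := (exists_surjective_nat _).choose
theorem d2_surj : Function.Surjective d2 := (exists_surjective_nat _).choose_spec

abbrev K := (ℕ × St) ⊕ (ℕ × St × ℕ)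

noncomputable def nxt (st : St) (c1 c2 : ℕ) : St :=
  (st.1 ++ pick (d2 c2).1 (d1 c1.unpair.2).1 (d1 c1.unpair.2).2 ++ [c2],
    st.2.1 ++ [c1] ++ (d2 c2).2.1, (d2 c2).2.2)

variable (ι : K → ℕ)

def c1 (u : N) (k : ℕ) (st : St) : ℕ := Nat.pair (u k) (u (ι (Sum.inl (k, st))))
def c2 (u : N) (k : ℕ) (st : St) : ℕ := u (ι (Sum.inr (k, st, c1 ι u k st)))

noncomputable def run (u : N) : ℕ → St
  | 0 => ([], [], 0, true)
  | k + 1 => nxt (run u k) (c1 ι u k (run u k)) (c2 ι u k (run u k))

theorem lc_param {Z α β : Type} [TopologicalSpace Z] {a : Z → α} (ha : IsLocallyConstant a)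
    (G : α → Z → β) (hG : ∀ c, IsLocallyConstant (G c)) : IsLocallyConstant fun z => G (a z) z := by
  rw [IsLocallyConstant.iff_eventually_eq]
  intro z
  filter_upwards [ha.eventually_eq z, (hG (a z)).eventually_eq z] with y h1 h2
  rw [h1, h2]

theorem lc_ev (i : ℕ) : IsLocallyConstant fun u : N => u i :=
  (IsLocallyConstant.iff_continuous _).2 (continuous_apply i)

theorem run_lc (k : ℕ) : IsLocallyConstant fun u => run ι u k := by
  induction k with
  | zero => exact IsLocallyConstant.const _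
  | succ k ih =>
    refine lc_param ih (fun st u => nxt st (c1 ι u k st) (c2 ι u k st)) fun st => ?_
    have h1 : IsLocallyConstant fun u => c1 ι u k st := (lc_ev k).comp₂ (lc_ev _) Nat.pair
    exact lc_param h1 (fun c u => nxt st c (u (ι (Sum.inr (k, st, c))))) fun c =>
      (lc_ev _).comp (nxt st c)

theorem run_pre1 (u : N) (k : ℕ) : (run ι u k).1 <+: (run ι u (k + 1)).1 := by
  simp [run, nxt, List.append_assoc]
theorem run_pre2 (u : N) (k : ℕ) : (run ι u k).2.1 <+: (run ι u (k + 1)).2.1 := by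
  simp [run, nxt, List.append_assoc]
theorem run_len (u : N) (k : ℕ) : k ≤ (run ι u k).1.length ∧ k ≤ (run ι u k).2.1.length := by
  induction k with
  | zero => simp
  | succ k ih => simp only [run, nxt, List.length_append, List.length_singleton]; omega

def lim (s : ℕ → List ℕ) : N := fun i => (s (i + 1)).getD i 0

theorem ext_lim (s : ℕ → List ℕ) (h1 : ∀ k, s k <+: s (k + 1)) (h2 : ∀ k, k ≤ (s k).length)
    (k : ℕ) : Ext (s k) (lim s) := by
  have mono : ∀ a b, a ≤ b → s a <+: s b := by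
    intro a b hab
    induction hab with
    | refl => exact List.prefix_refl _
    | step _ ih => exact ih.trans (h1 _)
  intro i hi
  have h3 : i < (s (i + 1)).length := h2 (i + 1)
  rw [lim, List.getD_eq_getElem _ _ h3, (mono _ _ (le_max_left (i + 1) k)).getElem h3,
    (mono _ _ (le_max_right (i + 1) k)).getElem hi]

noncomputable def Φ (u : N) : N × N := (lim fun k => (run ι u k).1, lim fun k => (run ι u k).2.1)

theorem Φ_cont : Continuous (Φ ι) :=
  (continuous_pi fun i => ((run_lc ι (i + 1)).comp fun st : St => st.1.getD i 0).continuous).prodMk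
    (continuous_pi fun i => ((run_lc ι (i + 1)).comp fun st : St => st.2.1.getD i 0).continuous)

theorem Φ1 (u k) : Ext (run ι u k).1 (Φ ι u).1 :=
  ext_lim _ (run_pre1 ι u) (fun k => (run_len ι u k).1) k
theorem Φ2 (u k) : Ext (run ι u k).2.1 (Φ ι u).2 :=
  ext_lim _ (run_pre2 ι u) (fun k => (run_len ι u k).2) k

noncomputable def rd (q : N × N) : ℕ → ℕ × ℕ
  | 0 => (0, 0)
  | k + 1 => ((rd q k).1 + (d1 (q.2 (rd q k).2).unpair.2).1.length + 1,
      (rd q k).2 + 1 + (d2 (q.1 ((rd q k).1 + (d1 (q.2 (rd q k).2).unpair.2).1.length))).2.1.length)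

noncomputable def dec (q : N × N) : N := fun k => (q.2 (rd q k).2).unpair.1

theorem lc1 (i : ℕ) : IsLocallyConstant fun q : N × N => q.1 i :=
  (lc_ev i).comp_continuous continuous_fst
theorem lc2 (i : ℕ) : IsLocallyConstant fun q : N × N => q.2 i :=
  (lc_ev i).comp_continuous continuous_snd

theorem rd_lc (k : ℕ) : IsLocallyConstant fun q => rd q k := by
  induction k with
  | zero => exact IsLocallyConstant.const _
  | succ k ih =>
    refine lc_param ih (fun r q => (r.1 + (d1 (q.2 r.2).unpair.2).1.length + 1,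
      r.2 + 1 + (d2 (q.1 (r.1 + (d1 (q.2 r.2).unpair.2).1.length))).2.1.length)) fun r => ?_
    exact lc_param (lc2 r.2) (fun c q => (r.1 + (d1 c.unpair.2).1.length + 1,
      r.2 + 1 + (d2 (q.1 (r.1 + (d1 c.unpair.2).1.length))).2.1.length)) fun c =>
      (lc1 _).comp fun e => (r.1 + (d1 c.unpair.2).1.length + 1, r.2 + 1 + (d2 e).2.1.length)

theorem dec_cont : Continuous dec := continuous_pi fun k =>
  (lc_param (rd_lc k) (fun r q => (q.2 r.2).unpair.1) fun r =>
    (lc2 _).comp fun c => c.unpair.1).continuous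

theorem read1 (u k) : (Φ ι u).2 (run ι u k).2.1.length = c1 ι u k (run ι u k) := by
  rw [Φ2 ι u (k + 1) _ (by simp [run, nxt])]
  simp [run, nxt]

theorem read2 (u k) : (Φ ι u).1 ((run ι u k).1.length +
    (d1 (c1 ι u k (run ι u k)).unpair.2).1.length) = c2 ι u k (run ι u k) := by
  rw [Φ1 ι u (k + 1) _ (by simp [run, nxt, pick_len])]
  simp only [run, nxt]
  rw [List.getElem_append_right (by simp [pick_len])]
  simp

theorem rd_Φ (u k) : rd (Φ ι u) k = ((run ι u k).1.length, (run ι u k).2.1.length) := by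
  induction k with
  | zero => rfl
  | succ k ih =>
    simp only [rd, ih, read1, read2]
    simp [run, nxt, pick_len, add_assoc, add_comm 1]

theorem dec_Φ (u : N) : dec (Φ ι u) = u := by
  funext k
  simp [dec, rd_Φ, read1, c1]

def D (p : N) (n : ℕ) (s : List ℕ) (i a : ℕ) : Prop :=
  ∃ k, p (Encodable.encode (n, res p k, s, i)) = a + 1

def S (p : N) : SR := fun n s m t =>
  ∃ i, ∀ s' t' a, s <+: s' → t <+: t' → ¬ (D p n s' i a ∧ D p m t' i a)

theorem meas_D (n s i a) : Measurable fun p => D p n s i a := by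
  refine Measurable.exists fun k => meas_nat _ ?_ (· = a + 1)
  have h : IsLocallyConstant fun p : N => res p k := by
    rw [IsLocallyConstant.iff_eventually_eq]
    intro p
    filter_upwards [ext_nhds.mem_nhds (show p ∈ {x | Ext (res p k) x} from
      (ext_res _ _ _).2 fun _ _ => rfl)] with y hy
    exact congrArg List.ofFn (funext fun i => (ext_res _ _ _).1 hy i i.2)
  exact (lc_param h (fun r p => p (Encodable.encode (n, r, s, i))) fun r =>
    lc_ev _).continuous.measurable

theorem meas_S (n s m t) : Measurable fun p => S p n s m t :=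
  Measurable.exists fun _ => Measurable.forall fun _ => Measurable.forall fun _ =>
    Measurable.forall fun _ => measurable_const.imp (measurable_const.imp
      ((meas_D _ _ _ _).and (meas_D _ _ _ _)).not)

theorem meas_Good (n s t) : Measurable fun p => Good (S p) n s t :=
  Measurable.forall fun _ => Measurable.forall fun _ => Measurable.forall fun _ =>
    measurable_const.imp (measurable_const.imp (Measurable.exists fun _ => Measurable.exists
      fun _ => measurable_const.and (measurable_const.and (meas_S _ _ _ _))))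

theorem meas_OK2 (k st a c mv) : Measurable fun p => OK2 (S p) k st a c mv :=
  (measurable_const.imp ((measurable_const.imp (meas_Good _ _ _)).and
    (measurable_const.imp (meas_Good _ _ _)))).and (Measurable.forall fun _ =>
      measurable_const.imp (measurable_const.and ((measurable_const.imp (meas_S _ _ _ _)).and
        (measurable_const.imp (meas_S _ _ _ _)))))

theorem meas_OK1 (k st a) : Measurable fun p => OK1 (S p) k st a :=
  Measurable.forall fun _ => Measurable.exists fun _ => meas_OK2 _ _ _ _ _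

noncomputable def β (p : N) : K → ℕ
  | Sum.inl t => sInf {e | OK1 (S p) t.1 t.2 (d1 e)}
  | Sum.inr t => sInf {e | OK2 (S p) t.1 t.2.1 (d1 t.2.2.unpair.2) t.2.2 (d2 e)}

theorem code (f : N × N → ℕ → N) (hf : Continuous f) :
    ∃ p : N, S p = SF (fun n x => f (p, x) n) := by
  classical
  let P : ℕ → ℕ → Prop := fun j a => ∃ n q s i, j = Encodable.encode (n, q, s, i) ∧
    ∀ p' x, Ext q p' → Ext s x → f (p', x) n i = a
  let p : N := fun j => if h : ∃ a, P j a then h.choose + 1 else 0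
  have hp : ∀ (n : ℕ) (q s : List ℕ) (i a : ℕ), p (Encodable.encode (n, q, s, i)) = a + 1 ↔
      ∀ p' x, Ext q p' → Ext s x → f (p', x) n i = a := by
    intro n q s i a
    have e : ∀ a, P (Encodable.encode (n, q, s, i)) a ↔
        ∀ p' x, Ext q p' → Ext s x → f (p', x) n i = a := by
      intro a
      refine ⟨?_, fun h => ⟨n, q, s, i, rfl, h⟩⟩
      rintro ⟨n', q', s', i', h1, h2⟩
      have := Encodable.encode_injective h1
      simp only [Prod.mk.injEq] at this
      obtain ⟨rfl, rfl, rfl, rfl⟩ := this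
      exact h2
    simp only [p]
    split_ifs with h
    · have h1 := (e _).1 h.choose_spec
      obtain ⟨p', hp'⟩ := ext_ex q
      obtain ⟨x, hx⟩ := ext_ex s
      exact ⟨fun k => (Nat.add_right_cancel k) ▸ h1,
        fun k => congrArg (· + 1) ((h1 p' x hp' hx).symm.trans (k p' x hp' hx))⟩
    · exact ⟨fun k => k.elim, fun k => (h ⟨a, (e a).2 k⟩).elim⟩
  have snd : ∀ n s i a, D p n s i a → ∀ x, Ext s x → f (p, x) n i = a := by
    rintro n s i a ⟨k, hk⟩ x hx
    exact (hp _ _ _ _ _).1 hk p x ((ext_res _ _ _).2 fun _ _ => rfl) hx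
  have cmp : ∀ n x i, ∀ᶠ l in atTop, D p n (res x l) i (f (p, x) n i) := by
    intro n x i
    have hc : Continuous fun q : N × N => f q n i := by fun_prop
    obtain ⟨U, V, hU, hV, h1, h2, h3⟩ := isOpen_prod_iff.1 ((isOpen_discrete {f (p, x) n i}).preimage
      hc) p x rfl
    have t : ∀ (W : Set N) (z : N), IsOpen W → z ∈ W → ∀ᶠ l in atTop, ∀ y, Ext (res z l) y →
        y ∈ W := by
      intro W z hW hz
      obtain ⟨_, ⟨w, n, rfl⟩, h4, h5⟩ :=
        (PiNat.isTopologicalBasis_cylinders (fun _ : ℕ => ℕ)).exists_subset_of_mem_open hz hW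
      filter_upwards [eventually_ge_atTop n] with l hl y hy
      exact h5 fun i hi => by rw [(ext_res z l y).1 hy i (lt_of_lt_of_le hi hl), h4 i hi]
    filter_upwards [t U p hU h1, t V x hV h2] with l k1 k2
    exact ⟨l, (hp _ _ _ _ _).2 fun p' x' a b => h3 (mk_mem_prod (k1 p' a) (k2 x' b))⟩
  refine ⟨p, ?_⟩
  funext n s m t
  refine propext (exists_congr fun i => ⟨fun h x y hx hy e => ?_, ?_⟩)
  · obtain ⟨l, k1, k2, k3, k4⟩ := ((cmp n x i).and ((cmp m y i).and
      ((eventually_ge_atTop s.length).and (eventually_ge_atTop t.length)))).exists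
    exact h _ _ _ (prefix_res hx k3) (prefix_res hy k4) ⟨k1, (show f (p, x) n i = f (p, y) m i from e) ▸ k2⟩
  · rintro h s' t' a hs ht ⟨k1, k2⟩
    obtain ⟨x, hx⟩ := ext_ex s'
    obtain ⟨y, hy⟩ := ext_ex t'
    exact h x y (hx.mono hs) (hy.mono ht) ((snd _ _ _ _ k1 x hx).trans (snd _ _ _ _ k2 y hy).symm)

theorem win {F : ℕ → N → N} (hF : ∀ n, Continuous (F n)) (p u : N) (hp : S p = SF F)
    (hu : ∀ k, u (ι k) = β p k) {n s t} (h : Good (SF F) n s t) :
    range (fun n => F n (Φ ι u).1) ≠ range (fun n => F n (Φ ι u).2) := by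
  have step : ∀ k, (∃ a, OK1 (SF F) k (run ι u k) a) → OK2 (SF F) k (run ι u k)
      (d1 (c1 ι u k (run ι u k)).unpair.2) (c1 ι u k (run ι u k)) (d2 (c2 ι u k (run ι u k))) := by
    rintro k ⟨a, ha⟩
    obtain ⟨e, rfl⟩ := d1_surj a
    have h1 : OK1 (S p) k (run ι u k) (d1 (β p (Sum.inl (k, run ι u k)))) :=
      Nat.sInf_mem (s := {e | OK1 (S p) k (run ι u k) (d1 e)}) ⟨e, by rw [hp]; exact ha⟩
    obtain ⟨mv, h2⟩ := h1 (c1 ι u k (run ι u k))
    obtain ⟨e2, rfl⟩ := d2_surj mv
    have e1 : (c1 ι u k (run ι u k)).unpair.2 = β p (Sum.inl (k, run ι u k)) := by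
      simp [c1, hu]
    rw [← hp, c2, hu]
    exact Nat.sInf_mem (s := {e | OK2 (S p) k (run ι u k) (d1 (c1 ι u k (run ι u k)).unpair.2)
      (c1 ι u k (run ι u k)) (d2 e)}) ⟨e2, by rw [e1]; exact h2⟩
  have inv : ∀ k, GoodB (SF F) (run ι u (k + 1)).2.2.2 (run ι u (k + 1)).2.2.1
      (run ι u (k + 1)).1 (run ι u (k + 1)).2.1 ∧ (run ι u (k + 1)).2.2 = (run ι u 1).2.2 := by
    intro k
    induction k with
    | zero =>
      exact ⟨((step 0 (E0 hF _ rfl h)).1 rfl).mono (List.prefix_append _ _) (List.prefix_refl _),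
        rfl⟩
    | succ k ih =>
      have h2 : (run ι u (k + 2)).2.2 = (run ι u (k + 1)).2.2 :=
        ((step (k + 1) (E1 hF k _ ih.1)).2 k rfl).1
      refine ⟨?_, h2.trans ih.2⟩
      rw [h2]
      exact ih.1.mono (run_pre1 ι u _) (run_pre2 ι u _)
  have fin : ∀ m, ((run ι u 1).2.2.2 = true → F (run ι u 1).2.2.1 (Φ ι u).1 ≠ F m (Φ ι u).2) ∧
      ((run ι u 1).2.2.2 = false → F (run ι u 1).2.2.1 (Φ ι u).2 ≠ F m (Φ ι u).1) := by
    intro m
    have h2 := ((step (m + 1) (E1 hF m _ (inv m).1)).2 m rfl).2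
    rw [(inv m).2] at h2
    have x1 := (Φ1 ι u (m + 2)).mono (List.prefix_append _ [c2 ι u (m + 1) (run ι u (m + 1))])
    have x2 := Φ2 ι u (m + 2)
    constructor <;> intro hb e
    · obtain ⟨i, hi⟩ := h2.1 hb
      exact hi _ _ x1 x2 (congrFun e i)
    · obtain ⟨i, hi⟩ := h2.2 hb
      exact hi _ _ x2 x1 (congrFun e i)
  intro e
  cases hb : (run ι u 1).2.2.2
  · obtain ⟨m, hm⟩ : F (run ι u 1).2.2.1 (Φ ι u).2 ∈ range (fun n => F n (Φ ι u).1) :=
      e ▸ mem_range_self _
    exact (fin m).2 hb hm.symm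
  · obtain ⟨m, hm⟩ : F (run ι u 1).2.2.1 (Φ ι u).1 ∈ range (fun n => F n (Φ ι u).2) :=
      e ▸ mem_range_self _
    exact (fin m).1 hb hm.symm

theorem main2 : ∃ g : N × N → N × N, Measurable g ∧ IsClosed {z : (N × N) × N × N | g z.1 = g z.2} ∧
    ¬ ∃ f : N × N → ℕ → N, Continuous f ∧ ∀ x x', g x = g x' ↔ range (f x) = range (f x') := by
  classical
  obtain ⟨u, ι, hm, hc, hu⟩ := cg_fun β (by
    rintro (t | t)
    · exact meas_sInf _ fun e => meas_OK1 _ _ _
    · exact meas_sInf _ fun e => meas_OK2 _ _ _ _ _)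
  let w : N → N × N := fun p => Φ ι (u p)
  have hw : Measurable w := (Φ_cont ι).measurable.comp hm
  have hΓ : IsClosed {z : N × N × N | z.2 = w z.1} := by
    have : {z : N × N × N | z.2 = w z.1} = (fun z => (z.1, dec z.2)) ⁻¹' {q | q.2 = u q.1} ∩
        {z | z.2 = Φ ι (dec z.2)} := by
      ext ⟨p, q⟩
      simp only [mem_ofPred_eq, mem_inter_iff, mem_preimage, w]
      exact ⟨fun h => by rw [h, dec_Φ]; exact ⟨rfl, rfl⟩, fun h => by rw [← h.1]; exact h.2⟩
    rw [this]
    exact (hc.preimage (continuous_fst.prodMk (dec_cont.comp continuous_snd))).inter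
      (isClosed_eq continuous_snd ((Φ_cont ι).comp (dec_cont.comp continuous_snd)))
  let g : N × N → N × N := fun z => (z.1, if z.2 = (w z.1).2 then (w z.1).1 else z.2)
  have hg : ∀ z z' : N × N, g z = g z' ↔ z.1 = z'.1 ∧ (z.2 = z'.2 ∨ (z.2, z'.2) = w z.1 ∨
      (z'.2, z.2) = w z.1) := by
    rintro ⟨p, x⟩ ⟨p', x'⟩
    simp only [g, Prod.mk.injEq, Prod.ext_iff]
    refine and_congr_right ?_
    rintro rfl
    split_ifs <;> grind
  refine ⟨g, measurable_fst.prodMk (Measurable.ite (measurableSet_eq_fun measurable_snd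
    (hw.comp measurable_fst).snd) (hw.comp measurable_fst).fst measurable_snd), ?_, ?_⟩
  · simp only [hg]
    exact (isClosed_eq (by fun_prop) (by fun_prop)).inter ((isClosed_eq (by fun_prop)
      (by fun_prop)).union ((hΓ.preimage (f := fun z : (N × N) × N × N => (z.1.1, z.1.2, z.2.2))
        (by fun_prop)).union (hΓ.preimage
          (f := fun z : (N × N) × N × N => (z.1.1, z.2.2, z.1.2)) (by fun_prop))))
  · rintro ⟨f, hf, h⟩
    obtain ⟨p, hp⟩ := code f hf
    have hF : ∀ n, Continuous fun x => f (p, x) n := fun n => by fun_prop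
    by_cases hG : ∃ n s t, Good (SF fun n x => f (p, x) n) n s t
    · obtain ⟨n, s, t, hG⟩ := hG
      exact win ι hF p (u p) hp (hu p) hG ((h (p, (w p).1) (p, (w p).2)).1
        ((hg _ _).2 ⟨rfl, Or.inr (Or.inl rfl)⟩))
    · push Not at hG
      obtain ⟨x, y, h1, h2, h3⟩ := collide hF hG ((w p).1 0 + (w p).2 0 + 1)
        ((w p).1 0 + (w p).2 0 + 2)
      rcases ((hg _ _).1 ((h (p, x) (p, y)).2 h3)).2 with e | e | e
      · have : x 0 = y 0 := congrFun e 0
        omega
      · have : x 0 = (w p).1 0 := congrFun (congrArg Prod.fst e) 0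
        omega
      · have : x 0 = (w p).2 0 := congrFun (congrArg Prod.snd e) 0
        omega

theorem main : ∃ E : N → N → Prop, Equivalence E ∧ IsClosed {z : N × N | E z.1 z.2} ∧
    (∃ g : N → N × N, Measurable g ∧ ∀ x x', E x x' ↔ g x = g x') ∧
    ¬ ∃ f : N → ℕ → N, Continuous f ∧ ∀ x x', E x x' ↔ range (f x) = range (f x') := by
  obtain ⟨g, h1, h2, h3⟩ := main2
  obtain ⟨e⟩ := nonempty_equiv_of_countable (α := ℕ) (β := ℕ ⊕ ℕ)
  let h : N ≃ₜ N × N := (Homeomorph.piCongrLeft (Y := fun _ => ℕ) e).trans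
    Homeomorph.sumArrowHomeomorphProdArrow
  refine ⟨fun x x' => g (h x) = g (h x'), ⟨fun _ => rfl, Eq.symm, Eq.trans⟩,
    h2.preimage (f := fun z : N × N => (h z.1, h z.2)) (by fun_prop),
    ⟨g ∘ h, h1.comp h.continuous.measurable, fun _ _ => Iff.rfl⟩, ?_⟩
  rintro ⟨f, hf, k⟩
  exact h3 ⟨f ∘ h.symm, hf.comp h.symm.continuous, fun x x' => by
    simpa using k (h.symm x) (h.symm x')⟩

end Pool.Agent.Lead.Clr3
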