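import Mathlib

/-! The first-order language of contact algebras and the algebras `RC(X)`. -/

namespace Pool.Agent.Lead.Cont

open FirstOrder

inductive CF : ℕ → Type
  | zero : CF 0
  | one : CF 0
  | star : CF 1
  | mul : CF 2
  | add : CF 2

inductive CR : ℕ → Type
  | C : CR 2

/-- The language `0, 1, *, ·, +, C` (with equality). -/
def LC : FirstOrder.Language := ⟨CF, CR⟩

/-- Regular closed subsets of `X`. -/
def RC (X : Type) [TopologicalSpace X] : Type := {a : Set X // closure (interior a) = a}

lemma clint (X : Type) [TopologicalSpace X] (a : Set X) :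
    closure (interior (closure (interior a))) = closure (interior a) :=
  closure_interior_idem

lemma rc_union {X : Type} [TopologicalSpace X] (a b : RC X) :
    closure (interior (a.1 ∪ b.1)) = a.1 ∪ b.1 := by
  apply Set.Subset.antisymm
  · refine closure_minimal interior_subset (IsClosed.union ?_ ?_)
    · rw [← a.2]; exact isClosed_closure
    · rw [← b.2]; exact isClosed_closure
  · apply Set.union_subset
    · conv_lhs => rw [← a.2]
      exact closure_mono (interior_mono Set.subset_union_left)
    · conv_lhs => rw [← b.2]
      exact closure_mono (interior_mono Set.subset_union_right)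

lemma rc_star {X : Type} [TopologicalSpace X] (a : RC X) :
    closure (interior (closure a.1ᶜ)) = closure a.1ᶜ := by
  have : IsOpen a.1ᶜ := by rw [← a.2]; exact isClosed_closure.isOpen_compl
  conv_lhs => rw [← this.interior_eq]
  rw [clint, this.interior_eq]

/-- The standard contact algebra of regular closed sets. -/
instance rcStructure (X : Type) [TopologicalSpace X] : LC.Structure (RC X) where
  funMap
    | .zero, _ => ⟨∅, by simp⟩
    | .one, _ => ⟨Set.univ, by simp⟩
    | .star, v => ⟨closure (v 0).1ᶜ, rc_star _⟩
    | .mul, v => ⟨closure (interior ((v 0).1 ∩ (v 1).1)), clint _ _⟩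
    | .add, v => ⟨(v 0).1 ∪ (v 1).1, rc_union _ _⟩
  RelMap
    | .C, v => ((v 0).1 ∩ (v 1).1).Nonempty

end Pool.Agent.Lead.Cont
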