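import Pool.Agent.Lead.CovDefs

namespace Pool.Agent.Lead.Cov

open Finset

variable {V : Type} [Fintype V] [DecidableEq V] (G : SimpleGraph V) [DecidableRel G.Adj]

noncomputable def u1 (v : V) : ℕ → V → ℝ
  | 0, x => if x = v then 0 else 1
  | t + 1, x => if x = v then 0 else ∑ y, step G x y * u1 v t y

lemma step_nonneg (x y : V) : 0 ≤ step G x y := by
  unfold step; split_ifs <;> positivity

lemma u1_nonneg (v : V) (t : ℕ) (x : V) : 0 ≤ u1 G v t x := by
  induction t generalizing x with
  | zero => unfold u1; split_ifs <;> norm_num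
  | succ t ih =>
    unfold u1; split_ifs
    · exact le_rfl
    · exact sum_nonneg fun y _ => mul_nonneg (step_nonneg G _ _) (ih y)

lemma unc_nonneg {k : ℕ} (t : ℕ) (x : Fin k → V) (A : Finset V) : 0 ≤ unc G t x A := by
  induction t generalizing x A with
  | zero => unfold unc; split_ifs <;> norm_num
  | succ t ih =>
    unfold unc; split_ifs
    · exact le_rfl
    · exact sum_nonneg fun y _ => mul_nonneg (prod_nonneg fun i _ => step_nonneg G _ _) (ih _ _)

lemma unc_le {k : ℕ} (t : ℕ) (x : Fin k → V) (A : Finset V) :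
    unc G t x A ≤ ∑ v ∈ A, ∏ i, u1 G v t (x i) := by
  have h0 : ∀ t (x : Fin k → V) v, 0 ≤ ∏ i, u1 G v t (x i) :=
    fun t x v => prod_nonneg fun i _ => u1_nonneg G _ _ _
  induction t generalizing x A with
  | zero =>
    unfold unc; split_ifs with h
    · exact sum_nonneg fun v _ => h0 _ _ _
    · obtain ⟨v, hv, hx⟩ := not_subset.1 h
      refine le_trans (le_of_eq ?_) (single_le_sum (fun v _ => h0 0 x v) hv)
      exact (prod_eq_one fun i _ => if_neg fun e => hx (mem_image.2 ⟨i, mem_univ _, e⟩)).symm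
  | succ t ih =>
    unfold unc; split_ifs with h
    · exact sum_nonneg fun v _ => h0 _ _ _
    refine (sum_le_sum fun y _ => mul_le_mul_of_nonneg_left (ih y _)
      (prod_nonneg fun i _ => step_nonneg G _ _)).trans (le_trans (le_of_eq ?_)
      (sum_le_sum_of_subset_of_nonneg (sdiff_subset (t := univ.image x)) fun v _ _ => h0 _ _ _))
    simp only [mul_sum]
    rw [sum_comm]
    refine sum_congr rfl fun v hv => ?_
    simp only [← prod_mul_distrib]
    rw [← Fintype.piFinset_univ, ← prod_univ_sum (fun _ => univ)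
      (fun i y => step G (x i) y * u1 G v t y)]
    exact prod_congr rfl fun i _ =>
      (if_neg fun e => (mem_sdiff.1 hv).2 (mem_image.2 ⟨i, mem_univ _, e⟩)).symm

lemma F_succ (v : V) (t : ℕ) (x : V) : ∑ s ∈ range (t + 1), u1 G v s x =
    if x = v then 0 else 1 + ∑ y, step G x y * ∑ s ∈ range t, u1 G v s y := by
  rw [sum_range_succ']
  split_ifs with h
  · simp [u1, h]
  · simp only [u1, if_neg h, mul_sum]
    rw [sum_comm, add_comm]

lemma F_le (v : V) (e : V → ℝ) (h0 : ∀ x, 0 ≤ e x)
    (h : ∀ x ≠ v, 1 + ∑ y, step G x y * e y ≤ e x) (t : ℕ) (x : V) :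
    ∑ s ∈ range t, u1 G v s x ≤ e x := by
  induction t generalizing x with
  | zero => simpa using h0 x
  | succ t ih =>
    rw [F_succ]
    split_ifs with hx
    · exact h0 x
    · refine le_trans ?_ (h x hx)
      gcongr with y
      · exact step_nonneg G _ _
      · exact ih y

variable {G} (hs : ∀ x, ∑ y, step G x y = 1)
include hs

lemma u1_le (v : V) (t : ℕ) (x : V) : u1 G v t x ≤ 1 := by
  induction t generalizing x with
  | zero => unfold u1; split_ifs <;> norm_num
  | succ t ih =>
    unfold u1; split_ifs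
    · norm_num
    · rw [← hs x]
      exact sum_le_sum fun y _ => mul_le_of_le_one_right (step_nonneg G _ _) (ih y)

lemma u1_anti (v : V) (x : V) : Antitone fun t => u1 G v t x := by
  refine antitone_nat_of_succ_le fun t => ?_
  induction t generalizing x with
  | zero =>
    by_cases h : x = v
    · simp [u1, h]
    · simpa [u1, h] using (show u1 G v 1 x ≤ 1 from u1_le hs v 1 x)
  | succ t ih =>
    rw [u1, u1]; split_ifs
    · exact le_rfl
    · exact sum_le_sum fun y _ => mul_le_mul_of_nonneg_left (ih y) (step_nonneg G _ _)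

lemma mul_u1_le (v : V) (t : ℕ) (x : V) : t * u1 G v t x ≤ ∑ s ∈ range t, u1 G v s x := by
  have := card_nsmul_le_sum (range t) (fun s => u1 G v s x) (u1 G v t x)
    fun s h => u1_anti hs v x (mem_range.1 h).le
  rwa [card_range, nsmul_eq_mul] at this

lemma unc_le_one {k : ℕ} (t : ℕ) (x : Fin k → V) (A : Finset V) : unc G t x A ≤ 1 := by
  induction t generalizing x A with
  | zero => unfold unc; split_ifs <;> norm_num
  | succ t ih =>
    unfold unc; split_ifs
    · norm_num
    refine (sum_le_sum fun y _ => mul_le_of_le_one_right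
      (prod_nonneg fun i _ => step_nonneg G _ _) (ih y _)).trans (le_of_eq ?_)
    rw [← Fintype.piFinset_univ, ← prod_univ_sum (fun _ => univ) (fun i y => step G (x i) y)]
    simp [hs]

variable {h : ℝ} (hh : ∀ v x t, ∑ s ∈ range t, u1 G v s x ≤ h)
include hh

lemma unc_le' {k : ℕ} (t : ℕ) (x : Fin (k + 1) → V) (A : Finset V) :
    unc G t x A ≤ ∑ v ∈ A, u1 G v t (x 0) := by
  refine (unc_le G t x A).trans (sum_le_sum fun v _ => ?_)
  rw [Fin.prod_univ_succ]
  exact mul_le_of_le_one_right (u1_nonneg G _ _ _)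
    (prod_le_one (fun i _ => u1_nonneg G _ _ _) fun i _ => u1_le hs _ _ _)

lemma unc_summable {k : ℕ} (x : Fin (k + 1) → V) (A : Finset V) :
    Summable fun t => unc G t x A :=
  Summable.of_nonneg_of_le (fun _ => unc_nonneg G _ _ _) (fun t => unc_le' hs hh t x A)
    (summable_sum fun v _ => summable_of_sum_range_le (fun _ => u1_nonneg G _ _ _) (hh v (x 0)))

lemma hmax_le [Nonempty V] : hmax G ≤ h := by
  refine ciSup_le fun p => Real.tsum_le_of_sum_range_le (fun _ => unc_nonneg G _ _ _) fun t => ?_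
  refine (sum_le_sum fun s _ => unc_le' hs hh s _ _).trans ?_
  simpa using hh p.2 p.1 t

lemma ET_le {k : ℕ} (z : V) (T : ℕ) (ρ : ℝ) (hρ : ∀ v, u1 G v T z ≤ ρ) :
    ET G (fun _ : Fin (k + 1) => z) univ ≤ T + Fintype.card V * (ρ ^ k * h) := by
  refine Real.tsum_le_of_sum_range_le (fun _ => unc_nonneg G _ _ _) fun t => ?_
  refine (sum_le_sum_of_subset_of_nonneg (range_subset_range.2 (Nat.le_add_left t T))
    fun s _ _ => unc_nonneg G _ _ _).trans ?_
  rw [sum_range_add]
  refine add_le_add ((sum_le_card_nsmul _ _ 1 fun s _ => unc_le_one hs _ _ _).trans (by simp)) ?_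
  refine (sum_le_sum fun s _ => unc_le G _ _ _).trans ?_
  rw [sum_comm]
  refine (sum_le_card_nsmul _ _ (ρ ^ k * h) fun v _ => ?_).trans (by simp)
  have r0 : 0 ≤ ρ ^ k := pow_nonneg ((u1_nonneg G _ _ _).trans (hρ v)) k
  refine le_trans ?_ (mul_le_mul_of_nonneg_left (hh v z t) r0)
  rw [mul_sum]
  refine sum_le_sum fun s _ => ?_
  rw [prod_const, card_univ, Fintype.card_fin, pow_succ]
  exact mul_le_mul (pow_le_pow_left₀ (u1_nonneg G _ _ _)
    ((u1_anti hs v z (Nat.le_add_right T s)).trans (hρ v)) k)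
    (u1_anti hs v z (Nat.le_add_left s T)) (u1_nonneg G _ _ _) r0

lemma le_ET (Ψ : V → Finset V → ℝ) (B : ℝ) (hB : ∀ x A, Ψ x A ≤ B)
    (h0 : ∀ x A, A ⊆ {x} → Ψ x A ≤ 0)
    (h1 : ∀ x A, Ψ x A ≤ 1 + ∑ y, step G x y * Ψ y (A \ {x})) (x : V) (A : Finset V) :
    Ψ x A ≤ ET G (fun _ : Fin 1 => x) A := by
  have im : ∀ x : V, univ.image (fun _ : Fin 1 => x) = {x} := fun x => by simp
  have us : ∀ t x A, unc G (t + 1) (fun _ : Fin 1 => x) A = if A ⊆ {x} then 0 else
      ∑ y, step G x y * unc G t (fun _ : Fin 1 => y) (A \ {x}) := fun t x A => by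
    rw [unc, im, ← (Equiv.funUnique (Fin 1) V).symm.sum_comp]
    simp only [Fin.prod_univ_one]
    rfl
  have key : ∀ t x A, Ψ x A ≤ ∑ s ∈ range t, unc G s (fun _ : Fin 1 => x) A +
      B * unc G t (fun _ : Fin 1 => x) A := by
    intro t
    induction t with
    | zero =>
      intro x A
      rw [unc, im]
      split_ifs with hA
      · simpa using h0 x A hA
      · simpa using hB x A
    | succ t ih =>
      intro x A
      rw [sum_range_succ']
      simp only [us]
      rw [unc, im]
      split_ifs with hA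
      · simpa using h0 x A hA
      refine (h1 x A).trans ?_
      rw [sum_comm, mul_sum, add_right_comm, ← sum_add_distrib, add_comm]
      gcongr with y
      refine (mul_le_mul_of_nonneg_left (ih y _) (step_nonneg G x y)).trans (le_of_eq ?_)
      rw [mul_add, mul_sum, mul_left_comm]
  have hsum := unc_summable hs hh (fun _ : Fin 1 => x) A
  have := (hsum.hasSum.tendsto_sum_nat).add (hsum.tendsto_atTop_zero.const_mul B)
  rw [mul_zero, add_zero] at this
  exact ge_of_tendsto' this fun t => key t x A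

end Pool.Agent.Lead.Cov
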