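import Pool.Agent.Lead.Cov1

namespace Pool.Agent.Lead.Cov

open Finset

abbrev VV (N : ℕ) := Option (Fin N) × Bool

def GG (N : ℕ) : SimpleGraph (VV N) where
  Adj p q := p ≠ q ∧ ((p.2 = true ∧ q.2 = true) ∨ (p.1 = none ∧ q.1 = none) ∨
    (p.2 = false ∧ q.2 = false ∧ (p.1 = none ∨ q.1 = none)))
  symm := ⟨fun _ _ h => ⟨h.1.symm, by tauto⟩⟩
  loopless := ⟨fun _ h => h.1 rfl⟩

instance decAdj (N : ℕ) : DecidableRel (GG N).Adj := fun _ _ => by
  unfold GG; infer_instance

variable {N : ℕ}

lemma avg (x : VV N) (f : VV N → ℝ) : ∑ y, step (GG N) x y * f y =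
    (∑ y, if (GG N).Adj x y then f y else 0) / ∑ y, if (GG N).Adj x y then 1 else 0 := by
  have : ((GG N).degree x : ℝ) = ∑ y, if (GG N).Adj x y then 1 else 0 := by
    rw [sum_boole, ← SimpleGraph.card_neighborFinset_eq_degree, SimpleGraph.neighborFinset_eq_filter]
  rw [← this, sum_div]
  refine sum_congr rfl fun y _ => ?_
  unfold step; split_ifs <;> ring

lemma sZ (f : VV N → ℝ) : (∑ y, if (GG N).Adj (none, false) y then f y else 0) =
    ∑ i, f (some i, false) + f (none, true) := by
  simp [Fintype.sum_prod_type, GG, add_comm]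

lemma sL (i : Fin N) (f : VV N → ℝ) : (∑ y, if (GG N).Adj (some i, false) y then f y else 0) =
    f (none, false) := by
  simp [Fintype.sum_prod_type, GG]

lemma sW (f : VV N → ℝ) : (∑ y, if (GG N).Adj (none, true) y then f y else 0) =
    f (none, false) + ∑ i, f (some i, true) := by
  simp [Fintype.sum_prod_type, GG]

lemma sQ (i : Fin N) (f : VV N → ℝ) : (∑ y, if (GG N).Adj (some i, true) y then f y else 0) =
    f (none, true) + ∑ j, f (some j, true) - f (some i, true) := by
  have : ∀ j, (if i = j then 0 else f (some j, true)) =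
      f (some j, true) - if i = j then f (some i, true) else 0 := fun j => by
    split_ifs with h <;> simp [h]
  simp [Fintype.sum_prod_type, GG, this, add_sub_assoc]

lemma aZ (f : VV N → ℝ) : ∑ y, step (GG N) (none, false) y * f y =
    (∑ i, f (some i, false) + f (none, true)) / (N + 1) := by rw [avg, sZ, sZ]; simp

lemma aL (i : Fin N) (f : VV N → ℝ) : ∑ y, step (GG N) (some i, false) y * f y =
    f (none, false) := by rw [avg, sL, sL]; simp

lemma aW (f : VV N → ℝ) : ∑ y, step (GG N) (none, true) y * f y =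
    (f (none, false) + ∑ i, f (some i, true)) / (N + 1) := by rw [avg, sW, sW]; simp [add_comm]

lemma aQ (i : Fin N) (f : VV N → ℝ) : ∑ y, step (GG N) (some i, true) y * f y =
    (f (none, true) + ∑ j, f (some j, true) - f (some i, true)) / N := by rw [avg, sQ, sQ]; simp

lemma hsum (hN : 0 < N) (x : VV N) : ∑ y, step (GG N) x y = 1 := by
  have h0 : (0 : ℝ) < N := by exact_mod_cast hN
  rcases x with ⟨_ | i, _ | _⟩
  · simpa [div_self (show (N : ℝ) + 1 ≠ 0 by positivity)] using aZ (N := N) fun _ => 1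
  · simpa [add_comm, div_self (show (N : ℝ) + 1 ≠ 0 by positivity)] using aW (N := N) fun _ => 1
  · simpa using aL i fun _ => 1
  · simpa [div_self h0.ne'] using aQ i fun _ => 1

lemma conn : (GG N).Connected := by
  have h : ∀ x : VV N, (GG N).Reachable x (none, true) := by
    have h1 : (GG N).Reachable (none, false) (none, true) := SimpleGraph.Adj.reachable (by simp [GG])
    rintro ⟨_ | i, _ | _⟩
    · exact h1
    · rfl
    · exact (SimpleGraph.Adj.reachable (by simp [GG])).trans h1
    · exact SimpleGraph.Adj.reachable (by simp [GG])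
  exact ⟨fun x y => (h x).trans (h y).symm⟩

/-- potential with value a at the star centre, l on leaves, b at the clique gate, q on the rest -/
def pot (v : VV N) (a l b q : ℝ) (x : VV N) : ℝ :=
  if x = v then 0 else match x with
    | (none, false) => a
    | (some _, false) => l
    | (none, true) => b
    | (some _, true) => q

lemma sum_ite' (i : Fin N) (c : ℝ) : ∑ j, (if j = i then 0 else c) = (N - 1) * c := by
  have : ∀ j, (if j = i then 0 else c) = c - if j = i then c else 0 := fun j => by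
    split_ifs <;> simp
  simp [this, sub_mul]

lemma pot_nonneg (v : VV N) {a l b q : ℝ} (ha : 0 ≤ a) (hl : 0 ≤ l) (hb : 0 ≤ b) (hq : 0 ≤ q)
    (x : VV N) : 0 ≤ pot v a l b q x := by
  rcases x with ⟨_ | i, _ | _⟩ <;> simp only [pot] <;> split_ifs <;> simp [*]

lemma pot_le (v : VV N) {a l b q c : ℝ} (ha : a ≤ c) (hl : l ≤ c) (hb : b ≤ c) (hq : q ≤ c)
    (hc : 0 ≤ c) (x : VV N) : pot v a l b q x ≤ c := by
  rcases x with ⟨_ | i, _ | _⟩ <;> simp only [pot] <;> split_ifs <;> simp [*]

lemma FZ (hN : 0 < N) (t : ℕ) (x : VV N) : ∑ s ∈ range t, u1 (GG N) (none, false) s x ≤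
    pot (none, false) 0 1 (N ^ 2 + N + 1) (N ^ 2 + 2 * N + 1) x := by
  have h0 : (0 : ℝ) < N := by exact_mod_cast hN
  refine F_le _ _ _ (pot_nonneg _ le_rfl zero_le_one (by positivity) (by positivity)) ?_ t x
  rintro ⟨_ | i, _ | _⟩ h <;> simp only [aZ, aL, aW, aQ] <;> simp [pot] at h ⊢ <;>
    exact le_of_eq (by field_simp; ring)

lemma FW (hN : 0 < N) (t : ℕ) (x : VV N) : ∑ s ∈ range t, u1 (GG N) (none, true) s x ≤
    pot (none, true) (2 * N + 1) (2 * N + 2) 0 N x := by
  have h0 : (0 : ℝ) < N := by exact_mod_cast hN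
  refine F_le _ _ _ (pot_nonneg _ (by positivity) (by positivity) le_rfl h0.le) ?_ t x
  rintro ⟨_ | i, _ | _⟩ h <;> simp only [aZ, aL, aW, aQ] <;> simp [pot] at h ⊢ <;>
    exact le_of_eq (by field_simp; ring)

lemma FL (hN : 0 < N) (i : Fin N) (t : ℕ) (x : VV N) :
    ∑ s ∈ range t, u1 (GG N) (some i, false) s x ≤ pot (some i, false) (N ^ 2 + 3 * N + 1)
      (N ^ 2 + 3 * N + 2) (2 * N ^ 2 + 4 * N + 2) (2 * N ^ 2 + 5 * N + 2) x := by
  have h0 : (0 : ℝ) < N := by exact_mod_cast hN
  refine F_le _ _ _ (pot_nonneg _ (by positivity) (by positivity) (by positivity)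
    (by positivity)) ?_ t x
  rintro ⟨_ | j, _ | _⟩ h <;> simp only [aZ, aL, aW, aQ] <;> simp [pot, sum_ite'] at h ⊢ <;>
    try simp only [if_neg h]
  all_goals exact le_of_eq (by field_simp; ring)

lemma FQ (hN : 0 < N) (i : Fin N) (t : ℕ) (x : VV N) :
    ∑ s ∈ range t, u1 (GG N) (some i, true) s x ≤ pot (some i, true) (3 * N + 11)
      (3 * N + 12) (N + 10) (N + 5) x := by
  have h0 : (0 : ℝ) < N := by exact_mod_cast hN
  refine F_le _ _ _ (pot_nonneg _ (by positivity) (by positivity) (by positivity)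
    (by positivity)) ?_ t x
  rintro ⟨_ | j, _ | _⟩ h <;> simp only [aZ, aL, aW, aQ] <;> simp [pot, sum_ite'] at h ⊢ <;>
    try simp only [if_neg h]
  all_goals (field_simp; nlinarith)

lemma hit_le (hN : 6 ≤ N) (v x : VV N) (t : ℕ) :
    ∑ s ∈ range t, u1 (GG N) v s x ≤ 3 * (N : ℝ) ^ 2 := by
  have h0 : (6 : ℝ) ≤ N := by exact_mod_cast hN
  rcases v with ⟨_ | i, _ | _⟩
  · refine (FZ (by omega) t x).trans (pot_le _ ?_ ?_ ?_ ?_ ?_ _) <;> nlinarith
  · refine (FW (by omega) t x).trans (pot_le _ ?_ ?_ ?_ ?_ ?_ _) <;> nlinarith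
  · refine (FL (by omega) i t x).trans (pot_le _ ?_ ?_ ?_ ?_ ?_ _) <;> nlinarith
  · refine (FQ (by omega) i t x).trans (pot_le _ ?_ ?_ ?_ ?_ ?_ _) <;> nlinarith

lemma FL' (hN : 0 < N) (i : Fin N) (t : ℕ) (x : VV N) :
    ∑ s ∈ range t, u1 (GG N) (some i, false) s x ≤
      pot (some i, false) (t / 2 + N) (t / 2 + N + 1) t t x := by
  have h0 : (0 : ℝ) < N := by exact_mod_cast hN
  have triv : ∀ t x, ∑ s ∈ range t, u1 (GG N) (some i, false) s x ≤ t := fun t x =>
    (sum_le_card_nsmul _ _ 1 fun s _ => u1_le (hsum hN) _ _ _).trans (by simp)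
  induction t generalizing x with
  | zero => simpa using pot_nonneg _ (by positivity) (by positivity) le_rfl le_rfl x
  | succ t ih =>
    have key : ∑ s ∈ range (t + 1), u1 (GG N) (some i, false) s x ≤
        if x = (some i, false) then 0 else 1 + ∑ y, step (GG N) x y *
        pot (some i, false) (t / 2 + N) (t / 2 + N + 1) t t y := by
      rw [F_succ]
      split_ifs
      · exact le_rfl
      · gcongr with y
        · exact step_nonneg _ _ _
        · exact ih y
    rcases x with ⟨_ | j, _ | _⟩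
    · refine key.trans ?_
      simp only [aZ]
      simp [pot, sum_ite']
      field_simp; nlinarith
    · simpa [pot] using triv (t + 1) _
    · refine key.trans ?_
      simp only [aL]
      simp [pot]
      split_ifs <;> linarith
    · simpa [pot] using triv (t + 1) _

lemma rho (hN : 6 ≤ N) (v : VV N) : u1 (GG N) v (8 * N) (none, false) ≤ 3 / 4 := by
  have h0 : (6 : ℝ) ≤ N := by exact_mod_cast hN
  have h := mul_u1_le (hsum (N := N) (by omega)) v (8 * N) (none, false)
  refine le_of_mul_le_mul_left (h.trans ?_) (show (0 : ℝ) < (8 * N : ℕ) by push_cast; linarith)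
  rcases v with ⟨_ | i, _ | _⟩
  · refine (FZ (by omega) _ _).trans ?_; simp [pot]
  · refine (FW (by omega) _ _).trans ?_; simp [pot]; linarith
  · refine (FL' (by omega) i _ _).trans ?_; simp [pot]; linarith
  · refine (FQ (by omega) i _ _).trans ?_; simp [pot]; linarith

def lv (A : Finset (VV N)) : ℕ := (univ.filter fun i => (some i, false) ∈ A).card

noncomputable def HH (j : ℕ) : ℝ := ∑ i ∈ range j, 1 / ((i : ℝ) + 1)

noncomputable def Ps (x : VV N) (A : Finset (VV N)) : ℝ :=
  N ^ 2 * HH (lv (A \ {x})) + if lv A = 0 then 0 else match x with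
    | (_, false) => 0
    | (none, true) => N ^ 2
    | (some _, true) => N ^ 2 + N

lemma lv_le (A : Finset (VV N)) : lv A ≤ N := (card_filter_le _ _).trans (by simp)

lemma lv_t (A : Finset (VV N)) (a : Option (Fin N)) : lv (A \ {(a, true)}) = lv A := by
  simp [lv]

lemma lv_z (A : Finset (VV N)) : lv (A \ {(none, false)}) = lv A := by simp [lv]

lemma lv_l (A : Finset (VV N)) (i : Fin N) :
    lv (A \ {(some i, false)}) = if (some i, false) ∈ A then lv A - 1 else lv A := by
  have := card_erase_eq_ite (s := univ.filter fun i => (some i, false) ∈ A) (a := i)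
  simp only [mem_filter, mem_univ, true_and] at this
  refine Eq.trans ?_ this
  unfold lv
  congr 1
  ext j
  simp [and_comm]

lemma HH_mono : Monotone HH := fun _ _ h =>
  sum_le_sum_of_subset_of_nonneg (range_subset_range.2 h) fun _ _ _ => by positivity

lemma cover_ge (hN : 6 ≤ N) : (N : ℝ) ^ 2 * HH N ≤ cover (GG N) := by
  have h0 : (6 : ℝ) ≤ N := by exact_mod_cast hN
  have := le_ET (hsum (N := N) (by omega)) (hit_le hN) Ps (N ^ 2 * HH N + (N ^ 2 + N))
    (fun x A => add_le_add (mul_le_mul_of_nonneg_left (HH_mono (lv_le _)) (by positivity)) ?_)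
    (fun x A hA => ?_) (fun x A => ?_) (none, false) univ
  · refine le_trans ?_ (this.trans (le_ciSup (f := fun u : VV N =>
      ET (GG N) (fun _ : Fin 1 => u) univ) (Set.finite_range _).bddAbove _))
    simp [Ps, lv]
  · rcases x with ⟨_ | i, _ | _⟩ <;> split_ifs <;> first | positivity | simp
  · rw [Ps.eq_def, sdiff_eq_empty_iff_subset.2 hA]
    rcases x with ⟨a, _ | _⟩
    · simp [lv, HH]
    · have : lv A = 0 := by rw [← lv_t A a, sdiff_eq_empty_iff_subset.2 hA]; simp [lv]
      rw [if_pos this]; simp [lv, HH]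
  · rcases x with ⟨_ | i, _ | _⟩ <;> simp only [aZ, aL, aW, aQ, Ps, lv_t, lv_z, lv_l, ite_self]
    · rcases h : lv A with _ | j
      · simp [HH]
      · have e : ∑ i : Fin N, HH (if (some i, false) ∈ A \ {(none, false)} then j else j + 1) =
            N * HH (j + 1) - 1 := by
          simp only [apply_ite HH]
          rw [sum_ite, sum_const, sum_const, nsmul_eq_mul, nsmul_eq_mul]
          have e1 : (univ.filter fun i : Fin N => (some i, false) ∈ A \ {(none, false)}).card =
            j + 1 := (lv_z A).trans h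
          have e2 := card_filter_add_card_filter_not (s := univ)
            (fun i : Fin N => (some i, false) ∈ A \ {(none, false)})
          rw [e1, card_univ, Fintype.card_fin] at e2
          have e3 : ((univ.filter fun i : Fin N =>
            ¬ (some i, false) ∈ A \ {(none, false)}).card : ℝ) = N - (j + 1) := by
            have : ((j + 1 + _ : ℕ) : ℝ) = N := congrArg Nat.cast e2
            push_cast at this; linarith
          rw [e1, e3, HH, HH, sum_range_succ]
          push_cast
          field_simp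
          ring
        simp only [add_zero, Nat.add_sub_cancel, ← mul_sum, e, Nat.succ_ne_zero, if_false]
        have : ((N : ℝ) ^ 2 * (N * HH (j + 1) - 1) + (N ^ 2 * HH (j + 1) + N ^ 2)) / (N + 1) =
          N ^ 2 * HH (j + 1) := by field_simp; ring
        linarith
    · split_ifs with h
      · simp [h, HH]
      · simp only [sum_const, card_univ, Fintype.card_fin, nsmul_eq_mul]
        field_simp; nlinarith
    · simp
    · split_ifs with h
      · simp [h, HH]
      · simp only [sum_const, card_univ, Fintype.card_fin, nsmul_eq_mul]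
        exact le_of_eq (by field_simp; ring)

lemma HH_pow (s : ℕ) : (s : ℝ) / 2 ≤ HH (2 ^ s) := by
  induction s with
  | zero => simp [HH]
  | succ s ih =>
    have := card_nsmul_le_sum (range (2 ^ s)) (fun i => 1 / (((2 ^ s + i : ℕ) : ℝ) + 1))
      (1 / (2 * 2 ^ s)) fun i hi => by
        have : ((i + 1 : ℕ) : ℝ) ≤ (2 ^ s : ℕ) := by exact_mod_cast mem_range.1 hi
        push_cast at this ⊢
        exact one_div_le_one_div_of_le (by positivity) (by linarith)
    rw [card_range, nsmul_eq_mul] at this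
    rw [pow_succ, mul_two, HH, sum_range_add, ← HH]
    have e : ((2 ^ s : ℕ) : ℝ) * (1 / (2 * 2 ^ s)) = 1 / 2 := by push_cast; field_simp
    push_cast at this e ⊢
    linarith

theorem main (α c : ℝ) (hα : 0 < α) (hc : 0 < c) (K : ℕ) : ∃ N k : ℕ, 6 ≤ N ∧ K ≤ k ∧
    ((k + 1 : ℕ) : ℝ) ≤ Real.exp (α * (cover (GG N) / hmax (GG N))) ∧
    c * (k + 1 : ℕ) * ET (GG N) (fun _ : Fin (k + 1) => (none, false)) univ < cover (GG N) := by
  obtain ⟨s, h3, hK, h1, h2⟩ : ∃ s : ℕ, 3 ≤ s ∧ K ≤ s ∧ 432 / α ^ 2 ≤ s ∧ 300 * c ≤ s := by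
    obtain ⟨a, ha⟩ := exists_nat_ge (432 / α ^ 2)
    obtain ⟨b, hb⟩ := exists_nat_ge (300 * c)
    refine ⟨3 + K + a + b, by omega, by omega, ha.trans ?_, hb.trans ?_⟩ <;>
      exact_mod_cast (by omega)
  have hN : 6 ≤ 2 ^ s := le_trans (by norm_num) (Nat.pow_le_pow_right two_pos h3)
  have hs : (s : ℝ) < (2 ^ s : ℕ) := by exact_mod_cast Nat.lt_two_pow_self
  have hp : ((3 : ℝ) / 4) ^ (5 * s) * ((2 ^ s : ℕ) : ℝ) ^ 2 ≤ 1 := by
    push_cast
    rw [← pow_mul, mul_comm s, pow_mul, pow_mul, ← mul_pow]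
    exact pow_le_one₀ (by positivity) (by norm_num)
  have hH := HH_pow s
  refine ⟨2 ^ s, 5 * s, hN, by omega, ?_⟩
  generalize 2 ^ s = N at *
  have h0 : (6 : ℝ) ≤ N := by exact_mod_cast hN
  have s3 : (3 : ℝ) ≤ s := by exact_mod_cast h3
  have hC : (N : ℝ) ^ 2 * (s / 2) ≤ cover (GG N) :=
    (mul_le_mul_of_nonneg_left hH (by positivity)).trans (cover_ge hN)
  have hsm := hsum (N := N) (by omega)
  constructor
  · have hm := hmax_le hsm (hit_le hN)
    have hm0 : 1 ≤ hmax (GG N) := by
      refine le_trans ?_ (le_ciSup (f := fun p : VV N × VV N =>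
        ET (GG N) (fun _ : Fin 1 => p.1) {p.2}) (Set.finite_range _).bddAbove
        ((none, false), (none, true)))
      refine le_trans ?_ ((unc_summable hsm (hit_le hN) _ _).le_tsum 0
        fun _ _ => unc_nonneg _ _ _ _)
      simp [unc]
    have : (s : ℝ) / 6 ≤ cover (GG N) / hmax (GG N) := by
      rw [le_div_iff₀ (by linarith)]; nlinarith
    refine le_trans ?_ (Real.exp_le_exp.2 (mul_le_mul_of_nonneg_left this hα.le))
    refine le_trans ?_ (Real.quadratic_le_exp_of_nonneg (by positivity))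
    rw [div_le_iff₀ (by positivity)] at h1
    have : 0 ≤ α * (s / 6) := by positivity
    push_cast
    nlinarith
  · have h4 := ET_le (k := 5 * s) hsm (hit_le hN) (none, false) (8 * N) _ (rho hN)
    simp only [Fintype.card_prod, Fintype.card_option, Fintype.card_fin, Fintype.card_bool] at h4
    push_cast at h4 ⊢
    have h5 : ET (GG N) (fun _ : Fin (5 * s + 1) => (none, false)) univ ≤ 15 * N := by nlinarith
    refine lt_of_le_of_lt (mul_le_mul_of_nonneg_left h5 (by positivity)) (lt_of_lt_of_le ?_ hC)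
    have h6 : c * (5 * s + 1) * 15 < N * (s / 2) := by nlinarith
    nlinarith

end Pool.Agent.Lead.Cov
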