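import Mathlib

namespace Pool.Agent.Lead.Cov

open Finset

variable {V : Type} [Fintype V] [DecidableEq V] (G : SimpleGraph V) [DecidableRel G.Adj]

/-- transition probability of simple random walk -/
noncomputable def step (x y : V) : ℝ := if G.Adj x y then 1 / (G.degree x : ℝ) else 0

/-- probability that k independent walks started at x have not visited all of A by time t -/
noncomputable def unc {k : ℕ} : ℕ → (Fin k → V) → Finset V → ℝ
  | 0, x, A => if A ⊆ univ.image x then 0 else 1
  | t + 1, x, A => if A ⊆ univ.image x then 0 else
      ∑ y : Fin k → V, (∏ i, step G (x i) (y i)) * unc t y (A \ univ.image x)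

/-- expected first time at which the walks started at x have visited all of A -/
noncomputable def ET {k : ℕ} (x : Fin k → V) (A : Finset V) : ℝ := ∑' t, unc G t x A

/-- largest expected hitting time -/
noncomputable def hmax : ℝ := ⨆ p : V × V, ET G (fun _ : Fin 1 => p.1) {p.2}

/-- largest expected cover time of one walk -/
noncomputable def cover : ℝ := ⨆ u : V, ET G (fun _ : Fin 1 => u) univ

end Pool.Agent.Lead.Cov
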