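import Pool.Agent.Lead.CoxDefs

namespace Pool.Agent.Lead.Cox

open MvPolynomial

def uu : Fin 4 → Fin 2 → ℤ := ![![1, 0], ![0, 1], ![-1, 1], ![0, -1]]
def SS : Set (Finset (Fin 4)) := {σ | ¬ (0 ∈ σ ∧ 2 ∈ σ) ∧ ¬ (1 ∈ σ ∧ 3 ∈ σ)}

lemma uniq (a b : Fin 4 → ℝ) (ha : ∀ i, 0 ≤ a i) (hb : ∀ i, 0 ≤ b i)
    (a1 : a 0 = 0 ∨ a 2 = 0) (a2 : a 1 = 0 ∨ a 3 = 0) (b1 : b 0 = 0 ∨ b 2 = 0)
    (b2 : b 1 = 0 ∨ b 3 = 0) (h : ∀ k, ∑ i, a i * (uu i k : ℝ) = ∑ i, b i * (uu i k : ℝ)) :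
    a = b := by
  have h0 := h 0
  have h1 := h 1
  simp [uu, Fin.sum_univ_four] at h0 h1
  have := ha 0; have := ha 1; have := ha 2; have := ha 3
  have := hb 0; have := hb 1; have := hb 2; have := hb 3
  have e0 : a 0 = b 0 := by rcases a1 with a1 | a1 <;> rcases b1 with b1 | b1 <;> linarith
  have e2 : a 2 = b 2 := by linarith
  have e1 : a 1 = b 1 := by rcases a2 with a2 | a2 <;> rcases b2 with b2 | b2 <;> linarith
  have e3 : a 3 = b 3 := by linarith
  funext i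
  fin_cases i <;> assumption

lemma alt {σ : Finset (Fin 4)} (hσ : σ ∈ SS) {a : Fin 4 → ℝ} (h : ∀ i ∉ σ, a i = 0) :
    (a 0 = 0 ∨ a 2 = 0) ∧ (a 1 = 0 ∨ a 3 = 0) :=
  ⟨(not_and_or.1 hσ.1).imp (h 0) (h 2), (not_and_or.1 hσ.2).imp (h 1) (h 3)⟩

lemma fan : IsCompleteSimplicialFan uu SS := by
  refine ⟨fun i c v h => ?_, fun i => ?_, fun σ hσ τ h => ⟨fun k => hσ.1 ⟨h k.1, h k.2⟩,
    fun k => hσ.2 ⟨h k.1, h k.2⟩⟩, fun σ hσ => ?_, fun σ hσ τ hτ => ?_, fun p => ?_⟩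
  · have h0 := congrFun h 0
    have h1 := congrFun h 1
    fin_cases i <;> simp [uu] at h0 h1
    · exact IsUnit.of_mul_eq_one _ h0.symm
    · exact IsUnit.of_mul_eq_one _ h1.symm
    · exact IsUnit.of_mul_eq_one _ h1.symm
    · exact IsUnit.of_mul_eq_one (-v 1) (by linarith)
  · fin_cases i <;> simp [SS]
  · rw [linearIndependent_iff']
    intro s g hg i hi
    let a : Fin 4 → ℝ := fun j => if h : j ∈ σ then (if ⟨j, h⟩ ∈ s then g ⟨j, h⟩ else 0) else 0
    have ha : ∀ k, ∑ j, a j * (uu j k : ℝ) = 0 := fun k => by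
      rw [← Finset.sum_subset (Finset.subset_univ σ) (fun j _ hj => by simp [a, hj]),
        ← Finset.sum_coe_sort, ← Finset.sum_subset (Finset.subset_univ s)
          (fun j _ hj => by simp [a, hj])]
      have := congrFun hg k
      simp only [Finset.sum_apply, Pi.smul_apply, smul_eq_mul, Pi.zero_apply] at this
      rw [← this]
      exact Finset.sum_congr rfl fun j hj => by simp [a, hj]
    obtain ⟨a1, a2⟩ := alt hσ (a := a) fun j hj => by simp [a, hj]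
    have h0 := ha 0
    have h1 := ha 1
    simp [uu, Fin.sum_univ_four] at h0 h1
    have e0 : a 0 = 0 := by rcases a1 with a1 | a1 <;> linarith
    have e2 : a 2 = 0 := by linarith
    have e1 : a 1 = 0 := by rcases a2 with a2 | a2 <;> linarith
    have e3 : a 3 = 0 := by linarith
    have : ∀ j, a j = 0 := fun j => by fin_cases j <;> assumption
    simpa [a, hi] using this i
  · ext p
    constructor
    · rintro ⟨⟨a, ha, ha', e⟩, ⟨b, hb, hb', e'⟩⟩
      have := uniq a b ha hb (alt hσ ha').1 (alt hσ ha').2 (alt hτ hb').1 (alt hτ hb').2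
        fun k => (e k).symm.trans (e' k)
      subst this
      refine ⟨a, ha, fun i hi => ?_, e⟩
      rw [Finset.mem_inter, not_and_or] at hi
      exact hi.elim (ha' i) (hb' i)
    · rintro ⟨a, ha, ha', e⟩
      exact ⟨⟨a, ha, fun i hi => ha' i fun h => hi (Finset.mem_inter.1 h).1, e⟩,
        ⟨a, ha, fun i hi => ha' i fun h => hi (Finset.mem_inter.1 h).2, e⟩⟩
  · rcases le_total 0 (p 0) with h0 | h0
    · rcases le_total 0 (p 1) with h1 | h1
      · refine ⟨{0, 1}, by simp [SS], ![p 0, p 1, 0, 0], fun i => ?_, fun i => ?_, fun k => ?_⟩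
        · fin_cases i <;> simp [*]
        · fin_cases i <;> simp
        · fin_cases k <;> simp [uu, Fin.sum_univ_four]
      · refine ⟨{0, 3}, by simp [SS], ![p 0, 0, 0, -p 1], fun i => ?_, fun i => ?_, fun k => ?_⟩
        · fin_cases i <;> simp [*]
        · fin_cases i <;> simp
        · fin_cases k <;> simp [uu, Fin.sum_univ_four]
    · rcases le_total 0 (p 0 + p 1) with h1 | h1
      · refine ⟨{1, 2}, by simp [SS], ![0, p 0 + p 1, -p 0, 0], fun i => ?_, fun i => ?_,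
          fun k => ?_⟩
        · fin_cases i <;> simp [*]
        · fin_cases i <;> simp
        · fin_cases k <;> simp [uu, Fin.sum_univ_four]
      · refine ⟨{2, 3}, by simp [SS], ![0, 0, -p 0, -(p 0 + p 1)], fun i => ?_, fun i => ?_,
          fun k => ?_⟩
        · fin_cases i <;> simp [*]
          linarith
        · fin_cases i <;> simp
        · fin_cases k <;> simp [uu, Fin.sum_univ_four]

noncomputable section

def ex (v : Fin 4 → ℕ) : Fin 4 →₀ ℕ := Finsupp.equivFunOnFinite.symm v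
@[simp] lemma ex_apply (v : Fin 4 → ℕ) (i : Fin 4) : ex v i = v i := rfl
lemma ex_inj {v w : Fin 4 → ℕ} : ex v = ex w ↔ v = w := Finsupp.equivFunOnFinite.symm.injective.eq_iff
lemma ex_le {v w : Fin 4 → ℕ} : ex v ≤ ex w ↔ ∀ i, v i ≤ w i := Finsupp.le_def
lemma ex_sub (v w : Fin 4 → ℕ) : ex v - ex w = ex (v - w) := by ext i; simp
def mo (v : Fin 4 → ℕ) : MvPolynomial (Fin 4) ℂ := monomial (ex v) 1
lemma mo_eq (v : Fin 4 → ℕ) : mo v = X 0 ^ v 0 * X 1 ^ v 1 * X 2 ^ v 2 * X 3 ^ v 3 := by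
  rw [mo, monomial_eq, Finsupp.prod_fintype _ _ (by simp)]
  simp [Fin.prod_univ_four]

def FF : Fin 3 → MvPolynomial (Fin 4) ℂ :=
  ![mo ![1, 2, 0, 0], mo ![1, 0, 0, 1] + mo ![0, 1, 2, 0], mo ![0, 0, 1, 1]]
def DD : Fin 3 → Fin 4 → ℤ := ![![1, 2, 0, 0], ![1, 0, 0, 1], ![0, 0, 1, 1]]

lemma mo_mem (v : Fin 4 → ℕ) (D : Fin 4 → ℤ) (m : Fin 2 → ℤ)
    (h : ∀ i, (v i : ℤ) - D i = ∑ k, m k * uu i k) : mo v ∈ piece uu D := by
  rw [piece, mem_restrictSupport_iff]
  intro a ha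
  have := support_monomial_subset (Finset.mem_coe.1 ha)
  rw [Finset.mem_singleton.1 this]
  exact ⟨m, h⟩

lemma FF_mem (j : Fin 3) : FF j ∈ piece uu (DD j) := by
  fin_cases j
  · exact mo_mem _ _ 0 (by decide)
  · exact add_mem (mo_mem _ _ 0 (by decide)) (mo_mem _ _ ![-1, 1] (by decide))
  · exact mo_mem _ _ 0 (by decide)

lemma FF_ne (j : Fin 3) : FF j ≠ 0 := fun h => by
  have := congrArg (eval fun _ => 1) h
  fin_cases j <;> simp [FF, mo_eq] at this

lemma gen (i j : Fin 4) (h : ({i, j}ᶜ : Finset (Fin 4)) ∈ SS) (hij : i ≠ j) : X i * X j ∈ irr SS :=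
  Ideal.subset_span ⟨_, h, by rw [compl_compl, Finset.prod_pair hij]⟩

lemma FF_irr (j : Fin 3) : FF j ∈ irr SS := by
  have h01 := gen 0 1 (by simp [SS]) (by decide)
  have h03 := gen 0 3 (by simp [SS]) (by decide)
  have h12 := gen 1 2 (by simp [SS]) (by decide)
  have h23 := gen 2 3 (by simp [SS]) (by decide)
  fin_cases j
  · convert Ideal.mul_mem_right (X 1) _ h01 using 1
    simp [FF, mo_eq]; ring
  · convert add_mem h03 (Ideal.mul_mem_right (X 2) _ h12) using 1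
    simp [FF, mo_eq]; ring
  · simpa [FF, mo_eq] using h23

lemma nozero (x : Fin 4 → ℂ) (h : ∀ j, eval x (FF j) = 0) (g : MvPolynomial (Fin 4) ℂ)
    (hg : g ∈ irr SS) : eval x g = 0 := by
  have h0 := h 0
  have h1 := h 1
  have h2 := h 2
  simp [FF, mo_eq] at h0 h1 h2
  have key : (x 0 = 0 ∧ x 2 = 0) ∨ (x 1 = 0 ∧ x 3 = 0) := by
    rcases h0 with h0 | h0 <;> rcases h2 with h2 | h2 <;> simp_all
    tauto
  have : irr SS ≤ RingHom.ker (eval x) := by
    refine Ideal.span_le.2 ?_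
    rintro _ ⟨σ, hσ, rfl⟩
    simp only [SetLike.mem_coe, RingHom.mem_ker, map_prod, eval_X]
    rcases key with k | k
    · rcases not_and_or.1 hσ.1 with h | h
      · exact Finset.prod_eq_zero (Finset.mem_compl.2 h) k.1
      · exact Finset.prod_eq_zero (Finset.mem_compl.2 h) k.2
    · rcases not_and_or.1 hσ.2 with h | h
      · exact Finset.prod_eq_zero (Finset.mem_compl.2 h) k.1
      · exact Finset.prod_eq_zero (Finset.mem_compl.2 h) k.2
  exact this hg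

def Phi : MvPolynomial (Fin 4) ℂ →ₗ[ℂ] ℂ × ℂ :=
  (lcoeff ℂ (ex ![0, 0, 0, 2])).prod (lcoeff ℂ (ex ![1, 1, 0, 1]) - lcoeff ℂ (ex ![0, 2, 2, 0]))

lemma Phi_ideal (g : MvPolynomial (Fin 4) ℂ) (hg : g ∈ Ideal.span (Set.range FF)) : Phi g = 0 := by
  obtain ⟨c, rfl⟩ := Ideal.mem_span_range_iff_exists_fun.1 hg
  have e : (![1, 1, 0, 1] - ![1, 0, 0, 1] : Fin 4 → ℕ) = ![0, 2, 2, 0] - ![0, 1, 2, 0] := by decide
  simp [Phi, FF, Fin.sum_univ_three, mo, mul_add, coeff_mul_monomial', ex_le, Fin.forall_fin_succ,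
    ex_sub, e]

theorem rank_ge : 2 ≤ Module.rank ℂ (↥(piece uu (∑ j, DD j - fun _ => 1)) ⧸
    ((Ideal.span (Set.range FF)).restrictScalars ℂ).comap
      (piece uu (∑ j, DD j - fun _ => 1)).subtype) := by
  have h := LinearMap.rank_le_of_surjective (Submodule.liftQ
    (((Ideal.span (Set.range FF)).restrictScalars ℂ).comap
      (piece uu (∑ j, DD j - fun _ => 1)).subtype)
    (Phi ∘ₗ (piece uu (∑ j, DD j - fun _ => 1)).subtype) fun g hg => Phi_ideal _ hg) ?_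
  · simpa [one_add_one_eq_two] using h
  · rintro ⟨s, t⟩
    refine ⟨Submodule.Quotient.mk ⟨s • mo ![0, 0, 0, 2] + t • mo ![1, 1, 0, 1], add_mem
      (Submodule.smul_mem _ _ (mo_mem _ _ ![-1, -1] (by decide)))
      (Submodule.smul_mem _ _ (mo_mem _ _ 0 (by decide)))⟩, ?_⟩
    simp [Phi, mo, coeff_monomial, ex_inj]

end

end Pool.Agent.Lead.Cox
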