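import Mathlib

namespace Pool.Agent.Lead.Cox

variable {n r : ℕ}

/-- the cone spanned by the rays u i, i in σ -/
def cone (u : Fin r → Fin n → ℤ) (σ : Finset (Fin r)) : Set (Fin n → ℝ) :=
  {p | ∃ a : Fin r → ℝ, (∀ i, 0 ≤ a i) ∧ (∀ i ∉ σ, a i = 0) ∧ ∀ k, p k = ∑ i, a i * (u i k : ℝ)}

/-- complete simplicial fan with primitive ray generators u and cones S -/
def IsCompleteSimplicialFan (u : Fin r → Fin n → ℤ) (S : Set (Finset (Fin r))) : Prop :=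
  (∀ i, ∀ (c : ℤ) (v : Fin n → ℤ), u i = c • v → IsUnit c) ∧ (∀ i, {i} ∈ S) ∧
  (∀ σ ∈ S, ∀ τ ⊆ σ, τ ∈ S) ∧
  (∀ σ ∈ S, LinearIndependent ℝ fun i : σ => fun k => (u i k : ℝ)) ∧
  (∀ σ ∈ S, ∀ τ ∈ S, cone u σ ∩ cone u τ = cone u (σ ∩ τ)) ∧
  ∀ p, ∃ σ ∈ S, p ∈ cone u σ

/-- the graded piece of the Cox ring in the degree of the class of the divisor D -/
noncomputable def piece (u : Fin r → Fin n → ℤ) (D : Fin r → ℤ) :
    Submodule ℂ (MvPolynomial (Fin r) ℂ) :=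
  MvPolynomial.restrictSupport ℂ
    {a | ∃ m : Fin n → ℤ, ∀ i, (a i : ℤ) - D i = ∑ k, m k * u i k}

/-- the irrelevant ideal -/
noncomputable def irr (S : Set (Finset (Fin r))) : Ideal (MvPolynomial (Fin r) ℂ) :=
  Ideal.span {g | ∃ σ ∈ S, g = ∏ i ∈ σᶜ, MvPolynomial.X i}

end Pool.Agent.Lead.Cox
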