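import Pool.Agent.Lead.CpDefs

namespace Pool.Agent.Lead.CpD

open Set Topology Filter

/-- a countable union of locally finite closed families forming a network -/
structure SigmaNet (Z : Type) [TopologicalSpace Z] where
  K : Type
  cK : Countable K
  I : K → Type
  N : (k : K) → I k → Set Z
  lf : ∀ k, LocallyFinite (N k)
  cl : ∀ k i, IsClosed (N k i)
  net : ∀ U : Set Z, IsOpen U → ∀ z ∈ U, ∃ k i, z ∈ N k i ∧ N k i ⊆ U

def SigmaNet.sub {Z : Type} [TopologicalSpace Z] (S : SigmaNet Z) (A : Set Z) : SigmaNet A :=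
  @SigmaNet.mk A _ S.K S.cK S.I (fun k i => Subtype.val ⁻¹' S.N k i)
    (fun k => (S.lf k).preimage_continuous continuous_subtype_val)
    (fun k i => (S.cl k i).preimage continuous_subtype_val)
    (by
      intro U hU z hz
      obtain ⟨V, hV, rfl⟩ := isOpen_induced_iff.1 hU
      obtain ⟨k, i, h1, h2⟩ := S.net V hV z.1 hz
      exact ⟨k, i, h1, fun y hy => h2 hy⟩)

theorem SigmaNet.subpara {Z : Type} [TopologicalSpace Z] (S : SigmaNet Z) : Subparacompact Z := by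
  classical
  intro 𝒰 hU hc
  have := S.cK
  -- C k' O : closed part of open set O coming from family k'
  let C : S.K → Set Z → Set Z := fun k' O => ⋃ i : {i : S.I k' // S.N k' i ⊆ O}, S.N k' i.1
  have hCcl : ∀ k' O, IsClosed (C k' O) := fun k' O =>
    ((S.lf k').comp_injective Subtype.val_injective).isClosed_iUnion (fun i => S.cl k' i.1)
  have hCsub : ∀ k' O, C k' O ⊆ O := fun k' O => iUnion_subset fun i => i.2
  let O : S.K → ℕ → Set Z := fun k j => {z | {i | z ∈ S.N k i}.ncard ≤ j}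
  have hOopen : ∀ k j, IsOpen (O k j) := by
    intro k j
    rw [isOpen_iff_mem_nhds]
    intro z hz
    have h1 := (S.lf k).iInter_compl_mem_nhds (S.cl k) z
    filter_upwards [h1] with y hy
    refine le_trans (ncard_le_ncard ?_ ((S.lf k).point_finite z)) hz
    intro i hi
    by_contra hzi
    exact (mem_iInter₂.1 hy i hzi) hi
  let G : S.K × ℕ × S.K → Set (Set Z) := fun p =>
    {A | ∃ σ : Set (S.I p.1), σ.Finite ∧ σ.ncard = p.2.1 ∧
      A = (⋂ i ∈ σ, S.N p.1 i) ∩ C p.2.2 (O p.1 p.2.1) ∧ ∃ i ∈ σ, ∃ U ∈ 𝒰, S.N p.1 i ⊆ U}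
  have key : ∀ k j k' (σ : Set (S.I k)), σ.Finite → σ.ncard = j →
      ∀ y ∈ (⋂ i ∈ σ, S.N k i) ∩ C k' (O k j), σ = {i | y ∈ S.N k i} := by
    intro k j k' σ hσ hj y hy
    have h1 : σ ⊆ {i | y ∈ S.N k i} := fun i hi => mem_iInter₂.1 hy.1 i hi
    have h2 : {i | y ∈ S.N k i}.ncard ≤ σ.ncard := by rw [hj]; exact hCsub _ _ hy.2
    exact eq_of_subset_of_ncard_le h1 h2 ((S.lf k).point_finite y)
  by_cases hne : Nonempty Z
  swap
  · exact ⟨fun _ => ∅, by simp, fun n z => absurd ⟨z⟩ hne, fun z => absurd ⟨z⟩ hne⟩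
  obtain ⟨z0⟩ := hne
  obtain ⟨k0, -⟩ := S.net univ isOpen_univ z0 trivial
  have : Nonempty (S.K × ℕ × S.K) := ⟨(k0, 0, k0)⟩
  obtain ⟨e, he⟩ := exists_surjective_nat (S.K × ℕ × S.K)
  refine ⟨fun n => G (e n), ?_, ?_, ?_⟩
  · rintro n A ⟨σ, hσ, hj, rfl, i, hi, U, hUU, hsub⟩
    refine ⟨(isClosed_biInter fun i _ => S.cl _ i).inter (hCcl _ _), U, hUU, ?_⟩
    exact fun y hy => hsub (mem_iInter₂.1 hy.1 i hi)
  · intro n z
    show ∃ W ∈ 𝓝 z, {A | A ∈ G (e n) ∧ (A ∩ W).Nonempty}.Subsingleton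
    generalize e n = p
    obtain ⟨k, j, k'⟩ := p
    by_cases hz : z ∈ C k' (O k j)
    · refine ⟨_, (S.lf k).iInter_compl_mem_nhds (S.cl k) z, ?_⟩
      have hzj : {i | z ∈ S.N k i}.ncard ≤ j := hCsub _ _ hz
      have h3 : ∀ A, A ∈ G (k, j, k') ∧ (A ∩ ⋂ (i) (_ : z ∉ S.N k i), (S.N k i)ᶜ).Nonempty →
          A = (⋂ i ∈ {i | z ∈ S.N k i}, S.N k i) ∩ C k' (O k j) := by
        rintro A ⟨⟨σ, hσ, hj, rfl, -⟩, y, hy1, hy2⟩
        have h1 : σ ⊆ {i | z ∈ S.N k i} := by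
          intro i hi
          by_contra hzi
          exact (mem_iInter₂.1 hy2 i hzi) (mem_iInter₂.1 hy1.1 i hi)
        have h2 : σ = {i | z ∈ S.N k i} :=
          eq_of_subset_of_ncard_le h1 (by rw [hj]; exact hzj) ((S.lf k).point_finite z)
        rw [h2]
      intro A hA B hB
      rw [h3 A hA, h3 B hB]
    · refine ⟨_, (hCcl k' (O k j)).isOpen_compl.mem_nhds hz, ?_⟩
      rintro A ⟨⟨σ, hσ, hj, rfl, -⟩, y, hy1, hy2⟩
      exact absurd hy1.2 hy2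
  · intro z
    obtain ⟨U, hUU, hzU⟩ : ∃ U ∈ 𝒰, z ∈ U := by
      have : z ∈ ⋃₀ 𝒰 := hc ▸ trivial
      simpa using this
    obtain ⟨k, i, hi, hsub⟩ := S.net U (hU U hUU) z hzU
    obtain ⟨k', i', hi', hsub'⟩ := S.net (O k {i | z ∈ S.N k i}.ncard) (hOopen _ _) z
      (show {i | z ∈ S.N k i}.ncard ≤ _ from le_rfl)
    obtain ⟨n, hn⟩ := he (k, {i | z ∈ S.N k i}.ncard, k')
    refine ⟨n, (⋂ i ∈ {i | z ∈ S.N k i}, S.N k i) ∩ C k' (O k {i | z ∈ S.N k i}.ncard), ?_, ?_, ?_⟩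
    · show _ ∈ G (e n)
      rw [hn]
      exact ⟨_, (S.lf k).point_finite z, rfl, rfl, i, hi, U, hUU, hsub⟩
    · exact mem_iInter₂.2 fun i hi => hi
    · exact mem_iUnion.2 ⟨⟨i', hsub'⟩, hi'⟩

end Pool.Agent.Lead.CpD
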