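import Pool.Agent.Lead.Cp1

namespace Pool.Agent.Lead.CpD

open Set Topology Filter

abbrev T : Type := ℕ → Bool
abbrev X : Type := T → Bool

theorem dense_of {D : Set X} (h : ∀ (F : Finset T) (x : X), ∃ d ∈ D, ∀ t ∈ F, d t = x t) :
    Dense D := by
  rw [dense_iff_inter_open]
  rintro U hU ⟨x, hx⟩
  obtain ⟨I, u, h1, h2⟩ := isOpen_pi_iff.1 hU x hx
  obtain ⟨d, hd, hdx⟩ := h I x
  refine ⟨d, h2 ?_, hd⟩
  intro t ht
  rw [hdx t ht]; exact (h1 t ht).2

abbrev QI : Type := Σ n : ℕ, ((Fin n → Bool) → Bool)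

def qv (p : QI) : X := fun t => p.2 (fun i => t i)

theorem qv_cont (p : QI) : Continuous (qv p) := by
  unfold qv
  exact (continuous_of_discreteTopology (f := p.2)).comp
    (continuous_pi fun i => continuous_apply _)

theorem qv_dense : Dense (range qv) := by
  classical
  apply dense_of
  intro F x
  have h : ∀ᶠ n in atTop, ∀ t ∈ F, ∀ t' ∈ F, (∀ i < n, t i = t' i) → t = t' := by
    rw [Finset.eventually_all]
    intro t _
    rw [Finset.eventually_all]
    intro t' _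
    by_cases htt : t = t'
    · exact Eventually.of_forall fun _ _ => htt
    · obtain ⟨i, hi⟩ := Function.ne_iff.1 htt
      filter_upwards [eventually_gt_atTop i] with n hn h
      exact absurd (h i hn) hi
  obtain ⟨n, hn⟩ := h.exists
  refine ⟨qv ⟨n, fun b => if h : ∃ t ∈ F, (fun i : Fin n => t i) = b then x h.choose else false⟩,
    ⟨_, rfl⟩, ?_⟩
  intro t ht
  have h1 : ∃ t' ∈ F, (fun i : Fin n => t' i) = (fun i : Fin n => t i) := ⟨t, ht, rfl⟩
  simp only [qv]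
  rw [dif_pos h1]
  congr 1
  apply hn _ h1.choose_spec.1 _ ht
  intro i hi
  exact congrFun h1.choose_spec.2 ⟨i, hi⟩

theorem fin_dense (x : X) : Dense {y : X | {t | x t ≠ y t}.Finite} := by
  classical
  apply dense_of
  intro F y
  refine ⟨fun t => if t ∈ F then y t else x t, ?_, fun t ht => by simp [ht]⟩
  refine F.finite_toSet.subset ?_
  intro t ht
  by_contra h
  have h' : t ∉ F := h
  simp [h'] at ht

theorem agree_open (S : Finset T) (x : X) : IsOpen {y : X | ∀ t ∈ S, x t = y t} := by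
  have : {y : X | ∀ t ∈ S, x t = y t} = ⋂ t ∈ S, (fun y : X => y t) ⁻¹' {x t} := by
    ext y; simp [eq_comm]
  rw [this]
  exact isOpen_biInter_finset fun t _ => (isOpen_discrete _).preimage (continuous_apply t)

/-- oscillation off `S` is at most `δ` -/
def Osc (S : Finset T) (δ : ℝ) (g : Cp X) : Prop :=
  ∀ x y : X, (∀ t ∈ S, x t = y t) → |g.1 x - g.1 y| ≤ δ

theorem ev_cont (x : X) : Continuous fun g : Cp X => g.1 x :=
  (continuous_apply x).comp continuous_subtype_val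

theorem exists_osc (g : Cp X) {δ : ℝ} (hδ : 0 < δ) : ∃ S, Osc S δ g := by
  classical
  have hc : Continuous fun p : X × X => |g.1 p.1 - g.1 p.2| :=
    ((g.2.comp continuous_fst).sub (g.2.comp continuous_snd)).abs
  have hK : IsCompact {p : X × X | δ ≤ |g.1 p.1 - g.1 p.2|} :=
    (isClosed_le continuous_const hc).isCompact
  obtain ⟨S, hS⟩ := hK.elim_directed_family_closed
    (fun S : Finset T => {p : X × X | ∀ t ∈ S, p.1 t = p.2 t})
    (fun S => by
      simp only [Set.ofPred_forall]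
      exact isClosed_iInter fun t => isClosed_iInter fun _ =>
        isClosed_eq ((continuous_apply t).comp continuous_fst)
          ((continuous_apply t).comp continuous_snd))
    (by
      rw [eq_empty_iff_forall_notMem]
      rintro p ⟨h1, h2⟩
      have : p.1 = p.2 := funext fun t => mem_iInter.1 h2 {t} t (by simp)
      simp only [Set.mem_ofPred_eq, this, sub_self, abs_zero] at h1
      linarith)
    (by
      intro S S'
      exact ⟨S ∪ S', fun p hp t ht => hp t (by simp [ht]), fun p hp t ht => hp t (by simp [ht])⟩)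
  refine ⟨S, fun x y hxy => ?_⟩
  by_contra h
  have : (x, y) ∈ ({p : X × X | δ ≤ |g.1 p.1 - g.1 p.2|} ∩
      {p : X × X | ∀ t ∈ S, p.1 t = p.2 t}) := ⟨(not_le.1 h).le, hxy⟩
  rw [hS] at this
  exact this

theorem witness (g : Cp X) (S : Finset T) (δ : ℝ) (h : ¬ Osc S δ g) :
    ∃ x y : X, {t | x t ≠ y t}.Finite ∧ (∀ t ∈ S, x t = y t) ∧ δ < |g.1 x - g.1 y| := by
  simp only [Osc, not_forall, not_le] at h
  obtain ⟨x, y, hxy, hlt⟩ := h
  have ho : IsOpen ({y : X | ∀ t ∈ S, x t = y t} ∩ {y : X | δ < |g.1 x - g.1 y|}) :=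
    (agree_open S x).inter (isOpen_lt continuous_const (continuous_const.sub g.2).abs)
  obtain ⟨y', hy1, hy2⟩ := (fin_dense x).inter_open_nonempty _ ho ⟨y, hxy, hlt⟩
  exact ⟨x, y', hy2, hy1.1, hy1.2⟩

theorem witnessQ (g : Cp X) (S : Finset T) (δ : ℝ) (h : ¬ Osc S δ g) :
    ∃ p q : QI, (∀ t ∈ S, qv p t = qv q t) ∧ δ < |g.1 (qv p) - g.1 (qv q)| := by
  simp only [Osc, not_forall, not_le] at h
  obtain ⟨x, y, hxy, hlt⟩ := h
  have ho : IsOpen ({y : X | ∀ t ∈ S, x t = y t} ∩ {y : X | δ < |g.1 x - g.1 y|}) :=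
    (agree_open S x).inter (isOpen_lt continuous_const (continuous_const.sub g.2).abs)
  obtain ⟨_, hy1, q, rfl⟩ := qv_dense.inter_open_nonempty _ ho ⟨y, hxy, hlt⟩
  have ho' : IsOpen ({z : X | ∀ t ∈ S, x t = z t} ∩ {z : X | δ < |g.1 z - g.1 (qv q)|}) :=
    (agree_open S x).inter (isOpen_lt continuous_const (g.2.sub continuous_const).abs)
  obtain ⟨_, hz1, p, rfl⟩ := qv_dense.inter_open_nonempty _ ho' ⟨x, fun _ _ => rfl, hy1.2⟩
  exact ⟨p, q, fun t ht => (hz1.1 t ht).symm.trans (hy1.1 t ht), hz1.2⟩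

theorem locfin (g0 : Cp X) (δ : ℝ) (m : ℕ) (h : ∀ S : Finset T, S.card < m → ¬ Osc S δ g0) :
    ∀ j, ∀ S0 : Finset T, m ≤ S0.card + j → ∃ W ∈ 𝓝 g0, ∃ U : Finset T,
      ∀ S : Finset T, S0 ⊆ S → S.card ≤ m → (∃ g ∈ W, Osc S δ g) → S ⊆ U := by
  classical
  intro j
  induction j with
  | zero =>
    intro S0 hm
    refine ⟨univ, univ_mem, S0, fun S h1 h2 _ => ?_⟩
    rw [Finset.eq_of_subset_of_card_le h1 (by omega)]
  | succ j ih =>
    intro S0 hm
    by_cases hc : m ≤ S0.card + j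
    · exact ih S0 hc
    obtain ⟨x, y, hfin, hag, hlt⟩ := witness g0 S0 δ (h S0 (by omega))
    have h1 : ∀ t : hfin.toFinset, ∃ W ∈ 𝓝 g0, ∃ U : Finset T,
        ∀ S : Finset T, insert t.1 S0 ⊆ S → S.card ≤ m → (∃ g ∈ W, Osc S δ g) → S ⊆ U := by
      intro t
      apply ih
      have ht : t.1 ∉ S0 := fun ht => (hfin.mem_toFinset.1 t.2) (hag _ ht)
      rw [Finset.card_insert_of_notMem ht]; omega
    choose W hW U hU using h1
    have hW0 : {g : Cp X | δ < |g.1 x - g.1 y|} ∈ 𝓝 g0 :=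
      (isOpen_lt continuous_const ((ev_cont x).sub (ev_cont y)).abs).mem_nhds hlt
    refine ⟨{g : Cp X | δ < |g.1 x - g.1 y|} ∩ ⋂ t, W t, inter_mem hW0 (iInter_mem.2 hW),
      Finset.univ.biUnion U, ?_⟩
    rintro S hS hcard ⟨g, ⟨hg1, hg2⟩, hosc⟩
    have : ∃ t ∈ S, x t ≠ y t := by
      by_contra hn
      push Not at hn
      exact absurd (hosc x y hn) (not_le.2 hg1)
    obtain ⟨t, htS, ht⟩ := this
    have h2 := hU ⟨t, hfin.mem_toFinset.2 ht⟩ S (Finset.insert_subset htS hS) hcard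
      ⟨g, mem_iInter.1 hg2 _, hosc⟩
    exact fun s hs => Finset.mem_biUnion.2 ⟨_, Finset.mem_univ _, h2 hs⟩

/-- every small set is agreed on by some pair of `P` -/
def Hit (m : ℕ) (P : Finset (QI × QI)) : Prop :=
  ∀ S : Finset T, S.card < m → ∃ p ∈ P, ∀ t ∈ S, qv p.1 t = qv p.2 t

theorem exists_hit (g : Cp X) (δ : ℝ) (m : ℕ) (h : ∀ S : Finset T, S.card < m → ¬ Osc S δ g) :
    ∃ P : Finset (QI × QI), Hit m P ∧ ∀ p ∈ P, δ < |g.1 (qv p.1) - g.1 (qv p.2)| := by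
  classical
  have h1 : ∀ j : Fin m, ∃ P : Finset (QI × QI),
      (∀ s : Fin j → T, ∃ p ∈ P, ∀ i, qv p.1 (s i) = qv p.2 (s i)) ∧
      ∀ p ∈ P, δ < |g.1 (qv p.1) - g.1 (qv p.2)| := by
    intro j
    have h2 : ∀ s : Fin j → T, ∃ p : QI × QI, (∀ i, qv p.1 (s i) = qv p.2 (s i)) ∧
        δ < |g.1 (qv p.1) - g.1 (qv p.2)| := by
      intro s
      obtain ⟨p, q, h3, h4⟩ := witnessQ g (Finset.univ.image s) δ (h _ (by
        refine lt_of_le_of_lt Finset.card_image_le ?_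
        simp))
      exact ⟨(p, q), fun i => h3 _ (by simp), h4⟩
    choose p hp1 hp2 using h2
    obtain ⟨A, hA⟩ := isCompact_univ.elim_finite_subcover
      (fun s : Fin j → T => {s' : Fin j → T | ∀ i, qv (p s).1 (s' i) = qv (p s).2 (s' i)})
      (fun s => by
        simp only [Set.ofPred_forall]
        refine isOpen_iInter_of_finite fun i => ?_
        exact (isOpen_discrete {b : Bool × Bool | b.1 = b.2}).preimage
          (((qv_cont _).comp (continuous_apply i)).prodMk ((qv_cont _).comp (continuous_apply i))))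
      (fun s _ => mem_iUnion.2 ⟨s, hp1 s⟩)
    refine ⟨A.image p, fun s => ?_, ?_⟩
    · obtain ⟨s', hs', h5⟩ := mem_iUnion₂.1 (hA (mem_univ s))
      exact ⟨p s', Finset.mem_image_of_mem _ hs', h5⟩
    · intro q hq
      obtain ⟨s, -, rfl⟩ := Finset.mem_image.1 hq
      exact hp2 s
  choose P hP1 hP2 using h1
  refine ⟨Finset.univ.biUnion P, ?_, ?_⟩
  · intro S hS
    obtain ⟨p, hp, h3⟩ := hP1 ⟨S.card, hS⟩ (fun i => (S.equivFin.symm i).1)
    refine ⟨p, Finset.mem_biUnion.2 ⟨_, Finset.mem_univ _, hp⟩, fun t ht => ?_⟩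
    simpa using h3 (S.equivFin ⟨t, ht⟩)
  · intro p hp
    obtain ⟨j, -, hj⟩ := Finset.mem_biUnion.1 hp
    exact hP2 j p hj

abbrev KK : Type := ℚ × ℚ × Finset (QI × QI) × Σ m : ℕ, ((Fin m → Bool) → ℚ)

def NN (k : KK) (s : Fin k.2.2.2.1 → T) : Set (Cp X) :=
  {g | (k.1 < k.2.1 ∧ Hit k.2.2.2.1 k.2.2.1) ∧
    (∀ p ∈ k.2.2.1, (k.2.1 : ℝ) ≤ |g.1 (qv p.1) - g.1 (qv p.2)|) ∧
    (∀ x y : X, (∀ i, x (s i) = y (s i)) → |g.1 x - g.1 y| ≤ k.1) ∧
    ∀ x : X, |g.1 x - k.2.2.2.2 (fun i => x (s i))| ≤ 2 * k.1}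

theorem H_closed (P : Finset (QI × QI)) (c : ℝ) :
    IsClosed {g : Cp X | ∀ p ∈ P, c ≤ |g.1 (qv p.1) - g.1 (qv p.2)|} := by
  simp only [Set.ofPred_forall]
  exact isClosed_iInter fun p => isClosed_iInter fun _ =>
    isClosed_le continuous_const ((ev_cont _).sub (ev_cont _)).abs

theorem NN_closed (k : KK) (s) : IsClosed (NN k s) := by
  unfold NN
  refine IsClosed.and isClosed_const (IsClosed.and (H_closed _ _) (IsClosed.and ?_ ?_))
  · simp only [Set.ofPred_forall]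
    exact isClosed_iInter fun x => isClosed_iInter fun y => isClosed_iInter fun _ =>
      isClosed_le ((ev_cont _).sub (ev_cont _)).abs continuous_const
  · simp only [Set.ofPred_forall]
    exact isClosed_iInter fun x =>
      isClosed_le ((ev_cont _).sub continuous_const).abs continuous_const

theorem NN_lf (k : KK) : LocallyFinite (NN k) := by
  classical
  obtain ⟨δ, δ', P, m, q⟩ := k
  intro g0
  by_cases h0 : (δ < δ' ∧ Hit m P)
  swap
  · refine ⟨univ, univ_mem, ?_⟩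
    refine finite_empty.subset ?_
    rintro s ⟨g, hg, -⟩
    exact h0 hg.1
  by_cases h1 : ∀ p ∈ P, (δ' : ℝ) ≤ |g0.1 (qv p.1) - g0.1 (qv p.2)|
  swap
  · refine ⟨_, (H_closed P δ').isOpen_compl.mem_nhds h1, ?_⟩
    refine finite_empty.subset ?_
    rintro s ⟨g, hg, hg'⟩
    exact hg' hg.2.1
  have h2 : ∀ S : Finset T, S.card < m → ¬ Osc S δ g0 := by
    intro S hS ho
    obtain ⟨p, hp, h3⟩ := h0.2 S hS
    have h4 := ho _ _ h3
    have h5 := h1 p hp
    have h6 : (δ : ℝ) < δ' := by exact_mod_cast h0.1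
    linarith
  obtain ⟨W, hW, U, hU⟩ := locfin g0 δ m h2 m ∅ (by simp)
  refine ⟨W, hW, ?_⟩
  refine (Set.Finite.pi' (fun _ : Fin m => U.finite_toSet)).subset ?_
  rintro s ⟨g, hg, hgW⟩ i
  have := hU (Finset.univ.image s) (Finset.empty_subset _)
    (le_trans Finset.card_image_le (by simp))
    ⟨g, hgW, fun x y hxy => hg.2.2.1 x y fun i => hxy _ (by simp)⟩
  exact this (by simp)

theorem ball_sub (U : Set (Cp X)) (hU : IsOpen U) (g : Cp X) (hg : g ∈ U) :
    ∃ ε > 0, ∀ h : Cp X, (∀ x, |h.1 x - g.1 x| ≤ ε) → h ∈ U := by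
  obtain ⟨V, hV, rfl⟩ := isOpen_induced_iff.1 hU
  obtain ⟨I, u, h1, h2⟩ := isOpen_pi_iff.1 hV g.1 hg
  have h3 : ∀ᶠ ε in 𝓝[>] (0 : ℝ), ∀ x ∈ I, Metric.closedBall (g.1 x) ε ⊆ u x := by
    rw [Finset.eventually_all]
    intro x hx
    exact (eventually_closedBall_subset ((h1 x hx).1.mem_nhds (h1 x hx).2)).filter_mono
      nhdsWithin_le_nhds
  obtain ⟨ε, h4, h5⟩ := (h3.and self_mem_nhdsWithin).exists
  refine ⟨ε, h5, fun h hh => h2 fun x hx => h4 x hx ?_⟩
  simpa [Real.dist_eq] using hh x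

theorem NN_net (U : Set (Cp X)) (hU : IsOpen U) (g : Cp X) (hg : g ∈ U) :
    ∃ k s, g ∈ NN k s ∧ NN k s ⊆ U := by
  classical
  obtain ⟨ε, hε, hball⟩ := ball_sub U hU g hg
  obtain ⟨δ, hδ0, hδ1⟩ := exists_rat_btwn (show (0 : ℝ) < ε / 4 by positivity)
  have hex : ∃ m, ∃ S : Finset T, S.card = m ∧ Osc S δ g := by
    obtain ⟨S, hS⟩ := exists_osc g hδ0
    exact ⟨_, S, rfl, hS⟩
  obtain ⟨S, hS, hosc⟩ := Nat.find_spec hex
  obtain ⟨P, hP1, hP2⟩ := exists_hit g δ (Nat.find hex)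
    (fun S' hS' ho => Nat.find_min hex hS' ⟨S', rfl, ho⟩)
  have h3 : ∀ᶠ c in 𝓝[>] (δ : ℝ), ∀ p ∈ P, c < |g.1 (qv p.1) - g.1 (qv p.2)| := by
    rw [Finset.eventually_all]
    intro p hp
    exact (eventually_lt_nhds (hP2 p hp)).filter_mono nhdsWithin_le_nhds
  obtain ⟨c, hc1, hc2⟩ := (h3.and self_mem_nhdsWithin).exists
  obtain ⟨δ', hδ'1, hδ'2⟩ := exists_rat_btwn (show (δ : ℝ) < c from hc2)
  rw [← hS] at hP1
  let s : Fin S.card → T := fun i => (S.equivFin.symm i).1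
  have hs : ∀ x y : X, (∀ i, x (s i) = y (s i)) → |g.1 x - g.1 y| ≤ δ := by
    intro x y hxy
    refine hosc x y fun t ht => ?_
    simpa [s] using hxy (S.equivFin ⟨t, ht⟩)
  have hq : ∀ b : Fin S.card → Bool, ∃ r : ℚ, ∀ x : X, (fun i => x (s i)) = b →
      |g.1 x - r| ≤ 2 * δ := by
    intro b
    by_cases hb : ∃ y : X, (fun i => y (s i)) = b
    · obtain ⟨y, hy⟩ := hb
      obtain ⟨r, hr1, hr2⟩ := exists_rat_btwn (show g.1 y < g.1 y + δ by linarith)
      refine ⟨r, fun x hx => ?_⟩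
      have := hs x y fun i => by rw [congrFun hx i, congrFun hy i]
      rw [abs_le] at this ⊢
      constructor <;> linarith [this.1, this.2]
    · exact ⟨0, fun x hx => absurd ⟨x, hx⟩ hb⟩
  choose q hq using hq
  refine ⟨(δ, δ', P, ⟨S.card, q⟩), s, ⟨⟨by exact_mod_cast hδ'1, hP1⟩,
    fun p hp => (hδ'2.trans (hc1 p hp)).le, hs, fun x => hq _ x rfl⟩, ?_⟩
  intro h hh
  apply hball
  intro x
  have h1 : |h.1 x - q (fun i => x (s i))| ≤ 2 * δ := hh.2.2.2 x
  have h2 := hq _ x rfl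
  rw [abs_le] at h1 h2 ⊢
  constructor <;> linarith [h1.1, h1.2, h2.1, h2.2]

def net : SigmaNet (Cp X) :=
  @SigmaNet.mk (Cp X) _ KK inferInstance (fun k => Fin k.2.2.2.1 → T) NN NN_lf NN_closed NN_net

theorem not_metr : ¬ TopologicalSpace.MetrizableSpace X := by
  classical
  intro h
  obtain ⟨B, hB⟩ := (𝓝 (fun _ => false : X)).exists_antitone_basis
  have h1 : ∀ n, ∃ I : Finset T, ∀ y : X, (∀ t ∈ I, y t = false) → y ∈ B n := by
    intro n
    obtain ⟨V, hV1, hV2, hV3⟩ := mem_nhds_iff.1 (hB.mem n)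
    obtain ⟨I, u, h1, h2⟩ := isOpen_pi_iff.1 hV2 _ hV3
    exact ⟨I, fun y hy => hV1 (h2 fun t ht => by rw [hy t ht]; exact (h1 t ht).2)⟩
  choose I hI using h1
  have h2 : (⋃ n, (I n : Set T)).Countable := countable_iUnion fun n => (I n).countable_toSet
  have h3 : ∃ t : T, t ∉ ⋃ n, (I n : Set T) := by
    by_contra hn
    push Not at hn
    have h6 : (univ : Set T).Countable := h2.mono fun t _ => hn t
    obtain ⟨f, hf⟩ := h6.exists_eq_range univ_nonempty
    obtain ⟨n, hn'⟩ : (fun i => !(f i i)) ∈ range f := hf ▸ mem_univ _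
    have := congrFun hn' n
    simp at this
  obtain ⟨t, ht⟩ := h3
  have h4 : {y : X | y t = false} ∈ 𝓝 (fun _ => false : X) :=
    IsOpen.mem_nhds ((isOpen_discrete ({false} : Set Bool)).preimage
      (continuous_apply (A := fun _ : T => Bool) t)) rfl
  obtain ⟨n, hn⟩ := hB.mem_iff.1 h4
  have h5 := hn (hI n (fun s => decide (s = t)) fun s hs => by
    have : s ≠ t := fun h => ht (mem_iUnion.2 ⟨n, h ▸ hs⟩)
    simp [this])
  simp at h5

end Pool.Agent.Lead.CpD
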