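import Mathlib

namespace Pool.Agent.Lead.CpD

open Set Topology

abbrev Cp (X : Type) [TopologicalSpace X] : Type := {f : X → ℝ // Continuous f}

def IsDyadic (X : Type) [TopologicalSpace X] : Prop :=
  ∃ (κ : Type) (f : (κ → Bool) → X), Continuous f ∧ Function.Surjective f

def Subparacompact (Z : Type) [TopologicalSpace Z] : Prop :=
  ∀ 𝒰 : Set (Set Z), (∀ U ∈ 𝒰, IsOpen U) → ⋃₀ 𝒰 = univ →
    ∃ F : ℕ → Set (Set Z),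
      (∀ n, ∀ A ∈ F n, IsClosed A ∧ ∃ U ∈ 𝒰, A ⊆ U) ∧
      (∀ n, ∀ z, ∃ W ∈ 𝓝 z, {A | A ∈ F n ∧ (A ∩ W).Nonempty}.Subsingleton) ∧
      (∀ z, ∃ n, ∃ A ∈ F n, z ∈ A)

end Pool.Agent.Lead.CpD
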