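import Mathlib

set_option autoImplicit false

namespace Pool.Agent.Lead.DM

open Matrix Filter Topology
open scoped MatrixOrder

variable {n : ℕ}

abbrev Mat (n : ℕ) := Matrix (Fin n) (Fin n) ℝ

theorem pd_fac {K : Mat n} (hK : K.PosDef) : ∃ B : Mat n, IsUnit B ∧ K = Bᵀ * B := by
  obtain ⟨y, hy, h⟩ := CStarAlgebra.isStrictlyPositive_iff_eq_star_mul_self.mp
    hK.isStrictlyPositive
  exact ⟨y, hy, by rw [h, star_eq_conjTranspose, conjTranspose_eq_transpose_of_trivial]⟩

theorem trace0 {K1 K2 δ : Mat n} (h1 : K1.PosDef) (h2 : K2.PosDef)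
    (h : ∑ i, ∑ j, δ i j * (K1 * δ * K2) i j = 0) : δ = 0 := by
  obtain ⟨B, hB, rfl⟩ := pd_fac h1
  obtain ⟨C, hC, rfl⟩ := pd_fac h2
  have e1 : ∑ i, ∑ j, δ i j * (Bᵀ * B * δ * (Cᵀ * C)) i j = (δᵀ * (Bᵀ * B * δ * (Cᵀ * C))).trace := by
    rw [Finset.sum_comm]
    simp only [trace, diag, mul_apply (M := δᵀ), transpose_apply]
  have e2 : (δᵀ * (Bᵀ * B * δ * (Cᵀ * C))).trace = ((B * δ * Cᵀ)ᴴ * (B * δ * Cᵀ)).trace := by
    rw [conjTranspose_eq_transpose_of_trivial, transpose_mul, transpose_mul, transpose_transpose]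
    calc _ = ((δᵀ * Bᵀ * (B * δ * Cᵀ)) * C).trace := by simp only [Matrix.mul_assoc]
      _ = (C * (δᵀ * Bᵀ * (B * δ * Cᵀ))).trace := trace_mul_comm _ _
      _ = _ := by simp only [Matrix.mul_assoc]
  rw [e1, e2, trace_conjTranspose_mul_self_eq_zero_iff] at h
  have hCt : IsUnit Cᵀ := (isUnit_transpose C).2 hC
  rw [hCt.mul_left_eq_zero, hB.mul_right_eq_zero] at h
  exact h

theorem pd_open {T : Mat n} (hT : T.PosDef) :
    ∀ᶠ S in 𝓝 T, (∀ i j, S i j = S j i) → Matrix.PosDef S := by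
  have hK : IsCompact (Metric.sphere (0 : Fin n → ℝ) 1) := isCompact_sphere _ _
  have := hK.eventually_forall_of_forall_eventually (x₀ := T)
    (P := fun (S : Mat n) x => 0 < x ⬝ᵥ (S *ᵥ x)) (fun y hy => by
      have hy0 : y ≠ 0 := by
        rintro rfl; simp at hy
      have c : Continuous fun z : Mat n × (Fin n → ℝ) => z.2 ⬝ᵥ (z.1 *ᵥ z.2) := by
        simp only [dotProduct, mulVec]; fun_prop
      exact c.continuousAt.eventually (lt_mem_nhds (by simpa using hT.dotProduct_mulVec_pos hy0)))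
  refine this.mono fun S hS hs => ?_
  refine PosDef.of_dotProduct_mulVec_pos (by ext i j; simp [hs i j]) fun x hx => ?_
  have hn : 0 < ‖x‖ := norm_pos_iff.2 hx
  have := hS (‖x‖⁻¹ • x) (by simp [norm_smul, hn.ne'])
  rw [mulVec_smul, dotProduct_smul, smul_dotProduct, smul_eq_mul, smul_eq_mul] at this
  have h2 : 0 < ‖x‖⁻¹ := inv_pos.2 hn
  simpa using (mul_pos_iff_of_pos_left h2).1 ((mul_pos_iff_of_pos_left h2).1 this)

theorem pd_symm {T : Mat n} (hT : T.PosDef) (i j : Fin n) : T i j = T j i := by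
  simpa using hT.isHermitian.apply j i

theorem pd_inv {T : Mat n} (hT : T.PosDef) : T * T⁻¹ = 1 :=
  mul_nonsing_inv T ((isUnit_iff_isUnit_det T).1 hT.isUnit)

theorem uniq (R : Fin n → Fin n → Prop) {S T : Mat n} (hS : S.PosDef) (hT : T.PosDef)
    (h1 : ∀ i j, R i j → S i j = T i j) (h2 : ∀ i j, ¬ R i j → S⁻¹ i j = 0)
    (h3 : ∀ i j, ¬ R i j → T⁻¹ i j = 0) : S = T := by
  have e : S⁻¹ * (S - T) * T⁻¹ = T⁻¹ - S⁻¹ := by
    rw [Matrix.mul_sub, Matrix.sub_mul, mul_eq_one_comm.1 (pd_inv hS), Matrix.one_mul,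
      Matrix.mul_assoc, pd_inv hT, Matrix.mul_one]
  have := trace0 (δ := S - T) hS.inv hT.inv (by
    rw [e]
    refine Finset.sum_eq_zero fun i _ => Finset.sum_eq_zero fun j _ => ?_
    by_cases h : R i j
    · rw [Matrix.sub_apply, h1 i j h]; simp
    · rw [Matrix.sub_apply T⁻¹, h2 i j h, h3 i j h]; simp)
  exact sub_eq_zero.1 this

def Es (a b : Fin n) : Mat n := fun i j => if (i = a ∧ j = b) ∨ (i = b ∧ j = a) then 1 else 0

theorem det_upd {S : Mat n} (hS : S.PosDef) {a b : Fin n} (hab : a ≠ b) (t : ℝ) :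
    (S + t • Es a b).det =
      S.det * ((1 + t * S⁻¹ b a) * (1 + t * S⁻¹ a b) - t * S⁻¹ b b * (t * S⁻¹ a a)) := by
  let U : Matrix (Fin n) (Fin 2) ℝ := Matrix.of fun i k => if i = (![a, b] k) then 1 else 0
  let W : Matrix (Fin 2) (Fin n) ℝ := Matrix.of fun k j => if j = (![b, a] k) then t else 0
  have e : t • Es a b = U * W := by
    ext i j
    simp only [Es, U, W, mul_apply, of_apply, Fin.sum_univ_two, Matrix.smul_apply, smul_eq_mul,
      cons_val_zero, cons_val_one]
    by_cases h1 : i = a <;> by_cases h2 : j = b <;> by_cases h3 : i = b <;> by_cases h4 : j = a <;>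
      simp_all
  have e2 : S + t • Es a b = S * (1 + S⁻¹ * U * W) := by
    rw [Matrix.mul_add, Matrix.mul_one, e, ← Matrix.mul_assoc, ← Matrix.mul_assoc, pd_inv hS,
      Matrix.one_mul]
  rw [e2, det_mul, det_one_add_mul_comm, det_fin_two]
  have hWU : ∀ k l, (W * (S⁻¹ * U)) k l = t * S⁻¹ (![b, a] k) (![a, b] l) := by
    intro k l; simp [U, W, mul_apply]
  congr 1
  simp [Matrix.add_apply, hWU]

theorem exist (R : Fin n → Fin n → Prop) (hR : ∀ i, R i i) (hs : ∀ i j, R i j → R j i)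
    {T : Mat n} (hT : T.PosDef) :
    ∃ S : Mat n, S.PosDef ∧ (∀ i j, R i j → S i j = T i j) ∧ ∀ i j, ¬ R i j → S⁻¹ i j = 0 := by
  let A : Set (Mat n) := {S | S.PosSemidef ∧ ∀ i j, R i j → S i j = T i j}
  have hc : IsClosed A := by
    have : A = {S : Mat n | (∀ i j, S i j = S j i) ∧ (∀ x : Fin n → ℝ, 0 ≤ x ⬝ᵥ (S *ᵥ x)) ∧
        ∀ i j, R i j → S i j = T i j} := by
      ext S
      constructor
      · rintro ⟨h, h'⟩
        exact ⟨fun i j => by simpa using h.isHermitian.apply j i,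
          fun x => by simpa using h.dotProduct_mulVec_nonneg x, h'⟩
      · rintro ⟨h, h', h''⟩
        exact ⟨PosSemidef.of_dotProduct_mulVec_nonneg (by ext i j; simp [h i j])
          fun x => by simpa using h' x, h''⟩
    rw [this]
    simp only [Set.setOf_and, Set.setOf_forall]
    refine (isClosed_iInter fun i => isClosed_iInter fun j => isClosed_eq (by fun_prop) (by fun_prop)).inter
      ((isClosed_iInter fun x => isClosed_le continuous_const ?_).inter
      (isClosed_iInter fun i => isClosed_iInter fun j => isClosed_iInter fun _ =>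
        isClosed_eq (by fun_prop) continuous_const))
    simp only [dotProduct, mulVec]; fun_prop
  have hb : A ⊆ Set.pi Set.univ fun i => Set.pi Set.univ fun j =>
      Set.Icc (-(T i i + T j j)) (T i i + T j j) := by
    rintro S ⟨h, h'⟩ i _ j _
    have a1 := h.dotProduct_mulVec_nonneg (Pi.single i 1 + Pi.single j 1)
    have a2 := h.dotProduct_mulVec_nonneg (Pi.single i 1 - Pi.single j 1)
    have a3 : S i j = S j i := by simpa using h.isHermitian.apply j i
    have a4 := hT.diag_pos (i := i)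
    have a5 := hT.diag_pos (i := j)
    simp only [star_trivial, mulVec_add, mulVec_sub, add_dotProduct, sub_dotProduct, dotProduct_add,
      dotProduct_sub, single_dotProduct, mulVec_single_one, col_apply, one_mul, Pi.add_apply,
      Pi.sub_apply] at a1 a2
    rw [h' i i (hR i), h' j j (hR j)] at a1 a2
    constructor <;> linarith
  have hk : IsCompact A :=
    (isCompact_univ_pi fun i => isCompact_univ_pi fun j => isCompact_Icc).of_isClosed_subset hc hb
  have hTA : T ∈ A := ⟨hT.posSemidef, fun _ _ _ => rfl⟩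
  obtain ⟨S, hSA, hmax⟩ := hk.exists_isMaxOn ⟨T, hTA⟩
    (continuous_id.matrix_det.continuousOn (s := A))
  have hd : 0 < S.det := hT.det_pos.trans_le (hmax hTA)
  have hS : S.PosDef := hSA.1.posDef_iff_det_ne_zero.2 hd.ne'
  refine ⟨S, hS, hSA.2, fun a b hab => ?_⟩
  have hne : a ≠ b := by rintro rfl; exact hab (hR a)
  have hcont : Tendsto (fun t : ℝ => S + t • Es a b) (𝓝 0) (𝓝 S) := by
    have : Continuous fun t : ℝ => S + t • Es a b := by fun_prop
    simpa using this.tendsto 0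
  have hl : IsLocalMax (fun t : ℝ => S.det * ((1 + t * S⁻¹ b a) * (1 + t * S⁻¹ a b) -
      t * S⁻¹ b b * (t * S⁻¹ a a))) 0 := by
    refine (hcont.eventually (pd_open hS)).mono fun t ht => ?_
    have hp := ht fun i j => by
      simp only [Matrix.add_apply, Matrix.smul_apply, Es, pd_symm hS i j]
      congr 2
      exact if_congr (by tauto) rfl rfl
    have hm : S + t • Es a b ∈ A := ⟨hp.posSemidef, fun i j hij => by
      have : ¬ ((i = a ∧ j = b) ∨ (i = b ∧ j = a)) := by
        rintro (⟨rfl, rfl⟩ | ⟨rfl, rfl⟩)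
        · exact hab hij
        · exact hab (hs _ _ hij)
      simp only [Matrix.add_apply, Matrix.smul_apply, Es, if_neg this, hSA.2 i j hij]; simp⟩
    have := hmax hm
    simp only [id, Set.mem_setOf_eq] at this
    rw [det_upd hS hne] at this
    simpa using this
  have hder : HasDerivAt (fun t : ℝ => S.det * ((1 + t * S⁻¹ b a) * (1 + t * S⁻¹ a b) -
      t * S⁻¹ b b * (t * S⁻¹ a a))) (S.det * (S⁻¹ b a + S⁻¹ a b)) 0 := by
    have i0 := hasDerivAt_id (0 : ℝ)
    have := ((((i0.mul_const (S⁻¹ b a)).const_add 1).mul ((i0.mul_const (S⁻¹ a b)).const_add 1)).sub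
      ((i0.mul_const (S⁻¹ b b)).mul (i0.mul_const (S⁻¹ a a)))).const_mul S.det
    exact this.congr_deriv (by simp)
  have h0 := hl.hasDerivAt_eq_zero hder
  have h1 := pd_symm hS.inv a b
  rcases mul_eq_zero.1 h0 with h | h
  · exact absurd h hd.ne'
  · linarith

end Pool.Agent.Lead.DM
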