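import Pool.Agent.Lead.DM1

set_option autoImplicit false

namespace Pool.Agent.Lead.DM

open Matrix Filter Topology
open scoped ContDiff Classical

variable {n : ℕ}

abbrev V (n : ℕ) := Fin n → Fin n → ℝ

noncomputable def Phi (R : Fin n → Fin n → Prop) (z : V n × V n) : V n × V n :=
  (fun i j => ∑ k, z.1 i k * z.2 k j, fun i j => if R i j then z.1 i j else z.2 i j)

theorem Phi_cd (R : Fin n → Fin n → Prop) : ContDiff ℝ ω (Phi R) := by
  unfold Phi
  refine ContDiff.prodMk (contDiff_pi.2 fun i => contDiff_pi.2 fun j => ?_)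
    (contDiff_pi.2 fun i => contDiff_pi.2 fun j => ?_)
  · fun_prop
  · split_ifs <;> fun_prop

theorem Phi_inj (R : Fin n → Fin n → Prop) {S : Mat n} (hS : S.PosDef)
    (D : (V n × V n) →L[ℝ] (V n × V n)) (hD : HasFDerivAt (Phi R) D (S, (S⁻¹ : Mat n))) :
    Function.Injective D := by
  rw [injective_iff_map_eq_zero]
  rintro ⟨δ, ε⟩ h
  set z0 : V n × V n := (S, (S⁻¹ : Mat n)) with hz0
  have l : HasDerivAt (fun t : ℝ => z0 + t • (δ, ε)) (δ, ε) 0 := by
    simpa using ((hasDerivAt_id (0 : ℝ)).smul_const (δ, ε)).const_add z0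
  have hD' : HasFDerivAt (Phi R) D (z0 + (0 : ℝ) • (δ, ε)) := by simpa using hD
  have c := hD'.comp_hasDerivAt (0 : ℝ) l
  rw [h] at c
  have c1 := (ContinuousLinearMap.fst ℝ (V n) (V n)).hasFDerivAt.comp_hasDerivAt (0 : ℝ) c
  have c2 := (ContinuousLinearMap.snd ℝ (V n) (V n)).hasFDerivAt.comp_hasDerivAt (0 : ℝ) c
  have i0 := hasDerivAt_id (0 : ℝ)
  have a1 : ∀ i j, ∑ k, (δ i k * S⁻¹ k j + S i k * ε k j) = 0 := by
    intro i j
    have d := hasDerivAt_pi.1 (hasDerivAt_pi.1 c1 i) j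
    have e : HasDerivAt (fun t : ℝ => ∑ k, (S i k + t * δ i k) * (S⁻¹ k j + t * ε k j))
        (∑ k, (δ i k * S⁻¹ k j + S i k * ε k j)) 0 :=
      HasDerivAt.fun_sum fun k _ =>
        (((i0.mul_const (δ i k)).const_add (S i k)).mul
          ((i0.mul_const (ε k j)).const_add (S⁻¹ k j))).congr_deriv (by simp)
    exact e.unique d
  have a2 : ∀ i j, (if R i j then δ i j else ε i j) = 0 := by
    intro i j
    have d := hasDerivAt_pi.1 (hasDerivAt_pi.1 c2 i) j
    have e : HasDerivAt (fun t : ℝ => if R i j then S i j + t * δ i j else S⁻¹ i j + t * ε i j)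
        (if R i j then δ i j else ε i j) 0 := by
      split_ifs
      · exact ((i0.mul_const (δ i j)).const_add (S i j)).congr_deriv (by simp)
      · exact ((i0.mul_const (ε i j)).const_add (S⁻¹ i j)).congr_deriv (by simp)
    exact e.unique d
  have m1 : Matrix.of δ * S⁻¹ + S * Matrix.of ε = 0 := by
    ext i j
    simpa [mul_apply, Finset.sum_add_distrib] using a1 i j
  have m2 : S⁻¹ * Matrix.of δ * S⁻¹ = - Matrix.of ε := by
    have := congrArg (fun Z => S⁻¹ * Z) m1
    simp only [Matrix.mul_add, ← Matrix.mul_assoc, mul_eq_one_comm.1 (pd_inv hS), Matrix.one_mul,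
      Matrix.mul_zero] at this
    exact eq_neg_of_add_eq_zero_left this
  have hδ : Matrix.of δ = 0 := trace0 hS.inv hS.inv (by
    rw [m2]
    refine Finset.sum_eq_zero fun i _ => Finset.sum_eq_zero fun j _ => ?_
    have := a2 i j
    split_ifs at this <;> simp [this])
  rw [hδ] at m2
  have hε : Matrix.of ε = 0 := by
    rw [Matrix.mul_zero, Matrix.zero_mul] at m2
    exact neg_eq_zero.1 m2.symm
  exact Prod.ext hδ hε

theorem locinv (R : Fin n → Fin n → Prop) (hs : ∀ i j, R i j → R j i) {S : Mat n} (hS : S.PosDef)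
    (y0 : V n) (h1 : ∀ i j, R i j → S i j = y0 i j) (h0 : ∀ i j, ¬ R i j → S⁻¹ i j = 0)
    (h2 : ∀ i j, ¬ R i j → y0 i j = 0) :
    ∃ σ : V n → V n, AnalyticAt ℝ σ y0 ∧ ∀ᶠ y in 𝓝 y0, (∀ i j, y i j = y j i) →
      (∀ i j, ¬ R i j → y i j = 0) → (Matrix.of (σ y)).PosDef ∧ (∀ i j, R i j → σ y i j = y i j) ∧
        ∀ i j, ¬ R i j → (Matrix.of (σ y))⁻¹ i j = 0 := by
  set z0 : V n × V n := (S, (S⁻¹ : Mat n)) with hz0
  have hc : ContDiffAt ℝ ω (Phi R) z0 := (Phi_cd R).contDiffAt
  have hD := (hc.differentiableAt (by simp)).hasFDerivAt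
  let e : (V n × V n) ≃L[ℝ] (V n × V n) :=
    (LinearEquiv.ofInjectiveEndo (fderiv ℝ (Phi R) z0).toLinearMap
      (Phi_inj R hS _ hD)).toContinuousLinearEquiv
  have hD' : HasFDerivAt (Phi R) (e : (V n × V n) →L[ℝ] (V n × V n)) z0 := by
    have : (e : (V n × V n) →L[ℝ] (V n × V n)) = fderiv ℝ (Phi R) z0 :=
      ContinuousLinearMap.ext fun v => rfl
    rw [this]; exact hD
  have hn : (ω : WithTop ℕ∞) ≠ 0 := by simp
  set ψ := hc.localInverse hD' hn with hψ
  have one : Phi R z0 = ((1 : Mat n), y0) := by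
    refine Prod.ext ?_ ?_
    · funext i j
      exact congrFun (congrFun (pd_inv hS) i) j
    · funext i j
      show (if R i j then S i j else S⁻¹ i j) = y0 i j
      split_ifs with h
      · exact h1 i j h
      · rw [h0 i j h, h2 i j h]
  have ha : AnalyticAt ℝ ψ ((1 : Mat n), y0) := one ▸ (hc.to_localInverse hD' hn).analyticAt
  have hv : ψ ((1 : Mat n), y0) = z0 := one ▸ hc.localInverse_apply_image hD' hn
  have hr : ∀ᶠ u in 𝓝 (((1 : Mat n), y0) : V n × V n), Phi R (ψ u) = u :=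
    one ▸ (hc.hasStrictFDerivAt' hD' hn).eventually_right_inverse
  have hl : ∀ᶠ z in 𝓝 z0, ψ (Phi R z) = z :=
    (hc.hasStrictFDerivAt' hD' hn).eventually_left_inverse
  have hp : AnalyticAt ℝ (fun y : V n => (((1 : Mat n), y) : V n × V n)) y0 :=
    analyticAt_const.prod analyticAt_id
  have hw : AnalyticAt ℝ (fun y : V n => ψ ((1 : Mat n), y)) y0 := ha.comp hp
  have tw : Tendsto (fun y : V n => ψ ((1 : Mat n), y)) (𝓝 y0) (𝓝 z0) := hv ▸ hw.continuousAt
  let tr : V n × V n → V n × V n := fun z => (fun i j => z.1 j i, fun i j => z.2 j i)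
  have ctr : Continuous tr := by fun_prop
  have tz : tr z0 = z0 := by
    refine Prod.ext ?_ ?_ <;> funext i j
    · exact pd_symm hS j i
    · exact pd_symm hS.inv j i
  have tw2 : Tendsto (fun y : V n => tr (ψ ((1 : Mat n), y))) (𝓝 y0) (𝓝 z0) :=
    tz ▸ (ctr.tendsto z0).comp tw
  have tw1 : Tendsto (fun y : V n => Matrix.of (ψ ((1 : Mat n), y)).1) (𝓝 y0) (𝓝 S) :=
    (continuous_fst.tendsto z0).comp tw
  refine ⟨fun y => (ψ ((1 : Mat n), y)).1, analyticAt_fst.comp hw, ?_⟩
  filter_upwards [hp.continuousAt.eventually hr, tw2.eventually hl, tw1.eventually (pd_open hS)]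
    with y e1 e2 e3 ys y0'
  set w := ψ ((1 : Mat n), y) with hwd
  have m1 : Matrix.of w.1 * Matrix.of w.2 = 1 := congrArg Prod.fst e1
  have m2 : ∀ i j, (if R i j then w.1 i j else w.2 i j) = y i j :=
    fun i j => congrFun (congrFun (congrArg Prod.snd e1) i) j
  have m3 : Matrix.of w.2 * Matrix.of w.1 = 1 := mul_eq_one_comm.1 m1
  have m4 : Phi R (tr w) = ((1 : Mat n), y) := by
    refine Prod.ext ?_ ?_ <;> funext i j
    · have := congrFun (congrFun m3 j) i
      simp only [mul_apply, of_apply] at this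
      show ∑ k, w.1 k i * w.2 j k = (1 : Mat n) i j
      rw [one_apply, if_congr eq_comm rfl rfl, ← one_apply, ← this]
      exact Finset.sum_congr rfl fun k _ => mul_comm _ _
    · show (if R i j then w.1 j i else w.2 j i) = y i j
      rw [ys, ← m2 j i]
      exact if_congr ⟨hs i j, hs j i⟩ rfl rfl
  rw [m4] at e2
  have m5 : ∀ i j, w.1 i j = w.1 j i := fun i j => congrFun (congrFun (congrArg Prod.fst e2) i) j
  refine ⟨e3 m5, fun i j h => ?_, fun i j h => ?_⟩
  · have := m2 i j; rwa [if_pos h] at this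
  · have := m2 i j
    rw [if_neg h, y0' i j h] at this
    rw [inv_eq_right_inv m1]; exact this

end Pool.Agent.Lead.DM
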