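import Pool.Agent.Lead.DM2

set_option autoImplicit false

namespace Pool.Agent.Lead.DM

open Matrix Filter Topology
open scoped ContDiff Classical

variable {n : ℕ}

/-- The double Markovian correlation model. -/
def corr (G H : SimpleGraph (Fin n)) : Set (Fin n → Fin n → ℝ) :=
  {S | (Matrix.of S).PosDef ∧ (∀ i j, i ≠ j → ¬ G.Adj i j → (Matrix.of S)⁻¹ i j = 0) ∧
    (∀ i j, i ≠ j → ¬ H.Adj i j → S i j = 0) ∧ ∀ i, S i i = 1}

/-- Smooth embedded submanifold: locally the zero set of a smooth submersion. -/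
def IsSubmanifold (M : Set (Fin n → Fin n → ℝ)) : Prop :=
  ∀ p ∈ M, ∃ (k : ℕ) (f : (Fin n → Fin n → ℝ) → (Fin k → ℝ)) (W : Set (Fin n → Fin n → ℝ)),
    IsOpen W ∧ p ∈ W ∧ ContDiffOn ℝ ∞ f W ∧ Function.Surjective (fderiv ℝ f p) ∧
      ∀ q ∈ W, (q ∈ M ↔ f q = 0)

variable (G H : SimpleGraph (Fin n))

def RR (i j : Fin n) : Prop := i = j ∨ G.Adj i j
def EP (i j : Fin n) : Prop := i < j ∧ G.Adj i j ∧ H.Adj i j

noncomputable def yy (x : V n) : V n :=
  fun i j => if i = j then 1 else if G.Adj i j ∧ H.Adj i j then x (min i j) (max i j) else 0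

def Good (y : V n) (S : V n) : Prop :=
  (Matrix.of S).PosDef ∧ (∀ i j, RR G i j → S i j = y i j) ∧
    ∀ i j, ¬ RR G i j → (Matrix.of S)⁻¹ i j = 0

noncomputable def sec (x : V n) : V n := Classical.epsilon (Good G (yy G H x))

def UU : Set (V n) := {x | ∃ T : Mat n, T.PosDef ∧ ∀ i j, RR G i j → T i j = yy G H x i j}

theorem RR_symm (i j : Fin n) (h : RR G i j) : RR G j i := h.elim (fun e => Or.inl e.symm)
  fun e => Or.inr e.symm

theorem sec_good {x : V n} (hx : x ∈ UU G H) : Good G (yy G H x) (sec G H x) := by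
  obtain ⟨T, hT, h⟩ := hx
  obtain ⟨S, hS, h1, h2⟩ := exist (RR G) (fun i => Or.inl rfl) (RR_symm G) hT
  exact Classical.epsilon_spec (p := Good G (yy G H x))
    ⟨S, hS, fun i j hij => (h1 i j hij).trans (h i j hij), h2⟩

theorem sec_eq {x S : V n} (h : Good G (yy G H x) S) : x ∈ UU G H ∧ sec G H x = S := by
  have hx : x ∈ UU G H := ⟨S, h.1, h.2.1⟩
  have g := sec_good G H hx
  exact ⟨hx, uniq (RR G) g.1 h.1 (fun i j r => (g.2.1 i j r).trans (h.2.1 i j r).symm) g.2.2 h.2.2⟩

theorem yy_symm (x : V n) (i j : Fin n) : yy G H x i j = yy G H x j i := by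
  unfold yy
  rw [min_comm, max_comm, G.adj_comm, H.adj_comm]
  exact if_congr eq_comm rfl rfl

theorem yy_zero (x : V n) (i j : Fin n) (h : ¬ RR G i j) : yy G H x i j = 0 := by
  unfold yy
  rw [if_neg fun e => h (Or.inl e), if_neg fun e => h (Or.inr e.1)]

theorem yy_congr {x x' : V n} (h : ∀ i j, EP G H i j → x i j = x' i j) : yy G H x = yy G H x' := by
  funext i j
  unfold yy
  split_ifs with h1 h2
  · rfl
  · rcases lt_or_gt_of_ne h1 with l | l
    · rw [min_eq_left l.le, max_eq_right l.le]; exact h i j ⟨l, h2⟩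
    · rw [min_eq_right l.le, max_eq_left l.le]; exact h j i ⟨l, h2.1.symm, h2.2.symm⟩
  · rfl

theorem yy_an (x : V n) : AnalyticAt ℝ (yy G H) x := by
  refine ContDiffAt.analyticAt (ContDiff.contDiffAt ?_)
  unfold yy
  refine contDiff_pi.2 fun i => contDiff_pi.2 fun j => ?_
  split_ifs <;> fun_prop

theorem sec_an {x : V n} (hx : x ∈ UU G H) : UU G H ∈ 𝓝 x ∧ AnalyticAt ℝ (sec G H) x := by
  have g := sec_good G H hx
  obtain ⟨σ, ha, he⟩ := locinv (RR G) (RR_symm G) g.1 (yy G H x) g.2.1 g.2.2 (yy_zero G H x)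
  have he' := ((yy_an G H x).continuousAt.eventually he).mono fun z hz =>
    sec_eq G H (hz (yy_symm G H z) (yy_zero G H z))
  exact ⟨he'.mono fun z hz => hz.1,
    (ha.comp (yy_an G H x)).congr (he'.mono fun z hz => hz.2.symm)⟩

theorem UU_conv : Convex ℝ (UU G H) := by
  rw [convex_iff_forall_pos]
  rintro x ⟨S, hS, h1⟩ y ⟨T, hT, h2⟩ a b ha hb hab
  refine ⟨a • S + b • T, (hS.smul ha).add (hT.smul hb), fun i j r => ?_⟩
  rw [Matrix.add_apply, Matrix.smul_apply, Matrix.smul_apply, h1 i j r, h2 i j r]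
  unfold yy
  split_ifs <;> simp [hab]

theorem corr_good {S : V n} (h : S ∈ corr G H) : Good G (yy G H S) S := by
  refine ⟨h.1, fun i j r => ?_, fun i j r => h.2.1 i j (fun e => r (Or.inl e)) fun e => r (Or.inr e)⟩
  unfold yy
  split_ifs with h1 h2
  · rw [h1]; exact h.2.2.2 j
  · rcases le_total i j with l | l
    · rw [min_eq_left l, max_eq_right l]
    · rw [min_eq_right l, max_eq_left l]; exact pd_symm h.1 i j
  · exact h.2.2.1 i j h1 fun e => h2 ⟨r.resolve_left h1, e⟩

abbrev EE := {p : Fin n × Fin n // EP G H p.1 p.2}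

noncomputable def prj : V n →L[ℝ] (EE G H → ℝ) :=
  ContinuousLinearMap.pi fun e => (ContinuousLinearMap.proj e.1.2).comp
    (ContinuousLinearMap.proj e.1.1 : V n →L[ℝ] (Fin n → ℝ))

theorem prj_apply (x : V n) (e : EE G H) : prj G H x e = x e.1.1 e.1.2 := rfl

theorem core {S0 : V n} (h0 : S0 ∈ corr G H)
    (h : ∀ᶠ b in 𝓝 (prj G H S0), ∃ q ∈ corr G H, prj G H q = b) :
    ∀ x ∈ UU G H, sec G H x ∈ corr G H := by
  have hU0 := (sec_eq G H (corr_good G H h0)).1
  have h1 : ∀ᶠ x in 𝓝 S0, sec G H x ∈ corr G H := by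
    refine ((prj G H).continuous.continuousAt.eventually h).mono ?_
    rintro x ⟨q, hq, e⟩
    have : yy G H q = yy G H x := yy_congr G H fun i j hij => congrFun e ⟨(i, j), hij⟩
    have g := corr_good G H hq
    rw [this] at g
    rw [(sec_eq G H g).2]; exact hq
  intro x hx
  have g := sec_good G H hx
  refine ⟨g.1, fun i j a b => g.2.2 i j (by rintro (c | c); exacts [a c, b c]),
    fun i j a b => ?_, fun i => ?_⟩
  · have an : AnalyticOnNhd ℝ (fun z => sec G H z i j) (UU G H) := fun z hz =>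
      analyticAt_pi_iff.1 (analyticAt_pi_iff.1 (sec_an G H hz).2 i) j
    exact an.eqOn_zero_of_preconnected_of_eventuallyEq_zero (UU_conv G H).isPreconnected hU0
      (h1.mono fun z hz => hz.2.2.1 i j a b) hx
  · rw [g.2.1 i i (Or.inl rfl)]; simp [yy]

theorem one_corr : (1 : Mat n) ∈ corr G H :=
  ⟨PosDef.one, fun i j hij _ => by
    have : (Matrix.of (1 : Mat n)) = 1 := rfl
    rw [this, inv_one]; exact one_apply_ne hij, fun _ _ hij _ => one_apply_ne hij,
    fun i => one_apply_eq i⟩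

theorem line_corr {a b : Fin n} (h : EP G H a b) :
    ∀ᶠ t : ℝ in 𝓝 0, ((1 : Mat n) + t • Es a b : Mat n) ∈ corr G H := by
  have hab : a ≠ b := h.1.ne
  have hE : Es a b = single a b 1 + single b a 1 := by
    ext i j
    simp only [Es, Matrix.add_apply, single_apply]
    by_cases h1 : a = i <;> by_cases h2 : b = j <;> by_cases h3 : b = i <;> by_cases h4 : a = j <;>
      simp_all [eq_comm]
  have hE2 : Es a b * Es a b = single a a 1 + single b b 1 := by
    rw [hE]; simp [Matrix.add_mul, Matrix.mul_add, single_mul_single_of_ne, hab, hab.symm, add_comm]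
  have hE3 : Es a b * (Es a b * Es a b) = Es a b := by
    rw [hE2, hE]
    simp [Matrix.add_mul, Matrix.mul_add, single_mul_single_of_ne, hab, hab.symm, add_comm]
  have hcont : Tendsto (fun t : ℝ => (1 : Mat n) + t • Es a b) (𝓝 0) (𝓝 1) := by
    have : Continuous fun t : ℝ => (1 : Mat n) + t • Es a b := by fun_prop
    simpa using this.tendsto 0
  have hEs : ∀ (K : SimpleGraph (Fin n)), K.Adj a b → ∀ i j, ¬ K.Adj i j → Es a b i j = 0 := by
    intro K hK i j hn
    refine if_neg ?_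
    rintro (⟨rfl, rfl⟩ | ⟨rfl, rfl⟩)
    exacts [hn hK, hn hK.symm]
  have hsm : ∀ᶠ t : ℝ in 𝓝 0, 1 - t ^ 2 ≠ 0 := by
    have : Continuous fun t : ℝ => 1 - t ^ 2 := by fun_prop
    exact this.continuousAt.eventually_ne (by norm_num)
  filter_upwards [hcont.eventually (pd_open PosDef.one), hsm] with t ht h2
  refine ⟨ht fun i j => ?_, fun i j hij hn => ?_, fun i j hij hn => ?_, fun i => ?_⟩
  · simp only [Matrix.add_apply, Matrix.smul_apply, Es, pd_symm PosDef.one i j]
    congr 2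
    exact if_congr (by tauto) rfl rfl
  · have : (Matrix.of ((1 : Mat n) + t • Es a b : Mat n))⁻¹ =
        1 + (-t / (1 - t ^ 2)) • Es a b + (t ^ 2 / (1 - t ^ 2)) • (Es a b * Es a b) := by
      apply inv_eq_right_inv
      show ((1 : Mat n) + t • Es a b) * _ = _
      simp only [Matrix.add_mul, Matrix.mul_add, Matrix.one_mul, Matrix.mul_one, Matrix.smul_mul,
        Matrix.mul_smul, hE3]
      ext i j
      simp only [Matrix.add_apply, Matrix.smul_apply, smul_eq_mul]
      field_simp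
      ring
    rw [this, hE2]
    simp only [Matrix.add_apply, Matrix.smul_apply, one_apply_ne hij, hEs G h.2.1 i j hn]
    rw [single_apply_of_ne _ _ _ _ _ (by rintro ⟨rfl, rfl⟩; exact hij rfl),
      single_apply_of_ne _ _ _ _ _ (by rintro ⟨rfl, rfl⟩; exact hij rfl)]
    simp
  · simp only [Matrix.add_apply, Matrix.smul_apply, one_apply_ne hij, hEs H h.2.2 i j hn]; simp
  · simp only [Matrix.add_apply, Matrix.smul_apply, one_apply_eq, hEs H h.2.2 i i (H.irrefl)]; simp

end Pool.Agent.Lead.DM
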