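import Mathlib

set_option autoImplicit false

namespace Pool.Agent.Lead.Doeb
open Finset Matrix Filter Topology

variable {S : Type} [Fintype S] [DecidableEq S]

lemma pow_stoch (P : Matrix S S ℝ) (h0 : ∀ x y, 0 ≤ P x y) (h1 : ∀ x, ∑ y, P x y = 1) (n : ℕ) :
    (∀ x y, 0 ≤ (P ^ n) x y) ∧ ∀ x, ∑ y, (P ^ n) x y = 1 := by
  induction n with
  | zero =>
    refine ⟨fun x y => ?_, fun x => ?_⟩
    · rw [pow_zero, Matrix.one_apply]; split_ifs <;> norm_num
    · simp [Matrix.one_apply]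
  | succ n ih =>
    refine ⟨fun x y => ?_, fun x => ?_⟩
    · rw [pow_succ, Matrix.mul_apply]
      exact Finset.sum_nonneg fun z _ => mul_nonneg (ih.1 x z) (h0 z y)
    · simp only [pow_succ, Matrix.mul_apply]
      rw [Finset.sum_comm]
      simp only [← Finset.mul_sum, h1, mul_one, ih.2]

lemma contract (Q : Matrix S S ℝ) (h0 : ∀ x y, 0 ≤ Q x y) (h1 : ∀ x, ∑ y, Q x y = 1)
    (y0 : S) (d : ℝ) (hd : ∀ x, d ≤ Q x y0) (v : S → ℝ) (hv : ∑ x, v x = 0) :
    ∑ y, |(v ᵥ* Q) y| ≤ (1 - d) * ∑ x, |v x| := by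
  have e : ∀ y, (v ᵥ* Q) y = ∑ x, v x * (Q x y - if y = y0 then d else 0) := by
    intro y
    simp only [mul_sub, Finset.sum_sub_distrib, ← Finset.sum_mul, hv, zero_mul, sub_zero]
    rfl
  have nn : ∀ x y, 0 ≤ Q x y - if y = y0 then d else 0 := by
    intro x y
    split_ifs with h
    · rw [h]; linarith [hd x]
    · linarith [h0 x y]
  calc ∑ y, |(v ᵥ* Q) y| ≤ ∑ y, ∑ x, |v x| * (Q x y - if y = y0 then d else 0) := by
        apply Finset.sum_le_sum
        intro y _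
        rw [e]
        refine (Finset.abs_sum_le_sum_abs _ _).trans (le_of_eq ?_)
        apply Finset.sum_congr rfl
        intro x _
        rw [abs_mul, abs_of_nonneg (nn x y)]
    _ = (1 - d) * ∑ x, |v x| := by
        rw [Finset.sum_comm, Finset.mul_sum]
        apply Finset.sum_congr rfl
        intro x _
        rw [← Finset.mul_sum, Finset.sum_sub_distrib, h1]
        simp [mul_comm]

lemma sum_vec (Q : Matrix S S ℝ) (h1 : ∀ x, ∑ y, Q x y = 1) (v : S → ℝ) :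
    ∑ y, (v ᵥ* Q) y = ∑ x, v x := by
  simp only [Matrix.vecMul, dotProduct]
  rw [Finset.sum_comm]
  simp only [← Finset.mul_sum, h1, mul_one]

theorem conv (P : Matrix S S ℝ) (h0 : ∀ x y, 0 ≤ P x y) (h1 : ∀ x, ∑ y, P x y = 1)
    (k : ℕ) (hk : 0 < k) (y0 : S) (hd : ∀ x, 0 < (P ^ k) x y0) (v : S → ℝ) (hv : ∑ x, v x = 0) :
    Tendsto (fun n => v ᵥ* P ^ n) atTop (𝓝 0) := by
  haveI : Nonempty S := ⟨y0⟩
  obtain ⟨x0, -, hx0⟩ := Finset.exists_min_image univ (fun x => (P ^ k) x y0) univ_nonempty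
  set d := (P ^ k) x0 y0 with hdd
  have dpos : 0 < d := hd x0
  have d1 : d ≤ 1 := by
    rw [← (pow_stoch P h0 h1 k).2 x0]
    exact Finset.single_le_sum (fun y _ => (pow_stoch P h0 h1 k).1 x0 y) (mem_univ y0)
  have step : ∀ q, ∑ y, |(v ᵥ* P ^ (k * q)) y| ≤ (1 - d) ^ q * ∑ x, |v x| := by
    intro q
    induction q with
    | zero => simp
    | succ q ih =>
      rw [Nat.mul_succ, pow_add, ← Matrix.vecMul_vecMul]
      refine (contract _ (pow_stoch P h0 h1 k).1 (pow_stoch P h0 h1 k).2 y0 d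
        (fun x => hx0 x (mem_univ x)) _ ?_).trans ?_
      · rw [sum_vec _ (pow_stoch P h0 h1 _).2, hv]
      · rw [pow_succ', mul_assoc]
        exact mul_le_mul_of_nonneg_left ih (by linarith)
  have all : ∀ n, ∑ y, |(v ᵥ* P ^ n) y| ≤ (1 - d) ^ (n / k) * ∑ x, |v x| := by
    intro n
    conv_lhs => rw [← Nat.div_add_mod n k, pow_add, ← Matrix.vecMul_vecMul]
    have := contract _ (pow_stoch P h0 h1 (n % k)).1 (pow_stoch P h0 h1 (n % k)).2 y0 0
      (fun x => (pow_stoch P h0 h1 (n % k)).1 x y0) (v ᵥ* P ^ (k * (n / k)))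
      (by rw [sum_vec _ (pow_stoch P h0 h1 _).2, hv])
    rw [sub_zero, one_mul] at this
    exact this.trans (step _)
  have lim : Tendsto (fun n => (1 - d) ^ (n / k) * ∑ x, |v x|) atTop (𝓝 0) := by
    have a := (tendsto_pow_atTop_nhds_zero_of_lt_one (r := 1 - d) (by linarith) (by linarith)).comp
      (Nat.tendsto_div_const_atTop hk.ne')
    simpa using a.mul_const (∑ x, |v x|)
  rw [tendsto_pi_nhds]
  intro y
  rw [Pi.zero_apply, tendsto_zero_iff_abs_tendsto_zero]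
  refine squeeze_zero (fun n => abs_nonneg _) (fun n => ?_) lim
  exact (Finset.single_le_sum (f := fun y => |(v ᵥ* P ^ n) y|) (fun y _ => abs_nonneg _)
    (mem_univ y)).trans (all n)

lemma stat_pow (P : Matrix S S ℝ) (π : S → ℝ) (h : π ᵥ* P = π) (n : ℕ) : π ᵥ* P ^ n = π := by
  induction n with
  | zero => simp
  | succ n ih => rw [pow_succ, ← Matrix.vecMul_vecMul, ih, h]

theorem conv' (P : Matrix S S ℝ) (h0 : ∀ x y, 0 ≤ P x y) (h1 : ∀ x, ∑ y, P x y = 1)
    (k : ℕ) (hk : 0 < k) (y0 : S) (hd : ∀ x, 0 < (P ^ k) x y0) (π : S → ℝ) (hs : ∑ x, π x = 1)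
    (h : π ᵥ* P = π) (μ : S → ℝ) (hμ : ∑ x, μ x = 1) :
    Tendsto (fun n => μ ᵥ* P ^ n) atTop (𝓝 π) := by
  have := conv P h0 h1 k hk y0 hd (μ - π) (by simp [Finset.sum_sub_distrib, hs, hμ])
  have h2 := this.add_const π
  simp only [Matrix.sub_vecMul, stat_pow P π h, sub_add_cancel, zero_add] at h2
  exact h2

lemma pos_step (P : Matrix S S ℝ) (h0 : ∀ x y, 0 ≤ P x y) (h1 : ∀ x, ∑ y, P x y = 1) (n : ℕ)
    (x z y : S) (a : 0 < P x z) (b : 0 < (P ^ n) z y) : 0 < (P ^ (n + 1)) x y := by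
  rw [pow_succ', Matrix.mul_apply]
  exact lt_of_lt_of_le (mul_pos a b) (Finset.single_le_sum (f := fun z => P x z * (P ^ n) z y)
    (fun z _ => mul_nonneg (h0 x z) ((pow_stoch P h0 h1 n).1 z y)) (mem_univ z))

end Pool.Agent.Lead.Doeb
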