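import Pool.Agent.Lead.Iso1

namespace Pool.Agent.Lead.Ebl

open Set Topology Filter Pool.Agent.Lead.Gro

variable {T : Type} (r : T → T → Prop)

def XT : Type := {y : Set T // ∀ c, IsChain r c → (y ∩ c).Finite}

open Classical in
noncomputable def cod (y : XT r) : ({c : Set T // IsChain r c} × Set T) → Bool :=
  fun p => decide (y.1 ∩ p.1.1 = p.2)

noncomputable instance : TopologicalSpace (XT r) := TopologicalSpace.induced (cod r) inferInstance

theorem cod_inj : Function.Injective (cod r) := by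
  intro y y' h
  apply Subtype.ext
  ext t
  have h1 := congrFun h (⟨{t}, IsChain.singleton⟩, y.1 ∩ {t})
  simp only [cod, decide_true] at h1
  have h2 : y'.1 ∩ {t} = y.1 ∩ {t} := by simpa using h1.symm
  constructor
  · intro ht
    have : t ∈ y'.1 ∩ {t} := by rw [h2]; exact ⟨ht, rfl⟩
    exact this.1
  · intro ht
    have : t ∈ y.1 ∩ {t} := by rw [← h2]; exact ⟨ht, rfl⟩
    exact this.1

instance : T35Space (XT r) :=
  (show IsEmbedding (cod r) from ⟨⟨rfl⟩, cod_inj r⟩).t35Space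

theorem isOpen_cyl {c : Set T} (hc : IsChain r c) (b : Set T) :
    IsOpen {y : XT r | y.1 ∩ c = b} := by
  have h1 : Continuous fun y : XT r => cod r y (⟨c, hc⟩, b) :=
    continuous_pi_iff.1 (show Continuous (cod r) from continuous_induced_dom) _
  have := (isOpen_discrete ({true} : Set Bool)).preimage h1
  convert this using 1
  ext y
  simp [cod]

theorem basis {x : XT r} {U : Set (XT r)} (hU : U ∈ 𝓝 x) :
    ∃ F : Finset {c : Set T // IsChain r c}, ∀ y : XT r,
      (∀ c ∈ F, y.1 ∩ c.1 = x.1 ∩ c.1) → y ∈ U := by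
  classical
  obtain ⟨V, hV, hVU⟩ := (mem_nhds_induced _ _ _).1 hU
  obtain ⟨O, hO, hO', hx⟩ := mem_nhds_iff.1 hV
  obtain ⟨G, u, h1, h2⟩ := isOpen_pi_iff.1 hO' _ hx
  refine ⟨G.image Prod.fst, fun y hy => hVU (hO (h2 fun i hi => ?_))⟩
  have : cod r y i = cod r x i := by
    simp only [cod]
    rw [hy i.1 (Finset.mem_image_of_mem _ hi)]
  rw [this]
  exact (h1 i hi).2

def fin (z : Finset T) : XT r := ⟨z, fun _ _ => z.finite_toSet.subset inter_subset_left⟩

theorem approx {x : XT r} {U : Set (XT r)} (hU : U ∈ 𝓝 x) :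
    ∃ z : Finset T, ↑z ⊆ x.1 ∧ fin r z ∈ U := by
  obtain ⟨F, hF⟩ := basis r hU
  have hfin : (⋃ c ∈ F, x.1 ∩ c.1).Finite :=
    F.finite_toSet.biUnion fun c _ => x.2 c.1 c.2
  refine ⟨hfin.toFinset, ?_, hF _ fun c hc => ?_⟩
  · intro t ht
    simp only [Finite.coe_toFinset, mem_iUnion] at ht
    obtain ⟨c, -, h⟩ := ht
    exact h.1
  · ext t
    simp only [fin, Finite.coe_toFinset, mem_inter_iff, mem_iUnion]
    constructor
    · rintro ⟨⟨c', -, h⟩, h2⟩
      exact ⟨h.1, h2⟩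
    · rintro ⟨h1, h2⟩
      exact ⟨⟨c, hc, h1, h2⟩, h2⟩

def Tr (L : Set (XT r → ℝ)) (k : ℕ) (S : Set T) (h : XT r → ℝ) (x : Finset T)
    (a : ℕ → Set T) : Prop :=
  h ∈ L ∧ (∀ z : Finset T, ↑z ⊆ S → h (fin r z) = 0) ∧ (∀ l, IsChain r (a l)) ∧
    (∀ t ∈ x, ∃ l < k, {s | r s t} ⊆ a l) ∧
    ∀ y : XT r, (∀ l < k, y.1 ∩ a l = ↑x ∩ a l) → 1 / ((k : ℝ) + 1) ≤ |h y|

theorem stepA (h1 : ∀ t, IsChain r {s | r s t}) {L : Set (XT r → ℝ)}
    (hL : ∀ f ∈ L, Continuous f) {S : Set T} {h : XT r → ℝ} (hh : h ∈ L)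
    (hz : ∀ z : Finset T, ↑z ⊆ S → h (fin r z) = 0) (hne : h ≠ 0) :
    ∃ k x a, Tr r L k S h x a := by
  classical
  obtain ⟨y, hy⟩ := Function.ne_iff.1 hne
  have hc := hL h hh
  obtain ⟨x, -, hx⟩ := approx r ((isOpen_ne_fun hc continuous_const).mem_nhds hy)
  have hx' : 0 < |h (fin r x)| := abs_pos.2 hx
  obtain ⟨n, hn⟩ := exists_nat_one_div_lt hx'
  obtain ⟨F, hF⟩ := basis r ((isOpen_lt (continuous_const (y := 1 / ((n : ℝ) + 1)))
    hc.abs).mem_nhds (show fin r x ∈ {y | 1 / ((n : ℝ) + 1) < |h y|} from hn))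
  let F' : Finset {c : Set T // IsChain r c} := F ∪ x.image fun t => ⟨{s | r s t}, h1 t⟩
  let l := F'.toList
  have hl : ∀ c ∈ F', ∃ i < max l.length n, (l.getD i ⟨∅, IsChain.empty⟩) = c := by
    intro c hc
    obtain ⟨i, hi, h⟩ := List.getElem_of_mem (Finset.mem_toList.2 hc)
    exact ⟨i, lt_max_of_lt_left hi, by rw [List.getD_eq_getElem _ _ hi]; exact h⟩
  refine ⟨max l.length n, x, fun i => (l.getD i ⟨∅, IsChain.empty⟩).1, hh, hz,
    fun i => (l.getD i ⟨∅, IsChain.empty⟩).2, fun t ht => ?_, fun y hy => ?_⟩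
  · obtain ⟨i, hi, h⟩ := hl ⟨{s | r s t}, h1 t⟩
      (Finset.mem_union_right _ (Finset.mem_image_of_mem _ ht))
    exact ⟨i, hi, by simp only [h]; exact subset_rfl⟩
  · have := hF y fun c hc => by
      obtain ⟨i, hi, h⟩ := hl c (Finset.mem_union_left _ hc)
      have := hy i hi
      simp only [h] at this
      exact this
    refine le_trans ?_ (le_of_lt this)
    apply one_div_le_one_div_of_le (by positivity)
    have : (n : ℝ) ≤ (max l.length n : ℕ) := by exact_mod_cast le_max_right _ _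
    linarith

theorem Tr.mono {L : Set (XT r → ℝ)} {k : ℕ} {S S' : Set T} {h : XT r → ℝ} {x : Finset T}
    {a : ℕ → Set T} (H : Tr r L k S h x a) (hS : S' ⊆ S) : Tr r L k S' h x a :=
  ⟨H.1, fun z hz => H.2.1 z (hz.trans hS), H.2.2⟩

theorem stepB {L : Set (XT r → ℝ)}
    (H : ∀ S : Set T, S.Countable → ∃ k h x a, Tr r L k S h x a) :
    ∃ (k : ℕ) (R : Finset T), ∀ S : Set T, S.Countable → ∃ h x a, Tr r L k S h x a ∧ R ⊆ x ∧
      ∀ t ∈ x, t ∉ R → t ∉ S := by
  classical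
  by_contra hcon
  push Not at hcon
  choose Γ hΓ hΓ' using hcon
  obtain ⟨S, hS, -, hcl⟩ := closing (fun R => ⋃ k, Γ k R)
    (fun R => countable_iUnion fun k => hΓ k R) countable_empty
  obtain ⟨k, h, x, a, htr⟩ := H S hS
  have hsub : Γ k (x.filter (· ∈ S)) ⊆ S :=
    (subset_iUnion (fun k => Γ k (x.filter (· ∈ S))) k).trans
      (hcl _ fun t ht => (Finset.mem_filter.1 ht).2)
  obtain ⟨t, ht, h1, h2⟩ := hΓ' k _ h x a (htr.mono r hsub) (Finset.filter_subset _ _)
  exact h1 (Finset.mem_filter.2 ⟨ht, hsub h2⟩)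

theorem determined (h1 : ∀ t, IsChain r {s | r s t}) (h2 : ∀ c, IsChain r c → c.Countable)
    {L : Set (XT r → ℝ)} (hL : ∀ f ∈ L, Continuous f) (hK : IsCompact L) :
    ∃ S : Set T, S.Countable ∧ ∀ h ∈ L, (∀ z : Finset T, ↑z ⊆ S → h (fin r z) = 0) → h = 0 := by
  classical
  by_contra hcon
  push Not at hcon
  obtain ⟨k, R, H⟩ := stepB r (L := L) fun S hS => by
    obtain ⟨h, hh, hz, hne⟩ := hcon S hS
    obtain ⟨k, x, a, H⟩ := stepA r h1 hL hh hz hne
    exact ⟨k, h, x, a, H⟩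
  let I := {S : Set T // S.Countable}
  choose h x a htr hR hx using fun β : I => H β.1 β.2
  have : Nonempty I := ⟨⟨∅, countable_empty⟩⟩
  have : IsDirectedOrder I := ⟨fun β γ => ⟨⟨β.1 ∪ γ.1, β.2.union γ.2⟩,
    (subset_union_left : β.1 ⊆ β.1 ∪ γ.1), (subset_union_right : γ.1 ⊆ β.1 ∪ γ.1)⟩⟩
  obtain ⟨U, hU⟩ := Ultrafilter.exists_le (atTop : Filter I)
  have hev : ∀ S : Set T, S.Countable → ∀ᶠ β : I in U, S ⊆ β.1 := fun S hS =>
    hU (eventually_ge_atTop (⟨S, hS⟩ : I))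
  let C : Set T := ⋃ l, {t | ∀ᶠ β in U, t ∈ a β l}
  have hC : C.Countable := by
    refine countable_iUnion fun l => h2 _ ?_
    intro s hs t ht hst
    obtain ⟨β, hβ⟩ := (Eventually.and hs ht).exists
    exact (htr β).2.2.1 l hβ.1 hβ.2 hst
  obtain ⟨β, hP, hrel⟩ := exists_seq_of_forall_finset_exists (fun β : I => C ⊆ β.1)
    (fun β γ => ↑(x β) ⊆ γ.1 ∧ (∀ l, a β l ⊆ γ.1) ∧ ∀ t ∈ x β, t ∉ R → ∀ l < k, t ∉ a γ l)
    (by
      intro s hs
      refine ((hev C hC).and ?_).exists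
      rw [Finset.eventually_all]
      intro β hβ
      refine (hev _ (x β).countable_toSet).and (Eventually.and ?_ ?_)
      · filter_upwards [hev _ (countable_iUnion fun l => h2 _ ((htr β).2.2.1 l))] with γ hγ l
          using (subset_iUnion (a β) l).trans hγ
      · rw [Finset.eventually_all]
        intro t ht
        by_cases htR : t ∈ R
        · exact Eventually.of_forall fun γ h => absurd htR h
        have htC : t ∉ C := fun h => hx β t ht htR (hs β hβ h)
        have : ∀ᶠ γ in U, ∀ l ∈ Finset.range k, t ∉ a γ l := by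
          rw [Finset.eventually_all]
          intro l _
          exact Ultrafilter.eventually_not.2 fun h => htC (mem_iUnion.2 ⟨l, h⟩)
        filter_upwards [this] with γ hγ _ l hl using hγ l (Finset.mem_range.2 hl))
  have hdis : ∀ i j, i ≠ j → ∀ t ∈ x (β j), t ∉ R → ∀ l < k, t ∉ a (β i) l := by
    intro i j hij t ht htR l hl
    rcases lt_or_gt_of_ne hij with h | h
    · exact fun h' => hx _ t ht htR ((hrel i j h).2.1 l h')
    · exact (hrel j i h).2.2 t ht htR l hl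
  have hy : ∀ c, IsChain r c → ((⋃ i, (x (β i) : Set T)) ∩ c).Finite := by
    intro c hc
    by_cases hcR : (⋃ i, (x (β i) : Set T)) ∩ c ⊆ R
    · exact R.finite_toSet.subset hcR
    obtain ⟨t, ⟨ht, htc⟩, htR⟩ := not_subset.1 hcR
    obtain ⟨i, hi⟩ := mem_iUnion.1 ht
    refine (x (β i)).finite_toSet.subset ?_
    rintro s ⟨hs, hsc⟩
    obtain ⟨j, hj⟩ := mem_iUnion.1 hs
    by_cases hsR : s ∈ R
    · exact hR _ hsR
    by_cases hij : i = j
    · rw [hij]; exact hj
    by_cases hst : s = t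
    · rw [hst]; exact hi
    exfalso
    rcases hc hsc htc hst with h | h
    · obtain ⟨l, hl, h'⟩ := (htr (β i)).2.2.2.1 t hi
      exact hdis i j hij s hj hsR l hl (h' h)
    · obtain ⟨l, hl, h'⟩ := (htr (β j)).2.2.2.1 s hj
      exact hdis j i (Ne.symm hij) t hi htR l hl (h' h)
  let y : XT r := ⟨_, hy⟩
  have hbig : ∀ i, 1 / ((k : ℝ) + 1) ≤ |h (β i) y| := by
    intro i
    refine (htr (β i)).2.2.2.2 y fun l hl => ?_
    ext t
    constructor
    · rintro ⟨ht, hta⟩
      obtain ⟨j, hj⟩ := mem_iUnion.1 ht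
      refine ⟨?_, hta⟩
      by_cases htR : t ∈ R
      · exact hR _ htR
      by_cases hij : i = j
      · rw [hij]; exact hj
      exact absurd hta (hdis i j hij t hj htR l hl)
    · rintro ⟨ht, hta⟩
      exact ⟨mem_iUnion.2 ⟨i, ht⟩, hta⟩
  obtain ⟨f, hf, hlim⟩ := hK.ultrafilter_le_nhds ((hyperfilter ℕ).map fun i => h (β i))
    (by
      rw [Ultrafilter.coe_map, le_principal_iff, mem_map]
      exact Eventually.of_forall fun i => (htr (β i)).1)
  have hlim' : ∀ w, Tendsto (fun i => h (β i) w) (hyperfilter ℕ) (𝓝 (f w)) :=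
    fun w => ((continuous_apply w).tendsto f).comp hlim
  have hfy : 1 / ((k : ℝ) + 1) ≤ |f y| :=
    ge_of_tendsto (hlim' y).abs (Eventually.of_forall hbig)
  have hne : f y ≠ 0 := by
    intro h0
    rw [h0, abs_zero] at hfy
    have : (0 : ℝ) < 1 / ((k : ℝ) + 1) := by positivity
    linarith
  obtain ⟨z, hz, hz'⟩ := approx r ((isOpen_ne_fun (hL f hf) continuous_const).mem_nhds hne)
  apply hz'
  have : ∀ᶠ i in atTop, ∀ t ∈ z, t ∈ (β i).1 := by
    rw [Finset.eventually_all]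
    intro t ht
    obtain ⟨j, hj⟩ := mem_iUnion.1 (hz ht)
    filter_upwards [eventually_gt_atTop j] with i hi using (hrel j i hi).1 hj
  have h3 : ∀ᶠ i in hyperfilter ℕ, h (β i) (fin r z) = 0 := by
    filter_upwards [Nat.hyperfilter_le_atTop this] with i hi
      using (htr (β i)).2.1 z fun t ht => hi t ht
  exact tendsto_nhds_unique (hlim' _) (tendsto_const_nhds.congr' (h3.mono fun i hi => hi.symm))

theorem eberlein (h1 : ∀ t, IsChain r {s | r s t}) (h2 : ∀ c, IsChain r c → c.Countable)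
    (A : Set (XT r → ℝ)) (hA : ∀ f ∈ A, Continuous f) (hK : IsCompact A) :
    ∃ (E : Type) (_ : NormedAddCommGroup E) (_ : NormedSpace ℝ E) (_ : CompleteSpace E)
      (e : A → WeakSpace ℝ E), Topology.IsEmbedding e := by
  obtain ⟨S, hS, H⟩ := determined r h1 h2
    (L := (fun p : (XT r → ℝ) × (XT r → ℝ) => p.1 - p.2) '' (A ×ˢ A))
    (by rintro _ ⟨p, hp, rfl⟩; exact (hA _ hp.1).sub (hA _ hp.2))
    ((hK.prod hK).image (continuous_fst.sub continuous_snd))
  have : CompactSpace A := isCompact_iff_compactSpace.1 hK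
  have : Countable {G : Finset T | ↑G ⊆ S} := (fin_cnt hS).to_subtype
  let φ : A → ({G : Finset T | ↑G ⊆ S} → ℝ) := fun f z => f.1 (fin r z.1)
  have hφ : Continuous φ := continuous_pi fun z =>
    (continuous_apply _).comp continuous_subtype_val
  have hinj : Function.Injective φ := by
    intro f g hfg
    apply Subtype.ext
    rw [← sub_eq_zero]
    refine H _ ⟨(f.1, g.1), ⟨f.2, g.2⟩, rfl⟩ fun z hz => ?_
    exact sub_eq_zero.2 (congrFun hfg ⟨z, hz⟩)
  have : TopologicalSpace.MetrizableSpace A :=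
    (hφ.isClosedEmbedding hinj).isEmbedding.metrizableSpace
  let : MetricSpace A := TopologicalSpace.metrizableSpaceMetric A
  have hk := kuratowskiEmbedding.isometry A
  refine ⟨_, inferInstance, inferInstance, inferInstance,
    fun f => toWeakSpaceCLM ℝ _ (kuratowskiEmbedding A f), ?_⟩
  exact (((toWeakSpaceCLM ℝ _).continuous.comp hk.continuous).isClosedEmbedding
    ((toWeakSpaceCLM_bijective).1.comp hk.injective)).isEmbedding

end Pool.Agent.Lead.Ebl
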