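import Pool.Agent.Lead.Ebl1

namespace Pool.Agent.Lead.Ebl

open Set Topology Filter

section
variable {T : Type} (r : T → T → Prop)

def Kc : Set (T → Bool) := {a | IsChain r {t | a t = true}}

theorem Kc_closed : IsClosed (Kc r) := by
  have : Kc r = ⋂ s, ⋂ t, {a : T → Bool | a s = true → a t = true → s ≠ t → r s t ∨ r t s} := by
    ext a
    simp only [Kc, mem_ofPred_eq, mem_iInter]
    exact ⟨fun h s t hs ht hst => h hs ht hst, fun h s hs t ht hst => h s t hs ht hst⟩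
  rw [this]
  refine isClosed_iInter fun s => isClosed_iInter fun t => ?_
  have hc : Continuous fun a : T → Bool => (a s, a t) :=
    (continuous_apply s).prodMk (continuous_apply t)
  exact (isClosed_discrete
    {p : Bool × Bool | p.1 = true → p.2 = true → s ≠ t → r s t ∨ r t s}).preimage hc

instance : CompactSpace (Kc r) := isCompact_iff_compactSpace.1 (Kc_closed r).isCompact

open Classical in
noncomputable def ind (c : Set T) (hc : IsChain r c) : Kc r :=
  ⟨fun t => decide (t ∈ c), by simpa [Kc] using hc⟩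

theorem noEb (h3 : ∀ Γ : ℕ → Set T, (∀ t, ∃ n, t ∈ Γ n) →
      ∃ n c, c ⊆ Γ n ∧ IsChain r c ∧ c.Infinite)
    {E : Type} [NormedAddCommGroup E] [NormedSpace ℝ E] (v : Kc r → E)
    (hv : Function.Injective v) (hc : ∀ φ : StrongDual ℝ E, Continuous fun a => φ (v a)) :
    False := by
  classical
  let Γ : ℕ × ℕ → Set T := fun p => {γ | ∃ φ : Fin p.1 → StrongDual ℝ E, (∀ i, ‖φ i‖ ≤ 1) ∧
    ∀ a b : Kc r, a.1 γ = true → b.1 γ = false →
      ∃ i, 1 / ((p.2 : ℝ) + 1) < |φ i (v a) - φ i (v b)|}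
  obtain ⟨n, c, hcΓ, hch, hinf⟩ := h3 (fun n => Γ n.unpair) (by
    intro γ
    have hP : IsCompact {p : Kc r × Kc r | p.1.1 γ = true ∧ p.2.1 γ = false} := by
      refine IsClosed.isCompact (IsClosed.inter ?_ ?_)
      · exact isClosed_eq ((continuous_apply γ).comp (continuous_subtype_val.comp continuous_fst))
          continuous_const
      · exact isClosed_eq ((continuous_apply γ).comp (continuous_subtype_val.comp continuous_snd))
          continuous_const
    obtain ⟨s, hs⟩ := hP.elim_finite_subcover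
      (fun q : {φ : StrongDual ℝ E // ‖φ‖ ≤ 1} × ℕ =>
        {p : Kc r × Kc r | 1 / ((q.2 : ℝ) + 1) < |q.1.1 (v p.1) - q.1.1 (v p.2)|})
      (fun q => isOpen_lt continuous_const
        (((hc _).comp continuous_fst).sub ((hc _).comp continuous_snd)).abs)
      (by
        rintro ⟨a, b⟩ ⟨ha, hb⟩
        have hab : a ≠ b := by
          rintro rfl
          simp only at ha hb
          rw [ha] at hb
          exact absurd hb (by simp)
        have hne : v a - v b ≠ 0 := sub_ne_zero.2 (hv.ne hab)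
        obtain ⟨g, hg, hg'⟩ := exists_dual_vector'' ℝ (v a - v b)
        obtain ⟨k, hk⟩ := exists_nat_one_div_lt (norm_pos_iff.2 hne)
        refine mem_iUnion.2 ⟨(⟨g, hg⟩, k), ?_⟩
        show 1 / ((k : ℝ) + 1) < |g (v a) - g (v b)|
        rw [← map_sub, hg']
        simpa using hk)
    refine ⟨Nat.pair s.card (s.sup Prod.snd), ?_⟩
    simp only [Nat.unpair_pair]
    refine ⟨fun i => (s.equivFin.symm i).1.1.1, fun i => (s.equivFin.symm i).1.1.2,
      fun a b ha hb => ?_⟩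
    obtain ⟨q, hq, h⟩ := mem_iUnion₂.1 (hs (show (a, b) ∈ _ from ⟨ha, hb⟩))
    refine ⟨s.equivFin ⟨q, hq⟩, ?_⟩
    simp only [Equiv.symm_apply_apply]
    refine lt_of_le_of_lt ?_ h
    apply one_div_le_one_div_of_le (by positivity)
    have : (q.2 : ℝ) ≤ (s.sup Prod.snd : ℕ) := by
      exact_mod_cast Finset.le_sup (f := Prod.snd) hq
    linarith)
  set m := n.unpair.1
  set δ : ℝ := 1 / ((n.unpair.2 : ℝ) + 1) with hδ
  have hδ0 : 0 < δ := by positivity
  have : Infinite c := hinf.to_subtype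
  choose φ hφ hφ' using fun γ : c => hcΓ γ.2
  have hlim : ∀ i, ∃ ψ : StrongDual ℝ E, ∀ x,
      Tendsto (fun γ => φ γ i x) (hyperfilter c) (𝓝 (ψ x)) := by
    intro i
    obtain ⟨ψ, -, hψ⟩ := (WeakDual.isCompact_closedBall (0 : StrongDual ℝ E) 1).ultrafilter_le_nhds
      ((hyperfilter c).map fun γ => StrongDual.toWeakDual (φ γ i))
      (by
        rw [Ultrafilter.coe_map, le_principal_iff, mem_map]
        refine Eventually.of_forall fun γ => ?_
        simpa using hφ γ i)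
    exact ⟨WeakDual.toStrongDual ψ, fun x => ((WeakDual.eval_continuous x).tendsto ψ).comp hψ⟩
  choose ψ hψ using hlim
  have ho : IsOpen {b : Kc r | ∀ i, |ψ i (v (ind r c hch)) - ψ i (v b)| < δ / 3} := by
    rw [Set.ofPred_forall]
    exact isOpen_iInter_of_finite fun i =>
      isOpen_lt (continuous_const.sub (hc _)).abs continuous_const
  obtain ⟨O, hO, hO'⟩ := isOpen_induced_iff.1 ho
  have hmem : ind r c hch ∈ Subtype.val ⁻¹' O := by
    rw [hO']
    intro i
    simpa using hδ0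
  obtain ⟨G, u, h1, h2⟩ := isOpen_pi_iff.1 hO _ hmem
  let b := ind r (c ∩ G) (hch.mono inter_subset_left)
  have hb : b ∈ Subtype.val ⁻¹' O := h2 fun i hi => by
    have : b.1 i = (ind r c hch).1 i := by
      have hi' : i ∈ G := hi
      simp [b, ind, hi']
    rw [this]
    exact (h1 i hi).2
  rw [hO'] at hb
  have e1 : ∀ᶠ γ : c in hyperfilter c, ∀ i,
      |φ γ i (v (ind r c hch)) - φ γ i (v b)| < δ := by
    rw [eventually_all]
    intro i
    have := ((hψ i (v (ind r c hch))).sub (hψ i (v b))).abs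
    exact this.eventually (gt_mem_nhds ((hb i).trans (by linarith)))
  have e2 : ∀ᶠ γ : c in hyperfilter c, γ.1 ∉ G := by
    apply hyperfilter_le_cofinite
    exact (G.finite_toSet.preimage Subtype.val_injective.injOn).subset fun γ hγ => by
      simpa using hγ
  obtain ⟨γ, h3, h4⟩ := (e1.and e2).exists
  obtain ⟨i, hi⟩ := hφ' γ (ind r c hch) b (by simp [ind]) (by simp [b, ind, h4])
  exact lt_asymm hi (h3 i)

variable [TopologicalSpace T] [DiscreteTopology T]

open Classical in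
noncomputable def gg (a : T → Bool) (p : XT r × OnePoint T) : ℝ :=
  if ∃ t : T, p.2 = ↑t ∧ a t = true ∧ t ∈ p.1.1 then 1 else 0

theorem gg_cont {a : T → Bool} (ha : a ∈ Kc r) : Continuous (gg r a) := by
  classical
  rw [continuous_iff_continuousAt]
  rintro ⟨y, p⟩
  have hfin : (y.1 ∩ {t | a t = true}).Finite := y.2 _ ha
  have hF : IsClopen (((↑) : T → OnePoint T) '' (y.1 ∩ {t | a t = true})) :=
    ⟨(hfin.image _).isClosed, OnePoint.isOpen_image_coe.2 (isOpen_discrete _)⟩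
  have hcont : Continuous fun q : XT r × OnePoint T =>
      (((↑) : T → OnePoint T) '' (y.1 ∩ {t | a t = true})).indicator (fun _ => (1 : ℝ)) q.2 :=
    (hF.continuous_indicator continuous_const).comp continuous_snd
  refine hcont.continuousAt.congr ?_
  have := ((isOpen_cyl r ha (y.1 ∩ {t | a t = true})).preimage
    (continuous_fst (Y := OnePoint T))).mem_nhds (show (y, p) ∈ _ from rfl)
  filter_upwards [this] with q hq
  have hq' : q.1.1 ∩ {t | a t = true} = y.1 ∩ {t | a t = true} := hq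
  rw [← hq', indicator, gg]
  congr 1
  apply propext
  constructor
  · rintro ⟨t, ⟨h1, h2⟩, h3⟩
    exact ⟨t, h3.symm, h2, h1⟩
  · rintro ⟨t, h1, h2, h3⟩
    exact ⟨t, ⟨h3, h2⟩, h1.symm⟩

omit [TopologicalSpace T] [DiscreteTopology T] in
theorem gg_cont' : Continuous (gg r) := by
  classical
  refine continuous_pi fun p => ?_
  obtain ⟨y, p⟩ := p
  induction p using OnePoint.rec with
  | infty =>
    have : (fun a => gg r a (y, OnePoint.infty)) = fun _ => 0 := by
      funext a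
      simp [gg]
    rw [this]
    exact continuous_const
  | coe t =>
    have : (fun a => gg r a (y, (t : OnePoint T))) =
        (fun b : Bool => if b = true ∧ t ∈ y.1 then (1 : ℝ) else 0) ∘ fun a : T → Bool => a t := by
      funext a
      simp [gg]
    rw [this]
    exact continuous_of_discreteTopology.comp (continuous_apply t)

omit [TopologicalSpace T] [DiscreteTopology T] in
theorem gg_inj : Function.Injective (gg r) := by
  intro a b h
  funext t
  have := congrFun h (fin r {t}, (t : OnePoint T))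
  simp only [gg, fin, OnePoint.some_eq_iff, Finset.coe_singleton, mem_singleton_iff,
    exists_eq_left', and_true] at this
  by_cases ha : a t = true <;> by_cases hb : b t = true <;> simp_all

theorem not_eberlein (h3 : ∀ Γ : ℕ → Set T, (∀ t, ∃ n, t ∈ Γ n) →
      ∃ n c, c ⊆ Γ n ∧ IsChain r c ∧ c.Infinite) :
    ∃ B : Set (XT r × OnePoint T → ℝ), (∀ f ∈ B, Continuous f) ∧ IsCompact B ∧
      ¬ ∃ (E : Type) (_ : NormedAddCommGroup E) (_ : NormedSpace ℝ E) (_ : CompleteSpace E)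
        (e : B → WeakSpace ℝ E), Topology.IsEmbedding e := by
  refine ⟨gg r '' Kc r, ?_, (Kc_closed r).isCompact.image (gg_cont' r), ?_⟩
  · rintro _ ⟨a, ha, rfl⟩
    exact gg_cont r ha
  rintro ⟨E, _, _, _, e, he⟩
  let j : Kc r → gg r '' Kc r := fun a => ⟨gg r a.1, a.1, a.2, rfl⟩
  have hj : Continuous j := ((gg_cont' r).comp continuous_subtype_val).subtype_mk _
  refine noEb r h3 (E := E) (fun a => (toWeakSpace ℝ E).symm (e (j a))) ?_ fun φ => ?_
  · intro a b hab
    have := he.injective ((toWeakSpace ℝ E).symm.injective hab)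
    exact Subtype.ext (gg_inj r (congrArg Subtype.val this))
  · exact (WeakBilin.eval_continuous (topDualPairing ℝ E).flip φ).comp (he.continuous.comp hj)

end

def SQ : Type := {t : Set ℚ // t.IsWF ∧ BddAbove t}

def ini (s t : Set ℚ) : Prop := s ⊆ t ∧ ∀ q ∈ t, ∀ p ∈ s, q ≤ p → q ∈ s

def rq (s t : SQ) : Prop := ini s.1 t.1

theorem ini.trans {s t u : Set ℚ} (h : ini s t) (h' : ini t u) : ini s u :=
  ⟨h.1.trans h'.1, fun q hq p hp hqp => h.2 q (h'.2 q hq p (h.1 hp) hqp) p hp hqp⟩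

theorem ini.refl (s : Set ℚ) : ini s s := ⟨subset_rfl, fun _ hq _ _ _ => hq⟩

theorem sq_h1 (t : SQ) : IsChain rq {s | rq s t} := by
  intro s hs s' hs' _
  by_cases h : s.1 ⊆ s'.1
  · exact Or.inl ⟨h, fun q hq p hp hqp => hs.2 q (hs'.1 hq) p hp hqp⟩
  · obtain ⟨p, hp, hp'⟩ := not_subset.1 h
    have h2 : s'.1 ⊆ s.1 := fun q hq => by
      rcases le_total q p with h | h
      · exact hs.2 q (hs'.1 hq) p hp h
      · exact absurd (hs'.2 p (hs.1 hp) q hq h) hp'
    exact Or.inr ⟨h2, fun q hq p hp hqp => hs'.2 q (hs.1 hq) p hp hqp⟩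

theorem sq_h2 (c : Set SQ) (hc : IsChain rq c) : c.Countable := by
  have hc' : ∀ s ∈ c, ∀ t ∈ c, ini s.1 t.1 ∨ ini t.1 s.1 := fun s hs t ht => by
    by_cases h : s = t
    · rw [h]; exact Or.inl (ini.refl _)
    · exact hc hs ht h
  let u : Set ℚ := ⋃ s ∈ c, s.1
  have : (insert u (range fun q => u ∩ Iio q)).Countable := (countable_range _).insert _
  refine (this.preimage_of_injOn (f := fun s : SQ => s.1) Subtype.val_injective.injOn).mono ?_
  intro s hs
  by_cases h : u ⊆ s.1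
  · exact Or.inl (subset_antisymm (subset_biUnion_of_mem (u := fun s : SQ => s.1) hs) h)
  obtain ⟨p, hp, hp'⟩ := not_subset.1 h
  obtain ⟨t, ht, hpt⟩ := mem_iUnion₂.1 hp
  have hst : ini s.1 t.1 := (hc' s hs t ht).resolve_right fun h => hp' (h.1 hpt)
  have hwf : (t.1 \ s.1).IsWF := t.2.1.mono sdiff_subset
  have hne : (t.1 \ s.1).Nonempty := ⟨p, hpt, hp'⟩
  have hm := hwf.min_mem hne
  refine Or.inr ⟨hwf.min hne, ?_⟩
  ext q
  constructor
  · rintro ⟨hq, hq'⟩
    obtain ⟨t', ht', hqt⟩ := mem_iUnion₂.1 hq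
    have hqt' : q ∈ t.1 := by
      rcases hc' t ht t' ht' with h | h
      · exact h.2 q hqt _ hm.1 (le_of_lt hq')
      · exact h.1 hqt
    by_contra hqs
    exact hwf.not_lt_min hne ⟨hqt', hqs⟩ hq'
  · intro hq
    refine ⟨mem_iUnion₂.2 ⟨s, hs, hq⟩, ?_⟩
    by_contra hlt
    exact hm.2 (hst.2 _ hm.1 q hq (not_lt.1 hlt))

def Scope (t : SQ) (q : ℚ) (s : SQ) : Prop :=
  ini t.1 s.1 ∧ s.1 ≠ t.1 ∧ ∃ p < q, ∀ x ∈ s.1, x ≤ p

theorem sq_step {Γ : Set SQ} (hΓ : ∀ c ⊆ Γ, IsChain rq c → c.Finite) (t : SQ) (q : ℚ)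
    (ht : ∃ p < q, ∀ x ∈ t.1, x ≤ p) :
    ∃ t' : SQ, ini t.1 t'.1 ∧ (∃ p < q, ∀ x ∈ t'.1, x ≤ p) ∧ ∀ s, Scope t' q s → s ∉ Γ := by
  by_contra hcon
  push Not at hcon
  let P := {s : SQ // ini t.1 s.1 ∧ ∃ p < q, ∀ x ∈ s.1, x ≤ p}
  have : ∀ s : P, ∃ s' : P, ini s.1.1 s'.1.1 ∧ s'.1.1 ≠ s.1.1 ∧ s'.1 ∈ Γ := fun s => by
    obtain ⟨s', h1, h2⟩ := hcon s.1 s.2.1 s.2.2
    exact ⟨⟨s', s.2.1.trans h1.1, h1.2.2⟩, h1.1, h1.2.1, h2⟩
  choose f hf1 hf2 hf3 using this
  let g : ℕ → P := fun n => f^[n + 1] ⟨t, ini.refl _, ht⟩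
  have hg : ∀ n, g (n + 1) = f (g n) := fun n => Function.iterate_succ_apply' f _ _
  have hgΓ : ∀ n, (g n).1 ∈ Γ := fun n => by
    show (f^[n + 1] _).1 ∈ Γ
    rw [Function.iterate_succ_apply']
    exact hf3 _
  have hmono : ∀ m n, m ≤ n → ini (g m).1.1 (g n).1.1 := by
    intro m n hmn
    induction n, hmn using Nat.le_induction with
    | base => exact ini.refl _
    | succ n _ ih => rw [hg]; exact ih.trans (hf1 _)
  have hsm : StrictMono fun n => (g n).1.1 := strictMono_nat_of_lt_succ fun n => by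
    rw [hg]
    exact lt_of_le_of_ne (hf1 _).1 (hf2 _).symm
  refine infinite_range_of_injective (f := fun n => (g n).1)
    (fun m n h => hsm.injective (congrArg Subtype.val h)) (hΓ _ ?_ ?_)
  · rintro _ ⟨n, rfl⟩
    exact hgΓ n
  · rintro _ ⟨m, rfl⟩ _ ⟨n, rfl⟩ _
    rcases le_total m n with h | h
    · exact Or.inl (hmono m n h)
    · exact Or.inr (hmono n m h)

theorem sq_h3 (Γ : ℕ → Set SQ) (hcov : ∀ t, ∃ n, t ∈ Γ n) :
    ∃ n c, c ⊆ Γ n ∧ IsChain rq c ∧ c.Infinite := by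
  by_contra hcon
  push Not at hcon
  let P := {w : SQ × ℚ // ∃ p < w.2, ∀ x ∈ w.1.1, x ≤ p}
  have : ∀ (n : ℕ) (w : P), ∃ w' : P, ini w.1.1.1 w'.1.1.1 ∧ w'.1.2 < w.1.2 ∧
      ∀ s : SQ, ini w'.1.1.1 s.1 → (∀ x ∈ s.1, x ≤ w'.1.2) → s ∉ Γ n := by
    rintro n ⟨⟨t, q⟩, hw⟩
    obtain ⟨t', h1, ⟨p, hp, h2⟩, h3⟩ := sq_step (hcon n) t q hw
    have hp' : p < q := hp
    let t'' : SQ := ⟨insert ((2 * p + q) / 3) t'.1, t'.2.1.insert _, t'.2.2.insert _⟩
    have h4 : ini t'.1 t''.1 := ⟨subset_insert _ _, fun x hx y hy hxy => by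
      rcases hx with rfl | hx
      · have := h2 y hy
        linarith
      · exact hx⟩
    refine ⟨⟨(t'', (p + 2 * q) / 3), (2 * p + q) / 3, by show _ < (p + 2 * q) / 3; linarith, ?_⟩,
      h1.trans h4, by show (p + 2 * q) / 3 < q; linarith, fun s hs hs' => h3 s
        ⟨h4.trans hs, fun h => ?_, (p + 2 * q) / 3, by linarith, hs'⟩⟩
    · rintro x (rfl | hx)
      · exact le_rfl
      · have := h2 x hx
        linarith
    · have : (2 * p + q) / 3 ∈ t'.1 := h ▸ hs.1 (mem_insert _ _)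
      have := h2 _ this
      linarith
  choose f hf1 hf2 hf3 using this
  let g : ℕ → P := fun n => Nat.rec ⟨(⟨∅, isWF_empty, bddAbove_empty⟩, 0), -1, by norm_num,
    by simp⟩ f n
  have hg : ∀ n, g (n + 1) = f n (g n) := fun n => rfl
  have hmono : ∀ m n, m ≤ n → ini (g m).1.1.1 (g n).1.1.1 ∧ (g n).1.2 ≤ (g m).1.2 := by
    intro m n hmn
    induction n, hmn using Nat.le_induction with
    | base => exact ⟨ini.refl _, le_rfl⟩
    | succ n _ ih => rw [hg]; exact ⟨ih.1.trans (hf1 _ _), (hf2 _ _).le.trans ih.2⟩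
  have hini : ∀ n, ini (g n).1.1.1 (⋃ m, (g m).1.1.1) := fun n =>
    ⟨subset_iUnion (fun m => (g m).1.1.1) n, fun q hq p hp hqp => by
      obtain ⟨m, hm⟩ := mem_iUnion.1 hq
      rcases le_total m n with h | h
      · exact (hmono m n h).1.1 hm
      · exact (hmono n m h).1.2 q hm p hp hqp⟩
  have hbd : ∀ n, ∀ x ∈ ⋃ m, (g m).1.1.1, x ≤ (g n).1.2 := fun n x hx => by
    obtain ⟨m, hm⟩ := mem_iUnion.1 hx
    obtain ⟨p, hp, h⟩ := (g (max m n)).2
    exact (h x ((hmono m _ (le_max_left _ _)).1.1 hm)).trans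
      (hp.le.trans (hmono n _ (le_max_right _ _)).2)
  have hwf : (⋃ m, (g m).1.1.1).IsWF := by
    rw [isWF_iff_no_descending_seq]
    intro u hu hu'
    obtain ⟨m, hm⟩ := mem_iUnion.1 (hu' 0)
    exact isWF_iff_no_descending_seq.1 (g m).1.1.2.1 u hu fun n =>
      (hini m).2 _ (hu' n) _ hm (hu.antitone (Nat.zero_le n))
  obtain ⟨n, hn⟩ := hcov ⟨_, hwf, _, hbd 0⟩
  exact hf3 n (g n) ⟨_, hwf, _, hbd 0⟩ (hini (n + 1)) (hbd (n + 1)) hn

instance : TopologicalSpace SQ := ⊥
instance : DiscreteTopology SQ := ⟨rfl⟩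

end Pool.Agent.Lead.Ebl
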