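import Pool.Agent.Lead.LExt

set_option autoImplicit false

open Set Topology Filter

universe u

namespace Pool.Agent.LExt

variable {Z : Type u} [TopologicalSpace Z]

/-- the extender given by a retraction -/
def ofRetr (ρ : C(Z, Z)) (h : ∀ z, ρ (ρ z) = ρ z) (z0 : Z) : Data {z : Z // ρ z = z} Z where
  i := ⟨Subtype.val, continuous_subtype_val⟩
  e g := g.comp ⟨fun z => ⟨ρ z, h z⟩, ρ.continuous.subtype_mk _⟩
  ei g k := congrArg g (Subtype.ext k.2)
  rep _ := FS.eval _
  k0 := ⟨ρ z0, h z0⟩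

theorem Data.qq_ne_star {K : Type u} [TopologicalSpace K] [CompletelyRegularSpace Z]
    (D : Data K Z) (C : Set Z) (hC : IsClosed C) (hK : ∀ k, D.i k ∈ C) (z : Z) (hz : z ∉ C) :
    D.qq z ≠ D.star := by
  obtain ⟨f, hf, h0, h1⟩ := CompletelyRegularSpace.completely_regular z C hC hz
  let g : D.C0 := ⟨⟨fun w => 1 - (f w : ℝ), by fun_prop⟩, fun k => by
    show 1 - (f (D.i k) : ℝ) = 0
    rw [h1 (hK k)]; simp⟩
  intro h
  have h2 : g.1 z = D.star.1 g := congrFun (congrArg Subtype.val h) g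
  rw [D.star_val] at h2
  have h3 : g.1 z = 1 := by
    show 1 - (f z : ℝ) = 1
    rw [h0]; simp
  rw [h3] at h2
  exact one_ne_zero h2

theorem cr_of_clopen {X : Type u} [TopologicalSpace X]
    (h : ∀ (z : X) (U : Set X), IsOpen U → z ∈ U → ∃ V, IsClopen V ∧ z ∈ V ∧ V ⊆ U) :
    CompletelyRegularSpace X := by
  classical
  refine ⟨fun x C hC hx => ?_⟩
  obtain ⟨V, hV, hxV, hVC⟩ := h x Cᶜ hC.isOpen_compl hx
  refine ⟨fun z => if z ∈ V then 0 else 1, ?_, by simp [hxV], fun z hz => ?_⟩
  · refine Continuous.if ?_ continuous_const continuous_const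
    intro a ha
    have : frontier V = ∅ := hV.frontier_eq
    rw [show {x | x ∈ V} = V from rfl, this] at ha
    exact ha.elim
  · have : z ∉ V := fun h => hVC h hz
    simp [this]

end Pool.Agent.LExt

namespace Pool.Agent.FSp

/-- isolated points `M` together with limit points `J` with prescribed filters -/
def Sp {M J : Type u} (_G : J → Filter M) : Type u := M ⊕ J

variable {M J : Type u} (G : J → Filter M)

def pt (m : M) : Sp G := Sum.inl m
def lim (j : J) : Sp G := Sum.inr j

theorem pt_inj : Function.Injective (pt G) := Sum.inl_injective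
theorem lim_inj : Function.Injective (lim G) := Sum.inr_injective
theorem pt_ne_lim (m : M) (j : J) : pt G m ≠ lim G j := Sum.inl_ne_inr

theorem cases (z : Sp G) : (∃ m, z = pt G m) ∨ ∃ j, z = lim G j := by
  rcases z with m | j
  · exact Or.inl ⟨m, rfl⟩
  · exact Or.inr ⟨j, rfl⟩

instance : TopologicalSpace (Sp G) where
  IsOpen U := ∀ j, lim G j ∈ U → pt G ⁻¹' U ∈ G j
  isOpen_univ := fun j _ => by simp
  isOpen_inter := fun U V hU hV j hj => inter_mem (hU j hj.1) (hV j hj.2)
  isOpen_sUnion := fun s hs j ⟨U, hU, hj⟩ =>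
    mem_of_superset (hs U hU j hj) fun m hm => ⟨U, hU, hm⟩

theorem open_iff (U : Set (Sp G)) : IsOpen U ↔ ∀ j, lim G j ∈ U → pt G ⁻¹' U ∈ G j := Iff.rfl

theorem closed_iff (U : Set (Sp G)) :
    IsClosed U ↔ ∀ j, lim G j ∉ U → (pt G ⁻¹' U)ᶜ ∈ G j := by
  rw [← isOpen_compl_iff, open_iff]; rfl

theorem t35 (h1 : ∀ j m, ({m} : Set M)ᶜ ∈ G j) (B : J → Set M) (hB : ∀ j, B j ∈ G j)
    (hB' : ∀ j j', j ≠ j' → (B j)ᶜ ∈ G j') : T35Space (Sp G) := by
  have hp : ∀ m, IsClopen ({pt G m} : Set (Sp G)) := fun m => by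
    constructor
    · rw [closed_iff]
      intro j _
      exact mem_of_superset (h1 j m) fun m' hm' h => hm' (pt_inj G h)
    · rw [open_iff]
      intro j hj
      exact absurd hj.symm (pt_ne_lim G m j)
  have : T1Space (Sp G) := by
    refine ⟨fun z => ?_⟩
    rcases cases G z with ⟨m, rfl⟩ | ⟨j, rfl⟩
    · exact (hp m).1
    · rw [closed_iff]
      intro j' _
      exact mem_of_superset univ_mem fun m _ h => pt_ne_lim G m j h
  have : CompletelyRegularSpace (Sp G) := by
    refine LExt.cr_of_clopen fun z U hU hz => ?_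
    rcases cases G z with ⟨m, rfl⟩ | ⟨j, rfl⟩
    · exact ⟨_, hp m, rfl, singleton_subset_iff.2 hz⟩
    · have hm : ∀ m, pt G m ∈ insert (lim G j) (pt G '' (B j ∩ pt G ⁻¹' U)) ↔
          m ∈ B j ∩ pt G ⁻¹' U := fun m => by
        constructor
        · rintro (h | ⟨m', hm', h⟩)
          · exact absurd h (pt_ne_lim G m j)
          · rw [← pt_inj G h]; exact hm'
        · intro h; exact Or.inr ⟨m, h, rfl⟩
      have hl : ∀ j', lim G j' ∈ insert (lim G j) (pt G '' (B j ∩ pt G ⁻¹' U)) ↔ j' = j :=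
        fun j' => by
        constructor
        · rintro (h | ⟨m', _, h⟩)
          · exact lim_inj G h
          · exact absurd h (pt_ne_lim G _ _)
        · rintro rfl; exact Or.inl rfl
      refine ⟨insert (lim G j) (pt G '' (B j ∩ pt G ⁻¹' U)), ⟨?_, ?_⟩, Or.inl rfl, ?_⟩
      · rw [closed_iff]
        intro j' hj'
        rw [hl] at hj'
        exact mem_of_superset (hB' j j' (Ne.symm hj')) fun m hm' h => hm' ((hm m).1 h).1
      · rw [open_iff]
        intro j' hj'
        rw [hl] at hj'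
        subst hj'
        exact mem_of_superset (inter_mem (hB _) (hU _ hz)) fun m h => (hm m).2 h
      · rintro w (rfl | ⟨m, hm, rfl⟩)
        · exact hz
        · exact hm.2
  exact {}

end Pool.Agent.FSp
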