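import Mathlib

namespace Pool.Agent.Lead.Fat

open MvPolynomial

/-- The homogeneous ideal of the point with coordinates P: generated by the linear forms vanishing at P. -/
noncomputable def ptIdeal (P : Fin 3 → ℂ) : Ideal (MvPolynomial (Fin 3) ℂ) :=
  Ideal.span {g | g.IsHomogeneous 1 ∧ eval P g = 0}

/-- The form F has multiplicity exactly m at the point with coordinates P. -/
def HasMult (F : MvPolynomial (Fin 3) ℂ) (P : Fin 3 → ℂ) (m : ℕ) : Prop :=
  F ∈ ptIdeal P ^ m ∧ F ∉ ptIdeal P ^ (m + 1)

end Pool.Agent.Lead.Fat
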