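import Mathlib
import Pool.Agent.Lead.FatDefs

namespace Pool.Agent.Lead.Fat

open MvPolynomial

noncomputable section

def cub (c : Fin 10 → ℂ) : MvPolynomial (Fin 3) ℂ :=
  C (c 0) * X 0 ^ 3 + C (c 1) * X 1 ^ 3 + C (c 2) * X 2 ^ 3 + C (c 3) * (X 0 * X 2 ^ 2)
    + C (c 4) * (X 1 * X 2 ^ 2) + C (c 5) * (X 0 ^ 2 * X 2) + C (c 6) * (X 0 * X 1 * X 2)
    + C (c 7) * (X 1 ^ 2 * X 2) + C (c 8) * (X 0 ^ 2 * X 1) + C (c 9) * (X 0 * X 1 ^ 2)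

def ev (c : Fin 10 → ℂ) (p : Fin 3 → ℂ) : ℂ :=
  c 0 * p 0 ^ 3 + c 1 * p 1 ^ 3 + c 2 * p 2 ^ 3 + c 3 * (p 0 * p 2 ^ 2)
    + c 4 * (p 1 * p 2 ^ 2) + c 5 * (p 0 ^ 2 * p 2) + c 6 * (p 0 * p 1 * p 2)
    + c 7 * (p 1 ^ 2 * p 2) + c 8 * (p 0 ^ 2 * p 1) + c 9 * (p 0 * p 1 ^ 2)

def d1 (c : Fin 10 → ℂ) (p : Fin 3 → ℂ) : ℂ :=
  3 * c 0 * p 0 ^ 2 + c 3 * p 2 ^ 2 + 2 * c 5 * p 0 * p 2 + c 6 * p 1 * p 2
    + 2 * c 8 * p 0 * p 1 + c 9 * p 1 ^ 2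

def d2 (c : Fin 10 → ℂ) (p : Fin 3 → ℂ) : ℂ := 3 * c 0 * p 0 + c 5 * p 2 + c 8 * p 1

def rho (P : Fin 3 → ℂ) : MvPolynomial (Fin 3) ℂ →ₐ[ℂ] Polynomial ℂ :=
  aeval ![Polynomial.C (P 0) + Polynomial.X, Polynomial.C (P 1), Polynomial.C (P 2)]

lemma cub_hom (c : Fin 10 → ℂ) : (cub c).IsHomogeneous 3 := by
  have hX : ∀ i : Fin 3, (X i : MvPolynomial (Fin 3) ℂ).IsHomogeneous 1 := fun i => isHomogeneous_X ℂ i
  have h3 : ∀ i : Fin 3, (X i ^ 3 : MvPolynomial (Fin 3) ℂ).IsHomogeneous 3 := fun i => by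
    simpa using (hX i).pow 3
  have h2 : ∀ i : Fin 3, (X i ^ 2 : MvPolynomial (Fin 3) ℂ).IsHomogeneous 2 := fun i => by
    simpa using (hX i).pow 2
  have h12 : ∀ i j : Fin 3, (X i * X j ^ 2 : MvPolynomial (Fin 3) ℂ).IsHomogeneous 3 := fun i j =>
    (hX i).mul (h2 j)
  have h21 : ∀ i j : Fin 3, (X i ^ 2 * X j : MvPolynomial (Fin 3) ℂ).IsHomogeneous 3 := fun i j =>
    (h2 i).mul (hX j)
  have h111 : (X 0 * X 1 * X 2 : MvPolynomial (Fin 3) ℂ).IsHomogeneous 3 :=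
    ((hX 0).mul (hX 1)).mul (hX 2)
  unfold cub
  exact (((((((((((h3 0).C_mul _).add ((h3 1).C_mul _)).add ((h3 2).C_mul _)).add
    ((h12 0 2).C_mul _)).add ((h12 1 2).C_mul _)).add ((h21 0 2).C_mul _)).add
    (h111.C_mul _)).add ((h21 1 2).C_mul _)).add ((h21 0 1).C_mul _)).add ((h12 0 1).C_mul _))

lemma rho_cub (c : Fin 10 → ℂ) (P : Fin 3 → ℂ) :
    rho P (cub c) = Polynomial.C (c 0) * Polynomial.X ^ 3 + Polynomial.C (d2 c P) * Polynomial.X ^ 2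
      + Polynomial.C (d1 c P) * Polynomial.X + Polynomial.C (ev c P) := by
  have e2 : (Polynomial.C 2 : Polynomial ℂ) = 2 := rfl
  have e3 : (Polynomial.C 3 : Polynomial ℂ) = 3 := rfl
  simp only [rho, cub, ev, d1, d2, map_add, map_mul, map_pow, aeval_C, aeval_X,
    Polynomial.algebraMap_eq, e2, e3, Matrix.cons_val_zero, Matrix.cons_val_one,
    Matrix.cons_val_two, Matrix.head_cons, Matrix.tail_cons]
  ring

lemma eval_rho (P : Fin 3 → ℂ) (g : MvPolynomial (Fin 3) ℂ) :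
    (rho P g).eval 0 = eval P g := by
  have : (Polynomial.evalRingHom (0 : ℂ)).comp (rho P).toRingHom = eval P := by
    apply MvPolynomial.ringHom_ext
    · intro r; simp [rho]
    · intro i; fin_cases i <;> simp [rho]
  exact congrArg (fun f : MvPolynomial (Fin 3) ℂ →+* ℂ => f g) this

lemma rho_pow (P : Fin 3 → ℂ) (m : ℕ) (g : MvPolynomial (Fin 3) ℂ) (h : g ∈ ptIdeal P ^ m) :
    Polynomial.X ^ m ∣ rho P g := by
  have h1 : Ideal.map (rho P) (ptIdeal P) ≤ Ideal.span {Polynomial.X} := by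
    rw [Ideal.map_le_iff_le_comap, ptIdeal, Ideal.span_le]
    intro f hf
    simp only [SetLike.mem_coe, Ideal.mem_comap, Ideal.mem_span_singleton, Polynomial.X_dvd_iff,
      Polynomial.coeff_zero_eq_eval_zero]
    rw [eval_rho]; exact hf.2
  have h2 : rho P g ∈ Ideal.map (rho P) (ptIdeal P ^ m) := Ideal.mem_map_of_mem _ h
  rw [Ideal.map_pow] at h2
  have h3 := Ideal.pow_right_mono h1 m h2
  rwa [Ideal.span_singleton_pow, Ideal.mem_span_singleton] at h3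

lemma cub_mem (c : Fin 10 → ℂ) (P : Fin 3 → ℂ) (h2 : P 2 ≠ 0) (h : ev c P = 0) :
    cub c ∈ ptIdeal P := by
  have key : ∀ i : Fin 3, (X i - C (P i / P 2) * X 2 : MvPolynomial (Fin 3) ℂ) ∈ ptIdeal P := by
    intro i
    apply Ideal.subset_span
    refine ⟨(isHomogeneous_X ℂ i).sub ((isHomogeneous_X ℂ 2).C_mul _), ?_⟩
    simp only [map_sub, map_mul, eval_X, eval_C]
    field_simp
    ring
  rw [← Ideal.Quotient.eq_zero_iff_mem]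
  set φ := Ideal.Quotient.mk (ptIdeal P)
  have k0 : φ (X 0) = φ (C (P 0 / P 2)) * φ (X 2) := by
    rw [← map_mul]; exact Ideal.Quotient.eq.2 (key 0)
  have k1 : φ (X 1) = φ (C (P 1 / P 2)) * φ (X 2) := by
    rw [← map_mul]; exact Ideal.Quotient.eq.2 (key 1)
  have e : ev c ![P 0 / P 2, P 1 / P 2, 1] = 0 := by
    have : ev c ![P 0 / P 2, P 1 / P 2, 1] = ev c P / P 2 ^ 3 := by
      simp only [ev, Matrix.cons_val_zero, Matrix.cons_val_one, Matrix.cons_val_two,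
        Matrix.head_cons, Matrix.tail_cons]
      field_simp
    rw [this, h, zero_div]
  have : φ (cub c) = φ (C (ev c ![P 0 / P 2, P 1 / P 2, 1])) * φ (X 2) ^ 3 := by
    simp only [cub, ev, map_add, map_mul, map_pow, k0, k1, Matrix.cons_val_zero,
      Matrix.cons_val_one, Matrix.cons_val_two, Matrix.head_cons, Matrix.tail_cons, map_one]
    ring
  rw [this, e]; simp

/-- triple point -/
lemma mult_three (a b c : Fin 10 → ℂ) (P : Fin 3 → ℂ) (h2 : P 2 ≠ 0)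
    (ha : ev a P = 0) (hb : ev b P = 0) (hc : ev c P = 0)
    (da : d1 a P ≠ 0) (db : d1 b P ≠ 0) (dc : d1 c P ≠ 0) :
    HasMult (cub a * cub b * cub c) P 3 := by
  constructor
  · have : ptIdeal P ^ 3 = ptIdeal P * ptIdeal P * ptIdeal P := by ring
    rw [this]
    exact Ideal.mul_mem_mul (Ideal.mul_mem_mul (cub_mem a P h2 ha) (cub_mem b P h2 hb))
      (cub_mem c P h2 hc)
  · intro h
    have h4 := rho_pow P _ _ h
    rw [map_mul, map_mul, rho_cub, rho_cub, rho_cub, ha, hb, hc] at h4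
    set R : (Fin 10 → ℂ) → Polynomial ℂ := fun a => Polynomial.C (a 0) * Polynomial.X ^ 2
      + Polynomial.C (d2 a P) * Polynomial.X + Polynomial.C (d1 a P) with hR
    have h5 : Polynomial.X ^ 3 * Polynomial.X ∣ Polynomial.X ^ 3 * (R a * R b * R c) := by
      have e : Polynomial.X ^ 3 * (R a * R b * R c) = (Polynomial.C (a 0) * Polynomial.X ^ 3
          + Polynomial.C (d2 a P) * Polynomial.X ^ 2 + Polynomial.C (d1 a P) * Polynomial.X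
          + Polynomial.C 0) * (Polynomial.C (b 0) * Polynomial.X ^ 3
          + Polynomial.C (d2 b P) * Polynomial.X ^ 2 + Polynomial.C (d1 b P) * Polynomial.X
          + Polynomial.C 0) * (Polynomial.C (c 0) * Polynomial.X ^ 3
          + Polynomial.C (d2 c P) * Polynomial.X ^ 2 + Polynomial.C (d1 c P) * Polynomial.X
          + Polynomial.C 0) := by
        simp only [hR, map_zero]; ring
      rw [e, ← pow_succ]; exact h4
    have h6 := (mul_dvd_mul_iff_left (pow_ne_zero 3 Polynomial.X_ne_zero)).1 h5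
    rw [Polynomial.X_dvd_iff, Polynomial.coeff_zero_eq_eval_zero] at h6
    simp [hR, da, db, dc] at h6

/-- simple point -/
lemma mult_one (a b c : Fin 10 → ℂ) (P : Fin 3 → ℂ) (h2 : P 2 ≠ 0)
    (ha : ev a P = 0) (hb : ev b P ≠ 0) (hc : ev c P ≠ 0) (da : d1 a P ≠ 0) :
    HasMult (cub a * cub b * cub c) P 1 := by
  constructor
  · rw [pow_one, mul_assoc]
    exact Ideal.mul_mem_right _ _ (cub_mem a P h2 ha)
  · intro h
    have h4 := rho_pow P _ _ h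
    rw [map_mul, map_mul, rho_cub a, ha] at h4
    have h5 : Polynomial.X * Polynomial.X ∣ Polynomial.X * ((Polynomial.C (a 0) * Polynomial.X ^ 2
      + Polynomial.C (d2 a P) * Polynomial.X + Polynomial.C (d1 a P)) * rho P (cub b) * rho P (cub c)) := by
      convert h4 using 1
      · ring
      · simp only [map_zero]; ring
    have h6 := (mul_dvd_mul_iff_left Polynomial.X_ne_zero).1 h5
    rw [Polynomial.X_dvd_iff, Polynomial.coeff_zero_eq_eval_zero] at h6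
    simp [rho_cub, da, hb, hc] at h6

def res (a0 a1 a2 a3 b0 b1 b2 b3 : ℂ) : ℂ :=
  1*a0^3*b3^3 + (-1)*a0^2*a1*b2*b3^2 + (-2)*a0^2*a2*b1*b3^2 + 1*a0^2*a2*b2^2*b3 + (-3)*a0^2*a3*b0*b3^2 + 3*a0^2*a3*b1*b2*b3 + (-1)*a0^2*a3*b2^3 + 1*a0*a1^2*b1*b3^2 + 3*a0*a1*a2*b0*b3^2 + (-1)*a0*a1*a2*b1*b2*b3 + (-1)*a0*a1*a3*b0*b2*b3 + (-2)*a0*a1*a3*b1^2*b3 + 1*a0*a1*a3*b1*b2^2 + (-2)*a0*a2^2*b0*b2*b3 + 1*a0*a2^2*b1^2*b3 + 1*a0*a2*a3*b0*b1*b3 + 2*a0*a2*a3*b0*b2^2 + (-1)*a0*a2*a3*b1^2*b2 + 3*a0*a3^2*b0^2*b3 + (-3)*a0*a3^2*b0*b1*b2 + 1*a0*a3^2*b1^3 + (-1)*a1^3*b0*b3^2 + 1*a1^2*a2*b0*b2*b3 + 2*a1^2*a3*b0*b1*b3 + (-1)*a1^2*a3*b0*b2^2 + (-1)*a1*a2^2*b0*b1*b3 + (-3)*a1*a2*a3*b0^2*b3 + 1*a1*a2*a3*b0*b1*b2 + 2*a1*a3^2*b0^2*b2 + (-1)*a1*a3^2*b0*b1^2 + 1*a2^3*b0^2*b3 + (-1)*a2^2*a3*b0^2*b2 + 1*a2*a3^2*b0^2*b1 + (-1)*a3^3*b0^3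

lemma res_eq_zero (a0 a1 a2 a3 b0 b1 b2 b3 z : ℂ)
    (ha : a3 * z ^ 3 + a2 * z ^ 2 + a1 * z + a0 = 0)
    (hb : b3 * z ^ 3 + b2 * z ^ 2 + b1 * z + b0 = 0) : res a0 a1 a2 a3 b0 b1 b2 b3 = 0 := by
  unfold res
  linear_combination (1*a0^2*b3^3 + (-1)*a0*a1*b2*b3^2 + (-1)*a0*a1*b3^3*z + (-2)*a0*a2*b1*b3^2 + 1*a0*a2*b2^2*b3 + (-1)*a0*a2*b3^3*z^2 + (-2)*a0*a3*b0*b3^2 + 3*a0*a3*b1*b2*b3 + 1*a0*a3*b1*b3^2*z + (-1)*a0*a3*b2^3 + 1*a0*a3*b2*b3^2*z^2 + 1*a1^2*b1*b3^2 + 1*a1^2*b2*b3^2*z + 1*a1^2*b3^3*z^2 + 1*a1*a2*b0*b3^2 + (-1)*a1*a2*b1*b2*b3 + (-1)*a1*a2*b2^2*b3*z + (-1)*a1*a2*b2*b3^2*z^2 + 1*a1*a3*b0*b3^2*z + (-2)*a1*a3*b1^2*b3 + 1*a1*a3*b1*b2^2 + (-2)*a1*a3*b1*b2*b3*z + (-2)*a1*a3*b1*b3^2*z^2 + 1*a1*a3*b2^3*z + 1*a1*a3*b2^2*b3*z^2 + (-1)*a2^2*b0*b2*b3 + (-1)*a2^2*b0*b3^2*z + 1*a2^2*b1^2*b3 + 1*a2^2*b1*b2*b3*z + 1*a2^2*b1*b3^2*z^2 + 1*a2*a3*b0*b1*b3 + 1*a2*a3*b0*b2^2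 + 2*a2*a3*b0*b2*b3*z + 1*a2*a3*b0*b3^2*z^2 + (-1)*a2*a3*b1^2*b2 + (-1)*a2*a3*b1*b2^2*z + (-1)*a2*a3*b1*b2*b3*z^2 + 1*a3^2*b0^2*b3 + (-2)*a3^2*b0*b1*b2 + (-1)*a3^2*b0*b1*b3*z + (-1)*a3^2*b0*b2^2*z + (-1)*a3^2*b0*b2*b3*z^2 + 1*a3^2*b1^3 + 1*a3^2*b1^2*b2*z + 1*a3^2*b1^2*b3*z^2) * ha + ((-1)*a0^2*a3*b3^2 + 2*a0*a1*a2*b3^2 + (-1)*a0*a1*a3*b2*b3 + 1*a0*a1*a3*b3^2*z + (-1)*a0*a2^2*b2*b3 + 1*a0*a2^2*b3^2*z + 1*a0*a2*a3*b2^2 + (-2)*a0*a2*a3*b2*b3*z + 1*a0*a2*a3*b3^2*z^2 + 2*a0*a3^2*b0*b3 + (-1)*a0*a3^2*b1*b2 + (-1)*a0*a3^2*b1*b3*z + 1*a0*a3^2*b2^2*z + (-1)*a0*a3^2*b2*b3*z^2 + (-1)*a1^3*b3^2 + 1*a1^2*a2*b2*b3 + (-1)*a1^2*a2*b3^2*z + 2*a1^2*a3*b1*b3 + (-1)*a1^2*a3*b2^2 + (-1)*a1^2*a3*b3^2*z^2 + (-1)*a1*a2^2*b1*b3 + 1*a1*a2^2*b2*b3*z + (-3)*a1*a2*a3*b0*b3 + 1*a1*a2*a3*b1*b2 + 2*a1*a2*a3*b1*b3*z + (-1)*a1*a2*a3*b2^2*z + 1*a1*a2*a3*b2*b3*z^2 + 2*a1*a3^2*b0*b2 + (-1)*a1*a3^2*b0*b3*z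 + (-1)*a1*a3^2*b1^2 + 2*a1*a3^2*b1*b3*z^2 + (-1)*a1*a3^2*b2^2*z^2 + 1*a2^3*b0*b3 + (-1)*a2^3*b1*b3*z + (-1)*a2^2*a3*b0*b2 + 1*a2^2*a3*b1*b2*z + (-1)*a2^2*a3*b1*b3*z^2 + 1*a2*a3^2*b0*b1 + (-1)*a2*a3^2*b0*b3*z^2 + (-1)*a2*a3^2*b1^2*z + 1*a2*a3^2*b1*b2*z^2 + (-1)*a3^3*b0^2 + 1*a3^3*b0*b1*z + 1*a3^3*b0*b2*z^2 + (-1)*a3^3*b1^2*z^2) * hb

/-- base point of the test line -/
def ell : Fin 3 → ℂ := ![0, 2, 1]

def resP (a b : Fin 10 → ℂ) : ℂ :=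
  res (ev a ell) (d1 a ell) (d2 a ell) (a 0) (ev b ell) (d1 b ell) (d2 b ell) (b 0)

def resD (a : Fin 10 → ℂ) : ℂ :=
  res (ev a ell) (d1 a ell) (d2 a ell) (a 0) (d1 a ell) (2 * d2 a ell) (3 * a 0) 0

lemma rho_cub_natDegree (a : Fin 10 → ℂ) (P : Fin 3 → ℂ) (h : a 0 ≠ 0) :
    (rho P (cub a)).natDegree = 3 := by
  rw [rho_cub]; exact Polynomial.natDegree_cubic h

lemma rho_cub_ne (a : Fin 10 → ℂ) (P : Fin 3 → ℂ) (h : a 0 ≠ 0) : rho P (cub a) ≠ 0 := by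
  intro h0
  have := rho_cub_natDegree a P h
  rw [h0] at this; simp at this

lemma rho_natDegree_le (P : Fin 3 → ℂ) (G : MvPolynomial (Fin 3) ℂ) :
    (rho P G).natDegree ≤ G.totalDegree := by
  have := MvPolynomial.aeval_natDegree_le (n := 1) G le_rfl
    ![Polynomial.C (P 0) + Polynomial.X, Polynomial.C (P 1), Polynomial.C (P 2)] (by
      intro i; fin_cases i
      · simp only [Fin.zero_eta, Matrix.cons_val_zero]
        rw [add_comm]; exact (Polynomial.natDegree_X_add_C _).le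
      · simp
      · simp)
  simpa [rho] using this

lemma sqfree (a b c : Fin 10 → ℂ) (ha : a 0 ≠ 0) (hb : b 0 ≠ 0) (hc : c 0 ≠ 0)
    (da : resD a ≠ 0) (db : resD b ≠ 0) (dc : resD c ≠ 0)
    (hab : resP a b ≠ 0) (hac : resP a c ≠ 0) (hbc : resP b c ≠ 0) :
    Squarefree (cub a * cub b * cub c) := by
  intro G hG
  obtain ⟨H, hH⟩ := hG
  have hne : rho ell (cub a * cub b * cub c) ≠ 0 := by
    rw [map_mul, map_mul]
    exact mul_ne_zero (mul_ne_zero (rho_cub_ne a _ ha) (rho_cub_ne b _ hb)) (rho_cub_ne c _ hc)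
  have hdeg : (rho ell (cub a * cub b * cub c)).natDegree = 9 := by
    rw [map_mul, map_mul, Polynomial.natDegree_mul (mul_ne_zero (rho_cub_ne a _ ha)
      (rho_cub_ne b _ hb)) (rho_cub_ne c _ hc), Polynomial.natDegree_mul (rho_cub_ne a _ ha)
      (rho_cub_ne b _ hb), rho_cub_natDegree a _ ha, rho_cub_natDegree b _ hb,
      rho_cub_natDegree c _ hc]
  have hF0 : cub a * cub b * cub c ≠ 0 := fun h => hne (by rw [h, map_zero])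
  have hG0 : G ≠ 0 := fun h => hF0 (by rw [hH, h]; simp)
  have hH0 : H ≠ 0 := fun h => hF0 (by rw [hH, h]; simp)
  have htd : (cub a * cub b * cub c).totalDegree ≤ 9 :=
    (((cub_hom a).mul (cub_hom b)).mul (cub_hom c)).totalDegree_le
  rw [hH, totalDegree_mul_of_isDomain (mul_ne_zero hG0 hG0) hH0,
    totalDegree_mul_of_isDomain hG0 hG0] at htd
  have hrho : rho ell (cub a * cub b * cub c) = rho ell G * rho ell G * rho ell H := by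
    rw [hH, map_mul, map_mul]
  have hrG : rho ell G ≠ 0 := fun h => hne (by rw [hrho, h]; simp)
  have hrH : rho ell H ≠ 0 := fun h => hne (by rw [hrho, h]; simp)
  by_cases hd : (rho ell G).natDegree = 0
  · rw [hrho, Polynomial.natDegree_mul (mul_ne_zero hrG hrG) hrH, Polynomial.natDegree_mul hrG hrG,
      hd] at hdeg
    have := rho_natDegree_le ell H
    have h0 : G.totalDegree = 0 := by omega
    rw [totalDegree_eq_zero_iff_eq_C] at h0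
    rw [h0]
    refine IsUnit.map C (IsUnit.mk0 _ ?_)
    intro h1; apply hG0; rw [h0, h1, map_zero]
  · exfalso
    obtain ⟨z, hz⟩ := Complex.exists_root (Polynomial.natDegree_pos_iff_degree_pos.1
      (Nat.pos_of_ne_zero hd))
    have hz0 : (rho ell G).eval z = 0 := hz
    have e1 : (rho ell (cub a * cub b * cub c)).eval z = 0 := by
      rw [hrho]; simp [hz0]
    have e2 : (Polynomial.derivative (rho ell (cub a * cub b * cub c))).eval z = 0 := by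
      rw [hrho]; simp [Polynomial.derivative_mul, hz0]
    set f : (Fin 10 → ℂ) → ℂ := fun a => a 0 * z ^ 3 + d2 a ell * z ^ 2 + d1 a ell * z + ev a ell
      with hf
    set f' : (Fin 10 → ℂ) → ℂ := fun a => 0 * z ^ 3 + (3 * a 0) * z ^ 2 + (2 * d2 a ell) * z
      + d1 a ell with hf'
    have v1 : ∀ a, (rho ell (cub a)).eval z = f a := by
      intro a; rw [rho_cub]; simp [hf]
    have v2 : ∀ a, (Polynomial.derivative (rho ell (cub a))).eval z = f' a := by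
      intro a; rw [rho_cub]; simp [hf']; ring
    rw [map_mul (rho ell), map_mul (rho ell)] at e1 e2
    simp only [Polynomial.eval_mul, v1] at e1
    simp only [Polynomial.derivative_mul, Polynomial.eval_add, Polynomial.eval_mul, v1, v2] at e2
    have nD : ∀ a, resD a ≠ 0 → f a = 0 → f' a ≠ 0 := fun a h h1 h2 =>
      h (res_eq_zero _ _ _ _ _ _ _ _ z h1 h2)
    have nP : ∀ a b, resP a b ≠ 0 → f a = 0 → f b ≠ 0 := fun a b h h1 h2 =>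
      h (res_eq_zero _ _ _ _ _ _ _ _ z h1 h2)
    rcases mul_eq_zero.1 e1 with h | h
    · rcases mul_eq_zero.1 h with h | h
      · refine mul_ne_zero (mul_ne_zero (nD a da h) (nP a b hab h)) (nP a c hac h) ?_
        rw [h] at e2; linear_combination e2
      · refine mul_ne_zero (mul_ne_zero (nD b db h) (nP b c hbc h))
          (fun h' : f a = 0 => nP a b hab h' h) ?_
        rw [h] at e2; linear_combination e2
    · refine mul_ne_zero (mul_ne_zero (nD c dc h) (fun h' : f a = 0 => nP a c hac h' h))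
        (fun h' : f b = 0 => nP b c hbc h' h) ?_
      rw [h] at e2; linear_combination e2

end

end Pool.Agent.Lead.Fat
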