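import Mathlib
import Pool.Agent.Lead.Fat1

namespace Pool.Agent.Lead.Fat

open Filter Topology

noncomputable section

abbrev Cf := Fin 10 → ℂ
abbrev Pt := Fin 3 → ℂ
abbrev Z := Cf × Cf × Pt × (Fin 11 → Pt)
abbrev Y := (Fin 8 → ℂ) × (Fin 8 → ℂ) × ℂ × ℂ × (Fin 11 → Pt)

def i8 (i : Fin 8) : Fin 11 := ⟨i, by omega⟩
def i3 (j : Fin 3) : Fin 11 := ⟨8 + j, by omega⟩

def P0 : Fin 11 → Pt := ![![-1, -1, 1], ![-1, 0, 1], ![-1, 1, 1], ![0, -1, 1], ![0, 1, 1],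
  ![1, -1, 1], ![1, 0, 1], ![1, 1, 1], ![0, 2, 1], ![2, 2, 1], ![-2, 2, 1]]
def A0 : Cf := ![1, 0, 0, -1, 0, 0, 0, 0, 0, 0]
def B0 : Cf := ![0, 1, 0, 0, -1, 0, 0, 0, 0, 0]
def x0 : Pt := ![0, 0, 1]
def z0 : Z := (A0, B0, x0, P0)

def Th (z : Z) : Y :=
  (fun i => ev z.1 (z.2.2.2 (i8 i)), fun i => ev z.2.1 (z.2.2.2 (i8 i)), ev z.1 z.2.2.1,
    ev z.2.1 z.2.2.1, z.2.2.2)

lemma Th_smooth : ContDiff ℂ 1 Th := by
  unfold Th ev
  fun_prop

lemma dir (L : Z →L[ℂ] Y) (hL : HasFDerivAt Th L z0) (w : Z) (y y' : Y)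
    (h : ∀ s : ℂ, Th (z0 + s • w) = Th z0 + s • y + s ^ 3 • y') : L w = y := by
  have h1 : HasDerivAt (fun s : ℂ => z0 + s • w) w 0 := by
    simpa using ((hasDerivAt_id (0 : ℂ)).smul_const w).const_add z0
  have h2 : HasDerivAt (fun s : ℂ => Th (z0 + s • w)) (L w) 0 := by
    have hL' : HasFDerivAt Th L (z0 + (0 : ℂ) • w) := by simpa using hL
    exact hL'.comp_hasDerivAt (0 : ℂ) h1
  have h3 : HasDerivAt (fun s : ℂ => Th z0 + s • y + s ^ 3 • y') y 0 := by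
    have := (((hasDerivAt_id (0 : ℂ)).smul_const y).const_add (Th z0)).fun_add
      ((hasDerivAt_pow 3 (0 : ℂ)).smul_const y')
    have e : (1 : ℂ) • y + ((((3 : ℕ) : ℂ)) * (0 : ℂ) ^ (3 - 1)) • y' = y := by
      rw [one_smul, zero_pow (by norm_num), mul_zero, zero_smul, add_zero]
    rw [e] at this
    exact this
  have : (fun s : ℂ => Th (z0 + s • w)) = fun s : ℂ => Th z0 + s • y + s ^ 3 • y' := funext h
  rw [this] at h2
  exact h2.unique h3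

def interp (y : Fin 8 → ℂ) : Cf := ![0, 0,
  (-1/4) * y 0 + (1/2) * y 1 + (-1/4) * y 2 + (1/2) * y 3 + (1/2) * y 4 + (-1/4) * y 5 + (1/2) * y 6 + (-1/4) * y 7,
  (-1/2) * y 1 + (1/2) * y 6,
  (-1/2) * y 3 + (1/2) * y 4,
  (1/4) * y 0 + (1/4) * y 2 + (-1/2) * y 3 + (-1/2) * y 4 + (1/4) * y 5 + (1/4) * y 7,
  (1/4) * y 0 + (-1/4) * y 2 + (-1/4) * y 5 + (1/4) * y 7,
  (1/4) * y 0 + (-1/2) * y 1 + (1/4) * y 2 + (1/4) * y 5 + (-1/2) * y 6 + (1/4) * y 7,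
  (-1/4) * y 0 + (1/4) * y 2 + (1/2) * y 3 + (-1/2) * y 4 + (-1/4) * y 5 + (1/4) * y 7,
  (-1/4) * y 0 + (1/2) * y 1 + (-1/4) * y 2 + (1/4) * y 5 + (-1/2) * y 6 + (1/4) * y 7]

lemma ev_interp (y : Fin 8 → ℂ) (i : Fin 8) : ev (interp y) (P0 (i8 i)) = y i := by
  fin_cases i <;> simp [ev, interp, P0, i8] <;> ring

lemma ev_lin (a b : Cf) (s : ℂ) (p : Pt) : ev (a + s • b) p = ev a p + s * ev b p := by
  simp only [ev, Pi.add_apply, Pi.smul_apply, smul_eq_mul]; ring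

lemma surj (L : Z →L[ℂ] Y) (hL : HasFDerivAt Th L z0) : Function.Surjective L := by
  have hlast : ∀ w : Z, (L w).2.2.2.2 = w.2.2.2 := by
    intro w
    let prY : Y →L[ℂ] (Fin 11 → Pt) := (ContinuousLinearMap.snd ℂ _ _).comp
      ((ContinuousLinearMap.snd ℂ _ _).comp ((ContinuousLinearMap.snd ℂ _ _).comp
        (ContinuousLinearMap.snd ℂ _ _)))
    let prZ : Z →L[ℂ] (Fin 11 → Pt) := (ContinuousLinearMap.snd ℂ _ _).comp
      ((ContinuousLinearMap.snd ℂ _ _).comp (ContinuousLinearMap.snd ℂ _ _))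
    have h1 : HasFDerivAt (fun z => prY (Th z)) (prY.comp L) z0 := prY.hasFDerivAt.comp z0 hL
    have h2 : HasFDerivAt (fun z => prY (Th z)) prZ z0 := prZ.hasFDerivAt
    have := h1.unique h2
    exact congrArg (fun f : Z →L[ℂ] (Fin 11 → Pt) => f w) this
  have hA : ∀ y : Fin 8 → ℂ, L (interp y, 0, 0, 0) = (y, 0, ev (interp y) x0, 0, 0) := by
    intro y
    refine dir L hL _ _ 0 (fun s => ?_)
    simp only [Th, z0, Prod.smul_mk, Prod.mk_add_mk, smul_zero, add_zero, ev_lin, ev_interp,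
      Prod.mk.injEq, smul_eq_mul, and_true, true_and, mul_zero]
    ext i; simp
  have hB : ∀ y : Fin 8 → ℂ, L (0, interp y, 0, 0) = (0, y, 0, ev (interp y) x0, 0) := by
    intro y
    refine dir L hL _ _ 0 (fun s => ?_)
    simp only [Th, z0, Prod.smul_mk, Prod.mk_add_mk, smul_zero, add_zero, ev_lin, ev_interp,
      Prod.mk.injEq, smul_eq_mul, and_true, true_and, mul_zero]
    ext i; simp
  have hX : ∀ u v : ℂ, L (0, 0, ![-u, -v, 0], 0) = (0, 0, u, v, 0) := by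
    intro u v
    refine dir L hL _ _ (0, 0, -u ^ 3, -v ^ 3, 0) (fun s => ?_)
    simp only [Th, z0, Prod.smul_mk, Prod.mk_add_mk, smul_zero, add_zero,
      Prod.mk.injEq, smul_eq_mul, and_true, true_and]
    constructor <;> simp [ev, A0, B0, x0] <;> ring
  rintro ⟨y1, y2, s1, s2, dP⟩
  obtain ⟨r1, r2, t1, t2, dQ, hr⟩ : ∃ r1 r2 t1 t2 dQ, L (0, 0, 0, dP) = (r1, r2, t1, t2, dQ) :=
    ⟨_, _, _, _, _, rfl⟩
  have hQ : dQ = dP := by
    have := hlast (0, 0, 0, dP); rw [hr] at this; exact this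
  refine ⟨(0, 0, 0, dP) + (interp (y1 - r1), 0, 0, 0) + (0, interp (y2 - r2), 0, 0)
    + (0, 0, ![-(s1 - t1 - ev (interp (y1 - r1)) x0), -(s2 - t2 - ev (interp (y2 - r2)) x0), 0], 0), ?_⟩
  rw [map_add, map_add, map_add, hr, hA, hB, hX, hQ]
  simp

lemma Th_z0 : Th z0 = (0, 0, 0, 0, P0) := by
  simp only [Th, z0, Prod.mk.injEq, and_true]
  refine ⟨?_, ?_, ?_, ?_⟩
  · ext i; fin_cases i <;> simp [ev, A0, P0, i8] <;> norm_num
  · ext i; fin_cases i <;> simp [ev, B0, P0, i8] <;> norm_num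
  · simp [ev, A0, x0]
  · simp [ev, B0, x0]

lemma local_solve (Good : Z → Prop) (hG : ∀ᶠ z in 𝓝 z0, Good z) :
    ∀ᶠ P in 𝓝 P0, ∃ a b x, Good (a, b, x, P) ∧ (∀ i, ev a (P (i8 i)) = 0) ∧
      (∀ i, ev b (P (i8 i)) = 0) ∧ ev a x = 0 ∧ ev b x = 0 := by
  have hs : HasStrictFDerivAt Th (fderiv ℂ Th z0) z0 :=
    Th_smooth.contDiffAt.hasStrictFDerivAt (by simp)
  have hmap := hs.map_nhds_eq_of_surj
    (LinearMap.range_eq_top.2 (surj _ hs.hasFDerivAt))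
  have h1 : Th '' {z | Good z} ∈ 𝓝 (Th z0) := by
    rw [← hmap]; exact image_mem_map hG
  rw [Th_z0] at h1
  have hc : Continuous (fun P : Fin 11 → Pt => ((0, 0, 0, 0, P) : Y)) := by fun_prop
  have h2 := hc.continuousAt.preimage_mem_nhds (x := P0) h1
  filter_upwards [h2] with P hP
  obtain ⟨⟨a, b, x, Q⟩, hz, he⟩ := hP
  simp only [Th, Prod.mk.injEq] at he
  obtain ⟨e1, e2, e3, e4, rfl⟩ := he
  exact ⟨a, b, x, hz, fun i => congrFun e1 i, fun i => congrFun e2 i, e3, e4⟩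

end

end Pool.Agent.Lead.Fat
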