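import Mathlib
import Pool.Agent.Lead.Fat2

namespace Pool.Agent.Lead.Fat

open Filter Topology

noncomputable section

def gam (z : Z) (j : Fin 3) : Cf :=
  fun k => ev z.2.1 (z.2.2.2 (i3 j)) * z.1 k - ev z.1 (z.2.2.2 (i3 j)) * z.2.1 k

def crs (p q : Pt) : ℂ × ℂ := (p 0 * q 2 - p 2 * q 0, p 1 * q 2 - p 2 * q 1)

lemma crs_ne (p q : Pt) (h : crs p q ≠ 0) (c : ℂ) : q ≠ c • p := by
  rintro rfl
  apply h
  simp only [crs, Pi.smul_apply, smul_eq_mul, Prod.mk_eq_zero]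
  constructor <;> ring

lemma ev_gam (z : Z) (j : Fin 3) (p : Pt) :
    ev (gam z j) p = ev z.2.1 (z.2.2.2 (i3 j)) * ev z.1 p - ev z.1 (z.2.2.2 (i3 j)) * ev z.2.1 p := by
  generalize hu : ev z.2.1 (z.2.2.2 (i3 j)) = u
  generalize hv : ev z.1 (z.2.2.2 (i3 j)) = v
  have : gam z j = fun k => u * z.1 k - v * z.2.1 k := by
    ext k; simp only [gam, hu, hv]
  rw [this]; simp only [ev]; ring

def Good (z : Z) : Prop :=
  (∀ i, z.2.2.2 i 2 ≠ 0) ∧ z.2.2.1 2 ≠ 0 ∧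
  (∀ i j, i ≠ j → crs (z.2.2.2 i) (z.2.2.2 j) ≠ 0) ∧ (∀ i, crs (z.2.2.2 i) z.2.2.1 ≠ 0) ∧
  (∀ j i, d1 (gam z j) (z.2.2.2 (i8 i)) ≠ 0) ∧ (∀ j, d1 (gam z j) z.2.2.1 ≠ 0) ∧
  (∀ j, d1 (gam z j) (z.2.2.2 (i3 j)) ≠ 0) ∧
  (∀ j k, j ≠ k → ev (gam z k) (z.2.2.2 (i3 j)) ≠ 0) ∧
  (∀ j, gam z j 0 ≠ 0) ∧ (∀ j, resD (gam z j) ≠ 0) ∧
  (∀ j k, j ≠ k → resP (gam z j) (gam z k) ≠ 0)

def G0 : Fin 3 → Cf := ![![6, 0, 0, -6, 0, 0, 0, 0, 0, 0], ![6, -6, 0, -6, 6, 0, 0, 0, 0, 0],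
  ![6, 6, 0, -6, -6, 0, 0, 0, 0, 0]]

lemma gam_z0 (j : Fin 3) : gam z0 j = G0 j := by
  ext k
  fin_cases j <;> fin_cases k <;> simp [gam, z0, G0, ev, A0, B0, P0, i3] <;> norm_num

lemma c_ev {α : Type} [TopologicalSpace α] (a : α → Cf) (p : α → Pt) (ha : Continuous a)
    (hp : Continuous p) : Continuous fun z => ev (a z) (p z) := by
  unfold ev; fun_prop

lemma c_d1 {α : Type} [TopologicalSpace α] (a : α → Cf) (p : α → Pt) (ha : Continuous a)
    (hp : Continuous p) : Continuous fun z => d1 (a z) (p z) := by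
  unfold d1; fun_prop

lemma c_d2 {α : Type} [TopologicalSpace α] (a : α → Cf) (p : α → Pt) (ha : Continuous a)
    (hp : Continuous p) : Continuous fun z => d2 (a z) (p z) := by
  unfold d2; fun_prop

lemma c_gam (j : Fin 3) : Continuous fun z : Z => gam z j := by
  refine continuous_pi fun k => ?_
  have h1 : Continuous fun z : Z => ev z.2.1 (z.2.2.2 (i3 j)) := c_ev _ _ (by fun_prop) (by fun_prop)
  have h2 : Continuous fun z : Z => ev z.1 (z.2.2.2 (i3 j)) := c_ev _ _ (by fun_prop) (by fun_prop)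
  unfold gam
  fun_prop

lemma c_res {α : Type} [TopologicalSpace α] (a0 a1 a2 a3 b0 b1 b2 b3 : α → ℂ)
    (h0 : Continuous a0) (h1 : Continuous a1) (h2 : Continuous a2) (h3 : Continuous a3)
    (k0 : Continuous b0) (k1 : Continuous b1) (k2 : Continuous b2) (k3 : Continuous b3) :
    Continuous fun z => res (a0 z) (a1 z) (a2 z) (a3 z) (b0 z) (b1 z) (b2 z) (b3 z) := by
  unfold res; fun_prop

lemma c_resD (j : Fin 3) : Continuous fun z : Z => resD (gam z j) := by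
  have h := c_gam j
  have e := c_ev _ (fun _ => ell) h continuous_const
  have f1 := c_d1 _ (fun _ => ell) h continuous_const
  have f2 := c_d2 _ (fun _ => ell) h continuous_const
  have g : Continuous fun z : Z => gam z j 0 := (continuous_apply 0).comp h
  exact c_res _ _ _ _ _ _ _ _ e f1 f2 g f1 (continuous_const.mul f2) (continuous_const.mul g)
    continuous_const

lemma c_resP (j k : Fin 3) : Continuous fun z : Z => resP (gam z j) (gam z k) := by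
  have h := c_gam j
  have h' := c_gam k
  exact c_res _ _ _ _ _ _ _ _ (c_ev _ (fun _ => ell) h continuous_const)
    (c_d1 _ (fun _ => ell) h continuous_const) (c_d2 _ (fun _ => ell) h continuous_const)
    ((continuous_apply 0).comp h) (c_ev _ (fun _ => ell) h' continuous_const)
    (c_d1 _ (fun _ => ell) h' continuous_const) (c_d2 _ (fun _ => ell) h' continuous_const)
    ((continuous_apply 0).comp h')

def PZ : Fin 11 → ℤ × ℤ := ![(-1, -1), (-1, 0), (-1, 1), (0, -1), (0, 1), (1, -1), (1, 0), (1, 1),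
  (0, 2), (2, 2), (-2, 2)]

lemma P0_eq (i : Fin 11) : P0 i = ![((PZ i).1 : ℂ), ((PZ i).2 : ℂ), 1] := by
  fin_cases i <;> simp [P0, PZ]

lemma PZ_inj : ∀ i j : Fin 11, i ≠ j → PZ i ≠ PZ j := by decide

lemma good_z0 : Good z0 := by
  refine ⟨?_, ?_, ?_, ?_, ?_, ?_, ?_, ?_, ?_, ?_, ?_⟩
  · intro i; simp [z0, P0_eq]
  · simp [z0, x0]
  · intro i j hij h
    apply PZ_inj i j hij
    simp only [z0, P0_eq, crs, Matrix.cons_val_zero, Matrix.cons_val_one, Matrix.cons_val_two,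
      Matrix.head_cons, Matrix.tail_cons, mul_one, one_mul, Prod.mk_eq_zero, sub_eq_zero,
      Int.cast_inj] at h
    exact Prod.ext h.1 h.2
  · intro i; fin_cases i <;> simp [z0, P0, x0, crs]
  · intro j i; rw [gam_z0]
    fin_cases j <;> fin_cases i <;> simp [z0, P0, G0, d1, i8] <;> norm_num
  · intro j; rw [gam_z0]; fin_cases j <;> simp [z0, x0, G0, d1]
  · intro j; rw [gam_z0]; fin_cases j <;> simp [z0, P0, G0, d1, i3] <;> norm_num
  · intro j k h; rw [gam_z0]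
    fin_cases j <;> fin_cases k <;> simp [z0, P0, G0, ev, i3] at h ⊢ <;> norm_num
  · intro j; rw [gam_z0]; fin_cases j <;> simp [G0]
  · intro j; rw [gam_z0]; fin_cases j <;> simp [G0, resD, res, ev, d1, d2, ell] <;> norm_num
  · intro j k h; rw [gam_z0, gam_z0]
    fin_cases j <;> fin_cases k <;> simp [G0, resP, res, ev, d1, d2, ell] at h ⊢ <;> norm_num

lemma ev_ne {β : Type} [TopologicalSpace β] [T1Space β] [Zero β] (f : Z → β) (hf : Continuous f)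
    (h : f z0 ≠ 0) : ∀ᶠ z in 𝓝 z0, f z ≠ 0 := hf.continuousAt.eventually_ne h

lemma good_ev : ∀ᶠ z in 𝓝 z0, Good z := by
  obtain ⟨h1, h2, h3, h4, h5, h6, h7, h8, h9, h10, h11⟩ := good_z0
  unfold Good
  simp only [eventually_and, eventually_all]
  refine ⟨fun i => ev_ne _ (by fun_prop) (h1 i), ev_ne _ (by fun_prop) h2,
    fun i j hij => ev_ne _ (by unfold crs; fun_prop) (h3 i j hij),
    fun i => ev_ne _ (by unfold crs; fun_prop) (h4 i),
    fun j i => ev_ne _ (c_d1 _ _ (c_gam j) (by fun_prop)) (h5 j i),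
    fun j => ev_ne _ (c_d1 _ _ (c_gam j) (by fun_prop)) (h6 j),
    fun j => ev_ne _ (c_d1 _ _ (c_gam j) (by fun_prop)) (h7 j),
    fun j k h => ev_ne _ (c_ev _ _ (c_gam k) (by fun_prop)) (h8 j k h),
    fun j => ev_ne _ ((continuous_apply 0).comp (c_gam j)) (h9 j),
    fun j => ev_ne _ (c_resD j) (h10 j),
    fun j k h => ev_ne _ (c_resP j k) (h11 j k h)⟩

open MvPolynomial in
lemma avoid {ι κ : Type} [Fintype ι] [Fintype κ] (S : ℕ → MvPolynomial (ι × κ) ℂ)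
    (hS : ∀ k, S k ≠ 0) (Q : ι → κ → ℂ) (U : Set (ι → κ → ℂ)) (hU : U ∈ 𝓝 Q) :
    ∃ P ∈ U, ∀ k, eval (fun ij : ι × κ => P ij.1 ij.2) (S k) ≠ 0 := by
  have hc : ∀ k, Continuous fun P : ι → κ → ℂ => eval (fun ij : ι × κ => P ij.1 ij.2) (S k) :=
    fun k => (MvPolynomial.continuous_eval (S k)).comp (by fun_prop)
  have hd : Dense (⋂ k, {P : ι → κ → ℂ | eval (fun ij : ι × κ => P ij.1 ij.2) (S k) ≠ 0}) := by
    refine dense_iInter_of_isOpen (fun k => isOpen_ne_fun (hc k) continuous_const) (fun k => ?_)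
    rw [dense_iff_inter_open]
    rintro V hV ⟨R, hR⟩
    by_contra hne
    apply hS k
    obtain ⟨e, he, hb⟩ := Metric.isOpen_iff.1 hV R hR
    refine MvPolynomial.funext_set (fun ij : ι × κ => Metric.ball (R ij.1 ij.2) e)
      (fun ij => infinite_of_mem_nhds _ (Metric.ball_mem_nhds _ he)) (fun x hx => ?_)
    rw [map_zero]
    by_contra h0
    apply hne
    refine ⟨fun i j => x (i, j), hb ?_, h0⟩
    rw [Metric.mem_ball, dist_pi_lt_iff he]
    intro i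
    rw [dist_pi_lt_iff he]
    intro j
    exact hx (i, j) (Set.mem_univ _)
  obtain ⟨P, hP1, hP2⟩ := hd.inter_nhds_nonempty hU
  exact ⟨P, hP2, fun k => Set.mem_iInter.1 hP1 k⟩

open MvPolynomial in
theorem main (S : ℕ → MvPolynomial (Fin 11 × Fin 3) ℂ) (hS : ∀ k, S k ≠ 0) :
    ∃ P : Fin 11 → Fin 3 → ℂ,
      (∀ k, eval (fun ij : Fin 11 × Fin 3 => P ij.1 ij.2) (S k) ≠ 0) ∧
      (∀ i, P i ≠ 0) ∧ (∀ i j, i ≠ j → ∀ c : ℂ, P j ≠ c • P i) ∧
      ∃ F : MvPolynomial (Fin 3) ℂ, F.IsHomogeneous 9 ∧ Squarefree F ∧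
        (∀ i, HasMult F (P i) (![3, 3, 3, 3, 3, 3, 3, 3, 1, 1, 1] i)) ∧
        ∃ x : Fin 3 → ℂ, x ≠ 0 ∧ (∀ i, ∀ c : ℂ, x ≠ c • P i) ∧ HasMult F x 3 := by
  obtain ⟨P, ⟨a, b, x, hG, ea, eb, xa, xb⟩, hP⟩ := avoid S hS P0 _ (local_solve Good good_ev)
  obtain ⟨h1, h2, h3, h4, h5, h6, h7, h8, h9, h10, h11⟩ := hG
  set z : Z := (a, b, x, P) with hz
  have g8 : ∀ j i, ev (gam z j) (P (i8 i)) = 0 := by
    intro j i; rw [ev_gam]; simp [hz, ea, eb]
  have gx : ∀ j, ev (gam z j) x = 0 := by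
    intro j; rw [ev_gam]; simp [hz, xa, xb]
  have gq : ∀ j, ev (gam z j) (P (i3 j)) = 0 := by
    intro j; rw [ev_gam]; simp only [hz]; ring
  refine ⟨P, hP, fun i h => h1 i (by simp [hz, h]), fun i j hij => crs_ne _ _ (h3 i j hij),
    cub (gam z 0) * cub (gam z 1) * cub (gam z 2),
    ((cub_hom _).mul (cub_hom _)).mul (cub_hom _),
    sqfree _ _ _ (h9 0) (h9 1) (h9 2) (h10 0) (h10 1) (h10 2) (h11 0 1 (by decide))
      (h11 0 2 (by decide)) (h11 1 2 (by decide)), ?_,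
    x, fun h => h2 (by simp [hz, h]), fun i => crs_ne _ _ (h4 i),
    mult_three _ _ _ _ h2 (gx 0) (gx 1) (gx 2) (h6 0) (h6 1) (h6 2)⟩
  have t8 : ∀ i, HasMult (cub (gam z 0) * cub (gam z 1) * cub (gam z 2)) (P (i8 i)) 3 := fun i =>
    mult_three _ _ _ _ (h1 _) (g8 0 i) (g8 1 i) (g8 2 i) (h5 0 i) (h5 1 i) (h5 2 i)
  have s0 := mult_one _ _ _ _ (h1 _) (gq 0) (h8 0 1 (by decide)) (h8 0 2 (by decide)) (h7 0)
  have s1 := mult_one _ _ _ _ (h1 _) (gq 1) (h8 1 0 (by decide)) (h8 1 2 (by decide)) (h7 1)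
  have s2 := mult_one _ _ _ _ (h1 _) (gq 2) (h8 2 0 (by decide)) (h8 2 1 (by decide)) (h7 2)
  rw [show cub (gam z 1) * cub (gam z 0) * cub (gam z 2)
    = cub (gam z 0) * cub (gam z 1) * cub (gam z 2) by ring] at s1
  rw [show cub (gam z 2) * cub (gam z 0) * cub (gam z 1)
    = cub (gam z 0) * cub (gam z 1) * cub (gam z 2) by ring] at s2
  intro i
  fin_cases i
  exacts [t8 0, t8 1, t8 2, t8 3, t8 4, t8 5, t8 6, t8 7, s0, s1, s2]

end

end Pool.Agent.Lead.Fat
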