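import Mathlib

namespace Pool.Agent.Lead.Fg1
open MeasureTheory Set Filter Topology

theorem nested {H : Type} [NormedAddCommGroup H] [InnerProductSpace ℝ H] [CompleteSpace H]
    (C : ℕ → Set H) (hne : ∀ n, (C n).Nonempty) (hanti : Antitone C)
    (hmid : ∀ n, ∀ x ∈ C n, ∀ y ∈ C n, (1 / 2 : ℝ) • (x + y) ∈ C n)
    (hb : ∀ n, ∀ x ∈ C n, ‖x‖ ≤ 1) :
    ∃ g : ℕ → H, (∀ n, g n ∈ C n) ∧ ∃ l, Tendsto g atTop (𝓝 l) := by
  let d : ℕ → ℝ := fun n => sInf ((fun x => ‖x‖ * ‖x‖) '' C n)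
  have hbd : ∀ n, BddBelow ((fun x : H => ‖x‖ * ‖x‖) '' C n) := fun n =>
    ⟨0, by rintro _ ⟨x, -, rfl⟩; positivity⟩
  have hle : ∀ n, ∀ x ∈ C n, d n ≤ ‖x‖ * ‖x‖ := fun n x hx => csInf_le (hbd n) ⟨x, hx, rfl⟩
  have hmono : Monotone d := fun n m h =>
    csInf_le_csInf (hbd n) ((hne m).image _) (image_mono (hanti h))
  have hd1 : BddAbove (range d) := ⟨1, by
    rintro _ ⟨n, rfl⟩
    obtain ⟨x, hx⟩ := hne n
    have := hb n x hx
    exact (hle n x hx).trans (by nlinarith [norm_nonneg x])⟩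
  have hlim := tendsto_atTop_ciSup hmono hd1
  set D := ⨆ n, d n
  have hdD : ∀ n, d n ≤ D := fun n => le_ciSup hd1 n
  have hex : ∀ n, ∃ x ∈ C n, ‖x‖ * ‖x‖ < d n + 1 / ((n : ℝ) + 1) := by
    intro n
    obtain ⟨_, ⟨x, hx, rfl⟩, h⟩ := exists_lt_of_csInf_lt ((hne n).image (fun x => ‖x‖ * ‖x‖))
      (show d n < d n + 1 / ((n : ℝ) + 1) from lt_add_of_pos_right _ (by positivity))
    exact ⟨x, hx, h⟩
  choose g hg h2 using hex
  refine ⟨g, hg, cauchySeq_tendsto_of_complete ?_⟩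
  refine cauchySeq_of_le_tendsto_0
    (fun N => Real.sqrt (4 * (D - d N) + 4 * (1 / ((N : ℝ) + 1)))) (fun n m N hn hm => ?_) ?_
  · rw [dist_eq_norm]
    apply Real.le_sqrt_of_sq_le
    have h3 := hle N _ (hmid N _ (hanti hn (hg n)) _ (hanti hm (hg m)))
    rw [norm_smul] at h3
    have h4 := parallelogram_law_with_norm ℝ (g n) (g m)
    have h5 : 1 / ((n : ℝ) + 1) ≤ 1 / ((N : ℝ) + 1) := Nat.one_div_le_one_div hn
    have h6 : 1 / ((m : ℝ) + 1) ≤ 1 / ((N : ℝ) + 1) := Nat.one_div_le_one_div hm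
    have h7 : ‖(1 / 2 : ℝ)‖ = 1 / 2 := by norm_num
    rw [h7] at h3
    nlinarith [h2 n, h2 m, hdD n, hdD m]
  · have h1 : Tendsto (fun N => 4 * (D - d N) + 4 * (1 / ((N : ℝ) + 1))) atTop
        (𝓝 (4 * (D - D) + 4 * 0)) :=
      ((tendsto_const_nhds.sub hlim).const_mul 4).add
        (tendsto_one_div_add_atTop_nhds_zero_nat.const_mul 4)
    simpa using h1.sqrt

noncomputable def Lc (p : ℕ →₀ ℝ) (b : ℕ → ℝ) : ℝ := Finsupp.linearCombination ℝ b p

theorem Lc_eq (p : ℕ →₀ ℝ) (b : ℕ → ℝ) : Lc p b = ∑ j ∈ p.support, p j * b j := rfl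

def PP (n : ℕ) : Set (ℕ →₀ ℝ) := {p | (∀ j, 0 ≤ p j) ∧ Lc p 1 = 1 ∧
  ∀ b : ℕ → ℝ, (∀ j, 0 ≤ b j ∧ b j ≤ 1) → |Lc p b - Lc p (fun j => b (j + 1))| ≤ 1 / ((n : ℝ) + 1)}

theorem PP_anti : Antitone PP := fun n m h p hp =>
  ⟨hp.1, hp.2.1, fun b hb => (hp.2.2 b hb).trans (Nat.one_div_le_one_div h)⟩

theorem PP_ne (n : ℕ) : (PP n).Nonempty := by
  have e : ∀ b : ℕ → ℝ, Lc ((1 / ((n : ℝ) + 1)) • ∑ j ∈ Finset.range (n + 1),
      Finsupp.single j (1 : ℝ)) b = (1 / ((n : ℝ) + 1)) * ∑ j ∈ Finset.range (n + 1), b j := by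
    intro b; simp [Lc, map_sum]
  refine ⟨(1 / ((n : ℝ) + 1)) • ∑ j ∈ Finset.range (n + 1), Finsupp.single j (1 : ℝ), ?_, ?_, ?_⟩
  · intro j
    rw [Finsupp.smul_apply, Finsupp.finset_sum_apply]
    refine smul_nonneg (by positivity) (Finset.sum_nonneg fun i _ => ?_)
    rw [Finsupp.single_apply]; split_ifs <;> norm_num
  · rw [e]; simp; field_simp
  · intro b hb
    rw [e, e, ← mul_sub, abs_mul, abs_of_pos (by positivity)]
    refine mul_le_of_le_one_right (by positivity) ?_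
    have h1 := Finset.sum_range_succ' b (n + 1)
    have h2 := Finset.sum_range_succ b (n + 1)
    rw [abs_le]
    constructor <;> linarith [hb 0, hb (n + 1)]

theorem PP_mid (n : ℕ) (p) (hp : p ∈ PP n) (q) (hq : q ∈ PP n) : (1 / 2 : ℝ) • (p + q) ∈ PP n := by
  have e : ∀ b, Lc ((1 / 2 : ℝ) • (p + q)) b = (1 / 2) * (Lc p b + Lc q b) := by
    intro b; simp only [Lc, map_smul, map_add, smul_eq_mul]
  refine ⟨fun j => ?_, ?_, fun b hb => ?_⟩
  · have := hp.1 j; have := hq.1 j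
    simp only [Finsupp.smul_apply, Finsupp.add_apply, smul_eq_mul]; positivity
  · rw [e, hp.2.1, hq.2.1]; norm_num
  · rw [e, e]
    have h1 := abs_le.1 (hp.2.2 b hb)
    have h2 := abs_le.1 (hq.2.2 b hb)
    rw [abs_le]; constructor <;> linarith [h1.1, h1.2, h2.1, h2.2]

theorem Lc_mono {n p} (hp : p ∈ PP n) {b c : ℕ → ℝ} (h : ∀ j, b j ≤ c j) : Lc p b ≤ Lc p c :=
  Finset.sum_le_sum fun j _ => mul_le_mul_of_nonneg_left (h j) (hp.1 j)

theorem Lc_add (p : ℕ →₀ ℝ) (b c : ℕ → ℝ) : Lc p (fun j => b j + c j) = Lc p b + Lc p c := by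
  simp [Lc_eq, mul_add, Finset.sum_add_distrib]

theorem Lc_const {n p} (hp : p ∈ PP n) (c : ℝ) : Lc p (fun _ => c) = c := by
  have := hp.2.1
  simp only [Lc_eq, Pi.one_apply, mul_one] at this
  rw [Lc_eq, ← Finset.sum_mul, this, one_mul]

variable {X : Type} [MeasurableSpace X] (μ : Measure X) [IsProbabilityMeasure μ]

theorem means (a : ℕ → Set X) (ha : ∀ j, MeasurableSet (a j)) :
    ∃ p : ℕ → (ℕ →₀ ℝ), (∀ i, p i ∈ PP i) ∧
      ∀ᵐ x ∂μ, ∃ g, Tendsto (fun i => Lc (p i) (fun j => (a j).indicator 1 x)) atTop (𝓝 g) := by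
  let F : (ℕ →₀ ℝ) →ₗ[ℝ] Lp ℝ 2 μ := Finsupp.linearCombination ℝ
    (fun j => indicatorConstLp 2 (ha j) (measure_ne_top μ _) (1 : ℝ))
  have hF : ∀ p, F p =ᵐ[μ] fun x => Lc p (fun j => (a j).indicator 1 x) := by
    intro p
    induction p using Finsupp.induction_linear with
    | zero =>
      rw [map_zero]
      filter_upwards [Lp.coeFn_zero ℝ 2 μ] with x hx
      rw [hx]; simp [Lc]
    | add p q hp hq =>
      rw [map_add]
      filter_upwards [Lp.coeFn_add (F p) (F q), hp, hq] with x h1 h2 h3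
      rw [h1, Pi.add_apply, h2, h3]; simp [Lc]
    | single j c =>
      simp only [F, Finsupp.linearCombination_single, Lc]
      filter_upwards [Lp.coeFn_smul c (indicatorConstLp 2 (ha j) (measure_ne_top μ _) (1 : ℝ)),
        indicatorConstLp_coeFn (p := 2) (hs := ha j) (hμs := measure_ne_top μ _) (c := (1 : ℝ))]
        with x h1 h2
      rw [h1, Pi.smul_apply, h2]; rfl
  obtain ⟨g, hg, l, hl⟩ := nested (fun n => F '' PP n) (fun n => (PP_ne n).image _)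
    (fun n m h => image_mono (PP_anti h))
    (by rintro n _ ⟨p, hp, rfl⟩ _ ⟨q, hq, rfl⟩; exact ⟨_, PP_mid n p hp q hq, by simp⟩)
    (by
      rintro n _ ⟨p, hp, rfl⟩
      have h1 := hp.2.1
      rw [Lc_eq] at h1
      rw [← h1]
      refine (norm_sum_le _ _).trans (Finset.sum_le_sum fun j _ => ?_)
      change ‖p j • indicatorConstLp 2 (ha j) (measure_ne_top μ _) (1 : ℝ)‖ ≤ _
      rw [norm_smul, Real.norm_of_nonneg (hp.1 j)]
      refine mul_le_mul_of_nonneg_left (norm_indicatorConstLp_le.trans ?_) (hp.1 j)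
      simp only [norm_one, one_mul, Pi.one_apply]
      exact Real.rpow_le_one measureReal_nonneg measureReal_le_one (by positivity))
  choose p hp hpg using hg
  obtain ⟨ns, hns, h⟩ := (tendstoInMeasure_of_tendsto_Lp hl).exists_seq_tendsto_ae
  refine ⟨fun i => p (ns i), fun i => PP_anti (hns.id_le i) (hp _), ?_⟩
  filter_upwards [h, ae_all_iff.2 fun i => hF (p (ns i))] with x h1 h2
  refine ⟨l x, ?_⟩
  simpa only [← h2, hpg] using h1

theorem markov (a : ℕ → Set X) (ha : ∀ j, MeasurableSet (a j)) (η : ℝ)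
    (hη : ∀ j, μ.real (a j) ≤ η) {n p} (hp : p ∈ PP n) :
    μ.real {x | 1 / 4 ≤ Lc p (fun j => (a j).indicator 1 x)} ≤ 4 * η := by
  have hi : ∀ j, Integrable (fun x => p j * (a j).indicator 1 x) μ := fun j =>
    ((integrable_const (1 : ℝ)).indicator (ha j)).const_mul _
  have h := mul_meas_ge_le_integral_of_nonneg (μ := μ)
    (f := fun x => Lc p (fun j => (a j).indicator 1 x))
    (Eventually.of_forall fun x => Finset.sum_nonneg fun j _ =>
      mul_nonneg (hp.1 j) (indicator_nonneg (fun _ _ => zero_le_one) x))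
    (integrable_finsetSum _ fun j _ => hi j) (1 / 4)
  have h2 : ∫ x, Lc p (fun j => (a j).indicator 1 x) ∂μ = Lc p (fun j => μ.real (a j)) := by
    simp only [Lc_eq]
    rw [integral_finsetSum _ fun j _ => hi j]
    refine Finset.sum_congr rfl fun j _ => ?_
    rw [integral_const_mul, integral_indicator_one (ha j)]
  have h3 := (Lc_mono hp hη).trans (Lc_const hp η).le
  linarith

def Large (p : ℕ → (ℕ →₀ ℝ)) (J : Set ℕ) : Prop :=
  ∃ m : ℕ, ∃ i0, ∀ i ≥ i0, 1 / 2 + 1 / ((m : ℝ) + 1) ≤ Lc (p i) (J.indicator 1)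

theorem large_iff (p : ℕ → (ℕ →₀ ℝ)) (J : Set ℕ) :
    Large p J ↔ ∃ r > (1 / 2 : ℝ), ∀ᶠ i in atTop, r ≤ Lc (p i) (J.indicator 1) := by
  constructor
  · rintro ⟨m, h⟩
    exact ⟨_, lt_add_of_pos_right _ (by positivity), eventually_atTop.2 h⟩
  · rintro ⟨r, hr, h⟩
    obtain ⟨m, hm⟩ := exists_nat_one_div_lt (sub_pos.2 hr)
    obtain ⟨i0, h⟩ := eventually_atTop.1 h
    exact ⟨m, i0, fun i hi => le_trans (by linarith) (h i hi)⟩

theorem large_inter {p : ℕ → (ℕ →₀ ℝ)} (hp : ∀ i, p i ∈ PP i) {J J' : Set ℕ} (h : Large p J)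
    (h' : Large p J') : ∃ j, j ∈ J ∧ j ∈ J' := by
  by_contra hn
  push Not at hn
  obtain ⟨r, hr, h⟩ := (large_iff _ _).1 h
  obtain ⟨r', hr', h'⟩ := (large_iff _ _).1 h'
  obtain ⟨i, h1, h2⟩ := (h.and h').exists
  have h3 := Lc_add (p i) (J.indicator 1) (J'.indicator 1)
  have h4 := Lc_mono (hp i) (b := fun j => J.indicator 1 j + J'.indicator 1 j) (c := fun _ => 1)
    (fun j => by
      by_cases hj : j ∈ J
      · simp [hj, hn j hj]
      · by_cases hj' : j ∈ J' <;> simp [hj, hj'])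
  rw [Lc_const (hp i)] at h4
  linarith

theorem large_shift {p : ℕ → (ℕ →₀ ℝ)} (hp : ∀ i, p i ∈ PP i) (J : Set ℕ) :
    Large p J ↔ Large p {j | j + 1 ∈ J} := by
  have e : ({j | j + 1 ∈ J} : Set ℕ).indicator (1 : ℕ → ℝ) = fun j => J.indicator 1 (j + 1) := by
    funext j; by_cases h : j + 1 ∈ J <;> simp [indicator, h]
  have hb : ∀ j, 0 ≤ J.indicator (1 : ℕ → ℝ) j ∧ J.indicator (1 : ℕ → ℝ) j ≤ 1 := by
    intro j; by_cases h : j ∈ J <;> simp [h]
  rw [large_iff, large_iff, e]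
  have key : ∀ r > (1 / 2 : ℝ), ∀ᶠ i : ℕ in atTop, 1 / ((i : ℝ) + 1) < (r - 1 / 2) / 2 :=
    fun r hr => tendsto_one_div_add_atTop_nhds_zero_nat.eventually
      (gt_mem_nhds (by linarith))
  constructor
  · rintro ⟨r, hr, h⟩
    refine ⟨r - (r - 1 / 2) / 2, by linarith, ?_⟩
    filter_upwards [h, key r hr] with i h1 h2
    linarith [(abs_le.1 ((hp i).2.2 _ hb)).2]
  · rintro ⟨r, hr, h⟩
    refine ⟨r - (r - 1 / 2) / 2, by linarith, ?_⟩
    filter_upwards [h, key r hr] with i h1 h2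
    linarith [(abs_le.1 ((hp i).2.2 _ hb)).1]

theorem meas_large {Y : Type} [MeasurableSpace Y] (p : ℕ → (ℕ →₀ ℝ)) (J : Y → Set ℕ)
    (hJ : ∀ j, MeasurableSet {y | j ∈ J y}) : MeasurableSet {y | Large p (J y)} := by
  rw [measurableSet_setOfPred]
  refine Measurable.exists fun m => Measurable.exists fun i0 => Measurable.forall fun i =>
    measurable_const.imp (measurableSet_setOfPred.1 (measurableSet_le measurable_const ?_))
  simp only [Lc_eq]
  refine Finset.measurable_sum _ fun j _ => Measurable.const_mul ?_ _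
  exact (measurable_const (a := (1 : ℝ))).indicator (hJ j)

theorem exists_large (a : ℕ → Set X) (ha : ∀ j, MeasurableSet (a j)) (η : ℝ)
    (hη : ∀ j, μ.real (a j) ≤ η) : ∃ p : ℕ → (ℕ →₀ ℝ), (∀ i, p i ∈ PP i) ∧
      μ {x | ¬ Large p {j | x ∉ a j}} ≤ ENNReal.ofReal (4 * η) := by
  obtain ⟨p, hp, h⟩ := means μ a ha
  refine ⟨p, hp, ?_⟩
  let B : ℕ → Set X := fun i0 => {x | ∀ i ≥ i0, 1 / 4 ≤ Lc (p i) (fun j => (a j).indicator 1 x)}
  have hB : Monotone B := fun i j hij x hx k hk => hx k (hij.trans hk)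
  have h1 : {x | ¬ Large p {j | x ∉ a j}} ≤ᵐ[μ] (⋃ i0, B i0 : Set X) := by
    filter_upwards [h] with x ⟨g, hg⟩ hx
    have hx' : ¬ Large p {j | x ∉ a j} := hx
    by_cases hg2 : 1 / 4 < g
    · obtain ⟨i0, h0⟩ := eventually_atTop.1 (hg.eventually (lt_mem_nhds hg2))
      exact mem_iUnion.2 ⟨i0, fun i hi => (h0 i hi).le⟩
    · exfalso
      apply hx'
      rw [large_iff]
      refine ⟨2 / 3, by norm_num, ?_⟩
      filter_upwards [hg.eventually (gt_mem_nhds (show g < 1 / 3 by linarith))] with i hi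
      have h3 := Lc_add (p i) (fun j => (a j).indicator 1 x) (({j | x ∉ a j} : Set ℕ).indicator 1)
      have h4 : (fun j => (a j).indicator (1 : X → ℝ) x + ({j | x ∉ a j} : Set ℕ).indicator 1 j) =
          fun _ => 1 := by
        funext j; by_cases h : x ∈ a j <;> simp [h]
      rw [h4, Lc_const (hp i)] at h3
      linarith
  refine (measure_mono_ae h1).trans ?_
  rw [hB.measure_iUnion]
  refine iSup_le fun i => ?_
  refine (measure_mono (s := B i) (t := {x | 1 / 4 ≤ Lc (p i) (fun j => (a j).indicator 1 x)})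
    fun x hx => hx i le_rfl).trans ?_
  rw [← ofReal_measureReal]
  exact ENNReal.ofReal_le_ofReal (markov μ a ha η hη (hp i))

end Pool.Agent.Lead.Fg1
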