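import Mathlib

namespace Pool.Agent.Lead.FgDefs
open MeasureTheory

variable {X : Type} [MeasurableSpace X]

/-- Bimeasurable bijections U of X with U x in the T₀-orbit of x for every x. -/
def FG (_μ : Measure X) (T₀ : X ≃ᵐ X) : Type :=
  {U : X ≃ᵐ X // ∀ x, ∃ n : ℤ, U x = (T₀.toEquiv ^ n : Equiv.Perm X) x}

/-- The uniform distance μ {x | S x ≠ T x}. -/
noncomputable instance uniformDist (μ : Measure X) (T₀ : X ≃ᵐ X) :
    PseudoEMetricSpace (FG μ T₀) where
  edist S T := μ {x | S.1 x ≠ T.1 x}
  edist_self S := by simp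
  edist_comm S T := by simp only [ne_comm]
  edist_triangle S T U := by
    refine le_trans (measure_mono ?_) (measure_union_le _ _)
    intro x hx
    by_contra h
    simp only [Set.mem_union, Set.mem_ofPred_eq, not_or, not_not] at h
    exact hx (h.1.trans h.2)

/-- The full group: FG modulo uniform distance zero, with the quotient metric topology. -/
abbrev FullGroup (μ : Measure X) (T₀ : X ≃ᵐ X) : Type := SeparationQuotient (FG μ T₀)

/-- The conjugacy relation S = U T U⁻¹ on the full group. -/
def Conj (μ : Measure X) (T₀ : X ≃ᵐ X) : Set (FullGroup μ T₀ × FullGroup μ T₀) :=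
  {p | ∃ S T U : FG μ T₀, SeparationQuotient.mk S = p.1 ∧ SeparationQuotient.mk T = p.2 ∧
    ∀ᵐ x ∂μ, S.1 x = U.1 (T.1 (U.1.symm x))}

end Pool.Agent.Lead.FgDefs
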