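import Mathlib
import Pool.Agent.Lead.FgDefs
import Pool.Agent.Lead.Fg1

namespace Pool.Agent.Lead.Fg2
open MeasureTheory Set Filter Topology Pool.Agent.Lead.FgDefs Pool.Agent.Lead.Fg1

variable {X : Type} [MeasurableSpace X] {μ : Measure X} (T₀ : X ≃ᵐ X)

def τ (n : ℤ) : X → X := (T₀.toEquiv ^ n : Equiv.Perm X)

theorem τ_add (n m : ℤ) (x : X) : τ T₀ (n + m) x = τ T₀ n (τ T₀ m x) := by
  simp [τ, zpow_add]

theorem τ_zero (x : X) : τ T₀ 0 x = x := by simp [τ]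

theorem τ_neg (n : ℤ) (x : X) : τ T₀ (-n) (τ T₀ n x) = x := by
  rw [← τ_add, neg_add_cancel, τ_zero]

theorem τ_neg' (n : ℤ) (x : X) : τ T₀ n (τ T₀ (-n) x) = x := by
  rw [← τ_add, add_neg_cancel, τ_zero]

theorem τ_mp (h : MeasurePreserving T₀ μ μ) (n : ℤ) : MeasurePreserving (τ T₀ n) μ μ := by
  induction n using Int.induction_on with
  | zero =>
    have : τ T₀ 0 = id := funext (τ_zero T₀)
    rw [this]; exact MeasurePreserving.id μ
  | succ n ih =>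
    have : τ T₀ (n + 1) = τ T₀ n ∘ T₀ := by
      funext x; rw [τ_add]; simp [τ]
    rw [this]; exact ih.comp h
  | pred n ih =>
    have : τ T₀ (-n - 1) = τ T₀ (-n) ∘ T₀.symm := by
      funext x; rw [sub_eq_add_neg, τ_add]; simp only [τ, zpow_neg, zpow_one]; rfl
    rw [this]; exact ih.comp (h.symm T₀)

theorem τ_meas (n : ℤ) : Measurable (τ T₀ n) :=
  (τ_mp (μ := 0) T₀ ⟨T₀.measurable, by simp⟩ n).measurable

def R (x y : X) : Prop := ∃ n, y = τ T₀ n x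

variable {T₀}

theorem R.refl (x : X) : R T₀ x x := ⟨0, (τ_zero T₀ x).symm⟩
theorem R.symm {x y : X} (h : R T₀ x y) : R T₀ y x := by
  obtain ⟨n, rfl⟩ := h; exact ⟨-n, (τ_neg T₀ n x).symm⟩
theorem R.trans {x y z : X} (h : R T₀ x y) (h' : R T₀ y z) : R T₀ x z := by
  obtain ⟨n, rfl⟩ := h; obtain ⟨m, rfl⟩ := h'; exact ⟨m + n, (τ_add T₀ m n x).symm⟩

structure PI (T₀ : X ≃ᵐ X) (Γ : Set (X × X)) : Prop where
  meas : MeasurableSet Γ
  sub : ∀ x y, (x, y) ∈ Γ → R T₀ x y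
  fn : ∀ x y y', (x, y) ∈ Γ → (x, y') ∈ Γ → y = y'
  inj : ∀ x x' y, (x, y) ∈ Γ → (x', y) ∈ Γ → x = x'

theorem meas_fst {Γ : Set (X × X)} (hm : MeasurableSet Γ) (hs : ∀ x y, (x, y) ∈ Γ → R T₀ x y) :
    MeasurableSet {x | ∃ y, (x, y) ∈ Γ} := by
  have : {x | ∃ y, (x, y) ∈ Γ} = ⋃ n, (fun x => (x, τ T₀ n x)) ⁻¹' Γ := by
    ext x
    simp only [mem_ofPred_eq, mem_iUnion, mem_preimage]
    exact ⟨fun ⟨y, h⟩ => by obtain ⟨n, rfl⟩ := hs _ _ h; exact ⟨n, h⟩, fun ⟨n, h⟩ => ⟨_, h⟩⟩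
  rw [this]
  exact MeasurableSet.iUnion fun n => (measurable_id.prodMk (τ_meas T₀ n)) hm

theorem meas_snd {Γ : Set (X × X)} (hm : MeasurableSet Γ) (hs : ∀ x y, (x, y) ∈ Γ → R T₀ x y) :
    MeasurableSet {y | ∃ x, (x, y) ∈ Γ} :=
  meas_fst (T₀ := T₀) (Γ := Prod.swap ⁻¹' Γ) (measurable_swap hm) fun _ _ h => (hs _ _ h).symm

theorem transport (h0 : MeasurePreserving T₀ μ μ) {Γ : Set (X × X)} (h : PI T₀ Γ) :
    μ {x | ∃ y, (x, y) ∈ Γ} = μ {y | ∃ x, (x, y) ∈ Γ} := by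
  obtain ⟨e, he⟩ := exists_surjective_nat ℤ
  let P : ℕ → Set X := fun k => (fun x => (x, τ T₀ (e k) x)) ⁻¹' Γ
  have hP : ∀ k, MeasurableSet (P k) := fun k => (measurable_id.prodMk (τ_meas T₀ _)) h.meas
  have hD : ∀ k, MeasurableSet (disjointed P k) := MeasurableSet.disjointed hP
  have e1 : {x | ∃ y, (x, y) ∈ Γ} = ⋃ k, disjointed P k := by
    rw [iUnion_disjointed]
    ext x
    simp only [mem_ofPred_eq, mem_iUnion, mem_preimage, P]
    refine ⟨fun ⟨y, hy⟩ => ?_, fun ⟨n, h⟩ => ⟨_, h⟩⟩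
    obtain ⟨n, rfl⟩ := h.sub _ _ hy
    obtain ⟨k, rfl⟩ := he n
    exact ⟨k, hy⟩
  have hm : ∀ k y, τ T₀ (-e k) y ∈ disjointed P k → (τ T₀ (-e k) y, y) ∈ Γ := by
    intro k y hy
    have : (τ T₀ (-e k) y, τ T₀ (e k) (τ T₀ (-e k) y)) ∈ Γ := disjointed_subset P k hy
    rwa [τ_neg'] at this
  have e2 : {y | ∃ x, (x, y) ∈ Γ} = ⋃ k, τ T₀ (-e k) ⁻¹' disjointed P k := by
    ext y
    simp only [mem_ofPred_eq, mem_iUnion, mem_preimage]
    refine ⟨fun ⟨x, hx⟩ => ?_, fun ⟨k, hk⟩ => ⟨_, hm k y hk⟩⟩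
    have : x ∈ ⋃ k, disjointed P k := e1 ▸ ⟨y, hx⟩
    obtain ⟨k, hk⟩ := mem_iUnion.1 this
    have h2 : (x, τ T₀ (e k) x) ∈ Γ := disjointed_subset P k hk
    exact ⟨k, by rw [h.fn _ _ _ hx h2, τ_neg]; exact hk⟩
  rw [e1, e2, measure_iUnion (disjoint_disjointed P) hD, measure_iUnion _
    (fun k => τ_meas T₀ _ (hD k))]
  · exact tsum_congr fun k => ((τ_mp T₀ h0 _).measure_preimage (hD k).nullMeasurableSet).symm
  · intro k l hkl
    refine Set.disjoint_left.2 fun y h1 h2 => ?_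
    have := h.inj _ _ _ (hm k y h1) (hm l y h2)
    exact Set.disjoint_left.1 (disjoint_disjointed P hkl) h1 (this ▸ h2)

theorem PI.restrict {Γ : Set (X × X)} (h : PI T₀ Γ) {A : Set (X × X)} (hA : MeasurableSet A) :
    PI T₀ (Γ ∩ A) :=
  ⟨h.meas.inter hA, fun _ _ p => h.sub _ _ p.1, fun _ _ _ p q => h.fn _ _ _ p.1 q.1,
    fun _ _ _ p q => h.inj _ _ _ p.1 q.1⟩

structure PC (T₀ : X ≃ᵐ X) (T S : X → X) (Γ : Set (X × X)) : Prop extends PI T₀ Γ where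
  inv : ∀ x y, (x, y) ∈ Γ ↔ (T x, S y) ∈ Γ

def comp (a b c : Set (X × X)) : Set (X × X) :=
  {p | ∃ y x, (p.1, y) ∈ a ∧ (x, y) ∈ b ∧ (x, p.2) ∈ c}

theorem PC.comp {T S : X → X} (hT : Function.Surjective T) (hS : Function.Surjective S)
    {a b c : Set (X × X)} (ha : PC T₀ T S a) (hb : PC T₀ T S b) (hc : PC T₀ T S c) :
    PC T₀ T S (comp a b c) where
  meas := by
    have : Fg2.comp a b c = ⋃ n, ⋃ m, (fun p => (p.1, τ T₀ n p.1)) ⁻¹' a ∩
        ((fun p => (τ T₀ m p.1, τ T₀ n p.1)) ⁻¹' b ∩ (fun p => (τ T₀ m p.1, p.2)) ⁻¹' c) := by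
      ext p
      simp only [Fg2.comp, mem_ofPred_eq, mem_iUnion, mem_inter_iff, mem_preimage]
      constructor
      · rintro ⟨y, x, h1, h2, h3⟩
        obtain ⟨m, rfl⟩ := (ha.sub _ _ h1).trans (hb.sub _ _ h2).symm
        obtain ⟨n, rfl⟩ := ha.sub _ _ h1
        exact ⟨n, m, h1, h2, h3⟩
      · rintro ⟨n, m, h⟩; exact ⟨_, _, h⟩
    rw [this]
    have m1 : ∀ n, Measurable fun p : X × X => τ T₀ n p.1 := fun n =>
      (τ_meas T₀ n).comp measurable_fst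
    exact MeasurableSet.iUnion fun n => MeasurableSet.iUnion fun m =>
      ((measurable_fst.prodMk (m1 n)) ha.meas).inter ((((m1 m).prodMk (m1 n)) hb.meas).inter
        (((m1 m).prodMk measurable_snd) hc.meas))
  sub := by
    rintro x z ⟨y, x', h1, h2, h3⟩
    exact ((ha.sub _ _ h1).trans (hb.sub _ _ h2).symm).trans (hc.sub _ _ h3)
  fn := by
    rintro x z z' ⟨y, x', h1, h2, h3⟩ ⟨y2, x2, k1, k2, k3⟩
    obtain rfl := ha.fn _ _ _ h1 k1
    obtain rfl := hb.inj _ _ _ h2 k2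
    exact hc.fn _ _ _ h3 k3
  inj := by
    rintro x x0 z ⟨y, x', h1, h2, h3⟩ ⟨y2, x2, k1, k2, k3⟩
    obtain rfl := hc.inj _ _ _ h3 k3
    obtain rfl := hb.fn _ _ _ h2 k2
    exact ha.inj _ _ _ h1 k1
  inv := by
    intro x z
    constructor
    · rintro ⟨y, x', h1, h2, h3⟩
      exact ⟨S y, T x', (ha.inv _ _).1 h1, (hb.inv _ _).1 h2, (hc.inv _ _).1 h3⟩
    · rintro ⟨y, x', h1, h2, h3⟩
      obtain ⟨y, rfl⟩ := hS y
      obtain ⟨x', rfl⟩ := hT x'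
      exact ⟨y, x', (ha.inv _ _).2 h1, (hb.inv _ _).2 h2, (hc.inv _ _).2 h3⟩

inductive Wd
  | base : ℕ → Wd
  | tri : Wd → Wd → Wd → Wd

def Wd.enc : Wd → ℕ
  | .base k => Nat.pair 0 k
  | .tri a b c => Nat.pair 1 (Nat.pair a.enc (Nat.pair b.enc c.enc))

theorem Wd.enc_inj : ∀ a b : Wd, a.enc = b.enc → a = b
  | .base k, .base l, h => by simpa [Wd.enc] using h
  | .base k, .tri _ _ _, h => by simp [Wd.enc] at h
  | .tri _ _ _, .base l, h => by simp [Wd.enc] at h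
  | .tri a b c, .tri a' b' c', h => by
    simp only [Wd.enc, Nat.pair_eq_pair, true_and] at h
    rw [Wd.enc_inj a a' h.1, Wd.enc_inj b b' h.2.1, Wd.enc_inj c c' h.2.2]

instance : Countable Wd := Function.Injective.countable (f := Wd.enc) fun a b => Wd.enc_inj a b
instance : Nonempty Wd := ⟨.base 0⟩

def Wd.ev (Γ : ℕ → Set (X × X)) : Wd → Set (X × X)
  | .base k => Γ k
  | .tri a b c => comp (a.ev Γ) (b.ev Γ) (c.ev Γ)

def greedy (W : ℕ → Set (X × X)) : ℕ → Set (X × X)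
  | 0 => ∅
  | i + 1 => greedy W i ∪ (W i ∩ {p | (¬ ∃ y, (p.1, y) ∈ greedy W i) ∧ ¬ ∃ x, (x, p.2) ∈ greedy W i})

theorem greedy_pc {T S : X → X} (hT : Function.Surjective T) (hS : Function.Surjective S)
    {W : ℕ → Set (X × X)} (hW : ∀ i, PC T₀ T S (W i)) (i : ℕ) : PC T₀ T S (greedy W i) := by
  induction i with
  | zero => exact ⟨⟨MeasurableSet.empty, fun _ _ h => h.elim, fun _ _ _ h => h.elim,
      fun _ _ _ h => h.elim⟩, fun _ _ => Iff.rfl⟩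
  | succ i ih =>
    refine ⟨⟨ih.meas.union ((hW i).meas.inter ?_), ?_, ?_, ?_⟩, ?_⟩
    · exact (measurable_fst (meas_fst ih.meas ih.sub).compl).inter
        (measurable_snd (meas_snd ih.meas ih.sub).compl)
    · rintro x y (h | h)
      · exact ih.sub _ _ h
      · exact (hW i).sub _ _ h.1
    · rintro x y y' (h | h) (h' | h')
      · exact ih.fn _ _ _ h h'
      · exact (h'.2.1 ⟨_, h⟩).elim
      · exact (h.2.1 ⟨_, h'⟩).elim
      · exact (hW i).fn _ _ _ h.1 h'.1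
    · rintro x y y' (h | h) (h' | h')
      · exact ih.inj _ _ _ h h'
      · exact (h'.2.2 ⟨_, h⟩).elim
      · exact (h.2.2 ⟨_, h'⟩).elim
      · exact (hW i).inj _ _ _ h.1 h'.1
    · intro x y
      refine or_congr (ih.inv x y) (and_congr ((hW i).inv x y) (and_congr (not_congr ?_)
        (not_congr ?_)))
      · exact (exists_congr fun y => ih.inv x y).trans
          (hS.exists (p := fun z => (T x, z) ∈ greedy W i)).symm
      · exact (exists_congr fun x => ih.inv x y).trans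
          (hT.exists (p := fun z => (z, S y) ∈ greedy W i)).symm

theorem exhaust [IsFiniteMeasure μ] (h0 : MeasurePreserving T₀ μ μ) {T S : X → X}
    (hT : Function.Surjective T) (hS : Function.Surjective S) (Γ : ℕ → Set (X × X))
    (hΓ : ∀ k, PC T₀ T S (Γ k)) (ε : ℕ → ENNReal) (hε : Tendsto ε atTop (𝓝 0))
    (hμ : ∀ k, μ {x | ¬ ∃ y, (x, y) ∈ Γ k} ≤ ε k) :
    ∃ Φ, PC T₀ T S Φ ∧ μ {x | ¬ ∃ y, (x, y) ∈ Φ} = 0 := by
  obtain ⟨e, he⟩ := exists_surjective_nat Wd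
  have hw : ∀ w : Wd, PC T₀ T S (w.ev Γ) := by
    intro w
    induction w with
    | base k => exact hΓ k
    | tri a b c ha hb hc => exact ha.comp hT hS hb hc
  let W : ℕ → Set (X × X) := fun i => (e i).ev Γ
  have hg := greedy_pc hT hS (W := W) (fun i => hw _)
  have hmono : Monotone (greedy W) := monotone_nat_of_le_succ fun i => subset_union_left
  let Φ := ⋃ i, greedy W i
  have two : ∀ p q, p ∈ Φ → q ∈ Φ → ∃ i, p ∈ greedy W i ∧ q ∈ greedy W i := by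
    intro p q hp hq
    obtain ⟨i, hi⟩ := mem_iUnion.1 hp
    obtain ⟨j, hj⟩ := mem_iUnion.1 hq
    exact ⟨max i j, hmono (le_max_left _ _) hi, hmono (le_max_right _ _) hj⟩
  have hΦ : PC T₀ T S Φ := by
    refine ⟨⟨MeasurableSet.iUnion fun i => (hg i).meas, fun x y h => ?_, fun x y y' h h' => ?_,
      fun x x' y h h' => ?_⟩, fun x y => ?_⟩
    · obtain ⟨i, hi⟩ := mem_iUnion.1 h; exact (hg i).sub _ _ hi
    · obtain ⟨i, h1, h2⟩ := two _ _ h h'; exact (hg i).fn _ _ _ h1 h2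
    · obtain ⟨i, h1, h2⟩ := two _ _ h h'; exact (hg i).inj _ _ _ h1 h2
    · simp only [Φ, mem_iUnion]; exact exists_congr fun i => (hg i).inv x y
  refine ⟨Φ, hΦ, ?_⟩
  let Q : Set (X × X) := ⋃ w : Wd, w.ev Γ
  have hQm : MeasurableSet Q := MeasurableSet.iUnion fun w => (hw w).meas
  have hQs : ∀ x y, (x, y) ∈ Q → R T₀ x y := fun x y h => by
    obtain ⟨w, h⟩ := mem_iUnion.1 h; exact (hw w).sub _ _ h
  have hΦQ : Φ ⊆ Q := by
    refine iUnion_subset fun i => ?_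
    induction i with
    | zero => exact empty_subset _
    | succ i ih => exact union_subset ih fun p hp => mem_iUnion.2 ⟨e i, hp.1⟩
  set A' := {x | ¬ ∃ y, (x, y) ∈ Φ} with hA'
  have mA' : MeasurableSet A' := (meas_fst hΦ.meas hΦ.sub).compl
  let B := {y | ∃ x, (x, y) ∈ Q ∩ Prod.fst ⁻¹' A'}
  have mB : MeasurableSet B := meas_snd (hQm.inter (measurable_fst mA')) fun x y h => hQs x y h.1
  let C := {x | ∃ y, (x, y) ∈ Q ∩ Prod.snd ⁻¹' B}
  have mC : MeasurableSet C := meas_fst (hQm.inter (measurable_snd mB)) fun x y h => hQs x y h.1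
  have hBΦ : ∀ y ∈ B, ∃ x, (x, y) ∈ Φ := by
    rintro y ⟨x, h1, h2⟩
    obtain ⟨w, hw'⟩ := mem_iUnion.1 h1
    obtain ⟨i, rfl⟩ := he w
    by_contra hn
    refine h2 ⟨y, mem_iUnion.2 ⟨i + 1, Or.inr ⟨hw', ?_, ?_⟩⟩⟩
    · rintro ⟨y', hy'⟩; exact h2 ⟨y', mem_iUnion.2 ⟨i, hy'⟩⟩
    · rintro ⟨x', hx'⟩; exact hn ⟨x', mem_iUnion.2 ⟨i, hx'⟩⟩
  have i1 : μ B ≤ μ ((A' ∪ C) \ A') := by
    have := transport h0 (hΦ.toPI.restrict (measurable_snd mB))
    refine le_trans (measure_mono ?_) (this.symm.le.trans (measure_mono ?_))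
    · intro y hy
      obtain ⟨x, hx⟩ := hBΦ y hy
      exact ⟨x, hx, hy⟩
    · rintro x ⟨y, h1, h2⟩
      exact ⟨Or.inr ⟨y, hΦQ h1, h2⟩, fun h => h ⟨y, h1⟩⟩
  have i2 : ∀ k, μ (A' ∪ C) ≤ μ B + ε k := by
    intro k
    have := transport h0 ((hΓ k).toPI.restrict (measurable_fst (mA'.union mC)))
    refine le_trans (measure_mono (t := {x | ∃ y, (x, y) ∈ Γ k ∩ Prod.fst ⁻¹' (A' ∪ C)} ∪
      {x | ¬ ∃ y, (x, y) ∈ Γ k}) ?_) ((measure_union_le _ _).trans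
        (add_le_add (this.le.trans (measure_mono ?_)) (hμ k)))
    · intro x hx
      by_cases h : ∃ y, (x, y) ∈ Γ k
      · obtain ⟨y, hy⟩ := h; exact Or.inl ⟨y, hy, hx⟩
      · exact Or.inr h
    · rintro y ⟨x, h1, h2 | ⟨y', h2, x', h3, h4⟩⟩
      · exact ⟨x, mem_iUnion.2 ⟨.base k, h1⟩, h2⟩
      · obtain ⟨a, ha⟩ := mem_iUnion.1 h3
        obtain ⟨b, hb⟩ := mem_iUnion.1 h2
        exact ⟨x', mem_iUnion.2 ⟨.tri a b (.base k), y', x, ha, hb, h1⟩, h4⟩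
  have i3 : μ ((A' ∪ C) \ A') + μ A' = μ (A' ∪ C) := by
    rw [add_comm, ← measure_union disjoint_sdiff_right ((mA'.union mC).diff mA'),
      union_sdiff_cancel subset_union_left]
  have i4 : ∀ k, μ A' ≤ ε k := by
    intro k
    have : μ ((A' ∪ C) \ A') + μ A' ≤ μ ((A' ∪ C) \ A') + ε k :=
      i3.le.trans ((i2 k).trans (add_le_add_left i1 _))
    exact (ENNReal.add_le_add_iff_left (measure_ne_top μ _)).1 this
  exact le_antisymm (ge_of_tendsto' hε i4) zero_le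

end Pool.Agent.Lead.Fg2
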