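import Mathlib
import Pool.Agent.Lead.Fg2

namespace Pool.Agent.Lead.Fg3
open MeasureTheory Set Filter Topology Pool.Agent.Lead.FgDefs Pool.Agent.Lead.Fg1
open Pool.Agent.Lead.Fg2 symmDiff

variable {X : Type} [MeasurableSpace X] [StandardBorelSpace X] {μ : Measure X} {T₀ : X ≃ᵐ X}

omit [StandardBorelSpace X] in
theorem FG_R (U : FG μ T₀) (x : X) : R T₀ x (U.1 x) := U.2 x

omit [StandardBorelSpace X] in
theorem FG_R_iter (U : FG μ T₀) (j : ℕ) (x : X) : R T₀ x (U.1^[j] x) := by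
  induction j with
  | zero => exact R.refl x
  | succ j ih => rw [Function.iterate_succ_apply']; exact ih.trans (FG_R U _)

theorem FG_mp (h0 : MeasurePreserving T₀ μ μ) (U : FG μ T₀) : MeasurePreserving U.1 μ μ := by
  refine ⟨U.1.measurable, Measure.ext fun A hA => ?_⟩
  rw [Measure.map_apply U.1.measurable hA]
  have h : PI T₀ {p : X × X | p.2 = U.1 p.1} :=
    ⟨measurableSet_eq_fun measurable_snd (U.1.measurable.comp measurable_fst),
      fun x y h => by rw [show y = U.1 x from h]; exact FG_R U x,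
      fun x y y' h h' => (show y = U.1 x from h).trans (show y' = U.1 x from h').symm,
      fun x x' y h h' => U.1.injective ((show y = U.1 x from h).symm.trans h')⟩
  have := transport h0 (h.restrict (measurable_snd hA))
  convert this using 2
  · ext x; simp
  · ext y
    exact ⟨fun hy => ⟨U.1.symm y, by simp, hy⟩, fun ⟨x, h⟩ => h.2⟩

theorem total (h0 : MeasurePreserving T₀ μ μ) [IsFiniteMeasure μ] (S T : FG μ T₀)
    {Φ : Set (X × X)} (h : PC T₀ T.1 S.1 Φ) (h1 : μ {x | ¬ ∃ y, (x, y) ∈ Φ} = 0) :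
    ∃ U : FG μ T₀, ∀ᵐ x ∂μ, S.1 x = U.1 (T.1 (U.1.symm x)) := by
  classical
  have m1 := meas_fst h.meas h.sub
  have m2 := meas_snd h.meas h.sub
  have h2 : μ {y | ¬ ∃ x, (x, y) ∈ Φ} = 0 := by
    have a := measure_compl m1 (measure_ne_top μ _)
    have b := measure_compl m2 (measure_ne_top μ _)
    rw [transport h0 h.toPI] at a
    exact b.trans (a.symm.trans h1)
  let G : Set X := {x | ∃ y, (x, y) ∈ Φ} ∩ {y | ∃ x, (x, y) ∈ Φ}
  have mG : MeasurableSet G := m1.inter m2
  have hG : μ Gᶜ = 0 := by rw [compl_inter]; exact measure_union_null h1 h2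
  let X0 : Set X := ⋂ n, τ T₀ n ⁻¹' G
  have m0 : MeasurableSet X0 := MeasurableSet.iInter fun n => τ_meas T₀ n mG
  have h00 : μ X0ᶜ = 0 := by
    rw [compl_iInter]
    exact measure_iUnion_null fun n =>
      ((τ_mp T₀ h0 n).measure_preimage mG.compl.nullMeasurableSet).trans hG
  have hR : ∀ x y, R T₀ x y → x ∈ X0 → y ∈ X0 := by
    rintro x _ ⟨m, rfl⟩ hx
    refine mem_iInter.2 fun n => ?_
    have := mem_iInter.1 hx (n + m)
    rwa [mem_preimage, τ_add] at this
  have hG0 : ∀ x ∈ X0, x ∈ G := fun x hx => by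
    have := mem_iInter.1 hx 0
    rwa [mem_preimage, τ_zero] at this
  let Ψ : Set (X × X) := (Φ ∩ Prod.fst ⁻¹' X0) ∪ ({p | p.1 = p.2} ∩ Prod.fst ⁻¹' X0ᶜ)
  have hΨ : PI T₀ Ψ := by
    refine ⟨(h.meas.inter (measurable_fst m0)).union ((measurableSet_eq_fun measurable_fst
      measurable_snd).inter (measurable_fst m0.compl)), ?_, ?_, ?_⟩
    · rintro x y (k | k)
      · exact h.sub _ _ k.1
      · rw [show x = y from k.1]; exact R.refl _
    · rintro x y y' (k | k) (k' | k')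
      · exact h.fn _ _ _ k.1 k'.1
      · exact (k'.2 k.2).elim
      · exact (k.2 k'.2).elim
      · exact (show x = y from k.1).symm.trans k'.1
    · rintro x x' y (k | k) (k' | k')
      · exact h.inj _ _ _ k.1 k'.1
      · obtain rfl : x' = y := k'.1
        exact (k'.2 (hR _ _ (h.sub _ _ k.1) k.2)).elim
      · obtain rfl : x = y := k.1
        exact (k.2 (hR _ _ (h.sub _ _ k'.1) k'.2)).elim
      · exact (show x = y from k.1).trans (show x' = y from k'.1).symm
  have t1 : ∀ x, ∃ y, (x, y) ∈ Ψ := by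
    intro x
    by_cases hx : x ∈ X0
    · obtain ⟨y, hy⟩ := (hG0 x hx).1; exact ⟨y, Or.inl ⟨hy, hx⟩⟩
    · exact ⟨x, Or.inr ⟨rfl, hx⟩⟩
  have t2 : ∀ y, ∃ x, (x, y) ∈ Ψ := by
    intro y
    by_cases hy : y ∈ X0
    · obtain ⟨x, hx⟩ := (hG0 y hy).2; exact ⟨x, Or.inl ⟨hx, hR _ _ (h.sub _ _ hx).symm hy⟩⟩
    · exact ⟨y, Or.inr ⟨rfl, hy⟩⟩
  choose u hu using t1
  choose v hv using t2
  have mu : Measurable u := by
    intro B hB
    have := meas_fst (hΨ.meas.inter (measurable_snd hB)) (fun x y k => hΨ.sub x y k.1)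
    convert this using 1
    ext x
    exact ⟨fun hx => ⟨u x, hu x, hx⟩, fun ⟨y, k1, k2⟩ => by
      rw [mem_preimage, hΨ.fn _ _ _ (hu x) k1]; exact k2⟩
  have mv : Measurable v := by
    intro B hB
    have := meas_snd (hΨ.meas.inter (measurable_fst hB)) (fun x y k => hΨ.sub x y k.1)
    convert this using 1
    ext y
    exact ⟨fun hy => ⟨v y, hv y, hy⟩, fun ⟨x, k1, k2⟩ => by
      rw [mem_preimage, hΨ.inj _ _ _ (hv y) k1]; exact k2⟩
  let U : X ≃ᵐ X := ⟨⟨u, v, fun x => hΨ.inj _ _ _ (hv _) (hu x),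
    fun y => hΨ.fn _ _ _ (hu _) (hv y)⟩, mu, mv⟩
  refine ⟨⟨U, fun x => hΨ.sub _ _ (hu x)⟩, ?_⟩
  filter_upwards [show X0 ∈ ae μ from h00] with y hy
  change S.1 y = u (T.1 (v y))
  have hx : v y ∈ X0 := hR _ _ (hΨ.sub _ _ (hv y)).symm hy
  have k1 : (v y, y) ∈ Φ := ((hv y).resolve_right fun k => k.2 hx).1
  exact hΨ.fn _ _ _ (Or.inl ⟨(h.inv _ _).1 k1, hR _ _ (FG_R T _) hx⟩) (hu _)

theorem partial_conj [IsProbabilityMeasure μ] (S T V : FG μ T₀) (η : ℝ)
    (h : ∀ j, μ.real {x | S.1^[j] (V.1 x) ≠ V.1 (T.1^[j] x)} ≤ η) :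
    ∃ Γ, PC T₀ T.1 S.1 Γ ∧ μ {x | ¬ ∃ y, (x, y) ∈ Γ} ≤ ENNReal.ofReal (4 * η) := by
  obtain ⟨p, hp, hμ⟩ := exists_large μ _ (fun j => (measurableSet_eq_fun
    ((S.1.measurable.iterate j).comp V.1.measurable)
    (V.1.measurable.comp (T.1.measurable.iterate j))).compl) η h
  refine ⟨{q | Large p {j | S.1^[j] q.2 = V.1 (T.1^[j] q.1)}}, ⟨⟨?_, ?_, ?_, ?_⟩, ?_⟩,
    le_trans (measure_mono ?_) hμ⟩
  · exact meas_large p _ fun j => measurableSet_eq_fun
      ((S.1.measurable.iterate j).comp measurable_snd)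
      (V.1.measurable.comp ((T.1.measurable.iterate j).comp measurable_fst))
  · intro x y h
    obtain ⟨j, hj, -⟩ := large_inter hp h h
    have hj' : S.1^[j] y = V.1 (T.1^[j] x) := hj
    exact ((FG_R_iter T j x).trans (FG_R V _)).trans (hj' ▸ (FG_R_iter S j y).symm)
  · intro x y y' h h'
    obtain ⟨j, hj, hj'⟩ := large_inter hp h h'
    exact S.1.injective.iterate j ((show S.1^[j] y = _ from hj).trans
      (show S.1^[j] y' = _ from hj').symm)
  · intro x x' y h h'
    obtain ⟨j, hj, hj'⟩ := large_inter hp h h'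
    exact T.1.injective.iterate j (V.1.injective ((show S.1^[j] y = _ from hj).symm.trans hj'))
  · intro x y
    exact large_shift hp _
  · intro x hx hl
    refine hx ⟨V.1 x, ?_⟩
    simpa using hl

omit [StandardBorelSpace X] in
theorem tri (f g k : X → X) : μ {x | f x ≠ k x} ≤ μ {x | f x ≠ g x} + μ {x | g x ≠ k x} := by
  refine le_trans (measure_mono ?_) (measure_union_le _ _)
  intro x hx
  by_contra h
  simp only [Set.mem_union, Set.mem_ofPred_eq, not_or, not_not] at h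
  exact hx (h.1.trans h.2)

omit [StandardBorelSpace X] in
theorem mono_ne {f g f' g' : X → X} (h : ∀ x, f' x = g' x → f x = g x) :
    μ {x | f x ≠ g x} ≤ μ {x | f' x ≠ g' x} := measure_mono fun x hx k => hx (h x k)

theorem iter_mp (h0 : MeasurePreserving T₀ μ μ) (U : FG μ T₀) (j : ℕ) (A : Set X) :
    μ (U.1^[j] ⁻¹' A) = μ A := by
  induction j generalizing A with
  | zero => rfl
  | succ j ih =>
    rw [Function.iterate_succ', preimage_comp, ih, (FG_mp h0 U).measure_preimage_equiv]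

theorem iter_le (h0 : MeasurePreserving T₀ μ μ) (S S' : FG μ T₀) (j : ℕ) :
    μ {x | S.1^[j] x ≠ S'.1^[j] x} ≤ j * edist S S' := by
  induction j with
  | zero => simp
  | succ j ih =>
    refine (tri _ (fun x => S.1 (S'.1^[j] x)) _).trans ?_
    rw [Nat.cast_succ, add_mul, one_mul]
    refine add_le_add (le_trans (mono_ne fun x h => ?_) ih) ?_
    · rw [Function.iterate_succ_apply', h]
    · simp only [Function.iterate_succ_apply']
      exact (iter_mp h0 S' j {x | S.1 x ≠ S'.1 x}).le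

theorem cont (h0 : MeasurePreserving T₀ μ μ) (V : FG μ T₀) (j : ℕ) :
    Continuous fun p : FG μ T₀ × FG μ T₀ => μ {x | p.1.1^[j] (V.1 x) ≠ V.1 (p.2.1^[j] x)} := by
  refine continuous_of_le_add_edist (2 * j) (by finiteness) fun p q => ?_
  refine (tri _ (fun x => q.1.1^[j] (V.1 x)) _).trans ?_
  refine (add_le_add_right (tri _ (fun x => V.1 (q.2.1^[j] x)) _) _).trans ?_
  have a1 : μ {x | p.1.1^[j] (V.1 x) ≠ q.1.1^[j] (V.1 x)} ≤ j * edist p q :=
    ((FG_mp h0 V).measure_preimage_equiv {x | p.1.1^[j] x ≠ q.1.1^[j] x}).le.trans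
      ((iter_le h0 _ _ j).trans (by gcongr; exact le_max_left _ _))
  have a2 : μ {x | V.1 (q.2.1^[j] x) ≠ V.1 (p.2.1^[j] x)} ≤ j * edist p q := by
    refine le_trans (mono_ne fun x h => congrArg _ h.symm)
      ((iter_le h0 p.2 q.2 j).trans (by gcongr; exact le_max_right _ _))
  calc _ ≤ j * edist p q + (μ {x | q.1.1^[j] (V.1 x) ≠ V.1 (q.2.1^[j] x)} + j * edist p q) := by
        gcongr
    _ = _ := by ring

theorem sep [IsProbabilityMeasure μ] (ε : ENNReal) (hε : ε ≠ 0) :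
    ∃ t : Set (FG μ T₀), t.Countable ∧ ∀ U, ∃ V ∈ t, edist U V ≤ 3 * ε := by
  classical
  obtain ⟨e, he⟩ := exists_surjective_nat ℤ
  obtain ⟨𝒜, hc, hd⟩ := exists_countable_measureDense μ
  obtain ⟨δ, hδ, hs⟩ := ENNReal.exists_pos_sum_of_countable hε ℕ
  let P : FG μ T₀ → ℕ → Set X := fun U k => {x | U.1 x = τ T₀ (e k) x}
  have mP : ∀ U k, MeasurableSet (P U k) := fun U k =>
    measurableSet_eq_fun U.1.measurable (τ_meas T₀ _)
  have h1 : ∀ U, ∃ N, μ (⋂ k < N, (P U k)ᶜ) ≤ ε := by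
    intro U
    have := tendsto_measure_iInter_atTop (μ := μ) (s := fun N => ⋂ k < N, (P U k)ᶜ)
      (fun N => (MeasurableSet.biInter (to_countable _)
        fun k _ => (mP U k).compl).nullMeasurableSet)
      (fun a b hab => biInter_subset_biInter_left fun k hk => lt_of_lt_of_le hk hab)
      ⟨0, measure_ne_top _ _⟩
    have e0 : (⋂ N, ⋂ k < N, (P U k)ᶜ) = ∅ := by
      refine eq_empty_of_forall_notMem fun x hx => ?_
      obtain ⟨n, hn⟩ := FG_R U x
      obtain ⟨k, rfl⟩ := he n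
      exact mem_iInter₂.1 (mem_iInter.1 hx (k + 1)) k (Nat.lt_succ_self k) hn
    rw [e0, measure_empty] at this
    exact (this.eventually (ge_mem_nhds (pos_iff_ne_zero.2 hε))).exists
  have h2 : ∀ U k, ∃ A : 𝒜, μ (P U k ∆ A) ≤ δ k := by
    intro U k
    obtain ⟨A, hA, h⟩ := hd.approx _ (mP U k) (measure_ne_top _ _) (δ k) (hδ k)
    exact ⟨⟨A, hA⟩, by simpa using h.le⟩
  choose N hN using h1
  choose A hA using h2
  have := hc.to_subtype
  let F : FG μ T₀ → (Σ n : ℕ, Fin n → 𝒜) := fun U => ⟨N U, fun k => A U k⟩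
  have key : ∀ U V, F U = F V → edist U V ≤ 3 * ε := by
    intro U V h
    have e1 : N U = N V := congrArg Sigma.fst h
    have e2 : ∀ k < N U, A U k = A V k := by
      intro k hk
      have := congrArg (fun s : (Σ n : ℕ, Fin n → 𝒜) =>
        if h : k < s.1 then s.2 ⟨k, h⟩ else A U k) h
      simpa [F, hk, e1 ▸ hk] using this
    have : {x | U.1 x ≠ V.1 x} ⊆ (⋂ k < N U, (P U k)ᶜ) ∪ ((⋃ k, P U k ∆ A U k) ∪
        ⋃ k, P V k ∆ A V k) := by
      intro x hx
      by_contra hn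
      simp only [mem_union, mem_iInter, mem_iUnion, not_or, not_forall, not_exists,
        mem_compl_iff, not_not, mem_symmDiff] at hn
      obtain ⟨⟨k, hk, h3⟩, h4, h5⟩ := hn
      have h6 : x ∈ (A U k : Set X) := by
        by_contra h; exact (h4 k).1 ⟨h3, h⟩
      rw [e2 k hk] at h6
      have h7 : x ∈ P V k := by
        by_contra h; exact (h5 k).2 ⟨h6, h⟩
      exact hx ((show U.1 x = _ from h3).trans (show V.1 x = _ from h7).symm)
    refine (measure_mono this).trans ((measure_union_le _ _).trans ?_)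
    have b : ∀ W, μ (⋃ k, P W k ∆ A W k) ≤ ε := fun W =>
      (measure_iUnion_le _).trans ((ENNReal.tsum_le_tsum (hA W)).trans hs.le)
    calc _ ≤ ε + (ε + ε) := add_le_add (hN U) ((measure_union_le _ _).trans (add_le_add (b U) (b V)))
      _ = _ := by ring
  exact ⟨range (rangeSplitting F), countable_range _, fun U =>
    ⟨_, ⟨⟨F U, mem_range_self U⟩, rfl⟩, key _ _ (apply_rangeSplitting F ⟨F U, _⟩).symm⟩⟩

theorem borel_pre [IsProbabilityMeasure μ] (h0 : MeasurePreserving T₀ μ μ) :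
    MeasurableSet[borel (FG μ T₀ × FG μ T₀)]
      {p | ∃ U : FG μ T₀, ∀ᵐ x ∂μ, p.1.1 x = U.1 (p.2.1 (U.1.symm x))} := by
  borelize (FG μ T₀ × FG μ T₀)
  let ε : ℕ → ENNReal := fun k => ENNReal.ofReal (1 / ((k : ℝ) + 1))
  choose t ht hd using fun k => sep (μ := μ) (T₀ := T₀) (ε k) (by
    simp only [ε, ne_eq, ENNReal.ofReal_eq_zero, not_le]; positivity)
  have : {p : FG μ T₀ × FG μ T₀ | ∃ U : FG μ T₀, ∀ᵐ x ∂μ, p.1.1 x = U.1 (p.2.1 (U.1.symm x))} =
      ⋂ k, ⋃ V ∈ t k, ⋂ j, {p | μ {x | p.1.1^[j] (V.1 x) ≠ V.1 (p.2.1^[j] x)} ≤ 6 * ε k} := by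
    ext ⟨S, T⟩
    simp only [mem_ofPred_eq, mem_iInter, mem_iUnion]
    constructor
    · rintro ⟨U, hU⟩ k
      obtain ⟨V, hV, hUV⟩ := hd k U
      refine ⟨V, hV, fun j => ?_⟩
      have a0 : μ {x | S.1 (U.1 x) ≠ U.1 (T.1 x)} = 0 := by
        have := ((FG_mp h0 U).measure_preimage_equiv {x | ¬ S.1 x = U.1 (T.1 (U.1.symm x))}).trans
          (ae_iff.1 hU)
        simpa using this
      have a1 : ∀ j, μ {x | S.1^[j] (U.1 x) ≠ U.1 (T.1^[j] x)} = 0 := by
        intro j
        induction j with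
        | zero => simp
        | succ j ih =>
          refine le_antisymm ((tri _ (fun x => S.1 (U.1 (T.1^[j] x))) _).trans ?_) zero_le
          have b1 : μ {x | S.1^[j + 1] (U.1 x) ≠ S.1 (U.1 (T.1^[j] x))} ≤ 0 :=
            le_trans (mono_ne fun x h => by
              rw [Function.iterate_succ_apply', h]) ih.le
          have b2 : μ {x | S.1 (U.1 (T.1^[j] x)) ≠ U.1 (T.1^[j + 1] x)} ≤ 0 := by
            simp only [Function.iterate_succ_apply']
            exact ((iter_mp h0 T j {x | S.1 (U.1 x) ≠ U.1 (T.1 x)}).trans a0).le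
          simpa using add_le_add b1 b2
      refine (tri _ (fun x => S.1^[j] (U.1 x)) _).trans ?_
      refine (add_le_add_right (tri _ (fun x => U.1 (T.1^[j] x)) _) _).trans ?_
      have c1 : μ {x | S.1^[j] (V.1 x) ≠ S.1^[j] (U.1 x)} ≤ 3 * ε k :=
        le_trans (mono_ne (f' := U.1) (g' := V.1) fun x h => congrArg _ h.symm) hUV
      have c2 : μ {x | U.1 (T.1^[j] x) ≠ V.1 (T.1^[j] x)} ≤ 3 * ε k :=
        (iter_mp h0 T j {x | U.1 x ≠ V.1 x}).le.trans hUV
      rw [a1, zero_add]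
      calc _ ≤ 3 * ε k + 3 * ε k := add_le_add c1 c2
        _ = _ := by ring
    · intro h
      choose V _ hV using h
      choose Γ hΓ hμ using fun k => partial_conj S T (V k) (6 * (1 / ((k : ℝ) + 1))) fun j =>
        ENNReal.toReal_le_of_le_ofReal (by positivity) ((hV k j).trans (by
          rw [ENNReal.ofReal_mul (by norm_num)]; simp [ε]))
      obtain ⟨Φ, h1, h2⟩ := exhaust h0 T.1.surjective S.1.surjective Γ hΓ _ (by
        have := ENNReal.tendsto_ofReal ((tendsto_one_div_add_atTop_nhds_zero_nat.const_mul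
          6).const_mul 4)
        simpa using this) hμ
      exact total h0 S T h1 h2
  rw [this]
  exact MeasurableSet.iInter fun k => MeasurableSet.biUnion (ht k) fun V _ =>
    (isClosed_iInter fun j => isClosed_le (cont h0 V j) continuous_const).measurableSet

theorem main [IsProbabilityMeasure μ] (h0 : MeasurePreserving T₀ μ μ) :
    MeasurableSet[borel (FullGroup μ T₀ × FullGroup μ T₀)] (Conj μ T₀) := by
  have h := borel_pre h0
  let q : FG μ T₀ × FG μ T₀ → FullGroup μ T₀ × FullGroup μ T₀ :=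
    Prod.map SeparationQuotient.mk SeparationQuotient.mk
  have hq : IsInducing q := SeparationQuotient.isInducing_mk.prodMap
    SeparationQuotient.isInducing_mk
  have hs : Function.Surjective q := SeparationQuotient.surjective_mk.prodMap
    SeparationQuotient.surjective_mk
  have hb : borel (FG μ T₀ × FG μ T₀) = (borel _).comap q := by
    rw [← borel_comap, ← hq.eq_induced]
  obtain ⟨E, hE, h2⟩ := hb.le _ h
  convert hE using 1
  rw [← image_preimage_eq E hs, h2]
  ext p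
  constructor
  · rintro ⟨S, T, U, h1, h2, h3⟩
    exact ⟨(S, T), ⟨U, h3⟩, Prod.ext h1 h2⟩
  · rintro ⟨⟨S, T⟩, ⟨U, h3⟩, rfl⟩
    exact ⟨S, T, U, rfl, rfl, h3⟩

end Pool.Agent.Lead.Fg3
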