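import Mathlib

namespace Pool.Agent.Lead.GW

open Set Filter Topology

variable {X : Type} (G : (X → ℝ) → X → ℝ)

structure Good : Prop where
  map : ∀ s ∈ Icc (0 : X → ℝ) 1, G s ∈ Icc (0 : X → ℝ) 1
  cont : ContinuousOn G (Icc 0 1)
  inc : ∀ s ∈ Icc (0 : X → ℝ) 1, ∀ s' ∈ Icc (0 : X → ℝ) 1, ∀ t ∈ Icc (0 : X → ℝ) 1,
    ∀ t' ∈ Icc (0 : X → ℝ) 1, s ≤ s' → s ≤ t → s' - s ≤ t' - t → G s' - G s ≤ G t' - G t

open Classical in
noncomputable def II (K : Set X) (b : X → ℝ) : ℕ → X → ℝ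
  | 0 => 0
  | n + 1 => fun x => if x ∈ K then G (II K b n) x else b x

noncomputable def MM (K : Set X) (b : X → ℝ) (x : X) : ℝ := ⨆ n, II G K b n x

variable {G} (hG : Good G) (K : Set X)
include hG

lemma Good.mono {s t : X → ℝ} (hs : s ∈ Icc (0 : X → ℝ) 1) (ht : t ∈ Icc (0 : X → ℝ) 1)
    (h : s ≤ t) : G s ≤ G t := by
  simpa using hG.inc s hs s hs s hs t ht le_rfl le_rfl (by simpa using h)

lemma II_mem {b : X → ℝ} (hb : b ∈ Icc (0 : X → ℝ) 1) (n : ℕ) :
    II G K b n ∈ Icc (0 : X → ℝ) 1 := by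
  induction n with
  | zero => exact ⟨le_rfl, zero_le_one⟩
  | succ n ih =>
    constructor <;> intro x <;> simp only [II] <;> split_ifs
    exacts [(hG.map _ ih).1 x, hb.1 x, (hG.map _ ih).2 x, hb.2 x]

lemma II_inc {b c : X → ℝ} (hb : b ∈ Icc (0 : X → ℝ) 1) (hc : c ∈ Icc (0 : X → ℝ) 1) (h : b ≤ c)
    (n : ℕ) : II G K b n ≤ II G K b (n + 1) ∧ II G K b n ≤ II G K c n ∧
      II G K b (n + 1) - II G K b n ≤ II G K c (n + 1) - II G K c n := by
  have m := II_mem hG K hb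
  have m' := II_mem hG K hc
  induction n with
  | zero =>
    refine ⟨(m 1).1, le_rfl, fun x => ?_⟩
    simp only [II, Pi.sub_apply]
    split_ifs
    exacts [le_rfl, sub_le_sub_right (h x) _]
  | succ n ih =>
    refine ⟨fun x => ?_, fun x => ?_, fun x => ?_⟩
    · rw [II, II]; simp only; split_ifs
      exacts [hG.mono (m _) (m _) ih.1 x, le_rfl]
    · rw [II, II]; simp only; split_ifs
      exacts [hG.mono (m _) (m' _) ih.2.1 x, h x]
    · have := hG.inc _ (m n) _ (m (n + 1)) _ (m' n) _ (m' (n + 1)) ih.1 ih.2.1 ih.2.2 x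
      simp only [Pi.sub_apply] at this ⊢
      rw [II, II.eq_2 _ _ _ n, II, II.eq_2 _ _ _ n]
      simp only
      split_ifs
      exacts [this, by simp]

lemma II_tendsto {b : X → ℝ} (hb : b ∈ Icc (0 : X → ℝ) 1) (x : X) :
    Tendsto (fun n => II G K b n x) atTop (𝓝 (MM G K b x)) :=
  tendsto_atTop_ciSup (monotone_nat_of_le_succ fun n => (II_inc hG K hb hb le_rfl n).1 x)
    ⟨1, by rintro _ ⟨n, rfl⟩; exact (II_mem hG K hb n).2 x⟩

lemma MM_mem {b : X → ℝ} (hb : b ∈ Icc (0 : X → ℝ) 1) : MM G K b ∈ Icc (0 : X → ℝ) 1 :=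
  ⟨fun x => ge_of_tendsto' (II_tendsto hG K hb x) fun n => (II_mem hG K hb n).1 x,
    fun x => le_of_tendsto' (II_tendsto hG K hb x) fun n => (II_mem hG K hb n).2 x⟩

lemma MM_mono {b c : X → ℝ} (hb : b ∈ Icc (0 : X → ℝ) 1) (hc : c ∈ Icc (0 : X → ℝ) 1)
    (h : b ≤ c) : MM G K b ≤ MM G K c := fun x =>
  le_of_tendsto_of_tendsto' (II_tendsto hG K hb x) (II_tendsto hG K hc x)
    fun n => (II_inc hG K hb hc h n).2.1 x

lemma G_tendsto {u : ℕ → X → ℝ} {v : X → ℝ} (hu : ∀ n, u n ∈ Icc (0 : X → ℝ) 1)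
    (h : ∀ x, Tendsto (fun n => u n x) atTop (𝓝 (v x))) (x : X) :
    Tendsto (fun n => G (u n) x) atTop (𝓝 (G v x)) := by
  have h1 := tendsto_pi_nhds.2 h
  exact tendsto_pi_nhds.1 ((hG.cont v (isClosed_Icc.mem_of_tendsto h1
    (Eventually.of_forall hu))).tendsto.comp
    (tendsto_nhdsWithin_iff.2 ⟨h1, Eventually.of_forall hu⟩)) x

lemma MM_in {b : X → ℝ} (hb : b ∈ Icc (0 : X → ℝ) 1) {x : X} (hx : x ∈ K) :
    G (MM G K b) x = MM G K b x := by
  refine tendsto_nhds_unique (G_tendsto hG (II_mem hG K hb) (II_tendsto hG K hb) x) ?_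
  simpa only [II, if_pos hx] using (tendsto_add_atTop_iff_nat 1).2 (II_tendsto hG K hb x)

lemma MM_out {b : X → ℝ} (hb : b ∈ Icc (0 : X → ℝ) 1) {x : X} (hx : x ∉ K) :
    MM G K b x = b x := by
  refine tendsto_nhds_unique ?_ (tendsto_const_nhds (f := atTop (α := ℕ)))
  simpa only [II, if_neg hx] using (tendsto_add_atTop_iff_nat 1).2 (II_tendsto hG K hb x)

lemma MM_cont : ContinuousOn (MM G K) (Icc 0 1) := by
  have one : (1 : X → ℝ) ∈ Icc (0 : X → ℝ) 1 := ⟨zero_le_one, le_rfl⟩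
  have c1 : ∀ n, ContinuousOn (fun b => II G K b n) (Icc 0 1) := fun n => by
    induction n with
    | zero => exact continuousOn_const
    | succ n ih =>
      refine continuousOn_pi.2 fun x => ?_
      simp only [II]
      split_ifs
      · exact continuousOn_pi.1 (hG.cont.comp ih fun b hb => II_mem hG K hb n) x
      · exact (continuous_apply x).continuousOn
  refine continuousOn_pi.2 fun x => TendstoUniformlyOn.continuousOn (p := atTop)
    (F := fun n b => II G K b n x) ?_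
    (Eventually.of_forall fun n => continuousOn_pi.1 (c1 n) x).frequently
  rw [Metric.tendstoUniformlyOn_iff]
  intro ε hε
  filter_upwards [Metric.tendsto_nhds.1 (II_tendsto hG K one x) ε hε] with n hn b hb
  have h1 : Monotone fun n => II G K 1 n x - II G K b n x := monotone_nat_of_le_succ fun n => by
    have := (II_inc hG K hb one hb.2 n).2.2 x
    simp only [Pi.sub_apply] at this
    linarith
  have h2 := h1.ge_of_tendsto ((II_tendsto hG K one x).sub (II_tendsto hG K hb x)) n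
  have h3 := (monotone_nat_of_le_succ fun n => (II_inc hG K hb hb le_rfl n).1 x).ge_of_tendsto
    (II_tendsto hG K hb x) n
  rw [Real.dist_eq, abs_lt] at hn ⊢
  constructor <;> linarith [hn.1]

lemma MM_eq {u : ℕ → X → ℝ} {v : X → ℝ} (hu : ∀ n, u n ∈ Icc (0 : X → ℝ) 1)
    (h : ∀ x, Tendsto (fun n => u n x) atTop (𝓝 (v x))) (hle : ∀ n, u n ≤ v)
    (hs : ∀ n, u (n + 1) = G (u n)) (h0 : ∀ x ∈ K, u 0 x = 0) : MM G K v = v := by
  have hv := isClosed_Icc.mem_of_tendsto (tendsto_pi_nhds.2 h) (Eventually.of_forall hu)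
  have fx : ∀ x, G v x = v x := fun x => tendsto_nhds_unique (G_tendsto hG hu h x)
    (by simpa only [hs] using (tendsto_add_atTop_iff_nat 1).2 (h x))
  have a : ∀ n, II G K v n ≤ v := fun n => by
    induction n with
    | zero => exact hv.1
    | succ n ih =>
      intro x
      simp only [II]
      split_ifs
      exacts [(hG.mono (II_mem hG K hv n) hv ih x).trans (fx x).le, le_rfl]
  have b : ∀ n, u n ≤ MM G K v := fun n => by
    induction n with
    | zero =>
      intro x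
      by_cases hx : x ∈ K
      exacts [(h0 x hx).trans_le ((MM_mem hG K hv).1 x), (hle 0 x).trans (MM_out hG K hv hx).ge]
    | succ n ih =>
      intro x
      by_cases hx : x ∈ K
      · rw [hs, ← MM_in hG K hv hx]
        exact hG.mono (hu n) (MM_mem hG K hv) ih x
      · exact (hle _ x).trans (MM_out hG K hv hx).ge
  exact le_antisymm (fun x => le_of_tendsto' (II_tendsto hG K hv x) fun n => a n x)
    fun x => le_of_tendsto' (h x) fun n => b n x

omit K in
theorem card_fix [Countable X] {q r : X → ℝ} (hq : q ∈ Icc (0 : X → ℝ) 1)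
    (hr : r ∈ Icc (0 : X → ℝ) 1) (hle : q ≤ r) (hne : q ≠ r) (A : ℕ → Set X) (hA : Monotone A)
    (hU : ∀ x, ∃ k, x ∈ A k) (h1 : ∀ k, MM G (A k) q = q) (h2 : ∀ k, MM G (A k) r = r) :
    Cardinal.mk {s : X → ℝ | s ∈ Icc (0 : X → ℝ) 1 ∧ G s = s ∧ q ≤ s ∧ s ≤ r} =
      Cardinal.continuum := by
  refine le_antisymm ((Cardinal.mk_set_le _).trans ?_) ?_
  · rw [← Cardinal.power_def, Cardinal.mk_real, ← Cardinal.continuum_power_aleph0]
    nth_rewrite 2 [Cardinal.continuum_power_aleph0]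
    rw [Cardinal.continuum_power_aleph0]
    exact (Cardinal.power_le_power_left Cardinal.continuum_ne_zero Cardinal.mk_le_aleph0).trans
      Cardinal.continuum_power_aleph0.le
  obtain ⟨x0, hx0⟩ := Function.ne_iff.1 hne
  rw [← Cardinal.mk_Icc_real (lt_of_le_of_ne (hle x0) hx0)]
  refine le_trans (Cardinal.mk_le_mk_of_subset fun c hc => ?_)
    (Cardinal.mk_image_le (f := fun s : X → ℝ => s x0))
  have sub : Icc q r ⊆ Icc (0 : X → ℝ) 1 := Icc_subset_Icc hq.1 hr.2
  let C : ℕ → Set (X → ℝ) := fun k => {s | s ∈ Icc q r ∧ s x0 = c ∧ ∀ x ∈ A k, G s x = s x}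
  have cl : ∀ k, IsClosed (C k) := fun k => by
    have : C k = (Icc q r ∩ {s | s x0 = c}) ∩ ⋂ x ∈ A k,
        (Icc q r ∩ (fun s => G s x - s x) ⁻¹' {0}) := by
      ext s
      simp only [C, mem_inter_iff, mem_iInter, mem_preimage, mem_singleton_iff, sub_eq_zero,
        mem_ofPred_eq]
      exact ⟨fun h => ⟨⟨h.1, h.2.1⟩, fun x hx => ⟨h.1, h.2.2 x hx⟩⟩,
        fun h => ⟨h.1.1, h.1.2, fun x hx => (h.2 x hx).2⟩⟩
    rw [this]
    exact (isClosed_Icc.inter (isClosed_eq (continuous_apply x0) continuous_const)).inter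
      (isClosed_biInter fun x _ => ContinuousOn.preimage_isClosed_of_isClosed
        ((continuousOn_pi.1 (hG.cont.mono sub) x).sub (continuous_apply x).continuousOn)
        isClosed_Icc isClosed_singleton)
  have ne : ∀ k, (C k).Nonempty := fun k => by
    have mem : ∀ θ ∈ Icc (0 : ℝ) 1, q + θ • (r - q) ∈ Icc q r := fun θ hθ =>
      (convex_Icc q r).add_smul_sub_mem ⟨le_rfl, hle⟩ ⟨hle, le_rfl⟩ hθ
    have := intermediate_value_Icc zero_le_one (f := fun θ : ℝ => MM G (A k) (q + θ • (r - q)) x0)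
      (continuousOn_pi.1 ((MM_cont hG (A k)).comp (by fun_prop) fun θ hθ => sub (mem θ hθ)) x0)
    simp only [zero_smul, add_zero, one_smul, add_sub_cancel, h1, h2] at this
    obtain ⟨θ, hθ, e⟩ := this hc
    exact ⟨_, ⟨(h1 k).ge.trans (MM_mono hG _ hq (sub (mem θ hθ)) (mem θ hθ).1),
      (MM_mono hG _ (sub (mem θ hθ)) hr (mem θ hθ).2).trans (h2 k).le⟩, e,
      fun x hx => MM_in hG _ (sub (mem θ hθ)) hx⟩
  obtain ⟨s, hs⟩ := IsCompact.nonempty_iInter_of_sequence_nonempty_isCompact_isClosed C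
    (fun k s hs => ⟨hs.1, hs.2.1, fun x hx => hs.2.2 x (hA k.le_succ hx)⟩) ne
    (isCompact_Icc.of_isClosed_subset (cl 0) fun s hs => hs.1) cl
  have hs' := mem_iInter.1 hs
  exact ⟨s, ⟨sub (hs' 0).1, funext fun x => (hU x).elim fun k hk => (hs' k).2.2 x hk,
    (hs' 0).1.1, (hs' 0).1.2⟩, (hs' 0).2.1⟩

end Pool.Agent.Lead.GW
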