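import Pool.Agent.Lead.GWDefs
import Pool.Agent.Lead.GW1

namespace Pool.Agent.Lead.GW

open Set Filter Topology MeasureTheory

variable {X : Type}

noncomputable def mono (s : X → ℝ) (z : X →₀ ℕ) : ℝ := z.prod fun y k => s y ^ k

lemma mono_add (s : X → ℝ) (f g : X →₀ ℕ) : mono s (f + g) = mono s f * mono s g :=
  Finsupp.prod_add_index' (fun _ => pow_zero _) fun _ _ _ => pow_add _ _ _

lemma mono_single (s : X → ℝ) (y : X) (k : ℕ) : mono s (Finsupp.single y k) = s y ^ k :=
  Finsupp.prod_single_index (pow_zero _)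

lemma mono_list (s : X → ℝ) (z : X →₀ ℕ) :
    mono s z = ((Finsupp.toMultiset z).toList.map s).prod := by
  rw [Multiset.prod_map_toList]
  induction z using Finsupp.induction_linear with
  | zero => simp [mono]
  | add f g hf hg => rw [mono_add, hf, hg, map_add, Multiset.map_add, Multiset.prod_add]
  | single y k => simp [mono_single, Multiset.map_nsmul, Multiset.prod_nsmul]

lemma list_inc (l : List X) {s s' t t' : X → ℝ} (hs : 0 ≤ s) (h1 : s ≤ s') (h2 : s ≤ t)
    (h3 : s' - s ≤ t' - t) : 0 ≤ (l.map s).prod ∧ (l.map s).prod ≤ (l.map s').prod ∧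
      (l.map s).prod ≤ (l.map t).prod ∧
      (l.map s').prod - (l.map s).prod ≤ (l.map t').prod - (l.map t).prod := by
  induction l with
  | nil => simp
  | cons a l ih =>
    obtain ⟨i0, i1, i2, i3⟩ := ih
    have a0 : 0 ≤ s a := hs a
    have a1 : s a ≤ s' a := h1 a
    have a2 : s a ≤ t a := h2 a
    have a3 : s' a - s a ≤ t' a - t a := h3 a
    simp only [List.map_cons, List.prod_cons]
    refine ⟨mul_nonneg a0 i0, mul_le_mul a1 i1 i0 (a0.trans a1), mul_le_mul a2 i2 i0 (a0.trans a2),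
      ?_⟩
    have b1 := mul_le_mul (show s' a ≤ t' a by linarith) i3 (by linarith) (by linarith)
    have b2 := mul_le_mul a3 i2 i0 (by linarith)
    linarith

lemma mono_mem {s : X → ℝ} (hs : s ∈ Icc (0 : X → ℝ) 1) (z : X →₀ ℕ) :
    0 ≤ mono s z ∧ mono s z ≤ 1 :=
  ⟨Finset.prod_nonneg fun y _ => pow_nonneg (hs.1 y) _, Finset.prod_le_one
    (fun y _ => pow_nonneg (hs.1 y) _) fun y _ => pow_le_one₀ (hs.1 y) (hs.2 y)⟩

variable (μ : X → PMF (X →₀ ℕ))

lemma w_sum (x : X) : HasSum (fun f => (μ x f).toReal) 1 := by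
  have := ENNReal.hasSum_toReal (f := μ x) (by simp)
  rwa [← ENNReal.tsum_toReal_eq fun f => (μ x).apply_ne_top f, PMF.tsum_coe] at this

lemma gen_summable {s : X → ℝ} (hs : s ∈ Icc (0 : X → ℝ) 1) (x : X) :
    Summable fun f => (μ x f).toReal * mono s f :=
  Summable.of_nonneg_of_le (fun f => mul_nonneg ENNReal.toReal_nonneg (mono_mem hs f).1)
    (fun f => mul_le_of_le_one_right ENNReal.toReal_nonneg (mono_mem hs f).2) (w_sum μ x).summable

lemma good : Good (gen μ) where
  map s hs := ⟨fun x => tsum_nonneg fun f => mul_nonneg ENNReal.toReal_nonneg (mono_mem hs f).1,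
    fun x => hasSum_le (fun f => mul_le_of_le_one_right ENNReal.toReal_nonneg (mono_mem hs f).2)
      (gen_summable μ hs x).hasSum (w_sum μ x)⟩
  cont := continuousOn_pi.2 fun x => continuousOn_tsum (u := fun f => (μ x f).toReal)
    (fun f => (continuous_const.mul (continuous_finsetProd _ fun y _ =>
      (continuous_apply y).pow _)).continuousOn) (w_sum μ x).summable fun f s hs => by
      exact (Real.norm_of_nonneg (mul_nonneg ENNReal.toReal_nonneg (mono_mem hs f).1)).trans_le
        (mul_le_of_le_one_right ENNReal.toReal_nonneg (mono_mem hs f).2)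
  inc s hs s' hs' t ht t' ht' h1 h2 h3 x := by
    refine hasSum_le (fun f => ?_) ((gen_summable μ hs' x).hasSum.sub (gen_summable μ hs x).hasSum)
      ((gen_summable μ ht' x).hasSum.sub (gen_summable μ ht x).hasSum)
    rw [← mul_sub, ← mul_sub]
    simp only [mono_list]
    exact mul_le_mul_of_nonneg_left (list_inc _ hs.1 h1 h2 h3).2.2.2 ENNReal.toReal_nonneg

lemma tsum_bind {α β : Type} (p : PMF α) (k : α → PMF β) (φ : β → ENNReal) :
    ∑' g, (p.bind k) g * φ g = ∑' a, p a * ∑' g, k a g * φ g := by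
  simp only [PMF.bind_apply, ← ENNReal.tsum_mul_right, ← ENNReal.tsum_mul_left, mul_assoc]
  exact ENNReal.tsum_comm

lemma tsum_pure {β : Type} (a : β) (φ : β → ENNReal) : ∑' g, (PMF.pure a) g * φ g = φ a := by
  rw [tsum_eq_single a fun b hb => by simp [PMF.pure_apply, hb]]
  simp

lemma brood_gen {s : X → ℝ} (hs : s ∈ Icc (0 : X → ℝ) 1) (l : List X) :
    ∑' g, brood μ l g * ENNReal.ofReal (mono s g) = ENNReal.ofReal (l.map (gen μ s)).prod := by
  induction l with
  | nil => simp [brood, mono]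
  | cons x l ih =>
    rw [brood, tsum_bind, List.map_cons, List.prod_cons,
      ENNReal.ofReal_mul (((good μ).map s hs).1 x), ← ih,
      show gen μ s x = ∑' f, (μ x f).toReal * mono s f from rfl, ENNReal.ofReal_tsum_of_nonneg
      (fun f => mul_nonneg ENNReal.toReal_nonneg (mono_mem hs f).1) (gen_summable μ hs x),
      ← ENNReal.tsum_mul_right]
    refine tsum_congr fun f => ?_
    rw [ENNReal.ofReal_mul ENNReal.toReal_nonneg, ENNReal.ofReal_toReal ((μ x).apply_ne_top f),
      mul_assoc, PMF.map, tsum_bind]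
    congr 1
    rw [← ENNReal.tsum_mul_left]
    refine tsum_congr fun g => ?_
    rw [Function.comp, tsum_pure, mono_add, ENNReal.ofReal_mul (mono_mem hs f).1]
    ring

open Classical in
noncomputable def VV : ℕ → (ℕ → Set X) → X → ℝ
  | 0, _ => 1
  | m + 1, B => fun x => if x ∈ B 0 then 0 else gen μ (VV m fun k => B (k + 1)) x

lemma VV_mem (m : ℕ) (B : ℕ → Set X) : VV μ m B ∈ Icc (0 : X → ℝ) 1 := by
  induction m generalizing B with
  | zero => exact ⟨zero_le_one, le_rfl⟩
  | succ m ih =>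
    constructor <;> intro x <;> simp only [VV] <;> split_ifs
    exacts [le_rfl, ((good μ).map _ (ih _)).1 x, zero_le_one, ((good μ).map _ (ih _)).2 x]

lemma ms (i : ℕ) (p : (X →₀ ℕ) → Prop) : MeasurableSet {ω : ℕ → X →₀ ℕ | p (ω i)} :=
  MeasurableSet.preimage (t := {z | p z}) (f := fun ω : ℕ → X →₀ ℕ => ω i)
    MeasurableSpace.measurableSet_top (measurable_pi_apply i)

lemma ms' (q : ℕ → Prop) (i : ℕ → ℕ) (p : ℕ → (X →₀ ℕ) → Prop) :
    MeasurableSet {ω : ℕ → X →₀ ℕ | ∀ m, q m → p m (ω (i m))} := by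
  simp only [ofPred_forall]
  exact MeasurableSet.iInter fun m => MeasurableSet.iInter fun _ => ms _ _

variable {μ} [Countable X]

lemma cyl {x : X} {P : Measure (ℕ → X →₀ ℕ)} (hP : IsLaw μ x P) (m : ℕ) (B : ℕ → Set X)
    (h : ℕ → X →₀ ℕ) (j : ℕ) :
    P ({ω | ∀ i ≤ j, ω i = h i} ∩ {ω | ∀ k < m, ∀ y ∈ B k, ω (j + k) y = 0}) =
      P {ω | ∀ i ≤ j, ω i = h i} * ENNReal.ofReal (mono (VV μ m B) (h j)) := by
  classical
  induction m generalizing B h j with
  | zero => simp [VV, mono]
  | succ m ih =>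
    by_cases hB : ∀ y ∈ B 0, h j y = 0
    · have e1 : mono (VV μ (m + 1) B) (h j) = mono (gen μ (VV μ m fun k => B (k + 1))) (h j) :=
        Finset.prod_congr rfl fun y hy => by
          rw [VV]; simp only
          rw [if_neg fun hy' => Finsupp.mem_support_iff.1 hy (hB y hy')]
      have hu : ∀ g, ∀ i ≤ j, Function.update h (j + 1) g i = h i := fun g i hi =>
        Function.update_of_ne (by omega) _ _
      have e2 : {ω : ℕ → X →₀ ℕ | ∀ i ≤ j, ω i = h i} ∩
          {ω | ∀ k < m + 1, ∀ y ∈ B k, ω (j + k) y = 0} =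
          ⋃ g, ({ω | ∀ i ≤ j + 1, ω i = Function.update h (j + 1) g i} ∩
            {ω | ∀ k < m, ∀ y ∈ B (k + 1), ω (j + 1 + k) y = 0}) := by
        ext ω
        simp only [mem_inter_iff, mem_iUnion, mem_ofPred_eq]
        constructor
        · rintro ⟨a, b⟩
          refine ⟨ω (j + 1), fun i hi => ?_, fun k hk => ?_⟩
          · rcases Nat.of_le_succ hi with hi | rfl
            · rw [hu _ _ hi, a i hi]
            · simp
          · rw [add_assoc, add_comm 1]; exact b (k + 1) (by omega)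
        · rintro ⟨g, a, b⟩
          have a' : ∀ i ≤ j, ω i = h i := fun i hi => (a i (by omega)).trans (hu g i hi)
          refine ⟨a', fun k hk => ?_⟩
          cases k with
          | zero => rw [add_zero, a' j le_rfl]; exact hB
          | succ k => rw [add_comm k, ← add_assoc]; simpa only [add_comm 1 k] using b k (by omega)
      rw [e1, e2, measure_iUnion, mono_list, ← brood_gen μ (VV_mem μ _ _), ← ENNReal.tsum_mul_left]
      · refine tsum_congr fun g => ?_
        rw [ih, hP.2.2, Function.update_self, hu g j le_rfl, mul_assoc, step]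
        congr 2
        exact Set.ext fun ω => forall₂_congr fun i hi => by rw [hu g i hi]
      · intro g g' hg
        refine disjoint_left.2 fun ω a b => hg ?_
        simpa using (a.1 (j + 1) le_rfl).symm.trans (b.1 (j + 1) le_rfl)
      · exact fun g => (ms' _ id fun i z => z = _).inter
          (ms' _ _ fun k z => ∀ y ∈ B (k + 1), z y = 0)
    · push Not at hB
      obtain ⟨y, hy, hz⟩ := hB
      rw [eq_empty_of_forall_notMem (s := _ ∩ _) fun ω a => hz (by
        rw [← a.1 j le_rfl]; exact a.2 0 (by omega) y hy), measure_empty,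
        show mono (VV μ (m + 1) B) (h j) = 0 from Finset.prod_eq_zero
          (Finsupp.mem_support_iff.2 hz) (by simp [VV, hy, hz])]
      simp

lemma win {x : X} {P : Measure (ℕ → X →₀ ℕ)} (hP : IsLaw μ x P) (m : ℕ) (B : ℕ → Set X) :
    P.real {ω | ∀ k < m, ∀ y ∈ B k, ω k y = 0} = VV μ m B x := by
  have := hP.1
  have h := cyl hP m B (fun _ => Finsupp.single x 1) 0
  simp only [Nat.le_zero, forall_eq, zero_add, hP.2.1, one_mul, mono_single, pow_one] at h
  have h1 : ∀ᵐ ω ∂P, ω ∈ {ω : ℕ → X →₀ ℕ | ω 0 = Finsupp.single x 1} :=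
    (mem_ae_iff_prob_eq_one (ms 0 fun z => z = Finsupp.single x 1)).2 hP.2.1
  rw [Measure.measure_inter_eq_of_ae h1] at h
  rw [Measure.real, h, ENNReal.toReal_ofReal ((VV_mem μ m B).1 x)]

lemma real_tendsto {Ω : Type} [MeasurableSpace Ω] {P : Measure Ω} [IsProbabilityMeasure P]
    {s : ℕ → Set Ω} {t : Set Ω} (h : Tendsto (P ∘ s) atTop (𝓝 (P t))) :
    Tendsto (fun n => P.real (s n)) atTop (𝓝 (P.real t)) :=
  (ENNReal.tendsto_toReal (measure_ne_top _ _)).comp h

lemma MM_Q {P : X → Measure (ℕ → X →₀ ℕ)} (hP : ∀ x, IsLaw μ x (P x)) {K A : Set X} (hK : K ⊆ A) :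
    MM (gen μ) K (fun x => (P x).real {ω | ∀ᶠ n in atTop, ∀ y ∈ A, ω n y = 0}) =
      fun x => (P x).real {ω | ∀ᶠ n in atTop, ∀ y ∈ A, ω n y = 0} := by
  have := fun x => (hP x).1
  let B : ℕ → ℕ → Set X := fun n k => {y | n ≤ k ∧ y ∈ A}
  let u : ℕ → X → ℝ := fun n x => (P x).real {ω | ∀ k, n ≤ k → ∀ y ∈ A, ω k y = 0}
  have lim : ∀ n x, Tendsto (fun m => VV μ m (B n) x) atTop (𝓝 (u n x)) := fun n x => by
    simp only [← win (hP x)]
    refine real_tendsto ?_
    convert tendsto_measure_iInter_atTop (μ := P x)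
      (s := fun m => {ω | ∀ k < m, ∀ y ∈ B n k, ω k y = 0}) (fun m => (ms' _ id fun k z =>
        ∀ y ∈ B n k, z y = 0).nullMeasurableSet) (fun a b hab ω h k hk => h k (by omega))
        ⟨0, measure_ne_top _ _⟩ using 3
    ext ω
    simp only [mem_iInter, mem_ofPred_eq, B]
    exact ⟨fun h m k _ y hy => h k hy.1 y hy.2, fun h k hk y hy => h (k + 1) k (by omega) y ⟨hk, hy⟩⟩
  have e : {ω : ℕ → X →₀ ℕ | ∀ᶠ n in atTop, ∀ y ∈ A, ω n y = 0} =
      ⋃ n, {ω | ∀ k, n ≤ k → ∀ y ∈ A, ω k y = 0} := by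
    ext ω; simp [eventually_atTop]
  refine MM_eq (good μ) K (u := u) (fun n => ⟨fun x => measureReal_nonneg,
    fun x => measureReal_le_one⟩) (fun x => real_tendsto ?_)
    (fun n x => measureReal_mono (e ▸ subset_iUnion
      (fun n => {ω : ℕ → X →₀ ℕ | ∀ k, n ≤ k → ∀ y ∈ A, ω k y = 0}) n)) (fun n => funext fun x => ?_)
    fun x hx => ?_
  · rw [e]
    exact tendsto_measure_iUnion_atTop fun a b hab ω h k hk => h k (hab.trans hk)
  · refine tendsto_nhds_unique ((tendsto_add_atTop_iff_nat 1).2 (lim (n + 1) x)) ?_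
    simpa [VV, B] using G_tendsto (good μ) (fun m => VV_mem μ m (B n)) (lim n) x
  · refine tendsto_nhds_unique ((tendsto_add_atTop_iff_nat 1).2 (lim 0 x)) ?_
    simp [VV, B, hK hx]

theorem main {P : X → Measure (ℕ → X →₀ ℕ)} (hP : ∀ x, IsLaw μ x (P x)) {q r : X → ℝ}
    (hq : ∀ x, q x = (P x).real {ω | ∀ᶠ n in atTop, ω n = 0})
    (hr : ∀ x, r x = (P x).real {ω | ∀ y, ∀ᶠ n in atTop, ω n y = 0}) (hne : q ≠ r) :
    Cardinal.mk {s : X → ℝ | s ∈ Icc (0 : X → ℝ) 1 ∧ gen μ s = s ∧ q ≤ s ∧ s ≤ r} =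
      Cardinal.continuum := by
  have := fun x => (hP x).1
  obtain rfl := funext hq
  obtain rfl := funext hr
  obtain ⟨e, he⟩ := exists_injective_nat X
  have mem : ∀ E : Set (ℕ → X →₀ ℕ), (fun x => (P x).real E) ∈ Icc (0 : X → ℝ) 1 := fun E =>
    ⟨fun x => measureReal_nonneg, fun x => measureReal_le_one⟩
  have fin : ∀ k, {y | e y < k}.Finite := fun k => (finite_Iio k).preimage he.injOn
  refine card_fix (good μ) (mem _) (mem _) (fun x => measureReal_mono fun ω h y =>
    Eventually.mono h fun n hn => by simp [hn]) hne (fun k => {y | e y < k})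
    (fun a b hab y (hy : e y < a) => hy.trans_le hab) (fun x => ⟨e x + 1, Nat.lt_succ_self _⟩)
    (fun k => ?_) fun k => ?_
  · simpa only [mem_univ, forall_true_left, Finsupp.ext_iff, Finsupp.coe_zero, Pi.zero_apply]
      using MM_Q hP (subset_univ {y | e y < k})
  · have lim : Tendsto (fun l x => (P x).real {ω | ∀ᶠ n in atTop, ∀ y ∈ {y | e y < l}, ω n y = 0})
        atTop (𝓝 fun x => (P x).real {ω | ∀ y, ∀ᶠ n in atTop, ω n y = 0}) := by
      refine tendsto_pi_nhds.2 fun x => real_tendsto ?_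
      convert tendsto_measure_iInter_atTop (μ := P x)
        (s := fun l => {ω | ∀ᶠ n in atTop, ∀ y ∈ {y | e y < l}, ω n y = 0}) (fun l => ?_)
        (fun a b hab ω h => Eventually.mono h fun n hn y (hy : e y < a) => hn y (hy.trans_le hab))
        ⟨0, measure_ne_top _ _⟩ using 3
      · ext ω
        simp only [mem_iInter, mem_ofPred_eq]
        exact ⟨fun h l => (eventually_all_finite (fin l)).2 fun y _ => h y,
          fun h y => (h (e y + 1)).mono fun n hn => hn y (Nat.lt_succ_self _)⟩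
      · simp only [eventually_atTop, ofPred_exists]
        exact (MeasurableSet.iUnion fun n => ms' _ id fun _ z =>
          ∀ y ∈ {y | e y < l}, z y = 0).nullMeasurableSet
    refine tendsto_nhds_unique ((MM_cont (good μ) _ _ (mem _)).tendsto.comp
      (tendsto_nhdsWithin_iff.2 ⟨lim, Eventually.of_forall fun l => mem _⟩)) (lim.congr' ?_)
    filter_upwards [eventually_ge_atTop k] with l hl
    exact (MM_Q hP fun y (hy : e y < k) => hy.trans_le hl).symm

end Pool.Agent.Lead.GW
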