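import Mathlib

namespace Pool.Agent.Lead.GW

open MeasureTheory

variable {X : Type}

/-- generating function of the offspring laws -/
noncomputable def gen (μ : X → PMF (X →₀ ℕ)) (s : X → ℝ) (x : X) : ℝ :=
  ∑' f : X →₀ ℕ, (μ x f).toReal * f.prod fun y k => s y ^ k

/-- law of the total offspring of a list of individuals reproducing independently -/
noncomputable def brood (μ : X → PMF (X →₀ ℕ)) : List X → PMF (X →₀ ℕ)
  | [] => PMF.pure 0
  | x :: l => (μ x).bind fun f => (brood μ l).map fun g => f + g

/-- law of the next generation given the current one, z y being the number of individuals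
of type y -/
noncomputable def step (μ : X → PMF (X →₀ ℕ)) (z : X →₀ ℕ) : PMF (X →₀ ℕ) :=
  brood μ (Finsupp.toMultiset z).toList

instance popMeasurable : MeasurableSpace (X →₀ ℕ) := ⊤

/-- P is the law of the generations of the process started from one individual of type x -/
def IsLaw (μ : X → PMF (X →₀ ℕ)) (x : X) (P : Measure (ℕ → X →₀ ℕ)) : Prop :=
  IsProbabilityMeasure P ∧ P {ω | ω 0 = Finsupp.single x 1} = 1 ∧
    ∀ (h : ℕ → X →₀ ℕ) (n : ℕ), P {ω | ∀ m ≤ n + 1, ω m = h m} =
      P {ω | ∀ m ≤ n, ω m = h m} * step μ (h n) (h (n + 1))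

end Pool.Agent.Lead.GW
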