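import Pool.Agent.Lead.Gro1

namespace Pool.Agent.Lead.Gro

open Set Topology Filter

theorem lsc_tsum {X I : Type} [TopologicalSpace X] {v : I → X → ℝ} (h0 : ∀ i x, 0 ≤ v i x)
    (hc : ∀ i, Continuous (v i)) (hs : ∀ x, Summable fun i => v i x) (x0 : X) {y : ℝ}
    (hy : y < ∑' i, v i x0) : ∀ᶠ x in 𝓝 x0, y < ∑' i, v i x := by
  obtain ⟨F, hF⟩ := ((hs x0).hasSum.eventually (lt_mem_nhds hy)).exists
  have h1 : Continuous fun x => ∑ i ∈ F, v i x := continuous_finsetSum _ fun i _ => hc i
  filter_upwards [(isOpen_lt continuous_const h1).mem_nhds hF] with x hx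
  exact lt_of_lt_of_le hx ((hs x).sum_le_tsum F fun i _ => h0 i x)

theorem dom {X I : Type} [TopologicalSpace X] {v w : I → X → ℝ} (h0 : ∀ i x, 0 ≤ w i x)
    (h1 : ∀ i x, w i x ≤ v i x) (hw : ∀ i, Continuous (w i)) (hv : ∀ i, Continuous (v i))
    (hs : ∀ x, Summable fun i => v i x) (hc : Continuous fun x => ∑' i, v i x) :
    Continuous fun x => ∑' i, w i x := by
  have hsw : ∀ x, Summable fun i => w i x := fun x =>
    Summable.of_nonneg_of_le (fun i => h0 i x) (fun i => h1 i x) (hs x)
  have hsr : ∀ x, Summable fun i => v i x - w i x := fun x => (hs x).sub (hsw x)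
  rw [continuous_iff_continuousAt]
  intro x0
  rw [ContinuousAt, tendsto_order]
  refine ⟨fun y hy => lsc_tsum h0 hw hsw x0 hy, fun y hy => ?_⟩
  obtain ⟨η, hη⟩ : ∃ η, η = (y - ∑' i, w i x0) / 2 := ⟨_, rfl⟩
  have hη0 : 0 < η := by rw [hη]; linarith
  have h2 := lsc_tsum (v := fun i x => v i x - w i x) (fun i x => sub_nonneg.2 (h1 i x))
    (fun i => (hv i).sub (hw i)) hsr x0 (y := (∑' i, (v i x0 - w i x0)) - η) (by linarith)
  have h3 : ∀ᶠ x in 𝓝 x0, ∑' i, v i x < (∑' i, v i x0) + η :=
    hc.continuousAt.eventually (gt_mem_nhds (by linarith))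
  filter_upwards [h2, h3] with x h4 h5
  rw [(hs x).tsum_sub (hsw x), (hs x0).tsum_sub (hsw x0)] at h4
  linarith

/-- supremum of a nonnegative family over a set of indices -/
noncomputable def U {I : Type} (F : I → ℝ) (J : Set I) : ℝ := sSup (insert 0 (F '' J))

theorem U_bdd {I : Type} {F : I → ℝ} (hb : BddAbove (range F)) (J : Set I) :
    BddAbove (insert 0 (F '' J)) := (hb.mono (image_subset_range _ _)).insert _

theorem U_nonneg {I : Type} {F : I → ℝ} (hb : BddAbove (range F)) (J : Set I) : 0 ≤ U F J :=
  le_csSup (U_bdd hb J) (mem_insert _ _)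

theorem le_U {I : Type} {F : I → ℝ} (hb : BddAbove (range F)) {J : Set I} {i : I} (hi : i ∈ J) :
    F i ≤ U F J := le_csSup (U_bdd hb J) (mem_insert_of_mem _ ⟨i, hi, rfl⟩)

theorem U_le {I : Type} {F : I → ℝ} {J : Set I} {c : ℝ} (h0 : 0 ≤ c) (h : ∀ i ∈ J, F i ≤ c) :
    U F J ≤ c := by
  refine csSup_le (insert_nonempty _ _) ?_
  rintro _ (rfl | ⟨i, hi, rfl⟩)
  exacts [h0, h i hi]

theorem U_mono {I : Type} {F : I → ℝ} (hb : BddAbove (range F)) {J J' : Set I} (h : J ⊆ J') :
    U F J ≤ U F J' := U_le (U_nonneg hb _) fun _ hi => le_U hb (h hi)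

open Classical in
/-- record jumps -/
noncomputable def V {I : Type} [LinearOrder I] (F : I → ℝ) (J : Set I) (i : I) : ℝ :=
  if i ∈ J then max (F i - U F (J ∩ Iio i)) 0 else 0

theorem V_nonneg {I : Type} [LinearOrder I] (F : I → ℝ) (J : Set I) (i : I) : 0 ≤ V F J i := by
  unfold V; split_ifs <;> simp

theorem sum_V_le {I : Type} [LinearOrder I] {F : I → ℝ} (hb : BddAbove (range F)) (J : Set I)
    (S : Finset I) : ∀ c : I → Prop, (∀ i j, i ≤ j → c j → c i) → (∀ i ∈ S, c i) →
      ∑ i ∈ S, V F J i ≤ U F (J ∩ {i | c i}) := by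
  classical
  induction S using Finset.induction_on_max with
  | empty => intro c _ _; simpa using U_nonneg hb _
  | insert m S hm ih =>
    intro c hc hS
    rw [Finset.sum_insert fun h => lt_irrefl _ (hm m h)]
    have h1 := ih (fun i => i < m) (fun i j hij hj => lt_of_le_of_lt hij hj) hm
    have hcm : c m := hS m (Finset.mem_insert_self _ _)
    have h2 : U F (J ∩ {i | i < m}) ≤ U F (J ∩ {i | c i}) :=
      U_mono hb (inter_subset_inter_right _ fun i hi => hc i m (le_of_lt hi) hcm)
    have h3 : V F J m ≤ U F (J ∩ {i | c i}) - U F (J ∩ {i | i < m}) := by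
      unfold V
      split_ifs with h
      · refine max_le ?_ (by linarith)
        have := le_U hb (J := J ∩ {i | c i}) (i := m) ⟨h, hcm⟩
        have e : J ∩ Iio m = J ∩ {i | i < m} := rfl
        rw [e]; linarith
      · linarith
    linarith

theorem summable_V {I : Type} [LinearOrder I] {F : I → ℝ} (hb : BddAbove (range F)) (J : Set I) :
    Summable (V F J) :=
  summable_of_sum_le (V_nonneg F J) fun S =>
    sum_V_le hb J S (fun _ => True) (fun _ _ _ _ => trivial) fun _ _ => trivial

theorem tsum_V {I : Type} [LinearOrder I] [WellFoundedLT I] {F : I → ℝ}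
    (hb : BddAbove (range F)) (J : Set I) : ∑' i, V F J i = U F J := by
  classical
  have hs := summable_V hb J
  apply le_antisymm
  · refine hs.tsum_le_of_sum_le fun S => ?_
    simpa using sum_V_le hb J S (fun _ => True) (fun _ _ _ _ => trivial) fun _ _ => trivial
  · have hsi : ∀ (c : I → Prop) [DecidablePred c],
        Summable fun j => if c j then V F J j else 0 := fun c _ =>
      Summable.of_nonneg_of_le (fun j => by split_ifs; exacts [V_nonneg _ _ _, le_rfl])
        (fun j => by split_ifs; exacts [le_rfl, V_nonneg _ _ _]) hs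
    have hmono : ∀ (c d : I → Prop) [DecidablePred c] [DecidablePred d], (∀ j, c j → d j) →
        ∑' j, (if c j then V F J j else 0) ≤ ∑' j, (if d j then V F J j else 0) := by
      intro c d _ _ h
      refine (hsi c).tsum_le_tsum (fun j => ?_) (hsi d)
      by_cases h1 : c j
      · simp [h1, h j h1]
      · simp only [h1, if_false]; split_ifs; exacts [V_nonneg _ _ _, le_rfl]
    have key : ∀ i, i ∈ J → F i ≤ ∑' j, (if j ≤ i then V F J j else 0) := by
      intro i
      induction i using WellFoundedLT.induction with
      | ind i ih =>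
        intro hi
        have h1 : U F (J ∩ Iio i) ≤ ∑' j, (if j < i then V F J j else 0) := by
          refine U_le (tsum_nonneg fun j => by split_ifs; exacts [V_nonneg _ _ _, le_rfl]) ?_
          intro j hj
          exact (ih j hj.2 hj.1).trans (hmono (fun l => l ≤ j) (fun l => l < i) fun l hl => lt_of_le_of_lt hl hj.2)
        have h2 : ∑' j, (if j ≤ i then V F J j else 0) =
            V F J i + ∑' j, (if j < i then V F J j else 0) := by
          rw [(hsi (fun j => j ≤ i)).tsum_eq_add_tsum_ite i]
          simp only [le_refl, if_true]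
          congr 1
          refine tsum_congr fun j => ?_
          by_cases h : j = i
          · simp [h]
          · simp [h, lt_iff_le_and_ne]
        have h3 : F i - U F (J ∩ Iio i) ≤ V F J i := by
          unfold V; rw [if_pos hi]; exact le_max_left _ _
        linarith
    refine U_le (tsum_nonneg (V_nonneg F J)) fun i hi => (key i hi).trans ?_
    refine (hsi (fun j => j ≤ i)).tsum_le_tsum (fun j => ?_) hs
    split_ifs; exacts [le_rfl, V_nonneg _ _ _]

theorem U_cont_fin {I P : Type} [TopologicalSpace P] {F : P → I → ℝ}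
    (hc : ∀ i, Continuous fun p => F p i) {J : Set I} (hJ : J.Finite) :
    Continuous fun p => U (F p) J := by
  induction J, hJ using Set.Finite.induction_on with
  | empty => simp [U]; exact continuous_const
  | @insert i J hi hJ ih =>
    have : (fun p => U (F p) (insert i J)) = fun p => max (F p i) (U (F p) J) := by
      funext p
      unfold U
      rw [image_insert_eq, insert_comm, csSup_insert ((hJ.image _).insert _).bddAbove
        (insert_nonempty _ _)]
    rw [this]
    exact (hc i).max ih

theorem V_cont {I P : Type} [LinearOrder I] [TopologicalSpace P] {F : P → I → ℝ} {J : Set I} {i : I}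
    (hc : Continuous fun p => F p i) (hU : i ∈ J → Continuous fun p => U (F p) (J ∩ Iio i)) :
    Continuous fun p => V (F p) J i := by
  unfold V
  by_cases hi : i ∈ J
  · simp only [hi, if_true]
    exact (hc.sub (hU hi)).max continuous_const
  · simp only [hi, if_false]
    exact continuous_const

theorem bdd_comp {K I : Type} [TopologicalSpace K] [CompactSpace K] {h : K → ℝ} (hc : Continuous h)
    (d : I → K) : BddAbove (range fun i => h (d i)) :=
  (isCompact_range hc).bddAbove.mono (by rintro _ ⟨i, rfl⟩; exact mem_range_self _)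

theorem U_cont_joint {X K I : Type} [TopologicalSpace X] [TopologicalSpace K] [CompactSpace K]
    {F : X × K → ℝ} (hF : Continuous F) (d : I → K) (J : Set I) :
    Continuous fun x => U (fun i => F (x, d i)) J := by
  have h1 : LipschitzWith 1 fun h : C(K, ℝ) => U (fun i => h (d i)) J := by
    refine LipschitzWith.of_le_add fun h h' => ?_
    have hb := bdd_comp h'.continuous d
    refine U_le (add_nonneg (U_nonneg hb _) dist_nonneg) fun i hi => ?_
    have h2 := le_U hb hi
    have h3 := ContinuousMap.dist_apply_le_dist (f := h) (g := h') (d i)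
    rw [Real.dist_eq] at h3
    linarith [le_abs_self (h (d i) - h' (d i))]
  exact h1.continuous.comp (ContinuousMap.curry ⟨F, hF⟩).continuous

theorem sumT_cont {I P : Type} {v : I → P → ℝ} (h0 : ∀ i x, 0 ≤ v i x)
    (hs : ∀ x, Summable fun i => v i x) :
    Continuous fun (s : I → Bool) (x : P) => ∑' i, (if s i = true then v i x else 0) := by
  refine continuous_pi fun x => continuous_tsum (fun i => ?_) (hs x) fun i s => ?_
  · exact (continuous_of_discreteTopology (f := fun b : Bool => if b = true then v i x else 0)).comp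
      (continuous_apply i)
  · rw [Real.norm_eq_abs]
    split_ifs
    · rw [abs_of_nonneg (h0 i x)]
    · simpa using h0 i x

theorem lemB {X I : Type} [TopologicalSpace X] (hG : G {f : X → ℝ | Continuous f})
    {F : X → I → ℝ} (hc : ∀ i, Continuous fun x => F x i) (hb : ∀ x, BddAbove (range (F x)))
    (hS : ∀ S : Set I, S.Countable → Continuous fun x => U (F x) S) :
    Continuous fun x => U (F x) univ := by
  classical
  obtain ⟨r, wo⟩ := exists_wellFoundedLT I
  have step : ∀ J : Set I, (∀ i ∈ J, Continuous fun x => U (F x) (J ∩ Iio i)) →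
      Continuous fun x => U (F x) J := by
    intro J hJ
    have hv : ∀ i, Continuous fun x => V (F x) J i := fun i => V_cont (hc i) (hJ i)
    have hT := sumT_cont (v := fun i x => V (F x) J i) (fun i x => V_nonneg _ _ _)
      (fun x => summable_V (hb x) J)
    obtain ⟨h1, h2⟩ := cc_family hT
    have h3 : (fun (s : I → Bool) (x : X) => ∑' i, (if s i = true then V (F x) J i else 0)) ''
        {s | {i | s i = true}.Countable} ⊆ {f : X → ℝ | Continuous f} := by
      rintro _ ⟨s, hs, rfl⟩
      have hSc : ({i | s i = true} ∩ J).Countable := hs.mono inter_subset_left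
      refine dom (v := fun i x => V (F x) ({i | s i = true} ∩ J) i) ?_ ?_ ?_ ?_ ?_ ?_
      · intro i x; split_ifs; exacts [V_nonneg _ _ _, le_rfl]
      · intro i x
        split_ifs with h
        · unfold V
          by_cases hi : i ∈ J
          · rw [if_pos hi, if_pos ⟨h, hi⟩]
            refine max_le_max ?_ le_rfl
            have := U_mono (hb x) (J := ({i | s i = true} ∩ J) ∩ Iio i) (J' := J ∩ Iio i)
              (inter_subset_inter_left _ inter_subset_right)
            linarith
          · rw [if_neg hi, if_neg fun h' => hi h'.2]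
        · exact V_nonneg _ _ _
      · intro i
        split_ifs
        exacts [hv i, continuous_const]
      · intro i
        exact V_cont (hc i) fun _ => hS _ (hSc.mono inter_subset_left)
      · intro x; exact summable_V (hb x) _
      · simp only [tsum_V (hb _)]
        exact hS _ hSc
    have h4 := hG _ h3 (h1.mono h3) h2
    simpa [tsum_V (hb _)] using h4
  have h5 : ∀ i, Continuous fun x => U (F x) (Iio i) := by
    intro i
    induction i using WellFoundedLT.induction with
    | ind i ih =>
      refine step _ fun j hj => ?_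
      rw [inter_eq_right.2 (Iio_subset_Iio (le_of_lt hj))]
      exact ih j hj
  exact step _ fun i _ => by rw [univ_inter]; exact h5 i

end Pool.Agent.Lead.Gro
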