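import Pool.Agent.Lead.Gro1
import Pool.Agent.Lead.Cp2

namespace Pool.Agent.Lead.Gro

open Set Topology Filter Pool.Agent.Lead.CpD

abbrev J : Type := ℕ → T

def io (σ : J) : T := fun n => σ (Nat.unpair n).1 (Nat.unpair n).2

theorem io_inj : Function.Injective io := by
  intro σ τ h
  funext a b
  simpa [io] using congrFun h (Nat.pair a b)

open Classical in
noncomputable def e : Option T → J → Bool
  | none => fun _ => false
  | some t => fun σ => decide (t ∈ range σ)

theorem e_inj : Function.Injective e := by
  intro a b h
  cases a with
  | none =>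
    cases b with
    | none => rfl
    | some t => simpa [e] using congrFun h (fun _ => t)
  | some s =>
    cases b with
    | none => simpa [e] using congrFun h (fun _ => s)
    | some t =>
      have := congrFun h (fun _ => s)
      simp [e] at this
      rw [this]

def q' (p : QI) : J → Bool := fun σ => qv p (io σ)

theorem q'_dense : DenseRange q' := by
  have h1 : Function.Surjective fun (x : X) (σ : J) => x (io σ) := by
    intro y
    refine ⟨Function.extend io y (fun _ => false), funext fun σ => io_inj.extend_apply _ _ _⟩
  exact h1.denseRange.comp qv_dense (continuous_pi fun σ => continuous_apply _)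

def YS : Set ((J → Bool) × ℝ) :=
  {y | (y.2 = 0 ∧ y.1 ∈ range e) ∨ (y.1 ∈ range q' ∧ y.2 ∈ range fun m : ℕ => 1 / ((m : ℝ) + 1))}

instance : Nonempty YS := ⟨⟨(e none, 0), Or.inl ⟨rfl, none, rfl⟩⟩⟩

instance : TopologicalSpace.SeparableSpace YS := by
  refine ⟨Subtype.val ⁻¹' (range q' ×ˢ range fun m : ℕ => 1 / ((m : ℝ) + 1)),
    ((countable_range _).prod (countable_range _)).preimage Subtype.val_injective, ?_⟩
  rw [Subtype.dense_iff, image_preimage_eq_of_subset (by
    rw [Subtype.range_coe]; exact fun y hy => Or.inr hy), closure_prod_eq]
  rintro y (hy | hy)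
  · refine ⟨q'_dense _, ?_⟩
    rw [hy.1]
    exact mem_closure_of_tendsto tendsto_one_div_add_atTop_nhds_zero_nat
      (Eventually.of_forall fun n => mem_range_self n)
  · exact ⟨q'_dense _, subset_closure hy.2⟩

def XS : Set (YS × Bool) := {z | z.2 = true → z.1.1.2 = 0}

theorem XS_closed : IsClosed XS := by
  have : XS = {z : YS × Bool | z.2 = false} ∪ {z | z.1.1.2 = 0} := by
    ext z; cases h : z.2 <;> simp [XS, h]
  rw [this]
  exact (isClosed_eq continuous_snd continuous_const).union
    (isClosed_eq (continuous_snd.comp (continuous_subtype_val.comp continuous_fst)) continuous_const)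

def pr (z : XS) : YS := z.1.1

theorem pr_proper : IsProperMap pr :=
  isProperMap_fst_of_compactSpace.comp XS_closed.isClosedEmbedding_subtypeVal.isProperMap

theorem pr_surj : Function.Surjective pr := fun y => ⟨⟨(y, false), by simp [XS]⟩, rfl⟩

theorem ex_tau (z : XS) : ∃ a : Option T, (z.1.2 = true → z.1.1.1.1 = e a) ∧
    (z.1.2 = false → a = none) := by
  cases h : z.1.2
  · exact ⟨none, by simp, by simp⟩
  · have h0 := z.2 h
    rcases z.1.1.2 with h1 | h1
    · obtain ⟨a, ha⟩ := h1.2
      exact ⟨a, fun _ => ha.symm, by simp⟩
    · obtain ⟨m, hm⟩ := h1.2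
      rw [h0] at hm
      exact absurd hm (by positivity)

theorem not_wg : ¬ G {f : XS → ℝ | Continuous f} := by
  intro hG
  choose τ h1 h2 using ex_tau
  let TT : (T → Bool) → XS → ℝ := fun s z => (τ z).elim 0 fun t => if s t = true then 1 else 0
  have hT : Continuous TT := by
    refine continuous_pi fun z => ?_
    simp only [TT]
    cases τ z with
    | none => exact continuous_const
    | some t =>
      exact (continuous_of_discreteTopology
        (f := fun b : Bool => if b = true then (1 : ℝ) else 0)).comp (continuous_apply t)
  obtain ⟨h3, h4⟩ := cc_family hT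
  have h5 : TT '' {s | {i | s i = true}.Countable} ⊆ {f : XS → ℝ | Continuous f} := by
    rintro _ ⟨s, hs, rfl⟩
    rcases {i | s i = true}.eq_empty_or_nonempty with h | h
    · have : TT s = fun _ => 0 := by
        funext z
        simp only [TT]
        cases τ z with
        | none => rfl
        | some t =>
          have : ¬ s t = true := fun ht => (h ▸ ht : t ∈ (∅ : Set T))
          simp [this]
      rw [this]; exact continuous_const
    · obtain ⟨σ, hσ⟩ := Set.Countable.exists_eq_range hs h
      have : TT s = fun z => if (z.1.2 && z.1.1.1.1 σ) = true then 1 else 0 := by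
        funext z
        simp only [TT]
        cases hz : z.1.2
        · rw [h2 z hz]; simp
        · rw [h1 z hz]
          cases τ z with
          | none => simp [e]
          | some t =>
            have : s t = true ↔ t ∈ range σ := by rw [← hσ]; rfl
            by_cases ht : t ∈ range σ
            · simp [e, this.2 ht, ht]
            · have h' : ¬ s t = true := fun h => ht (this.1 h)
              simp only [e, Option.elim, h', ht]
              simp
      rw [this]
      exact (continuous_of_discreteTopology
        (f := fun b : Bool × Bool => if (b.1 && b.2) = true then (1 : ℝ) else 0)).comp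
        ((continuous_snd.comp continuous_subtype_val).prodMk ((continuous_apply σ).comp
          (continuous_fst.comp (continuous_subtype_val.comp
            (continuous_fst.comp continuous_subtype_val)))))
  have h6 : Continuous (TT fun _ => true) := hG _ h5 (h3.mono h5) h4
  let z : Option T → XS := fun a => ⟨(⟨(e a, 0), Or.inl ⟨rfl, mem_range_self _⟩⟩, true), fun _ => rfl⟩
  have hz : ∀ a, τ (z a) = a := fun a => e_inj (h1 (z a) rfl).symm
  have hU : Uncountable T := by
    rw [← not_countable_iff]
    intro hc
    obtain ⟨f, hf⟩ := exists_surjective_nat T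
    obtain ⟨n, hn⟩ := hf fun i => !(f i i)
    simpa using congrFun hn n
  have h7 : Tendsto (fun t => z (some t)) cocountable (𝓝 (z none)) := by
    rw [tendsto_subtype_rng]
    refine Tendsto.prodMk_nhds ?_ tendsto_const_nhds
    rw [tendsto_subtype_rng]
    refine Tendsto.prodMk_nhds ?_ tendsto_const_nhds
    rw [tendsto_pi_nhds]
    intro σ
    refine tendsto_const_nhds.congr' ?_
    have : (range σ)ᶜ ∈ cocountable := by
      rw [mem_cocountable]; simpa using countable_range σ
    filter_upwards [this] with t ht
    have ht' : t ∉ range σ := ht
    simp only [e, ht']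
    simp
  have h8 := (h6.tendsto _).comp h7
  have h9 : ((TT fun _ => true) ∘ fun t => z (some t)) = fun _ => 1 := by
    funext t; simp [TT, hz]
  have h10 : TT (fun _ => true) (z none) = 0 := by simp [TT, hz]
  rw [h9, h10] at h8
  have : (cocountable : Filter T).NeBot := by
    refine ⟨fun h => ?_⟩
    have h11 : (∅ : Set T) ∈ (cocountable : Filter T) := h ▸ mem_bot
    rw [mem_cocountable, compl_empty] at h11
    exact not_countable_univ h11
  exact one_ne_zero (tendsto_nhds_unique tendsto_const_nhds h8)

end Pool.Agent.Lead.Gro
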