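import Pool.Agent.Lead.GroDefs

namespace Pool.Agent.Lead.Gro

def CountablyTight (Z : Type) [TopologicalSpace Z] : Prop :=
  ∀ A : Set Z, ∀ z ∈ closure A, ∃ B ⊆ A, B.Countable ∧ z ∈ closure B

end Pool.Agent.Lead.Gro
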