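import Pool.Agent.Lead.Gro5
import Pool.Agent.Lead.TightDefs

namespace Pool.Agent.Lead.Gro

open Set Topology Filter

variable {X : Type} [TopologicalSpace X]

theorem emb_cl {Z Y : Type} [TopologicalSpace Z] [TopologicalSpace Y] {j : Z → Y}
    (hj : IsEmbedding j) {A : Set Z} {z : Z} : z ∈ closure A ↔ j z ∈ closure (j '' A) := by
  rw [hj.isInducing.closure_eq_preimage_closure_image]; rfl

theorem lift_compact {Z : Set (X → ℝ)} (h1 : Z ⊆ {f | Continuous f}) (h2 : IsCompact Z) :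
    IsCompact (Subtype.val ⁻¹' Z : Set (Cp X)) :=
  (IsEmbedding.subtypeVal.isInducing.isCompact_preimage_iff
    (by rw [Subtype.range_coe_subtype]; exact h1)).2 h2

theorem ctg_iff : (∀ S : Set (Cp X), IsCompact S → CountablyTight S) ↔ CTG X := by
  constructor
  · intro h Z h1 h2 A h3 f hf
    have hj : IsEmbedding fun z : (Subtype.val ⁻¹' Z : Set (Cp X)) => z.1.1 :=
      IsEmbedding.subtypeVal.comp IsEmbedding.subtypeVal
    have hfZ : f ∈ Z := closure_minimal h3 h2.isClosed hf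
    obtain ⟨B, b1, b2, b3⟩ := h _ (lift_compact h1 h2) ((fun z => z.1.1) ⁻¹' A)
      ⟨⟨f, h1 hfZ⟩, hfZ⟩ (by
        rw [emb_cl hj, image_preimage_eq_of_subset]
        · exact hf
        · intro g hg; exact ⟨⟨⟨g, h1 (h3 hg)⟩, h3 hg⟩, rfl⟩)
    exact ⟨_, image_subset_iff.2 b1, b2.image _, (emb_cl hj).1 b3⟩
  · intro h S hS A z hz
    have hj : IsEmbedding fun z : S => z.1.1 := IsEmbedding.subtypeVal.comp IsEmbedding.subtypeVal
    obtain ⟨B, b1, b2, b3⟩ := h (Subtype.val '' S) (by rintro _ ⟨g, -, rfl⟩; exact g.2)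
      (hS.image continuous_subtype_val) ((fun z : S => z.1.1) '' A)
      (by rintro _ ⟨g, -, rfl⟩; exact ⟨g.1, g.2, rfl⟩) _ ((emb_cl hj).1 hz)
    refine ⟨(fun z : S => z.1.1) ⁻¹' B, fun y hy => ?_, b2.preimage hj.injective, ?_⟩
    · obtain ⟨w, hw, h4⟩ := b1 hy
      rwa [← hj.injective h4]
    · rw [emb_cl hj, image_preimage_eq_of_subset (b1.trans (image_subset_range _ _))]
      exact b3

theorem fug_iff : (∀ S : Set (Cp X), IsCompact S → FrechetUrysohnSpace S) ↔ FUG X := by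
  constructor
  · intro h Z h1 h2 A h3 f hf
    have hj : IsEmbedding fun z : (Subtype.val ⁻¹' Z : Set (Cp X)) => z.1.1 :=
      IsEmbedding.subtypeVal.comp IsEmbedding.subtypeVal
    have hfZ : f ∈ Z := closure_minimal h3 h2.isClosed hf
    have := h _ (lift_compact h1 h2)
    obtain ⟨u, b1, b2⟩ := mem_closure_iff_seq_limit.1
      (show (⟨⟨f, h1 hfZ⟩, hfZ⟩ : (Subtype.val ⁻¹' Z : Set (Cp X))) ∈
        closure ((fun z => z.1.1) ⁻¹' A) by
        rw [emb_cl hj, image_preimage_eq_of_subset]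
        · exact hf
        · intro g hg; exact ⟨⟨⟨g, h1 (h3 hg)⟩, h3 hg⟩, rfl⟩)
    exact ⟨fun n => (u n).1.1, b1, (hj.continuous.tendsto _).comp b2⟩
  · intro h S hS
    refine ⟨fun A z hz => ?_⟩
    have hj : IsEmbedding fun z : S => z.1.1 := IsEmbedding.subtypeVal.comp IsEmbedding.subtypeVal
    obtain ⟨u, b1, b2⟩ := h (Subtype.val '' S) (by rintro _ ⟨g, -, rfl⟩; exact g.2)
      (hS.image continuous_subtype_val) ((fun z : S => z.1.1) '' A)
      (by rintro _ ⟨g, -, rfl⟩; exact ⟨g.1, g.2, rfl⟩) _ ((emb_cl hj).1 hz)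
    choose a c1 c2 using b1
    refine ⟨a, c1, hj.tendsto_nhds_iff.2 ?_⟩
    rwa [show ((fun z : S => z.1.1) ∘ a) = u from funext c2]

end Pool.Agent.Lead.Gro
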