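import Mathlib

namespace Pool.Agent.Lead.Gro

open Set Topology Filter

abbrev Cp (X : Type) [TopologicalSpace X] : Type := {f : X → ℝ // Continuous f}

def CCIn {Z : Type} [TopologicalSpace Z] (A : Set Z) : Prop :=
  ∀ B ⊆ A, B.Infinite → ∃ z : Z, AccPt z (𝓟 B)

def GSpace (Z : Type) [TopologicalSpace Z] : Prop :=
  ∀ A : Set Z, CCIn A → IsCompact (closure A)

def WeaklyGroth (X : Type) [TopologicalSpace X] : Prop := GSpace (Cp X)

def Groth (X : Type) [TopologicalSpace X] : Prop := ∀ W : Set (Cp X), GSpace W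

end Pool.Agent.Lead.Gro
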