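import Pool.Agent.Lead.HdDefs
import Pool.Agent.Lead.Ak1

namespace Pool.Agent.Lead.Hd

open Set Topology Filter Pool.Agent.Lead.Gro Pool.Agent.Lead.Ak

def DAs : Set (ℝ → Bool) := {x | ∀ s t, s ≤ t → x t = true → x s = true}

abbrev DA : Type := DAs

theorem DAs_closed : IsClosed DAs := by
  simp only [DAs, Set.ofPred_forall]
  refine isClosed_iInter fun s => isClosed_iInter fun t => isClosed_iInter fun _ => ?_
  have hc : Continuous fun a : ℝ → Bool => (a t, a s) :=
    (continuous_apply t).prodMk (continuous_apply s)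
  have := (isClosed_discrete {p : Bool × Bool | p.1 = true → p.2 = true}).preimage hc
  convert this using 1
  ext a
  simp

instance : CompactSpace DA := isCompact_iff_compactSpace.1 DAs_closed.isCompact

theorem ev_cont (t : ℝ) : Continuous fun x : DA => x.1 t :=
  (continuous_apply t).comp continuous_subtype_val

noncomputable def lo (e : EReal) : DA := ⟨fun s => decide ((s : EReal) < e), fun s t h h' => by
  simp only [decide_eq_true_eq] at h' ⊢
  exact (EReal.coe_le_coe_iff.2 h).trans_lt h'⟩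

noncomputable def hi (e : EReal) : DA := ⟨fun s => decide ((s : EReal) ≤ e), fun s t h h' => by
  simp only [decide_eq_true_eq] at h' ⊢
  exact (EReal.coe_le_coe_iff.2 h).trans h'⟩

noncomputable def pos (x : DA) : EReal := ⨆ t : {t : ℝ // x.1 t = true}, (t.1 : EReal)

theorem le_pos {x : DA} {t : ℝ} (h : x.1 t = true) : (t : EReal) ≤ pos x :=
  le_iSup (fun t : {t : ℝ // x.1 t = true} => (t.1 : EReal)) ⟨t, h⟩

theorem pos_le {x : DA} {t : ℝ} (h : ¬ x.1 t = true) : pos x ≤ t :=
  iSup_le fun s => EReal.coe_le_coe_iff.2 (le_of_not_ge fun h' => h (x.2 _ _ h' s.2))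

theorem pos_cont : Continuous pos := by
  rw [OrderTopology.continuous_iff]
  intro c
  constructor
  · have : pos ⁻¹' Ioi c = ⋃ t ∈ {t : ℝ | c < t}, (fun x : DA => x.1 t) ⁻¹' {true} := by
      ext x
      simp only [mem_preimage, mem_Ioi, mem_iUnion, mem_singleton_iff, mem_ofPred_eq]
      exact ⟨fun h => by
        obtain ⟨t, ht⟩ := lt_iSup_iff.1 h
        exact ⟨t.1, ht, t.2⟩, fun ⟨t, h1, h2⟩ => h1.trans_le (le_pos h2)⟩
    rw [this]
    exact isOpen_biUnion fun t _ => (isOpen_discrete _).preimage (ev_cont t)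
  · have : pos ⁻¹' Iio c = ⋃ t ∈ {t : ℝ | (t : EReal) < c}, (fun x : DA => x.1 t) ⁻¹' {true}ᶜ := by
      ext x
      simp only [mem_preimage, mem_Iio, mem_iUnion, mem_compl_iff, mem_singleton_iff,
        mem_ofPred_eq]
      exact ⟨fun h => by
        obtain ⟨t, h1, h2⟩ := EReal.lt_iff_exists_real_btwn.1 h
        exact ⟨t, h2, fun h3 => h1.not_ge (le_pos h3)⟩, fun ⟨t, h1, h2⟩ => (pos_le h2).trans_lt h1⟩
    rw [this]
    exact isOpen_biUnion fun t _ => (isOpen_discrete _).preimage (ev_cont t)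

theorem pos_eq {x : DA} {e : EReal} (h1 : ∀ s : ℝ, (s : EReal) < e → x.1 s = true)
    (h2 : ∀ s : ℝ, x.1 s = true → (s : EReal) ≤ e) : pos x = e := by
  refine le_antisymm (iSup_le fun s => h2 _ s.2) (le_of_not_gt fun h => ?_)
  obtain ⟨t, h3, h4⟩ := EReal.lt_iff_exists_real_btwn.1 h
  exact h3.not_ge (le_pos (h1 t h4))

theorem pos_lo (e : EReal) : pos (lo e) = e :=
  pos_eq (fun s h => by simpa [lo] using h) fun s h => le_of_lt (by simpa [lo] using h)

theorem pos_hi (e : EReal) : pos (hi e) = e :=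
  pos_eq (fun s h => by simpa [hi] using h.le) fun s h => by simpa [hi] using h

theorem classify (x : DA) : x = lo (pos x) ∨ ∃ t : ℝ, pos x = t ∧ x = hi t := by
  by_cases h : ∃ t : ℝ, pos x = t ∧ x.1 t = true
  · obtain ⟨t, h1, h2⟩ := h
    refine Or.inr ⟨t, h1, Subtype.ext (funext fun s => Bool.eq_iff_iff.2 ?_)⟩
    simp only [hi, decide_eq_true_eq]
    exact ⟨fun h => h1 ▸ le_pos h, fun h => x.2 _ _ (EReal.coe_le_coe_iff.1 h) h2⟩
  · refine Or.inl (Subtype.ext (funext fun s => Bool.eq_iff_iff.2 ?_))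
    simp only [lo, decide_eq_true_eq]
    exact ⟨fun h' => lt_of_le_of_ne (le_pos h') fun h'' => h ⟨s, h''.symm, h'⟩,
      fun h' => by_contra fun h'' => h'.not_ge (pos_le h'')⟩

noncomputable def jmp (f : DA → ℝ) (t : ℝ) : ℝ := f (hi t) - f (lo t)

theorem jmp_c0 {f : DA → ℝ} (hf : Continuous f) : Tendsto (jmp f) cofinite (𝓝 0) := by
  refine tendsto_iff_ultrafilter _ _ _ |>.2 fun U hU => ?_
  obtain ⟨x, -, hx⟩ := isCompact_univ.ultrafilter_le_nhds (U.map fun t : ℝ => lo t) (by simp)
  have h1 : Tendsto (fun t : ℝ => lo t) U (𝓝 x) := hx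
  have h2 : Tendsto (fun t : ℝ => hi t) U (𝓝 x) := by
    rw [tendsto_subtype_rng, tendsto_pi_nhds] at h1 ⊢
    intro s
    refine (h1 s).congr' ?_
    filter_upwards [hU (finite_singleton s).compl_mem_cofinite] with t ht
    have : s ≠ t := fun h => ht h.symm
    simp [lo, hi, le_iff_lt_or_eq, this]
  have := ((hf.tendsto x).comp h2).sub ((hf.tendsto x).comp h1)
  rwa [sub_self] at this

theorem corr {f : DA → ℝ} (hf : Continuous f) {A : Set EReal} (hA : A.Finite) :
    ∃ g : DA → ℝ, Continuous g ∧ jmp g = jmp f ∧ ∀ e ∈ A, g (lo e) = 0 := by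
  have : Finite A := hA.to_subtype
  obtain ⟨h, hh⟩ := ContinuousMap.exists_restrict_eq hA.isClosed
    (⟨fun e : A => f (lo e.1), continuous_of_discreteTopology⟩ : C(A, ℝ))
  refine ⟨fun x => f x - h (pos x), hf.sub (h.continuous.comp pos_cont), ?_, fun e he => ?_⟩
  · funext t
    simp [jmp, pos_lo, pos_hi]
  · have := DFunLike.congr_fun hh ⟨e, he⟩
    simp only [ContinuousMap.restrict_apply, ContinuousMap.coe_mk] at this
    simp [pos_lo, this]

theorem fin_jmp {u : ℝ → ℝ} (hu : (Function.support u).Finite) {c : ℝ} (hc : ∀ t, |u t| ≤ c) :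
    ∃ f : DA → ℝ, Continuous f ∧ jmp f = u ∧ ∀ x, |f x| ≤ c := by
  classical
  have hc0 : 0 ≤ c := (abs_nonneg _).trans (hc 0)
  obtain ⟨g, h1, h2, h3⟩ := corr
    (f := fun x => ∑ t ∈ hu.toFinset, if x.1 t = true then u t else 0)
    (continuous_finsetSum _ fun t _ => (continuous_of_discreteTopology
      (f := fun b : Bool => if b = true then u t else 0)).comp (ev_cont t))
    (hu.image fun t : ℝ => (t : EReal))
  have h4 : ∀ t : ℝ, g (hi t) - g (lo t) = u t := by
    intro t
    refine (congrFun h2 t).trans ?_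
    simp only [jmp, ← Finset.sum_sub_distrib]
    rw [Finset.sum_eq_single t]
    · simp [hi, lo]
    · intro s _ hs
      simp [hi, lo, le_iff_lt_or_eq, hs]
    · intro h
      have : u t = 0 := by simpa using h
      simp [this]
  refine ⟨fun x => max (-c) (min c (g x)), continuous_const.max (continuous_const.min h1), ?_,
    fun x => abs_le.2 ⟨le_max_left _ _, max_le (by linarith) (min_le_left _ _)⟩⟩
  funext t
  by_cases h : u t = 0
  · have : g (hi t) = g (lo t) := by linarith [h4 t]
    simp [jmp, this, h]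
  · have h5 : g (lo t) = 0 := h3 _ ⟨t, h, rfl⟩
    have h6 : g (hi t) = u t := by linarith [h4 t]
    have h7 := abs_le.1 (hc t)
    simp only [jmp, h5, h6]
    rw [min_eq_right h7.2, max_eq_right h7.1, min_eq_right hc0, max_eq_right (by linarith)]
    simp

theorem all_jmp {u : ℝ → ℝ} (hu : Tendsto u cofinite (𝓝 0)) :
    ∃ f : DA → ℝ, Continuous f ∧ jmp f = u := by
  classical
  obtain ⟨M, hM⟩ := hu.abs.bddAbove_range_of_cofinite
  have hM' : ∀ t, |u t| ≤ M + 1 := fun t => (hM (mem_range_self t)).trans (by linarith)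
  have hM0 : 0 < M + 1 := by linarith [hM (mem_range_self 0), abs_nonneg (u 0)]
  have h1 : ∀ t, ∃ k : ℕ, u t ≠ 0 → (M + 1) * (1 / 2) ^ (k + 1) < |u t| ∧
      |u t| ≤ (M + 1) * (1 / 2) ^ k := by
    intro t
    by_cases h : u t = 0
    · exact ⟨0, fun h' => absurd h h'⟩
    have h0 : Tendsto (fun k : ℕ => (M + 1) * (1 / 2 : ℝ) ^ (k + 1)) atTop (𝓝 ((M + 1) * 0)) :=
      ((tendsto_pow_atTop_nhds_zero_of_lt_one (by norm_num) (by norm_num)).comp
        (tendsto_add_atTop_nat 1)).const_mul _
    have h2 := (h0.eventually (gt_mem_nhds (by simpa using h : (M + 1) * 0 < |u t|))).exists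
    refine ⟨Nat.find h2, fun _ => ⟨Nat.find_spec h2, ?_⟩⟩
    rcases h3 : Nat.find h2 with _ | k
    · simpa using hM' t
    · exact not_lt.1 (Nat.find_min h2 (by omega))
  choose lev hlev using h1
  have h2 : ∀ k : ℕ, ∃ f : DA → ℝ, Continuous f ∧
      (jmp f = fun t => if lev t = k then u t else 0) ∧ ∀ x, |f x| ≤ (M + 1) * (1 / 2) ^ k := by
    intro k
    refine fin_jmp ?_ fun t => ?_
    · refine Set.Finite.subset (hu.abs.eventually (gt_mem_nhds
        (show |(0 : ℝ)| < (M + 1) * (1 / 2) ^ (k + 1) by simp; positivity))) fun t ht h => ?_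
      simp only [Function.mem_support, ne_eq, ite_eq_right_iff, not_forall] at ht
      obtain ⟨rfl, h3⟩ := ht
      exact lt_asymm h (hlev t h3).1
    · split_ifs with h
      · by_cases h3 : u t = 0
        · rw [h3, abs_zero]; positivity
        · exact h ▸ (hlev t h3).2
      · rw [abs_zero]; positivity
  choose f f1 f2 f3 using h2
  have hs : Summable fun k : ℕ => (M + 1) * (1 / 2 : ℝ) ^ k := summable_geometric_two.mul_left _
  refine ⟨fun x => ∑' k, f k x, continuous_tsum f1 hs fun k x => f3 k x, funext fun t => ?_⟩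
  simp only [jmp]
  rw [← Summable.tsum_sub (Summable.of_norm_bounded hs fun k => f3 k _)
    (Summable.of_norm_bounded hs fun k => f3 k _)]
  have : ∀ k, f k (hi t) - f k (lo t) = if k = lev t then u t else 0 := fun k => by
    simpa only [eq_comm, jmp] using congrFun (f2 k) t
  simp only [this, tsum_ite_eq]

noncomputable def Φ (f : Cp DA) : Cp (OnePoint DR) :=
  ⟨fun p => f.1 (lo ⊥) + p.elim 0 (jmp f.1), continuous_const.add
    ((OnePoint.continuous_iff_from_discrete _).2 (jmp_c0 f.2))⟩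

theorem Φ_cont : Continuous Φ := by
  have hc : ∀ x, Continuous fun f : Cp DA => f.1 x :=
    fun x => (continuous_apply x).comp continuous_subtype_val
  refine Continuous.subtype_mk (continuous_pi fun p => (hc _).add ?_) _
  induction p using OnePoint.rec with
  | infty => exact continuous_const
  | coe t => exact (hc _).sub (hc _)

theorem lift (v : Cp (OnePoint DR)) {A : Set EReal} (hA : A.Finite) :
    ∃ f : Cp DA, Φ f = v ∧ (∀ e ∈ A, f.1 (lo e) = v.1 OnePoint.infty) ∧
      ∀ t : ℝ, (t : EReal) ∈ A → f.1 (hi t) = v.1 (OnePoint.some t) := by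
  obtain ⟨f, h1, h2⟩ := all_jmp (u := fun t : ℝ => v.1 (OnePoint.some t) - v.1 OnePoint.infty) (by
    have := ((OnePoint.continuous_iff_from_discrete _).1 v.2).sub_const (v.1 OnePoint.infty)
    rwa [sub_self] at this)
  obtain ⟨g, h3, h4, h5⟩ := corr h1 (hA.insert ⊥)
  have h6 : ∀ t : ℝ, g (hi t) - g (lo t) = v.1 (OnePoint.some t) - v.1 OnePoint.infty :=
    fun t => congrFun (h4.trans h2) t
  refine ⟨⟨fun x => g x + v.1 OnePoint.infty, h3.add continuous_const⟩, Subtype.ext
    (funext fun p => ?_), fun e he => by simp [h5 e (Or.inr he)], fun t ht => ?_⟩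
  · induction p using OnePoint.rec with
    | infty => simp [Φ, h5 ⊥ (Or.inl rfl)]
    | coe t =>
      have := h6 t
      simp only [Φ, h5 ⊥ (Or.inl rfl), OnePoint.elim_some, jmp]
      linarith
  · have := h6 t
    rw [h5 _ (Or.inr ht)] at this
    simp only
    linarith

theorem Φ_surj : Function.Surjective Φ := fun v =>
  let ⟨f, h, _⟩ := lift v finite_empty
  ⟨f, h⟩

theorem Φ_open : IsOpenMap Φ := by
  classical
  rintro _ ⟨O, hO, rfl⟩
  rw [isOpen_iff_mem_nhds]
  rintro _ ⟨f0, hf0, rfl⟩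
  obtain ⟨I, w, h1, h2⟩ := isOpen_pi_iff.1 hO _ hf0
  let q : DA → OnePoint DR := fun x => if x = lo (pos x) then OnePoint.infty
    else OnePoint.some (pos x).toReal
  have ho : IsOpen {g : Cp (OnePoint DR) | ∀ x ∈ I, f0.1 x + (g.1 (q x) - (Φ f0).1 (q x)) ∈ w x} := by
    simp only [Set.ofPred_forall]
    exact isOpen_biInter_finset fun x hx => (h1 x hx).1.preimage (continuous_const.add
      (((continuous_apply _).comp continuous_subtype_val).sub continuous_const))
  filter_upwards [ho.mem_nhds fun x hx => by simpa using (h1 x hx).2] with g hg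
  obtain ⟨f, a1, a2, a3⟩ := lift ⟨fun p => g.1 p - (Φ f0).1 p, g.2.sub (Φ f0).2⟩
    (I.finite_toSet.image pos)
  refine ⟨⟨fun x => f0.1 x + f.1 x, f0.2.add f.2⟩, h2 fun x hx => ?_, Subtype.ext
    (funext fun p => ?_)⟩
  · have h3 : f.1 x = g.1 (q x) - (Φ f0).1 (q x) := by
      by_cases h : x = lo (pos x)
      · simp only [q, if_pos h]
        rw [h]
        exact a2 _ ⟨x, hx, rfl⟩
      · obtain ⟨t, h4, h5⟩ := (classify x).resolve_left h
        simp only [q, if_neg h]
        rw [h4, h5]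
        exact a3 t ⟨x, hx, h4⟩
    show f0.1 x + f.1 x ∈ w x
    rw [h3]
    exact hg x hx
  · have := congrFun (congrArg Subtype.val a1) p
    induction p using OnePoint.rec with
    | infty =>
      simp only [Φ, OnePoint.elim_infty] at this ⊢
      linarith
    | coe t =>
      simp only [Φ, OnePoint.elim_some, jmp] at this ⊢
      linarith

theorem side {j : ℝ → DA} {r : ℝ → Set ℝ} (hr : ∀ t, IsOpen (r t))
    (hj : ∀ t, Tendsto j (𝓝[r t] t) (𝓝 (j t))) (S : Set ℝ)
    (hS : {t ∈ S | 𝓝[S ∩ r t] t = ⊥}.Countable) :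
    ∃ D ⊆ S, D.Countable ∧ j '' S ⊆ closure (j '' D) := by
  obtain ⟨D, h1, h2, h3⟩ :=
    (TopologicalSpace.IsSeparable.of_separableSpace S).exists_countable_dense_subset
  refine ⟨D ∪ {t ∈ S | 𝓝[S ∩ r t] t = ⊥}, union_subset h1 fun t ht => ht.1, h2.union hS, ?_⟩
  rintro _ ⟨t, ht, rfl⟩
  by_cases h : 𝓝[S ∩ r t] t = ⊥
  · exact subset_closure ⟨t, Or.inr ⟨ht, h⟩, rfl⟩
  have h4 : t ∈ closure (D ∩ r t) := closure_minimal
    ((inter_subset_inter_left _ h3).trans (hr t).closure_inter) isClosed_closure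
    (mem_closure_iff_nhdsWithin_neBot.2 ⟨h⟩)
  have := mem_closure_iff_nhdsWithin_neBot.1 h4
  refine mem_closure_of_tendsto ((hj t).mono_left (nhdsWithin_mono t inter_subset_right) :
    Tendsto j (𝓝[D ∩ r t] t) _) ?_
  filter_upwards [self_mem_nhdsWithin] with s hs using ⟨s, Or.inl hs.1, rfl⟩

theorem hsep (A : Set DA) : ∃ D ⊆ A, D.Countable ∧ A ⊆ closure D := by
  obtain ⟨D1, a1, a2, a3⟩ := side (j := fun t => hi t) (fun t => isOpen_Ioi (a := t)) (fun t => by
      rw [tendsto_subtype_rng, tendsto_pi_nhds]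
      intro s
      refine tendsto_const_nhds.congr' ?_
      rcases le_or_gt s t with h | h
      · filter_upwards [self_mem_nhdsWithin] with r hr
        simp [hi, h, h.trans (le_of_lt hr)]
      · filter_upwards [nhdsWithin_le_nhds (Iio_mem_nhds h)] with r hr
        simp [hi, h.not_ge, (show r < s from hr).not_ge])
    {t : ℝ | hi t ∈ A} countable_setOfPred_isolated_right_within
  obtain ⟨D2, b1, b2, b3⟩ := side (j := fun t => lo t) (fun t => isOpen_Iio (a := t)) (fun t => by
      rw [tendsto_subtype_rng, tendsto_pi_nhds]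
      intro s
      refine tendsto_const_nhds.congr' ?_
      rcases le_or_gt t s with h | h
      · filter_upwards [self_mem_nhdsWithin] with r hr
        simp [lo, h.not_gt, ((show r < t from hr).le.trans h).not_gt]
      · filter_upwards [nhdsWithin_le_nhds (Ioi_mem_nhds h)] with r hr
        simp [lo, h, (show s < r from hr)])
    {t : ℝ | lo t ∈ A} countable_setOfPred_isolated_left_within
  refine ⟨(fun t : ℝ => hi t) '' D1 ∪ (fun t : ℝ => lo t) '' D2 ∪ (A ∩ {lo ⊥, lo ⊤}),
    union_subset (union_subset (image_subset_iff.2 a1) (image_subset_iff.2 b1)) inter_subset_left,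
    ((a2.image _).union (b2.image _)).union ((to_countable _).mono inter_subset_right),
    fun x hx => ?_⟩
  rcases classify x with h | ⟨t, -, h⟩
  · generalize pos x = e at h
    subst h
    induction e using EReal.rec with
    | bot => exact subset_closure (Or.inr ⟨hx, Or.inl rfl⟩)
    | coe t => exact closure_mono (subset_union_right.trans subset_union_left) (b3 ⟨t, hx, rfl⟩)
    | top => exact subset_closure (Or.inr ⟨hx, Or.inr rfl⟩)
  · subst h
    exact closure_mono (subset_union_left.trans subset_union_left) (a3 ⟨t, hx, rfl⟩)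

open Cardinal in
theorem hd_DA : hd DA = ℵ₀ := by
  refine max_eq_right (ciSup_le' fun A => ?_)
  obtain ⟨D, h1, h2, h3⟩ := hsep A
  refine (csInf_le' (s := {c | ∃ D : Set A, Dense D ∧ #D = c})
    ⟨Subtype.val ⁻¹' D, ?_, rfl⟩).trans
    (le_aleph0_iff_set_countable.2 (h2.preimage Subtype.val_injective))
  rwa [Subtype.dense_iff, Subtype.image_preimage_coe, inter_eq_right.2 h1]

open Cardinal in
theorem hd_A : ℵ₀ < hd (OnePoint DR) := by
  refine lt_max_of_lt_left (lt_of_lt_of_le ?_
    (le_ciSup (bddAbove_range _) (range (OnePoint.some : DR → OnePoint DR))))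
  have : DiscreteTopology (range (OnePoint.some : DR → OnePoint DR)) :=
    OnePoint.isOpenEmbedding_coe.isEmbedding.toHomeomorph.symm.isEmbedding.discreteTopology
  obtain ⟨D, h1, h2⟩ := csInf_mem (s := {c | ∃ D : Set (range (OnePoint.some : DR → OnePoint DR)),
    Dense D ∧ #D = c}) ⟨_, univ, dense_univ, rfl⟩
  rw [dens, ← h2, dense_discrete.1 h1, mk_univ, mk_range_eq _ OnePoint.coe_injective]
  exact not_le.1 fun h => DR_unc (countable_univ_iff.2 (mk_le_aleph0_iff.1 h))

end Pool.Agent.Lead.Hd
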