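import Pool.Agent.Lead.GroDefs

namespace Pool.Agent.Lead.Hd

open Cardinal

/-- The density of a space: the least cardinality of a dense subset. -/
noncomputable def dens (Z : Type) [TopologicalSpace Z] : Cardinal :=
  sInf {c | ∃ D : Set Z, Dense D ∧ #D = c}

/-- The hereditary density (taken infinite). -/
noncomputable def hd (X : Type) [TopologicalSpace X] : Cardinal :=
  max (⨆ A : Set X, dens A) ℵ₀

end Pool.Agent.Lead.Hd
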