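import Mathlib

set_option autoImplicit false
open Set Filter Topology

namespace Pool.Agent.Lead.Ilp

def Ext (d : ℕ → ℝ) (s : Set ℕ) (n : ℕ) (ε : ℝ) (B : Set ℕ) : Prop :=
  (∀ k < n, (k ∈ B ↔ k ∈ s)) ∧ ∀ k, n ≤ k → k ∈ B → d k < ε

def Stp (d : ℕ → ℝ) (s : Set ℕ) (n : ℕ) (ε : ℝ) (s' : Set ℕ) (n' : ℕ) : Prop :=
  (∀ k < n, (k ∈ s' ↔ k ∈ s)) ∧ ∀ k, n ≤ k → k < n' → k ∈ s' → d k < ε

theorem fusion (d : ℕ → ℝ) (s : ℕ → Set ℕ) (n : ℕ → ℕ) (ε : ℕ → ℝ) (hn : ∀ i, n i < n (i + 1))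
    (hε : Antitone ε) (h : ∀ i, Stp d (s i) (n i) (ε i) (s (i + 1)) (n (i + 1))) :
    ∃ E, ∀ i, Ext d (s i) (n i) (ε i) E := by
  have hm : StrictMono n := strictMono_nat_of_lt_succ hn
  have ag : ∀ i j, i ≤ j → ∀ k < n i, (k ∈ s j ↔ k ∈ s i) := by
    intro i j hij k hk
    induction j, hij using Nat.le_induction with
    | base => rfl
    | succ j hj ih => rw [(h j).1 k (hk.trans_le (hm.monotone hj)), ih]
  have hk1 : ∀ k, k < n (k + 1) := fun k => Nat.lt_of_succ_le hm.le_apply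
  have e1 : ∀ i, ∀ k < n i, (k ∈ s (k + 1) ↔ k ∈ s i) := fun i k hk =>
    (ag _ _ (le_max_left (k + 1) i) k (hk1 k)).symm.trans (ag _ _ (le_max_right _ _) k hk)
  refine ⟨{k | k ∈ s (k + 1)}, fun i => ⟨e1 i, fun k hk hE => ?_⟩⟩
  classical
  have hex : ∃ j, k < n (j + 1) := ⟨k, hk1 k⟩
  have h1 := Nat.find_spec hex
  have h2 : i ≤ Nat.find hex := by
    by_contra hc
    have := hm.monotone (show Nat.find hex + 1 ≤ i by omega)
    omega
  have h3 : n (Nat.find hex) ≤ k := by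
    rcases h2.eq_or_lt with h4 | h4
    · rw [← h4]; exact hk
    · have := Nat.find_min hex (show Nat.find hex - 1 < Nat.find hex by omega)
      rw [show Nat.find hex - 1 + 1 = Nat.find hex by omega] at this
      omega
  exact ((h _).2 k h3 h1 ((e1 _ k h1).1 hE)).trans_le (hε h2)

open Classical in
noncomputable def ch (A : Set ℕ) : ℕ → Bool := fun n => decide (n ∈ A)

def P (C : ℕ → Set (ℕ → Bool)) (d : ℕ → ℝ) (s : Set ℕ) (n : ℕ) (ε : ℝ) : Prop :=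
  ∃ (s' : Set ℕ) (n' : ℕ) (δ : ℝ) (j : ℕ), 0 < δ ∧ n ≤ n' ∧ Stp d s n ε s' n' ∧
    ∀ B, Ext d s' n' δ B → ch B ∈ C j

def Nul (d : ℕ → ℝ) (A : Set ℕ) : Prop := ∀ ε > 0, ∃ N, ∀ k, N ≤ k → k ∈ A → d k < ε

theorem fwd (C : ℕ → Set (ℕ → Bool)) (hC : ∀ j, IsClosed (C j)) (d : ℕ → ℝ)
    (h : ∀ A, Nul d A → ∃ j, ch A ∈ C j) (s : Set ℕ) (n : ℕ) (ε : ℝ) (hε : 0 < ε) :
    P C d s n ε := by
  by_contra hc
  have step : ∀ (j : ℕ) (p : {p : Set ℕ × ℕ // n ≤ p.2 ∧ Stp d s n ε p.1 p.2}),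
      ∃ q : {p : Set ℕ × ℕ // n ≤ p.2 ∧ Stp d s n ε p.1 p.2}, p.1.2 < q.1.2 ∧
        Stp d p.1.1 p.1.2 (min ε (1 / ((j : ℝ) + 1))) q.1.1 q.1.2 ∧
        ∀ B : Set ℕ, (∀ k < q.1.2, (k ∈ B ↔ k ∈ q.1.1)) → ch B ∉ C j := by
    rintro j ⟨⟨s', n'⟩, h1, h2⟩
    have : ∃ B, Ext d s' n' (min ε (1 / ((j : ℝ) + 1))) B ∧ ch B ∉ C j := by
      by_contra hn
      push Not at hn
      exact hc ⟨s', n', _, j, lt_min hε (by positivity), h1, h2, hn⟩
    obtain ⟨B, hB, hBC⟩ := this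
    obtain ⟨I, u, hu, hsub⟩ := isOpen_pi_iff.1 (hC j).isOpen_compl _ hBC
    refine ⟨⟨(B, max (n' + 1) (I.sup id + 1)), by simp only; omega, fun k hk => ?_,
      fun k hk _ hkB => ?_⟩, by simp only; omega, ⟨hB.1, fun k a _ b => hB.2 k a b⟩, ?_⟩
    · exact (hB.1 k (by simp only at h1; omega)).trans (h2.1 k hk)
    · by_cases hkn : k < n'
      · exact h2.2 k hk hkn ((hB.1 k hkn).1 hkB)
      · exact (hB.2 k (not_lt.1 hkn) hkB).trans_le (min_le_left _ _)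
    · intro B' hB'
      refine hsub fun k hk => ?_
      have h3 : k ≤ I.sup id := Finset.le_sup (f := id) hk
      have : ch B' k = ch B k := by
        have h4 : k ∈ B' ↔ k ∈ B := hB' k (by simp only; omega)
        exact decide_eq_decide.2 h4
      rw [this]; exact (hu k hk).2
  choose st h1 h2 h3 using step
  let q : ℕ → {p : Set ℕ × ℕ // n ≤ p.2 ∧ Stp d s n ε p.1 p.2} := fun i =>
    Nat.rec ⟨(s, n), le_rfl, fun _ _ => Iff.rfl, fun k a b => absurd b (not_lt.2 a)⟩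
      (fun j p => st j p) i
  obtain ⟨E, hE⟩ := fusion d (fun i => (q i).1.1) (fun i => (q i).1.2)
    (fun j => min ε (1 / ((j : ℝ) + 1))) (fun i => h1 i (q i))
    (fun a b hab => min_le_min le_rfl (by
      have : (a : ℝ) ≤ b := by exact_mod_cast hab
      gcongr)) (fun i => h2 i (q i))
  obtain ⟨j, hj⟩ := h E (by
    intro η hη
    obtain ⟨m, hm⟩ := exists_nat_one_div_lt hη
    exact ⟨_, fun k a b => ((hE m).2 k a b).trans_le ((min_le_right _ _).trans hm.le)⟩)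
  exact h3 j (q j) E (hE (j + 1)).1 hj

theorem bwd (C : ℕ → ℕ → Set (ℕ → Bool)) (d : ℕ → ℝ)
    (h : ∀ m s n ε, 0 < ε → P (C m) d s n ε) (A : Set ℕ) (hA : Nul d A) :
    ∃ (N : ℕ) (E : ℕ → Set ℕ), (∀ b < 2, ∀ m, ∃ j, ch (E b) ∈ C m j) ∧
      ∀ k ∈ A, N ≤ k → k ∈ E 0 ∨ k ∈ E 1 := by
  classical
  let T := {p : (ℕ → Set ℕ) × ℕ × ℝ // 0 < p.2.2 ∧ ∀ k, p.2.1 ≤ k → k ∈ A → d k < p.2.2}
  have step : ∀ (i : ℕ) (p : T), ∃ q : T, p.1.2.1 < q.1.2.1 ∧ q.1.2.2 ≤ p.1.2.2 ∧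
      (∀ b, Stp d (p.1.1 b) p.1.2.1 p.1.2.2 (q.1.1 b) q.1.2.1) ∧
      (∃ j, ∀ B, Ext d (q.1.1 (i % 2)) q.1.2.1 q.1.2.2 B → ch B ∈ C (i / 2) j) ∧
      ∀ b, b ≠ i % 2 → ∀ k ∈ A, p.1.2.1 ≤ k → k ∈ q.1.1 b := by
    rintro i ⟨⟨S, n, ε⟩, hε, hAn⟩
    obtain ⟨s', n', δ, j, hδ, hn, h1, h2⟩ := h (i / 2) (S (i % 2)) n ε hε
    obtain ⟨N, hN⟩ := hA δ hδ
    refine ⟨⟨(fun b => if b = i % 2 then {k | k ∈ s' ∧ k < n'} else
      {k | (k < n ∧ k ∈ S b) ∨ (n ≤ k ∧ k ∈ A)}, max (n' + 1) N, min ε δ), lt_min hε hδ,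
      fun k hk hkA => lt_min (hAn k (by simp only at hk ⊢; omega) hkA)
        (hN k (by simp only at hk; omega) hkA)⟩, by simp only; omega, min_le_left _ _,
      fun b => ?_, ⟨j, fun B hB => h2 B ⟨fun k hk => ?_, fun k hk hkB => ?_⟩⟩, fun b hb k hk hnk => ?_⟩
    · by_cases hb : b = i % 2
      · subst hb
        simp only [if_true]
        exact ⟨fun k hk => ⟨fun a => (h1.1 k hk).1 a.1, fun a => ⟨(h1.1 k hk).2 a, by omega⟩⟩,
          fun k a _ c => h1.2 k a c.2 c.1⟩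
      · simp only [if_neg hb]
        refine ⟨fun k hk => ⟨fun a => a.elim (fun a => a.2) fun a => by omega,
          fun a => Or.inl ⟨hk, a⟩⟩, fun k a _ c => ?_⟩
        exact c.elim (fun c => by omega) fun c => hAn k a c.2
    · have := hB.1 k (by simp only; omega)
      simpa [hk] using this
    · by_cases hk' : k < max (n' + 1) N
      · have := (hB.1 k hk').1 hkB
        simp only [if_true, mem_ofPred_eq] at this
        omega
      · exact (hB.2 k (not_lt.1 hk') hkB).trans_le (min_le_right _ _)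
    · simp only [if_neg hb]
      exact Or.inr ⟨hnk, hk⟩
  choose st h1 h2 h3 h4 h5 using step
  obtain ⟨N, hN⟩ := hA 1 one_pos
  let q : ℕ → T := fun i => Nat.rec ⟨(fun _ => ∅, N, 1), one_pos, hN⟩ (fun j p => st j p) i
  have := fun b => fusion d (fun i => (q i).1.1 b) (fun i => (q i).1.2.1) (fun i => (q i).1.2.2)
    (fun i => h1 i (q i)) (antitone_nat_of_succ_le fun i => h2 i (q i)) (fun i => h3 i (q i) b)
  choose E hE using this
  refine ⟨N, E, fun b hb m => ?_, fun k hk hNk => ?_⟩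
  · obtain ⟨j, hj⟩ := h4 (2 * m + b) (q (2 * m + b))
    rw [show (2 * m + b) % 2 = b by omega, show (2 * m + b) / 2 = m by omega] at hj
    exact ⟨j, hj _ (hE b (2 * m + b + 1))⟩
  · have hm : StrictMono fun i => (q i).1.2.1 := strictMono_nat_of_lt_succ fun i => h1 i (q i)
    have hex : ∃ j, k < (q (j + 1)).1.2.1 := ⟨k, Nat.lt_of_succ_le hm.le_apply⟩
    have a1 := Nat.find_spec hex
    have a2 : (q (Nat.find hex)).1.2.1 ≤ k := by
      rcases Nat.eq_zero_or_pos (Nat.find hex) with h0 | h0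
      · rw [h0]; exact hNk
      · have := Nat.find_min hex (show Nat.find hex - 1 < Nat.find hex by omega)
        rw [show Nat.find hex - 1 + 1 = Nat.find hex by omega] at this
        omega
    by_cases hp : Nat.find hex % 2 = 0
    · exact Or.inr (((hE 1 (Nat.find hex + 1)).1 k a1).2 (h5 (Nat.find hex) _ 1 (by omega) k hk a2))
    · exact Or.inl (((hE 0 (Nat.find hex + 1)).1 k a1).2 (h5 (Nat.find hex) _ 0 (by omega) k hk a2))

theorem P_open {X : Type} [MetricSpace X] (x : ℕ → X) (C : ℕ → Set (ℕ → Bool)) (s : Set ℕ) (n : ℕ)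
    (ε : ℝ) : IsOpen {l : X | P C (fun k => dist (x k) l) s n ε} := by
  rw [isOpen_iff_mem_nhds]
  rintro l ⟨s', n', δ, j, hδ, hn, h1, h2⟩
  have e1 : ∀ᶠ l' in 𝓝 l, ∀ k ∈ Finset.range n', n ≤ k → k ∈ s' → dist (x k) l' < ε := by
    refine (eventually_all_finset _).2 fun k hk => ?_
    by_cases a : n ≤ k ∧ k ∈ s'
    · have : ∀ᶠ l' in 𝓝 l, dist (x k) l' < ε :=
        (isOpen_lt (continuous_const.dist continuous_id) continuous_const).mem_nhds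
          (h1.2 k a.1 (Finset.mem_range.1 hk) a.2)
      exact this.mono fun _ h _ _ => h
    · exact Eventually.of_forall fun _ b c => absurd ⟨b, c⟩ a
  filter_upwards [e1, Metric.ball_mem_nhds l (half_pos hδ)] with l' a b
  refine ⟨s', n', δ / 2, j, half_pos hδ, hn, ⟨h1.1, fun k c e f => a k (Finset.mem_range.2 e) c f⟩,
    fun B hB => h2 B ⟨hB.1, fun k c e => ?_⟩⟩
  have := hB.2 k c e
  have := dist_triangle (x k) l' l
  rw [Metric.mem_ball] at b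
  simp only at *
  linarith

theorem main' {X : Type} [MetricSpace X] (I : Set (Set ℕ))
    (h1 : ∀ A ∈ I, ∀ B : Set ℕ, B ⊆ A → B ∈ I) (h2 : ∀ A ∈ I, ∀ B ∈ I, A ∪ B ∈ I)
    (h3 : ∀ A : Set ℕ, A.Finite → A ∈ I)
    (C : ℕ → ℕ → Set (ℕ → Bool)) (hC : ∀ i j, IsClosed (C i j))
    (hI : {f : ℕ → Bool | {n : ℕ | f n = true} ∈ I} = ⋂ i, ⋃ j, C i j) (x : ℕ → X) :
    ∃ D : ℕ → Set X, (∀ j, IsClosed (D j)) ∧
        {l : X | ∃ A : Set ℕ, A ∉ I ∧ Tendsto x (atTop ⊓ 𝓟 A) (𝓝 l)} = ⋃ j, D j := by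
  classical
  have hch : ∀ A, A ∈ I ↔ ∀ i, ∃ j, ch A ∈ C i j := by
    intro A
    have := Set.ext_iff.1 hI (ch A)
    simpa [ch] using this
  have hT : ∀ (A : Set ℕ) (l : X), Tendsto x (atTop ⊓ 𝓟 A) (𝓝 l) ↔
      Nul (fun k => dist (x k) l) A := by
    intro A l
    simp only [Metric.tendsto_nhds, eventually_inf_principal, eventually_atTop, Nul]
  obtain ⟨σ, hσ⟩ := exists_surjective_nat (ℕ × Finset ℕ × ℕ × ℕ)
  refine ⟨fun i => {l | P (C (σ i).1) (fun k => dist (x k) l) (σ i).2.1 (σ i).2.2.1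
    (1 / (((σ i).2.2.2 : ℝ) + 1))}ᶜ, fun i => (P_open x _ _ _ _).isClosed_compl, ?_⟩
  ext l
  simp only [mem_ofPred_eq, mem_iUnion, mem_compl_iff, hT]
  constructor
  · rintro ⟨A, hA, hN⟩
    by_contra hc
    push Not at hc
    obtain ⟨N, E, hE, hAE⟩ := bwd C (fun k => dist (x k) l) (by
      intro m s n ε hε
      obtain ⟨r, hr⟩ := exists_nat_one_div_lt hε
      obtain ⟨i, hi⟩ := hσ (m, (Finset.range n).filter (· ∈ s), n, r)
      have := hc i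
      rw [hi] at this
      obtain ⟨s', n', δ, j, a1, a2, a3, a4⟩ := this
      refine ⟨s', n', δ, j, a1, a2, ⟨fun k hk => ?_, fun k b c e => (a3.2 k b c e).trans hr⟩, a4⟩
      simpa [hk] using a3.1 k hk) A hN
    refine hA (h1 _ (h2 _ (h3 _ (finite_lt_nat N)) _ (h2 _ ((hch _).2 (hE 0 (by omega))) _
      ((hch _).2 (hE 1 (by omega))))) A fun k hk => ?_)
    by_cases hkN : k < N
    · exact Or.inl hkN
    · exact Or.inr (hAE k hk (not_lt.1 hkN))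
  · rintro ⟨i, hi⟩
    by_contra hc
    push Not at hc
    refine hi (fwd _ (hC _) _ (fun A hA => (hch A).1 ?_ _) _ _ _ (by positivity))
    by_contra hAI
    exact hc A hAI hA

end Pool.Agent.Lead.Ilp
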