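import Pool.Agent.Lead.Gro1

namespace Pool.Agent.Lead.Gro

open Set Topology Filter

theorem fin_cnt {I : Type} {S : Set I} (hS : S.Countable) : {G : Finset I | ↑G ⊆ S}.Countable := by
  have := (countable_ofPred_finite_subset hS).preimage_of_injOn
    (f := fun G : Finset I => (G : Set I)) (Finset.coe_injective.injOn)
  exact this.mono fun G hG => And.intro G.finite_toSet hG

theorem closing {I : Type} (Γ : Finset I → Set I) (hΓ : ∀ G, (Γ G).Countable) {S0 : Set I}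
    (h0 : S0.Countable) : ∃ S : Set I, S.Countable ∧ S0 ⊆ S ∧ ∀ G : Finset I, ↑G ⊆ S → Γ G ⊆ S := by
  let st : ℕ → Set I := fun n => Nat.rec S0
    (fun _ s => s ∪ ⋃ G ∈ {G : Finset I | ↑G ⊆ s}, Γ G) n
  have hst : ∀ n, st (n + 1) = st n ∪ ⋃ G ∈ {G : Finset I | ↑G ⊆ st n}, Γ G := fun n => rfl
  have hc : ∀ n, (st n).Countable := by
    intro n
    induction n with
    | zero => exact h0
    | succ n ih =>
      rw [hst]
      refine ih.union (Countable.biUnion ?_ fun G _ => hΓ G)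
      exact fin_cnt ih
  have hm : Monotone st := monotone_nat_of_le_succ fun n => by rw [hst]; exact subset_union_left
  refine ⟨⋃ n, st n, countable_iUnion hc, subset_iUnion st 0, fun G hG => ?_⟩
  have : ∀ᶠ n in atTop, ∀ i ∈ G, i ∈ st n := by
    rw [Finset.eventually_all]
    intro i hi
    obtain ⟨n, hn⟩ := mem_iUnion.1 (hG hi)
    filter_upwards [eventually_ge_atTop n] with m hm' using hm hm' hn
  obtain ⟨n, hn⟩ := this.exists
  refine subset_iUnion_of_subset (n + 1) ?_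
  rw [hst]
  exact subset_union_of_subset_right (subset_biUnion_of_mem (u := Γ) (show G ∈ {G : Finset I | ↑G ⊆ st n}
    from fun i hi => hn i hi)) _

abbrev XX {I : Type} (X0 : Set (I → Bool)) (p : I → Bool) : Type :=
  ↥(insert p X0 : Set (I → Bool))

section
variable {I : Type} {X0 : Set (I → Bool)} {p : I → Bool} {N : Set I}

def Loc (X0 : Set (I → Bool)) (p : I → Bool) (S : Set I) (h : XX X0 p → ℝ) :
    Prop :=
  ∀ U : XX X0 p, U.1 ∈ X0 → ∀ ε > 0, ∃ G : Finset I, ↑G ⊆ S ∧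
    ∀ V : XX X0 p, V.1 ∈ X0 → (∀ i ∈ G, V.1 i = U.1 i) → |h V - h U| ≤ ε

theorem loc_of_cont {h : XX X0 p → ℝ} (hc : Continuous h) :
    Loc X0 p univ h := by
  intro U _ ε hε
  have ho : IsOpen {V | |h V - h U| < ε} :=
    isOpen_lt (hc.sub continuous_const).abs continuous_const
  obtain ⟨O, hO, hO'⟩ := isOpen_induced_iff.1 ho
  have hU : U ∈ Subtype.val ⁻¹' O := by rw [hO']; simpa using hε
  obtain ⟨G, u, h1, h2⟩ := isOpen_pi_iff.1 hO U.1 hU
  refine ⟨G, subset_univ _, fun V _ hV => ?_⟩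
  have : V ∈ Subtype.val ⁻¹' O := h2 fun i hi => by rw [hV i hi]; exact (h1 i hi).2
  rw [hO'] at this
  exact le_of_lt this

theorem fact1 (H2 : ∀ (U : I → Bool) (G : Finset I), ∃ V ∈ X0, (∀ i ∈ G, V i = U i) ∧
      ∀ i, i ∉ N → V i = true → i ∈ G)
    {h : XX X0 p → ℝ} (hl : Loc X0 p univ h) :
    ∃ S : Set I, S.Countable ∧ ∀ U : XX X0 p, U.1 ∈ X0 → ∀ ε > 0,
      ∃ G : Finset I, ↑G ⊆ S ∧ ∀ V : XX X0 p, V.1 ∈ X0 →
        (∀ i ∈ G, V.1 i = U.1 i) → h V ≤ h U + ε := by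
  classical
  have h1 : ∀ (G0 P : Finset I) (b : ℚ), ∃ G1 : Finset I,
      (∃ W : XX X0 p, W.1 ∈ X0 ∧ (∀ i ∈ G0, W.1 i = decide (i ∈ P)) ∧
        (b : ℝ) < h W) →
      ∃ W : XX X0 p, (∀ i ∈ G0, W.1 i = decide (i ∈ P)) ∧
        ∀ R : XX X0 p, R.1 ∈ X0 → (∀ i ∈ G1, R.1 i = W.1 i) →
          (b : ℝ) ≤ h R := by
    intro G0 P b
    by_cases hW : ∃ W : XX X0 p, W.1 ∈ X0 ∧
      (∀ i ∈ G0, W.1 i = decide (i ∈ P)) ∧ (b : ℝ) < h W
    · obtain ⟨W, h2, h3, h4⟩ := hW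
      obtain ⟨G1, -, h5⟩ := hl W h2 (h W - b) (by linarith)
      refine ⟨G1, fun _ => ⟨W, h3, fun R h6 h7 => ?_⟩⟩
      have := (abs_le.1 (h5 R h6 h7)).1
      linarith
    · exact ⟨∅, fun h => absurd h hW⟩
  choose γ hγ using h1
  obtain ⟨S, hS, -, hcl⟩ := closing (fun G0 => ⋃ P ∈ G0.powerset, ⋃ b : ℚ, (γ G0 P b : Set I))
    (fun G0 => Countable.biUnion (Finset.countable_toSet _) fun P _ =>
      countable_iUnion fun b => Finset.countable_toSet _) countable_empty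
  refine ⟨S, hS, fun U hU ε hε => ?_⟩
  obtain ⟨b, hb1, hb2⟩ := exists_rat_btwn (show h U + ε / 2 < h U + ε by linarith)
  obtain ⟨G, -, hG⟩ := hl U hU (ε / 2) (by positivity)
  refine ⟨G.filter (· ∈ S), fun i hi => (Finset.mem_filter.1 hi).2, fun V hV hVU => ?_⟩
  by_contra hn
  have hP : ∀ i ∈ G.filter (· ∈ S),
      U.1 i = decide (i ∈ (G.filter (· ∈ S)).filter (fun i => U.1 i = true)) := by
    intro i hi
    simp only [Finset.mem_filter] at hi ⊢
    simp [hi.1, hi.2]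
  obtain ⟨W, h2, h3⟩ := hγ (G.filter (· ∈ S)) ((G.filter (· ∈ S)).filter (fun i => U.1 i = true)) b
    ⟨V, hV, fun i hi => (hVU i hi).trans (hP i hi), by linarith [not_le.1 hn]⟩
  have h4 : (γ (G.filter (· ∈ S)) ((G.filter (· ∈ S)).filter (fun i => U.1 i = true)) b : Set I)
      ⊆ S := by
    refine Subset.trans ?_ (hcl (G.filter (· ∈ S)) fun i hi => (Finset.mem_filter.1 hi).2)
    intro i hi
    simp only [mem_iUnion]
    exact ⟨_, Finset.mem_powerset.2 (Finset.filter_subset _ _), b, hi⟩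
  obtain ⟨R, hR, h5, -⟩ := H2 (fun i => if i ∈ G then U.1 i else W.1 i)
    (G ∪ γ (G.filter (· ∈ S)) ((G.filter (· ∈ S)).filter (fun i => U.1 i = true)) b)
  have h6 := hG ⟨R, mem_insert_of_mem _ hR⟩ hR fun i hi => by
    simpa [hi] using h5 i (Finset.mem_union_left _ hi)
  have h7 := h3 ⟨R, mem_insert_of_mem _ hR⟩ hR fun i hi => by
    have h8 := h5 i (Finset.mem_union_right _ hi)
    by_cases hi' : i ∈ G
    · have h9 : i ∈ G.filter (· ∈ S) := Finset.mem_filter.2 ⟨hi', h4 hi⟩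
      simp only [hi', if_true] at h8
      exact h8.trans ((hP i h9).trans (h2 i h9).symm)
    · simpa [hi'] using h8
  linarith [(abs_le.1 h6).2]

theorem fact2 (H2 : ∀ (U : I → Bool) (G : Finset I), ∃ V ∈ X0, (∀ i ∈ G, V i = U i) ∧
      ∀ i, i ∉ N → V i = true → i ∈ G)
    {h : XX X0 p → ℝ} (hl : Loc X0 p univ h) :
    ∃ S : Set I, S.Countable ∧ Loc X0 p S h := by
  classical
  obtain ⟨S1, h1, h2⟩ := fact1 H2 hl
  obtain ⟨S2, h3, h4⟩ := fact1 (h := fun z => - h z) H2 (fun U hU ε hε => by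
    obtain ⟨G, h5, h6⟩ := hl U hU ε hε
    refine ⟨G, h5, fun V hV h7 => ?_⟩
    have := h6 V hV h7
    rwa [show -h V - -h U = -(h V - h U) by ring, abs_neg])
  refine ⟨S1 ∪ S2, h1.union h3, fun U hU ε hε => ?_⟩
  obtain ⟨G1, h5, h6⟩ := h2 U hU ε hε
  obtain ⟨G2, h7, h8⟩ := h4 U hU ε hε
  refine ⟨G1 ∪ G2, by rw [Finset.coe_union]; exact union_subset_union h5 h7, fun V hV h9 => ?_⟩
  have a1 := h6 V hV fun i hi => h9 i (Finset.mem_union_left _ hi)
  have a2 := h8 V hV fun i hi => h9 i (Finset.mem_union_right _ hi)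
  rw [abs_le]; constructor <;> linarith

theorem agree_set {P : Type} {W A : Set (P → ℝ)} (hR : RCC W A) {f : P → ℝ} (hf : f ∈ closure A)
    {E : Set P} (hE : E.Countable) (y : P) : ∃ g ∈ W, ∀ z ∈ insert y E, g z = f z := by
  obtain ⟨d, hd⟩ := (hE.insert y).exists_eq_range (insert_nonempty _ _)
  obtain ⟨g, hg, h⟩ := agree hR hf d
  refine ⟨g, hg, fun z hz => ?_⟩
  rw [hd] at hz
  obtain ⟨n, rfl⟩ := hz
  exact h n

theorem iso (hN : N.Countable) (H1 : ∀ U ∈ X0, {i | i ∉ N ∧ U i = true}.Finite)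
    (H2 : ∀ (U : I → Bool) (G : Finset I), ∃ V ∈ X0, (∀ i ∈ G, V i = U i) ∧
      ∀ i, i ∉ N → V i = true → i ∈ G)
    (H3 : ∀ S : Set I, S.Countable → {V | V ∈ X0 ∧ ∀ i, i ∉ N → V i = true → i ∈ S}.Countable)
    {F : Set (XX X0 p → ℝ)} (hF : F ⊆ {f | Continuous f}) (hR : RCC F F) :
    closure F ⊆ F := by
  classical
  intro φ hφ
  have hφl : Loc X0 p univ φ := by
    intro U hU ε hε
    by_contra hn
    push Not at hn
    choose V hV1 hV2 hV3 using fun G => hn G (subset_univ _)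
    obtain ⟨S, hS, hS0, hcl⟩ := closing (fun G => {i | i ∉ N ∧ (V G).1 i = true})
      (fun G => (H1 _ (hV1 G)).countable) (hN.union (H1 _ hU).countable)
    have hE : (V '' {G : Finset I | ↑G ⊆ S}).Countable := Countable.image (fin_cnt hS) _
    obtain ⟨g, hg, h1⟩ := agree_set hR hφ hE U
    obtain ⟨G1, -, h2⟩ := loc_of_cont (hF hg) U hU ε hε
    have h3 : ((G1.filter (· ∈ S) : Finset I) : Set I) ⊆ S := fun i hi => (Finset.mem_filter.1 hi).2
    have h4 := h2 (V (G1.filter (· ∈ S))) (hV1 _) fun i hi => by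
      by_cases hi' : i ∈ S
      · exact hV2 _ i (Finset.mem_filter.2 ⟨hi, hi'⟩)
      · have a1 : i ∉ N := fun h => hi' (hS0 (Or.inl h))
        have a2 : ¬ U.1 i = true := fun h => hi' (hS0 (Or.inr ⟨a1, h⟩))
        have a3 : ¬ (V (G1.filter (· ∈ S))).1 i = true := fun h => hi' (hcl _ h3 ⟨a1, h⟩)
        simp only [Bool.not_eq_true] at a2 a3
        rw [a2, a3]
    rw [h1 _ (mem_insert_of_mem _ ⟨_, h3, rfl⟩), h1 _ (mem_insert _ _)] at h4
    exact absurd h4 (not_le.2 (hV3 _))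
  obtain ⟨Sφ, hSφ, hφS⟩ := fact2 H2 hφl
  have h1 : ∀ S : Set I, ∃ g ∈ F, ∃ S' : Set I, S'.Countable ∧ Loc X0 p S' g ∧ (S.Countable →
      g ⟨p, mem_insert _ _⟩ = φ ⟨p, mem_insert _ _⟩ ∧
      ∀ V : XX X0 p, V.1 ∈ X0 → (∀ i, i ∉ N → V.1 i = true → i ∈ S) →
        g V = φ V) := by
    intro S
    by_cases hS : S.Countable
    · obtain ⟨g, hg, h2⟩ := agree_set hR hφ ((H3 S hS).preimage Subtype.val_injective)
        ⟨p, mem_insert _ _⟩
      obtain ⟨S', h3, h4⟩ := fact2 H2 (loc_of_cont (hF hg))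
      exact ⟨g, hg, S', h3, h4, fun _ => ⟨h2 _ (mem_insert _ _),
        fun V h5 h6 => h2 V (mem_insert_of_mem _ ⟨h5, h6⟩)⟩⟩
    · obtain ⟨g, hg⟩ := closure_nonempty_iff.1 ⟨φ, hφ⟩
      obtain ⟨S', h3, h4⟩ := fact2 H2 (loc_of_cont (hF hg))
      exact ⟨g, hg, S', h3, h4, fun h => absurd h hS⟩
  choose γ hγ Sg hSg1 hSg2 hSg3 using h1
  let st : ℕ → Set I := fun n => Nat.rec Sφ (fun _ s => s ∪ Sg s) n
  have hst : ∀ n, st (n + 1) = st n ∪ Sg (st n) := fun n => rfl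
  have hc : ∀ n, (st n).Countable := by
    intro n
    induction n with
    | zero => exact hSφ
    | succ n ih => rw [hst]; exact ih.union (hSg1 _)
  have hm : Monotone st := monotone_nat_of_le_succ fun n => by rw [hst]; exact subset_union_left
  obtain ⟨g, hg, hgc⟩ := hR (fun n => γ (st n)) fun n => hγ _
  have : g = φ := by
    funext U
    refine cluster_mem_closed hgc (C := {g | g U = φ U})
      (isClosed_eq (continuous_apply _) continuous_const) ?_
    rcases U.2 with hU | hU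
    · have : U = ⟨p, mem_insert _ _⟩ := Subtype.ext hU
      rw [this]
      exact Eventually.of_forall fun n => (hSg3 _ (hc n)).1
    have h2 : ∀ᶠ n in atTop, ∀ i ∈ {i | i ∉ N ∧ U.1 i = true}, i ∈ ⋃ n, st n → i ∈ st n := by
      rw [(H1 _ hU).eventually_all]
      intro i _
      by_cases hi : i ∈ ⋃ n, st n
      · obtain ⟨n, hn⟩ := mem_iUnion.1 hi
        filter_upwards [eventually_ge_atTop n] with m hm' _ using hm hm' hn
      · exact Eventually.of_forall fun n h => absurd h hi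
    filter_upwards [h2] with n hn
    have h3 : ∀ ε > 0, |γ (st n) U - φ U| ≤ 0 + ε := by
      intro ε hε
      obtain ⟨G1, a1, a2⟩ := hSg2 (st n) U hU (ε / 2) (by positivity)
      obtain ⟨G2, a3, a4⟩ := hφS U hU (ε / 2) (by positivity)
      obtain ⟨V, hV, a5, a6⟩ := H2 U.1 (G1 ∪ G2)
      have a7 := a2 ⟨V, mem_insert_of_mem _ hV⟩ hV fun i hi => a5 i (Finset.mem_union_left _ hi)
      have a8 := a4 ⟨V, mem_insert_of_mem _ hV⟩ hV fun i hi => a5 i (Finset.mem_union_right _ hi)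
      have a9 := (hSg3 _ (hc n)).2 ⟨V, mem_insert_of_mem _ hV⟩ hV fun i hi hVi => by
        have b1 := a6 i hi hVi
        refine hn i ⟨hi, (a5 i b1).symm.trans hVi⟩ ?_
        rcases Finset.mem_union.1 b1 with b2 | b2
        · exact mem_iUnion.2 ⟨n + 1, Or.inr (a1 b2)⟩
        · exact mem_iUnion.2 ⟨0, a3 b2⟩
      rw [a9] at a7
      rw [abs_le] at a7 a8 ⊢
      constructor <;> linarith [a7.1, a7.2, a8.1, a8.2]
    exact sub_eq_zero.1 (abs_nonpos_iff.1 (le_of_forall_pos_le_add h3))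
  rwa [← this]

end

end Pool.Agent.Lead.Gro
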