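import Pool.Agent.Lead.Iso1

namespace Pool.Agent.Lead.Gro

open Set Topology Filter

theorem exists_mad : ∃ 𝒜 : Set (Set ℕ), 𝒜.Infinite ∧ (∀ A ∈ 𝒜, A.Infinite) ∧
    (𝒜.Pairwise fun A B => (A ∩ B).Finite) ∧
    ∀ B : Set ℕ, B.Infinite → ∃ A ∈ 𝒜, (A ∩ B).Infinite := by
  let col : ℕ → Set ℕ := fun i => range (Nat.pair i)
  have hinj : Function.Injective col := by
    intro i j h
    have : Nat.pair i 0 ∈ col j := h ▸ mem_range_self 0
    obtain ⟨k, hk⟩ := this
    exact (Nat.pair_eq_pair.1 hk).1.symm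
  obtain ⟨𝒜, h1, h2⟩ := zorn_subset_nonempty
    {𝒜 : Set (Set ℕ) | (∀ A ∈ 𝒜, A.Infinite) ∧ 𝒜.Pairwise fun A B => (A ∩ B).Finite}
    (fun c hc hch _ => ⟨⋃₀ c, ⟨fun A ⟨s, hs, hA⟩ => (hc hs).1 A hA, by
        rw [pairwise_sUnion hch.directedOn]; exact fun s hs => (hc hs).2⟩,
        fun s hs => subset_sUnion_of_mem hs⟩) (range col) (by
      constructor
      · rintro _ ⟨i, rfl⟩
        exact infinite_range_of_injective fun a b h => (Nat.pair_eq_pair.1 h).2
      · rintro _ ⟨i, rfl⟩ _ ⟨j, rfl⟩ hne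
        refine finite_empty.subset ?_
        rintro _ ⟨⟨a, rfl⟩, ⟨b, hb⟩⟩
        exact hne (by rw [(Nat.pair_eq_pair.1 hb).1]))
  refine ⟨𝒜, (infinite_range_of_injective hinj).mono h1, h2.prop.1, h2.prop.2, fun B hB => ?_⟩
  by_contra hn
  push Not at hn
  have h3 : insert B 𝒜 ∈ {𝒜 : Set (Set ℕ) | (∀ A ∈ 𝒜, A.Infinite) ∧
      𝒜.Pairwise fun A B => (A ∩ B).Finite} := by
    refine ⟨?_, h2.prop.2.insert fun A hA _ => ⟨by rw [inter_comm]; exact hn A hA, hn A hA⟩⟩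
    rintro A (rfl | hA)
    exacts [hB, h2.prop.1 A hA]
  have h4 := h2.le_of_ge h3 (subset_insert _ _) (mem_insert _ _)
  exact hB (by simpa using hn B h4)

section
variable (𝒜 : Set (Set ℕ))

def P0 : Set (ℕ ⊕ 𝒜 → Bool) :=
  {U | {A : 𝒜 | U (Sum.inr A) = true}.Finite ∧
    {n | ¬ (U (Sum.inl n) = true ↔ ∃ A : 𝒜, U (Sum.inr A) = true ∧ n ∈ A.1)}.Finite}

theorem P0_H1 : ∀ U ∈ P0 𝒜, {i | i ∉ range Sum.inl ∧ U i = true}.Finite := by
  intro U hU
  refine (hU.1.image Sum.inr).subset ?_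
  rintro (n | A) ⟨h1, h2⟩
  · exact absurd (mem_range_self n) h1
  · exact ⟨A, h2, rfl⟩

theorem P0_H2 (U : ℕ ⊕ 𝒜 → Bool) (G : Finset (ℕ ⊕ 𝒜)) : ∃ V ∈ P0 𝒜, (∀ i ∈ G, V i = U i) ∧
    ∀ i, i ∉ range Sum.inl → V i = true → i ∈ G := by
  classical
  refine ⟨fun i => if i ∈ G then U i else Sum.elim
    (fun n => decide (∃ A : 𝒜, (Sum.inr A ∈ G ∧ U (Sum.inr A) = true) ∧ n ∈ A.1))
    (fun _ => false) i, ⟨?_, ?_⟩, fun i hi => by simp [hi], ?_⟩
  · refine (G.finite_toSet.preimage Sum.inr_injective.injOn).subset fun A hA => ?_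
    by_contra h
    have h' : Sum.inr A ∉ G := h
    simp [h'] at hA
  · refine (G.finite_toSet.preimage Sum.inl_injective.injOn).subset fun n hn => ?_
    by_contra h
    have h' : Sum.inl n ∉ G := h
    apply hn
    simp [h']
  · rintro (n | A) h1 h2
    · exact absurd (mem_range_self n) h1
    · by_contra h
      simp [h] at h2

theorem P0_H3 (S : Set (ℕ ⊕ 𝒜)) (hS : S.Countable) :
    {V | V ∈ P0 𝒜 ∧ ∀ i, i ∉ range Sum.inl → V i = true → i ∈ S}.Countable := by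
  refine Set.MapsTo.countable_of_injOn
    (f := fun V : ℕ ⊕ 𝒜 → Bool => ({A : 𝒜 | V (Sum.inr A) = true},
      {n | ¬ (V (Sum.inl n) = true ↔ ∃ A : 𝒜, V (Sum.inr A) = true ∧ n ∈ A.1)}))
    (t := {t | t.Finite ∧ t ⊆ Sum.inr ⁻¹' S} ×ˢ {t | t.Finite ∧ t ⊆ univ}) ?_ ?_
    ((countable_ofPred_finite_subset (hS.preimage Sum.inr_injective)).prod
      (countable_ofPred_finite_subset countable_univ))
  · intro V hV
    exact ⟨⟨hV.1.1, fun A hA => hV.2 _ (by simp) hA⟩, hV.1.2, subset_univ _⟩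
  · intro V _ W _ h
    obtain ⟨h1, h2⟩ := Prod.mk.inj h
    have h3 : ∀ A, V (Sum.inr A) = W (Sum.inr A) := fun A => by
      have := Set.ext_iff.1 h1 A
      simpa using this
    funext i
    rcases i with n | A
    · have := Set.ext_iff.1 h2 n
      simp only [Set.mem_ofPred_eq, h3] at this
      rw [Bool.eq_iff_iff]
      generalize (∃ A : 𝒜, W (Sum.inr A) = true ∧ n ∈ A.1) = q at this
      tauto
    · exact h3 A

end

theorem not_wg_mad {𝒜 : Set (Set ℕ)} (h0 : 𝒜.Infinite) (h1 : ∀ A ∈ 𝒜, A.Infinite)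
    (h2 : 𝒜.Pairwise fun A B => (A ∩ B).Finite)
    (h3 : ∀ B : Set ℕ, B.Infinite → ∃ A ∈ 𝒜, (A ∩ B).Infinite) :
    ¬ G {f : XX (P0 𝒜) (fun _ => true) → ℝ | Continuous f} := by
  classical
  intro hG
  let ev : ℕ ⊕ 𝒜 → XX (P0 𝒜) (fun _ => true) → ℝ := fun i z => if z.1 i = true then 1 else 0
  have hev : ∀ i, Continuous (ev i) := fun i =>
    (continuous_of_discreteTopology (f := fun b : Bool => if b = true then (1 : ℝ) else 0)).comp
      ((continuous_apply i).comp continuous_subtype_val)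
  have hlim : ∀ (A : 𝒜) (U : ℕ ⊕ 𝒜 → Bool), U ∈ P0 𝒜 →
      ∀ᶠ n in cofinite, n ∈ A.1 → U (Sum.inl n) = U (Sum.inr A) := by
    intro A U hU
    have a1 : ∀ᶠ n in cofinite, ∀ B ∈ {B : 𝒜 | U (Sum.inr B) = true}, B ≠ A → n ∈ A.1 → n ∉ B.1 := by
      rw [hU.1.eventually_all]
      intro B _
      by_cases hB : B = A
      · exact Eventually.of_forall fun n h => absurd hB h
      · filter_upwards [(h2 A.2 B.2 fun h => hB (Subtype.ext h.symm)).compl_mem_cofinite]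
          with n hn _ hA hB' using hn ⟨hA, hB'⟩
    filter_upwards [a1, hU.2.compl_mem_cofinite] with n b1 b2 hn
    have b3 : U (Sum.inl n) = true ↔ ∃ B : 𝒜, U (Sum.inr B) = true ∧ n ∈ B.1 := by
      simpa using b2
    rw [Bool.eq_iff_iff, b3]
    constructor
    · rintro ⟨B, b4, b5⟩
      by_contra h
      exact b1 B b4 (fun hB => h (hB ▸ b4)) hn b5
    · exact fun h => ⟨A, h, hn⟩
  have htend : ∀ (A : 𝒜) (z : XX (P0 𝒜) (fun _ => true)),
      ∀ᶠ n in cofinite, n ∈ A.1 → ev (Sum.inl n) z = ev (Sum.inr A) z := by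
    intro A z
    rcases z.2 with hz | hz
    · exact Eventually.of_forall fun n _ => by simp [ev, hz]
    · filter_upwards [hlim A z.1 hz] with n hn h
      simp only [ev, hn h]
  have hR : RCC {f : XX (P0 𝒜) (fun _ => true) → ℝ | Continuous f}
      (range fun n => ev (Sum.inl n)) := by
    intro a ha
    choose k hk using ha
    rw [← Nat.cofinite_eq_atTop]
    by_cases hfin : (range k).Finite
    · obtain ⟨g, hg, hc⟩ := (hfin.image fun n => ev (Sum.inl n)).isCompact.exists_mapClusterPt_of_frequently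
        (l := cofinite) (f := a) (Frequently.of_forall fun n => ⟨k n, mem_range_self n, hk n⟩)
      obtain ⟨n, -, rfl⟩ := hg
      exact ⟨_, hev _, hc⟩
    · obtain ⟨A, hA, hinf⟩ := h3 _ hfin
      refine ⟨ev (Sum.inr ⟨A, hA⟩), hev _, ?_⟩
      rw [mapClusterPt_iff_frequently]
      intro s hs
      have ht : Tendsto (fun n => ev (Sum.inl n)) (cofinite ⊓ 𝓟 A) (𝓝 (ev (Sum.inr ⟨A, hA⟩))) := by
        rw [tendsto_pi_nhds]
        intro z
        refine tendsto_const_nhds.congr' ?_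
        rw [EventuallyEq, eventually_inf_principal]
        filter_upwards [htend ⟨A, hA⟩ z] with n hn h using (hn h).symm
      have h5 := ht.eventually hs
      rw [eventually_inf_principal, eventually_cofinite] at h5
      rw [frequently_cofinite_iff_infinite]
      refine Infinite.of_image k ((hinf.sdiff h5).mono ?_)
      rintro n ⟨⟨b1, m, rfl⟩, b2⟩
      refine ⟨m, ?_, rfl⟩
      simp only [Set.mem_ofPred_eq, not_not] at b2 ⊢
      rw [← hk m]
      exact b2 b1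
  let φ : XX (P0 𝒜) (fun _ => true) → ℝ := fun z => if z.1 ∈ P0 𝒜 then 0 else 1
  have htop : (fun _ => true) ∉ P0 𝒜 := by
    intro h
    have := h0.to_subtype
    exact infinite_univ (by simpa using h.1)
  have hφ : φ ∈ closure (range fun n => ev (Sum.inl n)) := by
    rw [mem_closure_iff]
    intro O hO hφO
    obtain ⟨Z, u, a1, a2⟩ := isOpen_pi_iff.1 hO φ hφO
    have b1 : (⋃ z ∈ Z, {A : 𝒜 | z.1 ∈ P0 𝒜 ∧ z.1 (Sum.inr A) = true}).Finite := by
      refine Z.finite_toSet.biUnion fun z _ => ?_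
      by_cases hz : z.1 ∈ P0 𝒜
      · exact hz.1.subset fun A hA => hA.2
      · exact finite_empty.subset fun A hA => hz hA.1
    have := h0.to_subtype
    obtain ⟨A, hA⟩ := b1.infinite_compl.nonempty
    have b2 : ∀ᶠ n in cofinite, ∀ z ∈ Z, n ∈ A.1 → ev (Sum.inl n) z = ev (Sum.inr A) z := by
      rw [Finset.eventually_all]
      exact fun z _ => htend A z
    obtain ⟨n, b3, b4⟩ := ((frequently_cofinite_iff_infinite.2 (h1 A.1 A.2)).and_eventually b2).exists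
    refine ⟨_, a2 fun z hz => ?_, n, rfl⟩
    have b5 : ev (Sum.inl n) z = φ z := by
      rw [b4 z hz b3]
      rcases z.2 with h | h
      · simp [ev, φ, h, htop]
      · have : ¬ z.1 (Sum.inr A) = true := fun h' => hA (mem_iUnion₂.2 ⟨z, hz, h, h'⟩)
        simp [ev, φ, h, this]
    show ev (Sum.inl n) z ∈ u z
    rw [b5]
    exact (a1 z hz).2
  have hc : Continuous φ := hG _ (by rintro _ ⟨n, rfl⟩; exact hev _) hR hφ
  obtain ⟨O, hO, hO'⟩ := isOpen_induced_iff.1 (isOpen_lt (continuous_const (y := (0 : ℝ))) hc)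
  have c1 : (⟨fun _ => true, mem_insert _ _⟩ : XX (P0 𝒜) (fun _ => true)) ∈ Subtype.val ⁻¹' O := by
    rw [hO']; simp [φ, htop]
  obtain ⟨Gf, u, c2, c3⟩ := isOpen_pi_iff.1 hO _ c1
  obtain ⟨V, hV, c4, -⟩ := P0_H2 𝒜 (fun _ => true) Gf
  have c5 : (⟨V, mem_insert_of_mem _ hV⟩ : XX (P0 𝒜) (fun _ => true)) ∈ Subtype.val ⁻¹' O :=
    c3 fun i hi => by
      show V i ∈ u i
      rw [c4 i hi]; exact (c2 i hi).2
  rw [hO'] at c5
  simp [φ, hV] at c5

end Pool.Agent.Lead.Gro
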