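import Pool.Agent.Lead.JitDefs

set_option autoImplicit false

namespace Pool.Agent.Lead.Jit
open Finset

theorem hall_int {ι : Type} [Fintype ι] (e t : ι → ℕ)
    (h : ∀ x y, x ≤ y → (univ.filter fun a => x ≤ e a ∧ t a < y).card ≤ y - x) :
    ∃ f : ι → ℕ, Function.Injective f ∧ ∀ a, f a ∈ Icc (e a) (t a) := by
  classical
  refine (all_card_le_biUnion_card_iff_exists_injective fun a => Icc (e a) (t a)).1 fun s => ?_
  have key : ∀ y, ∀ s : Finset ι, (∀ a ∈ s, t a < y) →
      s.card ≤ (s.biUnion fun a => Icc (e a) (t a)).card := by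
    intro y
    induction y using Nat.strong_induction_on with
    | _ y ih =>
      intro s hs
      set U := s.biUnion fun a => Icc (e a) (t a) with hU
      by_cases h0 : range y ⊆ U
      · have := card_le_card h0
        rw [card_range] at this
        exact ((card_le_card fun a ha => by simp [hs a ha]).trans (h 0 y (Nat.zero_le _))).trans this
      have ne : (range y \ U).Nonempty := sdiff_nonempty.2 h0
      obtain ⟨x1, x2⟩ := mem_sdiff.1 (max'_mem _ ne)
      set x := (range y \ U).max' ne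
      rw [mem_range] at x1
      have h1 : (s.filter fun a => x + 1 ≤ e a).card ≤ y - (x + 1) :=
        (card_le_card fun a ha => by
          simp only [mem_filter, mem_univ, true_and] at ha ⊢
          exact ⟨ha.2, hs a ha.1⟩).trans (h (x + 1) y x1)
      have h2 : ∀ a ∈ s.filter fun a => ¬ x + 1 ≤ e a, t a < x := fun a ha => by
        rw [mem_filter] at ha
        by_contra h3
        exact x2 (mem_biUnion.2 ⟨a, ha.1, mem_Icc.2 ⟨by omega, by omega⟩⟩)
      have h3 := ih x x1 _ h2
      have h4 : ((s.filter fun a => ¬ x + 1 ≤ e a).biUnion fun a => Icc (e a) (t a)) ∪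
          Ico (x + 1) y ⊆ U := union_subset (biUnion_subset_biUnion_of_subset_left _
            (filter_subset _ _)) fun z hz => by
          rw [mem_Ico] at hz
          by_contra h5
          have : z ≤ x := le_max' _ _ (mem_sdiff.2 ⟨mem_range.2 hz.2, h5⟩)
          omega
      have h5 := card_le_card h4
      rw [card_union_of_disjoint (disjoint_left.2 fun z hz hz' => by
        obtain ⟨a, a1, a2⟩ := mem_biUnion.1 hz
        have := h2 a a1
        simp only [mem_Icc, mem_Ico] at a2 hz'
        omega), Nat.card_Ico] at h5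
      have := card_filter_add_card_filter_not (s := s) fun a => x + 1 ≤ e a
      omega
  exact key (s.sup t + 1) s fun a ha => Nat.lt_succ_of_le (le_sup ha)

/-- the interval condition gives a sequence -/
theorem feas_of_cond (n D b : ℕ) (d : ℕ → ℕ) (hD : ∑ j ∈ range n, d j = D) (hb : b < D)
    (h : ∀ x z, ∑ i ∈ range n, (d i - (z * d i + b) / D - (x * d i + b) / D) ≤ D - z - x) :
    Feas n d ((b : ℚ) / D) := by
  classical
  have D0 : 0 < D := by omega
  let U : ℕ → ℕ → ℕ := fun i k => (k * d i + b) / D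
  have mono : ∀ i, Monotone (U i) := fun i x y hxy => Nat.div_le_div_right (by gcongr)
  have U0 : ∀ i, U i 0 = 0 := fun i => by simp [U, hb]
  have UD : ∀ i, U i D = d i := fun i => by
    simp only [U]
    rw [Nat.mul_add_div D0, Nat.div_eq_of_lt hb, add_zero]
  let ι := (i : Fin n) × Fin (d i)
  have xe : ∀ a : ι, ∃ m, a.2.val < U a.1 (m + 1) := fun a =>
    ⟨D, a.2.2.trans_le (UD a.1 ▸ mono _ (Nat.le_succ _))⟩
  have xt : ∀ a : ι, ∃ m, a.2.val + 1 + U a.1 (D - (m + 1)) ≤ d a.1 := fun a =>
    ⟨D, by rw [show D - (D + 1) = 0 by omega, U0]; exact a.2.2⟩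
  have he : ∀ (a : ι) x, x ≤ Nat.find (xe a) ↔ U a.1 x ≤ a.2 := fun a x => by
    rw [Nat.le_find_iff]
    refine ⟨fun h => ?_, fun h m hm => not_lt.2 ((mono _ hm).trans h)⟩
    rcases x with _ | x
    · simp [U0]
    · exact not_lt.1 (h x (Nat.lt_succ_self _))
  have ht : ∀ (a : ι) y, Nat.find (xt a) < y ↔ 0 < y ∧ a.2.val + 1 + U a.1 (D - y) ≤ d a.1 :=
    fun a y => by
      rw [Nat.find_lt_iff]
      refine ⟨fun ⟨m, h1, h2⟩ => ⟨by omega, le_trans (by gcongr; exact mono _ (by omega)) h2⟩,
        fun ⟨h1, h2⟩ => ⟨y - 1, by omega, by rwa [Nat.sub_add_cancel h1]⟩⟩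
  have cnt : ∀ (P : ι → Prop) [DecidablePred P], (univ.filter P).card =
      ∑ i : Fin n, (univ.filter fun j : Fin (d i) => P ⟨i, j⟩).card := fun P _ => by
    simp only [card_filter]
    exact Fintype.sum_sigma _
  have cf : ∀ m a c : ℕ, (univ.filter fun j : Fin m => a ≤ j.val ∧ j.val < c).card ≤ c - a :=
    fun m a c => by
      rw [← Nat.card_Ico]
      exact card_le_card_of_injOn Fin.val (fun j hj => by simpa using hj) fun _ _ _ _ => Fin.ext
  obtain ⟨f, f1, f2⟩ := hall_int (fun a : ι => Nat.find (xe a)) (fun a => Nat.find (xt a))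
    fun x y _ => by
      rw [cnt]
      refine le_trans (sum_le_sum fun i _ => le_trans (card_le_card fun j hj => ?_)
        (cf (d i) (U i x) (d i - U i (D - y)))) ?_
      · simp only [mem_filter, mem_univ, true_and] at hj ⊢
        have a1 := (he ⟨i, j⟩ x).1 hj.1
        have a2 := (ht ⟨i, j⟩ y).1 hj.2
        simp only at a1 a2
        omega
      · rw [Fin.sum_univ_eq_sum_range (fun i => d i - U i (D - y) - U i x)]
        exact (h x (D - y)).trans (by omega)
  have fD : ∀ a, f a < D := fun a => (mem_Icc.1 (f2 a)).2.trans_lt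
    ((ht a D).2 ⟨D0, by rw [Nat.sub_self, U0]; exact a.2.2⟩)
  have cι : Fintype.card ι = D := by
    rw [Fintype.card_sigma, ← hD, ← Fin.sum_univ_eq_sum_range]
    simp
  let F : ι ≃ Fin D := Equiv.ofBijective (fun a => ⟨f a, fD a⟩)
    ((Fintype.bijective_iff_injective_and_card _).2
      ⟨fun a b h => f1 (congrArg Fin.val h), by simp [cι]⟩)
  have ct : ∀ (i : Fin n) k, ((List.ofFn fun m => (F.symm m).1.val).take k).count i.val =
      (univ.filter fun j : Fin (d i) => f ⟨i, j⟩ < k).card := fun i k => by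
    have e1 : ∀ (L : List ℕ) (x k : ℕ), (L.take k).count x =
        (univ.filter fun m : Fin L.length => m.val < k ∧ L[m] = x).card := by
      intro L x k
      induction L generalizing k with
      | nil => simp
      | cons z L ih =>
        rcases k with _ | k
        · simp
        · simp only [List.take_succ_cons, List.count_cons, ih, card_filter, List.length_cons,
            Fin.sum_univ_succ]
          simp [add_comm]
    rw [e1]
    symm
    refine card_bij (fun j _ => (F ⟨i, j⟩).cast (by simp)) (fun j hj => ?_)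
      (fun j _ j' _ e => ?_) fun m hm => ?_
    · simp only [mem_filter, mem_univ, true_and] at hj ⊢
      exact ⟨hj, by simp⟩
    · have := F.injective (Fin.cast_injective _ e)
      exact eq_of_heq (Sigma.mk.inj this).2
    · simp only [mem_filter, mem_univ, true_and, Fin.getElem_fin, List.getElem_ofFn] at hm
      obtain ⟨⟨i', j⟩, e⟩ := F.surjective (m.cast (by simp))
      have e2 : i' = i := Fin.ext (by rw [← hm.2]; simp [show (⟨m.val, _⟩ : Fin D) = _ from e.symm])
      subst e2
      have : f ⟨i', j⟩ = m := congrArg Fin.val e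
      exact ⟨j, by simp [this, hm.1], Fin.ext this⟩
  refine ⟨List.ofFn fun m => (F.symm m).1.val, by simp, fun i hi => ?_, fun i hi k k1 k2 => ?_⟩
  · have := ct ⟨i, hi⟩ D
    rw [List.take_of_length_le (by simp), filter_true_of_mem fun j _ => fD _] at this
    simpa using this
  · rw [hD] at k2 ⊢
    have e := ct ⟨i, hi⟩ k
    simp only at e
    rw [e]
    have u1 : (univ.filter fun j : Fin (d i) => f ⟨⟨i, hi⟩, j⟩ < k).card ≤ U i k - 0 :=
      le_trans (card_le_card fun j hj => by
        simp only [mem_filter, mem_univ, true_and, zero_le] at hj ⊢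
        exact not_le.1 fun h => absurd (((he ⟨⟨i, hi⟩, j⟩ k).2 h).trans (mem_Icc.1 (f2 _)).1)
          (not_le.2 hj)) (cf _ 0 _)
    have u2 : (univ.filter fun j : Fin (d i) => ¬ f ⟨⟨i, hi⟩, j⟩ < k).card ≤
        d i - (d i - U i (D - k)) :=
      le_trans (card_le_card fun j hj => by
        simp only [mem_filter, mem_univ, true_and] at hj ⊢
        have := mt (fun h => (mem_Icc.1 (f2 _)).2.trans_lt ((ht ⟨⟨i, hi⟩, j⟩ k).2 h)) hj
        simp only at this
        omega) (cf _ _ _)
    have u3 := card_filter_add_card_filter_not (s := univ) fun j : Fin (d i) => f ⟨⟨i, hi⟩, j⟩ < k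
    rw [card_univ, Fintype.card_fin] at u3
    generalize (univ.filter fun j : Fin (d i) => f ⟨⟨i, hi⟩, j⟩ < k).card = c at *
    have v1 : c * D ≤ k * d i + b := (Nat.le_div_iff_mul_le D0).1 u1
    have v2 : (d i - c) * D ≤ (D - k) * d i + b := (Nat.le_div_iff_mul_le D0).1 (by
      change _ ≤ U i (D - k)
      omega)
    have c1 : c ≤ d i := by omega
    zify [c1, k2] at v1 v2
    qify at v1 v2
    have D1 : (0 : ℚ) < D := by exact_mod_cast D0
    rw [abs_le, ← mul_div_assoc]
    constructor
    · rw [le_sub_iff_add_le, ← neg_div, ← add_div, div_le_iff₀ D1]; linarith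
    · rw [sub_le_iff_le_add, ← add_div, le_div_iff₀ D1]; linarith

/-- all fractional parts are small and not all of them vanish -/
def Sol (n D δ : ℕ) (d : ℕ → ℕ) (x : ℕ) : Prop :=
  (∀ i < n, x * d i % D < δ) ∧ ∃ i < n, 0 < x * d i % D

theorem sum_dm (n D : ℕ) (d : ℕ → ℕ) (hD : ∑ j ∈ range n, d j = D) (x : ℕ) :
    D * ∑ i ∈ range n, x * d i / D + ∑ i ∈ range n, x * d i % D = x * D := by
  rw [mul_sum, ← sum_add_distrib, sum_congr rfl fun i _ => Nat.div_add_mod (x * d i) D, ← mul_sum,
    hD]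

theorem not_feas (n D δ : ℕ) (d : ℕ → ℕ) (hD : ∑ j ∈ range n, d j = D) (h0 : δ ≤ D) (D0 : 0 < D)
    (x : ℕ) (h : Sol n D δ d x) : ¬ Feas n d (((D - δ : ℕ) : ℚ) / D) := by
  rintro ⟨S, s1, s2, s3⟩
  rw [hD] at s3
  have e : ∀ i, x % D * d i % D = x * d i % D := fun i => Nat.mod_mul_mod _ _ _
  set k := x % D
  obtain ⟨h1, i0, i1, i2⟩ := h
  have k0 : 1 ≤ k := Nat.pos_of_ne_zero fun h => by simp [← e, h] at i2
  have kD : k ≤ D := (Nat.mod_lt _ D0).le
  have D1 : (0 : ℚ) < D := by exact_mod_cast D0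
  have a1 : ∀ i ∈ range n, (S.take k).count i ≤ k * d i / D := fun i hi => by
    have h2 := (abs_le.1 (s3 i (mem_range.1 hi) k k0 kD)).2
    rw [← mul_div_assoc, sub_le_iff_le_add, ← add_div, le_div_iff₀ D1] at h2
    have h3 : (S.take k).count i * D ≤ (D - δ) + k * d i := by exact_mod_cast h2
    have h4 := h1 i (mem_range.1 hi)
    have h5 := Nat.div_add_mod (k * d i) D
    rw [e] at h5
    exact Nat.lt_succ_iff.1 (lt_of_mul_lt_mul_right (a := D) (by
      rw [Nat.succ_mul, mul_comm (_ / _)]; omega) (Nat.zero_le _))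
  have a2 : ∀ L : List ℕ, (∀ s ∈ L, s < n) → ∑ i ∈ range n, L.count i = L.length := by
    intro L hL
    induction L with
    | nil => simp
    | cons z L ih =>
      simp only [List.count_cons, sum_add_distrib, ih fun s hs => hL s (by simp [hs]),
        beq_iff_eq, sum_ite_eq, mem_range, hL z (by simp), if_true, List.length_cons]
  have a3 := sum_le_sum a1
  have a4 : S.length = D := by
    rw [← a2 S s1, ← hD]
    exact sum_congr rfl fun i hi => s2 i (mem_range.1 hi)
  rw [a2 _ fun s hs => s1 s (List.mem_of_mem_take hs), List.length_take, a4, min_eq_left kD] at a3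
  have a5 := sum_dm n D d hD k
  have a6 : 0 < ∑ i ∈ range n, k * d i % D :=
    sum_pos' (by simp) ⟨i0, mem_range.2 i1, by rwa [e]⟩
  nlinarith

theorem sumU (n Q W : ℕ) (d : ℕ → ℕ) (hD : ∑ j ∈ range n, d j = n * Q) (hn : 2 ≤ n)
    (hW : n * W ≤ Q) (W0 : 0 < W) (h : ∀ x, ¬ Sol n (n * Q) (Q + W) d x) (x : ℕ) :
    x ≤ ∑ i ∈ range n, (x * d i + (n * Q - (Q + W))) / (n * Q) := by
  have Q0 : 0 < Q := by nlinarith
  have h0 : Q + W ≤ n * Q := by nlinarith
  have D0 : 0 < n * Q := by omega
  have e : ∀ i ∈ range n, (x * d i + (n * Q - (Q + W))) / (n * Q) =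
      x * d i / (n * Q) + if Q + W ≤ x * d i % (n * Q) then 1 else 0 := fun i _ => by
    rw [Nat.add_div D0, Nat.div_eq_of_lt (show n * Q - (Q + W) < n * Q by omega),
      Nat.mod_eq_of_lt (show n * Q - (Q + W) < n * Q by omega), add_zero]
    exact congrArg _ (if_congr (by omega) rfl rfl)
  rw [sum_congr rfl e, sum_add_distrib]
  have a5 := sum_dm n _ d hD x
  by_contra h1
  have a6 : ∑ i ∈ range n, (x * d i % (n * Q) + 1) ≤ ∑ i ∈ range n, ((Q + W) +
      (n * Q - (Q + W)) * if Q + W ≤ x * d i % (n * Q) then 1 else 0) := sum_le_sum fun i _ => by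
    have := Nat.mod_lt (x * d i) D0
    split_ifs <;> omega
  rw [sum_add_distrib, sum_add_distrib, ← mul_sum, sum_const, sum_const, card_range, smul_eq_mul,
    smul_eq_mul] at a6
  by_cases h2 : (∑ i ∈ range n, if Q + W ≤ x * d i % (n * Q) then 1 else 0) = 0
  · refine h x ⟨fun i hi => ?_, ?_⟩
    · simpa using sum_eq_zero_iff.1 h2 i (mem_range.2 hi)
    · by_contra h3
      push Not at h3
      rw [sum_eq_zero (f := fun i => x * d i % (n * Q)) fun i hi =>
        Nat.le_zero.1 (h3 i (mem_range.1 hi))] at a5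
      have := Nat.eq_of_mul_eq_mul_left D0 (a5.trans (mul_comm _ _))
      omega
  · generalize (∑ i ∈ range n, if Q + W ≤ x * d i % (n * Q) then 1 else 0) = H at *
    generalize ∑ i ∈ range n, x * d i % (n * Q) = F at *
    generalize ∑ i ∈ range n, x * d i / (n * Q) = A at *
    have b1 : A + H + 1 ≤ x := by omega
    have b2 : 1 ≤ H := by omega
    zify [h0] at *
    have := mul_le_mul_of_nonneg_right b1 D0.le
    nlinarith

theorem feas_of_nosol (n Q W T : ℕ) (d tw : ℕ → ℕ) (hD : ∑ j ∈ range n, d j = n * Q) (hn : 3 ≤ n)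
    (hW : n * W ≤ Q) (W0 : 0 < W) (hT : n * T ≤ Q) (hT' : 2 * W ≤ T)
    (hd : ∀ i < n, Q ≤ d i + T ∧ d i ≤ Q + T) (ht : ∀ i < n, tw i < n ∧ tw i ≠ i ∧ d (tw i) = d i)
    (h : ∀ x, ¬ Sol n (n * Q) (Q + W) d x) :
    Feas n d (((n * Q - (Q + W) : ℕ) : ℚ) / (n * Q : ℕ)) := by
  have Q0 : 0 < Q := by nlinarith
  have h0 : Q + W ≤ n * Q := by nlinarith
  have D0 : 0 < n * Q := by omega
  refine feas_of_cond n _ _ d hD (by omega) fun x z => ?_
  have s1 := sumU n Q W d hD (by omega) hW W0 h x
  have s2 := sumU n Q W d hD (by omega) hW W0 h z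
  set U : ℕ → ℕ → ℕ := fun x i => (x * d i + (n * Q - (Q + W))) / (n * Q) with hU
  have u : ∀ x i, (n * Q : ℤ) * U x i ≤ x * d i + (n * Q - (Q + W)) ∧
      (x : ℤ) * d i - (Q + W) < n * Q * U x i := fun x i => by
    have a1 := Nat.div_add_mod (x * d i + (n * Q - (Q + W))) (n * Q)
    have a2 := Nat.mod_lt (x * d i + (n * Q - (Q + W))) D0
    change n * Q * U x i + _ = _ at a1
    generalize (x * d i + (n * Q - (Q + W))) % (n * Q) = r at *
    zify [h0] at a1 a2
    constructor <;> omega
  change ∑ i ∈ range n, (d i - U z i - U x i) ≤ _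
  change x ≤ ∑ i ∈ range n, U x i at s1
  change z ≤ ∑ i ∈ range n, U z i at s2
  by_cases h1 : ∀ i ∈ range n, U z i + U x i ≤ d i
  · simp only [Nat.sub_sub]
    rw [sum_tsub_distrib _ h1, sum_add_distrib, hD]
    omega
  push Not at h1
  obtain ⟨i0, i1, i2⟩ := h1
  rw [mem_range] at i1
  obtain ⟨l, hl⟩ : ∃ l : ℤ, l = n * Q - z - x := ⟨_, rfl⟩
  have up : ∀ i < n, ∀ c : ℤ, l * d i + 2 * (Q + W) ≤ n * Q * (c + 1) → (d i : ℤ) ≤ U z i + U x i + c :=
    fun i _ c hc => by
      have a1 := (u x i).2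
      have a2 := (u z i).2
      have D1 : (0 : ℤ) < n * Q := by exact_mod_cast D0
      refine Int.lt_add_one_iff.1 (lt_of_mul_lt_mul_left (a := (n * Q : ℤ)) ?_ D1.le)
      rw [hl] at hc
      nlinarith
  have l1 : l ≤ n - 2 := by
    have a1 := (u x i0).1
    have a2 := (u z i0).1
    have a3 := (hd i0 i1).1
    have a4 : d i0 + 1 ≤ U z i0 + U x i0 := i2
    by_contra h2
    have a5 : (n : ℤ) - 1 ≤ l := by omega
    zify at a3 a4 hW hT W0 D0 hn hT'
    have a6 := mul_le_mul_of_nonneg_left a4 D0.le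
    have a7 : ((n : ℤ) - 1) * d i0 ≤ l * d i0 := by gcongr
    have a8 : ((n : ℤ) - 1) * Q ≤ (n - 1) * (d i0 + T) := by gcongr; omega
    rw [hl] at a7
    nlinarith
  rcases l1.lt_or_eq with l1 | l1
  · refine (sum_eq_zero fun i hi => ?_).trans_le (Nat.zero_le _)
    have a1 := (hd i (mem_range.1 hi)).2
    have := up i (mem_range.1 hi) 0 (by
      zify at a1 hW hT hn hT'
      have a7 : l * d i ≤ ((n : ℤ) - 3) * d i := by gcongr; omega
      have a8 : ((n : ℤ) - 3) * d i ≤ (n - 3) * (Q + T) := by gcongr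
      nlinarith)
    omega
  · obtain ⟨t1, t2, t3⟩ := ht i0 i1
    have t4 : ∀ x, U x (tw i0) = U x i0 := fun x => by simp only [hU, t3]
    have a1 : ∑ i ∈ range n, (d i - U z i - U x i) ≤
        ∑ i ∈ range n, if i ∈ ((range n).erase i0).erase (tw i0) then 1 else 0 :=
      sum_le_sum fun i hi => by
        split_ifs with h2
        · have a1 := (hd i (mem_range.1 hi)).2
          have := up i (mem_range.1 hi) 1 (by
            zify at a1 hW hT hn hT' Q0
            have a8 : ((n : ℤ) - 2) * d i ≤ (n - 2) * (Q + T) := by gcongr; omega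
            rw [l1]
            nlinarith)
          omega
        · simp only [mem_erase, hi, and_true, not_and_or, not_not] at h2
          rcases h2 with rfl | rfl
          · rw [t3, t4, t4]; omega
          · omega
    rw [sum_ite_mem, inter_eq_right.2 ((erase_subset _ _).trans (erase_subset _ _)), sum_const,
      card_erase_of_mem (by simp [t1, t2]), card_erase_of_mem (by simp [i1]), card_range] at a1
    have : (n * Q : ℕ) = (n : ℤ) * Q := by push_cast; rfl
    simp only [smul_eq_mul] at a1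
    omega

end Pool.Agent.Lead.Jit
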