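import Pool.Agent.Lead.Jit1

set_option autoImplicit false

namespace Pool.Agent.Lead.Jit
open Finset

theorem sol_iff (n Q W : ℕ) (d op : ℕ → ℕ) (hn : 3 ≤ n) (hW : n * W ≤ Q) (W0 : 0 < W)
    (h0 : d 0 = Q) (ho : ∀ i < n, op i < n ∧ d i + d (op i) = 2 * Q) (x : ℕ) :
    Sol n (n * Q) (Q + W) d x ↔
      x % n = 1 ∧ ∀ i < n, ∃ m : ℤ, |(x : ℤ) * (d i - Q) - m * (n * Q)| < W := by
  have Q0 : 3 * W ≤ Q := by nlinarith
  have D0 : 3 * Q ≤ n * Q := by gcongr
  have z : ∀ a : ℤ, |a * (n * Q)| < n * Q → a = 0 := fun a h => by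
    by_contra h'
    have : 1 ≤ |a| := Int.one_le_abs h'
    rw [abs_mul, abs_of_nonneg (a := (n * Q : ℤ)) (by positivity)] at h
    nlinarith
  have dm : ∀ i, (n * Q : ℤ) * (x * d i / (n * Q) : ℕ) + (x * d i % (n * Q) : ℕ) = x * d i :=
    fun i => by exact_mod_cast Nat.div_add_mod (x * d i) (n * Q)
  have xm : (n : ℤ) * (x / n : ℕ) + (x % n : ℕ) = x := by exact_mod_cast Nat.div_add_mod x n
  constructor
  · rintro ⟨h1, i0, i1, i2⟩
    have h2 := h1 0 (by omega)
    rw [h0, Nat.mul_mod_mul_right] at h2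
    have h3 : x % n ≤ 1 := by
      by_contra h
      have : 2 * Q ≤ x % n * Q := by gcongr; omega
      omega
    have h4 : ∀ i < n, x * d i % (n * Q) + x * d (op i) % (n * Q) = 2 * (x % n) * Q := fun i hi => by
      have a1 := h1 i hi
      have a2 := h1 _ (ho i hi).1
      have a3 := dm i
      have a4 := dm (op i)
      have a5 := (ho i hi).2
      have a6 : x % n * Q ≤ 1 * Q := by gcongr
      generalize x * d i % (n * Q) = f at *
      generalize x * d (op i) % (n * Q) = f' at *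
      generalize x * d i / (n * Q) = u at *
      generalize x * d (op i) / (n * Q) = u' at *
      generalize x % n = w at *
      generalize x / n = v at *
      zify at *
      have a7 : (2 * v - u - u' : ℤ) * (n * Q) = f + f' - 2 * w * Q := by
        linear_combination (-1) * a3 - a4 + 2 * Q * xm - x * a5
      have := z _ (by rw [a7, abs_lt]; constructor <;> nlinarith)
      rw [this] at a7
      linarith
    have h5 : x % n = 1 := by
      have := h4 i0 i1
      rcases Nat.le_one_iff_eq_zero_or_eq_one.1 h3 with h | h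
      · rw [h] at this; omega
      · exact h
    refine ⟨h5, fun i hi => ⟨(x * d i / (n * Q) : ℕ) - (x / n : ℕ), ?_⟩⟩
    have a1 := h1 i hi
    have a2 := h1 _ (ho i hi).1
    have a3 := dm i
    have a4 := h4 i hi
    rw [h5] at xm a4
    rw [show (x : ℤ) * (d i - Q) - ((x * d i / (n * Q) : ℕ) - (x / n : ℕ)) * (n * Q) =
      (x * d i % (n * Q) : ℕ) - Q by push_cast at *; linear_combination -a3 + Q * xm, abs_lt]
    omega
  · rintro ⟨h1, h2⟩
    rw [h1] at xm
    have : ∀ i < n, Q < x * d i % (n * Q) + W ∧ x * d i % (n * Q) < Q + W := fun i hi => by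
      obtain ⟨m, hm⟩ := h2 i hi
      have a3 := dm i
      have a4 := Nat.mod_lt (x * d i) (show 0 < n * Q by omega)
      generalize x * d i % (n * Q) = f at *
      generalize x * d i / (n * Q) = u at *
      generalize x / n = v at *
      zify at *
      have a7 : (u - v - m : ℤ) * (n * Q) = (x * (d i - Q) - m * (n * Q)) + Q - f := by
        linear_combination a3 - Q * xm
      rw [abs_lt] at hm
      have := z _ (by rw [a7, abs_lt]; constructor <;> linarith)
      rw [this] at a7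
      constructor <;> linarith
    exact ⟨fun i hi => (this i hi).2, 0, by omega, by have := this 0 (by omega); omega⟩

/-- within `κ` of an integer -/
def Nr (κ x : ℚ) : Prop := ∃ m : ℤ, |x - m| < κ

theorem Nr.shift {κ x : ℚ} (m : ℤ) : Nr κ (x + m) ↔ Nr κ x :=
  ⟨fun ⟨k, h⟩ => ⟨k - m, by convert h using 2; push_cast; ring⟩,
    fun ⟨k, h⟩ => ⟨k + m, by convert h using 2; push_cast; ring⟩⟩

theorem Nr.small {κ x : ℚ} (h : |x| ≤ 1 - κ) : Nr κ x ↔ |x| < κ := by
  refine ⟨fun ⟨m, hm⟩ => ?_, fun h => ⟨0, by simpa using h⟩⟩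
  obtain rfl : m = 0 := by
    rw [abs_lt] at hm
    rw [abs_le] at h
    have h1 : (m : ℚ) < 1 := by linarith
    have h2 : (-1 : ℚ) < m := by linarith
    have h1 : m < 1 := by exact_mod_cast h1
    have h2 : -1 < m := by exact_mod_cast h2
    omega
  simpa using hm

theorem chain (M g y : ℕ) (κ : ℚ) (hM : 3 ≤ M) (hg : 2 ≤ g) (hκ : κ ≤ 2 / (3 * g))
    (h1 : y % M = 1) (h : Nr κ (y * (1 / (M * g)))) : y % (M * g) = 1 := by
  obtain ⟨m, hm⟩ := h
  have a1 := Nat.div_add_mod y M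
  have a2 := Nat.div_add_mod (y / M) g
  have a3 : y / M % g = 0 := by
    by_contra h
    have b1 := Nat.mod_lt (y / M) (show 0 < g by omega)
    generalize y / M % g = r at *
    generalize y / M / g = u at *
    have b2 : 1 ≤ r := by omega
    have b3 : r + 1 ≤ g := b1
    rw [h1, ← a2] at a1
    qify at a1 b2 b3 hM hg
    have e : (y : ℚ) * (1 / (M * g)) - m = ((u - m) * g + r + 1 / M) / g := by
      rw [← a1]; field_simp; ring
    have c1 : (1 : ℚ) / M ≤ 1 / 3 := by gcongr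
    have c2 : (0 : ℚ) < 1 / M := by positivity
    rw [e, abs_div, abs_of_pos (a := (g : ℚ)) (by linarith), div_lt_iff₀ (by linarith)] at hm
    have c3 : κ * g ≤ 2 / 3 := by
      rw [le_div_iff₀ (by linarith)] at hκ; linarith
    rw [abs_lt] at hm
    rcases le_or_gt 0 ((u : ℤ) - m) with c | c
    · have : (0 : ℚ) ≤ u - m := by exact_mod_cast c
      nlinarith
    · have : (u : ℚ) - m ≤ -1 := by exact_mod_cast Int.le_sub_one_of_lt c
      nlinarith
  rw [a3, add_zero] at a2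
  rw [← a1, h1, ← a2, ← mul_assoc, Nat.mul_add_mod, Nat.mod_eq_of_lt (by nlinarith)]

abbrev Tm := ℕ × ℕ × ℕ × ℕ × ℕ

def tm (K g p q r : ℕ) : List Tm :=
  [(0, 0, 0, 0, 0), (0, 0, 0, 0, g * g), (0, 0, 0, 0, g), (0, 0, 0, 0, 1),
   (1, 0, 0, 2 * K / p, 2 * (g * g)), (0, 1, 0, 2 * K / q, 2 * (g * g)),
   (0, 0, 1, 2 * K / r, 2 * (g * g)), (1, 0, 0, 2 * (g * g), K / p),
   (0, 1, 0, 2 * (g * g), K / q), (0, 0, 1, 2 * (g * g), K / r), (1, 1, 1, 2 * (g * g), 0),
   (1, 1, 0, K * (p + q) / (p * q), 2 * (g * g)), (1, 0, 1, K * (p + r) / (p * r), 2 * (g * g)),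
   (0, 1, 1, K * (q + r) / (q * r), 2 * (g * g))]

/-- value of a constraint at residues `a, b, c` -/
def ev (K p q r a b c : ℕ) (τ : Tm) : ℚ :=
  τ.1 * (a / p) + τ.2.1 * (b / q) + τ.2.2.1 * (c / r) + (τ.2.2.2.2 - τ.2.2.2.1) / K

theorem ev_shift (K p q r y : ℕ) (κ : ℚ) (τ : Tm) (hy : y % K = 1) (hK : 0 < K) (hp : 0 < p)
    (hq : 0 < q) (hr : 0 < r) :
    Nr κ (y * ev K p q r 1 1 1 τ) ↔ Nr κ (ev K p q r (y % p) (y % q) (y % r) τ) := by
  rw [← Nr.shift (x := ev K p q r (y % p) (y % q) (y % r) τ) (τ.1 * (y / p : ℕ) +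
    τ.2.1 * (y / q : ℕ) + τ.2.2.1 * (y / r : ℕ) + (τ.2.2.2.2 - τ.2.2.2.1) * (y / K : ℕ))]
  have e : ∀ s : ℕ, 0 < s → ((y / s : ℕ) : ℚ) = (y - (y % s : ℕ)) / s := fun s hs => by
    have : (s : ℚ) * (y / s : ℕ) + (y % s : ℕ) = y := by exact_mod_cast Nat.div_add_mod y s
    rw [eq_div_iff (by positivity)]; linarith
  congr! 1
  simp only [ev, Int.cast_add, Int.cast_mul, Int.cast_sub, Int.cast_natCast, e p hp, e q hq,
    e r hr, e K hK, hy]
  push_cast
  ring

theorem fl (a b K : ℕ) (hb : 0 < b) (hK : 0 < K) :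
    ((K * a / b : ℕ) : ℚ) / K ≤ a / b ∧ (a : ℚ) / b < (K * a / b : ℕ) / K + 1 / K := by
  have h1 : (b : ℚ) * (K * a / b : ℕ) + (K * a % b : ℕ) = K * a := by
    exact_mod_cast Nat.div_add_mod (K * a) b
  have h2 : ((K * a % b : ℕ) : ℚ) < b := by exact_mod_cast Nat.mod_lt _ hb
  have h3 : (0 : ℚ) ≤ (K * a % b : ℕ) := by positivity
  rw [← add_div, div_le_div_iff₀ (by positivity) (by positivity),
    div_lt_div_iff₀ (by positivity) (by positivity)]
  constructor <;> nlinarith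

theorem var_iff (K p w : ℕ) (κ : ℚ) (hp : 0 < p) (hK : p ≤ K) (h1 : 2 / (p : ℚ) ≤ κ)
    (h2 : κ ≤ 1 / 8) (hw : w < p) : Nr κ ((w : ℚ) / p + (κ - (2 * K / p : ℕ) / K)) ∧
      Nr κ ((w : ℚ) / p + ((K / p : ℕ) / K - κ)) ↔ w ≤ 1 := by
  have K0 : 0 < K := by omega
  obtain ⟨a1, a2⟩ := fl 2 p K hp K0
  obtain ⟨b1, b2⟩ := fl 1 p K hp K0
  rw [mul_comm K 2] at a1 a2
  rw [mul_one] at b1 b2
  have c1 : (1 : ℚ) / K ≤ 1 / p := by gcongr
  have c2 : (0 : ℚ) < 1 / K := by positivity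
  have c3 : (1 : ℚ) / K ≤ (K / p : ℕ) / K := by
    gcongr; exact_mod_cast (Nat.le_div_iff_mul_le hp).2 (by omega)
  have c4 : (w : ℚ) / p ≤ 1 - 1 / p := by
    rw [le_sub_iff_add_le, ← add_div, div_le_one (by positivity)]; exact_mod_cast hw
  generalize ((2 * K / p : ℕ) : ℚ) / K = u at *
  generalize ((K / p : ℕ) : ℚ) / K = v at *
  push_cast at *
  rw [show (2 : ℚ) / p = 2 * (1 / p) by ring] at *
  rw [show (w : ℚ) / p = w * (1 / p) by ring] at *
  have c5 : (0 : ℚ) ≤ w * (1 / p) := by positivity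
  generalize (1 : ℚ) / p = s at *
  generalize (1 : ℚ) / K = t at *
  constructor
  · rintro ⟨h3, m, h4⟩
    rw [abs_lt] at h4
    obtain rfl : m = 0 := by
      have h1 : (m : ℚ) < 1 := by linarith
      have h2 : (-1 : ℚ) < m := by linarith
      have h1 : m < 1 := by exact_mod_cast h1
      have h2 : -1 < m := by exact_mod_cast h2
      omega
    push_cast at h4
    rw [Nr.small (by rw [abs_le]; constructor <;> linarith), abs_lt] at h3
    have : (w : ℚ) < 2 := lt_of_mul_lt_mul_right (a := s) (by linarith) (by linarith)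
    exact Nat.lt_succ_iff.1 (by exact_mod_cast this)
  · intro h
    have : (w : ℚ) * s ≤ 1 * s := by gcongr; linarith; exact_mod_cast h
    exact ⟨⟨0, by rw [abs_lt]; push_cast; constructor <;> linarith⟩,
      ⟨0, by rw [abs_lt]; push_cast; constructor <;> linarith⟩⟩

theorem na_iff (K p q a b : ℕ) (κ : ℚ) (hp : 0 < p) (hq : 0 < q) (hK : p ≤ K) (hK' : q ≤ K)
    (h1 : 2 / (p : ℚ) ≤ κ) (h1' : 2 / (q : ℚ) ≤ κ) (h2 : κ ≤ 1 / 8) (ha : a ≤ 1) (hb : b ≤ 1) :
    (Nr κ ((a : ℚ) / p + b / q + (κ - (K * (p + q) / (p * q) : ℕ) / K)) ↔ a + b ≤ 1) ∧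
      |(a : ℚ) / p + b / q + (κ - (K * (p + q) / (p * q) : ℕ) / K)| ≤ 2 * κ := by
  obtain ⟨a1, a2⟩ := fl (p + q) (p * q) K (by positivity) (by omega)
  have c1 : (1 : ℚ) / K ≤ 1 / p := by gcongr
  have c1' : (1 : ℚ) / K ≤ 1 / q := by gcongr
  have c2 : (0 : ℚ) < 1 / K := by have : 0 < K := by omega
                                  positivity
  rw [show ((p + q : ℕ) : ℚ) / (p * q : ℕ) = 1 / p + 1 / q by push_cast; field_simp; ring] at a1 a2
  generalize ((K * (p + q) / (p * q) : ℕ) : ℚ) / K = u at *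
  rw [show (2 : ℚ) / p = 2 * (1 / p) by ring] at h1
  rw [show (2 : ℚ) / q = 2 * (1 / q) by ring] at h1'
  rw [show (a : ℚ) / p = a * (1 / p) by ring, show (b : ℚ) / q = b * (1 / q) by ring]
  generalize (1 : ℚ) / p = s at *
  generalize (1 : ℚ) / q = s' at *
  generalize (1 : ℚ) / K = t at *
  have : |(a : ℚ) * s + b * s' + (κ - u)| ≤ 2 * κ := by
    interval_cases a <;> interval_cases b <;> rw [abs_le] <;> constructor <;> push_cast <;> linarith
  refine ⟨?_, this⟩
  rw [Nr.small (by linarith), abs_lt]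
  interval_cases a <;> interval_cases b <;> push_cast <;> simp only [Nat.reduceAdd, Nat.reduceLeDiff,
    le_refl, zero_le, iff_true, iff_false, not_and, not_lt]
  exacts [⟨by linarith, by linarith⟩, ⟨by linarith, by linarith⟩, ⟨by linarith, by linarith⟩,
    fun _ => by linarith]

end Pool.Agent.Lead.Jit
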