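import Pool.Agent.Lead.Jit2
import Pool.Agent.Lead.Prm
import Pool.Agent.Lead.NPc

set_option autoImplicit false

namespace Pool.Agent.Lead.Jit
open Finset

theorem loc (n g K p q r : ℕ) (κ : ℚ) (hn : 3 ≤ n) (hg : 8 * n ≤ g) (hK : K = n * g * g * g)
    (hκ : κ = 2 / (n * g)) (hp : n * g ≤ p ∧ p ≤ K) (hq : n * g ≤ q ∧ q ≤ K)
    (hr : n * g ≤ r ∧ r ≤ K) : (∀ τ ∈ tm K g p q r, |ev K p q r 1 1 1 τ| ≤ 2 * κ) ∧
      ∀ y, y % n = 1 → ((∀ τ ∈ tm K g p q r, Nr κ (y * ev K p q r 1 1 1 τ)) ↔ y % K = 1 ∧
        y % p ≤ 1 ∧ y % q ≤ 1 ∧ y % r ≤ 1 ∧ y % p + y % q + y % r = 1) := by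
  have g0 : 24 ≤ g := by omega
  have ng : 72 ≤ n * g := by nlinarith
  have n1 : (3 : ℚ) ≤ n := by exact_mod_cast hn
  have g1 : (24 : ℚ) ≤ g := by exact_mod_cast g0
  have ng1 : (72 : ℚ) ≤ n * g := by exact_mod_cast ng
  have k0 : 0 < κ := by rw [hκ]; positivity
  have k1 : κ ≤ 1 / 8 := by rw [hκ, div_le_div_iff₀ (by positivity) (by positivity)]; linarith
  have k2 : ((2 * (g * g) : ℕ) : ℚ) / K = κ := by rw [hκ, hK]; push_cast; field_simp
  have k3 : ∀ s : ℕ, n * g ≤ s → 2 / (s : ℚ) ≤ κ := fun s hs => by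
    rw [hκ]; gcongr; exact_mod_cast hs
  have k4 : κ ≤ 2 / (3 * g) := by rw [hκ]; gcongr
  have c1 : ((g * g : ℕ) : ℚ) / K = 1 / (n * g) := by rw [hK]; push_cast; field_simp
  have c2 : (g : ℚ) / K = 1 / ((n * g : ℕ) * g) := by rw [hK]; push_cast; field_simp
  have c3 : (1 : ℚ) / K = 1 / ((n * g * g : ℕ) * g) := by rw [hK]; push_cast; field_simp
  have d1 : |((g * g : ℕ) : ℚ) / K| < κ := by
    rw [abs_of_nonneg (by positivity), c1, hκ]; gcongr; norm_num
  have K0 : 0 < K := by omega
  have d2 : |(g : ℚ) / K| < κ := by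
    refine lt_of_le_of_lt ?_ d1
    rw [abs_of_nonneg (by positivity), abs_of_nonneg (by positivity)]
    gcongr; exact Nat.le_mul_self g
  have d3 : |(1 : ℚ) / K| < κ := by
    refine lt_of_le_of_lt ?_ d2
    rw [abs_of_nonneg (by positivity), abs_of_nonneg (by positivity)]
    gcongr; linarith
  have so : ∀ a b c : ℕ, a ≤ 1 → b ≤ 1 → c ≤ 1 → (Nr κ ((a : ℚ) / p + b / q + c / r + -κ) ↔
      1 ≤ a + b + c) ∧ |(a : ℚ) / p + b / q + c / r + -κ| ≤ κ := fun a b c ha hb hc => by
    have e1 := k3 p hp.1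
    have e2 := k3 q hq.1
    have e3 := k3 r hr.1
    have f1 : (0 : ℚ) < 1 / p := by have : 0 < p := by omega
                                    positivity
    have f2 : (0 : ℚ) < 1 / q := by have : 0 < q := by omega
                                    positivity
    have f3 : (0 : ℚ) < 1 / r := by have : 0 < r := by omega
                                    positivity
    rw [div_eq_mul_one_div] at e1 e2 e3
    rw [div_eq_mul_one_div (a : ℚ), div_eq_mul_one_div (b : ℚ), div_eq_mul_one_div (c : ℚ)]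
    generalize (1 : ℚ) / p = s at *
    generalize (1 : ℚ) / q = s' at *
    generalize (1 : ℚ) / r = s'' at *
    have : |(a : ℚ) * s + b * s' + c * s'' + -κ| ≤ κ := by
      interval_cases a <;> interval_cases b <;> interval_cases c <;> rw [abs_le] <;>
        constructor <;> push_cast <;> linarith
    refine ⟨?_, this⟩
    rw [Nr.small (by linarith), abs_lt]
    interval_cases a <;> interval_cases b <;> interval_cases c <;> push_cast <;>
      simp only [iff_true, iff_false, not_and, not_lt] <;>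
      first | exact ⟨by linarith, by linarith⟩ | exact fun _ => by linarith
  have vb : ∀ s : ℕ, n * g ≤ s ∧ s ≤ K → |(1 : ℚ) / s + (κ - (2 * K / s : ℕ) / K)| ≤ 2 * κ ∧
      |(1 : ℚ) / s + ((K / s : ℕ) / K - κ)| ≤ 2 * κ := fun s hs => by
    obtain ⟨a1, a2⟩ := fl 2 s K (by omega) K0
    obtain ⟨b1, b2⟩ := fl 1 s K (by omega) K0
    have e1 := k3 s hs.1
    have e2 : (0 : ℚ) ≤ (2 * K / s : ℕ) / K := by positivity
    have e3 : (0 : ℚ) ≤ (K / s : ℕ) / K := by positivity
    have e4 : (0 : ℚ) ≤ 1 / s := by positivity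
    rw [mul_comm K 2] at a1
    rw [mul_one] at b1
    push_cast at a1 b1
    rw [div_eq_mul_one_div (2 : ℚ)] at e1 a1
    constructor <;> rw [abs_le] <;> constructor <;> linarith
  have na := fun p q a b (hp : n * g ≤ p ∧ p ≤ K) (hq : n * g ≤ q ∧ q ≤ K) =>
    na_iff K p q a b κ (by omega) (by omega) hp.2 hq.2 (k3 p hp.1) (k3 q hq.1) k1
  have vi := fun p y (hp : n * g ≤ p ∧ p ≤ K) =>
    var_iff K p (y % p) κ (by omega) hp.2 (k3 p hp.1) k1 (Nat.mod_lt _ (by omega))
  constructor
  · have h1 := (na p q 1 1 hp hq le_rfl le_rfl).2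
    have h2 := (na p r 1 1 hp hr le_rfl le_rfl).2
    have h3 := (na q r 1 1 hq hr le_rfl le_rfl).2
    have h4 := (so 1 1 1 le_rfl le_rfl le_rfl).2
    simp only [Nat.cast_one] at h1 h2 h3 h4
    simp only [tm, List.forall_mem_cons, ev, sub_div, Nat.cast_zero, Nat.cast_one, zero_mul,
      one_mul, zero_add, add_zero, k2, zero_div, sub_zero, zero_sub, abs_zero]
    exact ⟨by linarith, by linarith, by linarith, by linarith, (vb p hp).1, (vb q hq).1,
      (vb r hr).1, (vb p hp).2, (vb q hq).2, (vb r hr).2, by linarith, h1, h2, h3, by simp⟩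
  intro y hy
  by_cases h : y % K = 1
  · simp only [ev_shift K p q r y κ _ h K0 (by omega) (by omega) (by omega)]
    simp only [tm, List.forall_mem_cons, ev, sub_div, Nat.cast_zero, Nat.cast_one, zero_mul,
      one_mul, zero_add, add_zero, k2, zero_div, sub_zero, zero_sub]
    constructor
    · rintro ⟨-, -, -, -, u1, u2, u3, l1, l2, l3, s, n1, n2, n3, -⟩
      have w1 := (vi p y hp).1 ⟨u1, l1⟩
      have w2 := (vi q y hq).1 ⟨u2, l2⟩
      have w3 := (vi r y hr).1 ⟨u3, l3⟩
      have := (so _ _ _ w1 w2 w3).1.1 s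
      have := (na _ _ _ _ hp hq w1 w2).1.1 n1
      have := (na _ _ _ _ hp hr w1 w3).1.1 n2
      have := (na _ _ _ _ hq hr w2 w3).1.1 n3
      omega
    · rintro ⟨-, w1, w2, w3, w⟩
      exact ⟨⟨0, by simpa using k0⟩, ⟨0, by simpa using d1⟩, ⟨0, by simpa using d2⟩,
        ⟨0, by simpa using d3⟩, ((vi p y hp).2 w1).1, ((vi q y hq).2 w2).1, ((vi r y hr).2 w3).1,
        ((vi p y hp).2 w1).2, ((vi q y hq).2 w2).2, ((vi r y hr).2 w3).2,
        (so _ _ _ w1 w2 w3).1.2 (by omega), (na _ _ _ _ hp hq w1 w2).1.2 (by omega),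
        (na _ _ _ _ hp hr w1 w3).1.2 (by omega), (na _ _ _ _ hq hr w2 w3).1.2 (by omega), by simp⟩
  · refine iff_of_false (fun h' => h ?_) fun h' => h h'.1
    simp only [tm, List.forall_mem_cons, ev, sub_div, Nat.cast_zero, Nat.cast_one, zero_mul,
      zero_add, add_zero, zero_div, sub_zero] at h'
    obtain ⟨-, a1, a2, a3, -⟩ := h'
    rw [c1] at a1
    rw [c2] at a2
    rw [c3] at a3
    rw [hK]
    exact chain _ g y κ (by nlinarith) (by omega) k4 (chain _ g y κ (by omega) (by omega) k4
      (chain n g y κ hn (by omega) k4 hy a1) a2) a3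

open Pool.Agent.H11.PT

/-- product of a binary number and a unary number -/
def mulB (m : ℕ) (l : List Bool) : List Bool :=
  let s := l.foldl (fun (s : List Bool × ℕ) b =>
    (decide (((bif b then m else 0) + s.2) % 2 = 1) :: s.1, ((bif b then m else 0) + s.2) / 2))
    ([], 0)
  s.1.reverse ++ toBits s.2

theorem bin_append (a b : List Bool) : bin (a ++ b) = bin a + 2 ^ a.length * bin b := by
  simp [bin, Nat.ofDigits_append]

theorem mulB_aux (m : ℕ) (l : List Bool) : ∀ (o : List Bool) (c : ℕ), c ≤ m →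
    let s := l.foldl (fun (s : List Bool × ℕ) b =>
      (decide (((bif b then m else 0) + s.2) % 2 = 1) :: s.1, ((bif b then m else 0) + s.2) / 2))
      (o, c)
    s.1.length = o.length + l.length ∧ s.2 ≤ m ∧ bin s.1.reverse + 2 ^ s.1.length * s.2 =
      bin o.reverse + 2 ^ o.length * (c + m * bin l) := by
  induction l with
  | nil => intro o c h; simp [h, bin]
  | cons b l ih =>
    intro o c h
    obtain ⟨h1, h2, h3⟩ := ih (decide (((bif b then m else 0) + c) % 2 = 1) :: o)
      (((bif b then m else 0) + c) / 2) (by cases b <;> simp <;> omega)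
    refine ⟨by rw [List.foldl_cons, h1]; simp; omega, h2, ?_⟩
    rw [List.foldl_cons, h3, List.reverse_cons, bin_append, List.length_reverse, List.length_cons,
      pow_succ]
    have e1 : bin (b :: l) = b.toNat + 2 * bin l := by simp [bin, Nat.ofDigits_cons]
    have e2 : ∀ t : ℕ, bin [decide (t % 2 = 1)] = t % 2 := fun t => by
      rcases Nat.mod_two_eq_zero_or_one t with h | h <;> simp [bin, h]
    have e3 : (bif b then m else 0) = m * b.toNat := by cases b <;> simp
    rw [e1, e2, e3]
    have := Nat.div_add_mod (m * b.toNat + c) 2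
    generalize (m * b.toNat + c) / 2 = u at *
    generalize (m * b.toNat + c) % 2 = v at *
    zify at *
    linear_combination 2 ^ o.length * this

theorem bin_mulB (m : ℕ) (l : List Bool) : bin (mulB m l) = m * bin l := by
  have := (mulB_aux m l [] 0 (Nat.zero_le _)).2.2
  simp only [mulB, bin_append, List.length_reverse]
  rw [show ∀ c, bin (toBits c) = c from ofDigits_toBits, this]
  simp [bin]

theorem sz_bools (l : List Bool) : sz l ≤ 4 * l.length + 1 := by
  induction l with
  | nil => simp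
  | cons b l ih => have := sz_bool b; simp; omega

theorem len_mulB (m : ℕ) (l : List Bool) : (mulB m l).length ≤ l.length + m := by
  obtain ⟨h1, h2, -⟩ := mulB_aux m l [] 0 (Nat.zero_le _)
  simp only [mulB, List.length_append, List.length_reverse, toBits, toBin, List.length_map,
    List.length_range] at *
  simp only [List.length_nil] at h1
  omega

@[fun_prop] theorem mulB_pt {α : Type} [Enc α] {f : α → ℕ} {l : α → List Bool} (hf : PT f)
    (hl : PT l) : PT fun x => mulB (f x) (l x) := by
  have : PT fun x => (l x).foldl (fun (s : List Bool × ℕ) b =>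
      (decide (((bif b then f x else 0) + s.2) % 2 = 1) :: s.1,
        ((bif b then f x else 0) + s.2) / 2)) ([], 0) :=
    PT.foldl_add hl (PT.const _) (by fun_prop) (fun x _ => f x) 4 (by fun_prop)
      fun x ⟨c1, c2⟩ b => by
        have := sz_bool (decide (((bif b then f x else 0) + c2) % 2 = 1))
        simp only [sz_pair, sz_cons, sz_nat]
        cases b <;> simp only [cond_true, cond_false] at * <;> omega
  exact PT.append this.fst.reverse this.snd.toBits

/-- product of a list of unary numbers, in binary -/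
def prodB (L : List ℕ) : List Bool := L.foldl (fun c a => mulB a c) [true]

theorem prodB_aux (L : List ℕ) : ∀ c : List Bool, bin (L.foldl (fun c a => mulB a c) c) =
    L.prod * bin c ∧ (L.foldl (fun c a => mulB a c) c).length ≤ c.length + sz L := by
  induction L with
  | nil => simp
  | cons a L ih =>
    intro c
    obtain ⟨h1, h2⟩ := ih (mulB a c)
    have := len_mulB a c
    rw [List.foldl_cons, h1, bin_mulB, List.prod_cons, sz_cons, sz_nat]
    exact ⟨by ring, by omega⟩

theorem bin_prodB (L : List ℕ) : bin (prodB L) = L.prod := by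
  rw [prodB, (prodB_aux L _).1]; simp [bin]

@[fun_prop] theorem prodB_pt {α : Type} [Enc α] {l : α → List ℕ} (hl : PT l) :
    PT fun x => prodB (l x) := by
  obtain ⟨q, hq⟩ := hl.out
  refine PT.foldl hl (PT.const _) (by fun_prop) (Polynomial.C 4 * q + Polynomial.C 5) fun x n => ?_
  have h1 := (prodB_aux ((l x).take n) [true]).2
  have h2 := sz_sublist (List.take_sublist n (l x))
  have h3 := hq x
  refine (sz_bools _).trans ?_
  simp only [Polynomial.eval_add, Polynomial.eval_mul, Polynomial.eval_C, List.length_singleton] at *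
  omega

end Pool.Agent.Lead.Jit
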