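import Pool.Agent.Lead.Jit3

set_option autoImplicit false

namespace Pool.Agent.Lead.Jit
open Finset Pool.Agent.H11.PT Prm

abbrev F := List (ℕ × ℕ × ℕ)

def nv (φ : F) : ℕ := (φ.map fun c => c.1 + c.2.1 + c.2.2).sum + 1
def nn (φ : F) : ℕ := 56 * φ.length
def gg (φ : F) : ℕ := 8 * nn φ + nv φ
def KK (φ : F) : ℕ := nn φ * gg φ * gg φ * gg φ
def pp (φ : F) (v : ℕ) : ℕ := pr (nv φ + nn φ * gg φ) (nn φ * gg φ + v)
def cl (φ : F) (j : ℕ) : ℕ × ℕ × ℕ := φ.getD j (0, 0, 0)
def tj (φ : F) (j : ℕ) : List Tm :=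
  tm (KK φ) (gg φ) (pp φ (cl φ j).1) (pp φ (cl φ j).2.1) (pp φ (cl φ j).2.2)
def aa (K p q r : ℕ) (τ : Tm) : ℕ :=
  K * (τ.1 * (q * r) + τ.2.1 * (p * r) + τ.2.2.1 * (p * q)) + τ.2.2.2.2 * (p * q * r)
def sm (K g p q r : ℕ) (τ : Tm) (s : Bool) : ℕ :=
  bif s then g * g * g * (p * q * r) + aa K p q r τ - τ.2.2.2.1 * (p * q * r)
  else g * g * g * (p * q * r) + τ.2.2.2.1 * (p * q * r) - aa K p q r τ
def rest (φ : F) (j : ℕ) : List ℕ := ((List.range (nv φ)).filter
  fun v => decide (v ≠ (cl φ j).1 ∧ v ≠ (cl φ j).2.1 ∧ v ≠ (cl φ j).2.2)).map (pp φ)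
def si (φ : F) (i : ℕ) : ℕ := sm (KK φ) (gg φ) (pp φ (cl φ (i / 56)).1)
  (pp φ (cl φ (i / 56)).2.1) (pp φ (cl φ (i / 56)).2.2)
  ((tj φ (i / 56)).getD (i % 56 / 4) (0, 0, 0, 0, 0)) (decide (i % 4 < 2))
def red (φ : F) : Inst :=
  ((List.range (nn φ)).map fun i => mulB (si φ i) (prodB (rest φ (i / 56))),
    mulB (KK φ - (gg φ * gg φ * gg φ + 2 * (gg φ * gg φ))) (prodB ((List.range (nv φ)).map (pp φ))),
    mulB (KK φ) (prodB ((List.range (nv φ)).map (pp φ))))

section
variable {α : Type} [Enc α] {f : α → F} {g h k l m : α → ℕ} {t : α → Tm}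
@[fun_prop] theorem nv_pt : PT nv := by unfold nv; fun_prop
@[fun_prop] theorem nn_pt : PT nn := by unfold nn; fun_prop
attribute [local irreducible] nv nn pr mulB prodB
@[fun_prop] theorem gg_pt : PT gg := by unfold gg; fun_prop
attribute [local irreducible] gg
@[fun_prop] theorem KK_pt : PT KK := by unfold KK; fun_prop
@[fun_prop] theorem pp_pt (hf : PT f) (hg : PT g) : PT fun x => pp (f x) (g x) := by
  unfold pp; fun_prop
@[fun_prop] theorem cl_pt (hf : PT f) (hg : PT g) : PT fun x => cl (f x) (g x) := by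
  unfold cl; fun_prop
attribute [local irreducible] KK pp cl
@[fun_prop] theorem tm_pt {o : α → ℕ} (ho : PT o) (hg : PT g) (hk : PT k) (hl : PT l) (hm : PT m) :
    PT fun x => tm (o x) (g x) (k x) (l x) (m x) := by unfold tm; fun_prop
@[fun_prop] theorem aa_pt (hg : PT g) (hk : PT k) (hl : PT l) (hm : PT m) (ht : PT t) :
    PT fun x => aa (g x) (k x) (l x) (m x) (t x) := by unfold aa; fun_prop
attribute [local irreducible] tm aa
@[fun_prop] theorem sm_pt {s : α → Bool} (hg : PT g) (hh : PT h) (hk : PT k) (hl : PT l)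
    (hm : PT m) (ht : PT t) (hs : PT s) :
    PT fun x => sm (g x) (h x) (k x) (l x) (m x) (t x) (s x) := by unfold sm; fun_prop
attribute [local irreducible] sm
@[fun_prop] theorem si_pt (hf : PT f) (hg : PT g) : PT fun x => si (f x) (g x) := by
  unfold si tj; fun_prop
@[fun_prop] theorem rest_pt (hf : PT f) (hg : PT g) : PT fun x => rest (f x) (g x) := by
  unfold rest; fun_prop
attribute [local irreducible] si rest
theorem red_pt : PT red := by unfold red; fun_prop
end

theorem le_pr {t i : ℕ} (h : i < t) : i ≤ pr t i := by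
  have h1 := len_prs t
  have h2 : (prs (2 * (t + 2) ^ 2 + 1)).Pairwise (· < ·) := List.pairwise_lt_range.filter _
  unfold pr
  generalize prs (2 * (t + 2) ^ 2 + 1) = L at *
  have : ∀ i (h : i < L.length), i ≤ L[i] := fun i => by
    induction i with
    | zero => simp
    | succ i ih =>
      exact fun h => Nat.succ_le_of_lt ((ih (by omega)).trans_lt
        (List.pairwise_iff_getElem.1 h2 i (i + 1) (by omega) h (by omega)))
  rw [List.getD_eq_getElem _ _ (by omega)]
  exact this _ _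

theorem sm_eq (n K g p q r : ℕ) (τ : Tm) (s : Bool) (hp : 0 < p) (hq : 0 < q) (hr : 0 < r)
    (hn : 0 < n) (hg : 4 ≤ g) (hK : K = n * g * g * g)
    (h : |ev K p q r 1 1 1 τ| ≤ 2 * (2 / (n * g))) : (sm K g p q r τ s : ℚ) =
      (g * g * g + K * bif s then ev K p q r 1 1 1 τ else -ev K p q r 1 1 1 τ) * (p * q * r) := by
  have g0 : 0 < g := by omega
  have K0 : 0 < K := by rw [hK]; positivity
  have e : (aa K p q r τ : ℚ) - τ.2.2.2.1 * (p * q * r) = K * ev K p q r 1 1 1 τ * (p * q * r) := by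
    unfold aa ev; push_cast; field_simp; ring
  have b : |(K : ℚ) * ev K p q r 1 1 1 τ * (p * q * r)| ≤ g * g * g * (p * q * r) := by
    rw [abs_mul, abs_mul, abs_of_nonneg (a := (K : ℚ)) (by positivity),
      abs_of_nonneg (a := (p * q * r : ℚ)) (by positivity)]
    refine mul_le_mul_of_nonneg_right ?_ (by positivity)
    calc (K : ℚ) * |ev K p q r 1 1 1 τ| ≤ K * (2 * (2 / (n * g))) := by gcongr
      _ = 4 * g * g := by rw [hK]; push_cast; field_simp; ring
      _ ≤ g * g * g := by gcongr; exact_mod_cast hg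
  rw [← e, abs_le] at b
  unfold sm
  cases s <;> simp only [cond_true, cond_false]
  · rw [Nat.cast_sub (by qify; linarith)]; push_cast; linarith
  · rw [Nat.cast_sub (by qify; linarith)]; push_cast; linarith

theorem Nr.neg {κ x : ℚ} : Nr κ (-x) ↔ Nr κ x := by
  have : ∀ x : ℚ, Nr κ x → Nr κ (-x) := fun x ⟨m, h⟩ =>
    ⟨-m, by rw [← abs_neg] at h; convert h using 2; push_cast; ring⟩
  exact ⟨fun h => by simpa using this _ h, this x⟩

theorem main (φ : F) (h3 : Dist3 φ) (h0 : φ ≠ []) : Valid (red φ) ∧ (ONE3 φ ↔ ¬ Yes (red φ)) := by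
  have J0 : 0 < φ.length := List.length_pos_iff.2 h0
  obtain ⟨n, hn⟩ : ∃ n, n = nn φ := ⟨_, rfl⟩
  obtain ⟨g, hg⟩ : ∃ g, g = gg φ := ⟨_, rfl⟩
  obtain ⟨K, hK⟩ : ∃ K, K = KK φ := ⟨_, rfl⟩
  obtain ⟨P, hP⟩ : ∃ P, P = ∏ v ∈ range (nv φ), pp φ v := ⟨_, rfl⟩
  have n1 : n = 56 * φ.length := hn
  have g1 : g = 8 * n + nv φ := by rw [hg, hn]; rfl
  have K1 : K = n * g * g * g := by rw [hK, hg, hn]; rfl
  have prm : ∀ v, (pp φ v).Prime := fun v => (pr_prime _ _).1
  have P0 : 0 < P := hP ▸ prod_pos fun v _ => (prm v).pos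
  have ng : 56 * g ≤ n * g := by gcongr; omega
  have pb : ∀ v < nv φ, n * g ≤ pp φ v ∧ pp φ v ≤ K := fun v hv => by
    unfold pp
    rw [← hn, ← hg]
    refine ⟨(Nat.le_add_right _ v).trans (le_pr (by omega)), (pr_prime _ _).2.trans ?_⟩
    calc 2 * (nv φ + n * g + 2) ^ 2 ≤ 2 * (2 * (n * g)) ^ 2 := by gcongr; omega
      _ = n * g * g * (8 * n) := by ring
      _ ≤ n * g * g * g := by gcongr; omega
      _ = K := K1.symm
  have clj : ∀ j (hj : j < φ.length), cl φ j = φ[j] := fun j hj => List.getD_eq_getElem _ _ hj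
  have cv : ∀ j < φ.length, (cl φ j).1 < nv φ ∧ (cl φ j).2.1 < nv φ ∧ (cl φ j).2.2 < nv φ :=
    fun j hj => by
      have : φ[j].1 + φ[j].2.1 + φ[j].2.2 < nv φ := Nat.lt_succ_of_le
        (List.single_le_sum (by simp) _ (List.mem_map_of_mem (List.getElem_mem hj)))
      rw [clj j hj]; omega
  have lc := fun j (hj : j < φ.length) => loc n g K _ _ _ _ (by omega) (by omega) K1 rfl
    (pb _ (cv j hj).1) (pb _ (cv j hj).2.1) (pb _ (cv j hj).2.2)
  have rs : ∀ j < φ.length, pp φ (cl φ j).1 * pp φ (cl φ j).2.1 * pp φ (cl φ j).2.2 *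
      (rest φ j).prod = P := fun j hj => by
    obtain ⟨d1, d2, d3⟩ := h3 _ (List.getElem_mem hj)
    obtain ⟨c1, c2, c3⟩ := cv j hj
    rw [← clj j hj] at d1 d2 d3
    rw [hP, ← prod_filter_mul_prod_filter_not _ fun v => v ≠ (cl φ j).1 ∧ v ≠ (cl φ j).2.1 ∧
      v ≠ (cl φ j).2.2, mul_comm, show filter (fun v => ¬ (v ≠ (cl φ j).1 ∧ v ≠ (cl φ j).2.1 ∧
      v ≠ (cl φ j).2.2)) (range (nv φ)) = {(cl φ j).1, (cl φ j).2.1, (cl φ j).2.2} by
        ext; simp only [mem_filter, mem_range, mem_insert, mem_singleton]; omega,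
      prod_insert (by simp [d1, d2]), prod_pair d3, mul_assoc (pp φ _)]
    rfl
  let d : ℕ → ℕ := fun i => bin ((red φ).1.getD i [])
  let e : ℕ → ℚ := fun i => ev K (pp φ (cl φ (i / 56)).1) (pp φ (cl φ (i / 56)).2.1)
    (pp φ (cl φ (i / 56)).2.2) 1 1 1 ((tj φ (i / 56)).getD (i % 56 / 4) (0, 0, 0, 0, 0))
  have tl : ∀ j, (tj φ j).length = 14 := fun j => rfl
  have tjm : ∀ i, (tj φ (i / 56)).getD (i % 56 / 4) (0, 0, 0, 0, 0) ∈ tj φ (i / 56) := fun i => by
    rw [List.getD_eq_getElem _ _ (by rw [tl]; omega)]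
    exact List.getElem_mem _
  have tj' : ∀ j, tj φ j = tm K g (pp φ (cl φ j).1) (pp φ (cl φ j).2.1) (pp φ (cl φ j).2.2) :=
    fun j => by rw [hK, hg]; rfl
  have eb : ∀ i < n, |e i| ≤ 2 * (2 / (n * g)) := fun i hi =>
    (lc (i / 56) (by omega)).1 _ (tj' _ ▸ tjm i)
  have hd : ∀ i < n, (d i : ℚ) = (g * g * g + K * bif decide (i % 4 < 2) then e i else -e i) * P :=
    fun i hi => by
      have : d i = si φ i * (rest φ (i / 56)).prod := by
        simp only [d, red]
        rw [List.getD_eq_getElem _ _ (by simpa [← hn] using hi)]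
        simp [bin_mulB, bin_prodB]
      rw [this, ← rs (i / 56) (by omega), si, ← hK, ← hg, Nat.cast_mul,
        sm_eq n K g _ _ _ _ _ (prm _).pos (prm _).pos (prm _).pos (by omega) (by omega) K1 (eb i hi)]
      push_cast; ring
  have g0 : 0 < g := by omega
  have n0 : 0 < n := by omega
  have kk : (K : ℚ) * P * (2 / (n * g)) = (2 * (g * g) * P : ℕ) := by
    rw [K1]; push_cast; field_simp
  have KP : (0 : ℚ) < K * P := by rw [K1]; positivity
  have hb : ∀ i < n, g * g * g * P ≤ d i + 2 * (2 * (g * g) * P) ∧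
      d i ≤ g * g * g * P + 2 * (2 * (g * g) * P) := fun i hi => by
    have a1 := mul_le_mul_of_nonneg_left (eb i hi) KP.le
    rw [mul_left_comm, kk, ← abs_of_pos KP, ← abs_mul, abs_le] at a1
    have a2 := hd i hi
    qify
    push_cast at a1
    cases h : decide (i % 4 < 2) <;> rw [h] at a2 <;> simp only [cond_true, cond_false] at a2 <;>
      constructor <;> linarith
  have ee : ∀ i i', i' / 4 = i / 4 → e i' = e i := fun i i' h => by
    simp only [e, show i' / 56 = i / 56 by omega, show i' % 56 / 4 = i % 56 / 4 by omega]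
  have ho : ∀ i < n, (if i % 4 < 2 then i + 2 else i - 2) < n ∧
      d i + d (if i % 4 < 2 then i + 2 else i - 2) = 2 * (g * g * g * P) := fun i hi => by
    have a0 : (if i % 4 < 2 then i + 2 else i - 2) < n := by split_ifs <;> omega
    refine ⟨a0, Nat.cast_injective (R := ℚ) ?_⟩
    rw [Nat.cast_add, hd i hi, hd _ a0,
      ee i (if i % 4 < 2 then i + 2 else i - 2) (by split_ifs <;> omega)]
    split_ifs with h
    · simp [h, show ¬ (i + 2) % 4 < 2 by omega]; ring
    · simp [h, show (i - 2) % 4 < 2 by omega]; ring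
  have hD : ∑ j ∈ range n, d j = n * (g * g * g * P) := by
    have : ∑ j ∈ range n, d j = ∑ j ∈ range n, d (if j % 4 < 2 then j + 2 else j - 2) :=
      sum_nbij' (fun j => if j % 4 < 2 then j + 2 else j - 2)
        (fun j => if j % 4 < 2 then j + 2 else j - 2)
        (fun j hj => mem_range.2 (ho j (mem_range.1 hj)).1)
        (fun j hj => mem_range.2 (ho j (mem_range.1 hj)).1)
        (fun j _ => by split_ifs <;> omega) (fun j _ => by split_ifs <;> omega)
        (fun j _ => by congr 1; split_ifs <;> omega)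
    have h2 := sum_congr rfl fun j (hj : j ∈ range n) => (ho j (mem_range.1 hj)).2
    rw [sum_add_distrib, ← this, sum_const, card_range, smul_eq_mul] at h2
    linarith
  have W0 : 0 < 2 * (g * g) * P := by positivity
  have hT : n * (2 * (2 * (g * g) * P)) ≤ g * g * g * P :=
    calc _ = (4 * n) * g * g * P := by ring
      _ ≤ _ := by gcongr; omega
  have hW : n * (2 * (g * g) * P) ≤ g * g * g * P := le_trans (Nat.mul_le_mul_left _ (by omega)) hT
  have yes : Yes (red φ) ↔ Feas n d (((n * (g * g * g * P) - (g * g * g * P + 2 * (g * g) * P) : ℕ) :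
      ℚ) / (n * (g * g * g * P) : ℕ)) := by
    have : ((List.range (nv φ)).map (pp φ)).prod = P := hP.symm
    simp only [Yes, red, bin_mulB, bin_prodB, List.length_map, List.length_range, this, ← hK, ← hg,
      ← hn, d]
    rw [Nat.sub_mul, add_mul, K1, show n * g * g * g * P = n * (g * g * g * P) by ring]
  have sol : ∀ x, Sol n (n * (g * g * g * P)) (g * g * g * P + 2 * (g * g) * P) d x ↔
      x % n = 1 ∧ ∀ j < φ.length, x % K = 1 ∧ x % pp φ (cl φ j).1 ≤ 1 ∧ x % pp φ (cl φ j).2.1 ≤ 1 ∧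
        x % pp φ (cl φ j).2.2 ≤ 1 ∧
          x % pp φ (cl φ j).1 + x % pp φ (cl φ j).2.1 + x % pp φ (cl φ j).2.2 = 1 := fun x => by
    rw [sol_iff n _ _ d _ (by omega) hW W0 (by
      have := hd 0 n0
      simp only [e, tj', tm, ev] at this
      qify; simpa using this) ho]
    refine and_congr_right fun hx => ?_
    have a1 : ∀ i < n, (∃ m : ℤ, |(x : ℤ) * (d i - (g * g * g * P : ℕ)) -
        m * (n * (g * g * g * P : ℕ))| < (2 * (g * g) * P : ℕ)) ↔ Nr (2 / (n * g)) (x * e i) :=
      fun i hi => by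
        have : Nr (2 / (n * g)) (x * bif decide (i % 4 < 2) then e i else -e i) ↔
            Nr (2 / (n * g)) (x * e i) := by
          cases decide (i % 4 < 2)
          · rw [cond_false, mul_neg, Nr.neg]
          · rfl
        rw [← this]
        refine exists_congr fun m => ?_
        rw [← Int.cast_lt (R := ℚ), Int.cast_natCast, ← kk, Int.cast_abs,
          show (((x : ℤ) * (d i - (g * g * g * P : ℕ)) - m * (n * (g * g * g * P : ℕ)) : ℤ) : ℚ) =
            K * P * ((x * bif decide (i % 4 < 2) then e i else -e i) - m) by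
              push_cast; rw [hd i hi, K1]; push_cast; ring,
          abs_mul, abs_of_pos KP, mul_lt_mul_iff_right₀ KP]
    rw [forall₂_congr a1]
    refine ⟨fun h j hj => ((lc j hj).2 x hx).1 fun τ hτ => ?_, fun h i hi =>
      ((lc (i / 56) (by omega)).2 x hx).2 (h _ (by omega)) _ (tj' _ ▸ tjm i)⟩
    rw [← tj'] at hτ
    obtain ⟨t, t1, rfl⟩ := List.getElem_of_mem hτ
    rw [tl] at t1
    have := h (56 * j + 4 * t) (by omega)
    simp only [e, show (56 * j + 4 * t) / 56 = j by omega,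
      show (56 * j + 4 * t) % 56 / 4 = t by omega] at this
    rwa [List.getD_eq_getElem _ _ (by rw [tl]; omega)] at this
  refine ⟨⟨fun x hx => ?_, ?_⟩, ?_⟩
  · obtain ⟨i, hi, rfl⟩ := List.getElem_of_mem hx
    rw [← List.getD_eq_getElem _ [] hi]
    have := (hb i (by simpa [red, ← hn] using hi)).1
    have : 2 * (2 * (2 * (g * g) * P)) ≤ n * (2 * (2 * (g * g) * P)) := by gcongr; omega
    change 0 < d i
    omega
  · simp only [red, bin_mulB, bin_prodB, ← hK]
    exact Nat.mul_pos (by rw [K1]; positivity) (P0.trans_eq hP)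
  rw [yes]
  constructor
  · rintro ⟨σ, hσ⟩
    have co : ∀ v < nv φ, (pp φ v).Coprime K := fun v hv => by
      have := (pb v hv).1
      have a : ∀ m, 0 < m → m ≤ g → (pp φ v).Coprime m := fun m h1 h2 =>
        Nat.coprime_of_lt_prime h1.ne' (by omega) (prm v)
      rw [K1]
      exact (((a n n0 (by omega)).mul_right (a g g0 le_rfl)).mul_right (a g g0 le_rfl)).mul_right
        (a g g0 le_rfl)
    obtain ⟨x, hx⟩ := Nat.chineseRemainderOfFinset (fun v => if v < nv φ then (σ v).toNat else 1)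
      (fun v => if v < nv φ then pp φ v else K) (range (nv φ + 1))
      (fun v _ => by split_ifs; exacts [(prm v).ne_zero, by rw [K1]; positivity])
      (fun u hu v hv huv => by
        simp only [coe_range, Set.mem_Iio] at hu hv
        simp only [Function.onFun]
        split_ifs with h1 h2 h2
        · exact (Nat.coprime_primes (prm u) (prm v)).2 fun h => huv (by
            have := pr_inj (by omega) (by omega) h
            omega)
        · exact co u h1
        · exact (co v h2).symm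
        · omega)
    have xK : x % K = 1 := by
      have := hx (nv φ) (by simp)
      simp only [lt_irrefl, if_false] at this
      rw [this, Nat.mod_eq_of_lt (by have := pb 0 (Nat.succ_pos _); omega)]
    have xp : ∀ v < nv φ, x % pp φ v = (σ v).toNat := fun v hv => by
      have := hx v (mem_range.2 (by omega))
      simp only [hv, if_true] at this
      rw [this, Nat.mod_eq_of_lt ((σ v).toNat_le.trans_lt (prm v).one_lt)]
    refine not_feas n _ _ d hD (by nlinarith) (by positivity) x ((sol x).2 ⟨?_, fun j hj => ?_⟩)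
    · rw [← Nat.mod_mod_of_dvd x (show n ∣ K from ⟨g * g * g, by rw [K1]; ring⟩), xK,
        Nat.mod_eq_of_lt (by omega)]
    · obtain ⟨c1, c2, c3⟩ := cv j hj
      rw [xp _ c1, xp _ c2, xp _ c3]
      exact ⟨xK, Bool.toNat_le _, Bool.toNat_le _, Bool.toNat_le _,
        clj j hj ▸ hσ _ (List.getElem_mem hj)⟩
  · intro h
    by_contra h'
    refine h (feas_of_nosol n _ _ _ d (fun i => if i % 2 = 0 then i + 1 else i - 1) hD (by omega)
      hW W0 hT le_rfl hb (fun i hi => ?_) fun x hx => h' ⟨fun v => x % pp φ v == 1,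
        List.forall_mem_iff_forall_getElem.2 fun j hj => ?_⟩)
    · have a0 : (if i % 2 = 0 then i + 1 else i - 1) < n := by split_ifs <;> omega
      refine ⟨a0, by split_ifs <;> omega, Nat.cast_injective (R := ℚ) ?_⟩
      rw [hd i hi, hd _ a0, ee i (if i % 2 = 0 then i + 1 else i - 1) (by split_ifs <;> omega), show decide ((if i % 2 = 0 then i + 1 else i - 1) % 4 < 2) =
        decide (i % 4 < 2) from decide_eq_decide.2 (by split_ifs <;> omega)]
    · obtain ⟨-, a1, a2, a3, a4⟩ := ((sol x).1 hx).2 j hj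
      rw [clj j hj] at a1 a2 a3 a4
      have : ∀ w ≤ 1, (w == 1).toNat = w := by decide
      simp only [this _ a1, this _ a2, this _ a3, a4]

theorem hard : HardFor InNP Valid fun y => ¬ Yes y :=
  (hard_ONE3.red (Val' := fun φ => Dist3 φ ∧ φ ≠ []) (Y := ONE3)
    (fun φ => bif φ.isEmpty then [(0, 1, 2)] else φ) (by fun_prop) fun φ h => by
      cases φ
      · exact ⟨⟨by simp [Dist3], by simp⟩, iff_of_true ⟨fun _ => true, by simp⟩
          ⟨fun v => v == 0, by simp⟩⟩
      · exact ⟨⟨h, by simp⟩, Iff.rfl⟩).red red red_pt fun φ h => main φ h.1 h.2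

theorem collapse (h : InNP fun y => Valid y ∧ Yes y) (L : List Bool → Prop) (hL : InNP L) :
    InNP fun w => ¬ L w := by
  obtain ⟨f, hf, e⟩ := hard L hL
  exact NPc.InNP.red h f hf fun x => by simp [(e x).1, (e x).2]

end Pool.Agent.Lead.Jit
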