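import Pool.Agent.H11.GDefs

set_option autoImplicit false

namespace Pool.Agent.Lead.Jit
open Pool.Agent.H11.PT

/-- there is a word over `0, …, n-1` in which letter `i` occurs `d i` times and whose
bottleneck deviation is at most `B` -/
def Feas (n : ℕ) (d : ℕ → ℕ) (B : ℚ) : Prop :=
  ∃ S : List ℕ, (∀ s ∈ S, s < n) ∧ (∀ i < n, S.count i = d i) ∧
    ∀ i < n, ∀ k, 1 ≤ k → k ≤ ∑ j ∈ Finset.range n, d j →
      |((S.take k).count i : ℚ) - k * ((d i : ℚ) / (∑ j ∈ Finset.range n, d j : ℕ))| ≤ B

/-- demands `d_i` in binary, numerator and denominator of `B` in binary -/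
abbrev Inst := List (List Bool) × List Bool × List Bool

/-- positive demands, nonzero denominator -/
def Valid (y : Inst) : Prop := (∀ x ∈ y.1, 0 < bin x) ∧ 0 < bin y.2.2

/-- a just-in-time sequence of bottleneck deviation at most `B` exists -/
def Yes (y : Inst) : Prop :=
  Feas y.1.length (fun i => bin (y.1.getD i [])) ((bin y.2.1 : ℚ) / bin y.2.2)

end Pool.Agent.Lead.Jit
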