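import Pool.Agent.Lead.LinDefs
import Pool.Agent.Lead.Ak1

namespace Pool.Agent.Lead.KSep

open Set Topology Filter Pool.Agent.Lead.Lin

section
variable {K D : Type} [TopologicalSpace K] [TopologicalSpace D] [DiscreteTopology D]

abbrev Z (φ : D → K) : Type :=
  {p : K × OnePoint D // p.2 = OnePoint.infty ∨ ∃ d : D, p.2 = ↑d ∧ p.1 = φ d}

def bs (φ : D → K) (x : K) : Z φ := ⟨(x, OnePoint.infty), Or.inl rfl⟩

def up (φ : D → K) (d : D) : Z φ := ⟨(φ d, ↑d), Or.inr ⟨d, rfl, rfl⟩⟩

def RC (φ : D → K) : Prop := ∀ u : ℕ → D, ∃ x, MapClusterPt x atTop (φ ∘ u)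

omit [DiscreteTopology D] in
theorem bs_cont (φ : D → K) : Continuous (bs φ) :=
  (continuous_id.prodMk continuous_const).subtype_mk _

def jmp (φ : D → K) (f : Z φ → ℝ) (t : OnePoint D) : ℝ :=
  t.elim 0 fun d => f (up φ d) - f (bs φ (φ d))

theorem jmp_cont {φ : D → K} (h : RC φ) {f : Z φ → ℝ} (hf : Continuous f) :
    Continuous (jmp φ f) := by
  rw [OnePoint.continuous_iff_from_discrete, Metric.tendsto_nhds]
  intro ε hε
  by_contra hinf
  have hinf' : {d : D | ¬ dist (jmp φ f ↑d) (jmp φ f OnePoint.infty) < ε}.Infinite := hinf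
  let u : ℕ → D := fun n => (hinf'.natEmbedding _ n).1
  have hu : Function.Injective u := fun a b h =>
    (hinf'.natEmbedding _).injective (Subtype.ext h)
  obtain ⟨x, hx⟩ := h u
  obtain ⟨U, hU, hU'⟩ := mapClusterPt_iff_ultrafilter.1 hx
  have h1 : Tendsto (fun n => ((u n : D) : OnePoint D)) U (𝓝 OnePoint.infty) := by
    have := (OnePoint.continuous_iff_from_discrete (id : OnePoint D → OnePoint D)).1 continuous_id
    exact (this.comp hu.tendsto_cofinite).mono_left (hU.trans Nat.cofinite_eq_atTop.ge)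
  have h2 : Tendsto (fun n => up φ (u n)) U (𝓝 (bs φ x)) :=
    tendsto_subtype_rng.2 (hU'.prodMk_nhds h1)
  have h3 : Tendsto (fun n => bs φ (φ (u n))) U (𝓝 (bs φ x)) :=
    ((bs_cont φ).tendsto x).comp hU'
  have h4 := ((hf.tendsto _).comp h2).sub ((hf.tendsto _).comp h3)
  rw [sub_self, Metric.tendsto_nhds] at h4
  obtain ⟨n, hn⟩ := (h4 ε hε).exists
  exact (hinf'.natEmbedding _ n).2 hn

noncomputable def T {φ : D → K} (h : RC φ) (ψ : D → K) : C(Z φ, ℝ) →ₗ[ℝ] C(Z ψ, ℝ) where
  toFun f := ⟨fun p => f (bs φ p.1.1) + jmp φ f p.1.2,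
    (f.continuous.comp ((bs_cont φ).comp (continuous_fst.comp continuous_subtype_val))).add
      ((jmp_cont h f.continuous).comp (continuous_snd.comp continuous_subtype_val))⟩
  map_add' f g := by
    ext ⟨⟨x, t⟩, hp⟩
    induction t using OnePoint.rec with
    | infty => simp [jmp]
    | coe d => simp [jmp]; ring
  map_smul' c f := by
    ext ⟨⟨x, t⟩, hp⟩
    induction t using OnePoint.rec with
    | infty => simp [jmp]
    | coe d => simp [jmp]; ring

theorem T_T {φ ψ : D → K} (h : RC φ) (h' : RC ψ) (f : C(Z φ, ℝ)) : T h' φ (T h ψ f) = f := by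
  ext ⟨⟨x, t⟩, hp⟩
  rcases hp with h1 | ⟨d, h1, h2⟩
  · simp only at h1
    subst h1
    simp [T, jmp, bs]
  · simp only at h1 h2
    subst h1 h2
    simp [T, jmp, bs, up]

theorem T_cont {φ : D → K} (h : RC φ) (ψ : D → K) :
    @Continuous _ _ (ptop _) (ptop _) (T h ψ) := by
  let _ := ptop (Z φ)
  have hc : ∀ z, Continuous fun f : C(Z φ, ℝ) => f z :=
    fun z => continuous_pi_iff.1 continuous_induced_dom z
  refine continuous_induced_rng.2 (continuous_pi fun p => ?_)
  obtain ⟨⟨x, t⟩, hp⟩ := p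
  induction t using OnePoint.rec with
  | infty => exact (hc _).add continuous_const
  | coe d => exact (hc _).add ((hc _).sub (hc _))

noncomputable def E {φ ψ : D → K} (h : RC φ) (h' : RC ψ) : C(Z φ, ℝ) ≃ₗ[ℝ] C(Z ψ, ℝ) :=
  { T h ψ with invFun := T h' φ, left_inv := T_T h h', right_inv := T_T h' h }

omit [DiscreteTopology D] in
theorem ksep_const {S : Set K} (hS : Dense S) (hS' : IsSigmaCompact S) (x : K) :
    ∃ S' : Set (Z fun _ : D => x), Dense S' ∧ IsSigmaCompact S' := by
  let j : OnePoint D → Z fun _ : D => x := fun t => ⟨(x, t), by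
    induction t using OnePoint.rec with
    | infty => exact Or.inl rfl
    | coe d => exact Or.inr ⟨d, rfl, rfl⟩⟩
  have hj : Continuous j := (continuous_const.prodMk continuous_id).subtype_mk _
  refine ⟨bs _ '' S ∪ range j, ?_, ?_⟩
  · rintro ⟨⟨y, t⟩, h1 | ⟨d, h1, h2⟩⟩
    · simp only at h1
      subst h1
      exact closure_mono subset_union_left
        (image_closure_subset_closure_image (bs_cont _) ⟨y, hS y, rfl⟩)
    · simp only at h1 h2
      subst h1 h2
      exact subset_closure (Or.inr ⟨d, rfl⟩)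
  · rw [union_eq_iUnion]
    refine isSigmaCompact_iUnion _ fun b => ?_
    cases b
    · exact (isCompact_range hj).isSigmaCompact
    · exact hS'.image (bs_cont _)

end

theorem isOpen_eq_of_discrete {A : Type} [TopologicalSpace A] {f : A → Bool} (hf : Continuous f)
    (b : Bool) : IsOpen {a | f a = b} := (isOpen_discrete {b}).preimage hf

abbrev KK : Type := {x : ℝ → Bool // x ≠ fun _ => true}

def DD : Type := {s : Set ℝ // s.Countable}

instance : TopologicalSpace DD := ⊥
instance : DiscreteTopology DD := ⟨rfl⟩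

open Classical in
noncomputable def ph (d : DD) : KK := ⟨fun t => decide (t ∈ d.1), fun h =>
  Cardinal.not_countable_real (d.2.mono fun t _ => by simpa using congrFun h t)⟩

theorem ph_RC : RC ph := by
  intro u
  obtain ⟨x, hx⟩ := exists_clusterPt_of_compactSpace (map (fun n => (ph (u n)).1) atTop)
  have hx' : MapClusterPt x atTop fun n => (ph (u n)).1 := hx
  have hne : x ≠ fun _ => true := by
    rintro rfl
    refine Cardinal.not_countable_real ((countable_iUnion fun n => (u n).2).mono fun t _ => ?_)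
    obtain ⟨n, hn⟩ := (mapClusterPt_iff_frequently.1 hx' {y | y t = true}
      ((isOpen_eq_of_discrete (continuous_apply t) true).mem_nhds rfl)).exists
    exact mem_iUnion.2 ⟨n, by simpa [ph] using hn⟩
  exact ⟨⟨x, hne⟩, IsInducing.subtypeVal.mapClusterPt_iff.1 (by
    rw [MapClusterPt, map_map]; exact hx')⟩

theorem not_ksep : ¬ ∃ S : Set (Z ph), Dense S ∧ IsSigmaCompact S := by
  rintro ⟨_, hS, C, hC, rfl⟩
  have h1 : ∀ n, ∃ F : Finset ℝ, ∀ z ∈ C n, ∃ t ∈ F, z.1.1.1 t = false := by
    intro n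
    obtain ⟨F, hF⟩ := (hC n).elim_finite_subcover (fun t : ℝ => {z | z.1.1.1 t = false})
      (fun t => isOpen_eq_of_discrete ((continuous_apply t).comp
        (continuous_subtype_val.comp (continuous_fst.comp continuous_subtype_val))) false)
      (fun z _ => by
        obtain ⟨t, ht⟩ := Function.ne_iff.1 z.1.1.2
        exact mem_iUnion.2 ⟨t, by simpa using ht⟩)
    exact ⟨F, fun z hz => by simpa using hF hz⟩
  choose F hF using h1
  let d : DD := ⟨⋃ n, F n, countable_iUnion fun n => (F n).countable_toSet⟩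
  obtain ⟨z, hz, hz'⟩ := hS.inter_open_nonempty {z | z.1.2 ∈ ((↑) : DD → OnePoint DD) '' {d}}
    ((OnePoint.isOpen_image_coe.2 (isOpen_discrete _)).preimage
      (continuous_snd.comp continuous_subtype_val)) ⟨up ph d, d, rfl, rfl⟩
  obtain ⟨n, hn⟩ := mem_iUnion.1 hz'
  obtain ⟨t, h1, h2⟩ := hF n z hn
  obtain ⟨_, rfl, h3⟩ := hz
  rcases z.2 with h | ⟨d', h4, h5⟩
  · rw [h] at h3
    exact OnePoint.coe_ne_infty _ h3
  · rw [h4] at h3
    rw [h5, ← OnePoint.coe_injective h3] at h2
    simp only [ph, decide_eq_false_iff_not] at h2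
    exact h2 (mem_iUnion.2 ⟨n, h1⟩)

theorem KK_ksep : ∃ S : Set KK, Dense S ∧ IsSigmaCompact S := by
  classical
  let G : Set (ℝ → Bool) := {x | {t | x t = true}.Finite}
  have hG : IsSigmaCompact G := by
    have he : IsClosedEmbedding fun (x : ℝ → Bool) (t : ℝ) => if x t = true then (1 : ℝ) else 0 :=
      Continuous.isClosedEmbedding (continuous_pi fun t =>
        (continuous_of_discreteTopology (f := fun c : Bool => if c = true then (1 : ℝ) else 0)).comp
          (continuous_apply t)) fun x y h => funext fun t => by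
        have := congrFun h t
        by_cases h1 : x t = true <;> by_cases h2 : y t = true <;> simp_all
    obtain ⟨C, hC, hC'⟩ := Ak.Fin0_sigma ℝ
    refine ⟨fun n => _ ⁻¹' C n, fun n => he.isCompact_preimage (hC n), ?_⟩
    rw [← preimage_iUnion, hC']
    ext x
    simp only [G, Ak.Fin0, mem_ofPred_eq, mem_preimage]
    refine ⟨fun h => h.2.subset fun t ht => by simpa using ht,
      fun h => ⟨fun t => by split_ifs <;> norm_num, h.subset fun t ht => by simpa using ht⟩⟩
  refine ⟨Subtype.val ⁻¹' G, ?_, ?_⟩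
  · rw [dense_iff_inter_open]
    rintro _ ⟨O, hO, rfl⟩ ⟨x, hx⟩
    obtain ⟨I, u, h1, h2⟩ := isOpen_pi_iff.1 hO _ hx
    have hf : {t | (decide (t ∈ I) && x.1 t) = true}.Finite :=
      I.finite_toSet.subset fun t ht => by simp at ht; exact ht.1
    refine ⟨⟨fun t => decide (t ∈ I) && x.1 t, fun h => infinite_univ (hf.subset fun t _ =>
      congrFun h t)⟩, h2 fun t ht => ?_, hf⟩
    have : t ∈ I := ht
    simpa [this] using (h1 t ht).2
  · refine Subtype.isSigmaCompact_iff.2 ((image_preimage_eq_of_subset ?_).symm ▸ hG)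
    intro x hx
    refine ⟨⟨x, ?_⟩, rfl⟩
    rintro rfl
    exact infinite_univ (hx.subset fun t _ => rfl)

end Pool.Agent.Lead.KSep
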