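import Mathlib

namespace Pool.Agent.Lead.LSS

/-- the d-th Lovasz-Saks-Schrijver ideal of a graph on n vertices -/
noncomputable def lss (K : Type) [Field K] (d n : ℕ) (G : SimpleGraph (Fin n)) :
    Ideal (MvPolynomial (Fin d × Fin n) K) :=
  Ideal.span {f | ∃ j k, G.Adj j k ∧ f = ∑ i, MvPolynomial.X (i, j) * MvPolynomial.X (i, k)}

end Pool.Agent.Lead.LSS
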