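import Mathlib
import Pool.Agent.Lead.LSSDefs

namespace Pool.Agent.Lead.LSS

open MvPolynomial

lemma exists_ass {R : Type*} [CommRing R] [IsNoetherianRing R] (I : Ideal R) (f h : R)
    (hf : ∀ k : ℕ, f * h ^ k ∉ I) :
    ∃ P ∈ associatedPrimes R (R ⧸ I), h ∉ P ∧ ∀ y, y * f ∈ I → y ∈ P := by
  obtain ⟨P, ⟨r, hr, rfl⟩, hmax⟩ := set_has_maximal_iff_noetherian.mpr (inferInstanceAs (IsNoetherian R R))
    {J : Ideal R | ∃ r, (∀ k : ℕ, f * r * h ^ k ∉ I) ∧ J = I.colon {f * r}}
    ⟨_, 1, by simpa using hf, rfl⟩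
  have mem : ∀ a b : R, a ∈ I.colon {b} ↔ a * b ∈ I := fun a b => by
    rw [Submodule.mem_colon_singleton, smul_eq_mul]
  have eqv : ∀ s, (∀ k : ℕ, f * (r * s) * h ^ k ∉ I) → ∀ a, a * (f * (r * s)) ∈ I →
      a * (f * r) ∈ I := by
    intro s hs a ha
    by_contra hn
    refine hmax _ ⟨r * s, hs, rfl⟩ (lt_of_le_of_ne (fun b hb => ?_) (fun e => hn ?_))
    · rw [mem] at hb ⊢
      have := I.mul_mem_left s hb
      convert this using 1; ring
    · rw [← mem, e, mem]; exact ha
  refine ⟨I.colon {f * r}, ?_, ?_, ?_⟩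
  · rw [AssociatedPrimes.mem_iff, isAssociatedPrime_iff]
    refine ⟨⟨?_, ?_⟩, Ideal.Quotient.mk I (f * r), ?_⟩
    · rw [Ideal.ne_top_iff_one, mem]; simpa using hr 0
    · intro a b hab
      rw [or_iff_not_imp_left, mem, mem]
      rw [mem] at hab
      intro ha
      refine eqv a (fun k hk => ha (eqv (h ^ k) (fun l => ?_) a ?_)) b ?_
      · have := hr (k + l)
        convert this using 2; ring
      · convert hk using 1; ring
      · convert hab using 1; ring
    · ext a
      rw [mem, Submodule.mem_colon_singleton, Submodule.mem_bot, ← Ideal.Quotient.eq_zero_iff_mem]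
      rfl
  · rw [mem]; have := hr 1
    convert this using 2; ring
  · intro y hy
    rw [mem]
    have := I.mul_mem_left r hy
    convert this using 1; ring

def dot {R : Type*} [CommRing R] (x : Fin 3 × Fin 7 → R) (j k : Fin 7) : R :=
  x (0, j) * x (0, k) + x (1, j) * x (1, k) + x (2, j) * x (2, k)

def cr {R : Type*} [CommRing R] (x : Fin 3 × Fin 7 → R) (j k : Fin 7) : R :=
  x (0, j) * x (1, k) - x (1, j) * x (0, k)

lemma iso {R : Type*} [CommRing R] (x : Fin 3 × Fin 7 → R) (u v a q : Fin 7)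
    (h1 : dot x u v = 0) (h2 : dot x u a = 0) (h3 : dot x v a = 0) (h4 : dot x u q = 0)
    (h5 : dot x v q = 0) : x (2, v) * cr x a q ^ 2 * dot x u u = 0 := by
  unfold dot cr at *
  grind

def edges : List (Fin 7 × Fin 7) :=
  [(0, 1), (2, 3), (0, 2), (1, 2), (0, 3), (0, 4), (1, 4), (2, 5), (3, 5), (0, 6), (2, 6)]

def G0 : SimpleGraph (Fin 7) := SimpleGraph.fromRel fun j k => (j, k) ∈ edges

lemma dot_comm {R : Type*} [CommRing R] (x : Fin 3 × Fin 7 → R) (j k : Fin 7) :
    dot x j k = dot x k j := by unfold dot; ring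

variable {K : Type} [Field K]

lemma le_ker {R : Type*} [CommRing R] (φ : MvPolynomial (Fin 3 × Fin 7) K →+* R) :
    lss K 3 7 G0 ≤ RingHom.ker φ ↔ ∀ e ∈ edges, dot (fun v => φ (X v)) e.1 e.2 = 0 := by
  rw [lss, Ideal.span_le]
  constructor
  · intro h e he
    have : e.1 ≠ e.2 := by revert e; decide
    have := h ⟨e.1, e.2, (SimpleGraph.fromRel_adj _ _ _).2 ⟨this, Or.inl he⟩, rfl⟩
    simpa [Fin.sum_univ_three, dot] using this
  · rintro h _ ⟨j, k, hjk, rfl⟩
    have : dot (fun v => φ (X v)) j k = 0 := by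
      rcases ((SimpleGraph.fromRel_adj _ _ _).1 hjk).2 with h' | h'
      · exact h (j, k) h'
      · rw [dot_comm]; exact h (k, j) h'
    simpa [Fin.sum_univ_three, dot] using this

def ff {R : Type*} [CommRing R] (x : Fin 3 × Fin 7 → R) : R := cr x 2 0 * (x (2, 1) * cr x 2 4 ^ 2)
def hh {R : Type*} [CommRing R] (x : Fin 3 × Fin 7 → R) : R :=
  x (2, 0) * x (2, 1) * cr x 2 4 * x (2, 3) * cr x 0 5

lemma map_ff {R : Type*} [CommRing R] (φ : MvPolynomial (Fin 3 × Fin 7) K →+* R) :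
    φ (ff X) = ff fun v => φ (X v) := by simp [ff, cr]
lemma map_hh {R : Type*} [CommRing R] (φ : MvPolynomial (Fin 3 × Fin 7) K →+* R) :
    φ (hh X) = hh fun v => φ (X v) := by simp [hh, cr]
lemma map_cr {R : Type*} [CommRing R] (φ : MvPolynomial (Fin 3 × Fin 7) K →+* R) (j k : Fin 7) :
    φ (cr X j k) = cr (fun v => φ (X v)) j k := by simp [cr]

def pt {R : Type*} [CommRing R] (i e : R) : Fin 3 × Fin 7 → R := fun v =>
  !![0, 0, e, e, 1, 1, 0; i, i, i, i, 0, 0, 0; 1, 1, 1, 1, 0, -e, 0] v.1 v.2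

lemma not_mem' {B : Type} [CommRing B] (ι : K →+* B) (i e : B) (hi2 : i ^ 2 = -1) (he : e * e = 0)
    (he0 : e ≠ 0) (k : ℕ) : ff X * hh X ^ k ∉ lss K 3 7 G0 := by
  let φ : MvPolynomial (Fin 3 × Fin 7) K →+* B :=
    eval₂Hom ι (pt i e)
  have hφ : (fun v => φ (X v)) = pt i e := by ext1 v; simp [φ]
  have hle : lss K 3 7 G0 ≤ RingHom.ker φ := by
    rw [le_ker, hφ]
    intro x hx
    simp only [edges, List.mem_cons, List.not_mem_nil, or_false] at hx
    rcases hx with rfl | rfl | rfl | rfl | rfl | rfl | rfl | rfl | rfl | rfl | rfl <;>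
      simp [dot, pt] <;> grind
  intro h
  have := hle h
  rw [RingHom.mem_ker, map_mul, map_pow, map_ff, map_hh, hφ] at this
  have e1 : hh (pt i e) = -1 := by simp [hh, cr, pt]; grind
  have e2 : ff (pt i e) = -(i * e) := by simp [ff, cr, pt]; grind
  rw [e1, e2] at this
  apply he0
  have h1 : ((-1 : B) ^ k) * (-1) ^ k = 1 := by rw [← mul_pow]; norm_num
  linear_combination (i * (-1) ^ k) * this + (i ^ 2 * e) * h1 + e * hi2

lemma not_mem (k : ℕ) : ff X * hh X ^ k ∉ lss K 3 7 G0 := by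
  obtain ⟨i0, hi0⟩ := IsAlgClosed.exists_pow_nat_eq (-1 : AlgebraicClosure K) (n := 2) (by norm_num)
  refine not_mem' ((algebraMap (AlgebraicClosure K) (DualNumber (AlgebraicClosure K))).comp
    (algebraMap K _)) (algebraMap (AlgebraicClosure K) _ i0) DualNumber.eps ?_
    DualNumber.eps_mul_eps (fun h => ?_) k
  · rw [← map_pow, hi0]; simp
  · have := congrArg TrivSqZeroExt.snd h
    simp at this

lemma y_mul : cr X 6 0 * ff X ∈ lss K 3 7 G0 := by
  rw [← Ideal.Quotient.eq_zero_iff_mem, map_mul, map_cr, map_ff]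
  have h := (le_ker (Ideal.Quotient.mk (lss K 3 7 G0))).1 (by rw [Ideal.mk_ker])
  set x := fun v => Ideal.Quotient.mk (lss K 3 7 G0) (X v)
  have hu := iso x 0 1 2 4 (h (0, 1) (by decide)) (h (0, 2) (by decide)) (h (1, 2) (by decide))
    (h (0, 4) (by decide)) (h (1, 4) (by decide))
  have h1 := h (0, 2) (by decide)
  have h2 := h (0, 6) (by decide)
  have h3 := h (2, 6) (by decide)
  clear_value x
  simp only [ff]
  generalize x (2, 1) * cr x 2 4 ^ 2 = w at hu ⊢
  unfold dot cr at *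
  grind

theorem main : ∃ P ∈ associatedPrimes (MvPolynomial (Fin 3 × Fin 7) K)
    (MvPolynomial (Fin 3 × Fin 7) K ⧸ lss K 3 7 G0), P ∉ (lss K 3 7 G0).minimalPrimes := by
  obtain ⟨P, hP, hh0, hy⟩ := exists_ass (lss K 3 7 G0) (ff X) (hh X) not_mem
  refine ⟨P, hP, fun hmin => ?_⟩
  have : P.IsPrime := hP.1
  have hI : lss K 3 7 G0 ≤ P := fun a ha => hy a (Ideal.mul_mem_right _ _ ha)
  have h := (le_ker (Ideal.Quotient.mk P)).1 (by rwa [Ideal.mk_ker])
  have hh1 := hh0
  rw [← Ideal.Quotient.eq_zero_iff_mem, map_hh] at hh1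
  have hy1 := hy _ y_mul
  set x := fun v => Ideal.Quotient.mk P (X v) with hx
  simp only [hh, mul_eq_zero, not_or] at hh1
  obtain ⟨⟨⟨⟨n1, n2⟩, n3⟩, n4⟩, n5⟩ := hh1
  have hu : dot x 0 0 = 0 := by
    have := iso x 0 1 2 4 (h (0, 1) (by decide)) (h (0, 2) (by decide)) (h (1, 2) (by decide))
      (h (0, 4) (by decide)) (h (1, 4) (by decide))
    simpa [n2, n3] using this
  have ha : dot x 2 2 = 0 := by
    have := iso x 2 3 0 5 (h (2, 3) (by decide)) ((dot_comm _ _ _).trans (h (0, 2) (by decide)))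
      ((dot_comm _ _ _).trans (h (0, 3) (by decide))) (h (2, 5) (by decide)) (h (3, 5) (by decide))
    simpa [n4, n5] using this
  have hc : cr x 2 0 = 0 := by
    have h1 := h (0, 2) (by decide)
    have : cr x 2 0 ^ 2 = 0 := by
      clear_value x
      unfold dot cr at *
      grind
    exact pow_eq_zero_iff (two_ne_zero) |>.1 this
  let w : Fin 3 × Fin 7 → _ ⧸ P := fun v => if v.2 = 6 then ![x (1, 0), -x (0, 0), 0] v.1 else 0
  let φ : MvPolynomial (Fin 3 × Fin 7) K →+* Polynomial (_ ⧸ P) :=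
    eval₂Hom (Polynomial.C.comp ((Ideal.Quotient.mk P).comp C))
      (fun v => Polynomial.C (x v) + Polynomial.C (w v) * Polynomial.X)
  have hφ : (fun v => φ (X v)) = fun v => Polynomial.C (x v) + Polynomial.C (w v) * Polynomial.X := by
    ext1 v; simp [φ]
  have hQ : lss K 3 7 G0 ≤ RingHom.ker φ := by
    rw [le_ker, hφ]
    intro e he
    have h0 := congrArg Polynomial.C (h e he)
    have hc' := congrArg Polynomial.C hc
    simp only [edges, List.mem_cons, List.not_mem_nil, or_false] at he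
    clear_value x
    rcases he with rfl | rfl | rfl | rfl | rfl | rfl | rfl | rfl | rfl | rfl | rfl <;>
      simp [dot, cr, w] at h0 hc' ⊢ <;> grind
  have hQP : RingHom.ker φ ≤ P := by
    intro a ha
    have : (Polynomial.evalRingHom 0).comp φ = Ideal.Quotient.mk P := by
      apply MvPolynomial.ringHom_ext
      · intro r; simp [φ]
      · intro v; simp [φ, hx]
    rw [← Ideal.Quotient.eq_zero_iff_mem, ← this, RingHom.comp_apply, RingHom.mem_ker.1 ha, map_zero]
  have hle := hmin.2 ⟨RingHom.ker_isPrime φ, hQ⟩ hQP hy1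
  rw [RingHom.mem_ker, map_cr, hφ] at hle
  have := congrArg (fun p => Polynomial.coeff p 1) hle
  simp [cr, w, add_mul, mul_assoc, Polynomial.coeff_C_mul, ← map_mul] at this
  apply n1
  have h2 : x (2, 0) ^ 2 = 0 := by
    unfold dot at hu
    grind
  exact pow_eq_zero_iff (two_ne_zero) |>.1 h2

end Pool.Agent.Lead.LSS
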