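import Mathlib

set_option autoImplicit false
open Set Filter Topology

namespace Pool.Agent.Lead.LSg

def W1 : Type := (Cardinal.aleph 1).ord.ToType

noncomputable instance : LinearOrder W1 :=
  inferInstanceAs (LinearOrder (Cardinal.aleph 1).ord.ToType)
instance : WellFoundedLT W1 := inferInstanceAs (WellFoundedLT (Cardinal.aleph 1).ord.ToType)

theorem W1_iio (a : W1) : (Iio a).Countable :=
  (Cardinal.countable_iff_lt_aleph_one _).2 (Cardinal.mk_Iio_toType_ord_lt a)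

theorem W1_unc : ¬ (univ : Set W1).Countable := by
  rw [Cardinal.countable_iff_lt_aleph_one, Cardinal.mk_univ]
  exact not_lt.2 (Cardinal.mk_ord_toType _).ge

theorem rec1 {P : Type} (R : Set P → P → Prop) (h : ∀ S : Set P, S.Countable → ∃ p, R S p) :
    ∃ F : W1 → P, ∀ a, R (F '' Iio a) (F a) := by
  classical
  choose c hc using h
  let F : W1 → P := (wellFounded_lt (α := W1)).fix fun a ih =>
    c (range fun b : Iio a => ih b.1 b.2) (by
      haveI : Countable (Iio a) := (W1_iio a).to_subtype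
      exact countable_range _)
  refine ⟨F, fun a => ?_⟩
  have h1 : F a = c (range fun b : Iio a => F b.1) (by
      haveI : Countable (Iio a) := (W1_iio a).to_subtype
      exact countable_range _) := (wellFounded_lt (α := W1)).fix_eq _ a
  have h2 : (range fun b : Iio a => F b.1) = F '' Iio a := by
    ext p; simp
  rw [h1, ← h2]
  exact hc _ _

theorem fin_cnt {I : Type} {S : Set I} (hS : S.Countable) : {G : Finset I | ↑G ⊆ S}.Countable := by
  have := (countable_ofPred_finite_subset hS).preimage_of_injOn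
    (f := fun G : Finset I => (G : Set I)) (Finset.coe_injective.injOn)
  exact this.mono fun G hG => And.intro G.finite_toSet hG

theorem inc_seq (B : ℕ → Set W1) (hB : ∀ k, (B k).Infinite) (hm : Antitone B) :
    ∃ β : ℕ → W1, StrictMono β ∧ ∀ k, β k ∈ B k := by
  classical
  obtain ⟨f, hf, hf'⟩ := exists_seq_of_forall_finset_exists (fun p : ℕ × W1 => p.2 ∈ B p.1)
    (fun p q => p.1 < q.1 ∧ p.2 ≠ q.2) (by
      intro s _
      obtain ⟨y, hy, hy'⟩ := (hB (s.sup Prod.fst + 1)).exists_notMem_finset (s.image Prod.snd)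
      refine ⟨(s.sup Prod.fst + 1, y), hy, fun x hx => ⟨Nat.lt_succ_of_le (Finset.le_sup hx), ?_⟩⟩
      intro h
      exact hy' (Finset.mem_image.2 ⟨x, hx, h⟩))
  have h1 : StrictMono fun n => (f n).1 := fun m n h => (hf' m n h).1
  obtain ⟨g, hg⟩ := (Set.IsWF.isPWO (Set.IsWF.of_wellFoundedLT (univ : Set W1))).exists_monotone_subseq
    (f := fun n => (f n).2) (fun _ => trivial)
  refine ⟨fun k => (f (g k)).2, fun m n h => lt_of_le_of_ne (hg h.le) (hf' _ _ (g.strictMono h)).2,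
    fun k => hm ?_ (hf (g k))⟩
  exact g.strictMono.le_apply.trans h1.le_apply

/-- sequence form of the Lindelof Sigma property -/
def LS {E : Type} [TopologicalSpace E] (T : Set E) : Prop :=
  ∃ N : ℕ → Set E, ∀ g ∈ T, ∀ s : ℕ → E, (∀ n, g ∈ N n → ∀ᶠ k in atTop, s k ∈ N n) →
    ∃ r ∈ T, Tendsto s (hyperfilter ℕ) (𝓝 r)

theorem LS_of {E : Type} [TopologicalSpace E] (T : Set E) {ι : Type} [Countable ι] [Nonempty ι]
    (N : ι → Set E) (h : ∀ g ∈ T, ∀ s : ℕ → E, (∀ n, g ∈ N n → ∀ᶠ k in atTop, s k ∈ N n) →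
    ∃ r ∈ T, Tendsto s (hyperfilter ℕ) (𝓝 r)) : LS T := by
  obtain ⟨σ, hσ⟩ := exists_surjective_nat ι
  refine ⟨fun n => N (σ n), fun g hg s hs => h g hg s fun i hi => ?_⟩
  obtain ⟨n, rfl⟩ := hσ i
  exact hs n hi

theorem hyp_le : (hyperfilter ℕ : Filter ℕ) ≤ atTop :=
  hyperfilter_le_cofinite.trans Nat.cofinite_eq_atTop.le

theorem LS_cover {E : Type} [TopologicalSpace E] (𝒞 𝒩 : Set (Set E)) (hc : 𝒩.Countable)
    (h1 : ∀ K ∈ 𝒞, IsCompact K) (h2 : ⋃₀ 𝒞 = univ)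
    (h3 : ∀ K ∈ 𝒞, ∀ U : Set E, IsOpen U → K ⊆ U → ∃ N ∈ 𝒩, K ⊆ N ∧ N ⊆ U) :
    LS (univ : Set E) := by
  obtain ⟨F, hF⟩ := (hc.insert univ).exists_eq_range (insert_nonempty _ _)
  refine ⟨F, fun g _ s hs => ?_⟩
  obtain ⟨K, hK, hgK⟩ : g ∈ ⋃₀ 𝒞 := h2 ▸ mem_univ g
  by_contra hcon
  push Not at hcon
  have h4 : Disjoint (𝓝ˢ K) (map s (hyperfilter ℕ)) := by
    rw [(h1 K hK).disjoint_nhdsSet_left]
    intro x _
    have := hcon x trivial
    rw [disjoint_comm]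
    exact (Ultrafilter.disjoint_iff_not_le (f := (hyperfilter ℕ).map s)).2 this
  obtain ⟨U, hU, V, hV, hUV⟩ := Filter.disjoint_iff.1 h4
  obtain ⟨U', hU', hU'o, hKU⟩ := mem_nhdsSet_iff_exists.1 hU
  obtain ⟨N, hN, hKN, hNU⟩ := h3 K hK U' hU' hU'o
  have : N ∈ range F := hF ▸ mem_insert_of_mem _ hN
  obtain ⟨n, rfl⟩ := this
  obtain ⟨k, hk1, hk2⟩ := (((hs n (hKN hgK)).filter_mono hyp_le).and hV).exists
  exact Set.disjoint_left.1 hUV (hKU (hNU hk1)) hk2

theorem ev_small (c : ℝ) (hc : 0 < c) : ∀ᶠ k : ℕ in atTop, 2 / ((k : ℝ) + 1) < c := by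
  have : Tendsto (fun k : ℕ => 2 / ((k : ℝ) + 1)) atTop (𝓝 0) :=
    tendsto_const_nhds.div_atTop (tendsto_atTop_add_const_right _ _ tendsto_natCast_atTop_atTop)
  exact this.eventually (gt_mem_nhds hc)

theorem lim_eq {u : ℕ → ℝ} {a b : ℝ} (h : Tendsto u (hyperfilter ℕ) (𝓝 a))
    (h' : ∀ᶠ k : ℕ in atTop, |u k - b| < 2 / ((k : ℝ) + 1)) : a = b := by
  refine tendsto_nhds_unique h (Tendsto.mono_left ?_ hyp_le)
  rw [Metric.tendsto_nhds]
  intro ε hε
  filter_upwards [h', ev_small ε hε] with k h1 h2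
  rw [Real.dist_eq]; linarith

variable {X : Type} [TopologicalSpace X]

theorem bump [T35Space X] {x : X} {U : Set X} (hU : IsOpen U) (hx : x ∈ U) :
    ∃ f : C(X, ℝ), f x = 1 ∧ ∀ y, y ∉ U → f y = 0 := by
  obtain ⟨f, hf, h0, h1⟩ := CompletelyRegularSpace.completely_regular x Uᶜ hU.isClosed_compl
    (fun h => h hx)
  refine ⟨⟨fun y => 1 - (f y : ℝ), continuous_const.sub (continuous_subtype_val.comp hf)⟩, ?_, ?_⟩
  · simp [h0]
  · intro y hy
    have : f y = 1 := h1 hy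
    simp [this]

theorem part1 [T35Space X] {E : Type} [TopologicalSpace E] (W : Set E) (hW : LS W)
    (ev : E → X → ℝ) (hev : ∀ x, Continuous fun r => ev r x) (j : C(X, ℝ) → E)
    (hj : ∀ f, j f ∈ W) (hjev : ∀ f x, ev (j f) x = f x)
    (SC : ∀ r ∈ W, ∀ A : Set X, A.Countable → ∃ h : C(X, ℝ), ∀ x ∈ A, ev r x = h x)
    (a : ℕ → X) (ha : DenseRange a) :
    ∃ 𝒩 : Set (Set X), 𝒩.Countable ∧
        ∀ (x : X) (U : Set X), IsOpen U → x ∈ U → ∃ N ∈ 𝒩, x ∈ N ∧ N ⊆ U := by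
  classical
  obtain ⟨N, hN⟩ := hW
  let M : (Σ k : ℕ, Finset ℕ × (Fin k → ℚ)) → Set E := fun p =>
    {r | (∀ n ∈ p.2.1, r ∈ N n) ∧ ∀ i : Fin p.1, |ev r (a i) - p.2.2 i| < 1 / ((p.1 : ℝ) + 1)}
  refine ⟨range fun p => {x | ∀ r ∈ M p, 1 / 2 < ev r x}, countable_range _, ?_⟩
  intro x U hU hx
  obtain ⟨f, hf1, hf0⟩ := bump hU hx
  have hq : ∀ k i : ℕ, ∃ c : ℚ, |f (a i) - c| < 1 / ((k : ℝ) + 1) := fun k i =>
    exists_rat_near _ (by positivity)
  choose c hc using hq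
  let p : ℕ → (Σ k : ℕ, Finset ℕ × (Fin k → ℚ)) := fun k =>
    ⟨k, (Finset.range k).filter (fun n => j f ∈ N n), fun i => c k i⟩
  have hp : ∀ k, j f ∈ M (p k) := fun k =>
    ⟨fun n hn => (Finset.mem_filter.1 hn).2, fun i => by rw [hjev]; exact hc k i⟩
  by_cases h : ∃ k, ∀ r ∈ M (p k), 1 / 2 < ev r x
  · obtain ⟨k, hk⟩ := h
    refine ⟨_, ⟨p k, rfl⟩, hk, fun y hy => ?_⟩
    by_contra hyU
    have := hy _ (hp k)
    rw [hjev, hf0 y hyU] at this
    linarith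
  · exfalso
    push Not at h
    choose r hr hr' using h
    obtain ⟨r0, hr0, hlim⟩ := hN _ (hj f) r (fun n hn => by
      filter_upwards [eventually_gt_atTop n] with k hk
      exact (hr k).1 n (Finset.mem_filter.2 ⟨Finset.mem_range.2 hk, hn⟩))
    have h1 : ∀ i, ev r0 (a i) = f (a i) := by
      intro i
      refine lim_eq (((hev (a i)).tendsto r0).comp hlim) ?_
      filter_upwards [eventually_gt_atTop i] with k hk
      have e1 : |ev (r k) (a i) - c k i| < 1 / ((k : ℝ) + 1) := (hr k).2 ⟨i, hk⟩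
      have e2 := hc k i
      show |ev (r k) (a i) - f (a i)| < _
      have e3 : (2 : ℝ) / ((k : ℝ) + 1) = 1 / ((k : ℝ) + 1) + 1 / ((k : ℝ) + 1) := by ring
      rw [abs_lt] at *
      constructor <;> linarith [e1.1, e1.2, e2.1, e2.2]
    have h2 : ev r0 x ≤ 1 / 2 :=
      le_of_tendsto (((hev x).tendsto r0).comp hlim) (Eventually.of_forall hr')
    obtain ⟨h, hh⟩ := SC r0 hr0 (insert x (range a)) ((countable_range a).insert x)
    have h3 : (h : X → ℝ) = f := by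
      refine Continuous.ext_on ha h.continuous f.continuous ?_
      rintro _ ⟨i, rfl⟩
      rw [← hh _ (Or.inr ⟨i, rfl⟩), h1]
    have h4 := hh x (mem_insert _ _)
    rw [h3, hf1] at h4
    linarith

theorem closeoff [Nonempty X] (hX : LS (univ : Set X)) :
    ∃ A : Set C(X, ℝ) → Set X, Monotone A ∧ (∀ S, S.Countable → (A S).Countable) ∧
      ∀ (φ : ℕ → C(X, ℝ)) (z : X), ∃ (x : ℕ → X) (z' : X), (∀ k, x k ∈ A (φ '' Iio k)) ∧
        Tendsto x (hyperfilter ℕ) (𝓝 z') ∧ ∀ i, φ i z' = φ i z := by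
  classical
  obtain ⟨P, hP⟩ := hX
  let Q : Finset ℕ → ℕ → Finset (C(X, ℝ) × ℚ) → X → Prop := fun t k L x =>
    (∀ n ∈ t, x ∈ P n) ∧ ∀ p ∈ L, |p.1 x - p.2| < 1 / ((k : ℝ) + 1)
  let pt : Finset ℕ → ℕ → Finset (C(X, ℝ) × ℚ) → X := fun t k L => Classical.epsilon (Q t k L)
  refine ⟨fun S => ⋃ t, ⋃ k, pt t k '' {L | ↑L ⊆ S ×ˢ (univ : Set ℚ)}, ?_, ?_, ?_⟩
  · intro S S' h
    refine iUnion_mono fun t => iUnion_mono fun k => image_mono fun L hL => ?_
    exact Subset.trans hL (prod_mono h Subset.rfl)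
  · intro S hS
    exact countable_iUnion fun t => countable_iUnion fun k =>
      (fin_cnt (hS.prod countable_univ)).image _
  · intro φ z
    have hq : ∀ k i : ℕ, ∃ c : ℚ, |φ i z - c| < 1 / ((k : ℝ) + 1) := fun k i =>
      exists_rat_near _ (by positivity)
    choose c hc using hq
    let t : ℕ → Finset ℕ := fun k => (Finset.range k).filter (fun n => z ∈ P n)
    let L : ℕ → Finset (C(X, ℝ) × ℚ) := fun k => (Finset.range k).image fun i => (φ i, c k i)
    have hx : ∀ k, Q (t k) k (L k) (pt (t k) k (L k)) := fun k =>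
      Classical.epsilon_spec (p := Q (t k) k (L k)) ⟨z, fun n hn => (Finset.mem_filter.1 hn).2, by
        intro p hp
        obtain ⟨i, -, rfl⟩ := Finset.mem_image.1 hp
        exact hc k i⟩
    obtain ⟨z', -, hz'⟩ := hP z trivial (fun k => pt (t k) k (L k)) (fun n hn => by
      filter_upwards [eventually_gt_atTop n] with k hk
      exact (hx k).1 n (Finset.mem_filter.2 ⟨Finset.mem_range.2 hk, hn⟩))
    refine ⟨_, z', fun k => ?_, hz', fun i => ?_⟩
    · refine mem_iUnion.2 ⟨t k, mem_iUnion.2 ⟨k, L k, ?_, rfl⟩⟩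
      intro p hp
      obtain ⟨i, hi, rfl⟩ := Finset.mem_image.1 hp
      exact ⟨⟨i, Finset.mem_range.1 hi, rfl⟩, trivial⟩
    · refine lim_eq (((φ i).continuous.tendsto z').comp hz') ?_
      filter_upwards [eventually_gt_atTop i] with k hk
      have e1 : |φ i (pt (t k) k (L k)) - c k i| < 1 / ((k : ℝ) + 1) :=
        (hx k).2 (φ i, c k i) (Finset.mem_image.2 ⟨i, Finset.mem_range.2 hk, rfl⟩)
      have e2 := hc k i
      show |φ i (pt (t k) k (L k)) - φ i z| < _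
      have e3 : (2 : ℝ) / ((k : ℝ) + 1) = 1 / ((k : ℝ) + 1) + 1 / ((k : ℝ) + 1) := by ring
      rw [abs_lt] at *
      constructor <;> linarith [e1.1, e1.2, e2.1, e2.2]

theorem part2 [T35Space X] [Nonempty X] (hX : LS (univ : Set X))
    {E : Type} [TopologicalSpace E] (W : Set E) (hW : LS W)
    (ev : E → X → ℝ) (hev : ∀ x, Continuous fun r => ev r x) (j : C(X, ℝ) → E)
    (hj : ∀ f, j f ∈ W) (hjev : ∀ f x, ev (j f) x = f x)
    (SC : ∀ r ∈ W, ∀ A : Set X, A.Countable → ∃ h : C(X, ℝ), ∀ x ∈ A, ev r x = h x)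
    (hs : ∀ D : Set X, DiscreteTopology ↥D → D.Countable) :
    ∃ A : Set X, A.Countable ∧ Dense A := by
  classical
  by_contra hcon
  push Not at hcon
  obtain ⟨N, hN⟩ := hW
  obtain ⟨A, hAm, hAc, hA⟩ := closeoff hX
  obtain ⟨F, hF⟩ := rec1 (fun (S : Set (X × C(X, ℝ))) p =>
      p.2 p.1 = 1 ∧ ∀ y ∈ A (Prod.snd '' S), p.2 y = 0) (by
    intro S hS
    have := hcon _ (hAc _ (hS.image Prod.snd))
    rw [dense_iff_closure_eq, ← Ne, ne_univ_iff_exists_notMem] at this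
    obtain ⟨x, hx⟩ := this
    obtain ⟨f, h1, h0⟩ := bump isClosed_closure.isOpen_compl hx
    exact ⟨(x, f), h1, fun y hy => h0 y fun h => h (subset_closure hy)⟩)
  have K2 : ∀ (z : X) (α : W1), ∃ t : Finset ℕ, (∀ n ∈ t, j (F α).2 ∈ N n) ∧
      {β | (∀ n ∈ t, j (F β).2 ∈ N n) ∧ 1 / 2 < (F β).2 z}.Finite := by
    intro z α
    by_contra hc
    push Not at hc
    let B : ℕ → Set W1 := fun k =>
      {β | (∀ n ∈ (Finset.range k).filter (fun n => j (F α).2 ∈ N n), j (F β).2 ∈ N n) ∧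
        1 / 2 < (F β).2 z}
    obtain ⟨β, hβ, hβB⟩ := inc_seq B (fun k => hc _ fun n hn => (Finset.mem_filter.1 hn).2) (by
      intro k l hkl b hb
      refine ⟨fun n hn => hb.1 n ?_, hb.2⟩
      rw [Finset.mem_filter, Finset.mem_range] at hn ⊢
      exact ⟨by omega, hn.2⟩)
    obtain ⟨r, hr, hlim⟩ := hN _ (hj (F α).2) (fun k => j (F (β k)).2) (fun n hn => by
      filter_upwards [eventually_gt_atTop n] with k hk
      exact (hβB k).1 n (Finset.mem_filter.2 ⟨Finset.mem_range.2 hk, hn⟩))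
    obtain ⟨x, z', hx, hxz, hz'⟩ := hA (fun k => (F (β k)).2) z
    have h1 : 1 / 2 ≤ ev r z' := by
      refine ge_of_tendsto (((hev z').tendsto r).comp hlim) (Eventually.of_forall fun k => ?_)
      show _ ≤ ev (j (F (β k)).2) z'
      rw [hjev, hz' k]
      exact (hβB k).2.le
    have h2 : ∀ k, ev r (x k) = 0 := by
      intro k
      refine tendsto_nhds_unique (((hev (x k)).tendsto r).comp hlim)
        (Tendsto.mono_left (tendsto_const_nhds.congr' ?_) hyp_le)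
      filter_upwards [eventually_ge_atTop k] with l hl
      show 0 = ev (j (F (β l)).2) (x k)
      rw [hjev]
      refine ((hF (β l)).2 _ (hAm ?_ (hx k))).symm
      rintro _ ⟨i, hi, rfl⟩
      exact ⟨F (β i), ⟨β i, hβ (lt_of_lt_of_le hi hl), rfl⟩, rfl⟩
    obtain ⟨h, hh⟩ := SC r hr (insert z' (range x)) ((countable_range x).insert z')
    have h3 : h z' = 0 := by
      refine tendsto_nhds_unique ((h.continuous.tendsto z').comp hxz)
        (tendsto_const_nhds.congr fun k => ?_)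
      show 0 = h (x k)
      rw [← hh _ (Or.inr ⟨k, rfl⟩), h2]
    rw [hh _ (mem_insert _ _), h3] at h1
    linarith
  choose t ht hfin using fun γ => K2 (F γ).1 γ
  let G : W1 → Set W1 := fun γ =>
    {β | (∀ n ∈ t γ, j (F β).2 ∈ N n) ∧ 1 / 2 < (F β).2 (F γ).1}
  have hGs : ∀ γ, γ ∈ G γ := fun γ => ⟨ht γ, by rw [(hF γ).1]; norm_num⟩
  have hcnt : ∀ (u : Finset ℕ) (m : ℕ), {γ | t γ = u ∧ (G γ).ncard = m}.Countable := by
    intro u m
    let Γ := {γ | t γ = u ∧ (G γ).ncard = m}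
    have hloc : ∀ γ ∈ Γ, ∀ γ' ∈ Γ, (∀ β ∈ G γ, 1 / 2 < (F β).2 (F γ').1) → γ' ∈ G γ := by
      intro γ hγ γ' hγ' h
      have h1 : G γ ⊆ G γ' := fun β hβ =>
        ⟨fun n hn => hβ.1 n (by rw [hγ.1, ← hγ'.1]; exact hn), h β hβ⟩
      have h2 := Set.eq_of_subset_of_ncard_le h1 (by rw [hγ.2, hγ'.2]) (hfin γ')
      rw [h2]; exact hGs γ'
    have hD : DiscreteTopology ↥((fun γ => (F γ).1) '' Γ) := by
      rw [discreteTopology_subtype_iff]
      rintro _ ⟨γ, hγ, rfl⟩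
      rw [inf_principal_eq_bot]
      have hV : IsOpen (⋂ β ∈ G γ, {y | 1 / 2 < (F β).2 y}) :=
        (hfin γ).isOpen_biInter fun β _ => isOpen_lt continuous_const (F β).2.continuous
      have hT : (((fun γ => (F γ).1) '' G γ) \ {(F γ).1}).Finite := ((hfin γ).image _).diff
      have hnb : (⋂ β ∈ G γ, {y | 1 / 2 < (F β).2 y}) ∩
          (((fun γ => (F γ).1) '' G γ) \ {(F γ).1})ᶜ ∈ 𝓝 (F γ).1 :=
        (hV.inter hT.isClosed.isOpen_compl).mem_nhds
          ⟨mem_iInter₂.2 fun β hβ => hβ.2, fun h => h.2 rfl⟩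
      filter_upwards [mem_nhdsWithin_of_mem_nhds hnb, self_mem_nhdsWithin] with y hy hne
      rintro ⟨γ', hγ', rfl⟩
      exact hy.2 ⟨⟨γ', hloc γ hγ γ' hγ' fun β hβ => mem_iInter₂.1 hy.1 β hβ, rfl⟩, hne⟩
    have hDc := hs _ hD
    have : Γ ⊆ ⋃ y ∈ (fun γ => (F γ).1) '' Γ, {γ ∈ Γ | (F γ).1 = y} := fun γ hγ =>
      mem_iUnion₂.2 ⟨_, ⟨γ, hγ, rfl⟩, hγ, rfl⟩
    refine (hDc.biUnion ?_).mono this
    rintro _ ⟨γ, hγ, rfl⟩
    refine (hfin γ).countable.mono fun γ' hγ' => hloc γ hγ γ' hγ'.1 fun β hβ => ?_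
    rw [hγ'.2]; exact hβ.2
  refine W1_unc ((countable_iUnion fun u => countable_iUnion fun m => hcnt u m).mono ?_)
  intro γ _
  exact mem_iUnion.2 ⟨t γ, mem_iUnion.2 ⟨_, rfl, rfl⟩⟩

end Pool.Agent.Lead.LSg
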