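import Pool.Agent.Lead.LSg1

set_option autoImplicit false
open Set Filter Topology

namespace Pool.Agent.Lead.LSg

abbrev Cp (X : Type) [TopologicalSpace X] := {f : X → ℝ // Continuous f}

variable {X : Type} [TopologicalSpace X]

def dl (x : X) : Cp (Cp X) := ⟨fun f => f.1 x, (continuous_apply x).comp continuous_subtype_val⟩

theorem conv_of [T35Space X] (s : ℕ → X) (r : Cp (Cp X))
    (h : Tendsto (fun k => dl (s k)) (hyperfilter ℕ) (𝓝 r)) :
    ∃ x, Tendsto s (hyperfilter ℕ) (𝓝 x) := by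
  classical
  have hl : ∀ f : Cp X, Tendsto (fun k => f.1 (s k)) (hyperfilter ℕ) (𝓝 (r.1 f)) := fun f =>
    (((continuous_apply f).comp continuous_subtype_val).tendsto r).comp h
  let z : Cp X := ⟨fun _ => 1, continuous_const⟩
  have h0 : r.1 z = 1 := tendsto_nhds_unique (hl z) tendsto_const_nhds
  obtain ⟨o, ho, hoe⟩ := isOpen_induced_iff.1 ((isOpen_Ioi (a := (0:ℝ))).preimage r.2)
  have hz : z.1 ∈ o := by
    have : z ∈ Subtype.val ⁻¹' o := by rw [hoe]; show r.1 z ∈ Ioi 0; rw [h0]; exact mem_Ioi.2 one_pos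
    exact this
  obtain ⟨I, u, hu, hsub⟩ := isOpen_pi_iff.1 ho _ hz
  by_contra hcon
  push Not at hcon
  have : ∀ x : X, ∃ f : C(X, ℝ), f x = 1 ∧ ∀ᶠ k in (hyperfilter ℕ : Filter ℕ), f (s k) = 0 := by
    intro x
    have h1 := hcon x
    rw [tendsto_nhds] at h1
    push Not at h1
    obtain ⟨V, hV, hxV, hs⟩ := h1
    obtain ⟨f, h1, h0⟩ := bump hV hxV
    refine ⟨f, h1, ?_⟩
    have : (s ⁻¹' V)ᶜ ∈ hyperfilter ℕ := Ultrafilter.compl_mem_iff_notMem.2 hs
    filter_upwards [this] with k hk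
    exact h0 _ hk
  choose φ hφ1 hφ0 using this
  let f : Cp X := ⟨fun y => 1 - ∏ x ∈ I, (1 - φ x y), by fun_prop⟩
  have h1 : f ∈ Subtype.val ⁻¹' o := by
    refine hsub fun x hx => ?_
    have : f.1 x = z.1 x := by
      show 1 - ∏ w ∈ I, (1 - φ w x) = 1
      rw [Finset.prod_eq_zero (i := x) hx (by rw [hφ1, sub_self]), sub_zero]
    rw [this]; exact (hu x hx).2
  rw [hoe] at h1
  have h2 : r.1 f = 0 := by
    refine tendsto_nhds_unique (hl f) (tendsto_const_nhds.congr' ?_)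
    filter_upwards [(eventually_all_finset I).2 fun x _ => hφ0 x] with k hk
    show 0 = 1 - ∏ x ∈ I, (1 - φ x (s k))
    rw [Finset.prod_eq_one fun x hx => by rw [hk x hx, sub_zero], sub_self]
  have h3 : r.1 f ∈ Ioi 0 := h1
  rw [h2] at h3
  exact lt_irrefl (0:ℝ) (mem_Ioi.1 h3)

theorem stepA [T35Space X] (h : LS (univ : Set (Cp (Cp X)))) : LS (univ : Set X) := by
  obtain ⟨N, hN⟩ := h
  refine ⟨fun n => dl ⁻¹' N n, fun x _ s hs => ?_⟩
  obtain ⟨r, -, hr⟩ := hN (dl x) trivial (fun k => dl (s k)) hs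
  obtain ⟨x', hx'⟩ := conv_of s r hr
  exact ⟨x', trivial, hx'⟩

def ee (Z : Type) [TopologicalSpace Z] (z : Z) : Cp Z → ℝ := fun φ => φ.1 z

theorem gdel {Z : Type} [TopologicalSpace Z] {ι : Type} [Countable ι] (Y : ι → Set Z)
    (hY : ∀ y, ∃ k, y ∈ Y k) (q : Cp Z → ℝ) (hq : q ∈ closure (range (ee Z))) :
    ∃ k, q ∈ closure (ee Z '' Y k) := by
  have hne : Nonempty ι := by
    obtain ⟨_, y, -⟩ := closure_nonempty_iff.1 ⟨q, hq⟩
    exact ⟨(hY y).choose⟩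
  obtain ⟨σ, hσ⟩ := exists_surjective_nat ι
  by_contra hcon
  push Not at hcon
  have hec : Continuous (ee Z) := continuous_pi fun f => f.2
  have := fun k => CompletelyRegularSpace.completely_regular q _ isClosed_closure (hcon (σ k))
  choose Φ hΦc hΦ0 hΦ1 using this
  let Ψ : (Cp Z → ℝ) → ℝ := fun r => ∑' k, (1 / 2 : ℝ) ^ k * (Φ k r : ℝ)
  have hbd : ∀ k r, ‖(1 / 2 : ℝ) ^ k * (Φ k r : ℝ)‖ ≤ (1 / 2 : ℝ) ^ k := by
    intro k r
    rw [Real.norm_eq_abs, abs_of_nonneg (mul_nonneg (by positivity) (Φ k r).2.1)]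
    exact mul_le_of_le_one_right (by positivity) (Φ k r).2.2
  have hΨc : Continuous Ψ := continuous_tsum
    (fun k => continuous_const.mul (continuous_subtype_val.comp (hΦc k)))
    summable_geometric_two hbd
  have hΨq : Ψ q = 0 := by simp [Ψ, hΦ0]
  have hΨY : ∀ y, Ψ (ee Z y) ≠ 0 := by
    intro y
    obtain ⟨i, hk⟩ := hY y
    obtain ⟨k, rfl⟩ := hσ i
    have hs : Summable fun k => (1 / 2 : ℝ) ^ k * (Φ k (ee Z y) : ℝ) :=
      Summable.of_norm_bounded summable_geometric_two (fun k => hbd k _)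
    have h1 : Φ k (ee Z y) = 1 := hΦ1 k (subset_closure ⟨y, hk, rfl⟩)
    have := hs.tsum_pos (fun j => mul_nonneg (by positivity) (Φ j (ee Z y)).2.1) k
      (by rw [h1]; simp)
    exact this.ne'
  let v : Cp Z := ⟨fun x => (Ψ (ee Z x))⁻¹, (hΨc.comp hec).inv₀ hΨY⟩
  have hcl : IsClosed {r : Cp Z → ℝ | Ψ r * r v = 1} :=
    isClosed_eq (hΨc.mul (continuous_apply v)) continuous_const
  have : q ∈ {r : Cp Z → ℝ | Ψ r * r v = 1} := by
    refine closure_minimal ?_ hcl hq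
    rintro _ ⟨y, rfl⟩
    exact mul_inv_cancel₀ (hΨY y)
  have h2 : Ψ q * q v = 1 := this
  rw [hΨq, zero_mul] at h2
  exact zero_ne_one h2

theorem lim_of_bdd {u : ℕ → ℝ} {m : ℝ} (h : ∀ᶠ k in atTop, |u k| ≤ m) :
    ∃ c, Tendsto u (hyperfilter ℕ) (𝓝 c) := by
  have h1 : ((hyperfilter ℕ).map u : Filter ℝ) ≤ 𝓟 (Icc (-m) m) := by
    rw [le_principal_iff]
    have : ∀ᶠ k in (hyperfilter ℕ : Filter ℕ), u k ∈ Icc (-m) m :=
      (h.filter_mono hyp_le).mono fun k hk => abs_le.1 hk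
    exact this
  obtain ⟨c, -, hc⟩ := isCompact_Icc.ultrafilter_le_nhds _ h1
  exact ⟨c, hc⟩

theorem stepB {Z : Type} [TopologicalSpace Z] (h : LS (univ : Set (Cp Z))) :
    LS (closure (range (ee Z))) := by
  classical
  obtain ⟨N, hN⟩ := h
  let S : Finset ℕ × ℕ → Set Z := fun p =>
    {z | ∀ ψ : Cp Z, (∀ n ∈ p.1, ψ ∈ N n) → |ψ.1 z| ≤ p.2}
  have key : ∀ (φ : Cp Z) (z : Z), ∃ p : Finset ℕ × ℕ, (∀ n ∈ p.1, φ ∈ N n) ∧ z ∈ S p := by
    intro φ z
    by_contra hc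
    push Not at hc
    have : ∀ k : ℕ, ∃ ψ : Cp Z, (∀ n ∈ (Finset.range k).filter (fun n => φ ∈ N n), ψ ∈ N n) ∧
        (k : ℝ) < |ψ.1 z| := by
      intro k
      have := hc ((Finset.range k).filter (fun n => φ ∈ N n), k)
        fun n hn => (Finset.mem_filter.1 hn).2
      simpa only [S, mem_ofPred_eq, not_forall, not_le, exists_prop] using this
    choose ψ hψ hψ' using this
    obtain ⟨r, -, hr⟩ := hN φ trivial ψ (fun n hn => by
      filter_upwards [eventually_gt_atTop n] with k hk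
      exact hψ k n (Finset.mem_filter.2 ⟨Finset.mem_range.2 hk, hn⟩))
    have h1 : Tendsto (fun k => |(ψ k).1 z|) (hyperfilter ℕ) (𝓝 |r.1 z|) :=
      ((((continuous_apply z).comp continuous_subtype_val).tendsto r).comp hr).abs
    have h2 : Tendsto (fun k => |(ψ k).1 z|) (hyperfilter ℕ) atTop :=
      (tendsto_atTop_mono (fun k => (hψ' k).le) tendsto_natCast_atTop_atTop).mono_left hyp_le
    exact not_tendsto_nhds_of_tendsto_atTop h2 _ h1
  refine LS_of _ (fun p : Finset ℕ × ℕ => closure (ee Z '' S p)) ?_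
  intro q hq s hs
  have h1 : ∀ φ : Cp Z, ∃ p : Finset ℕ × ℕ, (∀ n ∈ p.1, φ ∈ N n) ∧
      ∀ᶠ k in atTop, s k ∈ closure (ee Z '' S p) := by
    intro φ
    obtain ⟨p, hp⟩ := gdel (fun p : Finset ℕ × ℕ => {z | (∀ n ∈ p.1, φ ∈ N n) ∧ z ∈ S p})
      (key φ) q hq
    obtain ⟨_, y, hy, -⟩ := closure_nonempty_iff.1 ⟨q, hp⟩
    exact ⟨p, hy.1, hs p (closure_mono (image_mono fun z hz => hz.2) hp)⟩
  have h2 : ∀ φ : Cp Z, ∃ c, Tendsto (fun k => s k φ) (hyperfilter ℕ) (𝓝 c) := by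
    intro φ
    obtain ⟨p, hp, hp'⟩ := h1 φ
    refine lim_of_bdd (m := p.2) (hp'.mono fun k hk => ?_)
    have hcl : IsClosed {r : Cp Z → ℝ | |r φ| ≤ p.2} :=
      isClosed_le (continuous_apply φ).abs continuous_const
    refine closure_minimal ?_ hcl hk
    rintro _ ⟨z, hz, rfl⟩
    exact hz φ hp
  choose c hc using h2
  have h3 : Tendsto s (hyperfilter ℕ) (𝓝 c) := tendsto_pi_nhds.2 hc
  refine ⟨c, ?_, h3⟩
  obtain ⟨p, -, hp'⟩ := h1 ⟨fun _ => 0, continuous_const⟩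
  exact isClosed_closure.mem_of_tendsto h3
    ((hp'.filter_mono hyp_le).mono fun k hk => closure_mono (image_subset_range _ _) hk)

theorem strict (q : Cp (Cp X) → ℝ) (hq : q ∈ closure (range (ee (Cp X)))) (A : Set X)
    (hA : A.Countable) : ∃ h : C(X, ℝ), ∀ x ∈ A, q (dl x) = h x := by
  by_contra hc
  push Not at hc
  have := hA.to_subtype
  obtain ⟨p, hp⟩ := gdel (fun p : A × ℕ =>
      {f : Cp X | 1 / ((p.2 : ℝ) + 1) ≤ |f.1 p.1 - q (dl p.1)|}) (by
    intro f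
    obtain ⟨x, hx, hne⟩ := hc ⟨f.1, f.2⟩
    obtain ⟨m, hm⟩ := exists_nat_one_div_lt (abs_pos.2 (sub_ne_zero.2 hne.symm))
    exact ⟨(⟨x, hx⟩, m), hm.le⟩) q hq
  have hcl : IsClosed {r : Cp (Cp X) → ℝ | 1 / ((p.2 : ℝ) + 1) ≤ |r (dl p.1) - q (dl p.1)|} :=
    isClosed_le continuous_const ((continuous_apply _).sub continuous_const).abs
  have h1 : q ∈ {r : Cp (Cp X) → ℝ | 1 / ((p.2 : ℝ) + 1) ≤ |r (dl p.1) - q (dl p.1)|} := by
    refine closure_minimal ?_ hcl hp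
    rintro _ ⟨f, hf, rfl⟩
    exact hf
  have h2 : 1 / ((p.2 : ℝ) + 1) ≤ |q (dl p.1) - q (dl p.1)| := h1
  rw [sub_self, abs_zero] at h2
  exact absurd h2 (not_le.2 (by positivity))

theorem main (X : Type) [TopologicalSpace X] [T35Space X]
    (hs : ∀ D : Set X, DiscreteTopology ↥D → D.Countable)
    (h : LS (univ : Set (Cp (Cp X)))) :
    ∃ 𝒩 : Set (Set X), 𝒩.Countable ∧
        ∀ (x : X) (U : Set X), IsOpen U → x ∈ U → ∃ N ∈ 𝒩, x ∈ N ∧ N ⊆ U := by
  rcases isEmpty_or_nonempty X with he | hne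
  · exact ⟨∅, countable_empty, fun x => isEmptyElim x⟩
  have hW := stepB h
  obtain ⟨A, hAc, hAd⟩ := part2 (stepA h) _ hW (fun r x => r (dl x))
    (fun x => continuous_apply _) (fun f => ee (Cp X) ⟨f, f.continuous⟩)
    (fun f => subset_closure (mem_range_self _)) (fun f x => rfl) strict hs
  obtain ⟨a, rfl⟩ := hAc.exists_eq_range hAd.nonempty
  exact part1 _ hW (fun r x => r (dl x))
    (fun x => continuous_apply _) (fun f => ee (Cp X) ⟨f, f.continuous⟩)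
    (fun f => subset_closure (mem_range_self _)) (fun f x => rfl) strict a hAd

end Pool.Agent.Lead.LSg
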