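import Pool.Agent.Lead.LinDefs

namespace Pool.Agent.Lead.Lin

open Set Topology Filter

variable {X Y : Type} [TopologicalSpace X] [TopologicalSpace Y]

theorem dual (T : C(X, ℝ) →ₗ[ℝ] C(Y, ℝ)) (hT : @Continuous _ _ (ptop X) (ptop Y) T) (y : Y) :
    ∃ (n : ℕ) (c : Fin n → ℝ) (a : Fin n → X), ∀ f, T f y = ∑ i, c i * f (a i) := by
  let ev : X → C(X, ℝ) →ₗ[ℝ] ℝ := fun x => ⟨⟨fun f => f x, fun _ _ => rfl⟩, fun _ _ => rfl⟩
  let φ : C(X, ℝ) →ₗ[ℝ] ℝ := ⟨⟨fun f => T f y, fun _ _ => by simp⟩, fun _ _ => by simp⟩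
  have h1 : φ ∈ Submodule.span ℝ (range ev) := by
    rw [LinearMap.mem_span_iff_continuous]
    have h2 : (⨅ i, TopologicalSpace.induced (ev i) inferInstance) = ptop X :=
      (induced_to_pi (fun f : C(X, ℝ) => (f : X → ℝ))).symm
    rw [h2]
    have h3 : @Continuous _ _ (ptop Y) _ fun g : C(Y, ℝ) => g y :=
      (@continuous_pi_iff _ _ _ (ptop Y) _ _).1 continuous_induced_dom y
    exact @Continuous.comp _ _ _ (ptop X) (ptop Y) _ _ _ h3 hT
  obtain ⟨n, c, g, h⟩ := Submodule.mem_span_set'.1 h1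
  choose a ha using fun i => (g i).2
  refine ⟨n, c, a, fun f => ?_⟩
  have := LinearMap.congr_fun h f
  simp only [LinearMap.coe_sum, Finset.sum_apply, LinearMap.smul_apply, ← ha, smul_eq_mul] at this
  exact this.symm

theorem cont_of_comp [T35Space Y] {Z : Type} [TopologicalSpace Z] {p : Z → Y}
    (h : ∀ g : C(Y, ℝ), Continuous fun z => g (p z)) : Continuous p := by
  rw [continuous_def]
  intro U hU
  rw [isOpen_iff_mem_nhds]
  intro z hz
  obtain ⟨g, hg, g0, g1⟩ := CompletelyRegularSpace.completely_regular (p z) Uᶜ hU.isClosed_compl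
    (not_not.2 hz)
  have := (isOpen_lt (h ⟨fun y => g y, continuous_subtype_val.comp hg⟩)
    (continuous_const (y := (1 : ℝ)))).mem_nhds (show z ∈ _ by simp [g0])
  filter_upwards [this] with w hw
  by_contra hn
  have h2 := g1 hn
  simp only [ContinuousMap.coe_mk, h2] at hw
  simp at hw

theorem lim_of_lindelof [T35Space Y] [LindelofSpace Y] (y : ℕ → Y)
    (h : ∀ g : C(Y, ℝ), ∃ t, Tendsto (fun n => g (y n)) atTop (𝓝 t)) :
    ∃ z, MapClusterPt z atTop y := by
  by_contra hn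
  push Not at hn
  have h1 : ∀ z, ∃ g : Y → ℝ, Continuous g ∧ (∀ w, 0 ≤ g w ∧ g w ≤ 1) ∧ 0 < g z ∧
      ∀ᶠ n in atTop, g (y n) = 0 := by
    intro z
    have := hn z
    rw [mapClusterPt_iff_frequently] at this
    push Not at this
    obtain ⟨U, hU, h⟩ := this
    obtain ⟨g, hg, g0, g1⟩ := CompletelyRegularSpace.completely_regular z (interior U)ᶜ
      isOpen_interior.isClosed_compl (not_not.2 (mem_interior_iff_mem_nhds.2 hU))
    refine ⟨fun w => 1 - g w, continuous_const.sub (continuous_subtype_val.comp hg),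
      fun w => ⟨sub_nonneg.2 (g w).2.2, sub_le_self _ (g w).2.1⟩, by simp [g0], ?_⟩
    filter_upwards [h] with n hn
    rw [g1 fun h' => hn (interior_subset h')]
    simp
  choose g g1 g2 g3 g4 using h1
  obtain ⟨s, hs, hs'⟩ := isLindelof_univ.elim_countable_subcover (fun z => {w | 0 < g z w})
    (fun z => isOpen_lt continuous_const (g1 z)) fun z _ => mem_iUnion.2 ⟨z, g3 z⟩
  obtain ⟨e, he⟩ := (hs.insert (y 0)).exists_eq_range (insert_nonempty _ _)
  have hb : ∀ k w, ‖(1 / 2 : ℝ) ^ k * g (e k) w‖ ≤ (1 / 2 : ℝ) ^ k := fun k w => by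
    rw [Real.norm_eq_abs, abs_of_nonneg (mul_nonneg (by positivity) (g2 _ _).1)]
    exact mul_le_of_le_one_right (by positivity) (g2 _ _).2
  let H : Y → ℝ := fun w => ∑' k, (1 / 2 : ℝ) ^ k * g (e k) w
  have hH : Continuous H :=
    continuous_tsum (fun k => continuous_const.mul (g1 _)) summable_geometric_two hb
  have hpos : ∀ w, 0 < H w := by
    intro w
    obtain ⟨z, hz, hw⟩ := mem_iUnion₂.1 (hs' (mem_univ w))
    obtain ⟨k, rfl⟩ : z ∈ range e := he ▸ mem_insert_of_mem _ hz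
    exact (Summable.of_norm_bounded summable_geometric_two fun k => hb k w).tsum_pos
      (fun k => mul_nonneg (by positivity) (g2 _ _).1) k (mul_pos (by positivity) hw)
  have h0 : Tendsto (fun n => H (y n)) atTop (𝓝 (∑' _ : ℕ, (0 : ℝ))) :=
    tendsto_tsum_of_dominated_convergence summable_geometric_two
      (fun k => tendsto_const_nhds.congr' ((g4 (e k)).mono fun n hn => by simp [hn]))
      (Eventually.of_forall fun n k => hb k _)
  obtain ⟨t, ht⟩ := h ⟨fun w => (H w)⁻¹, hH.inv₀ fun w => (hpos w).ne'⟩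
  have h2 := h0.mul ht
  simp only [tsum_zero, zero_mul, ContinuousMap.coe_mk, mul_inv_cancel₀ (hpos _).ne'] at h2
  exact one_ne_zero (tendsto_nhds_unique tendsto_const_nhds h2)

theorem analytic_of_surj [T35Space Y] [Nonempty Y] (hX : Analytic X)
    (T : C(X, ℝ) →ₗ[ℝ] C(Y, ℝ)) (hT : @Continuous _ _ (ptop X) (ptop Y) T)
    (hs : Function.Surjective T) : Analytic Y := by
  obtain ⟨π, hπ, hπ'⟩ := hX
  let P := Σ n : ℕ, (Fin n → ℝ) × (Fin n → ℕ → ℕ)
  let Ψ : C(X, ℝ) → P → ℝ := fun f w => ∑ i, w.2.1 i * f (π (w.2.2 i))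
  have hΨ : ∀ f, Continuous (Ψ f) := fun f => continuous_sigma fun n => by
    show Continuous fun a : (Fin n → ℝ) × (Fin n → ℕ → ℕ) => ∑ i, a.1 i * f (π (a.2 i))
    fun_prop
  let E : Set P := {w | ∃ y, ∀ f, Ψ f w = T f y}
  choose p hp using fun w : E => w.2
  have hpc : Continuous p := cont_of_comp fun g => by
    obtain ⟨f, rfl⟩ := hs g
    simp only [← hp]
    exact (hΨ f).comp continuous_subtype_val
  have hps : Function.Surjective p := by
    intro y
    obtain ⟨n, c, a, h⟩ := dual T hT y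
    choose b hb using fun i => hπ' (a i)
    have h1 : ∀ f, Ψ f ⟨n, c, b⟩ = T f y := fun f => by simp only [Ψ, hb, h]
    refine ⟨⟨⟨n, c, b⟩, y, h1⟩, ?_⟩
    by_contra hne
    obtain ⟨g, hg, hg'⟩ := separatesPoints_continuous_of_t35Space hne
    obtain ⟨f, hf⟩ := hs ⟨g, hg⟩
    have := (hp ⟨⟨n, c, b⟩, y, h1⟩ f).symm.trans (h1 f)
    rw [hf] at this
    exact hg' this
  have : LindelofSpace Y := LindelofSpace.of_continuous_surjective hpc hps
  have hE : IsClosed E := by
    rw [← isSeqClosed_iff_isClosed]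
    intro w v hw hv
    have h1 : ∀ f, Tendsto (fun n => T f (p ⟨w n, hw n⟩)) atTop (𝓝 (Ψ f v)) := fun f => by
      simp only [← hp]
      exact ((hΨ f).tendsto v).comp hv
    obtain ⟨z, hz⟩ := lim_of_lindelof (fun n => p ⟨w n, hw n⟩) fun g => by
      obtain ⟨f, rfl⟩ := hs g
      exact ⟨_, h1 f⟩
    exact ⟨z, fun f => (eq_of_nhds_neBot
      ((hz.continuousAt_comp (T f).continuous.continuousAt).clusterPt.mono (h1 f))).symm⟩
  have := hE.polishSpace
  have : Nonempty E := by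
    obtain ⟨w, -⟩ := hps (Classical.arbitrary Y)
    exact ⟨w⟩
  obtain ⟨q, h1, h2⟩ := PolishSpace.exists_nat_nat_continuous_surjective E
  exact ⟨p ∘ q, hpc.comp h1, hps.comp h2⟩

end Pool.Agent.Lead.Lin
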