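import Pool.Agent.Lead.LExt
import Pool.Agent.Lead.Lin1

set_option autoImplicit false

open Set Topology Filter

namespace Pool.Agent.LSt

abbrev X : Type := Ultrafilter ℕ

theorem supp {A B : Type} [TopologicalSpace A] [TopologicalSpace B] (T : C(A, ℝ) →ₗ[ℝ] C(B, ℝ))
    (hT : @Continuous _ _ (Lead.Lin.ptop A) (Lead.Lin.ptop B) T) (y : B) :
    ∃ F : Set A, F.Finite ∧ ∀ f : C(A, ℝ), (∀ a ∈ F, f a = 0) → T f y = 0 := by
  obtain ⟨n, c, a, h⟩ := Lead.Lin.dual T hT y
  exact ⟨range a, finite_range a, fun f hf => by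
    rw [h]; exact Finset.sum_eq_zero fun i _ => by rw [hf _ ⟨i, rfl⟩, mul_zero]⟩

theorem ext_pure {Y : Type} [TopologicalSpace Y] [T2Space Y] {f g : X → Y} (hf : Continuous f)
    (hg : Continuous g) (h : ∀ k, f (pure k) = g (pure k)) : f = g :=
  denseRange_pure.equalizer hf hg (funext h)

theorem sep_fun {Y : Type} [TopologicalSpace Y] [CompletelyRegularSpace Y] (C : Set Y)
    (hC : IsClosed C) (y : Y) (hy : y ∉ C) : ∃ g : C(Y, ℝ), g y = 1 ∧ ∀ a ∈ C, g a = 0 := by
  obtain ⟨f, hf, h0, h1⟩ := CompletelyRegularSpace.completely_regular y C hC hy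
  refine ⟨⟨fun w => 1 - (f w : ℝ), by fun_prop⟩, ?_, fun a ha => ?_⟩
  · show 1 - (f y : ℝ) = 1
    rw [h0]; simp
  · show 1 - (f a : ℝ) = 0
    rw [h1 ha]; simp

section emb
variable (A : Set X) (φ : C(A, ℝ) →ₗ[ℝ] C(X, ℝ))
  (hφ : @Continuous _ _ (Lead.Lin.ptop A) (Lead.Lin.ptop X) φ) (he : ∀ f : C(A, ℝ), ∀ a : A, φ f a = f a)
include hφ he

theorem A_closed : IsClosed A := by
  refine isClosed_of_closure_subset fun x hx => ?_
  by_contra hxA
  obtain ⟨F, hF, h⟩ := supp φ hφ x
  obtain ⟨g, h1, h0⟩ := sep_fun (Subtype.val '' F) (hF.image _).isClosed x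
    (by rintro ⟨a, _, rfl⟩; exact hxA a.2)
  have h2 := h (g.restrict A) fun a ha => h0 _ ⟨a, ha, rfl⟩
  have h3 : x ∈ {y | φ (g.restrict A) y = g y} :=
    closure_minimal (fun a ha => he _ ⟨a, ha⟩) (isClosed_eq (map_continuous _) g.continuous) hx
  have h4 : φ (g.restrict A) x = g x := h3
  rw [h2, h1] at h4
  exact zero_ne_one h4

theorem A_sep : ∃ D : Set A, D.Countable ∧ Dense D := by
  choose F hF h using fun k : ℕ => supp φ hφ (pure k)
  refine ⟨⋃ k, F k, countable_iUnion fun k => (hF k).countable, fun a => ?_⟩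
  by_contra ha
  obtain ⟨g, h1, h0⟩ := sep_fun _ isClosed_closure a ha
  have h2 : ⇑(φ g) = fun _ => 0 := ext_pure (map_continuous _) continuous_const fun k =>
    h k g fun b hb => h0 b (subset_closure (mem_iUnion.2 ⟨k, hb⟩))
  have h3 := he g a
  rw [h2, h1] at h3
  exact zero_ne_one h3

end emb

theorem basic_nb {x : X} {U : Set X} (hU : IsOpen U) (hx : x ∈ U) :
    ∃ P : Set ℕ, P ∈ x ∧ ∀ y : X, P ∈ y → y ∈ U := by
  obtain ⟨_, ⟨P, rfl⟩, h1, h2⟩ := ultrafilterBasis_is_basis.exists_subset_of_mem_open hx hU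
  exact ⟨P, h1, fun y hy => h2 hy⟩

/-- countable separated subsets of `βℕ` have disjoint closures -/
theorem sep_count (d e : ℕ → X) (h1 : ∀ n, d n ∉ closure (range e))
    (h2 : ∀ n, e n ∉ closure (range d)) : Disjoint (closure (range d)) (closure (range e)) := by
  choose P hP hP' using fun n => basic_nb isClosed_closure.isOpen_compl (h1 n)
  choose Q hQ hQ' using fun n => basic_nb isClosed_closure.isOpen_compl (h2 n)
  have hPe : ∀ m n, (P m)ᶜ ∈ e n := fun m n =>
    Ultrafilter.compl_mem_iff_notMem.2 fun h => hP' m _ h (subset_closure ⟨n, rfl⟩)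
  have hQd : ∀ m n, (Q m)ᶜ ∈ d n := fun m n =>
    Ultrafilter.compl_mem_iff_notMem.2 fun h => hQ' m _ h (subset_closure ⟨n, rfl⟩)
  let R : Set ℕ := ⋃ n, P n ∩ ⋂ m ∈ Iic n, (Q m)ᶜ
  have hd : ∀ n, R ∈ d n := fun n =>
    mem_of_superset (inter_mem (hP n) ((biInter_mem (finite_Iic n)).2 fun m _ => hQd m n))
      (subset_iUnion (fun n => P n ∩ ⋂ m ∈ Iic n, (Q m)ᶜ) n)
  have he : ∀ n, Rᶜ ∈ e n := fun n => by
    refine mem_of_superset
      (inter_mem (hQ n) ((biInter_mem (finite_Iic n)).2 fun m _ => hPe m n)) ?_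
    rintro k ⟨hk1, hk2⟩ hk
    obtain ⟨m, hm1, hm2⟩ := mem_iUnion.1 hk
    rcases le_total m n with h | h
    · exact mem_iInter₂.1 hk2 m h hm1
    · exact mem_iInter₂.1 hm2 n h hk1
  refine Set.disjoint_left.2 fun x hx hx' => ?_
  have h3 : R ∈ x := closure_minimal (by rintro _ ⟨n, rfl⟩; exact hd n)
    (ultrafilter_isClosed_basic R) hx
  have h4 : Rᶜ ∈ x := closure_minimal (by rintro _ ⟨n, rfl⟩; exact he n)
    (ultrafilter_isClosed_basic Rᶜ) hx'
  exact Ultrafilter.compl_mem_iff_notMem.1 h4 h3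

theorem A_ed (A : Set X) (D : Set A) (hD : D.Countable) (hd : Dense D) :
    ExtremallyDisconnected A := by
  have key : ∀ U V : Set A, IsOpen U → IsOpen V → Disjoint U V →
      Disjoint (closure U) (closure V) := by
    intro U V hU hV hUV
    rcases U.eq_empty_or_nonempty with rfl | hUn
    · simp
    rcases V.eq_empty_or_nonempty with rfl | hVn
    · simp
    obtain ⟨d, hdd⟩ := (hD.mono (inter_subset_right : U ∩ D ⊆ D)).exists_eq_range
      (hd.inter_open_nonempty U hU hUn)
    obtain ⟨e, hee⟩ := (hD.mono (inter_subset_right : V ∩ D ⊆ D)).exists_eq_range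
      (hd.inter_open_nonempty V hV hVn)
    have hcl : ∀ (f : ℕ → A) (a : A), a ∈ closure (range f) ↔
        a.1 ∈ closure (range fun n => (f n).1) := fun f a => by
      rw [closure_subtype, ← range_comp]; rfl
    have h3 := sep_count (fun n => (d n).1) (fun n => (e n).1) (fun n h => by
        have h4 : d n ∈ U ∩ D := hdd ▸ ⟨n, rfl⟩
        have h5 := (hcl e (d n)).2 h
        rw [← hee] at h5
        exact Set.disjoint_left.1 (hUV.closure_right hU) h4.1
          (closure_mono inter_subset_left h5))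
      (fun n h => by
        have h4 : e n ∈ V ∩ D := hee ▸ ⟨n, rfl⟩
        have h5 := (hcl d (e n)).2 h
        rw [← hdd] at h5
        exact Set.disjoint_left.1 (hUV.closure_left hV) (closure_mono inter_subset_left h5) h4.1)
    refine Set.disjoint_left.2 fun a h4 h5 => Set.disjoint_left.1 h3 ((hcl d a).1 ?_)
      ((hcl e a).1 ?_)
    · rw [← hdd]
      exact closure_minimal (hd.open_subset_closure_inter hU) isClosed_closure h4
    · rw [← hee]
      exact closure_minimal (hd.open_subset_closure_inter hV) isClosed_closure h5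
  refine ⟨fun U hU => ?_⟩
  have h1 := key U (closure U)ᶜ hU isClosed_closure.isOpen_compl
    (Set.disjoint_left.2 fun a h h' => h' (subset_closure h))
  have h2 : closure (closure U)ᶜ ⊆ (closure U)ᶜ := h1.symm.subset_compl_right
  have := isClosed_of_closure_subset h2
  simpa using this.isOpen_compl

theorem retract (A : Set X) (hA : IsClosed A) (hne : A.Nonempty) (D : Set A) (hD : D.Countable)
    (hd : Dense D) : ∃ (r : C(X, A)) (s : C(A, X)), ∀ a, r (s a) = a := by
  have := A_ed A D hD hd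
  have : CompactSpace A := isCompact_iff_compactSpace.1 hA.isCompact
  have : Nonempty A := hne.to_subtype
  obtain ⟨d, hdd⟩ := hD.exists_eq_range hd.nonempty
  have hc := continuous_ultrafilter_extend d
  have hs : Function.Surjective (Ultrafilter.extend d) := by
    have h1 : IsClosed (range (Ultrafilter.extend d)) := (isCompact_range hc).isClosed
    intro a
    refine closure_minimal (s := D) ?_ h1 (hd a)
    rw [hdd]
    rintro _ ⟨n, rfl⟩
    exact ⟨pure n, congrFun (ultrafilter_extend_extends d) n⟩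
  obtain ⟨s, hs1, hs2⟩ := CompactT2.ExtremallyDisconnected.projective (A := A) continuous_id hc hs
  exact ⟨⟨_, hc⟩, ⟨s, hs1⟩, fun a => congrFun hs2 a⟩

/-- continuous extension of a sequence in a compact space -/
noncomputable def ex {Y : Type} [TopologicalSpace Y] [CompactSpace Y] [T2Space Y] (u : ℕ → Y) :
    C(X, Y) := ⟨Ultrafilter.extend u, continuous_ultrafilter_extend u⟩

theorem ex_pure {Y : Type} [TopologicalSpace Y] [CompactSpace Y] [T2Space Y] (u : ℕ → Y) (k : ℕ) :
    ex u (pure k) = u k := congrFun (ultrafilter_extend_extends u) k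

noncomputable def ι (n : ℕ) : C(X, X) := ex fun k => pure (Nat.pair n k)

theorem ext_ι {Y : Type} [TopologicalSpace Y] [T2Space Y] {f g : X → Y} (hf : Continuous f)
    (hg : Continuous g) (h : ∀ n x, f (ι n x) = g (ι n x)) : f = g :=
  ext_pure hf hg fun m => by
    have := h m.unpair.1 (pure m.unpair.2)
    rwa [ι, ex_pure, Nat.pair_unpair] at this

/-- glue a sequence of maps -/
noncomputable def gl {Y : Type} [TopologicalSpace Y] [CompactSpace Y] [T2Space Y]
    (u : ℕ → C(X, Y)) : C(X, Y) := ex fun m => u m.unpair.1 (pure m.unpair.2)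

theorem gl_ι {Y : Type} [TopologicalSpace Y] [CompactSpace Y] [T2Space Y] (u : ℕ → C(X, Y))
    (n : ℕ) (x : X) : gl u (ι n x) = u n x :=
  congrFun (ext_pure ((gl u).continuous.comp (ι n).continuous) (u n).continuous fun k => by
    simp only [Function.comp, gl, ι, ex_pure, Nat.unpair_pair]) x

theorem swindle {A : Type} [TopologicalSpace A] [CompactSpace A] [T2Space A] (r : C(X, A))
    (s : C(A, X)) (h : ∀ a, r (s a) = a) :
    ∃ E : C(X, ℝ) ≃ C(X ⊕ A, ℝ), LExt.Rep E ∧ LExt.Rep E.symm := by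
  let e : C(X, X) := s.comp r
  have hee : ∀ x, e (e x) = e x := fun x => congrArg s (h _)
  have hre : ∀ x, r (e x) = r x := fun x => h _
  have hes : ∀ a, e (s a) = s a := fun a => congrArg s (h a)
  let σ : C(X, X) := gl fun n => (ι n).comp e
  let σ' : C(X, X) := gl fun n => (ι (n + 1)).comp e
  let τ : C(X, X ⊕ A) := gl fun n => match n with
    | 0 => (⟨Sum.inr, continuous_inr⟩ : C(A, X ⊕ A)).comp r
    | n + 1 => (⟨Sum.inl, continuous_inl⟩ : C(X, X ⊕ A)).comp ((ι n).comp e)
  have hσ : ∀ n x, σ (ι n x) = ι n (e x) := fun n x => gl_ι _ n x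
  have hσ' : ∀ n x, σ' (ι n x) = ι (n + 1) (e x) := fun n x => gl_ι _ n x
  have hτ0 : ∀ x, τ (ι 0 x) = Sum.inr (r x) := fun x => gl_ι _ 0 x
  have hτ1 : ∀ n x, τ (ι (n + 1) x) = Sum.inl (ι n (e x)) := fun n x => gl_ι _ (n + 1) x
  let T : C(X, ℝ) → C(X ⊕ A, ℝ) := fun f =>
    ⟨Sum.elim (fun x => f x - f (σ x) + f (σ' x)) (fun a => f (ι 0 (s a))),
      Continuous.sumElim (by fun_prop) (by fun_prop)⟩
  let S : C(X ⊕ A, ℝ) → C(X, ℝ) := fun G =>
    ⟨fun x => G (Sum.inl x) - G (Sum.inl (σ x)) + G (τ x), by fun_prop⟩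
  have T1 : ∀ f x, T f (Sum.inl x) = f x - f (σ x) + f (σ' x) := fun _ _ => rfl
  have T2 : ∀ f a, T f (Sum.inr a) = f (ι 0 (s a)) := fun _ _ => rfl
  have S1 : ∀ G x, S G x = G (Sum.inl x) - G (Sum.inl (σ x)) + G (τ x) := fun _ _ => rfl
  refine ⟨⟨T, S, fun f => ?_, fun G => ?_⟩, ?_, ?_⟩
  · refine ContinuousMap.ext (congrFun (ext_ι (map_continuous _) f.continuous fun n x => ?_))
    cases n with
    | zero =>
      rw [S1, hτ0, T2, hσ, T1, T1, hσ, hσ, hσ', hσ', hee]
      show _ - _ + f (ι 0 (e x)) = _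
      ring
    | succ n =>
      rw [S1, hτ1, hσ, T1, T1, T1, hσ, hσ, hσ, hσ', hσ', hσ', hee]
      ring
  · ext y
    rcases y with x | a
    · refine congrFun (ext_ι ((T (S G)).continuous.comp continuous_inl)
        (G.continuous.comp continuous_inl) fun n x => ?_) x
      show T (S G) (Sum.inl _) = G (Sum.inl _)
      have h1 : τ (ι n (e x)) = τ (ι n x) := by
        cases n with
        | zero => rw [hτ0, hτ0, hre]
        | succ n => rw [hτ1, hτ1, hee]
      rw [T1, hσ, hσ', S1, S1, S1, hσ, hσ, hσ, hτ1, h1, hee]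
      ring
    · rw [T2, S1, hσ, hτ0, hes, h]
      ring
  · rintro (x | a)
    · exact ((LExt.FS.eval _).sub (LExt.FS.eval _)).add (LExt.FS.eval _)
    · exact LExt.FS.eval _
  · intro x
    exact ((LExt.FS.eval _).sub (LExt.FS.eval _)).add (LExt.FS.eval _)

theorem stable (A : Set X) (φ : C(A, ℝ) →ₗ[ℝ] C(X, ℝ))
    (hφ : @Continuous _ _ (Lead.Lin.ptop A) (Lead.Lin.ptop X) φ)
    (he : ∀ f : C(A, ℝ), ∀ a : A, φ f a = f a) :
    ∃ E : C(X, ℝ) ≃ C(X ⊕ A, ℝ), LExt.Rep E ∧ LExt.Rep E.symm := by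
  rcases A.eq_empty_or_nonempty with rfl | hne
  · refine ⟨⟨fun f => ⟨Sum.elim f fun a => a.2.elim, f.continuous.sumElim
      (continuous_of_discreteTopology)⟩, fun G => G.comp ⟨Sum.inl, continuous_inl⟩,
      fun f => rfl, fun G => ?_⟩, ?_, fun x => LExt.FS.eval _⟩
    · ext y
      rcases y with x | a
      · rfl
      · exact a.2.elim
    · rintro (x | a)
      · exact LExt.FS.eval _
      · exact a.2.elim
  · obtain ⟨D, hD, hd⟩ := A_sep A φ hφ he
    have hA := A_closed A φ hφ he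
    obtain ⟨r, s, h⟩ := retract A hA hne D hD hd
    have : CompactSpace A := isCompact_iff_compactSpace.1 hA.isCompact
    exact swindle r s h

end Pool.Agent.LSt
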