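import Mathlib

set_option autoImplicit false

open Set Topology Filter

namespace Pool.Agent.PsiG

/-- generalized Isbell–Mrówka space of an indexed family -/
def Psi {M J : Type} (_F : J → Set M) : Type := M ⊕ J

variable {M J : Type} (F : J → Set M)

def pt (m : M) : Psi F := Sum.inl m
def lim (j : J) : Psi F := Sum.inr j

theorem pt_inj : Function.Injective (pt F) := Sum.inl_injective
theorem lim_inj : Function.Injective (lim F) := Sum.inr_injective
theorem pt_ne_lim (m : M) (j : J) : pt F m ≠ lim F j := Sum.inl_ne_inr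

theorem cases (z : Psi F) : (∃ m, z = pt F m) ∨ ∃ j, z = lim F j := by
  rcases z with m | j
  · exact Or.inl ⟨m, rfl⟩
  · exact Or.inr ⟨j, rfl⟩

instance : TopologicalSpace (Psi F) where
  IsOpen U := ∀ j, lim F j ∈ U → {m | m ∈ F j ∧ pt F m ∉ U}.Finite
  isOpen_univ := fun j _ => by simp
  isOpen_inter := fun U V hU hV j hj =>
    ((hU j hj.1).union (hV j hj.2)).subset fun m hm => by
      by_cases h : pt F m ∈ U
      · exact Or.inr ⟨hm.1, fun h' => hm.2 ⟨h, h'⟩⟩
      · exact Or.inl ⟨hm.1, h⟩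
  isOpen_sUnion := fun s hs j ⟨U, hU, hj⟩ =>
    (hs U hU j hj).subset fun m hm => ⟨hm.1, fun h => hm.2 ⟨U, hU, h⟩⟩

theorem isOpen_iff (U : Set (Psi F)) :
    IsOpen U ↔ ∀ j, lim F j ∈ U → {m | m ∈ F j ∧ pt F m ∉ U}.Finite := Iff.rfl

theorem isClosed_iff (U : Set (Psi F)) :
    IsClosed U ↔ ∀ j, lim F j ∉ U → {m | m ∈ F j ∧ pt F m ∈ U}.Finite := by
  rw [← isOpen_compl_iff, isOpen_iff]
  simp

theorem clopen_pt (m : M) : IsClopen ({pt F m} : Set (Psi F)) := by
  constructor
  · rw [isClosed_iff]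
    intro j _
    exact (finite_singleton m).subset fun m' hm' => pt_inj F hm'.2
  · rw [isOpen_iff]
    intro j hj
    exact absurd hj.symm (pt_ne_lim F m j)

/-- basic neighbourhood -/
def nb (j : J) (A : Set M) : Set (Psi F) := insert (lim F j) (pt F '' (F j ∩ A))

theorem pt_mem_nb (j : J) (A : Set M) (m : M) : pt F m ∈ nb F j A ↔ m ∈ F j ∧ m ∈ A := by
  unfold nb
  constructor
  · rintro (h | ⟨m', hm', h⟩)
    · exact absurd h (pt_ne_lim F m j)
    · rw [← pt_inj F h]; exact hm'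
  · intro h; exact Or.inr ⟨m, h, rfl⟩

theorem lim_mem_nb (j j' : J) (A : Set M) : lim F j' ∈ nb F j A ↔ j' = j := by
  unfold nb
  constructor
  · rintro (h | ⟨m', _, h⟩)
    · exact lim_inj F h
    · exact absurd h (pt_ne_lim F _ _)
  · rintro rfl; exact Or.inl rfl

theorem clopen_nb (hF : ∀ j j', j ≠ j' → (F j ∩ F j').Finite) (j : J) (A : Set M)
    (hA : (F j \ A).Finite) : IsClopen (nb F j A) := by
  constructor
  · rw [isClosed_iff]
    intro j' hj'
    rw [lim_mem_nb] at hj'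
    exact (hF j' j hj').subset fun m hm => ⟨hm.1, ((pt_mem_nb F j A m).1 hm.2).1⟩
  · rw [isOpen_iff]
    intro j' hj'
    rw [lim_mem_nb] at hj'
    subst hj'
    exact hA.subset fun m hm => ⟨hm.1, fun h => hm.2 ((pt_mem_nb F _ A m).2 ⟨hm.1, h⟩)⟩

theorem clopen_base (hF : ∀ j j', j ≠ j' → (F j ∩ F j').Finite) (z : Psi F) (U : Set (Psi F))
    (hU : IsOpen U) (hz : z ∈ U) : ∃ V, IsClopen V ∧ z ∈ V ∧ V ⊆ U := by
  rcases cases F z with ⟨m, rfl⟩ | ⟨j, rfl⟩
  · exact ⟨_, clopen_pt F m, rfl, singleton_subset_iff.2 hz⟩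
  · refine ⟨nb F j (pt F ⁻¹' U), clopen_nb F hF j _ (hU j hz), (lim_mem_nb F _ _ _).2 rfl, ?_⟩
    rintro w (rfl | ⟨m, hm, rfl⟩)
    · exact hz
    · exact hm.2

theorem closed_lims (A : Set (Psi F)) (hA : ∀ m, pt F m ∉ A) : IsClosed A := by
  rw [isClosed_iff]
  intro j _
  exact finite_empty.subset fun m hm => hA m hm.2

theorem t1 : T1Space (Psi F) := by
  refine ⟨fun z => ?_⟩
  rcases cases F z with ⟨m, rfl⟩ | ⟨j, rfl⟩
  · exact (clopen_pt F m).1
  · exact closed_lims F _ fun m hm => pt_ne_lim F m j hm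

theorem cr_of_clopen {X : Type} [TopologicalSpace X]
    (h : ∀ (z : X) (U : Set X), IsOpen U → z ∈ U → ∃ V, IsClopen V ∧ z ∈ V ∧ V ⊆ U) :
    CompletelyRegularSpace X := by
  classical
  refine ⟨fun x C hC hx => ?_⟩
  obtain ⟨V, hV, hxV, hVC⟩ := h x Cᶜ hC.isOpen_compl hx
  refine ⟨fun z => if z ∈ V then 0 else 1, ?_, by simp [hxV], fun z hz => ?_⟩
  · refine Continuous.if ?_ continuous_const continuous_const
    intro a ha
    have : frontier V = ∅ := hV.frontier_eq
    rw [show {x | x ∈ V} = V from rfl, this] at ha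
    exact ha.elim
  · have : z ∉ V := fun h => hVC h hz
    simp [this]

theorem t35 (hF : ∀ j j', j ≠ j' → (F j ∩ F j').Finite) : T35Space (Psi F) := by
  have := t1 F
  have := cr_of_clopen (clopen_base F hF)
  exact {}

theorem perfect [Countable M] (s : Set (Psi F)) (hs : IsClosed s) : IsGδ s := by
  have h1 : s = (sᶜ ∩ range (lim F))ᶜ ∩ ⋂ m ∈ {m | pt F m ∉ s}, ({pt F m} : Set (Psi F))ᶜ := by
    ext z
    simp only [mem_inter_iff, mem_compl_iff, mem_iInter, mem_singleton_iff, mem_range]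
    constructor
    · intro hz
      refine ⟨fun h => h.1 hz, fun m hm h => hm (h ▸ hz)⟩
    · rintro ⟨h1, h2⟩
      by_contra hz
      rcases cases F z with ⟨m, rfl⟩ | ⟨j, rfl⟩
      · exact h2 m hz rfl
      · exact h1 ⟨hz, j, rfl⟩
  rw [h1]
  refine IsGδ.inter ?_ (IsGδ.biInter (to_countable _) fun m _ =>
    (clopen_pt F m).1.isOpen_compl.isGδ)
  refine (closed_lims F _ ?_).isOpen_compl.isGδ
  rintro m ⟨_, j, hj⟩
  exact pt_ne_lim F m j hj.symm

/-- an almost disjoint family of infinite subsets of a countable set, indexed by any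
type of size at most continuum -/
theorem exists_ad (I : Type) (e : I ↪ Set ℕ) :
    ∃ B : I → Set (ℕ × Finset ℕ), (∀ x, (B x).Infinite) ∧
      ∀ x y, x ≠ y → (B x ∩ B y).Finite := by
  classical
  refine ⟨fun x => range fun n => (n, (Finset.range n).filter (· ∈ e x)), fun x => ?_, ?_⟩
  · exact infinite_range_of_injective fun a b h => congrArg Prod.fst h
  · intro x y hxy
    have hne : e x ≠ e y := fun h => hxy (e.injective h)
    obtain ⟨k, hk⟩ : ∃ k, ¬ (k ∈ e x ↔ k ∈ e y) := by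
      by_contra h
      push Not at h
      exact hne (Set.ext h)
    refine ((finite_Iic k).image fun n => (n, (Finset.range n).filter (· ∈ e x))).subset ?_
    rintro p ⟨⟨n, rfl⟩, ⟨m, hm⟩⟩
    refine ⟨n, ?_, rfl⟩
    have h1 : m = n := congrArg Prod.fst hm
    subst h1
    have h2 : (Finset.range m).filter (· ∈ e y) = (Finset.range m).filter (· ∈ e x) :=
      congrArg Prod.snd hm
    by_contra hn
    have hkm : k < m := not_le.1 hn
    apply hk
    have := Finset.ext_iff.1 h2 k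
    simp only [Finset.mem_filter, Finset.mem_range, hkm, true_and] at this
    exact this.symm

end Pool.Agent.PsiG
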