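import Pool.Agent.Lead.LSt1
import Pool.Agent.Lead.PsiG

set_option autoImplicit false

open Set Topology Filter

namespace Pool.Agent.LSt

theorem bound_of {A B : Type} [TopologicalSpace A] [TopologicalSpace B] [CompactSpace A]
    [CompactSpace B] (T : C(A, ℝ) →ₗ[ℝ] C(B, ℝ))
    (hT : @Continuous _ _ (Lead.Lin.ptop A) (Lead.Lin.ptop B) T) :
    ∃ C, 0 ≤ C ∧ ∀ f y, |T f y| ≤ C * ‖f‖ := by
  have hc : ∀ y, Continuous fun f : C(A, ℝ) => T f y := fun y => by
    obtain ⟨n, c, a, h⟩ := Lead.Lin.dual T hT y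
    rw [show (fun f : C(A, ℝ) => T f y) = fun f => ∑ i, c i * f (a i) from funext h]
    fun_prop
  let g : B → C(A, ℝ) →L[ℝ] ℝ := fun y =>
    ⟨⟨⟨fun f => T f y, fun _ _ => by simp⟩, fun _ _ => by simp⟩, hc y⟩
  obtain ⟨C, hC⟩ := banach_steinhaus (g := g) fun f => ⟨‖T f‖, fun y => (T f).norm_coe_le_norm y⟩
  refine ⟨max C 0, le_max_right _ _, fun f y => ?_⟩
  exact ((g y).le_opNorm f).trans
    (mul_le_mul_of_nonneg_right ((hC y).trans (le_max_left _ _)) (norm_nonneg _))

theorem exists_ext (u : ℕ → ℝ) (M : ℝ) (h : ∀ k, |u k| ≤ M) :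
    ∃ g : C(X, ℝ), (∀ k, g (pure k) = u k) ∧ ∀ x, |g x| ≤ M := by
  let v : ℕ → Icc (-M) M := fun k => ⟨u k, abs_le.1 (h k)⟩
  exact ⟨(⟨Subtype.val, continuous_subtype_val⟩ : C(Icc (-M) M, ℝ)).comp (ex v),
    fun k => congrArg Subtype.val (ex_pure v k), fun x => abs_le.2 (ex v x).2⟩

theorem cm_ext {f g : C(X, ℝ)} (h : ∀ k, f (pure k) = g (pure k)) : f = g :=
  ContinuousMap.ext (congrFun (ext_pure f.continuous g.continuous h))

open Classical in
noncomputable def chi (A : Set ℕ) : C(X, ℝ) :=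
  (exists_ext (fun k => if k ∈ A then 1 else 0) 1 fun k => by split_ifs <;> simp).choose

open Classical in
theorem chi_pure (A : Set ℕ) (k : ℕ) : chi A (pure k) = if k ∈ A then 1 else 0 :=
  (exists_ext (fun k => if k ∈ A then 1 else 0) 1 fun k => by split_ifs <;> simp).choose_spec.1 k

/-- Whitley's lemma -/
theorem whitley {I : Type} (B : I → Set ℕ) (hB : ∀ a b, a ≠ b → (B a ∩ B b).Finite)
    (θ : C(X, ℝ) →ₗ[ℝ] ℝ) (M : ℝ) (hM : ∀ x, (∀ k, |x (pure k)| ≤ 1) → |θ x| ≤ M)
    (h0 : ∀ x : C(X, ℝ), {k | x (pure k) ≠ 0}.Finite → θ x = 0) :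
    {a | θ (chi (B a)) ≠ 0}.Countable := by
  classical
  have hs : Summable fun a => |θ (chi (B a))| := by
    refine summable_of_sum_le (fun a => abs_nonneg _) (c := M) fun s => ?_
    let y : C(X, ℝ) := ∑ a ∈ s, (SignType.sign (θ (chi (B a))) : ℝ) • chi (B a)
    let N : Set ℕ := ⋃ a ∈ s, ⋃ b ∈ s, ⋃ _ : a ≠ b, B a ∩ B b
    have hN : N.Finite := s.finite_toSet.biUnion fun a _ => s.finite_toSet.biUnion fun b _ =>
      finite_iUnion fun h => hB a b h
    have h1 : θ y = ∑ a ∈ s, |θ (chi (B a))| := by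
      simp only [y, map_sum, map_smul, smul_eq_mul, sign_mul_self]
    have h2 : θ (y * chi N) = 0 := h0 _ (hN.subset fun k hk => by
      by_contra h
      apply hk
      simp [chi_pure, h])
    have h3 : |θ (y - y * chi N)| ≤ M := hM _ fun k => by
      by_cases hk : k ∈ N
      · simp [chi_pure, hk]
      · simp only [ContinuousMap.sub_apply, ContinuousMap.mul_apply, chi_pure, hk, if_false,
          mul_zero, sub_zero, y, ContinuousMap.coe_sum, Finset.sum_apply,
          ContinuousMap.smul_apply, smul_eq_mul]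
        by_cases h : ∃ a ∈ s, k ∈ B a
        · obtain ⟨a, ha, hka⟩ := h
          rw [Finset.sum_eq_single a (fun b hb hba => ?_) fun h => absurd ha h]
          · rw [if_pos hka, mul_one]
            rcases lt_trichotomy (θ (chi (B a))) 0 with h | h | h
            · simp [sign_neg h]
            · simp [h]
            · simp [sign_pos h]
          · rw [if_neg, mul_zero]
            exact fun h => hk (mem_biUnion ha (mem_biUnion hb (mem_iUnion.2 ⟨hba.symm, hka, h⟩)))
        · rw [Finset.sum_eq_zero fun a ha => by rw [if_neg fun h' => h ⟨a, ha, h'⟩, mul_zero]]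
          simp
    rw [map_sub, h2, sub_zero, h1] at h3
    exact (le_abs_self _).trans h3
  exact hs.countable_support.mono fun a ha => by simpa using ha

abbrev W : Type := X × OnePoint ℕ

open Classical in
noncomputable def δ (i : ℕ) : C(W, ℝ) :=
  (OnePoint.continuousMapMkNat (fun n => if n = i then (1 : ℝ) else 0) 0
    (tendsto_const_nhds.congr' ((eventually_gt_atTop i).mono fun n hn => by
      simp [hn.ne']))).comp ContinuousMap.snd

theorem δ_coe (i n : ℕ) (p : X) : δ i (p, (n : OnePoint ℕ)) = if n = i then 1 else 0 := by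
  unfold δ; congr

theorem δ_inf (i : ℕ) (p : X) : δ i (p, OnePoint.infty) = 0 := rfl

noncomputable def FF (x : C(X, ℝ)) (I : Finset ℕ) : C(W, ℝ) := ∑ i ∈ I, x (pure i) • δ i

theorem FF_coe (x : C(X, ℝ)) (I : Finset ℕ) (p : X) (n : ℕ) :
    FF x I (p, (n : OnePoint ℕ)) = if n ∈ I then x (pure n) else 0 := by
  simp [FF, δ_coe]

theorem FF_inf (x : C(X, ℝ)) (I : Finset ℕ) (p : X) : FF x I (p, OnePoint.infty) = 0 := by
  simp [FF, δ_inf]

theorem FF_norm (x : C(X, ℝ)) (I : Finset ℕ) (M : ℝ) (h : ∀ k, |x (pure k)| ≤ M) :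
    ‖FF x I‖ ≤ M := by
  have h0 : 0 ≤ M := (abs_nonneg _).trans (h 0)
  refine (ContinuousMap.norm_le _ h0).2 fun ⟨p, a⟩ => ?_
  induction a using OnePoint.rec with
  | infty => simpa [FF_inf] using h0
  | coe n =>
    rw [FF_coe]
    split_ifs
    · exact h n
    · simpa using h0

theorem not_S (e : C(W, ℝ) ≃ₗ[ℝ] C(X, ℝ))
    (h1 : @Continuous _ _ (Lead.Lin.ptop W) (Lead.Lin.ptop X) e)
    (h2 : @Continuous _ _ (Lead.Lin.ptop X) (Lead.Lin.ptop W) e.symm) : False := by
  classical
  obtain ⟨C, hC0, hC⟩ := bound_of e.toLinearMap h1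
  obtain ⟨C', hC0', hC'⟩ := bound_of e.symm.toLinearMap h2
  choose F hF hF' using fun k : ℕ => supp e.toLinearMap h1 (pure k)
  have hI : ∀ k, {i : ℕ | ∃ p, (p, (i : OnePoint ℕ)) ∈ F k}.Finite := fun k =>
    (((hF k).image Prod.snd).preimage OnePoint.coe_injective.injOn).subset
      fun i ⟨p, hp⟩ => ⟨_, hp, rfl⟩
  let I : ℕ → Finset ℕ := fun k => (hI k).toFinset
  have hU : ∀ x : C(X, ℝ), ∃ g : C(X, ℝ), ∀ k, g (pure k) = e (FF x (I k)) (pure k) := fun x => by
    obtain ⟨g, hg, -⟩ := exists_ext (fun k => e (FF x (I k)) (pure k)) (C * ‖x‖) fun k =>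
      (hC _ _).trans (mul_le_mul_of_nonneg_left
        (FF_norm x _ _ fun k => x.norm_coe_le_norm _) hC0)
    exact ⟨g, hg⟩
  choose U hU using hU
  let x0 : X := pure 0
  let θ : ℕ → C(X, ℝ) →ₗ[ℝ] ℝ := fun n =>
    { toFun := fun x => e.symm (U x) (x0, (n : OnePoint ℕ)) - x (pure n)
      map_add' := fun x y => by
        have : U (x + y) = U x + U y := cm_ext fun k => by
          simp [hU, FF, add_smul, Finset.sum_add_distrib]
        simp only [this, map_add, ContinuousMap.add_apply]; ring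
      map_smul' := fun a x => by
        have : U (a • x) = a • U x := cm_ext fun k => by
          simp [hU, FF, Finset.mul_sum, mul_assoc]
        simp only [this, map_smul, ContinuousMap.smul_apply, smul_eq_mul, RingHom.id_apply]; ring }
  obtain ⟨B0, hB1, hB2⟩ := PsiG.exists_ad (Set ℕ) (Function.Embedding.refl _)
  let B : Set ℕ → Set ℕ := fun a => Encodable.encode '' B0 a
  have hBi : ∀ a, (B a).Infinite := fun a => (hB1 a).image Encodable.encode_injective.injOn
  have hBd : ∀ a b, a ≠ b → (B a ∩ B b).Finite := fun a b h => by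
    rw [← image_inter Encodable.encode_injective]
    exact (hB2 a b h).image _
  have hcount : ∀ n, {a | θ n (chi (B a)) ≠ 0}.Countable := fun n => by
    refine whitley B hBd (θ n) (C' * C + 1) (fun x hx => ?_) fun x hx => ?_
    · have h3 : ‖U x‖ ≤ C := by
        refine (ContinuousMap.norm_le _ hC0).2 fun y => ?_
        refine denseRange_pure.induction_on y (isClosed_le (by fun_prop) continuous_const)
          fun k => ?_
        rw [hU]
        refine (hC _ _).trans ?_
        simpa using mul_le_mul_of_nonneg_left (FF_norm x _ _ hx) hC0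
      have h4 := (hC' (U x) (x0, (n : OnePoint ℕ))).trans (mul_le_mul_of_nonneg_left h3 hC0')
      exact (abs_sub _ _).trans (add_le_add h4 (hx n))
    · have h3 : U x = e (FF x hx.toFinset) := cm_ext fun k => by
        rw [hU, ← sub_eq_zero, ← ContinuousMap.sub_apply, ← map_sub]
        refine hF' k _ fun ⟨p, a⟩ ha => ?_
        induction a using OnePoint.rec with
        | infty => simp [FF_inf]
        | coe m =>
          have : m ∈ I k := (hI k).mem_toFinset.2 ⟨p, ha⟩
          rw [ContinuousMap.sub_apply, FF_coe, FF_coe, if_pos this]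
          by_cases h : x (pure m) = 0 <;> simp [h]
      show e.symm (U x) (x0, (n : OnePoint ℕ)) - x (pure n) = 0
      rw [h3, e.symm_apply_apply, FF_coe]
      by_cases h : x (pure n) = 0 <;> simp [h]
  obtain ⟨a, ha⟩ : ∃ a, a ∉ ⋃ n, {a | θ n (chi (B a)) ≠ 0} := by
    by_contra h
    push Not at h
    obtain ⟨f, hf⟩ := ((countable_iUnion hcount).mono fun a _ => h a :
      (univ : Set (Set ℕ)).Countable).exists_eq_range univ_nonempty
    exact Function.cantor_surjective f fun a => (hf ▸ mem_univ a : a ∈ range f)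
  have h3 : ∀ n : ℕ, e.symm (U (chi (B a))) (x0, (n : OnePoint ℕ)) = if n ∈ B a then 1 else 0 :=
    fun n => by
      rw [← chi_pure, ← sub_eq_zero]
      by_contra h
      exact ha (mem_iUnion.2 ⟨n, h⟩)
  have h4 : Tendsto (fun n : ℕ => e.symm (U (chi (B a))) (x0, (n : OnePoint ℕ))) atTop
      (𝓝 (e.symm (U (chi (B a))) (x0, OnePoint.infty))) := by
    refine ((e.symm (U (chi (B a)))).continuous.tendsto _).comp
      (Tendsto.prodMk_nhds tendsto_const_nhds ?_)
    have := OnePoint.tendsto_coe_infty (X := ℕ)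
    rwa [coclosedCompact_eq_cocompact, cocompact_eq_cofinite, Nat.cofinite_eq_atTop] at this
  have h5 : ∀ c : ℝ, {n | (if n ∈ B a then (1 : ℝ) else 0) = c}.Infinite →
      e.symm (U (chi (B a))) (x0, OnePoint.infty) = c := fun c hc => by
    refine tendsto_nhds_unique_of_frequently_eq h4 tendsto_const_nhds ?_
    simp only [h3]
    exact Nat.frequently_atTop_iff_infinite.2 hc
  have hne : aᶜ ≠ a := fun h => by
    have := Set.ext_iff.1 h 0
    simp at this
  have h6 := h5 1 ((hBi a).mono fun n hn => if_pos hn)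
  have h7 := h5 0 (((hBi aᶜ).sdiff (hBd _ _ hne)).mono fun n hn =>
    if_neg fun h => hn.2 ⟨hn.1, h⟩)
  rw [h6] at h7
  exact one_ne_zero h7

end Pool.Agent.LSt
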