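import Mathlib

namespace Pool.Agent.Lead.Lin

/-- The topology of pointwise convergence on `C(X, ℝ)`. -/
@[reducible] def ptop (X : Type) [TopologicalSpace X] : TopologicalSpace C(X, ℝ) :=
  TopologicalSpace.induced (fun f : C(X, ℝ) => (f : X → ℝ)) Pi.topologicalSpace

/-- There is a linear continuous bijection of `C_p(X)` onto `C_p(Y)`. -/
def LinCond (X Y : Type) [TopologicalSpace X] [TopologicalSpace Y] : Prop :=
  ∃ T : C(X, ℝ) →ₗ[ℝ] C(Y, ℝ), Function.Bijective T ∧ @Continuous _ _ (ptop X) (ptop Y) T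

/-- `X` is a continuous image of the space of irrationals `ω^ω`. -/
def Analytic (X : Type) [TopologicalSpace X] : Prop :=
  ∃ f : (ℕ → ℕ) → X, Continuous f ∧ Function.Surjective f

end Pool.Agent.Lead.Lin
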