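import Pool.Agent.Lead.LipDefs

namespace Pool.Agent.Lead.Lip

open Finset

abbrev AV := Σ n : ℕ, Fin (n + 1)

def AG : SimpleGraph AV where
  Adj x y := y.1 = x.1 + 1 ∨ x.1 = y.1 + 1
  symm := ⟨fun _ _ h => h.symm⟩
  loopless := ⟨fun x h => by omega⟩

def shell (n : ℕ) : Finset AV := univ.map (Function.Embedding.sigmaMk n)
lemma mem_shell {n : ℕ} {y : AV} : y ∈ shell n ↔ y.1 = n := by
  obtain ⟨m, j⟩ := y
  simp only [shell, mem_map, mem_univ, true_and]
  exact ⟨fun ⟨a, h⟩ => (congrArg Sigma.fst h).symm, fun h => by subst h; exact ⟨j, rfl⟩⟩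
lemma card_shell (n : ℕ) : #(shell n) = n + 1 := by simp [shell]

noncomputable instance lf : AG.LocallyFinite := fun x =>
  Set.Finite.fintype ((shell (x.1 + 1) ∪ shell (x.1 - 1)).finite_toSet.subset fun y hy => by
    have : y.1 = x.1 + 1 ∨ x.1 = y.1 + 1 := hy
    simp only [coe_union, Set.mem_union, mem_coe, mem_shell]
    omega)

lemma nb0 (x : AV) (h : x.1 = 0) : AG.neighborFinset x = shell 1 := by
  ext y
  simp only [SimpleGraph.mem_neighborFinset, mem_shell, AG]
  omega
lemma nb1 (x : AV) (n : ℕ) (h : x.1 = n + 1) : AG.neighborFinset x = shell n ∪ shell (n + 2) := by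
  ext y
  simp only [SimpleGraph.mem_neighborFinset, mem_shell, AG, mem_union]
  omega
lemma disj (n : ℕ) : Disjoint (shell n) (shell (n + 2)) :=
  Finset.disjoint_left.2 fun y h1 h2 => by rw [mem_shell] at h1 h2; omega
lemma deg0 (x : AV) (h : x.1 = 0) : AG.degree x = 2 := by
  rw [← SimpleGraph.card_neighborFinset_eq_degree, nb0 x h, card_shell]
lemma deg1 (x : AV) (n : ℕ) (h : x.1 = n + 1) : AG.degree x = 2 * n + 4 := by
  rw [← SimpleGraph.card_neighborFinset_eq_degree, nb1 x n h, card_union_of_disjoint (disj n),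
    card_shell, card_shell]
  omega
lemma sum_shell (n : ℕ) (f : AV → ℝ) (c : ℝ) (h : ∀ y : AV, y.1 = n → f y = c) :
    ∑ y ∈ shell n, f y = (n + 1) * c := by
  rw [Finset.sum_congr rfl fun y hy => h y (mem_shell.1 hy)]
  simp [card_shell]

lemma AG_conn : AG.Connected := by
  have : ∀ n, ∀ x : AV, x.1 = n → AG.Reachable ⟨0, 0⟩ x := by
    intro n
    induction n with
    | zero =>
      rintro ⟨m, j⟩ (rfl : m = 0)
      rw [Subsingleton.elim (α := Fin 1) j 0]
    | succ n ih => exact fun x hx => (ih ⟨n, 0⟩ rfl).trans (SimpleGraph.Adj.reachable (Or.inl hx))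
  exact ⟨fun x y => (this _ x rfl).symm.trans (this _ y rfl)⟩

instance : Infinite AV := Infinite.of_injective (fun n : ℕ => (⟨n, 0⟩ : AV))
  fun _ _ h => congrArg Sigma.fst h

lemma AG_const (f : AV → ℝ) (hf : Harmonic AG f) (x y : AV) : f x = f y := by
  have h1 : ∀ x : AV, f x = f ⟨x.1, 0⟩ := by
    intro x
    rw [hf x, hf ⟨x.1, 0⟩]
    rcases h : x.1 with _ | n
    · rw [nb0 x h, deg0 x h, nb0 _ rfl, deg0 _ rfl]
    · rw [nb1 x n h, deg1 x n h, nb1 _ n rfl, deg1 _ n rfl]
  have h2 : ∀ n, ∑ y ∈ shell n, f y = (n + 1) * f ⟨n, 0⟩ := fun n =>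
    sum_shell n f _ fun y hy => by rw [h1 y, hy]
  have h3 : ∀ n, f ⟨n, 0⟩ = f ⟨0, 0⟩ ∧ f ⟨n + 1, 0⟩ = f ⟨0, 0⟩ := by
    intro n
    induction n with
    | zero =>
      have := hf ⟨0, 0⟩
      rw [nb0 _ rfl, deg0 _ rfl, h2] at this
      refine ⟨rfl, ?_⟩
      push_cast at this
      change f ⟨1, 0⟩ = _
      linarith
    | succ n ih =>
      have := hf ⟨n + 1, 0⟩
      rw [nb1 _ n rfl, deg1 _ n rfl, Finset.sum_union (disj n), h2, h2, ih.1, ih.2,
        eq_div_iff (by positivity)] at this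
      refine ⟨ih.2, mul_left_cancel₀ (show (n : ℝ) + 3 ≠ 0 by positivity) ?_⟩
      push_cast at this
      linear_combination -this
  rw [h1 x, h1 y, (h3 x.1).1, (h3 y.1).1]

lemma AG_trans : Transient AG ⟨0, 0⟩ := by
  have key : ∀ n, ∀ x : AV, hit AG ⟨0, 0⟩ n x ≤ 1 / (x.1 + 1) := by
    intro n
    induction n with
    | zero =>
      intro x
      simp only [hit]
      split_ifs with h
      · simp [h]
      · positivity
    | succ n ih =>
      intro x
      simp only [hit]
      split_ifs with h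
      · simp [h]
      · obtain ⟨m, j⟩ := x
        rcases m with _ | m
        · exact absurd (by rw [Subsingleton.elim (α := Fin 1) j 0]) h
        · refine (div_le_div_of_nonneg_right (Finset.sum_le_sum fun y _ => ih y)
            (Nat.cast_nonneg _)).trans (le_of_eq ?_)
          rw [nb1 _ m rfl, deg1 _ m rfl, Finset.sum_union (disj m),
            sum_shell m _ (1 / (m + 1)) fun y hy => by rw [hy],
            sum_shell (m + 2) _ (1 / ((m + 2 : ℕ) + 1)) fun y hy => by rw [hy]]
          push_cast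
          field_simp
          ring
  refine ⟨1 / 2, by norm_num, fun n => (div_le_div_of_nonneg_right
    (Finset.sum_le_sum fun y _ => key n y) (Nat.cast_nonneg _)).trans (le_of_eq ?_)⟩
  rw [nb0 _ rfl, deg0 _ rfl, sum_shell 1 _ (1 / 2) fun y hy => by rw [hy]; norm_num]
  norm_num

end Pool.Agent.Lead.Lip
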