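import Mathlib

namespace Pool.Agent.Lead.Lip

variable {V : Type} (G : SimpleGraph V) [G.LocallyFinite]

/-- mean value property for simple random walk -/
def Harmonic (f : V → ℝ) : Prop := ∀ x, f x = (∑ y ∈ G.neighborFinset x, f y) / G.degree x

open Classical in
/-- probability that simple random walk started at x visits o within n steps -/
noncomputable def hit (o : V) : ℕ → V → ℝ
  | 0, x => if x = o then 1 else 0
  | n + 1, x => if x = o then 1 else (∑ y ∈ G.neighborFinset x, hit o n y) / G.degree x

/-- the walk from o returns to o with probability less than one -/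
def Transient (o : V) : Prop :=
  ∃ c : ℝ, c < 1 ∧ ∀ n, (∑ y ∈ G.neighborFinset o, hit G o n y) / G.degree o ≤ c

end Pool.Agent.Lead.Lip
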