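import Pool.Agent.Lead.LipDefs

namespace Pool.Agent.Lead.Lip

open Finset Classical

variable {V : Type} {G : SimpleGraph V} [G.LocallyFinite]

lemma dirichlet (W : Finset V) (A : Set V) : ∃ u : V → ℝ, (∀ x, 0 ≤ u x ∧ u x ≤ 1) ∧
    (∀ x ∈ W, u x = (∑ y ∈ G.neighborFinset x, u y) / G.degree x) ∧
    (∀ x ∉ W, u x = if x ∈ A then 1 else 0) := by
  let T : (V → unitInterval) →o (V → unitInterval) :=
    ⟨fun u x => if x ∈ W then ⟨(∑ y ∈ G.neighborFinset x, (u y : ℝ)) / G.degree x,
      div_nonneg (Finset.sum_nonneg fun y _ => (u y).2.1) (Nat.cast_nonneg _),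
      div_le_one_of_le₀ (by
        simpa using Finset.sum_le_card_nsmul (G.neighborFinset x) (fun y => (u y : ℝ)) 1
          fun y _ => (u y).2.2) (Nat.cast_nonneg _)⟩ else if x ∈ A then 1 else 0, by
      intro u v h x
      dsimp only
      split_ifs
      · exact Subtype.mk_le_mk.2 (div_le_div_of_nonneg_right
          (Finset.sum_le_sum fun y _ => h y) (Nat.cast_nonneg _))
      · exact le_rfl
      · exact le_rfl⟩
  have h := T.map_lfp
  refine ⟨fun x => T.lfp x, fun x => (T.lfp x).2, fun x hx => ?_, fun x hx => ?_⟩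
  · have := congrArg Subtype.val (congrFun h x)
    simp only [T, OrderHom.coe_mk, hx, if_true] at this
    exact this.symm
  · have := congrArg Subtype.val (congrFun h x)
    simp only [T, OrderHom.coe_mk, hx, if_false] at this
    refine this.symm.trans ?_
    split_ifs <;> rfl

noncomputable def flux (G : SimpleGraph V) [G.LocallyFinite] (K : Finset V) (A : Set V)
    (v : V → ℝ) : ℝ :=
  ∑ b ∈ K, ∑ a ∈ G.neighborFinset b, if a ∈ A ∧ b ∉ A then v a - v b else 0

lemma approx (hc : G.Connected) (K W : Finset V) (hKW : K ⊆ W) (A : Set V)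
    (hA : ∀ a ∈ A, ∀ b, G.Adj a b → b ∉ K → b ∈ A) (h1 : A.Infinite) (h2 : Aᶜ.Infinite) (o : V) :
    ∃ v : V → ℝ, v o = 0 ∧ (∀ x y, G.Adj x y → v x - v y ≤ 1) ∧ flux G K A v = 1 ∧
      ∀ x ∈ W, G.degree x * v x = ∑ y ∈ G.neighborFinset x, v y := by
  obtain ⟨u, hu, hW, hB⟩ := dirichlet (G := G) W A
  obtain ⟨a0, ha0, ha0W⟩ := h1.exists_notMem_finset W
  obtain ⟨b0, hb0, hb0W⟩ := h2.exists_notMem_finset W
  have hH : ∀ x ∈ W, G.degree x * u x = ∑ y ∈ G.neighborFinset x, u y := by
    intro x hx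
    by_cases hd : G.degree x = 0
    · have : G.neighborFinset x = ∅ := card_eq_zero.1 hd
      simp [hd, this]
    · rw [hW x hx]; field_simp
  set U := W ∪ W.biUnion fun x => G.neighborFinset x with hU
  have hU1 : ∀ x ∈ W, x ∈ U := fun x hx => mem_union_left _ hx
  have hU2 : ∀ x ∈ W, ∀ y, G.Adj x y → y ∈ U := fun x hx y h =>
    mem_union_right _ (mem_biUnion.2 ⟨x, hx, by simpa using h⟩)
  let Φ : Set V → ℝ := fun S => ∑ a ∈ U, ∑ b ∈ U, if G.Adj a b ∧ a ∈ S then u a - u b else 0
  have L1 : ∀ S, Φ S = ∑ a ∈ U, ∑ b ∈ U, if G.Adj a b ∧ a ∈ S ∧ b ∉ S then u a - u b else 0 := by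
    intro S
    have e : ∑ a ∈ U, ∑ b ∈ U, (if G.Adj a b ∧ a ∈ S ∧ b ∈ S then u a - u b else 0)
        = -∑ a ∈ U, ∑ b ∈ U, if G.Adj a b ∧ a ∈ S ∧ b ∈ S then u a - u b else 0 := by
      conv_lhs => rw [Finset.sum_comm]
      simp only [← Finset.sum_neg_distrib]
      refine Finset.sum_congr rfl fun a _ => Finset.sum_congr rfl fun b _ => ?_
      simp only [G.adj_comm b a, and_comm (a := b ∈ S)]
      split_ifs <;> simp
    have e2 : Φ S = ∑ a ∈ U, ∑ b ∈ U, (if G.Adj a b ∧ a ∈ S ∧ b ∉ S then u a - u b else 0)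
        + ∑ a ∈ U, ∑ b ∈ U, if G.Adj a b ∧ a ∈ S ∧ b ∈ S then u a - u b else 0 := by
      simp only [Φ, ← Finset.sum_add_distrib]
      refine Finset.sum_congr rfl fun a _ => Finset.sum_congr rfl fun b _ => ?_
      by_cases h1 : G.Adj a b <;> by_cases h2 : a ∈ S <;> by_cases h3 : b ∈ S <;> simp [*]
    linarith
  have L2 : ∀ S, (∀ x ∉ W, x ∈ S ↔ x ∈ A) → Φ S = Φ A := by
    intro S hS
    refine Finset.sum_congr rfl fun a _ => ?_
    by_cases ha : a ∈ W
    · have : ∑ b ∈ U, (if G.Adj a b then u a - u b else 0) = 0 := by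
        rw [← Finset.sum_filter, show U.filter (G.Adj a) = G.neighborFinset a from by
          ext b; simpa using hU2 a ha b, Finset.sum_sub_distrib, ← hH a ha]
        simp
      by_cases h2 : a ∈ S <;> by_cases h3 : a ∈ A <;> simp [h2, h3, this]
    · simp only [hS a ha]
  have L3 : Φ A = flux G K A u := by
    rw [L1, Finset.sum_comm, flux, ← Finset.sum_subset (s₁ := K) (fun b hb => hU1 b (hKW hb))]
    · refine Finset.sum_congr rfl fun b hb => ?_
      rw [← Finset.sum_subset (s₁ := G.neighborFinset b)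
        (fun a ha => hU2 b (hKW hb) a (by simpa using ha))]
      · exact Finset.sum_congr rfl fun a ha => by
          simp [(G.mem_neighborFinset b a).1 ha |>.symm]
      · intro a _ ha
        rw [if_neg fun h => ha (by simpa using h.1.symm)]
    · intro b _ hb
      exact Finset.sum_eq_zero fun a _ => if_neg fun h => h.2.2 (hA a h.2.1 b h.1 hb)
  have L4 : ∀ x y, G.Adj x y → u y < u x → u x - u y ≤ flux G K A u := by
    intro x y hxy hlt
    have hS : ∀ z ∉ W, z ∈ {z | u x ≤ u z} ↔ z ∈ A := by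
      intro z hz
      have e1 := hB z hz
      have e2 := (hu x).2
      have e3 := (hu y).1
      by_cases hzA : z ∈ A
      · simp [hzA, e1, e2]
      · simp only [hzA, e1, if_false, Set.mem_ofPred_eq, iff_false]
        linarith
    have hxU : x ∈ U ∧ y ∈ U := by
      by_cases hx : x ∈ W
      · exact ⟨hU1 x hx, hU2 x hx y hxy⟩
      by_cases hy : y ∈ W
      · exact ⟨hU2 y hy x hxy.symm, hU1 y hy⟩
      have h3 : x ∈ A := (hS x hx).1 (le_refl (u x))
      exact absurd ((hS y hy).2 (hA x h3 y hxy fun h => hy (hKW h))) (not_le.2 hlt)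
    rw [← L3, ← L2 _ hS, L1]
    have nn : ∀ a b, 0 ≤ if G.Adj a b ∧ a ∈ {z | u x ≤ u z} ∧ b ∉ {z | u x ≤ u z}
        then u a - u b else 0 := by
      intro a b
      split_ifs with h
      · have h3 : u x ≤ u a := h.2.1
        have h4 : ¬ u x ≤ u b := h.2.2
        linarith
      · exact le_rfl
    refine le_trans ?_ (Finset.single_le_sum (fun a _ => Finset.sum_nonneg fun b _ => nn a b) hxU.1)
    refine le_trans ?_ (Finset.single_le_sum (fun b _ => nn x b) hxU.2)
    rw [if_pos ⟨hxy, le_refl (u x), not_le.2 hlt⟩]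
  have hI : 0 < flux G K A u := by
    by_contra hI
    have h3 : ∀ x y, G.Adj x y → u x = u y := fun x y h =>
      le_antisymm (not_lt.1 fun h' => by linarith [L4 x y h h'])
        (not_lt.1 fun h' => by linarith [L4 y x h.symm h'])
    have h4 : ∀ x y (p : G.Walk x y), u x = u y := by
      intro x y p
      induction p with
      | nil => rfl
      | cons h _ ih => exact (h3 _ _ h).trans ih
    obtain ⟨p⟩ := hc a0 b0
    have := h4 _ _ p
    rw [hB a0 ha0W, hB b0 hb0W, if_pos ha0, if_neg hb0] at this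
    exact one_ne_zero this
  refine ⟨fun x => (u x - u o) / flux G K A u, by simp, fun x y h => ?_, ?_, fun x hx => ?_⟩
  · rw [← sub_div, div_le_one hI]
    rcases lt_or_ge (u y) (u x) with h' | h'
    · linarith [L4 x y h h']
    · linarith
  · have e : ∀ I : ℝ, flux G K A (fun x => (u x - u o) / I) = flux G K A u / I := by
      intro I
      simp only [flux, Finset.sum_div]
      refine Finset.sum_congr rfl fun b _ => Finset.sum_congr rfl fun a _ => ?_
      split_ifs
      · ring
      · simp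
    rw [e, div_self hI.ne']
  · rw [← Finset.sum_div, Finset.sum_sub_distrib, ← hH x hx]
    simp
    ring

theorem two_ends (hc : G.Connected) (K : Finset V) (A : Set V)
    (hA : ∀ a ∈ A, ∀ b, G.Adj a b → b ∉ K → b ∈ A) (h1 : A.Infinite) (h2 : Aᶜ.Infinite) :
    ∃ f : V → ℝ, Harmonic G f ∧ (∀ x y, |f x - f y| ≤ G.dist x y) ∧ ∃ x y, f x ≠ f y := by
  obtain ⟨o⟩ := hc.nonempty
  have walk : ∀ v : V → ℝ, (∀ x y, G.Adj x y → v x - v y ≤ 1) → ∀ x y, |v x - v y| ≤ G.dist x y := by
    intro v hv x y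
    obtain ⟨p, hp⟩ := hc.exists_walk_length_eq_dist x y
    rw [← hp]
    clear hp
    induction p with
    | nil => simp
    | cons h p ih =>
      have := hv _ _ h
      have := hv _ _ h.symm
      rw [abs_le] at ih ⊢
      simp only [SimpleGraph.Walk.length_cons, Nat.cast_add, Nat.cast_one]
      constructor <;> linarith [ih.1, ih.2]
  let C : Set (V → ℝ) := {v | v o = 0} ∩ ((⋂ p : {p : V × V // G.Adj p.1 p.2},
    {v | v p.1.1 - v p.1.2 ≤ 1}) ∩ {v | flux G K A v = 1})
  have hC : IsCompact C := by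
    refine (isCompact_univ_pi fun x => isCompact_Icc (a := -(G.dist x o : ℝ))
      (b := G.dist x o)).of_isClosed_subset ((isClosed_eq (by fun_prop) continuous_const).inter
      ((isClosed_iInter fun p => isClosed_le (by fun_prop) continuous_const).inter
      (isClosed_eq ?_ continuous_const))) ?_
    · refine continuous_finsetSum _ fun b _ => continuous_finsetSum _ fun a _ => ?_
      split_ifs <;> fun_prop
    · rintro v ⟨h0, h3, -⟩ x -
      have := walk v (fun x y h => Set.mem_iInter.1 h3 ⟨(x, y), h⟩) x o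
      rw [show v o = 0 from h0, sub_zero] at this
      exact abs_le.1 this
  obtain ⟨f, ⟨-, h3, h4⟩, h5⟩ := hC.inter_iInter_nonempty
    (fun x => {v | G.degree x * v x = ∑ y ∈ G.neighborFinset x, v y})
    (fun x => isClosed_eq (by fun_prop) (by fun_prop)) (fun W => by
      obtain ⟨v, h0, h3, h4, h5⟩ := approx hc K (K ∪ W) subset_union_left A hA h1 h2 o
      exact ⟨v, ⟨h0, Set.mem_iInter.2 fun p => h3 _ _ p.2, h4⟩,
        Set.mem_iInter₂.2 fun x hx => h5 x (mem_union_right _ hx)⟩)
  refine ⟨f, fun x => ?_, walk f fun x y h => Set.mem_iInter.1 h3 ⟨(x, y), h⟩, ?_⟩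
  · have h6 : G.degree x * f x = _ := Set.mem_iInter.1 h5 x
    have : Infinite V := Set.infinite_univ_iff.1 (h1.mono (Set.subset_univ _))
    have : 0 < G.degree x := hc.preconnected.degree_pos_of_nontrivial x
    rw [← h6]; field_simp
  · by_contra hcon
    push Not at hcon
    have : flux G K A f = 0 := Finset.sum_eq_zero fun b _ => Finset.sum_eq_zero fun a _ => by
      simp [hcon a b]
    exact zero_ne_one (this.symm.trans h4)

end Pool.Agent.Lead.Lip
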