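import Mathlib

/-! Mathias-type theorem for level-wise nearly almost disjoint continuous families. -/
namespace Pool.Agent.Lead.Mad
open Set Classical TopologicalSpace

variable {α : Type} (T : α → ℕ → Set ℕ)

/-- the ideal generated by the sets `T A l` and the finite sets -/
def J (X : Set ℕ) : Prop := ∃ (F : Finset α) (l : ℕ), (X \ ⋃ A ∈ F, T A l).Finite

variable {T}

lemma J_of_fin {X : Set ℕ} (h : X.Finite) : J T X := ⟨∅, 0, h.subset sdiff_subset⟩

lemma J.mono {X Y : Set ℕ} (h : J T Y) (hX : (X \ Y).Finite) : J T X := by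
  obtain ⟨F, l, h⟩ := h
  exact ⟨F, l, (h.union hX).subset fun x hx => by by_cases a : x ∈ Y <;> simp_all⟩

lemma J.union (hm : ∀ A, Monotone (T A)) {X Y : Set ℕ} (h : J T X) (h' : J T Y) :
    J T (X ∪ Y) := by
  obtain ⟨F, l, h⟩ := h
  obtain ⟨G, k, h'⟩ := h'
  refine ⟨F ∪ G, max l k, (h.union h').subset fun x hx => ?_⟩
  simp only [mem_sdiff, mem_union, mem_iUnion, not_exists, Finset.mem_union] at hx ⊢
  exact hx.1.imp (fun a => ⟨a, fun A hA b => hx.2 A (Or.inl hA) (hm A (le_max_left _ _) b)⟩)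
    fun a => ⟨a, fun A hA b => hx.2 A (Or.inr hA) (hm A (le_max_right _ _) b)⟩

lemma J_gen (F : Finset α) (l) : J T (⋃ A ∈ F, T A l) := ⟨F, l, by simp⟩

lemma J.diff (hm : ∀ A, Monotone (T A)) {X Y : Set ℕ} (h : ¬ J T X) (h' : J T Y) :
    ¬ J T (X \ Y) := fun c => h ((c.union hm h').mono (by simp [sdiff_eq_empty.2]))

lemma pseudo (X : ℕ → Set ℕ) (ha : Antitone X) (hi : ∀ n, (X n).Infinite) :
    ∃ Y : Set ℕ, Y.Infinite ∧ ∀ n, (Y \ X n).Finite := by
  choose g hg hg' using fun n => (hi n).exists_gt n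
  refine ⟨range g, infinite_of_not_bddAbove fun ⟨b, hb⟩ =>
    absurd (hb (mem_range_self b)) (not_le.2 (hg' b)), fun n => ((finite_Iio n).image g).subset ?_⟩
  rintro _ ⟨⟨m, rfl⟩, h⟩
  exact ⟨m, lt_of_not_ge fun c => h (ha c (hg m)), rfl⟩

/-- a decreasing sequence obtained by successive refinement -/
lemma chain (H : Set ℕ → Prop) (P : ℕ → Set ℕ → Prop) (h : ∀ n X, H X → ∃ Y ⊆ X, H Y ∧ P n Y)
    {Z} (hZ : H Z) : ∃ X : ℕ → Set ℕ, Antitone X ∧ X 0 = Z ∧ ∀ n, H (X n) ∧ P n (X (n + 1)) := by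
  choose! g h1 h2 h3 using h
  let X : ℕ → Set ℕ := fun n => Nat.rec Z g n
  have hH : ∀ n, H (X n) := fun n => by
    induction n with
    | zero => exact hZ
    | succ n ih => exact h2 n _ ih
  exact ⟨X, antitone_nat_of_succ_le fun n => h1 n _ (hH n), rfl, fun n => ⟨hH n, h3 n _ (hH n)⟩⟩

variable (hN : ∀ l, ∃ N, ∀ F : Finset α, F.card = N → (⋂ A ∈ F, T A l).Finite)
include hN

lemma thin1 (l) (Z : Set ℕ) (hZ : Z.Infinite) :
    ∃ Y ⊆ Z, Y.Infinite ∧ ∃ F : Finset α, ∀ A ∉ F, (Y ∩ T A l).Finite := by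
  by_contra hc
  push Not at hc
  obtain ⟨N, hN⟩ := hN l
  have : ∀ r, ∃ F : Finset α, F.card = r ∧ (Z ∩ ⋂ A ∈ F, T A l).Infinite := by
    intro r
    induction r with
    | zero => exact ⟨∅, rfl, by simpa⟩
    | succ r ih =>
      obtain ⟨F, h1, h2⟩ := ih
      obtain ⟨A, hA, h3⟩ := hc _ inter_subset_left h2 F
      refine ⟨insert A F, by rw [Finset.card_insert_of_notMem hA, h1], ?_⟩
      rwa [Finset.set_biInter_insert, inter_comm (T A l), ← inter_assoc]
  obtain ⟨F, h1, h2⟩ := this N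
  exact h2 ((hN F h1).subset inter_subset_right)

lemma thin (Z : Set ℕ) (hZ : Z.Infinite) : ∃ Y : Set ℕ, Y.Infinite ∧ (Y \ Z).Finite ∧
    ∃ F : ℕ → Finset α, ∀ l, ∀ A ∉ F l, (Y ∩ T A l).Finite := by
  obtain ⟨X, h1, h2, h3⟩ := chain Set.Infinite _ (thin1 hN) hZ
  obtain ⟨Y, h4, h5⟩ := pseudo X h1 fun n => (h3 n).1
  choose F hF using fun n => (h3 n).2
  refine ⟨Y, h4, h2 ▸ h5 0, F, fun l A hA => ((hF l A hA).union (h5 (l + 1))).subset ?_⟩
  intro x hx
  by_cases a : x ∈ X (l + 1) <;> simp_all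

lemma pplus (hm : ∀ A, Monotone (T A)) (X : ℕ → Set ℕ) (ha : Antitone X) (hX : ∀ n, ¬ J T (X n)) :
    ∃ Y, ¬ J T Y ∧ ∀ n, (Y \ X n).Finite := by
  have step : ∀ (G : Finset α) (l : ℕ), ∃ Y : Set ℕ, Y.Infinite ∧ (∀ n, (Y \ X n).Finite) ∧
      (∀ A ∈ G, (Y ∩ T A l).Finite) ∧ ∃ F : ℕ → Finset α, ∀ l, ∀ A ∉ F l, (Y ∩ T A l).Finite := by
    intro G l
    obtain ⟨Z, h1, h2⟩ := pseudo (fun n => X n \ ⋃ A ∈ G, T A l)
      (fun a b h => sdiff_subset_sdiff_left (ha h)) fun n h => hX n ⟨G, l, h⟩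
    obtain ⟨Y, h3, h4, h5⟩ := thin hN Z h1
    refine ⟨Y, h3, fun n => (h4.union (h2 n)).subset fun x hx => ?_,
      fun A hA => (h4.union (h2 0)).subset fun x hx => ?_, h5⟩
    · by_cases a : x ∈ Z <;> simp_all
    · by_cases a : x ∈ Z
      · exact Or.inr ⟨a, fun c => c.2 (mem_biUnion hA hx.2)⟩
      · exact Or.inl ⟨hx.1, a⟩
  choose Y y1 y2 y3 F y4 using step
  let G : ℕ → ℕ → Finset α := fun i => Nat.rec (fun _ => ∅) (fun i g l => g l ∪ F (g i) i l) i
  have hG : ∀ i j l, i < j → F (G i i) i l ⊆ G j l := by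
    intro i j l h
    induction h with
    | refl => exact Finset.subset_union_right
    | step _ ih => exact ih.trans Finset.subset_union_left
  refine ⟨⋃ i, Y (G i i) i ∩ X i, ?_, fun n => ?_⟩
  · rintro ⟨E, k, h⟩
    have bad : ∀ A, {i | (Y (G i i) i ∩ T A k).Infinite}.Finite := by
      intro A
      rcases eq_empty_or_nonempty {i | (Y (G i i) i ∩ T A k).Infinite} with e | ⟨i, hi⟩
      · simp [e]
      refine (finite_Iic (max i k)).subset fun j hj => by_contra fun c => ?_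
      have c' : max i k < j := not_le.1 c
      have hk := hm A (((le_max_right i k).trans_lt c').le)
      refine hj ((y3 _ j A (hG i j j ((le_max_left i k).trans_lt c') (by_contra fun d => ?_))).subset
        (inter_subset_inter_right _ hk))
      exact hi ((y4 _ _ j A d).subset (inter_subset_inter_right _ hk))
    obtain ⟨i, -, hi⟩ := infinite_univ.exists_notMem_finite (E.finite_toSet.biUnion fun A _ => bad A)
    refine y1 (G i i) i (((h.union (y2 (G i i) i i)).union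
      (E.finite_toSet.biUnion fun A hA => (not_infinite.1 fun c =>
        hi (mem_biUnion hA c) : (Y (G i i) i ∩ T A k).Finite))).subset fun x hx => ?_)
    by_cases a : x ∈ X i
    · by_cases b : x ∈ ⋃ A ∈ E, T A k
      · obtain ⟨A, hA, b⟩ := mem_iUnion₂.1 b
        exact Or.inr (mem_biUnion hA ⟨hx, b⟩)
      · exact Or.inl (Or.inl ⟨mem_iUnion.2 ⟨i, hx, a⟩, b⟩)
    · exact Or.inl (Or.inr ⟨hx, a⟩)
  · refine ((finite_Iio n).biUnion fun i _ => y2 (G i i) i n).subset fun x ⟨hx, c⟩ => ?_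
    obtain ⟨i, a, b⟩ := mem_iUnion.1 hx
    exact mem_biUnion (show i < n from lt_of_not_ge fun d => c (ha d b)) ⟨a, c⟩

theorem main (hm : ∀ A, Monotone (T A)) (hU : ¬ J T univ) [TopologicalSpace α] [T2Space α]
    (f : (ℕ → ℕ) → α) (hf : Continuous f) (ho : ∀ l t, IsOpen {A | t ∈ T A l}) :
    ∃ Y : Set ℕ, Y.Infinite ∧ ∀ x l, (Y ∩ T (f x) l).Finite := by
  let Av : ℕ × Set (ℕ → ℕ) → Set ℕ → Prop := fun p X => ∀ y ∈ p.2, (X ∩ T (f y) p.1).Finite
  obtain ⟨e, he⟩ := (countable_univ.prod (countable_countableBasis (ℕ → ℕ))).exists_eq_range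
    (s := (univ : Set ℕ) ×ˢ countableBasis (ℕ → ℕ))
    (univ_nonempty.prod (by
      obtain ⟨U, hU, -⟩ := (isBasis_countableBasis (ℕ → ℕ)).exists_subset_of_mem_open
        (mem_univ 0) isOpen_univ
      exact ⟨U, hU⟩))
  obtain ⟨X, h1, -, h3⟩ := chain (fun X => ¬ J T X)
    (fun n Y => Av (e n) Y ∨ ∀ Z ⊆ Y, ¬ J T Z → ¬ Av (e n) Z) (fun n X hX => by
      by_cases c : ∃ Z ⊆ X, ¬ J T Z ∧ Av (e n) Z
      · obtain ⟨Z, a, b, c⟩ := c
        exact ⟨Z, a, b, Or.inl c⟩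
      · exact ⟨X, le_rfl, hX, Or.inr fun Z a b d => c ⟨Z, a, b, d⟩⟩) hU
  obtain ⟨Y, hY, h4⟩ := pplus hN hm X h1 fun n => (h3 n).1
  refine ⟨Y, fun h => hY (J_of_fin h), fun x0 l => by_contra fun h0 => ?_⟩
  let G := {y | (Y ∩ T (f y) l).Infinite}
  have key : ∀ U, IsOpen U → (U ∩ G).Nonempty → J T (Y \ {t | ∃ y ∈ U ∩ G, t ∈ T (f y) l}) := by
    rintro U hU ⟨x, xU, xG⟩
    obtain ⟨W, hW, xW, sW⟩ := (isBasis_countableBasis _).exists_subset_of_mem_open xU hU
    obtain ⟨n, hn⟩ : (l, W) ∈ range e := he ▸ ⟨trivial, hW⟩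
    by_contra c
    rcases (h3 n).2 with d | d <;> rw [hn] at d
    · refine xG (((d x xW).union (h4 (n + 1))).subset fun t ht => ?_)
      by_cases a : t ∈ X (n + 1) <;> simp_all
    · refine d (X (n + 1) ∩ (Y \ {t | ∃ y ∈ U ∩ G, t ∈ T (f y) l})) inter_subset_left
        (fun j => c (j.mono ((h4 (n + 1)).subset fun t ht => ⟨ht.1.1, fun a => ht.2 ⟨a, ht.1⟩⟩)))
        fun y hy => by_contra fun a => ?_
      obtain ⟨t, ht⟩ := Set.Infinite.nonempty a
      exact ht.1.2.2 ⟨y, ⟨sW hy, Set.Infinite.mono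
        (inter_subset_inter_left _ (inter_subset_right.trans sdiff_subset)) a⟩, ht.2⟩
  obtain ⟨N, hN⟩ := hN l
  have dist : ∀ r, ∃ z : Fin r → ℕ → ℕ, (∀ i, z i ∈ G) ∧ Function.Injective (f ∘ z) := by
    intro r
    induction r with
    | zero => exact ⟨Fin.elim0, fun i => i.elim0, fun i => i.elim0⟩
    | succ r ih =>
      obtain ⟨z, a, b⟩ := ih
      have := J.diff hm (J.diff hm hY (key univ isOpen_univ ⟨x0, trivial, h0⟩))
        (J_gen (Finset.univ.image (f ∘ z)) l)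
      obtain ⟨t, ⟨c, d⟩, g⟩ := Set.Infinite.nonempty fun h => this (J_of_fin h)
      obtain ⟨y, hy, ht⟩ : ∃ y ∈ univ ∩ G, t ∈ T (f y) l := by_contra fun k => d ⟨c, k⟩
      refine ⟨Fin.cons y z, Fin.cases hy.2 a, ?_⟩
      rw [Fin.comp_cons, Fin.cons_injective_iff]
      exact ⟨fun ⟨i, hi⟩ => g (mem_biUnion (Finset.mem_image_of_mem _ (Finset.mem_univ i))
        (hi ▸ ht)), b⟩
  obtain ⟨z0, z1, z2⟩ := dist N
  let S : Set (Fin N → ℕ → ℕ) := univ.pi fun _ => closure G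
  haveI : PolishSpace S := (isClosed_set_pi fun _ _ => isClosed_closure).polishSpace
  have dn := dense_iInter_of_isOpen (X := S)
    (f := fun b : ℕ => Subtype.val ⁻¹' {z | ∃ t > b, ∀ i, t ∈ T (f (z i)) l}) (fun b => by
      refine IsOpen.preimage continuous_subtype_val ?_
      simp only [ofPred_exists, ofPred_and, ofPred_forall]
      exact isOpen_iUnion fun t => isOpen_const.inter (isOpen_iInter_of_finite fun i =>
        (ho l t).preimage (hf.comp (continuous_apply i)))) (fun b => by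
      refine dense_iff_inter_open.2 ?_
      rintro _ ⟨U, hU, rfl⟩ ⟨z, hz⟩
      obtain ⟨u, u1, u2⟩ := isOpen_pi_iff'.1 hU z hz
      have k := fun i => key (u i) (u1 i).1 (mem_closure_iff.1 (z.2 i trivial) _ (u1 i).1 (u1 i).2)
      have : ∀ s : Finset (Fin N),
          ¬ J T (Y ∩ ⋂ i ∈ s, {t | ∃ y ∈ u i ∩ G, t ∈ T (f y) l}) := by
        intro s
        induction s using Finset.induction_on with
        | empty => simpa
        | insert i s _ ih =>
          refine fun c => J.diff hm ih (k i) (c.mono (Set.Finite.subset finite_empty ?_))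
          rw [Finset.set_biInter_insert]
          exact fun t ⟨⟨a, b⟩, d⟩ => d ⟨a.1, by_contra fun g => b ⟨a.1, g⟩, a.2⟩
      obtain ⟨t, ht, hb⟩ := Set.Infinite.exists_gt
        (fun h => this Finset.univ (J_of_fin h)) b
      choose y y1 y2 using fun i => mem_iInter₂.1 ht.2 i (Finset.mem_univ i)
      exact ⟨⟨y, fun i _ => subset_closure (y1 i).2⟩, u2 fun i _ => (y1 i).1, t, hb, y2⟩)
  have op : IsOpen {z : Fin N → ℕ → ℕ | Function.Injective (f ∘ z)} := by
    have : {z : Fin N → ℕ → ℕ | Function.Injective (f ∘ z)} =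
        ⋂ i, ⋂ j, ⋂ _ : i ≠ j, {z | f (z i) ≠ f (z j)} := by
      ext z
      simp only [mem_ofPred_eq, mem_iInter]
      exact ⟨fun h i j a b => a (h b), fun h i j b => by_contra fun a => h i j a b⟩
    rw [this]
    exact isOpen_iInter_of_finite fun i => isOpen_iInter_of_finite fun j =>
      isOpen_iInter_of_finite fun _ => isOpen_ne_fun (hf.comp (continuous_apply i))
        (hf.comp (continuous_apply j))
  obtain ⟨z, a, b⟩ := dn.inter_open_nonempty _ (op.preimage continuous_subtype_val)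
    ⟨⟨z0, fun i _ => subset_closure (z1 i)⟩, z2⟩
  refine infinite_of_not_bddAbove (fun ⟨c, hc⟩ => ?_) (hN (Finset.univ.image (f ∘ z.1))
    (by rw [Finset.card_image_of_injective _ a]; simp))
  obtain ⟨t, h5, h6⟩ := mem_iInter.1 b c
  refine absurd (hc (mem_iInter₂.2 fun A hA => ?_)) (not_le.2 h5)
  obtain ⟨i, -, rfl⟩ := Finset.mem_image.1 hA
  exact h6 i

end Pool.Agent.Lead.Mad
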