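import Pool.Agent.Lead.MixDefs

namespace Pool.Agent.Lead.Mix

open Finset MvPolynomial
open scoped ComplexOrder

lemma eta_two {R : Type} [CommRing R] {m : ℕ} (A : Fin m → Matrix (Fin 2) (Fin 2) R) :
    eta A = (∑ j, A j 0 0) * (∑ j, A j 1 1) - ∑ j, A j 0 1 * A j 1 0 := by
  have h : ∀ σ : Fin 2 → Fin m, ∏ j : Fin m,
      ((A j).submatrix (fun i : {i : Fin 2 // σ i = j} => i.1) (fun i => i.1)).det
      = A (σ 0) 0 0 * A (σ 1) 1 1 - if σ 0 = σ 1 then A (σ 0) 0 1 * A (σ 0) 1 0 else 0 := by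
    intro σ
    let N : Matrix (Fin 2) (Fin 2) R := Matrix.of fun i i' => if σ i = σ i' then A (σ i) i i' else 0
    have hN : N.BlockTriangular σ := fun i i' h => by simp [N, h.ne']
    have h1 := hN.det_fintype
    have h2 : ∀ j, N.toSquareBlock σ j
        = (A j).submatrix (fun i : {i : Fin 2 // σ i = j} => i.1) (fun i => i.1) := by
      intro j
      ext ⟨i, hi⟩ ⟨i', hi'⟩
      simp [Matrix.toSquareBlock_def, N, hi, hi']
    simp only [h2] at h1
    rw [← h1, Matrix.det_fin_two]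
    by_cases h : σ 0 = σ 1
    · simp [N, h]
    · simp [N, h]
  simp only [eta, h]
  rw [← (piFinTwoEquiv fun _ => Fin m).symm.sum_comp, Fintype.sum_prod_type]
  simp [Finset.sum_mul_sum]

noncomputable section

def t (k : Fin 7) : ℝ := (k : ℝ) - 3
def dd (k : Fin 7) : ℝ := 100 - t k ^ 2 - t k ^ 4
lemma dd_pos (k : Fin 7) : 0 < dd k := by fin_cases k <;> norm_num [dd, t]
lemma t_inj {k l : Fin 7} (h : k ≠ l) : t k - t l ≠ 0 := by
  intro h'
  exact h (Fin.ext (by simpa [t, sub_eq_zero] using h'))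

def S (i : ℕ) (x : Fin 7 → ℝ) : ℝ := ∑ k, t k ^ i * x k
def B (x y : Fin 7 → ℝ) : ℝ :=
  100 * S 0 x * S 0 y - S 1 x * S 1 y - S 2 x * S 2 y - ∑ k, dd k * x k * y k

def ff : MvPolynomial (Fin 7) ℝ :=
  C 100 * (∑ k, X k) ^ 2 - (∑ k, C (t k) * X k) ^ 2 - (∑ k, C (t k ^ 2) * X k) ^ 2
    - ∑ k, C (dd k) * X k ^ 2

lemma rcs (x y : Fin 7 → ℝ) (hy : 0 < B y y) (hxy : B x y = 0) (hx : 0 ≤ B x x) : x = 0 := by
  let w : Fin 7 → ℝ := fun k => S 0 y * x k - S 0 x * y k
  have e : S 0 y ^ 2 * B x x + S 0 x ^ 2 * B y y - 2 * S 0 x * S 0 y * B x y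
      + (S 1 w ^ 2 + S 2 w ^ 2 + ∑ k, dd k * w k ^ 2) = 0 := by
    simp only [B, S, w, Fin.sum_univ_seven]; ring
  have hd : ∀ z : Fin 7 → ℝ, ∀ k ∈ univ, 0 ≤ dd k * z k ^ 2 := fun z k _ =>
    mul_nonneg (dd_pos k).le (sq_nonneg _)
  have h1 := Finset.sum_nonneg (hd w)
  have h2 : S 0 y ≠ 0 := by
    intro h
    have := Finset.sum_nonneg (hd y)
    have e2 : B y y = -(S 1 y ^ 2 + S 2 y ^ 2 + ∑ k, dd k * y k ^ 2) := by
      simp only [B, h, Fin.sum_univ_seven]; ring
    nlinarith [sq_nonneg (S 1 y), sq_nonneg (S 2 y)]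
  have h3 := mul_nonneg (sq_nonneg (S 0 y)) hx
  have h4 := mul_nonneg (sq_nonneg (S 0 x)) hy.le
  have h5 := sq_nonneg (S 1 w)
  have h6 := sq_nonneg (S 2 w)
  rw [hxy] at e
  have h7 : S 0 x = 0 := by
    have : S 0 x ^ 2 * B y y = 0 := by linarith
    simpa [hy.ne'] using this
  have h8 := (Finset.sum_eq_zero_iff_of_nonneg (hd w)).1 (by linarith)
  funext k
  simpa [w, h7, h2, (dd_pos k).ne'] using h8 k (mem_univ k)

def Q (k l : Fin 7) : ℝ := if k = l then 0 else 100 - t k * t l - t k ^ 2 * t l ^ 2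

lemma Q_comm (k l : Fin 7) : Q l k = Q k l := by
  simp only [Q, eq_comm (a := l)]; split_ifs <;> ring
lemma Q_nonneg (k l : Fin 7) : 0 ≤ Q k l := by
  fin_cases k <;> fin_cases l <;> norm_num [Q, t]
lemma Q_pos {k l : Fin 7} (h : k ≠ l) : 0 < Q k l := by
  fin_cases k <;> fin_cases l <;> first | exact absurd rfl h | norm_num [Q, t]

lemma B_eq (x y : Fin 7 → ℝ) : B x y = ∑ k, ∑ l, Q k l * x k * y l := by
  simp [B, S, Q, dd, Fin.sum_univ_seven]; ring

lemma ff_eq : ff = ∑ k, ∑ l, C (Q k l) * (X k * X l) := by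
  apply MvPolynomial.funext
  intro x
  simp [ff, Q, dd, Fin.sum_univ_seven]; ring

lemma B_pos (y : Fin 7 → ℝ) (hy : ∀ k, 0 ≤ y k) {k l : Fin 7} (h : k ≠ l) (hk : 0 < y k)
    (hl : 0 < y l) : 0 < B y y := by
  rw [B_eq]
  have h0 : ∀ k l, 0 ≤ Q k l * y k * y l := fun k l =>
    mul_nonneg (mul_nonneg (Q_nonneg k l) (hy k)) (hy l)
  exact Finset.sum_pos' (fun k _ => Finset.sum_nonneg fun l _ => h0 k l) ⟨k, mem_univ _,
    Finset.sum_pos' (fun l _ => h0 k l) ⟨l, mem_univ _, mul_pos (mul_pos (Q_pos h) hk) hl⟩⟩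

lemma ff_hom : ff.IsHomogeneous 2 := by
  rw [ff_eq]
  exact IsHomogeneous.sum _ _ _ fun k _ => IsHomogeneous.sum _ _ _ fun l _ =>
    ((isHomogeneous_X ℝ k).mul (isHomogeneous_X ℝ l)).C_mul _

lemma ff_coeff (s : Fin 7 →₀ ℕ) : 0 ≤ ff.coeff s := by
  rw [ff_eq]
  simp only [coeff_sum, coeff_C_mul]
  refine Finset.sum_nonneg fun k _ => Finset.sum_nonneg fun l _ => mul_nonneg (Q_nonneg k l) ?_
  rw [X, X, monomial_mul, coeff_monomial]
  split_ifs <;> norm_num

lemma ff_aeval (z : Fin 7 → ℂ) : aeval z ff = ∑ k, ∑ l, (Q k l : ℂ) * (z k * z l) := by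
  simp [ff_eq]

lemma ff_stable (z : Fin 7 → ℂ) (hz : ∀ k, 0 < (z k).im) : aeval z ff ≠ 0 := by
  intro h
  rw [ff_aeval] at h
  have hre := congrArg Complex.re h
  have him := congrArg Complex.im h
  have hy := B_pos (fun k => (z k).im) (fun k => (hz k).le) (k := 0) (l := 1) (by decide) (hz 0) (hz 1)
  have e1 : B (fun k => (z k).re) (fun k => (z k).re) = B (fun k => (z k).im) (fun k => (z k).im) := by
    simp only [Complex.re_sum, Complex.re_ofReal_mul, Complex.mul_re, Complex.zero_re,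
      Complex.ofReal_re, Complex.ofReal_im] at hre
    rw [B_eq, B_eq, ← sub_eq_zero, ← hre, ← Finset.sum_sub_distrib]
    refine Finset.sum_congr rfl fun k _ => ?_
    rw [← Finset.sum_sub_distrib]
    exact Finset.sum_congr rfl fun l _ => by ring
  have e2 : B (fun k => (z k).re) (fun k => (z k).im) = 0 := by
    simp only [Complex.im_sum, Complex.im_ofReal_mul, Complex.mul_im, Complex.zero_im,
      Complex.ofReal_re, Complex.ofReal_im] at him
    have e3 : ∑ k, ∑ l, Q k l * (z k).re * (z l).im = ∑ k, ∑ l, Q k l * (z k).im * (z l).re := by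
      rw [Finset.sum_comm]
      exact Finset.sum_congr rfl fun k _ => Finset.sum_congr rfl fun l _ => by rw [Q_comm]; ring
    have e4 : ∑ k, ∑ l, Q k l * (z k).re * (z l).im + ∑ k, ∑ l, Q k l * (z k).im * (z l).re = 0 := by
      rw [← him, ← Finset.sum_add_distrib]
      refine Finset.sum_congr rfl fun k _ => ?_
      rw [← Finset.sum_add_distrib]
      exact Finset.sum_congr rfl fun l _ => by ring
    rw [B_eq]
    linarith
  have := rcs _ _ hy e2 (e1 ▸ hy.le)
  rw [this] at e1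
  simp [B_eq] at e1
  simp [B_eq, ← e1] at hy

lemma comb {α : Type} [DecidableEq α] (j : Fin 7 → α) :
    (∃ k, 5 ≤ #{l | j l = j k}) ∨ ∃ A B : Finset (Fin 7), #A = 3 ∧ #B = 3 ∧
      ∀ k ∈ A, ∀ l ∈ B, j k ≠ j l := by
  classical
  obtain ⟨T, hT, hmin⟩ := Finset.exists_min_image
    (univ.filter fun T : Finset (Fin 7) => 3 ≤ #T ∧ ∀ k ∈ T, ∀ l, j l = j k → l ∈ T) card
    ⟨univ, by simp⟩
  simp only [mem_filter, mem_univ, true_and] at hT hmin
  by_cases h5 : 5 ≤ #T
  · left
    obtain ⟨k, hk⟩ : T.Nonempty := card_pos.1 (by omega)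
    refine ⟨k, ?_⟩
    have hsub : ({l | j l = j k} : Finset _) ⊆ T := fun l hl => hT.2 k hk l (by simpa using hl)
    have h1 : ¬ 3 ≤ #(T \ univ.filter fun l => j l = j k) := by
      intro h
      have h2 := hmin _ ⟨h, fun a ha l hl => by
        simp only [mem_sdiff, mem_filter, mem_univ, true_and] at ha ⊢
        exact ⟨hT.2 a ha.1 l hl, hl ▸ ha.2⟩⟩
      have h3 : #(T \ univ.filter fun l => j l = j k) < #T :=
        card_lt_card ⟨sdiff_subset, fun h => by simpa using h hk⟩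
      omega
    rw [card_sdiff_of_subset hsub] at h1
    have := hmin {l | j l = j k} ⟨by omega, fun a ha l hl => by
      simp only [mem_filter, mem_univ, true_and] at ha ⊢
      exact hl.trans ha⟩
    omega
  · right
    obtain ⟨A, hA, hA3⟩ := exists_subset_card_eq hT.1
    obtain ⟨B, hB, hB3⟩ := exists_subset_card_eq (s := Tᶜ) (n := 3)
      (by rw [card_compl]; simp; omega)
    exact ⟨A, B, hA3, hB3, fun k hk l hl h => mem_compl.1 (hB hl) (hT.2 k (hA hk) l h.symm)⟩

lemma norep {α : Type} [DecidableEq α] (j : Fin 7 → α) (a c x y : Fin 7 → ℝ)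
    (h : ∀ k l, 2 * Q k l = a k * c l + c k * a l
      - if j k = j l then 2 * (x k * x l + y k * y l) else 0) : False := by
  rcases comb j with ⟨k0, hk⟩ | ⟨A, B, hA, hB, hAB⟩
  · set T : Finset (Fin 7) := {l | j l = j k0} with hT
    have hli : ¬ LinearIndependent ℝ (fun k : T => (![a k, c k, x k, y k] : Fin 4 → ℝ)) := by
      intro hl
      have := hl.fintype_card_le_finrank
      simp only [Fintype.card_coe, Module.finrank_fin_fun] at this
      omega
    obtain ⟨g, hg, k1, hk1⟩ := Fintype.not_linearIndependent_iff.1 hli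
    let v : Fin 7 → ℝ := fun k => if h : k ∈ T then g ⟨k, h⟩ else 0
    have hv : ∀ F : Fin 7 → ℝ, ∑ k, F k * v k = ∑ k : T, F k * g k := by
      intro F
      rw [← Finset.sum_subset (subset_univ T) (fun k _ hk => by simp [v, hk]), ← Finset.sum_coe_sort]
      exact Finset.sum_congr rfl fun k _ => by simp [v]
    have g0 : ∑ k : T, a k * g k = 0 := by simpa [mul_comm] using congrFun hg 0
    have g1 : ∑ k : T, c k * g k = 0 := by simpa [mul_comm] using congrFun hg 1
    have g2 : ∑ k : T, x k * g k = 0 := by simpa [mul_comm] using congrFun hg 2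
    have g3 : ∑ k : T, y k * g k = 0 := by simpa [mul_comm] using congrFun hg 3
    have key : ∀ l ∈ T, ∑ k, Q k l * v k = 0 := by
      intro l hl
      rw [hv fun k => Q k l]
      have : ∀ k : T, Q k l * g k = (c l / 2) * (a k * g k) + (a l / 2) * (c k * g k)
          - x l * (x k * g k) - y l * (y k * g k) := by
        intro k
        have h1 := h k l
        rw [if_pos ((mem_filter.1 k.2).2.trans (mem_filter.1 hl).2.symm)] at h1
        linear_combination (g k / 2) * h1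
      simp only [this, Finset.sum_sub_distrib, Finset.sum_add_distrib, ← Finset.mul_sum, g0, g1, g2,
        g3]
      simp
    have hB : ∀ w : Fin 7 → ℝ, (∀ l ∉ T, w l = 0) → B v w = 0 := by
      intro w hw
      rw [B_eq, Finset.sum_comm]
      refine Finset.sum_eq_zero fun l _ => ?_
      rw [← Finset.sum_mul]
      by_cases hl : l ∈ T
      · rw [key l hl, zero_mul]
      · rw [hw l hl, mul_zero]
    obtain ⟨l1, h1, l2, h2, h12⟩ := one_lt_card.1 (by omega : 1 < #T)
    have := rcs v (fun l => if l ∈ T then 1 else 0)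
      (B_pos _ (fun k => by positivity) h12 (by simp only [h1]; simp) (by simp only [h2]; simp))
      (hB _ fun l hl => if_neg hl) (hB v fun l hl => dif_neg hl).ge
    exact hk1 (by simpa [v] using congrFun this k1)
  · obtain ⟨k1, k2, k3, h12, h13, h23, rfl⟩ := card_eq_three.1 hA
    obtain ⟨l1, l2, l3, g12, g13, g23, rfl⟩ := card_eq_three.1 hB
    have e : ∀ k ∈ ({k1, k2, k3} : Finset (Fin 7)), ∀ l ∈ ({l1, l2, l3} : Finset (Fin 7)),
        a k * c l + c k * a l = 2 * (100 - t k * t l - t k ^ 2 * t l ^ 2) := by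
      intro k hk l hl
      have h1 := h k l
      have h2 := hAB k hk l hl
      rw [if_neg h2, Q, if_neg (fun h => h2 (by rw [h]))] at h1
      linarith
    have hdet : ∀ M : Fin 7 → Fin 7 → ℝ, (∀ k l, M k l = a k * c l + c k * a l) →
        M k1 l1 * (M k2 l2 * M k3 l3 - M k2 l3 * M k3 l2)
        - M k1 l2 * (M k2 l1 * M k3 l3 - M k2 l3 * M k3 l1)
        + M k1 l3 * (M k2 l1 * M k3 l2 - M k2 l2 * M k3 l1) = 0 := by
      intro M hM
      simp only [hM]; ring
    have := hdet _ fun _ _ => rfl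
    rw [e k1 (by simp) l1 (by simp), e k1 (by simp) l2 (by simp), e k1 (by simp) l3 (by simp),
      e k2 (by simp) l1 (by simp), e k2 (by simp) l2 (by simp), e k2 (by simp) l3 (by simp),
      e k3 (by simp) l1 (by simp), e k3 (by simp) l2 (by simp), e k3 (by simp) l3 (by simp)] at this
    have e2 : 800 * ((t k1 - t k2) * (t k1 - t k3) * (t k2 - t k3))
        * ((t l1 - t l2) * (t l1 - t l3) * (t l2 - t l3)) = 0 := by linear_combination this
    simp [t_inj, *] at e2

lemma supp_one {m : ℕ} (hm : 0 < m) (a c : Fin m → ℝ) (b : Fin m → ℂ) (ha : ∀ j, 0 ≤ a j)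
    (hc : ∀ j, 0 ≤ c j) (hb : ∀ j, Complex.normSq (b j) ≤ a j * c j)
    (h : (∑ j, a j) * (∑ j, c j) = ∑ j, Complex.normSq (b j)) : ∃ j0, ∀ j ≠ j0, b j = 0 := by
  by_contra hcon
  push Not at hcon
  obtain ⟨j1, -, h1⟩ := hcon ⟨0, hm⟩
  obtain ⟨j2, h12, h2⟩ := hcon j1
  have p1 := (Complex.normSq_pos.2 h1).trans_le (hb j1)
  have p2 := (Complex.normSq_pos.2 h2).trans_le (hb j2)
  have q1 : 0 < c j1 := (hc j1).lt_of_ne fun h => by simp [← h] at p1
  have q2 : 0 < a j2 := (ha j2).lt_of_ne fun h => by simp [← h] at p2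
  rw [Finset.sum_mul_sum] at h
  refine absurd h (ne_of_gt (Finset.sum_lt_sum (fun j _ => (hb j).trans (Finset.single_le_sum
    (f := fun i => a j * c i) (fun i _ => mul_nonneg (ha j) (hc i)) (mem_univ j)))
    ⟨j2, mem_univ _, (hb j2).trans_lt (Finset.single_lt_sum (f := fun i => a j2 * c i) h12.symm
      (mem_univ _) (mem_univ _) (mul_pos q2 q1) fun i _ _ => mul_nonneg (ha j2) (hc i))⟩))

theorem main {m : ℕ} (hm : 0 < m) (A : Fin m → Fin 7 → Matrix (Fin 2) (Fin 2) ℂ)
    (hA : ∀ j k, (A j k).PosSemidef) :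
    MvPolynomial.map (algebraMap ℝ ℂ) ff ≠ eta fun j => pencil (A j) := by
  intro h
  have h00 : ∀ j k i, A j k i i = ((A j k i i).re : ℂ) ∧ 0 ≤ (A j k i i).re := fun j k i => by
    have := (hA j k).diag_nonneg (i := i)
    exact ⟨Complex.ext rfl (by simpa using this.2.symm), this.1⟩
  have h10 : ∀ j k, A j k 1 0 = (starRingEnd ℂ) (A j k 0 1) := fun j k =>
    ((hA j k).1.apply 1 0).symm
  have hdet : ∀ j k, Complex.normSq (A j k 0 1) ≤ (A j k 0 0).re * (A j k 1 1).re := fun j k => by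
    have := (hA j k).det_nonneg.1
    rw [Matrix.det_fin_two, h10, Complex.mul_conj, (h00 j k 0).1, (h00 j k 1).1] at this
    simpa using this
  have hev : ∀ z : Fin 7 → ℂ, ∑ k, ∑ l, (Q k l : ℂ) * (z k * z l)
      = (∑ j, ∑ k, A j k 0 0 * z k) * (∑ j, ∑ k, A j k 1 1 * z k)
        - ∑ j, (∑ k, A j k 0 1 * z k) * (∑ k, A j k 1 0 * z k) := by
    intro z
    have := congrArg (eval z) h
    rw [eval_map, ← aeval_def, ff_aeval, eta_two] at this
    simpa [pencil] using this
  have h1 : ∀ k, 0 = (∑ j, A j k 0 0) * (∑ j, A j k 1 1) - ∑ j, A j k 0 1 * A j k 1 0 := by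
    intro k
    simpa [Pi.single_apply, Q] using hev (Pi.single k 1)
  have h2 : ∀ k l, 2 * (Q k l : ℂ) = (∑ j, A j k 0 0) * (∑ j, A j l 1 1)
      + (∑ j, A j k 1 1) * (∑ j, A j l 0 0)
      - ∑ j, (A j k 0 1 * A j l 1 0 + A j l 0 1 * A j k 1 0) := by
    intro k l
    have e := hev (Pi.single k 1 + Pi.single l 1)
    have hQ : Q l k = Q k l := Q_comm k l
    have hk : Q k k = 0 := by simp [Q]
    have hl : Q l l = 0 := by simp [Q]
    simp [Pi.single_apply, mul_add, add_mul, Finset.sum_add_distrib, hQ, hk, hl] at e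
    simp only [Finset.sum_add_distrib]
    linear_combination e - h1 k - h1 l
  have h3 : ∀ k, ∃ j0, ∀ j ≠ j0, A j k 0 1 = 0 := fun k => by
    refine supp_one hm (fun j => (A j k 0 0).re) (fun j => (A j k 1 1).re) _
      (fun j => (h00 j k 0).2) (fun j => (h00 j k 1).2) (fun j => hdet j k) ?_
    have := h1 k
    rw [Finset.sum_congr rfl fun j _ => (h00 j k 0).1, Finset.sum_congr rfl fun j _ => (h00 j k 1).1]
      at this
    simp only [h10, Complex.mul_conj] at this
    exact_mod_cast (sub_eq_zero.1 this.symm)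
  choose j0 hj0 using h3
  refine norep j0 (fun k => ∑ j, (A j k 0 0).re) (fun k => ∑ j, (A j k 1 1).re)
    (fun k => (A (j0 k) k 0 1).re) (fun k => (A (j0 k) k 0 1).im) fun k l => ?_
  have e := h2 k l
  rw [Finset.sum_congr rfl fun j _ => (h00 j k 0).1, Finset.sum_congr rfl fun j _ => (h00 j k 1).1,
    Finset.sum_congr rfl fun j _ => (h00 j l 0).1, Finset.sum_congr rfl fun j _ => (h00 j l 1).1,
    Finset.sum_eq_single (f := fun j => A j k 0 1 * A j l 1 0 + A j l 0 1 * A j k 1 0) (j0 k)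
      (fun j _ hj => by simp [h10, hj0 k j hj]) (by simp)] at e
  have e' := congrArg Complex.re e
  split_ifs with hh
  · simp [h10, hh] at e' ⊢
    linear_combination e'
  · simpa [h10, hj0 l _ hh] using e'

end

end Pool.Agent.Lead.Mix
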