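import Mathlib

namespace Pool.Agent.Lead.Mix

/-- mixed determinant: the block of index i is σ i -/
noncomputable def eta {R : Type} [CommRing R] {n m : ℕ} (A : Fin m → Matrix (Fin n) (Fin n) R) : R :=
  ∑ σ : Fin n → Fin m, ∏ j : Fin m,
    ((A j).submatrix (fun i : {i : Fin n // σ i = j} => i.1) (fun i => i.1)).det

/-- the pencil with coefficient matrices A k -/
noncomputable def pencil {n l : ℕ} (A : Fin l → Matrix (Fin n) (Fin n) ℂ) :
    Matrix (Fin n) (Fin n) (MvPolynomial (Fin l) ℂ) :=
  Matrix.of fun a b => ∑ k, MvPolynomial.C (A k a b) * MvPolynomial.X k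

end Pool.Agent.Lead.Mix
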