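import Pool.Agent.Lead.ModDefs

/-! The logic of transitive, conversely well-founded frames: interpolation by inseparable
pairs of types, and failure of strong completeness. -/

namespace Pool.Agent.Lead.Mod

open Fm

section basic
variable {W : Type} {R : W → W → Prop} {V : ℕ → W → Prop}

@[simp] lemma sat_var (n w) : Sat R V (var n) w ↔ V n w := Iff.rfl
@[simp] lemma sat_bot (w) : Sat R V bot w ↔ False := Iff.rfl
@[simp] lemma sat_imp (a b w) : Sat R V (imp a b) w ↔ (Sat R V a w → Sat R V b w) := Iff.rfl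
@[simp] lemma sat_box (a w) : Sat R V (box a) w ↔ ∀ v, R w v → Sat R V a v := Iff.rfl
@[simp] lemma sat_neg (a w) : Sat R V (neg a) w ↔ ¬ Sat R V a w := Iff.rfl
@[simp] lemma sat_top (w) : Sat R V top w ↔ True := by simp [top]
@[simp] lemma sat_or (a b w) : Sat R V (Fm.or a b) w ↔ (Sat R V a w ∨ Sat R V b w) := by
  simp only [Fm.or, sat_imp, sat_neg]; tauto
@[simp] lemma sat_and (a b w) : Sat R V (Fm.and a b) w ↔ (Sat R V a w ∧ Sat R V b w) := by
  simp only [Fm.and, sat_imp, sat_neg]; tauto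
@[simp] lemma sat_dia (a w) : Sat R V (dia a) w ↔ ∃ v, R w v ∧ Sat R V a v := by
  simp only [dia, sat_box, sat_neg]; push Not; rfl

lemma sat_conj (l : List Fm) (w) : Sat R V (conj l) w ↔ ∀ a ∈ l, Sat R V a w := by
  induction l with
  | nil => simp [conj]
  | cons a l ih => simp [conj, ih]

lemma sat_subst (s : ℕ → Fm) (a : Fm) (w) :
    Sat R V (a.subst s) w ↔ Sat R (fun n v => Sat R V (s n) v) a w := by
  induction a generalizing w with
  | var n => rfl
  | bot => rfl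
  | imp a b iha ihb => simp [Fm.subst, iha, ihb]
  | box a ih => simp [Fm.subst, ih]

end basic

lemma bisim_inv {σ : Finset ℕ} {W₁ W₂ : Type} {R₁ : W₁ → W₁ → Prop} {V₁ : ℕ → W₁ → Prop}
    {R₂ : W₂ → W₂ → Prop} {V₂ : ℕ → W₂ → Prop} {Z : W₁ → W₂ → Prop}
    (hZ : IsBisim σ R₁ V₁ R₂ V₂ Z) (a : Fm) (ha : sig a ⊆ σ) :
    ∀ x y, Z x y → (Sat R₁ V₁ a x ↔ Sat R₂ V₂ a y) := by
  induction a with
  | var n => intro x y h; exact (hZ x y h).1 n (ha (by simp [sig]))
  | bot => intro x y _; rfl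
  | imp a b iha ihb =>
    intro x y h
    simp only [sig, Finset.union_subset_iff] at ha
    simp [iha ha.1 x y h, ihb ha.2 x y h]
  | box a ih =>
    intro x y h
    simp only [sat_box]
    constructor
    · intro H y' hy'
      obtain ⟨x', hx', hz⟩ := (hZ x y h).2.2 y' hy'
      exact (ih ha x' y' hz).1 (H x' hx')
    · intro H x' hx'
      obtain ⟨y', hy', hz⟩ := (hZ x y h).2.1 x' hx'
      exact (ih ha x' y' hz).2 (H y' hy')

/-- Pointed models on transitive, conversely well-founded frames. -/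
structure Pt where
  W : Type
  R : W → W → Prop
  tr : ∀ x y z, R x y → R y z → R x z
  wf : WellFounded (fun y x => R x y)
  V : ℕ → W → Prop
  w : W

def Pt.sat (x : Pt) (a : Fm) : Prop := Sat x.R x.V a x.w

def Pt.mv (x : Pt) (v : x.W) : Pt := { x with w := v }

/-- The logic of transitive, conversely well-founded frames. -/
def LG : Set Fm := {a | ∀ x : Pt, x.sat a}

lemma LG_normal : Normal LG where
  taut := fun a ha x => ha (fun b => x.sat b) (by simp [Pt.sat]) (by simp [Pt.sat])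
  axK := fun x h1 h2 v hv => h1 v hv (h2 v hv)
  mp := fun a b h1 h2 x => h1 x (h2 x)
  nec := fun a h x v _ => h (x.mv v)
  subst := fun s a h x => by
    unfold Pt.sat
    rw [sat_subst]
    exact h { x with V := fun n v => Sat x.R x.V (s n) v }

lemma frameFor_LG {W : Type} (R : W → W → Prop) (tr : ∀ x y z, R x y → R y z → R x z)
    (wf : WellFounded (fun y x => R x y)) : FrameFor LG R :=
  fun _ ha V w => ha ⟨W, R, tr, wf, V, w⟩

lemma exists_last (x : Pt) (a : Fm) (h : ¬ x.sat (box a)) :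
    ∃ v, x.R x.w v ∧ ¬ Sat x.R x.V a v ∧ Sat x.R x.V (box a) v := by
  simp only [Pt.sat, sat_box] at h
  push Not at h
  obtain ⟨v, hv, hmin⟩ := x.wf.has_min {v | x.R x.w v ∧ ¬ Sat x.R x.V a v} h
  refine ⟨v, hv.1, hv.2, fun u hu => ?_⟩
  by_contra hc
  exact hmin u ⟨x.tr _ _ _ hv.1 hu, hc⟩ hu

/-- Separation by a `σ`-formula. -/
def Sep (σ : Finset ℕ) (P Q : Pt → Prop) : Prop :=
  ∃ θ, sig θ ⊆ σ ∧ (∀ x, P x → x.sat θ) ∧ (∀ x, Q x → ¬ x.sat θ)

lemma Sep.symm {σ P Q} (h : Sep σ P Q) : Sep σ Q P := by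
  obtain ⟨θ, h1, h2, h3⟩ := h
  refine ⟨neg θ, by simpa [neg, sig] using h1, fun x hx => h3 x hx, fun x hx hn => hn (h2 x hx)⟩

lemma Sep.mono {σ P Q P' Q'} (h : Sep σ P Q) (hP : ∀ x, P' x → P x) (hQ : ∀ x, Q' x → Q x) :
    Sep σ P' Q' := by
  obtain ⟨θ, h1, h2, h3⟩ := h
  exact ⟨θ, h1, fun x hx => h2 x (hP x hx), fun x hx => h3 x (hQ x hx)⟩

lemma sep_empty {σ P Q} (h : ∀ x, ¬ P x) : Sep σ P Q :=
  ⟨bot, by simp [sig], fun x hx => (h x hx).elim, fun x _ => by simp [Pt.sat]⟩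

lemma sep_or {σ P P' Q} (h : Sep σ P Q) (h' : Sep σ P' Q) : Sep σ (fun x => P x ∨ P' x) Q := by
  obtain ⟨θ, h1, h2, h3⟩ := h
  obtain ⟨θ', h1', h2', h3'⟩ := h'
  refine ⟨Fm.or θ θ', ?_, ?_, ?_⟩
  · simp only [Fm.or, neg, sig, Finset.union_empty]; exact Finset.union_subset h1 h1'
  · intro x hx
    simp only [Pt.sat, sat_or]
    exact hx.imp (h2 x) (h2' x)
  · intro x hx
    simp only [Pt.sat, sat_or]
    exact fun h => h.elim (h3 x hx) (h3' x hx)

lemma sep_fin {σ} {ι : Type} (S : Finset ι) (P : ι → Pt → Prop) (Q)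
    (h : ∀ i ∈ S, Sep σ (P i) Q) : Sep σ (fun x => ∃ i ∈ S, P i x) Q := by
  classical
  induction S using Finset.induction_on with
  | empty => exact sep_empty (by simp)
  | insert a S _ ih =>
    refine (sep_or (h a (by simp)) (ih fun i hi => h i (by simp [hi]))).mono ?_ (fun _ h => h)
    rintro x ⟨i, hi, hx⟩
    rcases Finset.mem_insert.1 hi with rfl | hi
    · exact Or.inl hx
    · exact Or.inr ⟨i, hi, hx⟩

open Classical in
/-- The `X`-type of a point. -/
noncomputable def tp (X : Finset Fm) (x : Pt) : Finset Fm := X.filter (fun a => x.sat a)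

lemma mem_tp {X x a} : a ∈ tp X x ↔ a ∈ X ∧ x.sat a := by simp [tp]

lemma tp_sub (X x) : tp X x ∈ X.powerset := by
  classical
  exact Finset.mem_powerset.2 (fun a ha => (mem_tp.1 ha).1)

lemma ext_left {σ P Q} (X : Finset Fm) (h : ¬ Sep σ P Q) :
    ∃ s ∈ X.powerset, ¬ Sep σ (fun x => P x ∧ tp X x = s) Q := by
  by_contra hc
  push Not at hc
  exact h ((sep_fin _ _ _ hc).mono (fun x hx => ⟨_, tp_sub X x, hx, rfl⟩) (fun _ h => h))

lemma ext_both {σ P Q} (X Y : Finset Fm) (h : ¬ Sep σ P Q) :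
    ∃ s ∈ X.powerset, ∃ t ∈ Y.powerset,
      ¬ Sep σ (fun x => P x ∧ tp X x = s) (fun x => Q x ∧ tp Y x = t) := by
  obtain ⟨s, hs, h1⟩ := ext_left X h
  obtain ⟨t, ht, h2⟩ := ext_left Y (fun h => h1 (Sep.symm h))
  exact ⟨s, hs, t, ht, fun h => h2 h.symm⟩

lemma real_left {σ P Q} (h : ¬ Sep σ P Q) : ∃ x, P x := by
  by_contra hc
  push Not at hc
  exact h (sep_empty hc)

/-- The step relation on types. -/
def Stp (s s' : Finset Fm) : Prop := ∀ b, box b ∈ s → b ∈ s' ∧ box b ∈ s'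

def Clo (X : Finset Fm) : Prop :=
  (∀ a b, imp a b ∈ X → a ∈ X ∧ b ∈ X) ∧ (∀ a, box a ∈ X → a ∈ X)

lemma exist_lemma {σ} {X Y s t : Finset Fm} (hX : Clo X) (hY : Clo Y)
    (h : ¬ Sep σ (fun x => tp X x = s) (fun x => tp Y x = t)) {a : Fm} (ha : box a ∈ X)
    (has : box a ∉ s) :
    ∃ s' ∈ X.powerset, ∃ t' ∈ Y.powerset,
      ¬ Sep σ (fun x => tp X x = s') (fun x => tp Y x = t') ∧ Stp s s' ∧ Stp t t' ∧
      box a ∈ s' ∧ a ∉ s' := by
  have key : ¬ Sep σ (fun x => (∀ b, box b ∈ s → x.sat b ∧ x.sat (box b)) ∧ x.sat (box a) ∧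
      ¬ x.sat a) (fun x => ∀ b, box b ∈ t → x.sat b ∧ x.sat (box b)) := by
    rintro ⟨θ, h1, h2, h3⟩
    have stp : ∀ (Z u : Finset Fm) (x : Pt) (v : x.W), tp Z x = u → x.R x.w v →
        ∀ b, box b ∈ u → (x.mv v).sat b ∧ (x.mv v).sat (box b) := by
      intro Z u x v hx hv b hb
      rw [← hx] at hb
      have hb' := (mem_tp.1 hb).2
      exact ⟨hb' v hv, fun u hu => hb' u (x.tr _ _ _ hv hu)⟩
    refine h ⟨dia θ, by simpa [dia, neg, sig] using h1, fun x hx => ?_, fun x hx => ?_⟩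
    · have : ¬ x.sat (box a) := fun hh => has (hx ▸ mem_tp.2 ⟨ha, hh⟩)
      obtain ⟨v, hv, hv1, hv2⟩ := exists_last x a this
      simp only [Pt.sat, sat_dia]
      exact ⟨v, hv, h2 (x.mv v) ⟨stp X s x v hx hv, hv2, hv1⟩⟩
    · simp only [Pt.sat, sat_dia]
      rintro ⟨v, hv, hθ⟩
      exact h3 (x.mv v) (stp Y t x v hx hv) hθ
  obtain ⟨s', hs', t', ht', h'⟩ := ext_both X Y key
  obtain ⟨x, ⟨hx1, hx2, hx3⟩, hx⟩ := real_left h'
  obtain ⟨y, hy1, hy⟩ := real_left (fun h => h' (Sep.symm h))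
  obtain ⟨x0, hx0⟩ := real_left h
  obtain ⟨y0, hy0⟩ := real_left (fun h' => h (Sep.symm h'))
  refine ⟨s', hs', t', ht', fun hh => h' (hh.mono (fun _ h => h.2) (fun _ h => h.2)), ?_, ?_,
    ?_, ?_⟩
  · intro b hb
    have hbX : box b ∈ X := (mem_tp.1 (hx0 ▸ hb)).1
    rw [← hx]
    exact ⟨mem_tp.2 ⟨hX.2 b hbX, (hx1 b hb).1⟩, mem_tp.2 ⟨hbX, (hx1 b hb).2⟩⟩
  · intro b hb
    have hbY : box b ∈ Y := (mem_tp.1 (hy0 ▸ hb)).1
    rw [← hy]
    exact ⟨mem_tp.2 ⟨hY.2 b hbY, (hy1 b hb).1⟩, mem_tp.2 ⟨hbY, (hy1 b hb).2⟩⟩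
  · rw [← hx]; exact mem_tp.2 ⟨ha, hx2⟩
  · rw [← hx]; exact fun h => hx3 (mem_tp.1 h).2

lemma truth {W : Type} {R : W → W → Prop} {V : ℕ → W → Prop} {X : Finset Fm} (hX : Clo X)
    (f : W → Finset Fm) (h1 : ∀ w, ∃ x, tp X x = f w)
    (h2 : ∀ n w, var n ∈ X → (V n w ↔ var n ∈ f w))
    (h3 : ∀ w v, R w v → Stp (f w) (f v))
    (h4 : ∀ w a, box a ∈ X → box a ∉ f w → ∃ v, R w v ∧ a ∉ f v) (a : Fm) :
    a ∈ X → ∀ w, Sat R V a w ↔ a ∈ f w := by
  induction a with
  | var n => intro ha w; exact h2 n w ha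
  | bot =>
    intro _ w
    obtain ⟨x, hx⟩ := h1 w
    rw [← hx, mem_tp]; simp [Pt.sat]
  | imp a b iha ihb =>
    intro ha w
    obtain ⟨x, hx⟩ := h1 w
    have h := hX.1 a b ha
    rw [sat_imp, iha h.1, ihb h.2, ← hx]
    simp only [mem_tp, ha, h.1, h.2, true_and, Pt.sat, sat_imp]
  | box a ih =>
    intro ha w
    have h := hX.2 a ha
    constructor
    · intro H
      by_contra hc
      obtain ⟨v, hv, hva⟩ := h4 w a ha hc
      exact hva ((ih h v).1 (H v hv))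
    · intro H v hv
      exact (ih h v).2 (h3 w v hv a H).1

/-- Subformulas. -/
def sub : Fm → Finset Fm
  | var n => {var n}
  | bot => {bot}
  | imp a b => insert (imp a b) (sub a ∪ sub b)
  | box a => insert (box a) (sub a)

lemma self_mem_sub (a : Fm) : a ∈ sub a := by cases a <;> simp [sub]

lemma clo_sub (a : Fm) : Clo (sub a) := by
  induction a with
  | var n => constructor <;> simp [sub]
  | bot => constructor <;> simp [sub]
  | imp a b iha ihb =>
    constructor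
    · intro c d h
      simp only [sub, Finset.mem_insert, Finset.mem_union, imp.injEq] at h ⊢
      rcases h with ⟨rfl, rfl⟩ | h | h
      · simp [self_mem_sub]
      · have := iha.1 c d h; tauto
      · have := ihb.1 c d h; tauto
    · intro c h
      simp only [sub, Finset.mem_insert, Finset.mem_union, reduceCtorEq, false_or] at h ⊢
      rcases h with h | h
      · have := iha.2 c h; tauto
      · have := ihb.2 c h; tauto
  | box a ih =>
    constructor
    · intro c d h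
      simp only [sub, Finset.mem_insert, reduceCtorEq, false_or] at h ⊢
      have := ih.1 c d h; tauto
    · intro c h
      simp only [sub, Finset.mem_insert, box.injEq] at h ⊢
      rcases h with rfl | h
      · simp [self_mem_sub]
      · have := ih.2 c h; tauto

lemma var_mem_sub {n : ℕ} {a : Fm} (h : var n ∈ sub a) : n ∈ sig a := by
  induction a with
  | var m => simpa [sub, sig] using h
  | bot => simp [sub] at h
  | imp a b iha ihb =>
    simp only [sub, Finset.mem_insert, reduceCtorEq, Finset.mem_union, false_or, sig] at h ⊢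
    exact h.imp iha ihb
  | box a ih =>
    simp only [sub, Finset.mem_insert, reduceCtorEq, false_or, sig] at h ⊢
    exact ih h

/-- If there is no interpolant, one pointed model satisfies `a` and refutes `b`. -/
theorem no_interp {a b : Fm} (h : ¬ ∃ ι, Interpolant LG a b ι) :
    ∃ x : Pt, x.sat a ∧ ¬ x.sat b := by
  classical
  set σ := sig a ∩ sig b with hσ
  have h0 : ¬ Sep σ (fun x => x.sat a) (fun x => ¬ x.sat b) := by
    rintro ⟨θ, h1, h2, h3⟩
    refine h ⟨θ, h1, fun x hx => h2 x hx, fun x hx => ?_⟩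
    by_contra hc
    exact h3 x hc hx
  let W : Type := {p : Finset Fm × Finset Fm // p ∈ (sub a).powerset ×ˢ (sub b).powerset ∧
    ¬ Sep σ (fun x => tp (sub a) x = p.1) (fun x => tp (sub b) x = p.2)}
  have hfin : Finite W := by
    apply Set.Finite.subset (Finset.finite_toSet ((sub a).powerset ×ˢ (sub b).powerset))
    intro p hp
    exact hp.1
  let R : W → W → Prop := fun p q => Stp p.1.1 q.1.1 ∧ Stp p.1.2 q.1.2 ∧
    ∃ c, (box c ∈ q.1.1 ∧ box c ∉ p.1.1) ∨ (box c ∈ q.1.2 ∧ box c ∉ p.1.2)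
  have tr : ∀ x y z, R x y → R y z → R x z := by
    rintro x y z ⟨h1, h2, c, h3⟩ ⟨h4, h5, -⟩
    refine ⟨fun b hb => h4 b (h1 b hb).2, fun b hb => h5 b (h2 b hb).2, c, ?_⟩
    exact h3.imp (fun h => ⟨(h4 c h.1).2, h.2⟩) (fun h => ⟨(h5 c h.1).2, h.2⟩)
  have wf : WellFounded (fun y x => R x y) := by
    haveI : IsTrans W (fun y x => R x y) := ⟨fun x y z h1 h2 => tr _ _ _ h2 h1⟩
    haveI : Std.Irrefl (fun y x => R x y) := ⟨fun x ⟨_, _, c, h⟩ => by tauto⟩
    exact Finite.wellFounded_of_trans_of_irrefl _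
  let V : ℕ → W → Prop := fun n p => var n ∈ p.1.1 ∨ var n ∈ p.1.2
  have agree : ∀ {X Y s t : Finset Fm} {n : ℕ}, n ∈ σ → var n ∈ X →
      ¬ Sep σ (fun x => tp X x = s) (fun x => tp Y x = t) → var n ∈ t → var n ∈ s := by
    intro X Y s t n hn hX hs ht
    by_contra hc
    refine hs (Sep.symm ⟨var n, by simpa [sig] using hn, fun x hx => ?_, fun x hx hh => ?_⟩)
    · exact (mem_tp.1 (hx ▸ ht)).2
    · exact hc (hx ▸ mem_tp.2 ⟨hX, hh⟩)
  have T1 := truth (R := R) (V := V) (clo_sub a) (fun p => p.1.1)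
    (fun p => real_left p.2.2)
    (fun n p hn => ⟨fun h => h.elim id (fun h => agree (Finset.mem_inter.2
      ⟨var_mem_sub hn, var_mem_sub (Finset.mem_powerset.1 (Finset.mem_product.1 p.2.1).2 h)⟩)
      hn p.2.2 h), Or.inl⟩)
    (fun p q h => h.1)
    (fun p c hc hp => by
      obtain ⟨s', hs', t', ht', h1, h2, h3, h4, h5⟩ :=
        exist_lemma (clo_sub a) (clo_sub b) p.2.2 hc hp
      exact ⟨⟨(s', t'), Finset.mem_product.2 ⟨hs', ht'⟩, h1⟩, ⟨h2, h3, c, Or.inl ⟨h4, hp⟩⟩, h5⟩)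
    a (self_mem_sub a)
  have T2 := truth (R := R) (V := V) (clo_sub b) (fun p => p.1.2)
    (fun p => real_left (fun h => p.2.2 (Sep.symm h)))
    (fun n p hn => ⟨fun h => h.elim (fun h => agree (Finset.mem_inter.2
      ⟨var_mem_sub (Finset.mem_powerset.1 (Finset.mem_product.1 p.2.1).1 h), var_mem_sub hn⟩)
      hn (fun h => p.2.2 (Sep.symm h)) h) id, Or.inr⟩)
    (fun p q h => h.2.1)
    (fun p c hc hp => by
      obtain ⟨t', ht', s', hs', h1, h2, h3, h4, h5⟩ :=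
        exist_lemma (clo_sub b) (clo_sub a) (fun h => p.2.2 (Sep.symm h)) hc hp
      exact ⟨⟨(s', t'), Finset.mem_product.2 ⟨hs', ht'⟩, fun h => h1 (Sep.symm h)⟩,
        ⟨h3, h2, c, Or.inr ⟨h4, hp⟩⟩, h5⟩)
    b (self_mem_sub b)
  obtain ⟨s, hs, t, ht, h'⟩ := ext_both (sub a) (sub b) h0
  obtain ⟨x, hx1, hx⟩ := real_left h'
  obtain ⟨y, hy1, hy⟩ := real_left (fun h => h' (Sep.symm h))
  let p : W := ⟨(s, t), Finset.mem_product.2 ⟨hs, ht⟩,
    fun hh => h' (hh.mono (fun _ h => h.2) (fun _ h => h.2))⟩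
  refine ⟨⟨W, R, tr, wf, V, p⟩, (T1 p).2 ?_, fun hh => ?_⟩
  · show a ∈ s
    rw [← hx]; exact mem_tp.2 ⟨self_mem_sub a, hx1⟩
  · have : b ∈ t := (T2 p).1 hh
    rw [← hy] at this
    exact hy1 (mem_tp.1 this).2

/-- The classical non-compact set `◇p₀, □(p_i → ◇p_{i+1})`. -/
def gam : ℕ → Fm
  | 0 => dia (var 0)
  | i + 1 => box (imp (var i) (dia (var (i + 1))))

lemma gam_consistent : Consistent LG (Set.range gam) := by
  intro l hl h
  have hb : ∃ n, ∀ a ∈ l, ∃ i ≤ n, a = gam i := by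
    clear h
    induction l with
    | nil => exact ⟨0, by simp⟩
    | cons a l ih =>
      obtain ⟨n, hn⟩ := ih (fun b hb => hl b (by simp [hb]))
      obtain ⟨j, hj⟩ := hl a (by simp)
      refine ⟨max n j, fun b hb => ?_⟩
      rcases List.mem_cons.1 hb with rfl | hb
      · exact ⟨j, le_max_right _ _, hj.symm⟩
      · obtain ⟨i, hi, rfl⟩ := hn b hb
        exact ⟨i, hi.trans (le_max_left _ _), rfl⟩
  obtain ⟨n, hn⟩ := hb
  refine h ⟨ℕ, fun x y => y < x, fun _ _ _ h1 h2 => lt_trans h2 h1, wellFounded_lt,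
    fun i w => w + i = n, n + 1⟩ ?_
  refine (sat_conj l _).2 (fun a ha => ?_)
  obtain ⟨i, hi, rfl⟩ := hn a ha
  cases i with
  | zero => simp [gam]
  | succ i =>
    simp only [gam, sat_box, sat_imp, sat_var, sat_dia]
    intro v _ hv
    exact ⟨v - 1, by omega, by omega⟩

lemma gam_unsat {W : Type} {R : W → W → Prop} (hF : FrameFor LG R) (V : ℕ → W → Prop) (w : W) :
    ¬ ∀ a ∈ Set.range gam, Sat R V a w := by
  intro H
  have h4 : imp (box (var 0)) (box (box (var 0))) ∈ LG :=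
    fun x h v hv u hu => h u (x.tr _ _ _ hv hu)
  have hL : imp (box (imp (box (var 0)) (var 0))) (box (var 0)) ∈ LG := by
    intro x h
    by_contra hc
    obtain ⟨v, hv, h1, h2⟩ := exists_last x _ hc
    exact h1 (h v hv h2)
  have tr : ∀ v u, R w v → R v u → R w u :=
    fun v u hv hu => hF _ h4 (fun _ y => R w y) w (fun _ h => h) v hv u hu
  have key := hF _ hL (fun _ y => ¬ ∃ i, V i y ∧ R w y) w (by
    rintro v hv hb ⟨i, hi, -⟩
    have := H _ ⟨i + 1, rfl⟩ v hv hi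
    rw [sat_dia] at this
    obtain ⟨u, hu, hu'⟩ := this
    exact hb u hu ⟨i + 1, hu', tr v u hv hu⟩)
  have := H _ ⟨0, rfl⟩
  simp only [gam, sat_dia, sat_var] at this
  obtain ⟨v, hv, hv'⟩ := this
  exact key v hv ⟨0, hv', hv⟩

end Pool.Agent.Lead.Mod
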