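import Pool.Agent.Lead.ModDefs

/-! A Gödel numbering of unimodal formulas. -/

namespace Pool.Agent.Lead.Mod

/-- The Gödel number of a formula (a bijection onto `ℕ`). -/
def Fm.code : Fm → ℕ
  | .bot => 0
  | .var n => 3 * n + 1
  | .box a => 3 * a.code + 2
  | .imp a b => 3 * Nat.pair a.code b.code + 3

end Pool.Agent.Lead.Mod
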