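import Pool.Agent.Lead.Mod1
import Pool.Agent.Lead.ModCode

/-! Evaluation of formulas on the frames `F_e` is primitive recursive. -/

namespace Pool.Agent.Lead.Mod

open Fm

def dec (n : ℕ) : Fm :=
  if h : n = 0 then bot
  else if (n - 1) % 3 = 0 then var ((n - 1) / 3)
  else if (n - 1) % 3 = 1 then box (dec ((n - 1) / 3))
  else imp (dec ((n - 1) / 3).unpair.1) (dec ((n - 1) / 3).unpair.2)
termination_by n
decreasing_by
  · omega
  · have := Nat.unpair_left_le ((n - 1) / 3); omega
  · have := Nat.unpair_right_le ((n - 1) / 3); omega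

lemma dec_code (a : Fm) : dec a.code = a := by
  induction a with
  | var n =>
    rw [dec, code, dif_neg (by omega), if_pos (by omega)]
    congr 1; omega
  | bot => rw [dec, code, dif_pos rfl]
  | imp a b iha ihb =>
    rw [dec, code, dif_neg (by omega), if_neg (by omega), if_neg (by omega)]
    have : (3 * Nat.pair a.code b.code + 3 - 1) / 3 = Nat.pair a.code b.code := by omega
    rw [this, Nat.unpair_pair, iha, ihb]
  | box a ih =>
    rw [dec, code, dif_neg (by omega), if_neg (by omega), if_pos (by omega)]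
    have : (3 * a.code + 2 - 1) / 3 = a.code := by omega
    rw [this, ih]

lemma code_dec (n : ℕ) : (dec n).code = n := by
  induction n using Nat.strong_induction_on with
  | _ n ih =>
    rw [dec]
    split_ifs with h1 h2 h3
    · simp [code, h1]
    · simp only [code]; omega
    · simp only [code]; rw [ih _ (by omega)]; omega
    · have := Nat.unpair_left_le ((n - 1) / 3)
      have := Nat.unpair_right_le ((n - 1) / 3)
      simp only [code]
      rw [ih _ (by omega), ih _ (by omega), Nat.pair_unpair]; omega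

lemma code_inj {a b : Fm} (h : a.code = b.code) : a = b := by
  rw [← dec_code a, h, dec_code]

/-- Level of a point: points `e` and `e + 1` share level `e`. -/
def lev (e k : ℕ) : ℕ := if k ≤ e then k else k - 1

def Re (e x y : ℕ) : Prop := lev e y < lev e x

lemma Re.lt {e x y : ℕ} (h : Re e x y) : y < x := by
  unfold Re lev at h; split_ifs at h <;> omega

def Vv (v m k : ℕ) : Prop := v / 2 ^ (Nat.pair m k) % 2 = 1

open Classical in
noncomputable def ev (a : ℕ × ℕ) (j : ℕ) : Bool :=
  decide (Sat (Re a.1) (Vv a.2) (dec j.unpair.1) j.unpair.2)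

def stepP (q : (ℕ × ℕ) × List Bool) : Prop :=
  ¬ q.2.length.unpair.1 = 0 ∧
  (((q.2.length.unpair.1 - 1) % 3 = 0 ∧
      q.1.2 / 2 ^ (Nat.pair ((q.2.length.unpair.1 - 1) / 3) q.2.length.unpair.2) % 2 = 1) ∨
   ((q.2.length.unpair.1 - 1) % 3 = 1 ∧
      ∀ k < q.2.length.unpair.2, ¬ lev q.1.1 k < lev q.1.1 q.2.length.unpair.2 ∨
        q.2.getD (Nat.pair ((q.2.length.unpair.1 - 1) / 3) k) false = true) ∨
   ((q.2.length.unpair.1 - 1) % 3 = 2 ∧
      (¬ q.2.getD (Nat.pair ((q.2.length.unpair.1 - 1) / 3).unpair.1 q.2.length.unpair.2) false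
          = true ∨
        q.2.getD (Nat.pair ((q.2.length.unpair.1 - 1) / 3).unpair.2 q.2.length.unpair.2) false
          = true)))

lemma pforall {α} [Primcodable α] {f : α → ℕ} {R : ℕ → α → Prop} (hf : Primrec f)
    (hR : PrimrecPred fun p : ℕ × α => R p.1 p.2) : PrimrecPred fun a => ∀ x < f a, R x a := by
  have h : PrimrecRel R := hR
  exact (h.forall_mem_list.comp (Primrec.list_range.comp hf) Primrec.id).of_eq (by simp)

lemma p_pow : Primrec₂ ((· ^ ·) : ℕ → ℕ → ℕ) := Primrec₂.unpaired'.1 Nat.Primrec.pow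

lemma p_lev : Primrec₂ lev :=
  Primrec.ite (Primrec.nat_le.comp Primrec.snd Primrec.fst) Primrec.snd
    (Primrec.nat_sub.comp Primrec.snd (Primrec.const 1))

open Primrec in
lemma p_stepP : PrimrecPred stepP := by
  have hc : Primrec fun q : (ℕ × ℕ) × List Bool => q.2.length.unpair.1 :=
    fst.comp (unpair.comp (list_length.comp snd))
  have hk : Primrec fun q : (ℕ × ℕ) × List Bool => q.2.length.unpair.2 :=
    snd.comp (unpair.comp (list_length.comp snd))
  have hr : Primrec fun q : (ℕ × ℕ) × List Bool => (q.2.length.unpair.1 - 1) % 3 :=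
    nat_mod.comp (nat_sub.comp hc (const 1)) (const 3)
  have hm : Primrec fun q : (ℕ × ℕ) × List Bool => (q.2.length.unpair.1 - 1) / 3 :=
    nat_div.comp (nat_sub.comp hc (const 1)) (const 3)
  refine (Primrec.eq.comp hc (const 0)).not.and (PrimrecPred.or ?_ (PrimrecPred.or ?_ ?_))
  · exact (Primrec.eq.comp hr (const 0)).and (Primrec.eq.comp (nat_mod.comp (nat_div.comp
      (snd.comp fst) (p_pow.comp (const 2) (Primrec₂.natPair.comp hm hk))) (const 2)) (const 1))
  · refine (Primrec.eq.comp hr (const 1)).and (pforall hk ?_)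
    refine PrimrecPred.or (PrimrecPred.not ?_) ?_
    · exact nat_lt.comp (p_lev.comp (fst.comp (fst.comp snd)) fst)
        (p_lev.comp (fst.comp (fst.comp snd)) (hk.comp snd))
    · exact Primrec.eq.comp ((list_getD false).comp (snd.comp snd)
        (Primrec₂.natPair.comp (hm.comp snd) fst)) (const true)
  · refine (Primrec.eq.comp hr (const 2)).and (PrimrecPred.or (PrimrecPred.not ?_) ?_)
    · exact Primrec.eq.comp ((list_getD false).comp snd
        (Primrec₂.natPair.comp (fst.comp (unpair.comp hm)) hk)) (const true)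
    · exact Primrec.eq.comp ((list_getD false).comp snd
        (Primrec₂.natPair.comp (snd.comp (unpair.comp hm)) hk)) (const true)

lemma getD_ev (a : ℕ × ℕ) (n c k : ℕ) (h : Nat.pair c k < n) :
    (((List.range n).map (ev a)).getD (Nat.pair c k) false = true) ↔
      Sat (Re a.1) (Vv a.2) (dec c) k := by
  rw [List.getD_eq_getElem _ _ (by simpa using h)]
  simp [ev]

lemma pair_lt {c c' k k' : ℕ} (h : c' < c) (hk : k' ≤ k) : Nat.pair c' k' < Nat.pair c k := by
  rcases hk.lt_or_eq with hk | rfl
  · exact (Nat.pair_lt_pair_right _ hk).trans (Nat.pair_lt_pair_left _ h)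
  · exact Nat.pair_lt_pair_left _ h

lemma stepP_iff (a : ℕ × ℕ) (n : ℕ) :
    stepP (a, (List.range n).map (ev a)) ↔ Sat (Re a.1) (Vv a.2) (dec n.unpair.1) n.unpair.2 := by
  obtain ⟨c, k, rfl⟩ : ∃ c k, n = Nat.pair c k := ⟨_, _, (Nat.pair_unpair n).symm⟩
  simp only [stepP, List.length_map, List.length_range, Nat.unpair_pair]
  rw [dec]
  split_ifs with h1 h2 h3
  · simp [h1]
  · simp [h1, h2, Vv]
  · simp only [h1, h3, not_false_eq_true, one_ne_zero, false_and, true_and, OfNat.one_ne_ofNat,
      or_false, false_or, sat_box]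
    constructor
    · intro H v hv
      rcases H v hv.lt with h | h
      · exact absurd hv h
      · exact (getD_ev a _ _ _ (pair_lt (by omega) hv.lt.le)).1 h
    · intro H v hv
      by_cases h : lev a.1 v < lev a.1 k
      · exact Or.inr ((getD_ev a _ _ _ (pair_lt (by omega) hv.le)).2 (H v h))
      · exact Or.inl h
  · have h4 : (c - 1) % 3 = 2 := by omega
    have := Nat.unpair_left_le ((c - 1) / 3)
    have := Nat.unpair_right_le ((c - 1) / 3)
    simp only [h1, h4, not_false_eq_true, true_and, sat_imp]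
    rw [getD_ev a _ _ _ (pair_lt (by omega) le_rfl), getD_ev a _ _ _ (pair_lt (by omega) le_rfl)]
    simp only [OfNat.ofNat_ne_zero, false_and, OfNat.ofNat_ne_one, false_or]
    tauto

lemma p_ev : Primrec₂ ev := by
  classical
  obtain ⟨_, h⟩ := p_stepP
  refine Primrec.nat_strong_rec ev (g := fun a l => some (decide (stepP (a, l))))
    (Primrec.option_some.comp (h.of_eq (fun q => by simp))) (fun a n => ?_)
  simp only [ev, Option.some.injEq, decide_eq_decide]
  exact stepP_iff a n

lemma p_sat : PrimrecPred fun q : (ℕ × ℕ) × (ℕ × ℕ) =>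
    Sat (Re q.1.1) (Vv q.1.2) (dec q.2.1) q.2.2 := by
  refine (Primrec.eq.comp (p_ev.comp Primrec.fst (Primrec₂.natPair.comp
    (Primrec.fst.comp Primrec.snd) (Primrec.snd.comp Primrec.snd))) (Primrec.const true)).of_eq ?_
  intro q
  simp [ev]

end Pool.Agent.Lead.Mod
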