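import Pool.Agent.Lead.Mod2

/-! A decidable extension of GL: definition and decidability. -/

namespace Pool.Agent.Lead.Mod

open Fm Nat.Partrec

def Allowed (e x : ℕ) : Prop :=
  e % 2 = 1 ∨ (Code.evaln x (Denumerable.ofNat Code (e / 2)) 0).isSome = false

lemma Allowed.mono {e x y : ℕ} (h : Allowed e x) (hy : y ≤ x) : Allowed e y := by
  rcases h with h | h
  · exact Or.inl h
  · right
    by_contra hc
    simp only [Bool.not_eq_false, Option.isSome_iff_exists] at hc
    obtain ⟨a, ha⟩ := hc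
    have := Code.evaln_mono hy (Option.mem_def.2 ha)
    rw [Option.mem_def] at this
    simp [this] at h

lemma p_allowed : PrimrecPred fun q : ℕ × ℕ => Allowed q.1 q.2 := by
  refine PrimrecPred.or (Primrec.eq.comp (Primrec.nat_mod.comp Primrec.fst (Primrec.const 2))
    (Primrec.const 1)) (Primrec.eq.comp (Primrec.option_isSome.comp ?_) (Primrec.const false))
  exact Code.primrec_evaln.comp ((Primrec.snd.pair ((Primrec.ofNat Code).comp
    (Primrec.nat_div.comp Primrec.fst (Primrec.const 2)))).pair (Primrec.const 0))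

def LU : Set Fm := {a | ∀ e x, Allowed e x → ∀ V, Sat (Re e) V a x}

lemma LU_normal : Normal LU where
  taut := fun a ha e x _ V => ha (fun b => Sat (Re e) V b x) (by simp) (by simp)
  axK := fun _ _ _ _ h1 h2 v hv => h1 v hv (h2 v hv)
  mp := fun _ _ h1 h2 e x hx V => h1 e x hx V (h2 e x hx V)
  nec := fun _ h e _ hx V v hv => h e v (hx.mono hv.lt.le) V
  subst := fun s a h e x hx V => by
    rw [sat_subst]
    exact h e x hx _

lemma LG_sub_LU : LG ⊆ LU := fun _ ha e x _ V =>
  frameFor_LG (Re e) (fun _ _ _ h1 h2 => lt_trans h2 h1)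
    (InvImage.wf (lev e) wellFounded_lt) _ ha V x

lemma select {e e' x' : ℕ} (V : ℕ → ℕ → Prop) (g : ℕ → ℕ) {X : Finset Fm} (hX : Clo X)
    (h1 : ∀ k ≤ x', ∀ k' ≤ x', Re e' k k' ↔ Re e (g k) (g k'))
    (h2 : ∀ a ∈ X, ∀ k ≤ x', ∀ z, Re e (g k) z → ¬ Sat (Re e) V a z →
      ∃ k' ≤ x', Re e (g k) (g k') ∧ ¬ Sat (Re e) V a (g k')) (a : Fm) :
    a ∈ X → ∀ k ≤ x', (Sat (Re e') (fun m k => V m (g k)) a k ↔ Sat (Re e) V a (g k)) := by
  induction a with
  | var n => intro _ k _; rfl
  | bot => intro _ k _; rfl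
  | imp a b iha ihb =>
    intro ha k hk
    have h := hX.1 a b ha
    rw [sat_imp, sat_imp, iha h.1 k hk, ihb h.2 k hk]
  | box a ih =>
    intro ha k hk
    have h := hX.2 a ha
    constructor
    · intro H z hz
      by_contra hc
      obtain ⟨k', hk', h3, h4⟩ := h2 a h k hk z hz hc
      exact h4 ((ih h k' hk').1 (H k' ((h1 k hk k' hk').2 h3)))
    · intro H v hv
      have hv' : v ≤ x' := hv.lt.le.trans hk
      exact (ih h v hv').2 (H _ ((h1 k hk v hv').1 hv))

def Ref (a : Fm) (e x : ℕ) : Prop := ∃ V, ¬ Sat (Re e) V a x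

lemma card_sub (a : Fm) : (sub a).card ≤ a.code + 1 := by
  induction a with
  | var n => simp [sub]
  | bot => simp [sub]
  | imp a b iha ihb =>
    have h1 := Finset.card_insert_le (imp a b) (sub a ∪ sub b)
    have h2 := Finset.card_union_le (sub a) (sub b)
    have h3 := Nat.left_le_pair a.code b.code
    have h4 := Nat.right_le_pair a.code b.code
    simp only [sub, code]; omega
  | box a ih =>
    have h1 := Finset.card_insert_le (box a) (sub a)
    simp only [sub, code]; omega

lemma delete {a : Fm} {e e' x lo : ℕ} (h : Ref a e (x + 1)) (hlo : lo + a.code + 1 ≤ x)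
    (he : (lo + a.code + 1 < e ∧ e = e' + 1) ∨ (e + 1 < lo ∧ e' = e)) : Ref a e' x := by
  classical
  obtain ⟨V, hV⟩ := h
  let B : Finset ℕ := (sub a).image (fun b => sInf {z | ¬ Sat (Re e) V b z})
  have hB : B.card < (Finset.Icc lo (lo + a.code + 1)).card := by
    have := Finset.card_image_le (s := sub a) (f := fun b => sInf {z | ¬ Sat (Re e) V b z})
    have := card_sub a
    simp only [Nat.card_Icc, B]; omega
  obtain ⟨j, hj, hjB⟩ := Finset.exists_mem_notMem_of_card_lt_card hB
  rw [Finset.mem_Icc] at hj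
  let g : ℕ → ℕ := fun k => if k < j then k else k + 1
  have key := select (e := e) (e' := e') (x' := x) V g (clo_sub a) ?_ ?_ a (self_mem_sub a) x le_rfl
  · refine ⟨fun m k => V m (g k), fun hh => hV ?_⟩
    have := key.1 hh
    rwa [show g x = x + 1 from if_neg (by omega)] at this
  · intro k _ k' _
    simp only [Re, lev, g]
    split_ifs <;> omega
  · intro b hb k hk z hz hbz
    set μ := sInf {z | ¬ Sat (Re e) V b z} with hμ
    have h1 : μ ∈ {z | ¬ Sat (Re e) V b z} := Nat.sInf_mem ⟨z, hbz⟩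
    have h2 : μ ≤ z := Nat.sInf_le hbz
    have h3 : μ ≠ j := fun hh => hjB (Finset.mem_image.2 ⟨b, hb, hh⟩)
    have h4 : g (if μ < j then μ else μ - 1) = μ := by
      simp only [g]; split_ifs <;> omega
    have h5 := hz.lt
    refine ⟨if μ < j then μ else μ - 1, ?_, ?_, ?_⟩
    · simp only [g] at h5; split_ifs at h5 ⊢ <;> omega
    · rw [h4]
      simp only [Re, lev] at hz ⊢
      split_ifs at hz ⊢ <;> omega
    · rw [h4]; exact h1

lemma lower {a : Fm} {e x : ℕ} (h : Ref a (e + 1) x) (hx : x ≤ e) : Ref a e x := by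
  obtain ⟨V, hV⟩ := h
  have key := select (e := e + 1) (e' := e) (x' := x) V id (clo_sub a) ?_ ?_ a
    (self_mem_sub a) x le_rfl
  · exact ⟨_, fun hh => hV (key.1 hh)⟩
  · intro k _ k' _
    simp only [Re, lev, id]
    split_ifs <;> omega
  · intro b _ k hk z hz hbz
    exact ⟨z, hz.lt.le.trans hk, hz, hbz⟩

lemma down {a : Fm} {e x : ℕ} (h : Ref a (e + 1) x) (he : a.code + 2 ≤ e) :
    ∃ x' ≤ x, Ref a e x' := by
  by_cases hx : x ≤ e
  · exact ⟨x, le_rfl, lower h hx⟩
  · obtain ⟨y, rfl⟩ : ∃ y, x = y + 1 := ⟨x - 1, by omega⟩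
    exact ⟨y, by omega, delete (lo := 0) h (by omega) (Or.inl ⟨by omega, rfl⟩)⟩

lemma small {a : Fm} (n : ℕ) : ∀ e x, e + x ≤ n → Allowed e x → Ref a e x →
    ∃ e < 2 * a.code + 9, ∃ x < 2 * a.code + 9, Allowed e x ∧ Ref a e x := by
  induction n with
  | zero => intro e x h h1 h2; exact ⟨e, by omega, x, by omega, h1, h2⟩
  | succ n ih =>
    intro e x h h1 h2
    by_cases hx : e + a.code + 4 ≤ x
    · obtain ⟨y, rfl⟩ : ∃ y, x = y + 1 := ⟨x - 1, by omega⟩
      exact ih e y (by omega) (h1.mono (by omega))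
        (delete (lo := e + 2) h2 (by omega) (Or.inr ⟨by omega, rfl⟩))
    by_cases he : a.code + 4 ≤ e
    · obtain ⟨d, rfl⟩ : ∃ d, e = d + 1 + 1 := ⟨e - 2, by omega⟩
      obtain ⟨y, hy, h3⟩ := down h2 (by omega)
      by_cases hp : d % 2 = 0
      · exact ih (d + 1) y (by omega) (Or.inl (by omega)) h3
      · obtain ⟨z, hz, h4⟩ := down h3 (by omega)
        exact ih d z (by omega) (Or.inl (by omega)) h4
    · exact ⟨e, by omega, x, by omega, h1, h2⟩

lemma sat_congr {e : ℕ} {V V' : ℕ → ℕ → Prop} (a : Fm) :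
    ∀ x, (∀ m ∈ sig a, ∀ k ≤ x, V m k ↔ V' m k) → (Sat (Re e) V a x ↔ Sat (Re e) V' a x) := by
  induction a with
  | var n => intro x h; exact h n (by simp [sig]) x le_rfl
  | bot => intro x _; rfl
  | imp a b iha ihb =>
    intro x h
    rw [sat_imp, sat_imp, iha x (fun m hm => h m (by simp [sig, hm])),
      ihb x (fun m hm => h m (by simp [sig, hm]))]
  | box a ih =>
    intro x h
    simp only [sat_box]
    exact forall_congr' fun v => imp_congr_right fun hv =>
      ih v (fun m hm k hk => h m hm k (hk.trans hv.lt.le))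

lemma sig_le {a : Fm} {m : ℕ} (h : m ∈ sig a) : m ≤ a.code := by
  induction a with
  | var n => simp only [sig, Finset.mem_singleton] at h; simp only [code]; omega
  | bot => simp [sig] at h
  | imp a b iha ihb =>
    have h3 := Nat.left_le_pair a.code b.code
    have h4 := Nat.right_le_pair a.code b.code
    simp only [sig, Finset.mem_union] at h
    simp only [code]
    rcases h with h | h
    · have := iha h; omega
    · have := ihb h; omega
  | box a ih => have := ih h; simp only [code]; omega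

lemma exists_bits (p : ℕ → Prop) (M : ℕ) :
    ∃ v < 2 ^ M, ∀ i < M, (v / 2 ^ i % 2 = 1 ↔ p i) := by
  classical
  refine ⟨Nat.ofBits (fun i : Fin M => decide (p i)), Nat.ofBits_lt_two_pow _, fun i hi => ?_⟩
  have := Nat.testBit_ofBits_lt (fun i : Fin M => decide (p i)) i hi
  rw [Nat.testBit_eq_decide_div_mod_eq] at this
  simpa using this

lemma mem_LU_iff (a : Fm) : a ∈ LU ↔ ∀ e < 2 * a.code + 9, ∀ x < 2 * a.code + 9,
    ∀ v < 2 ^ ((2 * a.code + 9) ^ 2), ¬ Allowed e x ∨ Sat (Re e) (Vv v) a x := by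
  constructor
  · intro h e _ x _ v _
    by_cases hA : Allowed e x
    · exact Or.inr (h e x hA _)
    · exact Or.inl hA
  · intro h e x hA V
    by_contra hc
    obtain ⟨e, he, x, hx, hA, V, hV⟩ := small _ e x le_rfl hA ⟨V, hc⟩
    obtain ⟨v, hv, H⟩ := exists_bits (fun i => V i.unpair.1 i.unpair.2) ((2 * a.code + 9) ^ 2)
    rcases h e he x hx v hv with h | h
    · exact h hA
    · refine hV ((sat_congr a x (fun m hm k hk => ?_)).1 h)
      have h1 := sig_le hm
      have h2 : Nat.pair m k < (2 * a.code + 9) ^ 2 :=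
        (Nat.pair_lt_max_add_one_sq m k).trans_le (Nat.pow_le_pow_left (by omega) 2)
      simpa [Vv] using H _ h2

lemma p_LU : PrimrecPred fun n => dec n ∈ LU := by
  have hb : Primrec fun n : ℕ => 2 * n + 9 :=
    Primrec.nat_add.comp (Primrec.nat_mul.comp (Primrec.const 2) Primrec.id) (Primrec.const 9)
  have : PrimrecPred fun n : ℕ => ∀ e < 2 * n + 9, ∀ x < 2 * n + 9,
      ∀ v < 2 ^ ((2 * n + 9) ^ 2), ¬ Allowed e x ∨ Sat (Re e) (Vv v) (dec n) x := by
    refine pforall hb (pforall (hb.comp Primrec.snd) (pforall (p_pow.comp (Primrec.const 2)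
      (p_pow.comp (hb.comp (Primrec.snd.comp Primrec.snd)) (Primrec.const 2))) ?_))
    refine PrimrecPred.or (PrimrecPred.not ?_) ?_
    · exact p_allowed.comp ((Primrec.fst.comp (Primrec.snd.comp Primrec.snd)).pair
        (Primrec.fst.comp Primrec.snd))
    · exact p_sat.comp (((Primrec.fst.comp (Primrec.snd.comp Primrec.snd)).pair Primrec.fst).pair
        ((Primrec.snd.comp (Primrec.snd.comp Primrec.snd)).pair (Primrec.fst.comp Primrec.snd)))
  refine this.of_eq fun n => ?_
  rw [mem_LU_iff, code_dec]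

end Pool.Agent.Lead.Mod
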