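import Pool.Agent.Lead.Mod3

/-! Interpolant existence for `LU` encodes the halting problem. -/

namespace Pool.Agent.Lead.Mod

open Fm Nat.Partrec

def bx : ℕ → Fm
  | 0 => bot
  | k + 1 => box (bx k)

lemma sat_bx {e : ℕ} {V : ℕ → ℕ → Prop} (k : ℕ) : ∀ x, Sat (Re e) V (bx k) x ↔ lev e x < k := by
  induction k with
  | zero => simp [bx]
  | succ k ih =>
    intro x
    simp only [bx, sat_box, ih, Re]
    constructor
    · intro H
      by_contra hc
      have := H (if k ≤ e then k else k + 1)
      simp only [lev] at this hc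
      split_ifs at this hc <;> omega
    · intro H v hv; omega

lemma sig_bx (k : ℕ) : sig (bx k) = ∅ := by
  induction k with
  | zero => rfl
  | succ k ih => simpa [bx, sig] using ih

def atl (e : ℕ) : Fm := Fm.and (bx (e + 1)) (neg (bx e))

def chi (e : ℕ) : Fm :=
  Fm.and (dia (Fm.and (atl e) (var 4))) (dia (Fm.and (atl e) (neg (var 4))))

def first (p p' q : ℕ) : Fm :=
  Fm.and (dia (Fm.and (var p) (dia (neg (var q))))) (box (imp (var p') (box (var q))))

def Phi (e : ℕ) : Fm := Fm.and (chi e) (first 0 1 2)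

def Psi : Fm := neg (first 1 0 3)

def io : ℕ → Fm
  | 0 => bot
  | k + 1 => Fm.or (io k)
      (Fm.and (dia (Fm.and (var 0) (neg (bx k)))) (box (imp (var 1) (bx k))))

lemma sat_io {e : ℕ} {V : ℕ → ℕ → Prop} (t x : ℕ) : Sat (Re e) V (io t) x ↔
    ∃ k < t, (∃ y, Re e x y ∧ V 0 y ∧ k ≤ lev e y) ∧ ∀ z, Re e x z → V 1 z → lev e z < k := by
  induction t with
  | zero => simp [io]
  | succ t ih =>
    simp only [io, sat_or, ih, sat_and, sat_dia, sat_var, sat_neg, sat_bx, sat_box, sat_imp,
      not_lt]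
    constructor
    · rintro (⟨k, hk, h⟩ | h)
      · exact ⟨k, by omega, h⟩
      · exact ⟨t, by omega, h⟩
    · rintro ⟨k, hk, h⟩
      rcases Nat.lt_succ_iff_lt_or_eq.1 hk with hk | rfl
      · exact Or.inl ⟨k, hk, h⟩
      · exact Or.inr h

lemma sig_io (t : ℕ) : sig (io t) ⊆ {0, 1} := by
  induction t with
  | zero => simp [io, sig]
  | succ t ih =>
    simp only [io, Fm.or, Fm.and, dia, neg, sig, sig_bx, Finset.union_empty]
    intro m hm
    simp only [Finset.mem_union, Finset.mem_singleton] at hm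
    rcases hm with h | h | h
    · exact ih h
    · simp [h]
    · simp [h]

lemma sig_common (e : ℕ) : sig (Phi e) ∩ sig Psi = {0, 1} := by
  simp only [Phi, Psi, chi, atl, first, Fm.and, dia, neg, sig, sig_bx, Finset.union_empty]
  decide

lemma sat_first {e : ℕ} {V : ℕ → ℕ → Prop} (p p' q x : ℕ) : Sat (Re e) V (first p p' q) x ↔
    (∃ y, Re e x y ∧ V p y ∧ ∃ u, Re e y u ∧ ¬ V q u) ∧
      ∀ z, Re e x z → V p' z → ∀ u, Re e z u → V q u := by
  simp [first]

lemma sat_chi {e e' : ℕ} {V : ℕ → ℕ → Prop} (x : ℕ) : Sat (Re e') V (chi e) x ↔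
    (∃ y, Re e' x y ∧ lev e' y = e ∧ V 4 y) ∧ (∃ y, Re e' x y ∧ lev e' y = e ∧ ¬ V 4 y) := by
  have : ∀ y, Sat (Re e') V (atl e) y ↔ lev e' y = e := by
    intro y
    simp only [atl, sat_and, sat_neg, sat_bx]; omega
  simp only [chi, sat_and, sat_dia, this, sat_var, sat_neg]

lemma interp_of_halt {e t : ℕ} (h : ∀ x, Allowed e x → x < t) :
    Interpolant LU (Phi e) Psi (io t) := by
  refine ⟨by rw [sig_common]; exact sig_io t, ?_, ?_⟩
  · intro e' x hA V H
    simp only [Phi, sat_and, sat_chi, sat_first] at H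
    obtain ⟨⟨⟨y, -, hy, hy'⟩, ⟨y', -, hz, hz'⟩⟩, ⟨x1, hx1, hp, u, hu, hq⟩, H⟩ := H
    have hne : y ≠ y' := fun hh => hz' (hh ▸ hy')
    have he : e' = e := by
      simp only [lev] at hy hz; split_ifs at hy hz <;> omega
    subst he
    have hx := h x hA
    rw [sat_io]
    refine ⟨lev e' x1, ?_, ⟨x1, hx1, hp, le_rfl⟩, fun z hz hz1 => ?_⟩
    · have := hx1.lt
      simp only [lev]; split_ifs <;> omega
    · by_contra hc
      exact hq (H z hz hz1 u (by simp only [Re] at hu ⊢; omega))
  · intro e' x _ V H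
    rw [sat_io] at H
    obtain ⟨k, -, ⟨y, hy, hp, hk⟩, H⟩ := H
    simp only [Psi, sat_neg, sat_first]
    rintro ⟨⟨z, hz, hz1, u, hu, hq⟩, H'⟩
    have := H z hz hz1
    exact hq (H' y hy hp u (by simp only [Re] at hu ⊢; omega))

def Wv (m k : ℕ) : Prop := (m = 0 ∧ k % 2 = 0) ∨ (m = 1 ∧ k % 2 = 1)

lemma ev_const (e : ℕ) (a : Fm) :
    (∀ᶠ x in Filter.atTop, Sat (Re e) (fun m k => k < x ∧ Wv m k) a x) ∨
    (∀ᶠ x in Filter.atTop, ¬ Sat (Re e) (fun m k => k < x ∧ Wv m k) a x) := by
  induction a with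
  | var n => right; simp
  | bot => right; simp
  | imp a b iha ihb =>
    rcases ihb with hb | hb
    · left; filter_upwards [hb] with x h _ using h
    · rcases iha with ha | ha
      · right; filter_upwards [ha, hb] with x h1 h2 h using h2 (h h1)
      · left; filter_upwards [ha] with x h1 h using absurd h h1
  | box a _ =>
    have key : ∀ x y, y < x →
        (Sat (Re e) (fun m k => k < x ∧ Wv m k) a y ↔ Sat (Re e) Wv a y) :=
      fun x y h => sat_congr a y (fun m _ k hk => ⟨fun h => h.2, fun h' => ⟨by omega, h'⟩⟩)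
    by_cases h : ∀ y, Sat (Re e) Wv a y
    · left
      exact Filter.Eventually.of_forall fun x y hy => (key x y hy.lt).2 (h y)
    · right
      push Not at h
      obtain ⟨y, hy⟩ := h
      filter_upwards [Filter.eventually_ge_atTop (y + 2)] with x hx H
      refine hy ((key x y (by omega)).1 (H y ?_))
      simp only [Re, lev]; split_ifs <;> omega

lemma no_interp_of_loop {e : ℕ} (h : ∀ x, Allowed e x) : ¬ ∃ ι, Interpolant LU (Phi e) Psi ι := by
  rintro ⟨ι, h1, h2, h3⟩
  rw [sig_common] at h1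
  let VV : ℕ → ℕ → ℕ → Prop := fun x m k =>
    if m ≤ 1 then k < x ∧ Wv m k else if m = 4 then k = e else k + 2 < x
  have hV : ∀ x, Sat (Re e) (VV x) ι x ↔ Sat (Re e) (fun m k => k < x ∧ Wv m k) ι x := by
    intro x
    refine sat_congr ι x (fun m hm k _ => ?_)
    have := h1 hm
    simp only [Finset.mem_insert, Finset.mem_singleton] at this
    simp only [VV]
    rw [if_pos (by omega)]
  have fst : ∀ x p p' q, e + 4 ≤ x → p ≤ 1 → p' ≤ 1 → p + p' = 1 → (x + p) % 2 = 1 → 1 < q →
      q ≠ 4 → Sat (Re e) (VV x) (first p p' q) x := by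
    intro x p p' q hx hp hp' hpp hpar hq hq'
    rw [sat_first]
    simp only [VV, if_pos hp, if_pos hp', if_neg (not_le.2 hq), if_neg hq', Wv]
    refine ⟨⟨x - 1, ?_, ⟨by omega, by omega⟩, x - 2, ?_, by omega⟩, ?_⟩
    · simp only [Re, lev]; split_ifs <;> omega
    · simp only [Re, lev]; split_ifs <;> omega
    · intro z _ hz u hu
      have := hu.lt
      omega
  rcases ev_const e ι with H | H
  · obtain ⟨N, hN⟩ := Filter.eventually_atTop.1 H
    have := h3 e (2 * (N + e + 4)) (h _) _ ((hV _).2 (hN _ (by omega)))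
    exact this (fst _ 1 0 3 (by omega) (by omega) (by omega) (by omega) (by omega) (by omega)
      (by omega))
  · obtain ⟨N, hN⟩ := Filter.eventually_atTop.1 H
    refine hN (2 * (N + e + 4) + 1) (by omega) ((hV _).1 (h2 e _ (h _) _ ?_))
    rw [Phi, sat_and, sat_chi]
    refine ⟨⟨⟨e, ?_, ?_, ?_⟩, ⟨e + 1, ?_, ?_, ?_⟩⟩, fst _ 0 1 2 (by omega) (by omega) (by omega)
      (by omega) (by omega) (by omega) (by omega)⟩
    · simp only [Re, lev]; split_ifs <;> omega
    · simp [lev]
    · simp [VV]
    · simp only [Re, lev]; split_ifs <;> omega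
    · simp [lev]
    · simp [VV]

lemma interp_iff (c : Code) :
    (∃ ι, Interpolant LU (Phi (2 * Encodable.encode c)) Psi ι) ↔ (c.eval 0).Dom := by
  have hA : ∀ x, Allowed (2 * Encodable.encode c) x ↔ (Code.evaln x c 0).isSome = false := by
    intro x
    have : 2 * Encodable.encode c / 2 = Encodable.encode c := by omega
    simp [Allowed, this]
  constructor
  · intro h
    by_contra hc
    refine no_interp_of_loop (fun x => (hA x).2 ?_) h
    by_contra hx
    simp only [Bool.not_eq_false, Option.isSome_iff_exists] at hx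
    obtain ⟨a, ha⟩ := hx
    exact hc (Part.dom_iff_mem.2 ⟨a, Code.evaln_sound (Option.mem_def.2 ha)⟩)
  · intro h
    obtain ⟨a, ha⟩ := Part.dom_iff_mem.1 h
    obtain ⟨t, ht⟩ := Code.evaln_complete.1 ha
    refine ⟨io t, interp_of_halt fun x hx => ?_⟩
    by_contra hc
    have := (hA t).1 (hx.mono (by omega))
    rw [Option.mem_def] at ht
    simp [ht] at this

section prim
variable {f g : ℕ → Fm}

lemma pc_imp (hf : Primrec fun e => (f e).code) (hg : Primrec fun e => (g e).code) :
    Primrec fun e => (imp (f e) (g e)).code :=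
  Primrec.nat_add.comp (Primrec.nat_mul.comp (Primrec.const 3) (Primrec₂.natPair.comp hf hg))
    (Primrec.const 3)

lemma pc_box (hf : Primrec fun e => (f e).code) : Primrec fun e => (box (f e)).code :=
  Primrec.nat_add.comp (Primrec.nat_mul.comp (Primrec.const 3) hf) (Primrec.const 2)

lemma pc_neg (hf : Primrec fun e => (f e).code) : Primrec fun e => (neg (f e)).code :=
  pc_imp (g := fun _ => bot) hf (Primrec.const _)

lemma pc_and (hf : Primrec fun e => (f e).code) (hg : Primrec fun e => (g e).code) :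
    Primrec fun e => (Fm.and (f e) (g e)).code :=
  pc_neg (f := fun e => imp (f e) (neg (g e))) (pc_imp hf (pc_neg hg))

lemma pc_dia (hf : Primrec fun e => (f e).code) : Primrec fun e => (dia (f e)).code :=
  pc_neg (f := fun e => box (neg (f e))) (pc_box (pc_neg hf))

lemma pc_bx : Primrec fun e => (bx e).code := by
  have : Primrec fun e : ℕ => (Nat.rec 0 (fun _ ih => 3 * ih + 2) e : ℕ) :=
    Primrec.nat_rec₁ 0 (Primrec.nat_add.comp (Primrec.nat_mul.comp (Primrec.const 3)
      Primrec.snd) (Primrec.const 2)).to₂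
  refine this.of_eq fun e => ?_
  induction e with
  | zero => rfl
  | succ e ih => simp only [bx, code, ← ih]

lemma pc_Phi : Primrec fun e => (Phi e).code := by
  have h : Primrec fun e => (atl e).code :=
    pc_and (f := fun e => bx (e + 1)) (pc_bx.comp Primrec.succ) (pc_neg pc_bx)
  exact pc_and (f := chi) (g := fun _ => first 0 1 2)
    (pc_and (pc_dia (pc_and (g := fun _ => var 4) h (Primrec.const _)))
      (pc_dia (pc_and (g := fun _ => neg (var 4)) h (Primrec.const _)))) (Primrec.const _)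

end prim

end Pool.Agent.Lead.Mod
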