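import Mathlib

/-! Basic unimodal logic: syntax, normal logics, Kripke semantics, bisimulations. -/

namespace Pool.Agent.Lead.Mod

/-- Unimodal formulas over the variables `p₀, p₁, …` (basis `⊥, →, □`). -/
inductive Fm : Type
  | var : ℕ → Fm
  | bot : Fm
  | imp : Fm → Fm → Fm
  | box : Fm → Fm
  deriving DecidableEq

namespace Fm

def neg (a : Fm) : Fm := imp a bot
def top : Fm := neg bot
def or (a b : Fm) : Fm := imp (neg a) b
def and (a b : Fm) : Fm := neg (imp a (neg b))
def dia (a : Fm) : Fm := neg (box (neg a))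

/-- The conjunction of a list of formulas. -/
def conj : List Fm → Fm
  | [] => top
  | a :: l => and a (conj l)

/-- `sig φ`: the set of variables occurring in `φ`. -/
def sig : Fm → Finset ℕ
  | var n => {n}
  | bot => ∅
  | imp a b => sig a ∪ sig b
  | box a => sig a

/-- Uniform substitution. -/
def subst (s : ℕ → Fm) : Fm → Fm
  | var n => s n
  | bot => bot
  | imp a b => imp (subst s a) (subst s b)
  | box a => box (subst s a)

end Fm

open Fm

/-- (Substitution instances of) classical tautologies: formulas true under every Boolean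
valuation that treats variables and boxed formulas as atoms. -/
def Taut (a : Fm) : Prop :=
  ∀ v : Fm → Prop, ¬ v bot → (∀ b c, v (imp b c) ↔ (v b → v c)) → v a

/-- Normal modal logics. -/
structure Normal (L : Set Fm) : Prop where
  taut : ∀ a, Taut a → a ∈ L
  axK : imp (box (imp (var 0) (var 1))) (imp (box (var 0)) (box (var 1))) ∈ L
  mp : ∀ a b, imp a b ∈ L → a ∈ L → b ∈ L
  nec : ∀ a, a ∈ L → box a ∈ L
  subst : ∀ s a, a ∈ L → Fm.subst s a ∈ L

/-- Truth at a point of the Kripke model `(W, R, V)`. -/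
def Sat {W : Type} (R : W → W → Prop) (V : ℕ → W → Prop) : Fm → W → Prop
  | var n, w => V n w
  | bot, _ => False
  | imp a b, w => Sat R V a w → Sat R V b w
  | box a, w => ∀ v, R w v → Sat R V a v

/-- The Kripke frame `(W, R)` validates every formula of `L`. -/
def FrameFor (L : Set Fm) {W : Type} (R : W → W → Prop) : Prop :=
  ∀ a ∈ L, ∀ (V : ℕ → W → Prop) (w : W), Sat R V a w

/-- `Z` is a `σ`-bisimulation between the two models. -/
def IsBisim (σ : Finset ℕ) {W₁ W₂ : Type} (R₁ : W₁ → W₁ → Prop) (V₁ : ℕ → W₁ → Prop)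
    (R₂ : W₂ → W₂ → Prop) (V₂ : ℕ → W₂ → Prop) (Z : W₁ → W₂ → Prop) : Prop :=
  ∀ x y, Z x y →
    (∀ n ∈ σ, V₁ n x ↔ V₂ n y) ∧
    (∀ x', R₁ x x' → ∃ y', R₂ y y' ∧ Z x' y') ∧
    (∀ y', R₂ y y' → ∃ x', R₁ x x' ∧ Z x' y')

/-- `ι` is a Craig interpolant of `a, b` in `L`. -/
def Interpolant (L : Set Fm) (a b ι : Fm) : Prop :=
  sig ι ⊆ sig a ∩ sig b ∧ imp a ι ∈ L ∧ imp ι b ∈ L

/-- `Γ` is `L`-consistent: no finite conjunction of members of `Γ` is refuted by `L`. -/
def Consistent (L : Set Fm) (Γ : Set Fm) : Prop :=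
  ∀ l : List Fm, (∀ a ∈ l, a ∈ Γ) → neg (conj l) ∉ L

end Pool.Agent.Lead.Mod
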