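import Mathlib

namespace Pool.Agent.Lead.Mon
open Set Filter Topology MeasureTheory

abbrev N := ℕ → ℕ
abbrev Y := ℕ → Bool

theorem cont_param {Z β : Type} [TopologicalSpace Z] [TopologicalSpace β] (a : Z → ℕ)
    (ha : Continuous a) (G : ℕ → Z → β) (hG : ∀ k, Continuous (G k)) :
    Continuous fun z => G (a z) z :=
  (continuous_prod_of_discrete_left (f := fun p : ℕ × Z => G p.1 p.2).2 hG).comp
    (ha.prodMk continuous_id)

def φ (l : FreeMonoid N) : ℕ × (ℕ → N) := (l.toList.length, fun i => l.toList.getD i 0)

def top : TopologicalSpace (FreeMonoid N) := TopologicalSpace.induced φ inferInstance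

theorem φ_inj : Function.Injective φ := by
  intro l l' h
  have h1 : l.toList.length = l'.toList.length := congrArg Prod.fst h
  apply FreeMonoid.toList.injective
  refine List.ext_getElem h1 fun i h2 h3 => ?_
  have := congrFun (congrArg Prod.snd h) i
  simpa [φ, List.getD_eq_getElem, h2, h3] using this

theorem φ_range : range φ = ⋂ i, {p | i < p.1 ∨ p.2 i = 0} := by
  ext p
  simp only [mem_range, mem_iInter, mem_ofPred_eq]
  constructor
  · rintro ⟨l, rfl⟩ i
    by_cases h : i < l.toList.length
    · exact Or.inl h
    · exact Or.inr (List.getD_eq_default _ _ (not_lt.1 h))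
  · intro h
    refine ⟨FreeMonoid.ofList (List.ofFn fun i : Fin p.1 => p.2 i), Prod.ext (by simp [φ])
      (funext fun i => ?_)⟩
    by_cases hi : i < p.1
    · simp [φ, List.getD_eq_getElem, hi]
    · simp only [φ, FreeMonoid.toList_ofList]
      rw [List.getD_eq_default _ _ (by simpa using hi), (h i).resolve_left hi]

theorem polish : @PolishSpace _ top := by
  let _ := top
  have h : IsClosedEmbedding φ := ⟨⟨⟨rfl⟩, φ_inj⟩, by
    rw [φ_range]
    exact isClosed_iInter fun i => IsClosed.union
      ((isClosed_discrete {n | i < n}).preimage continuous_fst)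
      (isClosed_eq (by fun_prop) continuous_const)⟩
  exact h.polishSpace

theorem cmul : @ContinuousMul _ top _ := by
  let _ := top
  have hφ : Continuous φ := continuous_induced_dom
  refine ⟨continuous_induced_rng.2 ?_⟩
  have : φ ∘ (fun p : FreeMonoid N × FreeMonoid N => p.1 * p.2) = fun p =>
      ((φ p.1).1 + (φ p.2).1, fun i => if i < (φ p.1).1 then (φ p.1).2 i
        else (φ p.2).2 (i - (φ p.1).1)) := by
    funext p
    refine Prod.ext (by simp [φ]) (funext fun i => ?_)
    simp only [φ, Function.comp, FreeMonoid.toList_mul]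
    split_ifs with h
    · exact List.getD_append _ _ _ _ h
    · exact List.getD_append_right _ _ _ _ (not_lt.1 h)
  rw [this]
  clear this
  generalize φ = φ at hφ
  refine Continuous.prodMk (by fun_prop) (continuous_pi fun i => ?_)
  refine cont_param (fun p : FreeMonoid N × FreeMonoid N => (φ p.1).1) (by fun_prop)
    (fun k p => if i < k then (φ p.1).2 i else (φ p.2).2 (i - k)) fun k => ?_
  split_ifs <;> fun_prop

open Classical in
noncomputable def step (q : Y × Y) (y : Y) : Y :=
  fun n => if ∀ i ≤ n, y i = q.1 i then q.2 n else y n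

theorem step_cont : Continuous fun p : (Y × Y) × Y => step p.1 p.2 := by
  classical
  refine continuous_pi fun n => ?_
  have hc : Continuous fun t : (Fin (n + 1) → Bool) ×
      (Fin (n + 1) → Bool) × Bool × Bool => if t.1 = t.2.1 then t.2.2.1 else t.2.2.2 :=
    continuous_of_discreteTopology
  have h2 : Continuous fun p : (Y × Y) × Y => ((fun i : Fin (n + 1) => p.2 i),
      (fun i : Fin (n + 1) => p.1.1 i), p.1.2 n, p.2 n) := by fun_prop
  refine (hc.comp h2).congr fun p => ?_
  simp only [Function.comp, step, funext_iff]
  congr 1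
  exact propext ⟨fun h i hi => h ⟨i, Nat.lt_succ_of_le hi⟩, fun h i => h i (Nat.le_of_lt_succ i.2)⟩

theorem step_self (q : Y × Y) : step q q.1 = q.2 := by
  funext n; simp [step]

theorem step_ne (q : Y × Y) (y : Y) (h : y ≠ q.1) : ∀ᶠ n in atTop, step q y n = y n := by
  obtain ⟨i, hi⟩ := Function.ne_iff.1 h
  filter_upwards [eventually_ge_atTop i] with n hn
  exact if_neg fun h => hi (h i hn)

noncomputable def act (π : N → Y × Y) (l : FreeMonoid N) (y : Y) : Y :=
  l.toList.foldr (fun w y => step (π w) y) y

noncomputable def A (π : N → Y × Y) : ℕ → (ℕ → N) → Y → Y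
  | 0, _, y => y
  | n + 1, f, y => step (π (f 0)) (A π n (fun i => f (i + 1)) y)

theorem act_eq (π : N → Y × Y) (l : List N) (y : Y) :
    l.foldr (fun w y => step (π w) y) y = A π l.length (fun i => l.getD i 0) y := by
  induction l with
  | nil => rfl
  | cons a l ih => simp only [List.foldr_cons, ih]; rfl

theorem A_cont (π : N → Y × Y) (hπ : Continuous π) (n : ℕ) :
    Continuous fun p : (ℕ → N) × Y => A π n p.1 p.2 := by
  induction n with
  | zero => exact continuous_snd
  | succ n ih =>
    exact step_cont.comp (f := fun p : (ℕ → N) × Y =>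
      (π (p.1 0), A π n (fun i => p.1 (i + 1)) p.2)) ((hπ.comp (by fun_prop)).prodMk
        (ih.comp (f := fun p : (ℕ → N) × Y => (fun i => p.1 (i + 1), p.2)) (by fun_prop)))

theorem act_cont (π : N → Y × Y) (hπ : Continuous π) :
    @Continuous _ _ (@instTopologicalSpaceProd _ _ top _) _
      fun p : FreeMonoid N × Y => act π p.1 p.2 := by
  let _ := top
  have hφ : Continuous φ := continuous_induced_dom
  refine (cont_param (fun p : FreeMonoid N × Y => (φ p.1).1) (hφ.comp continuous_fst).fst
    (fun k p => A π k (φ p.1).2 p.2) fun k => (A_cont π hπ k).comp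
      (f := fun p : FreeMonoid N × Y => ((φ p.1).2, p.2))
      ((hφ.comp continuous_fst).snd.prodMk continuous_snd)).congr fun p => ?_
  exact (act_eq π _ _).symm

open Classical in
noncomputable def bits (y : Y) : Y := fun i => decide (∀ m, ∃ n ≥ m, y (Nat.pair i n) = true)

theorem bits_meas : Measurable bits := by
  classical
  refine measurable_pi_lambda _ fun i => ?_
  have : Measurable fun y : Y => ∀ m, ∃ n ≥ m, y (Nat.pair i n) = true :=
    Measurable.forall fun m => Measurable.exists fun n => measurable_const.and
      (measurableSet_setOfPred.1 ((measurableSet_singleton true).preimage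
        (measurable_pi_apply _)))
  exact (Measurable.of_discrete (f := fun p : Prop => @decide p (Classical.propDecidable p))).comp
    this

theorem bits_congr (y y' : Y) (h : ∀ᶠ n in atTop, y n = y' n) : bits y = bits y' := by
  obtain ⟨M, hM⟩ := eventually_atTop.1 h
  funext i
  simp only [bits, decide_eq_decide]
  have e : ∀ n ≥ M, y (Nat.pair i n) = y' (Nat.pair i n) := fun n hn =>
    hM _ (hn.trans (Nat.right_le_pair i n))
  constructor <;> intro h m <;> obtain ⟨n, hn, h⟩ := h (max m M)
  · exact ⟨n, le_of_max_le_left hn, e n (le_of_max_le_right hn) ▸ h⟩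
  · exact ⟨n, le_of_max_le_left hn, (e n (le_of_max_le_right hn)).symm ▸ h⟩

theorem bits_sec (z : Y) : bits (fun k => z k.unpair.1) = z := by
  funext i
  cases h : z i
  · simp [bits, h]
  · simp only [bits, Nat.unpair_pair, h, and_true, decide_eq_true_eq]
    exact fun m => ⟨m, le_rfl⟩

theorem main {X : Type} [TopologicalSpace X] [PolishSpace X] [MeasurableSpace X] [BorelSpace X]
    [Nonempty X] (R : X → X → Prop) (hr : ∀ x, R x x) (ht : ∀ x y z, R x y → R y z → R x z)
    (hR : AnalyticSet {p : X × X | R p.1 p.2}) :
    ∃ π : N → Y × Y, Continuous π ∧ ∃ (e : X → Y) (val : Y → X), Measurable e ∧ Measurable val ∧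
      (∀ x, val (e x) = x) ∧ ∀ y y', (∃ g, act π g y = y') ↔ R (val y) (val y') := by
  have hι := (MeasurableSpace.measurable_mapNatBool X).measurableEmbedding
    (MeasurableSpace.injective_mapNatBool X)
  let val : Y → X := fun y => hι.invFun (bits y)
  have hval : Measurable val := hι.measurable_invFun.comp bits_meas
  have hA : AnalyticSet {q : Y × Y | R (val q.1) (val q.2)} := by
    rw [AnalyticSet] at hR
    rcases hR with h | ⟨h, hc, hh⟩
    · obtain ⟨x⟩ := ‹Nonempty X›
      exact absurd (show (x, x) ∈ {p : X × X | R p.1 p.2} from hr x) (by rw [h]; simp)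
    · have : {q : Y × Y | R (val q.1) (val q.2)} =
          Prod.fst '' {t : (Y × Y) × N | (val t.1.1, val t.1.2) = h t.2} := by
        ext q
        simp only [mem_ofPred_eq, mem_image, Prod.exists, exists_and_right]
        constructor
        · intro hq
          have : (val q.1, val q.2) ∈ range h := by rw [hh]; exact hq
          obtain ⟨w, hw⟩ := this
          exact ⟨q.1, q.2, ⟨w, hw.symm⟩, rfl⟩
        · rintro ⟨a, b, ⟨w, hw⟩, rfl⟩
          have : h w ∈ {p : X × X | R p.1 p.2} := hh ▸ mem_range_self w
          rw [← hw] at this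
          exact this
      rw [this]
      have : PolishSpace Y := {}
      exact MeasurableSet.analyticSet_image (measurableSet_eq_fun (by fun_prop)
        (hc.measurable.comp measurable_snd)) measurable_fst
  rw [AnalyticSet] at hA
  rcases hA with h | ⟨π, hπ, hh⟩
  · exact absurd (show ((0 : ℕ → Bool), (0 : ℕ → Bool)) ∈ {q : Y × Y | R (val q.1) (val q.2)}
      from hr _) (by rw [h]; simp)
  refine ⟨π, hπ, fun x k => MeasurableSpace.mapNatBool X x k.unpair.1, val, ?_, hval, fun x => ?_,
    fun y y' => ⟨?_, fun h => ?_⟩⟩
  · exact measurable_pi_lambda _ fun k => (measurable_pi_apply _).comp hι.measurable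
  · simp only [val, bits_sec]; exact hι.leftInverse_invFun x
  · rintro ⟨g, rfl⟩
    unfold act
    induction g.toList with
    | nil => exact hr _
    | cons w l ih =>
      refine ht _ _ _ ih ?_
      rw [List.foldr_cons]
      generalize List.foldr (fun w y => step (π w) y) y l = z
      by_cases hz : z = (π w).1
      · rw [hz, step_self]
        have : π w ∈ {q : Y × Y | R (val q.1) (val q.2)} := hh ▸ mem_range_self w
        exact this
      · simp only [val, bits_congr _ _ (step_ne _ _ hz)]
        exact hr _
  · have : (y, y') ∈ range π := by rw [hh]; exact h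
    obtain ⟨w, hw⟩ := this
    refine ⟨FreeMonoid.of w, ?_⟩
    change step (π w) y = y'
    rw [hw]; exact step_self (y, y')

end Pool.Agent.Lead.Mon
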