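import Pool.Agent.Lead.NnfDefs

namespace Pool.Agent.Lead.Nnf

open NF

deriving instance Countable for NF

@[simp] lemma neg_neg' (a : NF) : a.neg.neg = a := by
  induction a <;> simp_all [neg]

lemma bval_neg (v w) (a : NF) : a.neg.bval v w ↔ ¬ a.bval v w := by
  induction a <;> simp_all [neg, bval] <;> tauto

lemma bval_imp (v w) (a b : NF) : (a.imp b).bval v w ↔ (a.bval v w → b.bval v w) := by
  simp only [imp, bval, bval_neg]; tauto

lemma bval_iff (v w) (a b : NF) : (a.iff b).bval v w ↔ (a.bval v w ↔ b.bval v w) := by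
  simp only [NF.iff, bval, bval_imp]; tauto

lemma subst_neg (s) (a : NF) : a.neg.subst s = (a.subst s).neg := by
  induction a <;> simp_all [neg, NF.subst]

lemma subst_imp (s) (a b : NF) : (a.imp b).subst s = (a.subst s).imp (b.subst s) := by
  simp [imp, NF.subst, subst_neg]

def sk (c : NF → ℕ) : NF → NF
  | .pos n => .pos (2 * n)
  | .ngv n => .ngv (2 * n)
  | .bot => .bot
  | .top => .top
  | .and a b => .and (sk c a) (sk c b)
  | .or a b => .or (sk c a) (sk c b)
  | .dia a => .pos (2 * c a + 1)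
  | .box a => .ngv (2 * c a.neg + 1)

def sub2 (s t : ℕ → NF) : NF → NF
  | .pos n => s n
  | .ngv n => t n
  | .bot => .bot
  | .top => .top
  | .and a b => .and (sub2 s t a) (sub2 s t b)
  | .or a b => .or (sub2 s t a) (sub2 s t b)
  | .dia a => .dia (sub2 s t a)
  | .box a => .box (sub2 s t a)

lemma subst_eq (s) (a : NF) : a.subst s = sub2 s (fun n => (s n).neg) a := by
  induction a <;> simp_all [sub2, NF.subst]

lemma subst_sub2 (σ s t) (a : NF) :
    (sub2 s t a).subst σ = sub2 (fun n => (s n).subst σ) (fun n => (t n).subst σ) a := by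
  induction a <;> simp_all [sub2, NF.subst]

lemma sub2_id (a : NF) : sub2 .pos .ngv a = a := by
  induction a <;> simp_all [sub2]

lemma lits_sub2 {s t} {a : NF} {l} (h : l ∈ (sub2 s t a).lits) :
    (∃ n, (n, true) ∈ a.lits ∧ l ∈ (s n).lits) ∨ ∃ n, (n, false) ∈ a.lits ∧ l ∈ (t n).lits := by
  induction a <;> simp_all [sub2, lits] <;> aesop

section
variable {L : Set NF} (hL : MonLogic L)
include hL

lemma taut' {a : NF} (h : ∀ v w, a.bval v w) : a ∈ L := by
  obtain ⟨c, hc⟩ := exists_injective_nat NF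
  have : Nonempty NF := ⟨.bot⟩
  have h1 : ∀ a, (sk c a).ModFree := fun a => by induction a <;> simp_all [sk, ModFree]
  have h2 : ∀ v w a, (sk c a).bval v w ↔
      a.bval (fun n => v (2 * n)) (fun b => v (2 * c b + 1)) :=
    fun v w a => by induction a <;> simp_all [sk, bval]
  let σ : ℕ → NF := fun n => if n % 2 = 0 then .pos (n / 2) else .dia (c.invFun (n / 2))
  have e1 : ∀ n, σ (2 * n) = .pos n := fun n => by simp [σ]
  have e2 : ∀ b, σ (2 * c b + 1) = .dia b := fun b => by
    have : (2 * c b + 1) / 2 = c b := by omega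
    simp [σ, this, Function.leftInverse_invFun hc b]
  have h3 : ∀ a, (sk c a).subst σ = a := fun a => by
    induction a <;> simp_all [sk, NF.subst, neg]
  rw [← h3 a]
  exact hL.subst _ _ (hL.taut _ (h1 a) fun v w => (h2 v w a).2 (h _ _))

lemma tc1 {a b : NF} (h : b ∈ L) (H : ∀ v w, b.bval v w → a.bval v w) : a ∈ L :=
  hL.mp b a (taut' hL fun v w => (bval_imp _ _ _ _).2 (H v w)) h

lemma tc2 {a b c : NF} (h : b ∈ L) (h' : c ∈ L)
    (H : ∀ v w, b.bval v w → c.bval v w → a.bval v w) : a ∈ L :=
  hL.mp c a (tc1 hL h fun v w hb => (bval_imp _ _ _ _).2 (H v w hb)) h'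

lemma itrans {a b c : NF} (h : a.imp b ∈ L) (h' : b.imp c ∈ L) : a.imp c ∈ L :=
  tc2 hL h h' fun v w => by simp only [bval_imp]; tauto

lemma dia_mono {a b : NF} (h : a.imp b ∈ L) : (NF.dia a).imp (.dia b) ∈ L := by
  have h1 := hL.subst (fun n => if n = 0 then a else b) _ hL.mon
  simp only [subst_imp, NF.subst, if_true, one_ne_zero, if_false] at h1
  have h2 := hL.re (.or a b) b (tc1 hL h fun v w => by simp only [bval_imp, bval_iff, bval]; tauto)
  exact tc2 hL h1 h2 fun v w => by simp only [bval_imp, bval_iff]; tauto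

lemma box_mono {a b : NF} (h : a.imp b ∈ L) : (NF.box a).imp (.box b) ∈ L :=
  tc1 hL (dia_mono hL (a := b.neg) (b := a.neg) (tc1 hL h fun v w => by
    simp only [bval_imp, bval_neg]; tauto)) fun v w => by simp only [bval_imp, bval]; tauto

lemma mono2 {s t s' t' : ℕ → NF} (a : NF) (h1 : ∀ n ∈ a.vars, (s n).imp (s' n) ∈ L)
    (h2 : ∀ n ∈ a.vars, (t n).imp (t' n) ∈ L) : (sub2 s t a).imp (sub2 s' t' a) ∈ L := by
  induction a with
  | pos n => exact h1 n (by simp [vars, lits])
  | ngv n => exact h2 n (by simp [vars, lits])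
  | bot => exact taut' hL fun v w => by simp [bval_imp, sub2]
  | top => exact taut' hL fun v w => by simp [bval_imp, sub2]
  | and a b iha ihb =>
    simp only [vars, lits, Finset.image_union, Finset.mem_union] at h1 h2
    exact tc2 hL (iha (fun n hn => h1 n (Or.inl hn)) (fun n hn => h2 n (Or.inl hn)))
      (ihb (fun n hn => h1 n (Or.inr hn)) (fun n hn => h2 n (Or.inr hn))) fun v w => by
      simp only [bval_imp, sub2, bval]; tauto
  | or a b iha ihb =>
    simp only [vars, lits, Finset.image_union, Finset.mem_union] at h1 h2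
    exact tc2 hL (iha (fun n hn => h1 n (Or.inl hn)) (fun n hn => h2 n (Or.inl hn)))
      (ihb (fun n hn => h1 n (Or.inr hn)) (fun n hn => h2 n (Or.inr hn))) fun v w => by
      simp only [bval_imp, sub2, bval]; tauto
  | dia a ih => exact dia_mono hL (ih h1 h2)
  | box a ih => exact box_mono hL (ih h1 h2)

/-- A monotone formula is monotone under arbitrary split substitutions. -/
lemma mono_split {a : NF} (ha : MonotoneIn L a) {s t s' t' : ℕ → NF}
    (h1 : ∀ n, (s n).imp (s' n) ∈ L) (h2 : ∀ n, (t n).imp (s n).neg ∈ L)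
    (h3 : ∀ n, (s' n).neg.imp (t' n) ∈ L) : (sub2 s t a).imp (sub2 s' t' a) ∈ L := by
  classical
  obtain ⟨q, hq, hq', h⟩ := ha
  let σ : ℕ → NF := fun m => if m ∈ a.vars then s m else s' (Function.invFunOn q a.vars m)
  have e1 : ∀ n ∈ a.vars, σ n = s n := fun n hn => if_pos hn
  have e2 : ∀ n ∈ a.vars, σ (q n) = s' n := fun n hn => by
    simp only [σ, if_neg (hq' n hn)]
    rw [hq.leftInvOn_invFunOn hn]
  have h4 := hL.subst σ _ h
  rw [subst_imp, subst_eq σ a, subst_eq _ a, subst_sub2] at h4
  refine itrans hL (mono2 hL a (fun n hn => ?_) (fun n hn => ?_))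
    (itrans hL h4 (mono2 hL a (fun n hn => ?_) (fun n hn => ?_)))
  · rw [e1 n hn]; exact taut' hL fun v w => by simp [bval_imp]
  · rw [e1 n hn]; exact h2 n
  · simp only [NF.subst, e1 n hn, e2 n hn]
    exact tc1 hL (h1 n) fun v w => by simp only [bval_imp, bval]; tauto
  · simp only [subst_neg, NF.subst, e1 n hn, e2 n hn]
    exact tc1 hL (h3 n) fun v w => by simp only [bval_imp, bval_neg, bval]; tauto

theorem lpp_of_lip (h : LIP L) : LPP L := by
  intro a ha
  obtain ⟨N, hN⟩ : ∃ N, ∀ n ∈ a.vars, n < N := by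
    obtain ⟨N, hN⟩ := a.vars.bddAbove
    exact ⟨N + 1, fun n hn => Nat.lt_succ_of_le (hN hn)⟩
  obtain ⟨θ, h1, h2, h3⟩ := h
    (sub2 (fun n => .and (.pos n) (.pos (N + 2 * n))) (fun n => .ngv (N + 2 * n)) a)
    (sub2 (fun n => .or (.pos n) (.pos (N + 2 * n + 1))) (fun n => .ngv (N + 2 * n + 1)) a)
    (mono_split hL ha
      (fun n => taut' hL fun v w => by simp only [bval_imp, bval]; tauto)
      (fun n => taut' hL fun v w => by simp only [bval_imp, bval_neg, bval]; tauto)
      (fun n => taut' hL fun v w => by simp only [bval_imp, bval_neg, bval]; tauto))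
  have hθ : Positive θ := by
    intro n hn
    have := Finset.mem_inter.1 (h1 hn)
    have h4 := lits_sub2 this.1
    have h5 := lits_sub2 this.2
    simp only [lits, Finset.mem_union, Finset.mem_singleton, Prod.mk.injEq, Bool.false_eq_true,
      and_false, or_self, exists_false, and_true, false_or] at h4 h5
    obtain ⟨m, -, h4⟩ := h4
    obtain ⟨k, -, h5⟩ := h5
    omega
  let σ : ℕ → NF := fun m => .pos (if m < N then m else (m - N) / 2)
  have e1 : ∀ n ∈ a.vars, σ n = .pos n := fun n hn => by simp [σ, hN n hn]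
  have e2 : ∀ n, σ (N + 2 * n) = .pos n := fun n => by simp [σ]
  have e3 : ∀ n, σ (N + 2 * n + 1) = .pos n := fun n => by
    have : (N + 2 * n + 1 - N) / 2 = n := by omega
    simp only [σ, this]; rw [if_neg (by omega)]
  have h4 := hL.subst σ _ h2
  have h5 := hL.subst σ _ h3
  rw [subst_imp, subst_sub2] at h4 h5
  refine ⟨θ.subst σ, fun n hn => ?_, ?_⟩
  · rw [subst_eq] at hn
    rcases lits_sub2 hn with ⟨m, -, h⟩ | ⟨m, h, -⟩
    · simp [σ, lits] at h
    · exact hθ m h
  · have h6 : a.imp (θ.subst σ) ∈ L := by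
      refine itrans hL ?_ h4
      conv => enter [2, 1]; rw [← sub2_id a]
      refine mono2 hL a (fun n hn => ?_) (fun n hn => ?_)
      · simp only [NF.subst, e1 n hn, e2]
        exact taut' hL fun v w => by simp only [bval_imp, bval]; tauto
      · simp only [NF.subst, e2]
        exact taut' hL fun v w => by simp only [bval_imp, bval, neg]; tauto
    have h7 : (θ.subst σ).imp a ∈ L := by
      refine itrans hL h5 ?_
      conv => enter [2, 2]; rw [← sub2_id a]
      refine mono2 hL a (fun n hn => ?_) (fun n hn => ?_)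
      · simp only [NF.subst, e1 n hn, e3]
        exact taut' hL fun v w => by simp only [bval_imp, bval]; tauto
      · simp only [NF.subst, e3]
        exact taut' hL fun v w => by simp only [bval_imp, bval, neg]; tauto
    exact tc2 hL h6 h7 fun v w => by simp only [bval_imp, bval_iff]; tauto

end

end Pool.Agent.Lead.Nnf
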