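import Mathlib

/-! Modal formulas in negation normal form. -/

namespace Pool.Agent.Lead.Nnf

/-- Formulas built from literals `p`, `¬p`, constants, `∧`, `∨`, `◇`, `□`. -/
inductive NF : Type
  | pos : ℕ → NF
  | ngv : ℕ → NF
  | bot : NF
  | top : NF
  | and : NF → NF → NF
  | or : NF → NF → NF
  | dia : NF → NF
  | box : NF → NF
  deriving DecidableEq

namespace NF

/-- Negation, defined by the De Morgan and modal duality laws. -/
def neg : NF → NF
  | pos n => ngv n
  | ngv n => pos n
  | bot => top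
  | top => bot
  | and a b => or a.neg b.neg
  | or a b => and a.neg b.neg
  | dia a => box a.neg
  | box a => dia a.neg

def imp (a b : NF) : NF := or a.neg b
def iff (a b : NF) : NF := and (a.imp b) (b.imp a)

/-- The literals occurring in a formula: `(p, true)` is `p` and `(p, false)` is `¬p`. -/
def lits : NF → Finset (ℕ × Bool)
  | pos n => {(n, true)}
  | ngv n => {(n, false)}
  | bot => ∅
  | top => ∅
  | and a b => a.lits ∪ b.lits
  | or a b => a.lits ∪ b.lits
  | dia a => a.lits
  | box a => a.lits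

/-- The variables occurring in a formula. -/
def vars (a : NF) : Finset ℕ := a.lits.image Prod.fst

/-- Uniform substitution. -/
def subst (s : ℕ → NF) : NF → NF
  | pos n => s n
  | ngv n => (s n).neg
  | bot => bot
  | top => top
  | and a b => and (a.subst s) (b.subst s)
  | or a b => or (a.subst s) (b.subst s)
  | dia a => dia (a.subst s)
  | box a => box (a.subst s)

/-- Boolean value, with arbitrary values `v` for the variables and `w a` for `◇ a`
(so `□ a`, which is `¬◇¬a`, gets the value `¬ w (¬ a)`). -/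
def bval (v : ℕ → Prop) (w : NF → Prop) : NF → Prop
  | pos n => v n
  | ngv n => ¬ v n
  | bot => False
  | top => True
  | and a b => a.bval v w ∧ b.bval v w
  | or a b => a.bval v w ∨ b.bval v w
  | dia a => w a
  | box a => ¬ w a.neg

/-- No modal operator occurs. -/
def ModFree : NF → Prop
  | and a b => a.ModFree ∧ b.ModFree
  | or a b => a.ModFree ∧ b.ModFree
  | dia _ => False
  | box _ => False
  | _ => True

end NF

open NF

/-- Monotone modal logics. -/
structure MonLogic (L : Set NF) : Prop where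
  taut : ∀ a : NF, a.ModFree → (∀ v w, a.bval v w) → a ∈ L
  dual : (box (pos 0)).iff (dia (pos 0).neg).neg ∈ L
  mon : (dia (pos 0)).imp (dia (or (pos 0) (pos 1))) ∈ L
  mp : ∀ a b : NF, a.imp b ∈ L → a ∈ L → b ∈ L
  subst : ∀ s (a : NF), a ∈ L → a.subst s ∈ L
  re : ∀ a b : NF, a.iff b ∈ L → (dia a).iff (dia b) ∈ L

/-- No negated variable occurs. -/
def Positive (a : NF) : Prop := ∀ n, (n, false) ∉ a.lits

/-- `Λ ⊢ φ(p⃗) → φ(p⃗ ∨ q⃗)` for fresh, pairwise distinct variables `q⃗`. -/
def MonotoneIn (L : Set NF) (a : NF) : Prop :=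
  ∃ q : ℕ → ℕ, Set.InjOn q a.vars ∧ (∀ n ∈ a.vars, q n ∉ a.vars) ∧
    a.imp (a.subst fun n => or (pos n) (pos (q n))) ∈ L

def LPP (L : Set NF) : Prop :=
  ∀ a, MonotoneIn L a → ∃ b, Positive b ∧ a.iff b ∈ L

def LIP (L : Set NF) : Prop :=
  ∀ a b : NF, a.imp b ∈ L → ∃ θ : NF, θ.lits ⊆ a.lits ∩ b.lits ∧ a.imp θ ∈ L ∧ θ.imp b ∈ L

end Pool.Agent.Lead.Nnf
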