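import Pool.Agent.H11.PTDefs

set_option autoImplicit false

namespace Pool.Agent.Lead.Odd

/-- A candidate path: its vertices `v₀,…,v_l` and the positions `e₁,…,e_l` of its edges in the
edge list. -/
abbrev Pth := List ℕ × List ℕ

/-- `P` is a path of the multigraph with edge list `E`: distinct vertices, and the `i`-th edge
joins the `i`-th and the `(i+1)`-th vertex. Its length is `P.2.length`. -/
def IsPath (E : List (ℕ × ℕ)) (P : Pth) : Prop :=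
  P.1.Nodup ∧ P.1.length = P.2.length + 1 ∧ ∀ i < P.2.length,
    E[P.2.getD i 0]? = some (P.1.getD i 0, P.1.getD (i + 1) 0) ∨
    E[P.2.getD i 0]? = some (P.1.getD (i + 1) 0, P.1.getD i 0)

/-- the internal vertices `v₁,…,v_{l-1}` -/
def inner (P : Pth) : List ℕ := (P.1.drop 1).take (P.2.length - 1)

/-- `(X,Y)`-path of odd length -/
def OddXY (E : List (ℕ × ℕ)) (X Y : List ℕ) (P : Pth) : Prop :=
  IsPath E P ∧ P.1.getD 0 0 ∈ X ∧ P.1.getD P.2.length 0 ∈ Y ∧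
    (∀ v ∈ inner P, v ∉ X ∧ v ∉ Y) ∧ P.2.length % 2 = 1

/-- ODD-PATHS on instances `(n, E, k, X, Y)`: vertices `0..n-1`, edge list `E` (loops and parallel
edges allowed), `k ≥ 1`, `X` and `Y` lists of `k` distinct vertices, and there are `k` odd
`(X,Y)`-paths with pairwise different edge sets and no common internal vertex. -/
def OddPaths (y : ℕ × List (ℕ × ℕ) × ℕ × List ℕ × List ℕ) : Prop :=
  (∀ e ∈ y.2.1, e.1 < y.1 ∧ e.2 < y.1) ∧ 0 < y.2.2.1 ∧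
  y.2.2.2.1.Nodup ∧ y.2.2.2.1.length = y.2.2.1 ∧ (∀ v ∈ y.2.2.2.1, v < y.1) ∧
  y.2.2.2.2.Nodup ∧ y.2.2.2.2.length = y.2.2.1 ∧ (∀ v ∈ y.2.2.2.2, v < y.1) ∧
  ∃ P : ℕ → Pth, (∀ i < y.2.2.1, OddXY y.2.1 y.2.2.2.1 y.2.2.2.2 (P i)) ∧
    ∀ i < y.2.2.1, ∀ j < y.2.2.1, i ≠ j →
      (¬ ∀ e, e ∈ (P i).2 ↔ e ∈ (P j).2) ∧ ∀ v ∈ inner (P i), v ∉ inner (P j)

end Pool.Agent.Lead.Odd
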