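import Pool.Agent.Lead.NPc
import Pool.Agent.Lead.OddDefs

set_option autoImplicit false

namespace Pool.Agent.Lead.Odd
open Pool.Agent.H11.PT Pool.Agent.Lead.NPc

def nd (l : List ℕ) : Bool := l.all fun x => decide (l.count x ≤ 1)

theorem nd_iff (l : List ℕ) : nd l = true ↔ l.Nodup := by
  rw [List.nodup_iff_count_le_one]
  simp only [nd, List.all_eq_true, decide_eq_true_eq]
  refine ⟨fun h a => ?_, fun h a _ => h a⟩
  by_cases ha : a ∈ l
  · exact h a ha
  · rw [List.count_eq_zero_of_not_mem ha]; omega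

def okP (E : List (ℕ × ℕ)) (X Y : List ℕ) (P : Pth) : Bool :=
  nd P.1 && (P.1.length == P.2.length + 1) && ((List.range P.2.length).all fun i =>
    (E[P.2.getD i 0]? == some (P.1.getD i 0, P.1.getD (i + 1) 0)) ||
    (E[P.2.getD i 0]? == some (P.1.getD (i + 1) 0, P.1.getD i 0))) &&
  X.contains (P.1.getD 0 0) && Y.contains (P.1.getD P.2.length 0) &&
  ((inner P).all fun v => !X.contains v && !Y.contains v) && (P.2.length % 2 == 1)

theorem okP_iff (E : List (ℕ × ℕ)) (X Y : List ℕ) (P : Pth) :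
    okP E X Y P = true ↔ OddXY E X Y P := by
  simp only [okP, OddXY, IsPath, Bool.and_eq_true, nd_iff, beq_iff_eq, List.all_eq_true,
    List.mem_range, Bool.or_eq_true, List.contains_iff_mem, Bool.not_eq_true',
    ← Bool.not_eq_true, and_assoc]

def row (c : List (List ℕ)) (i : ℕ) : Pth := (c.getD (2 * i) [], c.getD (2 * i + 1) [])

def ver (y : ℕ × List (ℕ × ℕ) × ℕ × List ℕ × List ℕ) (c : List (List ℕ)) : Bool :=
  (y.2.1.all fun e => decide (e.1 < y.1) && decide (e.2 < y.1)) && decide (0 < y.2.2.1) &&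
  nd y.2.2.2.1 && (y.2.2.2.1.length == y.2.2.1) && (y.2.2.2.1.all fun v => decide (v < y.1)) &&
  nd y.2.2.2.2 && (y.2.2.2.2.length == y.2.2.1) && (y.2.2.2.2.all fun v => decide (v < y.1)) &&
  ((List.range y.2.2.1).all fun i => okP y.2.1 y.2.2.2.1 y.2.2.2.2 (row c i)) &&
  ((List.range y.2.2.1).all fun i => (List.range y.2.2.1).all fun j => (i == j) ||
    (!(((row c i).2.all fun e => (row c j).2.contains e) &&
      ((row c j).2.all fun e => (row c i).2.contains e)) &&
    (inner (row c i)).all fun v => !(inner (row c j)).contains v))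

theorem ver_iff (y : ℕ × List (ℕ × ℕ) × ℕ × List ℕ × List ℕ) (c : List (List ℕ)) :
    ver y c = true ↔ (∀ e ∈ y.2.1, e.1 < y.1 ∧ e.2 < y.1) ∧ 0 < y.2.2.1 ∧
  y.2.2.2.1.Nodup ∧ y.2.2.2.1.length = y.2.2.1 ∧ (∀ v ∈ y.2.2.2.1, v < y.1) ∧
  y.2.2.2.2.Nodup ∧ y.2.2.2.2.length = y.2.2.1 ∧ (∀ v ∈ y.2.2.2.2, v < y.1) ∧
   (∀ i < y.2.2.1, OddXY y.2.1 y.2.2.2.1 y.2.2.2.2 (row c i)) ∧
    ∀ i < y.2.2.1, ∀ j < y.2.2.1, i ≠ j →
      (¬ ∀ e, e ∈ (row c i).2 ↔ e ∈ (row c j).2) ∧ ∀ v ∈ inner (row c i), v ∉ inner (row c j) := by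
  simp only [ver, Bool.and_eq_true, nd_iff, beq_iff_eq, List.all_eq_true,
    List.mem_range, Bool.or_eq_true, List.contains_iff_mem, Bool.not_eq_true',
    ← Bool.not_eq_true, and_assoc, okP_iff, decide_eq_true_eq]
  refine and_congr Iff.rfl (and_congr Iff.rfl (and_congr Iff.rfl (and_congr Iff.rfl
    (and_congr Iff.rfl (and_congr Iff.rfl (and_congr Iff.rfl (and_congr Iff.rfl
    (and_congr Iff.rfl ?_))))))))
  refine forall₂_congr fun i _ => forall₂_congr fun j _ => ?_
  rw [or_iff_not_imp_left]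
  refine imp_congr Iff.rfl (and_congr (not_congr ?_) Iff.rfl)
  exact ⟨fun h e => ⟨h.1 e, h.2 e⟩, fun h => ⟨fun e => (h e).1, fun e => (h e).2⟩⟩

theorem getD_mem' {l : List ℕ} {i : ℕ} (h : i < l.length) : l.getD i 0 ∈ l := by
  rw [List.getD_eq_getElem _ _ h]; exact List.getElem_mem _

theorem mem_getD {l : List ℕ} {v : ℕ} (h : v ∈ l) : ∃ i < l.length, l.getD i 0 = v := by
  obtain ⟨i, hi, rfl⟩ := List.getElem_of_mem h
  exact ⟨i, hi, List.getD_eq_getElem _ _ hi⟩

theorem odd_np : InNP OddPaths := by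
  refine inNP_lists (V := ver) (by unfold ver okP row inner nd; fun_prop) (fun y => 2 * y.2.2.1)
    (fun y => y.1 + y.2.1.length) (by fun_prop) (by fun_prop) (fun y c hc => ?_) fun y hy => ?_
  · rw [ver_iff] at hc
    obtain ⟨h1, h2, h3, h4, h5, h6, h7, h8, h9⟩ := hc
    exact ⟨h1, h2, h3, h4, h5, h6, h7, h8, row c, h9⟩
  · obtain ⟨h1, h2, h3, h4, h5, h6, h7, h8, P, h9, h10⟩ := hy
    let c : List (List ℕ) := (List.range (2 * y.2.2.1)).map fun j =>
      if j % 2 = 0 then (P (j / 2)).1 else (P (j / 2)).2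
    have hr : ∀ i < y.2.2.1, row c i = P i := by
      intro i hi
      have a1 : 2 * i < c.length := by simp [c]; omega
      have a2 : 2 * i + 1 < c.length := by simp [c]; omega
      rw [row, List.getD_eq_getElem _ _ a1, List.getD_eq_getElem _ _ a2]
      simp only [c, List.getElem_map, List.getElem_range]
      rw [if_pos (by omega), if_neg (by omega), show 2 * i / 2 = i by omega,
        show (2 * i + 1) / 2 = i by omega]
    refine ⟨c, by simp [c], ?_, ?_⟩
    · intro r hr'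
      simp only [c, List.mem_map, List.mem_range] at hr'
      obtain ⟨j, hj, rfl⟩ := hr'
      obtain ⟨⟨p1, p2, p3⟩, -, -, -, p4⟩ := h9 (j / 2) (by omega)
      have hv : ∀ v ∈ (P (j / 2)).1, v < y.1 := by
        intro v hv
        obtain ⟨i, hi, rfl⟩ := mem_getD hv
        by_cases h : i < (P (j / 2)).2.length
        · rcases p3 i h with h | h
          · exact (h1 _ (List.mem_of_getElem? h)).1
          · exact (h1 _ (List.mem_of_getElem? h)).2
        · obtain ⟨i, rfl⟩ : ∃ i', i = i' + 1 := ⟨i - 1, by omega⟩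
          rcases p3 i (by omega) with h | h
          · exact (h1 _ (List.mem_of_getElem? h)).2
          · exact (h1 _ (List.mem_of_getElem? h)).1
      have hl : (P (j / 2)).1.length ≤ y.1 := by
        have := (List.subperm_of_subset p1 (show (P (j / 2)).1 ⊆ List.range y.1 from
          fun v h => List.mem_range.2 (hv v h))).length_le
        simpa using this
      split_ifs
      · exact ⟨by omega, fun v h => by have := hv v h; omega⟩
      · refine ⟨by omega, fun e h => ?_⟩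
        obtain ⟨i, hi, rfl⟩ := mem_getD h
        rcases p3 i hi with h | h <;>
        · have := (List.getElem?_eq_some_iff.1 h).1
          omega
    · rw [ver_iff]
      refine ⟨h1, h2, h3, h4, h5, h6, h7, h8, fun i hi => ?_, fun i hi j hj hij => ?_⟩
      · rw [hr i hi]; exact h9 i hi
      · rw [hr i hi, hr j hj]; exact h10 i hi j hj hij

theorem mem_inner {P : Pth} (h : P.1.length = P.2.length + 1) {v : ℕ} :
    v ∈ inner P ↔ ∃ i, 0 < i ∧ i < P.2.length ∧ P.1.getD i 0 = v := by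
  simp only [inner, List.mem_iff_getElem?, List.getElem?_take, List.getElem?_drop]
  constructor
  · rintro ⟨i, hi⟩
    split_ifs at hi with h1
    refine ⟨1 + i, by omega, by omega, ?_⟩
    rw [List.getD_eq_getElem?_getD, hi]; rfl
  · rintro ⟨i, h0, h1, rfl⟩
    refine ⟨i - 1, ?_⟩
    rw [if_pos (by omega), show 1 + (i - 1) = i by omega, List.getD_eq_getElem?_getD,
      List.getElem?_eq_getElem (by omega)]; rfl

def Adj (E : List (ℕ × ℕ)) (x y : ℕ) : Prop := (x, y) ∈ E ∨ (y, x) ∈ E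

theorem IsPath.adj {E : List (ℕ × ℕ)} {P : Pth} (h : IsPath E P) {i : ℕ} (hi : i < P.2.length) :
    Adj E (P.1.getD i 0) (P.1.getD (i + 1) 0) :=
  (h.2.2 i hi).imp List.mem_of_getElem? List.mem_of_getElem?

theorem IsPath.inj {E : List (ℕ × ℕ)} {P : Pth} (h : IsPath E P) {i j : ℕ} (hi : i ≤ P.2.length)
    (hj : j ≤ P.2.length) (e : P.1.getD i 0 = P.1.getD j 0) : i = j := by
  have := h.2.1
  rw [List.getD_eq_getElem _ _ (by omega), List.getD_eq_getElem _ _ (by omega)] at e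
  exact (List.Nodup.getElem_inj_iff h.1).1 e

def mkP (E : List (ℕ × ℕ)) (g : ℕ → ℕ) (L : ℕ) : Pth :=
  ((List.range (L + 1)).map g, (List.range L).map fun j => E.idxOf (g j, g (j + 1)))

theorem mkP_len (E : List (ℕ × ℕ)) (g : ℕ → ℕ) (L : ℕ) : (mkP E g L).2.length = L := by simp [mkP]

theorem mkP_get (E : List (ℕ × ℕ)) (g : ℕ → ℕ) (L : ℕ) {i : ℕ} (hi : i ≤ L) :
    (mkP E g L).1.getD i 0 = g i := by
  rw [List.getD_eq_getElem _ _ (by simp [mkP]; omega)]; simp [mkP]

theorem mkP_path (E : List (ℕ × ℕ)) (g : ℕ → ℕ) (L : ℕ)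
    (h1 : ∀ i ≤ L, ∀ j ≤ L, g i = g j → i = j) (h2 : ∀ j < L, (g j, g (j + 1)) ∈ E) :
    IsPath E (mkP E g L) := by
  refine ⟨?_, by simp [mkP], fun i hi => Or.inl ?_⟩
  · refine List.Nodup.map_on (fun i hi j hj => h1 i ?_ j ?_) List.nodup_range
    · have := List.mem_range.1 hi; omega
    · have := List.mem_range.1 hj; omega
  · rw [mkP_len] at hi
    rw [mkP_get _ _ _ hi.le, mkP_get _ _ _ hi, List.getD_eq_getElem _ _ (by simp [mkP]; omega)]
    simp only [mkP, List.getElem_map, List.getElem_range]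
    rw [List.getElem?_eq_getElem (List.idxOf_lt_length_of_mem (h2 i hi))]
    simp

theorem diff_of {E : List (ℕ × ℕ)} {X Y : List ℕ} {P Q : Pth} (hP : OddXY E X Y P)
    (hQ : OddXY E X Y Q) (hl : 1 < P.2.length) (hd : ∀ v ∈ inner P, v ∉ inner Q) :
    ¬ ∀ e, e ∈ P.2 ↔ e ∈ Q.2 := by
  intro h
  have hin : P.1.getD 1 0 ∈ inner P := (mem_inner hP.1.2.1).2 ⟨1, by omega, hl, rfl⟩
  obtain ⟨i, hi, e⟩ := mem_getD ((h _).1 (getD_mem' (show 0 < P.2.length by omega)))
  have key : ∀ j ≤ Q.2.length, Q.1.getD j 0 ≠ P.1.getD 1 0 := by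
    intro j hj hq
    rcases Nat.eq_zero_or_pos j with rfl | h0
    · exact (hP.2.2.2.1 _ hin).1 (hq ▸ hQ.2.1)
    rcases hj.eq_or_lt with rfl | h1
    · exact (hP.2.2.2.1 _ hin).2 (hq ▸ hQ.2.2.1)
    exact hd _ hin ((mem_inner hQ.1.2.1).2 ⟨j, h0, h1, hq⟩)
  have a := hP.1.2.2 0 (by omega)
  have b := hQ.1.2.2 i hi
  rw [e] at b
  rcases a with a | a <;> rcases b with b | b <;> rw [a] at b <;>
    simp only [Option.some.injEq, Prod.mk.injEq, zero_add] at b
  · exact key (i + 1) hi b.2.symm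
  · exact key i hi.le b.2.symm
  · exact key i hi.le b.1.symm
  · exact key (i + 1) hi b.1.symm

end Pool.Agent.Lead.Odd
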