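import Pool.Agent.Lead.Odd1

set_option autoImplicit false

namespace Pool.Agent.Lead.Odd
open Pool.Agent.H11.PT Pool.Agent.Lead.NPc

def V (t a j : ℕ) : ℕ := Nat.pair t (Nat.pair a j)

theorem V_inj {t a j t' a' j' : ℕ} : V t a j = V t' a' j' ↔ t = t' ∧ a = a' ∧ j = j' := by
  simp [V, Nat.pair_eq_pair]

def tb (b : Bool) : ℕ := bif b then 2 else 1

def tg (m : ℕ) (b : Bool) (j : ℕ) : ℕ := if j ≤ 1 ∨ 2 * m + 4 ≤ j then 0 else tb b

def nv (φ : List (List Lit)) : ℕ := (φ.flatten.map fun l => l.1).sum + 1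

def ed (φ : List (List Lit)) : List (ℕ × ℕ) :=
  ((List.range (nv φ)).flatMap fun i => [true, false].flatMap fun b =>
    (List.range (2 * φ.length + 5)).map fun j =>
      (V (tg φ.length b j) i j, V (tg φ.length b (j + 1)) i (j + 1))) ++
  (List.range φ.length).flatMap fun c => (V 3 c 1, V 3 c 2) :: (V 3 c 3, V 3 c 4) ::
    (φ.getD c []).flatMap fun l =>
      [(V 3 c 2, V (tb l.2) l.1 (2 * c + 3)), (V (tb l.2) l.1 (2 * c + 4), V 3 c 3)]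

def xs (φ : List (List Lit)) : List ℕ :=
  (List.range (nv φ + φ.length)).map fun r => if r < nv φ then V 0 r 0 else V 3 (r - nv φ) 1

def ys (φ : List (List Lit)) : List ℕ :=
  (List.range (nv φ + φ.length)).map fun r =>
    if r < nv φ then V 0 r (2 * φ.length + 5) else V 3 (r - nv φ) 4

def red (φ : List (List Lit)) : ℕ × List (ℕ × ℕ) × ℕ × List ℕ × List ℕ :=
  (((ed φ).map fun e => e.1 + e.2).sum + (xs φ).sum + (ys φ).sum + 1, ed φ, nv φ + φ.length,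
    xs φ, ys φ)

theorem red_pt : PT red := by
  unfold red xs ys ed nv tg tb V
  fun_prop

variable {φ : List (List Lit)}

theorem mem_ed {x y : ℕ} : (x, y) ∈ ed φ ↔
    (∃ i < nv φ, ∃ b, ∃ j < 2 * φ.length + 5,
      V (tg φ.length b j) i j = x ∧ V (tg φ.length b (j + 1)) i (j + 1) = y) ∨
    ∃ c < φ.length, (x = V 3 c 1 ∧ y = V 3 c 2) ∨ (x = V 3 c 3 ∧ y = V 3 c 4) ∨
      ∃ l ∈ φ.getD c [], (x = V 3 c 2 ∧ y = V (tb l.2) l.1 (2 * c + 3)) ∨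
        (x = V (tb l.2) l.1 (2 * c + 4) ∧ y = V 3 c 3) := by
  simp only [ed, List.mem_append, List.mem_flatMap, List.mem_map, List.mem_range, List.mem_cons,
    Prod.mk.injEq, List.not_mem_nil, or_false]
  refine or_congr (exists_congr fun i => and_congr Iff.rfl (exists_congr fun b => ?_)) Iff.rfl
  cases b <;> simp

theorem mem_xs {x : ℕ} : x ∈ xs φ ↔ (∃ i < nv φ, x = V 0 i 0) ∨ ∃ c < φ.length, x = V 3 c 1 := by
  simp only [xs, List.mem_map, List.mem_range]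
  constructor
  · rintro ⟨r, hr, rfl⟩
    split_ifs with h
    · exact Or.inl ⟨r, h, rfl⟩
    · exact Or.inr ⟨_, by omega, rfl⟩
  · rintro (⟨i, hi, rfl⟩ | ⟨c, hc, rfl⟩)
    · exact ⟨i, by omega, by rw [if_pos hi]⟩
    · exact ⟨nv φ + c, by omega, by rw [if_neg (by omega)]; simp⟩

theorem mem_ys {x : ℕ} : x ∈ ys φ ↔
    (∃ i < nv φ, x = V 0 i (2 * φ.length + 5)) ∨ ∃ c < φ.length, x = V 3 c 4 := by
  simp only [ys, List.mem_map, List.mem_range]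
  constructor
  · rintro ⟨r, hr, rfl⟩
    split_ifs with h
    · exact Or.inl ⟨r, h, rfl⟩
    · exact Or.inr ⟨_, by omega, rfl⟩
  · rintro (⟨i, hi, rfl⟩ | ⟨c, hc, rfl⟩)
    · exact ⟨i, by omega, by rw [if_pos hi]⟩
    · exact ⟨nv φ + c, by omega, by rw [if_neg (by omega)]; simp⟩

theorem xs_nd : (xs φ).Nodup := by
  refine List.Nodup.map_on (fun i _ j _ h => ?_) List.nodup_range
  split_ifs at h <;> rw [V_inj] at h <;> omega

theorem ys_nd : (ys φ).Nodup := by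
  refine List.Nodup.map_on (fun i _ j _ h => ?_) List.nodup_range
  split_ifs at h <;> rw [V_inj] at h <;> omega

theorem lt_nv {c : ℕ} {l : Lit} (h : l ∈ φ.getD c []) : l.1 < nv φ := by
  have : l ∈ φ.flatten := by
    by_cases hc : c < φ.length
    · rw [List.getD_eq_getElem _ _ hc] at h
      exact List.mem_flatten.2 ⟨_, List.getElem_mem _, h⟩
    · rw [List.getD_eq_default _ _ (by omega)] at h; simp at h
  have := List.le_sum_of_mem (List.mem_map_of_mem (f := fun l : Lit => l.1) this)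
  unfold nv; omega

theorem tb_ne (b : Bool) : tb b = 1 ∨ tb b = 2 := by cases b <;> simp [tb]
theorem tb_inj {b b' : Bool} (h : tb b = tb b') : b = b' := by
  cases b <;> cases b' <;> simp_all [tb]

def pos (x : ℕ) : ℕ := x.unpair.2.unpair.2

theorem pos_V (t a j : ℕ) : pos (V t a j) = j := by simp [pos, V]

theorem adj_par {x y : ℕ} (h : Adj (ed φ) x y) : (pos x + pos y) % 2 = 1 := by
  have : ∀ x y, (x, y) ∈ ed φ → (pos x + pos y) % 2 = 1 := by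
    intro x y h
    rcases mem_ed.1 h with ⟨i, -, b, j, -, rfl, rfl⟩ |
      ⟨c, -, ⟨rfl, rfl⟩ | ⟨rfl, rfl⟩ | ⟨l, -, ⟨rfl, rfl⟩ | ⟨rfl, rfl⟩⟩⟩ <;>
    simp only [pos_V] <;> omega
  rcases h with h | h
  · exact this _ _ h
  · have := this _ _ h; omega

/-- all neighbours of a vertex -/
theorem adj_V {t a j y : ℕ} (h : Adj (ed φ) (V t a j) y) :
    (∃ b, t = tg φ.length b j ∧ y = V (tg φ.length b (j + 1)) a (j + 1) ∧ j < 2 * φ.length + 5) ∨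
    (∃ b, t = tg φ.length b j ∧ y = V (tg φ.length b (j - 1)) a (j - 1) ∧ 0 < j) ∨
    (t ≠ 3 ∧ t ≠ 0 ∧ ∃ c < φ.length, y = V 3 c 2 ∨ y = V 3 c 3) ∨
    (t = 3 ∧ ((j = 1 ∧ y = V 3 a 2) ∨ (j = 2 ∧ y = V 3 a 1) ∨ (j = 4 ∧ y = V 3 a 3) ∨ j = 3 ∨
      (j = 2 ∧ ∃ l ∈ φ.getD a [], y = V (tb l.2) l.1 (2 * a + 3)))) := by
  rcases h with h | h
  · rcases mem_ed.1 h with ⟨i, -, b, j', hj, g, rfl⟩ |
      ⟨c, hc, ⟨g, rfl⟩ | ⟨g, rfl⟩ | ⟨l, hl, ⟨g, rfl⟩ | ⟨g, rfl⟩⟩⟩ <;> rw [V_inj] at g <;>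
      obtain ⟨rfl, rfl, rfl⟩ := g
    · exact Or.inl ⟨b, rfl, rfl, hj⟩
    · simp
    · simp
    · exact Or.inr (Or.inr (Or.inr ⟨rfl, Or.inr (Or.inr (Or.inr (Or.inr ⟨rfl, l, hl, rfl⟩)))⟩))
    · have := tb_ne l.2
      exact Or.inr (Or.inr (Or.inl ⟨by omega, by omega, c, hc, Or.inr rfl⟩))
  · rcases mem_ed.1 h with ⟨i, -, b, j', hj, rfl, g⟩ |
      ⟨c, hc, ⟨rfl, g⟩ | ⟨rfl, g⟩ | ⟨l, hl, ⟨rfl, g⟩ | ⟨rfl, g⟩⟩⟩ <;> rw [V_inj] at g <;>
      obtain ⟨rfl, rfl, rfl⟩ := g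
    · exact Or.inr (Or.inl ⟨b, rfl, rfl, by omega⟩)
    · simp
    · simp
    · have := tb_ne l.2
      exact Or.inr (Or.inr (Or.inl ⟨by omega, by omega, c, hc, Or.inl rfl⟩))
    · simp

theorem tg_ne (m : ℕ) (b : Bool) (j : ℕ) : tg m b j ≠ 3 := by
  have := tb_ne b; unfold tg; split_ifs <;> omega

def nbX (x : ℕ) : ℕ := V x.unpair.1 x.unpair.2.unpair.1 (pos x + 1)
def nbY (x : ℕ) : ℕ := V x.unpair.1 x.unpair.2.unpair.1 (pos x - 1)

theorem nbX_V (t a j : ℕ) : nbX (V t a j) = V t a (j + 1) := by simp [nbX, pos, V]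
theorem nbY_V (t a j : ℕ) : nbY (V t a j) = V t a (j - 1) := by simp [nbY, pos, V]

theorem adj_xs {x y : ℕ} (hx : x ∈ xs φ) (h : Adj (ed φ) x y) : y = nbX x ∧ y ∉ ys φ := by
  rw [mem_ys]
  rcases mem_xs.1 hx with ⟨i, -, rfl⟩ | ⟨c, -, rfl⟩ <;> rw [nbX_V] <;>
  rcases adj_V h with ⟨b, h1, rfl, h2⟩ | ⟨b, h1, rfl, h2⟩ | h | h
  · simp [tg, V_inj]
  · omega
  · simp at h
  · simp at h
  · exact absurd h1.symm (tg_ne _ _ _)
  · exact absurd h1.symm (tg_ne _ _ _)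
  · simp at h
  · simp at h; simp [h, V_inj]

theorem adj_ys {x y : ℕ} (hx : x ∈ ys φ) (h : Adj (ed φ) x y) : y = nbY x ∧ y ∉ xs φ := by
  rw [mem_xs]
  rcases mem_ys.1 hx with ⟨i, -, rfl⟩ | ⟨c, -, rfl⟩ <;> rw [nbY_V] <;>
  rcases adj_V h with ⟨b, h1, rfl, h2⟩ | ⟨b, h1, rfl, h2⟩ | h | h
  · omega
  · simp [tg, V_inj]
  · simp at h
  · simp at h
  · exact absurd h1.symm (tg_ne _ _ _)
  · exact absurd h1.symm (tg_ne _ _ _)
  · simp at h
  · simp at h; simp [h, V_inj]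

end Pool.Agent.Lead.Odd
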