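import Pool.Agent.Lead.Odd2

set_option autoImplicit false

namespace Pool.Agent.Lead.Odd
open Pool.Agent.H11.PT Pool.Agent.Lead.NPc

variable {φ : List (List Lit)}

theorem surj {k : ℕ} {l : List ℕ} (hl : l.Nodup) (hk : l.length = k) (f : ℕ → ℕ)
    (h1 : ∀ i < k, f i ∈ l) (h2 : ∀ i < k, ∀ j < k, f i = f j → i = j) :
    ∀ x ∈ l, ∃ i < k, f i = x := by
  have hn : ((List.range k).map f).Nodup :=
    List.Nodup.map_on (fun i hi j hj => h2 i (List.mem_range.1 hi) j (List.mem_range.1 hj))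
      List.nodup_range
  have hs : (List.range k).map f ⊆ l := by
    intro x hx
    obtain ⟨i, hi, rfl⟩ := List.mem_map.1 hx
    exact h1 i (List.mem_range.1 hi)
  have hp := (List.subperm_of_subset hn hs).perm_of_length_le (by simp [hk])
  intro x hx
  obtain ⟨i, hi, rfl⟩ := List.mem_map.1 (hp.symm.subset hx)
  exact ⟨i, List.mem_range.1 hi, rfl⟩

theorem first {P : Pth} (h : OddXY (ed φ) (xs φ) (ys φ) P) :
    1 < P.2.length ∧ P.1.getD 1 0 = nbX (P.1.getD 0 0) ∧ nbX (P.1.getD 0 0) ∈ inner P := by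
  obtain ⟨h1, h2, h3, -, h5⟩ := h
  obtain ⟨a, b⟩ := adj_xs h2 (h1.adj (i := 0) (by omega))
  have : P.2.length ≠ 1 := fun e => b (by rw [e] at h3; exact h3)
  exact ⟨by omega, a, (mem_inner h1.2.1).2 ⟨1, by omega, by omega, a⟩⟩

theorem last {P : Pth} (h : OddXY (ed φ) (xs φ) (ys φ) P) :
    nbY (P.1.getD P.2.length 0) ∈ inner P := by
  have h0 := (first h).1
  obtain ⟨h1, h2, h3, -, h5⟩ := h
  have := h1.adj (i := P.2.length - 1) (by omega)
  rw [show P.2.length - 1 + 1 = P.2.length by omega] at this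
  exact (mem_inner h1.2.1).2 ⟨_, by omega, by omega, (adj_ys h3 (Or.symm this)).1⟩

theorem par {P : Pth} (h : IsPath (ed φ) P) :
    ∀ j ≤ P.2.length, (pos (P.1.getD j 0) + j) % 2 = pos (P.1.getD 0 0) % 2 := by
  intro j
  induction j with
  | zero => simp
  | succ j ih =>
    intro hj
    have := adj_par (h.adj (i := j) hj)
    have := ih (by omega)
    omega

theorem cover {P : Pth} (h : OddXY (ed φ) (xs φ) (ys φ) P) {i : ℕ} (h0 : P.1.getD 0 0 = V 0 i 0)
    (hp : ∀ j ≤ P.2.length, ∀ c < φ.length, P.1.getD j 0 ≠ V 3 c 2 ∧ P.1.getD j 0 ≠ V 3 c 3)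
    (J : Bool → ℕ) (hJ : ∀ b, 2 ≤ J b ∧ J b ≤ 2 * φ.length + 3)
    (hm : ∀ b, ∀ j ≤ P.2.length, P.1.getD j 0 ≠ V (tb b) i (J b)) : False := by
  have key : ∀ j ≤ P.2.length, ∃ b, ∃ t < J b, P.1.getD j 0 = V (tg φ.length b t) i t := by
    intro j
    induction j with
    | zero => intro _; exact ⟨true, 0, by have := hJ true; omega, by rw [h0]; simp [tg]⟩
    | succ j ih =>
      intro hj
      obtain ⟨b, t, ht, e⟩ := ih (by omega)
      have ha := h.1.adj (i := j) hj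
      rw [e] at ha
      have hb := hJ b
      rcases adj_V ha with ⟨b', h1, h2, h3⟩ | ⟨b', h1, h2, h3⟩ | ⟨-, -, c, hc, h2⟩ | ⟨h1, -⟩
      · have hb' := hJ b'
        have : t < J b' := by
          by_cases h4 : t ≤ 1
          · omega
          · simp only [tg, if_neg (show ¬ (t ≤ 1 ∨ 2 * φ.length + 4 ≤ t) by omega)] at h1
            rw [← tb_inj h1]; exact ht
        refine ⟨b', t + 1, lt_of_le_of_ne this fun e' => hm b' (j + 1) hj ?_, h2⟩
        rw [h2, e', tg, if_neg (by omega)]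
      · have hb' := hJ b'
        refine ⟨b', t - 1, ?_, h2⟩
        by_cases h4 : t ≤ 1
        · omega
        · simp only [tg, if_neg (show ¬ (t ≤ 1 ∨ 2 * φ.length + 4 ≤ t) by omega)] at h1
          rw [← tb_inj h1]; omega
      · rcases h2 with h2 | h2
        · exact absurd h2 (hp _ hj c hc).1
        · exact absurd h2 (hp _ hj c hc).2
      · exact absurd h1 (tg_ne _ _ _)
  obtain ⟨b, t, ht, e⟩ := key _ le_rfl
  have hb := hJ b
  have := tg_ne φ.length b t
  rcases mem_ys.1 h.2.2.1 with ⟨i', -, e'⟩ | ⟨c, -, e'⟩ <;> rw [e, V_inj] at e' <;> omega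

theorem sound (h : OddPaths (red φ)) : SAT φ := by
  classical
  obtain ⟨-, -, -, -, -, -, -, -, P, h1, h2⟩ := h
  simp only [red] at h1 h2
  have sx := surj xs_nd (by simp [xs]) (fun r => (P r).1.getD 0 0) (fun i hi => (h1 i hi).2.1)
    (fun i hi j hj e => by
      by_contra hn
      have a := (first (h1 i hi)).2.2
      have b := (first (h1 j hj)).2.2
      rw [e] at a
      exact (h2 i hi j hj hn).2 _ a b)
  have sy := surj ys_nd (by simp [ys]) (fun r => (P r).1.getD (P r).2.length 0)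
    (fun i hi => (h1 i hi).2.2.1)
    (fun i hi j hj e => by
      by_contra hn
      have a := last (h1 i hi)
      have b := last (h1 j hj)
      rw [e] at a
      exact (h2 i hi j hj hn).2 _ a b)
  have away : ∀ r < nv φ + φ.length, ∀ r' < nv φ + φ.length, r ≠ r' → ∀ v ∈ inner (P r'),
      ∀ j ≤ (P r).2.length, (P r).1.getD j 0 ≠ v := by
    intro r hr r' hr' hn v hv j hj e
    have := (h1 r' hr').2.2.2.1 v hv
    rcases Nat.eq_zero_or_pos j with rfl | h0
    · exact this.1 (e ▸ (h1 r hr).2.1)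
    rcases hj.eq_or_lt with rfl | h3
    · exact this.2 (e ▸ (h1 r hr).2.2.1)
    exact (h2 r hr r' hr' hn).2 v ((mem_inner (h1 r hr).1.2.1).2 ⟨j, h0, h3, e⟩) hv
  have hred : ∀ i, ∃ r, i < nv φ → r < nv φ + φ.length ∧ (P r).1.getD 0 0 = V 0 i 0 := by
    intro i
    by_cases hi : i < nv φ
    · obtain ⟨r, hr, e⟩ := sx _ (mem_xs.2 (Or.inl ⟨i, hi, rfl⟩))
      exact ⟨r, fun _ => ⟨hr, e⟩⟩
    · exact ⟨0, fun h => absurd h hi⟩
  choose ρ hρ using hred
  have hp : ∀ i < nv φ, ∀ j ≤ (P (ρ i)).2.length, ∀ c < φ.length,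
      (P (ρ i)).1.getD j 0 ≠ V 3 c 2 ∧ (P (ρ i)).1.getD j 0 ≠ V 3 c 3 := by
    intro i hi j hj c hc
    obtain ⟨a1, a2⟩ := hρ i hi
    constructor
    · obtain ⟨r, hr, e⟩ := sx _ (mem_xs.2 (Or.inr ⟨c, hc, rfl⟩))
      have := (first (h1 r hr)).2.2
      rw [e, nbX_V] at this
      refine away _ a1 r hr (fun e' => ?_) _ this j hj
      rw [← e', a2, V_inj] at e; omega
    · obtain ⟨r, hr, e⟩ := sy _ (mem_ys.2 (Or.inr ⟨c, hc, rfl⟩))
      have := last (h1 r hr)
      rw [e, nbY_V] at this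
      refine away _ a1 r hr (fun e' => ?_) _ this j hj
      have b1 := par (h1 _ a1).1 _ le_rfl
      have b2 := (h1 _ a1).2.2.2.2
      rw [a2, e', e, pos_V, pos_V] at b1
      rw [e'] at b2
      omega
  refine ⟨fun i => decide (∀ t, 2 ≤ t → t ≤ 2 * φ.length + 3 →
    ∃ j ≤ (P (ρ i)).2.length, (P (ρ i)).1.getD j 0 = V (tb false) i t), fun cl hcl => ?_⟩
  obtain ⟨c, hc, rfl⟩ := List.getElem_of_mem hcl
  obtain ⟨r, hr, e⟩ := sx _ (mem_xs.2 (Or.inr ⟨c, hc, rfl⟩))
  obtain ⟨f1, f2, -⟩ := first (h1 r hr)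
  have f3 := (h1 r hr).2.2.2.2
  rw [e, nbX_V] at f2
  have ha := (h1 r hr).1.adj (i := 1) f1
  rw [f2] at ha
  rcases adj_V ha with ⟨b', g1, -⟩ | ⟨b', g1, -⟩ | ⟨g1, -⟩ | ⟨-, g⟩
  · exact absurd g1.symm (tg_ne _ _ _)
  · exact absurd g1.symm (tg_ne _ _ _)
  · exact absurd rfl g1
  rcases g with g | ⟨-, g⟩ | g | g | ⟨-, l, hl, g⟩
  · omega
  · have := (h1 r hr).1.inj (i := 1 + 1) (j := 0) f1 (by omega) (g.trans e.symm)
    omega
  · omega
  · omega
  have hi := lt_nv hl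
  rw [List.getD_eq_getElem _ _ hc] at hl
  refine ⟨l, hl, ?_⟩
  obtain ⟨a1, a2⟩ := hρ _ hi
  have hw := away _ a1 r hr (fun e' => by rw [← e', a2, V_inj] at e; omega) _
    ((mem_inner (h1 r hr).1.2.1).2 ⟨1 + 1, by omega, by omega, g⟩)
  obtain ⟨i, b⟩ := l
  cases b
  · simp only [decide_eq_false_iff_not]
    intro hc'
    obtain ⟨j, hj, e'⟩ := hc' (2 * c + 3) (by omega) (by omega)
    exact hw j hj e'
  · simp only [decide_eq_true_eq]
    intro t t1 t2
    by_contra hn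
    push Not at hn
    refine cover (h1 _ a1) a2 (hp _ hi) (fun b => bif b then 2 * c + 3 else t) ?_ ?_
    · intro b; cases b <;> simp <;> omega
    · intro b; cases b
      · exact hn
      · exact hw

def gR (m i : ℕ) (b : Bool) (j : ℕ) : ℕ := V (tg m b j) i j

def gB (c : ℕ) (l : Lit) (j : ℕ) : ℕ :=
  if j ≤ 1 then V 3 c (j + 1) else if j ≤ 3 then V (tb l.2) l.1 (2 * c + 1 + j) else V 3 c (j - 1)

theorem complete (h : SAT φ) : OddPaths (red φ) := by
  obtain ⟨σ, hσ⟩ := h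
  have : ∀ c, ∃ l : Lit, c < φ.length → l ∈ φ.getD c [] ∧ σ l.1 = l.2 := by
    intro c
    by_cases hc : c < φ.length
    · obtain ⟨l, hl, e⟩ := hσ _ (List.getElem_mem hc)
      exact ⟨l, fun _ => ⟨by rwa [List.getD_eq_getElem _ _ hc], e⟩⟩
    · exact ⟨(0, true), fun h => absurd h hc⟩
  choose lit hlit using this
  let P : ℕ → Pth := fun r => if r < nv φ then mkP (ed φ) (gR φ.length r (!σ r)) (2 * φ.length + 5)
    else mkP (ed φ) (gB (r - nv φ) (lit (r - nv φ))) 5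
  have hR : ∀ r < nv φ, IsPath (ed φ) (mkP (ed φ) (gR φ.length r (!σ r)) (2 * φ.length + 5)) :=
    fun r hr => mkP_path _ _ _ (fun i _ j _ e => (V_inj.1 e).2.2)
      fun j hj => mem_ed.2 (Or.inl ⟨r, hr, _, j, hj, rfl, rfl⟩)
  have hB : ∀ c < φ.length, IsPath (ed φ) (mkP (ed φ) (gB c (lit c)) 5) := by
    intro c hc
    have := tb_ne (lit c).2
    refine mkP_path _ _ _ (fun i _ j _ e => ?_) fun j hj => mem_ed.2 ?_
    · unfold gB at e
      split_ifs at e <;> rw [V_inj] at e <;> omega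
    · obtain ⟨a1, -⟩ := hlit c hc
      interval_cases j
      · exact Or.inr ⟨c, hc, Or.inl ⟨rfl, rfl⟩⟩
      · exact Or.inr ⟨c, hc, Or.inr (Or.inr ⟨_, a1, Or.inl ⟨rfl, rfl⟩⟩)⟩
      · refine Or.inl ⟨_, lt_nv a1, (lit c).2, 2 * c + 3, by omega, ?_, ?_⟩
        · rw [tg, if_neg (by omega)]; rfl
        · rw [tg, if_neg (by omega)]; rfl
      · exact Or.inr ⟨c, hc, Or.inr (Or.inr ⟨_, a1, Or.inr ⟨rfl, rfl⟩⟩)⟩
      · exact Or.inr ⟨c, hc, Or.inr (Or.inl ⟨rfl, rfl⟩)⟩
  have hin : ∀ (g : ℕ → ℕ) (L v : ℕ), v ∈ inner (mkP (ed φ) g L) → ∃ j, 0 < j ∧ j < L ∧ g j = v := by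
    intro g L v hv
    obtain ⟨j, a, b, c⟩ := (mem_inner (by simp [mkP])).1 hv
    rw [mkP_len] at b
    exact ⟨j, a, b, by rw [← c, mkP_get _ _ _ b.le]⟩
  have h1 : ∀ r < nv φ + φ.length, OddXY (ed φ) (xs φ) (ys φ) (P r) := by
    intro r hr
    simp only [P]
    split_ifs with h
    · refine ⟨hR r h, ?_, ?_, fun v hv => ?_, by rw [mkP_len]; omega⟩
      · rw [mkP_get _ _ _ (by omega)]; exact mem_xs.2 (Or.inl ⟨r, h, by simp [gR, tg]⟩)
      · rw [mkP_len, mkP_get _ _ _ le_rfl]; exact mem_ys.2 (Or.inl ⟨r, h, by simp [gR, tg]⟩)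
      · obtain ⟨j, a, b, rfl⟩ := hin _ _ _ hv
        have := tg_ne φ.length (!σ r) j
        rw [mem_xs, mem_ys]
        simp only [gR, V_inj]
        constructor <;> rintro (⟨i, -, e⟩ | ⟨i, -, e⟩) <;> omega
    · refine ⟨hB _ (by omega), ?_, ?_, fun v hv => ?_, by rw [mkP_len]⟩
      · rw [mkP_get _ _ _ (by omega)]; exact mem_xs.2 (Or.inr ⟨_, by omega, rfl⟩)
      · rw [mkP_len, mkP_get _ _ _ le_rfl]; exact mem_ys.2 (Or.inr ⟨_, by omega, rfl⟩)
      · obtain ⟨j, a, b, rfl⟩ := hin _ _ _ hv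
        have := tb_ne (lit (r - nv φ)).2
        rw [mem_xs, mem_ys]
        unfold gB
        constructor <;> rintro (⟨i, -, e⟩ | ⟨i, -, e⟩) <;> split_ifs at e <;> rw [V_inj] at e <;>
          omega
  have hRB : ∀ r < nv φ, ∀ c < φ.length, ∀ i j, gR φ.length r (!σ r) i ≠ gB c (lit c) j := by
    intro r hr c hc i j e
    have a1 := tg_ne φ.length (!σ r) i
    have a2 := tb_ne (lit c).2
    unfold gR gB at e
    split_ifs at e <;> rw [V_inj] at e
    · omega
    · obtain ⟨e1, rfl, -⟩ := e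
      unfold tg at e1
      split_ifs at e1
      · omega
      · have := tb_inj e1
        rw [(hlit c hc).2] at this
        simp at this
    · omega
  have h2 : ∀ r < nv φ + φ.length, ∀ s < nv φ + φ.length, r ≠ s →
      ∀ v ∈ inner (P r), v ∉ inner (P s) := by
    intro r hr s hs hn v hv hv'
    simp only [P] at hv hv'
    split_ifs at hv hv' <;> obtain ⟨i, i1, i2, rfl⟩ := hin _ _ _ hv <;>
      obtain ⟨j, j1, j2, e⟩ := hin _ _ _ hv'
    · exact hn (V_inj.1 e).2.1.symm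
    · exact hRB _ (by omega) _ (by omega) _ _ e.symm
    · exact hRB _ (by omega) _ (by omega) _ _ e
    · have a1 := tb_ne (lit (r - nv φ)).2
      have a2 := tb_ne (lit (s - nv φ)).2
      unfold gB at e
      split_ifs at e <;> rw [V_inj] at e <;> omega
  refine ⟨fun e he => ?_, by simp [red, nv], xs_nd, by simp [red, xs], fun v hv => ?_, ys_nd,
    by simp [red, ys], fun v hv => ?_, P, h1, fun r hr s hs hn =>
      ⟨diff_of (h1 r hr) (h1 s hs) (first (h1 r hr)).1 (h2 r hr s hs hn), h2 r hr s hs hn⟩⟩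
  · have := List.le_sum_of_mem (List.mem_map_of_mem (f := fun e : ℕ × ℕ => e.1 + e.2) he)
    simp only [red] at this ⊢; omega
  · have := List.le_sum_of_mem hv
    simp only [red] at this ⊢; omega
  · have := List.le_sum_of_mem hv
    simp only [red] at this ⊢; omega

theorem odd_hard : Hard OddPaths := hard_SAT.red red red_pt fun _ => ⟨complete, sound⟩

end Pool.Agent.Lead.Odd
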