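import Mathlib

set_option autoImplicit false
open Set Filter Topology

namespace Pool.Agent.Lead.Oku

abbrev II := Set.Icc (0:ℝ) 1
abbrev ZZ (X : Type) [TopologicalSpace X] := {f : X → II // Continuous f}

theorem lsig_of {ι : Type} (W : Set (ι → ℝ)) (hW : IsClosed W) (N : ℕ → Set (ι → ℝ))
    (hN : ∀ n, IsClosed (N n))
    (hb : ∀ q ∈ W, ∀ i, ∃ n, q ∈ N n ∧ ∃ m : ℝ, ∀ r ∈ N n, |r i| ≤ m) :
    ∃ 𝓕 : Set (Set W), 𝓕.Countable ∧ ∀ g : W, ∃ C : Set W, IsCompact C ∧ g ∈ C ∧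
      ∀ U : Set W, IsOpen U → C ⊆ U → ∃ F ∈ 𝓕, C ⊆ F ∧ F ⊆ U := by
  refine ⟨range (fun t : Finset ℕ => {r : W | ∀ n ∈ t, r.1 ∈ N n}), countable_range _, ?_⟩
  intro q
  have key : ∀ 𝒰 : Ultrafilter (ι → ℝ), (∀ n, q.1 ∈ N n → N n ∈ 𝒰) →
      ∃ r, (𝒰 : Filter (ι → ℝ)) ≤ 𝓝 r := by
    intro 𝒰 h𝒰
    have : ∀ i, ∃ c : ℝ, Tendsto (fun r : ι → ℝ => r i) (𝒰 : Filter (ι → ℝ)) (𝓝 c) := by
      intro i
      obtain ⟨n, hn, m, hm⟩ := hb q.1 q.2 i
      have h1 : (𝒰.map (fun r : ι → ℝ => r i) : Filter ℝ) ≤ 𝓟 (Icc (-m) m) := by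
        rw [le_principal_iff]
        have : {r : ι → ℝ | r i ∈ Icc (-m) m} ∈ 𝒰 := by
          refine mem_of_superset (h𝒰 n hn) ?_
          intro r hr
          exact abs_le.1 (hm r hr)
        exact this
      obtain ⟨c, -, hc⟩ := isCompact_Icc.ultrafilter_le_nhds _ h1
      exact ⟨c, hc⟩
    choose c hc using this
    exact ⟨c, tendsto_pi_nhds.2 hc⟩
  refine ⟨{r : W | ∀ n, q.1 ∈ N n → r.1 ∈ N n}, ?_, fun n hn => hn, ?_⟩
  · rw [Subtype.isCompact_iff, isCompact_iff_ultrafilter_le_nhds]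
    intro 𝒰 h𝒰
    rw [le_principal_iff] at h𝒰
    have h1 : ∀ n, q.1 ∈ N n → N n ∈ 𝒰 := by
      intro n hn
      refine mem_of_superset h𝒰 ?_
      rintro _ ⟨r, hr, rfl⟩
      exact hr n hn
    obtain ⟨r, hr⟩ := key 𝒰 h1
    have hrW : r ∈ W := by
      refine hW.mem_of_tendsto (f := id) (b := (𝒰 : Filter (ι → ℝ))) hr ?_
      refine mem_of_superset h𝒰 ?_
      rintro _ ⟨r, -, rfl⟩
      exact r.2
    refine ⟨r, ⟨⟨r, hrW⟩, fun n hn => ?_, rfl⟩, hr⟩
    exact (hN n).mem_of_tendsto (f := id) (b := (𝒰 : Filter (ι → ℝ))) hr (h1 n hn)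
  · intro U hU hCU
    obtain ⟨U', hU', rfl⟩ := isOpen_induced_iff.1 hU
    by_contra hcon
    push Not at hcon
    classical
    let 𝒢 : Filter (ι → ℝ) := ⨅ t : Finset ℕ,
      𝓟 {r | r ∈ W ∧ r ∉ U' ∧ ∀ n ∈ t, q.1 ∈ N n → r ∈ N n}
    have hne : 𝒢.NeBot := by
      refine iInf_neBot_of_directed' ?_ ?_
      · intro a b
        refine ⟨a ∪ b, ?_, ?_⟩
        · exact principal_mono.2 fun r hr =>
            ⟨hr.1, hr.2.1, fun n hn => hr.2.2 n (Finset.mem_union_left _ hn)⟩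
        · exact principal_mono.2 fun r hr =>
            ⟨hr.1, hr.2.1, fun n hn => hr.2.2 n (Finset.mem_union_right _ hn)⟩
      · intro t
        rw [principal_neBot_iff]
        have := hcon _ ⟨t.filter (fun n => q.1 ∈ N n), rfl⟩
          (fun r hr n hn => hr n (Finset.mem_filter.1 hn).2)
        obtain ⟨r, hr, hr'⟩ := not_subset.1 this
        exact ⟨r.1, r.2, hr', fun n hn hq => hr n (Finset.mem_filter.2 ⟨hn, hq⟩)⟩
    let 𝒰 := Ultrafilter.of 𝒢
    have hle : (𝒰 : Filter (ι → ℝ)) ≤ 𝒢 := Ultrafilter.of_le 𝒢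
    have hmem : ∀ t : Finset ℕ,
        {r | r ∈ W ∧ r ∉ U' ∧ ∀ n ∈ t, q.1 ∈ N n → r ∈ N n} ∈ 𝒰 := fun t =>
      hle (mem_iInf_of_mem t (mem_principal_self _))
    have h1 : ∀ n, q.1 ∈ N n → N n ∈ 𝒰 := fun n hn =>
      mem_of_superset (hmem {n}) fun r hr => hr.2.2 n (Finset.mem_singleton_self n) hn
    obtain ⟨r, hr⟩ := key 𝒰 h1
    have hrW : r ∈ W := hW.mem_of_tendsto (f := id) (b := (𝒰 : Filter (ι → ℝ))) hr
      (mem_of_superset (hmem ∅) fun r hr => hr.1)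
    have hrU : r ∈ U'ᶜ := hU'.isClosed_compl.mem_of_tendsto (f := id)
      (b := (𝒰 : Filter (ι → ℝ))) hr (mem_of_superset (hmem ∅) fun r hr => hr.2.1)
    exact hrU (hCU (a := ⟨r, hrW⟩) fun n hn =>
      (hN n).mem_of_tendsto (f := id) (b := (𝒰 : Filter (ι → ℝ))) hr (h1 n hn))

variable {X : Type} [TopologicalSpace X]

def free (N : Set (ZZ X)) (y : X) : Prop :=
  ∃ h ∈ closure (Subtype.val '' N), ∃ h' ∈ closure (Subtype.val '' N),
    (∀ x, x ≠ y → h x = h' x) ∧ h y = 0 ∧ h' y = 1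

theorem lemA (y : X) (hy : ¬ IsOpen ({y} : Set X)) (C : Set (ZZ X)) (hC : IsCompact C) :
    ∃ U : Set (ZZ X), IsOpen U ∧ C ⊆ U ∧ ∀ N ⊆ U, ¬ free N y := by
  let P : Set ((X → II) × (X → II)) :=
    {p | (∀ x, x ≠ y → p.1 x = p.2 x) ∧ p.1 y = 0 ∧ p.2 y = 1}
  have hP : IsClosed P := by
    have : P = (⋂ x, ⋂ (_ : x ≠ y), {p : (X → II) × (X → II) | p.1 x = p.2 x}) ∩
        ({p | p.1 y = 0} ∩ {p | p.2 y = 1}) := by
      ext p; simp [P]
    rw [this]
    refine IsClosed.inter (isClosed_iInter fun x => isClosed_iInter fun _ => ?_)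
      (IsClosed.inter ?_ ?_)
    · exact isClosed_eq ((continuous_apply x).comp continuous_fst)
        ((continuous_apply x).comp continuous_snd)
    · exact isClosed_eq ((continuous_apply y).comp continuous_fst) continuous_const
    · exact isClosed_eq ((continuous_apply y).comp continuous_snd) continuous_const
  have hK : IsCompact (Subtype.val '' C : Set (X → II)) := hC.image continuous_subtype_val
  have hsub : (Subtype.val '' C : Set (X → II)) ×ˢ (Subtype.val '' C) ⊆ Pᶜ := by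
    rintro ⟨_, _⟩ ⟨⟨a, -, rfl⟩, ⟨b, -, rfl⟩⟩ ⟨h1, h2, h3⟩
    have hd : Dense ({y}ᶜ : Set X) := dense_compl_singleton_iff_not_open.2 hy
    have := Continuous.ext_on hd a.2 b.2 (fun x hx => h1 x hx)
    have h4 : (0 : II) = 1 := by
      rw [← h2, ← h3]; exact congrFun this y
    exact zero_ne_one h4
  obtain ⟨u, v, hu, hv, hCu, hCv, huv⟩ := generalized_tube_lemma hK hK hP.isOpen_compl hsub
  obtain ⟨V, hV, hKV, hVc⟩ := hK.exists_isOpen_closure_subset
    ((hu.inter hv).mem_nhdsSet.2 (subset_inter hCu hCv))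
  refine ⟨Subtype.val ⁻¹' V, hV.preimage continuous_subtype_val,
    fun a ha => hKV ⟨a, ha, rfl⟩, ?_⟩
  rintro N hN ⟨h, hh, h', hh', h1⟩
  have hcl : closure (Subtype.val '' N) ⊆ u ∩ v := by
    refine (closure_mono ?_).trans hVc
    rintro _ ⟨a, ha, rfl⟩
    exact hN ha
  exact huv (a := (h, h')) ⟨(hcl hh).1, (hcl hh').2⟩ h1

theorem lemC (Y : ℕ → Set X) (q : C(X, ℝ) → ℝ)
    (hq : q ∈ closure ((fun x : X => fun f : C(X, ℝ) => f x) '' {x : X | ¬ IsOpen ({x} : Set X)}))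
    (hY : ∀ y, ¬ IsOpen ({y} : Set X) → ∃ k, y ∈ Y k) :
    ∃ k, q ∈ closure ((fun x : X => fun f : C(X, ℝ) => f x) '' Y k) := by
  by_contra hcon
  push Not at hcon
  set e : X → C(X, ℝ) → ℝ := fun x f => f x with he
  have hec : Continuous e := continuous_pi fun f => f.continuous
  have := fun k => CompletelyRegularSpace.completely_regular q _ isClosed_closure (hcon k)
  choose Φ hΦc hΦ0 hΦ1 using this
  let Ψ : (C(X, ℝ) → ℝ) → ℝ := fun r => ∑' k, (1 / 2 : ℝ) ^ k * (Φ k r : ℝ)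
  have hbd : ∀ k r, ‖(1 / 2 : ℝ) ^ k * (Φ k r : ℝ)‖ ≤ (1 / 2 : ℝ) ^ k := by
    intro k r
    rw [Real.norm_eq_abs, abs_of_nonneg (mul_nonneg (by positivity) (Φ k r).2.1)]
    exact mul_le_of_le_one_right (by positivity) (Φ k r).2.2
  have hΨc : Continuous Ψ := continuous_tsum
    (fun k => continuous_const.mul (continuous_subtype_val.comp (hΦc k)))
    summable_geometric_two hbd
  have hΨq : Ψ q = 0 := by simp [Ψ, hΦ0]
  have hΨY : ∀ y, ¬ IsOpen ({y} : Set X) → Ψ (e y) ≠ 0 := by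
    intro y hy
    obtain ⟨k, hk⟩ := hY y hy
    have hs : Summable fun k => (1 / 2 : ℝ) ^ k * (Φ k (e y) : ℝ) :=
      Summable.of_norm_bounded summable_geometric_two (fun k => hbd k _)
    have h1 : Φ k (e y) = 1 := hΦ1 k (subset_closure ⟨y, hk, rfl⟩)
    have := hs.tsum_pos (fun j => mul_nonneg (by positivity) (Φ j (e y)).2.1) k
      (by rw [h1]; simp)
    exact this.ne'
  have hv : Continuous fun x => (Ψ (e x))⁻¹ := by
    rw [continuous_iff_continuousAt]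
    intro x
    by_cases hx : IsOpen ({x} : Set X)
    · have : 𝓝 x = pure x := (isOpen_singleton_iff_nhds_eq_pure x).1 hx
      unfold ContinuousAt
      rw [this]
      exact tendsto_pure_nhds _ _
    · exact ((hΨc.comp hec).continuousAt).inv₀ (hΨY x hx)
  let v : C(X, ℝ) := ⟨_, hv⟩
  have hcl : IsClosed {r : C(X, ℝ) → ℝ | Ψ r * r v = 1} :=
    isClosed_eq (hΨc.mul (continuous_apply v)) continuous_const
  have : q ∈ {r : C(X, ℝ) → ℝ | Ψ r * r v = 1} := by
    refine closure_minimal ?_ hcl hq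
    rintro _ ⟨y, hy, rfl⟩
    exact mul_inv_cancel₀ (hΨY y hy)
  have h2 : Ψ q * q v = 1 := this
  rw [hΨq, zero_mul] at h2
  exact zero_ne_one h2

theorem free_of [T35Space X] (N : Set (ZZ X)) (g : ZZ X) (K : Set X) (hK : IsClosed K)
    (hN : ∀ h : ZZ X, (∀ x ∈ K, h.1 x = g.1 x) → h.1 ∈ closure (Subtype.val '' N))
    (y : X) (hy : y ∉ K) : free N y := by
  classical
  have hφ : ∀ B : Finset X, ∃ f : X → II, Continuous f ∧ f y = 0 ∧
      EqOn f 1 (K ∪ (B.erase y : Finset X)) := by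
    intro B
    refine CompletelyRegularSpace.completely_regular y _
      (hK.union (Finset.finite_toSet _).isClosed) ?_
    simp [hy]
  choose φ hφc hφ0 hφ1 using hφ
  have hmul : Continuous fun p : II × II => p.1 * p.2 := by
    refine continuous_induced_rng.2 ?_
    exact (continuous_subtype_val.comp continuous_fst).mul
      (continuous_subtype_val.comp continuous_snd)
  let a : Finset X → ZZ X := fun B => ⟨fun x => φ B x * g.1 x,
    hmul.comp ((hφc B).prodMk g.2)⟩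
  let b : Finset X → ZZ X := fun B => ⟨fun x => unitInterval.symm (φ B x * unitInterval.symm (g.1 x)),
    unitInterval.continuous_symm.comp
      (hmul.comp ((hφc B).prodMk (unitInterval.continuous_symm.comp g.2)))⟩
  have lim : ∀ (c : II) (a : Finset X → ZZ X), (∀ B, (a B).1 y = c) →
      (∀ B, ∀ x ∈ K ∪ (B.erase y : Finset X), (a B).1 x = g.1 x) →
      Function.update g.1 y c ∈ closure (Subtype.val '' N) := by
    intro c a ha hb
    refine isClosed_closure.mem_of_tendsto (f := fun B => (a B).1) (b := atTop) ?_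
      (Eventually.of_forall fun B => hN _ fun x hx => hb B x (Or.inl hx))
    rw [tendsto_pi_nhds]
    intro x
    refine tendsto_const_nhds.congr' ?_
    by_cases hx : x = y
    · subst hx
      exact Eventually.of_forall fun B => by simp [ha B]
    · filter_upwards [eventually_ge_atTop ({x} : Finset X)] with B hB
      rw [Function.update_of_ne hx]
      refine (hb B x (Or.inr ?_)).symm
      have : x ∈ B := hB (Finset.mem_singleton_self x)
      simp [hx, this]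
  refine ⟨_, lim 0 a ?_ ?_, _, lim 1 b ?_ ?_, ?_, ?_, ?_⟩
  · intro B; simp [a, hφ0]
  · intro B x hx
    have : φ B x = 1 := hφ1 B hx
    simp [a, this]
  · intro B; simp [b, hφ0]
  · intro B x hx
    have : φ B x = 1 := hφ1 B hx
    simp [b, this]
  · intro x hx; simp [Function.update_of_ne hx]
  · simp
  · simp

theorem step [T35Space X] (N : Set (ZZ X)) (u : C(X, ℝ)) (s : ZZ X × ℝ) :
    ∃ s' : ZZ X × ℝ, s.2 + 1 ≤ s'.2 ∧ (∀ x, |u x| ≤ s.2 → s'.1.1 x = s.1.1 x) ∧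
      ∀ g : ZZ X, (∀ x, |u x| ≤ s'.2 → g.1 x = s'.1.1 x) → g ∈ N →
        ∀ y, ¬ free N y → |u y| ≤ s'.2 := by
  by_cases h : ∀ h : ZZ X, (∀ x ∈ {x | |u x| ≤ s.2}, h.1 x = s.1.1 x) →
      h.1 ∈ closure (Subtype.val '' N)
  · refine ⟨(s.1, s.2 + 1), le_rfl, fun _ _ => rfl, ?_⟩
    intro g _ _ y hy
    by_contra hc
    refine hy (free_of N s.1 _ (isClosed_le u.continuous.abs continuous_const) h y ?_)
    intro h1
    have h2 : |u y| ≤ s.2 := h1
    exact hc (by show |u y| ≤ s.2 + 1; linarith)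
  · push Not at h
    obtain ⟨h, hh, hn⟩ := h
    obtain ⟨B, w, hw, hsub⟩ := isOpen_pi_iff.1 isClosed_closure.isOpen_compl h.1 hn
    obtain ⟨m, hm⟩ := (B.finite_toSet.image (fun x => |u x|)).bddAbove
    refine ⟨(h, max (s.2 + 1) m), le_max_left _ _, fun x hx => hh x hx, ?_⟩
    intro g hg hgN
    exfalso
    refine hsub (a := g.1) ?_ (subset_closure ⟨g, hgN, rfl⟩)
    intro x hx
    rw [hg x ((hm ⟨x, hx, rfl⟩).trans (le_max_right _ _))]
    exact (hw x hx).2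

theorem lemB [T35Space X] (F : ℕ → Set (ZZ X)) (u : C(X, ℝ)) :
    ∃ g : ZZ X, ∀ n, g ∈ F n → ∃ m : ℝ, ∀ y, ¬ free (F n) y → |u y| ≤ m := by
  choose st h1 h2 h3 using fun n s => step (F n) u s
  let s : ℕ → ZZ X × ℝ := fun n => Nat.rec (⟨fun _ => 0, continuous_const⟩, 0) (fun n t => st n t) n
  have hs : ∀ n, s (n + 1) = st n (s n) := fun n => rfl
  have hge : ∀ n : ℕ, (n : ℝ) ≤ (s n).2 := by
    intro n
    induction n with
    | zero => simp [s]
    | succ n ih => rw [hs]; have := h1 n (s n); push_cast; linarith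
  have hmono : ∀ n m, n ≤ m → (s n).2 ≤ (s m).2 ∧
      ∀ x, |u x| ≤ (s n).2 → (s m).1.1 x = (s n).1.1 x := by
    intro n m hnm
    induction m, hnm using Nat.le_induction with
    | base => exact ⟨le_rfl, fun _ _ => rfl⟩
    | succ m _ ih =>
      rw [hs]
      have := h1 m (s m)
      refine ⟨by linarith [ih.1], fun x hx => ?_⟩
      rw [h2 m (s m) x (hx.trans ih.1), ih.2 x hx]
  let g : X → II := fun x => (s ⌈|u x|⌉₊).1.1 x
  have hg : ∀ n x, |u x| ≤ (s n).2 → g x = (s n).1.1 x := by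
    intro n x hx
    have a1 := (hmono n (max n ⌈|u x|⌉₊) (le_max_left _ _)).2 x hx
    have a2 := (hmono ⌈|u x|⌉₊ (max n ⌈|u x|⌉₊) (le_max_right _ _)).2 x
      ((Nat.le_ceil _).trans (hge _))
    show (s ⌈|u x|⌉₊).1.1 x = _
    rw [← a1, ← a2]
  have hgc : Continuous g := by
    rw [continuous_iff_continuousAt]
    intro x
    obtain ⟨n, hn⟩ := exists_nat_gt |u x|
    refine ((s n).1.2.continuousAt (x := x)).congr ?_
    have : ∀ᶠ z in 𝓝 x, |u z| < n :=
      (isOpen_lt u.continuous.abs continuous_const).mem_nhds hn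
    filter_upwards [this] with z hz
    exact (hg n z (hz.le.trans (hge n))).symm
  refine ⟨⟨g, hgc⟩, fun n hn => ⟨(s (n + 1)).2, ?_⟩⟩
  exact h3 n (s n) ⟨g, hgc⟩ (fun x hx => hg (n + 1) x hx) hn

theorem main (X : Type) [TopologicalSpace X] [T35Space X]
    (H : ∃ 𝓕 : Set (Set (ZZ X)), 𝓕.Countable ∧ ∀ g : ZZ X, ∃ C : Set (ZZ X),
      IsCompact C ∧ g ∈ C ∧ ∀ U : Set (ZZ X), IsOpen U → C ⊆ U → ∃ F ∈ 𝓕, C ⊆ F ∧ F ⊆ U) :
    ∃ 𝓕 : Set (Set ↥(closure ((fun x : X => fun f : C(X, ℝ) => f x) ''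
                {x : X | ¬ IsOpen ({x} : Set X)}))), 𝓕.Countable ∧
        ∀ g : ↥(closure ((fun x : X => fun f : C(X, ℝ) => f x) ''
                {x : X | ¬ IsOpen ({x} : Set X)})),
          ∃ C : Set ↥(closure ((fun x : X => fun f : C(X, ℝ) => f x) ''
                {x : X | ¬ IsOpen ({x} : Set X)})),
            IsCompact C ∧ g ∈ C ∧
              ∀ U : Set ↥(closure ((fun x : X => fun f : C(X, ℝ) => f x) ''
                {x : X | ¬ IsOpen ({x} : Set X)})),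
                IsOpen U → C ⊆ U → ∃ F ∈ 𝓕, C ⊆ F ∧ F ⊆ U := by
  obtain ⟨𝓕, hc, h𝓕⟩ := H
  obtain ⟨F, hF⟩ := (hc.insert univ).exists_eq_range (insert_nonempty _ _)
  refine lsig_of _ isClosed_closure
    (fun n => closure ((fun x : X => fun f : C(X, ℝ) => f x) '' {y | ¬ free (F n) y}))
    (fun n => isClosed_closure) ?_
  intro q hq u
  obtain ⟨g, hg⟩ := lemB F u
  obtain ⟨C, hC, hgC, hnet⟩ := h𝓕 g
  obtain ⟨k, hk⟩ := lemC (fun k => {y | g ∈ F k ∧ ¬ free (F k) y}) q hq (by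
    intro y hy
    obtain ⟨U, hU, hCU, hfree⟩ := lemA y hy C hC
    obtain ⟨N, hN, hCN, hNU⟩ := hnet U hU hCU
    have : N ∈ range F := hF ▸ mem_insert_of_mem _ hN
    obtain ⟨k, rfl⟩ := this
    exact ⟨k, hCN hgC, hfree _ hNU⟩)
  have hgk : g ∈ F k := by
    obtain ⟨_, y, hy, -⟩ := closure_nonempty_iff.1 ⟨q, hk⟩
    exact hy.1
  obtain ⟨m, hm⟩ := hg k hgk
  refine ⟨k, closure_mono (image_mono fun y hy => hy.2) hk, m, ?_⟩
  intro r hr
  have hcl : IsClosed {r : C(X, ℝ) → ℝ | |r u| ≤ m} :=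
    isClosed_le (continuous_apply u).abs continuous_const
  refine closure_minimal ?_ hcl hr
  rintro _ ⟨y, hy, rfl⟩
  exact hm y hy

end Pool.Agent.Lead.Oku
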