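import Pool.Agent.Lead.ModDefs

/-! Ishimoto's propositional ontology `L₁` and its modal translations. -/

namespace Pool.Agent.Lead.Mod

/-- Formulas of `L₁`. -/
inductive LF : Type
  | eps : ℕ → ℕ → LF
  | neg : LF → LF
  | or : LF → LF → LF

def LF.imp (a b : LF) : LF := .or (.neg a) b
def LF.and (a b : LF) : LF := .neg (.or (.neg a) (.neg b))

/-- Boolean value under an assignment of truth values to the atoms `ε a b`. -/
def LF.val (v : ℕ → ℕ → Prop) : LF → Prop
  | .eps a b => v a b
  | .neg a => ¬ a.val v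
  | .or a b => a.val v ∨ b.val v

/-- Theorems of `L₁`. -/
inductive L1 : LF → Prop
  | taut (φ) : (∀ v, φ.val v) → L1 φ
  | ax1 (a b) : L1 ((LF.eps a b).imp (.eps a a))
  | ax2 (a b c) : L1 (((LF.eps a b).and (.eps b c)).imp (.eps a c))
  | ax3 (a b c) : L1 (((LF.eps a b).and (.eps b c)).imp (.eps b a))
  | mp (φ ψ) : L1 (φ.imp ψ) → L1 φ → L1 ψ

/-- The translation `t_F` for `F(p₀, p₁)`; the name `a` goes to the variable `p a`. -/
def LF.tr (F : Fm) (p : ℕ → ℕ) : LF → Fm
  | .eps a b => F.subst (fun n => if n = 0 then .var (p a) else .var (p b))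
  | .neg a => (a.tr F p).neg
  | .or a b => (a.tr F p).or (b.tr F p)

/-- The least normal modal logic containing `A`. -/
def Ext (A : Set Fm) : Set Fm := {a | ∀ L, Normal L → A ⊆ L → a ∈ L}

end Pool.Agent.Lead.Mod
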