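import Pool.Agent.Lead.Mod1
import Pool.Agent.Lead.OntDefs

namespace Pool.Agent.Lead.Mod

open Fm

section der
variable {L : Set Fm} (hL : Normal L)
include hL

lemma tc1 {a b : Fm} (h : b ∈ L)
    (H : ∀ v : Fm → Prop, ¬ v bot → (∀ b c, v (imp b c) ↔ (v b → v c)) → v b → v a) : a ∈ L :=
  hL.mp b a (hL.taut _ fun v h0 h1 => (h1 _ _).2 (H v h0 h1)) h

lemma tc2 {a b c : Fm} (h : b ∈ L) (h' : c ∈ L)
    (H : ∀ v : Fm → Prop, ¬ v bot → (∀ b c, v (imp b c) ↔ (v b → v c)) → v b → v c → v a) :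
    a ∈ L :=
  hL.mp c a (tc1 hL h fun v h0 h1 hb => (h1 _ _).2 (H v h0 h1 hb)) h'

lemma tc3 {a b c d : Fm} (h : b ∈ L) (h' : c ∈ L) (h'' : d ∈ L)
    (H : ∀ v : Fm → Prop, ¬ v bot → (∀ b c, v (imp b c) ↔ (v b → v c)) → v b → v c → v d → v a) :
    a ∈ L :=
  hL.mp d a (tc2 hL h h' fun v h0 h1 hb hc => (h1 _ _).2 (H v h0 h1 hb hc)) h''

lemma dK (a b : Fm) : imp (box (imp a b)) (imp (box a) (box b)) ∈ L := by
  simpa [Fm.subst] using hL.subst (fun n => if n = 0 then a else b) _ hL.axK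

lemma dRM {a b : Fm} (h : imp a b ∈ L) : imp (box a) (box b) ∈ L :=
  hL.mp _ _ (dK hL a b) (hL.nec _ h)

lemma dRM2 {a b c : Fm} (h : imp a (imp b c) ∈ L) : imp (box a) (imp (box b) (box c)) ∈ L :=
  tc2 hL (dRM hL h) (dK hL b c) fun v h0 h1 => by simp only [h1]; tauto

lemma dRD {a b : Fm} (h : imp a b ∈ L) : imp (dia a) (dia b) ∈ L :=
  tc1 hL (dRM hL (a := neg b) (b := neg a) (tc1 hL h fun v h0 h1 => by
    simp only [neg, h1]; tauto)) fun v h0 h1 => by simp only [dia, neg, h1]; tauto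

lemma dBD {a b c : Fm} (h : imp a (imp b c) ∈ L) : imp (box a) (imp (dia b) (dia c)) ∈ L :=
  tc1 hL (dRM2 hL (a := a) (b := neg c) (c := neg b) (tc1 hL h fun v h0 h1 => by
    simp only [neg, h1]; tauto)) fun v h0 h1 => by simp only [dia, neg, h1]; tauto

end der

def bb (a : Fm) : Fm := box (dia (box a))

section s4
variable {L : Set Fm} (hL : Normal L) (hT : ∀ a, imp (box a) a ∈ L)
  (h4 : ∀ a, imp (box a) (box (box a)) ∈ L)
include hL

include hT in
lemma bb_nec {a : Fm} (h : a ∈ L) : bb a ∈ L :=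
  hL.nec _ (tc2 hL (hL.nec _ h) (hT (neg (box a))) fun v h0 h1 => by
    simp only [dia, neg, h1]; tauto)

include h4 in
lemma bb2 {a b c : Fm} (h : imp a (imp b c) ∈ L) : imp (bb a) (imp (bb b) (bb c)) ∈ L := by
  have h1 : imp (box a) (imp (dia (box b)) (dia (box c))) ∈ L :=
    tc2 hL (dBD hL (dRM2 hL h)) (h4 a) fun v h0 h1 => by simp only [h1]; tauto
  have h2 : imp (box (dia (box b))) (imp (dia (box a)) (dia (dia (box c)))) ∈ L :=
    dBD hL (tc1 hL h1 fun v h0 h1 => by simp only [h1]; tauto)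
  have h3 : imp (dia (dia (box c))) (dia (box c)) ∈ L :=
    tc2 hL (h4 (neg (box c))) (dRM hL (a := box (neg (box c))) (b := neg (dia (box c)))
      (hL.taut _ fun v h0 h1 => by simp only [dia, neg, h1]; tauto)) fun v h0 h1 => by
      simp only [dia, neg, h1]; tauto
  have h5 : imp (box (dia (box b))) (imp (dia (box a)) (dia (box c))) ∈ L :=
    tc2 hL h2 h3 fun v h0 h1 => by simp only [h1]; tauto
  exact tc2 hL (dRM2 hL h5) (h4 (dia (box b))) fun v h0 h1 => by simp only [bb, h1]; tauto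

end s4

def FB : Fm := Fm.and (var 0) (Fm.and (bb (imp (var 0) (var 1)))
  (imp (var 1) (bb (imp (var 1) (var 0)))))

lemma sig_FB : sig FB ⊆ {0, 1} := by decide

lemma tr_eps (p : ℕ → ℕ) (a b : ℕ) : (LF.eps a b).tr FB p =
    Fm.and (var (p a)) (Fm.and (bb (imp (var (p a)) (var (p b))))
      (imp (var (p b)) (bb (imp (var (p b)) (var (p a)))))) := by
  simp [LF.tr, FB, Fm.subst, Fm.and, neg, bb, dia]

lemma val_tr (F : Fm) (p : ℕ → ℕ) (v : Fm → Prop) (h0 : ¬ v bot)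
    (h1 : ∀ b c, v (imp b c) ↔ (v b → v c)) (φ : LF) :
    v (φ.tr F p) ↔ φ.val (fun a b => v ((LF.eps a b).tr F p)) := by
  induction φ with
  | eps a b => rfl
  | neg a ih => simp only [LF.tr, LF.val, neg, h1] at ih ⊢; tauto
  | or a b iha ihb => simp only [LF.tr, LF.val, neg, Fm.or, h1] at iha ihb ⊢; tauto

theorem ont_sound {L : Set Fm} (hL : Normal L) (hT : ∀ a, imp (box a) a ∈ L)
    (h4 : ∀ a, imp (box a) (box (box a)) ∈ L) (p : ℕ → ℕ) {φ : LF} (h : L1 φ) :
    φ.tr FB p ∈ L := by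
  have trans : ∀ a b c, imp (bb (imp a b)) (imp (bb (imp b c)) (bb (imp a c))) ∈ L :=
    fun a b c => bb2 hL h4 (hL.taut _ fun v h0 h1 => by simp only [h1]; tauto)
  induction h with
  | taut φ h => exact hL.taut _ fun v h0 h1 => (val_tr FB p v h0 h1 φ).2 (h _)
  | ax1 a b =>
    refine tc1 hL (bb_nec hL hT (a := imp (var (p a)) (var (p a)))
      (hL.taut _ fun v h0 h1 => by simp only [h1]; tauto)) fun v h0 h1 hh => ?_
    rw [val_tr FB p v h0 h1]
    simp only [LF.imp, LF.val, tr_eps, Fm.and, neg, h1]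
    tauto
  | ax2 a b c =>
    refine tc2 hL (trans (var (p a)) (var (p b)) (var (p c)))
      (trans (var (p c)) (var (p b)) (var (p a))) fun v h0 h1 hh hh' => ?_
    rw [val_tr FB p v h0 h1]
    simp only [LF.imp, LF.and, LF.val, tr_eps, Fm.and, neg, h1] at hh hh' ⊢
    tauto
  | ax3 a b c =>
    refine hL.taut _ fun v h0 h1 => ?_
    rw [val_tr FB p v h0 h1]
    simp only [LF.imp, LF.and, LF.val, tr_eps, Fm.and, neg, h1]
    tauto
  | mp φ ψ _ _ ih1 ih2 =>
    exact tc2 hL ih1 ih2 fun v h0 h1 => by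
      simp only [LF.imp, LF.tr, Fm.or, neg, h1]; tauto

def LF.bd : LF → ℕ
  | .eps a b => a + b + 1
  | .neg a => a.bd
  | .or a b => a.bd + b.bd

lemma val_congr {v w : ℕ → ℕ → Prop} (φ : LF) (h : ∀ a < φ.bd, ∀ b < φ.bd, v a b ↔ w a b) :
    φ.val v ↔ φ.val w := by
  induction φ with
  | eps a b => exact h a (by simp only [LF.bd]; omega) b (by simp only [LF.bd]; omega)
  | neg a ih => exact not_congr (ih h)
  | or a b iha ihb =>
    exact or_congr (iha fun x hx y hy => h x (by simp [LF.bd]; omega) y (by simp [LF.bd]; omega))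
      (ihb fun x hx y hy => h x (by simp [LF.bd]; omega) y (by simp [LF.bd]; omega))

lemma L1_list (l : List LF) (hl : ∀ a ∈ l, L1 a) :
    ∀ φ : LF, (∀ v, (∀ a ∈ l, a.val v) → φ.val v) → L1 φ := by
  induction l with
  | nil => intro φ h; exact L1.taut _ fun v => h v (by simp)
  | cons a l ih =>
    intro φ h
    refine L1.mp a φ (ih (fun b hb => hl b (by simp [hb])) _ fun v hv => ?_) (hl a (by simp))
    simp only [LF.imp, LF.val]
    by_cases ha : a.val v
    · exact Or.inr (h v (by simpa [ha] using hv))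
    · exact Or.inl ha

theorem L1_complete (φ : LF) (h : ∀ v : ℕ → ℕ → Prop, (∀ a b, v a b → v a a) →
    (∀ a b c, v a b → v b c → v a c) → (∀ a b c, v a b → v b c → v b a) → φ.val v) : L1 φ := by
  let r := List.range φ.bd
  refine L1_list (r.flatMap fun a => r.flatMap fun b => r.flatMap fun c =>
    [(LF.eps a b).imp (.eps a a), ((LF.eps a b).and (.eps b c)).imp (.eps a c),
      ((LF.eps a b).and (.eps b c)).imp (.eps b a)]) ?_ φ fun v hv => ?_
  · intro ψ hψ
    simp only [List.mem_flatMap, List.mem_cons, List.not_mem_nil, or_false] at hψ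
    obtain ⟨a, -, b, -, c, -, rfl | rfl | rfl⟩ := hψ
    exacts [L1.ax1 _ _, L1.ax2 _ _ _, L1.ax3 _ _ _]
  · have H : ∀ a < φ.bd, ∀ b < φ.bd, ∀ c < φ.bd, (v a b → v a a) ∧ (v a b → v b c → v a c) ∧
        (v a b → v b c → v b a) := by
      intro a ha b hb c hc
      have g := fun ψ hψ => hv ψ (by
        simp only [List.mem_flatMap, r, List.mem_range]
        exact ⟨a, ha, b, hb, c, hc, hψ⟩)
      have g1 := g _ (List.mem_cons_self)
      have g2 := g _ (List.mem_cons_of_mem _ List.mem_cons_self)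
      have g3 := g _ (List.mem_cons_of_mem _ (List.mem_cons_of_mem _ List.mem_cons_self))
      simp only [LF.imp, LF.and, LF.val] at g1 g2 g3
      tauto
    refine (val_congr (w := fun a b => a < φ.bd ∧ b < φ.bd ∧ v a b) φ (by tauto)).2
      (h _ ?_ ?_ ?_)
    · rintro a b ⟨ha, hb, h⟩; exact ⟨ha, ha, (H a ha b hb b hb).1 h⟩
    · rintro a b c ⟨ha, hb, h⟩ ⟨-, hc, h'⟩; exact ⟨ha, hc, (H a ha b hb c hc).2.1 h h'⟩
    · rintro a b c ⟨ha, hb, h⟩ ⟨-, hc, h'⟩; exact ⟨hb, ha, (H a ha b hb c hc).2.2 h h'⟩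

theorem ont_faithful {L : Set Fm} (R : Option ℕ → Option ℕ → Prop) (hF : FrameFor L R)
    (hR : ∀ V a, Sat R V (bb a) none ↔ ∀ c, Sat R V a (some c)) (p : ℕ → ℕ)
    (hp : Function.Injective p) {φ : LF} (h : φ.tr FB p ∈ L) : L1 φ := by
  refine L1_complete φ fun v h1 h2 h3 => ?_
  let V : ℕ → Option ℕ → Prop := fun n w => ∃ b, p b = n ∧ v (w.getD b) b
  have hV : ∀ b w, V (p b) w ↔ v (w.getD b) b :=
    fun b w => ⟨fun ⟨b', h, h'⟩ => hp h ▸ h', fun h => ⟨b, rfl, h⟩⟩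
  have := (val_tr FB p (fun a => Sat R V a none) (by simp) (by simp) φ).1 (hF _ h V none)
  refine (val_congr φ fun a _ b _ => ?_).1 this
  simp only [tr_eps, sat_and, sat_imp, hR, sat_var, hV, Option.getD_none, Option.getD_some]
  constructor
  · rintro ⟨ha, h, -⟩; exact h a ha
  · intro hab
    exact ⟨h1 a b hab, fun c hc => h2 c a b hc hab,
      fun hb c hc => h2 c b a hc (h3 a b b hab hb)⟩

lemma ext_normal (A : Set Fm) : Normal (Ext A) where
  taut := fun a ha _ hL _ => hL.taut a ha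
  axK := fun _ hL _ => hL.axK
  mp := fun a b h1 h2 L hL hA => hL.mp a b (h1 L hL hA) (h2 L hL hA)
  nec := fun a h L hL hA => hL.nec a (h L hL hA)
  subst := fun s a h L hL hA => hL.subst s a (h L hL hA)

lemma mem_ext {A : Set Fm} {a : Fm} (h : a ∈ A) : a ∈ Ext A := fun _ _ hA => hA h

lemma frame_ext {A : Set Fm} {W : Type} (R : W → W → Prop) (h : FrameFor A R) :
    FrameFor (Ext A) R := fun a ha => ha {a | ∀ V w, Sat R V a w}
  { taut := fun a ha V w => ha (fun b => Sat R V b w) (by simp) (by simp)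
    axK := fun _ _ h1 h2 v hv => h1 v hv (h2 v hv)
    mp := fun _ _ h1 h2 V w => h1 V w (h2 V w)
    nec := fun _ h V _ v _ => h V v
    subst := fun s a h V w => (sat_subst s a w).2 (h _ w) } h

end Pool.Agent.Lead.Mod
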