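import Mathlib

namespace Pool.Agent.Lead.Orb

universe u

variable {K : Type u} [Field K] {n : ℕ}

/-- value of a polynomial in the matrix entries at an invertible matrix -/
noncomputable def val (g : GL (Fin n) K) (f : MvPolynomial (Fin n × Fin n) K) : K :=
  MvPolynomial.eval (fun ij : Fin n × Fin n => (g : Matrix (Fin n) (Fin n) K) ij.1 ij.2) f

/-- G is Zariski closed in GL n -/
def IsAlgebraicGroup (G : Subgroup (GL (Fin n) K)) : Prop :=
  ∃ S : Set (MvPolynomial (Fin n × Fin n) K), ∀ g, g ∈ G ↔ ∀ f ∈ S, val g f = 0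

/-- Zariski open subsets of G -/
def ZOpen (G : Subgroup (GL (Fin n) K)) (U : Set G) : Prop :=
  ∃ S : Set (MvPolynomial (Fin n × Fin n) K), ∀ g : G, g ∈ U ↔ ∃ f ∈ S, val g.1 f ≠ 0

end Pool.Agent.Lead.Orb
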