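import Mathlib
import Pool.Agent.Lead.OrbDefs

namespace Pool.Agent.Lead.Orb

open MvPolynomial

universe u v

def mat {R : Type*} [CommRing R] (p : Fin 6 → R) : Matrix (Fin 7) (Fin 7) R :=
  !![1, 0, 0, 0, 0, 0, 0;
     p 0, 1, 0, 0, 0, 0, 0;
     p 1, 0, 1, 0, 0, 0, 0;
     p 2, 0, 0, 1, 0, 0, 0;
     p 3, 0, p 0, 0, 1, 0, 0;
     p 4, 0, 0, p 0, 0, 1, 0;
     p 5, 0, 0, p 1, 0, 0, 1]

def op {R : Type*} [CommRing R] (p q : Fin 6 → R) : Fin 6 → R :=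
  ![p 0 + q 0, p 1 + q 1, p 2 + q 2, p 3 + q 3 + p 0 * q 1, p 4 + q 4 + p 0 * q 2,
    p 5 + q 5 + p 1 * q 2]

def iv {R : Type*} [CommRing R] (p : Fin 6 → R) : Fin 6 → R :=
  ![-p 0, -p 1, -p 2, -p 3 + p 0 * p 1, -p 4 + p 0 * p 2, -p 5 + p 1 * p 2]

lemma mat_mul {R : Type*} [CommRing R] (p q : Fin 6 → R) : mat p * mat q = mat (op p q) := by
  ext i j
  fin_cases i <;> fin_cases j <;> simp [mat, op, Matrix.mul_apply, Fin.sum_univ_seven] <;> ring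

lemma mat_zero {R : Type*} [CommRing R] : mat (0 : Fin 6 → R) = 1 := by
  ext i j
  fin_cases i <;> fin_cases j <;> simp [mat]

lemma mat_map {R R' : Type*} [CommRing R] [CommRing R'] (f : R →+* R') (p : Fin 6 → R)
    (i j : Fin 7) : f (mat p i j) = mat (fun k => f (p k)) i j := by
  fin_cases i <;> fin_cases j <;> simp [mat]

lemma mat_col {R : Type*} [CommRing R] (p : Fin 6 → R) (k : Fin 6) : mat p k.succ 0 = p k := by
  fin_cases k <;> simp [mat]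

lemma op_iv {R : Type*} [CommRing R] (p : Fin 6 → R) : op p (iv p) = 0 := by
  ext k; fin_cases k <;> simp [op, iv]

lemma iv_op {R : Type*} [CommRing R] (p : Fin 6 → R) : op (iv p) p = 0 := by
  ext k; fin_cases k <;> simp [op, iv]

variable {K : Type u} [Field K]

def el (p : Fin 6 → K) : GL (Fin 7) K :=
  ⟨mat p, mat (iv p), by rw [mat_mul, op_iv, mat_zero], by rw [mat_mul, iv_op, mat_zero]⟩

lemma el_mul (p q : Fin 6 → K) : el p * el q = el (op p q) := Units.ext (mat_mul p q)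
lemma el_zero : el (0 : Fin 6 → K) = 1 := Units.ext mat_zero
lemma el_inv (p : Fin 6 → K) : (el p)⁻¹ = el (iv p) := by
  rw [inv_eq_iff_mul_eq_one, el_mul, op_iv, el_zero]
lemma el_inj {p q : Fin 6 → K} (h : el p = el q) : p = q := by
  ext k
  have := congrArg (fun g : GL (Fin 7) K => (g : Matrix (Fin 7) (Fin 7) K) k.succ 0) h
  simpa [el, mat_col] using this

def GG (K : Type u) [Field K] : Subgroup (GL (Fin 7) K) where
  carrier := Set.range el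
  mul_mem' := by rintro _ _ ⟨p, rfl⟩ ⟨q, rfl⟩; exact ⟨_, (el_mul p q).symm⟩
  one_mem' := ⟨0, el_zero⟩
  inv_mem' := by rintro _ ⟨p, rfl⟩; exact ⟨_, (el_inv p).symm⟩

def ge (p : Fin 6 → K) : GG K := ⟨el p, p, rfl⟩
lemma ge_surj (g : GG K) : ∃ p, g = ge p := by
  obtain ⟨_, p, rfl⟩ := g; exact ⟨p, rfl⟩
lemma ge_mul (p q : Fin 6 → K) : ge p * ge q = ge (op p q) := Subtype.ext (el_mul p q)
lemma ge_zero : ge (0 : Fin 6 → K) = 1 := Subtype.ext el_zero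
lemma ge_inv (p : Fin 6 → K) : (ge p)⁻¹ = ge (iv p) := Subtype.ext (el_inv p)
lemma ge_inj {p q : Fin 6 → K} (h : ge p = ge q) : p = q := el_inj (congrArg Subtype.val h)

def HH (K : Type u) [Field K] : Subgroup (GG K) where
  carrier := {g | ∃ p, p 1 = 0 ∧ p 2 = 0 ∧ g = ge p}
  mul_mem' := by
    rintro _ _ ⟨p, h1, h2, rfl⟩ ⟨q, h3, h4, rfl⟩
    exact ⟨op p q, by simp [op, h1, h3], by simp [op, h2, h4], ge_mul p q⟩
  one_mem' := ⟨0, rfl, rfl, ge_zero.symm⟩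
  inv_mem' := by
    rintro _ ⟨p, h1, h2, rfl⟩
    exact ⟨iv p, by simp [iv, h1], by simp [iv, h2], ge_inv p⟩

lemma G_alg : IsAlgebraicGroup (GG K) := by
  refine ⟨Set.range fun ij : Fin 7 × Fin 7 =>
    X ij - mat (fun k : Fin 6 => (X (k.succ, 0) : MvPolynomial (Fin 7 × Fin 7) K)) ij.1 ij.2, ?_⟩
  intro g
  constructor
  · rintro ⟨p, rfl⟩ _ ⟨ij, rfl⟩
    simp only [val, map_sub, mat_map, eval_X]
    simp [el, mat_col]
  · intro h
    refine ⟨fun k => (g : Matrix (Fin 7) (Fin 7) K) k.succ 0, Units.ext ?_⟩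
    ext i j
    have := h _ ⟨(i, j), rfl⟩
    simp only [val, map_sub, mat_map, eval_X] at this
    exact (sub_eq_zero.1 this).symm

def IsPoly (P : (Fin 6 → K) → K) : Prop := ∃ F : MvPolynomial (Fin 6) K, ∀ p, eval p F = P p

lemma val_poly (f : MvPolynomial (Fin 7 × Fin 7) K) : IsPoly fun p => val (ge p).1 f := by
  refine ⟨aeval (fun ij : Fin 7 × Fin 7 => mat (fun k => (X k : MvPolynomial (Fin 6) K)) ij.1 ij.2) f,
    fun p => ?_⟩
  change ((aeval p).comp (aeval _)) f = aeval (fun ij : Fin 7 × Fin 7 => mat p ij.1 ij.2) f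
  rw [comp_aeval]
  congr 2
  ext ij
  have := mat_map (aeval p : MvPolynomial (Fin 6) K →ₐ[K] K).toRingHom
    (fun k => (X k : MvPolynomial (Fin 6) K)) ij.1 ij.2
  simpa using this

lemma both [Infinite K] {P Q : (Fin 6 → K) → K} (hP : IsPoly P) (hQ : IsPoly Q) (p q : Fin 6 → K)
    (hp : P p ≠ 0) (hq : Q q ≠ 0) : ∃ r, P r ≠ 0 ∧ Q r ≠ 0 := by
  obtain ⟨F, hF⟩ := hP
  obtain ⟨G, hG⟩ := hQ
  by_contra hne
  push Not at hne
  have : F * G = 0 := MvPolynomial.funext fun r => by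
    rw [map_mul, hF, hG, map_zero]
    by_cases h : P r = 0
    · simp [h]
    · simp [hne r h]
  rcases mul_eq_zero.1 this with h | h
  · exact hp (by rw [← hF, h, map_zero])
  · exact hq (by rw [← hG, h, map_zero])

lemma G_irr [Infinite K] (U V : Set (GG K)) (hU : ZOpen _ U) (hV : ZOpen _ V)
    (h1 : U.Nonempty) (h2 : V.Nonempty) : (U ∩ V).Nonempty := by
  obtain ⟨S, hS⟩ := hU
  obtain ⟨T, hT⟩ := hV
  obtain ⟨a, ha⟩ := h1
  obtain ⟨b, hb⟩ := h2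
  obtain ⟨p, rfl⟩ := ge_surj a
  obtain ⟨q, rfl⟩ := ge_surj b
  obtain ⟨f, hf, hf'⟩ := (hS _).1 ha
  obtain ⟨g, hg, hg'⟩ := (hT _).1 hb
  obtain ⟨r, r1, r2⟩ := both (val_poly f) (val_poly g) p q hf' hg'
  exact ⟨ge r, (hS _).2 ⟨f, hf, r1⟩, (hT _).2 ⟨g, hg, r2⟩⟩

lemma H_unip (h : GG K) (hh : h ∈ HH K) :
    IsNilpotent (((h : GL (Fin 7) K) : Matrix (Fin 7) (Fin 7) K) - 1) := by
  obtain ⟨p, h1, h2, rfl⟩ := hh
  refine ⟨2, ?_⟩
  have e : (mat p - 1) ^ 2 = mat (op p p) - 2 • mat p + 1 := by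
    rw [← mat_mul]; noncomm_ring
  change (mat p - 1) ^ 2 = 0
  rw [e]
  ext i j
  fin_cases i <;> fin_cases j <;> simp [mat, op, h1, h2] <;> ring

lemma H_comm (a : GG K) (ha : a ∈ HH K) (b : GG K) (hb : b ∈ HH K) : a * b = b * a := by
  obtain ⟨p, h1, h2, rfl⟩ := ha
  obtain ⟨q, h3, h4, rfl⟩ := hb
  rw [ge_mul, ge_mul]; congr 1
  ext k; fin_cases k <;> simp [op, h1, h2, h3, h4] <;> ring

lemma H_max (H' : Subgroup (GG K)) (hc : ∀ a ∈ H', ∀ b ∈ H', a * b = b * a) (hle : HH K ≤ H') :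
    H' = HH K := by
  refine le_antisymm (fun g hg => ?_) hle
  obtain ⟨p, rfl⟩ := ge_surj g
  have := hc _ hg (ge ![1, 0, 0, 0, 0, 0]) (hle ⟨_, rfl, rfl, rfl⟩)
  rw [ge_mul, ge_mul] at this
  have e := ge_inj this
  have e3 := congrFun e 3
  have e4 := congrFun e 4
  simp [op] at e3 e4
  exact ⟨p, e3, e4, rfl⟩

lemma no_open [Infinite K] (X : Type v) [TopologicalSpace X] [IrreducibleSpace X]
    [MulAction (GG K) X] (hf : ∀ g : GG K, (∀ x : X, g • x = x) → g = 1)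
    (hc : ∀ g : GG K, IsClosed {x : X | g • x = x})
    (ho : ∀ (x : X) (U : Set X), IsOpen U → ZOpen (GG K) {g | g • x ∈ U}) (x : X) :
    ¬ IsOpen (MulAction.orbit (HH K) x) := by
  intro hO
  have free : ∀ h ∈ HH K, h • x = x → h = 1 := by
    intro h hh hx
    apply hf
    have hd : Dense (MulAction.orbit (HH K) x) := hO.dense ⟨x, MulAction.mem_orbit_self x⟩
    have hsub : MulAction.orbit (HH K) x ⊆ {y : X | h • y = y} := by
      rintro _ ⟨k, rfl⟩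
      change h • ((k : GG K) • x) = (k : GG K) • x
      rw [← mul_smul, H_comm h hh k k.2, mul_smul, hx]
    intro y
    exact (hc h).closure_subset_iff.2 hsub (hd y)
  obtain ⟨S, hS⟩ := ho x _ hO
  obtain ⟨f, hf1, hf2⟩ := (hS (ge 0)).1 (by
    change ge (0 : Fin 6 → K) • x ∈ MulAction.orbit (HH K) x
    rw [ge_zero, one_smul]; exact MulAction.mem_orbit_self x)
  have stab : ∀ p : Fin 6 → K, val (ge p).1 f ≠ 0 →
      ∃ s : Fin 6 → K, s 1 = p 1 ∧ s 2 = p 2 ∧ ge s • x = x := by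
    intro p hp
    obtain ⟨⟨_, q, h1, h2, rfl⟩, hk⟩ := (hS (ge p)).2 ⟨f, hf1, hp⟩
    refine ⟨op (iv q) p, by simp [op, iv, h1], by simp [op, iv, h2], ?_⟩
    rw [← ge_mul, ← ge_inv, mul_smul, ← hk]
    exact inv_smul_smul (ge q) x
  obtain ⟨p, p1, p2⟩ := both (val_poly f) (Q := fun p => p 1) ⟨MvPolynomial.X 1, by simp⟩ 0
    ![0, 1, 0, 0, 0, 0] hf2 (by simp)
  obtain ⟨q, q1, q2⟩ := both (val_poly f) (Q := fun q => p 1 * q 2 - p 2 * q 1)
    ⟨C (p 1) * MvPolynomial.X 2 - C (p 2) * MvPolynomial.X 1, by simp⟩ 0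
    ![0, 0, 1, 0, 0, 0] hf2 (by simpa using p2)
  obtain ⟨s, s1, s2, hs⟩ := stab p p1
  obtain ⟨t, t1, t2, ht⟩ := stab q q1
  have hx : (ge s * ge t * (ge s)⁻¹ * (ge t)⁻¹) • x = x := by
    rw [mul_smul, mul_smul, mul_smul, inv_smul_eq_iff.2 ht.symm, inv_smul_eq_iff.2 hs.symm, ht, hs]
  rw [ge_inv, ge_inv, ge_mul, ge_mul, ge_mul] at hx
  have := free _ ⟨_, by simp [op, iv], by simp [op, iv], rfl⟩ hx
  rw [← ge_zero] at this
  have e := congrFun (ge_inj this) 5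
  simp [op, iv] at e
  apply q2
  rw [← s1, ← s2, ← t1, ← t2]
  linear_combination e

end Pool.Agent.Lead.Orb
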