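import Mathlib

/-! Square-of-a-letter-free words over three letters cannot be tracked by an ordered automaton. -/
namespace Pool.Agent.Lead.OrdA
open Classical Finset

theorem core {Z : Type} [LinearOrder Z] [Fintype Z] (f : Fin 3 → Z → Z)
    (hf : ∀ a, Monotone (f a)) (D : Z → Prop) (hD : ∀ a z, D z → D (f a z))
    (X : Fin 3 → Z → Prop) (h1 : ∀ a x, X a x → ¬ D x)
    (h2 : ∀ a b x, X a x → a ≠ b → X b (f b x)) (h3 : ∀ a x, X a x → D (f a x))
    (x0 : Z) (h0 : X 0 x0) : False := by
  let blk : Z → ℕ := fun z => (univ.filter fun d => D d ∧ d < z).card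
  have lt_blk : ∀ x y d, ¬ D y → D d → x ≤ d → d ≤ y → blk x < blk y := by
    intro x y d hy hd hx hy'
    refine card_lt_card ⟨fun e he => ?_, fun h => ?_⟩
    · simp only [mem_filter, mem_univ, true_and] at he ⊢
      exact ⟨he.1, he.2.trans_le (hx.trans hy')⟩
    · have := @h d (by simpa using ⟨hd, lt_of_le_of_ne hy' fun e => hy (e ▸ hd)⟩)
      simp only [mem_filter, mem_univ, true_and] at this
      exact absurd this.2 (not_lt.2 hx)
  have sep1 : ∀ c x y, ¬ D (f c y) → blk x < blk y → blk (f c x) < blk (f c y) := by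
    intro c x y hy h
    by_contra hc
    refine absurd (card_le_card fun e he => ?_) (not_le.2 h)
    simp only [mem_filter, mem_univ, true_and] at he ⊢
    refine ⟨he.1, lt_of_not_ge fun hx => hc ?_⟩
    exact lt_blk _ _ _ hy (hD c e he.1) (hf c hx) (hf c he.2.le)
  have sep : ∀ c x y, (∃ a, a ≠ c ∧ X a x) → (∃ a, a ≠ c ∧ X a y) →
      blk (f c x) = blk (f c y) → blk x = blk y := by
    rintro c x y ⟨a, ha, hx⟩ ⟨b, hb, hy⟩ h
    rcases lt_trichotomy (blk x) (blk y) with h' | h' | h'
    · exact absurd h (sep1 c x y (h1 _ _ (h2 _ _ _ hy hb)) h').ne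
    · exact h'
    · exact absurd h (sep1 c y x (h1 _ _ (h2 _ _ _ hx ha)) h').ne'
  let B : Fin 3 → Finset ℕ := fun a => (univ.filter (X a)).image blk
  have key : ∀ c (Y : Finset Z), (∀ y ∈ Y, ∃ a, a ≠ c ∧ X a y) →
      Set.InjOn (fun y => blk (f c y)) Y → Y.card ≤ (B c).card := by
    intro c Y hY hi
    refine card_le_card_of_injOn _ (fun y hy => ?_) hi
    obtain ⟨a, ha, hx⟩ := hY y hy
    exact mem_coe.2 (mem_image_of_mem _ (by simpa using h2 _ _ _ hx ha))
  let W : Fin 3 → Finset Z := fun c => univ.filter fun y => ∃ a, a ≠ c ∧ X a y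
  have rep : ∀ c, ∃ Y ⊆ W c, Set.InjOn blk Y ∧ Y.image blk = (W c).image blk := fun c =>
    exists_subset_injOn_image_eq_of_surjOn (f := blk) ((W c : Finset Z) : Set Z) _
      (by simp [Set.SurjOn])
  have hW : ∀ c, ((W c).image blk).card ≤ (B c).card := by
    intro c
    obtain ⟨Y, hY, hi, e⟩ := rep c
    have hY' : ∀ y ∈ Y, ∃ a, a ≠ c ∧ X a y := fun y hy => by simpa [W] using hY hy
    rw [← e, card_image_of_injOn hi]
    exact key c Y hY' fun x hx y hy h => hi hx hy (sep c x y (hY' x hx) (hY' y hy) h)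
  have hBW : ∀ a c, a ≠ c → B a ⊆ (W c).image blk := fun a c h =>
    image_subset_image fun y hy => by simpa [W] using ⟨a, h, by simpa using hy⟩
  have hE : ∀ a c, a ≠ c → B a = (W c).image blk := fun a c h =>
    eq_of_subset_of_card_le (hBW a c h)
      ((hW c).trans ((card_le_card (hBW c a h.symm)).trans (hW a)))
  have hB : ∀ a, blk x0 ∈ B a := by
    have b0 : blk x0 ∈ B 0 := mem_image_of_mem _ (by simpa using h0)
    intro a
    fin_cases a
    · exact b0
    · exact (hE 1 2 (by decide)).symm ▸ hE 0 2 (by decide) ▸ b0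
    · exact (hE 2 1 (by decide)).symm ▸ hE 0 1 (by decide) ▸ b0
  have hx : ∀ a, ∃ x, X a x ∧ blk x = blk x0 := fun a => by simpa [B] using hB a
  choose x hx hx' using hx
  have fin : ∀ a b c, a ≠ c → b ≠ c → x a ≤ x c → x c ≤ x b → False := by
    intro a b c ha hb l1 l2
    have lt := lt_blk _ _ _ (h1 _ _ (h2 _ _ _ (hx b) hb)) (h3 _ _ (hx c)) (hf c l1) (hf c l2)
    obtain ⟨Y, hY, hi, e⟩ := rep c
    have hY' : ∀ y ∈ Y, ∃ a, a ≠ c ∧ X a y := fun y hy => by simpa [W] using hY hy
    let Y1 := Y.filter fun y => blk y ≠ blk x0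
    have c1 : (B a).card ≤ Y1.card + 1 := by
      rw [hE a c ha, ← e]
      calc (Y.image blk).card ≤ (insert (blk x0) (Y1.image blk)).card :=
            card_le_card fun t ht => by
              obtain ⟨y, hy, rfl⟩ := mem_image.1 ht
              by_cases h : blk y = blk x0
              · simp [h]
              · exact mem_insert_of_mem (mem_image_of_mem _ (mem_filter.2 ⟨hy, h⟩))
        _ ≤ Y1.card + 1 := (card_insert_le _ _).trans (Nat.succ_le_succ card_image_le)
    have hab : x a ≠ x b := fun h => by rw [h] at lt; exact lt_irrefl _ lt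
    have na : ∀ t, x t ∉ Y1 := fun t h => (mem_filter.1 h).2 (hx' t)
    have m1 : ∀ y ∈ Y1, ∃ a, a ≠ c ∧ X a y := fun y hy => hY' y (mem_filter.1 hy).1
    have c2 := key c (insert (x a) (insert (x b) Y1)) (by
      intro y hy
      simp only [mem_insert] at hy
      rcases hy with rfl | rfl | hy
      exacts [⟨a, ha, hx a⟩, ⟨b, hb, hx b⟩, m1 y hy]) (by
      have n1 : ∀ t, t ≠ c → ∀ y ∈ Y1, blk (f c (x t)) ≠ blk (f c y) := fun t ht y hy h =>
        (mem_filter.1 hy).2 ((sep c _ _ ⟨t, ht, hx t⟩ (m1 y hy) h).symm.trans (hx' t))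
      intro u hu v hv h
      simp only [coe_insert, Set.mem_insert_iff, mem_coe] at hu hv
      rcases hu with rfl | rfl | hu <;> rcases hv with rfl | rfl | hv
      · rfl
      · exact absurd h lt.ne
      · exact absurd h (n1 a ha v hv)
      · exact absurd h lt.ne'
      · rfl
      · exact absurd h (n1 b hb v hv)
      · exact absurd h.symm (n1 a ha u hu)
      · exact absurd h.symm (n1 b hb u hu)
      · exact hi (mem_filter.1 hu).1 (mem_filter.1 hv).1 (sep c u v (m1 u hu) (m1 v hv) h))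
    rw [card_insert_of_notMem (by simp [hab, na a]), card_insert_of_notMem (na b)] at c2
    have c3 := (card_le_card (hBW c a ha.symm)).trans (hW a)
    omega
  rcases le_total (x 0) (x 1) with a | a <;> rcases le_total (x 1) (x 2) with b | b <;>
    rcases le_total (x 0) (x 2) with c | c
  · exact fin 0 2 1 (by decide) (by decide) a b
  · exact fin 0 2 1 (by decide) (by decide) a b
  · exact fin 0 1 2 (by decide) (by decide) c b
  · exact fin 2 1 0 (by decide) (by decide) c a
  · exact fin 1 2 0 (by decide) (by decide) a c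
  · exact fin 1 0 2 (by decide) (by decide) b c
  · exact fin 2 0 1 (by decide) (by decide) b a
  · exact fin 2 0 1 (by decide) (by decide) b a

/-- words over `0,1,2` with no two equal adjacent letters -/
def OK (w : List ℕ) : Prop := (∀ a ∈ w, a < 3) ∧ w.IsChain (· ≠ ·)

lemma OK.pre {u v} (h : OK (u ++ v)) : OK u :=
  ⟨fun a ha => h.1 a (by simp [ha]), h.2.left_of_append⟩

lemma OK.snoc {u : List ℕ} {a b} (h : OK (u ++ [a])) (hb : b < 3) (hab : a ≠ b) :
    OK (u ++ [a] ++ [b]) := by
  refine ⟨fun c hc => ?_, ?_⟩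
  · rcases List.mem_append.1 hc with hc | hc
    exacts [h.1 c hc, by simp_all]
  · exact List.isChain_append.2 ⟨h.2, by simp, by simpa using hab⟩

lemma OK.ext1 {u : List ℕ} (h : OK u) (b : ℕ) (hb : b < 3) : ∃ r, OK (u ++ r ++ [b]) := by
  rcases List.eq_nil_or_concat u with rfl | ⟨u, a, rfl⟩
  · exact ⟨[], by simpa [OK] using hb⟩
  · rw [List.concat_eq_append] at h ⊢
    by_cases hab : a = b
    · subst hab
      refine ⟨[(a + 1) % 3], (h.snoc (Nat.mod_lt _ (by omega)) (by omega)).snoc hb (by omega)⟩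
    · exact ⟨[], by simpa using h.snoc hb hab⟩

lemma OK.ext {u : List ℕ} (h : OK u) (n : ℕ) : ∃ r, n ≤ r.length ∧ OK (u ++ r) := by
  induction n with
  | zero => exact ⟨[], by simpa using h⟩
  | succ n ih =>
    obtain ⟨r, h1, h2⟩ := ih
    obtain ⟨s, hs⟩ := h2.ext1 0 (by omega)
    exact ⟨r ++ s ++ [0], by simp; omega, by simpa using hs⟩

lemma baire {ι : Type} (T : ι → List ℕ → Prop) (l : List ι) : ∀ p, OK p →
    (∀ w, OK (p ++ w) → ∃ i ∈ l, T i (p ++ w)) →
    ∃ i ∈ l, ∃ q, OK q ∧ ∀ w, OK (q ++ w) → ∃ w', T i (q ++ w ++ w') := by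
  induction l with
  | nil => intro p hp h; simpa using h [] (by simpa using hp)
  | cons i l ih =>
    intro p hp h
    by_cases hc : ∀ w, OK (p ++ w) → ∃ w', T i (p ++ w ++ w')
    · exact ⟨i, by simp, p, hp, hc⟩
    · push Not at hc
      obtain ⟨w, hw, hc⟩ := hc
      obtain ⟨j, hj, r⟩ := ih (p ++ w) hw fun v hv => by
        obtain ⟨j, hj, ht⟩ := h (w ++ v) (by simpa using hv)
        rcases List.mem_cons.1 hj with rfl | hj
        · exact absurd (by simpa using ht) (hc v)
        · exact ⟨j, hj, by simpa using ht⟩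
      exact ⟨j, by simp [hj], r⟩

end Pool.Agent.Lead.OrdA
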