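import Pool.Agent.Lead.POGDefs

open MvPolynomial

namespace Pool.Agent.Lead.POG

variable {K : Type} [Field K]

lemma mem_hyp {l : ℕ} (a v : Fin l → K) : v ∈ hyp a ↔ ∑ i, a i * v i = 0 := by
  simp [hyp, Fintype.linearCombination_apply, mul_comm]

lemma mem_hyp3 (a v : Fin 3 → K) : v ∈ hyp a ↔ a 0 * v 0 + a 1 * v 1 + a 2 * v 2 = 0 := by
  rw [mem_hyp, Fin.sum_univ_three]

lemma lin3 (a : Fin 3 → K) : lin a = C (a 0) * X 0 + C (a 1) * X 1 + C (a 2) * X 2 := by
  rw [lin, Fin.sum_univ_three]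

lemma prop_of_hyp_le {l : ℕ} (a b : Fin l → K) (hb : b ≠ 0) (h : hyp b ≤ hyp a) :
    ∃ c : K, a = c • b := by
  classical
  obtain ⟨i, hi⟩ : ∃ i, b i ≠ 0 := by
    by_contra hh
    push Not at hh
    exact hb (funext hh)
  refine ⟨a i / b i, funext fun j => ?_⟩
  have hv : (Pi.single j (b i) - Pi.single i (b j) : Fin l → K) ∈ hyp b := by
    rw [mem_hyp]
    simp [mul_sub, Finset.sum_sub_distrib, Pi.single_apply, mul_comm]
  have := h hv
  rw [mem_hyp] at this
  simp [mul_sub, Finset.sum_sub_distrib, Pi.single_apply] at this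
  simp only [Pi.smul_apply, smul_eq_mul]
  field_simp
  linear_combination this

/-- the value of the derivation on a linear form -/
noncomputable def app {l : ℕ} (a : Fin l → K) (θ : Fin l → MvPolynomial (Fin l) K) :
    MvPolynomial (Fin l) K := ∑ i, C (a i) * θ i

lemma app3 (a : Fin 3 → K) (θ : Fin 3 → MvPolynomial (Fin 3) K) :
    app a θ = C (a 0) * θ 0 + C (a 1) * θ 1 + C (a 2) * θ 2 := by
  rw [app, Fin.sum_univ_three]

lemma mem_logDer_range {l : ℕ} {ι : Type} (b : ι → Fin l → K) (hb : ∀ i, b i ≠ 0)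
    (θ : Fin l → MvPolynomial (Fin l) K) :
    θ ∈ logDer (Set.range fun i => hyp (b i)) ↔ ∀ i, lin (b i) ∣ app (b i) θ := by
  constructor
  · intro h i
    exact h (b i) (hb i) ⟨i, rfl⟩
  · rintro h a ha ⟨i, hi⟩
    obtain ⟨c, rfl⟩ := prop_of_hyp_le a (b i) (hb i) (le_of_eq hi)
    have e1 : lin (c • b i) = C c * lin (b i) := by
      simp [lin, Finset.mul_sum, mul_assoc]
    have e2 : ∑ j, C ((c • b i) j) * θ j = C c * app (b i) θ := by
      simp [app, Finset.mul_sum, mul_assoc]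
    rw [e1, e2]
    exact mul_dvd_mul_left _ (h i)

lemma lin_ne_zero {l : ℕ} (a : Fin l → K) (ha : a ≠ 0) : lin a ≠ 0 := by
  classical
  intro h
  apply ha
  funext i
  have := congrArg (eval (Pi.single i (1 : K))) h
  simpa [lin, Pi.single_apply] using this

lemma lin_prime {l : ℕ} (a : Fin l → K) (ha : a ≠ 0) : Prime (lin a) := by
  classical
  obtain ⟨i, hi⟩ : ∃ i, a i ≠ 0 := by
    by_contra hh
    push Not at hh
    exact ha (funext hh)
  let σ : MvPolynomial (Fin l) K →ₐ[K] MvPolynomial (Fin l) K :=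
    aeval fun j => X j - (if j = i then C (a i)⁻¹ * lin a else 0)
  have hσ : σ (lin a) = 0 := by
    have : σ (lin a) = ∑ j, C (a j) * (X j - (if j = i then C (a i)⁻¹ * lin a else 0)) := by
      conv_lhs => rw [lin]
      simp [σ]
    rw [this]
    simp only [mul_sub, Finset.sum_sub_distrib, mul_ite, mul_zero, Finset.sum_ite_eq',
      Finset.mem_univ, if_true]
    rw [← mul_assoc, ← map_mul, mul_inv_cancel₀ hi, map_one, one_mul, lin, sub_self]
  have hd : ∀ p, lin a ∣ p - σ p := by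
    intro p
    induction p using MvPolynomial.induction_on with
    | C r => simp [σ]
    | add p q hp hq =>
      have : p + q - σ (p + q) = (p - σ p) + (q - σ q) := by rw [map_add]; ring
      rw [this]; exact dvd_add hp hq
    | mul_X p j hp =>
      have : p * X j - σ (p * X j) =
          (p - σ p) * X j + σ p * (if j = i then C (a i)⁻¹ * lin a else 0) := by
        rw [map_mul]; simp only [σ, aeval_X]; ring
      rw [this]
      refine dvd_add (Dvd.dvd.mul_right hp _) (Dvd.dvd.mul_left ?_ _)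
      split_ifs
      · exact dvd_mul_left _ _
      · exact dvd_zero _
  have key : ∀ p, lin a ∣ p ↔ σ p = 0 := by
    intro p
    constructor
    · rintro ⟨q, rfl⟩
      rw [map_mul, hσ, zero_mul]
    · intro h
      have := hd p
      rwa [h, sub_zero] at this
  refine ⟨lin_ne_zero a ha, ?_, ?_⟩
  · intro hu
    have := (key 1).1 hu.dvd
    simp at this
  · intro p q h
    rw [key, map_mul, mul_eq_zero] at h
    rcases h with h | h
    · exact Or.inl ((key p).2 h)
    · exact Or.inr ((key q).2 h)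

lemma hyp_le_of_dvd {l : ℕ} (a b : Fin l → K) (h : lin a ∣ lin b) : hyp a ≤ hyp b := by
  intro v hv
  rw [mem_hyp] at hv ⊢
  obtain ⟨q, hq⟩ := h
  have := congrArg (eval v) hq
  simp only [lin, map_sum, map_mul, eval_C, eval_X] at this
  rw [this, hv, zero_mul]

lemma isHomogeneous_lin {l : ℕ} (a : Fin l → K) : (lin a).IsHomogeneous 1 :=
  IsHomogeneous.sum _ _ _ fun _ _ => isHomogeneous_C_mul_X _ _

/-- determinant of three column vectors -/
def det3 {R : Type} [CommRing R] (p q r : Fin 3 → R) : R :=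
  p 0 * (q 1 * r 2 - q 2 * r 1) - p 1 * (q 0 * r 2 - q 2 * r 0) + p 2 * (q 0 * r 1 - q 1 * r 0)

lemma dvd_det3 (a : Fin 3 → K) (ha : a ≠ 0) (p q r : Fin 3 → MvPolynomial (Fin 3) K)
    (hp : lin a ∣ app a p) (hq : lin a ∣ app a q) (hr : lin a ∣ app a r) :
    lin a ∣ det3 p q r := by
  obtain ⟨i, hi⟩ : ∃ i, a i ≠ 0 := by
    by_contra hh
    push Not at hh
    exact ha (funext hh)
  have hu : IsUnit (C (a i) : MvPolynomial (Fin 3) K) := (IsUnit.mk0 _ hi).map C
  rw [← hu.dvd_mul_left]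
  rw [app3] at hp hq hr
  obtain ⟨p', hp⟩ := hp
  obtain ⟨q', hq⟩ := hq
  obtain ⟨r', hr⟩ := hr
  fin_cases i
  · refine ⟨p' * (q 1 * r 2 - q 2 * r 1) - q' * (p 1 * r 2 - p 2 * r 1)
      + r' * (p 1 * q 2 - p 2 * q 1), ?_⟩
    simp only [det3, Fin.zero_eta]
    linear_combination (q 1 * r 2 - q 2 * r 1) * hp - (p 1 * r 2 - p 2 * r 1) * hq
      + (p 1 * q 2 - p 2 * q 1) * hr
  · refine ⟨-p' * (q 0 * r 2 - q 2 * r 0) + q' * (p 0 * r 2 - p 2 * r 0)
      - r' * (p 0 * q 2 - p 2 * q 0), ?_⟩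
    simp only [det3, Fin.mk_one]
    linear_combination -(q 0 * r 2 - q 2 * r 0) * hp + (p 0 * r 2 - p 2 * r 0) * hq
      - (p 0 * q 2 - p 2 * q 0) * hr
  · refine ⟨p' * (q 0 * r 1 - q 1 * r 0) - q' * (p 0 * r 1 - p 1 * r 0)
      + r' * (p 0 * q 1 - p 1 * q 0), ?_⟩
    simp only [det3, Fin.reduceFinMk]
    linear_combination (q 0 * r 1 - q 1 * r 0) * hp - (p 0 * r 1 - p 1 * r 0) * hq
      + (p 0 * q 1 - p 1 * q 0) * hr

lemma prod_lin_dvd {l : ℕ} {ι : Type} [DecidableEq ι] (b : ι → Fin l → K) (hb : ∀ i, b i ≠ 0)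
    (hne : ∀ i j, hyp (b i) ≤ hyp (b j) → i = j) (s : Finset ι) (p : MvPolynomial (Fin l) K)
    (h : ∀ i ∈ s, lin (b i) ∣ p) : ∏ i ∈ s, lin (b i) ∣ p := by
  induction s using Finset.induction_on with
  | empty => simp
  | insert i s hi ih =>
    rw [Finset.prod_insert hi]
    obtain ⟨q, rfl⟩ := ih fun j hj => h j (Finset.mem_insert_of_mem hj)
    have h1 := h i (Finset.mem_insert_self _ _)
    rcases (lin_prime (b i) (hb i)).dvd_or_dvd h1 with h2 | h2
    · obtain ⟨j, hj, h3⟩ := ((lin_prime (b i) (hb i)).dvd_finsetProd_iff _).1 h2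
      have := hne i j (hyp_le_of_dvd _ _ h3)
      exact absurd (this ▸ hj) hi
    · rw [mul_comm]
      exact mul_dvd_mul_left _ h2

lemma hc_mul (a b : MvPolynomial (Fin 3) K) (m n : ℕ) (ha : a.IsHomogeneous m) :
    homogeneousComponent (m + n) (a * b) = a * homogeneousComponent n b := by
  classical
  letI := MvPolynomial.gradedAlgebra (σ := Fin 3) (R := K)
  have := DirectSum.coe_decompose_mul_add_of_left_mem (homogeneousSubmodule (Fin 3) K)
    (b := b) (j := n) ((mem_homogeneousSubmodule m a).2 ha)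
  rw [← decomposition.decompose'_apply, ← decomposition.decompose'_apply]
  exact this

lemma exists_hom_quot (a w : MvPolynomial (Fin 3) K) (m n : ℕ) (ha : a.IsHomogeneous m)
    (hw : w.IsHomogeneous (m + n)) (h : a ∣ w) :
    ∃ q : MvPolynomial (Fin 3) K, q.IsHomogeneous n ∧ w = a * q := by
  obtain ⟨q, hq⟩ := h
  refine ⟨homogeneousComponent n q, homogeneousComponent_isHomogeneous _ _, ?_⟩
  rw [← hc_mul a q m n ha, ← hq, homogeneousComponent_eq_self hw]

lemma hom_expand (n : ℕ) (p : MvPolynomial (Fin 3) K) (hp : p.IsHomogeneous n) :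
    ∃ c : ℕ → ℕ → K, p = ∑ i ∈ Finset.range (n + 1), ∑ j ∈ Finset.range (n + 1 - i),
      C (c i j) * X 0 ^ i * X 1 ^ j * X 2 ^ (n - i - j) := by
  classical
  rw [p.as_sum]
  refine Finset.sum_induction _ (fun q : MvPolynomial (Fin 3) K => ∃ c : ℕ → ℕ → K,
    q = ∑ i ∈ Finset.range (n + 1), ∑ j ∈ Finset.range (n + 1 - i),
      C (c i j) * X 0 ^ i * X 1 ^ j * X 2 ^ (n - i - j)) ?_ ?_ ?_
  · rintro a b ⟨c1, rfl⟩ ⟨c2, rfl⟩
    refine ⟨c1 + c2, ?_⟩
    simp only [Pi.add_apply, map_add, add_mul, Finset.sum_add_distrib]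
  · exact ⟨0, by simp⟩
  · intro m hm
    have hd : m 0 + m 1 + m 2 = n := by
      have h1 : m.degree = n := by
        by_contra h
        exact (mem_support_iff.1 hm) (hp.coeff_eq_zero h)
      rw [← h1, Finsupp.degree_eq_sum, Fin.sum_univ_three]
    refine ⟨fun i j => if i = m 0 ∧ j = m 1 then coeff m p else 0, ?_⟩
    rw [Finset.sum_eq_single (m 0), Finset.sum_eq_single (m 1)]
    · simp only [and_self, if_true]
      rw [monomial_eq, Finsupp.prod_fintype _ _ (by simp), Fin.prod_univ_three]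
      have : n - m 0 - m 1 = m 2 := by omega
      rw [this]; ring
    · intro j _ hj; simp [hj]
    · intro h; exfalso; apply h; simp; omega
    · intro i _ hi; simp [hi]
    · intro h; exfalso; apply h; simp; omega

end Pool.Agent.Lead.POG
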