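import Pool.Agent.Lead.POG2

open MvPolynomial

namespace Pool.Agent.Lead.POG

variable {K : Type} [Field K]

/-- polynomial from a list of terms -/
noncomputable def ev (K : Type) [Field K] : List (ℤ × ℕ × ℕ × ℕ) → MvPolynomial (Fin 3) K
  | [] => 0
  | t :: L => (t.1 : MvPolynomial (Fin 3) K) * X 0 ^ t.2.1 * X 1 ^ t.2.2.1 * X 2 ^ t.2.2.2 + ev K L

lemma ev_hom (n : ℕ) (L : List (ℤ × ℕ × ℕ × ℕ)) (h : ∀ t ∈ L, t.2.1 + t.2.2.1 + t.2.2.2 = n) :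
    (ev K L).IsHomogeneous n := by
  induction L with
  | nil => exact isHomogeneous_zero _ _ _
  | cons t L ih =>
    refine IsHomogeneous.add ?_ (ih fun s hs => h s (List.mem_cons_of_mem _ hs))
    rw [← h t List.mem_cons_self]
    have h0 : ((t.1 : MvPolynomial (Fin 3) K)).IsHomogeneous 0 := by
      rw [← map_intCast (C : K →+* MvPolynomial (Fin 3) K)]
      exact isHomogeneous_C _ _
    have := ((h0.mul (isHomogeneous_X_pow 0 t.2.1)).mul (isHomogeneous_X_pow 1 t.2.2.1)).mul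
      (isHomogeneous_X_pow 2 t.2.2.2)
    rwa [zero_add] at this

/-- Euler derivation -/
noncomputable def eu (K : Type) [Field K] : Fin 3 → MvPolynomial (Fin 3) K := fun i => X i

/-- first quintic derivation -/
noncomputable def t2 (K : Type) [Field K] : Fin 3 → MvPolynomial (Fin 3) K :=
  ![ev K [(-1,4,1,0), (1,4,0,1), (4,3,2,0), (-2,3,1,1), (-2,3,0,2), (1,2,1,2), (-1,2,0,3),
      (-4,1,2,2), (2,1,1,3), (2,1,0,4)],
    ev K [(6,2,3,0), (-6,2,1,2), (-4,1,4,0), (-2,1,3,1), (4,1,2,2), (2,1,1,3), (1,0,5,0),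
      (1,0,4,1), (-3,0,3,2), (-1,0,2,3), (2,0,1,4)],
    ev K []]

/-- second quintic derivation -/
noncomputable def t3 (K : Type) [Field K] : Fin 3 → MvPolynomial (Fin 3) K :=
  ![ev K [(-1,5,0,0), (4,4,1,0), (1,4,0,1), (-6,3,2,0), (-2,3,1,1), (3,3,0,2), (-4,2,1,2),
      (-1,2,0,3), (6,1,2,2), (2,1,1,3), (-2,1,0,4)],
    ev K [(-4,2,3,0), (4,2,1,2), (1,1,4,0), (-2,1,3,1), (-1,1,2,2), (2,1,1,3), (1,0,4,1),
      (2,0,3,2), (-1,0,2,3), (-2,0,1,4)],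
    ev K []]

/-- the generator of degree seven -/
noncomputable def ph (K : Type) [Field K] : Fin 3 → MvPolynomial (Fin 3) K :=
  ![ev K [(1,7,0,0), (-6,6,1,0), (-2,6,0,1), (4,5,2,0), (4,5,1,1), (-1,5,0,2), (9,4,3,0),
      (-10,4,2,1), (6,4,1,2), (2,4,0,3), (-2,3,4,0), (20,3,3,1), (-4,3,2,2), (-4,3,1,3),
      (-18,2,4,1), (-9,2,3,2), (4,2,2,3), (6,1,5,1), (2,1,4,2), (-2,1,3,3)],
    ev K [(-6,5,1,1), (-2,4,3,0), (18,4,2,1), (2,4,1,2), (9,3,4,0), (-20,3,3,1), (-9,3,2,2),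
      (2,3,1,3), (4,2,5,0), (10,2,4,1), (-4,2,3,2), (-4,2,2,3), (-6,1,6,0), (-4,1,5,1),
      (6,1,4,2), (4,1,3,3), (1,0,7,0), (2,0,6,1), (-1,0,5,2), (-2,0,4,3)],
    ev K [(-6,5,2,0), (18,4,3,0), (-18,3,4,0), (6,2,5,0)]]

/-- coefficients of the relation -/
noncomputable def ff (K : Type) [Field K] : Fin 3 → MvPolynomial (Fin 3) K :=
  ![ev K [(6,5,2,0), (-18,4,3,0), (18,3,4,0), (-6,2,5,0)],
    ev K [(-1,3,0,0), (3,2,1,0), (1,1,2,0)],
    ev K [(1,2,1,0), (3,1,2,0), (-1,0,3,0)]]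

/-- the three generators -/
noncomputable def th (K : Type) [Field K] : Fin 3 → Fin 3 → MvPolynomial (Fin 3) K :=
  ![eu K, t2 K, t3 K]

lemma t2_0 : t2 K 0 = X 0 * (X 0 ^ 2 - X 2 ^ 2) *
    (-X 0 * X 1 + X 0 * X 2 + 4 * X 1 ^ 2 - 2 * X 1 * X 2 - 2 * X 2 ^ 2) := by
  simp [t2, ev]; ring
lemma t2_1 : t2 K 1 = X 1 * (X 1 ^ 2 - X 2 ^ 2) *
    (6 * X 0 ^ 2 - 4 * X 0 * X 1 - 2 * X 0 * X 2 + X 1 ^ 2 + X 1 * X 2 - 2 * X 2 ^ 2) := by
  simp [t2, ev]; ring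
lemma t2_2 : t2 K 2 = 0 := by simp [t2, ev]
lemma t3_0 : t3 K 0 = X 0 * (X 0 ^ 2 - X 2 ^ 2) *
    (-X 0 ^ 2 + 4 * X 0 * X 1 + X 0 * X 2 - 6 * X 1 ^ 2 - 2 * X 1 * X 2 + 2 * X 2 ^ 2) := by
  simp [t3, ev]; ring
lemma t3_1 : t3 K 1 = X 1 * (X 1 ^ 2 - X 2 ^ 2) *
    (-4 * X 0 ^ 2 + X 0 * X 1 - 2 * X 0 * X 2 + X 1 * X 2 + 2 * X 2 ^ 2) := by
  simp [t3, ev]; ring
lemma t3_2 : t3 K 2 = 0 := by simp [t3, ev]
lemma ff_0 : ff K 0 = 6 * X 0 ^ 2 * X 1 ^ 2 * (X 0 - X 1) ^ 3 := by simp [ff, ev]; ring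
lemma ff_1 : ff K 1 = -X 0 ^ 3 + 3 * X 0 ^ 2 * X 1 + X 0 * X 1 ^ 2 := by simp [ff, ev]; ring
lemma ff_2 : ff K 2 = X 0 ^ 2 * X 1 + 3 * X 0 * X 1 ^ 2 - X 1 ^ 3 := by simp [ff, ev]; ring

lemma rel (j : Fin 3) :
    X 2 * ph K j + (ff K 0 * X j + ff K 1 * t2 K j + ff K 2 * t3 K j) = 0 := by
  fin_cases j
  · simp only [Fin.zero_eta, ff_0, ff_1, ff_2, t2_0, t3_0]; simp [ph, ev]; ring
  · simp only [Fin.mk_one, ff_0, ff_1, ff_2, t2_1, t3_1]; simp [ph, ev]; ring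
  · simp only [Fin.reduceFinMk, ff_0, ff_1, ff_2, t2_2, t3_2]; simp [ph, ev]; ring

lemma lin_cst (v : Fin 3 → ℤ) : lin (cst K v) =
    (v 0 : MvPolynomial (Fin 3) K) * X 0 + (v 1 : MvPolynomial (Fin 3) K) * X 1
      + (v 2 : MvPolynomial (Fin 3) K) * X 2 := by
  simp [lin3, cst]

lemma app_cst (v : Fin 3 → ℤ) (θ : Fin 3 → MvPolynomial (Fin 3) K) : app (cst K v) θ =
    (v 0 : MvPolynomial (Fin 3) K) * θ 0 + (v 1 : MvPolynomial (Fin 3) K) * θ 1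
      + (v 2 : MvPolynomial (Fin 3) K) * θ 2 := by
  simp [app3, cst]

lemma app_eu (a : Fin 3 → K) : app a (eu K) = lin a := rfl

lemma quartic2 : t2 K 1 - t2 K 0 = (X 1 - X 0 + 2 * X 2) * (X 1 - X 0 + X 2) * (X 1 - X 0) *
    (X 1 - X 0 - X 2) * (X 1 - X 2) := by
  rw [t2_0, t2_1]; ring

lemma quartic3 : t3 K 1 - t3 K 0 = (X 1 - X 0 + 2 * X 2) * (X 1 - X 0 + X 2) * (X 1 - X 0) *
    (X 1 - X 0 - X 2) * (X 0 + X 2) := by
  rw [t3_0, t3_1]; ring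

lemma dvd_of_shape (θ : Fin 3 → MvPolynomial (Fin 3) K) (p q r : MvPolynomial (Fin 3) K)
    (h0 : θ 0 = X 0 * (X 0 ^ 2 - X 2 ^ 2) * p) (h1 : θ 1 = X 1 * (X 1 ^ 2 - X 2 ^ 2) * q)
    (h2 : θ 2 = 0) (h3 : θ 1 - θ 0 = (X 1 - X 0 + 2 * X 2) * (X 1 - X 0 + X 2) * (X 1 - X 0) *
      (X 1 - X 0 - X 2) * r) (i : Fin 10) : lin (cst K (vA i)) ∣ app (cst K (vA i)) θ := by
  rw [lin_cst, app_cst]
  fin_cases i <;> simp [vA, h2]
  · exact ⟨X 0 * (X 0 - X 2) * p, by rw [h0]; ring⟩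
  · exact ⟨(X 0 ^ 2 - X 2 ^ 2) * p, by rw [h0]; ring⟩
  · exact ⟨X 0 * (X 0 + X 2) * p, by rw [h0]; ring⟩
  · exact ⟨X 1 * (X 1 - X 2) * q, by rw [h1]; ring⟩
  · exact ⟨(X 1 ^ 2 - X 2 ^ 2) * q, by rw [h1]; ring⟩
  · exact ⟨X 1 * (X 1 + X 2) * q, by rw [h1]; ring⟩
  · exact ⟨(X 1 - X 0 + X 2) * (X 1 - X 0) * (X 1 - X 0 - X 2) * r, by linear_combination h3⟩
  · exact ⟨(X 1 - X 0 + 2 * X 2) * (X 1 - X 0) * (X 1 - X 0 - X 2) * r, by linear_combination h3⟩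
  · exact ⟨(X 1 - X 0 + 2 * X 2) * (X 1 - X 0 + X 2) * (X 1 - X 0 - X 2) * r,
      by linear_combination h3⟩
  · exact ⟨(X 1 - X 0 + 2 * X 2) * (X 1 - X 0 + X 2) * (X 1 - X 0) * r, by linear_combination h3⟩

lemma t2_dvd (i : Fin 10) : lin (cst K (vA i)) ∣ app (cst K (vA i)) (t2 K) :=
  dvd_of_shape _ _ _ _ t2_0 t2_1 t2_2 quartic2 i

lemma t3_dvd (i : Fin 10) : lin (cst K (vA i)) ∣ app (cst K (vA i)) (t3 K) :=
  dvd_of_shape _ _ _ _ t3_0 t3_1 t3_2 quartic3 i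

lemma vA_cross_z : ∀ i, cross (vA i) ![0, 0, 1] ≠ 0 := by decide

lemma ph_dvd [CharZero K] (i : Fin 10) : lin (cst K (vA i)) ∣ app (cst K (vA i)) (ph K) := by
  have hp := lin_prime (cst K (vA i)) (cst_ne_zero _ (vA_ne i))
  have h : X 2 * app (cst K (vA i)) (ph K) = -(ff K 0 * app (cst K (vA i)) (eu K) +
      ff K 1 * app (cst K (vA i)) (t2 K) + ff K 2 * app (cst K (vA i)) (t3 K)) := by
    simp only [app3, eu]
    linear_combination C (cst K (vA i) 0) * rel (K := K) 0 + C (cst K (vA i) 1) * rel (K := K) 1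
      + C (cst K (vA i) 2) * rel (K := K) 2
  have h2 : lin (cst K (vA i)) ∣ X 2 * app (cst K (vA i)) (ph K) := by
    rw [h, dvd_neg]
    exact dvd_add (dvd_add (Dvd.dvd.mul_left (dvd_refl _) _) (Dvd.dvd.mul_left (t2_dvd i) _))
      (Dvd.dvd.mul_left (t3_dvd i) _)
  rcases hp.dvd_or_dvd h2 with h3 | h3
  · exfalso
    have e : (X 2 : MvPolynomial (Fin 3) K) = lin (cst K ![0, 0, 1]) := by simp [lin_cst]
    rw [e] at h3
    exact vA_cross_z i (cross_cst _ _ (eq_of_hyp_le _ _ (hyp_le_of_dvd _ _ h3)))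
  · exact h3

/-- defining polynomial of A -/
noncomputable def QA (K : Type) [Field K] : MvPolynomial (Fin 3) K := ∏ i, lin (cst K (vA i))

lemma det_th : det3 (eu K) (t2 K) (t3 K) = 6 * X 2 * QA K := by
  simp only [det3, eu, t2_0, t2_1, t2_2, t3_0, t3_1, t3_2, QA, Fin.prod_univ_succ, lin_cst]
  simp [vA]
  ring

lemma QA_ne [CharZero K] : QA K ≠ 0 :=
  Finset.prod_ne_zero_iff.2 fun i _ => lin_ne_zero _ (cst_ne_zero _ (vA_ne i))

lemma QA_dvd [CharZero K] (p q r : Fin 3 → MvPolynomial (Fin 3) K)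
    (hp : ∀ i, lin (cst K (vA i)) ∣ app (cst K (vA i)) p)
    (hq : ∀ i, lin (cst K (vA i)) ∣ app (cst K (vA i)) q)
    (hr : ∀ i, lin (cst K (vA i)) ∣ app (cst K (vA i)) r) : QA K ∣ det3 p q r :=
  prod_lin_dvd (fun i => cst K (vA i)) (fun i => cst_ne_zero _ (vA_ne i))
    (fun i j h => vA_cross i j (cross_cst _ _ (eq_of_hyp_le _ _ h))) _ _
    fun i _ => dvd_det3 _ (cst_ne_zero _ (vA_ne i)) _ _ _ (hp i) (hq i) (hr i)

lemma not_X_dvd (i : Fin 3) (p : MvPolynomial (Fin 3) K) (v : Fin 3 → K) (hv : v i = 0)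
    (hp : eval v p ≠ 0) : ¬ X i ∣ p := by
  rintro ⟨q, rfl⟩
  simp [hv] at hp

/-- killing the last variable -/
noncomputable def kz (K : Type) [Field K] :
    MvPolynomial (Fin 3) K →ₐ[K] MvPolynomial (Fin 3) K := aeval ![X 0, X 1, 0]

lemma kz_sub (p : MvPolynomial (Fin 3) K) : ∃ k, p = kz K p + X 2 * k := by
  induction p using MvPolynomial.induction_on with
  | C r => exact ⟨0, by simp [kz]⟩
  | add p q hp hq =>
    obtain ⟨a, ha⟩ := hp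
    obtain ⟨b, hb⟩ := hq
    exact ⟨a + b, by rw [map_add]; linear_combination ha + hb⟩
  | mul_X p j hp =>
    obtain ⟨a, ha⟩ := hp
    rw [map_mul]
    fin_cases j
    · exact ⟨a * X 0, by simp [kz] at ha ⊢; linear_combination X 0 * ha⟩
    · exact ⟨a * X 1, by simp [kz] at ha ⊢; linear_combination X 1 * ha⟩
    · exact ⟨p, by simp [kz]; ring⟩

lemma syz2 [CharZero K] (a b : MvPolynomial (Fin 3) K) (h : a * ff K 2 = b * ff K 1) :
    ∃ k, a = k * ff K 1 ∧ b = k * ff K 2 := by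
  have h6 : (6 : MvPolynomial (Fin 3) K) ≠ 0 := by norm_num
  have hf1 : ff K 1 ≠ 0 := by
    intro h0
    have := congrArg (eval ![(1 : K), 0, 0]) h0
    simp [ff_1] at this
  have e1 : 6 * X 0 ^ 5 * a = ff K 1 * ((-6 * X 0 ^ 2 - 8 * X 0 * X 1 + 3 * X 1 ^ 2) * a
      + (10 * X 0 ^ 2 + 3 * X 0 * X 1) * b) := by
    rw [ff_1, ff_2] at *
    linear_combination (10 * X 0 ^ 2 + 3 * X 0 * X 1) * h
  have e2 : 6 * X 1 ^ 5 * a = ff K 1 * ((3 * X 0 * X 1 + 10 * X 1 ^ 2) * a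
      + (3 * X 0 ^ 2 - 8 * X 0 * X 1 - 6 * X 1 ^ 2) * b) := by
    rw [ff_1, ff_2] at *
    linear_combination (3 * X 0 ^ 2 - 8 * X 0 * X 1 - 6 * X 1 ^ 2) * h
  generalize (-6 * X 0 ^ 2 - 8 * X 0 * X 1 + 3 * X 1 ^ 2) * a
      + (10 * X 0 ^ 2 + 3 * X 0 * X 1) * b = k1 at e1
  generalize (3 * X 0 * X 1 + 10 * X 1 ^ 2) * a
      + (3 * X 0 ^ 2 - 8 * X 0 * X 1 - 6 * X 1 ^ 2) * b = k2 at e2
  have e3 : X 1 ^ 5 * k1 = X 0 ^ 5 * k2 := by
    apply mul_left_cancel₀ hf1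
    linear_combination X 0 ^ 5 * e2 - X 1 ^ 5 * e1
  have hp : Prime (X 0 : MvPolynomial (Fin 3) K) := X_prime
  have hd : (X 0 : MvPolynomial (Fin 3) K) ^ 5 ∣ k1 := by
    refine hp.pow_dvd_of_dvd_mul_left 5 (a := X 1 ^ 5) ?_ ⟨k2, e3⟩
    exact not_X_dvd 0 _ ![0, 1, 0] rfl (by simp)
  obtain ⟨k, rfl⟩ := hd
  have hu : (C (6 : K)⁻¹ : MvPolynomial (Fin 3) K) * 6 = 1 := by
    rw [← map_ofNat (C : K →+* MvPolynomial (Fin 3) K) 6, ← map_mul, inv_mul_cancel₀ (by norm_num),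
      map_one]
  have ha : a = C (6 : K)⁻¹ * k * ff K 1 := by
    apply mul_left_cancel₀ (pow_ne_zero 5 hp.ne_zero)
    linear_combination C (6 : K)⁻¹ * e1 - X 0 ^ 5 * a * hu
  refine ⟨C (6 : K)⁻¹ * k, ha, ?_⟩
  apply mul_right_cancel₀ hf1
  rw [← h, ha]; ring

lemma generate [CharZero K] (η : Fin 3 → MvPolynomial (Fin 3) K)
    (hη : ∀ i, lin (cst K (vA i)) ∣ app (cst K (vA i)) η) :
    ∃ (g h0 h1 h2 : MvPolynomial (Fin 3) K), ∀ j,
      η j = g * ph K j + (h0 * X j + h1 * t2 K j + h2 * t3 K j) := by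
  have heu : ∀ i, lin (cst K (vA i)) ∣ app (cst K (vA i)) (eu K) := fun i => dvd_refl _
  obtain ⟨a0, ha0⟩ := QA_dvd η (t2 K) (t3 K) hη t2_dvd t3_dvd
  obtain ⟨a1, ha1⟩ := QA_dvd (eu K) η (t3 K) heu hη t3_dvd
  obtain ⟨a2, ha2⟩ := QA_dvd (eu K) (t2 K) η heu t2_dvd hη
  have hu : (C (6 : K)⁻¹ : MvPolynomial (Fin 3) K) * 6 = 1 := by
    rw [← map_ofNat (C : K →+* MvPolynomial (Fin 3) K) 6, ← map_mul, inv_mul_cancel₀ (by norm_num),
      map_one]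
  have cr : ∀ j, det3 (eu K) (t2 K) (t3 K) * η j = det3 η (t2 K) (t3 K) * eu K j
      + det3 (eu K) η (t3 K) * t2 K j + det3 (eu K) (t2 K) η * t3 K j := by
    intro j
    fin_cases j <;> simp only [det3, Fin.zero_eta, Fin.mk_one, Fin.reduceFinMk] <;> ring
  obtain ⟨g0, g1, g2, hz⟩ : ∃ g0 g1 g2 : MvPolynomial (Fin 3) K, ∀ j,
      X 2 * η j = g0 * X j + g1 * t2 K j + g2 * t3 K j := by
    refine ⟨C (6 : K)⁻¹ * a0, C (6 : K)⁻¹ * a1, C (6 : K)⁻¹ * a2, fun j => ?_⟩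
    have := cr j
    rw [det_th, ha0, ha1, ha2] at this
    apply mul_left_cancel₀ (QA_ne (K := K))
    simp only [eu] at this
    linear_combination C (6 : K)⁻¹ * this - QA K * X 2 * η j * hu
  have hk : kz K g1 * ff K 2 = kz K g2 * ff K 1 := by
    have h0 := congrArg (kz K) (hz 0)
    have h1 := congrArg (kz K) (hz 1)
    simp only [t2_0, t2_1, t3_0, t3_1, map_add, map_mul, map_sub, map_neg, map_pow,
      map_ofNat] at h0 h1
    simp only [kz, aeval_X, Matrix.cons_val_zero, Matrix.cons_val_one, Matrix.cons_val] at h0 h1 ⊢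
    have hne : (X 0 * X 1 * (X 1 - X 0) : MvPolynomial (Fin 3) K) ≠ 0 := by
      intro h
      have := congrArg (eval ![(1 : K), -1, 0]) h
      norm_num at this
    apply mul_left_cancel₀ hne
    rw [ff_1, ff_2]
    linear_combination X 0 * h1 - X 1 * h0
  obtain ⟨k, hk1, hk2⟩ := syz2 _ _ hk
  obtain ⟨k1, e1⟩ := kz_sub g1
  obtain ⟨k2, e2⟩ := kz_sub g2
  rw [hk1] at e1
  rw [hk2] at e2
  have hw : ∀ j, X 2 * (η j + k * ph K j - k1 * t2 K j - k2 * t3 K j) = (g0 - k * ff K 0) * X j := by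
    intro j
    have := hz j
    rw [e1, e2] at this
    linear_combination this + k * rel (K := K) j
  have hp : Prime (X 2 : MvPolynomial (Fin 3) K) := X_prime
  have hd : (X 2 : MvPolynomial (Fin 3) K) ∣ g0 - k * ff K 0 := by
    rcases hp.dvd_or_dvd ⟨_, (hw 0).symm⟩ with h | h
    · exact h
    · exact absurd h (not_X_dvd 2 _ ![1, 0, 0] rfl (by simp))
  obtain ⟨k0, e0⟩ := hd
  refine ⟨-k, k0, k1, k2, fun j => ?_⟩
  apply mul_left_cancel₀ hp.ne_zero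
  have := hw j
  rw [e0] at this
  linear_combination this

lemma relations [CharZero K] (g h0 h1 h2 : MvPolynomial (Fin 3) K)
    (h : ∀ j, g * ph K j + (h0 * X j + h1 * t2 K j + h2 * t3 K j) = 0) :
    ∃ k, g = k * X 2 ∧ h0 = k * ff K 0 ∧ h1 = k * ff K 1 ∧ h2 = k * ff K 2 := by
  have hw : ∀ j, (X 2 * h0 - g * ff K 0) * X j + (X 2 * h1 - g * ff K 1) * t2 K j
      + (X 2 * h2 - g * ff K 2) * t3 K j = 0 := by
    intro j
    linear_combination X 2 * h j - g * rel (K := K) j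
  have hp : Prime (X 2 : MvPolynomial (Fin 3) K) := X_prime
  have hD : det3 (eu K) (t2 K) (t3 K) ≠ 0 := by
    rw [det_th]
    exact mul_ne_zero (mul_ne_zero (by norm_num) hp.ne_zero) QA_ne
  have w0 := hw 0
  have w1 := hw 1
  have w2 := hw 2
  have z0 : X 2 * h0 - g * ff K 0 = 0 := by
    apply mul_left_cancel₀ hD
    simp only [det3, eu]
    linear_combination (t2 K 1 * t3 K 2 - t2 K 2 * t3 K 1) * w0
      - (t2 K 0 * t3 K 2 - t2 K 2 * t3 K 0) * w1 + (t2 K 0 * t3 K 1 - t2 K 1 * t3 K 0) * w2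
  have z1 : X 2 * h1 - g * ff K 1 = 0 := by
    apply mul_left_cancel₀ hD
    simp only [det3, eu]
    linear_combination -(X 1 * t3 K 2 - X 2 * t3 K 1) * w0
      + (X 0 * t3 K 2 - X 2 * t3 K 0) * w1 - (X 0 * t3 K 1 - X 1 * t3 K 0) * w2
  have z2 : X 2 * h2 - g * ff K 2 = 0 := by
    apply mul_left_cancel₀ hD
    simp only [det3, eu]
    linear_combination (X 1 * t2 K 2 - X 2 * t2 K 1) * w0
      - (X 0 * t2 K 2 - X 2 * t2 K 0) * w1 + (X 0 * t2 K 1 - X 1 * t2 K 0) * w2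
  have hd : (X 2 : MvPolynomial (Fin 3) K) ∣ g := by
    rcases hp.dvd_or_dvd (⟨h1, by linear_combination -z1⟩ : X 2 ∣ g * ff K 1) with h | h
    · exact h
    · exact absurd h (not_X_dvd 2 _ ![1, 0, 0] rfl (by simp [ff_1]))
  obtain ⟨k, rfl⟩ := hd
  refine ⟨k, mul_comm _ _, ?_, ?_, ?_⟩
  · apply mul_left_cancel₀ hp.ne_zero; linear_combination z0
  · apply mul_left_cancel₀ hp.ne_zero; linear_combination z1
  · apply mul_left_cancel₀ hp.ne_zero; linear_combination z2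

lemma app_comb (a : Fin 3 → K) (g h0 h1 h2 : MvPolynomial (Fin 3) K)
    (η : Fin 3 → MvPolynomial (Fin 3) K)
    (h : ∀ j, η j = g * ph K j + (h0 * X j + h1 * t2 K j + h2 * t3 K j)) :
    app a η = g * app a (ph K) + h0 * app a (eu K) + h1 * app a (t2 K) + h2 * app a (t3 K) := by
  simp only [app3, h, eu]; ring

lemma comb_apply (g : MvPolynomial (Fin 3) K) (h : Fin 3 → MvPolynomial (Fin 3) K) (j : Fin 3) :
    (g • ph K + ∑ i, h i • th K i) j =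
      g * ph K j + (h 0 * X j + h 1 * t2 K j + h 2 * t3 K j) := by
  simp [Fin.sum_univ_three, th, eu]

theorem A_strict [CharZero K] : IsStrictPOG (arrA K) ![1, 5, 5] 7 := by
  refine ⟨X 2, X_ne_zero _, th K, ph K, ff K, ?_, ?_, isHomogeneous_X _ _, ?_,
    Or.inl (X_ne_zero _), ?_, ?_⟩
  · intro i j
    fin_cases i
    · exact isHomogeneous_X _ _
    · fin_cases j <;> exact ev_hom 5 _ (by decide)
    · fin_cases j <;> exact ev_hom 5 _ (by decide)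
  · intro j
    fin_cases j <;> exact ev_hom 7 _ (by decide)
  · intro i
    fin_cases i
    · exact ⟨ev_hom 7 _ (by decide), by simp⟩
    · exact ⟨ev_hom 3 _ (by decide), by simp⟩
    · exact ⟨ev_hom 3 _ (by decide), by simp⟩
  · intro η
    rw [arrA, mem_logDer_range (fun i => cst K (vA i)) (fun i => cst_ne_zero _ (vA_ne i))]
    constructor
    · intro hη
      obtain ⟨g, h0, h1, h2, h⟩ := generate η hη
      exact ⟨g, ![h0, h1, h2], funext fun j => by rw [comb_apply, h j]; simp⟩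
    · rintro ⟨g, h, rfl⟩ i
      rw [app_comb _ g (h 0) (h 1) (h 2) _ (comb_apply g h)]
      exact dvd_add (dvd_add (dvd_add (Dvd.dvd.mul_left (ph_dvd i) _)
        (Dvd.dvd.mul_left (dvd_refl _) _)) (Dvd.dvd.mul_left (t2_dvd i) _))
        (Dvd.dvd.mul_left (t3_dvd i) _)
  · intro g h
    constructor
    · intro hh
      obtain ⟨k, e, e0, e1, e2⟩ := relations g (h 0) (h 1) (h 2) fun j => by
        rw [← comb_apply, hh]; rfl
      refine ⟨k, e, fun i => ?_⟩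
      fin_cases i
      · exact e0
      · exact e1
      · exact e2
    · rintro ⟨k, rfl, hk⟩
      funext j
      rw [comb_apply, hk, hk, hk]
      simp only [Pi.zero_apply]
      linear_combination k * rel (K := K) j

end Pool.Agent.Lead.POG
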