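import Pool.Agent.Lead.POG3

open MvPolynomial

namespace Pool.Agent.Lead.POG

variable {K : Type} [Field K]

lemma numeric [CharZero K] (p q r : ℕ → ℕ → K)
    (H : ∀ x y z : K, y * ((2 * x - z) * (x - z) * (x - 2 * z)) *
      (p 0 0 * z ^ 3 + p 0 1 * y * z ^ 2 + p 0 2 * y ^ 2 * z + p 0 3 * y ^ 3 + p 1 0 * x * z ^ 2
        + p 1 1 * x * y * z + p 1 2 * x * y ^ 2 + p 2 0 * x ^ 2 * z + p 2 1 * x ^ 2 * y + p 3 0 * x ^ 3)
      - x * ((2 * y - z) * (y - z) * (y - 2 * z)) *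
      (q 0 0 * z ^ 3 + q 0 1 * y * z ^ 2 + q 0 2 * y ^ 2 * z + q 0 3 * y ^ 3 + q 1 0 * x * z ^ 2
        + q 1 1 * x * y * z + q 1 2 * x * y ^ 2 + q 2 0 * x ^ 2 * z + q 2 1 * x ^ 2 * y + q 3 0 * x ^ 3)
      - z * ((4 * y - x) * (2 * y - x) * (y - x) * (y - 2 * x)) *
      (r 0 0 * z ^ 2 + r 0 1 * y * z + r 0 2 * y ^ 2 + r 1 0 * x * z + r 1 1 * x * y + r 2 0 * x ^ 2) = 0)
    (e0 : r 2 0 - r 1 1 + r 0 2 = 0) :
    p 0 0 = 0 ∧ p 0 1 = 0 ∧ p 0 2 = 0 ∧ p 0 3 = 0 ∧ p 1 0 = 0 ∧ p 1 1 = 0 ∧ p 1 2 = 0 ∧ p 2 0 = 0 ∧ p 2 1 = 0 ∧ p 3 0 = 0 ∧ q 0 0 = 0 ∧ q 0 1 = 0 ∧ q 0 2 = 0 ∧ q 0 3 = 0 ∧ q 1 0 = 0 ∧ q 1 1 = 0 ∧ q 1 2 = 0 ∧ q 2 0 = 0 ∧ q 2 1 = 0 ∧ q 3 0 = 0 := by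
  have e1 := H (1) (4) (2)
  have e2 := H (-1) (0) (-1)
  have e3 := H (-1) (0) (1)
  have e4 := H (0) (-1) (-1)
  have e5 := H (0) (-1) (1)
  have e6 := H (-2) (0) (-1)
  have e7 := H (-2) (0) (1)
  have e8 := H (-1) (0) (-2)
  have e9 := H (-1) (0) (2)
  have e10 := H (0) (-1) (-2)
  have e11 := H (0) (-1) (2)
  have e12 := H (0) (-2) (-1)
  have e13 := H (0) (-2) (1)
  have e14 := H (-1) (-1) (0)
  have e15 := H (-1) (1) (0)
  have e16 := H (-2) (-1) (0)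
  have e17 := H (-2) (1) (0)
  have e18 := H (-1) (-2) (0)
  have e19 := H (-1) (2) (0)
  have e20 := H (4) (1) (1)
  have e21 := H (1) (2) (4)
  have e22 := H (2) (1) (4)
  have e23 := H (2) (4) (1)
  have e24 := H (4) (2) (1)
  have e25 := H (4) (1) (4)
  have z0 : p 0 0 = 0 := by linear_combination (-1/9 : K) * e4 + (-1/9 : K) * e5 + (1/180 : K) * e10 + (1/180 : K) * e11 + (1/360 : K) * e12 + (1/360 : K) * e13
  have z1 : p 0 1 = 0 := by linear_combination (-1/9 : K) * e4 + (1/9 : K) * e5 + (1/90 : K) * e10 + (-1/90 : K) * e11 + (1/720 : K) * e12 + (-1/720 : K) * e13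
  have z2 : p 0 2 = 0 := by linear_combination (17/36 : K) * e4 + (17/36 : K) * e5 + (-1/144 : K) * e10 + (-1/144 : K) * e11 + (-1/72 : K) * e12 + (-1/72 : K) * e13
  have z3 : p 0 3 = 0 := by linear_combination (-4/1 : K) * e0 + (1/1260 : K) * e1 + (-7/9 : K) * e2 + (1/3 : K) * e3 + (-11/36 : K) * e4 + (-5/36 : K) * e5 + (1/20 : K) * e6 + (-1/180 : K) * e7 + (1/60 : K) * e8 + (-1/90 : K) * e9 + (1/360 : K) * e10 + (1/360 : K) * e11 + (31/720 : K) * e12 + (1/720 : K) * e13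
  have z4 : p 1 0 = 0 := by linear_combination (-17/30 : K) * e2 + (17/30 : K) * e3 + (91/180 : K) * e4 + (-2/9 : K) * e5 + (1/120 : K) * e6 + (-1/120 : K) * e7 + (1/60 : K) * e8 + (-1/60 : K) * e9 + (-13/288 : K) * e10 + (11/1440 : K) * e11 + (-1/144 : K) * e12 + (1/360 : K) * e13 + (-7/30 : K) * e14 + (61/90 : K) * e15 + (-7/360 : K) * e16 + (-1/40 : K) * e17 + (1/90 : K) * e18 + (-1/60 : K) * e19 + (1/420 : K) * e20 + (-1/1260 : K) * e21 + (-1/720 : K) * e24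
  have z5 : p 1 1 = 0 := by linear_combination (4/1 : K) * e0 + (-1/1260 : K) * e1 + (79/36 : K) * e2 + (-7/4 : K) * e3 + (-3/8 : K) * e4 + (1/9 : K) * e5 + (-17/240 : K) * e6 + (19/720 : K) * e7 + (-7/120 : K) * e8 + (19/360 : K) * e9 + (29/2880 : K) * e10 + (-1/192 : K) * e11 + (-1/36 : K) * e12 + (1/240 : K) * e13 + (35/36 : K) * e14 + (-67/36 : K) * e15 + (17/720 : K) * e16 + (47/720 : K) * e17 + (-13/360 : K) * e18 + (17/360 : K) * e19 + (-1/168 : K) * e20 + (1/336 : K) * e24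
  have z6 : p 1 2 = 0 := by linear_combination (1/1 : K) * e0 + (-1/5040 : K) * e1 + (-5/18 : K) * e2 + (7/18 : K) * e3 + (7/36 : K) * e4 + (-1/12 : K) * e5 + (-1/180 : K) * e6 + (-1/180 : K) * e7 + (7/720 : K) * e8 + (-1/90 : K) * e9 + (-1/240 : K) * e10 + (1/360 : K) * e11 + (-1/80 : K) * e12 + (1/720 : K) * e13 + (-17/36 : K) * e14 + (17/36 : K) * e15 + (1/144 : K) * e16 + (-1/144 : K) * e17 + (1/72 : K) * e18 + (-1/72 : K) * e19
  have z7 : p 2 0 = 0 := by linear_combination (-1/1 : K) * e0 + (1/5040 : K) * e1 + (-13/45 : K) * e2 + (8/45 : K) * e3 + (-7/90 : K) * e4 + (1/36 : K) * e5 + (1/72 : K) * e6 + (-1/360 : K) * e7 + (1/144 : K) * e8 + (-1/180 : K) * e9 + (13/1440 : K) * e10 + (-1/1440 : K) * e11 + (7/720 : K) * e12 + (-1/720 : K) * e13 + (-28/45 : K) * e14 + (23/45 : K) * e15 + (11/360 : K) * e16 + (-7/360 : K) * e17 + (11/720 : K) * e18 + (-1/72 : K) * e19 + (1/420 : K) * e20 + (1/5040 : K)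 * e21 + (-1/2520 : K) * e24
  have z8 : p 2 1 = 0 := by linear_combination (1/9 : K) * e14 + (1/9 : K) * e15 + (-1/90 : K) * e16 + (-1/90 : K) * e17 + (-1/720 : K) * e18 + (-1/720 : K) * e19
  have z9 : p 3 0 = 0 := by linear_combination (1/9 : K) * e14 + (-1/9 : K) * e15 + (-1/180 : K) * e16 + (1/180 : K) * e17 + (-1/360 : K) * e18 + (1/360 : K) * e19
  have z10 : q 0 0 = 0 := by linear_combination (1/9 : K) * e2 + (1/9 : K) * e3 + (-1/360 : K) * e6 + (-1/360 : K) * e7 + (-1/180 : K) * e8 + (-1/180 : K) * e9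
  have z11 : q 0 1 = 0 := by linear_combination (-209/90 : K) * e2 + (1/18 : K) * e3 + (17/60 : K) * e4 + (-17/60 : K) * e5 + (7/144 : K) * e6 + (1/72 : K) * e7 + (13/180 : K) * e8 + (-1/180 : K) * e9 + (-1/120 : K) * e10 + (1/120 : K) * e11 + (-1/240 : K) * e12 + (1/240 : K) * e13 + (7/60 : K) * e14 + (41/180 : K) * e15 + (-7/1440 : K) * e16 + (-1/160 : K) * e17 + (1/144 : K) * e18 + (-1/240 : K) * e19 + (1/720 : K) * e22 + (1/5040 : K) * e23 + (-1/3360 : K) * e25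
  have z12 : q 0 2 = 0 := by linear_combination (4/1 : K) * e0 + (-1/1260 : K) * e1 + (-52/45 : K) * e2 + (-4/9 : K) * e3 + (53/90 : K) * e4 + (-13/90 : K) * e5 + (-1/180 : K) * e6 + (1/45 : K) * e7 + (1/180 : K) * e8 + (1/90 : K) * e9 + (-1/90 : K) * e10 + (1/180 : K) * e11 + (-17/360 : K) * e12 + (1/360 : K) * e13 + (91/180 : K) * e14 + (11/180 : K) * e15 + (-13/1440 : K) * e16 + (-1/288 : K) * e17 + (-31/720 : K) * e18 + (1/720 : K) * e19 + (1/2520 : K) * e22 + (-1/1260 : K) * e23 + (-1/3360 : K) * e25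
  have z13 : q 0 3 = 0 := by linear_combination (-1/9 : K) * e14 + (-1/9 : K) * e15 + (1/360 : K) * e16 + (1/360 : K) * e17 + (1/180 : K) * e18 + (1/180 : K) * e19
  have z14 : q 1 0 = 0 := by linear_combination (1/9 : K) * e2 + (-1/9 : K) * e3 + (-1/720 : K) * e6 + (1/720 : K) * e7 + (-1/90 : K) * e8 + (1/90 : K) * e9
  have z15 : q 1 1 = 0 := by linear_combination (-1/1 : K) * e0 + (1/5040 : K) * e1 + (11/2 : K) * e2 + (1/18 : K) * e3 + (-65/72 : K) * e4 + (19/24 : K) * e5 + (-41/360 : K) * e6 + (-1/24 : K) * e7 + (-13/144 : K) * e8 + (1/120 : K) * e9 + (1/40 : K) * e10 + (-17/720 : K) * e11 + (11/480 : K) * e12 + (-17/1440 : K) * e13 + (-49/72 : K) * e14 + (-53/72 : K) * e15 + (59/2880 : K) * e16 + (61/2880 : K) * e17 + (11/1440 : K) * e18 + (19/1440 : K) * e19 + (-1/672 : K) * e22 + (1/1344 : K) * e25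
  have z16 : q 1 2 = 0 := by linear_combination (-1/9 : K) * e14 + (1/9 : K) * e15 + (1/720 : K) * e16 + (-1/720 : K) * e17 + (1/90 : K) * e18 + (-1/90 : K) * e19
  have z17 : q 2 0 = 0 := by linear_combination (-17/36 : K) * e2 + (-17/36 : K) * e3 + (1/72 : K) * e6 + (1/72 : K) * e7 + (1/144 : K) * e8 + (1/144 : K) * e9
  have z18 : q 2 1 = 0 := by linear_combination (-4/1 : K) * e0 + (1/1260 : K) * e1 + (-7/9 : K) * e2 + (1/3 : K) * e3 + (-11/36 : K) * e4 + (-5/36 : K) * e5 + (1/20 : K) * e6 + (-1/180 : K) * e7 + (1/60 : K) * e8 + (-1/90 : K) * e9 + (1/360 : K) * e10 + (1/360 : K) * e11 + (31/720 : K) * e12 + (1/720 : K) * e13 + (17/36 : K) * e14 + (17/36 : K) * e15 + (-1/72 : K) * e16 + (-1/72 : K) * e17 + (-1/144 : K) * e18 + (-1/144 : K) * e19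
  have z19 : q 3 0 = 0 := by linear_combination (1/1 : K) * e0 + (-1/5040 : K) * e1 + (-5/18 : K) * e2 + (7/18 : K) * e3 + (7/36 : K) * e4 + (-1/12 : K) * e5 + (-1/180 : K) * e6 + (-1/180 : K) * e7 + (7/720 : K) * e8 + (-1/90 : K) * e9 + (-1/240 : K) * e10 + (1/360 : K) * e11 + (-1/80 : K) * e12 + (1/720 : K) * e13
  exact ⟨z0, z1, z2, z3, z4, z5, z6, z7, z8, z9, z10, z11, z12, z13, z14, z15, z16, z17, z18, z19⟩

lemma prodB_dvd [CharZero K] (s : Finset (Fin 10)) (w : MvPolynomial (Fin 3) K)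
    (h : ∀ i ∈ s, lin (cst K (vB i)) ∣ w) : ∏ i ∈ s, lin (cst K (vB i)) ∣ w :=
  prod_lin_dvd (fun i => cst K (vB i)) (fun i => cst_ne_zero _ (vB_ne i))
    (fun i j h => vB_cross i j (cross_cst _ _ (eq_of_hyp_le _ _ h))) _ _ h

lemma hom_prod (s : Finset (Fin 10)) :
    (∏ i ∈ s, lin (cst K (vB i))).IsHomogeneous s.card := by
  have := IsHomogeneous.prod s (fun i => lin (cst K (vB i))) (fun _ => 1)
    (fun i _ => isHomogeneous_lin _)
  simpa using this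

lemma hom_w (θ : Fin 3 → MvPolynomial (Fin 3) K) (hh : ∀ j, (θ j).IsHomogeneous 5) (i j : Fin 3) :
    (X i * θ j - X j * θ i).IsHomogeneous 6 :=
  ((isHomogeneous_X K i).mul (hh j)).sub ((isHomogeneous_X K j).mul (hh i))

lemma keyB [CharZero K] (θ : Fin 3 → MvPolynomial (Fin 3) K)
    (hθ : ∀ i, lin (cst K (vB i)) ∣ app (cst K (vB i)) θ) (hh : ∀ j, (θ j).IsHomogeneous 5)
    (hρ : eval ![(1 : K), -1, 0] (X 0 * θ 1 - X 1 * θ 0) = 0) :
    ∃ g : MvPolynomial (Fin 3) K, g.IsHomogeneous 4 ∧ ∀ j, θ j = g * X j := by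
  have d1 : ∏ i ∈ ({0, 1, 2} : Finset (Fin 10)), lin (cst K (vB i)) ∣ X 0 * θ 2 - X 2 * θ 0 := by
    apply prodB_dvd
    intro i hi
    obtain ⟨u, hu⟩ := hθ i
    simp only [Finset.mem_insert, Finset.mem_singleton] at hi
    rcases hi with rfl | rfl | rfl <;> rw [lin_cst, app_cst] at hu <;> rw [lin_cst] <;>
      simp [vB] at hu ⊢
    · exact ⟨θ 0 - X 0 * u, by linear_combination -X 0 * hu⟩
    · exact ⟨θ 0 - X 0 * u, by linear_combination -X 0 * hu⟩
    · exact ⟨θ 2 - X 2 * u, by linear_combination -X 2 * hu⟩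
  have d2 : ∏ i ∈ ({3, 4, 5} : Finset (Fin 10)), lin (cst K (vB i)) ∣ X 1 * θ 2 - X 2 * θ 1 := by
    apply prodB_dvd
    intro i hi
    obtain ⟨u, hu⟩ := hθ i
    simp only [Finset.mem_insert, Finset.mem_singleton] at hi
    rcases hi with rfl | rfl | rfl <;> rw [lin_cst, app_cst] at hu <;> rw [lin_cst] <;>
      simp [vB] at hu ⊢
    · exact ⟨θ 1 - X 1 * u, by linear_combination -X 1 * hu⟩
    · exact ⟨θ 1 - X 1 * u, by linear_combination -X 1 * hu⟩
    · exact ⟨θ 2 - X 2 * u, by linear_combination -X 2 * hu⟩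
  have d3 : ∏ i ∈ ({6, 7, 8, 9} : Finset (Fin 10)), lin (cst K (vB i)) ∣
      X 0 * θ 1 - X 1 * θ 0 := by
    apply prodB_dvd
    intro i hi
    obtain ⟨u, hu⟩ := hθ i
    simp only [Finset.mem_insert, Finset.mem_singleton] at hi
    rcases hi with rfl | rfl | rfl | rfl <;> rw [lin_cst, app_cst] at hu <;> rw [lin_cst] <;>
      simp [vB] at hu ⊢
    · exact ⟨X 1 * u - θ 1, by linear_combination X 1 * hu⟩
    · exact ⟨X 1 * u - θ 1, by linear_combination X 1 * hu⟩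
    · exact ⟨X 1 * u - θ 1, by linear_combination X 1 * hu⟩
    · exact ⟨X 0 * u - θ 0, by linear_combination X 0 * hu⟩
  obtain ⟨P, hP, eP⟩ := exists_hom_quot _ _ 3 3 (hom_prod {0, 1, 2}) (hom_w θ hh 0 2) d1
  obtain ⟨Q, hQ, eQ⟩ := exists_hom_quot _ _ 3 3 (hom_prod {3, 4, 5}) (hom_w θ hh 1 2) d2
  obtain ⟨R, hR, eR⟩ := exists_hom_quot _ _ 4 2 (hom_prod {6, 7, 8, 9}) (hom_w θ hh 0 1) d3
  obtain ⟨p, hp⟩ := hom_expand 3 P hP
  obtain ⟨q, hq⟩ := hom_expand 3 Q hQ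
  obtain ⟨r, hr⟩ := hom_expand 2 R hR
  have c1 : ∏ i ∈ ({0, 1, 2} : Finset (Fin 10)), lin (cst K (vB i)) =
      (2 * X 0 - X 2) * (X 0 - X 2) * (X 0 - 2 * X 2) := by
    rw [Finset.prod_insert (by decide), Finset.prod_insert (by decide), Finset.prod_singleton]
    simp [lin_cst, vB]; ring
  have c2 : ∏ i ∈ ({3, 4, 5} : Finset (Fin 10)), lin (cst K (vB i)) =
      (2 * X 1 - X 2) * (X 1 - X 2) * (X 1 - 2 * X 2) := by
    rw [Finset.prod_insert (by decide), Finset.prod_insert (by decide), Finset.prod_singleton]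
    simp [lin_cst, vB]; ring
  have c3 : ∏ i ∈ ({6, 7, 8, 9} : Finset (Fin 10)), lin (cst K (vB i)) =
      (4 * X 1 - X 0) * (2 * X 1 - X 0) * (X 1 - X 0) * (X 1 - 2 * X 0) := by
    rw [Finset.prod_insert (by decide), Finset.prod_insert (by decide),
      Finset.prod_insert (by decide), Finset.prod_singleton]
    simp [lin_cst, vB]; ring
  rw [c1] at eP
  rw [c2] at eQ
  rw [c3] at eR
  simp only [Finset.sum_range_succ, Finset.range_zero, Finset.sum_empty, Nat.reduceAdd,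
    Nat.reduceSub, tsub_zero] at hp hq hr
  have hid : X 1 * ((2 * X 0 - X 2) * (X 0 - X 2) * (X 0 - 2 * X 2)) * P
      - X 0 * ((2 * X 1 - X 2) * (X 1 - X 2) * (X 1 - 2 * X 2)) * Q
      - X 2 * ((4 * X 1 - X 0) * (2 * X 1 - X 0) * (X 1 - X 0) * (X 1 - 2 * X 0)) * R = 0 := by
    linear_combination -X 1 * eP + X 0 * eQ + X 2 * eR
  have hz := numeric p q r (fun x y z => by
      have := congrArg (eval ![x, y, z]) hid
      rw [hp, hq, hr] at this
      simp only [map_add, map_sub, map_mul, map_pow, map_zero, map_ofNat, eval_C, eval_X,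
        Matrix.cons_val_zero, Matrix.cons_val_one, Matrix.cons_val] at this
      linear_combination this) (by
      rw [eR, hr] at hρ
      simp only [map_add, map_sub, map_mul, map_pow, map_zero, map_ofNat, eval_C, eval_X,
        Matrix.cons_val_zero, Matrix.cons_val_one, Matrix.cons_val] at hρ
      linear_combination (1 / 90 : K) * hρ)
  obtain ⟨z0, z1, z2, z3, z4, z5, z6, z7, z8, z9, z10, z11, z12, z13, z14, z15, z16, z17, z18,
    z19⟩ := hz
  have hP0 : P = 0 := by rw [hp]; simp [z0, z1, z2, z3, z4, z5, z6, z7, z8, z9]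
  have hQ0 : Q = 0 := by rw [hq]; simp [z10, z11, z12, z13, z14, z15, z16, z17, z18, z19]
  rw [hP0, mul_zero] at eP
  rw [hQ0, mul_zero] at eQ
  have hpz : Prime (X 2 : MvPolynomial (Fin 3) K) := X_prime
  have hd : (X 2 : MvPolynomial (Fin 3) K) ∣ θ 2 := by
    rcases hpz.dvd_or_dvd (⟨θ 0, by linear_combination eP⟩ : X 2 ∣ X 0 * θ 2) with h | h
    · exact absurd h (not_X_dvd 2 _ ![1, 0, 0] rfl (by simp))
    · exact h
  obtain ⟨g, hg, eg⟩ := exists_hom_quot _ _ 1 4 (isHomogeneous_X K 2) (hh 2) hd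
  refine ⟨g, hg, fun j => ?_⟩
  fin_cases j
  · apply mul_left_cancel₀ hpz.ne_zero
    simp only [Fin.zero_eta]
    linear_combination -eP + X 0 * eg
  · apply mul_left_cancel₀ hpz.ne_zero
    simp only [Fin.mk_one]
    linear_combination -eQ + X 1 * eg
  · simp only [Fin.reduceFinMk]
    linear_combination eg

lemma cc_zero (g : MvPolynomial (Fin 3) K) (n : ℕ) (hg : g.IsHomogeneous n) (hn : n ≠ 0) :
    constantCoeff g = 0 := by
  rw [constantCoeff_eq]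
  exact hg.coeff_eq_zero (by simpa using hn.symm)

theorem B_not [CharZero K] (d : Fin 3 → ℕ) (e : ℕ) (i j : Fin 3) (hij : i ≠ j) (hi : d i = 5)
    (hj : d j = 5) : ¬ IsPOG (arrB K) d e := by
  classical
  rintro ⟨α, θ, φ, f, hθ, -, -, hf, -, hgen, hrel⟩
  have hmem : ∀ η, η ∈ logDer (arrB K) ↔ ∀ i, lin (cst K (vB i)) ∣ app (cst K (vB i)) η :=
    fun η => mem_logDer_range (fun i => cst K (vB i)) (fun i => cst_ne_zero _ (vB_ne i)) η
  have hf0 : ∀ t, constantCoeff (f t) = 0 := by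
    intro t
    by_cases h : e + 1 ≤ d t
    · rw [(hf t).2 h, map_zero]
    · exact cc_zero _ _ (hf t).1 (by omega)
  obtain ⟨gE, hE, eE⟩ := (hgen (eu K)).1 ((hmem _).2 fun i => dvd_refl _)
  have main : ∀ a b : K,
      eval ![(1 : K), -1, 0] (X 0 * (C a * θ i 1 + C b * θ j 1) - X 1 * (C a * θ i 0 + C b * θ j 0))
        = 0 → a = 0 ∧ b = 0 := by
    intro a b hab
    let c : Fin 3 → MvPolynomial (Fin 3) K := Pi.single i (C a) + Pi.single j (C b)
    have hc : ∑ t, c t • θ t = fun s => C a * θ i s + C b * θ j s := by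
      have : ∑ t, c t • θ t = (C a : MvPolynomial (Fin 3) K) • θ i + (C b : MvPolynomial (Fin 3) K) • θ j := by
        simp [c, add_smul, Finset.sum_add_distrib, Pi.single_apply, ite_smul]
      rw [this]; rfl
    have hin : (fun s => C a * θ i s + C b * θ j s) ∈ logDer (arrB K) :=
      (hgen _).2 ⟨0, c, by rw [hc]; simp⟩
    obtain ⟨g, hg, eg⟩ := keyB _ ((hmem _).1 hin)
      (fun s => ((hi ▸ hθ i s).C_mul a).add ((hj ▸ hθ j s).C_mul b)) hab
    have hr : (-(g * gE)) • φ + ∑ t, (c t - g * hE t) • θ t = 0 := by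
      have e1 : ∑ t, (c t - g * hE t) • θ t = ∑ t, c t • θ t - g • ∑ t, hE t • θ t := by
        simp only [sub_smul, Finset.sum_sub_distrib, Finset.smul_sum, mul_smul]
      have e2 : ∑ t, c t • θ t = g • eu K := by
        rw [hc]; funext s; rw [eg s]; rfl
      rw [e1, e2, eE, smul_add, neg_smul, mul_smul]; abel
    obtain ⟨k, -, hk⟩ := (hrel _ _).1 hr
    have hg0 := cc_zero g 4 hg (by norm_num)
    have h1 := congrArg constantCoeff (hk i)
    have h2 := congrArg constantCoeff (hk j)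
    simp [c, hf0, hg0, hij, hij.symm] at h1 h2
    exact ⟨h1, h2⟩
  have h1 := main (eval ![(1 : K), -1, 0] (X 0 * θ j 1 - X 1 * θ j 0))
    (-eval ![(1 : K), -1, 0] (X 0 * θ i 1 - X 1 * θ i 0)) (by
      simp only [map_add, map_sub, map_mul, map_neg, eval_C]; ring)
  have h2 := main 1 0 (by
      have := h1.2
      simp only [map_one, map_zero, one_mul, zero_mul, add_zero]
      exact neg_eq_zero.1 this)
  exact one_ne_zero h2.1

end Pool.Agent.Lead.POG
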