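import Mathlib

open MvPolynomial

namespace Pool.Agent.Lead.POG

variable {K : Type} [Field K] {l : ℕ}

/-- The linear form with coefficient vector `a`, as an element of `S = K[x_1, ..., x_l]`. -/
noncomputable def lin (a : Fin l → K) : MvPolynomial (Fin l) K := ∑ i, C (a i) * X i

/-- The subspace of `V = K^l` of all `v` with `∑ v i * a i = 0`. -/
def hyp (a : Fin l → K) : Submodule K (Fin l → K) :=
  LinearMap.ker (Fintype.linearCombination K a)

/-- An essential arrangement: a finite set of linear hyperplanes with intersection zero. -/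
def IsArrangement (A : Set (Submodule K (Fin l → K))) : Prop :=
  A.Finite ∧ (∀ H ∈ A, ∃ a : Fin l → K, a ≠ 0 ∧ H = hyp a) ∧ sInf A = ⊥

/-- The intersection lattice: all intersections of subfamilies (the empty one gives `V`). -/
def interLattice (A : Set (Submodule K (Fin l → K))) : Set (Submodule K (Fin l → K)) :=
  {Y | ∃ T : Set (Submodule K (Fin l → K)), T ⊆ A ∧ Y = sInf T}

/-- The logarithmic derivation module `D(A)`; the tuple `θ` stands for `∑ θ i ∂_i`. -/
def logDer (A : Set (Submodule K (Fin l → K))) : Set (Fin l → MvPolynomial (Fin l) K) :=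
  {θ | ∀ a : Fin l → K, a ≠ 0 → hyp a ∈ A → lin a ∣ ∑ i, C (a i) * θ i}

/-- `0 → S[-e-1] → S[-e] ⊕ ⨁ S[-d i] → D(A) → 0`, with first map `(α, f)` and second map given
by `φ` and the `θ i`, is a minimal graded free resolution. -/
def POGWith (A : Set (Submodule K (Fin l → K))) (d : Fin l → ℕ) (e : ℕ)
    (α : MvPolynomial (Fin l) K) : Prop :=
  ∃ (θ : Fin l → Fin l → MvPolynomial (Fin l) K) (φ f : Fin l → MvPolynomial (Fin l) K),
    (∀ i j, (θ i j).IsHomogeneous (d i)) ∧ (∀ j, (φ j).IsHomogeneous e) ∧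
    α.IsHomogeneous 1 ∧
    (∀ i, (f i).IsHomogeneous (e + 1 - d i) ∧ (e + 1 ≤ d i → f i = 0)) ∧
    (α ≠ 0 ∨ f ≠ 0) ∧
    (∀ η, η ∈ logDer A ↔
      ∃ (g : MvPolynomial (Fin l) K) (h : Fin l → MvPolynomial (Fin l) K),
        η = g • φ + ∑ i, h i • θ i) ∧
    (∀ (g : MvPolynomial (Fin l) K) (h : Fin l → MvPolynomial (Fin l) K),
      g • φ + ∑ i, h i • θ i = 0 ↔ ∃ k, g = k * α ∧ ∀ i, h i = k * f i)

/-- Plus-one generated with exponents `d` and level `e`. -/
def IsPOG (A : Set (Submodule K (Fin l → K))) (d : Fin l → ℕ) (e : ℕ) : Prop :=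
  ∃ α, POGWith A d e α

/-- Strictly plus-one generated with exponents `d` and level `e`. -/
def IsStrictPOG (A : Set (Submodule K (Fin l → K))) (d : Fin l → ℕ) (e : ℕ) : Prop :=
  ∃ α, α ≠ 0 ∧ POGWith A d e α

end Pool.Agent.Lead.POG
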