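import Mathlib

set_option autoImplicit false

namespace Pool.Agent.Lead.Pac
open MeasureTheory ProbabilityTheory Set Finset

variable {X : Type*} [MeasurableSpace X]

def U (g : X → ℝ) : Prop := Measurable g ∧ ∀ x, 0 ≤ g x ∧ g x ≤ 1

theorem U.int {g : X → ℝ} (h : U g) (μ : Measure X) [IsFiniteMeasure μ] : Integrable g μ :=
  .of_bound h.1.aestronglyMeasurable 1 (.of_forall fun x => by
    rw [Real.norm_of_nonneg (h.2 x).1]; exact (h.2 x).2)

theorem U.mul {g g' : X → ℝ} (h : U g) (h' : U g') : U fun x => g x * g' x :=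
  ⟨h.1.mul h'.1, fun x => ⟨mul_nonneg (h.2 x).1 (h'.2 x).1,
    mul_le_one₀ (h.2 x).2 (h'.2 x).1 (h'.2 x).2⟩⟩

theorem U.comp {Y : Type*} [MeasurableSpace Y] {g : X → ℝ} (h : U g) {φ : Y → X}
    (hφ : Measurable φ) : U fun y => g (φ y) := ⟨h.1.comp hφ, fun _ => h.2 _⟩

theorem U.prod {ι : Type*} [Fintype ι] {g : X → ℝ} (h : U g) : U fun y : ι → X => ∏ i, g (y i) :=
  ⟨Finset.measurable_prod _ fun i _ => h.1.comp (measurable_pi_apply i), fun _ =>
    ⟨prod_nonneg fun _ _ => (h.2 _).1, prod_le_one (fun _ _ => (h.2 _).1) fun _ _ => (h.2 _).2⟩⟩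

theorem U.ind {A : Set X} (h : MeasurableSet A) : U (A.indicator 1) :=
  ⟨measurable_one.indicator h, fun x => by by_cases h : x ∈ A <;> simp [h]⟩

theorem U.one : U fun _ : X => (1 : ℝ) := ⟨measurable_const, fun _ => by simp⟩

theorem U.nn {g : X → ℝ} (h : U g) (μ : Measure X) : 0 ≤ ∫ x, g x ∂μ :=
  integral_nonneg fun x => (h.2 x).1

theorem U.le {g : X → ℝ} (h : U g) (μ : Measure X) [IsProbabilityMeasure μ] : ∫ x, g x ∂μ ≤ 1 := by
  simpa using integral_mono (h.int μ) (integrable_const 1) fun x => (h.2 x).2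

def Cl (δ : ℝ) (P Q : Measure X) : Prop := ∀ A, MeasurableSet A → |P.real A - Q.real A| ≤ δ

theorem Cl.symm {δ : ℝ} {P Q : Measure X} (h : Cl δ P Q) : Cl δ Q P :=
  fun A hA => abs_sub_comm (Q.real A) _ ▸ h A hA

theorem Cl.trans {δ δ' : ℝ} {P Q R : Measure X} (h : Cl δ P Q) (h' : Cl δ' Q R) :
    Cl (δ + δ') P R := fun A hA => (abs_sub_le _ _ _).trans (add_le_add (h A hA) (h' A hA))

theorem Cl.int {δ : ℝ} {P Q : Measure X} [IsFiniteMeasure P] [IsFiniteMeasure Q] (h : Cl δ P Q)
    {g : X → ℝ} (hg : U g) : ∫ x, g x ∂P - ∫ x, g x ∂Q ≤ δ := by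
  have e : ∀ (μ : Measure X) [IsFiniteMeasure μ], ∫ x, g x ∂μ =
      ∫ t in Ioc (0 : ℝ) 1, μ.real {a | t ≤ g a} := fun μ _ =>
    (hg.int μ).integral_eq_integral_Ioc_meas_le (.of_forall fun x => (hg.2 x).1)
      (.of_forall fun x => (hg.2 x).2)
  have i : ∀ (μ : Measure X) [IsFiniteMeasure μ],
      IntegrableOn (fun t => μ.real {a | t ≤ g a}) (Ioc (0 : ℝ) 1) := fun μ _ =>
    Integrable.of_bound (Antitone.measurable (f := fun t => μ.real {a | t ≤ g a}) fun s t h =>
      measureReal_mono fun a ha => le_trans h ha).aestronglyMeasurable (μ.real univ) (.of_forall fun t => by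
        rw [Real.norm_of_nonneg measureReal_nonneg]; exact measureReal_mono (subset_univ _))
  rw [e P, e Q, ← integral_sub (i P) (i Q)]
  refine (setIntegral_mono ((i P).sub (i Q)) (integrableOn_const (by simp)) fun t =>
    (le_abs_self _).trans (h _ (measurableSet_le measurable_const hg.1))).trans (by simp)

theorem prod_le {P Q : Measure X} [IsProbabilityMeasure P] [IsProbabilityMeasure Q] {u : X → ℝ}
    (hu : U u) {τ : ℝ} (h : ∀ g, U g → ∫ x, u x * g x ∂Q ≤ (∫ x, u x ∂Q) * (∫ x, g x ∂P + τ))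
    (m : ℕ) : ∀ g : (Fin m → X) → ℝ, U g → ∫ y, (∏ j, u (y j)) * g y ∂(Measure.pi fun _ => Q) ≤
      (∫ x, u x ∂Q) ^ m * (∫ y, g y ∂(Measure.pi fun _ => P) + m * τ) := by
  induction m with
  | zero => intro g _; simp [Measure.pi_of_empty (fun _ : Fin 0 => Q), Measure.pi_of_empty (fun _ : Fin 0 => P)]
  | succ m ih =>
    intro g hg
    let e := (MeasurableEquiv.piFinSuccAbove (fun _ : Fin (m + 1) => X) 0).symm
    have k : ∀ (μ : Measure X) [IsProbabilityMeasure μ] (φ : (Fin (m + 1) → X) → ℝ), U φ →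
        ∫ y, φ y ∂(Measure.pi fun _ => μ) =
          ∫ x, ∫ y, φ (e (x, y)) ∂(Measure.pi fun _ => μ) ∂μ := fun μ _ φ hφ => by
      rw [← (measurePreserving_piFinSuccAbove (fun _ => μ) 0).symm.integral_comp',
        integral_prod _ ((hφ.comp e.measurable).int _)]
    have hG : ∀ (μ : Measure X) [IsProbabilityMeasure μ] (φ : (Fin (m + 1) → X) → ℝ), U φ →
        U fun x => ∫ y, φ (e (x, y)) ∂(Measure.pi fun _ => μ) := fun μ _ φ hφ =>
      ⟨(hφ.comp e.measurable).1.stronglyMeasurable.integral_prod_right'.measurable, fun x =>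
        have := hφ.comp (e.measurable.comp (measurable_prodMk_left (x := x)))
        ⟨this.nn _, this.le _⟩⟩
    rw [k _ _ (hu.prod.mul hg), k _ _ hg]
    have c := hu.nn Q
    have h1 := h _ (hG P g hg)
    refine (integral_mono ((hG Q _ (hu.prod.mul hg)).int _) (g := fun x => (∫ x, u x ∂Q) ^ m *
      (u x * ∫ y, g (e (x, y)) ∂(Measure.pi fun _ => P) + m * τ * u x))
      ((((hu.mul (hG P g hg)).int _).add ((hu.int _).const_mul _)).const_mul _) fun x => ?_).trans ?_
    · have := mul_le_mul_of_nonneg_left (ih _ (hg.comp (e.measurable.comp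
        (measurable_prodMk_left (x := x))))) (hu.2 x).1
      rw [← integral_const_mul] at this
      refine le_of_eq_of_le (integral_congr_ae (.of_forall fun y => ?_)) (this.trans_eq (by
        simp only [Function.comp]; ring))
      simp [e, Fin.prod_univ_succ, mul_assoc, MeasurableEquiv.piFinSuccAbove]
    · rw [integral_const_mul, integral_add ((hu.mul (hG P g hg)).int _) ((hu.int _).const_mul _),
        integral_const_mul, pow_succ, mul_assoc (_ ^ _)]
      refine mul_le_mul_of_nonneg_left ?_ (pow_nonneg c _)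
      push_cast
      linarith

theorem wlln {ι Y : Type*} [Fintype ι] [MeasurableSpace Y] (ν : Measure Y) [IsProbabilityMeasure ν]
    (φ : ι → Y → ℝ) (h : ∀ i, U (φ i)) {B : ℕ} (hB : 0 < B) {t : ℝ} (ht : 0 < t) :
    (Measure.pi fun _ : Fin B => ν) (⋃ i, {z | B * t ≤ |∑ b, φ i (z b) - B * ∫ y, φ i y ∂ν|}) ≤
      ENNReal.ofReal (Fintype.card ι / (B * t ^ 2)) := by
  have hB' : (0 : ℝ) < B := by exact_mod_cast hB
  refine (measure_iUnion_fintype_le _ _).trans ((sum_le_card_nsmul _ _
    (ENNReal.ofReal (1 / (B * t ^ 2))) fun i _ => ?_).trans_eq ?_)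
  · have m : ∀ {Z : Type _} [MeasurableSpace Z] (μ : Measure Z) [IsProbabilityMeasure μ] (g : Z → ℝ),
        U g → MemLp g 2 μ := fun μ _ g hg =>
      memLp_of_bounded (a := 0) (b := 1) (.of_forall hg.2) hg.1.aestronglyMeasurable 2
    have := meas_ge_le_variance_div_sq (μ := Measure.pi fun _ : Fin B => ν)
      (memLp_finsetSum' Finset.univ fun b _ => m _ _ ((h i).comp (measurable_pi_apply b)))
      (mul_pos hB' ht)
    rw [variance_sum_pi fun _ => m _ _ (h i)] at this
    have e : ∫ z, (∑ b : Fin B, fun y : Fin B → Y => φ i (y b)) z ∂(Measure.pi fun _ => ν) =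
        B * ∫ y, φ i y ∂ν := by
      simp only [Finset.sum_apply]
      rw [integral_finsetSum _ fun b _ => ((h i).comp (measurable_pi_apply b)).int _]
      simp [integral_comp_eval (μ := fun _ : Fin B => ν) (h i).1.aestronglyMeasurable]
    rw [e] at this
    refine (le_of_eq_of_le (by simp) this).trans (ENNReal.ofReal_le_ofReal ?_)
    have v := variance_le_sq_of_bounded (μ := ν) (a := 0) (b := 1) (.of_forall (h i).2)
      (h i).1.aemeasurable
    rw [div_le_div_iff₀ (by positivity) (by positivity)]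
    simp only [sum_const, card_univ, Fintype.card_fin, nsmul_eq_mul]
    have : (0 : ℝ) ≤ B * (B * t ^ 2) := by positivity
    nlinarith
  · rw [nsmul_eq_mul, ← ENNReal.ofReal_natCast, ← ENNReal.ofReal_mul (by positivity)]
    simp [div_eq_mul_inv]

theorem blocks {B m M : ℕ} (e : Fin B × Fin m ↪ Fin M) (Q : Measure X) [IsProbabilityMeasure Q] :
    MeasurePreserving (fun (x : Fin M → X) b j => x (e (b, j))) (Measure.pi fun _ => Q)
      (Measure.pi fun _ => Measure.pi fun _ => Q) := by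
  have h1 : MeasurePreserving (fun (x : Fin M → X) p => x (e p)) (Measure.pi fun _ => Q)
      (Measure.pi fun _ => Q) := ⟨by fun_prop, by
    rw [((iIndepFun_pi (X := fun _ x => x) (μ := fun _ : Fin M => Q) fun _ =>
      aemeasurable_id).precomp e.injective).map_fun_eq_pi_map fun _ => (measurable_pi_apply _).aemeasurable]
    simp [(measurePreserving_eval (fun _ : Fin M => Q) _).map_eq]⟩
  have h2 := Measure.infinitePi_map_curry (fun (_ : Fin B) (_ : Fin m) => Q)
  simp only [Measure.infinitePi_eq_pi] at h2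
  exact MeasurePreserving.comp ⟨(MeasurableEquiv.curry _ _ _).measurable, h2⟩ h1

variable {N : ℕ} (P : Fin N → Measure X) [∀ k, IsProbabilityMeasure (P k)]

noncomputable def mix (w : Fin N → ℝ) : Measure X := ∑ k, ENNReal.ofReal (w k) • P k

instance (w : Fin N → ℝ) (k : Fin N) : IsFiniteMeasure (ENNReal.ofReal (w k) • P k) :=
  ⟨by simp⟩
instance (w : Fin N → ℝ) : IsFiniteMeasure (mix P w) := ⟨by simp [mix]⟩

theorem mix_int {w : Fin N → ℝ} (hw : ∀ k, 0 ≤ w k) {g : X → ℝ} (hg : U g) :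
    ∫ x, g x ∂(mix P w) = ∑ k, w k * ∫ x, g x ∂(P k) := by
  rw [mix, integral_finsetSum_measure fun k _ => hg.int _]
  simp [hw]

theorem mix_real {w : Fin N → ℝ} (hw : ∀ k, 0 ≤ w k) {A : Set X} (hA : MeasurableSet A) :
    (mix P w).real A = ∑ k, w k * (P k).real A := by
  simpa [integral_indicator_one hA] using mix_int P hw (U.ind hA)

theorem weights {w : Fin N → ℝ} (hw : ∀ k, 0 ≤ w k) : ∃ u : Fin N → X → ℝ, (∀ k, U (u k)) ∧
    (∀ x, ∑ k, u k x ≤ 1) ∧ ∀ k (g : X → ℝ), ∫ x, u k x * g x ∂(mix P w) = w k * ∫ x, g x ∂(P k) := by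
  let r : Fin N → X → ℝ := fun k x => ((ENNReal.ofReal (w k) • P k).rnDeriv (mix P w) x).toReal
  have r1 : ∀ k, Measurable (r k) := fun k => (Measure.measurable_rnDeriv _ _).ennreal_toReal
  have r2 : ∀ k (g : X → ℝ), ∫ x, r k x * g x ∂(mix P w) = w k * ∫ x, g x ∂(P k) := fun k g => by
    rw [integral_toReal_rnDeriv_mul (ν := mix P w) (Measure.absolutelyContinuous_of_le
      (single_le_sum (f := fun k => ENNReal.ofReal (w k) • P k) (fun _ _ => bot_le) (mem_univ k)))]
    simp [hw]
  have r3 : ∀ k, Integrable (r k) (mix P w) := fun k => Measure.integrable_toReal_rnDeriv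
  have r4 : (fun x => ∑ k, r k x) =ᵐ[mix P w] fun _ => 1 :=
    Integrable.ae_eq_of_forall_setIntegral_eq _ _ (integrable_finsetSum _ fun k _ => r3 k)
      (integrable_const 1) fun s hs _ => by
        rw [integral_finsetSum _ fun k _ => (r3 k).integrableOn]
        simp only [integral_const, MeasurableSet.univ, measureReal_restrict_apply, Set.univ_inter,
          smul_eq_mul, mul_one, mix_real P hw hs]
        refine sum_congr rfl fun k _ => ?_
        rw [← integral_indicator_one hs, ← r2, ← integral_indicator hs]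
        congr 1 with x
        by_cases h : x ∈ s <;> simp [h]
  refine ⟨fun k x => if ∑ j, r j x ≤ 1 then r k x else 0, fun k => ⟨(r1 k).ite (measurableSet_le
    (Finset.measurable_sum _ fun j _ => r1 j) measurable_const) measurable_const, fun x => ?_⟩,
    fun x => ?_, fun k g => (integral_congr_ae ?_).trans (r2 k g)⟩
  · dsimp only
    split_ifs with h
    · exact ⟨ENNReal.toReal_nonneg, (single_le_sum (f := fun j => r j x)
        (fun _ _ => ENNReal.toReal_nonneg) (mem_univ k)).trans h⟩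
    · simp
  · by_cases h : ∑ j, r j x ≤ 1 <;> simp [h]
  · filter_upwards [r4] with x hx
    rw [if_pos hx.le]

end Pool.Agent.Lead.Pac
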