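import Pool.Agent.Lead.Pac1

set_option autoImplicit false

namespace Pool.Agent.Lead.Pac
open MeasureTheory ProbabilityTheory Set Finset Filter Topology

variable {X : Type*} [MeasurableSpace X]

/-- `d_P(f,g) = ∫ |f - g| dP` -/
noncomputable def dP (P : Measure X) (f g : X → ℝ) : ℝ := ∫ x, |f x - g x| ∂P

theorem U.abs {f g : X → ℝ} (h : U f) (h' : U g) : U fun x => |f x - g x| :=
  ⟨(h.1.sub h'.1).abs, fun x => ⟨abs_nonneg _, by
    have := h.2 x; have := h'.2 x; rw [abs_le]; constructor <;> linarith⟩⟩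

theorem dP_tri (P : Measure X) [IsProbabilityMeasure P] {f g k : X → ℝ} (hf : U f) (hg : U g)
    (hk : U k) : dP P f g ≤ dP P f k + dP P g k := by
  rw [dP, dP, dP, ← integral_add ((hf.abs hk).int _) ((hg.abs hk).int _)]
  exact integral_mono ((hf.abs hg).int _) (((hf.abs hk).int _).add ((hg.abs hk).int _)) fun x =>
    (abs_sub_le _ (k x) _).trans_eq (by simp [abs_sub_comm (k x)])

variable {N : ℕ} (P : Fin N → Measure X) [∀ k, IsProbabilityMeasure (P k)]

theorem badmass {w : Fin N → ℝ} (hw : ∀ k, 0 ≤ w k) {u : Fin N → X → ℝ} (h1 : ∀ k, U (u k))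
    (h2 : ∀ x, ∑ k, u k x ≤ 1)
    (h3 : ∀ k (g : X → ℝ), ∫ x, u k x * g x ∂(mix P w) = w k * ∫ x, g x ∂(P k))
    {Q : Measure X} [IsProbabilityMeasure Q] {δ τ : ℝ} (hQ : Cl δ Q (mix P w)) (t0 : 0 < τ)
    (t1 : τ ≤ 1 / 2) : ∃ S : Finset (Fin N), τ * ∑ k ∈ S, w k ≤ 2 * δ ∧ ∀ k ∉ S, 0 < w k ∧
      w k / 2 ≤ ∫ x, u k x ∂Q ∧
      ∀ g, U g → ∫ x, u k x * g x ∂Q ≤ (∫ x, u k x ∂Q) * (∫ x, g x ∂(P k) + 4 * τ) := by
  classical
  have key : ∀ (μ ν : Measure X) [IsFiniteMeasure μ] [IsFiniteMeasure ν], Cl δ μ ν →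
      τ * ∑ k ∈ univ.filter (fun k => ∃ g, U g ∧
        τ * w k < ∫ x, u k x * g x ∂μ - ∫ x, u k x * g x ∂ν), w k ≤ δ := fun μ ν _ _ h => by
    have : ∀ k, ∃ g, U g ∧ ((∃ g, U g ∧ τ * w k < ∫ x, u k x * g x ∂μ - ∫ x, u k x * g x ∂ν) →
        τ * w k < ∫ x, u k x * g x ∂μ - ∫ x, u k x * g x ∂ν) := fun k => by
      by_cases e : ∃ g, U g ∧ τ * w k < ∫ x, u k x * g x ∂μ - ∫ x, u k x * g x ∂ν
      · exact e.imp fun g hg => ⟨hg.1, fun _ => hg.2⟩
      · exact ⟨_, U.one, fun h => (e h).elim⟩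
    choose g g1 g2 using this
    have s : ∀ T : Finset (Fin N),
        ∑ k ∈ T, (∫ x, u k x * g k x ∂μ - ∫ x, u k x * g k x ∂ν) ≤ δ := fun T => by
      rw [sum_sub_distrib, ← integral_finsetSum _ fun k _ => ((h1 k).mul (g1 k)).int _,
        ← integral_finsetSum _ fun k _ => ((h1 k).mul (g1 k)).int _]
      refine h.int ⟨Finset.measurable_sum _ fun k _ => ((h1 k).mul (g1 k)).1, fun x =>
        ⟨sum_nonneg fun k _ => (((h1 k).mul (g1 k)).2 x).1, le_trans ?_ (h2 x)⟩⟩
      exact (sum_le_sum fun k _ => mul_le_of_le_one_right ((h1 k).2 x).1 ((g1 k).2 x).2).trans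
        (sum_le_sum_of_subset_of_nonneg (subset_univ _) fun k _ _ => ((h1 k).2 x).1)
    rw [mul_sum]
    exact (sum_le_sum fun k hk => (g2 k (mem_filter.1 hk).2).le).trans (s _)
  have k1 := key _ _ hQ
  have k2 := key _ _ hQ.symm
  obtain ⟨S1, e1⟩ : ∃ S, S = univ.filter (fun k => ∃ g, U g ∧
    τ * w k < ∫ x, u k x * g x ∂Q - ∫ x, u k x * g x ∂(mix P w)) := ⟨_, rfl⟩
  obtain ⟨S2, e2⟩ : ∃ S, S = univ.filter (fun k => ∃ g, U g ∧
    τ * w k < ∫ x, u k x * g x ∂(mix P w) - ∫ x, u k x * g x ∂Q) := ⟨_, rfl⟩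
  rw [← e1] at k1
  rw [← e2] at k2
  refine ⟨S1 ∪ S2 ∪ univ.filter (w · = 0), ?_, fun k hk => ?_⟩
  · have a := sum_union_inter (s₁ := S1 ∪ S2) (s₂ := univ.filter (w · = 0)) (f := w)
    have b := sum_union_inter (s₁ := S1) (s₂ := S2) (f := w)
    have c : ∀ T : Finset (Fin N), 0 ≤ ∑ k ∈ T, w k := fun T => sum_nonneg fun k _ => hw k
    have d : ∑ k ∈ univ.filter (w · = 0), w k = 0 := sum_eq_zero fun k hk => (mem_filter.1 hk).2
    have := c (S1 ∩ S2)
    have := c ((S1 ∪ S2) ∩ univ.filter (w · = 0))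
    nlinarith
  · simp only [e1, e2, Finset.mem_union, mem_filter, Finset.mem_univ, true_and, not_or, not_exists,
      not_and, not_lt, h3] at hk
    have w0 := (hw k).lt_of_ne' hk.2
    have a := hk.1.2 _ U.one
    simp only [mul_one, integral_const, probReal_univ, smul_eq_mul] at a
    refine ⟨w0, by nlinarith, fun g hg => ?_⟩
    have b := hk.1.1 g hg
    have c := hg.nn (P k)
    have d := hg.le (P k)
    have : w k * (∫ x, g x ∂(P k) + τ) ≤ (w k * (1 - τ)) * (∫ x, g x ∂(P k) + 4 * τ) := by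
      rw [mul_assoc]; exact mul_le_mul_of_nonneg_left (by nlinarith) w0.le
    have := mul_le_mul_of_nonneg_right (show w k * (1 - τ) ≤ ∫ x, u k x ∂Q by linarith)
      (show 0 ≤ ∫ x, g x ∂(P k) + 4 * τ by linarith)
    linarith

theorem core {ω : Type} [Fintype ω] (w : ω → Fin N → ℝ) (hw : ∀ a k, 0 ≤ w a k)
    (hw' : ∀ a, ∑ k, w a k = 1) {F : Set (X → ℝ)} (hF : ∀ f ∈ F, U f) {m : ℕ}
    (A : (Fin (m + 1) → X × ℝ) → F) {ε δ η : ℝ} (e0 : 0 ≤ ε) (d0 : 0 < δ) (h0 : 0 < η)
    (hA : ∀ k, ∀ f ∈ F, (Measure.pi fun _ => P k) {y | ε < dP (P k) f (A fun i => (y i, f (y i)))} ≤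
      ENNReal.ofReal (1 / 8)) :
    ∀ᶠ M in atTop, ∃ Bq : (Fin M → X × ℝ) → F, ∀ (Q : Measure X) [IsProbabilityMeasure Q],
      (∃ a, Cl δ Q (mix P (w a))) → ∀ f ∈ F, (Measure.pi fun _ => Q)
        {x | 2 * ε + (640 * (m + 1) + 5) * δ < dP Q f (Bq fun i => (x i, f (x i)))} ≤
          ENNReal.ofReal η := by
  classical
  choose u u1 u2 u3 using fun a => weights P (hw a)
  have : ∀ a a', ∃ S, MeasurableSet S ∧ (|(mix P (w a)).real S - (mix P (w a')).real S| ≤ 4 * δ →
      Cl (4 * δ) (mix P (w a)) (mix P (w a'))) := fun a a' => by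
    by_cases h : Cl (4 * δ) (mix P (w a)) (mix P (w a'))
    · exact ⟨∅, .empty, fun _ => h⟩
    · obtain ⟨S, h1, h2⟩ : ∃ S, MeasurableSet S ∧
        ¬ |(mix P (w a)).real S - (mix P (w a')).real S| ≤ 4 * δ := by simpa [Cl] using h
      exact ⟨S, h1, fun h => (h2 h).elim⟩
  choose S S1 S2 using this
  obtain ⟨t, t0, t1, t2⟩ : ∃ t, 0 < t ∧ t ≤ δ ∧ ∀ a k, 0 < w a k → t ≤ (w a k / 2) ^ (m + 1) / 8 := by
    refine Eventually.exists (f := 𝓝[>] 0) (.and self_mem_nhdsWithin (.and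
      ((eventually_le_nhds d0).filter_mono nhdsWithin_le_nhds) (eventually_all.2 fun a =>
        eventually_all.2 fun k => eventually_imp_distrib_left.2 fun h =>
          (eventually_le_nhds (by positivity)).filter_mono nhdsWithin_le_nhds)))
  obtain ⟨B, hB⟩ := exists_nat_gt (Fintype.card ((ω × ω) ⊕ (ω × Fin N × Bool)) / (η * t ^ 2))
  have B0 : (0 : ℝ) < B := lt_of_le_of_lt (by positivity) hB
  filter_upwards [eventually_ge_atTop (B * (m + 1))] with M hM
  obtain ⟨e⟩ : Nonempty (Fin B × Fin (m + 1) ↪ Fin M) :=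
    Function.Embedding.nonempty_of_card_le (by simpa using hM)
  let K : (Fin M → X × ℝ) → ω → (X → ℝ) → Fin N → Prop := fun z a h k =>
    (∑ b, ∏ j, u a k (z (e (b, j))).1) / 2 < ∑ b, if dP (P k) h (A fun j => z (e (b, j))) ≤ ε then
      ∏ j, u a k (z (e (b, j))).1 else 0
  let C1 : (Fin M → X × ℝ) → ω → Prop := fun z a => ∀ a' a'',
    |∑ b, (S a' a'').indicator 1 (z (e (b, 0))).1 - B * (mix P (w a)).real (S a' a'')| ≤ B * (2 * δ)
  let V : (Fin M → X × ℝ) → ω → (X → ℝ) → Fin N → ℝ := fun z a h k =>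
    if K z a h k then 0 else w a k
  let C2 : (Fin M → X × ℝ) → ω → (X → ℝ) → Prop := fun z a h =>
    ∑ k, V z a h k ≤ 320 * (m + 1) * δ
  refine ⟨fun z => if H : ∃ h : F, ∃ a, C1 z a ∧ C2 z a h then H.choose else
    A fun j => z (e (⟨0, by exact_mod_cast B0⟩, j)), fun Q _ ⟨a0, ha0⟩ f hf => ?_⟩
  let H : Fin N → Set (Fin (m + 1) → X) := fun k => toMeasurable (Measure.pi fun _ => P k)
    {y | ε < dP (P k) f (A fun i => (y i, f (y i)))}
  have hH : ∀ k, U ((H k).indicator 1) := fun k => .ind (measurableSet_toMeasurable _ _)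
  let φ : (ω × ω) ⊕ (ω × Fin N × Bool) → (Fin (m + 1) → X) → ℝ :=
    Sum.elim (fun p y => (S p.1 p.2).indicator 1 (y 0)) fun p y => (∏ j, u p.1 p.2.1 (y j)) *
      (bif p.2.2 then (H p.2.1).indicator 1 y else 1)
  have hφ : ∀ i, U (φ i) := by
    rintro (p | ⟨a, k, _ | _⟩)
    · exact (U.ind (S1 _ _)).comp (measurable_pi_apply 0)
    · exact (u1 a k).prod.mul U.one
    · exact (u1 a k).prod.mul (hH k)
  have W := wlln (Measure.pi fun _ => Q) φ hφ (B := B) (by exact_mod_cast B0) t0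
  rw [← (blocks e Q).map_eq] at W
  refine ((measure_mono fun x hx => ?_).trans ((Measure.le_map_apply
    (blocks e Q).measurable.aemeasurable _).trans W)).trans (ENNReal.ofReal_le_ofReal ?_)
  swap
  · rw [div_lt_iff₀ (by positivity)] at hB
    rw [div_le_iff₀ (by positivity)]
    linarith
  by_contra G
  simp only [Set.mem_preimage, Set.mem_iUnion, mem_setOf_eq, not_exists, not_le] at G
  obtain ⟨z, hz⟩ : ∃ z, z = fun i => (x i, f (x i)) := ⟨_, rfl⟩
  have c0 : C1 z a0 := fun a' a'' => by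
    have a := G (.inl (a', a''))
    simp only [φ, Sum.elim_inl] at a
    rw [integral_comp_eval (μ := fun _ : Fin (m + 1) => Q)
      (U.ind (S1 a' a'')).1.aestronglyMeasurable, integral_indicator_one (S1 _ _)] at a
    have b := mul_le_mul_of_nonneg_left (ha0 _ (S1 a' a'')) B0.le
    rw [← abs_of_pos B0, ← abs_mul, abs_of_pos B0, mul_sub] at b
    have := mul_le_mul_of_nonneg_left t1 B0.le
    subst hz
    exact (abs_sub_le _ _ _).trans ((add_le_add a.le b).trans (by linarith))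
  have c1 : ∀ a, C1 z a → Cl (δ + 4 * δ) Q (mix P (w a)) := fun a h => by
    refine ha0.trans (S2 a0 a (le_of_mul_le_mul_left ?_ B0))
    have a1 := abs_le.1 (h a0 a)
    have a2 := abs_le.1 (c0 a0 a)
    rw [← abs_of_pos B0, ← abs_mul, abs_of_pos B0, mul_sub, abs_le]
    constructor <;> linarith
  have c2 : ∀ a, C1 z a → C2 z a f := fun a h => by
    have m0 : (0 : ℝ) < m + 1 := by positivity
    obtain ⟨T, T1, T2⟩ := badmass P (hw a) (u1 a) (u2 a) (u3 a) (c1 a h)
      (τ := 1 / (32 * (m + 1))) (by positivity) (by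
        rw [div_le_div_iff₀ (by positivity) (by positivity)]; linarith [m.cast_nonneg (α := ℝ)])
    rw [div_mul_eq_mul_div, div_le_iff₀ (by positivity)] at T1
    refine le_trans (b := ∑ k ∈ T, w a k) ?_ (by linarith)
    rw [← sum_filter_add_sum_filter_not univ (· ∈ T), filter_mem_eq_inter, Finset.univ_inter,
      sum_eq_zero (s := univ.filter _), add_zero]
    · exact sum_le_sum fun k _ => by simp only [V]; split_ifs; exacts [hw a k, le_rfl]
    intro k hk
    obtain ⟨k1, k2, k3⟩ := T2 k (mem_filter.1 hk).2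
    have a1 := abs_lt.1 (G (.inr (a, k, false)))
    have a2 := abs_lt.1 (G (.inr (a, k, true)))
    have a3 := prod_le (u1 a k) k3 (m + 1) _ (hH k)
    simp only [φ, Sum.elim_inr, cond_false, cond_true, mul_one, integral_fintype_prod_eq_pow,
      Fintype.card_fin] at a1 a2
    have a4 : ∫ y, (H k).indicator 1 y ∂(Measure.pi fun _ => P k) ≤ (1 / 8 : ℝ) := by
      rw [integral_indicator_one (measurableSet_toMeasurable _ _), Measure.real, measure_toMeasurable]
      exact ENNReal.toReal_le_of_le_ofReal (by norm_num) (hA k f hf)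
    have a5 := (t2 a k k1).trans (div_le_div_of_nonneg_right
      (pow_le_pow_left₀ (by positivity) k2 (m + 1)) (by norm_num))
    have a6 : ((m + 1 : ℕ) : ℝ) * (4 * (1 / (32 * (m + 1)))) = 1 / 8 := by push_cast; field_simp; norm_num
    rw [a6] at a3
    have a7 := a3.trans (mul_le_mul_of_nonneg_left (add_le_add_left a4 _)
      (pow_nonneg ((u1 a k).nn Q) _))
    have a8 := mul_le_mul_of_nonneg_left a7 B0.le
    have a9 := mul_le_mul_of_nonneg_left a5 B0.le
    have a10 := mul_pos B0 t0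
    have a11 : ∑ b, ∏ j, u a k (x (e (b, j))) - ∑ b, (∏ j, u a k (x (e (b, j)))) *
        (H k).indicator 1 (fun j => x (e (b, j))) ≤ ∑ b, if dP (P k) f (A fun j =>
          (x (e (b, j)), f (x (e (b, j))))) ≤ ε then ∏ j, u a k (x (e (b, j))) else 0 := by
      rw [← sum_sub_distrib]
      refine sum_le_sum fun b _ => ?_
      split_ifs with h
      · exact sub_le_self _ (((u1 a k).prod.mul (hH k)).2 fun j => x (e (b, j))).1
      · rw [Set.indicator_of_mem (s := H k) (subset_toMeasurable _ _ (not_le.1 h))]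
        simp
    refine if_pos ?_
    subst hz
    simp only [K]
    linarith
  have ex : ∃ h : F, ∃ a, C1 z a ∧ C2 z a h := ⟨⟨f, hf⟩, a0, c0, c2 a0 c0⟩
  simp only [mem_setOf_eq, ← hz, dif_pos ex] at hx
  obtain ⟨a, h1, h2⟩ := ex.choose_spec
  generalize ex.choose = h at hx h2
  have h3 := c2 a h1
  have fh := (hF f hf).abs (hF h h.2)
  have h4 := (c1 a h1).int fh
  rw [mix_int P (hw a) fh] at h4
  have h5 : ∑ k, w a k * dP (P k) f h ≤ ∑ k, (w a k * (2 * ε) + V z a f k + V z a h k) :=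
      sum_le_sum fun k _ => by
    simp only [V]
    have b1 := mul_le_of_le_one_right (hw a k) (fh.le (P k))
    have b2 := mul_nonneg (hw a k) e0
    have b3 := hw a k
    split_ifs with k1 k2
    · obtain ⟨b, b4, b5⟩ : ∃ b, dP (P k) f (A fun j => z (e (b, j))) ≤ ε ∧
          dP (P k) h (A fun j => z (e (b, j))) ≤ ε := by
        by_contra! n
        have := sum_le_sum (s := univ) (f := fun b => (if dP (P k) f (A fun j => z (e (b, j))) ≤ ε
          then ∏ j, u a k (z (e (b, j))).1 else 0) + if dP (P k) h (A fun j => z (e (b, j))) ≤ ε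
          then ∏ j, u a k (z (e (b, j))).1 else 0) (g := fun b => ∏ j, u a k (z (e (b, j))).1)
          fun b _ => by
            have := ((u1 a k).prod.2 fun j => (z (e (b, j))).1).1
            split_ifs with b4 b5
            exacts [absurd b5 (n b b4).not_ge, by simp, by simp, by simpa using this]
        rw [sum_add_distrib] at this
        simp only [K] at k1 k2
        linarith
      have := dP_tri (P k) (hF f hf) (hF h h.2) (hF _ (A fun j => z (e (b, j))).2)
      nlinarith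
    all_goals unfold dP; linarith
  simp only [sum_add_distrib, ← sum_mul, hw', C2] at h5 h2 h3
  unfold dP at hx h5
  linarith

end Pool.Agent.Lead.Pac
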