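import Pool.Agent.Lead.Retr
import Pool.Agent.Lead.PsiG

set_option autoImplicit false

open Set Topology Filter

namespace Pool.Agent.Perf

open PsiG

abbrev N : Type := ℕ × Finset ℕ
abbrev I : Type := ℕ → Set N

def enc : I ↪ Set ℕ :=
  ⟨fun S => Encodable.encode '' {p : ℕ × N | p.2 ∈ S p.1}, fun S S' h => by
    have h1 := (image_injective.2 (Encodable.encode_injective (α := ℕ × N))) h
    funext n
    ext m
    exact Set.ext_iff.1 h1 (n, m)⟩

noncomputable def B : I → Set N := (exists_ad I enc).choose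
theorem B_inf (x : I) : (B x).Infinite := (exists_ad I enc).choose_spec.1 x
theorem B_ad (x y : I) (h : x ≠ y) : (B x ∩ B y).Finite := (exists_ad I enc).choose_spec.2 x y h

def Tt (x : I) : Prop := ∀ n, (B x \ x n).Finite

def Fam (j : I × Bool) : Set (N × Bool) :=
  {p | p.1 ∈ B j.1 ∧ (j.2 = true ↔ (p.2 = true ∧ Tt j.1))}

theorem fin_prod {A : Set N} (hA : A.Finite) : {p : N × Bool | p.1 ∈ A}.Finite := by
  have : {p : N × Bool | p.1 ∈ A} = A ×ˢ (univ : Set Bool) := by ext p; simp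
  rw [this]; exact hA.prod finite_univ

theorem Fam_ad (j j' : I × Bool) (h : j ≠ j') : (Fam j ∩ Fam j').Finite := by
  by_cases hx : j.1 = j'.1
  · have hb : j.2 ≠ j'.2 := fun hb => h (Prod.ext hx hb)
    refine finite_empty.subset fun p hp => hb ?_
    have h1 := hp.1.2
    have h2 := hp.2.2
    rw [hx] at h1
    have := h1.trans h2.symm
    cases hj : j.2 <;> cases hj' : j'.2 <;> simp_all
  · exact (fin_prod (B_ad _ _ hx)).subset fun p hp => ⟨hp.1.1, hp.2.1⟩

abbrev Z : Type := Psi Fam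

instance : T35Space Z := t35 Fam Fam_ad

def rho0 : Z → Z := Sum.elim (fun p => pt Fam (p.1, false)) (fun j => lim Fam (j.1, false))

theorem rho0_pt (p : N × Bool) : rho0 (pt Fam p) = pt Fam (p.1, false) := rfl
theorem rho0_lim (j : I × Bool) : rho0 (lim Fam j) = lim Fam (j.1, false) := rfl

theorem cont_rho0 : Continuous rho0 := by
  refine ⟨fun U hU => ?_⟩
  rw [PsiG.isOpen_iff] at hU ⊢
  intro j hj
  have h1 := hU (j.1, false) hj
  refine (fin_prod (h1.image Prod.fst)).subset fun p hp => ⟨(p.1, false), ⟨⟨hp.1.1, by simp⟩, hp.2⟩, rfl⟩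

def rho : C(Z, Z) := ⟨rho0, cont_rho0⟩

theorem rho_idem (z : Z) : rho (rho z) = rho z := by
  rcases cases Fam z with ⟨m, rfl⟩ | ⟨j, rfl⟩ <;> rfl

def z0 : Z := lim Fam (fun _ => ∅, false)

theorem qq_ne (x : I) : Retr.qq rho (lim Fam (x, true)) ≠ Retr.qq rho (rho z0) := by
  classical
  have hV : IsClopen (nb Fam (x, true) univ) := clopen_nb Fam Fam_ad _ _ (by simp)
  let f : C(Z, ℝ) := ⟨fun z => if z ∈ nb Fam (x, true) univ then 1 else 0, by
    refine Continuous.if ?_ continuous_const continuous_const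
    intro a ha
    rw [show {z | z ∈ nb Fam (x, true) univ} = nb Fam (x, true) univ from rfl,
      hV.frontier_eq] at ha
    exact ha.elim⟩
  have hf : ∀ z, f (rho z) = 0 := by
    intro z
    have : rho z ∉ nb Fam (x, true) univ := by
      rcases cases Fam z with ⟨m, rfl⟩ | ⟨j, rfl⟩
      · show pt Fam (m.1, false) ∉ _
        rw [pt_mem_nb]
        rintro ⟨⟨_, h⟩, _⟩
        simp at h
      · show lim Fam (j.1, false) ∉ _
        rw [lim_mem_nb]
        intro h
        simpa using congrArg Prod.snd h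
    show (if rho z ∈ _ then (1 : ℝ) else 0) = 0
    rw [if_neg this]
  intro h
  have h1 : f (lim Fam (x, true)) = f (rho z0) := congrFun (congrArg Subtype.val h) ⟨f, hf⟩
  rw [hf] at h1
  have h2 : f (lim Fam (x, true)) = 1 := by
    show (if lim Fam (x, true) ∈ _ then (1 : ℝ) else 0) = 1
    rw [if_pos ((lim_mem_nb _ _ _ _).2 rfl)]
  rw [h2] at h1
  exact one_ne_zero h1

theorem not_gdelta : ¬ IsGδ ({Retr.qq rho (rho z0)} : Set (Retr.P rho)) := by
  intro h
  obtain ⟨U, hU, hUe⟩ := isGδ_iff_eq_iInter_nat.1 h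
  have hmem : ∀ n, Retr.qq rho (rho z0) ∈ U n := fun n => by
    have : Retr.qq rho (rho z0) ∈ ⋂ n, U n := hUe ▸ rfl
    exact mem_iInter.1 this n
  have hV : ∀ n, ∃ C : Set (Retr.P rho), C ∈ 𝓝 (Retr.qq rho (rho z0)) ∧ IsClosed C ∧ C ⊆ U n :=
    fun n => exists_mem_nhds_isClosed_subset ((hU n).mem_nhds (hmem n))
  choose C hC hCc hCU using hV
  let x : I := fun n => {m | Retr.qq rho (pt Fam (m, true)) ∈ C n}
  by_cases hT : Tt x
  · have h1 : Retr.qq rho (lim Fam (x, true)) ∉ ⋂ n, U n := by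
      rw [← hUe]; exact qq_ne x
    obtain ⟨n, hn⟩ : ∃ n, Retr.qq rho (lim Fam (x, true)) ∉ U n := by
      simpa using h1
    have hcl : IsClosed (Retr.qq rho ⁻¹' C n) := (hCc n).preimage (Retr.qq rho).continuous
    have h2 := (isClosed_iff Fam _).1 hcl (x, true) fun h => hn (hCU n h)
    apply B_inf x
    refine ((hT n).union (h2.image Prod.fst)).subset fun m hm => ?_
    by_cases hmx : m ∈ x n
    · exact Or.inr ⟨(m, true), ⟨⟨hm, by simp [hT]⟩, hmx⟩, rfl⟩
    · exact Or.inl ⟨hm, hmx⟩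
  · apply hT
    intro n
    have hop : IsOpen (Retr.qq rho ⁻¹' interior (C n)) :=
      isOpen_interior.preimage (Retr.qq rho).continuous
    have h1 : lim Fam (x, false) ∈ Retr.qq rho ⁻¹' interior (C n) := by
      show Retr.qq rho (rho (lim Fam (x, false))) ∈ interior (C n)
      rw [Retr.qq_rho rho _ z0]
      exact mem_interior_iff_mem_nhds.2 (hC n)
    have h2 := (PsiG.isOpen_iff Fam _).1 hop _ h1
    refine (h2.image Prod.fst).subset fun m hm => ⟨(m, true), ⟨⟨hm.1, by simp [hT]⟩, fun h => hm.2 ?_⟩, rfl⟩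
    exact interior_subset (s := C n) h

theorem perfect_sum (s : Set (Z ⊕ Unit)) (hs : IsClosed s) : IsGδ s := by
  have h1 : IsGδ (Sum.inl ⁻¹' s : Set Z) := perfect Fam _ (hs.preimage continuous_inl)
  obtain ⟨U, hU, hUe⟩ := isGδ_iff_eq_iInter_nat.1 h1
  refine isGδ_iff_eq_iInter_nat.2 ⟨fun n => Sum.inl '' U n ∪ Sum.inr '' (Sum.inr ⁻¹' s), fun n => ?_, ?_⟩
  · exact (isOpenMap_inl _ (hU n)).union (isOpenMap_inr _ (isOpen_discrete _))
  · ext z
    rcases z with z | u
    · have : Sum.inl z ∈ s ↔ z ∈ ⋂ n, U n := by rw [← hUe]; rfl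
      simp [this]
    · cases u
      constructor
      · intro h
        exact mem_iInter.2 fun n => Or.inr ⟨(), h, rfl⟩
      · intro h
        rcases mem_iInter.1 h 0 with ⟨_, _, h'⟩ | ⟨_, h1, _⟩
        · cases h'
        · exact h1

theorem not_perfect : ¬ ∀ t : Set (Retr.K rho ⊕ Retr.P rho), IsClosed t → IsGδ t := by
  intro h
  have h1 := h {Sum.inr (Retr.qq rho (rho z0))} isClosed_singleton
  apply not_gdelta
  have h2 := h1.preimage (continuous_inr (X := Retr.K rho) (Y := Retr.P rho))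
  convert h2 using 1
  ext y; simp

end Pool.Agent.Perf
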