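import Mathlib

namespace Pool.Agent.Lead.PiW

open Set Topology Filter Metric

abbrev Tor : Type := UnitAddCircle × UnitAddCircle

noncomputable def wind (t : ℝ) : Tor := ((t : UnitAddCircle), ((√2 * t : ℝ) : UnitAddCircle))

theorem wind_cont : Continuous wind :=
  (AddCircle.continuous_mk' 1).prodMk
    ((AddCircle.continuous_mk' 1).comp (continuous_const.mul continuous_id))

theorem wind_add (s t : ℝ) : wind (s + t) = wind s + wind t := by
  simp [wind, mul_add]

theorem wind_nat (n : ℕ) : wind n = n • wind 1 := by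
  induction n with
  | zero => simp [wind]
  | succ n ih => rw [Nat.cast_succ, wind_add, ih, succ_nsmul]

theorem wind_inj : Function.Injective wind := by
  intro s t h
  have h1 : ((s - t : ℝ) : UnitAddCircle) = 0 := by
    rw [AddCircle.coe_sub, sub_eq_zero]; exact congrArg Prod.fst h
  have h2 : ((√2 * s - √2 * t : ℝ) : UnitAddCircle) = 0 := by
    rw [AddCircle.coe_sub, sub_eq_zero]; exact congrArg Prod.snd h
  obtain ⟨a, ha⟩ := (AddCircle.coe_eq_zero_iff _).1 h1
  obtain ⟨b, hb⟩ := (AddCircle.coe_eq_zero_iff _).1 h2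
  simp only [zsmul_eq_mul, mul_one] at ha hb
  by_contra hne
  have ha0 : (a : ℝ) ≠ 0 := by rw [ha]; exact sub_ne_zero.2 hne
  refine irrational_sqrt_two ⟨(b : ℚ) / (a : ℚ), ?_⟩
  push_cast
  rw [div_eq_iff ha0, hb, ha]
  ring

theorem wind_rec (t : ℝ) (O : Set Tor) (hO : IsOpen O) (ht : wind t ∈ O) (N : ℕ) :
    ∃ s, wind s ∈ O ∧ wind s ∉ wind '' Icc (-(N : ℝ)) N := by
  have h := mapClusterPt_zero_atTop_nsmul (wind 1)
  have h1 : (fun x => wind t + x) ⁻¹' O ∈ 𝓝 (0 : Tor) :=
    (hO.preimage (continuous_const.add continuous_id)).mem_nhds (by simpa using ht)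
  have h2 : ∀ᶠ n : ℕ in atTop, (N : ℝ) - t < n :=
    tendsto_natCast_atTop_atTop.eventually (eventually_gt_atTop _)
  obtain ⟨n, h3, h4⟩ := ((mapClusterPt_iff_frequently.1 h _ h1).and_eventually h2).exists
  refine ⟨t + n, by rwa [wind_add, wind_nat], ?_⟩
  rintro ⟨s, hs, hs'⟩
  have := wind_inj hs'
  linarith [hs.2]

theorem cond {Z : Type} [TopologicalSpace Z] (d : ℕ → Z) (hd : DenseRange d) (p : Z → ℝ)
    (hp : Continuous p) (hp' : Function.Surjective p)
    (hsep : ∀ z w : Z, z ≠ w → ∃ h : Z → ℝ, Continuous h ∧ h z ≠ h w) :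
    ∃ (Y : Type) (τ : TopologicalSpace Y), T35Space Y ∧ ∃ g : Z → Y, Function.Bijective g ∧
      Continuous g ∧ ∃ B : Set (Set Y), B.Countable ∧ (∀ P ∈ B, IsOpen P ∧ P.Nonempty) ∧
        ∀ U : Set Y, IsOpen U → U.Nonempty → ∃ P ∈ B, P ⊆ U := by
  classical
  let u : Z → Tor := fun z => wind (p z)
  have hu : Continuous u := wind_cont.comp hp
  let e : ℕ → Z := fun n => d n.unpair.1
  obtain ⟨c, hc0, hc⟩ : ∃ c : ℕ → Z × ℝ, (∀ n, 0 < (c n).2 ∧
      ball (u (c n).1) (2 * (c n).2) ⊆ ball (u (e n)) (1 / ((n.unpair.2 : ℝ) + 1)) ∧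
      Disjoint (ball (u (c n).1) (2 * (c n).2)) (wind '' Icc (-(n : ℝ)) n)) ∧
      ∀ m n, m < n → u (e n) ∉ closedBall (u (c m).1) (c m).2 →
        Disjoint (ball (u (c n).1) (2 * (c n).2)) (closedBall (u (c m).1) (c m).2) := by
    have key : ∀ (n : ℕ) (c : ℕ → Z × ℝ), ∃ x : Z × ℝ, (0 < x.2 ∧
        ball (u x.1) (2 * x.2) ⊆ ball (u (e n)) (1 / ((n.unpair.2 : ℝ) + 1)) ∧
        Disjoint (ball (u x.1) (2 * x.2)) (wind '' Icc (-(n : ℝ)) n)) ∧
        ∀ m < n, u (e n) ∉ closedBall (u (c m).1) (c m).2 →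
          Disjoint (ball (u x.1) (2 * x.2)) (closedBall (u (c m).1) (c m).2) := by
      intro n c
      let O : Set Tor := ball (u (e n)) (1 / ((n.unpair.2 : ℝ) + 1)) ∩
        ⋂ m ∈ (Finset.range n).filter fun m => u (e n) ∉ closedBall (u (c m).1) (c m).2,
          (closedBall (u (c m).1) (c m).2)ᶜ
      have hO : IsOpen O := isOpen_ball.inter
        (isOpen_biInter_finset fun m _ => isClosed_closedBall.isOpen_compl)
      obtain ⟨s, h1, h2⟩ := wind_rec (p (e n)) O hO ⟨mem_ball_self (by positivity),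
        mem_iInter₂.2 fun m hm => (Finset.mem_filter.1 hm).2⟩ n
      obtain ⟨z, rfl⟩ := hp' s
      obtain ⟨r, hr, h3⟩ := Metric.isOpen_iff.1 (hO.inter
        (isCompact_Icc.image wind_cont).isClosed.isOpen_compl) _ ⟨h1, h2⟩
      have h4 : 2 * (r / 2) = r := by ring
      refine ⟨(z, r / 2), ⟨half_pos hr, ?_, ?_⟩, fun m hm h => ?_⟩ <;> simp only [h4]
      · exact fun x hx => (h3 hx).1.1
      · exact disjoint_left.2 fun x hx => (h3 hx).2
      · exact disjoint_left.2 fun x hx => mem_iInter₂.1 (h3 hx).1.2 m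
          (Finset.mem_filter.2 ⟨Finset.mem_range.2 hm, h⟩)
    choose φ hφ using key
    let c : ℕ → Z × ℝ := fun n => Nat.strongRec
      (fun n ih => φ n fun m => if h : m < n then ih m h else (d 0, 0)) n
    have hc : ∀ n, c n = φ n fun m => if m < n then c m else (d 0, 0) := fun n => by
      simp only [c]
      rw [Nat.strongRec_eq]
      simp only [dite_eq_ite]
    refine ⟨c, fun n => by rw [hc n]; exact (hφ n _).1, fun m n h => ?_⟩
    have := (hφ n fun m => if m < n then c m else (d 0, 0)).2 m h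
    rw [← hc n] at this
    simpa only [if_pos h] using this
  let lam : ℕ → Z → ℝ := fun n z => max 0 (min 1 (2 - dist (u z) (u (c n).1) / (c n).2))
  have hl : ∀ n, Continuous (lam n) := fun n => continuous_const.max (continuous_const.min
    (continuous_const.sub ((hu.dist continuous_const).div_const _)))
  have hl1 : ∀ n z, u z ∈ closedBall (u (c n).1) (c n).2 → lam n z = 1 := by
    intro n z h
    have : dist (u z) (u (c n).1) / (c n).2 ≤ 1 := (div_le_one (hc0 n).1).2 h
    simp only [lam]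
    rw [min_eq_left (by linarith), max_eq_right zero_le_one]
  have hl0 : ∀ n z, u z ∉ ball (u (c n).1) (2 * (c n).2) → lam n z = 0 := by
    intro n z h
    have : 2 ≤ dist (u z) (u (c n).1) / (c n).2 := (le_div_iff₀ (hc0 n).1).2 (not_lt.1 h)
    exact max_eq_left (min_le_of_right_le (by linarith))
  have hl0' : ∀ (n : ℕ) z, |p z| ≤ n → lam n z = 0 := fun n z h =>
    hl0 n z fun h' => disjoint_left.1 (hc0 n).2.2 h' ⟨p z, abs_le.1 h, rfl⟩
  let A := {h : Z → ℝ // Continuous h} × ℕ
  let G : A → ℕ → Z → ℝ := fun a n => Nat.rec a.1.1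
    (fun n g z => if n < a.2 then g z else (1 - lam n z) * g z + lam n z * g (e n)) n
  have hG : ∀ a n z, G a (n + 1) z =
      if n < a.2 then G a n z else (1 - lam n z) * G a n z + lam n z * G a n (e n) :=
    fun a n z => rfl
  have hGc : ∀ a n, Continuous (G a n) := by
    intro a n
    induction n with
    | zero => exact a.1.2
    | succ n ih =>
      show Continuous fun z => G a (n + 1) z
      simp only [hG]
      split_ifs
      · exact ih
      · exact ((continuous_const.sub (hl n)).mul ih).add ((hl n).mul continuous_const)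
  have hst : ∀ a z (n : ℕ), |p z| ≤ n → ∀ m, n ≤ m → G a m z = G a n z := by
    intro a z n h m hm
    induction m, hm using Nat.le_induction with
    | base => rfl
    | succ m hm ih =>
      rw [hG, hl0' m z (h.trans (by exact_mod_cast hm)), ih]
      simp
  let g : A → Z → ℝ := fun a z => G a ⌈|p z|⌉₊ z
  have hg : ∀ a z (n : ℕ), |p z| ≤ n → g a z = G a n z := fun a z n h =>
    (hst a z _ (Nat.le_ceil _) n (Nat.ceil_le.2 h)).symm
  have hgc : ∀ a, Continuous (g a) := by
    intro a
    rw [continuous_iff_continuousAt]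
    intro z
    obtain ⟨n, hn⟩ := exists_nat_gt |p z|
    refine (hGc a n).continuousAt.congr ?_
    filter_upwards [(isOpen_lt hp.abs continuous_const).mem_nhds hn] with w hw
      using (hg a w n (le_of_lt hw)).symm
  have hlow : ∀ (a : A) n, n ≤ a.2 → G a n = a.1.1 := by
    intro a n hn
    induction n with
    | zero => rfl
    | succ n ih =>
      funext z
      rw [hG, if_pos (Nat.lt_of_succ_le hn), ih (Nat.le_of_succ_le hn)]
  have hcon : ∀ (a : A) n, a.2 ≤ n → ∀ m, n + 1 ≤ m → ∀ z,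
      u z ∈ closedBall (u (c n).1) (c n).2 → G a m z = G a n (e n) := by
    intro a n hn m hm
    induction m, hm using Nat.le_induction with
    | base =>
      intro z hz
      rw [hG, if_neg (not_lt.2 hn), hl1 n z hz]
      simp
    | succ m hm ih =>
      intro z hz
      rw [hG, if_neg (by omega), ih z hz]
      by_cases h : u (e m) ∈ closedBall (u (c n).1) (c n).2
      · rw [ih _ h]; ring
      · rw [hl0 m z fun h' => disjoint_left.1 (hc n m hm h) h' hz]
        simp
  let Φ : Z → Tor × (A → ℝ) := fun z => (u z, fun a => g a z)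
  have hΦ : Continuous Φ := hu.prodMk (continuous_pi hgc)
  have hinj : Function.Injective Φ := by
    intro z w h
    by_contra hne
    obtain ⟨f, hf, hf'⟩ := hsep z w hne
    obtain ⟨n, hn⟩ := exists_nat_ge (max |p z| |p w|)
    have := congrFun (congrArg Prod.snd h) (⟨f, hf⟩, n)
    simp only [Φ] at this
    rw [hg _ z n ((le_max_left _ _).trans hn), hg _ w n ((le_max_right _ _).trans hn),
      hlow _ n le_rfl] at this
    exact hf' this
  refine ⟨range Φ, inferInstance, inferInstance, rangeFactorization Φ,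
    ⟨fun z w h => hinj (congrArg Subtype.val h), rangeFactorization_surjective⟩,
    hΦ.subtype_mk _, range fun n => {y | y.1.1 ∈ ball (u (c n).1) (c n).2}, countable_range _,
    ?_, ?_⟩
  · rintro _ ⟨n, rfl⟩
    exact ⟨isOpen_ball.preimage (continuous_fst.comp continuous_subtype_val),
      ⟨_, mem_range_self (c n).1⟩, mem_ball_self (hc0 n).1⟩
  · rintro U hU ⟨⟨_, z, rfl⟩, hz⟩
    obtain ⟨O, hO, rfl⟩ := isOpen_induced_iff.1 hU
    obtain ⟨j, hj⟩ := hd.exists_mem_open (hO.preimage hΦ) ⟨z, hz⟩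
    obtain ⟨O1, O2, h1, h2, h3, h4, h5⟩ := isOpen_prod_iff.1 hO _ _ hj
    obtain ⟨r, hr, h6⟩ := Metric.isOpen_iff.1 h1 _ h3
    obtain ⟨I, v, h7, h8⟩ := isOpen_pi_iff.1 h2 _ h4
    have e1 : ∀ᶠ k : ℕ in atTop, 1 / ((k : ℝ) + 1) < r :=
      (tendsto_one_div_add_atTop_nhds_zero_nat (𝕜 := ℝ)).eventually (gt_mem_nhds hr)
    have e2 : ∀ᶠ k : ℕ in atTop, |p (d j)| ≤ k :=
      tendsto_natCast_atTop_atTop.eventually (eventually_ge_atTop _)
    obtain ⟨k, k1, k2, k3⟩ := (e1.and (e2.and (eventually_ge_atTop (I.sup Prod.snd)))).exists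
    have hk := Nat.right_le_pair j k
    refine ⟨_, mem_range_self (Nat.pair j k), ?_⟩
    rintro ⟨_, w, rfl⟩ hw
    have hw' : u w ∈ ball (u (c (Nat.pair j k)).1) (c (Nat.pair j k)).2 := hw
    have he : e (Nat.pair j k) = d j := by simp [e]
    refine h5 ⟨h6 ?_, h8 fun a ha => ?_⟩
    · have := (hc0 (Nat.pair j k)).2.1 (ball_subset_ball (by linarith [(hc0 (Nat.pair j k)).1]) hw')
      rw [he, Nat.unpair_pair] at this
      exact ball_subset_ball k1.le this
    · have : g a w = g a (d j) := by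
        rw [hg a w (max ⌈|p w|⌉₊ (Nat.pair j k + 1))
          ((Nat.le_ceil _).trans (by exact_mod_cast le_max_left _ _)),
          hcon a (Nat.pair j k) ((Finset.le_sup (f := Prod.snd) ha).trans (k3.trans hk)) _
            (le_max_right _ _) w (ball_subset_closedBall hw'), he,
          hg a (d j) (Nat.pair j k) (k2.trans (by exact_mod_cast hk))]
      show g a w ∈ v a
      rw [this]
      exact (h7 a ha).2

theorem sep_real : ∃ d : ℕ → ℝ → ℝ, DenseRange d := by
  have h1 : DenseRange fun f : C(ℝ, ℝ) => (f : ℝ → ℝ) := by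
    rw [DenseRange, dense_iff_inter_open]
    rintro O hO ⟨f, hf⟩
    obtain ⟨I, v, h1, h2⟩ := isOpen_pi_iff.1 hO _ hf
    refine ⟨_, h2 fun x hx => ?_, ⟨⟨fun x => (Lagrange.interpolate I id f).eval x,
      Polynomial.continuous _⟩, rfl⟩⟩
    have := Lagrange.eval_interpolate_at_node (s := I) (v := id) f (injOn_id _) hx
    simp only [id] at this
    simp only [ContinuousMap.coe_mk, this]
    exact (h1 x hx).2
  obtain ⟨d, hd⟩ := TopologicalSpace.exists_dense_seq C(ℝ, ℝ)
  exact ⟨_, h1.comp hd (continuous_pi fun x => continuous_eval_const x)⟩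

def DR : Type := ℝ

instance : TopologicalSpace DR := ⊥
instance : DiscreteTopology DR := ⟨rfl⟩

end Pool.Agent.Lead.PiW
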