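import Mathlib

set_option autoImplicit false
open Set Filter Topology

namespace Pool.Agent.Lead.PsiC

inductive G : Type
  | zero : G
  | node : (ℕ → G) → (ℕ → Finset ℕ) → Set ℝ → Option ℕ → G

noncomputable instance : DecidableEq G := Classical.decEq G

abbrev Rq := (ℕ → G) × (ℕ → Finset ℕ) × Set ℝ

def nd (r : Rq) (o : Option ℕ) : G := G.node r.1 r.2.1 r.2.2 o
noncomputable def S (r : Rq) (k : ℕ) : Finset G := (r.2.1 k).image r.1
def good (r : Rq) : Prop :=
  (∀ k, S r 0 ⊆ S r (k + 1)) ∧ ∀ k l, k ≠ l → ∀ g ∈ S r (k + 1), g ∈ S r (l + 1) → g ∈ S r 0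
noncomputable def up (r : Rq) (k : ℕ) : Finset G :=
  insert (nd r none) (insert (nd r (some k)) (S r (k + 1)))
noncomputable def zz (r : Rq) : Finset G := insert (nd r none) (S r 0)

inductive A : Finset G → Prop
  | empty : A ∅
  | step (r : Rq) (k : ℕ) (hA : ∀ k, A (S r k)) (hv : good r) : A (up r k)

def Z (s : Finset G) : Prop := ∃ r, (∀ k, A (S r k)) ∧ good r ∧ s = zz r
def Y (s : Finset G) : Prop := A s ∨ Z s

theorem nd_inj {r r' : Rq} {o o' : Option ℕ} (h : nd r o = nd r' o') : r = r' ∧ o = o' := by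
  obtain ⟨a, b, c⟩ := r
  obtain ⟨a', b', c'⟩ := r'
  simp only [nd, G.node.injEq] at h
  obtain ⟨rfl, rfl, rfl, rfl⟩ := h
  exact ⟨rfl, rfl⟩

theorem sub_ne (x : G) : ∀ f c i o n, f n = x → x ≠ G.node f c i o := by
  induction x with
  | zero => intro f c i o n _ h; cases h
  | node f' c' i' o' ih =>
    intro f c i o n h1 h2
    cases h2
    exact ih n f' c' i' o' n rfl h1

theorem nd_not (r : Rq) (o : Option ℕ) (k : ℕ) : nd r o ∉ S r k := by
  intro h
  obtain ⟨n, -, hn⟩ := Finset.mem_image.1 h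
  exact sub_ne _ r.1 r.2.1 r.2.2 o n rfl hn

theorem has_u {s : Finset G} (hs : A s) (r : Rq) (h : nd r none ∈ s) :
    ∃ k, nd r (some k) ∈ s := by
  induction hs with
  | empty => simp at h
  | step r' k _ _ ih =>
    simp only [up, Finset.mem_insert] at h ⊢
    rcases h with h | h | h
    · obtain ⟨rfl, -⟩ := nd_inj h
      exact ⟨k, Or.inr (Or.inl rfl)⟩
    · exact absurd (nd_inj h).2 (by simp)
    · obtain ⟨j, hj⟩ := ih _ h
      exact ⟨j, Or.inr (Or.inr hj)⟩

theorem gdelta {s : Finset G} (hs : Z s) (r : Rq) (h : nd r none ∈ s)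
    (h' : ∀ k, nd r (some k) ∉ s) : s = zz r := by
  obtain ⟨r', hA, -, rfl⟩ := hs
  rcases Finset.mem_insert.1 h with h | h
  · rw [(nd_inj h).1]
  · obtain ⟨k, hk⟩ := has_u (hA 0) r h
    exact absurd (Finset.mem_insert_of_mem hk) (h' k)

theorem u_not (r : Rq) (k : ℕ) : nd r (some k) ∉ zz r := by
  intro h
  rcases Finset.mem_insert.1 h with h | h
  · exact absurd (nd_inj h).2 (by simp)
  · exact nd_not r _ _ h

theorem conv {r : Rq} (hv : good r) (g : G) : {k | ¬ (g ∈ up r k ↔ g ∈ zz r)}.Finite := by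
  have h1 : {k | g = nd r (some k)}.Subsingleton := fun a ha b hb => by
    have := (nd_inj (ha.symm.trans hb)).2
    simpa using this
  have h2 : {k | g ∈ S r (k + 1) ∧ g ∉ S r 0}.Subsingleton := fun a ha b hb => by
    by_contra hab
    exact ha.2 (hv.2 a b hab g ha.1 hb.1)
  refine (h1.finite.union h2.finite).subset fun k hk => ?_
  by_contra hc
  simp only [mem_union, mem_ofPred_eq, not_or, not_and, not_not] at hc
  refine hk ?_
  simp only [up, zz, Finset.mem_insert]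
  constructor
  · rintro (h | h | h)
    · exact Or.inl h
    · exact absurd h hc.1
    · exact Or.inr (hc.2 h)
  · rintro (h | h)
    · exact Or.inl h
    · exact Or.inr (Or.inr (hv.1 k h))

def agr (F s s' : Finset G) : Prop := ∀ g ∈ F, (g ∈ s ↔ g ∈ s')

theorem conv' {r : Rq} (hv : good r) (F : Finset G) : ∀ᶠ k in atTop, agr F (up r k) (zz r) := by
  rw [← Nat.cofinite_eq_atTop]
  exact (eventually_all_finset F).2 fun g _ => conv hv g

theorem realize (σ : ℕ → Finset G) (T : Set G) (hT : T.Countable) :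
    ∃ r : Rq, (∀ k, S r k = σ k) ∧ ∀ o, nd r o ∉ T := by
  have hc : (insert G.zero (⋃ k, (σ k : Set G))).Countable :=
    (countable_iUnion fun k => (σ k).countable_toSet).insert _
  obtain ⟨f, hf⟩ := hc.exists_eq_range (insert_nonempty _ _)
  have : ∀ k, ∃ c : Finset ℕ, c.image f = σ k := by
    intro k
    have h1 : (σ k : Set G) ⊆ f '' univ := by
      rw [image_univ, ← hf]
      exact fun g hg => Or.inr (mem_iUnion.2 ⟨k, hg⟩)
    obtain ⟨c, -, hc⟩ := Finset.subset_set_image_iff.1 h1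
    exact ⟨c, hc⟩
  choose c hc using this
  let idx : G → Set ℝ := fun g => match g with
    | G.zero => ∅
    | G.node _ _ i _ => i
  have hu : ¬ (univ : Set (Set ℝ)).Countable := by
    intro h
    have : Countable (Set ℝ) := countable_univ_iff.1 h
    exact not_countable (α := ℝ) ((singleton_injective (α := ℝ)).countable)
  obtain ⟨i, -, hi⟩ := not_subset.1 fun h : (univ : Set (Set ℝ)) ⊆ idx '' T =>
    hu ((hT.image idx).mono h)
  exact ⟨(f, c, i), hc, fun o ho => hi ⟨_, ho, rfl⟩⟩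

theorem dens {y : Finset G} (hy : Y y) (F : Finset G) : ∃ z, Z z ∧ agr F y z := by
  rcases hy with hy | hy
  · obtain ⟨r, hr, hT⟩ := realize (fun _ => y) F F.countable_toSet
    refine ⟨zz r, ⟨r, fun k => by rw [hr]; exact hy, ⟨fun k => by rw [hr, hr], ?_⟩, rfl⟩, ?_⟩
    · intro k l _ g hg _
      rw [hr] at hg ⊢; exact hg
    · intro g hg
      simp only [zz, Finset.mem_insert, hr]
      refine ⟨Or.inr, fun h => h.resolve_left ?_⟩
      rintro rfl
      exact hT none hg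
  · exact ⟨y, hy, fun _ _ => Iff.rfl⟩

theorem limA {ι : Type} (𝒰 : Ultrafilter ι) (j : ℕ) : ∀ s : ι → Finset G,
    (∀ᶠ i in (𝒰 : Filter ι), A (s i) ∧ (s i).card ≤ j) →
    ∃ ρ, Y ρ ∧ ∀ g, ∀ᶠ i in (𝒰 : Filter ι), (g ∈ s i ↔ g ∈ ρ) := by
  induction j with
  | zero =>
    intro s hs
    refine ⟨∅, Or.inl A.empty, fun g => hs.mono fun i hi => ?_⟩
    rw [Finset.card_eq_zero.1 (Nat.le_zero.1 hi.2)]
  | succ j ih =>
    intro s hs
    by_cases h0 : ∀ᶠ i in (𝒰 : Filter ι), s i = ∅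
    · exact ⟨∅, Or.inl A.empty, fun g => h0.mono fun i hi => by rw [hi]⟩
    have h1 : ∀ᶠ i in (𝒰 : Filter ι), s i ≠ ∅ := Ultrafilter.eventually_not.2 h0
    have : ∀ i, ∃ p : Rq × ℕ, A (s i) → s i ≠ ∅ →
        (∀ k, A (S p.1 k)) ∧ good p.1 ∧ s i = up p.1 p.2 := by
      intro i
      by_cases hA : A (s i)
      · generalize s i = t at hA
        cases hA with
        | empty => exact ⟨((fun _ => G.zero, fun _ => ∅, ∅), 0), fun _ h => absurd rfl h⟩
        | step r k h1 h2 => exact ⟨(r, k), fun _ _ => ⟨h1, h2, rfl⟩⟩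
      · exact ⟨((fun _ => G.zero, fun _ => ∅, ∅), 0), fun h => absurd h hA⟩
    choose p hp using this
    have h2 : ∀ᶠ i in (𝒰 : Filter ι), ((∀ k, A (S (p i).1 k)) ∧ good (p i).1 ∧
        s i = up (p i).1 (p i).2) ∧ (s i).card ≤ j + 1 := by
      filter_upwards [hs, h1] with i a b using ⟨hp i a.1 b, a.2⟩
    by_cases hr : ∃ r, ∀ᶠ i in (𝒰 : Filter ι), (p i).1 = r
    · obtain ⟨r, hr⟩ := hr
      obtain ⟨i0, ⟨⟨a1, a2, -⟩, -⟩, rfl⟩ := (h2.and hr).exists
      by_cases hk : ∃ k, ∀ᶠ i in (𝒰 : Filter ι), (p i).2 = k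
      · obtain ⟨k, hk⟩ := hk
        refine ⟨up (p i0).1 k, Or.inl (A.step _ _ a1 a2), fun g => ?_⟩
        filter_upwards [h2, hr, hk] with i b1 b2 b3
        rw [b1.1.2.2, b2, b3]
      · push Not at hk
        refine ⟨zz (p i0).1, Or.inr ⟨_, a1, a2, rfl⟩, fun g => ?_⟩
        have h3 : ∀ᶠ i in (𝒰 : Filter ι), ∀ k ∈ {k | ¬ (g ∈ up (p i0).1 k ↔ g ∈ zz (p i0).1)},
            (p i).2 ≠ k := (eventually_all_finite (conv a2 g)).2 fun k _ =>
          hk k
        filter_upwards [h2, hr, h3] with i b1 b2 b3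
        rw [b1.1.2.2, b2]
        by_contra hc
        exact b3 _ hc rfl
    · push Not at hr
      obtain ⟨ρ, hρ, hl⟩ := ih (fun i => S (p i).1 ((p i).2 + 1)) (by
        filter_upwards [h2] with i b
        refine ⟨b.1.1 _, ?_⟩
        have c1 : S (p i).1 ((p i).2 + 1) ⊂ s i := by
          rw [b.1.2.2]
          refine ⟨fun g hg => Finset.mem_insert_of_mem (Finset.mem_insert_of_mem hg), fun h => ?_⟩
          exact nd_not _ _ _ (h (Finset.mem_insert_self _ _))
        have := Finset.card_lt_card c1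
        omega)
      refine ⟨ρ, hρ, fun g => ?_⟩
      have h3 : ∀ᶠ i in (𝒰 : Filter ι), ∀ o, g ≠ nd (p i).1 o := by
        by_cases hg : ∃ r o, g = nd r o
        · obtain ⟨r, o, rfl⟩ := hg
          filter_upwards [hr r] with i hi o' h
          exact hi (nd_inj h).1.symm
        · push Not at hg
          exact Eventually.of_forall fun i o => hg _ o
      filter_upwards [h2, hl g, h3] with i b1 b2 b3
      rw [b1.1.2.2, ← b2]
      simp [up, b3]

theorem limY {ι : Type} (𝒰 : Ultrafilter ι) (j : ℕ) (s : ι → Finset G)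
    (hs : ∀ i, Y (s i) ∧ (s i).card ≤ j) :
    ∃ ρ, Y ρ ∧ ∀ F, ∀ᶠ i in (𝒰 : Filter ι), agr F (s i) ρ := by
  suffices h : ∃ ρ, Y ρ ∧ ∀ g, ∀ᶠ i in (𝒰 : Filter ι), (g ∈ s i ↔ g ∈ ρ) by
    obtain ⟨ρ, h1, h2⟩ := h
    exact ⟨ρ, h1, fun F => (eventually_all_finset F).2 fun g _ => h2 g⟩
  by_cases hA : ∀ᶠ i in (𝒰 : Filter ι), A (s i)
  · exact limA 𝒰 j s (hA.mono fun i hi => ⟨hi, (hs i).2⟩)
  have h1 : ∀ᶠ i in (𝒰 : Filter ι), Z (s i) :=
    (Ultrafilter.eventually_not.2 hA).mono fun i hi => (hs i).1.resolve_left hi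
  have : ∀ i, ∃ r : Rq, Z (s i) → (∀ k, A (S r k)) ∧ good r ∧ s i = zz r := by
    intro i
    by_cases h : Z (s i)
    · obtain ⟨r, hr⟩ := h
      exact ⟨r, fun _ => hr⟩
    · exact ⟨(fun _ => G.zero, fun _ => ∅, ∅), fun h' => absurd h' h⟩
  choose p hp using this
  have h2 := h1.mono hp
  by_cases hr : ∃ r, ∀ᶠ i in (𝒰 : Filter ι), p i = r
  · obtain ⟨r, hr⟩ := hr
    obtain ⟨i0, ⟨a1, a2, -⟩, rfl⟩ := (h2.and hr).exists
    refine ⟨zz (p i0), Or.inr ⟨_, a1, a2, rfl⟩, fun g => ?_⟩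
    filter_upwards [h2, hr] with i b1 b2
    rw [b1.2.2, b2]
  · push Not at hr
    obtain ⟨ρ, hρ, hl⟩ := limA 𝒰 j (fun i => S (p i) 0) (by
      filter_upwards [h2] with i b
      refine ⟨b.1 _, le_trans (Finset.card_le_card ?_) (hs i).2⟩
      rw [b.2.2]
      exact Finset.subset_insert _ _)
    refine ⟨ρ, hρ, fun g => ?_⟩
    have h3 : ∀ᶠ i in (𝒰 : Filter ι), g ≠ nd (p i) none := by
      by_cases hg : ∃ r, g = nd r none
      · obtain ⟨r, rfl⟩ := hg
        filter_upwards [hr r] with i hi h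
        exact hi (nd_inj h).1.symm
      · push Not at hg
        exact Eventually.of_forall fun i => hg _
    filter_upwards [h2, hl g, h3] with i b1 b2 b3
    rw [b1.2.2, ← b2]
    simp [zz, b3]

theorem osc (g : Finset G → ℝ)
    (hg : ∀ z, Z z → ∀ ε > 0, ∃ F, ∀ z', Z z' → agr F z z' → |g z' - g z| < ε)
    {y : Finset G} (hy : Y y) {ε : ℝ} (hε : 0 < ε) :
    ∃ F, ∀ z z', Z z → Z z' → agr F y z → agr F y z' → |g z - g z'| ≤ ε := by
  rcases hy with hy | hy
  swap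
  · obtain ⟨F, hF⟩ := hg y hy (ε / 2) (by linarith)
    refine ⟨F, fun z z' h1 h2 h3 h4 => ?_⟩
    have a := hF z h1 h3
    have b := hF z' h2 h4
    rw [abs_lt] at a b
    rw [abs_le]
    constructor <;> linarith [a.1, a.2, b.1, b.2]
  by_contra hc
  push Not at hc
  have step : ∀ p : Finset G × ℝ, ∃ q : Finset G × Finset G × ℝ, A q.1 ∧ agr p.1 y q.1 ∧
      ε / 2 < |q.2.2 - p.2| ∧ ∀ z', Z z' → agr q.2.1 q.1 z' → |g z' - q.2.2| < ε / 8 := by
    rintro ⟨E, c⟩
    have : ∃ z, Z z ∧ agr E y z ∧ ε / 2 < |g z - c| := by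
      obtain ⟨z, z', h1, h2, h3, h4, h5⟩ := hc E
      by_contra h
      push Not at h
      have a := h z h1 h3
      have b := h z' h2 h4
      rw [abs_le] at a b
      rw [lt_abs] at h5
      rcases h5 with h5 | h5 <;> linarith [a.1, a.2, b.1, b.2]
    obtain ⟨z, hz, h1, h2⟩ := this
    obtain ⟨F, hF⟩ := hg z hz (ε / 8) (by linarith)
    obtain ⟨r, hA, hv, rfl⟩ := hz
    obtain ⟨k, hk1, hk2⟩ := ((conv' hv E).and (conv' hv F)).exists
    refine ⟨(up r k, F, g (zz r)), A.step r k hA hv, fun x hx => (h1 x hx).trans (hk1 x hx).symm,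
      h2, fun z' hz' h => hF z' hz' fun x hx => (hk2 x hx).symm.trans (h x hx)⟩
  choose st h1 h2 h3 h4 using step
  let P : ℕ → Finset G × ℝ := fun n => Nat.rec (y, 0) (fun _ p => (p.1 ∪ (st p).1, (st p).2.2)) n
  have hP : ∀ n, P (n + 1) = ((P n).1 ∪ (st (P n)).1, (st (P n)).2.2) := fun n => rfl
  have hm : Monotone fun n => (P n).1 := monotone_nat_of_le_succ fun n => by
    rw [hP]; exact Finset.subset_union_left
  obtain ⟨r, hr, hT⟩ := realize (fun k => Nat.casesOn k y fun k => (st (P k)).1)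
    (⋃ k, ((st (P k)).2.1 : Set G)) (countable_iUnion fun k => Finset.countable_toSet _)
  have hr0 : S r 0 = y := hr 0
  have hr1 : ∀ k, S r (k + 1) = (st (P k)).1 := fun k => hr (k + 1)
  have hA : ∀ k, A (S r k) := by
    intro k
    cases k with
    | zero => rw [hr0]; exact hy
    | succ k => rw [hr1]; exact h1 _
  have hlt : ∀ k l, k < l → ∀ x ∈ S r (k + 1), x ∈ S r (l + 1) → x ∈ S r 0 := by
    intro k l hkl x hx hx'
    rw [hr1] at hx hx'
    rw [hr0]
    refine (h2 (P l) x (hm (show k + 1 ≤ l from hkl) ?_)).2 hx'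
    exact Finset.mem_union_right _ hx
  have hv : good r := by
    refine ⟨fun k x hx => ?_, fun k l hkl x hx hx' => ?_⟩
    · rw [hr0] at hx
      rw [hr1]
      exact (h2 (P k) x (hm (Nat.zero_le k) hx)).1 hx
    · rcases lt_or_gt_of_ne hkl with h | h
      · exact hlt k l h x hx hx'
      · exact hlt l k h x hx' hx
  obtain ⟨F, hF⟩ := hg (zz r) ⟨r, hA, hv, rfl⟩ (ε / 8) (by linarith)
  have key : ∀ᶠ k in atTop, |(st (P k)).2.2 - g (zz r)| < ε / 4 := by
    filter_upwards [conv' hv F] with k hk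
    obtain ⟨z, hz, hz'⟩ := dens (Or.inl (A.step r k hA hv)) (F ∪ (st (P k)).2.1)
    have a := hF z hz fun x hx => (hk x hx).symm.trans (hz' x (Finset.mem_union_left _ hx))
    have b := h4 (P k) z hz fun x hx => by
      rw [← hz' x (Finset.mem_union_right _ hx), ← hr1]
      have : ∀ o, x ≠ nd r o := fun o h => hT o (mem_iUnion.2 ⟨k, h ▸ hx⟩)
      simp [up, this]
    rw [abs_lt] at a b ⊢
    constructor <;> linarith [a.1, a.2, b.1, b.2]
  obtain ⟨N, hN⟩ := eventually_atTop.1 key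
  have a := hN N le_rfl
  have b := hN (N + 1) (Nat.le_succ N)
  have c : ε / 2 < |(st (P (N + 1))).2.2 - (st (P N)).2.2| := h3 (P (N + 1))
  rw [abs_lt] at a b
  rw [lt_abs] at c
  rcases c with c | c <;> linarith [a.1, a.2, b.1, b.2]

theorem extend (g : Finset G → ℝ)
    (hg : ∀ z, Z z → ∀ ε > 0, ∃ F, ∀ z', Z z' → agr F z z' → |g z' - g z| < ε) :
    ∃ f : Finset G → ℝ, (∀ z, Z z → f z = g z) ∧
      ∀ y, Y y → ∀ ε > 0, ∃ F, ∀ y', Y y' → agr F y y' → |f y' - f y| ≤ ε := by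
  have : ∀ y, ∃ w : Finset G → Finset G, Y y → ∀ F, Z (w F) ∧ agr F y (w F) := by
    intro y
    by_cases hy : Y y
    · choose w hw using dens hy
      exact ⟨w, fun _ => hw⟩
    · exact ⟨fun _ => ∅, fun h => absurd h hy⟩
  choose w hw using this
  have hev : ∀ y, Y y → ∀ F, ∀ᶠ E in atTop, agr F y (w y E) := fun y hy F =>
    (eventually_ge_atTop F).mono fun E hE x hx => (hw y hy E).2 x (hE hx)
  have : ∀ y, ∃ c, Y y → Tendsto (fun E => g (w y E)) atTop (𝓝 c) := by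
    intro y
    by_cases hy : Y y
    · have : CauchySeq fun E => g (w y E) := by
        rw [Metric.cauchySeq_iff]
        intro ε hε
        obtain ⟨F, hF⟩ := osc g hg hy (half_pos hε)
        refine ⟨F, fun m hm n hn => ?_⟩
        rw [Real.dist_eq]
        exact (hF _ _ (hw y hy m).1 (hw y hy n).1 (fun x hx => (hw y hy m).2 x (hm hx))
          (fun x hx => (hw y hy n).2 x (hn hx))).trans_lt (half_lt_self hε)
      obtain ⟨c, hc⟩ := cauchySeq_tendsto_of_complete this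
      exact ⟨c, fun _ => hc⟩
    · exact ⟨0, fun h => absurd h hy⟩
  choose f hf using this
  refine ⟨f, fun z hz => ?_, fun y hy ε hε => ?_⟩
  · refine tendsto_nhds_unique (hf z (Or.inr hz)) ?_
    rw [Metric.tendsto_nhds]
    intro ε hε
    obtain ⟨F, hF⟩ := hg z hz ε hε
    filter_upwards [hev z (Or.inr hz) F] with E hE
    exact hF _ (hw z (Or.inr hz) E).1 hE
  · obtain ⟨F, hF⟩ := osc g hg hy hε
    refine ⟨F, fun y' hy' h => le_of_tendsto ((hf y' hy').sub (hf y hy)).abs ?_⟩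
    filter_upwards [hev y hy F, hev y' hy' F] with E a b
    exact hF _ _ (hw y' hy' E).1 (hw y hy E).1 (fun x hx => (h x hx).trans (b x hx)) a

theorem unif (f : Finset G → ℝ)
    (hf : ∀ y, Y y → ∀ ε > 0, ∃ F, ∀ y', Y y' → agr F y y' → |f y' - f y| ≤ ε) (j : ℕ)
    {ε : ℝ} (hε : 0 < ε) :
    ∃ F, ∀ y y', Y y → y.card ≤ j → Y y' → agr F y y' → |f y - f y'| ≤ ε := by
  by_contra hc
  push Not at hc
  choose y y' h1 h2 h3 h4 h5 using hc
  let 𝒰 : Ultrafilter (Finset G) := Ultrafilter.of atTop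
  obtain ⟨ρ, hρ, hl⟩ := limY 𝒰 j y fun F => ⟨h1 F, h2 F⟩
  obtain ⟨F, hF⟩ := hf ρ hρ (ε / 2) (by linarith)
  obtain ⟨E, a, b⟩ := ((hl F).and
    ((eventually_ge_atTop F).filter_mono (Ultrafilter.of_le atTop))).exists
  have c := hF _ (h1 E) fun x hx => (a x hx).symm
  have d := hF _ (h3 E) fun x hx => (a x hx).symm.trans (h4 E x (b hx))
  have e := h5 E
  rw [abs_le] at c d
  rw [lt_abs] at e
  rcases e with e | e <;> linarith [c.1, c.2, d.1, d.2]

theorem bdd (f : Finset G → ℝ)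
    (hf : ∀ y, Y y → ∀ ε > 0, ∃ F, ∀ y', Y y' → agr F y y' → |f y' - f y| ≤ ε) (j : ℕ) :
    ∃ m : ℕ, ∀ y, Y y → y.card ≤ j → |f y| ≤ m := by
  by_contra hc
  push Not at hc
  choose y h1 h2 h3 using hc
  let 𝒰 : Ultrafilter ℕ := Ultrafilter.of atTop
  obtain ⟨ρ, hρ, hl⟩ := limY 𝒰 j y fun F => ⟨h1 F, h2 F⟩
  obtain ⟨F, hF⟩ := hf ρ hρ 1 one_pos
  obtain ⟨m, hm⟩ := exists_nat_ge (|f ρ| + 1)
  obtain ⟨E, a, b⟩ := ((hl F).and
    ((eventually_ge_atTop m).filter_mono (Ultrafilter.of_le atTop))).exists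
  have c := hF _ (h1 E) fun x hx => (a x hx).symm
  have d := h3 E
  have e : (m : ℝ) ≤ E := by exact_mod_cast b
  have := abs_sub_abs_le_abs_sub (f (y E)) (f ρ)
  linarith

end Pool.Agent.Lead.PsiC
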