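import Mathlib

set_option autoImplicit false

namespace Pool.Agent.Lead.PsiC

/-- continuous real functions with the topology of pointwise convergence -/
abbrev Cp (X : Type) [TopologicalSpace X] := {f : X → ℝ // Continuous f}

/-- continuous image of a closed subspace of K x M, K compact, M separable metrizable -/
def LindelofSigma (T : Type) [TopologicalSpace T] : Prop :=
  ∃ (K M : Type) (_ : TopologicalSpace K) (_ : TopologicalSpace M),
    CompactSpace K ∧ T2Space K ∧ TopologicalSpace.SeparableSpace M ∧
    TopologicalSpace.MetrizableSpace M ∧
    ∃ F : Set (K × M), IsClosed F ∧ ∃ φ : F → T, Continuous φ ∧ Function.Surjective φ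

end Pool.Agent.Lead.PsiC
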