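import Pool.Agent.Lead.Psi1
import Pool.Agent.Lead.PsiDefs

set_option autoImplicit false
open Set Filter Topology Cardinal

namespace Pool.Agent.Lead.PsiC

instance : TopologicalSpace G := ⊥
instance : DiscreteTopology G := ⟨rfl⟩

noncomputable def ind (s : Finset G) : G → ℝ := fun g => if g ∈ s then 1 else 0

theorem ind_near {s s' : Finset G} {g : G} (h : |ind s g - ind s' g| < 1) : g ∈ s ↔ g ∈ s' := by
  unfold ind at h
  by_cases a : g ∈ s <;> by_cases b : g ∈ s' <;> simp_all

theorem ind_inj : Function.Injective ind := fun s s' h => by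
  ext g
  exact ind_near (by rw [h]; simp)

def XX : Set (G → ℝ) := ind '' {s | Z s}

noncomputable def sp (x : XX) : Finset G := x.2.choose
theorem sp_Z (x : XX) : Z (sp x) := x.2.choose_spec.1
theorem ind_sp (x : XX) : ind (sp x) = x.1 := x.2.choose_spec.2
theorem sp_mk (z : Finset G) (hz : Z z) : sp ⟨ind z, z, hz, rfl⟩ = z := ind_inj (ind_sp _)

theorem nb (x : XX) (F : Finset G) : ∀ᶠ x' in 𝓝 x, agr F (sp x) (sp x') := by
  refine (eventually_all_finset F).2 fun g _ => ?_
  have : IsOpen {x' : XX | |x.1 g - x'.1 g| < 1} :=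
    isOpen_lt (continuous_const.sub ((continuous_apply g).comp continuous_subtype_val)).abs
      continuous_const
  filter_upwards [this.mem_nhds (by simp)] with x' hx'
  exact ind_near (by rw [ind_sp, ind_sp]; exact hx')

theorem nb' (x : XX) (U : Set XX) (hU : U ∈ 𝓝 x) :
    ∃ F, ∀ x' : XX, agr F (sp x) (sp x') → x' ∈ U := by
  obtain ⟨V, hVU, hV, hx⟩ := mem_nhds_iff.1 hU
  obtain ⟨o, ho, rfl⟩ := isOpen_induced_iff.1 hV
  obtain ⟨I, u, hu, hsub⟩ := isOpen_pi_iff.1 ho _ hx
  refine ⟨I, fun x' h => hVU (hsub fun g hg => ?_)⟩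
  have : x'.1 g = x.1 g := by
    rw [← ind_sp, ← ind_sp]
    simp [ind, h g hg]
  rw [this]; exact (hu g hg).2

theorem gd (x : XX) : IsGδ ({x} : Set XX) := by
  obtain ⟨r, -, -, hr⟩ := sp_Z x
  have : ({x} : Set XX) = ⋂ k, {x' : XX | 0 < x'.1 (nd r none) ∧ x'.1 (nd r (some k)) < 1} := by
    ext x'
    simp only [mem_singleton_iff, mem_iInter, mem_ofPred_eq]
    constructor
    · rintro rfl k
      rw [← ind_sp, hr]
      simp [ind, u_not, show nd r none ∈ zz r from Finset.mem_insert_self _ _]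
    · intro h
      have h1 := gdelta (sp_Z x') r (by
        have := (h 0).1
        rw [← ind_sp] at this
        by_contra hc
        simp [ind, hc] at this) (fun k hk => by
        have := (h k).2
        rw [← ind_sp] at this
        simp [ind, hk] at this)
      exact Subtype.ext (by rw [← ind_sp, ← ind_sp, h1, hr])
  rw [this]
  refine IsGδ.iInter fun k => IsOpen.isGδ (IsOpen.inter ?_ ?_)
  · exact isOpen_lt continuous_const ((continuous_apply _).comp continuous_subtype_val)
  · exact isOpen_lt ((continuous_apply _).comp continuous_subtype_val) continuous_const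

theorem big : 𝔠 < #XX := by
  let r : Set ℝ → Rq := fun i => (fun _ => G.zero, fun _ => ∅, i)
  have hZ : ∀ i, Z (zz (r i)) := fun i =>
    ⟨r i, fun k => by simpa [S, r] using A.empty, ⟨fun k => by simp [S, r], by simp [S, r]⟩, rfl⟩
  have : Function.Injective fun i => (⟨ind (zz (r i)), _, hZ i, rfl⟩ : XX) := by
    intro i j h
    have h1 := ind_inj (congrArg Subtype.val h)
    have h2 : nd (r i) none ∈ zz (r j) := h1 ▸ Finset.mem_insert_self _ _
    simp only [zz, S, r, Finset.image_empty, Finset.mem_insert, Finset.notMem_empty,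
      or_false] at h2
    exact congrArg (fun p : Rq => p.2.2) (nd_inj h2).1
  refine lt_of_lt_of_le ?_ (mk_le_of_injective this)
  rw [mk_set, mk_real]
  exact cantor _

abbrev KK := (Finset G → Icc (-1 : ℝ) 1) × (ℕ → ℕ → OnePoint G)

def vv (p : KK × (ℕ → ℕ)) (y : Finset G) : ℝ := (p.2 y.card : ℝ) * (p.1.1 y : ℝ)

theorem vv_cont (y : Finset G) : Continuous fun p => vv p y := by
  unfold vv
  refine Continuous.mul ?_ (by fun_prop)
  exact (continuous_of_discreteTopology (f := fun n : ℕ => (n : ℝ))).comp (by fun_prop)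

def eqv (y y' : Finset G) : Set (OnePoint G) := {x | ∀ g : G, x = g → (g ∈ y ↔ g ∈ y')}

theorem eqv_open (y y' : Finset G) : IsOpen (eqv y y') := by
  have : eqv y y' = ((↑) '' ((y ∪ y' : Finset G) : Set G))ᶜ ∪ (↑) '' {g : G | g ∈ y ↔ g ∈ y'} := by
    ext x
    induction x using OnePoint.rec with
    | infty => simp [eqv]
    | coe a =>
      simp only [eqv, mem_ofPred_eq, OnePoint.coe_eq_coe, forall_eq', mem_union, mem_compl_iff,
        mem_image, exists_eq_right, Finset.coe_union, Finset.mem_coe]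
      tauto
  rw [this]
  exact ((Finset.finite_toSet _).image _).isClosed.isOpen_compl.union
    (OnePoint.isOpenEmbedding_coe.isOpenMap _ (isOpen_discrete _))

def FF : Set (KK × (ℕ → ℕ)) := {p | ∀ (j : ℕ) (y y' : Finset G), Y y → y.card ≤ j → Y y' →
  (∀ i < p.2 j, p.1.2 j i ∈ eqv y y') → |vv p y - vv p y'| ≤ 1 / ((j : ℝ) + 1)}

theorem FF_closed : IsClosed FF := by
  simp only [FF, ofPred_forall]
  refine isClosed_iInter fun j => isClosed_iInter fun y => isClosed_iInter fun y' =>
    isClosed_iInter fun _ => isClosed_iInter fun _ => isClosed_iInter fun _ => ?_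
  have h1 : IsOpen {p : KK × (ℕ → ℕ) | ∀ i < p.2 j, p.1.2 j i ∈ eqv y y'} := by
    have : {p : KK × (ℕ → ℕ) | ∀ i < p.2 j, p.1.2 j i ∈ eqv y y'} =
        ⋃ a : ℕ, {p | p.2 j ∈ ({a} : Set ℕ)} ∩ ⋂ i ∈ Finset.range a, {p | p.1.2 j i ∈ eqv y y'} := by
      ext p; simp
    rw [this]
    refine isOpen_iUnion fun a => IsOpen.inter ?_ (isOpen_biInter_finset fun i _ => ?_)
    · exact (isOpen_discrete ({a} : Set ℕ)).preimage
        (f := fun p : KK × (ℕ → ℕ) => p.2 j) (by fun_prop)
    · exact (eqv_open y y').preimage (f := fun p : KK × (ℕ → ℕ) => p.1.2 j i) (by fun_prop)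
  have h2 : IsClosed {p : KK × (ℕ → ℕ) | |vv p y - vv p y'| ≤ 1 / ((j : ℝ) + 1)} :=
    isClosed_le ((vv_cont y).sub (vv_cont y')).abs continuous_const
  convert h1.isClosed_compl.union h2 using 1
  ext p
  simp only [mem_iInter, mem_ofPred_eq, mem_union, mem_compl_iff]
  tauto

theorem ph_cont (p : FF) : Continuous fun x : XX => vv p.1 (sp x) := by
  rw [continuous_iff_continuousAt]
  intro x
  rw [ContinuousAt, Metric.tendsto_nhds]
  intro ε hε
  obtain ⟨n, hn⟩ := exists_nat_one_div_lt hε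
  let j := max n (sp x).card
  have hfin : {g : G | ∃ i < p.1.2 j, p.1.1.2 j i = g}.Finite := by
    have : {g : G | ∃ i < p.1.2 j, p.1.1.2 j i = g} =
        (↑) ⁻¹' ((p.1.1.2 j) '' Iio (p.1.2 j)) := by ext g; simp
    rw [this]
    exact ((finite_Iio _).image _).preimage OnePoint.coe_injective.injOn
  filter_upwards [nb x hfin.toFinset] with x' hx'
  have := p.2 j (sp x) (sp x') (Or.inr (sp_Z x)) (le_max_right _ _) (Or.inr (sp_Z x'))
    (fun i hi g hg => hx' g (hfin.mem_toFinset.2 ⟨i, hi, hg⟩))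
  rw [Real.dist_eq, abs_sub_comm]
  refine this.trans_lt (lt_of_le_of_lt ?_ hn)
  have : (n : ℝ) ≤ j := by exact_mod_cast le_max_left _ _
  gcongr

theorem lsig : LindelofSigma (Cp XX) := by
  classical
  refine ⟨KK, ℕ → ℕ, inferInstance, inferInstance, inferInstance, inferInstance, inferInstance,
    inferInstance, FF, FF_closed, fun p => ⟨_, ph_cont p⟩, ?_, ?_⟩
  · exact Continuous.subtype_mk
      (continuous_pi fun x => (vv_cont (sp x)).comp continuous_subtype_val) _
  · intro g
    let g' : Finset G → ℝ := fun s => if h : Z s then g.1 ⟨ind s, s, h, rfl⟩ else 0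
    have hg' : ∀ x : XX, g' (sp x) = g.1 x := fun x => by
      simp only [g', dif_pos (sp_Z x)]
      exact congrArg g.1 (Subtype.ext (ind_sp x))
    obtain ⟨f, hf1, hf2⟩ := extend g' (by
      intro z hz ε hε
      obtain ⟨F, hF⟩ := nb' ⟨ind z, z, hz, rfl⟩ _
        (Metric.tendsto_nhds.1 (g.2.tendsto ⟨ind z, z, hz, rfl⟩) ε hε)
      refine ⟨F, fun z' hz' h => ?_⟩
      have := hF ⟨ind z', z', hz', rfl⟩ (by rw [sp_mk z hz, sp_mk z' hz']; exact h)
      simpa only [g', dif_pos hz, dif_pos hz', mem_ofPred_eq, Real.dist_eq] using this)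
    choose F hF using fun j : ℕ => unif f hf2 j (ε := 1 / ((j : ℝ) + 1)) (by positivity)
    choose b hb using bdd f hf2
    let m : ℕ → ℕ := fun j => max (F j).card (b j) + 1
    have hm : ∀ j, (0 : ℝ) < m j := fun j => by exact_mod_cast Nat.succ_pos _
    have hbm : ∀ y, Y y → |f y / m y.card| ≤ 1 := by
      intro y hy
      rw [abs_div, abs_of_pos (hm _), div_le_one (hm _)]
      refine (hb _ y hy le_rfl).trans ?_
      exact_mod_cast (le_max_right _ _).trans (Nat.le_succ _)
    let k : Finset G → Icc (-1 : ℝ) 1 := fun y =>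
      if h : Y y then ⟨f y / m y.card, abs_le.1 (hbm y h)⟩ else ⟨0, by norm_num⟩
    let xs : ℕ → ℕ → OnePoint G := fun j i =>
      if h : i < (F j).card then ((F j).equivFin.symm ⟨i, h⟩ : G) else OnePoint.infty
    have hv : ∀ y, Y y → vv ((k, xs), m) y = f y := by
      intro y hy
      simp only [vv, k, dif_pos hy]
      exact mul_div_cancel₀ _ (hm _).ne'
    refine ⟨⟨((k, xs), m), ?_⟩, Subtype.ext (funext fun x => ?_)⟩
    · intro j y y' h1 h2 h3 h4
      rw [hv y h1, hv y' h3]
      refine hF j y y' h1 h2 h3 fun a ha => ?_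
      have h5 := ((F j).equivFin ⟨a, ha⟩).2
      refine h4 ((F j).equivFin ⟨a, ha⟩) (h5.trans_le ((le_max_left _ _).trans (Nat.le_succ _))) a ?_
      simp [xs, h5]
    · show vv _ (sp x) = g.1 x
      rw [hv _ (Or.inr (sp_Z x)), hf1 _ (sp_Z x), hg']

theorem main : ¬ ∀ (X : Type) [TopologicalSpace X] [T35Space X], LindelofSigma (Cp X) →
    (∀ x : X, IsGδ ({x} : Set X)) → #X ≤ 𝔠 := fun h =>
  absurd (h XX lsig gd) (not_le.2 big)

end Pool.Agent.Lead.PsiC
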