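import Mathlib

namespace Pool.Agent.Lead.Rains

/-- theta(x) = {x}(1 - {x}) -/
noncomputable def th (x : ℝ) : ℝ := Int.fract x * (1 - Int.fract x)

/-- weights k, k-2, ..., -k of the irreducible SU(2) representation of dimension k+1 -/
def wts (k : ℕ) : Multiset ℤ := (Multiset.range (k + 1)).map fun i : ℕ => (k : ℤ) - 2 * i

/-- both anomaly conditions for G = SU(2), roots 2 and -2 -/
def Anomaly {n : ℕ} (k : Fin n → ℕ) (r : Fin n → ℝ) : Prop :=
  ∑ j, ((wts (k j)).map fun w : ℤ => (w : ℝ) ^ 3).sum = 0 ∧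
  ∑ j, (r j - 1) * ((wts (k j)).map fun w : ℤ => (w : ℝ) ^ 2).sum + ((2 : ℝ) ^ 2 + (-2) ^ 2) = 0

/-- the nonzero weights split into pairs w, -w -/
def NonChiral {n : ℕ} (k : Fin n → ℕ) : Prop :=
  ∃ M : Multiset ℤ, (∑ j, wts (k j)).filter (fun w => w ≠ 0) = M + M.map (fun w => -w)

/-- the Rains function for G = SU(2), positive root 2 -/
noncomputable def L {n : ℕ} (k : Fin n → ℕ) (r : Fin n → ℝ) (x : ℝ) : ℝ :=
  1 / 2 * ∑ j, (1 - r j) * ((wts (k j)).map fun w : ℤ => th (w * x)).sum - th (2 * x)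

/-- Tr R for G = SU(2) -/
noncomputable def trR {n : ℕ} (k : Fin n → ℕ) (r : Fin n → ℝ) : ℝ :=
  3 + ∑ j, (r j - 1) * ((k j : ℝ) + 1)

end Pool.Agent.Lead.Rains
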