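import Mathlib
import Pool.Agent.Lead.RainsDefs

namespace Pool.Agent.Lead.Rains

def k0 : Fin 3 → ℕ := ![2, 2, 3]
noncomputable def r0 : Fin 3 → ℝ := ![1 / 4, 1 / 4, 6 / 5]

lemma w2 : wts 2 = {2, 0, -2} := by decide
lemma w3 : wts 3 = {3, 1, -1, -3} := by decide

lemma k0_pos (j : Fin 3) : 1 ≤ k0 j := by fin_cases j <;> simp [k0]

lemma r0_mem (j : Fin 3) : 0 < r0 j ∧ r0 j < 2 := by
  fin_cases j <;> simp [r0] <;> norm_num

lemma anom : Anomaly k0 r0 := by
  constructor <;> simp [Fin.sum_univ_three, k0, r0, w2, w3] <;> norm_num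

lemma nonchiral : NonChiral k0 := ⟨{2, 2, 3, 1}, by decide⟩

lemma th_neg (x : ℝ) : th (-x) = th x := by
  unfold th
  by_cases h : Int.fract x = 0
  · rw [Int.fract_neg_eq_zero.2 h, h]
  · rw [Int.fract_neg h]; ring

lemma th_zero : th 0 = 0 := by simp [th]

lemma th_small (x : ℝ) (h0 : 0 ≤ x) (h1 : x < 1) : th x = x - x ^ 2 := by
  unfold th; rw [Int.fract_eq_self.2 ⟨h0, h1⟩]; ring

lemma L_eq (x : ℝ) : L k0 r0 x = 1 / 2 * th (2 * x) - 1 / 5 * (th x + th (3 * x)) := by
  have a := th_neg (2 * x)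
  have b := th_neg x
  have c := th_neg (3 * x)
  simp [L, Fin.sum_univ_three, k0, r0, w2, w3, th_zero, a, b, c]
  ring

lemma L_half : L k0 r0 (1 / 2) < 0 := by
  rw [L_eq]
  have a : th (2 * (1 / 2)) = 0 := by norm_num [th]
  have b : th (1 / 2) = 1 / 4 := by rw [th_small] <;> norm_num
  have c : th (3 * (1 / 2)) = 1 / 4 := by
    have : (3 * (1 / 2) : ℝ) = 1 / 2 + (1 : ℤ) := by norm_num
    rw [this]; unfold th; rw [Int.fract_add_intCast, Int.fract_eq_self.2 ⟨by norm_num, by norm_num⟩]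
    norm_num
  rw [a, b, c]; norm_num

lemma L_pos (x : ℝ) (h0 : 0 < |x|) (h1 : |x| < 1 / 3) : 0 < L k0 r0 x := by
  have key : ∀ y : ℝ, 0 < y → y < 1 / 3 → 0 < L k0 r0 y := by
    intro y a b
    rw [L_eq, th_small _ (by linarith) (by linarith), th_small _ (by linarith) (by linarith),
      th_small _ (by linarith) (by linarith)]
    nlinarith
  rcases abs_cases x with h | h
  · exact key x (by linarith) (by linarith)
  · have := key (-x) (by linarith) (by linarith)
    rw [L_eq, mul_neg, mul_neg, th_neg, th_neg, th_neg, ← L_eq] at this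
    exact this

lemma trR_neg : trR k0 r0 < 0 := by
  simp [trR, Fin.sum_univ_three, k0, r0]; norm_num

end Pool.Agent.Lead.Rains
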