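import Mathlib

set_option autoImplicit false

namespace Pool.Agent.Lead.Reimer
open Finset Polynomial

lemma block {n : Type} [Fintype n] [DecidableEq n] (M : Matrix n n ℝ) (hM : M.det ≠ 0)
    (S T : Finset n) (h : ∀ x ∈ S, ∀ z, z ∉ T → M x z = 0) : S.card ≤ T.card := by
  rw [Matrix.det_apply] at hM
  obtain ⟨σ, -, hσ⟩ := Finset.exists_ne_zero_of_sum_ne_zero hM
  have h2 : ∏ i, M (σ i) i ≠ 0 := by
    intro h0; apply hσ; rw [h0]; simp
  rw [Finset.prod_ne_zero_iff] at h2
  apply Finset.card_le_card_of_injOn (fun x => σ.symm x)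
  · intro x hx
    by_contra hn
    apply h2 (σ.symm x) (mem_univ _)
    rw [Equiv.apply_symm_apply]
    exact h x hx _ hn
  · intro a _ b _ hab
    exact σ.symm.injective hab

lemma generic (p q : ℝ[X]) (hp : p ≠ 0) (hq : q ≠ 0) :
    ∃ t : ℝ, t ≠ 0 ∧ p.eval t ≠ 0 ∧ q.eval t⁻¹ ≠ 0 := by
  classical
  obtain ⟨t, ht⟩ := Infinite.exists_notMem_finset
    (insert (0:ℝ) (p.roots.toFinset ∪ q.roots.toFinset.image (fun x => x⁻¹)))
  simp only [mem_insert, mem_union, Multiset.mem_toFinset, mem_image, not_or, not_exists,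
    not_and] at ht
  refine ⟨t, ht.1, fun h => ht.2.1 ((mem_roots hp).2 h), fun h => ht.2.2 t⁻¹ ((mem_roots hq).2 h) (inv_inv t)⟩

variable {ι : Type} [Fintype ι] [DecidableEq ι]

def Fm {R : Type} [CommRing R] (D : ι → Bool) (J : (ι → Bool) → ι → Bool) (s : R) :
    Matrix (ι → Bool) (ι → Bool) R :=
  fun x w => ∏ i, if w i = x i then 1 else if D i = true ∧ J x i = false then -s else 0

def Gm {R : Type} [CommRing R] (D : ι → Bool) (A : Finset (ι → Bool)) (t : R) :
    Matrix (ι → Bool) (ι → Bool) R :=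
  fun w z => if z ∈ A then ∏ i, (if w i = z i then 1 else if D i = true then t else 0)
    else if w = z then 1 else 0

lemma prod_ind (w x : ι → Bool) :
    (∏ i, if w i = x i then (1:ℝ) else 0) = if w = x then 1 else 0 := by
  by_cases h : w = x
  · subst h; simp
  · rw [if_neg h]
    obtain ⟨i, hi⟩ := Function.ne_iff.1 h
    exact Finset.prod_eq_zero (mem_univ i) (if_neg hi)

lemma Fm_map (D : ι → Bool) (J : (ι → Bool) → ι → Bool) (s : ℝ) :
    (Fm D J (X : ℝ[X])).map (evalRingHom s) = Fm D J s := by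
  ext x w
  simp only [Matrix.map_apply, Fm, map_prod]
  apply Finset.prod_congr rfl
  intro i _
  split_ifs <;> simp

lemma Gm_map (D : ι → Bool) (A : Finset (ι → Bool)) (s : ℝ) :
    (Gm D A (X : ℝ[X])).map (evalRingHom s) = Gm D A s := by
  ext x w
  simp only [Matrix.map_apply, Gm]
  split_ifs
  · rw [map_prod]
    apply Finset.prod_congr rfl
    intro i _
    split_ifs <;> simp
  · simp
  · simp

lemma Fm_zero (D : ι → Bool) (J : (ι → Bool) → ι → Bool) : Fm D J (0:ℝ) = 1 := by
  ext x w
  simp only [Fm, neg_zero, ite_self, prod_ind, Matrix.one_apply, eq_comm]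

lemma Gm_zero (D : ι → Bool) (A : Finset (ι → Bool)) : Gm D A (0:ℝ) = 1 := by
  ext x w
  simp only [Gm, ite_self, prod_ind, Matrix.one_apply]

lemma det_eval {n : Type} [Fintype n] [DecidableEq n] (M : Matrix n n ℝ[X]) (s : ℝ) :
    M.det.eval s = (M.map (evalRingHom s)).det := by
  have := (evalRingHom s).map_det M
  simpa using this

lemma reimerD (A B S : Finset (ι → Bool)) (D : ι → Bool)
    (hS : ∀ x ∈ S, ∃ J : Set ι, (∀ y : ι → Bool, (∀ i ∈ J, y i = x i) → y ∈ A) ∧
      (∀ y : ι → Bool, (∀ i, i ∉ J → y i = x i) → y ∈ B)) :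
    S.card ≤ (A.filter (fun z => (fun i => xor (z i) (D i)) ∈ B)).card := by
  classical
  have hS' : ∀ x, ∃ J : ι → Bool, x ∈ S → (∀ y : ι → Bool, (∀ i, J i = true → y i = x i) → y ∈ A) ∧
      (∀ y : ι → Bool, (∀ i, J i = false → y i = x i) → y ∈ B) := by
    intro x
    by_cases hx : x ∈ S
    · obtain ⟨J, h1, h2⟩ := hS x hx
      refine ⟨fun i => decide (i ∈ J), fun _ => ⟨fun y hy => h1 y (fun i hi => hy i (by simpa using hi)),
        fun y hy => h2 y (fun i hi => hy i (by simpa using hi))⟩⟩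
    · exact ⟨fun _ => true, fun h => absurd h hx⟩
  choose J hJ using hS'
  have hp : (Gm D A (X : ℝ[X])).det ≠ 0 := by
    intro h
    have := det_eval (Gm D A (X : ℝ[X])) 0
    rw [h, Gm_map, Gm_zero] at this
    simp at this
  have hq : (Fm D J (X : ℝ[X])).det ≠ 0 := by
    intro h
    have := det_eval (Fm D J (X : ℝ[X])) 0
    rw [h, Fm_map, Fm_zero] at this
    simp at this
  obtain ⟨t, ht, h1, h2⟩ := generic _ _ hp hq
  rw [det_eval, Gm_map] at h1
  rw [det_eval, Fm_map] at h2
  apply block (Fm D J t⁻¹ * Gm D A t) (by rw [Matrix.det_mul]; exact mul_ne_zero h2 h1)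
  intro x hx z hz
  obtain ⟨hA, hB⟩ := hJ x hx
  rw [Matrix.mul_apply]
  by_cases hzA : z ∈ A
  · have hzB : (fun i => xor (z i) (D i)) ∉ B := fun h => hz (mem_filter.2 ⟨hzA, h⟩)
    have : ∃ i, J x i = false ∧ xor (z i) (D i) ≠ x i := by
      by_contra hn
      push Not at hn
      exact hzB (hB _ hn)
    obtain ⟨i, hi1, hi2⟩ := this
    simp only [Fm, Gm, if_pos hzA, ← Finset.prod_mul_distrib]
    have key := Finset.prod_univ_sum (fun _ : ι => (univ : Finset Bool))
      (fun i b => (if b = x i then (1:ℝ) else if D i = true ∧ J x i = false then -t⁻¹ else 0) *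
        (if b = z i then 1 else if D i = true then t else 0))
    rw [Fintype.piFinset_univ] at key
    rw [← key]
    apply Finset.prod_eq_zero (mem_univ i)
    rw [Fintype.sum_bool, hi1]
    revert hi2
    cases x i <;> cases z i <;> cases D i <;> simp [ht]
  · have : ∃ i, J x i = true ∧ z i ≠ x i := by
      by_contra hn
      push Not at hn
      exact hzA (hA _ hn)
    obtain ⟨i, hi1, hi2⟩ := this
    simp only [Gm, if_neg hzA, mul_ite, mul_one, mul_zero, Finset.sum_ite_eq', mem_univ, if_true]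
    apply Finset.prod_eq_zero (mem_univ i)
    simp [hi1, hi2]

theorem reimer (A B S : Finset (ι → Bool))
    (hS : ∀ x ∈ S, ∃ J : Set ι, (∀ y : ι → Bool, (∀ i ∈ J, y i = x i) → y ∈ A) ∧
      (∀ y : ι → Bool, (∀ i, i ∉ J → y i = x i) → y ∈ B)) :
    2 ^ Fintype.card ι * S.card ≤ A.card * B.card := by
  classical
  have h1 : ∑ _D : ι → Bool, S.card ≤
      ∑ D : ι → Bool, (A.filter (fun z => (fun i => xor (z i) (D i)) ∈ B)).card :=
    Finset.sum_le_sum (fun D _ => reimerD A B S D hS)
  have h2 : ∑ D : ι → Bool, (A.filter (fun z => (fun i => xor (z i) (D i)) ∈ B)).card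
      = A.card * B.card := by
    simp only [Finset.card_filter]
    rw [Finset.sum_comm, Finset.card_eq_sum_ones A, Finset.sum_mul]
    apply Finset.sum_congr rfl
    intro z _
    rw [one_mul, ← Finset.card_filter]
    apply Finset.card_bij (fun D _ => fun i => xor (z i) (D i))
    · intro D hD; exact (mem_filter.1 hD).2
    · intro a _ b _ hab
      funext i
      have := congrFun hab i
      revert this
      cases z i <;> cases a i <;> cases b i <;> simp
    · intro b hb
      refine ⟨fun i => xor (z i) (b i), ?_, ?_⟩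
      · refine mem_filter.2 ⟨mem_univ _, ?_⟩
        have : (fun i => xor (z i) (xor (z i) (b i))) = b := by
          funext i; cases z i <;> cases b i <;> rfl
        rw [this]; exact hb
      · funext i
        show xor (z i) (xor (z i) (b i)) = b i
        cases z i <;> cases b i <;> rfl
  rw [h2] at h1
  simpa using h1

end Pool.Agent.Lead.Reimer
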