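import Pool.Agent.Lead.Reimer

set_option autoImplicit false

namespace Pool.Agent.Lead.Reimer
open Finset MeasureTheory
open scoped ENNReal

noncomputable def kap (q : ℕ) (hq : 0 < q) (x : unitInterval) : Fin q :=
  ⟨min ⌊(q:ℝ) * x⌋₊ (q - 1), by omega⟩

lemma kap_bd (q : ℕ) (hq : 0 < q) (x : unitInterval) :
    ((kap q hq x : ℕ) : ℝ) ≤ q * x ∧ (q:ℝ) * x ≤ (kap q hq x : ℕ) + 1 := by
  have h0 : (0:ℝ) ≤ q * x := mul_nonneg (Nat.cast_nonneg _) x.2.1
  have h1 : (q:ℝ) * x ≤ q := by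
    have := x.2.2
    have hq' : (0:ℝ) ≤ q := Nat.cast_nonneg _
    nlinarith
  have hf := Nat.floor_le h0
  have hl := Nat.lt_floor_add_one ((q:ℝ) * x)
  simp only [kap]
  rcases le_total ⌊(q:ℝ) * x⌋₊ (q - 1) with h | h
  · rw [min_eq_left h]; exact ⟨hf, hl.le⟩
  · rw [min_eq_right h]
    have hc : ((q - 1 : ℕ) : ℝ) = q - 1 := by
      rw [Nat.cast_sub (by omega)]; simp
    have : ((q - 1 : ℕ) : ℝ) ≤ (⌊(q:ℝ) * x⌋₊ : ℝ) := by exact_mod_cast h
    constructor
    · linarith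
    · rw [hc]; linarith

lemma kap_eq (q : ℕ) (hq : 0 < q) (x : unitInterval) (j : Fin q)
    (h1 : ((j:ℕ):ℝ) ≤ q * x) (h2 : (q:ℝ) * x < (j:ℕ) + 1) : kap q hq x = j := by
  have h0 : (0:ℝ) ≤ q * x := mul_nonneg (Nat.cast_nonneg _) x.2.1
  have : ⌊(q:ℝ) * x⌋₊ = j := (Nat.floor_eq_iff h0).2 ⟨h1, h2⟩
  apply Fin.ext
  simp only [kap, this]
  have := j.2
  omega

lemma kap_meas (q : ℕ) (hq : 0 < q) (j : Fin q) : MeasurableSet (kap q hq ⁻¹' {j}) := by
  have hm : Measurable (fun x : unitInterval => min ⌊(q:ℝ) * x⌋₊ (q - 1)) := by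
    have h1 : Measurable (fun x : unitInterval => ⌊(q:ℝ) * x⌋₊) :=
      Measurable.nat_floor (by fun_prop)
    exact (measurable_from_top (f := fun n : ℕ => min n (q - 1))).comp h1
  have : kap q hq ⁻¹' {j} = (fun x : unitInterval => min ⌊(q:ℝ) * x⌋₊ (q - 1)) ⁻¹' {(j:ℕ)} := by
    ext x
    simp only [Set.mem_preimage, Set.mem_singleton_iff, kap, Fin.ext_iff]
  rw [this]
  exact hm (measurableSet_singleton _)

lemma kap_vol (q : ℕ) (hq : 0 < q) (j : Fin q) :
    (volume : Measure unitInterval) (kap q hq ⁻¹' {j}) = (q : ℝ≥0∞)⁻¹ := by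
  have hq' : (0:ℝ) < q := by exact_mod_cast hq
  have hj : ((j:ℕ):ℝ) + 1 ≤ q := by exact_mod_cast j.2
  have hj0 : (0:ℝ) ≤ (j:ℕ) := Nat.cast_nonneg _
  have hv : ENNReal.ofReal ((((j:ℕ):ℝ) + 1) / q - (j:ℕ) / q) = (q : ℝ≥0∞)⁻¹ := by
    have : (((j:ℕ):ℝ) + 1) / q - (j:ℕ) / q = (q:ℝ)⁻¹ := by field_simp; ring
    rw [this, ENNReal.ofReal_inv_of_pos hq', ENNReal.ofReal_natCast]
  rw [unitInterval.volume_apply]
  apply le_antisymm
  · rw [← hv, ← Real.volume_Icc]
    apply measure_mono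
    rintro _ ⟨x, hx, rfl⟩
    have hb := kap_bd q hq x
    rw [Set.mem_preimage, Set.mem_singleton_iff] at hx
    rw [hx] at hb
    constructor
    · rw [div_le_iff₀ hq']; linarith [hb.1]
    · rw [le_div_iff₀ hq']; linarith [hb.2]
  · rw [← hv, ← Real.volume_Ico]
    apply measure_mono
    intro x hx
    have h1 := hx.1
    have h2 := hx.2
    rw [div_le_iff₀ hq'] at h1
    rw [lt_div_iff₀ hq'] at h2
    have hx0 : 0 ≤ x := by
      by_contra hn
      push Not at hn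
      nlinarith
    have hx1 : x ≤ 1 := by
      by_contra hn
      push Not at hn
      nlinarith
    refine ⟨⟨x, hx0, hx1⟩, ?_, rfl⟩
    exact kap_eq q hq _ j (by simp only; linarith) (by simp only; linarith)

noncomputable abbrev mm : Measure (ℕ → unitInterval) :=
  Measure.infinitePi (fun _ : ℕ => (volume : Measure unitInterval))

lemma cells (n : ℕ) : ∃ c : (ℕ → unitInterval) → (Fin n × Fin n → Bool),
    (∀ x, MeasurableSet (c ⁻¹' {x})) ∧ (∀ x, mm (c ⁻¹' {x}) = ((2:ℝ≥0∞) ^ (n * n))⁻¹) ∧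
    (∀ ω ω' (i : Fin n), (∀ j, c ω (i, j) = c ω' (i, j)) →
      |(ω i : ℝ) - ω' i| ≤ ((2:ℝ) ^ n)⁻¹) := by
  classical
  have hq : 0 < 2 ^ n := by positivity
  let e : Fin (2 ^ n) ≃ (Fin n → Bool) := (Fintype.equivFinOfCardEq (by simp)).symm
  let c : (ℕ → unitInterval) → (Fin n × Fin n → Bool) := fun ω p => e (kap _ hq (ω p.1)) p.2
  let t : (Fin n × Fin n → Bool) → ℕ → Set unitInterval := fun x i =>
    if h : i < n then kap _ hq ⁻¹' {e.symm (fun j => x (⟨i, h⟩, j))} else Set.univ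
  have hc : ∀ x, c ⁻¹' {x} = Set.pi (↑(range n) : Set ℕ) (t x) := by
    intro x
    ext ω
    simp only [Set.mem_preimage, Set.mem_singleton_iff, Set.mem_pi, coe_range, Set.mem_Iio]
    constructor
    · intro h i hi
      simp only [t, dif_pos hi, Set.mem_preimage, Set.mem_singleton_iff]
      rw [Equiv.eq_symm_apply]
      funext j
      rw [← h]
    · intro h
      funext p
      have := h p.1 p.1.2
      simp only [t, dif_pos p.1.2, Set.mem_preimage, Set.mem_singleton_iff] at this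
      simp only [c, this, Equiv.apply_symm_apply]
  have ht : ∀ x i, MeasurableSet (t x i) := by
    intro x i
    simp only [t]
    split_ifs
    · exact kap_meas _ _ _
    · exact MeasurableSet.univ
  refine ⟨c, ?_, ?_, ?_⟩
  · intro x
    rw [hc]
    exact MeasurableSet.pi (Finset.countable_toSet _) (fun i _ => ht x i)
  · intro x
    rw [hc, Measure.infinitePi_pi _ (fun i _ => ht x i)]
    have : ∀ i ∈ range n, (volume : Measure unitInterval) (t x i) = ((2:ℝ≥0∞) ^ n)⁻¹ := by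
      intro i hi
      simp only [t, dif_pos (mem_range.1 hi)]
      rw [kap_vol]; simp
    rw [Finset.prod_congr rfl this, Finset.prod_const, card_range, ← ENNReal.inv_pow, ← pow_mul]
  · intro ω ω' i h
    have h1 : kap _ hq (ω i) = kap _ hq (ω' i) := e.injective (funext h)
    have a := kap_bd _ hq (ω i)
    have b := kap_bd _ hq (ω' i)
    rw [h1] at a
    have hq' : (0:ℝ) < 2 ^ n := by positivity
    push_cast at a b
    rw [inv_eq_one_div, le_div_iff₀ hq', ← abs_of_pos hq', ← abs_mul, abs_le]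
    constructor <;> nlinarith [a.1, a.2, b.1, b.2]

lemma compact (U : Set (ℕ → unitInterval)) (hU : IsOpen U) (ω : ℕ → unitInterval) (J : Set ℕ)
    (h : ∀ η : ℕ → unitInterval, (∀ i ∈ J, η i = ω i) → η ∈ U) :
    ∃ N : ℕ, ∀ n, N ≤ n → ∀ η : ℕ → unitInterval,
      (∀ i ∈ J, i < n → |(η i : ℝ) - ω i| ≤ ((2:ℝ) ^ n)⁻¹) → η ∈ U := by
  let K : ℕ → Set (ℕ → unitInterval) := fun n =>
    Uᶜ ∩ {η | ∀ i ∈ J, i < n → |(η i : ℝ) - ω i| ≤ ((2:ℝ) ^ n)⁻¹}
  have hcl : ∀ n, IsClosed (K n) := by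
    intro n
    apply hU.isClosed_compl.inter
    simp only [Set.setOf_forall]
    refine isClosed_iInter fun i => isClosed_iInter fun _ => isClosed_iInter fun _ => ?_
    exact isClosed_le (by fun_prop) continuous_const
  have hmono : ∀ a b, a ≤ b → K b ⊆ K a := by
    intro a b hab η hη
    refine ⟨hη.1, fun i hi hia => (hη.2 i hi (by omega)).trans ?_⟩
    exact inv_anti₀ (by positivity) (pow_le_pow_right₀ (by norm_num) hab)
  by_contra hn
  push Not at hn
  have hne : ∀ n, (K n).Nonempty := by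
    intro n
    obtain ⟨m, hm, η, h1, h2⟩ := hn n
    exact ⟨η, hmono n m hm ⟨h2, h1⟩⟩
  obtain ⟨η, hη⟩ := IsCompact.nonempty_iInter_of_sequence_nonempty_isCompact_isClosed K
    (fun i => hmono i (i+1) (by omega)) hne (hcl 0).isCompact hcl
  rw [Set.mem_iInter] at hη
  apply (hη 0).1
  apply h
  intro i hi
  apply Subtype.ext
  have hlim : Filter.Tendsto (fun n : ℕ => ((2:ℝ) ^ n)⁻¹) Filter.atTop (nhds 0) :=
    tendsto_inv_atTop_zero.comp (tendsto_pow_atTop_atTop_of_one_lt (by norm_num))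
  have : |(η i : ℝ) - ω i| ≤ 0 := by
    apply ge_of_tendsto hlim
    filter_upwards [Filter.eventually_gt_atTop i] with n hn
    exact (hη n).2 i hi hn
  have := abs_nonpos_iff.1 this
  linarith

def box (A B : Set (ℕ → unitInterval)) : Set (ℕ → unitInterval) :=
  {ω | ∃ J K : Set ℕ, Disjoint J K ∧
    (∀ η : ℕ → unitInterval, (∀ i ∈ J, η i = ω i) → η ∈ A) ∧
    (∀ η : ℕ → unitInterval, (∀ i ∈ K, η i = ω i) → η ∈ B)}

lemma open_case (U V : Set (ℕ → unitInterval)) (hU : IsOpen U) (hV : IsOpen V) :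
    mm (box U V) ≤ mm U * mm V := by
  classical
  choose c hc1 hc2 hc3 using cells
  let A : ∀ n, Finset (Fin n × Fin n → Bool) := fun n => univ.filter (fun x => c n ⁻¹' {x} ⊆ U)
  let B : ∀ n, Finset (Fin n × Fin n → Bool) := fun n => univ.filter (fun x => c n ⁻¹' {x} ⊆ V)
  let S : ∀ n, Finset (Fin n × Fin n → Bool) := fun n => univ.filter (fun x =>
    ∃ J : Set (Fin n × Fin n), (∀ y : Fin n × Fin n → Bool, (∀ i ∈ J, y i = x i) → y ∈ A n) ∧
      (∀ y : Fin n × Fin n → Bool, (∀ i, i ∉ J → y i = x i) → y ∈ B n))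
  have hm : ∀ n (T : Finset (Fin n × Fin n → Bool)),
      mm (c n ⁻¹' ↑T) = T.card * ((2:ℝ≥0∞) ^ (n * n))⁻¹ := by
    intro n T
    rw [← sum_measure_preimage_singleton T (fun y _ => hc1 n y)]
    simp only [hc2, sum_const, nsmul_eq_mul]
  have hD : ∀ n, mm (c n ⁻¹' ↑(S n)) ≤ mm U * mm V := by
    intro n
    have r := reimer (A n) (B n) (S n) (fun x hx => (mem_filter.1 hx).2)
    have r' : (2:ℝ≥0∞) ^ (n * n) * (S n).card ≤ (A n).card * (B n).card := by
      have : Fintype.card (Fin n × Fin n) = n * n := by simp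
      rw [this] at r
      exact_mod_cast r
    have hA : mm (c n ⁻¹' ↑(A n)) ≤ mm U := by
      apply measure_mono
      intro ω hω
      exact (mem_filter.1 hω).2 rfl
    have hB : mm (c n ⁻¹' ↑(B n)) ≤ mm V := by
      apply measure_mono
      intro ω hω
      exact (mem_filter.1 hω).2 rfl
    refine le_trans ?_ (mul_le_mul' hA hB)
    rw [hm, hm, hm]
    have h0 : (2:ℝ≥0∞) ^ (n * n) ≠ 0 := by simp
    have h1 : (2:ℝ≥0∞) ^ (n * n) ≠ ⊤ := by simp
    calc ((S n).card : ℝ≥0∞) * ((2:ℝ≥0∞) ^ (n * n))⁻¹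
        = ((2:ℝ≥0∞) ^ (n * n) * (S n).card) * (((2:ℝ≥0∞) ^ (n * n))⁻¹ * ((2:ℝ≥0∞) ^ (n * n))⁻¹) := by
          rw [mul_comm ((2:ℝ≥0∞) ^ (n * n)), mul_assoc, ← mul_assoc ((2:ℝ≥0∞) ^ (n * n)),
            ENNReal.mul_inv_cancel h0 h1, one_mul]
      _ ≤ ((A n).card * (B n).card) * (((2:ℝ≥0∞) ^ (n * n))⁻¹ * ((2:ℝ≥0∞) ^ (n * n))⁻¹) :=
          mul_le_mul_left r' _
      _ = _ := by ring
  have hsub : box U V ⊆ ⋃ N : ℕ, ⋂ n, ⋂ (_ : N ≤ n), c n ⁻¹' ↑(S n) := by
    rintro ω ⟨J, K, hJK, hJ, hK⟩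
    obtain ⟨N1, h1⟩ := compact U hU ω J hJ
    obtain ⟨N2, h2⟩ := compact V hV ω K hK
    refine Set.mem_iUnion.2 ⟨max N1 N2, ?_⟩
    simp only [Set.mem_iInter]
    intro n hn
    refine mem_filter.2 ⟨mem_univ _, {p | (p.1 : ℕ) ∈ J}, ?_, ?_⟩
    · intro y hy
      refine mem_filter.2 ⟨mem_univ _, ?_⟩
      intro η hη
      apply h1 n (le_trans (le_max_left _ _) hn)
      intro i hi hin
      apply hc3 n η ω ⟨i, hin⟩
      intro j
      rw [show c n η = y from hη]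
      exact hy _ hi
    · intro y hy
      refine mem_filter.2 ⟨mem_univ _, ?_⟩
      intro η hη
      apply h2 n (le_trans (le_max_right _ _) hn)
      intro i hi hin
      apply hc3 n η ω ⟨i, hin⟩
      intro j
      rw [show c n η = y from hη]
      exact hy _ (fun h => Set.disjoint_left.1 hJK h hi)
  refine (measure_mono hsub).trans ?_
  rw [Monotone.measure_iUnion]
  · apply iSup_le
    intro N
    refine le_trans (measure_mono ?_) (hD N)
    intro ω hω
    simp only [Set.mem_iInter] at hω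
    exact hω N le_rfl
  · intro a b hab ω hω
    simp only [Set.mem_iInter] at hω ⊢
    exact fun n hn => hω n (hab.trans hn)

theorem bkr (A B : Set (ℕ → unitInterval)) : mm (box A B) ≤ mm A * mm B := by
  have hA : mm A = ⨅ U : {U : Set (ℕ → unitInterval) // A ⊆ U ∧ IsOpen U}, mm U := by
    rw [Set.measure_eq_iInf_isOpen, iInf_subtype]
    simp only [iInf_and]
  have hB : mm B = ⨅ U : {U : Set (ℕ → unitInterval) // B ⊆ U ∧ IsOpen U}, mm U := by
    rw [Set.measure_eq_iInf_isOpen, iInf_subtype]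
    simp only [iInf_and]
  rw [hA, hB]
  apply ENNReal.le_iInf_mul_iInf
  · exact ⟨⟨Set.univ, Set.subset_univ _, isOpen_univ⟩, measure_ne_top _ _⟩
  · exact ⟨⟨Set.univ, Set.subset_univ _, isOpen_univ⟩, measure_ne_top _ _⟩
  · rintro ⟨U, hU1, hU2⟩ ⟨V, hV1, hV2⟩
    refine le_trans (measure_mono ?_) (open_case U V hU2 hV2)
    rintro ω ⟨J, K, h1, h2, h3⟩
    exact ⟨J, K, h1, fun η h => hU1 (h2 η h), fun η h => hV1 (h3 η h)⟩

end Pool.Agent.Lead.Reimer
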