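import Mathlib

set_option autoImplicit false

open Set Topology

namespace Pool.Agent.Retr

variable {Z : Type} [TopologicalSpace Z] (ρ : C(Z, Z))

abbrev K : Type := {z : Z // ρ z = z}
abbrev C0 : Type := {f : C(Z, ℝ) // ∀ z, f (ρ z) = 0}
def q (z : Z) : C0 ρ → ℝ := fun f => f.1 z
abbrev P : Type := Set.range (q ρ)

theorem cont_q : Continuous (q ρ) := continuous_pi fun f => f.1.continuous

def qq : C(Z, P ρ) := ⟨fun z => ⟨q ρ z, mem_range_self z⟩, (cont_q ρ).subtype_mk _⟩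

theorem qq_surj (y : P ρ) : ∃ z, qq ρ z = y := by
  obtain ⟨y, z, rfl⟩ := y
  exact ⟨z, rfl⟩

theorem qq_rho (z w : Z) : qq ρ (ρ z) = qq ρ (ρ w) := by
  apply Subtype.ext
  funext f
  show f.1 (ρ z) = f.1 (ρ w)
  rw [f.2, f.2]

variable (h : ∀ z, ρ (ρ z) = ρ z)

def rr : C(Z, K ρ) := ⟨fun z => ⟨ρ z, h z⟩, ρ.continuous.subtype_mk _⟩

/-- the part of `f` vanishing on the retract -/
def dif (f : C(Z ⊕ Unit, ℝ)) : C0 ρ :=
  ⟨⟨fun z => f (Sum.inl z) - f (Sum.inl (ρ z)), by fun_prop⟩, fun z => by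
    show f (Sum.inl (ρ z)) - f (Sum.inl (ρ (ρ z))) = 0
    rw [h, sub_self]⟩

def T (f : C(Z ⊕ Unit, ℝ)) : C(K ρ ⊕ P ρ, ℝ) :=
  ⟨Sum.elim (fun k => f (Sum.inl k.1)) (fun y => y.1 (dif ρ h f) + f (Sum.inr ())),
    Continuous.sumElim (by fun_prop)
      (((continuous_apply _).comp continuous_subtype_val).add continuous_const)⟩

def S (z0 : Z) (g : C(K ρ ⊕ P ρ, ℝ)) : C(Z ⊕ Unit, ℝ) :=
  ⟨Sum.elim (fun z => g (Sum.inl (rr ρ h z)) - g (Sum.inr (qq ρ (ρ z0))) + g (Sum.inr (qq ρ z)))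
      (fun _ => g (Sum.inr (qq ρ (ρ z0)))),
    Continuous.sumElim (by fun_prop) continuous_const⟩

theorem T_inl (f : C(Z ⊕ Unit, ℝ)) (k : K ρ) : T ρ h f (Sum.inl k) = f (Sum.inl k.1) := rfl

theorem T_inr (f : C(Z ⊕ Unit, ℝ)) (z : Z) :
    T ρ h f (Sum.inr (qq ρ z)) = f (Sum.inl z) - f (Sum.inl (ρ z)) + f (Sum.inr ()) := rfl

theorem S_inl (z0 : Z) (g : C(K ρ ⊕ P ρ, ℝ)) (z : Z) :
    S ρ h z0 g (Sum.inl z) =
      g (Sum.inl (rr ρ h z)) - g (Sum.inr (qq ρ (ρ z0))) + g (Sum.inr (qq ρ z)) := rfl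

theorem S_inr (z0 : Z) (g : C(K ρ ⊕ P ρ, ℝ)) (u : Unit) :
    S ρ h z0 g (Sum.inr u) = g (Sum.inr (qq ρ (ρ z0))) := rfl

def E (z0 : Z) : C(Z ⊕ Unit, ℝ) ≃ C(K ρ ⊕ P ρ, ℝ) where
  toFun := T ρ h
  invFun := S ρ h z0
  left_inv f := by
    ext x
    rcases x with z | u
    · rw [S_inl, T_inl, T_inr, T_inr, h]
      show f (Sum.inl (ρ z)) - _ + _ = _
      ring
    · rw [S_inr, T_inr, h]
      cases u
      ring
  right_inv g := by
    ext y
    rcases y with k | y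
    · rw [T_inl, S_inl]
      have h1 : rr ρ h k.1 = k := Subtype.ext k.2
      have h2 : qq ρ k.1 = qq ρ (ρ z0) := by
        rw [← k.2]; exact qq_rho ρ _ _
      rw [h1, h2]; ring
    · obtain ⟨z, rfl⟩ := qq_surj ρ y
      rw [T_inr, S_inl, S_inl, S_inr]
      have h1 : rr ρ h (ρ z) = rr ρ h z := Subtype.ext (h z)
      rw [h1, qq_rho ρ z z0]; ring

theorem E_rep (z0 : Z) (y : K ρ ⊕ P ρ) :
    ∃ a b c, ∀ f, E ρ h z0 f y = f a - f b + f c := by
  rcases y with k | y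
  · refine ⟨Sum.inl k.1, Sum.inl k.1, Sum.inl k.1, fun f => ?_⟩
    show T ρ h f (Sum.inl k) = _
    rw [T_inl]; ring
  · obtain ⟨z, rfl⟩ := qq_surj ρ y
    exact ⟨_, _, _, fun f => T_inr ρ h f z⟩

theorem Es_rep (z0 : Z) (x : Z ⊕ Unit) :
    ∃ a b c, ∀ g, (E ρ h z0).symm g x = g a - g b + g c := by
  rcases x with z | u
  · exact ⟨_, _, _, fun g => S_inl ρ h z0 g z⟩
  · refine ⟨Sum.inr (qq ρ (ρ z0)), Sum.inr (qq ρ (ρ z0)), Sum.inr (qq ρ (ρ z0)), fun g => ?_⟩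
    show S ρ h z0 g (Sum.inr u) = _
    rw [S_inr]; ring

section gen
variable {X Y : Type} [TopologicalSpace X] [TopologicalSpace Y]

theorem unif_of_rep (Φ : C(X, ℝ) → C(Y, ℝ))
    (hΦ : ∀ y, ∃ a b c, ∀ f, Φ f y = f a - f b + f c) (B : Finset Y) (ε : ℝ) (hε : 0 < ε) :
    ∃ A : Finset X, ∃ δ : ℝ, 0 < δ ∧ ∀ f g : C(X, ℝ), (∀ x ∈ A, |f x - g x| < δ) →
      ∀ y ∈ B, |Φ f y - Φ g y| < ε := by
  classical
  choose a b c habc using hΦ
  refine ⟨B.image a ∪ B.image b ∪ B.image c, ε / 3, by positivity, fun f g hfg y hy => ?_⟩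
  have h1 := abs_lt.1 (hfg (a y) (by simp only [Finset.mem_union, Finset.mem_image]; left; left; exact ⟨y, hy, rfl⟩))
  have h2 := abs_lt.1 (hfg (b y) (by simp only [Finset.mem_union, Finset.mem_image]; left; right; exact ⟨y, hy, rfl⟩))
  have h3 := abs_lt.1 (hfg (c y) (by simp only [Finset.mem_union, Finset.mem_image]; right; exact ⟨y, hy, rfl⟩))
  rw [habc, habc, abs_lt]
  constructor <;> linarith [h1.1, h1.2, h2.1, h2.2, h3.1, h3.2]

theorem cont_of_rep (Φ : C(X, ℝ) → C(Y, ℝ))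
    (hΦ : ∀ y, ∃ a b c, ∀ f, Φ f y = f a - f b + f c) :
    @Continuous C(X, ℝ) (Y → ℝ)
      (TopologicalSpace.induced (fun g : C(X, ℝ) => (g : X → ℝ)) inferInstance)
      inferInstance (fun g => ((Φ g : C(Y, ℝ)) : Y → ℝ)) := by
  let _ : TopologicalSpace C(X, ℝ) :=
    TopologicalSpace.induced (fun g : C(X, ℝ) => (g : X → ℝ)) inferInstance
  have hev : ∀ x : X, Continuous fun g : C(X, ℝ) => g x := fun x =>
    (continuous_apply x).comp continuous_induced_dom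
  refine continuous_pi fun y => ?_
  obtain ⟨a, b, c, habc⟩ := hΦ y
  have : (fun g : C(X, ℝ) => Φ g y) = fun g => g a - g b + g c := funext habc
  rw [this]
  exact ((hev a).sub (hev b)).add (hev c)

/-- sums of Tychonoff spaces are Tychonoff -/
theorem t35_sum [T35Space X] [T35Space Y] : T35Space (X ⊕ Y) := by
  have hcr : CompletelyRegularSpace (X ⊕ Y) := by
    refine ⟨fun x C hC hx => ?_⟩
    rcases x with x | y
    · obtain ⟨f, hf, h0, h1⟩ := CompletelyRegularSpace.completely_regular x (Sum.inl ⁻¹' C)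
        (hC.preimage continuous_inl) hx
      refine ⟨Sum.elim f (fun _ => 1), hf.sumElim continuous_const, h0, ?_⟩
      rintro (a | a) ha
      · exact h1 ha
      · rfl
    · obtain ⟨f, hf, h0, h1⟩ := CompletelyRegularSpace.completely_regular y (Sum.inr ⁻¹' C)
        (hC.preimage continuous_inr) hx
      refine ⟨Sum.elim (fun _ => 1) f, continuous_const.sumElim hf, h0, ?_⟩
      rintro (a | a) ha
      · rfl
      · exact h1 ha
  exact {}

end gen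

end Pool.Agent.Retr
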