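import Pool.Agent.Lead.RkDefs

namespace Pool.Agent.Lead.Rk
open Ordinal hiding univ
open Set Filter Topology Classical

variable {X : Type}

section
variable [TopologicalSpace X]

/-- the canonical sequence -/
noncomputable def G (B C : Set X) (o : Ordinal.{0}) : Set X :=
  limitRecOn o univ (fun θ S => closure (S ∩ if 2 ∣ θ then C else B))
    (fun l _ f => ⋂ θ, ⋂ h : θ < l, f θ h)

lemma G_zero (B C : Set X) : G B C 0 = univ := limitRecOn_zero ..

lemma G_succ (B C : Set X) (θ) :
    G B C (θ + 1) = closure (G B C θ ∩ if 2 ∣ θ then C else B) := limitRecOn_add_one ..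

lemma G_lim (B C : Set X) {l} (h : Order.IsSuccLimit l) : G B C l = ⋂ θ < l, G B C θ :=
  limitRecOn_limit _ _ _ _ h

lemma G_closed (B C : Set X) (o) : IsClosed (G B C o) := by
  induction o using limitRecOn with
  | zero => rw [G_zero]; exact isClosed_univ
  | add_one o _ => rw [G_succ]; exact isClosed_closure
  | limit o h ih => rw [G_lim _ _ h]; exact isClosed_biInter ih

lemma G_anti (B C : Set X) : Antitone (G B C) := by
  intro a b hab
  induction b using limitRecOn with
  | zero => rw [nonpos_iff_eq_zero.1 hab]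
  | add_one o ih =>
    rcases hab.lt_or_eq with h | rfl
    · rw [G_succ]
      exact ((G_closed B C o).closure_subset_iff.2 inter_subset_left).trans
        (ih (Order.lt_add_one_iff.1 h))
    · rfl
  | limit o h ih =>
    rcases hab.lt_or_eq with h' | rfl
    · rw [G_lim _ _ h]; exact biInter_subset_of_mem h'
    · rfl

lemma G_mono {B C B' C' : Set X} (hB : B ⊆ B') (hC : C ⊆ C') (o) : G B C o ⊆ G B' C' o := by
  induction o using limitRecOn with
  | zero => rw [G_zero, G_zero]
  | add_one o ih =>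
    rw [G_succ, G_succ]
    exact closure_mono (inter_subset_inter ih (by split_ifs <;> assumption))
  | limit o h ih => rw [G_lim _ _ h, G_lim _ _ h]; exact iInter₂_mono ih

lemma stage {F : Ordinal.{0} → Set X} {l} (h : IsSeq F l) (x : X) :
    ∃ η < l, x ∈ F η ∧ x ∉ F (η + 1) := by
  by_contra hc
  push Not at hc
  have : ∀ η, x ∈ F η := by
    intro η
    induction η using limitRecOn with
    | zero => rw [h.2.2.1]; trivial
    | add_one o ih => exact hc o (lt_of_not_ge fun h' => by simpa [h.2.2.2.2 o h'] using ih) ih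
    | limit o ho ih => rw [h.2.2.2.1 o ho]; exact mem_iInter₂.2 ih
  simpa [h.2.2.2.2 l le_rfl] using this l

lemma diff_iff {F : Ordinal.{0} → Set X} (h : Antitone F) {x η} (h1 : x ∈ F η)
    (h2 : x ∉ F (η + 1)) : x ∈ Diff F ↔ 2 ∣ η := by
  refine ⟨fun hx => ?_, fun e => mem_iUnion₂.2 ⟨η, e, h1, h2⟩⟩
  obtain ⟨θ, e, a, b⟩ := mem_iUnion₂.1 hx
  rcases lt_trichotomy θ η with c | rfl | c
  · exact absurd (h (Order.add_one_le_iff.2 c) h1) b
  · exact e
  · exact absurd (h (Order.add_one_le_iff.2 c) a) h2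

lemma alpha_iff {B C : Set X} {θ} : AlphaLe B C θ ↔ G B C θ = ∅ := by
  constructor
  · rintro ⟨l, hl, F, h, hB, hC⟩
    have : ∀ η, G B C η ⊆ F η := by
      intro η
      induction η using limitRecOn with
      | zero => rw [h.2.2.1]; exact subset_univ _
      | add_one o ih =>
        rw [G_succ]
        refine (h.1 _).closure_subset_iff.2 fun x ⟨a, b⟩ => by_contra fun c => ?_
        have := diff_iff h.2.1 (ih a) c
        split_ifs at b with e
        exacts [disjoint_left.1 hC (this.2 e) b, e (this.1 (hB b))]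
      | limit o ho ih => rw [G_lim _ _ ho, h.2.2.2.1 o ho]; exact iInter₂_mono ih
    exact subset_eq_empty (this θ) (h.2.2.2.2 θ hl)
  · intro e
    have h : IsSeq (G B C) θ := ⟨G_closed B C, G_anti B C, G_zero B C, fun _ => G_lim B C,
      fun η h => subset_eq_empty (G_anti B C h) e⟩
    refine ⟨θ, le_rfl, _, h, fun x hx => ?_, disjoint_left.2 fun x hx hx' => ?_⟩ <;>
      obtain ⟨η, -, a, b⟩ := stage h x
    · refine (diff_iff h.2.1 a b).2 (by_contra fun c => b ?_)
      rw [G_succ, if_neg c]; exact subset_closure ⟨a, hx⟩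
    · refine b ?_
      rw [G_succ, if_pos ((diff_iff h.2.1 a b).1 hx)]; exact subset_closure ⟨a, hx'⟩

lemma G_three {K : Set X} (hK : IsClosed K) : G K Kᶜ 3 = ∅ := by
  have h1 : ¬ (2 : Ordinal.{0}) ∣ 1 := fun h => by
    have := Ordinal.le_of_dvd one_ne_zero h
    exact absurd this (by simp)
  have h2 : G K Kᶜ (1 + 1) ⊆ K := by
    rw [G_succ, if_neg h1]; exact hK.closure_subset_iff.2 inter_subset_right
  rw [show (3 : Ordinal.{0}) = 2 + 1 by norm_num, G_succ, if_pos dvd_rfl,
    show G K Kᶜ 2 ∩ Kᶜ = ∅ from eq_empty_of_forall_notMem fun x ⟨a, b⟩ =>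
      b (h2 (by rwa [one_add_one_eq_two])), closure_empty]

end

lemma cnt {l : Ordinal.{0}} (h : l < ω₁) : (Iio l).Countable := by
  rw [← Cardinal.le_aleph0_iff_set_countable, Cardinal.mk_Iio_ordinal, Cardinal.lift_le_aleph0,
    ← Order.lt_succ_iff, Cardinal.succ_aleph0, ← Cardinal.lt_ord, Cardinal.ord_aleph]
  exact h

variable [MetricSpace X]

lemma diff_gd {F : Ordinal.{0} → Set X} {l} (h : IsSeq F l) (hl : l < ω₁) :
    IsGδ (Diff F) ∧ IsGδ (Diff F)ᶜ := by
  have key : ∀ P : Ordinal.{0} → Prop,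
      IsGδ (⋂ η ∈ {η | η < l ∧ P η}, ((F η)ᶜ ∪ F (η + 1))) := fun P =>
    IsGδ.biInter ((cnt hl).mono fun _ h => h.1) fun η _ =>
      (h.1 η).isOpen_compl.isGδ.union (h.1 _).isGδ
  constructor
  · convert key fun η => ¬ 2 ∣ η
    ext x
    obtain ⟨η, a, b, c⟩ := stage h x
    simp only [mem_iInter, mem_union, mem_compl_iff, ← imp_iff_not_or]
    exact ⟨fun hx θ hθ d => by_contra fun e => hθ.2 ((diff_iff h.2.1 d e).1 hx),
      fun hx => (diff_iff h.2.1 b c).2 (by_contra fun e => c (hx η ⟨a, e⟩ b))⟩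
  · convert key fun η => 2 ∣ η
    ext x
    obtain ⟨η, a, b, c⟩ := stage h x
    simp only [mem_iInter, mem_union, mem_compl_iff, ← imp_iff_not_or]
    exact ⟨fun hx θ hθ d => by_contra fun e => hx ((diff_iff h.2.1 d e).2 hθ.2),
      fun hx e => c (hx η ⟨a, (diff_iff h.2.1 b c).1 e⟩ b)⟩

lemma shrink (x : X) (K : ℕ → Set X) (hK : ∀ n, IsClosed (K n))
    (h : ∀ n, K n ⊆ Metric.ball x (1 / ((n : ℝ) + 1))) : IsClosed (insert x (⋃ n, K n)) := by
  refine isClosed_of_closure_subset fun y hy => by_contra fun hc => ?_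
  have hx : 0 < dist y x := dist_pos.2 fun e => hc (Or.inl e)
  obtain ⟨N, hN⟩ := exists_nat_one_div_lt (half_pos hx)
  have : insert x (⋃ n, K n) ⊆ Metric.closedBall x (dist y x / 2) ∪ ⋃ n ∈ Iio N, K n := by
    rintro z (rfl | hz)
    · exact Or.inl (Metric.mem_closedBall_self (by positivity))
    · obtain ⟨n, hn⟩ := mem_iUnion.1 hz
      by_cases a : n < N
      · exact Or.inr (mem_biUnion a hn)
      · refine Or.inl (Metric.mem_closedBall.2 ((h n hn).le.trans (le_trans ?_ hN.le)))
        exact Nat.one_div_le_one_div (not_lt.1 a)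
  rcases (Metric.isClosed_closedBall.union
    ((finite_Iio N).isClosed_biUnion fun n _ => hK n)).closure_subset_iff.2 this hy with a | a
  · have := Metric.mem_closedBall.1 a
    linarith
  · obtain ⟨n, -, hn⟩ := mem_iUnion₂.1 a
    exact hc (Or.inr (mem_iUnion.2 ⟨n, hn⟩))

lemma tree (B C : Set X) (θ : Ordinal.{0}) : θ < ω₁ → ∀ x ∈ G B C θ, ∀ ε > 0, ∃ K : Set X,
    IsClosed K ∧ K.Countable ∧ K ⊆ Metric.ball x ε ∧ K ⊆ insert x (B ∪ C) ∧
      x ∈ G (B ∩ K) (C ∩ K) θ := by
  have glue : ∀ (x : X) (ε : ℝ), 0 < ε → ∀ K : ℕ → Set X, (∀ n, IsClosed (K n) ∧ (K n).Countable ∧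
      K n ⊆ Metric.ball x (min ε (1 / ((n : ℝ) + 1))) ∧ K n ⊆ insert x (B ∪ C)) →
      IsClosed (insert x (⋃ n, K n)) ∧ (insert x (⋃ n, K n)).Countable ∧
      insert x (⋃ n, K n) ⊆ Metric.ball x ε ∧ insert x (⋃ n, K n) ⊆ insert x (B ∪ C) :=
    fun x ε hε K h => ⟨shrink x K (fun n => (h n).1) fun n =>
      (h n).2.2.1.trans (Metric.ball_subset_ball (min_le_right _ _)),
      (countable_iUnion fun n => (h n).2.1).insert x,
      insert_subset (Metric.mem_ball_self hε) (iUnion_subset fun n =>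
        (h n).2.2.1.trans (Metric.ball_subset_ball (min_le_left _ _))),
      insert_subset (mem_insert _ _) (iUnion_subset fun n => (h n).2.2.2)⟩
  have sub : ∀ (x : X) (K : ℕ → Set X) n, K n ⊆ insert x (⋃ n, K n) := fun x K n =>
    (subset_iUnion K n).trans (subset_insert _ _)
  induction θ using limitRecOn with
  | zero =>
    intro _ x _ ε hε
    exact ⟨{x}, isClosed_singleton, countable_singleton x, by simpa, by simp, by simp [G_zero]⟩
  | add_one o ih =>
    intro ho x hx ε hε
    rw [G_succ, Metric.mem_closure_iff] at hx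
    have hr : ∀ n : ℕ, 0 < min ε (1 / ((n : ℝ) + 1)) / 2 := fun n => by positivity
    choose c hc hd using fun n => hx _ (hr n)
    choose K h1 h2 h3 h4 h5 using fun n => ih ((lt_add_one o).trans ho) (c n) (hc n).1 _ (hr n)
    have hc' : ∀ n, c n ∈ B ∪ C := fun n => by
      have := (hc n).2
      split_ifs at this
      exacts [Or.inr this, Or.inl this]
    obtain ⟨a1, a2, a3, a4⟩ := glue x ε hε (fun n => insert (c n) (K n)) fun n =>
      ⟨by simpa using isClosed_singleton.union (h1 n), (h2 n).insert _,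
        (insert_subset (Metric.mem_ball_self (hr n)) (h3 n)).trans
          (Metric.ball_subset_ball' (by rw [dist_comm]; linarith [hd n])),
        insert_subset (Or.inr (hc' n)) ((h4 n).trans (insert_subset (Or.inr (hc' n))
          (subset_insert _ _)))⟩
    refine ⟨_, a1, a2, a3, a4, ?_⟩
    rw [G_succ, Metric.mem_closure_iff]
    intro δ hδ
    obtain ⟨n, hn⟩ := exists_nat_one_div_lt hδ
    have s := sub x (fun n => insert (c n) (K n)) n
    refine ⟨c n, ⟨G_mono (inter_subset_inter_right _ ((subset_insert _ _).trans s))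
      (inter_subset_inter_right _ ((subset_insert _ _).trans s)) _ (h5 n), ?_⟩, ?_⟩
    · have := (hc n).2
      split_ifs at this ⊢ <;> exact ⟨this, s (mem_insert _ _)⟩
    · linarith [hd n, hr n, min_le_right ε (1 / ((n : ℝ) + 1))]
  | limit o ho ih =>
    intro hl x hx ε hε
    obtain ⟨e, he⟩ := (cnt hl).exists_eq_range ⟨0, ho.bot_lt⟩
    have hr : ∀ n : ℕ, 0 < min ε (1 / ((n : ℝ) + 1)) := fun n => by positivity
    have hm : ∀ n, e n < o := fun n => show e n ∈ Iio o from he ▸ mem_range_self n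
    choose K h1 h2 h3 h4 h5 using fun n =>
      ih (e n) (hm n) ((hm n).trans hl) x (G_anti B C (hm n).le hx) _ (hr n)
    obtain ⟨a1, a2, a3, a4⟩ := glue x ε hε K fun n => ⟨h1 n, h2 n, h3 n, h4 n⟩
    refine ⟨_, a1, a2, a3, a4, ?_⟩
    rw [G_lim _ _ ho]
    refine mem_iInter₂.2 fun θ hθ => ?_
    obtain ⟨n, rfl⟩ : θ ∈ range e := he ▸ hθ
    exact G_mono (inter_subset_inter_right _ (sub x K n))
      (inter_subset_inter_right _ (sub x K n)) _ (h5 n)

end Pool.Agent.Lead.Rk
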