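import Mathlib

/-! Separation rank and ranks on bounded Baire class 1 functions. -/
namespace Pool.Agent.Lead.Rk
open Ordinal hiding univ
open Set Filter Topology

variable {X : Type} [TopologicalSpace X]

/-- `θ ≲ θ'`. -/
def Le (θ θ' : Ordinal.{0}) : Prop := ∀ η, 1 ≤ η → η < ω₁ → θ' ≤ ω ^ η → θ ≤ ω ^ η

/-- Bounded Baire class 1 functions. -/
def BB (f : X → ℝ) : Prop :=
  (∃ g : ℕ → X → ℝ, (∀ n, Continuous (g n)) ∧ ∀ x, Tendsto (fun n => g n x) atTop (𝓝 (f x))) ∧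
    ∃ M, ∀ x, |f x| ≤ M

/-- Continuous decreasing sequences of closed sets of length `l` (empty from `l` on). -/
def IsSeq (F : Ordinal.{0} → Set X) (l : Ordinal.{0}) : Prop :=
  (∀ η, IsClosed (F η)) ∧ Antitone F ∧ F 0 = univ ∧
    (∀ η, Order.IsSuccLimit η → F η = ⋂ θ < η, F θ) ∧ ∀ η, l ≤ η → F η = ∅

/-- The transfinite difference (an ordinal is even iff it is `2 * c`). -/
def Diff (F : Ordinal.{0} → Set X) : Set X := ⋃ η, ⋃ (_ : 2 ∣ η), F η \ F (η + 1)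

/-- `α₁(B, C) ≤ θ`. -/
def AlphaLe (B C : Set X) (θ : Ordinal.{0}) : Prop :=
  ∃ l ≤ θ, ∃ F, IsSeq F l ∧ B ⊆ Diff F ∧ Disjoint (Diff F) C

/-- `α₁(f) ≤ θ`. -/
def AlphaFLe (f : X → ℝ) (θ : Ordinal.{0}) : Prop :=
  ∀ p q : ℚ, p < q → AlphaLe {x | f x ≤ p} {x | (q : ℝ) ≤ f x} θ

/-- Properties (P1)–(P4) of a rank on `X`. -/
structure Props (ρ : (X → ℝ) → Ordinal.{0}) : Prop where
  p1 : ∀ A : Set X, IsGδ A → IsGδ Aᶜ → ∀ η, 1 ≤ η → η < ω₁ →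
    (ρ (A.indicator 1) ≤ ω ^ η ↔ AlphaLe A Aᶜ (ω ^ η))
  p2a : ∀ f, BB f → ∀ c : ℝ, c ≠ 0 → Le (ρ (c • f)) (ρ f) ∧ Le (ρ f) (ρ (c • f))
  p2b : ∀ f g, BB f → BB g → Le (ρ (f + g)) (max (ρ f) (ρ g))
  p3 : ∀ f (g : ℕ → X → ℝ), BB f → (∀ n, BB (g n)) → TendstoUniformly g f atTop →
    Le (ρ f) (⨆ n, ρ (g n))
  p4 : ∀ f, BB f → ∀ (h : ℝ → ℝ) (K : NNReal), LipschitzWith K h → Le (ρ (h ∘ f)) (ρ f)

end Pool.Agent.Lead.Rk
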