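import Pool.Agent.Lead.RsDefs

namespace Pool.Agent.Lead.Rs

open Filter Set Topology Pointwise

abbrev tq : TopologicalSpace ℚ := inferInstance

noncomputable def de : ℕ ≃ ℚ := (Denumerable.eqv ℚ).symm

open Classical in
noncomputable def uu (f : ℕ → ℕ) (m : ℕ) : ℚ :=
  if ∃ n : ℕ, |de m| < 1 / ((n : ℚ) + 1) ∧ m ≤ f n then de m
  else 0

lemma basis : (𝓝 (0 : ℚ)).HasBasis (fun _ => True) fun n : ℕ => {x | |x| < 1 / ((n : ℚ) + 1)} := by
  refine Metric.nhds_basis_ball_inv_nat_succ.congr (fun _ => Iff.rfl) fun n _ => ?_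
  ext x
  simp only [Metric.mem_ball, Rat.dist_eq, Rat.cast_zero, sub_zero, mem_ofPred_eq]
  rw [← Rat.cast_lt (K := ℝ)]
  push_cast
  rfl

lemma uu_tendsto (f : ℕ → ℕ) : Tendsto (uu f) atTop (𝓝 0) := by
  refine basis.tendsto_right_iff.2 fun k _ => ?_
  filter_upwards [eventually_gt_atTop ((Finset.range k).sup f)] with m hm
  simp only [uu]
  split_ifs with h
  · obtain ⟨n, h1, h2⟩ := h
    have : k ≤ n := by
      by_contra hk
      have := Finset.le_sup (f := f) (Finset.mem_range.2 (not_le.1 hk))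
      omega
    exact h1.trans_le (Nat.one_div_le_one_div this)
  · rw [abs_zero]; positivity

lemma upper {F : Set (ℕ → ℕ)} (hF : ¬ ∃ g : ℕ → ℕ, ∀ f ∈ F, ∀ᶠ n in atTop, f n ≤ g n) :
    Generates (uu '' F) tq := by
  refine ⟨⟨inferInstance, inferInstance, by rintro _ ⟨f, -, rfl⟩; exact uu_tendsto f⟩,
    fun t ⟨h1, _, h3⟩ => ?_⟩
  rw [← continuous_id_iff_le]
  refine @continuous_of_continuousAt_zero ℚ tq _ _ ℚ (ℚ →+ ℚ) _ t h1.toContinuousAdd _ _
    (AddMonoidHom.id ℚ) fun V hV => ?_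
  have hV0 : (0 : ℚ) ∈ V := @mem_of_mem_nhds ℚ t _ _ hV
  obtain ⟨k, hk⟩ : ∃ k, ¬ ∃ g : ℕ → ℕ, ∀ f ∈ F, (∀ m ≥ k, uu f m ∈ V) →
      ∀ᶠ n in atTop, f n ≤ g n := by
    by_contra h
    push Not at h
    choose g hg using h
    refine hF ⟨fun n => (Finset.range (n + 1)).sup fun k => g k n, fun f hf => ?_⟩
    obtain ⟨k, hk⟩ := eventually_atTop.1 (h3 _ ⟨f, hf, rfl⟩ hV)
    filter_upwards [hg k f hf hk, eventually_ge_atTop k] with n a b
    exact a.trans (Finset.le_sup (f := fun k => g k n) (Finset.mem_range.2 (by omega)))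
  have ev : ∀ᶠ n : ℕ in atTop, ∀ m ∈ Finset.range k, de m ≠ 0 →
      1 / ((n : ℚ) + 1) < |de m| := by
    refine (eventually_all_finset _).2 fun m _ => ?_
    by_cases h : de m = 0
    · simp [h]
    · obtain ⟨n, hn⟩ := exists_nat_one_div_lt (abs_pos.2 h)
      filter_upwards [eventually_ge_atTop n] with l hl _
      exact (Nat.one_div_le_one_div hl).trans_lt hn
  by_contra hV'
  have key : ∀ n : ℕ, ∃ b, (∀ m ∈ Finset.range k, de m ≠ 0 →
      1 / ((n : ℚ) + 1) < |de m|) → ∀ f ∈ F, (∀ m ≥ k, uu f m ∈ V) →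
      f n ≤ b := fun n => by
    obtain ⟨x, hx, hx'⟩ := not_subset.1 fun h => hV' (basis.mem_iff.2 ⟨n, trivial, h⟩)
    refine ⟨de.symm x, fun h f _ hf => ?_⟩
    by_contra hb
    have e := de.apply_symm_apply x
    have : k ≤ de.symm x := by
      by_contra hk
      have := h _ (Finset.mem_range.2 (not_le.1 hk)) (by rw [e]; rintro rfl; exact hx' hV0)
      rw [e] at this
      exact lt_asymm this hx
    have := hf _ this
    rw [uu, if_pos ⟨n, by rw [e]; exact hx, by omega⟩, e] at this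
    exact hx' this
  choose g hg using key
  exact hk ⟨g, fun f hf h => ev.mono fun n hn => hg n hn f hf h⟩

section
variable (A : ℕ → Set ℚ)

def BB (φ : ℕ → ℕ) : ℕ → Set ℚ
  | 0 => {0}
  | n + 1 => BB φ n + A (φ n)

variable {A} (h0 : ∀ k, (0 : ℚ) ∈ A k) (ha : Antitone A) (hn : ∀ k, -A k = A k)

include h0 in
lemma BB_mono (φ : ℕ → ℕ) : Monotone (BB A φ) :=
  monotone_nat_of_le_succ fun _ x hx => ⟨x, hx, 0, h0 _, add_zero x⟩

include ha in
lemma BB_anti {φ ψ : ℕ → ℕ} (h : φ ≤ ψ) (n : ℕ) : BB A ψ n ⊆ BB A φ n := by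
  induction n with
  | zero => rfl
  | succ n ih => exact add_subset_add ih (ha (h n))

include ha in
lemma BB_add (φ : ℕ → ℕ) (n : ℕ) : BB A (fun i => max (φ (2 * i)) (φ (2 * i + 1))) n +
    BB A (fun i => max (φ (2 * i)) (φ (2 * i + 1))) n ⊆ BB A φ (2 * n) := by
  induction n with
  | zero => simp [BB]
  | succ n ih =>
    rw [show 2 * (n + 1) = 2 * n + 1 + 1 by ring, BB, BB, BB, add_add_add_comm,
      add_assoc (BB A φ _)]
    exact add_subset_add ih (add_subset_add (ha (le_max_left _ _)) (ha (le_max_right _ _)))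

include hn in
lemma BB_neg (φ : ℕ → ℕ) (n : ℕ) : -BB A φ n = BB A φ n := by
  induction n with
  | zero => simp [BB]
  | succ n ih => rw [BB, neg_add, ih, hn]

@[reducible] def fb : AddGroupFilterBasis ℚ :=
  addGroupFilterBasisOfComm (range fun φ => ⋃ n, BB A φ n) (range_nonempty _)
    (by
      rintro _ _ ⟨φ, rfl⟩ ⟨ψ, rfl⟩
      exact ⟨_, ⟨φ ⊔ ψ, rfl⟩, subset_inter (iUnion_mono (BB_anti ha le_sup_left))
        (iUnion_mono (BB_anti ha le_sup_right))⟩)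
    (by rintro _ ⟨φ, rfl⟩; exact mem_iUnion.2 ⟨0, rfl⟩)
    (by
      rintro _ ⟨φ, rfl⟩
      refine ⟨_, ⟨fun i => max (φ (2 * i)) (φ (2 * i + 1)), rfl⟩, ?_⟩
      rintro _ ⟨x, hx, y, hy, rfl⟩
      obtain ⟨n, hx⟩ := mem_iUnion.1 hx
      obtain ⟨m, hy⟩ := mem_iUnion.1 hy
      exact mem_iUnion.2 ⟨_, BB_add ha φ (max n m) ⟨x, BB_mono h0 _ (le_max_left _ _) hx,
        y, BB_mono h0 _ (le_max_right _ _) hy, rfl⟩⟩)
    (by
      rintro _ ⟨φ, rfl⟩
      refine ⟨_, ⟨φ, rfl⟩, fun x hx => ?_⟩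
      obtain ⟨n, hx⟩ := mem_iUnion.1 hx
      exact mem_iUnion.2 ⟨n, by rw [← BB_neg hn]; simpa using hx⟩)

end

lemma finer {K : Set ℚ} (hK : IsCompact K) (h0 : (0 : ℚ) ∈ K) (hn : -K = K) {S : Set (ℕ → ℚ)}
    (hS : ∀ u ∈ S, ∀ᶠ i in atTop, u i ∈ K) : ¬ Generates S tq := by
  intro hG
  let A : ℕ → Set ℚ := fun k => K ∩ {x | |x| ≤ 1 / ((k : ℚ) + 1)}
  have a0 : ∀ k, (0 : ℚ) ∈ A k := fun k => ⟨h0, by show |(0 : ℚ)| ≤ _; rw [abs_zero]; positivity⟩
  have aa : Antitone A := fun k l h x hx => ⟨hx.1, le_trans (b := 1 / ((l : ℚ) + 1)) hx.2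
    (Nat.one_div_le_one_div h)⟩
  have an : ∀ k, -A k = A k := fun k => by
    ext x
    simp only [A, Set.mem_neg, mem_inter_iff, mem_ofPred_eq, abs_neg]
    rw [← Set.mem_neg, hn]
  have ac : ∀ k, IsCompact (A k) := fun k =>
    hK.inter_right (isClosed_le continuous_abs continuous_const)
  have step : ∀ (n : ℕ) (p : Set ℚ × Finset ℚ), IsCompact p.1 ∧ (∀ y ∈ p.2, y ∉ p.1) →
      ∃ (k : ℕ) (x : ℚ), |x| < 1 / ((n : ℚ) + 1) ∧ ∀ y ∈ insert x p.2, y ∉ p.1 + A k := by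
    rintro n ⟨C, T⟩ ⟨hC, hT⟩
    have : ∀ᶠ z in 𝓝 (0 : ℚ), ∀ y ∈ T, y - z ∉ C := (eventually_all_finset _).2 fun y hy =>
      (continuous_const.sub continuous_id).continuousAt.eventually_mem
        (hC.isClosed.isOpen_compl.mem_nhds (by simpa using hT y hy))
    obtain ⟨k, -, hk⟩ := basis.mem_iff.1 this
    obtain ⟨x, hx, hx'⟩ := not_subset.1 fun h : {x : ℚ | |x| < 1 / ((n : ℚ) + 1)} ⊆ C + A (k + 1) =>
      (Rat.interior_compact_eq_empty (hC.add (ac _)) ▸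
        mem_interior_iff_mem_nhds.2 (basis.mem_iff.2 ⟨n, trivial, h⟩) : (0 : ℚ) ∈ (∅ : Set ℚ))
    refine ⟨k + 1, x, hx, fun y hy => (Finset.mem_insert.1 hy).elim (fun e => e ▸ hx') ?_⟩
    rintro hy ⟨c, hc, z, hz, rfl⟩
    have hz' : |z| < 1 / ((k : ℚ) + 1) :=
      lt_of_le_of_lt hz.2 (Nat.one_div_lt_one_div k.lt_succ_self)
    exact hk hz' _ hy (by simpa using hc)
  choose! k x hx using step
  let s : ℕ → Set ℚ × Finset ℚ := fun n => Nat.rec ({0}, ∅)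
    (fun n p => (p.1 + A (k n p), insert (x n p) p.2)) n
  have inv : ∀ n, IsCompact (s n).1 ∧ ∀ y ∈ (s n).2, y ∉ (s n).1 := fun n => by
    induction n with
    | zero => exact ⟨isCompact_singleton, by simp [s]⟩
    | succ n ih => exact ⟨ih.1.add (ac _), (hx n _ ih).2⟩
  have eB : ∀ n, BB A (fun n => k n (s n)) n = (s n).1 := fun n => by
    induction n with
    | zero => rfl
    | succ n ih => rw [BB, ih]
  have sm : Monotone fun n => (s n).2 := monotone_nat_of_le_succ fun n => Finset.subset_insert _ _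
  have le := hG.2 (tq ⊓ (fb a0 aa an).topology) ⟨topologicalAddGroup_inf inferInstance
    (fb a0 aa an).isTopologicalAddGroup, t2Space_antitone inf_le_left inferInstance, fun u hu => by
      rw [nhds_inf]
      refine tendsto_inf.2 ⟨hG.1.2.2 u hu, (fb a0 aa an).nhds_zero_hasBasis.tendsto_right_iff.2 ?_⟩
      rintro _ ⟨φ, rfl⟩
      filter_upwards [hS u hu, basis.tendsto_right_iff.1 (hG.1.2.2 u hu) (φ 0) trivial] with i a b
      exact mem_iUnion.2 ⟨1, 0, rfl, u i, ⟨a, le_of_lt b⟩, zero_add _⟩⟩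
  obtain ⟨n, -, hn'⟩ := basis.mem_iff.1 (nhds_mono (le.trans inf_le_right)
    ((fb a0 aa an).mem_nhds_zero ⟨fun n => k n (s n), rfl⟩))
  obtain ⟨m, hm⟩ := mem_iUnion.1 (hn' (hx n _ (inv n)).1)
  exact (inv (max m (n + 1))).2 _ (sm (le_max_right _ _) (Finset.mem_insert_self _ _))
    (eB _ ▸ BB_mono a0 _ (le_max_left _ _) hm)

lemma lower {S : Set (ℕ → ℚ)} (hS : Generates S tq) : ∃ f : (ℕ → ℚ) → ℕ → ℕ,
    ¬ ∃ g : ℕ → ℕ, ∀ h ∈ f '' S, ∀ᶠ n in atTop, h n ≤ g n := by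
  have : ∀ u ∈ S, ∀ n : ℕ, ∃ b, ∀ i, 1 / ((n : ℚ) + 1 + 1) ≤ |u i| → de.symm (u i) ≤ b :=
    fun u hu n => by
    obtain ⟨N, hN⟩ := eventually_atTop.1
      (basis.tendsto_right_iff.1 (hS.1.2.2 u hu) (n + 1) trivial)
    refine ⟨(Finset.range N).sup fun i => de.symm (u i), fun i hi =>
      Finset.le_sup (f := fun i => de.symm (u i)) (Finset.mem_range.2 ?_)⟩
    by_contra h
    exact absurd (hN i (not_lt.1 h)) (by simpa using hi)
  choose! f hf using this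
  refine ⟨f, fun ⟨g, hg⟩ => ?_⟩
  have hc := (uu_tendsto g).isCompact_insert_range
  refine finer (K := insert 0 (range (uu g)) ∪ -insert 0 (range (uu g))) (hc.union hc.neg)
    (by simp) (by rw [union_neg, neg_neg, union_comm]) (fun u hu => ?_) hS
  obtain ⟨N, hN⟩ := eventually_atTop.1 (hg _ ⟨u, hu, rfl⟩)
  filter_upwards [basis.tendsto_right_iff.1 (hS.1.2.2 u hu) N trivial] with i hi
  by_cases h : u i = 0
  · simp [h]
  classical
  have ex : ∃ n : ℕ, 1 / (((N + n : ℕ) : ℚ) + 1 + 1) ≤ |u i| := by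
    obtain ⟨n, hn⟩ := exists_nat_one_div_lt (abs_pos.2 h)
    exact ⟨n, le_trans (by exact_mod_cast Nat.one_div_le_one_div (show n ≤ N + n + 1 by omega))
      hn.le⟩
  refine Or.inl (Or.inr ⟨de.symm (u i), ?_⟩)
  have lt : |u i| < 1 / (((N + Nat.find ex : ℕ) : ℚ) + 1) := by
    rcases h' : Nat.find ex with _ | j
    · exact hi
    · simpa [add_assoc] using Nat.find_min ex (h' ▸ j.lt_succ_self)
  rw [uu, de.apply_symm_apply, if_pos ⟨N + Nat.find ex, lt,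
    (hf u hu _ i (Nat.find_spec ex)).trans (hN _ (by omega))⟩]

theorem main : rs tq = bnd := by
  have ub : ¬ ∃ g : ℕ → ℕ, ∀ f ∈ (univ : Set (ℕ → ℕ)), ∀ᶠ n in atTop, f n ≤ g n := fun ⟨g, h⟩ => by
    simpa using (h (fun n => g n + 1) trivial).exists
  apply le_antisymm
  · refine le_csInf ⟨_, univ, ub, rfl⟩ ?_
    rintro _ ⟨F, hF, rfl⟩
    exact (csInf_le' (by exact ⟨_, upper hF, rfl⟩)).trans Cardinal.mk_image_le
  · refine le_csInf ⟨_, _, upper ub, rfl⟩ ?_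
    rintro _ ⟨S, hS, rfl⟩
    obtain ⟨f, hf⟩ := lower hS
    exact (csInf_le' (by exact ⟨_, hf, rfl⟩)).trans Cardinal.mk_image_le

end Pool.Agent.Lead.Rs
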