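import Mathlib

namespace Pool.Agent.Lead.Rs

open Filter

variable {G : Type} [AddGroup G]

/-- t is a Hausdorff group topology in which every sequence of S converges to the identity -/
def Adm (S : Set (ℕ → G)) (t : TopologicalSpace G) : Prop :=
  @IsTopologicalAddGroup G t _ ∧ @T2Space G t ∧ ∀ u ∈ S, Tendsto u atTop (@nhds G t 0)

/-- t is the finest such topology -/
def Generates (S : Set (ℕ → G)) (t : TopologicalSpace G) : Prop :=
  Adm S t ∧ ∀ t', Adm S t' → t ≤ t'

/-- least size of a set of sequences generating t -/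
noncomputable def rs (t : TopologicalSpace G) : Cardinal :=
  sInf {c | ∃ S : Set (ℕ → G), Generates S t ∧ Cardinal.mk S = c}

/-- the bounding number -/
noncomputable def bnd : Cardinal :=
  sInf {c | ∃ F : Set (ℕ → ℕ), (¬ ∃ g : ℕ → ℕ, ∀ f ∈ F, ∀ᶠ n in atTop, f n ≤ g n) ∧
    Cardinal.mk F = c}

end Pool.Agent.Lead.Rs
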