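import Pool.Agent.Lead.SGrDefs
import Pool.Agent.Lead.Iso1

namespace Pool.Agent.Lead.Lin

open Set Topology Filter Pointwise Pool.Agent.Lead.Gro

theorem ulam {W : Type} [LinearOrder W] (hW : ∀ a : W, (Iic a).Countable) (I : Set W → Prop)
    (h1 : ∀ A : ℕ → Set W, (∀ n, I (A n)) → I (⋃ n, A n)) (h0 : ∀ A B, A ⊆ B → I B → I A)
    (h00 : I ∅)
    (h2 : ∀ A : W → Set W, Pairwise (Function.onFun Disjoint A) → {i | ¬ I (A i)}.Countable) :
    ∃ S : Set W, S.Countable ∧ I Sᶜ := by
  classical
  let S := {w : W | ¬ I {w}}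
  have hS : S.Countable := h2 (fun w => {w}) fun a b h => disjoint_singleton.2 h
  by_cases hu : (univ : Set W).Countable
  · exact ⟨univ, hu, by rwa [compl_univ]⟩
  refine ⟨S, hS, ?_⟩
  by_contra hn
  have h3 : ∀ C : Set W, C.Countable → I (C \ S) := by
    intro C hC
    rcases (C \ S).eq_empty_or_nonempty with h | h
    · rwa [h]
    obtain ⟨e, he⟩ := (hC.mono sdiff_subset).exists_eq_range h
    rw [he, ← iUnion_singleton_eq_range]
    exact h1 _ fun n => not_not.1 (show e n ∈ C \ S from he ▸ mem_range_self n).2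
  choose f hf using fun b : W => countable_iff_exists_injOn.1 (hW b)
  let A : ℕ → W → Set W := fun n a => {b | a ≤ b ∧ f b a = n}
  refine hu ((countable_iUnion fun n => h2 (A n) fun a a' h => disjoint_left.2
    fun b hb hb' => h (hf b hb.1 hb'.1 (hb.2.trans hb'.2.symm))).mono fun a _ => ?_)
  by_contra hc
  simp only [mem_iUnion, mem_ofPred_eq, not_exists, not_not] at hc
  refine hn (h0 _ _ ?_ (h1 (fun n => Nat.casesOn n (Iic a \ S) fun m => A m a) fun n => ?_))
  · intro b hb
    rcases le_total a b with h | h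
    · exact mem_iUnion.2 ⟨f b a + 1, h, rfl⟩
    · exact mem_iUnion.2 ⟨0, h, hb⟩
  · cases n with
    | zero => exact h3 _ (hW a)
    | succ m => exact hc m

theorem seq_cont {W : Type} [LinearOrder W] (hW : ∀ a : W, (Iic a).Countable)
    {H : Type*} [AddGroup H] [TopologicalSpace H] [IsTopologicalAddGroup H]
    (φ : (W → ℝ) →+ H) (hφ : SeqContinuous φ) : Continuous φ := by
  classical
  refine continuous_of_continuousAt_zero φ ?_
  rw [ContinuousAt, map_zero, tendsto_def]
  intro U0 hU0
  have hz : ∀ (x : ℕ → W → ℝ), (∀ w, Tendsto (fun n => x n w) atTop (𝓝 0)) → ∀ U ∈ 𝓝 (0 : H),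
      ∀ᶠ n in atTop, φ (x n) ∈ U := fun x hx U hU => by
    have := hφ (tendsto_pi_nhds.2 hx : Tendsto x atTop (𝓝 0))
    rw [map_zero] at this
    exact this hU
  choose! nx hn1 hn2 hn3 hn4 using fun (U : Set H) (hU : U ∈ 𝓝 0) =>
    exists_closed_nhds_zero_neg_eq_add_subset hU
  let V : ℕ → Set H := fun n => nx^[n + 1] U0
  have hV0 : ∀ n, nx^[n] U0 ∈ 𝓝 (0 : H) := fun n => by
    induction n with
    | zero => exact hU0
    | succ n ih => rw [Function.iterate_succ_apply']; exact hn1 _ ih
  have hV1 : ∀ n, V n ∈ 𝓝 (0 : H) := fun n => hV0 (n + 1)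
  have hV2 : ∀ n, IsClosed (V n) := fun n => by
    simp only [V]; rw [Function.iterate_succ_apply']; exact hn2 _ (hV0 n)
  have hV3 : ∀ n, V n + V n ⊆ nx^[n] U0 := fun n => by
    simp only [V]; rw [Function.iterate_succ_apply']; exact hn4 _ (hV0 n)
  have hφ0 : (φ fun _ => 0) = 0 := map_zero φ
  have s1 : ∃ (F : Finset W) (n : ℕ), ∀ x : W → ℝ, (Function.support x).Countable →
      (∀ i ∈ F, |x i| < 1 / ((n : ℝ) + 1)) → φ x ∈ V 0 := by
    by_contra hcon
    push Not at hcon
    choose x x1 x2 x3 using hcon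
    obtain ⟨T, hT, -, hT'⟩ := closing (fun F => ⋃ n, Function.support (x F n))
      (fun F => countable_iUnion fun n => x1 F n) countable_empty
    obtain ⟨F, hF, hF'⟩ : ∃ F : ℕ → Finset W, (∀ n, ↑(F n) ⊆ T) ∧ ∀ w ∈ T, ∀ᶠ n in atTop, w ∈ F n := by
      rcases T.eq_empty_or_nonempty with rfl | hne
      · exact ⟨fun _ => ∅, by simp, by simp⟩
      obtain ⟨e, rfl⟩ := hT.exists_eq_range hne
      refine ⟨fun n => (Finset.range n).image e, fun n => by simp, ?_⟩
      rintro _ ⟨k, rfl⟩
      filter_upwards [eventually_gt_atTop k] with n hn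
        using Finset.mem_image_of_mem _ (Finset.mem_range.2 hn)
    obtain ⟨n, hn⟩ := (hz (fun n => x (F n) n) (fun w => by
      by_cases hw : w ∈ T
      · refine squeeze_zero_norm' ?_ (tendsto_one_div_add_atTop_nhds_zero_nat (𝕜 := ℝ))
        filter_upwards [hF' w hw] with n hn using (x2 _ _ w hn).le
      · have : ∀ n, x (F n) n w = 0 := fun n => by
          by_contra h
          exact hw (hT' _ (hF n) (mem_iUnion.2 ⟨n, h⟩))
        simp only [this]
        exact tendsto_const_nhds) _ (hV1 0)).exists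
    exact x3 _ _ hn
  obtain ⟨F, n, hF⟩ := s1
  have ho : IsOpen {x : W → ℝ | ∀ i ∈ F, |x i| < 1 / ((n : ℝ) + 1)} := by
    simp only [Set.ofPred_forall]
    exact isOpen_biInter_finset fun i _ => isOpen_lt (continuous_apply i).abs continuous_const
  filter_upwards [ho.mem_nhds (show (0 : W → ℝ) ∈ _ from fun i _ => by simp; positivity)] with x hx
  obtain ⟨S, hS, hI⟩ := ulam hW (fun A => ∀ B ⊆ A, ∀ k, φ (B.indicator x) ∈ V k)
    (by
      intro A hA B hB k
      have h1 : ∀ m k, φ ((B ∩ ⋃ j < m, A j).indicator x) ∈ V k := by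
        intro m
        induction m with
        | zero => intro k; simpa [hφ0] using mem_of_mem_nhds (hV1 k)
        | succ m ih =>
          intro k
          have : (B ∩ ⋃ j < m + 1, A j) = (B ∩ ⋃ j < m, A j) ∪ ((B ∩ A m) \ ⋃ j < m, A j) := by
            rw [biUnion_lt_succ, inter_union_distrib_left]
            ext w
            simp only [mem_union, mem_inter_iff, Set.mem_sdiff]
            tauto
          rw [this, indicator_union_of_disjoint (disjoint_left.2 fun w h h' => h'.2 h.2)]
          exact (map_add φ _ _).symm ▸ hV3 (k + 1) (add_mem_add (ih (k + 1))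
            (hA m _ (fun w h => h.1.2) (k + 1)))
      refine (hV2 k).mem_of_tendsto (hφ (tendsto_pi_nhds.2 fun w => ?_ :
        Tendsto (fun m => (B ∩ ⋃ j < m, A j).indicator x) atTop (𝓝 (B.indicator x))))
        (Eventually.of_forall fun m => h1 m k)
      by_cases hw : w ∈ B
      · obtain ⟨j, hj⟩ := mem_iUnion.1 (hB hw)
        refine tendsto_const_nhds.congr' ?_
        filter_upwards [eventually_gt_atTop j] with m hm
        rw [indicator_of_mem hw, indicator_of_mem (show w ∈ B ∩ ⋃ j < m, A j from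
          ⟨hw, mem_iUnion₂.2 ⟨j, hm, hj⟩⟩)]
      · simp only [indicator_of_notMem hw,
          fun m => indicator_of_notMem (show w ∉ B ∩ ⋃ j < m, A j from fun h => hw h.1) x]
        exact tendsto_const_nhds)
    (fun A B h hB C hC => hB C (hC.trans h))
    (fun B hB k => by rw [subset_empty_iff.1 hB]; simpa [hφ0] using mem_of_mem_nhds (hV1 k))
    (by
      intro A hA
      refine (countable_iUnion fun k : ℕ => Set.Finite.countable
        (s := {i | ∃ B ⊆ A i, φ (B.indicator x) ∉ V k}) ?_).mono fun i hi => ?_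
      · by_contra hinf
        have hinf' : {i | ∃ B ⊆ A i, φ (B.indicator x) ∉ V k}.Infinite := hinf
        choose B hB hB' using fun m => (hinf'.natEmbedding _ m).2
        obtain ⟨m, hm⟩ := (hz (fun m => (B m).indicator x) (fun w => by
          refine tendsto_const_nhds.congr' ?_
          rw [← Nat.cofinite_eq_atTop]
          refine Set.Subsingleton.finite fun a ha b hb => ?_
          by_contra hab
          have h1 : w ∈ B a := by
            by_contra h
            exact ha (indicator_of_notMem h x).symm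
          have h2 : w ∈ B b := by
            by_contra h
            exact hb (indicator_of_notMem h x).symm
          exact disjoint_left.1 (hA fun h => hab ((hinf'.natEmbedding _).injective
            (Subtype.ext h))) (hB a h1) (hB b h2)) _ (hV1 k)).exists
        exact hB' m hm
      · simp only [mem_ofPred_eq, not_forall] at hi
        obtain ⟨B, hB, k, hk⟩ := hi
        exact mem_iUnion.2 ⟨k, B, hB, hk⟩)
  show φ x ∈ U0
  rw [← indicator_self_add_compl S x, map_add]
  refine hV3 0 (add_mem_add (hF _ (hS.mono support_indicator_subset) fun i hi => ?_)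
    (hI _ subset_rfl 0))
  by_cases h : i ∈ S
  · rw [indicator_of_mem h]; exact hx i hi
  · rw [indicator_of_notMem h]; simp; positivity

theorem not_fu {W : Type} (hW : ¬ (univ : Set W).Countable) : ¬ FrechetUrysohnSpace (W → ℝ) := by
  classical
  intro h
  have h1 : (1 : W → ℝ) ∈ closure {x : W → ℝ | (Function.support x).Countable} := by
    rw [mem_closure_iff]
    intro O hO h1
    obtain ⟨I, u, h2, h3⟩ := isOpen_pi_iff.1 hO _ h1
    refine ⟨(I : Set W).indicator 1, h3 fun i hi => ?_,
      I.countable_toSet.mono support_indicator_subset⟩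
    rw [indicator_of_mem hi]
    exact (h2 i hi).2
  obtain ⟨x, h2, h3⟩ := mem_closure_iff_seq_limit.1 h1
  refine hW ((countable_iUnion h2).mono fun w _ => ?_)
  obtain ⟨n, hn⟩ := ((tendsto_pi_nhds.1 h3 w).eventually_ne (one_ne_zero)).exists
  exact mem_iUnion.2 ⟨n, hn⟩

def W1 : Type := (Cardinal.aleph 1).ord.ToType

noncomputable instance : LinearOrder W1 :=
  inferInstanceAs (LinearOrder (Cardinal.aleph 1).ord.ToType)
instance : TopologicalSpace W1 := ⊥
instance : DiscreteTopology W1 := ⟨rfl⟩

theorem W1_iic (a : W1) : (Iic a).Countable := by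
  rw [← Iio_insert]
  exact Countable.insert _ ((Cardinal.countable_iff_lt_aleph_one _).2
    (Cardinal.mk_Iio_toType_ord_lt a))

theorem W1_unc : ¬ (univ : Set W1).Countable := by
  rw [Cardinal.countable_iff_lt_aleph_one, Cardinal.mk_univ]
  exact not_lt.2 (Cardinal.mk_ord_toType _).ge

end Pool.Agent.Lead.Lin
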