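import Pool.Agent.Lead.LinDefs

namespace Pool.Agent.Lead.Lin

universe u

/-- `G` is a Hausdorff topological group, and every sequentially continuous homomorphism from `G`
to a Hausdorff topological group (written additively, not assumed commutative) is continuous. -/
def SGroup (G : Type) [AddGroup G] [TopologicalSpace G] : Prop :=
  T2Space G ∧ IsTopologicalAddGroup G ∧
    ∀ (H : Type u) [AddGroup H] [TopologicalSpace H] [IsTopologicalAddGroup H] [T2Space H]
      (φ : G →+ H), SeqContinuous φ → Continuous φ

end Pool.Agent.Lead.Lin
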