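import Pool.Agent.Lead.LExt

set_option autoImplicit false

open Set Topology Filter

namespace Pool.Agent.SPc

def D : Type := ℝ
instance : TopologicalSpace D := ⊥
instance : DiscreteTopology D := ⟨rfl⟩
instance : Uncountable D := inferInstanceAs (Uncountable ℝ)

abbrev Cube : Type := D → Bool
abbrev Sg : Type := {α : Cube // {d | α d = true}.Countable}
def p : Cube := fun _ => true
abbrev TT : Type :=
  {T : Set (D × ℕ) // (∀ d, {k | (d, k) ∈ T}.Finite) ∧ ∀ k, {d | (d, k) ∈ T}.Finite}
abbrev K : Type :=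
  {x : Cube × OnePoint D // {d | x.1 d = true}.Countable ∨ (x.1 = p ∧ x.2 ≠ OnePoint.infty)}

theorem Sg_ne (α : Sg) : α.1 ≠ p := fun h => by
  have := α.2
  rw [h] at this
  exact not_countable_univ (α := D) (this.mono fun d _ => rfl)

open Classical in
noncomputable def τ (d : D) (k : ℕ) : TT → Bool := fun T => decide ((d, k) ∈ T.1)

def Z : Type := K ⊕ D ⊕ (Sg × D × ℕ)

def ii (x : K) : Z := Sum.inl x
def top (d : D) : Z := Sum.inr (Sum.inl d)
def mid (α : Sg) (d : D) (k : ℕ) : Z := Sum.inr (Sum.inr (α, d, k))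

theorem cases (z : Z) : (∃ x, z = ii x) ∨ (∃ d, z = top d) ∨ ∃ α d k, z = mid α d k := by
  rcases z with x | d | ⟨α, d, k⟩
  · exact Or.inl ⟨x, rfl⟩
  · exact Or.inr (Or.inl ⟨d, rfl⟩)
  · exact Or.inr (Or.inr ⟨α, d, k, rfl⟩)

noncomputable def emb : Z → (Cube × OnePoint D) × (TT → Bool) × OnePoint D :=
  Sum.elim (fun x => (x.1, fun _ => false, OnePoint.infty))
    (Sum.elim (fun d => ((p, (d : OnePoint D)), fun _ => false, (d : OnePoint D)))
      (fun t => ((t.1.1, (t.2.1 : OnePoint D)), τ t.2.1 t.2.2, (t.2.1 : OnePoint D))))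

noncomputable instance : TopologicalSpace Z := TopologicalSpace.induced emb inferInstance

def sing (d : D) (k : ℕ) : TT :=
  ⟨{(d, k)}, fun _ => (finite_singleton k).subset fun _ h => congrArg Prod.snd h,
    fun _ => (finite_singleton d).subset fun _ h => congrArg Prod.fst h⟩

theorem emb_inj : Function.Injective emb := by
  rintro (x | d | ⟨α, d, k⟩) (y | d' | ⟨α', d', k'⟩) h
  · exact congrArg Sum.inl (Subtype.ext (congrArg (fun t => t.1) h))
  · exact absurd (congrArg (fun t => t.2.2) h) (OnePoint.infty_ne_coe _)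
  · exact absurd (congrArg (fun t => t.2.2) h) (OnePoint.infty_ne_coe _)
  · exact absurd (congrArg (fun t => t.2.2) h) (OnePoint.coe_ne_infty _)
  · rw [OnePoint.coe_injective (congrArg (fun t => t.2.2) h)]
  · exact absurd (congrArg (fun t => t.1.1) h).symm (Sg_ne _)
  · exact absurd (congrArg (fun t => t.2.2) h) (OnePoint.coe_ne_infty _)
  · exact absurd (congrArg (fun t => t.1.1) h) (Sg_ne _)
  · have h1 : α = α' := Subtype.ext (congrArg (fun t => t.1.1) h)
    have h2 : τ d k (sing d k) = τ d' k' (sing d k) := congrArg (fun t => t.2.1 (sing d k)) h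
    have h3 : (d', k') = (d, k) := by simpa [τ, sing] using h2
    rw [h1, h3]

theorem emb_emb : IsEmbedding emb := ⟨⟨rfl⟩, emb_inj⟩

instance : T35Space Z := emb_emb.t35Space

theorem cont_ii : Continuous ii :=
  emb_emb.continuous_iff.2 (continuous_subtype_val.prodMk continuous_const)

theorem r_mem (z : Z) : {d | (emb z).1.1 d = true}.Countable ∨
    ((emb z).1.1 = p ∧ (emb z).1.2 ≠ OnePoint.infty) := by
  rcases z with x | d | ⟨α, d, k⟩
  · exact x.2
  · exact Or.inr ⟨rfl, OnePoint.coe_ne_infty _⟩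
  · exact Or.inl α.2

noncomputable def r : C(Z, K) :=
  ⟨fun z => ⟨(emb z).1, r_mem z⟩, emb_emb.continuous.fst.subtype_mk r_mem⟩

noncomputable def DD : LExt.Data K Z where
  i := ⟨ii, cont_ii⟩
  e g := g.comp r
  ei _ _ := rfl
  rep _ := LExt.FS.eval _
  k0 := ⟨(fun _ => false, OnePoint.infty), Or.inl (by simp)⟩

def PC (W : Type) [TopologicalSpace W] : Prop := ∀ f : C(W, ℝ), ∃ M : ℝ, ∀ a, |f a| ≤ M

theorem pc_range {W Y : Type} [TopologicalSpace W] [TopologicalSpace Y] (hW : PC W)
    (φ : W → Y) (hφ : Continuous φ) : PC (range φ) := fun f => by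
  obtain ⟨M, hM⟩ := hW (f.comp ⟨fun a => ⟨φ a, a, rfl⟩, hφ.subtype_mk _⟩)
  refine ⟨M, ?_⟩
  rintro ⟨_, a, rfl⟩
  exact hM a

theorem pc_A : PC (OnePoint D) := fun f => by
  obtain ⟨M, hM⟩ := isCompact_univ.exists_bound_of_continuousOn f.continuous.continuousOn
  exact ⟨M, fun a => hM a trivial⟩

theorem pc_SA : PC (Sg × OnePoint D) := fun f => by
  by_contra h
  push Not at h
  choose a ha using fun n : ℕ => h n
  let C : Set D := ⋃ n, {d | (a n).1.1 d = true}
  have hC : C.Countable := countable_iUnion fun n => (a n).1.2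
  have hc : IsCompact {α : Sg | ∀ d ∉ C, α.1 d = false} := by
    rw [Subtype.isCompact_iff]
    have : Subtype.val '' {α : Sg | ∀ d ∉ C, α.1 d = false} =
        ⋂ d ∈ Cᶜ, {α : Cube | α d = false} := by
      ext α
      simp only [mem_image, mem_iInter]
      constructor
      · rintro ⟨β, hβ, rfl⟩ d hd; exact hβ d hd
      · intro h
        refine ⟨⟨α, hC.mono fun d hd => ?_⟩, h, rfl⟩
        by_contra hd'
        have h1 : α d = false := h d hd'
        have h2 : α d = true := hd
        simp [h1] at h2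
    rw [this]
    exact (isClosed_biInter fun d _ => isClosed_eq (continuous_apply d) continuous_const).isCompact
  obtain ⟨M, hM⟩ := (hc.prod isCompact_univ).exists_bound_of_continuousOn
    f.continuous.continuousOn
  obtain ⟨n, hn⟩ := exists_nat_ge M
  have := hM (a n) ⟨fun d hd => by
    by_contra h
    exact hd (mem_iUnion.2 ⟨n, by simpa using h⟩), trivial⟩
  rw [Real.norm_eq_abs] at this
  linarith [ha n]

open Classical in
noncomputable def ind (C : Set D) (hC : C.Countable) : Sg :=
  ⟨fun d => decide (d ∈ C), hC.mono fun d hd => by simpa using hd⟩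

theorem pc_K : PC K := fun f => by
  let ν : C(Sg × OnePoint D, K) := ⟨fun a => ⟨(a.1.1, a.2), Or.inl a.1.2⟩, by fun_prop⟩
  obtain ⟨M, hM⟩ := pc_SA (f.comp ν)
  refine ⟨M, ?_⟩
  rintro ⟨⟨α, a⟩, h | ⟨h1, h2⟩⟩
  · exact hM (⟨α, h⟩, a)
  · have ht : Tendsto (fun F : Finset D => ν (ind F F.countable_toSet, a)) atTop
        (𝓝 ⟨(α, a), Or.inr ⟨h1, h2⟩⟩) := by
      refine tendsto_subtype_rng.2 (Tendsto.prodMk_nhds ?_ tendsto_const_nhds)
      refine tendsto_pi_nhds.2 fun d => tendsto_const_nhds.congr' ?_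
      filter_upwards [eventually_ge_atTop {d}] with F hF
      have : d ∈ F := hF (Finset.mem_singleton_self d)
      have h1 : α = p := h1
      simp [ind, this, h1, p]
    exact le_of_tendsto' ((f.continuous.tendsto _).comp ht).abs fun F => hM _

noncomputable def μ (k : ℕ) (a : Sg × OnePoint D) : Z :=
  OnePoint.elim a.2 (ii ⟨(a.1.1, OnePoint.infty), Or.inl a.1.2⟩) (fun d => mid a.1 d k)

noncomputable def τ' (k : ℕ) (a : OnePoint D) : TT → Bool :=
  OnePoint.elim a (fun _ => false) (fun d => τ d k)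

theorem cont_μ (k : ℕ) : Continuous (μ k) := by
  refine emb_emb.continuous_iff.2 ?_
  have : emb ∘ μ k = fun a => ((a.1.1, a.2), τ' k a.2, a.2) := by
    funext ⟨α, a⟩
    induction a using OnePoint.rec <;> rfl
  rw [this]
  have h : Continuous (τ' k) := by
    refine (OnePoint.continuous_iff_from_discrete _).2 (tendsto_pi_nhds.2 fun T => ?_)
    refine tendsto_const_nhds.congr' (mem_of_superset (T.2.2 k).compl_mem_cofinite fun d hd => ?_)
    have : (d, k) ∉ T.1 := hd
    show false = τ d k T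
    simp [τ, this]
  fun_prop

theorem nhds_cube {x : Cube} {V : Set Cube} (hV : V ∈ 𝓝 x) :
    ∃ I : Set D, I.Finite ∧ ∀ y : Cube, (∀ i ∈ I, y i = x i) → y ∈ V := by
  rw [nhds_pi, Filter.mem_pi] at hV
  obtain ⟨I, hI, t, ht, hs⟩ := hV
  exact ⟨I, hI, fun y hy => hs fun i hi => by rw [hy i hi]; exact mem_of_mem_nhds (ht i)⟩

theorem τ_ev (d : D) (T : TT) : ∀ᶠ k in atTop, false = τ d k T := by
  rw [← Nat.cofinite_eq_atTop]
  refine mem_of_superset (T.2.1 d).compl_mem_cofinite fun k hk => ?_
  have : (d, k) ∉ T.1 := hk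
  show false = τ d k T
  simp [τ, this]

theorem top_nb (d : D) (O : Set Z) (hO : O ∈ 𝓝 (top d)) :
    ∃ I : Set D, I.Finite ∧ ∀ α : Sg, (∀ i ∈ I, α.1 i = true) → ∀ᶠ k in atTop, mid α d k ∈ O := by
  have ht : Tendsto (fun x : Sg × ℕ => mid x.1 d x.2)
      ((comap Subtype.val (𝓝 p)) ×ˢ atTop) (𝓝 (top d)) := by
    refine emb_emb.tendsto_nhds_iff.2 (Tendsto.prodMk_nhds
      (Tendsto.prodMk_nhds (tendsto_comap.comp tendsto_fst) tendsto_const_nhds)
      (Tendsto.prodMk_nhds (tendsto_pi_nhds.2 fun T => ?_) tendsto_const_nhds))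
    exact tendsto_const_nhds.congr' (tendsto_snd.eventually (τ_ev d T))
  obtain ⟨t1, h1, t2, h2, h⟩ := mem_prod_iff.1 (ht hO)
  obtain ⟨V, hV, hV'⟩ := mem_comap.1 h1
  obtain ⟨I, hI, hI'⟩ := nhds_cube hV
  exact ⟨I, hI, fun α hα => mem_of_superset h2 fun k hk =>
    h (mk_mem_prod (hV' (hI' _ hα)) hk)⟩

theorem inj_tendsto (d : ℕ → D) (hd : Function.Injective d) :
    Tendsto (fun m => (d m : OnePoint D)) atTop (𝓝 OnePoint.infty) := by
  have := OnePoint.tendsto_coe_infty (X := D)
  rw [coclosedCompact_eq_cocompact, cocompact_eq_cofinite] at this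
  exact this.comp (Nat.cofinite_eq_atTop ▸ hd.tendsto_cofinite)

theorem top_zero (f : DD.C0) : Tendsto (fun d => f.1 (top d)) cofinite (𝓝 0) := by
  refine Metric.tendsto_nhds.2 fun ε hε => ?_
  by_contra h
  have hinf : {d | ¬ dist (f.1 (top d)) 0 < ε}.Infinite := h
  let d : ℕ → D := fun m => hinf.natEmbedding _ m
  have hd : Function.Injective d := Subtype.val_injective.comp (hinf.natEmbedding _).injective
  have hO : IsOpen {z | ε / 2 < |f.1 z|} := isOpen_lt continuous_const f.1.continuous.abs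
  have h1 : ∀ m, {z | ε / 2 < |f.1 z|} ∈ 𝓝 (top (d m)) := fun m => hO.mem_nhds (by
    have : ¬ dist (f.1 (top (d m))) 0 < ε := (hinf.natEmbedding _ m).2
    rw [Real.dist_eq, sub_zero] at this
    show ε / 2 < _
    linarith [not_lt.1 this])
  choose I hI hI' using fun m => top_nb _ _ (h1 m)
  let α := ind (⋃ m, I m) (countable_iUnion fun m => (hI m).countable)
  have h2 : ∀ m, ∀ᶠ k in atTop, ε / 2 < |f.1 (mid α (d m) k)| := fun m =>
    hI' m α fun i hi => by
      have : i ∈ ⋃ m, I m := mem_iUnion.2 ⟨m, hi⟩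
      simp only [α, ind, this, decide_true]
  have hne : ((atTop : Filter ℕ).curry (atTop : Filter ℕ)).NeBot := by
    refine ⟨fun h => ?_⟩
    have := eventually_curry_iff.1 (eventually_false_iff_eq_bot.2 h)
    obtain ⟨m, hm⟩ := this.exists
    exact hm.exists.elim fun _ h => h
  have hf : Tendsto (Prod.fst : ℕ × ℕ → ℕ) (atTop.curry atTop) atTop := fun s hs =>
    eventually_curry_iff.2 (mem_of_superset hs fun m hm => Eventually.of_forall fun _ => hm)
  have ht : Tendsto (fun x : ℕ × ℕ => mid α (d x.1) x.2) (atTop.curry atTop)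
      (𝓝 (ii ⟨(α.1, OnePoint.infty), Or.inl α.2⟩)) := by
    refine emb_emb.tendsto_nhds_iff.2 (Tendsto.prodMk_nhds
      (Tendsto.prodMk_nhds tendsto_const_nhds ((inj_tendsto d hd).comp hf))
      (Tendsto.prodMk_nhds (tendsto_pi_nhds.2 fun T => ?_) ((inj_tendsto d hd).comp hf)))
    exact tendsto_const_nhds.congr'
      (eventually_curry_iff.2 (Eventually.of_forall fun m => τ_ev (d m) T))
  have h3 := ((f.1.continuous.tendsto _).comp ht).abs
  have h4 : f.1 (ii ⟨(α.1, OnePoint.infty), Or.inl α.2⟩) = 0 := f.2 _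
  rw [h4] at h3
  have := ge_of_tendsto h3
    (eventually_curry_iff.2 (Eventually.of_forall fun m => (h2 m).mono fun k hk => hk.le))
  simp at this
  linarith

noncomputable def φ (a : OnePoint D) : DD.P :=
  OnePoint.elim a DD.star (fun d => DD.qq (top d))

theorem cont_φ : Continuous φ := by
  refine (OnePoint.continuous_iff_from_discrete _).2
    (tendsto_subtype_rng.2 (tendsto_pi_nhds.2 fun f => ?_))
  have : (φ OnePoint.infty).1 f = 0 := DD.star_val f
  rw [this]
  exact top_zero f

theorem sigma_pc : ∃ S : ℕ → Set (K ⊕ DD.P), (⋃ n, S n) = univ ∧ ∀ n, PC (S n) := by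
  refine ⟨fun n => match n with
    | 0 => range Sum.inl
    | 1 => range (Sum.inr ∘ φ)
    | k + 2 => range (Sum.inr ∘ DD.qq ∘ μ k), eq_univ_of_forall ?_, ?_⟩
  · rintro (x | y)
    · exact mem_iUnion.2 ⟨0, x, rfl⟩
    · obtain ⟨z, rfl⟩ := DD.qq_surj y
      rcases cases z with ⟨x, rfl⟩ | ⟨d, rfl⟩ | ⟨α, d, k, rfl⟩
      · exact mem_iUnion.2 ⟨1, OnePoint.infty, congrArg Sum.inr (DD.qq_i x).symm⟩
      · exact mem_iUnion.2 ⟨1, (d : OnePoint D), rfl⟩
      · exact mem_iUnion.2 ⟨k + 2, (α, (d : OnePoint D)), rfl⟩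
  · intro n
    match n with
    | 0 => exact pc_range pc_K _ continuous_inl
    | 1 => exact pc_range pc_A _ (continuous_inr.comp cont_φ)
    | k + 2 => exact pc_range pc_SA _ (continuous_inr.comp (DD.qq.continuous.comp (cont_μ k)))

open Classical in
/-- index function of a sequence of points of `D` -/
noncomputable def idx (d : ℕ → D) (a : OnePoint D) : ℝ :=
  if h : ∃ m, a = (d m : OnePoint D) then (h.choose : ℝ) else 0

theorem idx_eq (d : ℕ → D) (hd : Function.Injective d) (m : ℕ) :
    idx d (d m : OnePoint D) = m := by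
  have h : ∃ m', (d m : OnePoint D) = (d m' : OnePoint D) := ⟨m, rfl⟩
  unfold idx
  rw [dif_pos h, ← hd (OnePoint.coe_injective h.choose_spec)]

theorem e_open (d : D) : IsOpen {z : Z | (emb z).2.2 = (d : OnePoint D)} := by
  have : IsOpen ({(d : OnePoint D)} : Set (OnePoint D)) := by
    rw [← image_singleton]
    exact OnePoint.isOpenEmbedding_coe.isOpenMap _ (isOpen_discrete _)
  exact this.preimage emb_emb.continuous.snd.snd

theorem τ_open (T : TT) (b : Bool) : IsOpen {z : Z | (emb z).2.1 T = b} :=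
  (isOpen_discrete ({b} : Set Bool)).preimage
    ((continuous_apply T).comp emb_emb.continuous.snd.fst)

theorem top_closed : IsClosed (range top) := by
  rw [← isOpen_compl_iff, isOpen_iff_forall_mem_open]
  intro z hz
  rcases cases z with ⟨⟨⟨α, a⟩, h | ⟨h1, h2⟩⟩, rfl⟩ | ⟨d, rfl⟩ | ⟨α, d, k, rfl⟩
  · obtain ⟨i, hi⟩ : ∃ i, α i = false := by
      by_contra h'
      exact Sg_ne ⟨α, h⟩ (funext fun i => by simpa [p] using fun h => h' ⟨i, h⟩)
    refine ⟨{z | (emb z).1.1 i = false}, ?_, (isOpen_discrete ({false} : Set Bool)).preimage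
      ((continuous_apply i).comp emb_emb.continuous.fst.fst), hi⟩
    rintro _ h ⟨d, rfl⟩
    exact Bool.noConfusion (h : true = false)
  · obtain ⟨d, rfl⟩ := OnePoint.ne_infty_iff_exists.1 h2
    have ho : IsOpen ({(d : OnePoint D)} : Set (OnePoint D)) := by
      rw [← image_singleton]
      exact OnePoint.isOpenEmbedding_coe.isOpenMap _ (isOpen_discrete _)
    refine ⟨{z | (emb z).1.2 = (d : OnePoint D)} ∩ {z | (emb z).2.2 ≠ (d : OnePoint D)}, ?_,
      (ho.preimage emb_emb.continuous.fst.snd).inter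
        (isOpen_ne_fun emb_emb.continuous.snd.snd continuous_const),
      rfl, OnePoint.infty_ne_coe _⟩
    rintro _ h ⟨d', rfl⟩
    exact h.2 h.1
  · exact absurd ⟨d, rfl⟩ hz
  · refine ⟨_, ?_, τ_open (sing d k) true, ?_⟩
    · rintro _ h ⟨d', rfl⟩
      exact Bool.noConfusion (h : false = true)
    · show τ d k (sing d k) = true
      simp [τ, sing]

theorem pc_fin (Q : Set Z) (hQ : PC Q) : {d | top d ∈ Q}.Finite := by
  classical
  have unb : ∀ g : Q → ℝ, Continuous g → (∀ m : ℕ, ∃ a, g a = m) → False := fun g hg h => by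
    obtain ⟨M, hM⟩ := hQ ⟨g, hg⟩
    obtain ⟨n, hn⟩ := exists_nat_gt M
    obtain ⟨a, ha⟩ := h n
    have : |g a| ≤ M := hM a
    rw [ha, abs_of_nonneg (Nat.cast_nonneg n)] at this
    linarith
  by_contra hinf
  have hsplit : {d | ∀ k0, ∃ k ≥ k0, ∃ α, mid α d k ∈ Q}.Infinite ∨
      {d | top d ∈ Q ∧ ¬ ∀ k0, ∃ k ≥ k0, ∃ α, mid α d k ∈ Q}.Infinite := by
    rw [← infinite_union]
    refine Set.Infinite.mono (fun d hd => ?_) hinf
    by_cases h : ∀ k0, ∃ k ≥ k0, ∃ α, mid α d k ∈ Q
    · exact Or.inl h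
    · exact Or.inr ⟨hd, h⟩
  rcases hsplit with h | h
  · let d : ℕ → D := fun m => h.natEmbedding _ m
    have hd : Function.Injective d := Subtype.val_injective.comp (h.natEmbedding _).injective
    have h1 : ∀ m, ∃ k ≥ m, ∃ α, mid α (d m) k ∈ Q := fun m => (h.natEmbedding _ m).2 m
    choose k hk α hα using h1
    let T : TT := ⟨range fun m => (d m, k m), fun c => by
        refine ((finite_singleton c).preimage hd.injOn).image k |>.subset ?_
        rintro j ⟨m, hm⟩
        exact ⟨m, congrArg Prod.fst hm, congrArg Prod.snd hm⟩, fun j => by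
        refine (finite_Iic j).image d |>.subset ?_
        rintro c ⟨m, hm⟩
        exact ⟨m, (hk m).le.trans (le_of_eq (congrArg Prod.snd hm)), congrArg Prod.fst hm⟩⟩
    have hc : Continuous fun z : Z => if (emb z).2.1 T = true then idx d (emb z).2.2 else 0 := by
      refine continuous_iff_continuousAt.2 fun z => ?_
      by_cases hz : (emb z).2.1 T = true
      · obtain ⟨c, hc⟩ : ∃ c : D, (emb z).2.2 = (c : OnePoint D) := by
          rcases cases z with ⟨x, rfl⟩ | ⟨c, rfl⟩ | ⟨β, c, j, rfl⟩
          · exact Bool.noConfusion (hz : false = true)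
          · exact ⟨c, rfl⟩
          · exact ⟨c, rfl⟩
        refine (continuousAt_const (y := idx d c)).congr ?_
        filter_upwards [(τ_open T true).mem_nhds hz, (e_open c).mem_nhds hc] with w h1 h2
        rw [if_pos h1, h2]
      · refine (continuousAt_const (y := (0 : ℝ))).congr ?_
        filter_upwards [(τ_open T false).mem_nhds (by simpa using hz)] with w h1
        rw [if_neg (by simp [h1])]
    refine unb _ (hc.comp continuous_subtype_val) fun m => ⟨⟨_, hα m⟩, ?_⟩
    have : (emb (mid (α m) (d m) (k m))).2.1 T = true := by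
      show τ (d m) (k m) T = true
      have : (d m, k m) ∈ T.1 := ⟨m, rfl⟩
      simp only [τ, this, decide_true]
    show (if (emb (mid (α m) (d m) (k m))).2.1 T = true then _ else _) = _
    rw [if_pos this]
    exact idx_eq d hd m
  · let d : ℕ → D := fun m => h.natEmbedding _ m
    have hd : Function.Injective d := Subtype.val_injective.comp (h.natEmbedding _).injective
    have h0 : ∀ m, top (d m) ∈ Q := fun m => (h.natEmbedding _ m).2.1
    have h1 : ∀ m, ∃ k0, ∀ k ≥ k0, ∀ α, mid α (d m) k ∉ Q := fun m => by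
      have := (h.natEmbedding _ m).2.2
      push Not at this
      exact this
    have hc : Continuous fun z : Q => if z.1 ∈ range top then idx d (emb z.1).2.2 else 0 := by
      refine continuous_iff_continuousAt.2 fun z => ?_
      by_cases hz : z.1 ∈ range top
      · obtain ⟨c, hc⟩ := hz
        have he : (emb z.1).2.2 = (c : OnePoint D) := by rw [← hc]; rfl
        have hev : ∀ᶠ w : Q in 𝓝 z, (emb w.1).2.2 = (c : OnePoint D) :=
          ((e_open c).preimage continuous_subtype_val).mem_nhds he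
        refine (continuousAt_const (y := idx d c)).congr ?_
        by_cases hm : ∃ m, c = d m
        · obtain ⟨m, rfl⟩ := hm
          obtain ⟨k0, hk0⟩ := h1 m
          let T : TT := ⟨{x | x.1 = d m ∧ x.2 < k0},
            fun _ => (finite_Iio k0).subset fun _ h => h.2,
            fun _ => (finite_singleton _).subset fun _ h => h.1⟩
          have hev2 : ∀ᶠ w : Q in 𝓝 z, (emb w.1).2.1 T = false :=
            ((τ_open T false).preimage continuous_subtype_val).mem_nhds
              (show (emb z.1).2.1 T = false by rw [← hc]; rfl)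
          filter_upwards [hev, hev2] with w h2 h3
          have : w.1 ∈ range top := by
            obtain ⟨w, hw⟩ := w
            rcases cases w with ⟨x, rfl⟩ | ⟨c, rfl⟩ | ⟨β, c, j, rfl⟩
            · exact absurd h2 (OnePoint.infty_ne_coe _)
            · exact ⟨c, rfl⟩
            · have h4 : c = d m := OnePoint.coe_injective h2
              subst h4
              have h5 : τ (d m) j T = false := h3
              exact absurd hw (hk0 j (by simpa [τ, T] using h5) β)
          rw [if_pos this, h2]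
        · have : idx d c = 0 := by
            unfold idx
            rw [dif_neg fun ⟨m, h⟩ => hm ⟨m, OnePoint.coe_injective h⟩]
          filter_upwards [hev] with w h2
          rw [h2, this, ite_self]
      · refine (continuousAt_const (y := (0 : ℝ))).congr ?_
        filter_upwards [(top_closed.isOpen_compl.preimage continuous_subtype_val).mem_nhds hz]
          with w h1
        rw [if_neg h1]
    refine unb _ hc fun m => ⟨⟨_, h0 m⟩, ?_⟩
    show (if top (d m) ∈ range top then _ else _) = _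
    rw [if_pos ⟨_, rfl⟩]
    exact idx_eq d hd m

theorem not_sigma_pc :
    ¬ ∃ S : ℕ → Set (Z ⊕ PUnit.{1}), (⋃ n, S n) = univ ∧ ∀ n, PC (S n) := by
  classical
  rintro ⟨S, hS, hpc⟩
  have h1 : ∀ n, {d | Sum.inl (top d) ∈ S n}.Finite := fun n => by
    let π : Z ⊕ PUnit.{1} → Z := Sum.elim id fun _ => DD.i DD.k0
    have hπ : Continuous π := continuous_id.sumElim continuous_const
    refine (pc_fin _ (pc_range (hpc n) _ (hπ.comp continuous_subtype_val))).subset fun d hd => ?_
    exact ⟨⟨_, hd⟩, rfl⟩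
  refine not_countable_univ (α := D)
    ((countable_iUnion fun n => (h1 n).countable).mono fun d _ => ?_)
  have : Sum.inl (top d) ∈ ⋃ n, S n := hS ▸ mem_univ _
  simpa using this

end Pool.Agent.SPc
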