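import Pool.Agent.Lead.Iso1

namespace Pool.Agent.Lead.Sok

open Set Topology Filter Pool.Agent.Lead.Gro

theorem rank {K : Type} [TopologicalSpace K]
    (hs : ∀ S : Set K, S.Nonempty → ∃ x ∈ S, ∃ U : Set K, IsOpen U ∧ U ∩ S = {x}) :
    ∃ ρ : K → Ordinal.{0}, ∀ p, ∃ U, IsOpen U ∧ p ∈ U ∧ ∀ q ∈ U, q ≠ p → ρ q < ρ p := by
  let D : Ordinal.{0} → Set K := fun α => Ordinal.lt_wf.fix
    (fun α ih => {p | ∃ U, IsOpen U ∧ p ∈ U ∧ ∀ q ∈ U, q ≠ p → ∃ β, ∃ h : β < α, q ∈ ih β h}) α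
  have hD : ∀ α, D α = {p | ∃ U, IsOpen U ∧ p ∈ U ∧ ∀ q ∈ U, q ≠ p → ∃ β, ∃ _ : β < α, q ∈ D β} :=
    fun α => Ordinal.lt_wf.fix_eq _ α
  have h1 : ∀ p, ∃ α, p ∈ D α := by
    by_contra hn
    push Not at hn
    obtain ⟨p, hp, U, hU, hUS⟩ := hs {p | ∀ α, p ∉ D α} hn
    have hpU : p ∈ U := by
      have : p ∈ U ∩ {p | ∀ α, p ∉ D α} := by rw [hUS]; rfl
      exact this.1
    have : ∀ q, ∃ β, q ∈ U → q ≠ p → q ∈ D β := by
      intro q
      by_contra h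
      push Not at h
      have : q ∈ U ∩ {p | ∀ α, p ∉ D α} := ⟨(h 0).1, fun α => (h α).2.2⟩
      rw [hUS] at this
      exact (h 0).2.1 this
    choose β hβ using this
    refine hp (⨆ q, Order.succ (β q)) ?_
    rw [hD]
    exact ⟨U, hU, hpU, fun q hq hqp => ⟨β q, (Order.lt_succ _).trans_le
      (Ordinal.le_iSup (fun q => Order.succ (β q)) q), hβ q hq hqp⟩⟩
  refine ⟨fun p => sInf {α | p ∈ D α}, fun p => ?_⟩
  have h2 := csInf_mem (s := {α | p ∈ D α}) (h1 p)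
  rw [mem_ofPred_eq, hD] at h2
  obtain ⟨U, h3, h4, h5⟩ := h2
  refine ⟨U, h3, h4, fun q hq hqp => ?_⟩
  obtain ⟨β, h6, h7⟩ := h5 q hq hqp
  exact (csInf_le' (show β ∈ {α | q ∈ D α} from h7)).trans_lt h6

theorem gd_seq {K : Type} [TopologicalSpace K] {s : Set K} (h : IsGδ s) :
    ∃ U : ℕ → Set K, (∀ n, IsOpen (U n)) ∧ s = ⋂ n, U n := isGδ_iff_eq_iInter_nat.1 h

theorem sokolov (K : Type) [TopologicalSpace K] [CompactSpace K] [T2Space K]
    (X : Type) [tX : TopologicalSpace X] (e : X ≃ K)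
    (hs : ∀ S : Set K, S.Nonempty → ∃ x ∈ S, ∃ U : Set K, IsOpen U ∧ U ∩ S = {x})
    (ht : tX = TopologicalSpace.generateFrom
        {S : Set X | ∃ U : ℕ → Set K, (∀ n, IsOpen (U n)) ∧ S = e ⁻¹' (⋂ n, U n)})
    (F : (n : ℕ) → Set (Fin n → X)) (hF : ∀ n, IsClosed (F n)) :
    ∃ f : X → X, Continuous f ∧ (range f).Countable ∧
      ∀ n : ℕ, ∀ x ∈ F n, (fun i => f (x i)) ∈ F n := by
  classical
  have hop : ∀ s : Set K, IsGδ s → IsOpen (e ⁻¹' s) := by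
    intro s h
    obtain ⟨U, h1, rfl⟩ := gd_seq h
    rw [ht]
    exact TopologicalSpace.isOpen_generateFrom_of_mem ⟨U, h1, rfl⟩
  have hba : ∀ O : Set X, IsOpen O → ∀ x ∈ O, ∃ s, IsGδ s ∧ e x ∈ s ∧ e ⁻¹' s ⊆ O := by
    intro O hO
    rw [ht] at hO
    induction hO with
    | basic s h =>
      obtain ⟨U, h1, rfl⟩ := h
      exact fun x hx => ⟨_, IsGδ.iInter_of_isOpen h1, hx, subset_rfl⟩
    | univ => exact fun x _ => ⟨univ, IsGδ.univ, trivial, subset_univ _⟩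
    | inter s t _ _ h1 h2 =>
      intro x hx
      obtain ⟨a, a1, a2, a3⟩ := h1 x hx.1
      obtain ⟨b, b1, b2, b3⟩ := h2 x hx.2
      exact ⟨a ∩ b, a1.inter b1, ⟨a2, b2⟩, fun y hy => ⟨a3 hy.1, b3 hy.2⟩⟩
    | sUnion S _ h =>
      rintro x ⟨s, h1, h2⟩
      obtain ⟨a, a1, a2, a3⟩ := h s h1 x h2
      exact ⟨a, a1, a2, a3.trans (subset_sUnion_of_mem h1)⟩
  obtain ⟨ρ, hρ⟩ := rank hs
  have hU : ∀ p, ∃ U : Set K, IsClosed U ∧ IsGδ U ∧ U ∈ 𝓝 p ∧ ∀ q ∈ U, q ≠ p → ρ q < ρ p := by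
    intro p
    obtain ⟨O, h1, h2, h3⟩ := hρ p
    obtain ⟨g, g0, g1, -⟩ := exists_continuous_zero_one_of_isClosed (isClosed_singleton (x := p))
      h1.isClosed_compl (disjoint_singleton_left.2 (not_not.2 h2))
    refine ⟨g ⁻¹' Iic (1 / 2), isClosed_Iic.preimage g.continuous,
      isClosed_Iic.isGδ.preimage g.continuous, g.continuous.continuousAt.preimage_mem_nhds
        (Iic_mem_nhds (by rw [g0 rfl]; norm_num)), fun q hq => h3 q ?_⟩
    by_contra hn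
    have : g q ≤ 1 / 2 := hq
    rw [g1 hn] at this
    norm_num at this
  choose U hU1 hU2 hU3 hU4 using hU
  have hcov : ∀ C : Set K, ∃ t : Finset K, IsClosed C → ↑t ⊆ C ∧ C ⊆ ⋃ q ∈ t, U q := by
    intro C
    by_cases hC : IsClosed C
    · obtain ⟨t, h1, h2⟩ := hC.isCompact.elim_nhds_subcover U fun x _ => hU3 x
      exact ⟨t, fun _ => ⟨h1, h2⟩⟩
    · exact ⟨∅, fun h => absurd h hC⟩
  choose t ht' using hcov
  have hV : ∀ (n : ℕ) (p : Fin n → K), ∃ V : Fin n → ℕ → Set K,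
      (fun i => e.symm (p i)) ∉ F n → (∀ i k, IsOpen (V i k) ∧ p i ∈ V i k) ∧
        ∀ x : Fin n → X, (∀ i k, e (x i) ∈ V i k) → x ∉ F n := by
    intro n p
    by_cases hp : (fun i => e.symm (p i)) ∈ F n
    · exact ⟨fun _ _ => ∅, fun h => absurd hp h⟩
    obtain ⟨u, h1, h2⟩ := isOpen_pi_iff'.1 (hF n).isOpen_compl _ hp
    choose s a1 a2 a3 using fun i => hba (u i) (h1 i).1 _ (h1 i).2
    choose V b1 b2 using fun i => gd_seq (a1 i)
    refine ⟨V, fun _ => ⟨fun i k => ⟨b1 i k, ?_⟩, fun x hx => h2 fun i _ => a3 i ?_⟩⟩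
    · have := a2 i
      rw [b2, Equiv.apply_symm_apply] at this
      exact mem_iInter.1 this k
    · rw [b2]
      exact mem_iInter.2 (hx i)
  choose V hV using hV
  obtain ⟨M, hM, hM0, hMc⟩ := closing (fun G : Finset K => ⋃ n, ⋃ p ∈ pi univ
      (fun _ : Fin n => (G : Set K)), ⋃ i, ⋃ k, (t (U (p i) \ V n p i k) : Set K))
    (fun G => countable_iUnion fun n => (countable_univ_pi fun _ => G.countable_toSet).biUnion
      fun p _ => countable_iUnion fun i => countable_iUnion fun k => Finset.countable_toSet _)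
    (t univ).countable_toSet
  have hex : ∀ x : X, {p | p ∈ M ∧ e x ∈ U p}.Nonempty := fun x => by
    obtain ⟨q, h1, h2⟩ := mem_iUnion₂.1 ((ht' univ isClosed_univ).2 (mem_univ (e x)))
    exact ⟨q, hM0 h1, h2⟩
  let g : X → K := fun x => Function.argminOn ρ _ (hex x)
  have hg1 : ∀ x, g x ∈ M ∧ e x ∈ U (g x) := fun x => Function.argminOn_mem ρ _ (hex x)
  have hg2 : ∀ x q, q ∈ M → e x ∈ U q → ¬ ρ q < ρ (g x) := fun x q h1 h2 =>
    Function.not_lt_argminOn ρ _ (show q ∈ {p | p ∈ M ∧ e x ∈ U p} from ⟨h1, h2⟩)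
  refine ⟨fun x => e.symm (g x), ?_, (hM.image e.symm).mono ?_, fun n x hx => ?_⟩
  · refine IsLocallyConstant.continuous ((IsLocallyConstant.iff_exists_open _).2 fun x => ?_)
    refine ⟨e ⁻¹' ⋂ p ∈ M, {y | y ∈ U p ↔ e x ∈ U p}, hop _ (IsGδ.biInter hM fun p _ => ?_),
      by simp, fun y hy => ?_⟩
    · by_cases h : e x ∈ U p
      · simpa [h] using hU2 p
      · simpa [h, compl_def] using (hU1 p).isOpen_compl.isGδ
    · have : {p | p ∈ M ∧ e y ∈ U p} = {p | p ∈ M ∧ e x ∈ U p} := by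
        ext p
        exact and_congr_right fun hp => mem_iInter₂.1 hy p hp
      simp only [g, this]
  · rintro _ ⟨x, rfl⟩
    exact ⟨_, (hg1 x).1, rfl⟩
  · by_contra hn
    obtain ⟨h1, h2⟩ := hV n (fun i => g (x i)) hn
    refine h2 x (fun i k => ?_) hx
    by_contra hk
    obtain ⟨h3, h4⟩ := ht' (U (g (x i)) \ V n (fun i => g (x i)) i k)
      ((hU1 _).sdiff (h1 i k).1)
    obtain ⟨q, h5, h6⟩ := mem_iUnion₂.1 (h4 ⟨(hg1 _).2, hk⟩)
    refine hg2 (x i) q (hMc (Finset.univ.image fun i => g (x i)) ?_ ?_) h6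
      (hU4 _ q (h3 h5).1 fun h => (h3 h5).2 (h ▸ (h1 i k).2))
    · intro y hy
      obtain ⟨j, -, rfl⟩ := Finset.mem_image.1 hy
      exact (hg1 _).1
    · exact mem_iUnion.2 ⟨n, mem_iUnion₂.2 ⟨fun i => g (x i),
        fun j _ => Finset.mem_image_of_mem _ (Finset.mem_univ j),
        mem_iUnion.2 ⟨i, mem_iUnion.2 ⟨k, h5⟩⟩⟩⟩

theorem net_of_cnt {X : Type} [TopologicalSpace X] {R : Set X} (h : R.Countable) :
    ∃ N : Set (Set X), N.Countable ∧ ∀ x ∈ R, ∀ U : Set X, IsOpen U → x ∈ U →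
      ∃ A ∈ N, x ∈ A ∧ A ⊆ R ∩ U :=
  ⟨(fun x => {x}) '' R, h.image _, fun x hx _ _ hU =>
    ⟨{x}, ⟨x, hx, rfl⟩, rfl, singleton_subset_iff.2 ⟨hx, hU⟩⟩⟩

end Pool.Agent.Lead.Sok
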