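import Mathlib

namespace Pool.Agent.Lead.Sok

/-- `Z` has a countable network. -/
def CountableNetwork (Z : Type) [TopologicalSpace Z] : Prop :=
  ∃ N : Set (Set Z), N.Countable ∧ ∀ U : Set Z, IsOpen U → ∀ x ∈ U, ∃ A ∈ N, x ∈ A ∧ A ⊆ U

/-- Sokolov spaces. -/
def Sokolov (X : Type) [TopologicalSpace X] : Prop :=
  ∀ F : (n : ℕ) → Set (Fin n → X), (∀ n, IsClosed (F n)) →
    ∃ f : X → X, Continuous f ∧ CountableNetwork (Set.range f) ∧
      ∀ n : ℕ, ∀ x ∈ F n, (fun i => f (x i)) ∈ F n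

/-- Every nonempty subset has a relatively isolated point. -/
def Scattered (K : Type) [TopologicalSpace K] : Prop :=
  ∀ S : Set K, S.Nonempty → ∃ x ∈ S, ∃ U : Set K, IsOpen U ∧ U ∩ S = {x}

/-- The topology generated by the `Gδ`-sets. -/
def omegaMod (K : Type) [TopologicalSpace K] : TopologicalSpace K :=
  TopologicalSpace.generateFrom {S : Set K | IsGδ S}

end Pool.Agent.Lead.Sok
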