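import Pool.Agent.Lead.SpaDefs
import Pool.Agent.H11.Base1

set_option autoImplicit false

namespace Pool.Agent.Lead.Spa
open Pool.Agent.H11.PT Finset

def rk (I : Inst) (l s : ℕ) : ℕ := (R I l).idxOf s

def asg (I : Inst) (a b : ℕ → ℕ) (s : ℕ) : Option ℕ :=
  (A I s).find? fun p => decide (rk I (lec I p) s < a p ∧ rk I (lec I p) s < b (lec I p))

theorem find_le {P : ℕ → Bool} {L : List ℕ} {y : ℕ} (hy : y ∈ L) (h : P y = true) :
    ∃ x, L.find? P = some x ∧ L.idxOf x ≤ L.idxOf y := by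
  induction L with
  | nil => simp at hy
  | cons z L ih =>
    by_cases hz : P z = true
    · exact ⟨z, by simp [hz], by simp⟩
    · have : y ≠ z := fun e => hz (e ▸ h)
      obtain ⟨x, h1, h2⟩ := ih (by simpa [this] using hy)
      have : x ≠ z := fun e => hz (e ▸ List.find?_some h1)
      exact ⟨x, by simp [hz, h1], by
        rw [List.idxOf_cons_ne _ (Ne.symm ‹y ≠ z›), List.idxOf_cons_ne _ this.symm]; omega⟩

theorem find_mono {P Q : ℕ → Bool} {L : List ℕ} {x : ℕ} (h : L.find? P = some x)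
    (hq : ∀ y, Q y = true → P y = true) (hx : Q x = true) : L.find? Q = some x := by
  induction L with
  | nil => simp at h
  | cons z L ih =>
    by_cases hz : P z = true
    · simp only [List.find?_cons, hz, Option.some.injEq] at h
      simp [h, hx]
    · have : ¬ Q z = true := fun e => hz (hq z e)
      simp only [List.find?_cons, hz] at h
      simp [this, ih h]

variable {I : Inst} {a b : ℕ → ℕ} {M' : ℕ → Option ℕ} {K : ℕ}

theorem asg_spec {s p : ℕ} (h : asg I a b s = some p) :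
    p ∈ A I s ∧ rk I (lec I p) s < a p ∧ rk I (lec I p) s < b (lec I p) :=
  ⟨List.mem_of_find?_eq_some h, by simpa using List.find?_some h⟩

theorem asg_stay {a' b' : ℕ → ℕ} (ha : ∀ p, a' p ≤ a p) (hb : ∀ p, b' p ≤ b p) {s p : ℕ}
    (h : asg I a b s = some p) (h1 : rk I (lec I p) s < a' p)
    (h2 : rk I (lec I p) s < b' (lec I p)) : asg I a' b' s = some p :=
  find_mono h (fun y => by
    simp only [decide_eq_true_eq]
    exact fun h => ⟨h.1.trans_le (ha _), h.2.trans_le (hb _)⟩) (by simp [h1, h2])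

theorem mem_Mp {M : ℕ → Option ℕ} {s p : ℕ} : s ∈ Mp I M p ↔ s < nS I ∧ M s = some p := by
  simp [Mp]

theorem mem_Ml {M : ℕ → Option ℕ} {s l : ℕ} :
    s ∈ Ml I M l ↔ s < nS I ∧ ∃ p, M s = some p ∧ lec I p = l := by
  simp [Ml]

theorem rk_inj (V : Valid I) {s y p p' : ℕ} (hs : s < nS I) (hy : y < nS I) (hp : p ∈ A I s)
    (hp' : p' ∈ A I y) (e : lec I p' = lec I p) (h : rk I (lec I p) s = rk I (lec I p) y) :
    s = y := by
  have := (V.2.2 _ (V.2.1 p ((V.1 s hs).2 p hp))).2.1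
  exact (List.idxOf_inj ((this s).2 ⟨hs, p, hp, rfl⟩)).1 h

theorem card_Ml (V : Valid I) {M : ℕ → Option ℕ} (h : ∀ s < nS I, ∀ p, M s = some p → p ∈ A I s)
    (l : ℕ) : (Ml I M l).card =
      ∑ p ∈ (range (nP I)).filter (fun p => lec I p = l), (Mp I M p).card := by
  rw [← card_biUnion]
  · congr 1
    ext s
    simp only [mem_Ml, mem_biUnion, mem_filter, mem_range, mem_Mp]
    exact ⟨fun ⟨h1, p, h2, h3⟩ => ⟨p, ⟨(V.1 s h1).2 p (h s h1 p h2), h3⟩, h1, h2⟩,
      fun ⟨p, h1, h2, h3⟩ => ⟨h2, p, h3, h1.2⟩⟩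
  · intro p _ p' _ e
    refine disjoint_left.2 fun s h1 h2 => e ?_
    exact Option.some.inj ((mem_Mp.1 h1).2.symm.trans (mem_Mp.1 h2).2)

theorem card_tot (V : Valid I) {M : ℕ → Option ℕ}
    (h : ∀ s < nS I, ∀ p, M s = some p → p ∈ A I s) : ∑ l ∈ range (nL I), (Ml I M l).card =
      ((range (nS I)).filter fun s => (M s).isSome = true).card := by
  rw [← card_biUnion]
  · congr 1
    ext s
    simp only [mem_Ml, mem_biUnion, mem_filter, mem_range, Option.isSome_iff_exists]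
    exact ⟨fun ⟨l, _, h1, p, h2, _⟩ => ⟨h1, p, h2⟩, fun ⟨h1, p, h2⟩ =>
      ⟨_, V.2.1 p ((V.1 s h1).2 p (h s h1 p h2)), h1, p, h2, rfl⟩⟩
  · intro p _ p' _ e
    refine disjoint_left.2 fun s h1 h2 => e ?_
    obtain ⟨-, x, h3, rfl⟩ := mem_Ml.1 h1
    obtain ⟨-, y, h4, rfl⟩ := mem_Ml.1 h2
    rw [Option.some.inj (h3.symm.trans h4)]

def Inv (I : Inst) (M' : ℕ → Option ℕ) (K : ℕ) (a b : ℕ → ℕ) : Prop :=
  (∀ s < nS I, ∀ p, M' s = some p → rk I (lec I p) s < a p ∧ rk I (lec I p) s < b (lec I p)) ∧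
  (∀ p < nP I, a p = K ∨ c I p ≤ (Mp I (asg I a b) p).card ∨ b (lec I p) ≤ a p) ∧
  ∀ l < nL I, b l = K ∨ (Ml I M' l).card = d I l

theorem best (G : Good I M') (J : Inv I M' K a b) {s p' : ℕ} (hs : s < nS I)
    (h : M' s = some p') : ∃ p, asg I a b s = some p ∧ (A I s).idxOf p ≤ (A I s).idxOf p' :=
  find_le (G.1.1 s hs p' h) (by simpa using J.1 s hs p' h)

/-- a student of `p` in the current assignment who is not at `p` in `M'` -/
theorem envy (G : Good I M') (J : Inv I M' K a b) {p : ℕ}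
    (h : (Mp I M' p).card < (Mp I (asg I a b) p).card) : ∃ s < nS I, asg I a b s = some p ∧
      M' s ≠ some p ∧ ¬ (((Mp I M' p).card < c I p ∧ (Ml I M' (lec I p)).card < d I (lec I p)) ∨
     ((Mp I M' p).card < c I p ∧ (Ml I M' (lec I p)).card = d I (lec I p) ∧
        (s ∈ Ml I M' (lec I p) ∨ ∃ w ∈ Ml I M' (lec I p), Pref (R I (lec I p)) s w)) ∨
     ((Mp I M' p).card = c I p ∧ ∃ w ∈ Mp I M' p, Pref (R I (lec I p)) s w)) := by
  obtain ⟨s, h1, h2⟩ := exists_mem_notMem_of_card_lt_card h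
  rw [mem_Mp] at h1 h2
  have h3 : M' s ≠ some p := fun e => h2 ⟨h1.1, e⟩
  refine ⟨s, h1.1, h1.2, h3, fun h4 => G.2.1 s h1.1 p ⟨(asg_spec h1.2).1, h3, ?_, h4⟩⟩
  cases e : M' s with
  | none => exact .inl rfl
  | some p' =>
    obtain ⟨x, x1, x2⟩ := best G J h1.1 e
    obtain rfl := Option.some.inj (x1.symm.trans h1.2)
    refine .inr ⟨p', rfl, lt_of_le_of_ne x2 fun e' => h3 ?_⟩
    rw [e, (List.idxOf_inj (asg_spec x1).1).1 e']

theorem key (V : Valid I) (G : Good I M') (J : Inv I M' K a b) {p : ℕ} (hp : p < nP I)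
    (h : (Mp I M' p).card < (Mp I (asg I a b) p).card) (h' : (Mp I (asg I a b) p).card ≤ c I p) :
    (Ml I M' (lec I p)).card = d I (lec I p) ∧ ∃ f ∈ Ml I (asg I a b) (lec I p),
      ∀ y ∈ Ml I M' (lec I p), rk I (lec I p) y < rk I (lec I p) f := by
  obtain ⟨s, s1, s2, -, s4⟩ := envy G J h
  have := G.1.2.2 _ (V.2.1 p hp)
  have e : (Ml I M' (lec I p)).card = d I (lec I p) := by
    by_contra e
    exact s4 (.inl ⟨by omega, by omega⟩)
  refine ⟨e, s, mem_Ml.2 ⟨s1, p, s2, rfl⟩, fun y hy => lt_of_le_of_ne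
    (not_lt.1 fun h => s4 (.inr (.inl ⟨by omega, e, .inr ⟨y, hy, h⟩⟩))) fun e' => ?_⟩
  obtain ⟨y1, x, y2, y3⟩ := mem_Ml.1 hy
  obtain rfl := rk_inj V s1 y1 (asg_spec s2).1 (G.1.1 y y1 x y2) y3 e'.symm
  exact s4 (.inr (.inl ⟨by omega, e, .inl hy⟩))

theorem exists_proj (V : Valid I) {M N : ℕ → Option ℕ} {l : ℕ}
    (hM : ∀ s < nS I, ∀ p, M s = some p → p ∈ A I s) (hN : ∀ s < nS I, ∀ p, N s = some p → p ∈ A I s)
    (h : (Ml I M l).card < (Ml I N l).card ∨ ((Ml I M l).card = (Ml I N l).card ∧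
      ∃ p < nP I, lec I p = l ∧ (Mp I N p).card < (Mp I M p).card)) :
    ∃ p < nP I, lec I p = l ∧ (Mp I M p).card < (Mp I N p).card := by
  by_contra h'
  push Not at h'
  rw [card_Ml V hM, card_Ml V hN] at h
  have h1 : ∀ p ∈ (range (nP I)).filter (fun p => lec I p = l),
      (Mp I N p).card ≤ (Mp I M p).card := fun p hp => by
    simp only [mem_filter, mem_range] at hp
    exact h' p hp.1 hp.2
  rcases h with h | ⟨h, p, p1, p2, p3⟩
  · exact absurd (sum_le_sum h1) (not_le.2 h)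
  · exact absurd (sum_lt_sum h1 ⟨p, by simp [p1, p2], p3⟩) (by omega)

theorem eqv (V : Valid I) (G : Good I M') (J : Inv I M' K a b) (hm : IsMatching I (asg I a b))
    {l : ℕ} (hl : l < nL I) : (Ml I M' l).card = (Ml I (asg I a b) l).card := by
  have h1 : ∀ l ∈ range (nL I), (Ml I (asg I a b) l).card ≤ (Ml I M' l).card := fun l hl => by
    by_contra h
    obtain ⟨p, p1, rfl, p3⟩ := exists_proj V G.1.1 hm.1 (.inl (not_le.1 h))
    have := (key V G J p1 p3 (hm.2.1 p p1)).1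
    have := hm.2.2 _ (mem_range.1 hl)
    omega
  refine ((sum_eq_sum_iff_of_le h1).1 (le_antisymm (sum_le_sum h1) ?_) l (mem_range.2 hl)).symm
  rw [card_tot V G.1.1, card_tot V hm.1]
  refine card_le_card fun s => ?_
  simp only [mem_filter, mem_range, Option.isSome_iff_exists]
  exact fun ⟨h1, p, h2⟩ => ⟨h1, (best G J h1 h2).imp fun _ h => h.1⟩

theorem final (V : Valid I) (G : Good I M') (J : Inv I M' K a b) (hK : ∀ l s, rk I l s < K)
    (hm : IsMatching I (asg I a b)) : ∀ s < nS I, ∀ p, ¬ Blocks I (asg I a b) s p := by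
  rintro s hs p ⟨h1, h2, h3, h4⟩
  have hp := (V.1 s hs).2 p h1
  have dead : ¬ (rk I (lec I p) s < a p ∧ rk I (lec I p) s < b (lec I p)) := fun h => by
    obtain ⟨x, x1, x2⟩ := find_le (P := fun p => decide (rk I (lec I p) s < a p ∧
      rk I (lec I p) s < b (lec I p))) h1 (by simpa using h)
    rcases h3 with h3 | ⟨y, h3, h5⟩
    · exact absurd (x1.symm.trans h3) (by simp)
    · obtain rfl := Option.some.inj (x1.symm.trans h3)
      exact absurd h5 (not_lt.2 x2)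
  have := hK (lec I p) s
  have hc := hm.2.1 p hp
  by_cases hb : rk I (lec I p) s < b (lec I p)
  · have j := J.2.1 p hp
    rcases h4 with h4 | h4 | ⟨-, w, w1, w2⟩
    · omega
    · omega
    · have := (asg_spec (mem_Mp.1 w1).2).2.1
      unfold Pref at w2
      unfold rk at *
      omega
  · have j := J.2.2 _ (V.2.1 p hp)
    rw [eqv V G J hm (V.2.1 p hp)] at j
    have al : ∀ w ∈ Ml I (asg I a b) (lec I p), rk I (lec I p) w < b (lec I p) := fun w hw => by
      obtain ⟨-, x, x1, x2⟩ := mem_Ml.1 hw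
      exact x2 ▸ (asg_spec x1).2.2
    rcases h4 with h4 | ⟨-, -, h4 | ⟨w, w1, w2⟩⟩ | ⟨-, w, w1, w2⟩
    · omega
    · exact hb (al s h4)
    · exact hb (lt_trans w2 (al w w1))
    · exact hb (lt_trans w2 (asg_spec (mem_Mp.1 w1).2).2.2)

/-- lowering the cutoff of an oversubscribed project -/
theorem step1 (V : Valid I) (G : Good I M') (J : Inv I M' K a b) {p r : ℕ} (hp : p < nP I)
    (h : c I p < (Mp I (asg I a b) p).card)
    (r1 : ∀ s ∈ Mp I (asg I a b) p, rk I (lec I p) s ≤ r)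
    (r2 : (Mp I (asg I a b) p).Nonempty → ∃ s ∈ Mp I (asg I a b) p, rk I (lec I p) s = r)
    {a' : ℕ → ℕ} (ha : ∀ x, a' x = if x = p then r else a x) : r < a p ∧ Inv I M' K a' b := by
  obtain ⟨w, w1, w2⟩ := r2 (card_pos.1 (by omega))
  have hr : r < a p := w2 ▸ (asg_spec (mem_Mp.1 w1).2).2.1
  have le : ∀ x, a' x ≤ a x := fun x => by rw [ha]; split_ifs with e; exacts [e ▸ hr.le, le_rfl]
  refine ⟨hr, fun y hy x hx => ⟨?_, (J.1 y hy x hx).2⟩, fun x hx => ?_, J.2.2⟩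
  · rw [ha]
    split_ifs with e
    swap
    · exact (J.1 y hy x hx).1
    subst e
    have h1 := G.1.2.1 x hp
    have h2 := G.1.2.2 _ (V.2.1 x hp)
    obtain ⟨s, s1, s2, s3, s4⟩ := envy G J (h1.trans_lt h)
    have h3 := r1 s (mem_Mp.2 ⟨s1, s2⟩)
    by_contra h4
    have h5 : Pref (R I (lec I x)) s y := lt_of_le_of_ne (h3.trans (not_lt.1 h4)) fun e =>
      s3 (rk_inj V s1 hy (asg_spec s2).1 (G.1.1 y hy x hx) rfl e ▸ hx)
    rcases h1.lt_or_eq with h1 | h1
    · rcases h2.lt_or_eq with h2 | h2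
      · exact s4 (.inl ⟨h1, h2⟩)
      · exact s4 (.inr (.inl ⟨h1, h2, .inr ⟨y, mem_Ml.2 ⟨hy, x, hx, rfl⟩, h5⟩⟩))
    · exact s4 (.inr (.inr ⟨h1, y, mem_Mp.2 ⟨hy, hx⟩, h5⟩))
  · by_cases e : x = p
    · subst e
      refine .inr (.inl ?_)
      have : (Mp I (asg I a b) x).erase w ⊆ Mp I (asg I a' b) x := fun s hs => by
        obtain ⟨s0, hs⟩ := mem_erase.1 hs
        obtain ⟨s1, s2⟩ := mem_Mp.1 hs
        refine mem_Mp.2 ⟨s1, asg_stay le (fun _ => le_rfl) s2 ?_ (asg_spec s2).2.2⟩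
        rw [ha, if_pos rfl]
        exact lt_of_le_of_ne (r1 s hs) fun e => s0 (rk_inj V s1 (mem_Mp.1 w1).1 (asg_spec s2).1
          (asg_spec (mem_Mp.1 w1).2).1 rfl (e.trans w2.symm))
      have := card_le_card this
      rw [card_erase_of_mem w1] at this
      omega
    · rw [ha, if_neg e]
      refine (J.2.1 x hx).imp_right (.imp_left fun h => h.trans (card_le_card fun s hs => ?_))
      obtain ⟨s1, s2⟩ := mem_Mp.1 hs
      refine mem_Mp.2 ⟨s1, asg_stay le (fun _ => le_rfl) s2 ?_ (asg_spec s2).2.2⟩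
      rw [ha, if_neg e]
      exact (asg_spec s2).2.1

/-- lowering the cutoff of a lecturer -/
theorem step2 (V : Valid I) (G : Good I M') (J : Inv I M' K a b) {l r : ℕ}
    (h0 : ∀ p < nP I, (Mp I (asg I a b) p).card ≤ c I p)
    (h : ∃ p < nP I, lec I p = l ∧ (Mp I M' p).card < (Mp I (asg I a b) p).card)
    (r1 : ∀ s ∈ Ml I (asg I a b) l, rk I l s ≤ r)
    (r2 : (Ml I (asg I a b) l).Nonempty → ∃ s ∈ Ml I (asg I a b) l, rk I l s = r)
    {b' : ℕ → ℕ} (hb : ∀ x, b' x = if x = l then r else b x) : r < b l ∧ Inv I M' K a b' := by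
  obtain ⟨p, p1, rfl, p3⟩ := h
  obtain ⟨k1, f, f1, f2⟩ := key V G J p1 p3 (h0 p p1)
  obtain ⟨w, w1, w2⟩ := r2 ⟨f, f1⟩
  have hr : r < b (lec I p) := by
    obtain ⟨-, x, x1, x2⟩ := mem_Ml.1 w1
    exact w2 ▸ x2 ▸ (asg_spec x1).2.2
  have le : ∀ x, b' x ≤ b x := fun x => by rw [hb]; split_ifs with e; exacts [e ▸ hr.le, le_rfl]
  refine ⟨hr, fun y hy x hx => ⟨(J.1 y hy x hx).1, ?_⟩, fun x hx => ?_, fun l hl => ?_⟩
  · rw [hb]
    split_ifs with e
    · exact e ▸ (f2 y (mem_Ml.2 ⟨hy, x, hx, e⟩)).trans_le (r1 f f1)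
    · exact (J.1 y hy x hx).2
  · rcases J.2.1 x hx with j | j | j
    · exact .inl j
    · by_cases e : b' (lec I x) ≤ a x
      · exact .inr (.inr e)
      refine .inr (.inl (j.trans (card_le_card fun s hs => ?_)))
      obtain ⟨s1, s2⟩ := mem_Mp.1 hs
      exact mem_Mp.2 ⟨s1, asg_stay (fun _ => le_rfl) le s2 (asg_spec s2).2.1
        ((asg_spec s2).2.1.trans (not_le.1 e))⟩
    · exact .inr (.inr ((le _).trans j))
  · rw [hb]
    split_ifs with e
    · exact .inr (e ▸ k1)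
    · exact J.2.2 l hl

end Pool.Agent.Lead.Spa
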