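import Pool.Agent.Lead.Spa1

set_option autoImplicit false

namespace Pool.Agent.Lead.Spa
open Pool.Agent.H11.PT

def ltB (n : ℕ) (l : List Bool) : Bool := decide (n < bin l)
def gtB (n : ℕ) (l : List Bool) : Bool := decide (bin l < n)
def cb (I : Inst) (p : ℕ) : List Bool := (I.2.1.getD p (0, [], [])).2.1
def qb (I : Inst) (p : ℕ) : List Bool := (I.2.1.getD p (0, [], [])).2.2
def db (I : Inst) (l : ℕ) : List Bool := (I.2.2.getD l ([], [])).1
def KK (I : Inst) : ℕ := (I.2.2.map fun e => e.2.length).sum + 1
def look (K : ℕ) (L : List (ℕ × ℕ)) (x : ℕ) : ℕ := ((L.find? fun e => e.1 == x).getD (0, K)).2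
abbrev St := List (ℕ × ℕ) × List (ℕ × ℕ)
def MM (I : Inst) (t : St) : ℕ → Option ℕ := asg I (look (KK I) t.1) (look (KK I) t.2)
def lp (I : Inst) (t : St) (p : ℕ) : List ℕ :=
  (List.range (nS I)).filter fun s => decide (MM I t s = some p)
def ll (I : Inst) (t : St) (l : ℕ) : List ℕ :=
  (List.range (nS I)).filter fun s => (MM I t s).isSome && decide (lec I ((MM I t s).getD 0) = l)
def mxr (I : Inst) (l : ℕ) (L : List ℕ) : ℕ := (L.map (rk I l)).foldr max 0
def f1 (I : Inst) (t : St) : Option ℕ :=
  (List.range (nP I)).find? fun p => gtB (lp I t p).length (cb I p)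
def f2 (I : Inst) (t : St) : Option ℕ :=
  (List.range (nL I)).find? fun l => gtB (ll I t l).length (db I l)
def f3 (I : Inst) (t : St) : Option ℕ :=
  (List.range (nP I)).find? fun p => ltB (lp I t p).length (qb I p)
def u1 (I : Inst) (t : St) (p : ℕ) : St := ((p, mxr I (lec I p) (lp I t p)) :: t.1, t.2)
def u2 (I : Inst) (t : St) (l : ℕ) : St := (t.1, (l, mxr I l (ll I t l)) :: t.2)
def step (I : Inst) (t : St) : St :=
  bif (f1 I t).isSome then u1 I t ((f1 I t).getD 0) else
  bif (f2 I t).isSome then u2 I t ((f2 I t).getD 0) else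
  bif (f3 I t).isSome then u2 I t (lec I ((f3 I t).getD 0)) else t
def blk (I : Inst) (t : St) (s p : ℕ) : Bool :=
  !decide (MM I t s = some p) && (decide (MM I t s = none) ||
    decide ((A I s).idxOf p < (A I s).idxOf ((MM I t s).getD 0))) &&
  ((ltB (lp I t p).length (cb I p) && (ltB (ll I t (lec I p)).length (db I (lec I p)) ||
      (ll I t (lec I p)).contains s ||
      (ll I t (lec I p)).any fun w => decide (rk I (lec I p) s < rk I (lec I p) w))) ||
    (!ltB (lp I t p).length (cb I p) &&
      (lp I t p).any fun w => decide (rk I (lec I p) s < rk I (lec I p) w)))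
def ok (I : Inst) (t : St) : Bool := !(f1 I t).isSome && !(f2 I t).isSome && !(f3 I t).isSome &&
  (List.range (nS I)).all fun s => (A I s).all fun p => !blk I t s p
def fin (I : Inst) : St := (step I)^[(nP I + nL I) * KK I] ([], [])
def alg (I : Inst) : Option (List (Option ℕ)) :=
  bif ok I (fin I) then some ((List.range (nS I)).map (MM I (fin I))) else none

section
variable {α : Type} [Enc α] {f : α → Inst} {t : α → St} {g h : α → ℕ}

theorem cap_pt {l : α → List Bool} (hg : PT g) (hl : PT l) :
    PT fun x => min (g x) (bin (l x)) := by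
  refine (PT.foldl_inv (g := fun x c b => min (g x) ((bif b then 1 else 0) + 2 * c))
    hl.reverse (PT.const 0) (by fun_prop) (fun x c => c ≤ g x) g hg (fun _ => Nat.zero_le _)
    (fun _ _ _ _ _ => min_le_left _ _) (fun x c h => by simp; omega)).of_eq fun x => ?_
  rw [List.foldl_reverse]
  induction l x with
  | nil => simp [bin]
  | cons b l ih =>
    simp only [List.foldr_cons, ih, bin, List.map_cons, Nat.ofDigits_cons]
    cases b <;> simp <;> omega

@[fun_prop] theorem ltB_pt {l : α → List Bool} (hg : PT g) (hl : PT l) :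
    PT fun x => ltB (g x) (l x) :=
  (PT.decLt hg (cap_pt (g := fun x => g x + 1) (by fun_prop) hl)).of_eq fun x => by simp [ltB]
@[fun_prop] theorem gtB_pt {l : α → List Bool} (hg : PT g) (hl : PT l) :
    PT fun x => gtB (g x) (l x) :=
  (PT.decLt (cap_pt hg hl) hg).of_eq fun x => by simp [gtB]
@[fun_prop] theorem idx_pt {l : α → List ℕ} (hg : PT g) (hl : PT l) :
    PT fun x => (l x).idxOf (g x) := by
  refine (PT.foldr_add (g := fun x b c => bif b == g x then 0 else c + 1) hl (PT.const 0)
    (by fun_prop) (fun _ _ => ()) 2 (by fun_prop) fun x c b => ?_).of_eq fun x => ?_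
  · cases b == g x <;> simp <;> omega
  · induction l x with
    | nil => rfl
    | cons b l ih => rw [List.foldr_cons, ih, List.idxOf_cons]
@[fun_prop] theorem max_pt {l : α → List ℕ} (hl : PT l) : PT fun x => (l x).foldr max 0 :=
  PT.foldr_add (g := fun _ b c => max b c) hl (PT.const 0) (by fun_prop) (fun _ b => b) 0
    (by fun_prop) fun x c b => by simp; omega
@[fun_prop] theorem nS_pt : PT nS := by unfold nS; fun_prop
@[fun_prop] theorem nP_pt : PT nP := by unfold nP; fun_prop
@[fun_prop] theorem nL_pt : PT nL := by unfold nL; fun_prop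
@[fun_prop] theorem KK_pt : PT KK := by unfold KK; fun_prop
@[fun_prop] theorem A_pt (hf : PT f) (hg : PT g) : PT fun x => A (f x) (g x) := by
  unfold A; fun_prop
@[fun_prop] theorem lec_pt (hf : PT f) (hg : PT g) : PT fun x => lec (f x) (g x) := by
  unfold lec; fun_prop
@[fun_prop] theorem cb_pt (hf : PT f) (hg : PT g) : PT fun x => cb (f x) (g x) := by
  unfold cb; fun_prop
@[fun_prop] theorem qb_pt (hf : PT f) (hg : PT g) : PT fun x => qb (f x) (g x) := by
  unfold qb; fun_prop
@[fun_prop] theorem db_pt (hf : PT f) (hg : PT g) : PT fun x => db (f x) (g x) := by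
  unfold db; fun_prop
@[fun_prop] theorem rk_pt {k : α → ℕ} (hf : PT f) (hg : PT g) (hk : PT k) :
    PT fun x => rk (f x) (g x) (k x) := by unfold rk R; fun_prop
@[fun_prop] theorem look_pt {l : α → List (ℕ × ℕ)} (hg : PT g) (hl : PT l) (hh : PT h) :
    PT fun x => look (g x) (l x) (h x) := by unfold look; fun_prop
attribute [local irreducible] ltB gtB nS nP nL KK A lec cb qb db rk look
@[fun_prop] theorem MM_pt (hf : PT f) (ht : PT t) (hg : PT g) :
    PT fun x => MM (f x) (t x) (g x) := by unfold MM asg; fun_prop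
attribute [local irreducible] MM
@[fun_prop] theorem lp_pt (hf : PT f) (ht : PT t) (hg : PT g) :
    PT fun x => lp (f x) (t x) (g x) := by unfold lp; fun_prop
@[fun_prop] theorem ll_pt (hf : PT f) (ht : PT t) (hg : PT g) :
    PT fun x => ll (f x) (t x) (g x) := by unfold ll; fun_prop
@[fun_prop] theorem mxr_pt {l : α → List ℕ} (hf : PT f) (hg : PT g) (hl : PT l) :
    PT fun x => mxr (f x) (g x) (l x) := by unfold mxr; fun_prop
attribute [local irreducible] lp ll mxr
@[fun_prop] theorem f1_pt (hf : PT f) (ht : PT t) : PT fun x => f1 (f x) (t x) := by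
  unfold f1; fun_prop
@[fun_prop] theorem f2_pt (hf : PT f) (ht : PT t) : PT fun x => f2 (f x) (t x) := by
  unfold f2; fun_prop
@[fun_prop] theorem f3_pt (hf : PT f) (ht : PT t) : PT fun x => f3 (f x) (t x) := by
  unfold f3; fun_prop
@[fun_prop] theorem blk_pt (hf : PT f) (ht : PT t) (hg : PT g) (hh : PT h) :
    PT fun x => blk (f x) (t x) (g x) (h x) := by unfold blk; fun_prop
attribute [local irreducible] f1 f2 f3 blk
theorem step_pt (hf : PT f) (ht : PT t) : PT fun x => step (f x) (t x) := by
  unfold step u1 u2; fun_prop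
@[fun_prop] theorem ok_pt (hf : PT f) (ht : PT t) : PT fun x => ok (f x) (t x) := by
  unfold ok; fun_prop
end

theorem rk_lt (I : Inst) (l s : ℕ) : rk I l s < KK I := by
  refine Nat.lt_succ_of_le (List.idxOf_le_length.trans ?_)
  unfold R
  by_cases h : l < I.2.2.length
  · rw [List.getD_eq_getElem _ _ h]
    exact List.single_le_sum (by simp) _ (List.mem_map_of_mem (List.getElem_mem h))
  · rw [List.getD_eq_default _ _ (not_lt.1 h)]; exact Nat.zero_le _

theorem mxr_spec (I : Inst) (l : ℕ) (L : List ℕ) : (∀ s ∈ L, rk I l s ≤ mxr I l L) ∧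
    (L ≠ [] → ∃ s ∈ L, rk I l s = mxr I l L) ∧ mxr I l L < KK I := by
  induction L with
  | nil => exact ⟨by simp, by simp, Nat.succ_pos _⟩
  | cons x L ih =>
    have e : mxr I l (x :: L) = max (rk I l x) (mxr I l L) := rfl
    have := rk_lt I l x
    refine ⟨fun s hs => ?_, fun _ => ?_, by omega⟩
    · rcases List.mem_cons.1 hs with rfl | hs
      · omega
      · have := ih.1 s hs; omega
    · by_cases h : mxr I l L ≤ rk I l x
      · exact ⟨x, by simp, by omega⟩
      · obtain ⟨s, s1, s2⟩ := ih.2.1 (by rintro rfl; exact h (Nat.zero_le _))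
        exact ⟨s, by simp [s1], by omega⟩

theorem getD_le {n : ℕ} {P : ℕ → Bool} : ((List.range n).find? P).getD 0 ≤ n := by
  cases e : (List.range n).find? P with
  | none => simp
  | some x => exact (List.mem_range.1 (List.mem_of_find?_eq_some e)).le

theorem alg_pt : PT alg := by
  have hl : ∀ (I : Inst) p, lec I p ≤ (I.2.1.map fun e => e.1).sum := fun I p => by
    unfold lec
    by_cases h : p < I.2.1.length
    · rw [List.getD_eq_getElem _ _ h]
      exact List.single_le_sum (by simp) _ (List.mem_map_of_mem (List.getElem_mem h))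
    · rw [List.getD_eq_default _ _ (not_lt.1 h)]; exact Nat.zero_le _
  have : PT fin := PT.iterate_add (by fun_prop) (by fun_prop)
    (step_pt (PT.fst PT.id) (PT.snd PT.id))
    (fun I => nP I + nL I + KK I + (I.2.1.map fun e => e.1).sum) 3 (by fun_prop) fun I t => by
      have h1 : (f1 I t).getD 0 ≤ nP I := getD_le
      have h2 : (f2 I t).getD 0 ≤ nL I := getD_le
      have h3 := hl I ((f3 I t).getD 0)
      have h4 := fun l L => (mxr_spec I l L).2.2
      rcases t with ⟨t1, t2⟩
      unfold step u1 u2
      cases (f1 I (t1, t2)).isSome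
      · cases (f2 I (t1, t2)).isSome
        · cases (f3 I (t1, t2)).isSome
          · simp only [cond_false]; omega
          · have := h4 (lec I ((f3 I (t1, t2)).getD 0))
              (ll I (t1, t2) (lec I ((f3 I (t1, t2)).getD 0)))
            simp only [cond_false, cond_true, sz_pair, sz_cons, sz_nat]; omega
        · have := h4 ((f2 I (t1, t2)).getD 0) (ll I (t1, t2) ((f2 I (t1, t2)).getD 0))
          simp only [cond_false, cond_true, sz_pair, sz_cons, sz_nat]; omega
      · have := h4 (lec I ((f1 I (t1, t2)).getD 0)) (lp I (t1, t2) ((f1 I (t1, t2)).getD 0))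
        simp only [cond_true, sz_pair, sz_cons, sz_nat]; omega
  unfold alg
  exact PT.cond (ok_pt PT.id this) (PT.some' (PT.map nS_pt.range
    (MM_pt (PT.fst PT.id) (this.comp (PT.fst PT.id)) (PT.snd PT.id)))) (PT.const _)

end Pool.Agent.Lead.Spa
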