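import Pool.Agent.Lead.Spa2

set_option autoImplicit false

namespace Pool.Agent.Lead.Spa
open Pool.Agent.H11.PT Finset

variable {I : Inst} {t : St} {M' : ℕ → Option ℕ}

theorem mem_lp {s p : ℕ} : s ∈ lp I t p ↔ s ∈ Mp I (MM I t) p := by simp [lp, mem_Mp]

theorem mem_ll {s l : ℕ} : s ∈ ll I t l ↔ s ∈ Ml I (MM I t) l := by
  rw [mem_Ml]
  cases e : MM I t s <;> simp [ll, e]

theorem len_lp (p : ℕ) : (lp I t p).length = (Mp I (MM I t) p).card := by
  rw [← List.toFinset_card_of_nodup (l := lp I t p) (List.nodup_range.filter _)]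
  congr 1
  ext s
  exact List.mem_toFinset.trans mem_lp

theorem len_ll (l : ℕ) : (ll I t l).length = (Ml I (MM I t) l).card := by
  rw [← List.toFinset_card_of_nodup (l := ll I t l) (List.nodup_range.filter _)]
  congr 1
  ext s
  exact List.mem_toFinset.trans mem_ll

theorem look_cons (K p r x : ℕ) (L : List (ℕ × ℕ)) :
    look K ((p, r) :: L) x = if x = p then r else look K L x := by
  unfold look
  by_cases h : x = p
  · simp [h]
  · simp [h, Ne.symm h]

theorem f1_none : (f1 I t).isSome = false ↔ ∀ p < nP I, (Mp I (MM I t) p).card ≤ c I p := by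
  simp [f1, gtB, len_lp, c, cb]
theorem f2_none : (f2 I t).isSome = false ↔ ∀ l < nL I, (Ml I (MM I t) l).card ≤ d I l := by
  simp [f2, gtB, len_ll, d, db]
theorem f3_none : (f3 I t).isSome = false ↔ ∀ p < nP I, q I p ≤ (Mp I (MM I t) p).card := by
  simp [f3, ltB, len_lp, q, qb]

theorem find_some {n : ℕ} {P : ℕ → Bool} (h : ((List.range n).find? P).isSome = true) :
    ((List.range n).find? P).getD 0 < n ∧ P (((List.range n).find? P).getD 0) = true := by
  obtain ⟨x, e⟩ := Option.isSome_iff_exists.1 h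
  rw [e]
  exact ⟨List.mem_range.1 (List.mem_of_find?_eq_some e), List.find?_some e⟩

def mu (I : Inst) (t : St) : ℕ :=
  ∑ p ∈ range (nP I), look (KK I) t.1 p + ∑ l ∈ range (nL I), look (KK I) t.2 l

theorem sum_dec {n p r K : ℕ} {L : List (ℕ × ℕ)} (hp : p < n) (h : r < look K L p) :
    ∑ x ∈ range n, look K ((p, r) :: L) x < ∑ x ∈ range n, look K L x := by
  refine sum_lt_sum (fun x _ => ?_) ⟨p, mem_range.2 hp, by simpa [look_cons] using h⟩
  rw [look_cons]
  split_ifs with e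
  exacts [e ▸ h.le, le_rfl]

def Done (I : Inst) (t : St) : Prop :=
  (f1 I t).isSome = false ∧ (f2 I t).isSome = false ∧ (f3 I t).isSome = false

theorem step_spec (V : Valid I) (G : Good I M')
    (J : Inv I M' (KK I) (look (KK I) t.1) (look (KK I) t.2)) :
    Inv I M' (KK I) (look (KK I) (step I t).1) (look (KK I) (step I t).2) ∧
      ((Done I t ∧ step I t = t) ∨ mu I (step I t) < mu I t) := by
  have acc : ∀ s < nS I, ∀ p, MM I t s = some p → p ∈ A I s := fun s _ p h => (asg_spec h).1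
  have s2 : ∀ l < nL I, (f1 I t).isSome = false → (∃ p < nP I, lec I p = l ∧
      (Mp I M' p).card < (Mp I (MM I t) p).card) →
      Inv I M' (KK I) (look (KK I) (u2 I t l).1) (look (KK I) (u2 I t l).2) ∧
        mu I (u2 I t l) < mu I t := fun l hl h1 h => by
    have := mxr_spec I l (ll I t l)
    obtain ⟨a1, a2⟩ := step2 V G J (f1_none.1 h1) h (fun s hs => this.1 s (mem_ll.2 hs))
      (fun ⟨s, hs⟩ => (this.2.1 (List.ne_nil_of_mem (mem_ll.2 hs))).imp fun s h =>
        ⟨mem_ll.1 h.1, h.2⟩) (fun x => look_cons _ _ _ x _)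
    exact ⟨a2, Nat.add_lt_add_left (sum_dec hl a1) _⟩
  unfold step
  cases h1 : (f1 I t).isSome
  · cases h2 : (f2 I t).isSome
    · cases h3 : (f3 I t).isSome
      · exact ⟨J, .inl ⟨⟨h1, h2, h3⟩, rfl⟩⟩
      · obtain ⟨p1, p2⟩ := find_some h3
        change (f3 I t).getD 0 < _ at p1
        change ltB (lp I t ((f3 I t).getD 0)).length (qb I ((f3 I t).getD 0)) = true at p2
        simp only [ltB, len_lp, decide_eq_true_eq] at p2
        refine (s2 _ (V.2.1 _ p1) h1 (exists_proj V G.1.1 acc (.inr ⟨eqv V G J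
          ⟨acc, f1_none.1 h1, f2_none.1 h2⟩ (V.2.1 _ p1), _, p1, rfl,
            p2.trans_le (G.2.2 _ p1)⟩))).imp_right .inr
    · obtain ⟨p1, p2⟩ := find_some h2
      change (f2 I t).getD 0 < _ at p1
      change gtB (ll I t ((f2 I t).getD 0)).length (db I ((f2 I t).getD 0)) = true at p2
      simp only [gtB, len_ll, decide_eq_true_eq] at p2
      exact (s2 _ p1 h1 (exists_proj V G.1.1 acc (.inl ((G.1.2.2 _ p1).trans_lt p2)))).imp_right
        .inr
  · obtain ⟨p1, p2⟩ := find_some h1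
    change (f1 I t).getD 0 < _ at p1
    change gtB (lp I t ((f1 I t).getD 0)).length (cb I ((f1 I t).getD 0)) = true at p2
    simp only [gtB, len_lp, decide_eq_true_eq] at p2
    have := mxr_spec I (lec I ((f1 I t).getD 0)) (lp I t ((f1 I t).getD 0))
    obtain ⟨a1, a2⟩ := step1 V G J p1 p2 (fun s hs => this.1 s (mem_lp.2 hs))
      (fun ⟨s, hs⟩ => (this.2.1 (List.ne_nil_of_mem (mem_lp.2 hs))).imp fun s h =>
        ⟨mem_lp.1 h.1, h.2⟩) (fun x => look_cons _ _ _ x _)
    exact ⟨a2, .inr (Nat.add_lt_add_right (sum_dec p1 a1) _)⟩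

theorem iter_spec (V : Valid I) (G : Good I M') (n : ℕ) : ∀ t : St,
    Inv I M' (KK I) (look (KK I) t.1) (look (KK I) t.2) → mu I t ≤ n →
    Inv I M' (KK I) (look (KK I) ((step I)^[n] t).1) (look (KK I) ((step I)^[n] t).2) ∧
      Done I ((step I)^[n] t) := by
  induction n with
  | zero => exact fun t J h => ⟨J, ((step_spec V G J).2.resolve_right (by omega)).1⟩
  | succ n ih =>
    intro t J h
    rcases step_spec V G J with ⟨J', ⟨h1, h2⟩ | h1⟩
    · rw [Function.iterate_fixed h2]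
      exact ⟨J, h1⟩
    · exact ih _ J' (by omega)

theorem blk_iff (V : Valid I) (hm : IsMatching I (MM I t)) {s p : ℕ} (hs : s < nS I)
    (hp : p ∈ A I s) : blk I t s p = true ↔ Blocks I (MM I t) s p := by
  have h1 := hm.2.1 p ((V.1 s hs).2 p hp)
  have h2 := hm.2.2 _ (V.2.1 p ((V.1 s hs).2 p hp))
  have e : (MM I t s = none ∨ (A I s).idxOf p < (A I s).idxOf ((MM I t s).getD 0)) ↔
      (MM I t s = none ∨ ∃ p', MM I t s = some p' ∧ Pref (A I s) p p') := by
    cases MM I t s <;> simp [Pref]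
  simp only [blk, Blocks, Bool.and_eq_true, Bool.or_eq_true, Bool.not_eq_true', decide_eq_true_eq,
    decide_eq_false_iff_not, ltB, len_lp, len_ll, List.any_eq_true, List.contains_iff_mem, mem_ll,
    mem_lp, e, hp, true_and, and_assoc]
  refine and_congr_right fun _ => and_congr_right fun _ => ?_
  change ((Mp I (MM I t) p).card < c I p ∧ (((Ml I (MM I t) (lec I p)).card < d I (lec I p) ∨ _) ∨
    ∃ w ∈ _, Pref (R I (lec I p)) s w)) ∨ (¬ (Mp I (MM I t) p).card < c I p ∧
      ∃ w ∈ _, Pref (R I (lec I p)) s w) ↔ _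
  rcases h1.lt_or_eq with h1 | h1 <;> rcases h2.lt_or_eq with h2 | h2
  · simp [h1, h2, h1.ne]
  · simp [h1, h2, h1.ne]
  · simp [h1]
  · simp [h1]

theorem ok_iff (V : Valid I) : ok I t = true ↔ Good I (MM I t) := by
  have acc : ∀ s < nS I, ∀ p, MM I t s = some p → p ∈ A I s := fun s _ p h => (asg_spec h).1
  simp only [ok, Bool.and_eq_true, Bool.not_eq_true', f1_none, f2_none, f3_none, List.all_eq_true,
    List.mem_range]
  constructor
  · rintro ⟨⟨⟨h1, h2⟩, h3⟩, h4⟩
    exact ⟨⟨acc, h1, h2⟩, fun s hs p h => Bool.eq_false_iff.1 (h4 s hs p h.1)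
      ((blk_iff V ⟨acc, h1, h2⟩ hs h.1).2 h), h3⟩
  · rintro ⟨h1, h2, h3⟩
    exact ⟨⟨⟨h1.2.1, h1.2.2⟩, h3⟩, fun s hs p hp =>
      Bool.eq_false_iff.2 fun h => h2 s hs p ((blk_iff V h1 hs hp).1 h)⟩

theorem alg_spec (V : Valid I) : (∀ L, alg I = some L → Good I fun s => L.getD s none) ∧
    (alg I = none → ¬ ∃ M, Good I M) := by
  unfold alg
  cases h : ok I (fin I)
  · refine ⟨by simp, fun _ ⟨M', G⟩ => ?_⟩
    have lk : ∀ x, look (KK I) [] x = KK I := fun _ => rfl
    obtain ⟨J, h1, h2, h3⟩ := iter_spec V G ((nP I + nL I) * KK I) ([], [])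
      ⟨fun s _ p _ => ⟨rk_lt _ _ _, rk_lt _ _ _⟩, fun _ _ => .inl rfl, fun _ _ => .inl rfl⟩
      (by simp [mu, lk, add_mul])
    have hm : IsMatching I (MM I (fin I)) :=
      ⟨fun s _ p h => (asg_spec h).1, f1_none.1 h1, f2_none.1 h2⟩
    exact absurd ((ok_iff V).2 ⟨hm, final V G J (rk_lt I) hm, f3_none.1 h3⟩) (by simp [h])
  · refine ⟨fun L hL => ?_, by simp⟩
    obtain rfl := Option.some.inj hL
    convert (ok_iff V).1 h using 2 with s
    by_cases hs : s < nS I
    · simp [hs]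
    · have : A I s = [] := List.getD_eq_default _ _ (not_lt.1 hs)
      simp [hs, MM, asg, this]

end Pool.Agent.Lead.Spa
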