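import Pool.Agent.H11.GDefs

set_option autoImplicit false

namespace Pool.Agent.Lead.Spa
open Pool.Agent.H11.PT

/-- students' preference lists; projects as (lecturer, capacity, lower quota);
lecturers as (capacity, ranking of students); capacities and quotas in binary -/
abbrev Inst := List (List ℕ) × List (ℕ × List Bool × List Bool) × List (List Bool × List ℕ)

def nS (I : Inst) : ℕ := I.1.length
def nP (I : Inst) : ℕ := I.2.1.length
def nL (I : Inst) : ℕ := I.2.2.length
/-- acceptable projects of student `s`, best first -/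
def A (I : Inst) (s : ℕ) : List ℕ := I.1.getD s []
def lec (I : Inst) (p : ℕ) : ℕ := (I.2.1.getD p (0, [], [])).1
def c (I : Inst) (p : ℕ) : ℕ := bin (I.2.1.getD p (0, [], [])).2.1
def q (I : Inst) (p : ℕ) : ℕ := bin (I.2.1.getD p (0, [], [])).2.2
def d (I : Inst) (l : ℕ) : ℕ := bin (I.2.2.getD l ([], [])).1
/-- ranking of lecturer `l`, best first -/
def R (I : Inst) (l : ℕ) : List ℕ := (I.2.2.getD l ([], [])).2

/-- `x` comes strictly before `y` in the list `L` -/
def Pref (L : List ℕ) (x y : ℕ) : Prop := L.idxOf x < L.idxOf y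

def Valid (I : Inst) : Prop :=
  (∀ s < nS I, (A I s).Nodup ∧ ∀ p ∈ A I s, p < nP I) ∧ (∀ p < nP I, lec I p < nL I) ∧
  ∀ l < nL I, (R I l).Nodup ∧ (∀ s, s ∈ R I l ↔ s < nS I ∧ ∃ p ∈ A I s, lec I p = l) ∧
    (∃ p < nP I, lec I p = l) ∧ (∀ p < nP I, lec I p = l → c I p ≤ d I l) ∧
    d I l ≤ ∑ p ∈ (Finset.range (nP I)).filter (fun p => lec I p = l), c I p

/-- students assigned to project `p`; `M s` is the project of student `s`, if any -/
def Mp (I : Inst) (M : ℕ → Option ℕ) (p : ℕ) : Finset ℕ :=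
  (Finset.range (nS I)).filter fun s => M s = some p

/-- students assigned to a project of lecturer `l` -/
def Ml (I : Inst) (M : ℕ → Option ℕ) (l : ℕ) : Finset ℕ :=
  (Finset.range (nS I)).filter fun s => (M s).map (lec I) = some l

def IsMatching (I : Inst) (M : ℕ → Option ℕ) : Prop :=
  (∀ s < nS I, ∀ p, M s = some p → p ∈ A I s) ∧ (∀ p < nP I, (Mp I M p).card ≤ c I p) ∧
    ∀ l < nL I, (Ml I M l).card ≤ d I l

def Blocks (I : Inst) (M : ℕ → Option ℕ) (s p : ℕ) : Prop :=
  p ∈ A I s ∧ M s ≠ some p ∧ (M s = none ∨ ∃ p', M s = some p' ∧ Pref (A I s) p p') ∧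
    (((Mp I M p).card < c I p ∧ (Ml I M (lec I p)).card < d I (lec I p)) ∨
     ((Mp I M p).card < c I p ∧ (Ml I M (lec I p)).card = d I (lec I p) ∧
        (s ∈ Ml I M (lec I p) ∨ ∃ w ∈ Ml I M (lec I p), Pref (R I (lec I p)) s w)) ∨
     ((Mp I M p).card = c I p ∧ ∃ w ∈ Mp I M p, Pref (R I (lec I p)) s w))

/-- a stable matching that respects all lower quotas -/
def Good (I : Inst) (M : ℕ → Option ℕ) : Prop :=
  IsMatching I M ∧ (∀ s < nS I, ∀ p, ¬ Blocks I M s p) ∧ ∀ p < nP I, q I p ≤ (Mp I M p).card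

end Pool.Agent.Lead.Spa
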