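import Mathlib

namespace Pool.Agent.Lead.Spec

variable {k : Type} [Field k]

/-- homogeneous ideal of the point with coordinates P -/
noncomputable def ptIdeal (P : Fin 3 → k) : Ideal (MvPolynomial (Fin 3) k) :=
  Ideal.span {g | g.IsHomogeneous 1 ∧ MvPolynomial.eval P g = 0}

/-- some nonzero form of degree d has multiplicity at least m i at each P i -/
def Effective {r : ℕ} (P : Fin r → Fin 3 → k) (d : ℕ) (m : Fin r → ℕ) : Prop :=
  ∃ F : MvPolynomial (Fin 3) k, F ≠ 0 ∧ F.IsHomogeneous d ∧ ∀ i, F ∈ ptIdeal (P i) ^ m i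

/-- the fat points impose independent conditions on forms of degree d -/
def Indep {r : ℕ} (P : Fin r → Fin 3 → k) (d : ℕ) (m : Fin r → ℕ) : Prop :=
  ∀ G : Fin r → MvPolynomial (Fin 3) k, (∀ i, (G i).IsHomogeneous d) →
    ∃ F : MvPolynomial (Fin 3) k, F.IsHomogeneous d ∧ ∀ i, F - G i ∈ ptIdeal (P i) ^ m i

end Pool.Agent.Lead.Spec
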