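import Mathlib
import Pool.Agent.Lead.SpecDefs

namespace Pool.Agent.Lead.Spec

open MvPolynomial

variable {k : Type} [Field k]

lemma hom_ind {σ : Type} [Inhabited σ] (Q : ℕ → MvPolynomial σ k → Prop) (h0 : ∀ r, Q 0 (C r))
    (hadd : ∀ n x y, Q n x → Q n y → Q n (x + y))
    (hmul : ∀ n r i x, Q n x → Q (n + 1) (C r * X i * x)) (n : ℕ) (G : MvPolynomial σ k)
    (hG : G.IsHomogeneous n) : Q n G := by
  rw [← mem_homogeneousSubmodule, ← homogeneousSubmodule_one_pow] at hG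
  refine Submodule.pow_induction_on_left' _ (C := fun n x _ => Q n x) h0
    (fun x y i _ _ => hadd i x y) (fun m hm i x _ hx => ?_) hG
  rw [homogeneousSubmodule_one_eq_span_X] at hm
  suffices ∀ r, Q (i + 1) (C r * m * x) by simpa using this 1
  induction hm using Submodule.span_induction with
  | mem y hy => obtain ⟨j, rfl⟩ := hy; exact fun r => hmul i r j x hx
  | zero =>
    intro r
    simpa using hmul i 0 default x hx
  | add y z _ _ hy hz =>
    intro r
    have := hadd _ _ _ (hy r) (hz r)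
    convert this using 1; ring
  | smul s y _ hy =>
    intro r
    have := hy (r * s)
    convert this using 1
    rw [smul_eq_C_mul, map_mul]; ring

noncomputable section

abbrev R (k : Type) [Field k] := MvPolynomial (Fin 3) k

def lx (a : k) : R k := X 0 - C a * X 2
def ly (b : k) : R k := X 1 - C b * X 2

lemma lx_hom (a : k) : (lx a).IsHomogeneous 1 :=
  (isHomogeneous_X k 0).sub ((isHomogeneous_X k 2).C_mul a)
lemma ly_hom (a : k) : (ly a).IsHomogeneous 1 :=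
  (isHomogeneous_X k 1).sub ((isHomogeneous_X k 2).C_mul a)
lemma lx_mem (a b : k) : lx a ∈ ptIdeal ![a, b, 1] :=
  Ideal.subset_span ⟨lx_hom a, by simp [lx]⟩
lemma ly_mem (a b : k) : ly b ∈ ptIdeal ![a, b, 1] :=
  Ideal.subset_span ⟨ly_hom b, by simp [ly]⟩

lemma eval_of_mem {P : Fin 3 → k} {F : R k} (h : F ∈ ptIdeal P) : eval P F = 0 := by
  have : ptIdeal P ≤ RingHom.ker (eval P) := Ideal.span_le.2 fun g hg => hg.2
  exact this h

lemma jet (a b : k) (d : ℕ) (G : R k) (hG : G.IsHomogeneous d) :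
    ∃ c0 c1 c2 : k, (d = 0 → c1 = 0 ∧ c2 = 0) ∧
      G - (C c0 * X 2 ^ d + (C c1 * lx a + C c2 * ly b) * X 2 ^ (d - 1)) ∈ ptIdeal ![a, b, 1] ^ 2 := by
  refine hom_ind (fun d G => ∃ c0 c1 c2 : k, (d = 0 → c1 = 0 ∧ c2 = 0) ∧
      G - (C c0 * X 2 ^ d + (C c1 * lx a + C c2 * ly b) * X 2 ^ (d - 1)) ∈ ptIdeal ![a, b, 1] ^ 2)
    (fun r => ⟨r, 0, 0, by simp, by simp⟩) ?_ ?_ d G hG
  · rintro n x y ⟨c0, c1, c2, h1, h2⟩ ⟨e0, e1, e2, h3, h4⟩
    refine ⟨c0 + e0, c1 + e1, c2 + e2, fun h => by simp [h1 h, h3 h], ?_⟩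
    convert Ideal.add_mem _ h2 h4 using 1
    simp only [map_add]; ring
  · rintro n r i x ⟨c0, c1, c2, h1, h2⟩
    have hL : C c1 * lx a + C c2 * ly b ∈ ptIdeal ![a, b, 1] :=
      Ideal.add_mem _ (Ideal.mul_mem_left _ _ (lx_mem a b)) (Ideal.mul_mem_left _ _ (ly_mem a b))
    have e : (C c1 * lx a + C c2 * ly b) * X 2 ^ n
        = X 2 * ((C c1 * lx a + C c2 * ly b) * X 2 ^ (n - 1)) := by
      cases n with
      | zero => simp [h1 rfl]
      | succ n => simp only [Nat.add_sub_cancel]; ring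
    have h3 := Ideal.mul_mem_left _ (C r * X i) h2
    have sq : ∀ l ∈ ptIdeal ![a, b, 1], C r * X 2 ^ (n - 1) * (l * (C c1 * lx a + C c2 * ly b))
        ∈ ptIdeal ![a, b, 1] ^ 2 := fun l hl =>
      Ideal.mul_mem_left _ _ (by rw [pow_two]; exact Ideal.mul_mem_mul hl hL)
    have ex : (X 0 : R k) = lx a + C a * X 2 := by simp [lx]
    have ey : (X 1 : R k) = ly b + C b * X 2 := by simp [ly]
    fin_cases i
    · refine ⟨r * a * c0, r * (c0 + a * c1), r * a * c2, by simp, ?_⟩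
      convert Ideal.add_mem _ h3 (sq _ (lx_mem a b)) using 1
      simp only [Nat.add_sub_cancel, map_mul, map_add, Fin.zero_eta]
      linear_combination (exp := 1) (-(C r * C a)) * e + (C r * C c0 * X 2 ^ n
        + C r * (C c1 * lx a + C c2 * ly b) * X 2 ^ (n - 1)) * ex
    · refine ⟨r * b * c0, r * b * c1, r * (c0 + b * c2), by simp, ?_⟩
      convert Ideal.add_mem _ h3 (sq _ (ly_mem a b)) using 1
      simp only [Nat.add_sub_cancel, map_mul, map_add, Fin.mk_one]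
      linear_combination (exp := 1) (-(C r * C b)) * e + (C r * C c0 * X 2 ^ n
        + C r * (C c1 * lx a + C c2 * ly b) * X 2 ^ (n - 1)) * ey
    · refine ⟨r * c0, r * c1, r * c2, by simp, ?_⟩
      convert h3 using 1
      simp only [Nat.add_sub_cancel, map_mul, Fin.reduceFinMk]
      linear_combination (exp := 1) (-(C r)) * e

lemma jet0 (a b : k) (d : ℕ) (G : R k) (hG : G.IsHomogeneous d) :
    G - C (eval ![a, b, 1] G) * X 2 ^ d ∈ ptIdeal ![a, b, 1] := by
  obtain ⟨c0, c1, c2, -, h⟩ := jet a b d G hG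
  have h1 := Ideal.pow_le_self two_ne_zero h
  have hL : (C c1 * lx a + C c2 * ly b) * X 2 ^ (d - 1) ∈ ptIdeal ![a, b, 1] :=
    Ideal.mul_mem_right _ _ (Ideal.add_mem _ (Ideal.mul_mem_left _ _ (lx_mem a b))
      (Ideal.mul_mem_left _ _ (ly_mem a b)))
  have h2 : G - C c0 * X 2 ^ d ∈ ptIdeal ![a, b, 1] := by
    convert Ideal.add_mem _ h1 hL using 1; ring
  have h3 := eval_of_mem h2
  simp only [map_sub, map_mul, map_pow, eval_C, eval_X] at h3
  simp at h3
  rw [sub_eq_zero.1 h3]; exact h2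

lemma jet1 (a b : k) (d : ℕ) (G : R k) (hG : G.IsHomogeneous (d + 1))
    (h0 : eval ![a, b, 1] G = 0) : ∃ c1 c2 : k,
      G - (C c1 * lx a + C c2 * ly b) * X 2 ^ d ∈ ptIdeal ![a, b, 1] ^ 2 := by
  obtain ⟨c0, c1, c2, -, h⟩ := jet a b _ G hG
  have h3 := eval_of_mem (Ideal.pow_le_self two_ne_zero h)
  simp [h0, lx, ly] at h3
  exact ⟨c1, c2, by simpa [h3] using h⟩

variable (a : Fin 4 → k)

def pt (p : Fin 4 × Fin 4) : Fin 3 → k := ![a p.1, a p.2, 1]
def fx (i : Fin 4) : R k := ∏ j ∈ Finset.univ.erase i, lx (a j)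
def fy (i : Fin 4) : R k := ∏ j ∈ Finset.univ.erase i, ly (a j)
def FX : R k := ∏ j, lx (a j)
def FY : R k := ∏ j, ly (a j)
def uu (p : Fin 4 × Fin 4) : R k := fx a p.1 * fy a p.2

lemma fx_hom (i : Fin 4) : (fx a i).IsHomogeneous 3 := by
  have := IsHomogeneous.prod (Finset.univ.erase i) (fun j => lx (a j)) (fun _ => 1)
    (fun j _ => lx_hom _)
  simpa [fx] using this
lemma fy_hom (i : Fin 4) : (fy a i).IsHomogeneous 3 := by
  have := IsHomogeneous.prod (Finset.univ.erase i) (fun j => ly (a j)) (fun _ => 1)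
    (fun j _ => ly_hom _)
  simpa [fy] using this
lemma FX_eq (i : Fin 4) : FX a = lx (a i) * fx a i :=
  (Finset.mul_prod_erase _ (fun j => lx (a j)) (Finset.mem_univ i)).symm
lemma FY_eq (i : Fin 4) : FY a = ly (a i) * fy a i :=
  (Finset.mul_prod_erase _ (fun j => ly (a j)) (Finset.mem_univ i)).symm
lemma FX_hom : (FX a).IsHomogeneous 4 := by rw [FX_eq a 0]; exact (lx_hom _).mul (fx_hom a 0)
lemma FY_hom : (FY a).IsHomogeneous 4 := by rw [FY_eq a 0]; exact (ly_hom _).mul (fy_hom a 0)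
lemma uu_hom (p : Fin 4 × Fin 4) : (uu a p).IsHomogeneous 6 := (fx_hom a _).mul (fy_hom a _)
lemma FX_mem (p : Fin 4 × Fin 4) : FX a ∈ ptIdeal (pt a p) := by
  rw [FX_eq a p.1]; exact Ideal.mul_mem_right _ _ (lx_mem _ _)
lemma FY_mem (p : Fin 4 × Fin 4) : FY a ∈ ptIdeal (pt a p) := by
  rw [FY_eq a p.2]; exact Ideal.mul_mem_right _ _ (ly_mem _ _)

lemma uu_mem (p q : Fin 4 × Fin 4) (h : p ≠ q) : uu a p ∈ ptIdeal (pt a q) := by
  by_cases h1 : q.1 = p.1
  · have h2 : q.2 ≠ p.2 := fun h2 => h (Prod.ext h1.symm h2.symm)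
    exact Ideal.mul_mem_left _ _ (Ideal.prod_mem _ (Finset.mem_erase.2 ⟨h2, Finset.mem_univ _⟩)
      (ly_mem _ _))
  · exact Ideal.mul_mem_right _ _ (Ideal.prod_mem _ (Finset.mem_erase.2 ⟨h1, Finset.mem_univ _⟩)
      (lx_mem _ _))

variable {a} (ha : Function.Injective a)
include ha

lemma fx_ne (p : Fin 4 × Fin 4) : eval (pt a p) (fx a p.1) ≠ 0 := by
  simp only [fx, map_prod]
  refine Finset.prod_ne_zero_iff.2 fun j hj => ?_
  simpa [lx, pt, sub_eq_zero] using fun h => (Finset.mem_erase.1 hj).1 (ha h).symm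
lemma fy_ne (p : Fin 4 × Fin 4) : eval (pt a p) (fy a p.2) ≠ 0 := by
  simp only [fy, map_prod]
  refine Finset.prod_ne_zero_iff.2 fun j hj => ?_
  simpa [ly, pt, sub_eq_zero] using fun h => (Finset.mem_erase.1 hj).1 (ha h).symm
lemma uu_ne (p : Fin 4 × Fin 4) : eval (pt a p) (uu a p) ≠ 0 := by
  rw [uu, map_mul]; exact mul_ne_zero (fx_ne ha p) (fy_ne ha p)

lemma indep2 (G : Fin 4 × Fin 4 → R k) (hG : ∀ p, (G p).IsHomogeneous 10) :
    ∃ F : R k, F.IsHomogeneous 10 ∧ ∀ p, F - G p ∈ ptIdeal (pt a p) ^ 2 := by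
  set F1 : R k := ∑ p, C (eval (pt a p) (G p) / eval (pt a p) (uu a p)) * (uu a p * X 2 ^ 4)
    with hF1
  have h1 : F1.IsHomogeneous 10 := IsHomogeneous.sum _ _ _ fun p _ =>
    ((uu_hom a p).mul (isHomogeneous_X_pow 2 4)).C_mul _
  have h2 : ∀ q, eval (pt a q) (G q - F1) = 0 := by
    intro q
    rw [map_sub, hF1, map_sum, Finset.sum_eq_single q]
    · have := uu_ne ha q
      simp only [map_mul, eval_C, map_pow, eval_X]
      simp [pt] at this ⊢
      field_simp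
      ring
    · intro p _ hp
      simp [eval_of_mem (uu_mem a p q hp)]
    · simp
  have h3 : ∀ q : Fin 4 × Fin 4, ∃ d1 d2 : k,
      uu a q * (C d1 * FX a + C d2 * FY a) - (G q - F1) ∈ ptIdeal (pt a q) ^ 2 := by
    intro q
    obtain ⟨c1, c2, hc⟩ := jet1 (a q.1) (a q.2) 9 _ ((hG q).sub h1) (h2 q)
    have j1 := jet0 (a q.1) (a q.2) 9 _ ((uu_hom a q).mul (fx_hom a q.1))
    have j2 := jet0 (a q.1) (a q.2) 9 _ ((uu_hom a q).mul (fy_hom a q.2))
    have n1 : eval (pt a q) (uu a q * fx a q.1) ≠ 0 := by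
      rw [map_mul]; exact mul_ne_zero (uu_ne ha q) (fx_ne ha q)
    have n2 : eval (pt a q) (uu a q * fy a q.2) ≠ 0 := by
      rw [map_mul]; exact mul_ne_zero (uu_ne ha q) (fy_ne ha q)
    change _ - C (eval (pt a q) _) * _ ∈ ptIdeal (pt a q) at j1 j2
    set b1 := eval (pt a q) (uu a q * fx a q.1)
    set b2 := eval (pt a q) (uu a q * fy a q.2)
    refine ⟨c1 / b1, c2 / b2, ?_⟩
    have m1 := Ideal.mul_mem_left _ (C (c1 / b1)) (Ideal.mul_mem_mul (lx_mem (a q.1) (a q.2)) j1)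
    have m2 := Ideal.mul_mem_left _ (C (c2 / b2)) (Ideal.mul_mem_mul (ly_mem (a q.1) (a q.2)) j2)
    have e1 : (C c1 : R k) = C (c1 / b1) * C b1 := by rw [← map_mul, div_mul_cancel₀ _ n1]
    have e2 : (C c2 : R k) = C (c2 / b2) * C b2 := by rw [← map_mul, div_mul_cancel₀ _ n2]
    rw [pow_two] at hc ⊢
    change _ ∈ ptIdeal (pt a q) * ptIdeal (pt a q) at m1 m2 hc
    convert Ideal.sub_mem _ (Ideal.add_mem _ m1 m2) hc using 1
    rw [FX_eq a q.1, FY_eq a q.2]
    linear_combination (exp := 1) (-(lx (a q.1) * X 2 ^ 9)) * e1 + (-(ly (a q.2) * X 2 ^ 9)) * e2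
  choose d1 d2 hd using h3
  refine ⟨F1 + ∑ p, uu a p * (C (d1 p) * FX a + C (d2 p) * FY a),
    h1.add (IsHomogeneous.sum _ _ _ fun p _ => (uu_hom a p).mul
      (((FX_hom a).C_mul _).add ((FY_hom a).C_mul _))), fun q => ?_⟩
  rw [← Finset.add_sum_erase _ _ (Finset.mem_univ q)]
  have : ∑ p ∈ Finset.univ.erase q, uu a p * (C (d1 p) * FX a + C (d2 p) * FY a)
      ∈ ptIdeal (pt a q) ^ 2 := by
    refine Ideal.sum_mem _ fun p hp => ?_
    rw [pow_two]
    exact Ideal.mul_mem_mul (uu_mem a p q (Finset.mem_erase.1 hp).1)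
      (Ideal.add_mem _ (Ideal.mul_mem_left _ _ (FX_mem a q)) (Ideal.mul_mem_left _ _ (FY_mem a q)))
  convert Ideal.add_mem _ (hd q) this using 1
  ring

omit ha in
def ww (a : Fin 4 → k) : Fin 4 → k :=
  ![(a 1 - a 2) * (a 1 - a 3) * (a 2 - a 3), -((a 0 - a 2) * (a 0 - a 3) * (a 2 - a 3)),
    (a 0 - a 1) * (a 0 - a 3) * (a 1 - a 3), -((a 0 - a 1) * (a 0 - a 2) * (a 1 - a 2))]

omit ha in
lemma ww_sum (s : ℕ) (hs : s ≤ 2) : ∑ i, ww a i * a i ^ s = 0 := by
  interval_cases s <;> simp [Fin.sum_univ_four, ww] <;> ring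

omit ha in
lemma cb (F : R k) (hF : F.IsHomogeneous 5) :
    ∑ p : Fin 4 × Fin 4, ww a p.1 * ww a p.2 * eval (pt a p) F = 0 := by
  conv_lhs => rw [F.as_sum]
  simp only [map_sum, Finset.mul_sum]
  rw [Finset.sum_comm]
  refine Finset.sum_eq_zero fun s hs => ?_
  have hd := hF.degree_eq_sum_deg_support hs
  have hd' : s 0 + s 1 + s 2 = 5 := by
    rw [hd, ← Fin.sum_univ_three]
    exact (Finset.sum_subset (Finset.subset_univ _) (by simp)).symm
  have : ∑ p : Fin 4 × Fin 4, ww a p.1 * ww a p.2 * eval (pt a p) (monomial s (coeff s F))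
      = coeff s F * ((∑ i, ww a i * a i ^ s 0) * (∑ i, ww a i * a i ^ s 1)) := by
    rw [Finset.sum_mul_sum, Fintype.sum_prod_type, Finset.mul_sum]
    refine Finset.sum_congr rfl fun i _ => ?_
    rw [Finset.mul_sum]
    refine Finset.sum_congr rfl fun j _ => ?_
    rw [eval_monomial, Finsupp.prod_fintype _ _ (by simp), Fin.prod_univ_three]
    simp [pt]; ring
  rw [this]
  by_cases h : s 0 ≤ 2
  · rw [ww_sum _ h]; simp
  · rw [ww_sum (s 1) (by omega)]; simp

lemma not_indep1 : ¬ ∀ G : Fin 4 × Fin 4 → R k, (∀ p, (G p).IsHomogeneous 5) →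
    ∃ F : R k, F.IsHomogeneous 5 ∧ ∀ p, F - G p ∈ ptIdeal (pt a p) ^ 1 := by
  intro h
  obtain ⟨F, hF, hm⟩ := h (fun p => if p = (0, 0) then X 2 ^ 5 else 0) (fun p => by
    split_ifs
    · exact isHomogeneous_X_pow 2 5
    · exact isHomogeneous_zero _ _ _)
  have hv : ∀ p, eval (pt a p) F = if p = (0, 0) then 1 else 0 := by
    intro p
    have := eval_of_mem (by simpa using hm p : F - _ ∈ ptIdeal (pt a p))
    rw [map_sub, sub_eq_zero] at this
    rw [this]; split_ifs <;> simp [pt]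
  have := cb (a := a) F hF
  simp [hv, ww, sub_eq_zero, ha.eq_iff] at this

omit ha in
theorem main [Infinite k] : ∃ P : Fin 16 → Fin 3 → k, (∀ i, P i ≠ 0) ∧
    (∀ i j, i ≠ j → ∀ c : k, P j ≠ c • P i) ∧ Effective P 5 (fun _ => 1) ∧
    ¬ Indep P 5 (fun _ => 1) ∧ Indep P 10 (fun _ => 2) := by
  let a : Fin 4 → k := fun i => Infinite.natEmbedding k i
  have ha : Function.Injective a := fun i j h => Fin.ext ((Infinite.natEmbedding k).injective h)
  let e : Fin 4 × Fin 4 ≃ Fin 16 := finProdFinEquiv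
  refine ⟨fun i => pt a (e.symm i), fun i h => ?_, fun i j hij c h => ?_, ?_, fun h => ?_, ?_⟩
  · simpa [pt] using congrFun h 2
  · have h0 := congrFun h 0
    have h1 := congrFun h 1
    have h2 := congrFun h 2
    simp only [pt, Pi.smul_apply, smul_eq_mul] at h0 h1 h2
    simp at h2
    simp only [← h2, one_mul] at h0 h1
    exact hij (e.symm.injective (Prod.ext (ha h0) (ha h1))).symm
  · refine ⟨FX a * X 2, mul_ne_zero ?_ (X_ne_zero _), (FX_hom a).mul (isHomogeneous_X k 2),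
      fun i => by simpa using Ideal.mul_mem_right _ _ (FX_mem a _)⟩
    refine Finset.prod_ne_zero_iff.2 fun j _ h => ?_
    simpa [lx] using congrArg (eval ![1, 0, 0]) h
  · refine not_indep1 ha fun G hG => ?_
    obtain ⟨F, hF, hm⟩ := h (fun i => G (e.symm i)) (fun i => hG _)
    exact ⟨F, hF, fun p => by simpa using hm (e p)⟩
  · intro G hG
    obtain ⟨F, hF, hm⟩ := indep2 ha (fun p => G (e p)) (fun p => hG _)
    exact ⟨F, hF, fun i => by simpa using hm (e.symm i)⟩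

end

end Pool.Agent.Lead.Spec
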