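import Mathlib

/-! A hereditary class of digraphs whose labelled counting function is not eventually periodic
modulo `2`. -/
namespace Pool.Agent.Lead.Spk
open Classical

abbrev Rel' (n : ℕ) := Fin n → Fin n → Prop

/-- vertices of the blown-up cycle -/
abbrev V (k : ℕ) := (i : Fin k) × Fin (2 ^ (i : ℕ))

def cyc (k : ℕ) (a b : V k) : Prop := ((b.1 : ℕ) : ZMod k) = ((a.1 : ℕ) : ZMod k) + 1

lemma card_V (k : ℕ) : Fintype.card (V k) = 2 ^ k - 1 := by
  rw [Fintype.card_sigma]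
  simp only [Fintype.card_fin]
  rw [Fin.sum_univ_eq_sum_range (fun i => 2 ^ i) k, Nat.geomSum_eq (le_refl 2)]
  simp

/-- `R` is a copy of the `k`-th blown-up cycle -/
def Copy (k : ℕ) {n : ℕ} (R : Rel' n) : Prop :=
  ∃ e : Fin n ≃ V (k + 1), ∀ a b, R a b ↔ cyc (k + 1) (e a) (e b)

/-- `R` contains a copy of the `k`-th blown-up cycle -/
def Contains (k : ℕ) {n : ℕ} (R : Rel' n) : Prop :=
  ∃ e : V (k + 1) ↪ Fin n, ∀ a b, R (e a) (e b) ↔ cyc (k + 1) a b

lemma anti {k j : ℕ} (e : V (k + 1) ↪ V (j + 1))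
    (h : ∀ a b, cyc (j + 1) (e a) (e b) ↔ cyc (k + 1) a b) : k = j := by
  have h1 : k ≤ j := by
    have := Fintype.card_le_of_embedding e
    rw [card_V, card_V] at this
    by_contra hc
    have h2 : 2 ^ (j + 1) < 2 ^ (k + 1) := Nat.pow_lt_pow_right (by norm_num) (by omega)
    have h3 : 0 < 2 ^ (j + 1) := by positivity
    omega
  let y : Fin (k + 1) → V (k + 1) := fun i => ⟨i, ⟨0, by positivity⟩⟩
  let x : ℕ → V (k + 1) := fun t => y ⟨t % (k + 1), Nat.mod_lt _ (by omega)⟩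
  have hx : ∀ t, cyc (k + 1) (x t) (x (t + 1)) := by
    intro t
    simp [cyc, x, y]
  have hs : ∀ t : ℕ, (((e (x t)).1 : ℕ) : ZMod (j + 1)) = (((e (x 0)).1 : ℕ) : ZMod (j + 1)) + t := by
    intro t
    induction t with
    | zero => simp
    | succ t ih =>
      have := (h _ _).2 (hx t)
      unfold cyc at this
      rw [this, ih]; push_cast; ring
  have h0 : x (k + 1) = x 0 := congrArg y (Fin.ext (by simp))
  have h2 := hs (k + 1)
  rw [h0] at h2
  have h3 : ((k + 1 : ℕ) : ZMod (j + 1)) = 0 := by simpa using h2.symm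
  have := Nat.le_of_dvd (by omega) ((ZMod.natCast_eq_zero_iff _ _).1 h3)
  omega

def C (S : Set ℕ) (n : ℕ) (R : Rel' n) : Prop := (∀ k, ¬ Contains k R) ∨ ∃ k ∈ S, Copy k R

lemma C_her (S : Set ℕ) {m n : ℕ} (f : Fin m ↪ Fin n) (R : Rel' n) (h : C S n R) :
    C S m (fun a b => R (f a) (f b)) := by
  rcases h with h | ⟨k, hk, e, he⟩
  · exact Or.inl fun k ⟨e, he⟩ => h k ⟨e.trans f, he⟩
  · by_cases hc : ∀ j, ¬ Contains j (fun a b => R (f a) (f b))
    · exact Or.inl hc
    · push Not at hc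
      obtain ⟨j, g, hg⟩ := hc
      have hjk : j = k := anti ((g.trans f).trans e.toEmbedding) fun a b => by
        rw [← hg]; exact (he _ _).symm
      subst hjk
      have c1 := Fintype.card_le_of_embedding g
      have c2 := Fintype.card_congr e
      have hb : Function.Bijective f := by
        rw [Fintype.bijective_iff_injective_and_card]
        refine ⟨f.injective, le_antisymm (Fintype.card_le_of_embedding f) (by omega)⟩
      exact Or.inr ⟨j, hk, (Equiv.ofBijective f hb).trans e, fun a b => he _ _⟩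

lemma choose_odd (k : ℕ) : ∀ j, j ≤ 2 ^ k - 1 → Odd ((2 ^ k - 1).choose j) := by
  intro j
  induction j with
  | zero => simp
  | succ j ih =>
    intro hj
    have h0 : 0 < 2 ^ k := by positivity
    have h1 : (2 ^ k).choose (j + 1) = (2 ^ k - 1).choose j + (2 ^ k - 1).choose (j + 1) := by
      conv_lhs => rw [show 2 ^ k = (2 ^ k - 1) + 1 by omega]
      exact Nat.choose_succ_succ' _ _
    have h2 : 2 ∣ (2 ^ k).choose (j + 1) :=
      Nat.Prime.dvd_choose_pow Nat.prime_two (by omega) (by omega)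
    have h3 := ih (by omega)
    rw [Nat.odd_iff] at *
    omega

lemma fact_eq (k : ℕ) : ∃ c, Odd c ∧
    (2 ^ k - 1).factorial = c * ∏ i ∈ Finset.range k, (2 ^ i).factorial := by
  induction k with
  | zero => exact ⟨1, by simp, by simp⟩
  | succ k ih =>
    obtain ⟨c, hc, h⟩ := ih
    have h0 : 0 < 2 ^ k := by positivity
    have hle : 2 ^ k ≤ 2 ^ (k + 1) - 1 := by rw [pow_succ]; omega
    refine ⟨(2 ^ (k + 1) - 1).choose (2 ^ k) * c, (choose_odd _ _ hle).mul hc, ?_⟩
    have := Nat.choose_mul_factorial_mul_factorial hle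
    rw [show 2 ^ (k + 1) - 1 - 2 ^ k = 2 ^ k - 1 by rw [pow_succ]; omega, h] at this
    rw [← this, Finset.prod_range_succ]; ring

instance act (n : ℕ) : MulAction (Equiv.Perm (Fin n)) (Rel' n) where
  smul g R := fun a b => R (g⁻¹ a) (g⁻¹ b)
  one_smul R := by funext a b; rfl
  mul_smul g h R := by
    funext a b
    show R ((g * h)⁻¹ a) ((g * h)⁻¹ b) = R (h⁻¹ (g⁻¹ a)) (h⁻¹ (g⁻¹ b))
    simp [mul_inv_rev]

lemma smul_def {n : ℕ} (g : Equiv.Perm (Fin n)) (R : Rel' n) (a b) :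
    (g • R) a b = R (g⁻¹ a) (g⁻¹ b) := rfl

lemma copy_odd (k : ℕ) : Odd (Nat.card {R : Rel' (2 ^ (k + 1) - 1) // Copy k R}) := by
  let e0 : Fin (2 ^ (k + 1) - 1) ≃ V (k + 1) :=
    (Fintype.equivFinOfCardEq (card_V (k + 1))).symm
  let R0 : Rel' (2 ^ (k + 1) - 1) := fun a b => cyc (k + 1) (e0 a) (e0 b)
  have horb : ∀ R, Copy k R ↔ R ∈ MulAction.orbit (Equiv.Perm (Fin (2 ^ (k + 1) - 1))) R0 := by
    intro R
    constructor
    · rintro ⟨e, he⟩
      refine ⟨(e.trans e0.symm)⁻¹, ?_⟩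
      funext a b
      simp [smul_def, R0, he]
    · rintro ⟨g, rfl⟩
      exact ⟨(g⁻¹ : Equiv.Perm _).trans e0, fun a b => Iff.rfl⟩
  have hc : Nat.card {R : Rel' (2 ^ (k + 1) - 1) // Copy k R} =
      Nat.card (MulAction.orbit (Equiv.Perm (Fin (2 ^ (k + 1) - 1))) R0) :=
    Nat.card_congr (Equiv.subtypeEquivRight horb)
  rw [hc]
  -- the subgroup of fibre-preserving permutations
  let φ : ((i : Fin (k + 1)) → Equiv.Perm (Fin (2 ^ (i : ℕ)))) →*
      Equiv.Perm (Fin (2 ^ (k + 1) - 1)) :=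
    (e0.symm.permCongrHom).toMonoidHom.comp (Equiv.Perm.sigmaCongrRightHom _)
  have hφ : Function.Injective φ :=
    (e0.symm.permCongrHom).injective.comp Equiv.Perm.sigmaCongrRightHom_injective
  have hle : φ.range ≤ MulAction.stabilizer _ R0 := by
    rintro _ ⟨g, rfl⟩
    rw [← inv_mem_iff, MulAction.mem_stabilizer_iff]
    funext a b
    simp [smul_def, R0, φ, cyc, Equiv.permCongrHom]
  have h1 := Subgroup.card_dvd_of_le hle
  have h2 : Nat.card φ.range = ∏ i ∈ Finset.range (k + 1), (2 ^ i).factorial := by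
    rw [← Nat.card_congr (MonoidHom.ofInjective hφ).toEquiv, Nat.card_pi,
      Finset.prod_range]
    simp [Fintype.card_perm]
  have h3 := MulAction.card_orbit_mul_card_stabilizer_eq_card_group
    (Equiv.Perm (Fin (2 ^ (k + 1) - 1))) R0
  obtain ⟨c, hc, h4⟩ := fact_eq (k + 1)
  obtain ⟨d, hd⟩ := h1
  rw [Fintype.card_perm, Fintype.card_fin, h4, ← Nat.card_eq_fintype_card,
    ← Nat.card_eq_fintype_card, hd, h2] at h3
  have hp : 0 < ∏ i ∈ Finset.range (k + 1), (2 ^ i).factorial :=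
    Finset.prod_pos fun i _ => Nat.factorial_pos _
  have h5 : Nat.card (MulAction.orbit (Equiv.Perm (Fin (2 ^ (k + 1) - 1))) R0) * d = c := by
    apply Nat.eq_of_mul_eq_mul_right hp
    rw [← h3]; ring
  rw [← h5] at hc
  exact (Nat.odd_mul.1 hc).1

noncomputable def Sp (C : ∀ n, Rel' n → Prop) (n : ℕ) : ℕ := Nat.card {R : Rel' n // C n R}

lemma copy_card {k n : ℕ} {R : Rel' n} (h : Copy k R) : n = 2 ^ (k + 1) - 1 := by
  obtain ⟨e, -⟩ := h
  have := Fintype.card_congr e
  rwa [card_V, Fintype.card_fin] at this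

lemma sp_ne {S T : Set ℕ} {k : ℕ} (hS : k ∈ S) (hT : k ∉ T) :
    ((Sp (C S) (2 ^ (k + 1) - 1) : ℕ) : ZMod 2) ≠ (Sp (C T) (2 ^ (k + 1) - 1) : ℕ) := by
  have key : ∀ j (R : Rel' (2 ^ (k + 1) - 1)), Copy j R → j = k := by
    intro j R h
    have := copy_card h
    have h1 : 0 < 2 ^ (k + 1) := by positivity
    have h2 : 0 < 2 ^ (j + 1) := by positivity
    have h3 : 2 ^ (k + 1) = 2 ^ (j + 1) := by omega
    have := Nat.pow_right_injective (le_refl 2) h3
    omega
  have e1 : ∀ R : Rel' (2 ^ (k + 1) - 1), C T _ R ↔ ∀ j, ¬ Contains j R := fun R =>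
    ⟨fun h => h.elim id fun ⟨j, hj, h⟩ => absurd (key j R h ▸ hj) hT, Or.inl⟩
  have e2 : ∀ R : Rel' (2 ^ (k + 1) - 1), C S _ R ↔ (C T _ R ∨ Copy k R) := fun R => by
    rw [e1]
    exact ⟨fun h => h.imp id fun ⟨j, _, h⟩ => key j R h ▸ h,
      fun h => h.imp id fun h => ⟨k, hS, h⟩⟩
  have e3 : Sp (C S) (2 ^ (k + 1) - 1) = Sp (C T) (2 ^ (k + 1) - 1) +
      Nat.card {R : Rel' (2 ^ (k + 1) - 1) // Copy k R} := by
    unfold Sp
    rw [Nat.card_congr (Equiv.subtypeEquivRight e2), ← Nat.card_sum]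
    refine Nat.card_congr (subtypeOrEquiv _ _ ?_)
    refine Set.disjoint_left.2 fun R h1 h2 => ?_
    obtain ⟨e, he⟩ := h2
    exact (e1 R).1 h1 k ⟨e.symm.toEmbedding, fun a b => by simpa using he (e.symm a) (e.symm b)⟩
  rw [e3]
  push_cast
  rw [(ZMod.natCast_eq_one_iff_odd).2 (copy_odd k)]
  simp

/-- sequences mod 2 obeying a linear recurrence from some point on -/
def Rec (t : ℕ → ZMod 2) : Prop :=
  ∃ (r p : ℕ) (α : Fin p → ℤ), ∀ n ≥ r, t (n + p) = ∑ i, α i * t (n + i)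

lemma rec_countable : {t | Rec t}.Countable := by
  have : {t | Rec t} = ⋃ (r : ℕ) (p : ℕ) (α : Fin p → ℤ),
      {t : ℕ → ZMod 2 | ∀ n ≥ r, t (n + p) = ∑ i, α i * t (n + i)} := by
    ext t; simp [Rec]
  rw [this]
  refine Set.countable_iUnion fun r => Set.countable_iUnion fun p =>
    Set.countable_iUnion fun α => ?_
  refine (Set.Finite.of_injOn (f := fun t (i : Fin (r + p)) => t i) (t := Set.univ)
    (fun _ _ => trivial) ?_ Set.finite_univ).countable
  intro s hs t ht h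
  funext n
  induction n using Nat.strong_induction_on with
  | _ n ih =>
    by_cases hn : n < r + p
    · exact congrFun h ⟨n, hn⟩
    · obtain ⟨m, rfl⟩ : ∃ m, n = m + p := ⟨n - p, by omega⟩
      rw [hs m (by omega), ht m (by omega)]
      exact Finset.sum_congr rfl fun i _ => by rw [ih _ (by omega)]

theorem main : ∃ S, ¬ Rec fun n => ((Sp (C S) n : ℕ) : ZMod 2) := by
  by_contra h
  push Not at h
  have hinj : Function.Injective fun (S : Set ℕ) n => ((Sp (C S) n : ℕ) : ZMod 2) := by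
    intro S T hST
    ext k
    by_contra hk
    by_cases hS : k ∈ S
    · exact sp_ne hS (fun hT => hk (iff_of_true hS hT)) (congrFun hST _)
    · have hT : k ∈ T := by_contra fun hT => hk (iff_of_false hS hT)
      exact sp_ne hT hS (congrFun hST _).symm
  have : Countable (Set ℕ) := by
    have := rec_countable.to_subtype
    exact (Function.Injective.countable (f := fun S : Set ℕ => (⟨_, h S⟩ : {t | Rec t}))
      fun S T hST => hinj (congrArg Subtype.val hST))
  obtain ⟨f, hf⟩ := exists_surjective_nat (Set ℕ)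
  exact Function.cantor_surjective f hf

end Pool.Agent.Lead.Spk
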