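import Pool.Agent.Lead.SrchDefs

namespace Pool.Agent.Lead.Srch

open Set

lemma cost_le {p : ℝ} (hp : 0 < p) (hp1 : p < 1) {S : ℝ → ℝ} {H : ℝ}
    (hf : ∀ T, {s | 0 ≤ s ∧ S s = H ∧ s ≤ T}.Finite) (u : ℕ → ℝ) (hu : StrictMono u)
    (h0 : 0 ≤ u 0) (hS : ∀ n, S (u n) = H) {E : ℝ} (hE : HasSum (fun n => (1 - p) ^ n * p * u n) E) :
    cost p S H ≤ ENNReal.ofReal E := by
  have hn : ∀ n, 0 ≤ u n := fun n => h0.trans (hu.monotone (Nat.zero_le n))
  have hq : ∀ n, 0 ≤ (1 - p) ^ n * p := fun n => mul_nonneg (pow_nonneg (by linarith) n) hp.le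
  rw [← hE.tsum_eq, ENNReal.ofReal_tsum_of_nonneg (fun n => mul_nonneg (hq n) (hn n)) hE.summable]
  refine ENNReal.tsum_le_tsum fun n => ?_
  rw [ENNReal.ofReal_mul (hq n)]
  gcongr
  refine iInf₂_le (u n) ?_
  have : u '' (Finset.range (n + 1) : Set ℕ) ⊆ leftEnds S H ∩ Iic (u n) := by
    rintro _ ⟨m, hm, rfl⟩
    refine ⟨⟨hn m, hS m, fun ⟨r, r0, r1, r2⟩ => ?_⟩,
      hu.monotone (Nat.lt_succ_iff.1 (Finset.mem_range.1 hm))⟩
    exact Icc_infinite r1 ((hf (u m)).subset fun x hx => ⟨r0.trans hx.1, r2 x hx, hx.2⟩)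
  refine le_trans (le_of_eq ?_) (encard_le_encard this)
  rw [hu.injective.encard_image, encard_coe_eq_coe_finsetCard, Finset.card_range]

section
variable (a τ c e : ℝ)

/-- one excursion with a zigzag -/
noncomputable def g (s : ℝ) : ℝ := min (max (min s (2 * c - s)) (s - 2 * e)) (τ * (a - 1) - s)

open Classical in
noncomputable def J (t : ℝ) : ℤ :=
  if h : ∃ n : ℤ, t / τ ∈ Ico (a ^ n) (a ^ (n + 1)) then h.choose else 0

noncomputable def SS (t : ℝ) : ℝ :=
  if t ≤ 0 then 0 else (-a) ^ J a τ t * g a τ c e (t / a ^ J a τ t - τ)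

lemma g_lip (s t : ℝ) : |g a τ c e s - g a τ c e t| ≤ |s - t| := by
  unfold g
  rcases le_total s t with h | h
  · rw [abs_of_nonpos (sub_nonpos.2 h), abs_le]
    constructor <;> simp only [min_def, max_def] <;> split_ifs <;> linarith
  · rw [abs_of_nonneg (sub_nonneg.2 h), abs_le]
    constructor <;> simp only [min_def, max_def] <;> split_ifs <;> linarith

variable {a τ c e} (ha : 1 < a) (hτ : 0 < τ) (he : 0 < e) (hc : e ≤ c - e)
include ha hτ

lemma J_spec {t : ℝ} (ht : 0 < t) : τ * a ^ J a τ t ≤ t ∧ t < τ * a ^ (J a τ t + 1) := by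
  have h := exists_mem_Ico_zpow (div_pos ht hτ) ha
  have := h.choose_spec
  rw [J, dif_pos h]
  exact ⟨by simpa [mul_comm] using (le_div_iff₀ hτ).1 this.1,
    by simpa [mul_comm] using (div_lt_iff₀ hτ).1 this.2⟩

lemma J_eq {t : ℝ} {j : ℤ} (h1 : τ * a ^ j ≤ t) (h2 : t < τ * a ^ (j + 1)) : J a τ t = j := by
  have := J_spec ha hτ (lt_of_lt_of_le (by positivity) h1)
  have a1 := (zpow_lt_zpow_iff_right₀ ha).1 (lt_of_mul_lt_mul_left (h1.trans_lt this.2) hτ.le)
  have a2 := (zpow_lt_zpow_iff_right₀ ha).1 (lt_of_mul_lt_mul_left (this.1.trans_lt h2) hτ.le)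
  omega

lemma SS_eq (j : ℤ) {s : ℝ} (h1 : 0 ≤ s) (h2 : s < τ * (a - 1)) :
    SS a τ c e (a ^ j * (τ + s)) = (-a) ^ j * g a τ c e s := by
  have hj : 0 < a ^ j := by positivity
  rw [SS, if_neg (not_le.2 (by positivity)), J_eq ha hτ (j := j) (by nlinarith)
    (by rw [zpow_add_one₀ (by positivity)]; nlinarith), mul_div_cancel_left₀ _ hj.ne']
  simp

lemma rep {t : ℝ} (ht : 0 < t) :
    ∃ (j : ℤ) (s : ℝ), 0 ≤ s ∧ s < τ * (a - 1) ∧ t = a ^ j * (τ + s) := by
  obtain ⟨h1, h2⟩ := J_spec ha hτ ht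
  have hj : 0 < a ^ J a τ t := by positivity
  rw [zpow_add_one₀ (by positivity)] at h2
  refine ⟨J a τ t, t / a ^ J a τ t - τ, ?_, ?_, by field_simp; ring⟩
  · rw [sub_nonneg, le_div_iff₀ hj]; exact h1
  · rw [sub_lt_iff_lt_add, div_lt_iff₀ hj]; linarith

omit hτ in
lemma abs_pow (j : ℤ) : |(-a) ^ j| = a ^ j := by
  rw [abs_zpow, abs_neg, abs_of_pos (by linarith)]

include he hc

omit ha hτ in
lemma g_bd {s : ℝ} (h1 : 0 ≤ s) (h2 : s < τ * (a - 1)) :
    |g a τ c e s| ≤ s ∧ |g a τ c e s| ≤ τ * (a - 1) - s := by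
  simp only [g, abs_le, min_def, max_def]
  split_ifs <;> refine ⟨⟨?_, ?_⟩, ?_, ?_⟩ <;> linarith

lemma SS_lip : LipschitzWith 1 (SS a τ c e) := by
  have key : ∀ s t, s ≤ t → |SS a τ c e s - SS a τ c e t| ≤ t - s := by
    intro s t st
    by_cases ht : t ≤ 0
    · simp [SS, ht, st.trans ht, st]
    obtain ⟨j, y, y0, y1, rfl⟩ := rep ha hτ (not_le.1 ht)
    have hj : 0 < a ^ j := by positivity
    have by1 := mul_le_mul_of_nonneg_left (g_bd he hc y0 y1).1 hj.le
    by_cases hs : s ≤ 0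
    · rw [SS, if_pos hs, zero_sub, abs_neg, SS_eq ha hτ j y0 y1, abs_mul, abs_pow ha]
      nlinarith
    obtain ⟨i, x, x0, x1, rfl⟩ := rep ha hτ (not_le.1 hs)
    have hi : 0 < a ^ i := by positivity
    rw [SS_eq ha hτ j y0 y1, SS_eq ha hτ i x0 x1]
    rcases lt_trichotomy i j with h | rfl | h
    · have h1 := zpow_le_zpow_right₀ ha.le (show i + 1 ≤ j by omega)
      rw [zpow_add_one₀ (by positivity)] at h1
      have bx := mul_le_mul_of_nonneg_left (g_bd he hc x0 x1).2 hi.le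
      refine (abs_sub _ _).trans ?_
      rw [abs_mul, abs_mul, abs_pow ha, abs_pow ha]
      nlinarith
    · have xy : x ≤ y := by nlinarith
      have := mul_le_mul_of_nonneg_left (g_lip a τ c e x y) hi.le
      rw [abs_of_nonpos (sub_nonpos.2 xy)] at this
      rw [← mul_sub, abs_mul, abs_pow ha]
      linarith
    · have h1 := zpow_le_zpow_right₀ ha.le (show j + 1 ≤ i by omega)
      rw [zpow_add_one₀ (by positivity)] at h1
      nlinarith
  refine LipschitzWith.of_dist_le_mul fun s t => ?_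
  rw [NNReal.coe_one, one_mul, Real.dist_eq, Real.dist_eq]
  rcases le_total s t with h | h
  · rw [abs_of_nonpos (sub_nonpos.2 h)]; linarith [key s t h]
  · rw [abs_of_nonneg (sub_nonneg.2 h), abs_sub_comm]; exact key t s h

lemma SS_fin {H : ℝ} (hH : H ≠ 0) (T : ℝ) :
    {s | 0 ≤ s ∧ SS a τ c e s = H ∧ s ≤ T}.Finite := by
  have hD : 0 < τ * (a - 1) := mul_pos hτ (by linarith)
  obtain ⟨lo, hlo, -⟩ := exists_mem_Ico_zpow (div_pos (abs_pos.2 hH) hD) ha
  obtain ⟨hi, -, hhi⟩ := exists_mem_Ico_zpow (div_pos (lt_max_of_lt_right one_pos : 0 < max T 1) hτ) ha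
  refine ((finite_Icc lo hi).biUnion (t := fun j => (fun s => a ^ j * (τ + s)) ''
    {H / (-a) ^ j, 2 * c - H / (-a) ^ j, H / (-a) ^ j + 2 * e, τ * (a - 1) - H / (-a) ^ j})
    fun j _ => (toFinite _).image _).subset ?_
  rintro t ⟨t0, ht, tT⟩
  have t1 : 0 < t := lt_of_le_of_ne t0 (by rintro rfl; exact hH (by simpa [SS] using ht.symm))
  obtain ⟨j, y, y0, y1, rfl⟩ := rep ha hτ t1
  have hj : 0 < a ^ j := by positivity
  rw [SS_eq ha hτ j y0 y1] at ht
  refine mem_biUnion (x := j) ⟨?_, ?_⟩ ⟨y, ?_, rfl⟩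
  · rw [← zpow_le_zpow_iff_right₀ ha]
    refine hlo.trans ?_
    rw [div_le_iff₀ hD, ← ht, abs_mul, abs_pow ha]
    exact mul_le_mul_of_nonneg_left ((g_bd he hc y0 y1).1.trans y1.le) hj.le
  · rw [← Int.lt_add_one_iff, ← zpow_lt_zpow_iff_right₀ ha]
    refine lt_of_le_of_lt ?_ hhi
    rw [le_div_iff₀ hτ]
    nlinarith [le_max_left T 1]
  · have : H / (-a) ^ j = g a τ c e y := by
      rw [← ht, mul_div_cancel_left₀ _ (zpow_ne_zero _ (by linarith))]
    rw [this]
    simp only [g, min_def, max_def, mem_insert_iff, mem_singleton_iff]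
    split_ifs <;> simp

lemma SS_o (hD : τ * (a - 1) = 2 * (1 + e)) (hb : (c - e) * a ^ 2 = 1) (j : ℤ) {h : ℝ}
    (h0 : 0 < h) (h1 : h < 1) (n : ℕ) (hn : n = 0 → h ≤ c) :
    SS a τ c e (a ^ j * (τ * a ^ n + (-1) ^ n * h)) = (-a) ^ j * h := by
  have a0 : 0 < a := by linarith
  have hb1 : c - e ≤ 1 := by nlinarith
  obtain ⟨m, rfl | rfl⟩ := Nat.even_or_odd' n
  all_goals
    have hm : 1 ≤ a ^ (2 * m) := one_le_pow₀ ha.le
    have x0 : 0 < h / a ^ (2 * m) := by positivity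
    have x1 : h / a ^ (2 * m) ≤ h := div_le_self h0.le hm
    have e1 : (-a) ^ (j + (2 * m : ℕ)) * (h / a ^ (2 * m)) = (-a) ^ j * h := by
      rw [zpow_add₀ (by linarith), zpow_natCast, (even_two_mul m).neg_pow]
      field_simp
  · have x2 : h / a ^ (2 * m) ≤ c := by
      rcases Nat.eq_zero_or_pos m with rfl | hm0
      · simpa using hn rfl
      · have := pow_le_pow_right₀ ha.le (show 2 ≤ 2 * m by omega)
        rw [div_le_iff₀ (by positivity)]
        nlinarith
    have := SS_eq (c := c) (e := e) ha hτ (j + (2 * m : ℕ)) x0.le (by linarith)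
    rw [show g a τ c e (h / a ^ (2 * m)) = h / a ^ (2 * m) by
      simp only [g, min_def, max_def]; split_ifs <;> linarith, e1] at this
    rw [← this, zpow_add₀ a0.ne', zpow_natCast, (even_two_mul m).neg_one_pow]
    congr 1
    field_simp
  · have := SS_eq (c := c) (e := e) ha hτ (j + (2 * m : ℕ))
      (s := τ * (a - 1) - h / a ^ (2 * m)) (by linarith) (by linarith)
    rw [show g a τ c e (τ * (a - 1) - h / a ^ (2 * m)) = h / a ^ (2 * m) by
      simp only [g, min_def, max_def]; split_ifs <;> linarith, e1] at this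
    rw [← this, zpow_add₀ a0.ne', zpow_natCast, (odd_two_mul_add_one m).neg_one_pow]
    congr 1
    field_simp
    ring

lemma cost_SS {p : ℝ} (hp : 0 < p) (hp1 : p < 1) (hqa : (1 - p) * a < 1)
    (hD : τ * (a - 1) = 2 * (1 + e)) (hb : (c - e) * a ^ 2 = 1) (j : ℤ) {h : ℝ}
    (h0 : c - e ≤ h) (h1 : h < 1) {V : ℝ}
    (hV1 : c ≤ h → p * τ / (1 - (1 - p) * a) + p * h / (2 - p) + 2 * p * e ≤ V * h)
    (hV2 : (1 - p) * (p * τ / (1 - (1 - p) * a) + p * h / (2 - p)) + p * (τ + h + 2 * e) ≤ V * h) :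
    cost p (SS a τ c e) ((-a) ^ j * h) ≤ ENNReal.ofReal (V * (a ^ j * h)) := by
  have a0 : 0 < a := by linarith
  have hj : 0 < a ^ j := by positivity
  have hh : 0 < h := by linarith
  have hb1 : c - e ≤ 1 := by nlinarith
  have hH : (-a) ^ j * h ≠ 0 := mul_ne_zero (zpow_ne_zero _ (by linarith)) hh.ne'
  have hf := SS_fin ha hτ he hc hH
  set o : ℕ → ℝ := fun n => a ^ j * (τ * a ^ n + (-1) ^ n * h) with ho
  have om : ∀ n, o n < o (n + 1) := fun n => by
    refine mul_lt_mul_of_pos_left ?_ hj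
    have := mul_le_mul_of_nonneg_left (one_le_pow₀ ha.le (n := n)) (by nlinarith : 0 ≤ τ * (a - 1))
    rw [pow_succ, pow_succ]
    rcases neg_one_pow_eq_or ℝ n with h | h <;> rw [h] <;> nlinarith
  have o0 : o 0 = a ^ j * (τ + h) := by simp [ho]
  have o1 : o 1 = a ^ j * (τ * a - h) := by simp [ho, sub_eq_add_neg]
  have os : HasSum (fun n => (1 - p) ^ n * p * o n)
      (a ^ j * (p * τ / (1 - (1 - p) * a) + p * h / (2 - p))) := by
    have s1 := (hasSum_geometric_of_lt_one (mul_nonneg (by linarith) a0.le) hqa).mul_left (p * τ)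
    have s2 := (hasSum_geometric_of_abs_lt_one (r := -(1 - p))
      (by rw [abs_neg, abs_of_pos (by linarith)]; linarith)).mul_left (p * h)
    have s3 := (s1.add s2).mul_left (a ^ j)
    rw [show 1 - -(1 - p) = 2 - p by ring, ← div_eq_mul_inv, ← div_eq_mul_inv] at s3
    rwa [show (fun n => (1 - p) ^ n * p * o n) =
      fun i => a ^ j * (p * τ * ((1 - p) * a) ^ i + p * h * (-(1 - p)) ^ i) from funext fun n => by
        simp only [ho, mul_pow, neg_pow (1 - p)]; ring]
  have os1 := (hasSum_nat_add_iff' 1).2 os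
  simp only [Finset.range_one, Finset.sum_singleton, pow_zero, one_mul, o0] at os1
  have oS : ∀ n, SS a τ c e (o (n + 1)) = (-a) ^ j * h := fun n =>
    SS_o ha hτ he hc hD hb j hh h1 (n + 1) (by omega)
  rcases le_or_gt c h with hc1 | hc1
  · refine (cost_le hp hp1 hf (fun n => Nat.casesOn n (a ^ j * (τ + (h + 2 * e))) fun k => o (k + 1))
      (strictMono_nat_of_lt_succ fun n => ?_) (mul_nonneg hj.le (by positivity)) (fun n => ?_)
      ((hasSum_nat_add_iff 1).1 os1)).trans (ENNReal.ofReal_le_ofReal ?_)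
    · cases n with
      | zero => exact lt_of_lt_of_eq (mul_lt_mul_of_pos_left (by linarith) hj) o1.symm
      | succ n => exact om (n + 1)
    · cases n with
      | zero =>
        refine (SS_eq ha hτ j (by positivity) (by linarith)).trans ?_
        congr 1
        simp only [g, min_def, max_def]; split_ifs <;> linarith
      | succ n => exact oS n
    · have := mul_le_mul_of_nonneg_left (hV1 hc1) hj.le
      simp only [Finset.range_one, Finset.sum_singleton, pow_zero, one_mul, Nat.rec_zero]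
      linarith
  · have os2 := os1.mul_left (1 - p)
    rw [show (fun n => (1 - p) * ((1 - p) ^ (n + 1) * p * o (n + 1))) =
      fun n => (1 - p) ^ (n + 2) * p * o (n + 1) from funext fun n => by ring] at os2
    refine (cost_le hp hp1 hf (fun n => Nat.casesOn n (a ^ j * (τ + h)) fun k =>
      Nat.casesOn k (a ^ j * (τ + (2 * c - h))) fun l => o (l + 1))
      (strictMono_nat_of_lt_succ fun n => ?_) (mul_nonneg hj.le (by positivity)) (fun n => ?_)
      ((hasSum_nat_add_iff 2).1 os2)).trans (ENNReal.ofReal_le_ofReal ?_)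
    · rcases n with _ | _ | n
      · exact mul_lt_mul_of_pos_left (by linarith) hj
      · exact lt_of_lt_of_eq (mul_lt_mul_of_pos_left (by linarith) hj) o1.symm
      · exact om (n + 1)
    · rcases n with _ | _ | n
      · exact o0 ▸ SS_o ha hτ he hc hD hb j hh h1 0 fun _ => hc1.le
      · refine (SS_eq ha hτ j (by linarith) (by linarith)).trans ?_
        congr 1
        simp only [g, min_def, max_def]; split_ifs <;> linarith
      · exact oS n
    · have := mul_le_mul_of_nonneg_left hV2 hj.le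
      simp only [Finset.sum_range_succ, Finset.range_zero, Finset.sum_empty, pow_zero, one_mul,
        pow_one, Nat.rec_zero, Nat.rec_one]
      have h3 : p * (1 - p) * (2 * c - h) + p * p * h ≤ p * (h + 2 * e) := by
        have h4 : 0 ≤ p * (1 - p) * (h - (c - e)) :=
          mul_nonneg (mul_nonneg hp.le (by linarith)) (by linarith)
        have h5 : 0 ≤ p * p * e := by positivity
        linarith
      have := mul_le_mul_of_nonneg_left h3 hj.le
      linarith

end

theorem main {p : ℝ} (hp : 0 < p) (hp1 : p < 1) : ∃ S : ℝ → ℝ, S 0 = 0 ∧ LipschitzWith 1 S ∧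
    (∀ H ≠ 0, ∀ T, (leftEnds S H ∩ Iic T).Finite) ∧ ∃ V : ℝ, 0 ≤ V ∧ V < p / (2 - p) + 8 / p ∧
      ∀ H ≠ 0, cost p S H ≤ ENNReal.ofReal (V * |H|) := by
  have h2 : 0 < 2 - p := by linarith
  have hq : 0 < 1 - p := by linarith
  obtain ⟨δ, hδ⟩ : ∃ δ, δ = p * (1 - p) / 10 := ⟨_, rfl⟩
  obtain ⟨b, hb⟩ : ∃ b, b = (2 - p) ^ 2 / 4 := ⟨_, rfl⟩
  have d0 : 0 < δ := by rw [hδ]; positivity
  have d1 : δ ≤ 1 / 10 := by rw [hδ]; nlinarith
  have b0 : 0 < b := by rw [hb]; positivity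
  have b1 : b ≤ 1 := by rw [hb]; nlinarith
  have ha : 1 < 2 / (2 - p) := by rw [one_lt_div h2]; linarith
  have hτ : 0 < 8 * b * (1 + b * δ) / (p * (2 - p)) := by positivity
  have he : 0 < b * δ := by positivity
  have hc : b * δ ≤ b * (1 + δ) - b * δ := by nlinarith
  have hba : (b * (1 + δ) - b * δ) * (2 / (2 - p)) ^ 2 = 1 := by rw [hb]; field_simp; ring
  refine ⟨SS (2 / (2 - p)) (8 * b * (1 + b * δ) / (p * (2 - p))) (b * (1 + δ)) (b * δ),
    by simp [SS], SS_lip ha hτ he hc, fun H hH T => (SS_fin ha hτ he hc hH T).subset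
      fun s hs => ⟨hs.1.1, hs.1.2.1, hs.2⟩, p / (2 - p) + 8 / p - δ, ?_, by linarith,
      fun H hH => ?_⟩
  · have : 1 ≤ 8 / p := by rw [one_le_div hp]; linarith
    have : 0 ≤ p / (2 - p) := by positivity
    linarith
  obtain ⟨a, hA⟩ : ∃ a, a = 2 / (2 - p) := ⟨_, rfl⟩
  have e1 : p * (8 * b * (1 + b * δ) / (p * (2 - p))) / (1 - (1 - p) * a) =
      8 * b * (1 + b * δ) / p := by
    rw [hA, show 1 - (1 - p) * (2 / (2 - p)) = p / (2 - p) by field_simp; ring]
    field_simp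
  have hD : 8 * b * (1 + b * δ) / (p * (2 - p)) * (a - 1) = 2 * (1 + b * δ) := by
    rw [hA, show 2 / (2 - p) - 1 = p / (2 - p) by field_simp; ring]
    generalize 1 + b * δ = x
    rw [hb]
    field_simp
    ring
  have hqa : (1 - p) * a < 1 := by rw [hA, ← mul_div_assoc, div_lt_one h2]; linarith
  rw [← hA] at ha hba ⊢
  have a0 : 0 < a := by linarith
  obtain ⟨n, n1, n2⟩ := exists_mem_Ico_zpow (abs_pos.2 hH) ha
  have hbb : b * (1 + δ) - b * δ = b := by ring
  obtain ⟨j, hj, hs⟩ : ∃ j : ℤ, (j = n + 1 ∨ j = n + 2) ∧ (-a) ^ j * (|H| / a ^ j) = H := by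
    have key : ∀ j : ℤ, (-a) ^ j * (|H| / a ^ j) = (-1) ^ j * |H| := fun j => by
      rw [neg_eq_neg_one_mul a, mul_zpow]; field_simp
    rcases Int.even_or_odd n with h | h <;> rcases lt_or_gt_of_ne hH with h' | h'
    · exact ⟨n + 1, Or.inl rfl, by rw [key, h.add_one.neg_one_zpow, abs_of_neg h']; ring⟩
    · exact ⟨n + 2, Or.inr rfl, by rw [key, (h.add even_two).neg_one_zpow, abs_of_pos h']; ring⟩
    · exact ⟨n + 2, Or.inr rfl, by
        rw [key, (h.add_even even_two).neg_one_zpow, abs_of_neg h']; ring⟩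
    · exact ⟨n + 1, Or.inl rfl, by rw [key, h.add_one.neg_one_zpow, abs_of_pos h']; ring⟩
  have j0 : 0 < a ^ j := by positivity
  have l1 : b ≤ |H| / a ^ j := by
    have := zpow_le_zpow_right₀ ha.le (show j ≤ n + 2 by omega)
    rw [zpow_add₀ a0.ne', zpow_ofNat] at this
    rw [hbb] at hba
    rw [le_div_iff₀ j0]
    calc b * a ^ j ≤ b * (a ^ n * a ^ 2) := by gcongr
      _ = a ^ n * (b * a ^ 2) := by ring
      _ ≤ |H| := by rw [hba, mul_one]; exact n1
  have l2 : |H| / a ^ j < 1 :=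
    (div_lt_one j0).2 (n2.trans_le (zpow_le_zpow_right₀ ha.le (by omega)))
  have := cost_SS ha hτ he hc hp hp1 hqa hD hba j (h := |H| / a ^ j) (hbb.trans_le l1) l2
    (V := p / (2 - p) + 8 / p - δ) ?_ ?_
  · rwa [hs, mul_div_cancel₀ _ j0.ne'] at this
  all_goals
    rw [e1]
    generalize |H| / a ^ j = h at *
  · intro h1
    have k1 : 8 / p * b = 8 / p - 8 + 2 * p := by rw [hb]; field_simp; ring
    have k2 : 1 ≤ 8 / p := by rw [one_le_div hp]; linarith
    have k3 := mul_le_mul_of_nonneg_left h1 (show 0 ≤ 8 / p - δ by linarith)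
    have k4 : 8 * b * (1 + b * δ) / p = 8 / p * b + b * δ * (8 / p * b) := by ring
    have k5 : 0 ≤ b * δ * (7 - 4 * p - δ) := mul_nonneg he.le (by linarith)
    rw [k4, mul_div_right_comm]
    nth_rewrite 2 [k1]
    linarith
  · have k2 : 8 ≤ 8 / p := by rw [le_div_iff₀ hp]; linarith
    have w0 : 0 < p / (2 - p) := by positivity
    have k3 := mul_le_mul_of_nonneg_left l1
      (show 0 ≤ 8 / p - δ + p * (p / (2 - p)) - p by nlinarith)
    have k4 : p * (8 * b * (1 + b * δ) / (p * (2 - p))) = b * (8 / (2 - p) + 2 * (2 - p) * δ) := by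
      nth_rewrite 2 [hb]; field_simp; ring
    have k5 : (1 - p) * (8 * b * (1 + b * δ) / p) = b * (8 / p - 8 + 8 / 10 * (1 - p) ^ 2 * b) := by
      rw [hδ]; field_simp
    have k6 : 8 / (2 - p) - p * (p / (2 - p)) ≤ 8 - p - 3 * (1 - p) := by
      rw [← mul_div_assoc, ← sub_div, div_le_iff₀ h2]; nlinarith
    have k7 : 8 / 10 * (1 - p) ^ 2 * b + 5 * δ ≤ 3 * (1 - p) := by
      have : (1 - p) ^ 2 * b ≤ 1 - p := by nlinarith
      rw [hδ]; nlinarith
    have k8 := mul_le_mul_of_nonneg_left (add_le_add k6 k7) b0.le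
    rw [mul_div_right_comm p h]
    linarith

end Pool.Agent.Lead.Srch
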