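import Mathlib

namespace Pool.Agent.Lead.Srch

open Set

/-- left endpoints of the connected components of the set of times s ≥ 0 with S s = H -/
def leftEnds (S : ℝ → ℝ) (H : ℝ) : Set ℝ :=
  {s | 0 ≤ s ∧ S s = H ∧ ¬ ∃ r, 0 ≤ r ∧ r < s ∧ ∀ u ∈ Icc r s, S u = H}

/-- time of visit number i + 1, infinite if there is no such visit -/
noncomputable def visit (S : ℝ → ℝ) (H : ℝ) (i : ℕ) : ENNReal :=
  ⨅ (s : ℝ) (_ : ((i + 1 : ℕ) : ℕ∞) ≤ (leftEnds S H ∩ Iic s).encard), ENNReal.ofReal s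

/-- expected capture time -/
noncomputable def cost (p : ℝ) (S : ℝ → ℝ) (H : ℝ) : ENNReal :=
  ∑' i : ℕ, ENNReal.ofReal ((1 - p) ^ i * p) * visit S H i

end Pool.Agent.Lead.Srch
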