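import Pool.Agent.Lead.SubDefs

set_option autoImplicit false

namespace Pool.Agent.Lead.Sub
open Finset SimpleGraph Classical

variable {n : ℕ}

lemma reach_sup (G : SimpleGraph (Fin n)) (a b u v : Fin n) :
    (G ⊔ edge a b).Reachable u v ↔ G.Reachable u v ∨ (G.Reachable u a ∧ G.Reachable b v) ∨
      (G.Reachable u b ∧ G.Reachable a v) := by
  constructor
  · intro h
    rw [reachable_iff_reflTransGen] at h
    induction h with
    | refl => exact Or.inl (Reachable.refl _)
    | @tail x y _ hxy ih =>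
      rw [sup_adj, edge_adj] at hxy
      rcases hxy with h | ⟨h | h, -⟩
      · rcases ih with i | i | i
        · exact Or.inl (i.trans h.reachable)
        · exact Or.inr (Or.inl ⟨i.1, i.2.trans h.reachable⟩)
        · exact Or.inr (Or.inr ⟨i.1, i.2.trans h.reachable⟩)
      · obtain ⟨rfl, rfl⟩ := h
        rcases ih with i | i | i
        · exact Or.inr (Or.inl ⟨i, Reachable.refl _⟩)
        · exact Or.inr (Or.inl ⟨i.1, Reachable.refl _⟩)
        · exact Or.inl i.1
      · obtain ⟨rfl, rfl⟩ := h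
        rcases ih with i | i | i
        · exact Or.inr (Or.inr ⟨i, Reachable.refl _⟩)
        · exact Or.inl i.1
        · exact Or.inr (Or.inr ⟨i.1, Reachable.refl _⟩)
  · have m : ∀ {x y}, G.Reachable x y → (G ⊔ edge a b).Reachable x y :=
      fun h => h.mono le_sup_left
    have e : (G ⊔ edge a b).Reachable a b := by
      by_cases h : a = b
      · rw [h]
      · exact Adj.reachable (Or.inr ((edge_adj ..).2 ⟨Or.inl ⟨rfl, rfl⟩, h⟩))
    rintro (h | h | h)
    · exact m h
    · exact ((m h.1).trans e).trans (m h.2)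
    · exact ((m h.1).trans e.symm).trans (m h.2)

def force {α : Type} : List ℕ → (List ℕ → α) → α
  | [], k => k []
  | x :: xs, k => Nat.casesOn x (force xs (fun l => k (0 :: l)))
      (fun y => force xs (fun l => k (Nat.succ y :: l)))

lemma force_eq {α : Type} (l : List ℕ) : ∀ k : List ℕ → α, force l k = k l := by
  induction l with
  | nil => intro k; rfl
  | cons x xs ih =>
    intro k
    cases x with
    | zero => exact ih _
    | succ y => exact ih _

def merge (lab : List ℕ) (la lb : ℕ) : List ℕ := lab.map (fun x => cond (Nat.beq x lb) la x)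

def Rep (G : SimpleGraph (Fin n)) (lab : List ℕ) : Prop :=
  lab.length = n ∧ ∀ u v : Fin n, G.Reachable u v ↔ lab.getD u 0 = lab.getD v 0

lemma rep_merge {G : SimpleGraph (Fin n)} {lab : List ℕ} (h : Rep G lab) (a b : Fin n) :
    Rep (G ⊔ edge a b) (merge lab (lab.getD a 0) (lab.getD b 0)) := by
  refine ⟨by simp [merge, h.1], fun u v => ?_⟩
  have g : ∀ u : Fin n, (merge lab (lab.getD a 0) (lab.getD b 0)).getD u 0 =
      if lab.getD u 0 = lab.getD b 0 then lab.getD a 0 else lab.getD u 0 := by
    intro u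
    have hu : (u:ℕ) < lab.length := by rw [h.1]; exact u.2
    generalize lab.getD a 0 = la
    generalize lab.getD b 0 = lb
    rw [List.getD_eq_getElem _ _ (by simpa [merge] using hu), List.getD_eq_getElem _ _ hu]
    simp only [merge, List.getElem_map]
    by_cases e : lab[(u:ℕ)] = lb
    · rw [if_pos e, e, Nat.beq_refl]; rfl
    · rw [if_neg e]
      have : Nat.beq lab[(u:ℕ)] lb = false := by
        cases hh : Nat.beq lab[(u:ℕ)] lb
        · rfl
        · exact absurd (Nat.eq_of_beq_eq_true hh) e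
      rw [this]; rfl
  rw [reach_sup, g, g, h.2, h.2, h.2, h.2, h.2]
  split_ifs <;> omega

def cntC : List (ℕ × ℕ) → List ℕ → ℕ → ℕ
  | [], lab, r => cond (Nat.beq r 0 && lab.all (fun x => Nat.beq x (lab.getD 0 0))) 1 0
  | p :: L, lab, r => cond (Nat.blt L.length r) 0 (cntC L lab r) +
      Nat.casesOn r 0 (fun r => force (merge lab (lab.getD p.1 0) (lab.getD p.2 0))
        (fun l => cntC L l r))

def cntA : List (ℕ × ℕ) → List ℕ → ℕ → ℕ
  | [], _, r => cond (Nat.beq r 0) 1 0
  | p :: L, lab, r => cond (Nat.blt L.length r) 0 (cntA L lab r) +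
      Nat.casesOn r 0 (fun r => cond (Nat.beq (lab.getD p.1 0) (lab.getD p.2 0)) 0
        (force (merge lab (lab.getD p.1 0) (lab.getD p.2 0)) (fun l => cntA L l r)))

def es (L : List (Fin n × Fin n)) : Finset (Sym2 (Fin n)) := (L.map (fun p => s(p.1, p.2))).toFinset
def nat (L : List (Fin n × Fin n)) : List (ℕ × ℕ) := L.map (fun p => (p.1.val, p.2.val))

def CP (G : SimpleGraph (Fin n)) (F : Finset (Sym2 (Fin n))) : Prop :=
  (G ⊔ fromEdgeSet (F : Set (Sym2 (Fin n)))).Connected
def AP (G : SimpleGraph (Fin n)) (F : Finset (Sym2 (Fin n))) : Prop :=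
  (G ⊔ fromEdgeSet (F : Set (Sym2 (Fin n)))).IsAcyclic

lemma card_split {α : Type} [DecidableEq α] (x : α) (s : Finset α) (h : x ∉ s) (r : ℕ)
    (Q Q' : Finset α → Prop) (hQ : ∀ F, Q (insert x F) ↔ Q' F) :
    ((powersetCard (r + 1) (insert x s)).filter Q).card =
      ((powersetCard (r + 1) s).filter Q).card +
        ((powersetCard r s).filter Q').card := by
  rw [← Finset.filter_congr (fun F _ => hQ F)]
  rw [powersetCard_succ_insert h, filter_union, card_union_of_disjoint, filter_image,
    card_image_of_injOn]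
  · intro F hF F' hF' e
    have h1 : x ∉ F := fun hx => h ((mem_powersetCard.1 (mem_filter.1 hF).1).1 hx)
    have h2 : x ∉ F' := fun hx => h ((mem_powersetCard.1 (mem_filter.1 hF').1).1 hx)
    rw [← erase_insert h1, ← erase_insert h2, e]
  · rw [Finset.disjoint_left]
    intro F h1 h2
    obtain ⟨F', -, rfl⟩ := mem_image.1 (mem_filter.1 h2).1
    exact h ((mem_powersetCard.1 (mem_filter.1 h1).1).1 (mem_insert_self _ _))

lemma sup_ins (G : SimpleGraph (Fin n)) (a b : Fin n) (F : Finset (Sym2 (Fin n))) :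
    G ⊔ fromEdgeSet ((insert s(a, b) F : Finset (Sym2 (Fin n))) : Set (Sym2 (Fin n))) =
      (G ⊔ edge a b) ⊔ fromEdgeSet (F : Set (Sym2 (Fin n))) := by
  rw [coe_insert, Set.insert_eq, fromEdgeSet_union, sup_assoc]
  rfl

lemma prune (L : List (Fin n × Fin n)) (r c : ℕ) (Q : Finset (Sym2 (Fin n)) → Prop)
    (h : ((powersetCard r (es L)).filter Q).card = c) :
    ((powersetCard r (es L)).filter Q).card = cond (Nat.blt (nat L).length r) 0 c := by
  cases hh : Nat.blt (nat L).length r
  · exact h
  · have h1 : (nat L).length < r := by simpa [Nat.blt_eq] using hh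
    have h2 : (es L).card ≤ L.length := by
      have := List.toFinset_card_le (L.map (fun p => s(p.1, p.2)))
      simpa [es] using this
    rw [powersetCard_eq_empty.2 (by simp [nat] at h1; omega)]
    rfl

lemma cntC_eq (hn : 0 < n) (L : List (Fin n × Fin n)) (hL : (L.map (fun p => s(p.1, p.2))).Nodup) :
    ∀ (G : SimpleGraph (Fin n)) (lab : List ℕ) (r : ℕ), Rep G lab →
      ((powersetCard r (es L)).filter (CP G)).card =
      cntC (nat L) lab r := by
  induction L with
  | nil =>
    intro G lab r h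
    have hc : G.Connected ↔ lab.all (fun x => Nat.beq x (lab.getD 0 0)) = true := by
      rw [List.all_eq_true, connected_iff_exists_forall_reachable]
      constructor
      · rintro ⟨w, hw⟩ x hx
        obtain ⟨i, hi, rfl⟩ := List.getElem_of_mem hx
        have := (h.2 ⟨i, h.1 ▸ hi⟩ ⟨0, hn⟩).1 ((hw _).symm.trans (hw _))
        rw [List.getD_eq_getElem _ _ hi] at this
        rw [this]; exact Nat.beq_refl _
      · intro hx
        refine ⟨⟨0, hn⟩, fun w => (h.2 _ _).2 ?_⟩
        have hw : (w:ℕ) < lab.length := by rw [h.1]; exact w.2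
        rw [List.getD_eq_getElem _ _ hw]
        exact (Nat.eq_of_beq_eq_true (hx _ (List.getElem_mem hw))).symm
    cases r with
    | zero =>
      simp only [es, nat, List.map_nil, List.toFinset_nil, powersetCard_zero, cntC, Nat.beq_refl,
        Bool.true_and, filter_singleton]
      have e0 : CP G ∅ ↔ G.Connected := by simp [CP]
      by_cases hG : G.Connected
      · rw [if_pos (e0.2 hG), hc.1 hG]; rfl
      · rw [if_neg (fun h' => hG (e0.1 h')), Bool.eq_false_iff.2 (fun h' => hG (hc.2 h'))]; rfl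
    | succ r =>
      simp [es, nat, cntC, powersetCard_eq_empty.2, Nat.beq]
  | cons p L ih =>
    intro G lab r h
    rw [List.map_cons, List.nodup_cons] at hL
    have hx : s(p.1, p.2) ∉ es L := by simpa [es] using hL.1
    have e : es (p :: L) = insert s(p.1, p.2) (es L) := by simp [es]
    cases r with
    | zero =>
      have := prune L 0 _ _ (ih hL.2 G lab 0 h)
      rw [powersetCard_zero] at this ⊢
      exact this
    | succ r =>
      rw [e, card_split _ _ hx r _ (CP (G ⊔ edge p.1 p.2)) (fun F => by simp only [CP, sup_ins])]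
      rw [prune L _ _ _ (ih hL.2 G lab (r + 1) h), ih hL.2 _ _ r (rep_merge h p.1 p.2)]
      simp only [nat, List.map_cons, cntC, force_eq]

lemma cntA_eq (L : List (Fin n × Fin n)) (hL : (L.map (fun p => s(p.1, p.2))).Nodup)
    (hl : ∀ p ∈ L, p.1 ≠ p.2) :
    ∀ (G : SimpleGraph (Fin n)) (lab : List ℕ) (r : ℕ), Rep G lab → G.IsAcyclic →
      (∀ p ∈ L, ¬ G.Adj p.1 p.2) →
      ((powersetCard r (es L)).filter (AP G)).card =
      cntA (nat L) lab r := by
  induction L with
  | nil =>
    intro G lab r h hG _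
    cases r with
    | zero => simp [es, nat, cntA, filter_singleton, hG, AP]
    | succ r => simp [es, nat, cntA, powersetCard_eq_empty.2, Nat.beq]
  | cons p L ih =>
    intro G lab r h hG hadj
    rw [List.map_cons, List.nodup_cons] at hL
    have hx : s(p.1, p.2) ∉ es L := by simpa [es] using hL.1
    have e : es (p :: L) = insert s(p.1, p.2) (es L) := by simp [es]
    have hl' : ∀ q ∈ L, q.1 ≠ q.2 := fun q hq => hl q (List.mem_cons_of_mem _ hq)
    have hadj' : ∀ q ∈ L, ¬ G.Adj q.1 q.2 := fun q hq => hadj q (List.mem_cons_of_mem _ hq)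
    cases r with
    | zero =>
      have := prune L 0 _ _ (ih hL.2 hl' G lab 0 h hG hadj')
      rw [powersetCard_zero] at this ⊢
      exact this
    | succ r =>
      rw [e, card_split _ _ hx r _ (AP (G ⊔ edge p.1 p.2)) (fun F => by simp only [AP, sup_ins])]
      rw [prune L _ _ _ (ih hL.2 hl' G lab (r + 1) h hG hadj')]
      simp only [nat, List.map_cons, cntA, force_eq]
      congr 1
      cases hb : Nat.beq (lab.getD p.1 0) (lab.getD p.2 0)
      · have hr : ¬ G.Reachable p.1 p.2 := fun h' => by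
          rw [(h.2 _ _).1 h', Nat.beq_refl] at hb; cases hb
        refine ih hL.2 hl' _ _ r (rep_merge h p.1 p.2) (hG.sup_edge_of_not_reachable hr) ?_
        intro q hq ha
        rw [sup_adj, edge_adj] at ha
        rcases ha with ha | ⟨ha, -⟩
        · exact hadj' q hq ha
        · apply hL.1
          refine List.mem_map.2 ⟨q, hq, ?_⟩
          rw [Sym2.eq_iff]; exact ha
      · have hr : G.Reachable p.1 p.2 := (h.2 _ _).2 (Nat.eq_of_beq_eq_true hb)
        show _ = 0
        rw [card_eq_zero, filter_eq_empty_iff]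
        intro F _ hF
        rcases (isAcyclic_sup_fromEdgeSet_iff.1 (IsAcyclic.anti le_sup_left hF)).2 hr with h' | h'
        · exact hl p List.mem_cons_self h'
        · exact hadj p List.mem_cons_self h'

lemma rep_bot : Rep (⊥ : SimpleGraph (Fin n)) (List.range n) := by
  refine ⟨by simp, fun u v => ?_⟩
  rw [reachable_bot, List.getD_eq_getElem _ _ (by simp), List.getD_eq_getElem _ _ (by simp)]
  simp [Fin.ext_iff]

/-- the graph with edge list `L` -/
def gr (L : List (Fin n × Fin n)) : SimpleGraph (Fin n) := fromEdgeSet (es L : Set (Sym2 (Fin n)))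

lemma gr_edges (L : List (Fin n × Fin n)) (hl : ∀ p ∈ L, p.1 ≠ p.2) :
    (gr L).edgeFinset = es L := by
  ext e
  rw [mem_edgeFinset, gr, edgeSet_fromEdgeSet]
  simp only [Set.mem_diff, mem_coe, and_iff_left_iff_imp]
  intro he
  simp only [es, List.mem_toFinset, List.mem_map] at he
  obtain ⟨p, hp, rfl⟩ := he
  simpa using hl p hp

lemma marg_eq (x : Sym2 (Fin n)) (s : Finset (Sym2 (Fin n))) (h : x ∉ s) (r : ℕ)
    (Q : Finset (Sym2 (Fin n)) → Prop) (t c : ℕ)
    (ht : ((powersetCard (r + 1) (insert x s)).filter Q).card = t)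
    (hc : ((powersetCard (r + 1) s).filter Q).card = c) :
    marg ((powersetCard (r + 1) (insert x s)).filter Q) x = ((t : ℚ) - c) / t := by
  unfold marg
  rw [ht]
  congr 1
  have h1 := Finset.card_filter_add_card_filter_not
    (s := (powersetCard (r + 1) (insert x s)).filter Q) (fun F => x ∈ F)
  have h2 : ((powersetCard (r + 1) (insert x s)).filter Q).filter (fun F => ¬ x ∈ F) =
      (powersetCard (r + 1) s).filter Q := by
    ext F
    simp only [mem_filter, mem_powersetCard]
    constructor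
    · rintro ⟨⟨⟨a, b⟩, c⟩, d⟩
      exact ⟨⟨(subset_insert_iff_of_notMem d).1 a, b⟩, c⟩
    · rintro ⟨⟨a, b⟩, c⟩
      exact ⟨⟨⟨a.trans (subset_insert _ _), b⟩, c⟩, fun hx => h (a hx)⟩
  rw [h2, hc, ht] at h1
  rw [← h1]; push_cast; ring

theorem marg_conns (hn : 0 < n) (p : Fin n × Fin n) (L : List (Fin n × Fin n))
    (hL : ((p :: L).map (fun p => s(p.1, p.2))).Nodup) (hl : ∀ q ∈ p :: L, q.1 ≠ q.2) (r : ℕ) :
    marg (conns (gr (p :: L)) (r + 1)) s(p.1, p.2) =
      ((cntC (nat (p :: L)) (List.range n) (r + 1) : ℚ) - cntC (nat L) (List.range n) (r + 1)) /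
        cntC (nat (p :: L)) (List.range n) (r + 1) := by
  have a := cntC_eq hn (p :: L) hL ⊥ _ (r + 1) rep_bot
  rw [List.map_cons, List.nodup_cons] at hL
  have b := cntC_eq hn L hL.2 ⊥ _ (r + 1) rep_bot
  have hx : s(p.1, p.2) ∉ es L := by simpa [es] using hL.1
  have e : es (p :: L) = insert s(p.1, p.2) (es L) := by simp [es]
  have e0 : CP (⊥ : SimpleGraph (Fin n)) = Conn := by funext F; simp [CP, Conn]
  rw [e0] at a b
  unfold conns
  rw [gr_edges _ hl, e]
  rw [e] at a
  exact marg_eq _ _ hx r _ _ _ a b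

theorem marg_forests (p : Fin n × Fin n) (L : List (Fin n × Fin n))
    (hL : ((p :: L).map (fun p => s(p.1, p.2))).Nodup) (hl : ∀ q ∈ p :: L, q.1 ≠ q.2) (r : ℕ) :
    marg (forests (gr (p :: L)) (r + 1)) s(p.1, p.2) =
      ((cntA (nat (p :: L)) (List.range n) (r + 1) : ℚ) - cntA (nat L) (List.range n) (r + 1)) /
        cntA (nat (p :: L)) (List.range n) (r + 1) := by
  have a := cntA_eq (p :: L) hL hl ⊥ _ (r + 1) rep_bot isAcyclic_bot (fun _ _ h => h)
  rw [List.map_cons, List.nodup_cons] at hL
  have b := cntA_eq L hL.2 (fun q hq => hl q (List.mem_cons_of_mem _ hq)) ⊥ _ (r + 1) rep_bot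
    isAcyclic_bot (fun _ _ h => h)
  have hx : s(p.1, p.2) ∉ es L := by simpa [es] using hL.1
  have e : es (p :: L) = insert s(p.1, p.2) (es L) := by simp [es]
  have e0 : AP (⊥ : SimpleGraph (Fin n)) = Acyc := by funext F; simp [AP, Acyc]
  rw [e0] at a b
  unfold forests
  rw [gr_edges _ hl, e]
  rw [e] at a
  exact marg_eq _ _ hx r _ _ _ a b

theorem gr_conn (hn : 0 < n) (L : List (Fin n × Fin n))
    (hL : (L.map (fun p => s(p.1, p.2))).Nodup) (r : ℕ)
    (h : cntC (nat L) (List.range n) r ≠ 0) : (gr L).Connected := by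
  rw [← cntC_eq hn L hL ⊥ _ r rep_bot] at h
  obtain ⟨F, hF⟩ := card_pos.1 (Nat.pos_of_ne_zero h)
  obtain ⟨h1, h2⟩ := mem_filter.1 hF
  rw [CP, bot_sup_eq] at h2
  exact h2.mono (fromEdgeSet_mono (coe_subset.2 (mem_powersetCard.1 h1).1))

lemma gr_card (L : List (Fin n × Fin n)) (hL : (L.map (fun p => s(p.1, p.2))).Nodup)
    (hl : ∀ p ∈ L, p.1 ≠ p.2) : (gr L).edgeFinset.card = L.length := by
  rw [gr_edges L hl, es, List.toFinset_card_of_nodup hL, List.length_map]

end Pool.Agent.Lead.Sub
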