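import Pool.Agent.Lead.Sub1

set_option autoImplicit false

namespace Pool.Agent.Lead.Sub
open Finset SimpleGraph

def L7 : List (Fin 7 × Fin 7) :=
  [(2, 3), (3, 6), (2, 5), (5, 6), (1, 2), (1, 6), (0, 2), (0, 4), (4, 6)]

lemma nd7 : (((2, 6) :: L7).map (fun p : Fin 7 × Fin 7 => s(p.1, p.2))).Nodup := by decide +kernel
lemma nl7 : ∀ q ∈ ((2, 6) :: L7 : List (Fin 7 × Fin 7)), q.1 ≠ q.2 := by decide +kernel

lemma conn7 : (gr ((2, 6) :: L7)).Connected :=
  gr_conn (by norm_num) _ nd7 10 (by decide +kernel)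

lemma adj7 : s((2 : Fin 7), (6 : Fin 7)) ∈ (gr ((2, 6) :: L7)).edgeSet := by
  classical
  rw [← mem_edgeFinset, gr_edges _ nl7]
  simp [es]

lemma key7 : marg (forests (gr ((2, 6) :: L7)) 6) s(2, 6) <
    marg (forests (gr ((2, 6) :: L7)) 5) s(2, 6) := by
  have a := marg_forests (2, 6) L7 nd7 nl7 5
  have b := marg_forests (2, 6) L7 nd7 nl7 4
  rw [a, b]
  decide +kernel

lemma card7 : 7 + 2 ≤ (gr ((2, 6) :: L7)).edgeSet.ncard := by
  classical
  rw [← coe_edgeFinset, Set.ncard_coe_finset, gr_card _ nd7 nl7]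
  decide

def L11 : List (Fin 11 × Fin 11) :=
  [(0, 1), (0, 6), (1, 6), (1, 2), (1, 7), (2, 7), (2, 3), (2, 8), (3, 8), (3, 4), (3, 9), (4, 9),
    (4, 5), (4, 10), (5, 10)]

lemma nd11 : (((0, 5) :: L11).map (fun p : Fin 11 × Fin 11 => s(p.1, p.2))).Nodup := by
  decide +kernel
lemma nl11 : ∀ q ∈ ((0, 5) :: L11 : List (Fin 11 × Fin 11)), q.1 ≠ q.2 := by decide +kernel

lemma c1 : cntC (nat ((0, 5) :: L11)) (List.range 11) 10 = 1053 := by decide +kernel
lemma c2 : cntC (nat L11) (List.range 11) 10 = 243 := by decide +kernel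
lemma c3 : cntC (nat ((0, 5) :: L11)) (List.range 11) 11 = 1728 := by decide +kernel
lemma c4 : cntC (nat L11) (List.range 11) 11 = 405 := by decide +kernel

lemma conn11 : (gr ((0, 5) :: L11)).Connected :=
  gr_conn (by norm_num) _ nd11 10 (by rw [c1]; norm_num)

lemma adj11 : s((0 : Fin 11), (5 : Fin 11)) ∈ (gr ((0, 5) :: L11)).edgeSet := by
  classical
  rw [← mem_edgeFinset, gr_edges _ nl11]
  simp [es]

lemma card11 : (gr ((0, 5) :: L11)).edgeSet.ncard = 16 := by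
  classical
  rw [← coe_edgeFinset, Set.ncard_coe_finset, gr_card _ nd11 nl11]
  decide

lemma key11 : marg (conns (gr ((0, 5) :: L11)) 11) s(0, 5) <
    marg (conns (gr ((0, 5) :: L11)) 10) s(0, 5) := by
  have a := marg_conns (by norm_num) (0, 5) L11 nd11 nl11 10
  have b := marg_conns (by norm_num) (0, 5) L11 nd11 nl11 9
  rw [a, b, c1, c2, c3, c4]
  norm_num

end Pool.Agent.Lead.Sub
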