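import Mathlib

set_option autoImplicit false

namespace Pool.Agent.Lead.Sub
open Finset SimpleGraph Classical

variable {n : ℕ}

/-- the spanning subgraph with edge set `F` is acyclic -/
def Acyc (F : Finset (Sym2 (Fin n))) : Prop := (fromEdgeSet (F : Set (Sym2 (Fin n)))).IsAcyclic

/-- the spanning subgraph with edge set `F` is connected -/
def Conn (F : Finset (Sym2 (Fin n))) : Prop := (fromEdgeSet (F : Set (Sym2 (Fin n)))).Connected

/-- spanning forests of `G` with exactly `r` edges (as edge sets) -/
noncomputable def forests (G : SimpleGraph (Fin n)) (r : ℕ) : Finset (Finset (Sym2 (Fin n))) :=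
  (G.edgeFinset.powersetCard r).filter Acyc

/-- connected spanning subgraphs of `G` with exactly `r` edges (as edge sets) -/
noncomputable def conns (G : SimpleGraph (Fin n)) (r : ℕ) : Finset (Finset (Sym2 (Fin n))) :=
  (G.edgeFinset.powersetCard r).filter Conn

/-- probability that the edge `e` is present under the uniform measure on the family `S` -/
noncomputable def marg (S : Finset (Finset (Sym2 (Fin n)))) (e : Sym2 (Fin n)) : ℚ :=
  ((S.filter (fun F => e ∈ F)).card : ℚ) / S.card

end Pool.Agent.Lead.Sub
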