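import Mathlib

namespace Pool.Agent.Lead.SyncGame

variable {Q A : Type}

/-- The action of a word on a state. -/
def act (δ : Q → A → Q) (q : Q) (w : List A) : Q := w.foldl δ q

/-- `w` is a reset word: it sends all states to one state. -/
def Reset (δ : Q → A → Q) (w : List A) : Prop := ∃ p, ∀ q, act δ q w = p

/-- The word built when Alice follows `s` and Bob has played the words in the list
(latest first); Alice's letter depends on all of Bob's earlier moves. -/
def play (s : List (List A) → A) : List (List A) → List A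
  | [] => []
  | u :: h => play s h ++ s h :: u

/-- Bob's first `i` moves, latest first. -/
def hist (b : ℕ → List A) : ℕ → List (List A)
  | 0 => []
  | i + 1 => b i :: hist b i

/-- Alice has a winning strategy in the `k`-game. -/
def AliceWins (k : ℕ) (δ : Q → A → Q) : Prop :=
  ∃ s : List (List A) → A, ∀ b : ℕ → List A, (∀ i, (b i).length ≤ k) →
    ∃ i, Reset δ (play s (hist b i))

@[simp] lemma act_nil (δ : Q → A → Q) (q : Q) : act δ q [] = q := rfl

@[simp] lemma act_cons (δ : Q → A → Q) (q : Q) (a : A) (w : List A) :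
    act δ q (a :: w) = act δ (δ q a) w := rfl

lemma act_append (δ : Q → A → Q) (q : Q) (v w : List A) :
    act δ q (v ++ w) = act δ (act δ q v) w := by
  simp [act]

inductive Win (k : ℕ) (δ : Q → A → Q) : Q → Q → Prop
  | eq (x : Q) : Win k δ x x
  | step (x y : Q) (a : A)
      (h : ∀ u : List A, u.length ≤ k → Win k δ (act δ (δ x a) u) (act δ (δ y a) u)) :
      Win k δ x y

lemma win_of_aliceWins {k : ℕ} {δ : Q → A → Q} (h : AliceWins k δ) (x y : Q) : Win k δ x y := by
  classical
  obtain ⟨s, hs⟩ := h
  by_contra hn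
  have key : ∀ x y : Q, ∀ a : A, ∃ u : List A, u.length ≤ k ∧
      (¬ Win k δ x y → ¬ Win k δ (act δ (δ x a) u) (act δ (δ y a) u)) := by
    intro x y a
    by_cases hw : Win k δ x y
    · exact ⟨[], by simp, fun h => absurd hw h⟩
    · by_contra hc
      push Not at hc
      exact hw (Win.step x y a fun u hu => (hc u hu).2)
  choose f hf1 hf2 using key
  let g : List (List A) → List A := fun h => f (act δ x (play s h)) (act δ y (play s h)) (s h)
  let H : ℕ → List (List A) := fun i => Nat.rec [] (fun _ h => g h :: h) i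
  have hH : ∀ i, hist (fun i => g (H i)) i = H i := by
    intro i
    induction i with
    | zero => rfl
    | succ i ih => simp only [hist, ih]; rfl
  have hW : ∀ i, ¬ Win k δ (act δ x (play s (H i))) (act δ y (play s (H i))) := by
    intro i
    induction i with
    | zero => exact hn
    | succ i ih =>
      have e : play s (H (i + 1)) = play s (H i) ++ s (H i) :: g (H i) := rfl
      rw [e, act_append, act_append]
      exact hf2 _ _ _ ih
  obtain ⟨i, p, hp⟩ := hs (fun i => g (H i)) fun i => hf1 _ _ _
  rw [hH] at hp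
  apply hW i
  rw [hp, hp]
  exact Win.eq p

lemma exists_good [Nonempty A] {k : ℕ} {δ : Q → A → Q} (h : ∀ x y, Win k δ x y) (x y : Q)
    (hxy : x ≠ y) : ∃ p q : Q, p ≠ q ∧ ∀ u : List A, u.length ≤ k →
      ∃ a, δ (act δ p u) a = δ (act δ q u) a := by
  by_contra hc
  have : ∀ x y, Win k δ x y → ∃ a, δ x a = δ y a := by
    intro x y hw
    induction hw with
    | eq x => exact ⟨Classical.arbitrary A, rfl⟩
    | step x y a _ ih =>
      by_contra hne
      exact hc ⟨δ x a, δ y a, fun e => hne ⟨a, e⟩, ih⟩
  exact hc ⟨x, y, hxy, fun u _ => this _ _ (h _ _)⟩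

lemma card_lt [Finite Q] {σ τ : Setoid Q} (h : σ ≤ τ) {x y : Q} (h1 : τ x y) (h2 : ¬ σ x y) :
    Nat.card (Quotient τ) < Nat.card (Quotient σ) := by
  classical
  let f : Quotient σ → Quotient τ := Quotient.map' id fun _ _ hh => h hh
  have hs : Function.Surjective f := by
    rintro ⟨z⟩
    exact ⟨Quotient.mk _ z, rfl⟩
  have := Fintype.ofFinite (Quotient σ)
  have := Fintype.ofFinite (Quotient τ)
  simp only [Nat.card_eq_fintype_card]
  refine Fintype.card_lt_of_surjective_not_injective f hs fun hi => h2 ?_
  have : f (Quotient.mk _ x) = f (Quotient.mk _ y) := Quotient.sound h1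
  exact Quotient.exact (hi this)

lemma exists_cong [Finite Q] {k : ℕ} {δ : Q → A → Q} (hk : Nat.card Q ≤ k + 2) {p q : Q}
    (hpq : p ≠ q) (hg : ∀ u : List A, u.length ≤ k → ∃ a, δ (act δ p u) a = δ (act δ q u) a) :
    ∃ (σ : Setoid Q) (w : List A), 1 ≤ w.length ∧ Nat.card (Quotient σ) + w.length ≤ Nat.card Q ∧
      (∀ x y, σ x y → act δ x w = act δ y w) ∧ ∀ x y a, σ x y → σ (δ x a) (δ y a) := by
  classical
  have : Nonempty Q := ⟨p⟩
  let D : ℕ → Q → Q → Prop := fun i x y => ∃ u : List A, u.length < i ∧ x = act δ p u ∧ y = act δ q u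
  have main : ∀ m : ℕ, ∀ (σ : Setoid Q) (i : ℕ), Nat.card (Quotient σ) ≤ m →
      Nat.card (Quotient σ) + i ≤ Nat.card Q → σ ≤ Relation.EqvGen.setoid (D i) →
      (∀ v : List A, v.length + i ≤ k + 1 → ∃ w : List A, w.length = i ∧
        ∀ x y, σ x y → act δ (act δ x v) w = act δ (act δ y v) w) →
      ∃ (σ : Setoid Q) (w : List A), 1 ≤ w.length ∧
        Nat.card (Quotient σ) + w.length ≤ Nat.card Q ∧
        (∀ x y, σ x y → act δ x w = act δ y w) ∧ ∀ x y a, σ x y → σ (δ x a) (δ y a) := by
    intro m
    induction m with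
    | zero =>
      intro σ i h0
      have : Nonempty (Quotient σ) := ⟨Quotient.mk σ p⟩
      have : 0 < Nat.card (Quotient σ) := Nat.card_pos
      omega
    | succ m ih =>
      intro σ i hm hi hD hw
      have : Nonempty (Quotient σ) := ⟨Quotient.mk σ p⟩
      have hpos : 0 < Nat.card (Quotient σ) := Nat.card_pos
      by_cases hall : ∀ u : List A, u.length ≤ i → σ (act δ p u) (act δ q u)
      · obtain ⟨w, hw1, hw2⟩ := hw [] (by simp; omega)
        refine ⟨σ, w, ?_, by omega, hw2, fun x y a hxy => ?_⟩
        · by_contra h0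
          have : w = [] := List.eq_nil_of_length_eq_zero (by omega)
          subst this
          exact hpq (hw2 p q (hall [] (by simp)))
        · have hle : Relation.EqvGen.setoid (D i) ≤ Setoid.comap (fun x => δ x a) σ := by
            refine Setoid.eqvGen_le ?_
            rintro _ _ ⟨u, hu, rfl, rfl⟩
            have := hall (u ++ [a]) (by simp; omega)
            rw [act_append, act_append] at this
            exact this
          exact hle (hD hxy)
      · push Not at hall
        obtain ⟨u, hu, hne⟩ := hall
        let τ : Setoid Q := σ ⊔ Relation.EqvGen.setoid fun x y => x = act δ p u ∧ y = act δ q u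
        have hτ : τ (act δ p u) (act δ q u) :=
          (le_sup_right : _ ≤ τ) (Relation.EqvGen.rel _ _ ⟨rfl, rfl⟩)
        have hlt : Nat.card (Quotient τ) < Nat.card (Quotient σ) :=
          card_lt (le_sup_left : σ ≤ τ) hτ hne
        refine ih τ (i + 1) (by omega) (by omega) (sup_le (hD.trans ?_) ?_) fun v hv => ?_
        · refine Setoid.eqvGen_mono ?_
          rintro _ _ ⟨u', hu', rfl, rfl⟩
          exact ⟨u', by omega, rfl, rfl⟩
        · refine Setoid.eqvGen_mono ?_
          rintro _ _ ⟨rfl, rfl⟩
          exact ⟨u, by omega, rfl, rfl⟩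
        · obtain ⟨a, ha⟩ := hg (u ++ v) (by simp; omega)
          obtain ⟨w, hw1, hw2⟩ := hw (v ++ [a]) (by simp; omega)
          refine ⟨a :: w, by simp [hw1], fun x y hxy => ?_⟩
          have hle : τ ≤ Setoid.ker fun x => act δ (act δ x v) (a :: w) := by
            refine sup_le (fun x y hxy => ?_) (Setoid.eqvGen_le ?_)
            · have := hw2 x y hxy
              rw [act_append, act_append] at this
              exact this
            · rintro _ _ ⟨rfl, rfl⟩
              rw [act_append, act_append] at ha
              show act δ (δ _ a) w = act δ (δ _ a) w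
              rw [ha]
          exact hle hxy
  refine main _ ⊥ 0 le_rfl ?_ bot_le fun v _ => ⟨[], rfl, fun x y h => ?_⟩
  · exact Nat.card_le_card_of_surjective (Quotient.mk _) Quotient.mk_surjective
  · have : x = y := h
    rw [this]

theorem reset_of_win [Nonempty A] (k : ℕ) : ∀ (n : ℕ) (Q : Type) [Finite Q] [Nonempty Q]
    (δ : Q → A → Q), Nat.card Q = n → n ≤ k + 2 → (∀ x y, Win k δ x y) →
    ∃ w, Reset δ w ∧ w.length < n := by
  intro n
  induction n using Nat.strong_induction_on with
  | _ n ih =>
    intro Q _ _ δ hn hk hw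
    by_cases h1 : ∃ x y : Q, x ≠ y
    · obtain ⟨x, y, hxy⟩ := h1
      obtain ⟨p, q, hpq, hg⟩ := exists_good hw x y hxy
      obtain ⟨σ, w, hw1, hw2, hw3, hc⟩ := exists_cong (by omega) hpq hg
      let δ' : Quotient σ → A → Quotient σ := fun z a =>
        Quotient.map' (fun x => δ x a) (fun x y h => hc x y a h) z
      have hact : ∀ (u : List A) (x : Q),
          act δ' (Quotient.mk σ x) u = Quotient.mk σ (act δ x u) := by
        intro u
        induction u with
        | nil => intro x; rfl
        | cons a u ihu => intro x; exact ihu (δ x a)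
      have hwin : ∀ x y, Win k δ x y → Win k δ' (Quotient.mk σ x) (Quotient.mk σ y) := by
        intro x y h
        induction h with
        | eq x => exact Win.eq _
        | step x y a _ ih' =>
          refine Win.step _ _ a fun u hu => ?_
          have := ih' u hu
          rw [← hact, ← hact] at this
          exact this
      have : Nonempty (Quotient σ) := ⟨Quotient.mk σ p⟩
      obtain ⟨v, ⟨z, hz⟩, hv⟩ := ih (Nat.card (Quotient σ)) (by omega) (Quotient σ) δ' rfl
        (by omega) (by rintro ⟨x⟩ ⟨y⟩; exact hwin x y (hw x y))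
      refine ⟨v ++ w, ⟨act δ p (v ++ w), fun r => ?_⟩, by simp; omega⟩
      rw [act_append, act_append]
      refine hw3 _ _ (Quotient.exact ?_)
      rw [← hact, ← hact, hz, hz]
    · push Not at h1
      have : 0 < Nat.card Q := Nat.card_pos
      exact ⟨[], ⟨Classical.arbitrary Q, fun r => h1 _ _⟩, by simp; omega⟩

theorem main [Fintype Q] [Nonempty Q] [Nonempty A] (k : ℕ) (δ : Q → A → Q)
    (hk : Fintype.card Q ≤ k + 2) (h : AliceWins k δ) :
    ∃ w, Reset δ w ∧ w.length < Fintype.card Q :=
  reset_of_win k _ Q δ Nat.card_eq_fintype_card hk (win_of_aliceWins h)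

end Pool.Agent.Lead.SyncGame
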