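import Pool.Agent.Lead.Iso1

set_option autoImplicit false

open Set Topology Filter TopologicalSpace

namespace Pool.Agent.TEx

abbrev Y (κ : Type) : Type := κ → unitInterval

variable {κ : Type}

open Classical in
noncomputable def mix (T : Set κ) (z w : Y κ) : Y κ := fun α => if α ∈ T then z α else w α

def Agr (T : Set κ) (z w : Y κ) : Prop := ∀ α ∈ T, z α = w α

def Cyl (T : Set κ) (P : Set (Y κ)) : Prop := ∀ z w, Agr T z w → z ∈ P → w ∈ P

theorem Agr.symm {T : Set κ} {z w : Y κ} (h : Agr T z w) : Agr T w z := fun α hα => (h α hα).symm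
theorem Agr.mono {T T' : Set κ} {z w : Y κ} (h : Agr T' z w) (hT : T ⊆ T') : Agr T z w :=
  fun α hα => h α (hT hα)
theorem Cyl.mono {T T' : Set κ} {P : Set (Y κ)} (h : Cyl T P) (hT : T ⊆ T') : Cyl T' P :=
  fun z w hzw => h z w (hzw.mono hT)
theorem agr_mix (T : Set κ) (z w : Y κ) : Agr T z (mix T z w) := fun α hα => by simp [mix, hα]
theorem mix_of_agr {T : Set κ} {z w : Y κ} (h : Agr T z w) : mix T z w = w := by
  funext α
  by_cases hα : α ∈ T <;> simp [mix, hα, h α]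
theorem mix_self (T : Set κ) (z : Y κ) : mix T z z = z := mix_of_agr fun _ _ => rfl
theorem mix_mix (T : Set κ) (z w v : Y κ) : mix T (mix T z w) v = mix T z v := by
  funext α
  by_cases hα : α ∈ T <;> simp [mix, hα]

theorem cont_mix (T : Set κ) {A : Type} [TopologicalSpace A] {f g : A → Y κ} (hf : Continuous f)
    (hg : Continuous g) : Continuous fun a => mix T (f a) (g a) := by
  refine continuous_pi fun α => ?_
  by_cases hα : α ∈ T
  · simp only [mix, hα, if_true]; exact (continuous_apply α).comp hf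
  · simp only [mix, hα, if_false]; exact (continuous_apply α).comp hg

theorem Cyl.closure {T : Set κ} {P : Set (Y κ)} (h : Cyl T P) : Cyl T (closure P) := by
  intro z w hzw hz
  rw [← mix_of_agr hzw]
  exact map_mem_closure (f := fun z => mix T z w) (cont_mix T continuous_id continuous_const) hz
    fun p hp => h p _ (agr_mix T p w) hp

def Bx (κ : Type) : Type := (G : Finset κ) × countableBasis (G → unitInterval)

def box (b : Bx κ) : Set (Y κ) := b.1.restrict ⁻¹' b.2.1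

theorem box_open (b : Bx κ) : IsOpen (box b) :=
  (isOpen_of_mem_countableBasis b.2.2).preimage b.1.continuous_restrict

theorem box_cyl (b : Bx κ) : Cyl b.1 (box b) := fun z w h hz => by
  have : b.1.restrict w = b.1.restrict z := funext fun α => (h α α.2).symm
  unfold box at hz ⊢
  rwa [mem_preimage, this]

theorem basisT (T : Set κ) {U : Set (Y κ)} (hU : IsOpen U) {t : Y κ} (ht : t ∈ U) :
    ∃ b : Bx κ, ↑b.1 ⊆ T ∧ t ∈ box b ∧ ∀ s ∈ box b, mix T s t ∈ U := by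
  classical
  have hV := hU.mem_nhds ht
  rw [nhds_pi, Filter.mem_pi] at hV
  obtain ⟨I, hI, u, hu, hs⟩ := hV
  let G : Finset κ := hI.toFinset.filter (· ∈ T)
  have h1 : {z : G → unitInterval | ∀ α : G, z α ∈ u α} ∈ 𝓝 (G.restrict t) := by
    have : ∀ᶠ z in 𝓝 (G.restrict t), ∀ α : G, z α ∈ u α :=
      eventually_all.2 fun α => (continuous_apply α).continuousAt.eventually (hu α)
    exact this
  obtain ⟨B, hB, htB, hBs⟩ := (isBasis_countableBasis _).mem_nhds_iff.1 h1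
  refine ⟨⟨G, B, hB⟩, fun α hα => (Finset.mem_filter.1 hα).2, htB, fun s hs' => hs fun α hα => ?_⟩
  by_cases h : α ∈ T
  · have : α ∈ G := Finset.mem_filter.2 ⟨hI.mem_toFinset.2 hα, h⟩
    simpa [mix, h] using hBs hs' ⟨α, this⟩
  · simpa [mix, h] using mem_of_mem_nhds (hu α)

theorem basis {U : Set (Y κ)} (hU : IsOpen U) {t : Y κ} (ht : t ∈ U) :
    ∃ b : Bx κ, t ∈ box b ∧ box b ⊆ U := by
  obtain ⟨b, -, h1, h2⟩ := basisT univ hU ht
  refine ⟨b, h1, fun s hs => ?_⟩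
  have := h2 s hs
  rwa [show mix univ s t = s from funext fun α => by simp [mix]] at this

theorem closingB (f : Bx κ → Set κ) (hf : ∀ b, (f b).Countable) {T0 : Set κ} (h0 : T0.Countable) :
    ∃ T : Set κ, T.Countable ∧ T0 ⊆ T ∧ ∀ b : Bx κ, ↑b.1 ⊆ T → f b ⊆ T := by
  obtain ⟨T, h1, h2, h3⟩ := Lead.Gro.closing (fun G : Finset κ => ⋃ B, f ⟨G, B⟩)
    (fun G => countable_iUnion fun B => hf _) h0
  exact ⟨T, h1, h2, fun b hb => (subset_iUnion (fun B => f ⟨b.1, B⟩) b.2).trans (h3 _ hb)⟩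

theorem dcyl {P : Set (Y κ)} (hP : IsOpen P) :
    ∃ T : Set κ, T.Countable ∧ ∃ R : Set (Y κ), IsOpen R ∧ Cyl T R ∧ R ⊆ P ∧ P ⊆ closure R := by
  have h : ∀ b : Bx κ, ∃ b' : Bx κ, (box b ∩ P).Nonempty →
      (box b').Nonempty ∧ box b' ⊆ box b ∩ P := fun b => by
    by_cases h : (box b ∩ P).Nonempty
    · obtain ⟨t, ht⟩ := h
      obtain ⟨b', h1, h2⟩ := basis ((box_open b).inter hP) ht
      exact ⟨b', fun _ => ⟨⟨t, h1⟩, h2⟩⟩
    · exact ⟨b, fun h' => absurd h' h⟩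
  choose f hf using h
  obtain ⟨T, h1, -, h3⟩ := closingB (fun b => ((f b).1 : Set κ))
    (fun b => (f b).1.countable_toSet) countable_empty
  refine ⟨T, h1, ⋃ b ∈ {b : Bx κ | ↑b.1 ⊆ T ∧ box b ⊆ P}, box b,
    isOpen_biUnion fun b _ => box_open b, fun z w hzw hz => ?_,
    iUnion₂_subset fun b hb => hb.2, fun t ht => ?_⟩
  · obtain ⟨b, hb, hz⟩ := mem_iUnion₂.1 hz
    exact mem_biUnion hb ((box_cyl b).mono hb.1 z w hzw hz)
  · refine mem_closure_iff.2 fun O hO htO => ?_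
    obtain ⟨b, hb1, hb2, hb3⟩ := basisT T hO htO
    obtain ⟨⟨s, hs⟩, h5⟩ := hf b ⟨t, hb2, ht⟩
    exact ⟨mix T s t, hb3 s (h5 hs).1, mem_biUnion (show f b ∈ {b : Bx κ | ↑b.1 ⊆ T ∧ box b ⊆ P}
      from ⟨h3 b hb1, fun x hx => (h5 hx).2⟩)
      ((box_cyl _).mono (h3 b hb1) s _ (agr_mix T s t) hs)⟩

section irr
variable {A Z : Type} [TopologicalSpace A] [TopologicalSpace Z]

/-- quasi-continuity over the open set `U` -/
def QC (E : Set (A × Z)) (U : Set A) : Prop :=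
  ∀ O : Set (A × Z), IsOpen O → (∃ e ∈ E, e ∈ O ∧ e.1 ∈ U) →
    ∃ U', IsOpen U' ∧ U'.Nonempty ∧ U' ⊆ U ∧ ∀ e ∈ E, e.1 ∈ U' → e ∈ O

theorem fib_open [CompactSpace Z] {E : Set (A × Z)} (hE : IsClosed E) {O : Set (A × Z)}
    (hO : IsOpen O) : IsOpen {t | ∀ e ∈ E, e.1 = t → e ∈ O} := by
  have : {t | ∀ e ∈ E, e.1 = t → e ∈ O} = (Prod.fst '' (E ∩ Oᶜ))ᶜ := by
    ext t
    simp only [mem_ofPred_eq, mem_compl_iff, mem_image, mem_inter_iff, not_exists, not_and]
    exact ⟨fun h e he h' => he.2 (h e he.1 h'), fun h e he h' => by_contra fun h2 => h e ⟨he, h2⟩ h'⟩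
  rw [this]
  exact (isClosedMap_fst_of_compactSpace _ (hE.inter hO.isClosed_compl)).isOpen_compl

theorem irred [CompactSpace Z] (Γ : Set (A × Z)) (hΓ : IsClosed Γ) (U : Set A)
    (hU : IsOpen U) (hUΓ : U ⊆ Prod.fst '' Γ) :
    ∃ E ⊆ Γ, IsClosed E ∧ U ⊆ Prod.fst '' E ∧ QC E U := by
  obtain ⟨E, hE1, hE2⟩ := zorn_superset_nonempty
    {E : Set (A × Z) | IsClosed E ∧ U ⊆ Prod.fst '' E} (fun c hc hch hne => by
      refine ⟨⋂₀ c, ⟨isClosed_sInter fun E hE => (hc hE).1, fun t ht => ?_⟩,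
        fun E hE => sInter_subset_of_mem hE⟩
      have := hne.to_subtype
      obtain ⟨z, hz⟩ := IsCompact.nonempty_iInter_of_directed_nonempty_isCompact_isClosed
        (fun E : c => {z : Z | (t, z) ∈ E.1}) (fun E E' => by
          rcases hch.total E.2 E'.2 with h | h
          · exact ⟨E, subset_rfl, fun z hz => h hz⟩
          · exact ⟨E', fun z hz => h hz, subset_rfl⟩)
        (fun E => by
          obtain ⟨e, he, rfl⟩ := (hc E.2).2 ht
          exact ⟨e.2, he⟩)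
        (fun E => ((hc E.2).1.preimage (Continuous.prodMk_right t)).isCompact)
        (fun E => (hc E.2).1.preimage (Continuous.prodMk_right t))
      exact ⟨(t, z), fun E hE => mem_iInter.1 hz ⟨E, hE⟩, rfl⟩) Γ ⟨hΓ, hUΓ⟩
  refine ⟨E, hE1, hE2.prop.1, hE2.prop.2, fun O hO ⟨e, he, heO, heU⟩ => ?_⟩
  let O' := O ∩ Prod.fst ⁻¹' U
  have hO' : IsOpen O' := hO.inter (hU.preimage continuous_fst)
  refine ⟨U ∩ {t | ∀ e ∈ E, e.1 = t → e ∈ O'}, hU.inter (fib_open hE2.prop.1 hO'), ?_,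
    inter_subset_left, fun e he h => (h.2 e he rfl).1⟩
  by_contra h
  have h1 : E ⊆ E ∩ O'ᶜ := hE2.le_of_le (y := E ∩ O'ᶜ)
    ⟨hE2.prop.1.inter hO'.isClosed_compl, fun t ht => by
      by_contra h2
      exact h ⟨t, ht, fun e he h3 => by_contra fun h4 => h2 ⟨e, ⟨he, h4⟩, h3⟩⟩⟩ inter_subset_left
  exact (h1 he).2 ⟨heO, heU⟩

theorem QC.mono {E : Set (A × Z)} {U U' : Set A} (h : QC E U) (hU' : IsOpen U') (hs : U' ⊆ U)
    (hUE : U ⊆ Prod.fst '' E) : QC E U' := by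
  intro O hO ⟨e, he, heO, heU⟩
  obtain ⟨V, h1, h2, h3, h4⟩ := h (O ∩ Prod.fst ⁻¹' U') (hO.inter (hU'.preimage continuous_fst))
    ⟨e, he, ⟨heO, heU⟩, hs heU⟩
  refine ⟨V, h1, h2, fun t ht => ?_, fun e he h => (h4 e he h).1⟩
  obtain ⟨e, he, rfl⟩ := hUE (h3 ht)
  exact (h4 e he ht).2

end irr

end Pool.Agent.TEx
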