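import Pool.Agent.Lead.TEx1

set_option autoImplicit false

open Set Topology Filter TopologicalSpace

namespace Pool.Agent.TEx

variable {κ X : Type} [TopologicalSpace X] [CompactSpace X] [T2Space X] {n : ℕ}

/-- every continuous map of the cube into `X` depends on countably many coordinates -/
def HX (κ X : Type) [TopologicalSpace X] : Prop :=
  ∀ a : Y κ → X, Continuous a → ∃ T : Set κ, T.Countable ∧ ∀ w w', Agr T w w' → a w = a w'

def Neg (E : Set (Y κ × (Fin n → X))) (i : Fin n) (c : C(X, ℝ)) : Set (Y κ) :=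
  {t | ∀ e ∈ E, e.1 = t → c (e.2 i) < 0}

omit [T2Space X] in
theorem Neg_open {E : Set (Y κ × (Fin n → X))} (hE : IsClosed E) (i : Fin n) (c : C(X, ℝ)) :
    IsOpen (Neg E i c) :=
  fib_open hE (O := {e | c (e.2 i) < 0}) (isOpen_lt (by fun_prop) continuous_const)

def Split (E : Set (Y κ × (Fin n → X))) (i : Fin n) (V : Set (Y κ)) (T : Set κ) : Prop :=
  ∃ c : C(X, ℝ), ∃ t ∈ V, ∃ t' ∈ V, Agr T t t' ∧ t ∈ Neg E i c ∧ t' ∈ Neg E i (-c)

omit [T2Space X] in
theorem press {E : Set (Y κ × (Fin n → X))} (hE : IsClosed E) (i : Fin n) (b0 : Bx κ)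
    (h : ∀ T : Set κ, T.Countable → Split E i (box b0) T) :
    ∃ b : Bx κ, (box b).Nonempty ∧ box b ⊆ box b0 ∧ ∀ T : Set κ, T.Countable →
      ∃ T' : Set κ, T ⊆ T' ∧ ∃ (c : C(X, ℝ)) (t t' : Y κ),
        ∀ z ∈ box b, mix T' z t ∈ Neg E i c ∧ mix T' z t' ∈ Neg E i (-c) := by
  by_contra hc
  have h1 : ∀ b : Bx κ, ∃ T : Set κ, T.Countable ∧ ((box b).Nonempty → box b ⊆ box b0 →
      ¬ ∃ T' : Set κ, T ⊆ T' ∧ ∃ (c : C(X, ℝ)) (t t' : Y κ),
        ∀ z ∈ box b, mix T' z t ∈ Neg E i c ∧ mix T' z t' ∈ Neg E i (-c)) := fun b => by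
    by_contra h2
    apply hc
    push Not at h2
    obtain ⟨h3, h4, -⟩ := h2 ∅ countable_empty
    exact ⟨b, h3, h4, fun T hT => (h2 T hT).2.2⟩
  choose f hf hf' using h1
  obtain ⟨T, hT, hT0, hT1⟩ := closingB f hf b0.1.countable_toSet
  obtain ⟨c, t, ht, t', -, hag, h1, h2⟩ := h T hT
  obtain ⟨b, hb1, hb2, hb3⟩ := basisT T
    (((Neg_open hE i c).inter ((Neg_open hE i (-c)).preimage
      (cont_mix T continuous_id (continuous_const (y := t'))))).inter (box_open b0))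
    (t := t) ⟨⟨h1, by simpa [mix_of_agr hag] using h2⟩, ht⟩
  refine hf' b ⟨t, hb2⟩ (fun z hz => ?_) ⟨T, hT1 b hb1, c, t, t', fun z hz => ⟨(hb3 z hz).1.1, ?_⟩⟩
  · exact (box_cyl b0).mono hT0 _ _ (agr_mix T z t).symm (hb3 z hz).2
  · have := (hb3 z hz).1.2
    simpa [mix_mix] using this

omit [T2Space X] in
theorem lift_cl {A Z : Type} [TopologicalSpace A] [TopologicalSpace Z] [CompactSpace Z]
    {E : Set (A × Z)} {P : Set A} {C : Set (A × Z)} (hC : IsClosed C)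
    (h : ∀ t ∈ P, ∃ e ∈ E, e.1 = t ∧ e ∈ C) (hE : IsClosed E) {y : A} (hy : y ∈ closure P) :
    ∃ e ∈ E, e.1 = y ∧ e ∈ C := by
  have : y ∈ Prod.fst '' (E ∩ C) :=
    closure_minimal (fun t ht => by
      obtain ⟨e, h1, h2, h3⟩ := h t ht
      exact ⟨e, ⟨h1, h3⟩, h2⟩) (isClosedMap_fst_of_compactSpace _ (hE.inter hC)) hy
  obtain ⟨e, he, rfl⟩ := this
  exact ⟨e, he.1, rfl, he.2⟩

theorem multi (hX : HX κ X) {E : Set (Y κ × (Fin n → X))} (hE : IsClosed E) {U : Set (Y κ)}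
    (hUE : U ⊆ Prod.fst '' E) (hq : QC E U) (s : Finset (Fin n))
    (hs : ∀ i ∈ s, ∀ b : Bx κ, (box b).Nonempty → box b ⊆ U → ∀ T : Set κ, T.Countable →
      Split E i (box b) T) (b0 : Bx κ) (hb0 : (box b0).Nonempty) (hb0' : box b0 ⊆ U) :
    ∃ T : Set κ, T.Countable ∧ ∃ P Q : Set (Y κ), IsOpen P ∧ IsOpen Q ∧ Cyl T P ∧ Cyl T Q ∧
      (∃ y ∈ box b0, y ∈ closure P ∧ y ∈ closure Q) ∧
      ∀ i ∈ s, ∃ c : C(X, ℝ), P ⊆ Neg E i (c + 1) ∧ Q ⊆ Neg E i (-c + 1) := by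
  classical
  induction s using Finset.induction_on generalizing b0 with
  | empty =>
    obtain ⟨y, hy⟩ := hb0
    exact ⟨∅, countable_empty, univ, univ, isOpen_univ, isOpen_univ, fun _ _ _ _ => trivial,
      fun _ _ _ _ => trivial, ⟨y, hy, by simp, by simp⟩, by simp⟩
  | insert i s _ ih =>
    obtain ⟨b, hb1, hb2, hb3⟩ := press hE i b0 (hs i (Finset.mem_insert_self _ _) b0 hb0 hb0')
    obtain ⟨T0, hT0, P, Q, hP, hQ, hPc, hQc, ⟨y, hy, hyP, hyQ⟩, hPQ⟩ :=
      ih (fun j hj => hs j (Finset.mem_insert_of_mem hj)) b hb1 (hb2.trans hb0')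
    let T := T0 ∪ b.1
    have hT : T.Countable := hT0.union b.1.countable_toSet
    have hPc := hPc.mono (subset_union_left : T0 ⊆ T)
    have hQc := hQc.mono (subset_union_left : T0 ⊆ T)
    have hyb : ∀ w, mix T y w ∈ box b := fun w =>
      (box_cyl b).mono subset_union_right _ _ (agr_mix T y w) hy
    have hex : ∀ R : Set (Y κ), Cyl T R → y ∈ closure R → ∀ w,
        ∃ e ∈ E, e.1 = mix T y w ∧ e ∈ closure (E ∩ Prod.fst ⁻¹' R) := fun R hR hyR w => by
      refine lift_cl (P := box b ∩ R) isClosed_closure (fun t ht => ?_) hE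
        ((box_open b).inter_closure ⟨hyb w, hR.closure _ _ (agr_mix T y w) hyR⟩)
      obtain ⟨e, he, rfl⟩ := hUE (hb0' (hb2 ht.1))
      exact ⟨e, he, rfl, subset_closure ⟨he, ht.2⟩⟩
    have href : ∀ R : Set (Y κ), IsOpen R → ∀ e ∈ closure (E ∩ Prod.fst ⁻¹' R), e.1 ∈ box b →
        ∀ c : C(X, ℝ), c (e.2 i) < 0 → ∃ T' : Set κ, T'.Countable ∧ ∃ R', IsOpen R' ∧ Cyl T' R' ∧
          R' ⊆ R ∩ Neg E i c ∧ e.1 ∈ closure R' := fun R hR e he heb c hc => by
      obtain ⟨T', h1, R', h2, h3, h4, h5⟩ := dcyl (hR.inter (Neg_open hE i c))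
      refine ⟨T', h1, R', h2, h3, h4, closure_minimal h5 isClosed_closure ?_⟩
      refine mem_closure_iff.2 fun N hN heN => ?_
      have hO : IsOpen ({e : Y κ × (Fin n → X) | c (e.2 i) < 0} ∩ Prod.fst ⁻¹' (N ∩ box b)) :=
        (isOpen_lt (by fun_prop) continuous_const).inter
          ((hN.inter (box_open b)).preimage continuous_fst)
      obtain ⟨e1, h6, h7⟩ := mem_closure_iff.1 he _ hO ⟨hc, heN, heb⟩
      obtain ⟨V, -, ⟨t, ht⟩, h8, h9⟩ := hq _ (hO.inter (hR.preimage continuous_fst))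
        ⟨e1, h7.1, ⟨h6, h7.2⟩, hb0' (hb2 h6.2.2)⟩
      obtain ⟨e2, he2, rfl⟩ := hUE (h8 ht)
      exact ⟨e2.1, (h9 e2 he2 ht).1.2.1, (h9 e2 he2 ht).2,
        fun e3 he3 h => (h9 e3 he3 (h ▸ ht)).1.1⟩
    by_cases hj : ∃ w, ∃ e ∈ closure (E ∩ Prod.fst ⁻¹' P), ∃ e' ∈ closure (E ∩ Prod.fst ⁻¹' Q),
        e.1 = mix T y w ∧ e'.1 = mix T y w ∧ e.2 i ≠ e'.2 i
    · obtain ⟨w, e, he, e', he', h1, h2, h3⟩ := hj
      obtain ⟨f, hf0, hf1, -⟩ := exists_continuous_zero_one_of_isClosed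
        (isClosed_singleton (x := e.2 i)) (isClosed_singleton (x := e'.2 i))
        (disjoint_singleton.2 h3)
      let c : C(X, ℝ) := (4 : ℝ) • f - ContinuousMap.const X 2
      obtain ⟨T1, hT1, P', hP1, hP2, hP3, hP4⟩ := href P hP e he (h1 ▸ hyb w) (c + 1)
        (by simp [c, hf0 rfl])
      obtain ⟨T2, hT2, Q', hQ1, hQ2, hQ3, hQ4⟩ := href Q hQ e' he' (h2 ▸ hyb w) (-c + 1)
        (by simp [c, hf1 rfl]; norm_num)
      refine ⟨T1 ∪ T2, hT1.union hT2, P', Q', hP1, hQ1, hP2.mono subset_union_left,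
        hQ2.mono subset_union_right, ⟨mix T y w, hb2 (hyb w), h1 ▸ hP4, h2 ▸ hQ4⟩, fun j hj => ?_⟩
      rcases Finset.mem_insert.1 hj with rfl | hj
      · exact ⟨c, fun t ht => (hP3 ht).2, fun t ht => (hQ3 ht).2⟩
      · obtain ⟨c', h4, h5⟩ := hPQ j hj
        exact ⟨c', fun t ht => h4 (hP3 ht).1, fun t ht => h5 (hQ3 ht).1⟩
    · exfalso
      push Not at hj
      choose eP heP1 heP2 heP3 using hex P hPc hyP
      choose eQ heQ1 heQ2 heQ3 using hex Q hQc hyQ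
      have huniq : ∀ w, ∀ e ∈ closure (E ∩ Prod.fst ⁻¹' P), e.1 = mix T y w →
          e.2 i = (eP w).2 i := fun w e he h =>
        (hj w e he _ (heQ3 w) h (heQ2 w)).trans (hj w _ (heP3 w) _ (heQ3 w) (heP2 w) (heQ2 w)).symm
      have hcont : Continuous fun w => (eP w).2 i := by
        refine continuous_iff_isClosed.2 fun C hC => ?_
        have : (fun w => (eP w).2 i) ⁻¹' C = (fun w => mix T y w) ⁻¹'
            (Prod.fst '' (closure (E ∩ Prod.fst ⁻¹' P) ∩ {e | e.2 i ∈ C})) := by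
          ext w
          constructor
          · intro h; exact ⟨eP w, ⟨heP3 w, h⟩, heP2 w⟩
          · rintro ⟨e, he, h⟩
            show (eP w).2 i ∈ C
            rw [← huniq w e he.1 h]; exact he.2
        rw [this]
        exact (isClosedMap_fst_of_compactSpace _ (isClosed_closure.inter
          (hC.preimage (f := fun e : Y κ × (Fin n → X) => e.2 i) (by fun_prop)))).preimage
          (cont_mix T continuous_const continuous_id)
      obtain ⟨Ta, hTa, hTa'⟩ := hX _ hcont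
      obtain ⟨T', hT', c, t, t', h⟩ := hb3 (T ∪ Ta) (hT.union hTa)
      have e1 : ∀ v, mix T y (mix T' y v) = mix T' y v := fun v =>
        mix_of_agr ((agr_mix T' y v).mono (subset_union_left.trans hT'))
      have h1 := (h y hy).1 _ (heP1 _) ((heP2 _).trans (e1 t))
      have h2 := (h y hy).2 _ (heP1 _) ((heP2 _).trans (e1 t'))
      have h3 := hTa' (mix T' y t) (mix T' y t') fun α hα => by
        have := hT' (Or.inr hα)
        simp [mix, this]
      rw [h3] at h1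
      simp only [ContinuousMap.neg_apply] at h2
      linarith

end Pool.Agent.TEx
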