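import Pool.Agent.Lead.TEx2

set_option autoImplicit false

open Set Topology Filter TopologicalSpace

namespace Pool.Agent.TEx

variable {κ X : Type} [TopologicalSpace X] [CompactSpace X] [T2Space X]

structure Good (F : C(X, ℝ) → Y κ → ℝ) : Prop where
  c1 : ∀ g, Continuous (F g)
  c2 : ∀ t h ε, 0 < ε → ∃ S : Finset X, ∃ δ, 0 < δ ∧
    ∀ g : C(X, ℝ), (∀ x ∈ S, |g x - h x| < δ) → |F g t - F h t| ≤ ε

def Valid (F : C(X, ℝ) → Y κ → ℝ) (h : C(X, ℝ)) (δ ε : ℝ) {n : ℕ} (t : Y κ) (A : Fin n → X) :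
    Prop :=
  ∀ g : C(X, ℝ), (∀ i, |g (A i) - h (A i)| < δ) → |F g t - F h t| ≤ ε

variable {F : C(X, ℝ) → Y κ → ℝ}

omit [CompactSpace X] [T2Space X] in
theorem valid_closed (hF : Good F) (h : C(X, ℝ)) (δ ε : ℝ) (n : ℕ) :
    IsClosed {e : Y κ × (Fin n → X) | Valid F h δ ε e.1 e.2} := by
  have : {e : Y κ × (Fin n → X) | Valid F h δ ε e.1 e.2} = ⋂ g : C(X, ℝ),
      ((⋂ i, {e : Y κ × (Fin n → X) | |g (e.2 i) - h (e.2 i)| < δ})ᶜ ∪
        {e | |F g e.1 - F h e.1| ≤ ε}) := by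
    ext e
    simp only [Valid, mem_ofPred_eq, mem_iInter, mem_union, mem_compl_iff]
    exact forall_congr' fun g => imp_iff_not_or
  rw [this]
  refine isClosed_iInter fun g => IsClosed.union (IsOpen.isClosed_compl ?_) ?_
  · exact isOpen_iInter_of_finite fun i => isOpen_lt (by fun_prop) continuous_const
  · have h1 := hF.c1 g
    have h2 := hF.c1 h
    exact isClosed_le (by fun_prop) continuous_const

omit [CompactSpace X] [T2Space X] in
theorem valid_ex [Nonempty X] (hF : Good F) (h : C(X, ℝ)) {ε : ℝ} (hε : 0 < ε) (t : Y κ) :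
    ∃ n : ℕ, ∃ A : Fin n → X, Valid F h (1 / ((n : ℝ) + 1)) ε t A := by
  classical
  obtain ⟨S, δ, hδ, hS⟩ := hF.c2 t h ε hε
  obtain ⟨m, hm⟩ := exists_nat_one_div_lt hδ
  refine ⟨m + S.card, fun i => if h : i.1 < S.card then (S.equivFin.symm ⟨i.1, h⟩).1
    else Classical.arbitrary X, fun g hg => hS g fun x hx => ?_⟩
  have h1 := hg ⟨(S.equivFin ⟨x, hx⟩).1, by have := (S.equivFin ⟨x, hx⟩).2; omega⟩
  simp only [Fin.is_lt, dite_true, Fin.eta, Equiv.symm_apply_apply] at h1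
  refine h1.trans (lt_of_le_of_lt ?_ hm)
  apply one_div_le_one_div_of_le (by positivity)
  push_cast
  have : (0 : ℝ) ≤ S.card := Nat.cast_nonneg _
  linarith

omit [T2Space X] in
theorem baire [Nonempty X] (hF : Good F) (h : C(X, ℝ)) {ε : ℝ} (hε : 0 < ε) {W : Set (Y κ)}
    (hW : IsOpen W) (hWn : W.Nonempty) : ∃ n : ℕ, ∃ U, IsOpen U ∧ U.Nonempty ∧ U ⊆ W ∧
      U ⊆ Prod.fst '' {e : Y κ × (Fin n → X) | Valid F h (1 / ((n : ℝ) + 1)) ε e.1 e.2} := by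
  have hd := dense_iUnion_interior_of_closed
    (f := fun n : ℕ => Prod.fst ''
      {e : Y κ × (Fin n → X) | Valid F h (1 / ((n : ℝ) + 1)) ε e.1 e.2})
    (fun n => isClosedMap_fst_of_compactSpace _ (valid_closed hF h _ _ n))
    (eq_univ_of_forall fun t => by
      obtain ⟨n, A, hA⟩ := valid_ex hF h hε t
      exact mem_iUnion.2 ⟨n, (t, A), hA, rfl⟩)
  obtain ⟨t, ht, ht'⟩ := hd.inter_open_nonempty W hW hWn
  obtain ⟨n, hn⟩ := mem_iUnion.1 ht'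
  exact ⟨n, _, hW.inter isOpen_interior, ⟨t, ht, hn⟩, inter_subset_left,
    inter_subset_right.trans interior_subset⟩

theorem interp (S : Set X) (hS : S.Finite) (v : X → ℝ) : ∃ g : C(X, ℝ), ∀ x ∈ S, g x = v x := by
  have := hS.to_subtype
  obtain ⟨g, hg⟩ := ContinuousMap.exists_restrict_eq hS.isClosed
    (⟨fun x => v x, continuous_of_discreteTopology⟩ : C(S, ℝ))
  exact ⟨g, fun x hx => congrArg (fun f : C(S, ℝ) => f ⟨x, hx⟩) hg⟩

theorem conflict {n m : ℕ} {h g : C(X, ℝ)} {δ δ' ε ε' : ℝ} (hδ : 0 < δ) (hδ' : 0 < δ') {t : Y κ}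
    {A : Fin n → X} {B : Fin m → X} (hA : Valid F h δ ε t A) (hB : Valid F g δ' ε' t B)
    (hAB : ∀ i j, A i = B j → |g (A i) - h (A i)| < δ) : |F g t - F h t| ≤ ε + ε' := by
  classical
  obtain ⟨k, hk⟩ := interp (range A ∪ range B) ((finite_range A).union (finite_range B))
    fun x => if x ∈ range B then g x else h x
  have h1 := hA k fun i => by
    rw [hk _ (Or.inl ⟨i, rfl⟩)]
    split_ifs with h'
    · obtain ⟨j, hj⟩ := h'
      exact hAB i j hj.symm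
    · simpa using hδ
  have h2 := hB k fun j => by
    rw [hk _ (Or.inr ⟨j, rfl⟩), if_pos ⟨j, rfl⟩]
    simpa using hδ'
  rw [abs_le] at h1 h2 ⊢
  constructor <;> linarith [h1.1, h1.2, h2.1, h2.2]

theorem claimA [Nonempty X] (hX : HX κ X) (hF : Good F) {n : ℕ} {h : C(X, ℝ)} {δ ε : ℝ}
    (hδ : 0 < δ) (hε : 0 < ε) {E : Set (Y κ × (Fin n → X))} (hE : IsClosed E)
    (hEv : ∀ e ∈ E, Valid F h δ ε e.1 e.2) {U0 : Set (Y κ)} (hUE : U0 ⊆ Prod.fst '' E)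
    (hq : QC E U0) (s : Finset (Fin n))
    (hs : ∀ i ∈ s, ∀ b : Bx κ, (box b).Nonempty → box b ⊆ U0 → ∀ T : Set κ, T.Countable →
      Split E i (box b) T) (g : C(X, ℝ)) {U : Set (Y κ)} (hU : IsOpen U) (hUn : U.Nonempty)
    (hU0 : U ⊆ U0) (hg : ∀ t ∈ U, 2 * ε < |F g t - F h t|)
    (hr : ∀ e ∈ E, e.1 ∈ U → ∀ i ∉ s, |g (e.2 i) - h (e.2 i)| < δ) : False := by
  classical
  obtain ⟨m, U1, hU1, hU1n, hU1U, hU1v⟩ := baire hF g hε hU hUn
  obtain ⟨E1, hE1, hE1c, hUE1, hq1⟩ := irred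
    {e : Y κ × ((Fin n → X) × (Fin m → X)) | (e.1, e.2.1) ∈ E ∧
      Valid F g (1 / ((m : ℝ) + 1)) ε e.1 e.2.2}
    ((hE.preimage (f := fun e : Y κ × ((Fin n → X) × (Fin m → X)) => (e.1, e.2.1))
      (by fun_prop)).inter ((valid_closed hF g _ _ m).preimage
      (f := fun e : Y κ × ((Fin n → X) × (Fin m → X)) => (e.1, e.2.2)) (by fun_prop))) U1 hU1
    (fun t ht => by
      obtain ⟨e, he, rfl⟩ := hUE (hU0 (hU1U ht))
      obtain ⟨e', he', h'⟩ := hU1v ht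
      exact ⟨(e.1, e.2, e'.2), ⟨he, h' ▸ he'⟩, rfl⟩)
  have hp : ∀ σ : Finset (Fin n × Fin m), ∃ U2, IsOpen U2 ∧ U2.Nonempty ∧ U2 ⊆ U1 ∧ ∀ p ∈ σ,
      (∀ e ∈ E1, e.1 ∈ U2 → e.2.1 p.1 = e.2.2 p.2) ∨
      (∀ e ∈ E1, ∀ e' ∈ E1, e.1 ∈ U2 → e'.1 ∈ U2 → e.2.1 p.1 ≠ e'.2.2 p.2) := fun σ => by
    induction σ using Finset.induction_on with
    | empty => exact ⟨U1, hU1, hU1n, subset_rfl, by simp⟩
    | insert p σ _ ih =>
      obtain ⟨V, h1, h2, h3, h4⟩ := ih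
      by_cases h5 : ∀ e ∈ E1, e.1 ∈ V → e.2.1 p.1 = e.2.2 p.2
      · refine ⟨V, h1, h2, h3, fun q hq => ?_⟩
        rcases Finset.mem_insert.1 hq with rfl | hq
        · exact Or.inl h5
        · exact h4 q hq
      · push Not at h5
        obtain ⟨e, he, heV, hne⟩ := h5
        obtain ⟨O1, O2, hO1, hO2, h6, h7, h8⟩ := t2_separation hne
        obtain ⟨V', h9, h10, h11, h12⟩ := (hq1.mono h1 h3 hUE1)
          ({e | e.2.1 p.1 ∈ O1} ∩ {e | e.2.2 p.2 ∈ O2})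
          ((hO1.preimage (f := fun e : Y κ × ((Fin n → X) × (Fin m → X)) => e.2.1 p.1)
            (by fun_prop)).inter (hO2.preimage
            (f := fun e : Y κ × ((Fin n → X) × (Fin m → X)) => e.2.2 p.2) (by fun_prop)))
          ⟨e, he, ⟨h6, h7⟩, heV⟩
        refine ⟨V', h9, h10, h11.trans h3, fun q hq => ?_⟩
        rcases Finset.mem_insert.1 hq with rfl | hq
        · exact Or.inr fun e he e' he' h h' heq => Set.disjoint_left.1 h8 (h12 e he h).1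
            (heq ▸ (h12 e' he' h').2)
        · exact (h4 q hq).imp (fun h e he h' => h e he (h11 h'))
            fun h e he e' he' h1 h2 => h e he e' he' (h11 h1) (h11 h2)
  obtain ⟨U2, hU2, ⟨t0, ht0⟩, hU21, hU2p⟩ := hp Finset.univ
  obtain ⟨b, hb1, hb2⟩ := basis hU2 ht0
  obtain ⟨T, -, P, Q, -, -, -, -, ⟨y, hy, hyP, hyQ⟩, hPQ⟩ := multi hX hE hUE hq s hs b ⟨t0, hb1⟩
    (hb2.trans (hU21.trans (hU1U.trans hU0)))
  choose! c hc using hPQ
  have hl : ∀ (R : Set (Y κ)) (d : Fin n → C(X, ℝ)), (∀ i ∈ s, R ⊆ Neg E i (d i)) →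
      y ∈ closure R → ∃ e ∈ E1, e.1 = y ∧ ∀ i ∈ s, d i (e.2.1 i) ≤ 0 := fun R d hd hyR => by
    refine lift_cl (P := box b ∩ R) (C := {e | ∀ i ∈ s, d i (e.2.1 i) ≤ 0}) ?_ (fun t ht => ?_)
      hE1c ((box_open b).inter_closure ⟨hy, hyR⟩)
    · simp only [Set.ofPred_forall]
      exact isClosed_iInter fun i => isClosed_iInter fun _ =>
        isClosed_le (by fun_prop) continuous_const
    · obtain ⟨e, he, rfl⟩ := hUE1 (hU21 (hb2 ht.1))
      exact ⟨e, he, rfl, fun i hi => (hd i hi ht.2 _ (hE1 he).1 rfl).le⟩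
  obtain ⟨e, he, hey, hec⟩ := hl P _ (fun i hi => (hc i hi).1) hyP
  obtain ⟨e', he', hey', hec'⟩ := hl Q _ (fun i hi => (hc i hi).2) hyQ
  have hyU : y ∈ U := hU1U (hU21 (hb2 hy))
  have h1 : Valid F h δ ε y e.2.1 := hey ▸ hEv _ (hE1 he).1
  have h2 : Valid F g (1 / ((m : ℝ) + 1)) ε y e'.2.2 := hey' ▸ (hE1 he').2
  have h3 := conflict hδ (by positivity) h1 h2 fun i j hij => by
    by_cases hi : i ∈ s
    · exfalso
      rcases hU2p (i, j) (Finset.mem_univ _) with h4 | h4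
      · have h5 := hec i hi
        have h6 := hec' i hi
        rw [h4 e' he' (hey' ▸ hb2 hy), ← hij] at h6
        simp only [ContinuousMap.add_apply, ContinuousMap.neg_apply, ContinuousMap.one_apply]
          at h5 h6
        linarith
      · exact h4 e he e' he' (hey ▸ hb2 hy) (hey' ▸ hb2 hy) hij
    · exact hr _ (hE1 he).1 (hey ▸ hyU) i hi
  linarith [hg y hyU]

theorem exmax {α : Type} (s : Set α) (f : α → ℕ) (N : ℕ) (hb : ∀ a ∈ s, f a ≤ N)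
    (hne : s.Nonempty) : ∃ a ∈ s, ∀ b ∈ s, f b ≤ f a := by
  have h1 : BddAbove (f '' s) := ⟨N, by rintro _ ⟨a, ha, rfl⟩; exact hb a ha⟩
  obtain ⟨a, ha, h⟩ := Nat.sSup_mem (hne.image f) h1
  exact ⟨a, ha, fun b hb => h ▸ le_csSup h1 ⟨b, hb, rfl⟩⟩

theorem key [Nonempty X] (hX : HX κ X) (hF : Good F) (h : C(X, ℝ)) {ε : ℝ} (hε : 0 < ε)
    {W : Set (Y κ)} (hW : IsOpen W) (hWn : W.Nonempty) :
    ∃ (n : ℕ) (b : Bx κ) (T : Set κ), (box b).Nonempty ∧ box b ⊆ W ∧ T.Countable ∧ ↑b.1 ⊆ T ∧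
      ∀ t ∈ box b, ∃ A : Fin n → X, ∀ t', Agr T t t' →
        Valid F h (1 / ((n : ℝ) + 1)) (2 * ε) t' A := by
  classical
  obtain ⟨n, U, hU, ⟨t0, ht0⟩, hUW, hUv⟩ := baire hF h hε hW hWn
  obtain ⟨E, hE, hEc, hUE, hq⟩ := irred _ (valid_closed hF h _ ε n) U hU hUv
  let r : Bx κ → Finset (Fin n) := fun b =>
    Finset.univ.filter fun i => ∃ T : Set κ, T.Countable ∧ ¬ Split E i (box b) T
  have hmono : ∀ b b', box b' ⊆ box b → r b ⊆ r b' := fun b b' hb i hi => by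
    obtain ⟨T, h1, h2⟩ := (Finset.mem_filter.1 hi).2
    exact Finset.mem_filter.2 ⟨Finset.mem_univ _, T, h1, fun ⟨c, t, ht, t', ht', h3⟩ =>
      h2 ⟨c, t, hb ht, t', hb ht', h3⟩⟩
  obtain ⟨b0, hb0, hb0'⟩ := basis hU ht0
  obtain ⟨b, ⟨hb1, hb2⟩, hmax⟩ := exmax {b : Bx κ | (box b).Nonempty ∧ box b ⊆ U}
    (fun b => (r b).card) _ (fun b _ => Finset.card_le_univ _) ⟨b0, ⟨t0, hb0⟩, hb0'⟩
  have hT : ∀ i, ∃ T : Set κ, T.Countable ∧ (i ∈ r b → ¬ Split E i (box b) T) := fun i => by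
    by_cases hi : i ∈ r b
    · obtain ⟨T, h1, h2⟩ := (Finset.mem_filter.1 hi).2
      exact ⟨T, h1, fun _ => h2⟩
    · exact ⟨∅, countable_empty, fun h => absurd h hi⟩
  choose T hT hT' using hT
  let T' : Set κ := (⋃ i, T i) ∪ b.1
  have hbc : Cyl T' (box b) := (box_cyl b).mono subset_union_right
  refine ⟨n, b, T', hb1, hb2.trans hUW, (countable_iUnion hT).union b.1.countable_toSet,
    subset_union_right, fun t ht => ?_⟩
  obtain ⟨e, he, rfl⟩ := hUE (hb2 ht)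
  refine ⟨e.2, fun t' htt' g hg => ?_⟩
  by_contra hcon
  have hq' := hq.mono (box_open b) hb2 hUE
  let N : Set (Y κ) := {u | 2 * ε < |F g u - F h u|}
  have hN : IsOpen N := by
    have h1 := hF.c1 g
    have h2 := hF.c1 h
    exact isOpen_lt continuous_const (by fun_prop)
  let c : Fin n → C(X, ℝ) := fun i => ⟨fun x => |g x - h x| -
    (|g (e.2 i) - h (e.2 i)| + 1 / ((n : ℝ) + 1)) / 2, by fun_prop⟩
  obtain ⟨U0, hU0, ⟨u, hu⟩, hU0b, hU0c⟩ := hq'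
    ((⋂ i, {e' | c i (e'.2 i) < 0}) ∩ {e' | mix T' e'.1 t' ∈ N})
    ((isOpen_iInter_of_finite fun i => isOpen_lt (by fun_prop) continuous_const).inter
      (hN.preimage (cont_mix T' continuous_fst continuous_const)))
    ⟨e, he, ⟨mem_iInter.2 fun i => by
      show |g (e.2 i) - h (e.2 i)| - _ < 0
      linarith [hg i], by
      show mix T' e.1 t' ∈ N
      rw [mix_of_agr htt']; exact not_le.1 hcon⟩, ht⟩
  let U1 := (N ∩ box b) ∩ (fun v => mix T' v u) ⁻¹' U0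
  have hU1 : IsOpen U1 := (hN.inter (box_open b)).inter
    (hU0.preimage (cont_mix T' continuous_id continuous_const))
  refine claimA hX hF (by positivity) hε hEc (fun e he => hE he) (hb2.trans hUE) hq' (r b)ᶜ
    (fun i hi b' h1 h2 T0 hT0 => ?_) g hU1 ⟨mix T' u t', ⟨?_, ?_⟩, ?_⟩
    (fun v hv => hv.1.2) (fun v hv => hv.1.1) fun e' he' he'U i hi => ?_
  · by_contra h3
    have h4 : r b = r b' := Finset.eq_of_subset_of_card_le (hmono b b' h2)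
      (hmax b' ⟨h1, h2.trans hb2⟩)
    exact Finset.mem_compl.1 hi (h4 ▸ Finset.mem_filter.2 ⟨Finset.mem_univ _, T0, hT0, h3⟩)
  · obtain ⟨e', he', rfl⟩ := hUE (hb2 (hU0b hu))
    exact (hU0c e' he' hu).2
  · exact hbc _ _ (agr_mix T' u t') (hU0b hu)
  · show mix T' (mix T' u t') u ∈ U0
    rwa [mix_mix, mix_self]
  · have hi : i ∈ r b := by simpa using hi
    have h1 : c i (e'.2 i) ≤ 0 := by
      by_contra h2
      obtain ⟨V, -, ⟨v, hv⟩, h3, h4⟩ := hq' ({e | (-c i) (e.2 i) < 0} ∩ Prod.fst ⁻¹' U1)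
        ((isOpen_lt (by fun_prop) continuous_const).inter (hU1.preimage continuous_fst))
        ⟨e', he', ⟨by simpa using h2, he'U⟩, he'U.1.2⟩
      obtain ⟨e2, he2, rfl⟩ := hUE (hb2 (h3 hv))
      have h5 := (h4 e2 he2 hv).2
      refine hT' i hi ⟨c i, mix T' e2.1 u, hU0b h5.2, e2.1, h3 hv, ((agr_mix T' e2.1 u).symm).mono
        ((subset_iUnion T i).trans subset_union_left), fun e3 he3 h6 => ?_,
        fun e3 he3 h6 => (h4 e3 he3 (h6 ▸ hv)).1⟩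
      exact mem_iInter.1 (hU0c e3 he3 (h6 ▸ h5.2)).1 i
    have h2 : |g (e'.2 i) - h (e'.2 i)| -
      (|g (e.2 i) - h (e.2 i)| + 1 / ((n : ℝ) + 1)) / 2 ≤ 0 := h1
    linarith [hg i]

end Pool.Agent.TEx
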