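import Pool.Agent.Lead.TEx3

set_option autoImplicit false

open Set Topology Filter TopologicalSpace

namespace Pool.Agent.TEx

variable {κ : Type}

section large
variable {𝒟 : Type} {S : 𝒟 → Finset κ} {A : Set 𝒟}

def Large (S : 𝒟 → Finset κ) (A : Set 𝒟) : Prop :=
  ∀ T : Set κ, T.Countable → ∃ d ∈ A, ∀ α ∈ S d, α ∉ T

theorem Large.mono {B : Set 𝒟} (h : Large S A) (hs : A ⊆ B) : Large S B := fun T hT =>
  let ⟨d, h1, h2⟩ := h T hT
  ⟨d, hs h1, h2⟩

theorem Large.avoid (hA : Large S A) {β : Type} (C : β → Set 𝒟) {I : Set β} (hI : I.Countable)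
    (h : ∀ i ∈ I, ¬ Large S (A ∩ C i)) {T : Set κ} (hT : T.Countable) :
    ∃ d ∈ A, (∀ α ∈ S d, α ∉ T) ∧ ∀ i ∈ I, d ∉ C i := by
  have h1 : ∀ i, ∃ T : Set κ, T.Countable ∧ (i ∈ I → ¬ ∃ d ∈ A ∩ C i, ∀ α ∈ S d, α ∉ T) :=
    fun i => by
      by_cases hi : i ∈ I
      · obtain ⟨T, hT⟩ := not_forall.1 (h i hi)
        exact ⟨T, (Classical.not_imp.1 hT).1, fun _ => (Classical.not_imp.1 hT).2⟩
      · exact ⟨∅, countable_empty, fun h => absurd h hi⟩
  choose f hf hf' using h1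
  obtain ⟨d, hd, hd'⟩ := hA (T ∪ ⋃ i ∈ I, f i) (hT.union (hI.biUnion fun i _ => hf i))
  exact ⟨d, hd, fun α hα h => hd' α hα (Or.inl h), fun i hi hc =>
    hf' i hi ⟨d, ⟨hd, hc⟩, fun α hα h => hd' α hα (Or.inr (mem_biUnion hi h))⟩⟩

theorem Large.cover (hA : Large S A) {ι : Type} [Countable ι] (B : ι → Set 𝒟)
    (h : ∀ d ∈ A, ∃ i, d ∈ B i) : ∃ i, Large S (A ∩ B i) := by
  by_contra hc
  obtain ⟨d, h1, -, h2⟩ := hA.avoid B countable_univ (fun i _ h => hc ⟨i, h⟩) countable_empty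
  obtain ⟨i, hi⟩ := h d h1
  exact h2 i trivial hi

theorem Large.root (hA : Large S A) {β : Type} (H : 𝒟 → Finset β) :
    ∃ R : Finset β, ∃ A' ⊆ A, Large S A' ∧ (∀ d ∈ A', R ⊆ H d) ∧
      ∀ x ∉ R, ¬ Large S (A' ∩ {d | x ∈ H d}) := by
  classical
  obtain ⟨m, hm⟩ := hA.cover (fun m : ℕ => {d | (H d).card = m}) fun d _ => ⟨_, rfl⟩
  obtain ⟨R, hR, hmax⟩ := exmax
    {R : Finset β | Large S ((A ∩ {d | (H d).card = m}) ∩ {d | R ⊆ H d})} Finset.card m
    (fun R hR => by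
      obtain ⟨d, hd, -⟩ := hR ∅ countable_empty
      exact (Finset.card_le_card hd.2).trans hd.1.2.le)
    ⟨∅, hm.mono fun d hd => ⟨hd, Finset.empty_subset _⟩⟩
  refine ⟨R, _, fun d hd => hd.1.1, hR, fun d hd => hd.2, fun x hx h => ?_⟩
  have := hmax (insert x R) (h.mono fun d hd => ⟨hd.1.1, Finset.insert_subset hd.2 hd.1.2⟩)
  rw [Finset.card_insert_of_notMem hx] at this
  omega

theorem Large.fam (hA : Large S A) (G : 𝒟 → Finset κ) (V : 𝒟 → Set (Y κ))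
    (h : ∀ d ∈ A, S d ⊆ G d ∧ (S d).Nonempty ∧ IsOpen (V d) ∧ (V d).Nonempty ∧ Cyl (G d) (V d)) :
    ∃ t, ∃ M ⊆ A, Large S M ∧ (∀ d ∈ M, t ∈ V d) ∧
      ∀ d ∈ M, ∀ d' ∈ M, d ≠ d' → ∀ α ∈ S d', α ∉ G d := by
  classical
  obtain ⟨R, A1, hA1, hL1, -, hR⟩ := hA.root G
  obtain ⟨k, hk⟩ := hL1.cover (fun k : R → ℕ =>
    {d | ∃ v ∈ V d, ∀ α : R, v α = denseSeq unitInterval (k α)}) fun d hd => by
      obtain ⟨-, -, h1, ⟨v, hv⟩, -⟩ := h d (hA1 hd)
      let ψ : (R → unitInterval) → Y κ := fun z α => if h : α ∈ R then z ⟨α, h⟩ else v α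
      have hψ : Continuous ψ := continuous_pi fun α => by
        by_cases hα : α ∈ R
        · simp only [ψ, hα, dite_true]; exact continuous_apply _
        · simp only [ψ, hα, dite_false]; exact continuous_const
      obtain ⟨k, hk⟩ := (DenseRange.piMap fun _ : R => denseRange_denseSeq unitInterval).exists_mem_open
        (h1.preimage hψ) ⟨R.restrict v, by
          have : ψ (R.restrict v) = v := funext fun α => by
            by_cases hα : α ∈ R <;> simp [ψ, hα]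
          show ψ _ ∈ V d
          rwa [this]⟩
      exact ⟨k, _, hk, fun α => by simp [ψ]⟩
  let A3 := (A1 ∩ {d | ∃ v ∈ V d, ∀ α : R, v α = denseSeq unitInterval (k α)}) ∩
    {d | ∀ α ∈ S d, α ∉ R}
  have hL3 : Large S A3 := fun T hT => by
    obtain ⟨d, h1, h2⟩ := hk (T ∪ R) (hT.union R.countable_toSet)
    exact ⟨d, ⟨h1, fun α hα h => h2 α hα (Or.inr h)⟩, fun α hα h => h2 α hα (Or.inl h)⟩
  obtain ⟨M, hM⟩ := zorn_subset {M : Set 𝒟 | M ⊆ A3 ∧
      M.Pairwise fun d d' => ∀ α ∈ G d, α ∉ R → α ∉ G d'} fun c hc hch =>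
    ⟨⋃₀ c, ⟨sUnion_subset fun M hM => (hc hM).1,
      (pairwise_sUnion hch.directedOn).2 fun M hM => (hc hM).2⟩,
      fun M hM => subset_sUnion_of_mem hM⟩
  have hMA : M ⊆ A := fun d hd => hA1 (hM.prop.1 hd).1.1
  have hdis : ∀ d ∈ M, ∀ d' ∈ M, d ≠ d' → ∀ α ∈ S d', α ∉ G d := fun d hd d' hd' hne α hα =>
    hM.prop.2 hd' hd hne.symm α ((h d' (hMA hd')).1 hα) ((hM.prop.1 hd').2 α hα)
  have hv : ∀ d, ∃ v, d ∈ M → v ∈ V d ∧ ∀ α : R, v α = denseSeq unitInterval (k α) := fun d => by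
    by_cases hd : d ∈ M
    · obtain ⟨v, h1, h2⟩ := (hM.prop.1 hd).1.2
      exact ⟨v, fun _ => ⟨h1, h2⟩⟩
    · exact ⟨fun _ => 0, fun h => absurd h hd⟩
  choose v hv using hv
  refine ⟨fun α => if h : ∃ d ∈ M, α ∈ G d then v h.choose α else 0, M, hMA, fun T hT => ?_,
    fun d hd => ?_, hdis⟩
  · by_contra hc
    push Not at hc
    have : Nonempty κ := by
      obtain ⟨d, hd, -⟩ := hA ∅ countable_empty
      exact ⟨(h d hd).2.1.choose⟩
    choose! a ha ha' using hc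
    have hMc : M.Countable := by
      refine MapsTo.countable_of_injOn (f := a) (t := T) ha' (fun d hd d' hd' he => ?_) hT
      by_contra hne
      exact hdis d hd d' hd' hne _ (ha d' hd') (he ▸ (h d (hMA hd)).1 (ha d hd))
    have hT' : (⋃ d ∈ M, (G d : Set κ)).Countable := hMc.biUnion fun d _ => (G d).countable_toSet
    obtain ⟨d, h1, h2, h3⟩ := hL3.avoid (fun x => {d | x ∈ G d})
      (hT'.mono (sdiff_subset (t := (R : Set κ))))
      (fun x hx hl => hR x hx.2 (hl.mono fun d hd => ⟨hd.1.1.1, hd.2⟩)) hT'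
    have h4 : insert d M ⊆ M := hM.le_of_ge (y := insert d M) ⟨insert_subset h1 hM.prop.1,
      hM.prop.2.insert fun d' hd' _ => ⟨fun α hα hR' hα' => h3 α ⟨mem_biUnion hd' hα', hR'⟩ hα,
        fun α hα hR' hα' => h3 α ⟨mem_biUnion hd' hα, hR'⟩ hα'⟩⟩ (subset_insert _ _)
    have hd := h4 (mem_insert _ _)
    obtain ⟨α, hα⟩ := (h d (hMA hd)).2.1
    exact h2 α hα (mem_biUnion hd ((h d (hMA hd)).1 hα))
  · refine (h d (hMA hd)).2.2.2.2 (v d) _ (fun α hα => ?_) (hv d hd).1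
    have h1 : ∃ d ∈ M, α ∈ G d := ⟨d, hd, hα⟩
    rw [dif_pos h1]
    by_cases hαR : α ∈ R
    · exact ((hv d hd).2 ⟨α, hαR⟩).trans ((hv _ h1.choose_spec.1).2 ⟨α, hαR⟩).symm
    · by_contra hne
      exact hM.prop.2 hd h1.choose_spec.1 (fun h => hne (h ▸ rfl)) α hα hαR h1.choose_spec.2

end large

theorem splits {C : Type} {F : C → Y κ → ℝ} (hF : ∀ g, Continuous (F g))
    (h : ¬ ∃ T : Set κ, T.Countable ∧ ∀ g t t', Agr T t t' → F g t = F g t') (T : Set κ)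
    (hT : T.Countable) : ∃ (g : C) (a b : ℚ) (S : Finset κ) (u : Y κ) (W : Set (Y κ)),
      (a : ℝ) < b ∧ (∀ α ∈ S, α ∉ T) ∧ S.Nonempty ∧ IsOpen W ∧ W.Nonempty ∧
      ∀ t ∈ W, F g t < a ∧ b < F g (mix S u t) := by
  classical
  obtain ⟨g, t, t', h1, h2⟩ : ∃ g t t', Agr T t t' ∧ F g t < F g t' := by
    push Not at h
    obtain ⟨g, t, t', h1, h2⟩ := h T hT
    rcases lt_or_gt_of_ne h2 with h | h
    · exact ⟨g, t, t', h1, h⟩
    · exact ⟨g, t', t, h1.symm, h⟩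
  obtain ⟨a, ha1, ha2⟩ := exists_rat_btwn h2
  obtain ⟨b, hb1, hb2⟩ := exists_rat_btwn ha2
  obtain ⟨B, hB1, hB2⟩ := basis (isOpen_lt continuous_const (hF g)) (t := t') hb2
  have h3 : (b : ℝ) < F g (mix (B.1.filter (· ∉ T) : Finset κ) t' t) := by
    refine hB2 (box_cyl B t' _ (fun α hα => ?_) hB1)
    by_cases h : α ∈ T
    · simp [mix, h, h1 α h]
    · have : α ∈ B.1 := hα
      simp [mix, h, this]
  refine ⟨g, a, b, B.1.filter (· ∉ T), t', _, hb1, fun α hα => (Finset.mem_filter.1 hα).2, ?_,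
    (isOpen_lt (hF g) continuous_const).inter (isOpen_lt continuous_const
      ((hF g).comp (cont_mix _ continuous_const continuous_id))), ⟨t, ha1, h3⟩, fun t ht => ht⟩
  by_contra h4
  rw [Finset.not_nonempty_iff_eq_empty.1 h4,
    show mix ((∅ : Finset κ) : Set κ) t' t = t from funext fun α => by simp [mix]] at h3
  linarith

variable {X : Type} [TopologicalSpace X] [CompactSpace X] [T2Space X]

theorem main [Nonempty X] (hX : HX κ X) {F : C(X, ℝ) → Y κ → ℝ} (hF : Good F) :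
    ∃ T : Set κ, T.Countable ∧ ∀ g t t', Agr T t t' → F g t = F g t' := by
  classical
  by_contra hc
  let 𝒟 := C(X, ℝ) × Finset κ × Y κ × Bx κ × Set κ
  let S : 𝒟 → Finset κ := fun d => d.2.1
  let P : ℕ × ℚ × ℚ → Set 𝒟 := fun p => {d | (p.2.1 : ℝ) < p.2.2 ∧ (S d).Nonempty ∧
    (box d.2.2.2.1).Nonempty ∧ d.2.2.2.2.Countable ∧ ↑d.2.2.2.1.1 ⊆ d.2.2.2.2 ∧
    (∀ t ∈ box d.2.2.2.1, F d.1 t < p.2.1 ∧ p.2.2 < F d.1 (mix (S d) d.2.2.1 t)) ∧
    ∀ t ∈ box d.2.2.2.1, ∃ A : Fin p.1 → X, ∀ t', Agr d.2.2.2.2 t t' →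
      Valid F d.1 (1 / ((p.1 : ℝ) + 1)) (2 * (((p.2.2 : ℝ) - p.2.1) / 4)) t' A}
  have h0 : Large S {d | ∃ p, d ∈ P p} := fun T hT => by
    obtain ⟨g, a, b, S0, u, W, h1, h2, h3, h4, h5, h6⟩ := splits hF.c1 hc T hT
    obtain ⟨n, B, T', h7, h8, h9, h10, h11⟩ := key hX hF g (ε := ((b : ℝ) - a) / 4)
      (by linarith) h4 h5
    exact ⟨(g, S0, u, B, T'), ⟨(n, a, b), h1, h3, h7, h9, h10, fun t ht => h6 t (h8 ht), h11⟩, h2⟩
  obtain ⟨⟨n, a, b⟩, h1⟩ := h0.cover P fun d hd => hd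
  obtain ⟨t, M, hM, hLM, htM, -⟩ := h1.fam (fun d => d.2.2.2.1.1 ∪ S d) (fun d => box d.2.2.2.1)
    fun d hd => ⟨Finset.subset_union_right, hd.2.2.1, box_open _, hd.2.2.2.1,
      (box_cyl _).mono (by simp)⟩
  choose! A hA using fun d (hd : d ∈ M) => (hM hd).2.2.2.2.2.2.2 t (htM d hd)
  obtain ⟨R, M1, hM1, hL1, -, hR⟩ := hLM.root fun d => Finset.univ.image (A d)
  have hδ : (0 : ℝ) < 1 / ((n : ℝ) + 1) := by positivity
  obtain ⟨q, hL2⟩ := hL1.cover
    (fun q : R → ℚ => {d | ∀ x : R, |d.1 x - q x| < 1 / ((n : ℝ) + 1) / 2}) fun d _ => by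
      choose q hq using fun x : R => exists_rat_near (d.1 x) (half_pos hδ)
      exact ⟨q, hq⟩
  obtain ⟨f, hf, hf'⟩ := exists_seq_of_forall_finset_exists
    (fun d => d ∈ M1 ∩ {d | ∀ x : R, |d.1 x - q x| < 1 / ((n : ℝ) + 1) / 2})
    (fun d d' => ∀ x ∈ Finset.univ.image (A d), x ∉ R → x ∉ Finset.univ.image (A d'))
    fun s _ => by
      obtain ⟨d, h2, -, h3⟩ := hL2.avoid (fun x => {d | x ∈ Finset.univ.image (A d)})
        (((s.biUnion fun d => Finset.univ.image (A d)).countable_toSet).mono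
          (sdiff_subset (t := (R : Set X))))
        (fun x hx hl => hR x hx.2 (hl.mono fun d hd => ⟨hd.1.1, hd.2⟩)) countable_empty
      exact ⟨d, h2, fun d' hd' x hx hxR => h3 x ⟨Finset.mem_biUnion.2 ⟨d', hd', hx⟩, hxR⟩⟩
  have hfM : ∀ j, f j ∈ M := fun j => hM1 (hf j).1
  obtain ⟨z, hz, hz'⟩ := hL2 (⋃ j, (f j).2.2.2.2)
    (countable_iUnion fun j => (hM (hfM j)).2.2.2.2.1)
  have hzM := hM1 hz.1
  have hab : (a : ℝ) < b := (hM hzM).2.1
  let t' := mix (S z) z.2.2.1 t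
  have hag : ∀ j, Agr (f j).2.2.2.2 t t' := fun j α hα => by
    have : α ∉ S z := fun h => hz' α h (mem_iUnion.2 ⟨j, hα⟩)
    simp [t', mix, this]
  obtain ⟨m, B, hB⟩ := valid_ex hF z.1 (ε := ((b : ℝ) - a) / 4) (by linarith) t'
  obtain ⟨j, hj⟩ : ∃ j, j ∉ ⋃ x ∈ range B, {j | x ∉ R ∧ x ∈ Finset.univ.image (A (f j))} := by
    refine Set.Finite.exists_notMem ((finite_range B).biUnion fun x _ => Subsingleton.finite ?_)
    intro j hj j' hj'
    rcases lt_trichotomy j j' with h | h | h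
    · exact absurd hj'.2 (hf' j j' h x hj.2 hj.1)
    · exact h
    · exact absurd hj.2 (hf' j' j h x hj'.2 hj.1)
  have h2 := conflict hδ (by positivity) (hA _ (hfM j) t' (hag j)) hB fun i i' h => by
    have hx : A (f j) i ∈ R := by
      by_contra h'
      exact hj (mem_biUnion (⟨i', h.symm⟩ : A (f j) i ∈ range B) ⟨h', by simp⟩)
    have h3 := abs_lt.1 (hz.2 ⟨_, hx⟩)
    have h4 := abs_lt.1 ((hf j).2 ⟨_, hx⟩)
    rw [abs_lt]
    constructor <;> linarith [h3.1, h3.2, h4.1, h4.2]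
  have h3 : (b : ℝ) < F z.1 t' := ((hM hzM).2.2.2.2.2.2.1 t (htM z hzM)).2
  have h4 : F (f j).1 t' < a := ((hM (hfM j)).2.2.2.2.2.2.1 t'
    ((box_cyl _).mono (hM (hfM j)).2.2.2.2.2.1 t t' (hag j) (htM _ (hfM j)))).1
  have := (abs_le.1 h2).2
  linarith

theorem cube_of_not (hX : ¬ HX κ X) (I : Type) (hI : Cardinal.mk I = Cardinal.aleph 1) :
    ∃ h : (I → Bool) → X, IsEmbedding h := by
  classical
  obtain ⟨a, ha, hc⟩ : ∃ a : Y κ → X, Continuous a ∧
      ¬ ∃ T : Set κ, T.Countable ∧ ∀ w w', Agr T w w' → a w = a w' := by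
    by_contra h
    exact hX fun a ha => by_contra fun h' => h ⟨a, ha, h'⟩
  have hc' : ¬ ∃ T : Set κ, T.Countable ∧ ∀ (g : C(X, ℝ)) t t', Agr T t t' →
      g (a t) = g (a t') := fun ⟨T, h1, h2⟩ => hc ⟨T, h1, fun w w' h => by
    by_contra hne
    obtain ⟨f, hf0, hf1, -⟩ := exists_continuous_zero_one_of_isClosed
      (isClosed_singleton (x := a w)) (isClosed_singleton (x := a w')) (disjoint_singleton.2 hne)
    have := h2 f w w' h
    rw [hf0 rfl, hf1 rfl] at this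
    exact zero_ne_one this⟩
  let 𝒟 := C(X, ℝ) × Finset κ × Y κ × Bx κ × ℝ
  let S : 𝒟 → Finset κ := fun d => d.2.1
  have h0 : Large S {d | (S d).Nonempty ∧ (box d.2.2.2.1).Nonempty ∧
      ∀ t ∈ box d.2.2.2.1, d.1 (a t) < d.2.2.2.2 ∧ d.2.2.2.2 < d.1 (a (mix (S d) d.2.2.1 t))} :=
    fun T hT => by
      obtain ⟨g, p, q, S0, u, W, h1, h2, h3, h4, ⟨t, ht⟩, h6⟩ :=
        splits (F := fun (g : C(X, ℝ)) t => g (a t)) (fun g => g.continuous.comp ha) hc' T hT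
      obtain ⟨B, hB1, hB2⟩ := basis h4 ht
      exact ⟨(g, S0, u, B, p), ⟨h3, ⟨t, hB1⟩, fun t ht =>
        ⟨(h6 t (hB2 ht)).1, h1.trans (h6 t (hB2 ht)).2⟩⟩, h2⟩
  obtain ⟨t, M, hM, hLM, htM, hdis⟩ := h0.fam (fun d => d.2.2.2.1.1 ∪ S d)
    (fun d => box d.2.2.2.1) fun d hd => ⟨Finset.subset_union_right, hd.1, box_open _, hd.2.1,
      (box_cyl _).mono (by simp)⟩
  have hMc : ¬ M.Countable := fun h => by
    obtain ⟨d, h1, h2⟩ := hLM (⋃ d ∈ M, (S d : Set κ)) (h.biUnion fun d _ => (S d).countable_toSet)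
    obtain ⟨α, hα⟩ := (hM h1).1
    exact h2 α hα (mem_biUnion h1 hα)
  obtain ⟨ι⟩ : Nonempty (I ↪ M) := by
    rw [← Cardinal.le_def, hI]
    exact not_lt.1 fun h => hMc (Cardinal.le_aleph0_iff_set_countable.1
      (Order.lt_succ_iff.1 (by rwa [Cardinal.succ_aleph0])))
  have huniq : ∀ i i' α, α ∈ S (ι i) → α ∈ S (ι i') ∪ (ι i').1.2.2.2.1.1 → i = i' :=
    fun i i' α h h' => by
      by_contra hne
      refine hdis _ (ι i').2 _ (ι i).2 (fun h => hne (ι.injective (Subtype.ext h.symm))) α h ?_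
      rwa [Finset.union_comm]
  let τ : (I → Bool) → Y κ := fun s α => if h : ∃ i, α ∈ S (ι i) then
    (if s h.choose = true then (ι h.choose).1.2.2.1 α else t α) else t α
  have hτ : Continuous τ := continuous_pi fun α => by
    by_cases h : ∃ i, α ∈ S (ι i)
    · simp only [τ, h, dite_true]
      exact (continuous_of_discreteTopology (f := fun b : Bool =>
        if b = true then (ι h.choose).1.2.2.1 α else t α)).comp (continuous_apply h.choose)
    · simp only [τ, h, dite_false]; exact continuous_const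
  have hF : ∀ s i, s i = false → τ s ∈ box (ι i).1.2.2.2.1 := fun s i hs =>
    box_cyl _ t _ (fun α hα => by
      by_cases h : ∃ i, α ∈ S (ι i)
      · have := huniq _ i α h.choose_spec (Finset.mem_union_right _ hα)
        simp [τ, h, this, hs]
      · simp only [τ, h, dite_false]) (htM _ (ι i).2)
  have hT : ∀ s i, s i = true →
      τ s = mix (S (ι i)) (ι i).1.2.2.1 (τ (Function.update s i false)) := fun s i hs => by
    funext α
    by_cases hα : α ∈ S (ι i)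
    · have h : ∃ i, α ∈ S (ι i) := ⟨i, hα⟩
      have := huniq _ i α h.choose_spec (Finset.mem_union_left _ hα)
      simp [τ, h, this, hs, mix, hα]
    · by_cases h : ∃ i, α ∈ S (ι i)
      · have : h.choose ≠ i := fun h' => hα (h' ▸ h.choose_spec)
        simp [τ, h, this, mix, hα]
      · simp only [τ, h, dite_false, mix, Finset.mem_coe, hα, if_false]
  have hne : ∀ s s' i, s i = false → s' i = true → a (τ s) ≠ a (τ s') := fun s s' i h h' he => by
    have h1 := ((hM (ι i).2).2.2 _ (hF s i h)).1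
    have h2 := ((hM (ι i).2).2.2 _ (hF (Function.update s' i false) i (by simp))).2
    rw [← hT s' i h', ← he] at h2
    linarith
  refine ⟨a ∘ τ, ((ha.comp hτ).isClosedEmbedding fun s s' h => funext fun i => ?_).isEmbedding⟩
  cases h1 : s i <;> cases h2 : s' i
  · rfl
  · exact absurd h (hne s s' i h1 h2)
  · exact absurd h.symm (hne s' s i h2 h1)
  · rfl

end Pool.Agent.TEx
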