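import Mathlib

set_option autoImplicit false

namespace Pool.Agent.TEx

/-- `C_p(X)`: continuous real functions with the topology of pointwise convergence. -/
abbrev Cp (X : Type) [TopologicalSpace X] : Type := {f : X → ℝ // Continuous f}

/-- `X` is t-extral: it is t-embedded in every Tychonoff space containing it as a closed
subspace. -/
def TExtral (X : Type) [TopologicalSpace X] : Prop :=
  ∀ (Z : Type) [TopologicalSpace Z] [T35Space Z] (e : X → Z), Topology.IsClosedEmbedding e →
    ∃ φ : Cp X → Cp Z, Continuous φ ∧ ∀ (f : Cp X) (x : X), (φ f).1 (e x) = f.1 x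

/-- `X` is t-extendial: every closed subspace of `X` is t-embedded in `X`. -/
def TExtendial (X : Type) [TopologicalSpace X] : Prop :=
  ∀ K : Set X, IsClosed K →
    ∃ φ : Cp K → Cp X, Continuous φ ∧ ∀ (f : Cp K) (x : K), (φ f).1 x = f.1 x

/-- `X` has countable tightness. -/
def CTight (X : Type) [TopologicalSpace X] : Prop :=
  ∀ (A : Set X) (x : X), x ∈ closure A → ∃ B ⊆ A, B.Countable ∧ x ∈ closure B

end Pool.Agent.TEx
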