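import Pool.Agent.Lead.TEx4
import Pool.Agent.Lead.TExDefs

set_option autoImplicit false

open Set Topology Filter TopologicalSpace

namespace Pool.Agent.TEx

variable {κ X : Type} [TopologicalSpace X]

theorem good_of (φ : Cp X → Cp (Y κ)) (hφ : Continuous φ) :
    Good fun (g : C(X, ℝ)) (t : Y κ) => (φ ⟨g, g.continuous⟩).1 t := by
  refine ⟨fun g => (φ _).2, fun t h ε hε => ?_⟩
  have hc : Continuous fun f : Cp X => (φ f).1 t :=
    (continuous_apply t).comp (continuous_subtype_val.comp hφ)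
  have h1 : {f : Cp X | |(φ f).1 t - (φ ⟨h, h.continuous⟩).1 t| < ε} ∈ 𝓝 ⟨h, h.continuous⟩ :=
    (isOpen_lt (by fun_prop) continuous_const).mem_nhds (by simpa using hε)
  obtain ⟨V, hV, hV'⟩ := (mem_nhds_subtype _ _ _).1 h1
  rw [nhds_pi, Filter.mem_pi] at hV
  obtain ⟨I, hI, u, hu, hs⟩ := hV
  have h2 : ∀ᶠ δ in 𝓝[>] (0 : ℝ), ∀ x ∈ I, Metric.ball (h x) δ ⊆ u x :=
    (eventually_all_finite hI).2 fun x _ => by
      obtain ⟨η, h3, h4⟩ := Metric.mem_nhds_iff.1 (hu x)
      filter_upwards [Ioo_mem_nhdsGT h3] with δ hδ using (Metric.ball_subset_ball hδ.2.le).trans h4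
  obtain ⟨δ, h3, h4⟩ := (h2.and self_mem_nhdsWithin).exists
  refine ⟨hI.toFinset, δ, h4, fun g hg => le_of_lt (hV' (a := ⟨g, g.continuous⟩) (hs ?_))⟩
  exact fun x hx => h3 x hx (hg x (hI.mem_toFinset.2 hx))

theorem main' [CompactSpace X] [T2Space X] [Nonempty X] (hX : HX κ X) (φ : Cp X → Cp (Y κ))
    (hφ : Continuous φ) :
    ∃ T : Set κ, T.Countable ∧ ∀ g t t', Agr T t t' → (φ g).1 t = (φ g).1 t' := by
  obtain ⟨T, h1, h2⟩ := main hX (good_of φ hφ)
  exact ⟨T, h1, fun g => h2 ⟨g.1, g.2⟩⟩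

theorem hx_td [TotallyDisconnectedSpace X] : HX κ X := fun a ha =>
  ⟨∅, countable_empty, fun w w' _ => TotallyDisconnectedSpace.eq_of_continuous a ha w w'⟩

def res (T : Set κ) (t : Y κ) : T → unitInterval := fun α => t α

theorem cont_res (T : Set κ) : Continuous (res T) := continuous_pi fun α => continuous_apply α.1

theorem metr_of [CompactSpace X] [T2Space X] [Nonempty X] (hX : HX κ X) (e : X → Y κ)
    (he : Continuous e) (φ : Cp X → Cp (Y κ)) (hφ : Continuous φ)
    (h : ∀ f x, (φ f).1 (e x) = f.1 x) : MetrizableSpace X := by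
  obtain ⟨T, h1, h2⟩ := main' hX φ hφ
  have := h1.to_subtype
  refine (((cont_res T).comp he).isClosedEmbedding fun x y hxy => ?_).isEmbedding
    |>.metrizableSpace
  by_contra hne
  obtain ⟨f, hf0, hf1, -⟩ := exists_continuous_zero_one_of_isClosed
    (isClosed_singleton (x := x)) (isClosed_singleton (x := y)) (disjoint_singleton.2 hne)
  have := h2 ⟨f, f.continuous⟩ (e x) (e y) fun α hα => congrFun hxy ⟨α, hα⟩
  rw [h, h] at this
  exact zero_ne_one ((hf0 rfl).symm.trans (this.trans (hf1 rfl)))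

theorem tight_of_metr [MetrizableSpace X] : CTight X := fun A x hx => by
  obtain ⟨u, h1, h2⟩ := mem_closure_iff_seq_limit.1 hx
  exact ⟨range u, range_subset_iff.2 h1, countable_range u,
    mem_closure_of_tendsto h2 (Eventually.of_forall fun n => ⟨n, rfl⟩)⟩

theorem not_tight (I : Type) [Uncountable I] : ¬ CTight (I → Bool) := by
  classical
  intro h
  obtain ⟨B, h1, h2, h3⟩ := h {x | {i | x i = true}.Finite} (fun _ => true) (by
    refine mem_closure_of_tendsto (f := fun F : Finset I => fun i => decide (i ∈ F))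
      (b := atTop) (tendsto_pi_nhds.2 fun i => tendsto_const_nhds.congr' ?_)
      (Eventually.of_forall fun F => F.finite_toSet.subset fun i hi => by simpa using hi)
    filter_upwards [eventually_ge_atTop {i}] with F hF
    simp [hF (Finset.mem_singleton_self i)])
  obtain ⟨i, hi⟩ : ∃ i, i ∉ ⋃ x ∈ B, {i | x i = true} := by
    by_contra h
    push Not at h
    exact not_countable_univ ((h2.biUnion fun x hx => (h1 hx).countable).mono fun i _ => h i)
  have : (fun _ => true : I → Bool) ∈ {x : I → Bool | x i = false} :=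
    closure_minimal (fun x hx => by simpa using fun h => hi (mem_biUnion hx h))
      (isClosed_eq (continuous_apply i) continuous_const) h3
  simp at this

theorem no_ext (I : Type) [Uncountable I] (e : (I → Bool) → Y κ) (he : Continuous e)
    (φ : Cp (I → Bool) → Cp (Y κ)) (hφ : Continuous φ) (h : ∀ f x, (φ f).1 (e x) = f.1 x) :
    False := by
  have := metr_of hx_td e he φ hφ h
  exact not_tight I tight_of_metr

theorem CTight.of_emb {W : Type} [TopologicalSpace W] (hX : CTight X) {h : W → X}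
    (hh : IsEmbedding h) : CTight W := fun A x hx => by
  rw [hh.isInducing.closure_eq_preimage_closure_image] at hx
  obtain ⟨B, h1, h2, h3⟩ := hX _ _ hx
  refine ⟨h ⁻¹' B, fun a ha => ?_, h2.preimage hh.injective, ?_⟩
  · obtain ⟨b, hb, hab⟩ := h1 ha
    rwa [← hh.injective hab]
  · rw [hh.isInducing.closure_eq_preimage_closure_image,
      image_preimage_eq_of_subset (h1.trans (image_subset_range _ _))]
    exact h3

def DD (X : Type) [TopologicalSpace X] : Type := Set (Cp X × X × ℕ)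
instance : TopologicalSpace (DD X) := ⊥
instance : DiscreteTopology (DD X) := ⟨rfl⟩
instance : Nonempty (DD X) := ⟨(∅ : Set _)⟩

theorem ext_cube [T35Space X] (hX : TExtral X) : ∃ (κ : Type) (e : X → Y κ), IsEmbedding e ∧
    ∃ φ : Cp X → Cp (Y κ), Continuous φ ∧ ∀ f x, (φ f).1 (e x) = f.1 x := by
  let κ := C(StoneCech X, unitInterval)
  let j : StoneCech X → Y κ := fun p f => f p
  have hj : IsEmbedding j :=
    ((continuous_pi fun f : κ => f.continuous).isClosedEmbedding fun p q h => by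
      by_contra hne
      obtain ⟨f, hf, hf'⟩ := separatesPoints_continuous_of_t35Space_Icc hne
      exact hf' (congrFun h ⟨f, hf⟩)).isEmbedding
  let e0 : X → Y κ := j ∘ stoneCechUnit
  have he0 : IsEmbedding e0 := hj.comp isEmbedding_stoneCechUnit
  let Z := {p : Y κ × OnePoint (DD X) // p.2 = OnePoint.infty → p.1 ∈ range e0}
  let e : X → Z := fun x => ⟨(e0 x, OnePoint.infty), fun _ => ⟨x, rfl⟩⟩
  have hec : Continuous e := (he0.continuous.prodMk continuous_const).subtype_mk _
  obtain ⟨φ, hφ, hφ'⟩ := hX Z e ⟨IsEmbedding.of_comp hec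
    (continuous_fst.comp continuous_subtype_val) he0, by
      have : range e = {p : Z | p.1.2 = OnePoint.infty} := by
        ext ⟨⟨t, a⟩, hp⟩
        constructor
        · rintro ⟨x, hx⟩
          exact (congrArg (fun p : Z => p.1.2) hx).symm
        · intro h
          obtain ⟨x, hx⟩ := hp h
          exact ⟨x, Subtype.ext (Prod.ext hx (Eq.symm h))⟩
      rw [this]
      exact isClosed_eq (continuous_snd.comp continuous_subtype_val) continuous_const⟩
  have hbad : ∀ (f : Cp X) (x : X), ∃ g : ℕ → DD X, {d : DD X |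
      (φ f).1 ⟨(e0 x, (d : OnePoint (DD X))), fun _ => ⟨x, rfl⟩⟩ ≠ f.1 x} ⊆ range g :=
    fun f x => by
      refine countable_iff_exists_subset_range.1 ?_
      have hc : Continuous fun a : OnePoint (DD X) => (φ f).1 ⟨(e0 x, a), fun _ => ⟨x, rfl⟩⟩ :=
        (φ f).2.comp ((continuous_const.prodMk continuous_id).subtype_mk _)
      have h1 := (OnePoint.continuous_iff_from_discrete _).1 hc
      rw [show (φ f).1 ⟨(e0 x, OnePoint.infty), fun _ => ⟨x, rfl⟩⟩ = f.1 x from hφ' f x] at h1
      refine (countable_iUnion fun n : ℕ => (mem_cofinite.1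
        (Metric.tendsto_nhds.1 h1 (1 / ((n : ℝ) + 1)) (by positivity))).countable).mono
        fun d hd => ?_
      obtain ⟨n, hn⟩ := exists_nat_one_div_lt (dist_pos.2 hd)
      exact mem_iUnion.2 ⟨n, fun h => lt_asymm hn h⟩
  choose g hg using hbad
  obtain ⟨d, hd⟩ : ∃ d : DD X, ¬ ∃ p : Cp X × X × ℕ, g p.1 p.2.1 p.2.2 = d := not_forall.1
    (Function.cantor_surjective fun p : Cp X × X × ℕ => g p.1 p.2.1 p.2.2)
  let i : Y κ → Z := fun t => ⟨(t, (d : OnePoint (DD X))),
    fun h => absurd h (OnePoint.coe_ne_infty _)⟩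
  have hi : Continuous i := (continuous_id.prodMk continuous_const).subtype_mk _
  refine ⟨κ, e0, he0, fun f => ⟨(φ f).1 ∘ i, (φ f).2.comp hi⟩, Continuous.subtype_mk
    (continuous_pi fun t => (continuous_apply _).comp (continuous_subtype_val.comp hφ)) _,
    fun f x => ?_⟩
  by_contra h
  obtain ⟨n, hn⟩ := hg f x (a := d) h
  exact hd ⟨(f, x, n), hn⟩

theorem compact_of_ext (e : X → Y κ) (he : IsEmbedding e) (φ : Cp X → Cp (Y κ))
    (hφ : Continuous φ) (h : ∀ f x, (φ f).1 (e x) = f.1 x) : CompactSpace X := by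
  have hc : IsClosed (range e) := isClosed_of_closure_subset fun y hy => by
    by_contra hy'
    have key : ∀ k : C(Y κ, ℝ), (φ ⟨k ∘ e, k.continuous.comp he.continuous⟩).1 y = k y :=
      fun k => closure_minimal (t := {y | (φ ⟨k ∘ e, k.continuous.comp he.continuous⟩).1 y = k y})
        (by rintro _ ⟨x, rfl⟩; exact h _ x) (isClosed_eq (φ _).2 k.continuous) hy
    obtain ⟨S, δ, hδ, hS⟩ := (good_of φ hφ).c2 y 0 (1 / 2) (by norm_num)
    obtain ⟨k, hk0, hk1, -⟩ := exists_continuous_zero_one_of_isClosed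
      (S.finite_toSet.image e).isClosed (isClosed_singleton (x := y))
      (disjoint_singleton_right.2 fun h => hy' (image_subset_range _ _ h))
    have h1 := hS (k.comp ⟨e, he.continuous⟩) fun x hx => by
      have : k (e x) = 0 := hk0 ⟨x, hx, rfl⟩
      simpa [this] using hδ
    have h2 : (φ ⟨k ∘ e, k.continuous.comp he.continuous⟩).1 y = 1 := (key k).trans (hk1 rfl)
    have h3 : (φ ⟨(0 : C(Y κ, ℝ)) ∘ e, (0 : C(Y κ, ℝ)).continuous.comp he.continuous⟩).1 y = 0 :=
      key 0
    have h4 : |(φ ⟨k ∘ e, k.continuous.comp he.continuous⟩).1 y - (φ ⟨(0 : C(Y κ, ℝ)) ∘ e,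
      (0 : C(Y κ, ℝ)).continuous.comp he.continuous⟩).1 y| ≤ 1 / 2 := h1
    rw [h2, h3] at h4
    norm_num at h4
  exact (IsClosedEmbedding.mk he hc).compactSpace

theorem cube_in [T35Space X] (hX : TExtral X) (hm : ¬ MetrizableSpace X) (I : Type)
    (hI : Cardinal.mk I = Cardinal.aleph 1) : ∃ h : (I → Bool) → X, IsEmbedding h := by
  obtain ⟨κ, e, he, φ, hφ, h⟩ := ext_cube hX
  have := compact_of_ext e he φ hφ h
  have : Nonempty X := by
    by_contra hne
    have : IsEmpty X := not_nonempty_iff.1 hne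
    exact hm inferInstance
  exact cube_of_not (fun hH => hm (metr_of hH e he.continuous φ hφ h)) I hI

theorem unc_of {I : Type} (hI : Cardinal.mk I = Cardinal.aleph 1) : Uncountable I :=
  Cardinal.aleph0_lt_mk_iff.1 (hI ▸ Cardinal.aleph0_lt_aleph_one)

theorem metr_of_tight [T35Space X] (hX : TExtral X) (ht : CTight X) : MetrizableSpace X := by
  by_contra hm
  obtain ⟨h, hh⟩ := cube_in hX hm _ (Cardinal.mk_out (Cardinal.aleph 1))
  have := unc_of (Cardinal.mk_out (Cardinal.aleph 1))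
  exact not_tight _ (ht.of_emb hh)

/-- composition with a continuous map -/
def pull {A B : Type} [TopologicalSpace A] [TopologicalSpace B] (u : A → B) (hu : Continuous u)
    (f : Cp B) : Cp A := ⟨f.1 ∘ u, f.2.comp hu⟩

theorem cont_pull {A B : Type} [TopologicalSpace A] [TopologicalSpace B] (u : A → B)
    (hu : Continuous u) : Continuous (pull u hu) :=
  Continuous.subtype_mk (f := fun f : Cp B => f.1 ∘ u)
    (continuous_pi fun a => (continuous_apply (u a)).comp continuous_subtype_val) _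

theorem metr_of_extendial [T35Space X] (hX : TExtral X) (ht : TExtendial X) :
    MetrizableSpace X := by
  by_contra hm
  obtain ⟨h, hh⟩ := cube_in hX hm _ (Cardinal.mk_out (Cardinal.aleph 1))
  have := unc_of (Cardinal.mk_out (Cardinal.aleph 1))
  obtain ⟨κ, e, he, φ, hφ, h1⟩ := ext_cube hX
  obtain ⟨ψ, hψ, h2⟩ := ht (range h) (isCompact_range hh.continuous).isClosed
  refine no_ext _ (e ∘ h) (he.continuous.comp hh.continuous)
    (φ ∘ ψ ∘ pull _ hh.toHomeomorph.symm.continuous) (hφ.comp (hψ.comp (cont_pull _ _)))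
    fun f s => ?_
  refine (h1 _ _).trans ((h2 _ ⟨h s, s, rfl⟩).trans ?_)
  exact congrArg f.1 (hh.toHomeomorph.symm_apply_apply s)

theorem network {I : Type} (φ : Cp (I → Bool) → Cp (Y κ)) (hφ : Continuous φ) :
    ∃ 𝒩 : Set (Set (Cp (Y κ))), 𝒩.Countable ∧ ∀ x ∈ range φ, ∀ U : Set (Cp (Y κ)),
      IsOpen U → x ∈ U → ∃ N ∈ 𝒩, x ∈ N ∧ N ⊆ U ∩ range φ := by
  classical
  obtain ⟨T, h1, h2⟩ := main' hx_td φ hφ
  have := h1.to_subtype
  let Ψ : C(T → unitInterval, ℝ) → Cp (Y κ) := fun k =>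
    ⟨fun t => k (res T t), k.continuous.comp (cont_res T)⟩
  have hΨ : Continuous Ψ := Continuous.subtype_mk (continuous_pi fun t => by fun_prop) _
  refine ⟨(fun B => Ψ '' B ∩ range φ) '' countableBasis _, (countable_countableBasis _).image _,
    fun x hx U hU hxU => ?_⟩
  obtain ⟨g, rfl⟩ := hx
  let s : (T → unitInterval) → Y κ := fun z α => if h : α ∈ T then z ⟨α, h⟩ else 0
  have hs : Continuous s := continuous_pi fun α => by
    by_cases hα : α ∈ T
    · simp only [s, hα, dite_true]; exact continuous_apply _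
    · simp only [s, hα, dite_false]; exact continuous_const
  have h3 : Ψ ⟨(φ g).1 ∘ s, (φ g).2.comp hs⟩ = φ g :=
    Subtype.ext (funext fun t => h2 g _ _ fun α hα => by simp [s, res, hα])
  obtain ⟨B, hB, h4, h5⟩ := (isBasis_countableBasis _).exists_subset_of_mem_open
    (show _ ∈ Ψ ⁻¹' U from h3.symm ▸ hxU) (hU.preimage hΨ)
  refine ⟨_, ⟨B, hB, rfl⟩, ⟨⟨_, h4, h3⟩, g, rfl⟩, ?_⟩
  rintro _ ⟨⟨k, hk, rfl⟩, h⟩
  exact ⟨h5 hk, h⟩

theorem no_embed {I : Type} [Uncountable I] (φ : Cp (I → Bool) → Cp (Y κ))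
    (hφ : IsEmbedding φ) : False := by
  classical
  obtain ⟨𝒩, h1, h2⟩ := network φ hφ.continuous
  let x : I → Cp (I → Bool) := fun i => ⟨fun s => if s i = true then 1 else 0,
    (continuous_of_discreteTopology (f := fun b : Bool => if b = true then (1 : ℝ) else 0)).comp
      (continuous_apply i)⟩
  have h3 : ∀ i, ∃ N ∈ 𝒩, φ (x i) ∈ N ∧ ∀ j, φ (x j) ∈ N → j = i := fun i => by
    obtain ⟨U, hU, hU'⟩ := hφ.isInducing.isOpen_iff.1
      (isOpen_lt (continuous_const (y := (0 : ℝ)))
        ((continuous_apply fun j => decide (j = i)).comp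
          (continuous_subtype_val (p := fun f : (I → Bool) → ℝ => Continuous f))))
    obtain ⟨N, hN, h4, h5⟩ := h2 _ ⟨x i, rfl⟩ U hU (by
      show x i ∈ φ ⁻¹' U
      rw [hU']; simp [x])
    refine ⟨N, hN, h4, fun j hj => ?_⟩
    have : x j ∈ φ ⁻¹' U := (h5 hj).1
    rw [hU'] at this
    by_contra h
    simp [x, h] at this
  choose N hN h4 h5 using h3
  exact not_countable_univ (α := I) (MapsTo.countable_of_injOn (f := N) (t := 𝒩)
    (fun i _ => hN i) (fun i _ j _ h => h5 j i (h ▸ h4 i)) h1)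

end Pool.Agent.TEx
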