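import Pool.Agent.H11.Base1
import Pool.Agent.Lead.NPc

set_option autoImplicit false

namespace Pool.Agent.Lead.Teach
open Pool.Agent.H11.PT Pool.Agent.Lead.NPc

variable (h : ℕ → ℕ → Bool)

def alive (j t i : ℕ) : Bool := (List.range t).all fun s => h i s == h j s
def mn (j t : ℕ) : ℕ := ((List.range (j + 1)).find? (alive h j t)).getD 0
def pw (n : ℕ) : ℕ := (fun b => if b ≤ n then 2 * b else b)^[n] 1
def Al (j t b : ℕ) : List ℕ := (List.range b).filter (alive h j t)
def mis (j t : ℕ) : Bool :=
  decide ((Al h j t (pw (mn h j t))).length ≤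
    2 * (Al h j t (pw (mn h j t))).countP fun i => h i t) != h j t

theorem pw_eq (n : ℕ) : pw n = 2 ^ n.size := by
  have : ∀ k, (fun b => if b ≤ n then 2 * b else b)^[k] 1 = 2 ^ min k n.size := by
    intro k
    induction k with
    | zero => simp
    | succ k ih =>
      rw [Function.iterate_succ_apply', ih]
      by_cases e : k < n.size
      · rw [min_eq_left e.le, if_pos (Nat.lt_size.1 e), min_eq_left e, pow_succ']
      · rw [min_eq_right (not_lt.1 e), if_neg (Nat.lt_size_self n).not_ge, min_eq_right (by omega)]
  rw [pw, this, min_eq_right (Nat.size_le.2 Nat.lt_two_pow_self)]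

theorem alive_self (j t : ℕ) : alive h j t j = true := by simp [alive]

theorem mn_spec (j t : ℕ) : alive h j t (mn h j t) = true ∧ ∀ i, alive h j t i = true → mn h j t ≤ i := by
  unfold mn
  cases e : (List.range (j + 1)).find? (alive h j t) with
  | none => simpa [alive_self] using List.find?_eq_none.1 e j (by simp)
  | some a =>
    rw [List.find?_range_eq_some] at e
    refine ⟨e.1, fun i hi => not_lt.1 fun l => ?_⟩
    simpa [hi] using e.2.2 i l

theorem noclash (j j' t : ℕ) (e : ∀ s < t, h j s = h j' s) (d : h j t ≠ h j' t) :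
    mis h j t = true ∨ mis h j' t = true := by
  have a : alive h j t = alive h j' t := funext fun i => by
    rw [Bool.eq_iff_iff]
    simp only [alive, List.all_eq_true, List.mem_range, beq_iff_eq]
    exact forall₂_congr fun s hs => by rw [e s hs]
  have b : mn h j t = mn h j' t :=
    le_antisymm ((mn_spec h j t).2 _ (a ▸ (mn_spec h j' t).1))
      ((mn_spec h j' t).2 _ (a ▸ (mn_spec h j t).1))
  simp only [mis, Al, a, b]
  revert d
  cases h j t <;> cases h j' t <;> simp
  · omega
  · omega

theorem Al_succ (j t b : ℕ) : Al h j (t + 1) b = (Al h j t b).filter fun i => h i t == h j t := by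
  simp only [Al, List.filter_filter]
  refine List.filter_congr fun i _ => ?_
  simp [alive, List.range_succ, Bool.and_comm]

theorem size_lt {a b : ℕ} (h1 : 2 * a ≤ b) (h2 : 0 < b) : a.size < b.size := by
  rw [Nat.lt_size]
  rcases a.eq_zero_or_pos with rfl | h3
  · exact h2
  · have h4 := Nat.size_pos.2 h3
    have := Nat.lt_size.1 (show a.size - 1 < a.size by omega)
    rw [show a.size = a.size - 1 + 1 by omega, pow_succ]
    omega

theorem cnt (j T : ℕ) : ((List.range T).filter (mis h j)).length +
    ∑ k ∈ Finset.range (j.size + 1), (Al h j T (2 ^ k)).length.size ≤ (j.size + 1) ^ 2 := by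
  induction T with
  | zero =>
    have : ∑ k ∈ Finset.range (j.size + 1), (Al h j 0 (2 ^ k)).length.size ≤
        (Finset.range (j.size + 1)).card • (j.size + 1) :=
      Finset.sum_le_card_nsmul _ _ _ fun k hk => by
        refine (Nat.size_le_size (List.length_filter_le _ _)).trans ?_
        simp only [List.length_range, Nat.size_pow]
        exact Finset.mem_range.1 hk
    simpa [sq] using this
  | succ T ih =>
    have mono : ∀ k ∈ Finset.range (j.size + 1), (Al h j (T + 1) (2 ^ k)).length.size ≤
        (Al h j T (2 ^ k)).length.size := fun k _ =>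
      Nat.size_le_size (by rw [Al_succ]; exact List.length_filter_le _ _)
    rw [List.range_succ, List.filter_append, List.length_append]
    cases e : mis h j T with
    | false =>
      have := Finset.sum_le_sum mono
      simp only [List.filter_cons, e]
      simp only [Bool.false_eq_true, if_false, List.filter_nil, List.length_nil]
      omega
    | true =>
      have := Finset.sum_lt_sum mono ⟨(mn h j T).size, Finset.mem_range.2 (Nat.lt_succ_of_le
        (Nat.size_le_size ((mn_spec h j T).2 j (alive_self h j T)))), size_lt ?_ ?_⟩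
      · simp only [List.filter_cons, e]
        simp only [if_true, List.filter_nil, List.length_singleton]
        omega
      · rw [mis, pw_eq] at e
        rw [Al_succ, ← List.countP_eq_length_filter]
        have := List.length_eq_countP_add_countP (fun i => h i T) (l := Al h j T (2 ^ (mn h j T).size))
        revert e this
        cases h j T <;> simp
        · intro a b
          have : ∀ l : List ℕ, l.countP (fun i => h i T == false) = l.countP fun i => !h i T :=
            fun l => by simp
          omega
        · omega
      · exact List.length_pos_of_mem (List.mem_filter.2 ⟨List.mem_range.2 (Nat.lt_size_self _),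
          (mn_spec h j T).1⟩)

theorem bound (j : ℕ) : ∃ M : List ℕ, M.length ≤ (j.size + 1) ^ 2 ∧ ∀ t, mis h j t = true → t ∈ M := by
  have bd : BddAbove (Set.range fun T => ((List.range T).filter (mis h j)).length) :=
    ⟨(j.size + 1) ^ 2, by rintro _ ⟨T, rfl⟩; exact le_trans (Nat.le_add_right _ _) (cnt h j T)⟩
  obtain ⟨T, hT⟩ := Nat.sSup_mem (Set.range_nonempty _) bd
  refine ⟨_, le_trans (Nat.le_add_right _ _) (cnt h j T), fun t ht => List.mem_filter.2 ⟨?_, ht⟩⟩
  by_contra l
  have h1 := le_csSup bd ⟨t + 1, rfl⟩
  have h2 := ((List.range_sublist.2 (show T ≤ t by simpa using l)).filter (mis h j)).length_le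
  simp only [List.range_succ, List.filter_append, List.length_append, List.filter_cons, ht] at h1
  simp only [if_true, List.filter_nil, List.length_singleton] at h1
  simp only at hT
  omega

variable {α : Type} [Enc α] {f g k : α → ℕ}

@[fun_prop] theorem pw_pt (hf : PT f) : PT fun x => pw (f x) :=
  PT.iterate (g := fun x b => if b ≤ f x then 2 * b else b) hf (PT.const 1) (by fun_prop)
    (fun x b => b ≤ 2 * f x + 1) (fun x => 2 * f x + 1) (by fun_prop) (fun _ => by omega)
    (fun x c _ => by split_ifs <;> omega) fun x c _ => by simp; omega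

theorem mis_pt (hh : PT fun p : ℕ × ℕ => h p.1 p.2) : PT fun p : ℕ × ℕ => mis h p.1 p.2 := by
  have h0 : ∀ {β : Type} [Enc β] {f g : β → ℕ}, PT f → PT g → PT fun x => h (f x) (g x) :=
    fun hf hg => hh.comp (hf.pair hg)
  have h1 : ∀ {β : Type} [Enc β] {f g k : β → ℕ}, PT f → PT g → PT k →
      PT fun x => alive h (f x) (g x) (k x) := fun hf hg hk =>
    PT.all (by fun_prop) (PT.beq (h0 (by fun_prop) (by fun_prop)) (h0 (by fun_prop) (by fun_prop)))
  have h3 : PT fun p : ℕ × ℕ => mn h p.1 p.2 := PT.optGetD (PT.find? (by fun_prop)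
    (h1 (by fun_prop) (by fun_prop) (by fun_prop))) (by fun_prop)
  have h2 : PT fun p : ℕ × ℕ => Al h p.1 p.2 (pw (mn h p.1 p.2)) :=
    PT.filter (pw_pt h3).range (h1 (by fun_prop) (by fun_prop) (by fun_prop))
  exact PT.bne (PT.decLe h2.length (PT.mul (by fun_prop)
    (PT.countP h2 (h0 (by fun_prop) (by fun_prop))))) hh

/-- decoding of a number as a list of numbers -/
def dl (i : ℕ) : List ℕ := (decN (toBits i)).tail.take ((decN (toBits i)).headD 0)

@[fun_prop] theorem dl_pt (hf : PT f) : PT fun x => dl (f x) := by
  have := hf.toBits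
  unfold dl; fun_prop

theorem dl_surj (c : List ℕ) : ∃ i, dl i = c ∧ i.size ≤ 2 * (c.length + c.sum) + 2 := by
  obtain ⟨b, hb⟩ : ∃ b, b = (encN (c.length :: c) ++ [true]).map Bool.toNat := ⟨_, rfl⟩
  have b1 : ∀ l : List Bool, ∀ x ∈ l.map Bool.toNat, x < 2 := fun l x hx => by
    obtain ⟨y, _, rfl⟩ := List.mem_map.1 hx
    cases y <;> simp
  have b2 : b.length = 2 * c.length + c.sum + 2 := by simp [hb, len_encN]; omega
  have b3 : b.length ≤ Nat.ofDigits 2 b := by
    rw [b2, hb, List.map_append, Nat.ofDigits_append]
    have := @Nat.lt_two_pow_self (2 * c.length + c.sum + 1)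
    simp only [List.length_map, len_encN, List.length_cons, List.sum_cons, List.map_cons,
      List.map_nil, Bool.toNat_true, Nat.ofDigits_singleton]
    rw [show c.length + 1 + (c.length + c.sum) = 2 * c.length + c.sum + 1 by omega]
    simp; omega
  refine ⟨Nat.ofDigits 2 b, ?_, (Nat.size_le.2 (Nat.ofDigits_lt_base_pow_length one_lt_two
    (hb ▸ b1 _))).trans (by omega)⟩
  have : toBits (Nat.ofDigits 2 b) = encN (c.length :: c) ++
      ([true] ++ List.replicate (Nat.ofDigits 2 b - b.length) false) := by
    refine List.map_injective_iff.2 (fun x y => by cases x <;> cases y <;> simp :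
      Function.Injective Bool.toNat) (Nat.ofDigits_inj_of_len_eq one_lt_two ?_ (b1 _) (b1 _) ?_)
    · simp [toBits, toBin, len_encN]; omega
    · rw [ofDigits_toBits, ← List.append_assoc, List.map_append, ← hb]
      simp
  rw [dl, this, decN_encN]
  simp

theorem fix {β : Type} [BEq β] [LawfulBEq β] (U : List β) (q : List β → β → Bool) (p : β) (hp : p ∈ U)
    (C : List β) (hC : C = (fun C => U.filter fun p => decide (p ∈ C) || q C p)^[U.length] [])
    (hq : q C p = true) : p ∈ C := by
  letI := Classical.decEq β
  obtain ⟨F, hF⟩ : ∃ F : List β → List β, F = fun C => U.filter fun p => decide (p ∈ C) || q C p :=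
    ⟨_, rfl⟩
  rw [← hF] at hC
  have m : ∀ C p, p ∈ F C ↔ p ∈ U ∧ (p ∈ C ∨ q C p = true) := by simp [hF]
  have s : ∀ k, ∀ p ∈ F^[k] [], p ∈ U := fun k p hp => by
    cases k with
    | zero => simp at hp
    | succ k => rw [Function.iterate_succ_apply', m] at hp; exact hp.1
  have key : ∀ k, F (F^[k] []) = F^[k] [] ∨ k ≤ (F^[k] []).toFinset.card := by
    intro k
    induction k with
    | zero => simp
    | succ k ih =>
      rw [Function.iterate_succ_apply']
      by_cases e : F (F^[k] []) = F^[k] []
      · left; rw [e, e]
      · refine .inr (Nat.succ_le_of_lt (lt_of_le_of_lt (ih.resolve_left e) (Finset.card_lt_card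
          ⟨fun x hx => ?_, fun l => e ?_⟩)))
        · rw [List.mem_toFinset] at hx ⊢
          exact (m _ _).2 ⟨s _ _ hx, .inl hx⟩
        · have l' : ∀ x ∈ F (F^[k] []), x ∈ F^[k] [] := fun x hx => by simpa using l (by simpa using hx)
          cases k with
          | zero => exact List.eq_nil_iff_forall_not_mem.2 fun x hx => by simpa using l' x hx
          | succ k =>
            rw [Function.iterate_succ_apply'] at l' ⊢
            have m' : ∀ C, F C = U.filter fun p => decide (p ∈ C) || q C p := by simp [hF]
            refine (m' _).trans (.trans (List.filter_congr fun x hx => ?_) (m' _).symm)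
            have h1 := m (F^[k] []) x
            have h2 := m (F (F^[k] [])) x
            have h3 := l' x
            rw [Bool.eq_iff_iff]
            simp only [Bool.or_eq_true, decide_eq_true_eq]
            exact ⟨fun a => (h1.1 (h3 (h2.2 ⟨hx, a⟩))).2, fun a => .inl (h1.2 ⟨hx, a⟩)⟩
  rcases key U.length with e | e
  · rw [hC, ← e, m]; exact ⟨hp, .inr (hC ▸ hq)⟩
  · have : (F^[U.length] []).toFinset = U.toFinset := Finset.eq_of_subset_of_card_le
      (fun x hx => by simpa using s _ x (by simpa using hx)) ((List.toFinset_card_le U).trans e)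
    rw [hC, ← List.mem_toFinset, this]; simpa using hp

end Pool.Agent.Lead.Teach
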