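import Pool.Agent.Lead.Teach1
import Pool.Agent.H16.CFG

set_option autoImplicit false

namespace Pool.Agent.Lead.Teach
open Pool.Agent.H11.PT Pool.Agent.Lead.NPc Pool.Agent.H16.CFG

/-- letters are written as their numbers -/
instance encFin (n : ℕ) : Enc (Fin n) := ⟨fun a => Enc.tr a.val⟩

/-- coded grammars: a list of productions (left side, list of symbol codes) -/
abbrev Gr := List (ℕ × List ℕ)

/-- codes `0,…,m` are the terminals, code `m+1+A` is the nonterminal `A` -/
def sy (m k : ℕ) : Symbol (Fin (m + 1)) ℕ :=
  if h : k < m + 1 then .terminal ⟨k, h⟩ else .nonterminal (k - (m + 1))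

/-- the Mathlib grammar described by a code; the start symbol is `0` -/
def toCFG (m : ℕ) (g : Gr) : ContextFreeGrammar (Fin (m + 1)) :=
  ⟨ℕ, 0, (g.map fun r => ⟨r.1, r.2.map (sy m)⟩).toFinset⟩

instance (n : ℕ) : Inj (Fin n) := ⟨fun _ _ h => Fin.ext (Inj.inj _ _ h)⟩

variable (m : ℕ)

abbrev Str := List (Fin (m + 1))

def sy' (k : ℕ) : Fin (m + 1) ⊕ ℕ := if h : k < m + 1 then .inl ⟨k, h⟩ else .inr (k - (m + 1))
def RR (g : Gr) : List (ℕ × List (Fin (m + 1) ⊕ ℕ)) := g.map fun r => (r.1, r.2.map (sy' m))

theorem toCFG_eq (g : Gr) : toCFG m g = gram (RR m g) := by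
  have : (Sum.elim Symbol.terminal Symbol.nonterminal ∘ sy' m) = sy m := funext fun k => by
    simp only [Function.comp, sy', sy]; split_ifs <;> rfl
  simp [toCFG, gram, RR, List.map_map, Function.comp_def, ← this]

variable {m}

def inf (w : Str m) : List (Str m) :=
  (List.range (w.length + 1) ×ˢ List.range (w.length + 1)).map fun p => (w.drop p.1).take p.2

theorem mem_inf {w v : Str m} : v ∈ inf w ↔ v <:+: w := by
  simp only [inf, List.mem_map, Prod.exists, List.mem_product, List.mem_range]
  constructor
  · rintro ⟨a, b, -, rfl⟩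
    exact (List.take_prefix _ _).isInfix.trans (List.drop_suffix _ _).isInfix
  · rintro ⟨s, t, rfl⟩
    exact ⟨s.length, v.length, by simp; omega, by simp⟩

def ok (C : List (ℕ × Str m)) (X : ℕ) (x : Str m) : Bool :=
  if X < m + 1 then decide (x.map Fin.val = [X]) else decide ((X - (m + 1), x) ∈ C)

def gen (w : Str m) (C : List (ℕ × Str m)) (β : List ℕ) : List (Str m) :=
  β.foldr (fun X acc => (inf w).filter fun v => (List.range (v.length + 1)).any fun i =>
    ok C X (v.take i) && decide (v.drop i ∈ acc)) [[]]

def stp (g : Gr) (w : Str m) (C : List (ℕ × Str m)) (p : ℕ × Str m) : Bool :=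
  g.any fun r => decide (r.1 = p.1) && decide (p.2 ∈ gen w C r.2)

def uni (g : Gr) (w : Str m) : List (ℕ × Str m) := g.map Prod.fst ×ˢ inf w

def chart (g : Gr) (w : Str m) : List (ℕ × Str m) :=
  (fun C => (uni g w).filter fun p => decide (p ∈ C) || stp g w C p)^[(uni g w).length] []

def memb (g : Gr) (w : Str m) : Bool := decide ((0, w) ∈ chart g w)

theorem gen_cons (w : Str m) (C : List (ℕ × Str m)) (X : ℕ) (β : List ℕ) (v : Str m) :
    v ∈ gen w C (X :: β) ↔ v <:+: w ∧ ∃ a b, v = a ++ b ∧ ok C X a = true ∧ b ∈ gen w C β := by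
  simp only [gen, List.foldr_cons, List.mem_filter, mem_inf, List.any_eq_true, List.mem_range,
    Bool.and_eq_true, decide_eq_true_eq]
  refine and_congr_right fun _ => ⟨fun ⟨i, _, h1, h2⟩ => ⟨_, _, (List.take_append_drop i v).symm,
    h1, h2⟩, ?_⟩
  rintro ⟨a, b, rfl, h1, h2⟩
  exact ⟨a.length, by simp [Nat.lt_succ_iff], by simpa using h1, by simpa using h2⟩

theorem memb_iff (g : Gr) (w : Str m) : memb g w = true ↔ w ∈ (toCFG m g).language := by
  rw [toCFG_eq, mem_lang, memb, decide_eq_true_iff]
  constructor
  · have s1 : ∀ C : List (ℕ × Str m), (∀ p ∈ C, Gn (RR m g) [.inr p.1] p.2) → ∀ β : List ℕ,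
        ∀ v ∈ gen w C β, Gn (RR m g) (β.map (sy' m)) v := fun C hC β => by
      induction β with
      | nil => intro v hv; obtain rfl : v = [] := by simpa [gen] using hv
               exact .nil
      | cons X β ih =>
        intro v hv
        obtain ⟨-, a, b, rfl, h1, h2⟩ := (gen_cons ..).1 hv
        refine Gn.app (s := [_]) ?_ (ih b h2)
        unfold ok at h1
        unfold sy'
        split_ifs at h1 ⊢ with h
        · obtain rfl : a = [⟨X, h⟩] := List.map_injective_iff.2 Fin.val_injective (by simpa using h1)
          exact .t _ .nil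
        · exact hC _ (of_decide_eq_true h1)
    have s2 : ∀ k, ∀ p ∈ (fun C => (uni g w).filter fun p => decide (p ∈ C) || stp g w C p)^[k] [],
        Gn (RR m g) [.inr p.1] p.2 := fun k => by
      induction k with
      | zero => simp
      | succ k ih =>
        intro p hp
        rw [Function.iterate_succ_apply'] at hp
        simp only [List.mem_filter, Bool.or_eq_true, decide_eq_true_eq, stp, List.any_eq_true,
          Bool.and_eq_true] at hp
        obtain ⟨-, h | ⟨r, h1, h2, h3⟩⟩ := hp
        · exact ih p h
        · exact .one (List.mem_map.2 ⟨r, h1, by rw [h2]⟩) (s1 _ ih _ _ h3)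
    exact s2 _ _
  · have fx : ∀ r ∈ g, ∀ u, u <:+: w → u ∈ gen w (chart g w) r.2 → (r.1, u) ∈ chart g w :=
      fun r hr u h1 h2 => fix (uni g w) (stp g w) _ (List.mem_product.2
        ⟨List.mem_map_of_mem hr, mem_inf.2 h1⟩) _ rfl (by simpa [stp] using ⟨r.2, hr, h2⟩)
    have s : ∀ s v, Gn (RR m g) s v → ∀ β : List ℕ, β.map (sy' m) = s → v <:+: w →
        v ∈ gen w (chart g w) β := fun s v h => by
      induction h with
      | nil => intro β e _; obtain rfl := List.map_eq_nil_iff.1 e; simp [gen]
      | @t a s v _ ih =>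
        intro β e hv
        obtain ⟨X, β, rfl, e1, e2⟩ := List.map_eq_cons_iff.1 e
        refine (gen_cons ..).2 ⟨hv, [a], v, rfl, ?_, ih β e2 ((List.suffix_cons a v).isInfix.trans hv)⟩
        unfold sy' at e1
        unfold ok
        split_ifs at e1 ⊢
        simp [← Sum.inl.inj e1]
      | @n A o s u v h1 _ _ i1 i2 =>
        intro β e hv
        obtain ⟨X, β, rfl, e1, e2⟩ := List.map_eq_cons_iff.1 e
        obtain ⟨r, hr, e3⟩ := List.mem_map.1 h1
        obtain ⟨rfl, rfl⟩ := Prod.ext_iff.1 e3
        have hu := (List.prefix_append u v).isInfix.trans hv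
        refine (gen_cons ..).2 ⟨hv, u, v, rfl, ?_, i2 β e2 ((List.suffix_append u v).isInfix.trans hv)⟩
        unfold sy' at e1
        unfold ok
        split_ifs at e1 ⊢
        rw [Sum.inr.inj e1]
        exact decide_eq_true (fx r hr u hu (i1 _ rfl hu))
    intro h
    obtain ⟨-, a, b, e, h1, h2⟩ := (gen_cons ..).1 (s _ _ h [m + 1] (by simp [sy']) List.infix_rfl)
    obtain rfl : b = [] := by simpa [gen] using h2
    simpa [ok, e] using h1

variable {α : Type} [Enc α]

@[fun_prop] theorem val_pt {n : ℕ} {f : α → Fin n} (hf : PT f) : PT fun x => (f x).val :=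
  (PT.ofId (f := Fin.val) fun _ => rfl).comp hf

@[fun_prop] theorem ofNat_pt {f : α → ℕ} (hf : PT f) : PT fun x => Fin.ofNat (m + 1) (f x) :=
  (PT.mod hf (PT.const (m + 1))).cast id (fun _ => rfl) fun _ => rfl

variable {w x : α → Str m} {C : α → List (ℕ × Str m)} {X : α → ℕ} {β : α → List ℕ} {g : α → Gr}
  {p : α → ℕ × Str m}

@[fun_prop] theorem inf_pt (hw : PT w) : PT fun a => inf (w a) := by unfold inf; fun_prop
@[fun_prop] theorem ok_pt (hC : PT C) (hX : PT X) (hx : PT x) : PT fun a => ok (C a) (X a) (x a) := by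
  unfold ok; fun_prop
attribute [local irreducible] inf ok
@[fun_prop] theorem gen_pt (hw : PT w) (hC : PT C) (hβ : PT β) :
    PT fun a => gen (w a) (C a) (β a) :=
  PT.foldr_add (g := fun a X (acc : List (Str m)) => (inf (w a)).filter fun v =>
    (List.range (v.length + 1)).any fun i => ok (C a) X (v.take i) && decide (v.drop i ∈ acc))
    hβ (PT.const _) (by fun_prop) (fun a _ => inf (w a)) 0 (by fun_prop) fun a c b => by
      have := sz_sublist (List.filter_sublist (l := inf (w a)) (p := fun v =>
        (List.range (v.length + 1)).any fun i => ok (C a) b (v.take i) && decide (v.drop i ∈ c)))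
      omega
attribute [local irreducible] gen
@[fun_prop] theorem stp_pt (hg : PT g) (hw : PT w) (hC : PT C) (hp : PT p) :
    PT fun a => stp (g a) (w a) (C a) (p a) := by unfold stp; fun_prop
@[fun_prop] theorem uni_pt (hg : PT g) (hw : PT w) : PT fun a => uni (g a) (w a) := by
  unfold uni; fun_prop
attribute [local irreducible] stp uni
@[fun_prop] theorem memb_pt (hg : PT g) (hw : PT w) : PT fun a => memb (g a) (w a) := by
  have : PT fun a => chart (g a) (w a) :=
    PT.iterate_add (g := fun a C => (uni (g a) (w a)).filter fun p =>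
      decide (p ∈ C) || stp (g a) (w a) C p) (by fun_prop) (PT.const _) (by fun_prop)
      (fun a => uni (g a) (w a)) 0 (by fun_prop) fun a c => by
        have := sz_sublist (List.filter_sublist (l := uni (g a) (w a)) (p := fun p =>
          decide (p ∈ c) || stp (g a) (w a) c p))
        omega
  unfold memb; fun_prop

/-- renaming of nonterminals -/
def sm {T N N' : Type} (f : N → N') : Symbol T N → Symbol T N'
  | .terminal a => .terminal a
  | .nonterminal A => .nonterminal (f A)

theorem hom {T : Type} (G G' : ContextFreeGrammar T) (f : G.NT → G'.NT) (h0 : f G.initial = G'.initial)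
    (h1 : ∀ r ∈ G.rules, ⟨f r.input, r.output.map (sm f)⟩ ∈ G'.rules) : G.language ≤ G'.language := by
  intro w hw
  have := Relation.ReflTransGen.lift (r := G.Produces) (p := G'.Produces) (List.map (sm f))
    (fun u v ⟨r, hr, h⟩ => ⟨_, h1 r hr, by
      obtain ⟨p, q, rfl, rfl⟩ := h.exists_parts
      simpa [sm] using ContextFreeRule.rewrites_of_exists_parts ⟨f r.input, r.output.map (sm f)⟩
        (p.map (sm f)) (q.map (sm f))⟩) _ _ hw
  simp only [sm, h0, Function.comp_def, Function.onFun, List.map_map, List.map_cons,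
    List.map_nil] at this
  exact this

/-- total length of the productions -/
def gsize {T : Type} (G : ContextFreeGrammar T) : ℕ := ∑ r ∈ G.rules, (1 + r.output.length)

def gi (j : ℕ) : Gr := (decL (dl j)).map fun r => (r.headD 0, r.tail)

@[fun_prop] theorem gi_pt (hX : PT X) : PT fun a => gi (X a) := by unfold gi; fun_prop

theorem exists_gi (G : ContextFreeGrammar (Fin (m + 1))) : ∃ j, (toCFG m (gi j)).language = G.language ∧
    j.size ≤ 2 * (gsize G * ((gsize G + m + 2) * (gsize G + m + 2 + 2) + 1)) + 2 := by
  classical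
  let nt : Symbol (Fin (m + 1)) G.NT → Option G.NT := fun
    | .terminal _ => none
    | .nonterminal A => some A
  let U := G.initial :: G.rules.toList.flatMap fun r => r.input :: r.output.filterMap nt
  let cd : Symbol (Fin (m + 1)) G.NT → ℕ := fun
    | .terminal a => a.val
    | .nonterminal A => U.idxOf A + (m + 1)
  have gs : gsize G = (G.rules.toList.map fun r => 1 + r.output.length).sum := by
    rw [gsize, Finset.sum_map_toList]
  have hU : U.length ≤ gsize G + 1 := by
    rw [gs]
    simp only [U, List.length_cons, List.length_flatMap, Nat.add_le_add_iff_right]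
    exact List.sum_le_sum fun r _ => by have := List.length_filterMap_le nt r.output; omega
  have c1 : ∀ x, sy m (cd x) = sm U.idxOf x := by
    rintro (a | A) <;> simp [sy, cd, sm]
    · exact Nat.le_of_lt_succ a.2
    · omega
  obtain ⟨j, h1, h2⟩ := dl_surj (encL (G.rules.toList.map fun r => U.idxOf r.input :: r.output.map cd))
  refine ⟨j, ?_, h2.trans ?_⟩
  · have e : ∀ r : ContextFreeRule (Fin (m + 1)) ℕ, r ∈ (toCFG m (gi j)).rules ↔ r ∈
        (G.rules.toList.map fun r => ⟨U.idxOf r.input, r.output.map (sm U.idxOf)⟩) := fun r => by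
      refine List.mem_toFinset.trans ?_
      simp only [gi, h1, decL_encL, Function.comp_def, c1, List.map_map, List.headD_cons,
        List.tail_cons]
    refine le_antisymm (hom _ _ (fun k => U.getD k G.initial) rfl fun r hr => ?_)
      (hom _ _ U.idxOf (by simp [U, toCFG]) fun r hr => ?_)
    · replace hr := (e r).1 hr
      obtain ⟨r, hr', rfl⟩ := List.mem_map.1 hr
      replace hr := hr'
      have k : ∀ A ∈ r.input :: r.output.filterMap nt, U.getD (U.idxOf A) G.initial = A :=
        fun A hA => by
          have : A ∈ U := List.mem_cons_of_mem _ (List.mem_flatMap.2 ⟨r, hr, hA⟩)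
          rw [List.getD_eq_getElem _ _ (List.idxOf_lt_length_of_mem this), List.getElem_idxOf]
      refine (congrArg (· ∈ G.rules) (ContextFreeRule.ext ?_ ?_)).mpr (Finset.mem_toList.1 hr)
      · exact k _ List.mem_cons_self
      · refine List.map_map.trans ((List.map_congr_left ?_).trans (List.map_id _))
        rintro (a | A) ha
        · rfl
        · exact congrArg Symbol.nonterminal
            (k A (List.mem_cons_of_mem _ (List.mem_filterMap.2 ⟨_, ha, rfl⟩)))
    · exact (e _).2 (List.mem_map.2 ⟨r, Finset.mem_toList.2 hr, rfl⟩)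
  · refine Nat.add_le_add_right (Nat.mul_le_mul_left _ (encL_bound _ _ _ ?_ fun r hr => ?_)) _
    · rw [gs, List.length_map, ← List.length_map (fun r => 1 + r.output.length)]
      exact List.length_le_sum_of_one_le _ fun x hx => by
        obtain ⟨r, _, rfl⟩ := List.mem_map.1 hx; omega
    · obtain ⟨r, hr', rfl⟩ := List.mem_map.1 hr
      have := List.single_le_sum (fun _ _ => Nat.zero_le _) _
        (List.mem_map_of_mem (f := fun r : ContextFreeRule _ _ => 1 + r.output.length) hr')
      refine ⟨by simp; omega, fun x hx => ?_⟩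
      have k : ∀ A, U.idxOf A ≤ U.length := fun A => List.idxOf_le_length
      rcases List.mem_cons.1 hx with rfl | hx
      · have := k r.input; omega
      · obtain ⟨a | A, -, rfl⟩ := List.mem_map.1 hx
        · have := a.2; simp only [cd]; omega
        · have := k A; simp only [cd]; omega

end Pool.Agent.Lead.Teach
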