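import Pool.Agent.Lead.TkDefs
import Pool.Agent.Lead.SGr
import Pool.Agent.Lead.Ak1

namespace Pool.Agent.Lead.Tk

open Set Topology Filter Pool.Agent.Lead.Gro Pool.Agent.Lead.Ak Pool.Agent.Lead.Lin

theorem eb : Eberlein (OnePoint W1) := by
  refine ⟨inferInstance, inferInstance, OnePoint W1, inferInstance, inferInstance, inferInstance,
    fun p => ⟨fun q => q.elim 0 (sg p), (OnePoint.continuous_iff_from_discrete _).2 ?_⟩, ?_⟩
  · refine tendsto_const_nhds.congr' (Set.Subsingleton.finite fun a ha b hb => ?_)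
    have h : ∀ a : W1, ¬ (0 : ℝ) = sg p a → p = ↑a := fun a ha => by
      by_contra hn
      simp [sg, hn] at ha
    exact OnePoint.coe_injective ((h a ha).symm.trans (h b hb))
  · refine (Continuous.isClosedEmbedding (Continuous.subtype_mk (continuous_pi fun q => ?_) _)
      fun p p' h => ?_).isEmbedding
    · induction q using OnePoint.rec with
      | infty => exact continuous_const
      | coe a => exact (continuous_apply a).comp sg_cont
    · have h1 : ∀ a : W1, p = ↑a ↔ p' = ↑a := fun a => by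
        have : sg p a = sg p' a := congrFun (congrArg Subtype.val h) ↑a
        by_cases h1 : p = ↑a <;> by_cases h2 : p' = ↑a <;> simp_all [sg]
      induction p using OnePoint.rec with
      | coe a => exact ((h1 a).1 rfl).symm
      | infty =>
        induction p' using OnePoint.rec with
        | coe a => exact (h1 a).2 rfl
        | infty => rfl

theorem ub {C : Set W1} (hC : C.Countable) : ∃ g, ∀ c ∈ C, c < g := by
  by_contra hn
  push Not at hn
  exact W1_unc ((hC.biUnion fun c _ => W1_iic c).mono fun g _ => mem_iUnion₂.2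
    (let ⟨c, h1, h2⟩ := hn g; ⟨c, h1, h2⟩))

theorem fam : ∃ f : W1 → Cp (OnePoint W1), (∀ b, (f b).1 OnePoint.infty = 0) ∧
    (∀ b : W1, (f b).1 ↑b = 2) ∧ (∀ a b : W1, a < b → 0 < (f b).1 ↑a ∧ (f b).1 ↑a ≤ 1) ∧
    ∀ a b : W1, b < a → (f b).1 ↑a = 0 := by
  classical
  choose r hr using fun b : W1 => countable_iff_exists_injOn.1 (W1_iic b)
  refine ⟨fun b => ⟨fun p => p.elim 0 fun a => if a < b then 1 / ((r b a : ℝ) + 1) else
    if a = b then 2 else 0, (OnePoint.continuous_iff_from_discrete _).2 ?_⟩, fun b => rfl,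
    fun b => by simp, fun a b h => ?_, fun a b h => by simp [h.not_gt, h.ne']⟩
  · rw [Metric.tendsto_nhds]
    intro ε hε
    obtain ⟨n, hn⟩ := exists_nat_one_div_lt hε
    refine (((finite_Iic n).preimage' fun m _ => ?_ :
      ((fun a : Iic b => r b a.1) ⁻¹' Iic n).Finite).image Subtype.val |>.insert b).subset ?_
    · exact Set.Subsingleton.finite fun a ha a' ha' =>
        Subtype.ext (hr b a.2 a'.2 (ha.trans ha'.symm))
    · intro a ha
      simp only [mem_compl_iff, mem_ofPred_eq, OnePoint.elim_some, OnePoint.elim_infty,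
        dist_zero_right, not_lt] at ha
      by_cases h : a = b
      · exact Or.inl h
      by_cases h' : a < b
      · refine Or.inr ⟨⟨a, h'.le⟩, ?_, rfl⟩
        rw [if_pos h', Real.norm_of_nonneg (by positivity)] at ha
        have := lt_of_one_div_lt_one_div (by positivity) (hn.trans_le ha)
        show r b a ≤ n
        exact_mod_cast (show (r b a : ℝ) ≤ n by linarith)
      · rw [if_neg h', if_neg h, norm_zero] at ha
        linarith
  · simp only [OnePoint.elim_some, if_pos h]
    exact ⟨by positivity, (div_le_one (by positivity)).2 (by linarith [Nat.cast_nonneg (α := ℝ) (r b a)])⟩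

open Classical in
noncomputable def pt {P J : Type} (C : J → Set P) (p : P) : J → ℝ :=
  fun j => if p ∈ C j then 1 else 0

theorem occurs {P J : Type} (e : P → W1) (he : Function.Injective e) (C : J → Set P)
    (hC : ∀ j, (C j).Countable) (hK : IsClosed (insert 0 (range (pt C))))
    (Q : ∀ (B : Type) [TopologicalSpace B], Prop)
    (hQ : ∀ (B : Type) [TopologicalSpace B] (j : B → J → ℝ), IsEmbedding j →
      range j = insert 0 (range (pt C)) → Q B) : Occurs Q := by
  classical
  obtain ⟨f, f0, f1, f2, f3⟩ := fam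
  have fle : ∀ a b : W1, a ≠ b → (f b).1 ↑a ≤ 1 := fun a b h => by
    rcases lt_or_gt_of_ne h with h | h
    · exact (f2 a b h).2
    · rw [f3 a b h]; exact zero_le_one
  let S : Set (Cp (OnePoint W1)) := {s | s.1 OnePoint.infty ≠ 0} ∪ range f
  let g : S := ⟨⟨fun _ => 1, continuous_const⟩, Or.inl one_ne_zero⟩
  let F : W1 → S := fun b => ⟨f b, Or.inr ⟨b, rfl⟩⟩
  have key : ∀ D : Set W1, D.Countable → ∃ ψ : S → ℝ, Continuous ψ ∧ ψ g = 0 ∧
      (∀ b ∈ D, ψ (F b) = 1) ∧ ∀ b ∉ D, ψ (F b) = 0 := by
    intro D hD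
    obtain ⟨γ, hγ⟩ := ub hD
    have := (W1_iic γ).to_subtype
    let π : S → ℝ × (Iic γ → ℝ) := fun s => (s.1.1 OnePoint.infty, fun a => s.1.1 ↑a.1)
    have hc : ∀ x, Continuous fun s : S => s.1.1 x := fun x =>
      (continuous_apply x).comp (continuous_subtype_val.comp continuous_subtype_val)
    have hπ : Continuous π := (hc _).prodMk (continuous_pi fun a => hc _)
    have c2 : ∀ a : Iic γ, Continuous fun y : ℝ × (Iic γ → ℝ) => y.2 a :=
      fun a => (continuous_apply a).comp continuous_snd
    obtain ⟨h, h0, h1, -⟩ := exists_continuous_zero_one_of_isClosed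
      (X := range π) (s := Subtype.val ⁻¹' closure (insert (π g) (π '' (F '' Dᶜ))))
      (t := Subtype.val ⁻¹' closure (π '' (F '' D)))
      (isClosed_closure.preimage continuous_subtype_val)
      (isClosed_closure.preimage continuous_subtype_val) (by
        rw [disjoint_left]
        rintro ⟨_, s, rfl⟩ hB hA
        have a1 : (π s).1 = 0 := closure_minimal (t := {y : ℝ × (Iic γ → ℝ) | y.1 = 0})
          (by rintro _ ⟨_, ⟨b, -, rfl⟩, rfl⟩; exact f0 b)
          (isClosed_eq continuous_fst continuous_const) hA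
        obtain ⟨d, hd⟩ := s.2.resolve_left (not_not.2 a1)
        by_cases hdD : d ∈ D
        · have := closure_minimal (t := {y : ℝ × (Iic γ → ℝ) | y.2 ⟨d, (hγ d hdD).le⟩ ≤ 1})
            (by
              rintro _ (rfl | ⟨_, ⟨b, hb, rfl⟩, rfl⟩)
              · exact le_refl (1 : ℝ)
              · exact fle d b fun h => hb (h ▸ hdD))
            (isClosed_le (c2 _) continuous_const) hB
          have h3 : s.1.1 ↑d ≤ 1 := this
          rw [← hd, f1] at h3
          norm_num at h3
        rcases le_or_gt d γ with h | h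
        · have := closure_minimal (t := {y : ℝ × (Iic γ → ℝ) | y.2 ⟨d, h⟩ ≤ 1})
            (by
              rintro _ ⟨_, ⟨b, hb, rfl⟩, rfl⟩
              exact fle d b fun h => hdD (h ▸ hb))
            (isClosed_le (c2 _) continuous_const) hA
          have h3 : s.1.1 ↑d ≤ 1 := this
          rw [← hd, f1] at h3
          norm_num at h3
        · have := closure_minimal (t := {y : ℝ × (Iic γ → ℝ) | y.2 ⟨γ, mem_Iic.2 le_rfl⟩ = 0})
            (by
              rintro _ ⟨_, ⟨b, hb, rfl⟩, rfl⟩
              exact f3 γ b (hγ b hb))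
            (isClosed_eq (c2 _) continuous_const) hA
          have h3 : s.1.1 ↑γ = 0 := this
          rw [← hd] at h3
          exact (f2 γ d h).1.ne' h3)
    exact ⟨fun s => h ⟨π s, s, rfl⟩, h.continuous.comp (hπ.subtype_mk _),
      h0 (subset_closure (Or.inl rfl)), fun b hb => h1 (subset_closure ⟨_, ⟨b, hb, rfl⟩, rfl⟩),
      fun b hb => h0 (subset_closure (Or.inr ⟨_, ⟨b, hb, rfl⟩, rfl⟩))⟩
  choose ψ ψ1 ψ2 ψ3 ψ4 using fun j => key (e '' C j) ((hC j).image e)
  let φ : S → J → ℝ := fun s j => ψ j s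
  have hsub : insert 0 (range (pt C)) ⊆ range φ := by
    rintro _ (rfl | ⟨p, rfl⟩)
    · exact ⟨g, funext ψ2⟩
    · refine ⟨F (e p), funext fun j => ?_⟩
      by_cases h : p ∈ C j
      · simp only [pt, if_pos h]
        exact ψ3 j _ ⟨p, h, rfl⟩
      · simp only [pt, if_neg h]
        exact ψ4 j _ fun h' => h (he.mem_set_image.1 h')
  have hcp : IsCompact (insert 0 (range (pt C))) :=
    (isCompact_univ_pi fun _ => isCompact_Icc (a := (0 : ℝ)) (b := 1)).of_isClosed_subset hK (by
      rintro _ (rfl | ⟨p, rfl⟩) j _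
      · exact ⟨le_rfl, zero_le_one⟩
      · simp only [pt]; split_ifs <;> norm_num)
  refine ⟨OnePoint W1, inferInstance, eb, S, ?_, range φ, inferInstance, inferInstance,
    rangeFactorization φ, (continuous_pi ψ1).subtype_mk _, rangeFactorization_surjective,
    Subtype.val ⁻¹' insert 0 (range (pt C)),
    (IsInducing.subtypeVal.isCompact_preimage_iff (by rwa [Subtype.range_coe])).2 hcp,
    hQ _ (fun b => b.1.1) (IsEmbedding.subtypeVal.comp IsEmbedding.subtypeVal) ?_⟩
  · refine Dense.mono subset_union_left fun s => ?_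
    have hc : Continuous fun t : ℝ => (⟨fun x => s.1 x + t, s.2.add continuous_const⟩ :
        Cp (OnePoint W1)) :=
      (continuous_pi fun x => continuous_const.add continuous_id).subtype_mk _
    have h1 := (hc.tendsto 0).mono_left (nhdsWithin_le_nhds (s := {-s.1 OnePoint.infty}ᶜ))
    simp only [add_zero] at h1
    have : (𝓝[{-s.1 OnePoint.infty}ᶜ] (0 : ℝ)).NeBot :=
      mem_closure_iff_nhdsWithin_neBot.1 (dense_compl_singleton _ _)
    refine mem_closure_of_tendsto h1 ?_
    filter_upwards [self_mem_nhdsWithin] with t ht h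
    exact ht (by simp only [mem_singleton_iff] at h ⊢; linarith)
  · ext y
    exact ⟨by rintro ⟨b, rfl⟩; exact b.2, fun h => ⟨⟨⟨y, hsub h⟩, h⟩, rfl⟩⟩

theorem loc {J : Type} {B O Z : Set (J → ℝ)} {y : J → ℝ} (hy : y ∈ closure B) (hO : IsOpen O)
    (h : y ∈ O) (hZ : IsClosed Z) (h' : O ∩ B ⊆ Z) : y ∈ Z :=
  closure_minimal h' hZ (hO.inter_closure ⟨h, hy⟩)

theorem pt_ne {P J : Type} {C : J → Set P} {p : P} {j : J} : pt C p j ≠ 0 ↔ p ∈ C j := by
  simp [pt]

instance : WellFoundedLT W1 := inferInstanceAs (WellFoundedLT (Cardinal.aleph 1).ord.ToType)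

theorem B1_closed : IsClosed (insert 0 (range (pt (Iic : W1 → Set W1)))) := by
  refine isClosed_of_closure_subset fun y hy => ?_
  by_cases h : y = 0
  · exact Or.inl h
  have hne : {a | y a ≠ 0}.Nonempty := Function.ne_iff.1 h
  have hm := wellFounded_lt.min_mem _ hne
  refine Or.inr ⟨wellFounded_lt.min _ hne, funext fun a => ?_⟩
  rcases le_or_gt (wellFounded_lt.min _ hne) a with h1 | h1
  · refine Eq.trans (by simp [pt, h1]) (loc (Z := {z | 1 = z a}) hy
      (isOpen_ne_fun (continuous_apply _) continuous_const) hm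
      (isClosed_eq continuous_const (continuous_apply a)) ?_)
    rintro _ ⟨h2, rfl | ⟨b, rfl⟩⟩
    · exact absurd rfl h2
    · have : b ≤ a := (pt_ne.1 h2).trans h1
      simp [pt, this]
  · have : y a = 0 := by
      by_contra h2
      exact wellFounded_lt.not_lt_min {a | y a ≠ 0} h2 h1
    simp [pt, this, h1]

theorem B1_zero : (0 : W1 → ℝ) ∈ closure (range (pt (Iic : W1 → Set W1))) := by
  rw [mem_closure_iff]
  intro O hO h0
  obtain ⟨I, u, h1, h2⟩ := isOpen_pi_iff.1 hO _ h0
  obtain ⟨g, hg⟩ := ub I.countable_toSet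
  refine ⟨_, h2 fun a ha => ?_, mem_range_self g⟩
  simpa [pt, (hg a ha).not_ge] using (h1 a ha).2

theorem B1_cnt {A : Set (W1 → ℝ)} (hA : A ⊆ range (pt (Iic : W1 → Set W1))) (hc : A.Countable) :
    (0 : W1 → ℝ) ∉ closure A := by
  intro h
  choose b hb using fun a : A => hA a.2
  have := hc.to_subtype
  obtain ⟨g, hg⟩ := ub (countable_range b)
  have := closure_minimal (t := {z : W1 → ℝ | z g = 1}) (fun a ha => by
    have := hb ⟨a, ha⟩
    simp only at this
    rw [← this]
    simp [pt, (hg _ (mem_range_self ⟨a, ha⟩)).le])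
    (isClosed_eq (continuous_apply g) continuous_const) h
  simp at this

theorem occ1 (Q : ∀ (B : Type) [TopologicalSpace B], Prop)
    (hQ : ∀ (B : Type) [TopologicalSpace B] (A : Set B) (z : B), z ∈ closure A → A = {z}ᶜ →
      (∀ A0 ⊆ A, A0.Countable → z ∉ closure A0) → Q B) : Occurs Q := by
  refine occurs id Function.injective_id Iic W1_iic B1_closed Q fun B _ j hj hr => ?_
  obtain ⟨z, hz⟩ : (0 : W1 → ℝ) ∈ range j := hr ▸ mem_insert _ _
  have h0 : (0 : W1 → ℝ) ∉ range (pt (Iic : W1 → Set W1)) := by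
    rintro ⟨b, hb⟩
    exact (pt_ne (C := Iic) (j := b)).2 (mem_Iic.2 le_rfl) (congrFun hb b)
  have h1 : j '' {z}ᶜ = range (pt (Iic : W1 → Set W1)) := by
    rw [image_compl_eq_range_sdiff_image hj.injective, hr, image_singleton, hz,
      insert_sdiff_self_of_notMem h0]
  refine hQ B _ z ?_ rfl fun A0 h2 h3 h4 => ?_
  · rw [hj.closure_eq_preimage_closure_image, h1, mem_preimage, hz]
    exact B1_zero
  · rw [hj.closure_eq_preimage_closure_image, mem_preimage, hz] at h4
    exact B1_cnt (h1 ▸ image_mono h2) (h3.image j) h4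

theorem occ_a : Occurs fun B _ => ¬ CountablyTight B :=
  occ1 _ fun _ _ A z h1 _ h3 h => let ⟨A0, a1, a2, a3⟩ := h A z h1; h3 A0 a1 a2 a3

theorem occ_b : Occurs fun B _ => ¬ SequentialSpace B :=
  occ1 _ fun B _ A z h1 h2 h3 h => by
    have : IsClosed A := IsSeqClosed.isClosed fun x p hx hp => by
      rw [h2]
      rintro rfl
      exact h3 (range x) (range_subset_iff.2 hx) (countable_range x)
        (mem_closure_of_tendsto hp (Eventually.of_forall mem_range_self))
    rw [this.closure_eq, h2] at h1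
    exact h1 rfl

abbrev Nd : Type := ℕ × Finset ℕ

def nd (x : ℕ → Bool) (n : ℕ) : Nd := (n, (Finset.range n).filter fun i => x i = true)

def C2 (x : W1 → ℕ → Bool) : Nd ⊕ W1 → Set (Nd ⊕ W1)
  | Sum.inl s => {Sum.inl s}
  | Sum.inr a => insert (Sum.inr a) (range fun n => Sum.inl (nd (x a) n))

theorem ad {x y : ℕ → Bool} (h : x ≠ y) : (range (nd x) ∩ range (nd y)).Finite := by
  obtain ⟨k, hk⟩ := Function.ne_iff.1 h
  refine ((finite_Iic k).image (nd x)).subset ?_
  rintro _ ⟨⟨n, rfl⟩, m, hm⟩
  refine ⟨n, ?_, rfl⟩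
  by_contra hn
  obtain ⟨rfl, h2⟩ := Prod.ext_iff.1 hm
  have := Finset.ext_iff.1 h2 k
  simp only [nd, Finset.mem_filter, Finset.mem_range, (show k < m from not_le.1 hn), true_and] at this
  exact hk (Bool.eq_iff_iff.2 this.symm)

theorem B2_closed {x : W1 → ℕ → Bool} (hx : Function.Injective x) :
    IsClosed (insert 0 (range (pt (C2 x)))) := by
  refine isClosed_of_closure_subset fun y hy => ?_
  by_cases h1 : ∃ s, y (Sum.inl s) ≠ 0
  · obtain ⟨s, hs⟩ := h1
    refine Or.inr ⟨Sum.inl s, Eq.symm (loc (Z := {pt (C2 x) (Sum.inl s)}) hy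
      (isOpen_ne_fun (continuous_apply _) continuous_const) hs isClosed_singleton ?_)⟩
    rintro _ ⟨h2, rfl | ⟨p, rfl⟩⟩
    · exact absurd rfl h2
    · have : p = Sum.inl s := pt_ne.1 h2
      rw [this]; rfl
  push Not at h1
  by_cases h2 : ∃ a, y (Sum.inr a) ≠ 0
  · obtain ⟨a, ha⟩ := h2
    refine Or.inr ⟨Sum.inr a, funext fun j => ?_⟩
    rcases j with s | b
    · simp [pt, C2, h1]
    by_cases hab : b = a
    · subst hab
      refine Eq.trans (by simp [pt, C2]) (loc (Z := {z | 1 = z (Sum.inr b)}) hy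
        (isOpen_ne_fun (continuous_apply _) continuous_const) ha
        (isClosed_eq continuous_const (continuous_apply _)) ?_)
      rintro _ ⟨h2, rfl | ⟨p, rfl⟩⟩
      · exact absurd rfl h2
      · simp [pt, pt_ne.1 h2]
    · refine Eq.trans (by simp [pt, C2, Ne.symm hab]) (loc (Z := {z | 0 = z (Sum.inr b)})
        (O := {z | z (Sum.inr a) ≠ 0} ∩ ⋂ s ∈ range (nd (x a)) ∩ range (nd (x b)),
          {z | z (Sum.inl s) ≠ 1}) hy
        ((isOpen_ne_fun (continuous_apply _) continuous_const).inter
          ((ad (hx.ne (Ne.symm hab))).isOpen_biInter fun s _ =>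
            isOpen_ne_fun (continuous_apply _) continuous_const))
        ⟨ha, mem_iInter₂.2 fun s _ => by simp [h1]⟩
        (isClosed_eq continuous_const (continuous_apply _)) ?_)
      rintro _ ⟨⟨h2, h3⟩, rfl | ⟨p, rfl⟩⟩
      · rfl
      · by_contra h4
        rcases pt_ne.1 h2 with rfl | ⟨n, rfl⟩
        · exact h4 (by simp [pt, C2, Ne.symm hab])
        · rcases pt_ne.1 (Ne.symm h4) with h5 | ⟨m, h5⟩
          · exact absurd h5 Sum.inl_ne_inr
          · exact mem_iInter₂.1 h3 (nd (x a) n) ⟨⟨n, rfl⟩, m, Sum.inl_injective h5⟩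
              (by simp [pt, C2])
  · push Not at h2
    exact Or.inl (funext fun j => by rcases j with s | b; exacts [h1 s, h2 b])

theorem B2_lim {x : W1 → ℕ → Bool} (hx : Function.Injective x) (a : W1) :
    Tendsto (fun n => pt (C2 x) (Sum.inl (nd (x a) n))) atTop (𝓝 (pt (C2 x) (Sum.inr a))) := by
  have hinj : Function.Injective (nd (x a)) := fun m n h => congrArg Prod.fst h
  refine tendsto_pi_nhds.2 fun j => tendsto_const_nhds.congr' ?_
  rw [← Nat.cofinite_eq_atTop]
  rcases j with s | b
  · filter_upwards [hinj.tendsto_cofinite (finite_singleton s).compl_mem_cofinite] with n hn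
    have : nd (x a) n ≠ s := hn
    simp [pt, C2, this]
  by_cases hab : b = a
  · subst hab
    exact Eventually.of_forall fun n => by simp [pt, C2]
  · filter_upwards [hinj.tendsto_cofinite (ad (hx.ne (Ne.symm hab))).compl_mem_cofinite] with n hn
    have : ∀ m, nd (x b) m ≠ nd (x a) n := fun m h => hn ⟨⟨n, rfl⟩, m, h⟩
    simp [pt, C2, Ne.symm hab, this]

open Cardinal in
theorem occ_c : Occurs fun B _ => ¬ Monolithic B := by
  have hW : #W1 = ℵ₁ := mk_ord_toType _
  obtain ⟨x⟩ : Nonempty (W1 ↪ (ℕ → Bool)) := by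
    rw [← Cardinal.le_def, hW]
    simpa using aleph_one_le_continuum
  obtain ⟨e⟩ : Nonempty (Nd ⊕ W1 ↪ W1) := by
    rw [← Cardinal.le_def, mk_sum, lift_id, lift_id, hW]
    exact (add_eq_right (aleph0_le_aleph 1) (mk_le_aleph0.trans (aleph0_le_aleph 1))).le
  refine occurs e e.injective (C2 x) (by
    rintro (s | a)
    · exact countable_singleton _
    · exact (countable_range _).insert _) (B2_closed x.injective) _ fun B _ j hj hr h => ?_
  choose b hb using fun p => (show pt (C2 x) p ∈ range j from hr ▸ Or.inr (mem_range_self p))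
  obtain ⟨N, h1, h2⟩ := h (range fun s => b (Sum.inl s)) (infinite_range_of_injective
    fun s s' h => by
      have h3 := congrFun ((hb _).symm.trans ((congrArg j h).trans (hb _))) (Sum.inl s)
      by_contra hn
      simp [pt, C2, Ne.symm hn] at h3)
  have h3 : ∀ a, b (Sum.inr a) ∈ closure (range fun s => b (Sum.inl s)) := fun a => by
    rw [hj.closure_eq_preimage_closure_image, mem_preimage, hb]
    exact mem_closure_of_tendsto (B2_lim x.injective a)
      (Eventually.of_forall fun n => ⟨_, mem_range_self _, hb _⟩)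
  choose M m1 m2 m3 using fun a => h2 {z | j z.1 (Sum.inr a) ≠ 0}
    (isOpen_ne_fun ((continuous_apply _).comp (hj.continuous.comp continuous_subtype_val))
      continuous_const) ⟨_, h3 a⟩ (by simp [hb, pt, C2])
  have hN : N.Countable := le_aleph0_iff_set_countable.1
    (h1.trans (le_aleph0_iff_set_countable.2 (countable_range _)))
  refine W1_unc ((hN.preimage_of_injOn (f := M) fun a _ a' _ h => ?_).mono fun a _ => m1 a)
  have := m3 a' (h ▸ m2 a)
  simpa [hb, pt, C2] using this

end Pool.Agent.Lead.Tk
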