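import Pool.Agent.Lead.GroDefs
import Pool.Agent.Lead.TightDefs

namespace Pool.Agent.Lead.Tk

open Cardinal Pool.Agent.Lead.Gro

/-- `X` is compact Hausdorff and embeds in `C_p(K)` for a compact Hausdorff `K`. -/
def Eberlein (X : Type) [TopologicalSpace X] : Prop :=
  CompactSpace X ∧ T2Space X ∧ ∃ (K : Type) (_ : TopologicalSpace K), CompactSpace K ∧ T2Space K ∧
    ∃ e : X → Cp K, Topology.IsEmbedding e

/-- The closure of every infinite set `A` has a network of cardinality at most `|A|`. -/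
def Monolithic (Z : Type) [TopologicalSpace Z] : Prop :=
  ∀ A : Set Z, A.Infinite → ∃ N : Set (Set (closure A)), #N ≤ #A ∧
    ∀ U : Set (closure A), IsOpen U → ∀ x ∈ U, ∃ M ∈ N, x ∈ M ∧ M ⊆ U

/-- Some compact subset `B` of a Tychonoff continuous image of a dense subspace of `C_p(X)`,
`X` Eberlein compact, has the property `Q`. -/
def Occurs (Q : ∀ (B : Type) [TopologicalSpace B], Prop) : Prop :=
  ∃ (X : Type) (_ : TopologicalSpace X), Eberlein X ∧ ∃ S : Set (Cp X), Dense S ∧
    ∃ (Y : Type) (_ : TopologicalSpace Y), T35Space Y ∧ ∃ φ : S → Y, Continuous φ ∧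
      Function.Surjective φ ∧ ∃ B : Set Y, IsCompact B ∧ Q B

end Pool.Agent.Lead.Tk
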