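import Pool.Agent.Lead.Mod1

/-! Frames whose relation is compatible with a well-quasi-order are tunable. -/

namespace Pool.Agent.Lead.Mod

variable {W : Type} [Preorder W] [WellQuasiOrderedLE W] {R : W → W → Prop}

lemma wf_lower : WellFounded (fun D' D : Set W => IsLowerSet D' ∧ IsLowerSet D ∧ D' ⊂ D) := by
  rw [wellFounded_iff_isEmpty_descending_chain]
  refine ⟨fun ⟨f, hf⟩ => ?_⟩
  choose x hx1 hx2 using fun n => Set.exists_of_ssubset (hf n).2.2
  obtain ⟨m, n, hmn, h⟩ := wellQuasiOrdered_le (α := W) x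
  have anti : Antitone f := antitone_nat_of_succ_le fun n => (hf n).2.2.1
  exact hx2 m ((hf m).1 h (anti (Nat.succ_le_of_lt hmn) (hx1 n)))

theorem tunable_aux (h1 : ∀ x y, R x y → x ≤ y) (h2 : ∀ x x' y, x ≤ x' → R x' y → R x y)
    (D : Set W) : IsLowerSet D → ∀ (ι : Type) [Finite ι] (c : W → ι),
      (∀ x y, c x = c y → x ∈ D → y ∈ D) →
      (∀ x x' y, x ∉ D → c x = c x' → R x y → ∃ y', R x' y' ∧ c y' = c y) →
      ∃ (κ : Type) (_ : Finite κ) (d : W → κ), (∀ x y, d x = d y → c x = c y) ∧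
        ∀ x x' y, d x = d x' → R x y → ∃ y', R x' y' ∧ d y' = d y := by
  classical
  induction D using (wf_lower (W := W)).induction with
  | _ D ih =>
  intro hD ι _ c sep tun
  rcases D.eq_empty_or_nonempty with rfl | hne
  · exact ⟨ι, inferInstance, c, fun _ _ h => h, fun x x' y h hy => tun x x' y (by simp) h hy⟩
  let c1 : W → ι × Set ι := fun x => (c x, {i | x ∈ D ∧ ∃ y, y ∉ D ∧ R x y ∧ c y = i})
  let S : W → Set (ι × Set ι) := fun x => {k | ∃ y ∈ D, R x y ∧ c1 y = k}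
  obtain ⟨x0, hx0⟩ := exists_minimalFor_of_wellFoundedLT (· ∈ D) S hne
  have hS : ∀ x ∈ D, x0 ≤ x → S x = S x0 := by
    intro x hx hle
    have : S x ≤ S x0 := by
      rintro k ⟨y, hy, hxy, hk⟩
      exact ⟨y, hy, h2 _ _ _ hle hxy, hk⟩
    exact le_antisymm this (hx0.2 hx this)
  let D' : Set W := {x | x ∈ D ∧ ¬ x0 ≤ x}
  have hD' : IsLowerSet D' := fun a b hab ha => ⟨hD hab ha.1, fun h => ha.2 (h.trans hab)⟩
  have out : ∀ y y', y ∉ D → c y' = c y → (c1 y', y' ∈ D') = (c1 y, y ∈ D') := by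
    intro y y' hy h
    have hy' : y' ∉ D := fun hh => hy (sep _ _ h hh)
    simp [c1, D', h, hy, hy']
  obtain ⟨κ, hκ, d, hd1, hd2⟩ := ih D' ⟨hD', hD, fun x hx => hx.1,
    fun h => (h hx0.1).2 le_rfl⟩ hD' ((ι × Set ι) × Prop) (fun x => (c1 x, x ∈ D'))
    (fun x y h hx => (iff_of_eq (congrArg Prod.snd h)).1 hx) (by
      intro x x' y hx h hxy
      have e1 : c1 x = c1 x' := congrArg Prod.fst h
      have e2 : c x = c x' := congrArg Prod.fst e1
      have hx' : x' ∉ D' := fun hh => hx ((iff_of_eq (congrArg Prod.snd h)).2 hh)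
      by_cases hxD : x ∈ D
      · have hxD' := sep _ _ e2 hxD
        have hle : x0 ≤ x := by by_contra hc; exact hx ⟨hxD, hc⟩
        have hle' : x0 ≤ x' := by by_contra hc; exact hx' ⟨hxD', hc⟩
        by_cases hy : y ∈ D
        · have : c1 y ∈ S x' := by
            rw [hS x' hxD' hle', ← hS x hxD hle]; exact ⟨y, hy, hxy, rfl⟩
          obtain ⟨y', hy', hxy', e⟩ := this
          refine ⟨y', hxy', Prod.ext e (propext ?_)⟩
          exact iff_of_false (fun h => h.2 (hle'.trans (h1 _ _ hxy')))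
            (fun h => h.2 (hle.trans (h1 _ _ hxy)))
        · have : c y ∈ (c1 x').2 := by rw [← e1]; exact ⟨hxD, y, hy, hxy, rfl⟩
          obtain ⟨-, y', -, hxy', e⟩ := this
          exact ⟨y', hxy', out y y' hy e⟩
      · obtain ⟨y', hxy', e⟩ := tun x x' y hxD e2 hxy
        exact ⟨y', hxy', out y y' (fun h => hxD (hD (h1 _ _ hxy) h)) e⟩)
  exact ⟨κ, hκ, d, fun x y h => congrArg (fun p => p.1.1) (hd1 x y h), hd2⟩

theorem tunable (h1 : ∀ x y, R x y → x ≤ y) (h2 : ∀ x x' y, x ≤ x' → R x' y → R x y)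
    (ι : Type) [Finite ι] (c : W → ι) :
    ∃ (κ : Type) (_ : Finite κ) (d : W → κ), (∀ x y, d x = d y → c x = c y) ∧
      ∀ x x' y, d x = d x' → R x y → ∃ y', R x' y' ∧ d y' = d y :=
  tunable_aux h1 h2 Set.univ isLowerSet_univ ι c (by simp) (by simp)

end Pool.Agent.Lead.Mod
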