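import Pool.Agent.Lead.UniDefs
import Pool.Agent.Lead.PsiG

set_option autoImplicit false

open Set Topology Filter TopologicalSpace Cardinal

namespace Pool.Agent.TEx

theorem card_cp (U : Type) [TopologicalSpace U] [CompactSpace U] (h : WeightLE U 𝔠) :
    #(Cp U) ≤ 𝔠 := by
  obtain ⟨B, hB, hc⟩ := h
  have h1 : ∀ (f : Cp U) (p : ℚ × ℚ), ∃ s : Finset B, p.1 < p.2 →
      {x | f.1 x ≤ p.1} ⊆ ⋃ b ∈ s, b.1 ∧ ⋃ b ∈ s, b.1 ⊆ {x | f.1 x < p.2} := fun f p => by
    by_cases hp : p.1 < p.2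
    · obtain ⟨s, hs⟩ := (isClosed_le f.2 (continuous_const (y := (p.1 : ℝ)))).isCompact.elim_finite_subcover
        (fun b : {b : B // b.1 ⊆ {x | f.1 x < p.2}} => b.1.1) (fun b => hB.isOpen b.1.2)
        fun x hx => by
          obtain ⟨b, h1, h2, h3⟩ := hB.exists_subset_of_mem_open
            (show x ∈ {x | f.1 x < p.2} from
              lt_of_le_of_lt (show f.1 x ≤ p.1 from hx) (Rat.cast_lt.2 hp))
            (isOpen_lt f.2 continuous_const)
          exact mem_iUnion.2 ⟨⟨⟨b, h1⟩, h3⟩, h2⟩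
      refine ⟨s.map (Function.Embedding.subtype _), fun _ => ⟨fun x hx => ?_, ?_⟩⟩
      · obtain ⟨b, h1, h2⟩ := mem_iUnion₂.1 (hs hx)
        exact mem_biUnion (Finset.mem_map_of_mem _ h1) h2
      · refine iUnion₂_subset fun b hb => ?_
        obtain ⟨b', -, rfl⟩ := Finset.mem_map.1 hb
        exact b'.2
    · exact ⟨∅, fun h => absurd h hp⟩
  choose s hs using h1
  have key : ∀ f g : Cp U, s f = s g → ∀ x, ¬ f.1 x < g.1 x := fun f g h x hx => by
    obtain ⟨p, h1, h2⟩ := exists_rat_btwn hx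
    obtain ⟨q, h3, h4⟩ := exists_rat_btwn h2
    have h5 : p < q := by exact_mod_cast h3
    have h6 := (hs f (p, q) h5).1 h1.le
    rw [h] at h6
    exact lt_asymm h4 ((hs g (p, q) h5).2 h6)
  have hinj : Function.Injective s := fun f g h => Subtype.ext (funext fun x =>
    le_antisymm (not_lt.1 (key g f h.symm x)) (not_lt.1 (key f g h x)))
  refine (mk_le_of_injective hinj).trans ?_
  have h2 : #(Finset B) ≤ 𝔠 := by
    rcases finite_or_infinite B with h | h
    · exact mk_le_aleph0.trans aleph0_le_continuum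
    · rwa [mk_finset_of_infinite]
  rw [← power_def, mk_eq_aleph0 (ℚ × ℚ), ← continuum_power_aleph0]
  exact power_le_power_right h2

theorem coord_open {ι : Type} (i : ι) (b : Bool) : IsOpen {z : ι → Bool | z i = b} :=
  (isOpen_discrete ({b} : Set Bool)).preimage (continuous_apply (A := fun _ : ι => Bool) i)

theorem weight_cube {ι : Type} (hι : #ι ≤ 𝔠) (K : Set (ι → Bool)) : WeightLE K 𝔠 := by
  classical
  refine ⟨range fun F : Finset (ι × Bool) => {y : K | ∀ p ∈ F, y.1 p.1 = p.2},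
    isTopologicalBasis_of_isOpen_of_nhds ?_ fun y U hy hU => ?_, mk_range_le.trans ?_⟩
  · rintro _ ⟨F, rfl⟩
    simp only [Set.ofPred_forall]
    exact isOpen_biInter_finset fun p _ => (coord_open p.1 p.2).preimage continuous_subtype_val
  · obtain ⟨V, hV, hV'⟩ := (mem_nhds_subtype _ _ _).1 (hU.mem_nhds hy)
    rw [nhds_pi, Filter.mem_pi] at hV
    obtain ⟨I, hI, t, ht, hs⟩ := hV
    refine ⟨_, ⟨hI.toFinset.image fun i => (i, y.1 i), rfl⟩, fun p hp => ?_,
      fun z hz => hV' (hs fun i hi => ?_)⟩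
    · obtain ⟨i, -, rfl⟩ := Finset.mem_image.1 hp
      rfl
    · have := hz _ (Finset.mem_image_of_mem _ (hI.mem_toFinset.2 hi))
      rw [show z.1 i = y.1 i from this]
      exact mem_of_mem_nhds (ht i)
  · rcases finite_or_infinite (ι × Bool) with h | h
    · exact mk_le_aleph0.trans aleph0_le_continuum
    · rw [mk_finset_of_infinite, mk_prod]
      simp only [lift_id, mk_fintype, Fintype.card_bool, Nat.cast_ofNat]
      calc #ι * 2 ≤ 𝔠 * 𝔠 := mul_le_mul' hι ((nat_lt_continuum 2).le)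
        _ = 𝔠 := continuum_mul_self

section mrowka
variable {J : Type} (B : J → Set ℕ)

open Classical in
noncomputable def xp (S : Set J) (n : ℕ) : ℕ ⊕ S → Bool :=
  Sum.elim (fun m => decide (m = n)) fun a => decide (n ∈ B a)

abbrev KK (S : Set J) : Set (ℕ ⊕ S → Bool) := closure (range (xp B S))

instance (S : Set J) : CompactSpace (KK B S) :=
  isCompact_iff_compactSpace.1 isClosed_closure.isCompact

noncomputable def xx (S : Set J) (n : ℕ) : KK B S := ⟨xp B S n, subset_closure ⟨n, rfl⟩⟩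

noncomputable def co (S : Set J) (i : ℕ ⊕ S) (y : KK B S) : ℝ := if y.1 i = true then 1 else 0

theorem cont_co (S : Set J) (i : ℕ ⊕ S) : Continuous (co B S i) :=
  (continuous_of_discreteTopology (f := fun b : Bool => if b = true then (1 : ℝ) else 0)).comp
    ((continuous_apply i).comp continuous_subtype_val)

noncomputable def qf (S : Set J) (s : Finset ℕ) : Cp (KK B S) :=
  ⟨fun y => ∑ k ∈ s, co B S (Sum.inl k) y, continuous_finsetSum _ fun _ _ => cont_co B S _⟩

theorem qf_xx (S : Set J) (s : Finset ℕ) (n : ℕ) :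
    (qf B S s).1 (xx B S n) = if n ∈ s then 1 else 0 := by
  simp only [qf, co, xx, xp, Sum.elim_inl, decide_eq_true_eq, Finset.sum_ite_eq']

theorem isol (S : Set J) (y : KK B S) (n : ℕ) (h : y.1 (Sum.inl n) = true) : y = xx B S n := by
  have ho : IsOpen {z : ℕ ⊕ S → Bool | z (Sum.inl n) = true} :=
    coord_open _ _
  have := closure_mono (t := {xp B S n}) ?_ (ho.inter_closure ⟨h, y.2⟩)
  · rw [closure_singleton] at this
    exact Subtype.ext this
  · rintro _ ⟨h1, m, rfl⟩
    have : n = m := by simpa [xp] using h1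
    rw [this]; rfl

theorem uniq (hB : ∀ a b, a ≠ b → (B a ∩ B b).Finite) (S : Set J) (y : KK B S)
    (hy : ∀ n, y ≠ xx B S n) : {a : S | y.1 (Sum.inr a) = true}.Subsingleton := by
  intro a ha b hb
  by_contra hne
  have ho : IsOpen ({z : ℕ ⊕ S → Bool | z (Sum.inr a) = true} ∩ {z | z (Sum.inr b) = true}) :=
    (coord_open _ _).inter (coord_open _ _)
  have := closure_mono (t := xp B S '' (B a ∩ B b)) ?_ (ho.inter_closure ⟨⟨ha, hb⟩, y.2⟩)
  · rw [((hB a b fun h => hne (Subtype.ext h)).image _).isClosed.closure_eq] at this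
    obtain ⟨n, -, hn⟩ := this
    exact hy n (Subtype.ext hn.symm)
  · rintro _ ⟨⟨h1, h2⟩, m, rfl⟩
    exact ⟨m, ⟨by simpa [xp] using h1, by simpa [xp] using h2⟩, rfl⟩

theorem cp_cont {X : Type} [TopologicalSpace X] (F : Cp X → ℝ) (hF : Continuous F) (h : Cp X)
    {ε : ℝ} (hε : 0 < ε) :
    ∃ A : Set X, A.Finite ∧ ∀ g : Cp X, (∀ x ∈ A, g.1 x = h.1 x) → |F g - F h| < ε := by
  have h1 : {f : Cp X | |F f - F h| < ε} ∈ 𝓝 h :=
    (isOpen_lt (by fun_prop) continuous_const).mem_nhds (by simpa using hε)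
  obtain ⟨V, hV, hV'⟩ := (mem_nhds_subtype _ _ _).1 h1
  rw [nhds_pi, Filter.mem_pi] at hV
  obtain ⟨I, hI, u, hu, hs⟩ := hV
  exact ⟨I, hI, fun g hg => hV' (hs fun x hx => by rw [hg x hx]; exact mem_of_mem_nhds (hu x))⟩

open Classical in
theorem approx (hB : ∀ a b, a ≠ b → (B a ∩ B b).Finite) (S : Set J) (F : Cp (KK B S) → ℝ)
    (hF : Continuous F) : ∃ C : Set S, C.Countable ∧ ∀ a ∉ C, ∀ᶠ m in atTop,
      |F ⟨co B S (Sum.inr a), cont_co B S _⟩ -
        F (qf B S ((Finset.range m).filter (· ∈ B a)))| < 1 / 4 := by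
  choose A hA hA' using fun h => cp_cont F hF h (ε := 1 / 8) (by norm_num)
  have hb : ∀ h, ∃ m, ∀ n, xx B S n ∈ A h → n < m := fun h => by
    have hinj : Function.Injective (xx B S) := fun n n' h => by
      simpa [xx, xp] using congrFun (congrArg Subtype.val h) (Sum.inl n)
    obtain ⟨m, hm⟩ := ((hA h).preimage hinj.injOn).bddAbove
    exact ⟨m + 1, fun n hn => Nat.lt_succ_of_le (hm hn)⟩
  refine ⟨⋃ s, ⋃ y ∈ A (qf B S s), ⋃ _ : ∀ n, y ≠ xx B S n, {a | y.1 (Sum.inr a) = true},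
    countable_iUnion fun s => (hA _).countable.biUnion fun y _ => countable_iUnion fun h =>
      (uniq B hB S y h).countable, fun a ha => ?_⟩
  obtain ⟨m0, hm0⟩ := hb ⟨co B S (Sum.inr a), cont_co B S _⟩
  filter_upwards [eventually_ge_atTop m0] with m hm
  obtain ⟨m', hm'⟩ := hb (qf B S ((Finset.range m).filter (· ∈ B a)))
  let g : Cp (KK B S) := ⟨fun y => co B S (Sum.inr a) y -
      (qf B S ((Finset.Ico m m').filter (· ∈ B a))).1 y, (cont_co B S _).sub (qf B S _).2⟩
  have hq0 : ∀ y : KK B S, (∀ n, y ≠ xx B S n) → ∀ s, (qf B S s).1 y = 0 := fun y hy s =>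
    Finset.sum_eq_zero fun k _ => if_neg fun h => hy k (isol B S y k h)
  have hco : ∀ n, co B S (Sum.inr a) (xx B S n) = if n ∈ B a then 1 else 0 := fun n => by
    simp [co, xx, xp]
  have h1 := hA' ⟨co B S (Sum.inr a), cont_co B S _⟩ g fun y hy => by
    show co B S (Sum.inr a) y - _ = co B S (Sum.inr a) y
    by_cases h : ∀ n, y ≠ xx B S n
    · rw [hq0 y h, sub_zero]
    · push Not at h
      obtain ⟨n, rfl⟩ := h
      have := hm0 n hy
      rw [qf_xx, if_neg (by simp; omega), sub_zero]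
  have h2 := hA' (qf B S ((Finset.range m).filter (· ∈ B a))) g fun y hy => by
    show co B S (Sum.inr a) y - _ = _
    by_cases h : ∀ n, y ≠ xx B S n
    · rw [hq0 y h, hq0 y h, sub_zero]
      exact if_neg fun h' => ha (mem_iUnion.2 ⟨_, mem_biUnion hy (mem_iUnion.2 ⟨h, h'⟩)⟩)
    · push Not at h
      obtain ⟨n, rfl⟩ := h
      have := hm' n hy
      rw [qf_xx, qf_xx, hco]
      by_cases h1 : n ∈ B a <;> by_cases h2 : n < m <;> simp [h1, h2, this, not_lt.1]
  rw [abs_lt] at h1 h2 ⊢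
  constructor <;> linarith [h1.1, h1.2, h2.1, h2.2]

theorem to_inf (hB : ∀ a b, a ≠ b → (B a ∩ B b).Finite) (S : Set J) (a : J) (ha : a ∉ S) :
    Tendsto (xp B S) (cofinite ⊓ 𝓟 (B a)) (𝓝 fun _ => false) := by
  refine tendsto_pi_nhds.2 fun i => tendsto_const_nhds.congr' ?_
  rcases i with m | b
  · refine mem_inf_of_left (mem_of_superset (finite_singleton m).compl_mem_cofinite
      fun n hn => ?_)
    have : m ≠ n := fun h => hn h.symm
    simp [xp, this]
  · have hne : a ≠ b := fun h => ha (h ▸ b.2)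
    refine mem_of_superset (inter_mem_inf (hB a b hne).compl_mem_cofinite (mem_principal_self _))
      fun n hn => ?_
    have : n ∉ B b := fun h => hn.1 ⟨hn.2, h⟩
    simp [xp, this]

end mrowka

theorem no_universal (U : Type) [TopologicalSpace U] [CompactSpace U] (hU : WeightLE U 𝔠) :
    ∃ (K : Type) (_ : TopologicalSpace K), CompactSpace K ∧ T2Space K ∧ WeightLE K 𝔠 ∧
      ¬ TEmbeds K U := by
  classical
  obtain ⟨e⟩ : Nonempty (ℝ × ℝ ↪ Set ℕ) := by
    rw [← Cardinal.le_def]; simp [mk_real]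
  obtain ⟨B0, hB1, hB2⟩ := PsiG.exists_ad (ℝ × ℝ) e
  let B : ℝ × ℝ → Set ℕ := fun a => Encodable.encode '' B0 a
  have hBi : ∀ a, (B a).Infinite := fun a => (hB1 a).image Encodable.encode_injective.injOn
  have hB : ∀ a b, a ≠ b → (B a ∩ B b).Finite := fun a b h => by
    rw [← image_inter Encodable.encode_injective]
    exact (hB2 a b h).image _
  by_contra hc
  have h1 : ∀ S : Set ℝ, TEmbeds (KK B (Prod.fst ⁻¹' S)) U := fun S => by
    by_contra h
    refine hc ⟨_, inferInstance, inferInstance, inferInstance, weight_cube ?_ _, h⟩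
    rw [mk_sum, lift_id, lift_id, mk_nat]
    calc ℵ₀ + #(Prod.fst ⁻¹' S : Set (ℝ × ℝ)) ≤ 𝔠 + 𝔠 :=
          add_le_add aleph0_le_continuum ((mk_set_le _).trans (by simp [mk_real]))
      _ = 𝔠 := continuum_add_self
  choose i hi φ hφ hφ' using h1
  have key : ∀ S S' : Set ℝ, (fun s => φ S (qf B _ s)) = (fun s => φ S' (qf B _ s)) → S ⊆ S' := by
    intro S S' h j hj
    by_contra hj'
    choose C hC hC' using fun n => approx B hB _ (fun g => (φ S g).1 (i S' (xx B _ n)))
      ((continuous_apply _).comp (continuous_subtype_val.comp (hφ S)))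
    obtain ⟨r, hr⟩ : ∃ r : ℝ, (⟨(j, r), hj⟩ : (Prod.fst ⁻¹' S : Set (ℝ × ℝ))) ∉ ⋃ n, C n := by
      by_contra h
      push Not at h
      exact not_countable_univ (((countable_iUnion hC).preimage
        (f := fun r : ℝ => (⟨(j, r), hj⟩ : (Prod.fst ⁻¹' S : Set (ℝ × ℝ))))
        fun r r' h => congrArg (fun p => p.1.2) h).mono fun r _ => h r)
    let H : KK B (Prod.fst ⁻¹' S') → ℝ := fun y =>
      (φ S ⟨co B _ (Sum.inr ⟨(j, r), hj⟩), cont_co B _ _⟩).1 (i S' y)
    have hH : Continuous H := (φ S _).2.comp (hi S').continuous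
    have h2 : ∀ n, |H (xx B _ n) - if n ∈ B (j, r) then 1 else 0| < 1 / 4 := fun n => by
      obtain ⟨m, hm, hm'⟩ := ((hC' n _ fun h => hr (mem_iUnion.2 ⟨n, h⟩)).and
        (eventually_gt_atTop n)).exists
      rw [congrFun h _, hφ', qf_xx] at hm
      simpa [hm'] using hm
    have hne : ∀ a, (cofinite ⊓ 𝓟 (B a)).NeBot := fun a =>
      frequently_iff_neBot.1 (frequently_cofinite_iff_infinite.2 (hBi a))
    have h3 : ∀ a : ℝ × ℝ, a.1 = j → ∃ z : KK B (Prod.fst ⁻¹' S'), z.1 = (fun _ => false) ∧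
        Tendsto (fun n => H (xx B _ n)) (cofinite ⊓ 𝓟 (B a)) (𝓝 (H z)) := fun a ha => by
      have := hne a
      have h4 := to_inf B hB (Prod.fst ⁻¹' S') a (fun h => hj' (ha ▸ h))
      exact ⟨⟨_, mem_closure_of_tendsto h4 (Eventually.of_forall fun n => ⟨n, rfl⟩)⟩, rfl,
        (hH.tendsto _).comp (tendsto_subtype_rng.2 h4)⟩
    obtain ⟨z, hz, hz'⟩ := h3 (j, r) rfl
    obtain ⟨z', hz1, hz1'⟩ := h3 (j, r + 1) rfl
    obtain rfl : z = z' := Subtype.ext (hz.trans hz1.symm)
    have := hne (j, r)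
    have := hne (j, r + 1)
    have h4 : 3 / 4 ≤ H z := ge_of_tendsto hz' (mem_inf_of_right fun n hn => by
      have h5 := h2 n
      rw [if_pos hn] at h5
      show 3 / 4 ≤ H _
      linarith [(abs_lt.1 h5).1])
    have h5 : H z ≤ 1 / 4 := le_of_tendsto hz1' (mem_of_superset
      (inter_mem_inf (hB (j, r + 1) (j, r) (by simp)).compl_mem_cofinite (mem_principal_self _))
      fun n hn => by
        have h5 := h2 n
        rw [if_neg fun h => hn.1 ⟨hn.2, h⟩] at h5
        show H _ ≤ 1 / 4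
        linarith [(abs_lt.1 h5).2])
    linarith
  have hinj : Function.Injective fun (S : Set ℝ) (s : Finset ℕ) => φ S (qf B _ s) :=
    fun S S' h => (key S S' h).antisymm (key S' S h.symm)
  have h2 := mk_le_of_injective hinj
  rw [mk_set, mk_real, ← power_def, mk_eq_aleph0 (Finset ℕ)] at h2
  have h3 := h2.trans (power_le_power_right (card_cp U hU))
  rw [continuum_power_aleph0] at h3
  exact absurd (cantor 𝔠) (not_lt.2 h3)

end Pool.Agent.TEx
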