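import Pool.Agent.Lead.TExDefs

set_option autoImplicit false

namespace Pool.Agent.TEx

/-- The weight of `X` is at most `κ`: `X` has a base of cardinality at most `κ`. -/
def WeightLE (X : Type) [TopologicalSpace X] (κ : Cardinal.{0}) : Prop :=
  ∃ B : Set (Set X), TopologicalSpace.IsTopologicalBasis B ∧ Cardinal.mk B ≤ κ

/-- `K` can be t-embedded in `U`. -/
def TEmbeds (K U : Type) [TopologicalSpace K] [TopologicalSpace U] : Prop :=
  ∃ e : K → U, Topology.IsEmbedding e ∧
    ∃ φ : Cp K → Cp U, Continuous φ ∧ ∀ (f : Cp K) (x : K), (φ f).1 (e x) = f.1 x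

end Pool.Agent.TEx
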