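import Pool.Agent.Lead.UrnDefs

namespace Pool.Agent.Lead.Urn

open MeasureTheory ProbabilityTheory Finset Preorder

theorem exists_law {α : Type} [Fintype α] [Inhabited α] [MeasurableSpace α]
    [DiscreteMeasurableSpace α] (π : (ℕ → α) → ℕ → Measure α)
    (hp : ∀ h n, IsProbabilityMeasure (π h n))
    (hπ : ∀ h g n, (∀ m < n, h m = g m) → π h n = π g n) :
    ∃ P : Measure (ℕ → α), IsProbabilityMeasure P ∧ ∀ h n,
      P {ω | ∀ m ≤ n, ω m = h m} = P {ω | ∀ m < n, ω m = h m} * π h n {h n} := by
  classical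
  let ext : (a : ℕ) → (Iic a → α) → ℕ → α := fun a x m =>
    if hm : m + 1 ≤ a then x ⟨m + 1, mem_Iic.2 hm⟩ else default
  let κ : (n : ℕ) → Kernel (Π _ : Iic n, α) α := fun a =>
    Kernel.ofFunOfCountable fun x => π (ext a x) a
  have hκ : ∀ n, IsMarkovKernel (κ n) := fun n => ⟨fun x => hp _ _⟩
  let Q : Measure (ℕ → α) := Kernel.trajMeasure (X := fun _ => α) (Measure.dirac default) κ
  have hQ : IsProbabilityMeasure Q := inferInstance
  let sh : (ℕ → α) → ℕ → α := fun ω m => ω (m + 1)
  have hsh : Measurable sh := by fun_prop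
  have hm1 : ∀ (h : ℕ → α) (p : ℕ → Prop), MeasurableSet {ω : ℕ → α | ∀ m, p m → ω m = h m} := by
    intro h p
    simp only [Set.ofPred_forall]
    exact MeasurableSet.iInter fun m => MeasurableSet.iInter fun _ =>
      (measurableSet_singleton (h m)).preimage (f := fun ω : ℕ → α => ω m)
        (measurable_pi_apply m)
  refine ⟨Q.map sh, Measure.isProbabilityMeasure_map hsh.aemeasurable, fun h n => ?_⟩
  rw [Measure.map_apply hsh (hm1 h _), Measure.map_apply hsh (hm1 h _)]
  let A : Set (Iic n → α) := {x | ∀ m < n, ext n x m = h m}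
  have hA : MeasurableSet A := (Set.toFinite A).measurableSet
  have key := congrArg (fun μ => μ (A ×ˢ {h n}))
    (Kernel.map_frestrictLe_trajMeasure_compProd_eq_map_trajMeasure (X := fun _ => α)
      (μ₀ := Measure.dirac default) (κ := κ) (a := n))
  rw [Measure.compProd_apply_prod hA (measurableSet_singleton _),
    Measure.map_apply (by fun_prop) (hA.prod (measurableSet_singleton _)),
    setLIntegral_congr_fun (g := fun _ => π h n {h n}) hA
      (fun x hx => by
        show π (ext n x) n {h n} = _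
        rw [hπ _ h n hx]), setLIntegral_const, Measure.map_apply (by fun_prop) hA] at key
  have e1 : frestrictLe n ⁻¹' A = sh ⁻¹' {ω | ∀ m < n, ω m = h m} := by
    ext ω
    simp only [A, ext, sh, Set.mem_preimage, Set.mem_ofPred_eq]
    refine forall₂_congr fun m hm => ?_
    rw [dif_pos (by omega)]
    rfl
  have e2 : (fun x : ℕ → α => (frestrictLe n x, x (n + 1))) ⁻¹' (A ×ˢ {h n}) =
      sh ⁻¹' {ω | ∀ m ≤ n, ω m = h m} := by
    ext ω
    have := Set.ext_iff.1 e1 ω
    simp only [Set.mem_preimage, Set.mem_ofPred_eq] at this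
    simp only [Set.mem_preimage, Set.mem_prod, Set.mem_ofPred_eq, Set.mem_singleton_iff, this]
    exact ⟨fun ⟨a, b⟩ m hm => (lt_or_eq_of_le hm).elim (a m) (fun e => e ▸ b),
      fun a => ⟨fun m hm => a m hm.le, a n le_rfl⟩⟩
  rw [e1, e2] at key
  rw [mul_comm]
  exact key.symm

variable {d : ℕ}

lemma tot_congr (init : Fin d → ℕ) (c : Bool) {h g : ℕ → Fin d → Bool} {n : ℕ}
    (e : ∀ m < n, h m = g m) : tot init c h n = tot init c g n := by
  unfold tot
  congr 1
  exact sum_congr rfl fun m hm => by rw [e m (mem_range.1 hm)]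

lemma tot_succ (init : Fin d → ℕ) (c : Bool) (h : ℕ → Fin d → Bool) (n : ℕ) :
    tot init c h (n + 1) = tot init c h n + (univ.filter fun i => h n i = c).card := by
  unfold tot
  rw [sum_range_succ, add_assoc]

theorem exists_urn (W : ℕ → ℝ) (hW : ∀ n, 0 < W n) (B0 R0 : Fin d → ℕ) :
    ∃ P, IsUrnLaw W B0 R0 P := by
  have h0 : ∀ h n, 0 ≤ pB W B0 R0 h n := fun h n =>
    div_nonneg (hW _).le (add_pos (hW _) (hW _)).le
  have h1 : ∀ h n, pB W B0 R0 h n ≤ 1 := fun h n =>
    (div_le_one (add_pos (hW _) (hW _))).2 (le_add_of_nonneg_right (hW _).le)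
  let be : ℝ → Measure Bool := fun p =>
    ENNReal.ofReal p • Measure.dirac true + ENNReal.ofReal (1 - p) • Measure.dirac false
  have hbe : ∀ h n, IsProbabilityMeasure (be (pB W B0 R0 h n)) := fun h n => ⟨by
    simp only [be, Measure.coe_add, Measure.coe_smul, Pi.add_apply, Pi.smul_apply,
      measure_univ, smul_eq_mul, mul_one]
    rw [← ENNReal.ofReal_add (h0 h n) (sub_nonneg.2 (h1 h n))]
    simp⟩
  obtain ⟨P, hP, hc⟩ := exists_law (α := Fin d → Bool)
    (fun h n => Measure.pi fun _ => be (pB W B0 R0 h n)) (fun h n => inferInstance)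
    (fun h g n e => by simp only [pB, tot_congr _ _ e])
  refine ⟨P, hP, fun h n => ?_⟩
  simp only [Measure.real, hc h n, ENNReal.toReal_mul, Measure.pi_singleton, ENNReal.toReal_prod]
  congr 1
  refine prod_congr rfl fun i _ => ?_
  cases h n i <;> simp [be, h0, h1]

/-- a nonnegative function that is a supermartingale off F and at least one on F bounds the
probability of ever entering F -/
theorem hit_le (W : ℕ → ℝ) (B0 R0 : Fin d → ℕ) (P : Measure (ℕ → Fin d → Bool))
    (hP : IsUrnLaw W B0 R0 P) (F : ℕ → ℕ → Prop) (Φ : ℕ → ℕ → ℝ) (G : ℕ → ℕ → Prop)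
    (hG : ∀ h n, G (tot B0 true h n) (tot R0 false h n))
    (h0 : ∀ x y, 0 ≤ Φ x y) (h1 : ∀ x y, F x y → 1 ≤ Φ x y)
    (hs : ∀ x y, G x y → ¬ F x y → ∑ v : Fin d → Bool,
      (∏ i, (if v i = true then W x / (W x + W y) else 1 - W x / (W x + W y))) *
        Φ (x + (univ.filter fun i => v i = true).card)
          (y + (univ.filter fun i => v i = false).card) ≤ Φ x y) :
    P.real {ω | ∃ m, F (tot B0 true ω m) (tot R0 false ω m)} ≤ Φ (∑ i, B0 i) (∑ i, R0 i) := by
  classical
  obtain ⟨hp, hc⟩ := hP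
  have key : ∀ s n h, P.real ({ω | ∀ m < n, ω m = h m} ∩
      {ω | ∃ m, n ≤ m ∧ m < n + s ∧ F (tot B0 true ω m) (tot R0 false ω m)}) ≤
      P.real {ω | ∀ m < n, ω m = h m} * Φ (tot B0 true h n) (tot R0 false h n) := by
    intro s
    induction s with
    | zero =>
      intro n h
      rw [Set.eq_empty_of_forall_notMem (s := _ ∩ _) (by rintro ω ⟨-, m, a, b, -⟩; omega)]
      simpa using mul_nonneg measureReal_nonneg (h0 _ _)
    | succ s ih =>
      intro n h
      by_cases hF : F (tot B0 true h n) (tot R0 false h n)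
      · exact (measureReal_mono Set.inter_subset_left).trans
          (le_mul_of_one_le_right measureReal_nonneg (h1 _ _ hF))
      have hu : ∀ v, ∀ m < n, Function.update h n v m = h m := fun v m hm =>
        Function.update_of_ne hm.ne _ _
      refine (measureReal_mono (s₂ := ⋃ v : Fin d → Bool,
        ({ω | ∀ m < n + 1, ω m = Function.update h n v m} ∩
        {ω | ∃ m, n + 1 ≤ m ∧ m < n + 1 + s ∧ F (tot B0 true ω m) (tot R0 false ω m)})) ?_).trans
        ((measureReal_iUnion_fintype_le _).trans ?_)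
      · rintro ω ⟨a, m, b, c, e⟩
        refine Set.mem_iUnion.2 ⟨ω n, fun k hk => ?_, m, ?_, by omega, e⟩
        · rcases Nat.lt_succ_iff_lt_or_eq.1 hk with hk | rfl
          · rw [hu _ _ hk, a k hk]
          · simp
        · by_contra hm
          obtain rfl : m = n := by omega
          rw [tot_congr _ _ a, tot_congr _ _ a] at e
          exact hF e
      refine (sum_le_sum fun v _ => ih (n + 1) _).trans ?_
      refine le_trans (le_of_eq ?_) (mul_le_mul_of_nonneg_left (hs _ _ (hG h n) hF)
        measureReal_nonneg)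
      rw [mul_sum]
      refine sum_congr rfl fun v _ => ?_
      have := hc (Function.update h n v) n
      simp only [Nat.lt_succ_iff]
      rw [this, tot_succ, tot_succ]
      simp only [pB, tot_congr _ _ (hu v), Function.update_self]
      rw [show {ω : ℕ → Fin d → Bool | ∀ m < n, ω m = Function.update h n v m} =
        {ω | ∀ m < n, ω m = h m} from Set.ext fun ω => forall₂_congr fun m hm => by rw [hu v m hm],
        mul_assoc]
  have e : {ω | ∃ m, F (tot B0 true ω m) (tot R0 false ω m)} =
      ⋃ s, {ω | ∃ m, m < s ∧ F (tot B0 true ω m) (tot R0 false ω m)} := by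
    ext ω
    simp only [Set.mem_ofPred_eq, Set.mem_iUnion]
    exact ⟨fun ⟨m, a⟩ => ⟨m + 1, m, by omega, a⟩, fun ⟨_, m, _, a⟩ => ⟨m, a⟩⟩
  have hmono : Monotone fun s => {ω | ∃ m, m < s ∧ F (tot B0 true ω m) (tot R0 false ω m)} := by
    rintro s t st ω ⟨m, a, b⟩
    exact ⟨m, by omega, b⟩
  rw [e, Measure.real, hmono.measure_iUnion]
  refine ENNReal.toReal_le_of_le_ofReal (h0 _ _) (iSup_le fun s => ?_)
  have := key s 0 default
  simp only [Nat.not_lt_zero, false_imp_iff, implies_true, Set.ofPred_true, Set.univ_inter,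
    zero_le, true_and, zero_add, probReal_univ, one_mul, tot, range_zero, sum_empty,
    add_zero] at this
  rw [← ofReal_measureReal]
  exact ENNReal.ofReal_le_ofReal this

end Pool.Agent.Lead.Urn
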