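import Pool.Agent.Lead.Urn1

namespace Pool.Agent.Lead.Urn

open MeasureTheory Finset

def len (j : ℕ) : ℕ :=
  if j % 3 = 0 then 16 * (2 ^ (j / 3)) ^ 3
  else if j % 3 = 1 then 2 ^ 40 * (2 ^ (j / 3)) ^ 15 else 2 ^ 22 * (2 ^ (j / 3)) ^ 9

def bd : ℕ → ℕ
  | 0 => 0
  | j + 1 => bd j + len j

def idx (n : ℕ) : ℕ := Nat.findGreatest (fun j => bd j ≤ n) n

noncomputable def wt (j s : ℕ) : ℝ :=
  if j % 3 = 0 then (2 ^ (j / 3)) ^ 10
  else if j % 3 = 2 ∧ s = 0 then 2 ^ 10 * (2 ^ (j / 3)) ^ 10 else 2 ^ 33 * (2 ^ (j / 3)) ^ 19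

noncomputable def WW (n : ℕ) : ℝ := wt (idx n) (n % 2)

noncomputable def aa (j : ℕ) : ℝ :=
  if j % 3 = 0 then 2 ^ 33 * (2 ^ (j / 3)) ^ 9 else 3 / (2 ^ 23 * (2 ^ (j / 3)) ^ 9)

noncomputable def cc (j s : ℕ) : ℝ := if (j % 3 = 1 ∧ s = 1) ∨ (j % 3 = 2 ∧ s = 0) then 2 else 0

noncomputable def VV (j N M : ℕ) : ℝ :=
  ((M : ℝ) - bd (j + 1) + aa j * (bd (j + 1) + 1 - N) + cc j (N % 2)) / len (j + 1)

noncomputable def EE (j : ℕ) : ℝ := (1 / 2) ^ (j + 1)

noncomputable def ph (N M : ℕ) : ℝ :=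
  if M < bd (idx N + 1) then EE (idx N) else EE (idx N + 1) + VV (idx N) N M

lemma three (j : ℕ) : ∃ k, j = 3 * k ∨ j = 3 * k + 1 ∨ j = 3 * k + 2 := ⟨j / 3, by omega⟩

lemma len_ge (j : ℕ) : 16 ≤ len j := by
  have : 1 ≤ 2 ^ (j / 3) := Nat.one_le_two_pow
  have h3 := Nat.one_le_pow 3 _ this
  have h9 := Nat.one_le_pow 9 _ this
  have h15 := Nat.one_le_pow 15 _ this
  unfold len
  split_ifs <;> omega

lemma bd_succ (j : ℕ) : bd (j + 1) = bd j + len j := rfl

lemma bd_mono : StrictMono bd := strictMono_nat_of_lt_succ fun j => by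
  have := len_ge j
  rw [bd_succ]; omega

lemma idx_eq {j n : ℕ} (h1 : bd j ≤ n) (h2 : n < bd (j + 1)) : idx n = j := by
  unfold idx
  rw [Nat.findGreatest_eq_iff]
  refine ⟨(bd_mono.id_le j).trans h1, fun _ => h1, fun k hk _ h => ?_⟩
  have := bd_mono.monotone (show j + 1 ≤ k from hk)
  omega

lemma idx_spec (n : ℕ) : bd (idx n) ≤ n ∧ n < bd (idx n + 1) := by
  refine ⟨Nat.findGreatest_spec (P := fun j => bd j ≤ n) (Nat.zero_le n) (Nat.zero_le n), ?_⟩
  by_contra h
  push Not at h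
  exact Nat.findGreatest_is_greatest (P := fun j => bd j ≤ n) (Nat.lt_succ_self _)
    ((bd_mono.id_le _).trans h) h

lemma wt_pos (j s : ℕ) : 0 < wt j s := by
  unfold wt
  split_ifs <;> positivity

lemma WW_pos (n : ℕ) : 0 < WW n := wt_pos _ _

lemma aa_pos (j : ℕ) : 0 < aa j := by
  unfold aa
  split_ifs <;> positivity

lemma cc_bd (j s : ℕ) : 0 ≤ cc j s ∧ cc j s ≤ 2 := by
  unfold cc
  split_ifs <;> norm_num

lemma EE_pos (j : ℕ) : 0 < EE j := by
  unfold EE
  positivity

section vals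
variable (k : ℕ)
lemma d0 : 3 * k / 3 = k := by omega
lemma d1 : (3 * k + 1) / 3 = k := by omega
lemma d2 : (3 * k + 2) / 3 = k := by omega
lemma d3 : (3 * k + 2 + 1) / 3 = k + 1 := by omega
lemma d4 : (3 * k + 1 + 1) / 3 = k := by omega
lemma m0 : 3 * k % 3 = 0 := by omega
lemma m1 : (3 * k + 1) % 3 = 1 := by omega
lemma m2 : (3 * k + 2) % 3 = 2 := by omega
lemma m3 : (3 * k + 2 + 1) % 3 = 0 := by omega
lemma m4 : (3 * k + 1 + 1) % 3 = 2 := by omega
end vals

lemma entry (j : ℕ) : 3 + aa j * (len j + 1) ≤ len (j + 1) * EE (j + 1) := by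
  obtain ⟨k, h⟩ := three j
  have ht : (1 : ℝ) ≤ 2 ^ k := one_le_pow₀ one_le_two
  have e : ((1 : ℝ) / 2) ^ (3 * k) = 1 / (2 ^ k) ^ 3 := by
    rw [one_div_pow, ← pow_mul, mul_comm]
  rcases h with rfl | rfl | rfl <;>
  simp only [aa, len, EE, d0, d1, d2, d3, m0, m1, m2, m3, pow_add, e] <;> norm_num <;>
  generalize (2 : ℝ) ^ k = t at *
  · have h3 := one_le_pow₀ (n := 3) ht
    have h9 := one_le_pow₀ (n := 9) ht
    have : 1099511627776 * t ^ 15 * ((t ^ 3)⁻¹ * (1 / 2) * (1 / 2)) =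
      274877906944 * (t ^ 9 * t ^ 3) := by field_simp; norm_num
    rw [this]; nlinarith
  · have h6 := one_le_pow₀ (n := 6) ht
    have h9 : 3 / (8388608 * t ^ 9) ≤ 1 := by
      rw [div_le_one (by positivity)]; nlinarith [one_le_pow₀ (n := 9) ht]
    have : 4194304 * t ^ 9 * ((t ^ 3)⁻¹ * (1 / 2) * (1 / 2) * (1 / 2)) = 524288 * t ^ 6 := by
      field_simp; norm_num
    have h2 : 3 / (8388608 * t ^ 9) * (1099511627776 * t ^ 15) = 393216 * t ^ 6 := by
      field_simp; norm_num
    rw [this, mul_add, h2]; nlinarith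
  · have h9 : 3 / (8388608 * t ^ 9) ≤ 1 := by
      rw [div_le_one (by positivity)]; nlinarith [one_le_pow₀ (n := 9) ht]
    have : 16 * (t * 2) ^ 3 * ((t ^ 3)⁻¹ * (1 / 4) * (1 / 2) * (1 / 2)) = 8 := by
      field_simp; norm_num
    have h2 : 3 / (8388608 * t ^ 9) * (4194304 * t ^ 9) = 3 / 2 := by
      field_simp; norm_num
    rw [this, mul_add, h2]; nlinarith

lemma drift (j s : ℕ) (hs : s = 0 ∨ s = 1) :
    wt (j + 1) s * (wt j s + wt (j + 1) s) - aa j * wt j s * (wt j s + wt (j + 1) s) +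
      (cc j (1 - s) - cc j s) * (wt j s * wt (j + 1) s) ≤ 0 := by
  obtain ⟨k, h⟩ := three j
  have ht : (0 : ℝ) < 2 ^ k := by positivity
  have h2 : 3 / (8388608 * ((2 : ℝ) ^ k) ^ 9) * (8589934592 * (2 ^ k) ^ 19) =
      3072 * (2 ^ k) ^ 10 := by field_simp; norm_num
  rcases h with rfl | rfl | rfl <;> rcases hs with rfl | rfl <;>
  simp only [aa, wt, cc, d0, d1, d2, d3, m0, m1, m2, m3, pow_add] <;> norm_num <;>
  generalize (2 : ℝ) ^ k = t at *
  · exact le_of_eq (by ring)
  · exact le_of_eq (by ring)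
  · rw [h2]; nlinarith [pow_pos ht 20]
  · rw [h2]; nlinarith [pow_pos ht 29]
  · have : 0 ≤ 3 / (8388608 * t ^ 9) * (1024 * t ^ 10) * (1024 * t ^ 10 + (t * 2) ^ 10) := by
      positivity
    nlinarith
  · rw [h2]; nlinarith [pow_pos ht 20]

lemma cost (j s : ℕ) : len j * (1 / wt j s) ≤ 4096 * (1 / 2) ^ (j / 3) := by
  obtain ⟨k, h⟩ := three j
  have ht : (1 : ℝ) ≤ 2 ^ k := one_le_pow₀ one_le_two
  rcases h with rfl | rfl | rfl <;>
  simp only [wt, len, d0, d1, d2, m0, m1, m2, one_div_pow] <;> norm_num <;>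
  generalize (2 : ℝ) ^ k = t at *
  · field_simp; nlinarith [one_le_pow₀ (n := 6) ht]
  · field_simp; nlinarith [one_le_pow₀ (n := 3) ht]
  · split_ifs
    · field_simp; norm_num
    · field_simp; nlinarith [one_le_pow₀ (n := 9) ht]

lemma sum_step (j : ℕ) : ∑ n ∈ range (bd (j + 1)), 1 / WW n ≤
    ∑ n ∈ range (bd j), 1 / WW n + 4096 * (1 / 2) ^ (j / 3) := by
  rw [bd_succ, sum_range_add]
  gcongr
  have hl : (0 : ℝ) < len j := by exact_mod_cast lt_of_lt_of_le (by norm_num) (len_ge j)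
  refine (sum_le_card_nsmul (range (len j)) (fun x => 1 / WW (bd j + x))
    (4096 * (1 / 2) ^ (j / 3) / len j) fun n hn => ?_).trans ?_
  · rw [WW, idx_eq (j := j) (by omega) (by rw [bd_succ]; have := mem_range.1 hn; omega),
      le_div_iff₀ hl, mul_comm]
    exact cost _ _
  · rw [card_range, nsmul_eq_mul, mul_div_cancel₀ _ hl.ne']

lemma summ : Summable fun n => 1 / WW n := by
  have key : ∀ k, ∑ n ∈ range (bd (3 * k)), 1 / WW n ≤ 24576 * (1 - (1 / 2) ^ k) := by
    intro k
    induction k with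
    | zero => simp [bd]
    | succ k ih =>
      have a := sum_step (3 * k)
      have b := sum_step (3 * k + 1)
      have c := sum_step (3 * k + 2)
      rw [d0] at a
      rw [d1] at b
      rw [d2] at c
      rw [show 3 * (k + 1) = 3 * k + 2 + 1 by ring, pow_succ]
      linarith
  refine summable_of_sum_range_le (c := 24576) (fun n => (one_div_pos.2 (WW_pos n)).le) fun n => ?_
  refine (sum_le_sum_of_subset_of_nonneg (range_subset_range.2
    (show n ≤ bd (3 * n) from le_trans (show n ≤ 3 * n by omega) (bd_mono.id_le (3 * n))))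
    fun i _ _ => (one_div_pos.2 (WW_pos i)).le).trans ((key n).trans ?_)
  have : (0 : ℝ) < (1 / 2) ^ n := by positivity
  linarith

lemma len_pos (j : ℕ) : (0 : ℝ) < len j := by
  exact_mod_cast lt_of_lt_of_le (by norm_num) (len_ge j)

lemma VV_nonneg {j N M : ℕ} (h1 : N ≤ bd (j + 1) + 1) (h2 : bd (j + 1) ≤ M) : 0 ≤ VV j N M := by
  have a : (N : ℝ) ≤ bd (j + 1) + 1 := by exact_mod_cast h1
  have b : (bd (j + 1) : ℝ) ≤ M := by exact_mod_cast h2
  have := mul_nonneg (aa_pos j).le (sub_nonneg.2 a)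
  exact div_nonneg (by linarith [(cc_bd j (N % 2)).1]) (len_pos _).le

lemma ph_nonneg (N M : ℕ) : 0 ≤ ph N M := by
  unfold ph
  split_ifs with h
  · exact (EE_pos _).le
  · exact add_nonneg (EE_pos _).le (VV_nonneg (by have := (idx_spec N).2; omega) (by omega))

lemma ph_fail {N M : ℕ} (h : bd (idx N + 2) ≤ M) : 1 ≤ ph N M := by
  have h1 := bd_mono (show idx N + 1 < idx N + 2 by omega)
  rw [ph, if_neg (by omega)]
  have a : (N : ℝ) ≤ bd (idx N + 1) + 1 := by exact_mod_cast (by have := (idx_spec N).2; omega)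
  have b : (bd (idx N + 1) : ℝ) + len (idx N + 1) ≤ M := by exact_mod_cast h
  have := mul_nonneg (aa_pos (idx N)).le (sub_nonneg.2 a)
  have : 1 ≤ VV (idx N) N M :=
    (one_le_div (len_pos _)).2 (by linarith [(cc_bd (idx N) (N % 2)).1])
  linarith [EE_pos (idx N + 1)]

lemma EE_succ (j : ℕ) : EE j = 2 * EE (j + 1) := by
  unfold EE
  rw [pow_succ _ (j + 1)]; ring

lemma ph_le {j N M : ℕ} (h1 : bd j ≤ N) (h2 : N ≤ M) (h3 : M ≤ bd (j + 1) + 1) :
    ph N M ≤ EE j := by
  have hl := len_ge (j + 1)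
  have hb := bd_succ (j + 1)
  by_cases h : N < bd (j + 1)
  · rw [ph, idx_eq h1 h]
    split_ifs with h'
    · exact le_rfl
    · have a : (bd j : ℝ) ≤ N := by exact_mod_cast h1
      have b : (M : ℝ) ≤ bd (j + 1) + 1 := by exact_mod_cast h3
      have c : (bd (j + 1) : ℝ) = bd j + len j := by exact_mod_cast bd_succ j
      have : VV j N M ≤ EE (j + 1) := by
        rw [VV, div_le_iff₀ (len_pos _)]
        have := mul_le_mul_of_nonneg_left (show (bd (j + 1) : ℝ) + 1 - N ≤ len j + 1 by linarith)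
          (aa_pos j).le
        linarith [entry j, (cc_bd j (N % 2)).2]
      linarith [EE_succ j]
  · rw [ph, idx_eq (j := j + 1) (by omega) (by omega), if_pos (by omega)]
    linarith [EE_succ j, EE_pos (j + 1)]

lemma ph_up {j N M : ℕ} (h1 : bd j ≤ N) (h2 : N ≤ M) (h3 : N ≤ bd (j + 1) + 1)
    (h4 : bd (j + 1) ≤ M) (h5 : M ≤ bd (j + 2) + 1) : ph N M ≤ EE (j + 1) + VV j N M := by
  by_cases h : N < bd (j + 1)
  · rw [ph, idx_eq h1 h, if_neg (by omega)]
  · linarith [ph_le (j := j + 1) (by omega) h2 h5, VV_nonneg h3 h4]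

lemma ph_step {N M : ℕ} (h : N ≤ M) (hp : (N + M) % 2 = 0) (hF : M < bd (idx N + 2))
    (q : ℝ) (hq : q = WW N / (WW N + WW M)) :
    (1 - q) ^ 2 * ph N (M + 2) + 2 * q * (1 - q) * ph (N + 1) (M + 1) +
      q ^ 2 * ph (min (N + 2) M) (max (N + 2) M) ≤ ph N M := by
  obtain ⟨s1, s2⟩ := idx_spec N
  have hs := add_pos (WW_pos N) (WW_pos M)
  have q0 : 0 ≤ q := hq ▸ div_nonneg (WW_pos _).le hs.le
  have q1 : 0 ≤ 1 - q := sub_nonneg.2 (hq ▸ (div_le_one hs).2 (by linarith [WW_pos M]))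
  have c1 := pow_nonneg q1 2
  have c2 : 0 ≤ 2 * q * (1 - q) := by positivity
  have c3 := pow_nonneg q0 2
  set j := idx N with hj
  by_cases hM : M < bd (j + 1)
  · have a := mul_le_mul_of_nonneg_left (ph_le (M := M + 2) s1 (by omega) (by omega)) c1
    have b := mul_le_mul_of_nonneg_left
      (ph_le (j := j) (N := N + 1) (M := M + 1) (by omega) (by omega) (by omega)) c2
    have c := mul_le_mul_of_nonneg_left (ph_le (j := j) (N := min (N + 2) M) (M := max (N + 2) M)
      (by omega) (by omega) (by omega)) c3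
    rw [show ph N M = EE j by rw [ph, if_pos hM]]
    linarith
  · rw [min_eq_left (by omega), max_eq_right (by omega)]
    have a := mul_le_mul_of_nonneg_left
      (ph_up (M := M + 2) s1 (by omega) (by omega) (by omega) (by omega)) c1
    have b := mul_le_mul_of_nonneg_left (ph_up (j := j) (N := N + 1) (M := M + 1)
      (by omega) (by omega) (by omega) (by omega) (by omega)) c2
    have c := mul_le_mul_of_nonneg_left (ph_up (j := j) (N := N + 2) (M := M)
      (by omega) (by omega) (by omega) (by omega) (by omega)) c3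
    rw [show ph N M = EE (j + 1) + VV j N M by rw [ph, if_neg hM]]
    have hd := drift j (N % 2) (by omega)
    have e1 : WW N = wt j (N % 2) := rfl
    have e2 : WW M = wt (j + 1) (N % 2) := by
      rw [WW, idx_eq (j := j + 1) (by omega) hF, show M % 2 = N % 2 by omega]
    have : (1 - q) ^ 2 * VV j N (M + 2) + 2 * q * (1 - q) * VV j (N + 1) (M + 1) +
        q ^ 2 * VV j (N + 2) M - VV j N M = 2 * (WW M * (WW N + WW M) -
        aa j * WW N * (WW N + WW M) + (cc j (1 - N % 2) - cc j (N % 2)) * (WW N * WW M)) /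
        ((WW N + WW M) ^ 2 * len (j + 1)) := by
      have := len_pos (j + 1)
      simp only [VV, hq, show (N + 2) % 2 = N % 2 by omega, show (N + 1) % 2 = 1 - N % 2 by omega]
      push_cast
      field_simp
      ring
    rw [← e1, ← e2] at hd
    have h2 := div_nonpos_of_nonpos_of_nonneg (mul_nonpos_of_nonneg_of_nonpos zero_le_two hd)
      (mul_nonneg (pow_nonneg hs.le 2) (len_pos (j + 1)).le)
    linarith

lemma univ4 : (univ : Finset (Fin 2 → Bool)) =
    {![true, true], ![true, false], ![false, true], ![false, false]} := by decide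

lemma card2 (v : Fin 2 → Bool) : (univ.filter fun i => v i = true).card +
    (univ.filter fun i => v i = false).card = 2 := by revert v; decide

lemma tot_add (h : ℕ → Fin 2 → Bool) (n : ℕ) :
    tot ![1, 0] true h n + tot ![0, 1] false h n = 2 * n + 2 := by
  induction n with
  | zero => simp [tot]
  | succ n ih => rw [tot_succ, tot_succ, add_add_add_comm, ih, card2 (h n)]; ring

theorem main (P : Measure (ℕ → Fin 2 → Bool)) (hP : IsUrnLaw WW ![1, 0] ![0, 1] P) :
    P.real (Monopoly ![1, 0] ![0, 1]) ≤ 1 / 2 := by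
  have := hP.1
  have key := hit_le WW ![1, 0] ![0, 1] P hP (fun x y => bd (idx (min x y) + 2) ≤ max x y)
    (fun x y => ph (min x y) (max x y)) (fun x y => (x + y) % 2 = 0)
    (fun h n => by rw [tot_add]; omega) (fun x y => ph_nonneg _ _) (fun x y h => ph_fail h)
    (fun x y hp hF => by
      have hs := add_pos (WW_pos x) (WW_pos y)
      rw [univ4, sum_insert (by decide), sum_insert (by decide), sum_pair (by decide)]
      simp only [Fin.prod_univ_two, card_filter, Fin.sum_univ_two]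
      norm_num
      rcases le_total x y with h | h
      · rw [min_eq_left h, max_eq_right h] at hF
        have := ph_step h hp (not_le.1 hF) _ rfl
        rw [min_eq_left h, max_eq_right h, min_eq_left (by omega : x ≤ y + 2),
          max_eq_right (by omega : x ≤ y + 2)]
        linarith
      · rw [min_eq_right h, max_eq_left h] at hF
        have := ph_step h (by omega) (not_le.1 hF) (1 - WW x / (WW x + WW y))
          (by rw [add_comm (WW y)]; field_simp; ring)
        rw [min_eq_right h, max_eq_left h, min_eq_right (by omega : y ≤ x + 2),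
          max_eq_left (by omega : y ≤ x + 2), min_comm x, max_comm x]
        linarith)
  refine (measureReal_mono fun ω hω => ?_).trans (key.trans ?_)
  · have st : ∀ f : ℕ → ℕ, (∀ᶠ n in Filter.atTop, f (n + 1) = f n) →
        ∃ c n0, ∀ n ≥ n0, f n = c := fun f hf => by
      obtain ⟨n0, h0⟩ := Filter.eventually_atTop.1 hf
      exact ⟨f n0, n0, fun n hn => Nat.le_induction rfl (fun m hm ih => (h0 m hm).trans ih) n hn⟩
    rcases hω with hω | hω <;> obtain ⟨c, n0, h0⟩ := st _ hω <;>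
    · refine ⟨n0 + c + bd (idx c + 2), ?_⟩
      have e := tot_add ω (n0 + c + bd (idx c + 2))
      have e2 := h0 (n0 + c + bd (idx c + 2)) (by omega)
      rw [show min (tot ![1, 0] true ω (n0 + c + bd (idx c + 2)))
        (tot ![0, 1] false ω (n0 + c + bd (idx c + 2))) = c by omega]
      omega
  · have := ph_le (j := 0) (N := 1) (M := 1) (by simp [bd]) le_rfl (by omega)
    simpa [EE] using this

end Pool.Agent.Lead.Urn
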