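import Mathlib

namespace Pool.Agent.Lead.Urn

open MeasureTheory

variable {d : ℕ}

/-- total number of balls of colour c at time n; h m i is the colour added to urn i at step m -/
def tot (init : Fin d → ℕ) (c : Bool) (h : ℕ → Fin d → Bool) (n : ℕ) : ℕ :=
  ∑ i, init i + ∑ m ∈ Finset.range n, (Finset.univ.filter fun i => h m i = c).card

/-- probability that a given urn receives a black ball (colour true) at step n -/
noncomputable def pB (W : ℕ → ℝ) (B0 R0 : Fin d → ℕ) (h : ℕ → Fin d → Bool) (n : ℕ) : ℝ :=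
  W (tot B0 true h n) / (W (tot B0 true h n) + W (tot R0 false h n))

/-- P is the law of the sequence of added colours -/
def IsUrnLaw (W : ℕ → ℝ) (B0 R0 : Fin d → ℕ) (P : Measure (ℕ → Fin d → Bool)) : Prop :=
  IsProbabilityMeasure P ∧ ∀ (h : ℕ → Fin d → Bool) (n : ℕ),
    P.real {ω | ∀ m ≤ n, ω m = h m} = P.real {ω | ∀ m < n, ω m = h m} *
      ∏ i, (if h n i = true then pB W B0 R0 h n else 1 - pB W B0 R0 h n)

/-- from some time on only one colour is added -/
def Monopoly (B0 R0 : Fin d → ℕ) : Set (ℕ → Fin d → Bool) :=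
  {ω | (∀ᶠ n in Filter.atTop, tot R0 false ω (n + 1) = tot R0 false ω n) ∨
    (∀ᶠ n in Filter.atTop, tot B0 true ω (n + 1) = tot B0 true ω n)}

end Pool.Agent.Lead.Urn
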