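import Pool.Agent.Lead.WarDefs

namespace Pool.Agent.Lead.War

open MvPolynomial

def G (v1 v2 v3 x y z : ℂ) : ℂ := 16 * x ^ 3 + 4 * y ^ 3 + 4 * z ^ 3 - (x + y + z) ^ 3
  + (v1 * x + v2 * y + v3 * z) * (3 * (16 * x ^ 2 + 8 * y ^ 2 - 8 * z ^ 2 - 4 * (x + y + z) ^ 2))

lemma key (v1 v2 v3 a b c : ℂ)
    (h : ∀ x y z, G v1 v2 v3 (x + a) (y + b) (z + c) = G v1 v2 v3 x y z) :
    a = 0 ∧ b = 0 ∧ c = 0 := by
  have e : ∀ x y z, 16 * a * x ^ 2 + 4 * b * y ^ 2 + 4 * c * z ^ 2 - (a + b + c) * (x + y + z) ^ 2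
      + (v1 * a + v2 * b + v3 * c) * (16 * x ^ 2 + 8 * y ^ 2 - 8 * z ^ 2 - 4 * (x + y + z) ^ 2)
      + 2 * (v1 * x + v2 * y + v3 * z)
        * (16 * a * x + 8 * b * y - 8 * c * z - 4 * (a + b + c) * (x + y + z)) = 0 := by
    intro x y z
    have h0 := h 0 0 0
    have h1 := h x y z
    have h2 := h (-x) (-y) (-z)
    simp only [G] at h0 h1 h2
    linear_combination (h1 + h2 - 2 * h0) / 6
  have e1 := e 1 0 0
  have e2 := e 0 1 0
  have e3 := e 0 0 1
  have e4 := e 1 1 0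
  have e5 := e 1 0 1
  have e6 := e 0 1 1
  refine ⟨?_, ?_, ?_⟩
  · by_contra hh
    have := mul_inv_cancel₀ hh
    generalize a⁻¹ = t at this
    grind (ringSteps := 10000000)
  · by_contra hh
    have := mul_inv_cancel₀ hh
    generalize b⁻¹ = t at this
    grind (ringSteps := 10000000)
  · by_contra hh
    have := mul_inv_cancel₀ hh
    generalize c⁻¹ = t at this
    grind (ringSteps := 10000000)

lemma lin {l : MvPolynomial (Fin 3) ℂ} (hl : l.IsHomogeneous 1) :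
    ∃ c : Fin 3 → ℂ, ∀ p : Fin 3 → ℂ, eval p l = c 0 * p 0 + c 1 * p 1 + c 2 * p 2 := by
  rw [← mem_homogeneousSubmodule, homogeneousSubmodule_one_eq_span_X,
    Submodule.mem_span_range_iff_exists_fun] at hl
  obtain ⟨c, rfl⟩ := hl
  exact ⟨c, fun p => by simp [Fin.sum_univ_three]⟩

noncomputable def ff : MvPolynomial (Fin 3) ℂ :=
  C 16 * X 0 ^ 3 + C 4 * X 1 ^ 3 + C 4 * X 2 ^ 3 - (X 0 + X 1 + X 2) ^ 3
noncomputable def gg : MvPolynomial (Fin 3) ℂ :=
  C 3 * (C 16 * X 0 ^ 2 + C 8 * X 1 ^ 2 - C 8 * X 2 ^ 2 - C 4 * (X 0 + X 1 + X 2) ^ 2)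

lemma s_hom : (X 0 + X 1 + X 2 : MvPolynomial (Fin 3) ℂ).IsHomogeneous 1 :=
  ((isHomogeneous_X ℂ 0).add (isHomogeneous_X ℂ 1)).add (isHomogeneous_X ℂ 2)
lemma ff_hom : ff.IsHomogeneous 3 :=
  ((((isHomogeneous_X_pow 0 3).C_mul _).add ((isHomogeneous_X_pow 1 3).C_mul _)).add
    ((isHomogeneous_X_pow 2 3).C_mul _)).sub (s_hom.pow 3)
lemma gg_hom : gg.IsHomogeneous 2 :=
  (((((isHomogeneous_X_pow 0 2).C_mul _).add ((isHomogeneous_X_pow 1 2).C_mul _)).sub
    ((isHomogeneous_X_pow 2 2).C_mul _)).sub ((s_hom.pow 2).C_mul _)).C_mul _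
lemma ff_ne : ff ≠ 0 := fun h => by
  have := congrArg (eval ![1, 0, 0]) h
  simp [ff] at this
  norm_num at this
lemma gg_ne : gg ≠ 0 := fun h => by
  have := congrArg (eval ![1, 0, 0]) h
  simp [gg] at this
  norm_num at this

lemma lower (v : MvPolynomial (Fin 3) ℂ) (hv : v.IsHomogeneous 1) (w : ℕ)
    (h : SumPow (ff + v * gg) 3 w) : 3 ≤ w := by
  by_contra hw
  obtain ⟨l, hl, e⟩ := h
  obtain ⟨cv, hcv⟩ := lin hv
  choose c hc using fun i => lin (hl i)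
  have hk := LinearMap.ker_ne_bot_of_finrank_lt (f := Matrix.toLin' (Matrix.of c)) (by simp; omega)
  obtain ⟨q, hq, hq0⟩ := Submodule.exists_mem_ne_zero_of_ne_bot hk
  have hq' : ∀ i, c i 0 * q 0 + c i 1 * q 1 + c i 2 * q 2 = 0 := fun i => by
    simpa [Matrix.mulVec, dotProduct, Fin.sum_univ_three] using congrFun (LinearMap.mem_ker.1 hq) i
  have hG : ∀ x y z, G (cv 0) (cv 1) (cv 2) x y z = ∑ i, (c i 0 * x + c i 1 * y + c i 2 * z) ^ 3 := by
    intro x y z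
    have := congrArg (eval ![x, y, z]) e
    simpa [hcv, hc, ff, gg, G] using this
  obtain ⟨h0, h1, h2⟩ := key (cv 0) (cv 1) (cv 2) (q 0) (q 1) (q 2) fun x y z => by
    rw [hG, hG]
    exact Finset.sum_congr rfl fun i _ => by
      congr 1
      linear_combination hq' i
  exact hq0 (funext fun i => by fin_cases i <;> assumption)

lemma upper : SumPow (rename some ff + X none * rename some gg) 3 5 := by
  obtain ⟨r, hr⟩ := IsAlgClosed.exists_pow_nat_eq (16 : ℂ) (n := 3) (by norm_num)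
  obtain ⟨s, hs⟩ := IsAlgClosed.exists_pow_nat_eq (4 : ℂ) (n := 3) (by norm_num)
  obtain ⟨t, ht⟩ := IsAlgClosed.exists_pow_nat_eq (48 : ℂ) (n := 3) (by norm_num)
  have hX := fun i : Option (Fin 3) => isHomogeneous_X ℂ i
  refine ⟨![C r * (X (some 0) + X none), C s * (X (some 1) + C 2 * X none),
    C s * (X (some 2) - C 2 * X none), C t * X none,
    -(X (some 0) + X (some 1) + X (some 2) + C 4 * X none)], fun i => ?_, ?_⟩
  · fin_cases i
    · exact ((hX _).add (hX _)).C_mul _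
    · exact ((hX _).add ((hX _).C_mul _)).C_mul _
    · exact ((hX _).sub ((hX _).C_mul _)).C_mul _
    · exact (hX _).C_mul _
    · exact ((((hX _).add (hX _)).add (hX _)).add ((hX _).C_mul _)).neg
  · apply MvPolynomial.funext
    intro p
    simp [Fin.sum_univ_five, ff, gg, mul_pow, hr, hs, ht]
    ring

end Pool.Agent.Lead.War
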