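import Mathlib

namespace Pool.Agent.Lead.War

/-- F is a sum of w d-th powers of linear forms -/
def SumPow {σ : Type} (F : MvPolynomial σ ℂ) (d w : ℕ) : Prop :=
  ∃ l : Fin w → MvPolynomial σ ℂ, (∀ i, (l i).IsHomogeneous 1) ∧ F = ∑ i, l i ^ d

end Pool.Agent.Lead.War
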