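import Pool.Agent.H11.PTDefs

set_option autoImplicit false

namespace Pool.Agent.Lead.Wc

/-- `G` is the list of adjacency lists of a finite simple graph on the vertices `0..n-1`. -/
def Valid (G : List (List ℕ)) : Prop :=
  ∀ v < G.length, (G.getD v []).Nodup ∧ ∀ u ∈ G.getD v [], u < G.length ∧ u ≠ v ∧ v ∈ G.getD u []

/-- the sum of the weights of the edges at `v` -/
def sig (G : List (List ℕ)) (w : Sym2 ℕ → ℝ) (v : ℕ) : ℝ :=
  ((G.getD v []).map fun u => w s(v, u)).sum

/-- some weighting of the edges with values in `S` gives adjacent vertices different sums -/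
def Colourable (S : Finset ℝ) (G : List (List ℕ)) : Prop :=
  ∃ w : Sym2 ℕ → ℝ, (∀ v < G.length, ∀ u ∈ G.getD v [], w s(v, u) ∈ S) ∧
    ∀ v < G.length, ∀ u ∈ G.getD v [], sig G w v ≠ sig G w u

/-- the problem 2-WC -/
def TwoWC (G : List (List ℕ)) : Prop :=
  Valid G ∧ ∀ S : Finset ℝ, S.card = 2 → Colourable S G

end Pool.Agent.Lead.Wc
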