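import Pool.Agent.Lead.Odd1
import Pool.Agent.Lead.WcDefs

set_option autoImplicit false

namespace Pool.Agent.Lead.Wc
open Pool.Agent.H11.PT Pool.Agent.Lead.NPc Pool.Agent.Lead.Odd

def cx (G : List (List ℕ)) (col : ℕ → ℕ → Bool) (v : ℕ) : ℕ := (G.getD v []).countP (col v)
def cy (G : List (List ℕ)) (col : ℕ → ℕ → Bool) (v : ℕ) : ℕ :=
  (G.getD v []).countP fun u => !col v u

def Good (G : List (List ℕ)) (a b : ℝ) : Prop :=
  ∃ col : ℕ → ℕ → Bool, (∀ v < G.length, ∀ u ∈ G.getD v [], col v u = col u v) ∧
    ∀ v < G.length, ∀ u ∈ G.getD v [],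
      a * cx G col v + b * cy G col v ≠ a * cx G col u + b * cy G col u

theorem sum_ite (l : List ℕ) (p : ℕ → Bool) (f : ℕ → ℝ) (a b : ℝ)
    (h : ∀ u ∈ l, f u = if p u then a else b) :
    (l.map f).sum = a * l.countP p + b * l.countP fun u => !p u := by
  induction l with
  | nil => simp
  | cons x l ih =>
    rw [List.map_cons, List.sum_cons, ih fun u hu => h u (List.mem_cons_of_mem _ hu),
      h x List.mem_cons_self]
    cases hx : p x <;> simp [List.countP_cons, hx] <;> ring

theorem col_iff {G : List (List ℕ)} (hG : Valid G) {a b : ℝ} (hab : a ≠ b) :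
    Colourable {a, b} G ↔ Good G a b := by
  classical
  constructor
  · rintro ⟨w, h1, h2⟩
    refine ⟨fun v u => decide (w s(v, u) = a), fun v _ u _ =>
      congrArg (fun z => decide (w z = a)) Sym2.eq_swap, ?_⟩
    have : ∀ v < G.length, sig G w v = a * cx G (fun v u => decide (w s(v, u) = a)) v +
        b * cy G (fun v u => decide (w s(v, u) = a)) v := by
      intro v hv
      refine sum_ite _ _ _ _ _ fun u hu => ?_
      have := h1 v hv u hu
      simp only [Finset.mem_insert, Finset.mem_singleton] at this
      by_cases h : w s(v, u) = a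
      · simp [h]
      · simp [this.resolve_left h, hab.symm]
    intro v hv u hu
    rw [← this v hv, ← this u ((hG v hv).2 u hu).1]
    exact h2 v hv u hu
  · rintro ⟨col, h1, h2⟩
    let w : Sym2 ℕ → ℝ := Sym2.lift ⟨fun u v => if col (min u v) (max u v) then a else b,
      fun u v => by simp only [min_comm, max_comm]⟩
    have hw : ∀ v < G.length, ∀ u ∈ G.getD v [], w s(v, u) = if col v u then a else b := by
      intro v hv u hu
      simp only [w, Sym2.lift_mk]
      rcases le_total v u with h | h
      · rw [min_eq_left h, max_eq_right h]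
      · rw [min_eq_right h, max_eq_left h, h1 v hv u hu]
    have : ∀ v < G.length, sig G w v = a * cx G col v + b * cy G col v :=
      fun v hv => sum_ite _ _ _ _ _ (hw v hv)
    refine ⟨w, fun v hv u hu => ?_, fun v hv u hu => ?_⟩
    · rw [hw v hv u hu]; split_ifs <;> simp
    · rw [this v hv, this u ((hG v hv).2 u hu).1]
      exact h2 v hv u hu

theorem wc_iff {G : List (List ℕ)} : TwoWC G ↔ Valid G ∧ ∀ a b : ℝ, a ≠ b → Good G a b := by
  refine and_congr_right fun hG => ⟨fun h a b hab => (col_iff hG hab).1 (h _ ?_), fun h S hS => ?_⟩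
  · exact Finset.card_pair hab
  · obtain ⟨a, b, hab, rfl⟩ := Finset.card_eq_two.1 hS
    exact (col_iff hG hab).2 (h a b hab)

theorem deg_le {G : List (List ℕ)} (hG : Valid G) {v : ℕ} (hv : v < G.length) :
    (G.getD v []).length ≤ G.length := by
  have := (List.subperm_of_subset (hG v hv).1 (show G.getD v [] ⊆ List.range G.length from
    fun u h => List.mem_range.2 ((hG v hv).2 u h).1)).length_le
  simpa using this

theorem fin_red {G : List (List ℕ)} (hG : Valid G)
    (h : ∀ A ≤ 2 * G.length, ∀ B ≤ 2 * G.length, A ≠ B →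
      Good G ((A : ℝ) - G.length) ((B : ℝ) - G.length)) (a b : ℝ) (hab : a ≠ b) : Good G a b := by
  by_cases hc : ∃ p q : ℤ, |p| ≤ G.length ∧ |q| ≤ G.length ∧ (p ≠ 0 ∨ q ≠ 0) ∧ a * p + b * q = 0
  · obtain ⟨p, q, hp, hq, h0, e⟩ := hc
    rw [abs_le] at hp hq
    have hne : q ≠ -p := by
      rintro rfl
      push_cast at e
      have : (a - b) * p = 0 := by linarith
      rcases mul_eq_zero.1 this with h | h
      · exact hab (by linarith)
      · have : p = 0 := by exact_mod_cast h
        omega
    obtain ⟨col, h1, h2⟩ := h (q + G.length).toNat (by omega) (-p + G.length).toNat (by omega)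
      (by omega)
    have e1 : (((q + G.length).toNat : ℕ) : ℝ) - G.length = q := by
      have : (((q + G.length).toNat : ℕ) : ℤ) = q + G.length := by omega
      have := congrArg (Int.cast : ℤ → ℝ) this
      push_cast at this; linarith
    have e2 : (((-p + G.length).toNat : ℕ) : ℝ) - G.length = -p := by
      have : (((-p + G.length).toNat : ℕ) : ℤ) = -p + G.length := by omega
      have := congrArg (Int.cast : ℤ → ℝ) this
      push_cast at this; linarith
    rw [e1, e2] at h2
    refine ⟨col, h1, fun v hv u hu e' => h2 v hv u hu ?_⟩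
    by_contra hd
    have hd' : (q : ℝ) * (cx G col v - cx G col u) - p * (cy G col v - cy G col u) ≠ 0 :=
      fun h => hd (by linarith)
    have a0 : a = 0 := (mul_eq_zero.1 (show a * ((q : ℝ) * (cx G col v - cx G col u) -
      p * (cy G col v - cy G col u)) = 0 by linear_combination q * e' -
        ((cy G col v : ℝ) - cy G col u) * e)).resolve_right hd'
    have b0 : b = 0 := (mul_eq_zero.1 (show b * ((q : ℝ) * (cx G col v - cx G col u) -
      p * (cy G col v - cy G col u)) = 0 by linear_combination -p * e' +
        ((cx G col v : ℝ) - cx G col u) * e)).resolve_right hd'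
    exact hab (a0.trans b0.symm)
  · rcases Nat.eq_zero_or_pos G.length with h0 | h0
    · exact ⟨fun _ _ => true, fun v hv => by omega, fun v hv => by omega⟩
    obtain ⟨col, h1, h2⟩ := h G.length (by omega) (G.length + 1) (by omega) (by omega)
    refine ⟨col, h1, fun v hv u hu e => hc ⟨(cx G col v : ℤ) - cx G col u,
      (cy G col v : ℤ) - cy G col u, ?_, ?_, Or.inr fun h0 => h2 v hv u hu ?_, ?_⟩⟩
    · have a1 := deg_le hG hv
      have a2 := deg_le hG ((hG v hv).2 u hu).1
      have a3 : cx G col v ≤ _ := List.countP_le_length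
      have a4 : cx G col u ≤ _ := List.countP_le_length
      rw [abs_le]; omega
    · have a1 := deg_le hG hv
      have a2 := deg_le hG ((hG v hv).2 u hu).1
      have a3 : cy G col v ≤ _ := List.countP_le_length
      have a4 : cy G col u ≤ _ := List.countP_le_length
      rw [abs_le]; omega
    · have : cy G col v = cy G col u := by omega
      rw [this]; simp
    · push_cast; linarith

def rc (n : ℕ) (r : List ℕ) (v u : ℕ) : Bool := r.contains (v * n + u)

def okR (G : List (List ℕ)) (A B : ℕ) (r : List ℕ) : Bool :=
  (List.range G.length).all fun v => (G.getD v []).all fun u =>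
    (rc G.length r v u == rc G.length r u v) &&
    (A * cx G (rc G.length r) v + B * cy G (rc G.length r) v +
        G.length * (cx G (rc G.length r) u + cy G (rc G.length r) u) !=
      A * cx G (rc G.length r) u + B * cy G (rc G.length r) u +
        G.length * (cx G (rc G.length r) v + cy G (rc G.length r) v))

def ver (G : List (List ℕ)) (c : List (List ℕ)) : Bool :=
  ((List.range G.length).all fun v => nd (G.getD v []) && (G.getD v []).all fun u =>
    decide (u < G.length) && (u != v) && (G.getD u []).contains v) &&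
  (List.range (2 * G.length + 1)).all fun A => (List.range (2 * G.length + 1)).all fun B =>
    (A == B) || okR G A B (c.getD (A * (2 * G.length + 1) + B) [])

theorem ne_iff (A B n x y x' y' : ℕ) :
    A * x + B * y + n * (x' + y') ≠ A * x' + B * y' + n * (x + y) ↔
    ((A : ℝ) - n) * x + ((B : ℝ) - n) * y ≠ ((A : ℝ) - n) * x' + ((B : ℝ) - n) * y' := by
  refine not_congr ⟨fun h => ?_, fun h => ?_⟩
  · have := congrArg (Nat.cast : ℕ → ℝ) h
    push_cast at this; linarith
  · have : ((A * x + B * y + n * (x' + y') : ℕ) : ℝ) = (A * x' + B * y' + n * (x + y) : ℕ) := by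
      push_cast; linarith
    exact_mod_cast this

theorem dm {n u : ℕ} (v : ℕ) (h : u < n) : (v * n + u) / n = v ∧ (v * n + u) % n = u := by
  constructor
  · rw [Nat.add_comm, Nat.add_mul_div_right _ _ (by omega), Nat.div_eq_of_lt h, Nat.zero_add]
  · rw [Nat.add_comm, Nat.add_mul_mod_self_right, Nat.mod_eq_of_lt h]

theorem wc_np : InNP TwoWC := by
  refine inNP_lists (V := ver) (by unfold ver okR cx cy rc nd; fun_prop)
    (fun G => (2 * G.length + 1) * (2 * G.length + 1))
    (fun G => G.length * G.length) (by fun_prop) (by fun_prop) (fun G c hc => ?_) fun G hG => ?_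
  · simp only [ver, okR, Bool.and_eq_true, List.all_eq_true, List.mem_range, nd_iff,
      decide_eq_true_eq, bne_iff_ne, List.contains_iff_mem, Bool.or_eq_true, beq_iff_eq,
      and_assoc] at hc
    have hG : Valid G := hc.1
    refine wc_iff.2 ⟨hG, fin_red hG fun A hA B hB hAB => ?_⟩
    have := (hc.2 A (by omega) B (by omega)).resolve_left hAB
    exact ⟨_, fun v hv u hu => (this v hv u hu).1, fun v hv u hu =>
      (ne_iff _ _ _ _ _ _ _).1 (this v hv u hu).2⟩
  · obtain ⟨hG, h⟩ := wc_iff.1 hG
    have : ∀ A B : ℕ, ∃ col : ℕ → ℕ → Bool, A ≠ B →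
        (∀ v < G.length, ∀ u ∈ G.getD v [], col v u = col u v) ∧
        ∀ v < G.length, ∀ u ∈ G.getD v [],
          ((A : ℝ) - G.length) * cx G col v + ((B : ℝ) - G.length) * cy G col v ≠
          ((A : ℝ) - G.length) * cx G col u + ((B : ℝ) - G.length) * cy G col u := by
      intro A B
      by_cases hAB : A = B
      · exact ⟨fun _ _ => true, fun h => absurd hAB h⟩
      · obtain ⟨col, hc⟩ := h ((A : ℝ) - G.length) ((B : ℝ) - G.length)
          (fun e => hAB (by exact_mod_cast (show (A : ℝ) = B by linarith)))
        exact ⟨col, fun _ => hc⟩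
    choose col hcol using this
    let R : ℕ → ℕ → List ℕ := fun A B => (List.range (G.length * G.length)).filter fun z =>
      col A B (z / G.length) (z % G.length)
    have hR : ∀ A B, ∀ v < G.length, ∀ u < G.length, rc G.length (R A B) v u = col A B v u := by
      intro A B v hv u hu
      rw [Bool.eq_iff_iff]
      simp only [rc, R, List.contains_iff_mem, List.mem_filter, List.mem_range, (dm v hu).1,
        (dm v hu).2]
      exact ⟨fun h => h.2, fun h => ⟨by nlinarith, h⟩⟩
    have hx : ∀ A B, ∀ v < G.length, cx G (rc G.length (R A B)) v = cx G (col A B) v :=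
      fun A B v hv => List.countP_congr fun u hu => by rw [hR A B v hv u ((hG v hv).2 u hu).1]
    have hy : ∀ A B, ∀ v < G.length, cy G (rc G.length (R A B)) v = cy G (col A B) v :=
      fun A B v hv => List.countP_congr fun u hu => by rw [hR A B v hv u ((hG v hv).2 u hu).1]
    refine ⟨(List.range ((2 * G.length + 1) * (2 * G.length + 1))).map fun z =>
      R (z / (2 * G.length + 1)) (z % (2 * G.length + 1)), by simp, ?_, ?_⟩
    · intro r hr
      obtain ⟨z, -, rfl⟩ := List.mem_map.1 hr
      refine ⟨(List.length_filter_le _ _).trans (by simp), fun y hy => ?_⟩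
      exact (List.mem_range.1 (List.mem_of_mem_filter hy)).le
    · simp only [ver, okR, Bool.and_eq_true, List.all_eq_true, List.mem_range, nd_iff,
        decide_eq_true_eq, bne_iff_ne, List.contains_iff_mem, Bool.or_eq_true, beq_iff_eq,
        and_assoc]
      refine ⟨hG, fun A hA B hB => or_iff_not_imp_left.2 fun hAB v hv u hu => ?_⟩
      have hu' := ((hG v hv).2 u hu).1
      rw [List.getD_eq_getElem _ _ (by simp; nlinarith)]
      simp only [List.getElem_map, List.getElem_range, (dm A hB).1, (dm A hB).2]
      rw [hR A B v hv u hu', hR A B u hu' v hv, hx A B v hv, hx A B u hu', hy A B v hv,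
        hy A B u hu']
      exact ⟨(hcol A B hAB).1 v hv u hu, (ne_iff _ _ _ _ _ _ _).2 ((hcol A B hAB).2 v hv u hu)⟩

end Pool.Agent.Lead.Wc
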