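import Pool.Agent.Lead.Wc1
import Pool.Agent.Lead.Nae

set_option autoImplicit false

namespace Pool.Agent.Lead.Wc
open Pool.Agent.H11.PT Pool.Agent.Lead.NPc Pool.Agent.Lead.Odd Pool.Agent.Lead.Nae

def ix (L : List ℕ) (x : ℕ) : ℕ := ((List.range L.length).find? fun t => L.getD t 0 == x).getD 0

theorem ix_get {L : List ℕ} (hL : L.Nodup) {t : ℕ} (ht : t < L.length) : ix L (L.getD t 0) = t := by
  unfold ix
  rcases h : (List.range L.length).find? fun s => L.getD s 0 == L.getD t 0 with _ | s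
  · rw [List.find?_eq_none] at h
    exact absurd (by simp) (h t (List.mem_range.2 ht))
  · have h1 := List.find?_some h
    have h2 := List.mem_range.1 (List.mem_of_find?_eq_some h)
    rw [beq_iff_eq, List.getD_eq_getElem _ _ h2, List.getD_eq_getElem _ _ ht] at h1
    exact (List.Nodup.getElem_inj_iff hL).1 h1

def var (φ : List (ℕ × ℕ × ℕ)) (o : ℕ) : ℕ :=
  if o % 3 = 0 then (φ.getD (o / 3) (0, 0, 0)).1 else
    if o % 3 = 1 then (φ.getD (o / 3) (0, 0, 0)).2.1 else (φ.getD (o / 3) (0, 0, 0)).2.2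

def occ (φ : List (ℕ × ℕ × ℕ)) (i : ℕ) : List ℕ :=
  (List.range (3 * φ.length)).filter fun o => var φ o == i

def nxt (φ : List (ℕ × ℕ × ℕ)) (o : ℕ) : ℕ := (occ φ (var φ o)).getD
  (if ix (occ φ (var φ o)) o + 1 < (occ φ (var φ o)).length then ix (occ φ (var φ o)) o + 1 else 0) 0

def prv (φ : List (ℕ × ℕ × ℕ)) (o : ℕ) : ℕ := (occ φ (var φ o)).getD
  (if ix (occ φ (var φ o)) o = 0 then (occ φ (var φ o)).length - 1 else ix (occ φ (var φ o)) o - 1) 0

def nbr (φ : List (ℕ × ℕ × ℕ)) (o r : ℕ) : List ℕ :=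
  if r = 0 then [6 * o + 1, 6 * prv φ o + 4, 18 * (o / 3) + 5] else
  if r = 1 then [6 * o, 6 * o + 2, 6 * o + 3] else
  if r = 2 then [6 * o + 1, 6 * o + 3, 6 * o + 4] else
  if r = 3 then [6 * o + 1, 6 * o + 2, 6 * o + 4] else
  if r = 4 then [6 * o + 2, 6 * o + 3, 6 * nxt φ o] else
  if o % 3 = 0 then [6 * o, 6 * o + 6, 6 * o + 12] else []

def gr (φ : List (ℕ × ℕ × ℕ)) : List (List ℕ) :=
  (List.range (18 * φ.length)).map fun v => nbr φ (v / 6) (v % 6)

theorem gr_pt : PT gr := by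
  unfold gr nbr nxt prv occ var ix
  fun_prop

variable {φ : List (ℕ × ℕ × ℕ)}

theorem occ_nd (i : ℕ) : (occ φ i).Nodup := List.nodup_range.filter _

theorem occ_get {i t : ℕ} (ht : t < (occ φ i).length) :
    (occ φ i).getD t 0 < 3 * φ.length ∧ var φ ((occ φ i).getD t 0) = i := by
  simpa [occ] using getD_mem' ht

theorem occ_ex {o : ℕ} (ho : o < 3 * φ.length) :
    ∃ i, ∃ t < (occ φ i).length, (occ φ i).getD t 0 = o :=
  ⟨var φ o, mem_getD (by simp [occ, ho])⟩

theorem nxt_get {i t : ℕ} (ht : t < (occ φ i).length) : nxt φ ((occ φ i).getD t 0) =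
    (occ φ i).getD (if t + 1 < (occ φ i).length then t + 1 else 0) 0 := by
  rw [nxt, (occ_get ht).2, ix_get (occ_nd i) ht]

theorem prv_get {i t : ℕ} (ht : t < (occ φ i).length) : prv φ ((occ φ i).getD t 0) =
    (occ φ i).getD (if t = 0 then (occ φ i).length - 1 else t - 1) 0 := by
  rw [prv, (occ_get ht).2, ix_get (occ_nd i) ht]

theorem nxt_ok {o : ℕ} (ho : o < 3 * φ.length) :
    nxt φ o < 3 * φ.length ∧ var φ (nxt φ o) = var φ o ∧ prv φ (nxt φ o) = o := by
  obtain ⟨i, t, ht, rfl⟩ := occ_ex ho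
  have h : (if t + 1 < (occ φ i).length then t + 1 else 0) < (occ φ i).length := by
    split_ifs <;> omega
  rw [nxt_get ht, prv_get h, (occ_get ht).2]
  refine ⟨(occ_get h).1, (occ_get h).2, ?_⟩
  congr 1
  by_cases h1 : t + 1 < (occ φ i).length
  · simp [h1]
  · simp [h1]; omega

theorem prv_ok {o : ℕ} (ho : o < 3 * φ.length) :
    prv φ o < 3 * φ.length ∧ var φ (prv φ o) = var φ o ∧ nxt φ (prv φ o) = o := by
  obtain ⟨i, t, ht, rfl⟩ := occ_ex ho
  have h : (if t = 0 then (occ φ i).length - 1 else t - 1) < (occ φ i).length := by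
    split_ifs <;> omega
  rw [prv_get ht, nxt_get h, (occ_get ht).2]
  refine ⟨(occ_get h).1, (occ_get h).2, ?_⟩
  congr 1
  split_ifs <;> omega

theorem conn (c : ℕ → Bool) (h : ∀ o < 3 * φ.length, c (prv φ o) = c o) {o : ℕ}
    (ho : o < 3 * φ.length) : c o = c ((occ φ (var φ o)).getD 0 0) := by
  obtain ⟨i, t, ht, rfl⟩ := occ_ex ho
  rw [(occ_get ht).2]
  clear ho
  induction t with
  | zero => rfl
  | succ t ih =>
    rw [← ih (by omega), ← h _ (occ_get ht).1, prv_get ht]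
    simp

theorem gr_len : (gr φ).length = 18 * φ.length := by simp [gr]

theorem gr_get {v o r : ℕ} (ho : o < 3 * φ.length) (hr : r < 6) (e : v = 6 * o + r) :
    (gr φ).getD v [] = nbr φ o r := by
  subst e
  rw [List.getD_eq_getElem _ _ (by rw [gr_len]; omega)]
  simp only [gr, List.getElem_map, List.getElem_range]
  rw [show (6 * o + r) / 6 = o by omega, show (6 * o + r) % 6 = r by omega]

theorem g0 {o : ℕ} (ho : o < 3 * φ.length) :
    (gr φ).getD (6 * o) [] = [6 * o + 1, 6 * prv φ o + 4, 18 * (o / 3) + 5] :=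
  gr_get (r := 0) ho (by omega) rfl
theorem g1 {o : ℕ} (ho : o < 3 * φ.length) :
    (gr φ).getD (6 * o + 1) [] = [6 * o, 6 * o + 2, 6 * o + 3] := gr_get ho (by omega) rfl
theorem g2 {o : ℕ} (ho : o < 3 * φ.length) :
    (gr φ).getD (6 * o + 2) [] = [6 * o + 1, 6 * o + 3, 6 * o + 4] := gr_get ho (by omega) rfl
theorem g3 {o : ℕ} (ho : o < 3 * φ.length) :
    (gr φ).getD (6 * o + 3) [] = [6 * o + 1, 6 * o + 2, 6 * o + 4] := gr_get ho (by omega) rfl
theorem g4 {o : ℕ} (ho : o < 3 * φ.length) :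
    (gr φ).getD (6 * o + 4) [] = [6 * o + 2, 6 * o + 3, 6 * nxt φ o] := gr_get ho (by omega) rfl
theorem g5 {j : ℕ} (hj : j < φ.length) :
    (gr φ).getD (18 * j + 5) [] = [6 * (3 * j), 6 * (3 * j + 1), 6 * (3 * j + 2)] := by
  rw [gr_get (o := 3 * j) (r := 5) (by omega) (by omega) (by omega)]
  simp [nbr]; omega

theorem cases_v {v : ℕ} (hv : v < (gr φ).length) : (∃ o < 3 * φ.length, v = 6 * o ∨ v = 6 * o + 1 ∨
    v = 6 * o + 2 ∨ v = 6 * o + 3 ∨ v = 6 * o + 4) ∨ (∃ j < φ.length, v = 18 * j + 5) ∨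
    (gr φ).getD v [] = [] := by
  rw [gr_len] at hv
  by_cases h : v % 6 = 5
  · by_cases h2 : v / 6 % 3 = 0
    · exact Or.inr (Or.inl ⟨v / 18, by omega, by omega⟩)
    · refine Or.inr (Or.inr ?_)
      rw [gr_get (o := v / 6) (r := 5) (by omega) (by omega) (by omega)]
      simp [nbr, h2]
  · exact Or.inl ⟨v / 6, by omega, by omega⟩

theorem gr_valid : Valid (gr φ) := by
  intro v hv
  rcases cases_v hv with ⟨o, ho, rfl | rfl | rfl | rfl | rfl⟩ | ⟨j, hj, rfl⟩ | h
  · obtain ⟨a1, -, a3⟩ := prv_ok ho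
    rw [g0 ho]
    simp only [List.forall_mem_cons, g1 ho, g4 a1, g5 (show o / 3 < φ.length by omega), a3, gr_len]
    simp; omega
  · rw [g1 ho]
    simp only [List.forall_mem_cons, g0 ho, g2 ho, g3 ho, gr_len]
    simp; omega
  · rw [g2 ho]
    simp only [List.forall_mem_cons, g1 ho, g3 ho, g4 ho, gr_len]
    simp; omega
  · rw [g3 ho]
    simp only [List.forall_mem_cons, g1 ho, g2 ho, g4 ho, gr_len]
    simp; omega
  · obtain ⟨a1, -, a3⟩ := nxt_ok ho
    rw [g4 ho]
    simp only [List.forall_mem_cons, g2 ho, g3 ho, g0 a1, a3, gr_len]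
    simp; omega
  · rw [g5 hj]
    simp only [List.forall_mem_cons, g0 (show 3 * j < 3 * φ.length by omega),
      g0 (show 3 * j + 1 < 3 * φ.length by omega), g0 (show 3 * j + 2 < 3 * φ.length by omega), gr_len]
    simp; omega
  · rw [h]; simp

def b3 (a b c : Bool) : ℕ := a.toNat + b.toNat + c.toNat

theorem cx3 {G : List (List ℕ)} {v x y z : ℕ} (h : G.getD v [] = [x, y, z]) (col : ℕ → ℕ → Bool) :
    cx G col v = b3 (col v x) (col v y) (col v z) ∧ cx G col v + cy G col v = 3 := by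
  simp only [cx, cy, h, b3, List.countP_cons, List.countP_nil]
  cases col v x <;> cases col v y <;> cases col v z <;> simp

theorem var0 {j : ℕ} (hj : j < φ.length) : var φ (3 * j) = φ[j].1 ∧ var φ (3 * j + 1) = φ[j].2.1 ∧
    var φ (3 * j + 2) = φ[j].2.2 := by
  simp only [var]
  rw [if_pos (by omega), if_neg (by omega), if_pos (by omega), if_neg (by omega), if_neg (by omega),
    show 3 * j / 3 = j by omega, show (3 * j + 1) / 3 = j by omega,
    show (3 * j + 2) / 3 = j by omega, List.getD_eq_getElem _ _ hj]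
  exact ⟨rfl, rfl, rfl⟩

theorem sound (h : Good (gr φ) 1 0) : NAE φ := by
  obtain ⟨col, h1, h2⟩ := h
  simp only [one_mul, zero_mul, add_zero, ne_eq, Nat.cast_inj, gr_len] at h1 h2
  have dia : ∀ o < 3 * φ.length, col (6 * o + 4) (6 * nxt φ o) = col (6 * o) (6 * o + 1) ∧
      cx (gr φ) col (6 * o + 1) = 1 + (col (6 * o) (6 * o + 1)).toNat ∧
      cx (gr φ) col (6 * o + 4) = 1 + (col (6 * o) (6 * o + 1)).toNat := by
    intro o ho
    have a1 := h2 (6 * o + 2) (by omega)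
    have a2 := h2 (6 * o + 3) (by omega)
    have s1 := h1 (6 * o + 1) (by omega)
    have s2 := h1 (6 * o + 2) (by omega)
    have s3 := h1 (6 * o + 3) (by omega)
    simp only [g1 ho, g2 ho, g3 ho, List.forall_mem_cons, (cx3 (g1 ho) col).1, (cx3 (g2 ho) col).1,
      (cx3 (g3 ho) col).1, (cx3 (g4 ho) col).1] at a1 a2 s1 s2 s3 ⊢
    obtain ⟨a1, a3, a4, -⟩ := a1
    obtain ⟨a2, -, a5, -⟩ := a2
    rw [s1.1, s1.2.1, s1.2.2.1, s2.2.1, s2.2.2.1, s3.2.2.1] at *
    revert a1 a2 a3 a4 a5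
    generalize col (6 * o) (6 * o + 1) = e0
    generalize col (6 * o + 2) (6 * o + 1) = e1
    generalize col (6 * o + 3) (6 * o + 1) = e2
    generalize col (6 * o + 3) (6 * o + 2) = e3
    generalize col (6 * o + 4) (6 * o + 2) = e4
    generalize col (6 * o + 4) (6 * o + 3) = e5
    generalize col (6 * o + 4) (6 * nxt φ o) = e6
    revert e0 e1 e2 e3 e4 e5 e6
    decide
  have tap : ∀ o < 3 * φ.length, col (6 * prv φ o) (6 * prv φ o + 1) = col (6 * o) (6 * o + 1) ∧
      col (18 * (o / 3) + 5) (6 * o) = col (6 * o) (6 * o + 1) ∧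
      cx (gr φ) col (6 * o) = 3 * (col (6 * o) (6 * o + 1)).toNat := by
    intro o ho
    obtain ⟨p1, -, p3⟩ := prv_ok ho
    have a1 := h2 (6 * o) (by omega)
    have s1 := h1 (6 * o) (by omega)
    obtain ⟨-, d1, -⟩ := dia o ho
    obtain ⟨d2, -, d3⟩ := dia _ p1
    rw [p3] at d2
    simp only [g0 ho, List.forall_mem_cons, (cx3 (g0 ho) col).1, d1, d3] at a1 s1 ⊢
    obtain ⟨a1, a2, -⟩ := a1
    rw [s1.2.1, s1.2.2.1, d2] at *
    revert a1 a2
    generalize col (6 * o) (6 * o + 1) = e0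
    generalize col (6 * prv φ o) (6 * prv φ o + 1) = e1
    generalize col (18 * (o / 3) + 5) (6 * o) = e2
    revert e0 e1 e2
    decide
  have cn := fun o ho => conn (φ := φ) (fun o => col (6 * o) (6 * o + 1))
    (fun o ho => (tap o ho).1) (o := o) ho
  refine ⟨fun i => col (6 * (occ φ i).getD 0 0) (6 * (occ φ i).getD 0 0 + 1), fun c hc => ?_⟩
  obtain ⟨j, hj, rfl⟩ := List.getElem_of_mem hc
  obtain ⟨v0, v1, v2⟩ := var0 hj
  simp only
  rw [← v0, ← v1, ← v2, ← cn _ (by omega), ← cn _ (by omega), ← cn _ (by omega)]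
  obtain ⟨-, t0, x0⟩ := tap (3 * j) (by omega)
  obtain ⟨-, t1, -⟩ := tap (3 * j + 1) (by omega)
  obtain ⟨-, t2, -⟩ := tap (3 * j + 2) (by omega)
  rw [show 3 * j / 3 = j by omega] at t0
  rw [show (3 * j + 1) / 3 = j by omega] at t1
  rw [show (3 * j + 2) / 3 = j by omega] at t2
  have a := h2 (18 * j + 5) (by omega) (6 * (3 * j)) (by rw [g5 hj]; simp)
  rw [(cx3 (g5 hj) col).1, x0, t0, t1, t2] at a
  rintro ⟨e1, e2⟩
  rw [← e2, ← e1] at a
  revert a
  cases col (6 * (3 * j)) (6 * (3 * j) + 1) <;> decide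

theorem complete (h : NAE φ) (a b : ℝ) (hab : a ≠ b) : Good (gr φ) a b := by
  obtain ⟨σ, hσ⟩ := h
  let s : ℕ → Bool := fun o => σ (var φ o)
  let col : ℕ → ℕ → Bool := fun v u => (if v % 6 = 5 then s (u / 6) else s (v / 6)) ^^
    decide ((v % 6 = 2 ∧ (u % 6 = 1 ∨ u % 6 = 4)) ∨ (u % 6 = 2 ∧ (v % 6 = 1 ∨ v % 6 = 4)))
  have hc : ∀ o r o' r' v u, r < 5 → r' < 6 → v = 6 * o + r → u = 6 * o' + r' → col v u = (s o ^^
      decide ((r = 2 ∧ (r' = 1 ∨ r' = 4)) ∨ (r' = 2 ∧ (r = 1 ∨ r = 4)))) := by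
    rintro o r o' r' _ _ h1 h2 rfl rfl
    simp only [col]
    rw [show (6 * o + r) % 6 = r by omega, show (6 * o' + r') % 6 = r' by omega, if_neg (by omega),
      show (6 * o + r) / 6 = o by omega]
  have hc5 : ∀ j o, col (18 * j + 5) (6 * o) = s o := by
    intro j o
    simp only [col]
    rw [show (18 * j + 5) % 6 = 5 by omega, show (6 * o) % 6 = 0 by omega,
      show (6 * o) / 6 = o by omega]
    simp
  have c01 := fun o => hc o 0 o 1 (6 * o) _ (by omega) (by omega) rfl rfl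
  have c04 := fun o o' => hc o 0 o' 4 (6 * o) _ (by omega) (by omega) rfl rfl
  have c05 := fun o j => hc o 0 (3 * j) 5 (6 * o) (18 * j + 5) (by omega) (by omega) rfl (by omega)
  have c10 := fun o => hc o 1 o 0 _ (6 * o) (by omega) (by omega) rfl rfl
  have c40 := fun o o' => hc o 4 o' 0 _ (6 * o') (by omega) (by omega) rfl rfl
  have cc := fun o r r' h1 h2 => hc o r o r' _ _ h1 h2 rfl rfl
  have x0 : ∀ o < 3 * φ.length, cx (gr φ) col (6 * o) = 3 * (s o).toNat := by
    intro o ho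
    rw [(cx3 (g0 ho) col).1, c01, c04, c05]; cases s o <;> decide
  have x1 : ∀ o < 3 * φ.length, cx (gr φ) col (6 * o + 1) = 1 + (s o).toNat := by
    intro o ho
    rw [(cx3 (g1 ho) col).1, c10, cc _ _ _ (by omega) (by omega), cc _ _ _ (by omega) (by omega)]
    cases s o <;> decide
  have x2 : ∀ o < 3 * φ.length, cx (gr φ) col (6 * o + 2) = 2 - (s o).toNat := by
    intro o ho
    rw [(cx3 (g2 ho) col).1, cc _ _ _ (by omega) (by omega), cc _ _ _ (by omega) (by omega),
      cc _ _ _ (by omega) (by omega)]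
    cases s o <;> decide
  have x3 : ∀ o < 3 * φ.length, cx (gr φ) col (6 * o + 3) = 3 * (s o).toNat := by
    intro o ho
    rw [(cx3 (g3 ho) col).1, cc _ _ _ (by omega) (by omega), cc _ _ _ (by omega) (by omega),
      cc _ _ _ (by omega) (by omega)]
    cases s o <;> decide
  have x4 : ∀ o < 3 * φ.length, cx (gr φ) col (6 * o + 4) = 1 + (s o).toNat := by
    intro o ho
    rw [(cx3 (g4 ho) col).1, c40, cc _ _ _ (by omega) (by omega), cc _ _ _ (by omega) (by omega)]
    cases s o <;> decide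
  have x5 : ∀ j < φ.length, cx (gr φ) col (18 * j + 5) = 1 ∨ cx (gr φ) col (18 * j + 5) = 2 := by
    intro j hj
    obtain ⟨v0, v1, v2⟩ := var0 hj
    have := hσ _ (List.getElem_mem hj)
    rw [(cx3 (g5 hj) col).1, hc5, hc5, hc5]
    simp only [s, v0, v1, v2]
    revert this
    cases σ φ[j].1 <;> cases σ φ[j].2.1 <;> cases σ φ[j].2.2 <;> decide
  have bd : ∀ o, (s o).toNat ≤ 1 := fun o => Bool.toNat_le _
  have key : ∀ v < (gr φ).length, ∀ u ∈ (gr φ).getD v [], col v u = col u v ∧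
      cx (gr φ) col v ≠ cx (gr φ) col u ∧ cx (gr φ) col v + cy (gr φ) col v = 3 := by
    intro v hv
    rcases cases_v hv with ⟨o, ho, rfl | rfl | rfl | rfl | rfl⟩ | ⟨j, hj, rfl⟩ | h
    · obtain ⟨a1, a2, -⟩ := prv_ok ho
      have e : s (prv φ o) = s o := congrArg σ a2
      have := x5 (o / 3) (by omega)
      have := bd o
      have q := (cx3 (g0 ho) col).2
      rw [x0 o ho] at q
      simp only [g0 ho, List.forall_mem_cons, c01, c10, c04, c40, c05, hc5,
        x0 o ho, x1 o ho, x4 _ a1, e]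
      simp; omega
    · have := bd o
      have q := (cx3 (g1 ho) col).2
      rw [x1 o ho] at q
      simp only [g1 ho, List.forall_mem_cons, c01, c10,
        x0 o ho, x1 o ho, x2 o ho, x3 o ho]
      simp [cc]; omega
    · have := bd o
      have q := (cx3 (g2 ho) col).2
      rw [x2 o ho] at q
      simp only [g2 ho, List.forall_mem_cons,
        x4 o ho, x1 o ho, x2 o ho, x3 o ho]
      simp [cc]; omega
    · have := bd o
      have q := (cx3 (g3 ho) col).2
      rw [x3 o ho] at q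
      simp only [g3 ho, List.forall_mem_cons,
        x4 o ho, x1 o ho, x2 o ho, x3 o ho]
      simp [cc]; omega
    · obtain ⟨a1, a2, -⟩ := nxt_ok ho
      have e : s (nxt φ o) = s o := congrArg σ a2
      have := bd o
      have q := (cx3 (g4 ho) col).2
      rw [x4 o ho] at q
      simp only [g4 ho, List.forall_mem_cons, c04, c40,
        x0 _ a1, x2 o ho, x3 o ho, x4 o ho, e]
      simp [cc]; omega
    · have := x5 j hj
      have := bd (3 * j)
      have := bd (3 * j + 1)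
      have := bd (3 * j + 2)
      simp only [g5 hj, List.forall_mem_cons, (cx3 (g5 hj) col).2, c05, hc5,
        x0 (3 * j) (by omega), x0 (3 * j + 1) (by omega), x0 (3 * j + 2) (by omega)]
      simp; omega
    · rw [h]; simp
  refine ⟨col, fun v hv u hu => (key v hv u hu).1, fun v hv u hu e => ?_⟩
  obtain ⟨g1, -, g2⟩ := (gr_valid v hv).2 u hu
  obtain ⟨-, k1, k2⟩ := key v hv u hu
  obtain ⟨-, -, k3⟩ := key u g1 v g2
  have k2' := congrArg (Nat.cast : ℕ → ℝ) k2
  have k3' := congrArg (Nat.cast : ℕ → ℝ) k3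
  push_cast at k2' k3'
  have : (a - b) * ((cx (gr φ) col v : ℝ) - cx (gr φ) col u) = 0 := by
    linear_combination e - b * k2' + b * k3'
  rcases mul_eq_zero.1 this with h | h
  · exact hab (by linarith)
  · exact k1 (by exact_mod_cast (show (cx (gr φ) col v : ℝ) = cx (gr φ) col u by linarith))

theorem wc_hard : Hard TwoWC := hard_NAE.red gr gr_pt fun _ =>
  ⟨fun h => wc_iff.2 ⟨gr_valid, complete h⟩, fun h => sound ((wc_iff.1 h).2 1 0 one_ne_zero)⟩

end Pool.Agent.Lead.Wc
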