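import Mathlib

namespace Pool.Agent.Lead.Wfb
open Set Filter Topology

abbrev X := ℕ × (ℕ → ℕ)

def f (p : X) : X := (p.1 + 1, fun i => p.2 (i + 1))

theorem f_cont : Continuous f := by unfold f; fun_prop

theorem f_iter (k : ℕ) (p : X) : f^[k] p = (p.1 + k, fun i => p.2 (i + k)) := by
  induction k with
  | zero => rfl
  | succ k ih =>
    rw [Function.iterate_succ_apply', ih]
    simp only [f, Prod.mk.injEq]
    exact ⟨by omega, funext fun i => congrArg p.2 (by omega)⟩

def ψ (n l : ℕ) (s : Fin l → ℕ) (k : ℕ) (c : ℕ → ℕ) : X :=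
  (n, fun i => if h : i < l then s ⟨i, h⟩ else c (i - l + k))

theorem ψ_cont (n l s k) : Continuous (ψ n l s k) := by
  refine continuous_const.prodMk (continuous_pi fun i => ?_)
  by_cases h : i < l <;> simp only [h, dite_true, dite_false] <;> fun_prop

theorem ψ_open (n l s k) : IsOpenMap (ψ n l s k) := by
  rw [isOpenMap_iff_nhds_le]
  intro c t ht
  let g : X → ℕ → ℕ := fun y i => if i < k then c i else y.2 (i - k + l)
  have hg : Continuous g := continuous_pi fun i => by
    by_cases h : i < k <;> simp only [g, h, if_true, if_false] <;> fun_prop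
  have h1 : g (ψ n l s k c) = c := by
    funext i
    by_cases h : i < k
    · simp [g, h]
    · simp only [g, h, if_false, ψ, show ¬ i - k + l < l by omega, dite_false]
      congr 1; omega
  have h2 : ∀ᶠ y in 𝓝 (ψ n l s k c), y.1 = n ∧ ∀ i : Fin l, y.2 i = s i := by
    refine IsOpen.mem_nhds (IsOpen.inter ?_ ?_) ⟨rfl, fun i => by simp [ψ]⟩
    · exact (isOpen_discrete {n}).preimage continuous_fst
    · have : {y : X | ∀ i : Fin l, y.2 i = s i} = ⋂ i : Fin l, (fun y : X => y.2 i) ⁻¹' {s i} := by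
        ext; simp
      change IsOpen {y : X | ∀ i : Fin l, y.2 i = s i}
      rw [this]
      exact isOpen_iInter_of_finite fun i => (isOpen_discrete _).preimage (by fun_prop)
  have h3 : g ⁻¹' (ψ n l s k ⁻¹' t) ∈ 𝓝 (ψ n l s k c) :=
    hg.continuousAt.preimage_mem_nhds (by rw [h1]; exact ht)
  filter_upwards [h2, h3] with y hy h4
  have : ψ n l s k (g y) = y := by
    refine Prod.ext hy.1.symm (funext fun i => ?_)
    by_cases h : i < l
    · simp only [ψ, h, dite_true]; exact (hy.2 ⟨i, h⟩).symm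
    · simp only [ψ, h, dite_false, g, show ¬ i - l + k < k by omega, if_false]
      exact congrArg y.2 (by omega)
  rwa [mem_preimage, mem_preimage, this] at h4

theorem main (B : Set X) (hB : BaireMeasurableSet B)
    (h1 : ∀ x, ∃ y ∈ B, ∃ m n, f^[m] x = f^[n] y) (h2 : MapsTo f B B)
    (h3 : ∀ y, (f ⁻¹' {y} ∩ B).Finite) : False := by
  obtain ⟨U, hU, hG⟩ := hB.residualEq_isOpen
  have hG' : ∀ᶠ x in residual X, (x ∈ B ↔ x ∈ U) := eventuallyEq_set.1 hG
  have : ∀ᶠ c in residual (ℕ → ℕ), ∀ t : ℕ × (Σ l, Fin l → ℕ) × ℕ,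
      (ψ t.1 t.2.1.1 t.2.1.2 t.2.2 c ∈ B ↔ ψ t.1 t.2.1.1 t.2.1.2 t.2.2 c ∈ U) :=
    eventually_countable_forall.2 fun t =>
      (tendsto_residual_of_isOpenMap (ψ_cont _ _ _ _) (ψ_open _ _ _ _)).eventually hG'
  obtain ⟨c, hc⟩ := (dense_of_mem_residual this).nonempty
  obtain ⟨⟨m, b⟩, hb, k, l, hkl⟩ := h1 (0, c)
  rw [f_iter, f_iter] at hkl
  have ht : ∀ i, c (i + k) = b (i + l) := fun i => congrFun (congrArg Prod.snd hkl) i
  have key : ∀ (L : ℕ) (b' : ℕ → ℕ), l ≤ L → (∀ i ≥ L, b' i = b i) →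
      ((m, b') ∈ B ↔ (m, b') ∈ U) := by
    intro L b' hL hb'
    have := hc (m, ⟨L, fun i => b' i⟩, k + (L - l))
    have e : ψ m L (fun i => b' i) (k + (L - l)) c = (m, b') := by
      refine Prod.ext rfl (funext fun i => ?_)
      by_cases h : i < L
      · simp [ψ, h]
      · simp only [ψ, h, dite_false]
        rw [hb' i (by omega), show i - L + (k + (L - l)) = (i - l) + k by omega, ht]
        congr 1; omega
    rwa [e] at this
  have hbU : (m, b) ∈ U := (key l b le_rfl fun _ _ => rfl).1 hb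
  have hU2 : IsOpen {b' | (m, b') ∈ U} := hU.preimage (by fun_prop)
  obtain ⟨L0, hL0⟩ : ∃ L0, PiNat.cylinder b L0 ⊆ {b' | (m, b') ∈ U} := by
    obtain ⟨_, ⟨x, n, rfl⟩, h4, h5⟩ :=
      (PiNat.isTopologicalBasis_cylinders (fun _ : ℕ => ℕ)).exists_subset_of_mem_open hbU hU2
    exact ⟨n, by rwa [PiNat.mem_cylinder_iff_eq.1 h4]⟩
  let L := max L0 l
  have hj : ∀ j, f^[L] (m, Function.update b L j) ∈ B := by
    intro j
    refine h2.iterate L ((key (L + 1) _ (by omega) fun i hi => ?_).2 (hL0 fun i hi => ?_))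
    · exact Function.update_of_ne (by omega) _ _
    · exact Function.update_of_ne (by omega) _ _
  refine infinite_of_injective_forall_mem (s := f ⁻¹' {f^[L + 1] (m, b)} ∩ B) (f := fun j => f^[L] (m, Function.update b L j))
    (fun i j hij => ?_) (fun j => ⟨?_, hj j⟩) (h3 (f^[L + 1] (m, b)))
  · have := congrFun (congrArg Prod.snd hij) 0
    simpa [f_iter] using this
  · rw [mem_preimage, ← Function.iterate_succ_apply' f, mem_singleton_iff, f_iter, f_iter]
    refine Prod.ext rfl (funext fun i => ?_)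
    exact Function.update_of_ne (by omega) _ _

end Pool.Agent.Lead.Wfb
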