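import Mathlib

set_option autoImplicit false
open Set Filter Topology

namespace Pool.Agent.Lead.Why

noncomputable def en : ℕ → ℚ × ℕ := (exists_surjective_nat (ℚ × ℕ)).choose
theorem en_surj : Function.Surjective en := (exists_surjective_nat (ℚ × ℕ)).choose_spec
noncomputable def r (n : ℕ) : ℝ := ((en n).1 : ℚ)
noncomputable def l (i : ℕ) : ℝ := ((en i).1 : ℚ)
noncomputable def w (i : ℕ) : ℝ := 1 / (((en i).2 : ℝ) + 1)
noncomputable def cen (i : ℕ) (u : ℝ) : ℝ := max (l i) (min (l i + w i) u)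
noncomputable def g (n : ℕ) (t : ℕ → ℝ) : ℝ :=
  t (3 * n) * ∏ i ∈ Finset.range (n + 1),
    max 0 (|r n - cen i (t (3 * i + 1))| - Real.exp (t (3 * i + 2)))

theorem w_pos (i : ℕ) : 0 < w i := by unfold w; positivity

theorem g_cont (n : ℕ) : Continuous (g n) := by
  unfold g cen
  fun_prop

abbrev CC := {f : (ℕ → ℝ) → ℝ // Continuous f}

noncomputable def F (n : ℕ) : CC := ⟨fun t => r n + g n t, continuous_const.add (g_cont n)⟩
def K (y : ℝ) : CC := ⟨fun _ => y, continuous_const⟩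

theorem small (t : ℕ → ℝ) (V : Set ℝ) (hV : IsOpen V) (hne : V.Nonempty) :
    ∃ V' ⊆ V, IsOpen V' ∧ V'.Nonempty ∧ ∀ n, r n ∈ V' → g n t = 0 := by
  obtain ⟨x, hx⟩ := hne
  obtain ⟨ε, hε, hb⟩ := Metric.isOpen_iff.1 hV x hx
  obtain ⟨q, hq1, hq2⟩ := exists_rat_btwn (show x - ε < x by linarith)
  obtain ⟨m, hm⟩ := exists_nat_one_div_lt hε
  obtain ⟨i, hi⟩ := en_surj (q, m)
  have hl : l i = q := by simp [l, hi]
  have hw : w i = 1 / ((m : ℝ) + 1) := by simp [w, hi]
  let c := cen i (t (3 * i + 1))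
  have hc : c ∈ V := by
    apply hb
    rw [Metric.mem_ball, Real.dist_eq, abs_lt]
    have h1 : l i ≤ c := le_max_left _ _
    have h2 : c ≤ l i + w i := max_le (by linarith [w_pos i]) (min_le_left _ _)
    constructor <;> linarith
  let T : Set ℝ := r '' {n | n < i}
  have hT : T.Finite := (finite_lt_nat i).image _
  have ho : IsOpen (V ∩ Metric.ball c (Real.exp (t (3 * i + 2)))) := hV.inter Metric.isOpen_ball
  refine ⟨(V ∩ Metric.ball c (Real.exp (t (3 * i + 2)))) ∩ Tᶜ, fun y hy => hy.1.1,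
    ho.inter hT.isClosed.isOpen_compl, ?_, ?_⟩
  · exact (hT.countable.dense_compl ℝ).inter_open_nonempty _ ho
      ⟨c, hc, Metric.mem_ball_self (Real.exp_pos _)⟩
  · rintro n ⟨⟨-, h2⟩, h3⟩
    have hn : i ≤ n := by
      by_contra hcon
      exact h3 ⟨n, not_le.1 hcon, rfl⟩
    unfold g
    rw [Finset.prod_eq_zero (i := i) (Finset.mem_range.2 (by omega)), mul_zero]
    rw [Metric.mem_ball, Real.dist_eq] at h2
    exact max_eq_left (by linarith)

theorem small' (I : Finset (ℕ → ℝ)) (V : Set ℝ) (hV : IsOpen V) (hne : V.Nonempty) :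
    ∃ V' ⊆ V, IsOpen V' ∧ V'.Nonempty ∧ ∀ t ∈ I, ∀ n, r n ∈ V' → g n t = 0 := by
  classical
  induction I using Finset.induction_on with
  | empty => exact ⟨V, Subset.rfl, hV, hne, by simp⟩
  | insert t I _ ih =>
    obtain ⟨V1, h1, h2, h3, h4⟩ := ih
    obtain ⟨V2, k1, k2, k3, k4⟩ := small t V1 h2 h3
    refine ⟨V2, k1.trans h1, k2, k3, ?_⟩
    intro s hs n hn
    rcases Finset.mem_insert.1 hs with rfl | hs
    · exact k4 n hn
    · exact h4 s hs n (k1 hn)

theorem mem_cl (S : Set ℕ) (y : ℝ) (hy : y ∈ interior (closure (r '' S))) :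
    K y ∈ closure (F '' S) := by
  rw [IsInducing.subtypeVal.closure_eq_preimage_closure_image, mem_preimage, mem_closure_iff]
  intro o ho hyo
  obtain ⟨I, u, hu, hsub⟩ := isOpen_pi_iff.1 ho _ hyo
  obtain ⟨V', h1, h2, h3, h4⟩ := small' I (interior (closure (r '' S)) ∩ ⋂ t ∈ I, u t)
    (isOpen_interior.inter (isOpen_biInter_finset fun t ht => (hu t ht).1))
    ⟨y, hy, mem_iInter₂.2 fun t ht => (hu t ht).2⟩
  obtain ⟨z, hz⟩ := h3
  obtain ⟨_, hn, n, hnS, rfl⟩ := mem_closure_iff.1 (interior_subset (h1 hz).1) V' h2 hz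
  refine ⟨(F n).1, hsub ?_, F n, ⟨n, hnS, rfl⟩, rfl⟩
  intro t ht
  show r n + g n t ∈ u t
  rw [h4 t ht n hn, add_zero]
  exact mem_iInter₂.1 (h1 hn).2 t ht

theorem big (S : Set ℕ) (hS : interior (closure (r '' S)) = ∅) :
    ∃ t, ∀ n ∈ S, g n t = 1 := by
  have : ∀ i, ∃ c ρ : ℝ, c ∈ Ioo (l i) (l i + w i) ∧ 0 < ρ ∧ ∀ n ∈ S, ρ < |r n - c| := by
    intro i
    have h1 : ¬ Ioo (l i) (l i + w i) ⊆ closure (r '' S) := by
      intro h
      have := interior_maximal h isOpen_Ioo
      rw [hS] at this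
      exact this (a := l i + w i / 2) ⟨by linarith [w_pos i], by linarith [w_pos i]⟩
    obtain ⟨c, hc, hc'⟩ := not_subset.1 h1
    obtain ⟨ε, hε, hb⟩ := Metric.isOpen_iff.1 isClosed_closure.isOpen_compl c hc'
    refine ⟨c, ε / 2, hc, by linarith, fun n hn => ?_⟩
    by_contra hcon
    refine hb (a := r n) ?_ (subset_closure ⟨n, hn, rfl⟩)
    rw [Metric.mem_ball, Real.dist_eq]
    linarith [not_lt.1 hcon]
  choose c ρ hc hρ hn using this
  let P : ℕ → ℝ := fun n => ∏ i ∈ Finset.range (n + 1), max 0 (|r n - c i| - ρ i)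
  let t : ℕ → ℝ := fun k =>
    if k % 3 = 0 then (P (k / 3))⁻¹ else if k % 3 = 1 then c (k / 3) else Real.log (ρ (k / 3))
  have t0 : ∀ n, t (3 * n) = (P n)⁻¹ := fun n => by simp [t]
  have t1 : ∀ n, t (3 * n + 1) = c n := fun n => by
    have h1 : (3 * n + 1) % 3 = 1 := by omega
    have h2 : (3 * n + 1) / 3 = n := by omega
    simp [t, h1, h2]
  have t2 : ∀ n, t (3 * n + 2) = Real.log (ρ n) := fun n => by
    have h1 : (3 * n + 2) % 3 = 2 := by omega
    have h2 : (3 * n + 2) / 3 = n := by omega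
    simp [t, h1, h2]
  refine ⟨t, fun n hnS => ?_⟩
  have hP : P n ≠ 0 := by
    refine Finset.prod_ne_zero_iff.2 fun i _ => ?_
    exact (lt_max_of_lt_right (by linarith [hn i n hnS])).ne'
  have : ∏ i ∈ Finset.range (n + 1),
      max 0 (|r n - cen i (t (3 * i + 1))| - Real.exp (t (3 * i + 2))) = P n := by
    refine Finset.prod_congr rfl fun i _ => ?_
    rw [t1, t2, Real.exp_log (hρ i)]
    have : cen i (c i) = c i := by
      unfold cen
      rw [min_eq_right (hc i).2.le, max_eq_right (hc i).1.le]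
    rw [this]
  unfold g
  rw [this, t0, inv_mul_cancel₀ hP]

theorem g_zero (n : ℕ) (t : ℕ → ℝ) (h : t (3 * n) = 0) : g n t = 0 := by
  unfold g; rw [h, zero_mul]

theorem ev_cont (t : ℕ → ℝ) : Continuous fun f : CC => f.1 t :=
  (continuous_apply t).comp continuous_subtype_val

theorem not_nwd (S : Set ℕ) (x : CC) (hx : x ∈ closure (F '' S)) (hxA : x ∉ range F) :
    interior (closure (r '' S)) ≠ ∅ := by
  intro hS
  obtain ⟨t, ht⟩ := big S hS
  have h1 : x.1 t = x.1 0 + 1 := by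
    have hcl : IsClosed {f : CC | f.1 t = f.1 0 + 1} :=
      isClosed_eq (ev_cont t) ((ev_cont 0).add continuous_const)
    refine closure_minimal ?_ hcl hx
    rintro _ ⟨n, hn, rfl⟩
    show r n + g n t = r n + g n 0 + 1
    rw [ht n hn, g_zero n 0 rfl, add_zero]
  let s : ℕ → ℕ → ℝ := fun k j => if j < k then t j else 0
  have h2 : ∀ k, x.1 (s k) = x.1 0 := by
    intro k
    have hcl : IsClosed ({f : CC | f.1 (s k) = f.1 0} ∪ F '' {n | n < k}) :=
      (isClosed_eq (ev_cont _) (ev_cont 0)).union ((finite_lt_nat k).image _).isClosed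
    have : x ∈ {f : CC | f.1 (s k) = f.1 0} ∪ F '' {n | n < k} := by
      refine closure_minimal ?_ hcl hx
      rintro _ ⟨n, -, rfl⟩
      by_cases hn : n < k
      · exact Or.inr ⟨n, hn, rfl⟩
      · left
        show r n + g n (s k) = r n + g n 0
        rw [g_zero n 0 rfl, g_zero n (s k)]
        have : ¬ 3 * n < k := by omega
        simp [s, this]
    rcases this with h | ⟨n, -, h⟩
    · exact h
    · exact absurd ⟨n, h⟩ hxA
  have h3 : Tendsto s atTop (𝓝 t) := by
    rw [tendsto_pi_nhds]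
    intro j
    refine tendsto_const_nhds.congr' ?_
    filter_upwards [eventually_gt_atTop j] with k hk
    simp [s, hk]
  have h4 : Tendsto (fun k => x.1 (s k)) atTop (𝓝 (x.1 t)) := (x.2.tendsto t).comp h3
  simp only [h2] at h4
  have := tendsto_nhds_unique h4 tendsto_const_nhds
  linarith

theorem K_not (y : ℝ) : K y ∉ range F := by
  rintro ⟨n, hn⟩
  have hS : interior (closure (r '' {n})) = ∅ := by
    rw [image_singleton, closure_singleton, interior_singleton]
  obtain ⟨t, ht⟩ := big {n} hS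
  have h1 : r n + g n t = y := congrFun (congrArg Subtype.val hn) t
  have h2 : r n + g n 0 = y := congrFun (congrArg Subtype.val hn) 0
  rw [ht n rfl] at h1
  rw [g_zero n 0 rfl] at h2
  linarith

theorem main : ¬ (∀ A : Set CC, ¬ IsClosed A →
      ∃ B : Set CC, B ⊆ A ∧ ∃ x : CC, x ∉ A ∧ closure B = insert x B) := by
  intro H
  have hA : ¬ IsClosed (range F) := by
    intro h
    refine K_not 0 (h.closure_subset ?_)
    rw [← image_univ]
    refine mem_cl univ 0 ?_
    have : closure (r '' univ) = univ := by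
      refine (Rat.denseRange_cast.mono ?_).closure_eq
      rintro _ ⟨q, rfl⟩
      obtain ⟨i, hi⟩ := en_surj (q, 0)
      exact ⟨i, trivial, by simp [r, hi]⟩
    rw [this, interior_univ]; trivial
  obtain ⟨B, hB, x, hx, hcl⟩ := H _ hA
  have hBS : F '' (F ⁻¹' B) = B := image_preimage_eq_of_subset hB
  have h1 := not_nwd (F ⁻¹' B) x (by rw [hBS, hcl]; exact mem_insert _ _) hx
  obtain ⟨y, hy⟩ := nonempty_iff_ne_empty.2 h1
  have h2 : ∀ z ∈ interior (closure (r '' (F ⁻¹' B))), K z = x := by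
    intro z hz
    have := mem_cl _ z hz
    rw [hBS, hcl] at this
    rcases this with h | h
    · exact h
    · exact absurd (hB h) (K_not z)
  obtain ⟨ε, hε, hb⟩ := Metric.isOpen_iff.1 isOpen_interior y hy
  have h3 := h2 (y + ε / 2) (hb (by
    rw [Metric.mem_ball, Real.dist_eq, abs_lt]; constructor <;> linarith))
  have h4 : K (y + ε / 2) = K y := h3.trans (h2 y hy).symm
  have h5 : y + ε / 2 = y := congrFun (congrArg Subtype.val h4) 0
  linarith

end Pool.Agent.Lead.Why
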