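import Pool.Agent.Lead.ZcDefs

namespace Pool.Agent.Lead.Zc

open Finset Filter Topology

section general
variable {V : Type} {G : SimpleGraph V} [G.LocallyFinite]

lemma avg_le (hd : ∀ x, 0 < G.degree x) (f : V → ℝ) (x : V) (M : ℝ) (h : ∀ y, f y ≤ M) :
    (∑ y ∈ G.neighborFinset x, f y) / G.degree x ≤ M := by
  rw [div_le_iff₀ (by exact_mod_cast hd x)]
  simpa [mul_comm] using Finset.sum_le_card_nsmul (G.neighborFinset x) f M fun y _ => h y

lemma hit_lim (hd : ∀ x, 0 < G.degree x) (A : Set V) : ∃ h : V → ℝ,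
    (∀ x, Tendsto (fun n => hit G A n x) atTop (𝓝 (h x))) ∧ (∀ x, 0 ≤ h x ∧ h x ≤ 1) ∧
    (∀ x ∈ A, h x = 1) ∧ ∀ x ∉ A, h x = (∑ y ∈ G.neighborFinset x, h y) / G.degree x := by
  have b : ∀ n x, 0 ≤ hit G A n x ∧ hit G A n x ≤ 1 := by
    intro n
    induction n with
    | zero => intro x; simp only [hit]; split_ifs <;> simp
    | succ n ih =>
      intro x; simp only [hit]; split_ifs
      · simp
      · exact ⟨div_nonneg (Finset.sum_nonneg fun y _ => (ih y).1) (Nat.cast_nonneg _),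
          avg_le hd _ x 1 fun y => (ih y).2⟩
  have m : ∀ n x, hit G A n x ≤ hit G A (n + 1) x := by
    intro n
    induction n with
    | zero =>
      intro x
      by_cases h : x ∈ A
      · simp [hit, h]
      · simpa [hit, h] using (b 1 x).1
    | succ n ih =>
      intro x
      rw [hit, hit]
      split_ifs
      · exact le_rfl
      · exact div_le_div_of_nonneg_right (Finset.sum_le_sum fun y _ => ih y) (Nat.cast_nonneg _)
  have t : ∀ x, Tendsto (fun n => hit G A n x) atTop (𝓝 (⨆ n, hit G A n x)) := fun x =>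
    tendsto_atTop_ciSup (monotone_nat_of_le_succ fun n => m n x) ⟨1, by
      rintro _ ⟨n, rfl⟩; exact (b n x).2⟩
  refine ⟨_, t, fun x => ⟨ge_of_tendsto' (t x) fun n => (b n x).1,
    le_of_tendsto' (t x) fun n => (b n x).2⟩, fun x hx => ?_, fun x hx => ?_⟩
  · refine tendsto_nhds_unique (t x) ?_
    have : (fun n => hit G A n x) = fun _ => 1 := by
      funext n; cases n <;> simp [hit, hx]
    rw [this]; exact tendsto_const_nhds
  · refine tendsto_nhds_unique ((tendsto_add_atTop_iff_nat 1).2 (t x)) ?_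
    simp only [hit, hx, if_false]
    exact (tendsto_finsetSum _ fun y _ => t y).div_const _

lemma hit_one (hd : ∀ x, 0 < G.degree x) (A : Set V) (δ : ℝ) (hδ : 0 < δ)
    (H : ∀ h : V → ℝ, (∀ x, 0 ≤ h x ∧ h x ≤ 1) → (∀ x ∈ A, h x = 1) →
      (∀ x ∉ A, h x = (∑ y ∈ G.neighborFinset x, h y) / G.degree x) → ∀ x, δ ≤ h x) (x : V) :
    Tendsto (fun n => hit G A n x) atTop (𝓝 1) := by
  obtain ⟨h, t, b, h1, h2⟩ := hit_lim hd A
  have hδ' := H h b h1 h2
  have step : ∀ M : ℝ, 0 ≤ M → (∀ x, 1 - h x ≤ M) → ∀ x, 1 - h x ≤ M * (1 - δ) := by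
    intro M hM hb x
    have : ∀ n x, 1 - h x ≤ M * (1 - hit G A n x) := by
      intro n
      induction n with
      | zero =>
        intro x
        by_cases hx : x ∈ A
        · simp [hit, hx, h1 x hx]
        · simpa [hit, hx] using hb x
      | succ n ih =>
        intro x
        by_cases hx : x ∈ A
        · simp [hit, hx, h1 x hx]
        · have := avg_le hd (fun y => M * hit G A n y - h y) x (M - 1) fun y => by linarith [ih y]
          rw [Finset.sum_sub_distrib, ← Finset.mul_sum, sub_div, ← h2 x hx, mul_div_assoc] at this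
          simp only [hit, hx, if_false]
          linarith
    have h3 : 1 - h x ≤ M * (1 - h x) :=
      ge_of_tendsto' (((t x).const_sub 1).const_mul M) fun n => this n x
    nlinarith [hδ' x]
  have hδ1 : δ ≤ 1 := (hδ' x).trans (b x).2
  have all : ∀ r : ℕ, ∀ x, 1 - h x ≤ (1 - δ) ^ r := by
    intro r
    induction r with
    | zero => intro x; linarith [(b x).1]
    | succ r ih => rw [pow_succ]; exact step _ (pow_nonneg (by linarith) _) ih
  have : 1 - h x ≤ 0 := ge_of_tendsto'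
    (tendsto_pow_atTop_nhds_zero_of_lt_one (by linarith) (by linarith)) fun r => all r x
  have e : h x = 1 := le_antisymm (b x).2 (by linarith)
  exact e ▸ t x

lemma between (hd : ∀ x, 0 < G.degree x) (L U : V → ℝ) (hLU : L ≤ U)
    (hL : ∀ x, G.degree x * L x ≤ ∑ y ∈ G.neighborFinset x, L y)
    (hU : ∀ x, ∑ y ∈ G.neighborFinset x, U y ≤ G.degree x * U x) :
    ∃ f, Harmonic G f ∧ L ≤ f ∧ f ≤ U := by
  have hd' : ∀ x, (0 : ℝ) < G.degree x := fun x => by exact_mod_cast hd x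
  have : ∀ x, Fact (L x ≤ U x) := fun x => ⟨hLU x⟩
  let T : (∀ x, Set.Icc (L x) (U x)) →o (∀ x, Set.Icc (L x) (U x)) :=
    ⟨fun u x => ⟨(∑ y ∈ G.neighborFinset x, (u y : ℝ)) / G.degree x,
      (le_div_iff₀' (hd' x)).2 ((hL x).trans (Finset.sum_le_sum fun y _ => (u y).2.1)),
      (div_le_iff₀' (hd' x)).2 ((Finset.sum_le_sum fun y _ => (u y).2.2).trans (hU x))⟩,
      fun u v h x => Subtype.mk_le_mk.2 (div_le_div_of_nonneg_right
        (Finset.sum_le_sum fun y _ => h y) (hd' x).le)⟩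
  exact ⟨fun x => T.lfp x, fun x => (congrArg Subtype.val (congrFun T.map_lfp x)).symm,
    fun x => (T.lfp x).2.1, fun x => (T.lfp x).2.2⟩

end general

abbrev HV := Σ n : ℕ, Fin (3 ^ n)

def shell (n : ℕ) : Finset HV := univ.map (Function.Embedding.sigmaMk n)
lemma mem_shell {n : ℕ} {y : HV} : y ∈ shell n ↔ y.1 = n := by
  obtain ⟨m, j⟩ := y
  simp only [shell, Finset.mem_map, mem_univ, true_and]
  exact ⟨fun ⟨a, h⟩ => (congrArg Sigma.fst h).symm, fun h => by subst h; exact ⟨j, rfl⟩⟩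
lemma card_shell (n : ℕ) : #(shell n) = 3 ^ n := by simp [shell]

def nb (x : HV) : Finset HV := shell (x.1 + 1) ∪ (shell (x.1 - 1)).filter fun _ => x.1 ≠ 0
lemma mem_nb {x y : HV} : y ∈ nb x ↔ y.1 = x.1 + 1 ∨ x.1 = y.1 + 1 := by
  simp only [nb, mem_union, mem_filter, mem_shell]; omega
lemma nb0 (x : HV) (h : x.1 = 0) : nb x = shell 1 := by
  ext y; simp only [mem_nb, mem_shell]; omega
lemma nb1 (x : HV) (n : ℕ) (h : x.1 = n + 1) : nb x = shell n ∪ shell (n + 2) := by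
  ext y; simp only [mem_nb, mem_shell, mem_union]; omega
lemma disj (n : ℕ) : Disjoint (shell n) (shell (n + 2)) :=
  Finset.disjoint_left.2 fun y h1 h2 => by rw [mem_shell] at h1 h2; omega
lemma sum_shell (n : ℕ) (f : HV → ℝ) (c : ℝ) (h : ∀ y : HV, y.1 = n → f y = c) :
    ∑ y ∈ shell n, f y = 3 ^ n * c := by
  rw [Finset.sum_congr rfl fun y hy => h y (mem_shell.1 hy)]
  simp [card_shell]

def tree (x y : HV) : Prop :=
  (y.1 = x.1 + 1 ∧ (y.2 : ℕ) / 3 = x.2) ∨ (x.1 = y.1 + 1 ∧ (x.2 : ℕ) / 3 = y.2)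
instance (x y : HV) : Decidable (tree x y) := by unfold tree; infer_instance
def ee (n : ℕ) : ℤ := (n.unpair.1.unpair.1 : ℤ) - n.unpair.1.unpair.2
def cc (x y : HV) : ℤ := if tree x y then 0 else ee y.1 - ee x.1
lemma cc_symm (x y : HV) : cc y x = -cc x y := by
  have : tree y x ↔ tree x y := or_comm
  simp only [cc, this]; split_ifs <;> ring
lemma ee_surj (v : ℤ) (n : ℕ) : ∃ m, n < m ∧ ee m = v :=
  ⟨Nat.pair (Nat.pair v.toNat (-v).toNat) (n + 1), Nat.right_le_pair _ _, by simp [ee]⟩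

def GG : SimpleGraph (HV × ℤ) where
  Adj a b := b.1 ∈ nb a.1 ∧ b.2 = a.2 + cc a.1 b.1
  symm := ⟨fun a b h => ⟨mem_nb.2 (mem_nb.1 h.1).symm, by rw [cc_symm, h.2]; ring⟩⟩
  loopless := ⟨fun a h => by have := mem_nb.1 h.1; omega⟩

def emb (a : HV × ℤ) : HV ↪ HV × ℤ := ⟨fun y => (y, a.2 + cc a.1 y), fun _ _ h => congrArg Prod.fst h⟩
lemma adj_iff (a b : HV × ℤ) : GG.Adj a b ↔ b ∈ (nb a.1).map (emb a) := by
  simp only [Finset.mem_map]
  exact ⟨fun h => ⟨b.1, h.1, Prod.ext rfl h.2.symm⟩, fun ⟨y, hy, e⟩ => e ▸ ⟨hy, rfl⟩⟩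
noncomputable instance lf : GG.LocallyFinite := fun a =>
  Set.Finite.fintype (((nb a.1).map (emb a)).finite_toSet.subset fun b hb => (adj_iff a b).1 hb)
lemma nbr (a : HV × ℤ) : GG.neighborFinset a = (nb a.1).map (emb a) := by
  ext b; rw [SimpleGraph.mem_neighborFinset, adj_iff]
lemma sum_nbr (a : HV × ℤ) (f : HV × ℤ → ℝ) :
    ∑ b ∈ GG.neighborFinset a, f b = ∑ y ∈ nb a.1, f (y, a.2 + cc a.1 y) := by
  rw [nbr, Finset.sum_map]; rfl
lemma deg (a : HV × ℤ) : GG.degree a = #(nb a.1) := by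
  rw [← SimpleGraph.card_neighborFinset_eq_degree, nbr, card_map]
def v0 (n : ℕ) : HV := ⟨n, ⟨0, by positivity⟩⟩
lemma deg_pos (a : HV × ℤ) : 0 < GG.degree a := by
  rw [deg]; exact card_pos.2 ⟨v0 (a.1.1 + 1), mem_nb.2 (Or.inl rfl)⟩
lemma card1 (x : HV) (n : ℕ) (h : x.1 = n + 1) : #(nb x) = 10 * 3 ^ n := by
  rw [nb1 x n h, card_union_of_disjoint (disj n), card_shell, card_shell]; ring

instance act : AddAction ℤ (HV × ℤ) where
  vadd k a := (a.1, k + a.2)
  zero_vadd _ := Prod.ext rfl (zero_add _)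
  add_vadd _ _ _ := Prod.ext rfl (add_assoc _ _ _)
lemma vadd_def (k : ℤ) (a : HV × ℤ) : k +ᵥ a = (a.1, k + a.2) := rfl

lemma lvl0 (x : HV) (h : x.1 = 0) : x = v0 0 := by
  obtain ⟨n, j⟩ := x
  obtain rfl : n = 0 := h
  rw [Subsingleton.elim (α := Fin 1) j 0]; rfl

def par (n : ℕ) (j : Fin (3 ^ (n + 1))) : HV :=
  ⟨n, ⟨j / 3, by have := j.2; have := pow_succ 3 n; omega⟩⟩
lemma adj_par (n : ℕ) (j : Fin (3 ^ (n + 1))) (z : ℤ) : GG.Adj (par n j, z) (⟨n + 1, j⟩, z) :=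
  ⟨mem_nb.2 (Or.inl rfl), by rw [cc, if_pos (show tree _ _ from Or.inl ⟨rfl, rfl⟩), add_zero]⟩

lemma D_conn (z : ℤ) : (GG.induce {a | a.2 = z}).Connected := by
  have key : ∀ n (j : Fin (3 ^ n)),
      (GG.induce {a : HV × ℤ | a.2 = z}).Reachable ⟨(v0 0, z), rfl⟩ ⟨(⟨n, j⟩, z), rfl⟩ := by
    intro n
    induction n with
    | zero => intro j; rw [show (⟨0, j⟩ : HV) = v0 0 from lvl0 _ rfl]
    | succ n ih => exact fun j => (ih _).trans (SimpleGraph.Adj.reachable (adj_par n j z))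
  have : Nonempty {a : HV × ℤ | a.2 = z} := ⟨⟨(v0 0, z), rfl⟩⟩
  refine ⟨fun ⟨⟨⟨n, j⟩, w⟩, h⟩ ⟨⟨⟨m, i⟩, w'⟩, h'⟩ => ?_⟩
  obtain rfl : w = z := h
  obtain rfl : w' = w := h'
  exact (key n j).symm.trans (key m i)

lemma G_conn : GG.Connected := by
  have h1 : ∀ x y z, GG.Reachable (x, z) (y, z) := fun x y z =>
    ((D_conn z).preconnected ⟨(x, z), rfl⟩ ⟨(y, z), rfl⟩).map (SimpleGraph.Embedding.induce _).toHom
  have h2 : ∀ z, GG.Reachable (v0 0, z) (v0 0, z + 1) := fun z =>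
    (h1 _ ⟨2, 3⟩ z).trans ((SimpleGraph.Adj.reachable (show GG.Adj (⟨2, 3⟩, z) (⟨1, 0⟩, z + 1) from
      ⟨mem_nb.2 (Or.inr rfl), congrArg (z + ·) (show (1 : ℤ) = cc ⟨2, 3⟩ ⟨1, 0⟩ by decide +kernel)⟩)).trans (h1 _ _ _))
  have h3 : ∀ z, GG.Reachable (v0 0, 0) (v0 0, z) := by
    intro z
    induction z using Int.induction_on with
    | zero => rfl
    | succ n ih => exact ih.trans (h2 _)
    | pred n ih => exact ih.trans (by simpa using (h2 (-n - 1)).symm)
  exact ⟨fun a b => ((h3 _).trans (h1 _ a.1 a.2)).symm.trans ((h3 _).trans (h1 _ b.1 b.2))⟩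

lemma H_liou (f : HV × ℤ → ℝ) (hf : Harmonic GG f) (hi : ∀ (k : ℤ) a, f (k +ᵥ a) = f a)
    (a b : HV × ℤ) : f a = f b := by
  have h0 : ∀ x z, f (x, z) = f (x, 0) := fun x z => by simpa [vadd_def] using hi z (x, 0)
  have hf' : ∀ x, f (x, 0) = (∑ y ∈ nb x, f (y, 0)) / #(nb x) := fun x => by
    rw [hf, sum_nbr, deg]; simp only [h0]
  have h1 : ∀ x : HV, f (x, 0) = f (v0 x.1, 0) := by
    intro x
    rw [hf' x, hf' (v0 x.1)]; rfl
  have h2 : ∀ n, ∑ y ∈ shell n, f (y, 0) = 3 ^ n * f (v0 n, 0) := fun n =>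
    sum_shell n _ _ fun y hy => by rw [h1 y, hy]
  have h3 : ∀ n, f (v0 n, 0) = f (v0 0, 0) ∧ f (v0 (n + 1), 0) = f (v0 0, 0) := by
    intro n
    induction n with
    | zero =>
      have := hf' (v0 0)
      rw [nb0 _ rfl, card_shell, h2] at this
      refine ⟨rfl, ?_⟩
      push_cast at this
      change f (v0 1, 0) = _
      linarith
    | succ n ih =>
      have := hf' (v0 (n + 1))
      rw [card1 _ n rfl, nb1 _ n rfl, Finset.sum_union (disj n), h2, h2, ih.1, ih.2,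
        eq_div_iff (by positivity)] at this
      refine ⟨ih.2, mul_left_cancel₀ (show (9 : ℝ) * 3 ^ n ≠ 0 by positivity) ?_⟩
      push_cast at this
      linear_combination -this
  rw [show f a = _ from h0 a.1 a.2, show f b = _ from h0 b.1 b.2, h1 a.1, h1 b.1, (h3 a.1.1).1,
    (h3 b.1.1).1]

noncomputable def gg (n : ℕ) : ℝ := if n = 0 then 0 else 1 - 2 / 2 ^ n
lemma gg_b (n : ℕ) : 0 ≤ gg n ∧ gg n ≤ 1 := by
  rcases n with _ | n
  · simp [gg]
  · have : (2 : ℝ) / 2 ^ (n + 1) ≤ 1 := by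
      rw [div_le_one (by positivity), pow_succ]; linarith [one_le_pow₀ (one_le_two (α := ℝ)) (n := n)]
    simp only [gg, n.succ_ne_zero, if_false]
    exact ⟨by linarith, sub_le_self _ (by positivity)⟩

lemma tree_card (x : HV) : #((nb x).filter (tree x)) ≤ 4 := by
  refine (card_le_card_of_injOn (t := range 4)
    (fun y => if y.1 = x.1 + 1 then (y.2 : ℕ) % 3 else 3) (fun y _ => ?_) ?_).trans (by simp)
  · simp only [coe_range, Set.mem_Iio]; split_ifs <;> omega
  · rintro ⟨n, i⟩ h1 ⟨m, j⟩ h2 h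
    have h1 := (mem_filter.1 h1).2
    have h2 := (mem_filter.1 h2).2
    simp only [tree] at h1 h2 h
    obtain rfl : n = m := by split_ifs at h <;> omega
    obtain rfl : i = j := Fin.ext (by split_ifs at h <;> omega)
    rfl

lemma sub (x : HV) (h : 0 < gg x.1) :
    #(nb x) * gg x.1 < ∑ y ∈ (nb x).filter fun y => ¬ tree x y, gg y.1 := by
  obtain ⟨n, hn⟩ : ∃ n, x.1 = n + 2 := by
    rcases e : x.1 with _ | _ | n
    · simp [e, gg] at h
    · simp [e, gg] at h
    · exact ⟨n, rfl⟩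
  have h1 := Finset.sum_filter_add_sum_filter_not (nb x) (tree x) fun y => gg y.1
  have h2 : ∑ y ∈ (nb x).filter (tree x), gg y.1 ≤ 4 := by
    refine (Finset.sum_le_card_nsmul _ _ 1 fun y _ => (gg_b _).2).trans ?_
    simp only [nsmul_eq_mul, mul_one]
    exact_mod_cast tree_card x
  rw [nb1 x (n + 1) hn, Finset.sum_union (disj _), sum_shell _ _ (gg (n + 1)) fun y hy => by rw [hy],
    sum_shell _ _ (gg (n + 3)) fun y hy => by rw [hy], ← nb1 x (n + 1) hn] at h1
  rw [card1 x (n + 1) hn, hn]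
  have h3 : (1 : ℝ) ≤ 3 ^ n / 2 ^ n := by
    rw [← div_pow]; exact one_le_pow₀ (by norm_num)
  have e : (3 : ℝ) ^ (n + 1) * gg (n + 1) + 3 ^ (n + 1 + 2) * gg (n + 3)
      - 10 * 3 ^ (n + 1) * gg (n + 2) = 21 / 4 * (3 ^ n / 2 ^ n) := by
    simp only [gg, Nat.succ_ne_zero, if_false]
    field_simp
    ring
  push_cast
  linarith

lemma nontree {x y : HV} (h : ¬ tree x y) (w : ℤ) : w + ee x.1 + cc x y = w + ee y.1 := by
  rw [cc, if_neg h]; ring

lemma lower (k : ℤ) (h : HV × ℤ → ℝ) (b : ∀ x, 0 ≤ h x ∧ h x ≤ 1)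
    (h1 : ∀ x ∈ {a : HV × ℤ | a.2 = k}, h x = 1)
    (h2 : ∀ x ∉ {a : HV × ℤ | a.2 = k}, h x = (∑ y ∈ GG.neighborFinset x, h y) / GG.degree x)
    (a : HV × ℤ) : 9 / 20 ≤ h a := by
  have h2' : ∀ x, h x = 1 ∨ #(nb x.1) * h x = ∑ y ∈ nb x.1, h (y, x.2 + cc x.1 y) := fun x => by
    by_cases hx : x.2 = k
    · exact Or.inl (h1 x hx)
    · right
      have := deg_pos x
      rw [h2 x hx, sum_nbr, ← deg]; field_simp
  have key : ∀ a : HV × ℤ, gg a.1.1 ≤ h a := by
    rintro ⟨x, z⟩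
    obtain ⟨w, rfl⟩ : ∃ w, z = w + ee x.1 := ⟨z - ee x.1, by ring⟩
    obtain ⟨m, hm, em⟩ := ee_surj (k - w) x.1
    have mem : ∀ y : HV, y ∈ (range (m + 1)).biUnion shell ↔ y.1 ≤ m := fun y => by
      simp [mem_shell]
    obtain ⟨y, hy, hmax⟩ := Finset.exists_max_image ((range (m + 1)).biUnion shell)
      (fun y => gg y.1 - h (y, w + ee y.1)) ⟨x, (mem x).2 hm.le⟩
    by_contra hcon
    have hD : 0 < gg y.1 - h (y, w + ee y.1) :=
      lt_of_lt_of_le (sub_pos.2 (not_le.1 hcon)) (hmax x ((mem x).2 hm.le))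
    have hne : h (y, w + ee y.1) ≠ 1 := fun e => by linarith [(gg_b y.1).2]
    have hym : y.1 ≠ m := fun e => hne (h1 _ (show w + ee y.1 = k by rw [e, em]; ring))
    have hs := sub y (by linarith [(b (y, w + ee y.1)).1])
    have e1 := (h2' _).resolve_left hne
    have e2 : ∑ y' ∈ (nb y).filter fun y' => ¬ tree y y', h (y', w + ee y'.1)
        ≤ ∑ y' ∈ nb y, h (y', w + ee y.1 + cc y y') := by
      rw [Finset.sum_filter]
      refine Finset.sum_le_sum fun y' _ => ?_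
      split_ifs with ht
      · exact (b _).1
      · rw [nontree ht]
    have e3 := Finset.sum_le_card_nsmul ((nb y).filter fun y' => ¬ tree y y')
      (fun y => gg y.1 - h (y, w + ee y.1)) _ fun y' hy' => hmax y' ((mem y').2 (by
        have := mem_nb.1 (mem_filter.1 hy').1
        have := (mem y).1 hy
        omega))
    have e4 : (#((nb y).filter fun y' => ¬ tree y y') : ℝ) ≤ #(nb y) := by
      exact_mod_cast card_filter_le _ _
    rw [Finset.sum_sub_distrib, nsmul_eq_mul] at e3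
    have := mul_le_mul_of_nonneg_right e4 hD.le
    simp only at e1
    nlinarith
  have l2 : ∀ a : HV × ℤ, 2 ≤ a.1.1 → 1 / 2 ≤ h a := fun a ha => le_trans (by
    have : (2 : ℝ) ^ 2 ≤ 2 ^ a.1.1 := pow_le_pow_right₀ one_le_two ha
    have : (2 : ℝ) / 2 ^ a.1.1 ≤ 1 / 2 := by rw [div_le_iff₀ (by positivity)]; linarith
    rw [gg, if_neg (by omega)]; linarith) (key a)
  have l1 : ∀ a : HV × ℤ, 1 ≤ a.1.1 → 9 / 20 ≤ h a := fun a ha => by
    rcases ha.eq_or_lt with ha | ha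
    · rcases h2' a with e | e
      · linarith
      · rw [card1 _ 0 ha.symm, nb1 _ 0 ha.symm, Finset.sum_union (disj 0)] at e
        have e1 := Finset.sum_nonneg (s := shell 0) fun y _ => (b (y, a.2 + cc a.1 y)).1
        have e2 := Finset.card_nsmul_le_sum (shell (0 + 2)) (fun y => h (y, a.2 + cc a.1 y)) (1 / 2)
          fun y hy => l2 _ (mem_shell.1 hy).ge
        rw [card_shell] at e2
        norm_num at e e2
        linarith
    · linarith [l2 a ha]
  rcases Nat.eq_zero_or_pos a.1.1 with ha | ha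
  · rcases h2' a with e | e
    · linarith
    · rw [nb0 _ ha, card_shell] at e
      have e2 := Finset.card_nsmul_le_sum (shell 1) (fun y => h (y, a.2 + cc a.1 y)) (9 / 20)
        fun y hy => l1 _ (mem_shell.1 hy).ge
      rw [card_shell] at e2
      norm_num at e e2
      linarith
  · exact l1 a ha

lemma subh (B : ℤ → Prop) [DecidablePred B] (a : HV × ℤ) :
    GG.degree a * (if B (a.2 - ee a.1.1) then gg a.1.1 else 0)
      ≤ ∑ y ∈ GG.neighborFinset a, if B (y.2 - ee y.1.1) then gg y.1.1 else 0 := by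
  have nn : ∀ y : HV × ℤ, 0 ≤ if B (y.2 - ee y.1.1) then gg y.1.1 else 0 := fun y => by
    split_ifs
    · exact (gg_b _).1
    · exact le_rfl
  by_cases h : B (a.2 - ee a.1.1) ∧ 0 < gg a.1.1
  · rw [if_pos h.1, deg, sum_nbr]
    refine (sub _ h.2).le.trans ?_
    rw [Finset.sum_filter]
    refine Finset.sum_le_sum fun y _ => ?_
    by_cases ht : tree a.1 y
    · simpa [ht] using nn (y, a.2 + cc a.1 y)
    · have : a.2 + cc a.1 y - ee y.1 = a.2 - ee a.1.1 := by rw [cc, if_neg ht]; ring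
      simp [ht, this, h.1]
  · refine le_trans (le_of_eq ?_) (Finset.sum_nonneg fun y _ => nn y)
    split_ifs with h'
    · rw [le_antisymm (not_lt.1 fun h'' => h ⟨h', h''⟩) (gg_b _).1, mul_zero]
    · exact mul_zero _

lemma nonliou : ∃ f : HV × ℤ → ℝ, Harmonic GG f ∧ (∀ a, |f a| ≤ 1) ∧ ∃ a b, f a ≠ f b := by
  obtain ⟨f, hf, h1, h2⟩ := between deg_pos (fun a => if a.2 - ee a.1.1 = 0 then gg a.1.1 else 0)
    (fun a => 1 - if a.2 - ee a.1.1 ≠ 0 then gg a.1.1 else 0)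
    (fun a => by
      have := gg_b a.1.1
      by_cases h : a.2 - ee a.1.1 = 0 <;> simp [h, this.2])
    (subh (· = 0)) (fun a => by
      have := subh (· ≠ 0) a
      rw [Finset.sum_sub_distrib, mul_sub]
      simp only [Finset.sum_const, SimpleGraph.card_neighborFinset_eq_degree, nsmul_eq_mul]
      linarith)
  refine ⟨f, hf, fun a => ?_, (v0 3, ee 3), (v0 3, ee 3 + 1), fun e => ?_⟩
  · have e1 := h1 a
    have e2 := h2 a
    have := gg_b a.1.1
    rw [abs_le]
    by_cases h : a.2 - ee a.1.1 = 0 <;> simp [h] at e1 e2 <;> constructor <;> linarith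
  · have e1 := h1 (v0 3, ee 3)
    have e2 := h2 (v0 3, ee 3 + 1)
    simp [v0, gg] at e1 e2 e
    linarith

end Pool.Agent.Lead.Zc
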